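import Pool.Agent.Lib.MP_131179_gt.Dehn.L3

/-!
# Closed curves in the lattice
-/

set_option autoImplicit false

namespace Pool.Agent.Lib.MP_131179_gt.Dehn

/-- A simple closed curve in the lattice. -/
structure Curve (m : ℕ) where
  v : ZMod m → P3
  dir : ZMod m → Dir
  step : ∀ i, v (i + 1) = v i + dv (dir i)
  inj : Function.Injective v

namespace Curve

variable {m : ℕ} (c : Curve m)

/-- The edge number `i`. -/
def edge (i : ZMod m) : LE := if (c.dir i).2 then (c.v i, (c.dir i).1) else (c.v (i + 1), (c.dir i).1)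

/-- The set of edges. -/
def K [NeZero m] : Finset LE := Finset.univ.image c.edge

theorem mem_K [NeZero m] {e : LE} : e ∈ c.K ↔ ∃ i, c.edge i = e := by
  unfold K
  simp

theorem edge_pos {i : ZMod m} (h : (c.dir i).2 = true) : c.edge i = (c.v i, (c.dir i).1) := by
  unfold edge; rw [if_pos h]

theorem edge_neg {i : ZMod m} (h : (c.dir i).2 = false) : c.edge i = (c.v (i + 1), (c.dir i).1) := by
  unfold edge; rw [if_neg (by rw [h]; decide)]

theorem step_pos {i : ZMod m} (h : (c.dir i).2 = true) : c.v (i + 1) = c.v i + e3 (c.dir i).1 := by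
  rw [c.step, dv, if_pos h]

theorem step_neg {i : ZMod m} (h : (c.dir i).2 = false) : c.v (i + 1) + e3 (c.dir i).1 = c.v i := by
  rw [c.step, dv, if_neg (by rw [h]; decide)]
  abel

theorem inc_edge (i : ZMod m) (p : P3) : Inc (c.edge i) p ↔ p = c.v i ∨ p = c.v (i + 1) := by
  cases h : (c.dir i).2
  · rw [c.edge_neg h]
    unfold Inc
    show (p = c.v (i + 1) ∨ p = c.v (i + 1) + e3 (c.dir i).1) ↔ _
    rw [c.step_neg h]
    exact or_comm
  · rw [c.edge_pos h]
    unfold Inc
    show (p = c.v i ∨ p = c.v i + e3 (c.dir i).1) ↔ _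
    rw [← c.step_pos h]

theorem cyc_one_ne (h : 3 ≤ m) : (1 : ZMod m) ≠ 0 := by
  intro hh
  have : ((1 : ℕ) : ZMod m) = 0 := by exact_mod_cast hh
  rw [ZMod.natCast_eq_zero_iff] at this
  have := Nat.le_of_dvd one_pos this
  omega

theorem cyc_two_ne (h : 3 ≤ m) : (1 + 1 : ZMod m) ≠ 0 := by
  intro hh
  have : ((2 : ℕ) : ZMod m) = 0 := by
    rw [← hh]; push_cast; norm_num
  rw [ZMod.natCast_eq_zero_iff] at this
  have := Nat.le_of_dvd two_pos this
  omega

theorem edge_injective (h : 3 ≤ m) : Function.Injective c.edge := by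
  intro i j hij
  have h1 := (c.inc_edge i (c.v i)).2 (Or.inl rfl)
  have h2 := (c.inc_edge i (c.v (i + 1))).2 (Or.inr rfl)
  rw [hij, c.inc_edge j] at h1 h2
  rcases h1 with h1 | h1
  · exact c.inj h1
  · rcases h2 with h2 | h2
    · exfalso
      have h1 := c.inj h1
      have h2 := c.inj h2
      rw [h1] at h2
      apply cyc_two_ne h
      have h3 : j + (1 + 1) = j + 0 := by rw [add_zero, ← add_assoc]; exact h2
      exact add_left_cancel h3
    · exact add_right_cancel (c.inj h2)

/-- The edges of `K` starting at a vertex of the curve. -/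
theorem mem_K_v [NeZero m] (h : 3 ≤ m) (i : ZMod m) (k : Fin 3) :
    (c.v i, k) ∈ c.K ↔ c.dir i = (k, true) ∨ c.dir (i - 1) = (k, false) := by
  rw [c.mem_K]
  have hne : ∀ j : ZMod m, c.v (j + 1) ≠ c.v j := by
    intro j hj
    have h2 := c.inj hj
    apply cyc_one_ne h
    have h3 : j + 1 = j + 0 := by rw [add_zero]; exact h2
    exact add_left_cancel h3
  constructor
  · rintro ⟨j, hj⟩
    have h1 : Inc (c.edge j) (c.v i) := by rw [hj]; exact Or.inl rfl
    rw [c.inc_edge] at h1
    rcases h1 with h1 | h1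
    · have h1 := c.inj h1
      subst h1
      left
      cases hd : (c.dir i).2
      · rw [c.edge_neg hd, Prod.mk.injEq] at hj
        exact absurd hj.1 (hne i)
      · rw [c.edge_pos hd, Prod.mk.injEq] at hj
        exact Prod.ext hj.2 hd
    · have h1 := c.inj h1
      subst h1
      right
      rw [add_sub_cancel_right]
      cases hd : (c.dir j).2
      · rw [c.edge_neg hd, Prod.mk.injEq] at hj
        exact Prod.ext hj.2 hd
      · rw [c.edge_pos hd, Prod.mk.injEq] at hj
        exact absurd hj.1.symm (hne j)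
  · rintro (h1 | h1)
    · exact ⟨i, by rw [c.edge_pos (by rw [h1]), h1]⟩
    · exact ⟨i - 1, by rw [c.edge_neg (by rw [h1]), h1, sub_add_cancel]⟩

end Curve

/-! ### Darts -/

theorem cyc_e3_ne (k : Fin 3) : e3 k ≠ 0 := by
  fin_cases k <;> simp [e3]

theorem cyc_e3_add_ne (k l : Fin 3) : e3 k + e3 l ≠ 0 := by
  fin_cases k <;> fin_cases l <;> simp [e3]

theorem cyc_e3_inj {k l : Fin 3} (h : e3 k = e3 l) : k = l := by
  revert h
  fin_cases k <;> fin_cases l <;> simp [e3]

/-- An edge is determined by its ends. -/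
theorem cyc_edge_eq {e e' : LE} {p q : P3} (hpq : p ≠ q) (h1 : Inc e p) (h2 : Inc e q)
    (h3 : Inc e' p) (h4 : Inc e' q) : e = e' := by
  obtain ⟨a, k⟩ := e
  obtain ⟨a', k'⟩ := e'
  unfold Inc at h1 h2 h3 h4
  simp only at h1 h2 h3 h4
  rcases h1 with h1 | h1 <;> rcases h2 with h2 | h2
  · exact absurd (h1.trans h2.symm) hpq
  · rcases h3 with h3 | h3 <;> rcases h4 with h4 | h4
    · exact absurd (h3.trans h4.symm) hpq
    · subst h1
      subst h3
      rw [h2] at h4
      rw [cyc_e3_inj (add_left_cancel h4)]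
    · exfalso
      subst h1
      subst h4
      rw [h2] at h3
      apply cyc_e3_add_ne k k'
      have : p + (e3 k + e3 k') = p + 0 := by rw [add_zero, ← add_assoc, ← h3]
      exact add_left_cancel this
    · exact absurd (h3.trans h4.symm) hpq
  · rcases h3 with h3 | h3 <;> rcases h4 with h4 | h4
    · exact absurd (h3.trans h4.symm) hpq
    · exfalso
      subst h2
      subst h3
      rw [h1] at h4
      apply cyc_e3_add_ne k k'
      have : q + (e3 k + e3 k') = q + 0 := by rw [add_zero, ← add_assoc, ← h4]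
      exact add_left_cancel this
    · subst h2
      subst h4
      rw [h1] at h3
      rw [cyc_e3_inj (add_left_cancel h3)]
    · exact absurd (h3.trans h4.symm) hpq
  · exact absurd (h1.trans h2.symm) hpq

section Dart

variable (K : Finset LE)

/-- Darts: an edge with one of its ends. -/
abbrev Dart : Type := {e : LE // e ∈ K} × Bool

variable {K}

/-- The point of a dart. -/
def dpt (x : Dart K) : P3 := if x.2 then x.1.1.1 + e3 x.1.1.2 else x.1.1.1

/-- The other end of the edge. -/
def dA (x : Dart K) : Dart K := (x.1, !x.2)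

theorem dA_dA (x : Dart K) : dA (dA x) = x := by
  unfold dA; simp

theorem dpt_inc (x : Dart K) : Inc x.1.1 (dpt x) := by
  obtain ⟨e, b⟩ := x
  cases b
  · exact Or.inl rfl
  · exact Or.inr rfl

theorem dpt_dA_ne (x : Dart K) : dpt (dA x) ≠ dpt x := by
  obtain ⟨e, b⟩ := x
  intro h
  have h0 : e.1.1 = e.1.1 + e3 e.1.2 := by
    cases b
    · exact h.symm
    · exact h
  apply cyc_e3_ne e.1.2
  have : e.1.1 + e3 e.1.2 = e.1.1 + 0 := by rw [add_zero, ← h0]
  exact add_left_cancel this

theorem dA_ne (x : Dart K) : dA x ≠ x := fun h => dpt_dA_ne x (by rw [h])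

theorem eq_of_edge {x y : Dart K} (h : x.1 = y.1) : y = x ∨ y = dA x := by
  obtain ⟨e, b⟩ := x
  obtain ⟨e', b'⟩ := y
  simp only at h
  subst h
  cases b <;> cases b'
  · exact Or.inl rfl
  · exact Or.inr rfl
  · exact Or.inr rfl
  · exact Or.inl rfl

theorem exists_dart {e : LE} (he : e ∈ K) {p : P3} (h : Inc e p) :
    ∃ x : Dart K, x.1.1 = e ∧ dpt x = p := by
  rcases h with h | h
  · exact ⟨(⟨e, he⟩, false), rfl, h.symm⟩
  · exact ⟨(⟨e, he⟩, true), rfl, h.symm⟩

theorem exists_dB (hK : Valid K) (x : Dart K) :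
    ∃ y : Dart K, y ≠ x ∧ dpt y = dpt x ∧ ∀ z : Dart K, dpt z = dpt x → z = x ∨ z = y := by
  have h2 : deg K (dpt x) = 2 := by
    rcases hK (dpt x) with h | h
    · exfalso
      unfold deg at h
      rw [Finset.card_eq_zero, Finset.filter_eq_empty_iff] at h
      exact h x.1.2 (dpt_inc x)
    · exact h
  unfold deg at h2
  have hx : x.1.1 ∈ K.filter fun e => Inc e (dpt x) := Finset.mem_filter.2 ⟨x.1.2, dpt_inc x⟩
  have h1 : ((K.filter fun e => Inc e (dpt x)).erase x.1.1).card = 1 := by
    rw [Finset.card_erase_of_mem hx, h2]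
  obtain ⟨e, he⟩ := Finset.card_eq_one.1 h1
  have he' : e ∈ (K.filter fun e => Inc e (dpt x)).erase x.1.1 := by
    rw [he]; exact Finset.mem_singleton_self _
  rw [Finset.mem_erase, Finset.mem_filter] at he'
  obtain ⟨y, hy1, hy2⟩ := exists_dart he'.2.1 he'.2.2
  refine ⟨y, ?_, hy2, ?_⟩
  · rintro rfl
    exact he'.1 hy1.symm
  · intro z hz
    by_cases hzx : z.1.1 = x.1.1
    · left
      rcases eq_of_edge (Subtype.ext hzx.symm : x.1 = z.1) with h | h
      · exact h
      · exfalso
        rw [h] at hz
        exact dpt_dA_ne x hz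
    · right
      have hz' : z.1.1 ∈ (K.filter fun e => Inc e (dpt x)).erase x.1.1 := by
        rw [Finset.mem_erase, Finset.mem_filter]
        refine ⟨hzx, z.1.2, ?_⟩
        rw [← hz]; exact dpt_inc z
      rw [he, Finset.mem_singleton] at hz'
      have hzy : y.1.1 = z.1.1 := by rw [hy1, hz']
      rcases eq_of_edge (Subtype.ext hzy : y.1 = z.1) with h | h
      · exact h
      · exfalso
        rw [h] at hz
        exact dpt_dA_ne y (hz.trans hy2.symm)

/-- The other dart at the same point. -/
noncomputable def dB (hK : Valid K) (x : Dart K) : Dart K := (exists_dB hK x).choose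

theorem dB_ne (hK : Valid K) (x : Dart K) : dB hK x ≠ x := (exists_dB hK x).choose_spec.1

theorem dpt_dB (hK : Valid K) (x : Dart K) : dpt (dB hK x) = dpt x :=
  (exists_dB hK x).choose_spec.2.1

theorem dB_spec (hK : Valid K) {x z : Dart K} (h : dpt z = dpt x) : z = x ∨ z = dB hK x :=
  (exists_dB hK x).choose_spec.2.2 z h

theorem dB_dB (hK : Valid K) (x : Dart K) : dB hK (dB hK x) = x := by
  rcases dB_spec hK (dpt_dB hK x).symm with h | h
  · exact absurd h.symm (dB_ne hK x)
  · exact h.symm

theorem dB_edge_ne (hK : Valid K) (x : Dart K) : (dB hK x).1 ≠ x.1 := by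
  intro h
  rcases eq_of_edge h.symm with h' | h'
  · exact dB_ne hK x h'
  · have := dpt_dB hK x
    rw [h'] at this
    exact dpt_dA_ne x this

/-- One step along the curve. -/
noncomputable def dF (hK : Valid K) (x : Dart K) : Dart K := dB hK (dA x)

theorem dF_injective (hK : Valid K) : Function.Injective (dF hK) := by
  intro x y h
  have h1 : dA x = dA y := by
    rw [← dB_dB hK (dA x), ← dB_dB hK (dA y)]
    exact congrArg _ h
  rw [← dA_dA x, ← dA_dA y, h1]

theorem dB_ne_iterate (hK : Valid K) (k : ℕ) : ∀ y, dB hK y ≠ (dF hK)^[k] y := by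
  induction k using Nat.strong_induction_on with
  | _ k ih =>
    intro y h
    match k, ih, h with
    | 0, _, h => exact dB_ne hK y h
    | 1, _, h =>
      have h1 : dB hK y = dB hK (dA y) := h
      have h2 := congrArg (dB hK) h1
      rw [dB_dB, dB_dB] at h2
      exact dA_ne y h2.symm
    | k + 2, ih, h =>
      apply ih k (by omega) (dF hK y)
      have h1 : dB hK y = dF hK ((dF hK)^[k] (dF hK y)) := by
        rw [h, Function.iterate_succ_apply', Function.iterate_succ_apply]
      have h5 : ∀ z, dB hK (dF hK z) = dA z := fun z => dB_dB hK (dA z)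
      have h2 : y = dA ((dF hK)^[k] (dF hK y)) := by
        have h3 := congrArg (dB hK) h1
        rw [dB_dB, h5] at h3
        exact h3
      have h4 : dB hK (dF hK y) = dA y := h5 y
      rw [h4]
      conv_lhs => rw [h2]
      rw [dA_dA]

end Dart

/-- A nonempty connected lattice link is a simple closed curve. -/
theorem exists_curve {K : Finset LE} (hK : Valid K) (hne : K.Nonempty)
    (hconn : ∀ f : LE → Bool, (∀ e ∈ K, ∀ e' ∈ K, ∀ p, Inc e p → Inc e' p → f e = f e') →
      ∀ e ∈ K, ∀ e' ∈ K, f e = f e') :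
    ∃ (m : ℕ) (_ : NeZero m) (c : Curve m), 3 ≤ m ∧ c.K = K := by
  obtain ⟨e0, he0⟩ := hne
  set x0 : Dart K := (⟨e0, he0⟩, false) with hx0
  set f := dF hK with hf
  set m := Function.minimalPeriod f x0 with hm
  have hper : x0 ∈ Function.periodicPts f :=
    Function.Injective.mem_periodicPts (dF_injective hK) x0
  have hm0 : 0 < m := Function.minimalPeriod_pos_of_mem_periodicPts hper
  have : NeZero m := ⟨by omega⟩
  set o : ZMod m → Dart K := fun i => f^[i.val] x0 with ho
  have o0 : o 0 = x0 := by simp [ho]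
  have hnat : ∀ n : ℕ, o (n : ZMod m) = f^[n] x0 := by
    intro n
    simp only [ho]
    rw [ZMod.val_natCast, Function.iterate_mod_minimalPeriod_eq]
  have o1 : ∀ i : ZMod m, o (i + 1) = f (o i) := by
    intro i
    have h1 : i + 1 = ((i.val + 1 : ℕ) : ZMod m) := by
      push_cast; rw [ZMod.natCast_zmod_val]
    rw [h1, hnat, Function.iterate_succ_apply']
  have oinj : Function.Injective o := by
    intro i j hij
    simp only [ho] at hij
    have h1 := Function.iterate_injOn_Iio_minimalPeriod (f := f) (x := x0)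
      (show i.val ∈ Set.Iio (Function.minimalPeriod f x0) from ZMod.val_lt i)
      (show j.val ∈ Set.Iio (Function.minimalPeriod f x0) from ZMod.val_lt j) hij
    exact ZMod.val_injective m h1
  have oadd : ∀ (n : ℕ) (i : ZMod m), o (i + n) = f^[n] (o i) := by
    intro n
    induction n with
    | zero => intro i; simp
    | succ n ih =>
      intro i
      rw [Function.iterate_succ_apply', ← ih i, ← o1]
      push_cast
      rw [add_assoc]
  have oB : ∀ i j : ZMod m, dB hK (o i) ≠ o j := by
    intro i j h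
    have h1 : j = i + ((j - i).val : ℕ) := by
      rw [ZMod.natCast_zmod_val]; abel
    rw [h1, oadd] at h
    exact dB_ne_iterate hK _ _ h
  have vnext : ∀ i : ZMod m, dpt (o (i + 1)) = dpt (dA (o i)) := by
    intro i
    rw [o1]
    exact dpt_dB hK _
  have hinj : Function.Injective fun i => dpt (o i) := by
    intro i j hij
    rcases dB_spec hK (x := o i) (z := o j) hij.symm with h | h
    · exact (oinj h).symm
    · exact absurd h.symm (oB i j)
  set c : Curve m :=
    { v := fun i => dpt (o i)
      dir := fun i => ((o i).1.1.2, !(o i).2)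
      step := by
        intro i
        show dpt (o (i + 1)) = _
        rw [vnext]
        generalize o i = x
        obtain ⟨e, b⟩ := x
        cases b
        · simp [dpt, dA, dv]
        · simp [dpt, dA, dv]
      inj := hinj } with hc
  have hedge : ∀ i, c.edge i = (o i).1.1 := by
    intro i
    cases hb : (o i).2
    · have h1 : (c.dir i).2 = true := by
        show (!(o i).2) = true
        rw [hb]; rfl
      rw [c.edge_pos h1]
      show (dpt (o i), (o i).1.1.2) = (o i).1.1
      unfold dpt
      rw [if_neg (by rw [hb]; decide)]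
    · have h1 : (c.dir i).2 = false := by
        show (!(o i).2) = false
        rw [hb]; rfl
      rw [c.edge_neg h1]
      show (dpt (o (i + 1)), (o i).1.1.2) = (o i).1.1
      rw [vnext]
      have h2 : (dA (o i)).2 = false := by
        show (!(o i).2) = false
        rw [hb]; rfl
      unfold dpt
      rw [if_neg (by rw [h2]; decide)]
      rfl
  -- the length
  have hm3 : 3 ≤ m := by
    by_contra hlt
    have hcase : m = 1 ∨ m = 2 := by omega
    rcases hcase with h1 | h2
    · have h3 : (1 : ZMod m) = 0 := by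
        have : ((1 : ℕ) : ZMod m) = 0 := by
          rw [ZMod.natCast_eq_zero_iff, h1]
        exact_mod_cast this
      have h4 := o1 0
      rw [h3, add_zero] at h4
      have h5 : (f (o 0)).1 = (dA (o 0)).1 := by
        rw [← h4]; rfl
      exact dB_edge_ne hK (dA (o 0)) h5
    · have h3 : (1 + 1 : ZMod m) = 0 := by
        have : ((2 : ℕ) : ZMod m) = 0 := by
          rw [ZMod.natCast_eq_zero_iff, h2]
        have h4 : (1 + 1 : ZMod m) = ((2 : ℕ) : ZMod m) := by push_cast; norm_num
        rw [h4, this]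
      have h5 : (o 1).1 ≠ (o 0).1 := by
        have h4 := o1 0
        rw [zero_add] at h4
        rw [h4]
        exact dB_edge_ne hK (dA (o 0))
      apply h5
      apply Subtype.ext
      have h6 : dpt (o 1) = dpt (dA (o 0)) := by
        have := vnext 0
        rwa [zero_add] at this
      have h7 : dpt (o 0) = dpt (dA (o 1)) := by
        have := vnext 1
        rwa [h3] at this
      refine cyc_edge_eq (p := dpt (o 0)) (q := dpt (o 1)) ?_ ?_ (dpt_inc _) (dpt_inc _) ?_
      · rw [h6]; exact (dpt_dA_ne _).symm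
      · rw [h7]; exact dpt_inc (dA (o 1))
      · rw [h6]; exact dpt_inc (dA (o 0))
  refine ⟨m, inferInstance, c, hm3, ?_⟩
  have hsub : ∀ e, e ∈ c.K → e ∈ K := by
    intro e he
    rw [c.mem_K] at he
    obtain ⟨i, rfl⟩ := he
    rw [hedge]
    exact (o i).1.2
  have hstep : ∀ e ∈ K, ∀ e' ∈ K, ∀ p, Inc e p → Inc e' p → e ∈ c.K → e' ∈ c.K := by
    intro e he e' he' p hp hp' hec
    rw [c.mem_K] at hec
    obtain ⟨i, hi⟩ := hec
    rw [hedge] at hi
    obtain ⟨y, hy1, hy2⟩ := exists_dart he hp
    obtain ⟨z, hz1, hz2⟩ := exists_dart he' hp'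
    have hoy : (o i).1 = y.1 := Subtype.ext (hi.trans hy1.symm)
    rw [c.mem_K]
    rcases dB_spec hK (hz2.trans hy2.symm) with h | h
    · refine ⟨i, ?_⟩
      rw [hedge, hi, ← hy1, ← hz1, h]
    · rcases eq_of_edge hoy with h' | h'
      · refine ⟨i - 1, ?_⟩
        rw [hedge, ← hz1, h, h']
        have h2 := o1 (i - 1)
        rw [sub_add_cancel] at h2
        rw [h2, hf]
        unfold dF
        rw [dB_dB]
        rfl
      · refine ⟨i + 1, ?_⟩
        rw [hedge, ← hz1, h, h', o1]
        rfl
  ext e
  refine ⟨hsub e, fun he => ?_⟩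
  have h0 : e0 ∈ c.K := by
    rw [c.mem_K]
    exact ⟨0, by rw [hedge, o0]⟩
  have h1 := hconn (fun e => decide (e ∈ c.K)) (fun e he e' he' p hp hp' => by
    rw [decide_eq_decide]
    exact ⟨hstep e he e' he' p hp hp', hstep e' he' e he p hp' hp⟩) e0 he0 e he
  simpa [h0] using h1

end Pool.Agent.Lib.MP_131179_gt.Dehn
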