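import Pool.Agent.Lib.MP_131179_gt.Dehn.Wordk
import Pool.Agent.Lib.MP_131179_gt.Dehn.Cyc

/-!
# The lattice link of a list of edges

The edge number `j` is on the level `2 j`; in the levels between `2 j` and `2 j + 2` the strands go up
vertically.
-/

set_option autoImplicit false

namespace Pool.Agent.Lib.MP_131179_gt.Dehn

/-- The strands after `j` steps. -/
abbrev Pt (es : List HE) (j : ℕ) : Finset Site := fin ∅ (es.take j)

/-- The lattice link of a list of edges. -/
def Kc (es : List HE) : Finset LE :=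
  (Finset.range es.length).biUnion fun j =>
    ((es[j]?).toList.map fun e => toLE (2 * (j : ℤ), e)).toFinset ∪
      (Pt es (j + 1)).image (vert (2 * (j : ℤ))) ∪ (Pt es (j + 1)).image (vert (2 * (j : ℤ) + 1))

/-! ### The strands -/

theorem coarse_Pt_zero (es : List HE) : Pt es 0 = ∅ := rfl

theorem coarse_Pt_succ {es : List HE} {j : ℕ} {e : HE} (h : es[j]? = some e) :
    Pt es (j + 1) = nxs (Pt es j) e := by
  unfold Pt
  rw [List.take_add_one, h, fin_append]
  rfl

theorem coarse_Pt_ge {es : List HE} (h0 : fin ∅ es = ∅) {j : ℕ} (h : es.length ≤ j) :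
    Pt es j = ∅ := by
  unfold Pt
  rw [List.take_of_length_le h, h0]

theorem coarse_mem_succ {es : List HE} {j : ℕ} {e : HE} (h : es[j]? = some e) (s : Site) :
    s ∈ Pt es (j + 1) ↔ (s ∈ Pt es j ↔ ¬ (s = e.lo ∨ s = e.hi)) := by
  rw [coarse_Pt_succ h, nxs, Finset.mem_symmDiff]
  simp only [Finset.mem_insert, Finset.mem_singleton]
  tauto

theorem coarse_toLE_ne (q : ℤ × HE) (s : Site) (y : ℤ) : vert y s ≠ toLE q := by
  intro h
  apply llink_dir q
  rw [← h]
  rfl

theorem coarse_mem {es : List HE} {a : LE} : a ∈ Kc es ↔ ∃ j : ℕ, j < es.length ∧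
    ((∃ e, es[j]? = some e ∧ a = toLE (2 * (j : ℤ), e)) ∨
      ∃ s ∈ Pt es (j + 1), a = vert (2 * (j : ℤ)) s ∨ a = vert (2 * (j : ℤ) + 1) s) := by
  unfold Kc
  simp only [Finset.mem_biUnion, Finset.mem_range, Finset.mem_union, List.mem_toFinset,
    List.mem_map, Option.mem_toList, Finset.mem_image]
  constructor
  · rintro ⟨j, hj, (⟨e, he, rfl⟩ | ⟨s, hs, rfl⟩) | ⟨s, hs, rfl⟩⟩
    · exact ⟨j, hj, Or.inl ⟨e, he, rfl⟩⟩
    · exact ⟨j, hj, Or.inr ⟨s, hs, Or.inl rfl⟩⟩
    · exact ⟨j, hj, Or.inr ⟨s, hs, Or.inr rfl⟩⟩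
  · rintro ⟨j, hj, ⟨e, he, rfl⟩ | ⟨s, hs, rfl | rfl⟩⟩
    · exact ⟨j, hj, Or.inl (Or.inl ⟨e, he, rfl⟩)⟩
    · exact ⟨j, hj, Or.inl (Or.inr ⟨s, hs, rfl⟩)⟩
    · exact ⟨j, hj, Or.inr ⟨s, hs, rfl⟩⟩

theorem coarse_mem_hor {es : List HE} {q : ℤ × HE} :
    toLE q ∈ Kc es ↔ ∃ j : ℕ, q.1 = 2 * j ∧ es[j]? = some q.2 := by
  rw [coarse_mem]
  constructor
  · rintro ⟨j, hj, ⟨e, he, h⟩ | ⟨s, hs, h | h⟩⟩
    · have h := toLE_injective h
      subst h
      exact ⟨j, rfl, he⟩
    · exact absurd h.symm (coarse_toLE_ne _ _ _)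
    · exact absurd h.symm (coarse_toLE_ne _ _ _)
  · rintro ⟨j, h1, h2⟩
    have hj : j < es.length := by
      by_contra hlt
      rw [List.getElem?_eq_none (by omega)] at h2
      exact absurd h2 (by simp)
    exact ⟨j, hj, Or.inl ⟨q.2, h2, by rw [← h1]⟩⟩

theorem mem_Kc_0 {es : List HE} {x y z : ℤ} :
    (((x, y, z), 0) : LE) ∈ Kc es ↔ ∃ j : ℕ, y = 2 * j ∧ es[j]? = some (.ex x z) :=
  coarse_mem_hor (q := (y, .ex x z))

theorem mem_Kc_2 {es : List HE} {x y z : ℤ} :
    (((x, y, z), 2) : LE) ∈ Kc es ↔ ∃ j : ℕ, y = 2 * j ∧ es[j]? = some (.ez x z) :=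
  coarse_mem_hor (q := (y, .ez x z))

theorem coarse_vert (y : ℤ) (x z : ℤ) : vert y (st x z) = ((x, y, z), 1) := rfl

theorem coarse_vert_inj {y y' : ℤ} {s s' : Site} (h : vert y s = vert y' s') : y = y' ∧ s = s' := by
  unfold vert at h
  simp only [Prod.mk.injEq, and_true] at h
  refine ⟨h.2.1, ?_⟩
  have h1 : s = st (cx s) (cz s) := rfl
  have h2 : s' = st (cx s') (cz s') := rfl
  rw [h1, h2, h.1, h.2.2]

theorem mem_Kc_1 {es : List HE} {x y z : ℤ} :
    (((x, y, z), 1) : LE) ∈ Kc es ↔ ∃ j : ℕ, j < es.length ∧ (y = 2 * j ∨ y = 2 * j + 1) ∧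
      st x z ∈ Pt es (j + 1) := by
  rw [coarse_mem]
  constructor
  · rintro ⟨j, hj, ⟨e, he, h⟩ | ⟨s, hs, h | h⟩⟩
    · exact absurd h (coarse_toLE_ne _ (st x z) _)
    · rw [← coarse_vert] at h
      obtain ⟨h1, rfl⟩ := coarse_vert_inj h
      exact ⟨j, hj, Or.inl h1, hs⟩
    · rw [← coarse_vert] at h
      obtain ⟨h1, rfl⟩ := coarse_vert_inj h
      exact ⟨j, hj, Or.inr h1, hs⟩
  · rintro ⟨j, hj, rfl | rfl, h⟩
    · exact ⟨j, hj, Or.inr ⟨_, h, Or.inl rfl⟩⟩
    · exact ⟨j, hj, Or.inr ⟨_, h, Or.inr rfl⟩⟩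

theorem coarse_up_even {es : List HE} (h0 : fin ∅ es = ∅) {x z : ℤ} (j : ℕ) :
    (((x, 2 * (j : ℤ), z), 1) : LE) ∈ Kc es ↔ st x z ∈ Pt es (j + 1) := by
  rw [mem_Kc_1]
  constructor
  · rintro ⟨j', h1, h2 | h2, h3⟩
    · obtain rfl : j = j' := by omega
      exact h3
    · omega
  · intro h
    refine ⟨j, ?_, Or.inl rfl, h⟩
    by_contra hlt
    rw [coarse_Pt_ge h0 (by omega)] at h
    exact absurd h (Finset.notMem_empty _)

theorem coarse_up_odd {es : List HE} (h0 : fin ∅ es = ∅) {x z : ℤ} (j : ℕ) :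
    (((x, 2 * (j : ℤ) + 1, z), 1) : LE) ∈ Kc es ↔ st x z ∈ Pt es (j + 1) := by
  rw [mem_Kc_1]
  constructor
  · rintro ⟨j', h1, h2 | h2, h3⟩
    · omega
    · obtain rfl : j = j' := by omega
      exact h3
  · intro h
    refine ⟨j, ?_, Or.inr rfl, h⟩
    by_contra hlt
    rw [coarse_Pt_ge h0 (by omega)] at h
    exact absurd h (Finset.notMem_empty _)

theorem coarse_down_even {es : List HE} (h0 : fin ∅ es = ∅) {x z : ℤ} (j : ℕ) :
    (((x, 2 * (j : ℤ) - 1, z), 1) : LE) ∈ Kc es ↔ st x z ∈ Pt es j := by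
  cases j with
  | zero =>
    rw [mem_Kc_1]
    constructor
    · rintro ⟨j', h1, h2 | h2, h3⟩
      · omega
      · omega
    · intro h
      exact absurd h (Finset.notMem_empty _)
  | succ j =>
    rw [← coarse_up_odd h0 j]
    have : 2 * (((j + 1 : ℕ)) : ℤ) - 1 = 2 * (j : ℤ) + 1 := by push_cast; ring
    rw [this]

/-! ### Degrees -/

theorem coarse_sub_inj (p : P3) {k l : Fin 3} (h : p - e3 k = p - e3 l) : k = l :=
  cyc_e3_inj (sub_right_injective h)

theorem coarse_deg (K : Finset LE) (p : P3) : deg K p =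
    ∑ k : Fin 3, ((if (p, k) ∈ K then 1 else 0) + (if (p - e3 k, k) ∈ K then 1 else 0)) := by
  classical
  unfold deg
  have h1 : (K.filter fun e => Inc e p) =
      ((Finset.univ.filter fun k : Fin 3 => (p, k) ∈ K).image fun k => (p, k)) ∪
      ((Finset.univ.filter fun k : Fin 3 => (p - e3 k, k) ∈ K).image fun k => (p - e3 k, k)) := by
    ext e
    obtain ⟨a, k⟩ := e
    rw [Finset.mem_filter, Finset.mem_union, Finset.mem_image, Finset.mem_image]
    constructor
    · rintro ⟨h, h' | h'⟩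
      · have h' : p = a := h'
        subst h'
        exact Or.inl ⟨k, Finset.mem_filter.2 ⟨Finset.mem_univ _, h⟩, rfl⟩
      · have h' : p = a + e3 k := h'
        subst h'
        refine Or.inr ⟨k, Finset.mem_filter.2 ⟨Finset.mem_univ _, ?_⟩, ?_⟩
        · rw [add_sub_cancel_right]; exact h
        · rw [add_sub_cancel_right]
    · rintro (⟨k', h, h'⟩ | ⟨k', h, h'⟩)
      · rw [← h']
        exact ⟨(Finset.mem_filter.1 h).2, Or.inl rfl⟩
      · rw [← h']
        exact ⟨(Finset.mem_filter.1 h).2, Or.inr (by rw [sub_add_cancel])⟩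
  rw [h1, Finset.card_union_of_disjoint, Finset.card_image_of_injOn, Finset.card_image_of_injOn,
    Finset.card_filter, Finset.card_filter, ← Finset.sum_add_distrib]
  · intro k _ l _ h
    exact (Prod.mk.inj h).2
  · intro k _ l _ h
    exact (Prod.mk.inj h).2
  · rw [Finset.disjoint_left]
    rintro e h2 h3
    simp only [Finset.mem_filter, Finset.mem_image, Finset.mem_univ, true_and] at h2 h3
    obtain ⟨k, _, rfl⟩ := h2
    obtain ⟨l, _, h⟩ := h3
    rw [Prod.mk.injEq] at h
    apply cyc_e3_ne l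
    have := h.1
    rwa [sub_eq_self] at this

theorem coarse_hor_none {es : List HE} {p : P3} {k : Fin 3} (hk : k ≠ 1)
    (h : ∀ j : ℕ, p.2.1 ≠ 2 * (j : ℤ)) : (p, k) ∉ Kc es := by
  obtain ⟨x, y, z⟩ := p
  intro hh
  fin_cases k
  · obtain ⟨j, h1, _⟩ := mem_Kc_0.1 hh
    exact h j h1
  · exact hk rfl
  · obtain ⟨j, h1, _⟩ := mem_Kc_2.1 hh
    exact h j h1

theorem coarse_Pt_hor {es : List HE} {j : ℕ} {e : HE} (h : es[j]? = some e) (x z : ℤ) :
    ((if (((x, 2 * (j : ℤ), z), 0) : LE) ∈ Kc es then 1 else 0) +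
      (if (((x - 1, 2 * (j : ℤ), z), 0) : LE) ∈ Kc es then 1 else 0)) +
    ((if (((x, 2 * (j : ℤ), z), 2) : LE) ∈ Kc es then 1 else 0) +
      (if (((x, 2 * (j : ℤ), z - 1), 2) : LE) ∈ Kc es then 1 else 0)) =
    if st x z = e.lo ∨ st x z = e.hi then 1 else 0 := by
  have hj : ∀ {j' : ℕ} {e' : HE}, 2 * (j : ℤ) = 2 * j' → es[j']? = some e' → e' = e := by
    intro j' e' h1 h2
    obtain rfl : j = j' := by omega
    rw [h] at h2
    exact (Option.some.inj h2).symm
  have m0 : ∀ x', (((x', 2 * (j : ℤ), z), 0) : LE) ∈ Kc es ↔ e = .ex x' z := by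
    intro x'
    rw [mem_Kc_0]
    constructor
    · rintro ⟨j', h1, h2⟩
      exact (hj h1 h2).symm
    · rintro rfl
      exact ⟨j, rfl, h⟩
  have m2 : ∀ z', (((x, 2 * (j : ℤ), z'), 2) : LE) ∈ Kc es ↔ e = .ez x z' := by
    intro z'
    rw [mem_Kc_2]
    constructor
    · rintro ⟨j', h1, h2⟩
      exact (hj h1 h2).symm
    · rintro rfl
      exact ⟨j, rfl, h⟩
  simp only [m0, m2]
  have hst : ∀ a b c d : ℤ, st a b = st c d ↔ a = c ∧ b = d := by
    intro a b c d
    rw [llink_st_iff]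
    rfl
  cases e with
  | ex i k =>
    simp only [HE.ex.injEq, reduceCtorEq, if_false, HE.lo, HE.hi, hst]
    by_cases h1 : i = x ∧ k = z
    · rw [if_pos h1, if_neg (by omega), if_pos (by omega)]
    · rw [if_neg h1]
      by_cases h2 : i = x - 1 ∧ k = z
      · rw [if_pos h2, if_pos (by omega)]
      · rw [if_neg h2, if_neg (by omega)]
  | ez i k =>
    simp only [HE.ez.injEq, reduceCtorEq, if_false, HE.lo, HE.hi, hst]
    by_cases h1 : i = x ∧ k = z
    · rw [if_pos h1, if_neg (by omega), if_pos (by omega)]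
    · rw [if_neg h1]
      by_cases h2 : i = x ∧ k = z - 1
      · rw [if_pos h2, if_pos (by omega)]
      · rw [if_neg h2, if_neg (by omega)]

theorem valid_Kc {es : List HE} (h0 : fin ∅ es = ∅) : Valid (Kc es) := by
  rintro ⟨x, y, z⟩
  rw [coarse_deg, Fin.sum_univ_three]
  have s0 : ((x, y, z) : P3) - e3 0 = (x - 1, y, z) := by simp [e3]
  have s1 : ((x, y, z) : P3) - e3 1 = (x, y - 1, z) := by simp [e3]
  have s2 : ((x, y, z) : P3) - e3 2 = (x, y, z - 1) := by simp [e3]
  rw [s0, s1, s2]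
  by_cases hev : ∃ j : ℕ, y = 2 * (j : ℤ)
  · obtain ⟨j, rfl⟩ := hev
    have hu := coarse_up_even h0 (x := x) (z := z) j
    have hd := coarse_down_even h0 (x := x) (z := z) j
    by_cases hj : j < es.length
    · have he : es[j]? = some es[j] := List.getElem?_eq_getElem hj
      have h1 := coarse_Pt_hor he x z
      have h2 := coarse_mem_succ he (st x z)
      set e := es[j]
      rw [← hu, ← hd] at h2
      by_cases h4 : st x z = e.lo ∨ st x z = e.hi
      · rw [if_pos h4] at h1
        by_cases h5 : (((x, 2 * (j : ℤ) - 1, z), 1) : LE) ∈ Kc es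
        · have h6 : (((x, 2 * (j : ℤ), z), 1) : LE) ∉ Kc es := by tauto
          rw [if_pos h5, if_neg h6]
          omega
        · have h6 : (((x, 2 * (j : ℤ), z), 1) : LE) ∈ Kc es := by tauto
          rw [if_neg h5, if_pos h6]
          omega
      · rw [if_neg h4] at h1
        by_cases h5 : (((x, 2 * (j : ℤ) - 1, z), 1) : LE) ∈ Kc es
        · have h6 : (((x, 2 * (j : ℤ), z), 1) : LE) ∈ Kc es := by tauto
          rw [if_pos h5, if_pos h6]
          omega
        · have h6 : (((x, 2 * (j : ℤ), z), 1) : LE) ∉ Kc es := by tauto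
          rw [if_neg h5, if_neg h6]
          omega
    · have hn : ∀ x' z' : ℤ, ∀ k : Fin 3, k ≠ 1 → (((x', 2 * (j : ℤ), z'), k) : LE) ∉ Kc es := by
        intro x' z' k hk hh
        have key : ∀ {j' : ℕ} {e' : HE}, 2 * (j : ℤ) = 2 * j' → es[j']? = some e' → False := by
          intro j' e' h1 h2
          obtain rfl : j = j' := by omega
          rw [List.getElem?_eq_none (by omega)] at h2
          exact absurd h2 (by simp)
        fin_cases k
        · obtain ⟨j', h1, h2⟩ := mem_Kc_0.1 hh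
          exact key h1 h2
        · exact hk rfl
        · obtain ⟨j', h1, h2⟩ := mem_Kc_2.1 hh
          exact key h1 h2
      left
      rw [coarse_Pt_ge h0 (by omega : es.length ≤ j + 1)] at hu
      rw [coarse_Pt_ge h0 (by omega : es.length ≤ j)] at hd
      rw [if_neg (hn _ _ 0 (by decide)), if_neg (hn _ _ 0 (by decide)),
        if_neg (hn _ _ 2 (by decide)), if_neg (hn _ _ 2 (by decide)),
        if_neg (fun h => Finset.notMem_empty _ (hu.1 h)),
        if_neg (fun h => Finset.notMem_empty _ (hd.1 h))]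
  · push Not at hev
    have hn : ∀ x' z' : ℤ, ∀ k : Fin 3, k ≠ 1 → (((x', y, z'), k) : LE) ∉ Kc es :=
      fun x' z' k hk => coarse_hor_none hk hev
    rw [if_neg (hn _ _ 0 (by decide)), if_neg (hn _ _ 0 (by decide)),
      if_neg (hn _ _ 2 (by decide)), if_neg (hn _ _ 2 (by decide))]
    by_cases hod : ∃ j : ℕ, y = 2 * (j : ℤ) + 1
    · obtain ⟨j, rfl⟩ := hod
      simp only [add_sub_cancel_right, coarse_up_even h0, coarse_up_odd h0]
      by_cases h : st x z ∈ Pt es (j + 1)
      · right; simp [h]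
      · left; simp [h]
    · push Not at hod
      left
      have h1 : (((x, y, z), 1) : LE) ∉ Kc es := by
        intro hh
        obtain ⟨j, _, h1 | h1, _⟩ := mem_Kc_1.1 hh
        · exact hev j h1
        · exact hod j h1
      have h2 : (((x, y - 1, z), 1) : LE) ∉ Kc es := by
        intro hh
        obtain ⟨j, _, h1 | h1, _⟩ := mem_Kc_1.1 hh
        · exact hod j (by omega)
        · exact hev (j + 1) (by push_cast; omega)
      rw [if_neg h1, if_neg h2]

theorem coarse_hor_of {es : List HE} {p : P3} {i : Fin 3} (hi : i ≠ 1) (h : (p, i) ∈ Kc es) :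
    ∃ (j : ℕ) (e : HE), es[j]? = some e ∧ (p, i) = toLE (2 * (j : ℤ), e) := by
  obtain ⟨q, hq⟩ := llink_surj (p, i) hi
  rw [← hq] at h
  obtain ⟨j, h1, h2⟩ := coarse_mem_hor.1 h
  exact ⟨j, q.2, h2, by rw [← hq, ← h1]⟩

theorem oneH_Kc (es : List HE) : OneH (Kc es) := by
  intro p p' i i' hi hi' h h' hd
  obtain ⟨j, e, h1, h2⟩ := coarse_hor_of hi h
  obtain ⟨j', e', h1', h2'⟩ := coarse_hor_of hi' h'
  have a1 : p.2.1 = 2 * (j : ℤ) := by
    have := llink_height (2 * (j : ℤ), e)
    rw [← h2] at this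
    exact this
  have a2 : p'.2.1 = 2 * (j' : ℤ) := by
    have := llink_height (2 * (j' : ℤ), e')
    rw [← h2'] at this
    exact this
  rw [a1, a2] at hd
  have hjj : j = j' := by
    have := abs_le.1 hd
    omega
  subst hjj
  rw [h1] at h1'
  obtain rfl := Option.some.inj h1'
  rw [← h2'] at h2
  rw [Prod.mk.injEq] at h2
  exact h2

/-- Curves such that before and after each horizontal edge there are two vertical edges, and which
continue in the same vertical direction after an edge in the direction `0`. -/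
structure GoodCurve {m : ℕ} (c : Curve m) : Prop where
  three : 3 ≤ m
  ver : ∀ i, (c.dir i).1 ≠ 1 → (c.dir (i + 1)).1 = 1 ∧ c.dir (i + 2) = c.dir (i + 1) ∧
    (c.dir (i - 1)).1 = 1 ∧ c.dir (i - 2) = c.dir (i - 1)
  xm : ∀ i, (c.dir i).1 = 0 → c.dir (i - 1) = c.dir (i + 1)

/-- Edges leaving the point `p` in the direction `d`. -/
def CLeg (K : Finset LE) (p : P3) (d : Dir) : Prop :=
  if d.2 then (p, d.1) ∈ K else (p - e3 d.1, d.1) ∈ K

theorem coarse_leg {m : ℕ} [NeZero m] {c : Curve m} (h3 : 3 ≤ m) (i : ZMod m) (d : Dir) :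
    CLeg c.K (c.v i) d ↔ d = c.dir i ∨ d = (c.dir (i - 1)).neg := by
  obtain ⟨k, b⟩ := d
  cases b
  · show (c.v i - e3 k, k) ∈ c.K ↔ _
    rw [c.mem_K]
    constructor
    · rintro ⟨j, hj⟩
      have h1 : Inc (c.edge j) (c.v i) := by
        rw [hj]
        exact Or.inr (by rw [sub_add_cancel])
      have hne : ∀ x : P3, x ≠ x - e3 k := by
        intro x hx
        apply cyc_e3_ne k
        exact sub_eq_self.1 hx.symm
      rw [c.inc_edge] at h1
      rcases h1 with h1 | h1
      · have h1 := c.inj h1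
        subst h1
        left
        cases hd : (c.dir i).2
        · rw [c.edge_neg hd, Prod.mk.injEq] at hj
          exact (Prod.ext hj.2.symm hd.symm : ((k, false) : Dir) = c.dir i)
        · rw [c.edge_pos hd, Prod.mk.injEq] at hj
          exact absurd hj.1 (hne _)
      · have h1 := c.inj h1
        subst h1
        right
        rw [add_sub_cancel_right]
        cases hd : (c.dir j).2
        · rw [c.edge_neg hd, Prod.mk.injEq] at hj
          exact absurd hj.1 (hne _)
        · rw [c.edge_pos hd, Prod.mk.injEq] at hj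
          refine Prod.ext hj.2.symm ?_
          show false = !(c.dir j).2
          rw [hd]; rfl
    · rintro (h | h)
      · refine ⟨i, ?_⟩
        have hd : (c.dir i).2 = false := by rw [← h]
        have hk : (c.dir i).1 = k := by rw [← h]
        have := c.step_neg hd
        rw [hk] at this
        rw [c.edge_neg hd, hk, ← this, add_sub_cancel_right]
      · refine ⟨i - 1, ?_⟩
        have hk : k = (c.dir (i - 1)).1 := congrArg Prod.fst h
        have hd : false = !(c.dir (i - 1)).2 := congrArg Prod.snd h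
        have hd' : (c.dir (i - 1)).2 = true := by
          cases h' : (c.dir (i - 1)).2
          · rw [h'] at hd; exact absurd hd (by decide)
          · rfl
        have := c.step_pos hd'
        rw [sub_add_cancel, ← hk] at this
        rw [c.edge_pos hd', ← hk, this, add_sub_cancel_right]
  · show (c.v i, k) ∈ c.K ↔ _
    rw [c.mem_K_v h3]
    constructor
    · rintro (h | h)
      · left; exact h.symm
      · right; rw [h]; rfl
    · rintro (h | h)
      · left; exact h.symm
      · right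
        have hk : k = (c.dir (i - 1)).1 := congrArg Prod.fst h
        have hd : true = !(c.dir (i - 1)).2 := congrArg Prod.snd h
        refine Prod.ext hk.symm ?_
        cases h' : (c.dir (i - 1)).2
        · rfl
        · rw [h'] at hd; exact absurd hd (by decide)

theorem coarse_no_back {m : ℕ} {c : Curve m} (h3 : 3 ≤ m) (i : ZMod m) :
    c.dir i ≠ (c.dir (i - 1)).neg := by
  intro h
  have h1 := c.step (i - 1)
  have h2 := c.step i
  rw [sub_add_cancel] at h1
  have h4 : dv (c.dir i) = - dv (c.dir (i - 1)) := by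
    rw [h]
    generalize c.dir (i - 1) = d
    obtain ⟨k, b⟩ := d
    cases b
    · simp [dv, Dir.neg]
    · simp [dv, Dir.neg]
  rw [h4, h1, add_neg_cancel_right] at h2
  have h5 := c.inj h2
  apply Curve.cyc_two_ne h3
  have h6 : (i - 1) + (1 + 1) = (i - 1) + 0 := by
    have h7 : (i - 1) + (1 + 1) = i + 1 := by ring
    rw [h7, h5, add_zero]
  exact add_left_cancel h6

/-- At odd heights there are only vertical edges. -/
theorem coarse_odd {es : List HE} {p : P3} {d : Dir} (hodd : ∀ j : ℕ, p.2.1 ≠ 2 * (j : ℤ))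
    (h : CLeg (Kc es) p d) : d.1 = 1 := by
  by_contra hne
  obtain ⟨k, b⟩ := d
  cases b
  · have h' : (p - e3 k, k) ∈ Kc es := h
    refine coarse_hor_none hne ?_ h'
    intro j hj
    apply hodd j
    rw [← hj]
    simp only at hne
    fin_cases k
    · simp [e3]
    · exact absurd rfl hne
    · simp [e3]
  · exact coarse_hor_none hne hodd h

theorem coarse_dv_height (d : Dir) : (dv d).2.1 = if d.1 = 1 then (if d.2 then 1 else -1) else 0 := by
  obtain ⟨k, b⟩ := d
  fin_cases k <;> cases b <;> simp [dv, e3]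

theorem coarse_step_height {m : ℕ} (c : Curve m) (i : ZMod m) :
    (c.v (i + 1)).2.1 = (c.v i).2.1 + (dv (c.dir i)).2.1 := by
  rw [c.step]; rfl

/-- The height of a horizontal edge of the curve. -/
theorem coarse_hor_height {m : ℕ} [NeZero m] {c : Curve m} {es : List HE} (hc : c.K = Kc es)
    {i : ZMod m} (hd : (c.dir i).1 ≠ 1) : ∃ (j : ℕ) (e : HE), es[j]? = some e ∧
      c.edge i = toLE (2 * (j : ℤ), e) ∧ (c.v i).2.1 = 2 * (j : ℤ) ∧
      (c.v (i + 1)).2.1 = 2 * (j : ℤ) := by
  have h1 : c.edge i ∈ Kc es := by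
    rw [← hc, c.mem_K]; exact ⟨i, rfl⟩
  have h2 : (c.edge i).2 = (c.dir i).1 := by
    cases h : (c.dir i).2
    · rw [c.edge_neg h]
    · rw [c.edge_pos h]
  have h3 : (c.v (i + 1)).2.1 = (c.v i).2.1 := by
    rw [coarse_step_height, coarse_dv_height, if_neg hd, add_zero]
  have h4 : (c.edge i).1.2.1 = (c.v i).2.1 := by
    cases h : (c.dir i).2
    · rw [c.edge_neg h, h3]
    · rw [c.edge_pos h]
  obtain ⟨j, e, h5, h6⟩ := coarse_hor_of (p := (c.edge i).1) (i := (c.edge i).2)
    (by rw [h2]; exact hd) h1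
  have h7 := llink_height (2 * (j : ℤ), e)
  have h8 : c.edge i = toLE (2 * (j : ℤ), e) := h6
  rw [← h8, h4] at h7
  exact ⟨j, e, h5, h8, h7, h3.trans h7⟩

theorem coarse_edge_inj_succ {m : ℕ} (c : Curve m) (h3 : 3 ≤ m) (i : ZMod m) :
    c.edge (i + 1) ≠ c.edge i := by
  intro h
  have h1 := c.edge_injective h3 h
  apply Curve.cyc_one_ne h3
  have h2 : i + 1 = i + 0 := by rw [add_zero]; exact h1
  exact add_left_cancel h2

/-- Two consecutive edges are not both horizontal. -/
theorem coarse_not_both {m : ℕ} [NeZero m] {c : Curve m} {es : List HE} (h3 : 3 ≤ m)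
    (hc : c.K = Kc es) {i : ZMod m} (h : (c.dir i).1 ≠ 1) : (c.dir (i + 1)).1 = 1 := by
  by_contra h'
  obtain ⟨j, e, h1, h2, _, h4⟩ := coarse_hor_height hc h
  obtain ⟨j', e', h1', h2', h3', _⟩ := coarse_hor_height hc h'
  rw [h4] at h3'
  obtain rfl : j = j' := by omega
  rw [h1] at h1'
  obtain rfl := Option.some.inj h1'
  exact coarse_edge_inj_succ c h3 i (h2'.trans h2.symm)

theorem coarse_ends {m : ℕ} {c : Curve m} {i : ZMod m} {a y k : ℤ}
    (h : c.edge i = toLE (y, .ex a k)) :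
    (c.v i = (a, y, k) ∧ c.v (i + 1) = (a + 1, y, k)) ∨
      (c.v i = (a + 1, y, k) ∧ c.v (i + 1) = (a, y, k)) := by
  have h0 : toLE (y, .ex a k) = ((a, y, k), 0) := rfl
  have h1 : ((a, y, k) : P3) + e3 0 = (a + 1, y, k) := by simp [e3]
  rw [h0] at h
  cases hd : (c.dir i).2
  · right
    rw [c.edge_neg hd, Prod.mk.injEq] at h
    have h7 := c.step_neg hd
    rw [h.1, h.2, h1] at h7
    exact ⟨h7.symm, h.1⟩
  · left
    rw [c.edge_pos hd, Prod.mk.injEq] at h
    have h7 := c.step_pos hd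
    rw [h.1, h.2, h1] at h7
    exact ⟨h.1, h7⟩

theorem goodCurve_Kc {es : List HE} (h : Nice ∅ es) (h0 : fin ∅ es = ∅) {m : ℕ} [NeZero m]
    {c : Curve m} (h3 : 3 ≤ m) (hc : c.K = Kc es) : GoodCurve c := by
  have hleg : ∀ i d, CLeg (Kc es) (c.v i) d ↔ d = c.dir i ∨ d = (c.dir (i - 1)).neg := by
    intro i d
    rw [← hc]; exact coarse_leg h3 i d
  have hone : ∀ i, (c.dir i).1 ≠ 1 → (c.dir (i - 1)).1 = 1 := by
    intro i hi
    by_contra h'
    have := coarse_not_both h3 hc h'
    rw [sub_add_cancel] at this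
    exact hi this
  have hver : ∀ i, (c.dir i).1 ≠ 1 → (c.dir (i + 1)).1 = 1 ∧ c.dir (i + 2) = c.dir (i + 1) ∧
      (c.dir (i - 1)).1 = 1 ∧ c.dir (i - 2) = c.dir (i - 1) := by
    intro i hi
    obtain ⟨j, e, h1, h2, h4, h5⟩ := coarse_hor_height hc hi
    have hb := coarse_not_both h3 hc hi
    have ha := hone i hi
    refine ⟨hb, ?_, ha, ?_⟩
    · have h6 := coarse_step_height c (i + 1)
      rw [coarse_dv_height, if_pos hb, h5] at h6
      have e1 : i + 1 + 1 = i + 2 := by ring
      rw [e1] at h6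
      have h7 : ∀ j : ℕ, (c.v (i + 2)).2.1 ≠ 2 * (j : ℤ) := by
        intro j' hj'
        rw [h6] at hj'
        split_ifs at hj' <;> omega
      have h8 := coarse_odd h7 ((hleg (i + 2) (c.dir (i + 2))).2 (Or.inl rfl))
      have h9 := coarse_no_back (c := c) h3 (i + 2)
      have e2 : i + 2 - 1 = i + 1 := by ring
      rw [e2] at h9
      refine Prod.ext (h8.trans hb.symm) ?_
      by_contra hne
      apply h9
      refine Prod.ext (h8.trans hb.symm) ?_
      show (c.dir (i + 2)).2 = !(c.dir (i + 1)).2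
      revert hne
      cases (c.dir (i + 2)).2 <;> cases (c.dir (i + 1)).2 <;> simp
    · have h6 := coarse_step_height c (i - 1)
      rw [coarse_dv_height, if_pos ha, sub_add_cancel, h4] at h6
      have h7 : ∀ j : ℕ, (c.v (i - 1)).2.1 ≠ 2 * (j : ℤ) := by
        intro j' hj'
        rw [hj'] at h6
        split_ifs at h6 <;> omega
      have e1 : i - 1 - 1 = i - 2 := by ring
      have h8 := coarse_odd h7 ((hleg (i - 1) (c.dir (i - 1 - 1)).neg).2 (Or.inr rfl))
      rw [e1] at h8
      have h8 : (c.dir (i - 2)).1 = 1 := h8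
      have h9 := coarse_no_back (c := c) h3 (i - 1)
      rw [e1] at h9
      refine Prod.ext (h8.trans ha.symm) ?_
      by_contra hne
      apply h9
      refine Prod.ext (ha.trans h8.symm) ?_
      show (c.dir (i - 1)).2 = !(c.dir (i - 2)).2
      revert hne
      cases (c.dir (i - 2)).2 <;> cases (c.dir (i - 1)).2 <;> simp
  refine ⟨h3, hver, ?_⟩
  intro i hi
  have hi1 : (c.dir i).1 ≠ 1 := by rw [hi]; decide
  obtain ⟨hb, _, ha, _⟩ := hver i hi1
  obtain ⟨j, e, h1, h2, h4, h5⟩ := coarse_hor_height hc hi1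
  have hdir : (c.edge i).2 = 0 := by
    cases h : (c.dir i).2
    · rw [c.edge_neg h, ← hi]
    · rw [c.edge_pos h, ← hi]
  obtain ⟨a, k, rfl⟩ : ∃ a k, e = .ex a k := by
    cases e with
    | ex a k => exact ⟨a, k, rfl⟩
    | ez a k =>
      rw [h2] at hdir
      exact absurd hdir (by show (2 : Fin 3) ≠ 0; decide)
  have hN := h.ex j a k h1
  have hN' : st a k ∈ Pt es j ↔ st (a + 1) k ∉ Pt es j := hN
  -- vertical legs at the two ends
  have hst : ∀ a b c d : ℤ, st a b = st c d ↔ a = c ∧ b = d := by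
    intro a b c d
    rw [llink_st_iff]
    rfl
  have up_lo : CLeg (Kc es) ((a, 2 * (j : ℤ), k) : P3) (1, true) ↔ st a k ∉ Pt es j := by
    show (((a, 2 * (j : ℤ), k), 1) : LE) ∈ Kc es ↔ _
    rw [coarse_up_even h0, coarse_mem_succ h1]
    simp [HE.lo]
  have up_hi : CLeg (Kc es) ((a + 1, 2 * (j : ℤ), k) : P3) (1, true) ↔
      st (a + 1) k ∉ Pt es j := by
    show (((a + 1, 2 * (j : ℤ), k), 1) : LE) ∈ Kc es ↔ _
    rw [coarse_up_even h0, coarse_mem_succ h1]
    simp [HE.hi]
  -- the direction of the vertical leg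
  have vleg : ∀ i, CLeg (Kc es) (c.v i) (1, true) → ∀ d : Dir, d.1 = 1 →
      (d = c.dir i ∨ d = (c.dir (i - 1)).neg) →
      ((c.dir i).1 ≠ 1 ∨ (c.dir (i - 1)).1 ≠ 1) → d.2 = true := by
    intro i h6 d hd h7 h8
    rw [hleg] at h6
    have h9 : ((1, true) : Dir) = d := by
      rcases h6 with h6 | h6 <;> rcases h7 with h7 | h7
      · rw [h6, h7]
      · exfalso
        rcases h8 with h8 | h8
        · exact h8 (by rw [← h6])
        · apply h8
          have := congrArg Prod.fst h7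
          rw [hd] at this
          exact this.symm
      · exfalso
        rcases h8 with h8 | h8
        · exact h8 (by rw [← h7, hd])
        · apply h8
          have := congrArg Prod.fst h6
          exact this.symm
      · rw [h6, h7]
    rw [← h9]
  have vleg' : ∀ i, ∀ d : Dir, d.1 = 1 → (d = c.dir i ∨ d = (c.dir (i - 1)).neg) → d.2 = true →
      CLeg (Kc es) (c.v i) (1, true) := by
    intro i d hd h7 h8
    rw [hleg]
    have h9 : d = (1, true) := Prod.ext hd h8
    rw [← h9]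
    exact h7
  have i1 : i + 1 - 1 = i := by ring
  -- leg at v i: (c.dir (i-1)).neg ; leg at v (i+1): c.dir (i+1)
  have A1 : CLeg (Kc es) (c.v i) (1, true) ↔ (c.dir (i - 1)).2 = false := by
    constructor
    · intro h6
      have := vleg i h6 (c.dir (i - 1)).neg ha (Or.inr rfl) (Or.inl hi1)
      have h7 : (!(c.dir (i - 1)).2) = true := this
      simpa using h7
    · intro h6
      refine vleg' i (c.dir (i - 1)).neg ha (Or.inr rfl) ?_
      show (!(c.dir (i - 1)).2) = true
      rw [h6]; rfl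
  have A2 : CLeg (Kc es) (c.v (i + 1)) (1, true) ↔ (c.dir (i + 1)).2 = true := by
    constructor
    · intro h6
      exact vleg (i + 1) h6 (c.dir (i + 1)) hb (Or.inl rfl) (Or.inr (by rw [i1]; exact hi1))
    · intro h6
      exact vleg' (i + 1) (c.dir (i + 1)) hb (Or.inl rfl) h6
  have hends := coarse_ends h2
  have key : (c.dir (i - 1)).2 = (c.dir (i + 1)).2 := by
    have h10 : (c.dir (i - 1)).2 = false ↔ (c.dir (i + 1)).2 = false := by
      have h11 : (c.dir (i + 1)).2 = false ↔ ¬ (c.dir (i + 1)).2 = true := by simp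
      rw [h11, ← A1, ← A2]
      rcases hends with ⟨e1, e2⟩ | ⟨e1, e2⟩
      · rw [e1, e2, up_lo, up_hi, ← hN']
      · rw [e1, e2, up_lo, up_hi, not_not, hN']
    revert h10
    cases (c.dir (i - 1)).2 <;> cases (c.dir (i + 1)).2 <;> simp
  exact Prod.ext (ha.trans hb.symm) key

end Pool.Agent.Lib.MP_131179_gt.Dehn
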