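import Pool.Agent.Lib.MP_131179_gt.Dehn.LabRun
import Pool.Agent.Lib.MP_131179_gt.Dehn.Coarse
import Pool.Agent.Lib.MP_131179_gt.Lab
import Pool.Agent.Lib.MP_131179_gt.Hol

/-!
# Links with one component
-/

set_option autoImplicit false

namespace Pool.Agent.Lib.MP_131179_gt.Dehn

/-- Labels which are constant along the strands. -/
structure ConstRule {C : Type} (es : List HE) (F : ℕ → Site → C) : Prop where
  keep : ∀ j e s, es[j]? = some e → s ∈ Pt es j → s ≠ e.lo → s ≠ e.hi → F (j + 1) s = F j s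
  right : ∀ j e, es[j]? = some e → e.lo ∈ Pt es j → e.hi ∉ Pt es j → F (j + 1) e.hi = F j e.lo
  left : ∀ j e, es[j]? = some e → e.lo ∉ Pt es j → e.hi ∈ Pt es j → F (j + 1) e.lo = F j e.hi
  birth : ∀ j e, es[j]? = some e → e.lo ∉ Pt es j → e.hi ∉ Pt es j →
    F (j + 1) e.hi = F (j + 1) e.lo
  death : ∀ j e, es[j]? = some e → e.lo ∈ Pt es j → e.hi ∈ Pt es j → F j e.hi = F j e.lo

theorem oneComp_Pt_succ {es : List HE} {j : ℕ} {e : HE} (h : es[j]? = some e) :
    Pt es (j + 1) = nxs (Pt es j) e := by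
  obtain ⟨hj, he⟩ := List.getElem?_eq_some_iff.1 h
  have h1 : es.take (j + 1) = es.take j ++ [e] := by
    rw [← he]
    exact (List.take_concat_get' es j hj).symm
  unfold Pt
  rw [h1, fin_append]
  rfl

theorem oneComp_Pt_big {es : List HE} (h0 : fin ∅ es = ∅) {j : ℕ} (hj : es.length ≤ j) :
    Pt es j = ∅ := by
  unfold Pt
  rw [List.take_of_length_le hj, h0]

theorem oneComp_step {es : List HE} {C : Type} {F : ℕ → Site → C} (hF : ConstRule es F) (i : ℕ)
    (e : HE) (he : es[i]? = some e) :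
    Path (triv C) (wd (F (i + 1)) (fin ∅ (es.take i)) e) (lst (F i) (fin ∅ (es.take i)))
      (lst (F (i + 1)) (fin ∅ (es.take (i + 1)))) := by
  have h1 : fin ∅ (es.take (i + 1)) = nxs (fin ∅ (es.take i)) e := oneComp_Pt_succ he
  rw [h1]
  refine wd_path_act (Q := triv C) (fun _ _ => rfl) ?_ ?_ ?_ ?_ ?_
  · exact fun s hs h1 h2 => hF.keep i e s he hs h1 h2
  · exact fun h1 h2 => hF.right i e he h1 h2
  · exact fun h1 h2 => hF.left i e he h1 h2
  · exact fun h1 h2 => hF.birth i e he h1 h2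
  · exact fun h1 h2 => hF.death i e he h1 h2

theorem oneComp_map {es : List HE} {C D : Type} {F : ℕ → Site → C} (hF : ConstRule es F)
    (g : C → D) : ConstRule es fun j s => g (F j s) where
  keep := fun j e s h1 h2 h3 h4 => congrArg g (hF.keep j e s h1 h2 h3 h4)
  right := fun j e h1 h2 h3 => congrArg g (hF.right j e h1 h2 h3)
  left := fun j e h1 h2 h3 => congrArg g (hF.left j e h1 h2 h3)
  birth := fun j e h1 h2 h3 => congrArg g (hF.birth j e h1 h2 h3)
  death := fun j e h1 h2 h3 => congrArg g (hF.death j e h1 h2 h3)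

/-- The labels of the strands occur in the word. -/
theorem oneComp_hasLabel {es : List HE} (h0 : fin ∅ es = ∅) {F : ℕ → Site → Bool}
    (hF : ConstRule es F) {j : ℕ} {s : Site} (hs : s ∈ Pt es j) :
    HasLabel (F j s) (runL F 0 ∅ es) := by
  by_contra hcon
  have hj : j ≤ es.length := by
    by_contra hlt
    rw [oneComp_Pt_big h0 (by omega)] at hs
    exact absurd hs (Finset.notMem_empty s)
  have h1 := runL_path (Q := triv Bool) F ∅ es (oneComp_step hF) j hj
  have h2 : lst (F 0) (∅ : Finset Site) = [] := by simp [lst]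
  rw [h2] at h1
  have hS : Closed (triv Bool) {y | y ≠ F j s} := ⟨fun _ h => h, fun _ h _ _ => h⟩
  have h3 := path_labels hS h1 (by
    intro x hx hxe
    apply hcon
    have h4 : es = es.take j ++ es.drop j := (List.take_append_drop j es).symm
    rw [h4, runL_append, hasLabel_append]
    left
    rw [← hxe]
    exact hx) (by simp) (F j s) (by
      unfold lst
      rw [List.mem_map]
      exact ⟨s, by rw [Finset.mem_sort]; exact hs, rfl⟩)
  exact h3 rfl

theorem one_comp {L : Link} (hL : ¬ AtLeastTwoComponents L) {es : List HE} (h0 : fin ∅ es = ∅)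
    (hd : IsDiag (run1 ∅ es) L) {C : Type} {F : ℕ → Site → C} (hF : ConstRule es F) {j j' : ℕ}
    {s s' : Site} (hs : s ∈ Pt es j) (hs' : s' ∈ Pt es j') : F j s = F j' s' := by
  classical
  by_contra hne
  apply hL
  set F' : ℕ → Site → Bool := fun i q => decide (F i q = F j s) with hF'
  have hC : ConstRule es F' := oneComp_map hF fun c => decide (c = F j s)
  have h1 := runL_path (Q := triv Bool) F' ∅ es (oneComp_step hC) es.length le_rfl
  rw [List.take_length, h0] at h1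
  have h2 : ∀ f : Site → Bool, lst f (∅ : Finset Site) = [] := by simp [lst]
  rw [h2, h2] at h1
  refine ⟨runL F' 0 ∅ es, h1, ?_, ?_, ?_⟩
  · rw [erase_runL]
    exact hd
  · have h3 := oneComp_hasLabel h0 hC hs
    have h4 : F' j s = true := by simp [hF']
    rw [h4] at h3
    exact h3
  · have h3 := oneComp_hasLabel h0 hC hs'
    have h4 : F' j' s' = false := by
      simp only [hF', decide_eq_false_iff_not]
      exact fun h => hne h.symm
    rw [h4] at h3
    exact h3

theorem oneComp_inc_lo (y : ℤ) (e : HE) : Inc (toLE (y, e)) (cx e.lo, y, cz e.lo) := by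
  left
  cases e <;> rfl

theorem oneComp_inc_hi (y : ℤ) (e : HE) : Inc (toLE (y, e)) (cx e.hi, y, cz e.hi) := by
  right
  cases e with
  | ex i k => simp [toLE, HE.hi, e3, st, cx, cz]
  | ez i k => simp [toLE, HE.hi, e3, st, cx, cz]

theorem oneComp_inc_v (y : ℤ) (s : Site) : Inc (vert y s) (cx s, y, cz s) := Or.inl rfl

theorem oneComp_inc_v' (y y' : ℤ) (s : Site) (h : y' = y + 1) :
    Inc (vert y s) (cx s, y', cz s) := by
  right
  rw [h]
  simp [vert, e3]

theorem oneComp_mem_v {es : List HE} {j : ℕ} (hj : j < es.length) {s : Site}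
    (hs : s ∈ Pt es (j + 1)) :
    vert (2 * (j : ℤ)) s ∈ Kc es ∧ vert (2 * (j : ℤ) + 1) s ∈ Kc es := by
  unfold Kc
  constructor
  · rw [Finset.mem_biUnion]
    refine ⟨j, Finset.mem_range.2 hj, ?_⟩
    rw [Finset.mem_union, Finset.mem_union]
    exact Or.inl (Or.inr (Finset.mem_image_of_mem _ hs))
  · rw [Finset.mem_biUnion]
    refine ⟨j, Finset.mem_range.2 hj, ?_⟩
    rw [Finset.mem_union, Finset.mem_union]
    exact Or.inr (Finset.mem_image_of_mem _ hs)

theorem oneComp_mem_h {es : List HE} {j : ℕ} {e : HE} (he : es[j]? = some e) :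
    toLE (2 * (j : ℤ), e) ∈ Kc es := by
  obtain ⟨hj, -⟩ := List.getElem?_eq_some_iff.1 he
  unfold Kc
  rw [Finset.mem_biUnion]
  refine ⟨j, Finset.mem_range.2 hj, ?_⟩
  rw [Finset.mem_union, Finset.mem_union]
  left
  left
  rw [he]
  simp

theorem oneComp_mem_v2 {es : List HE} (h0 : fin ∅ es = ∅) {j : ℕ} {s : Site}
    (hs : s ∈ Pt es j) : vert (2 * (j : ℤ) - 1) s ∈ Kc es := by
  cases j with
  | zero =>
    have : Pt es 0 = ∅ := rfl
    rw [this] at hs
    exact absurd hs (Finset.notMem_empty s)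
  | succ j =>
    have hj : j < es.length := by
      by_contra hlt
      rw [oneComp_Pt_big h0 (by omega)] at hs
      exact absurd hs (Finset.notMem_empty s)
    have h1 := (oneComp_mem_v hj hs).2
    have h2 : 2 * ((j + 1 : ℕ) : ℤ) - 1 = 2 * (j : ℤ) + 1 := by push_cast; ring
    rw [h2]
    exact h1

theorem oneComp_cases {es : List HE} {e : LE} (he : e ∈ Kc es) :
    (∃ (j : ℕ) (a : HE), es[j]? = some a ∧ e = toLE (2 * (j : ℤ), a)) ∨
      (∃ (j : ℕ) (s : Site), j < es.length ∧ s ∈ Pt es (j + 1) ∧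
        (e = vert (2 * (j : ℤ)) s ∨ e = vert (2 * (j : ℤ) + 1) s)) := by
  unfold Kc at he
  rw [Finset.mem_biUnion] at he
  obtain ⟨j, hj, he⟩ := he
  rw [Finset.mem_range] at hj
  rw [Finset.mem_union, Finset.mem_union] at he
  rcases he with (he | he) | he
  · left
    rw [List.mem_toFinset, List.mem_map] at he
    obtain ⟨a, ha, rfl⟩ := he
    rw [Option.mem_toList] at ha
    exact ⟨j, a, ha, rfl⟩
  · right
    rw [Finset.mem_image] at he
    obtain ⟨s, hs, rfl⟩ := he
    exact ⟨j, s, hj, hs, Or.inl rfl⟩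
  · right
    rw [Finset.mem_image] at he
    obtain ⟨s, hs, rfl⟩ := he
    exact ⟨j, s, hj, hs, Or.inr rfl⟩

/-- The lattice link of a knot is connected. -/
theorem conn_Kc {L : Link} (hL : ¬ AtLeastTwoComponents L) {es : List HE} (h0 : fin ∅ es = ∅)
    (hd : IsDiag (run1 ∅ es) L) (f : LE → Bool)
    (hf : ∀ e ∈ Kc es, ∀ e' ∈ Kc es, ∀ p, Inc e p → Inc e' p → f e = f e') :
    ∀ e ∈ Kc es, ∀ e' ∈ Kc es, f e = f e' := by
  -- neighbouring vertical edges
  have hvv : ∀ j : ℕ, j < es.length → ∀ s ∈ Pt es (j + 1),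
      f (vert (2 * (j : ℤ) + 1) s) = f (vert (2 * (j : ℤ)) s) := by
    intro j hj s hs
    obtain ⟨h1, h2⟩ := oneComp_mem_v hj hs
    exact hf _ h2 _ h1 _ (oneComp_inc_v _ s) (oneComp_inc_v' _ _ s rfl)
  have hcast : ∀ j : ℕ, 2 * ((j + 1 : ℕ) : ℤ) - 1 = 2 * (j : ℤ) + 1 := fun j => by
    push_cast; ring
  have hlt : ∀ {j : ℕ} {e : HE}, es[j]? = some e → j < es.length := fun h =>
    (List.getElem?_eq_some_iff.1 h).1
  -- lower neighbours of a horizontal edge
  have hlo : ∀ j e, es[j]? = some e → e.lo ∈ Pt es j →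
      f (vert (2 * (j : ℤ) - 1) e.lo) = f (toLE (2 * (j : ℤ), e)) := fun j e he hs =>
    hf _ (oneComp_mem_v2 h0 hs) _ (oneComp_mem_h he) _
      (oneComp_inc_v' _ (2 * (j : ℤ)) _ (by ring)) (oneComp_inc_lo _ e)
  have hhi : ∀ j e, es[j]? = some e → e.hi ∈ Pt es j →
      f (vert (2 * (j : ℤ) - 1) e.hi) = f (toLE (2 * (j : ℤ), e)) := fun j e he hs =>
    hf _ (oneComp_mem_v2 h0 hs) _ (oneComp_mem_h he) _
      (oneComp_inc_v' _ (2 * (j : ℤ)) _ (by ring)) (oneComp_inc_hi _ e)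
  -- upper neighbours
  have ulo : ∀ j e, es[j]? = some e → e.lo ∈ Pt es (j + 1) →
      f (vert (2 * (j : ℤ) + 1) e.lo) = f (toLE (2 * (j : ℤ), e)) := by
    intro j e he hs
    rw [hvv j (hlt he) _ hs]
    exact hf _ (oneComp_mem_v (hlt he) hs).1 _ (oneComp_mem_h he) _ (oneComp_inc_v _ _)
      (oneComp_inc_lo _ e)
  have uhi : ∀ j e, es[j]? = some e → e.hi ∈ Pt es (j + 1) →
      f (vert (2 * (j : ℤ) + 1) e.hi) = f (toLE (2 * (j : ℤ), e)) := by
    intro j e he hs
    rw [hvv j (hlt he) _ hs]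
    exact hf _ (oneComp_mem_v (hlt he) hs).1 _ (oneComp_mem_h he) _ (oneComp_inc_v _ _)
      (oneComp_inc_hi _ e)
  set F : ℕ → Site → Bool := fun j s => f (vert (2 * (j : ℤ) - 1) s) with hFdef
  have hF : ConstRule es F := by
    refine ⟨?_, ?_, ?_, ?_, ?_⟩
    · intro j e s he hs h1 h2
      show f (vert (2 * ((j + 1 : ℕ) : ℤ) - 1) s) = f (vert (2 * (j : ℤ) - 1) s)
      rw [hcast]
      have hs' : s ∈ Pt es (j + 1) := by
        rw [oneComp_Pt_succ he]
        exact (mem_nxs h1 h2).2 hs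
      rw [hvv j (hlt he) s hs']
      exact hf _ (oneComp_mem_v (hlt he) hs').1 _ (oneComp_mem_v2 h0 hs) _ (oneComp_inc_v _ _)
        (oneComp_inc_v' _ (2 * (j : ℤ)) _ (by ring))
    · intro j e he h1 h2
      show f (vert (2 * ((j + 1 : ℕ) : ℤ) - 1) e.hi) = f (vert (2 * (j : ℤ) - 1) e.lo)
      rw [hcast, hlo j e he h1]
      apply uhi j e he
      rw [oneComp_Pt_succ he]
      exact hi_mem_nxs.2 h2
    · intro j e he h1 h2
      show f (vert (2 * ((j + 1 : ℕ) : ℤ) - 1) e.lo) = f (vert (2 * (j : ℤ) - 1) e.hi)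
      rw [hcast, hhi j e he h2]
      apply ulo j e he
      rw [oneComp_Pt_succ he]
      exact lo_mem_nxs.2 h1
    · intro j e he h1 h2
      show f (vert (2 * ((j + 1 : ℕ) : ℤ) - 1) e.hi) = f (vert (2 * ((j + 1 : ℕ) : ℤ) - 1) e.lo)
      rw [hcast, ulo j e he (by rw [oneComp_Pt_succ he]; exact lo_mem_nxs.2 h1)]
      exact uhi j e he (by rw [oneComp_Pt_succ he]; exact hi_mem_nxs.2 h2)
    · intro j e he h1 h2
      show f (vert (2 * (j : ℤ) - 1) e.hi) = f (vert (2 * (j : ℤ) - 1) e.lo)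
      rw [hlo j e he h1, hhi j e he h2]
  have key : ∀ e ∈ Kc es, ∃ j s, s ∈ Pt es j ∧ f e = F j s := by
    intro e he
    rcases oneComp_cases he with ⟨j, a, ha, rfl⟩ | ⟨j, s, hj, hs, rfl | rfl⟩
    · by_cases h1 : a.lo ∈ Pt es j
      · exact ⟨j, a.lo, h1, (hlo j a ha h1).symm⟩
      · have h2 : a.lo ∈ Pt es (j + 1) := by
          rw [oneComp_Pt_succ ha]
          exact lo_mem_nxs.2 h1
        refine ⟨j + 1, a.lo, h2, ?_⟩
        show _ = f (vert (2 * ((j + 1 : ℕ) : ℤ) - 1) a.lo)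
        rw [hcast]
        exact (ulo j a ha h2).symm
    · refine ⟨j + 1, s, hs, ?_⟩
      show _ = f (vert (2 * ((j + 1 : ℕ) : ℤ) - 1) s)
      rw [hcast]
      exact (hvv j hj s hs).symm
    · refine ⟨j + 1, s, hs, ?_⟩
      show _ = f (vert (2 * ((j + 1 : ℕ) : ℤ) - 1) s)
      rw [hcast]
  intro e he e' he'
  obtain ⟨j, s, hs, h1⟩ := key e he
  obtain ⟨j', s', hs', h2⟩ := key e' he'
  rw [h1, h2]
  exact one_comp hL h0 hd hF hs hs'

end Pool.Agent.Lib.MP_131179_gt.Dehn
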