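import Pool.Agent.Lib.MP_131179_gt.Dehn.LabRun
import Pool.Agent.Lib.MP_131179_gt.Dehn.Coarse
import Pool.Agent.Lib.MP_131179_gt.Orient
import Pool.Agent.Lib.MP_131179_gt.Lab

/-!
# The exponent of the second curve
-/

set_option autoImplicit false
set_option linter.unusedSectionVars false

namespace Pool.Agent.Lib.MP_131179_gt.Dehn

/-- Orientations: `ε j s` is the direction of the strand at the point `s` after `j` steps (`1` upwards,
`-1` downwards, and `0` if there is no strand). -/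
structure OrRule (es : List HE) (ε : ℕ → Site → ℤ) : Prop where
  out : ∀ j s, s ∉ Pt es j → ε j s = 0
  one : ∀ j s, s ∈ Pt es j → ε j s = 1 ∨ ε j s = -1
  keep : ∀ j e s, es[j]? = some e → s ≠ e.lo → s ≠ e.hi → ε (j + 1) s = ε j s
  sum : ∀ j e, es[j]? = some e → ε (j + 1) e.lo + ε (j + 1) e.hi = ε j e.lo + ε j e.hi

/-- The labels in the palette `flip` given by an orientation. -/
def fl (ε : ℕ → Site → ℤ) (j : ℕ) (s : Site) : Bool := decide (ε j s = 1)

/-- The values are `1` or `-1` on `P` and `0` outside. -/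
def WriOO (f : Site → ℤ) (P : Finset Site) : Prop :=
  (∀ s, s ∉ P → f s = 0) ∧ ∀ s, s ∈ P → f s = 1 ∨ f s = -1

/-- The rules for orientations, starting at the time `j` with the strands `P`. -/
def WriS (ε : ℕ → Site → ℤ) : ℕ → Finset Site → List HE → Prop
  | j, P, [] => WriOO (ε j) P
  | j, P, e :: es => WriOO (ε j) P ∧ (∀ s, s ≠ e.lo → s ≠ e.hi → ε (j + 1) s = ε j s) ∧
      ε (j + 1) e.lo + ε (j + 1) e.hi = ε j e.lo + ε j e.hi ∧ WriS ε (j + 1) (nxs P e) es

theorem wri_S_oo {ε : ℕ → Site → ℤ} {j : ℕ} {P : Finset Site} {es : List HE}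
    (h : WriS ε j P es) : WriOO (ε j) P := by
  cases es with
  | nil => exact h
  | cons e es => exact h.1

theorem wri_S_of_rule {es : List HE} {ε : ℕ → Site → ℤ} (hε : OrRule es ε) :
    ∀ (suf pre : List HE), pre ++ suf = es → WriS ε pre.length (fin ∅ pre) suf := by
  intro suf
  induction suf with
  | nil =>
    intro pre h
    have hP : Pt es pre.length = fin ∅ pre := by
      show fin ∅ (es.take pre.length) = _
      rw [← h, List.take_left']
      rfl
    exact ⟨fun s hs => hε.out _ s (by rwa [hP]), fun s hs => hε.one _ s (by rwa [hP])⟩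
  | cons e suf ih =>
    intro pre h
    have hP : Pt es pre.length = fin ∅ pre := by
      show fin ∅ (es.take pre.length) = _
      rw [← h, List.take_left']
      rfl
    have he : es[pre.length]? = some e := by
      rw [← h, List.getElem?_append_right le_rfl, Nat.sub_self]
      rfl
    have h2 := ih (pre ++ [e]) (by rw [List.append_assoc]; exact h)
    rw [fin_append, List.length_append] at h2
    exact ⟨⟨fun s hs => hε.out _ s (by rwa [hP]), fun s hs => hε.one _ s (by rwa [hP])⟩,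
      fun s h1 h2 => hε.keep _ e s he h1 h2, hε.sum _ e he, h2⟩

theorem wri_S_append {ε : ℕ → Site → ℤ} {j : ℕ} {P : Finset Site} {es es' : List HE} :
    WriS ε j P (es ++ es') → WriS ε j P es ∧ WriS ε (j + es.length) (fin P es) es' := by
  induction es generalizing j P with
  | nil =>
    intro h
    exact ⟨wri_S_oo h, h⟩
  | cons e es ih =>
    rintro ⟨h1, h2, h3, h4⟩
    obtain ⟨h5, h6⟩ := ih h4
    refine ⟨⟨h1, h2, h3, h5⟩, ?_⟩
    have e1 : j + (e :: es).length = j + 1 + es.length := by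
      rw [List.length_cons]; omega
    rw [e1]
    exact h6

/-- One step in the palette `flip`. -/
theorem wri_step {f f' : Site → ℤ} {P : Finset Site} {e : HE} (h : WriOO f P)
    (h' : WriOO f' (nxs P e)) (hk : ∀ s, s ≠ e.lo → s ≠ e.hi → f' s = f s)
    (hs : f' e.lo + f' e.hi = f e.lo + f e.hi) :
    Path flip (wd (fun s => decide (f' s = 1)) P e) (lst (fun s => decide (f s = 1)) P)
      (lst (fun s => decide (f' s = 1)) (nxs P e)) := by
  refine wd_path_act (fun _ _ => rfl) ?_ ?_ ?_ ?_ ?_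
  · intro s _ h1 h2
    show decide (f' s = 1) = decide (f s = 1)
    rw [hk s h1 h2]
  · intro h1 h2
    have e1 : f' e.lo = 0 := h'.1 _ (by rw [lo_mem_nxs]; exact fun h => h h1)
    have e2 : f e.hi = 0 := h.1 _ h2
    have e3 : f' e.hi = f e.lo := by omega
    show decide (f' e.hi = 1) = decide (f e.lo = 1)
    rw [e3]
  · intro h1 h2
    have e1 : f' e.hi = 0 := h'.1 _ (by rw [hi_mem_nxs]; exact fun h => h h2)
    have e2 : f e.lo = 0 := h.1 _ h1
    have e3 : f' e.lo = f e.hi := by omega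
    show decide (f' e.lo = 1) = decide (f e.hi = 1)
    rw [e3]
  · intro h1 h2
    have e1 : f e.lo = 0 := h.1 _ h1
    have e2 : f e.hi = 0 := h.1 _ h2
    have e3 := h'.2 e.lo (by rw [lo_mem_nxs]; exact h1)
    have e4 : f' e.hi = -f' e.lo := by omega
    show decide (f' e.hi = 1) = !decide (f' e.lo = 1)
    rw [e4]
    rcases e3 with e3 | e3 <;> rw [e3] <;> decide
  · intro h1 h2
    have e1 : f' e.lo = 0 := h'.1 _ (by rw [lo_mem_nxs]; exact fun h => h h1)
    have e2 : f' e.hi = 0 := h'.1 _ (by rw [hi_mem_nxs]; exact fun h => h h2)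
    have e3 := h.2 e.lo h1
    have e4 : f e.hi = -f e.lo := by omega
    show decide (f e.hi = 1) = !decide (f e.lo = 1)
    rw [e4]
    rcases e3 with e3 | e3 <;> rw [e3] <;> decide

theorem wri_path_S {ε : ℕ → Site → ℤ} {j : ℕ} {P : Finset Site} {es : List HE}
    (h : WriS ε j P es) : Path flip (runL (fl ε) j P es) (lst (fl ε j) P)
      (lst (fl ε (j + es.length)) (fin P es)) := by
  induction es generalizing j P with
  | nil => exact Path.nil _
  | cons e es ih =>
    obtain ⟨h1, h2, h3, h4⟩ := h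
    have e1 : j + (e :: es).length = j + 1 + es.length := by
      rw [List.length_cons]; omega
    rw [e1]
    exact (wri_step h1 (wri_S_oo h4) h2 h3).append (ih h4)

theorem path_flip {es : List HE} (h0 : fin ∅ es = ∅) {ε : ℕ → Site → ℤ} (hε : OrRule es ε) :
    Path flip (runL (fl ε) 0 ∅ es) [] [] := by
  have h := wri_path_S (wri_S_of_rule hε es [] rfl)
  have e1 : ∀ f : Site → Bool, lst f (∅ : Finset Site) = [] := by
    intro f
    unfold lst
    rw [Finset.sort_empty]
    rfl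
  have e2 : fin (fin ∅ []) es = ∅ := h0
  rw [e2, e1] at h
  have e3 : lst (fl ε ([] : List HE).length) (fin ∅ []) = [] := e1 _
  rw [e3] at h
  exact h

/-- The contribution of one step to the exponent. -/
def enE (P P' : Finset Site) (ε ε' : Site → ℤ) : HE → ℤ
  | .ez _ _ => 0
  | .ex i k => (ε (st i k) - ε' (st i k)) *
      (∑ s ∈ P'.filter (fun s => cx s = i + 1 ∧ k < cz s), ε' s -
        ∑ s ∈ P.filter (fun s => cx s = i ∧ cz s < k), ε s)

/-- The exponent. -/
def En (es : List HE) (ε : ℕ → Site → ℤ) : ℤ :=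
  ∑ j ∈ Finset.range es.length, ((es[j]?).elim 0 (enE (Pt es j) (Pt es (j + 1)) (ε j) (ε (j + 1))))

/-- The contribution of a crossing. -/
def sgl : Kind Bool → ℕ → List Bool → ℤ
  | .pos, 0, a :: b :: _ => if a = b then -1 else 1
  | .neg, 0, a :: b :: _ => if a = b then 1 else -1
  | k, i + 1, _ :: s => sgl k i s
  | _, _, _ => 0

/-- The writhe of an oriented word. -/
def wri : Word Bool → List Bool → ℤ
  | [], _ => 0
  | (k, i) :: w, s => sgl k i s + wri w (nxt flip k i s)

/-- The exponent, starting at the time `j` with the strands `P`. -/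
def wriE (ε : ℕ → Site → ℤ) : ℕ → Finset Site → List HE → ℤ
  | _, _, [] => 0
  | j, P, e :: es => enE P (nxs P e) (ε j) (ε (j + 1)) e + wriE ε (j + 1) (nxs P e) es

theorem wri_E_append (ε : ℕ → Site → ℤ) (j : ℕ) (P : Finset Site) (es es' : List HE) :
    wriE ε j P (es ++ es') = wriE ε j P es + wriE ε (j + es.length) (fin P es) es' := by
  induction es generalizing j P with
  | nil =>
    show wriE ε j P es' = 0 + wriE ε j P es'
    rw [zero_add]
  | cons e es ih =>
    have e1 : j + (e :: es).length = j + 1 + es.length := by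
      rw [List.length_cons]; omega
    show enE P (nxs P e) (ε j) (ε (j + 1)) e + wriE ε (j + 1) (nxs P e) (es ++ es') =
      enE P (nxs P e) (ε j) (ε (j + 1)) e + wriE ε (j + 1) (nxs P e) es +
        wriE ε (j + (e :: es).length) (fin (nxs P e) es) es'
    rw [ih, e1, ← add_assoc]

theorem wri_E_sum (ε : ℕ → Site → ℤ) (es : List HE) : ∀ (j : ℕ) (P : Finset Site),
    wriE ε j P es = ∑ i ∈ Finset.range es.length, ((es[i]?).elim 0
      (enE (fin P (es.take i)) (fin P (es.take (i + 1))) (ε (j + i)) (ε (j + i + 1)))) := by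
  induction es with
  | nil => intro j P; rfl
  | cons e es ih =>
    intro j P
    show enE P (nxs P e) (ε j) (ε (j + 1)) e + wriE ε (j + 1) (nxs P e) es = _
    rw [ih, List.length_cons, Finset.sum_range_succ', add_comm]
    congr 1
    refine Finset.sum_congr rfl fun i _ => ?_
    have e1 : j + 1 + i = j + (i + 1) := by omega
    rw [e1]
    rfl

/-- Appending words. -/
theorem wri_append {u v : Word Bool} {s t : List Bool} (h : Path flip u s t) :
    wri (u ++ v) s = wri u s + wri v t := by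
  induction h with
  | nil s =>
    show wri v s = 0 + wri v s
    rw [zero_add]
  | @cons k i w s t r hs _ ih =>
    show sgl k i s + wri (w ++ v) (nxt flip k i s) = sgl k i s + wri w (nxt flip k i s) + wri v r
    rw [hs.nxt_eq, ih, add_assoc]

theorem wri_sgl_cup (c : Bool) : ∀ (n : ℕ) (l : List Bool), sgl (.cup c) n l = 0 := by
  intro n
  induction n with
  | zero => intro l; rfl
  | succ n ih =>
    intro l
    cases l with
    | nil => rfl
    | cons a l => exact ih l

theorem wri_sgl_cap : ∀ (n : ℕ) (l : List Bool), sgl .cap n l = 0 := by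
  intro n
  induction n with
  | zero => intro l; rfl
  | succ n ih =>
    intro l
    cases l with
    | nil => rfl
    | cons a l => exact ih l

theorem wri_sgl_pos : ∀ (n : ℕ) (l : List Bool) (a b : Bool), l[n]? = some a →
    l[n + 1]? = some b → sgl .pos n l = if a = b then -1 else 1 := by
  intro n
  induction n with
  | zero =>
    intro l a b h1 h2
    match l, h1, h2 with
    | x :: y :: l, h1, h2 =>
      have e1 : x = a := by simpa using h1
      have e2 : y = b := by simpa using h2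
      subst e1 e2
      rfl
  | succ n ih =>
    intro l a b h1 h2
    match l, h1, h2 with
    | x :: l, h1, h2 =>
      exact ih l a b (by simpa using h1) (by simpa using h2)

theorem wri_sgl_neg : ∀ (n : ℕ) (l : List Bool) (a b : Bool), l[n]? = some a →
    l[n + 1]? = some b → sgl .neg n l = if a = b then 1 else -1 := by
  intro n
  induction n with
  | zero =>
    intro l a b h1 h2
    match l, h1, h2 with
    | x :: y :: l, h1, h2 =>
      have e1 : x = a := by simpa using h1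
      have e2 : y = b := by simpa using h2
      subst e1 e2
      rfl
  | succ n ih =>
    intro l a b h1 h2
    match l, h1, h2 with
    | x :: l, h1, h2 =>
      exact ih l a b (by simpa using h1) (by simpa using h2)

/-- The strands in a row. -/
theorem wri_sort_row (m : ℕ) :
    (row m).sort (· ≤ ·) = (List.range m).map fun i : ℕ => st (i : ℤ) 0 := by
  induction m with
  | zero =>
    show (∅ : Finset Site).sort (· ≤ ·) = []
    exact Finset.sort_empty _
  | succ m ih =>
    have e1 : row (m + 1) = row m ∪ {st (m : ℤ) 0} := by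
      unfold row
      rw [Finset.range_add_one, Finset.image_insert, Finset.insert_eq, Finset.union_comm]
    rw [e1, sort_union, ih, Finset.sort_singleton, List.range_succ, List.map_append]
    · rfl
    · intro s hs t ht
      unfold row at hs
      rw [Finset.mem_image] at hs
      obtain ⟨i, hi, rfl⟩ := hs
      rw [Finset.mem_range] at hi
      rw [Finset.mem_singleton] at ht
      subst ht
      rw [Prod.Lex.lt_iff]
      left
      show (i : ℤ) < m
      exact_mod_cast hi

theorem wri_lst_row (f : Site → Bool) {m i : ℕ} (hi : i < m) :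
    (lst f (row m))[i]? = some (f (st (i : ℤ) 0)) := by
  unfold lst
  rw [wri_sort_row, List.map_map, List.getElem?_map, List.getElem?_range hi]
  rfl

theorem wri_st_iff (s : Site) (a b : ℤ) : s = st a b ↔ cx s = a ∧ cz s = b :=
  llink_st_iff s a b

theorem wri_mem_row {m : ℕ} {s : Site} : s ∈ row m ↔ ∃ i : ℕ, i < m ∧ s = st (i : ℤ) 0 := by
  unfold row
  rw [Finset.mem_image]
  constructor
  · rintro ⟨i, hi, rfl⟩
    exact ⟨i, Finset.mem_range.1 hi, rfl⟩
  · rintro ⟨i, hi, rfl⟩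
    exact ⟨i, Finset.mem_range.2 hi, rfl⟩

/-- All strands are at depth zero. -/
def WriD (P : Finset Site) : Prop := ∀ s ∈ P, cz s = 0

theorem wri_D_row (m : ℕ) : WriD (row m) := by
  intro s hs
  obtain ⟨i, _, rfl⟩ := wri_mem_row.1 hs
  rfl

/-- All strands are at depth zero, except for two points. -/
def WriDZ (n : ℤ) (P : Finset Site) : Prop :=
  ∀ s ∈ P, cz s = 0 ∨ s = st n 1 ∨ s = st (n + 1) 1

theorem wri_mem_nxs {P : Finset Site} {e : HE} {s : Site} (h : s ∈ nxs P e) :
    s ∈ P ∨ s = e.lo ∨ s = e.hi := by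
  by_cases h1 : s = e.lo
  · exact Or.inr (Or.inl h1)
  by_cases h2 : s = e.hi
  · exact Or.inr (Or.inr h2)
  exact Or.inl ((mem_nxs h1 h2).1 h)

theorem wri_DZ_nxs {n : ℤ} {P : Finset Site} (h : WriDZ n P) {e : HE}
    (he : e = .ez n 0 ∨ e = .ez (n + 1) 0 ∨ e = .ex n 0 ∨ e = .ex n 1) : WriDZ n (nxs P e) := by
  intro s hs
  rcases wri_mem_nxs hs with h1 | rfl | rfl
  · exact h s h1
  · rcases he with rfl | rfl | rfl | rfl
    · exact Or.inl rfl
    · exact Or.inl rfl
    · exact Or.inl rfl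
    · exact Or.inr (Or.inl rfl)
  · rcases he with rfl | rfl | rfl | rfl
    · exact Or.inr (Or.inl rfl)
    · exact Or.inr (Or.inr rfl)
    · exact Or.inl rfl
    · exact Or.inr (Or.inr rfl)

theorem wri_sum_zero {P : Finset Site} {f : Site → ℤ} {c : Site → Prop} [DecidablePred c]
    (h : ∀ s ∈ P, ¬ c s) : ∑ s ∈ P.filter c, f s = 0 := by
  rw [Finset.filter_eq_empty_iff.2 h, Finset.sum_empty]

theorem wri_sum_one {P : Finset Site} {f : Site → ℤ} {c : Site → Prop} [DecidablePred c]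
    {s₀ : Site} (h : ∀ s ∈ P, c s → s = s₀) (h0 : c s₀) (hf : s₀ ∉ P → f s₀ = 0) :
    ∑ s ∈ P.filter c, f s = f s₀ := by
  by_cases h1 : s₀ ∈ P
  · have e1 : P.filter c = {s₀} := by
      ext s
      rw [Finset.mem_filter, Finset.mem_singleton]
      constructor
      · rintro ⟨h2, h3⟩
        exact h s h2 h3
      · rintro rfl
        exact ⟨h1, h0⟩
    rw [e1, Finset.sum_singleton]
  · rw [hf h1]
    refine wri_sum_zero fun s hs hc => ?_
    rw [h s hs hc] at hs
    exact h1 hs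

theorem wri_ex1 {n : ℤ} {P P' : Finset Site} {f f' : Site → ℤ} (hP : WriDZ n P)
    (hP' : WriDZ n P') (hf : WriOO f P) :
    enE P P' f f' (.ex n 1) = -((f (st n 1) - f' (st n 1)) * f (st n 0)) := by
  have e1 : ∑ s ∈ P'.filter (fun s => cx s = n + 1 ∧ 1 < cz s), f' s = 0 := by
    refine wri_sum_zero fun s hs hc => ?_
    rcases hP' s hs with h | rfl | rfl
    · have := hc.2; omega
    · exact absurd hc.2 (lt_irrefl _)
    · exact absurd hc.2 (lt_irrefl _)
  have e2 : ∑ s ∈ P.filter (fun s => cx s = n ∧ cz s < 1), f s = f (st n 0) := by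
    refine wri_sum_one ?_ ⟨rfl, show (0 : ℤ) < 1 by norm_num⟩ (hf.1 _)
    intro s hs hc
    rcases hP s hs with h | rfl | rfl
    · exact (wri_st_iff s n 0).2 ⟨hc.1, h⟩
    · exact absurd hc.2 (lt_irrefl _)
    · exact absurd hc.2 (lt_irrefl _)
  show (f (st n 1) - f' (st n 1)) * (_ - _) = _
  rw [e1, e2]
  ring

theorem wri_ex0 {n : ℤ} {P P' : Finset Site} {f f' : Site → ℤ} (hP : WriDZ n P)
    (hP' : WriDZ n P') (hf : WriOO f' P') :
    enE P P' f f' (.ex n 0) = (f (st n 0) - f' (st n 0)) * f' (st (n + 1) 1) := by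
  have e1 : ∑ s ∈ P'.filter (fun s => cx s = n + 1 ∧ 0 < cz s), f' s = f' (st (n + 1) 1) := by
    refine wri_sum_one ?_ ⟨rfl, show (0 : ℤ) < 1 by norm_num⟩ (hf.1 _)
    intro s hs hc
    rcases hP' s hs with h | rfl | rfl
    · have := hc.2; omega
    · have : n = n + 1 := hc.1
      omega
    · rfl
  have e2 : ∑ s ∈ P.filter (fun s => cx s = n ∧ cz s < 0), f s = 0 := by
    refine wri_sum_zero fun s hs hc => ?_
    rcases hP s hs with h | rfl | rfl
    · have := hc.2; omega
    · exact absurd hc.2 (show ¬ (1 : ℤ) < 0 by norm_num)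
    · exact absurd hc.2 (show ¬ (1 : ℤ) < 0 by norm_num)
  show (f (st n 0) - f' (st n 0)) * (_ - _) = _
  rw [e1, e2]
  ring

/-- Moves at depth zero contribute nothing. -/
theorem wri_flat {ε : ℕ → Site → ℤ} {es : List HE} (h : ∀ e ∈ es, ∃ i, e = .ex i 0) :
    ∀ (j : ℕ) (P : Finset Site), WriD P → wriE ε j P es = 0 ∧ WriD (fin P es) := by
  induction es with
  | nil => exact fun j P hP => ⟨rfl, hP⟩
  | cons e es ih =>
    intro j P hP
    obtain ⟨i, rfl⟩ := h e List.mem_cons_self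
    have hP' : WriD (nxs P (.ex i 0)) := by
      intro s hs
      rcases wri_mem_nxs hs with h1 | rfl | rfl
      · exact hP s h1
      · rfl
      · rfl
    obtain ⟨h1, h2⟩ := ih (fun e he => h e (List.mem_cons_of_mem _ he)) (j + 1) _ hP'
    refine ⟨?_, h2⟩
    show enE P (nxs P (.ex i 0)) (ε j) (ε (j + 1)) (.ex i 0) + wriE ε (j + 1) _ es = 0
    rw [h1, add_zero]
    show (_ : ℤ) * (_ - _) = 0
    rw [wri_sum_zero, wri_sum_zero]
    · ring
    · intro s hs hc
      have := hP s hs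
      have := hc.2
      omega
    · intro s hs hc
      have := hP' s hs
      have := hc.2
      omega

theorem wri_shR_flat (n : ℕ) : ∀ (m : ℕ), ∀ e ∈ shR n m, ∃ i, e = .ex i 0 := by
  intro m
  induction m with
  | zero =>
    intro e he
    exact absurd he List.not_mem_nil
  | succ m ih =>
    intro e he
    unfold shR at he
    split_ifs at he with h
    · exact absurd he List.not_mem_nil
    · rw [List.mem_cons, List.mem_cons] at he
      rcases he with rfl | rfl | he
      · exact ⟨_, rfl⟩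
      · exact ⟨_, rfl⟩
      · exact ih e he

/-- The shift makes the column `n` free. -/
theorem wri_shR_free {n : ℕ} : ∀ {m : ℕ}, n ≤ m → st (n : ℤ) 0 ∉ fin (row m) (shR n m) := by
  have hcnt : ∀ m : ℕ, (shR n m).countP (llAt (st (n : ℤ) 0)) = if n < m then 1 else 0 := by
    intro m
    induction m with
    | zero => rfl
    | succ m ih =>
      unfold shR
      split_ifs with h1 h2 h2
      · omega
      · rfl
      · have e2 : llAt (st (n : ℤ) 0) (.ex ((m : ℤ) + 1) 0) = false := by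
          rw [← Bool.not_eq_true, llAt_iff]
          rintro (h | h)
          · have := ((wri_st_iff _ _ _).1 h).1
            change (n : ℤ) = m + 1 at this
            omega
          · have := ((wri_st_iff _ _ _).1 h).1
            change (n : ℤ) = m + 1 + 1 at this
            omega
        rw [List.countP_cons, List.countP_cons, ih, e2]
        by_cases h3 : n < m
        · have e1 : llAt (st (n : ℤ) 0) (.ex (m : ℤ) 0) = false := by
            rw [← Bool.not_eq_true, llAt_iff]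
            rintro (h | h)
            · have := ((wri_st_iff _ _ _).1 h).1
              change (n : ℤ) = m at this
              omega
            · have := ((wri_st_iff _ _ _).1 h).1
              change (n : ℤ) = m + 1 at this
              omega
          rw [e1, if_pos h3]
          rfl
        · have e3 : n = m := by omega
          have e1 : llAt (st (n : ℤ) 0) (.ex (m : ℤ) 0) = true := by
            rw [llAt_iff]
            left
            rw [e3]
            rfl
          rw [e1, if_neg h3]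
          rfl
      · omega
  intro m hm
  rw [llink_mem_fin, hcnt]
  by_cases h : n < m
  · rw [if_pos h]
    intro h2
    have h3 : st (n : ℤ) 0 ∈ row m := wri_mem_row.2 ⟨n, h, rfl⟩
    exact absurd (h2.1 h3) (by decide)
  · rw [if_neg h]
    intro h2
    obtain ⟨i, hi, he⟩ := wri_mem_row.1 (h2.2 (by decide))
    have := ((wri_st_iff _ _ _).1 he).1
    change (n : ℤ) = i at this
    omega

theorem wri_step_length {k : Kind Unit} {n : ℕ} {s t : List Unit} (h : Step (triv Unit) k n s t) :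
    t.length + k.inn = s.length + k.out ∧ n + k.inn ≤ s.length := by
  induction h with
  | cup c s => exact ⟨by simp [Kind.inn, Kind.out], by simp [Kind.inn]⟩
  | cap c s => exact ⟨by simp [Kind.inn, Kind.out], by simp [Kind.inn]⟩
  | pos a b s => exact ⟨by simp [Kind.inn, Kind.out], by simp [Kind.inn]⟩
  | neg a b s => exact ⟨by simp [Kind.inn, Kind.out], by simp [Kind.inn]⟩
  | there a _ ih =>
    obtain ⟨h1, h2⟩ := ih
    simp only [List.length_cons]
    omega

theorem wri_word {F : ℕ → Site → Bool} {j : ℕ} {P : Finset Site} {es : List HE} {k : Kind Unit}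
    {n : ℕ} (h : run1 P es = [(k, n)]) :
    ∃ k' : Kind Bool, runL F j P es = [(k', n)] ∧ k'.map (fun _ => ()) = k := by
  have h1 := erase_runL F j P es
  rw [h] at h1
  match hw : runL F j P es, h1 with
  | [], h1 => exact absurd h1 (by simp [wmap])
  | [(k', i)], h1 =>
    rw [wmap_cons, wmap_nil] at h1
    have h2 := List.cons.inj h1
    have h3 := Prod.mk.inj h2.1
    exact ⟨k', by rw [h3.2], h3.1⟩
  | x :: y :: l, h1 => exact absurd (congrArg List.length h1) (by simp [wmap])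

theorem wri_out {f : Site → ℤ} {P : Finset Site} (h : WriOO f P) {s : Site} (hs : s ∉ P) :
    f s = 0 := h.1 s hs

/-- One letter. -/
theorem wri_letter {k : Kind Unit} {n : ℕ} {s t : List Unit} (h : Step (triv Unit) k n s t)
    {ε : ℕ → Site → ℤ} {j : ℕ} (hε : WriS ε j (row s.length) (kle k n s.length)) :
    2 * wriE ε j (row s.length) (kle k n s.length) =
      2 * wri (runL (fl ε) j (row s.length) (kle k n s.length)) (lst (fl ε j) (row s.length)) +
        ((t.length : ℤ) - s.length) := by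
  obtain ⟨hl1, hl2⟩ := wri_step_length h
  obtain ⟨k', hk', hkk⟩ := wri_word (F := fl ε) (j := j) (run_kle h).1
  rw [hk']
  have hw : ∀ l : List Bool, wri [(k', n)] l = sgl k' n l := by
    intro l
    show sgl k' n l + 0 = _
    rw [add_zero]
  rw [hw]
  set m := s.length with hm
  have ne1 : st (n : ℤ) 0 ≠ st (n : ℤ) 1 := fun h => by
    have := ((wri_st_iff _ _ _).1 h).2
    change (0 : ℤ) = 1 at this
    omega
  have ne2 : st ((n : ℤ) + 1) 0 ≠ st ((n : ℤ) + 1) 1 := fun h => by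
    have := ((wri_st_iff _ _ _).1 h).2
    change (0 : ℤ) = 1 at this
    omega
  have ne3 : st (n : ℤ) 0 ≠ st ((n : ℤ) + 1) 0 := fun h => by
    have := ((wri_st_iff _ _ _).1 h).1
    change (n : ℤ) = n + 1 at this
    omega
  have ne4 : st (n : ℤ) 0 ≠ st ((n : ℤ) + 1) 1 := fun h => by
    have := ((wri_st_iff _ _ _).1 h).1
    change (n : ℤ) = n + 1 at this
    omega
  have ne5 : st (n : ℤ) 1 ≠ st ((n : ℤ) + 1) 0 := fun h => by
    have := ((wri_st_iff _ _ _).1 h).1
    change (n : ℤ) = n + 1 at this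
    omega
  have ne6 : st (n : ℤ) 1 ≠ st ((n : ℤ) + 1) 1 := fun h => by
    have := ((wri_st_iff _ _ _).1 h).1
    change (n : ℤ) = n + 1 at this
    omega
  cases k with
  | cup c =>
    have hs0 : sgl k' n (lst (fl ε j) (row m)) = 0 := by
      obtain ⟨c', rfl, _⟩ := Kind.map_eq_cup hkk
      exact wri_sgl_cup c' n _
    rw [hs0]
    change WriS ε j (row m) (shR n m ++ [.ez n 0, .ex n 1, .ez (n + 1) 0]) at hε
    show 2 * wriE ε j (row m) (shR n m ++ [.ez n 0, .ex n 1, .ez (n + 1) 0]) = _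
    rw [wri_E_append]
    obtain ⟨-, hε2⟩ := wri_S_append hε
    obtain ⟨hz, hD⟩ := wri_flat (ε := ε) (wri_shR_flat n m) j (row m) (wri_D_row m)
    have hfree := wri_shR_free (n := n) (m := m) (by simpa [Kind.inn] using hl2)
    rw [hz, zero_add]
    set P := fin (row m) (shR n m) with hP
    set i := j + (shR n m).length with hi
    obtain ⟨a1, a2, a3, b1, b2, b3, c1, -⟩ := hε2
    have hDZ : WriDZ n P := fun s hs => Or.inl (hD s hs)
    have hDZ1 := wri_DZ_nxs hDZ (e := .ez n 0) (Or.inl rfl)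
    have hDZ2 := wri_DZ_nxs hDZ1 (e := .ex n 1) (Or.inr (Or.inr (Or.inr rfl)))
    have hf1 : st (n : ℤ) 1 ∉ P := fun hs => by
      have := hD _ hs
      change (1 : ℤ) = 0 at this
      omega
    have v1 : ε i (st (n : ℤ) 0) = 0 := a1.1 _ hfree
    have v2 : ε i (st (n : ℤ) 1) = 0 := a1.1 _ hf1
    have v3 : ε (i + 1) (st (n : ℤ) 0) + ε (i + 1) (st (n : ℤ) 1) =
      ε i (st (n : ℤ) 0) + ε i (st (n : ℤ) 1) := a3
    have m1 : st (n : ℤ) 0 ∈ nxs P (.ez n 0) := (lo_mem_nxs (e := .ez n 0)).2 hfree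
    have m2 : st (n : ℤ) 1 ∈ nxs P (.ez n 0) := by
      have := (hi_mem_nxs (P := P) (e := .ez n 0)).2
      simp only [HE.hi, zero_add] at this
      exact this hf1
    have v4 : ε (i + 1 + 1) (st (n : ℤ) 1) = 0 := by
      refine c1.1 _ ?_
      intro hc
      exact (lo_mem_nxs (e := .ex n 1)).1 hc m2
    have v5 := b1.2 _ m1
    show 2 * (0 + (enE _ _ (ε (i + 1)) (ε (i + 1 + 1)) (.ex n 1) + (0 + 0))) = _
    rw [wri_ex1 hDZ1 hDZ2 b1, v4]
    have v6 : ε (i + 1) (st (n : ℤ) 1) = -ε (i + 1) (st (n : ℤ) 0) := by omega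
    have v7 : (t.length : ℤ) - m = 2 := by
      simp only [Kind.inn, Kind.out] at hl1
      omega
    rw [v6, v7]
    rcases v5 with v5 | v5 <;> rw [v5] <;> norm_num
  | cap =>
    have hs0 : sgl k' n (lst (fl ε j) (row m)) = 0 := by
      have : k' = .cap := by cases k' <;> simp_all
      rw [this]
      exact wri_sgl_cap n _
    rw [hs0]
    have hlen : n + 2 ≤ m := hl2
    change WriS ε j (row m) ([.ez (n + 1) 0, .ex n 1, .ez n 0] ++ (shR n (m - 2)).reverse) at hε
    show 2 * wriE ε j (row m) ([.ez (n + 1) 0, .ex n 1, .ez n 0] ++ (shR n (m - 2)).reverse) = _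
    rw [wri_E_append]
    obtain ⟨⟨a1, a2, a3, b1, b2, b3, c1, c2, c3, d1⟩, -⟩ := wri_S_append hε
    have hDZ : WriDZ n (row m) := fun s hs => Or.inl (wri_D_row m s hs)
    have hDZ1 := wri_DZ_nxs hDZ (e := .ez (n + 1) 0) (Or.inr (Or.inl rfl))
    have hDZ2 := wri_DZ_nxs hDZ1 (e := .ex n 1) (Or.inr (Or.inr (Or.inr rfl)))
    have hDZ3 := wri_DZ_nxs hDZ2 (e := .ez n 0) (Or.inl rfl)
    set P1 := nxs (row m) (.ez (n + 1) 0) with hP1
    set P2 := nxs P1 (.ex n 1) with hP2
    set P3 := nxs P2 (.ez n 0) with hP3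
    have ma : st (n : ℤ) 0 ∈ row m := wri_mem_row.2 ⟨n, by omega, rfl⟩
    have mb : st ((n : ℤ) + 1) 0 ∈ row m := wri_mem_row.2 ⟨n + 1, by omega, by push_cast; rfl⟩
    have ma' : st (n : ℤ) 1 ∉ row m := fun hs => by
      have := wri_D_row m _ hs
      change (1 : ℤ) = 0 at this
      omega
    have mb' : st ((n : ℤ) + 1) 1 ∉ row m := fun hs => by
      have := wri_D_row m _ hs
      change (1 : ℤ) = 0 at this
      omega
    -- the sets
    have m1a : st (n : ℤ) 0 ∈ P1 := (mem_nxs (e := .ez (n + 1) 0) ne3 ne4).2 ma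
    have m1a' : st (n : ℤ) 1 ∉ P1 := fun h => ma' ((mem_nxs (e := .ez (n + 1) 0) ne5 ne6).1 h)
    have m1b : st ((n : ℤ) + 1) 0 ∉ P1 := fun h => (lo_mem_nxs (e := .ez (n + 1) 0)).1 h mb
    have m1b' : st ((n : ℤ) + 1) 1 ∈ P1 := (hi_mem_nxs (P := row m) (e := .ez (n + 1) 0)).2 mb'
    have m2a : st (n : ℤ) 0 ∈ P2 := (mem_nxs (e := .ex n 1) ne1 ne4).2 m1a
    have m2a' : st (n : ℤ) 1 ∈ P2 := (lo_mem_nxs (P := P1) (e := .ex n 1)).2 m1a'
    have m2b' : st ((n : ℤ) + 1) 1 ∉ P2 := fun h => (hi_mem_nxs (e := .ex n 1)).1 h m1b'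
    have m3a : st (n : ℤ) 0 ∉ P3 := fun h => (lo_mem_nxs (e := .ez n 0)).1 h m2a
    have m3a' : st (n : ℤ) 1 ∉ P3 := fun h => (hi_mem_nxs (e := .ez n 0)).1 h m2a'
    have m3b' : st ((n : ℤ) + 1) 1 ∉ P3 := fun h =>
      m2b' ((mem_nxs (e := .ez n 0) ne4.symm ne6.symm).1 h)
    -- the values
    have v1 : ε (j + 1) (st ((n : ℤ) + 1) 0) + ε (j + 1) (st ((n : ℤ) + 1) 1) =
      ε j (st ((n : ℤ) + 1) 0) + ε j (st ((n : ℤ) + 1) 1) := a3
    have v2 : ε (j + 1 + 1) (st (n : ℤ) 1) + ε (j + 1 + 1) (st ((n : ℤ) + 1) 1) =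
      ε (j + 1) (st (n : ℤ) 1) + ε (j + 1) (st ((n : ℤ) + 1) 1) := b3
    have v3 : ε (j + 1 + 1 + 1) (st (n : ℤ) 0) + ε (j + 1 + 1 + 1) (st (n : ℤ) 1) =
      ε (j + 1 + 1) (st (n : ℤ) 0) + ε (j + 1 + 1) (st (n : ℤ) 1) := c3
    have w1 := b1.1 _ m1b
    have w2 := a1.1 _ mb'
    have w3 := c1.1 _ m2b'
    have w4 := b1.1 _ m1a'
    have w5 := d1.1 _ m3a
    have w6 := d1.1 _ m3a'
    have w7 : ε (j + 1 + 1) (st (n : ℤ) 0) = ε (j + 1) (st (n : ℤ) 0) := b2 _ ne1 ne4
    have w8 := b1.2 _ m1a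
    have hDf : WriD P3 := by
      intro s hs
      rcases hDZ3 s hs with h | rfl | rfl
      · exact h
      · exact absurd hs m3a'
      · exact absurd hs m3b'
    obtain ⟨hz, -⟩ := wri_flat (ε := ε) (es := (shR n (m - 2)).reverse)
      (fun e he => wri_shR_flat n (m - 2) e (List.mem_reverse.1 he))
      (j + [HE.ez (n + 1) 0, HE.ex n 1, HE.ez n 0].length) P3 hDf
    have hz' : wriE ε (j + [HE.ez (n + 1) 0, HE.ex n 1, HE.ez n 0].length)
      (fin (row m) [HE.ez (n + 1) 0, HE.ex n 1, HE.ez n 0]) (shR n (m - 2)).reverse = 0 := hz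
    rw [hz', add_zero]
    show 2 * (0 + (enE P1 P2 (ε (j + 1)) (ε (j + 1 + 1)) (.ex n 1) + (0 + 0))) = _
    rw [wri_ex1 hDZ1 hDZ2 b1, w4]
    have v6 : ε (j + 1 + 1) (st (n : ℤ) 1) = -ε (j + 1) (st (n : ℤ) 0) := by omega
    have v7 : (t.length : ℤ) - m = -2 := by
      simp only [Kind.inn, Kind.out] at hl1
      omega
    rw [v6, v7]
    rcases w8 with v5 | v5 <;> rw [v5] <;> norm_num
  | pos =>
    have hkp : k' = .pos := by cases k' <;> simp_all
    have hlen : n + 2 ≤ m := hl2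
    have hs0 := wri_sgl_pos n (lst (fl ε j) (row m)) _ _ (wri_lst_row _ (by omega))
      (wri_lst_row (i := n + 1) _ (by omega))
    rw [hkp, hs0]
    change WriS ε j (row m) [.ez n 0, .ex n 1, .ex n 0, .ez (n + 1) 0] at hε
    obtain ⟨a1, a2, a3, b1, b2, b3, c1, c2, c3, d1, d2, d3, e1⟩ := hε
    have hDZ : WriDZ n (row m) := fun s hs => Or.inl (wri_D_row m s hs)
    have hDZ1 := wri_DZ_nxs hDZ (e := .ez n 0) (Or.inl rfl)
    have hDZ2 := wri_DZ_nxs hDZ1 (e := .ex n 1) (Or.inr (Or.inr (Or.inr rfl)))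
    have hDZ3 := wri_DZ_nxs hDZ2 (e := .ex n 0) (Or.inr (Or.inr (Or.inl rfl)))
    set P1 := nxs (row m) (.ez n 0) with hP1
    set P2 := nxs P1 (.ex n 1) with hP2
    set P3 := nxs P2 (.ex n 0) with hP3
    have ma : st (n : ℤ) 0 ∈ row m := wri_mem_row.2 ⟨n, by omega, rfl⟩
    have mb : st ((n : ℤ) + 1) 0 ∈ row m := wri_mem_row.2 ⟨n + 1, by omega, by push_cast; rfl⟩
    have ma' : st (n : ℤ) 1 ∉ row m := fun hs => by
      have := wri_D_row m _ hs
      change (1 : ℤ) = 0 at this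
      omega
    have mb' : st ((n : ℤ) + 1) 1 ∉ row m := fun hs => by
      have := wri_D_row m _ hs
      change (1 : ℤ) = 0 at this
      omega
    have m1a : st (n : ℤ) 0 ∉ P1 := fun h => (lo_mem_nxs (e := .ez n 0)).1 h ma
    have m1a' : st (n : ℤ) 1 ∈ P1 := (hi_mem_nxs (P := row m) (e := .ez n 0)).2 ma'
    have m1b : st ((n : ℤ) + 1) 0 ∈ P1 := (mem_nxs (e := .ez n 0) ne3.symm ne5.symm).2 mb
    have m1b' : st ((n : ℤ) + 1) 1 ∉ P1 := fun h =>
      mb' ((mem_nxs (e := .ez n 0) ne4.symm ne6.symm).1 h)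
    have m2a : st (n : ℤ) 0 ∉ P2 := fun h => m1a ((mem_nxs (e := .ex n 1) ne1 ne4).1 h)
    have m2a' : st (n : ℤ) 1 ∉ P2 := fun h => (lo_mem_nxs (e := .ex n 1)).1 h m1a'
    have m2b : st ((n : ℤ) + 1) 0 ∈ P2 := (mem_nxs (e := .ex n 1) ne5.symm ne2).2 m1b
    have m3b : st ((n : ℤ) + 1) 0 ∉ P3 := fun h => (hi_mem_nxs (e := .ex n 0)).1 h m2b
    -- the values
    have v1 : ε (j + 1) (st (n : ℤ) 0) + ε (j + 1) (st (n : ℤ) 1) =
      ε j (st (n : ℤ) 0) + ε j (st (n : ℤ) 1) := a3
    have v2 : ε (j + 1 + 1) (st (n : ℤ) 1) + ε (j + 1 + 1) (st ((n : ℤ) + 1) 1) =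
      ε (j + 1) (st (n : ℤ) 1) + ε (j + 1) (st ((n : ℤ) + 1) 1) := b3
    have v3 : ε (j + 1 + 1 + 1) (st (n : ℤ) 0) + ε (j + 1 + 1 + 1) (st ((n : ℤ) + 1) 0) =
      ε (j + 1 + 1) (st (n : ℤ) 0) + ε (j + 1 + 1) (st ((n : ℤ) + 1) 0) := c3
    have w1 := b1.1 _ m1a
    have w2 := a1.1 _ ma'
    have w3 := c1.1 _ m2a'
    have w4 := b1.1 _ m1b'
    have w5 := c1.1 _ m2a
    have w6 := d1.1 _ m3b
    have w7 : ε (j + 1) (st ((n : ℤ) + 1) 0) = ε j (st ((n : ℤ) + 1) 0) := a2 _ ne3.symm ne5.symm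
    have w8 : ε (j + 1 + 1) (st ((n : ℤ) + 1) 0) = ε (j + 1) (st ((n : ℤ) + 1) 0) :=
      b2 _ ne5.symm ne2
    have w9 : ε (j + 1 + 1 + 1) (st ((n : ℤ) + 1) 1) = ε (j + 1 + 1) (st ((n : ℤ) + 1) 1) :=
      c2 _ ne4.symm ne2.symm
    show 2 * (0 + (enE P1 P2 (ε (j + 1)) (ε (j + 1 + 1)) (.ex n 1) +
      (enE P2 P3 (ε (j + 1 + 1)) (ε (j + 1 + 1 + 1)) (.ex n 0) + (0 + 0)))) = _
    rw [wri_ex1 hDZ1 hDZ2 b1, wri_ex0 hDZ2 hDZ3 d1, w1, w5]
    have x1 : ε (j + 1 + 1 + 1) (st (n : ℤ) 0) = ε j (st ((n : ℤ) + 1) 0) := by omega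
    have x2 : ε (j + 1 + 1 + 1) (st ((n : ℤ) + 1) 1) = ε j (st (n : ℤ) 0) := by omega
    have v7 : (t.length : ℤ) - m = 0 := by
      simp only [Kind.inn, Kind.out] at hl1
      omega
    rw [x1, x2, v7]
    have y1 := a1.2 _ ma
    have y2 := a1.2 _ mb
    unfold fl
    push_cast
    rcases y1 with y1 | y1 <;> rcases y2 with y2 | y2 <;> rw [y1, y2] <;> norm_num
  | neg =>
    have hkp : k' = .neg := by cases k' <;> simp_all
    have hlen : n + 2 ≤ m := hl2
    have hs0 := wri_sgl_neg n (lst (fl ε j) (row m)) _ _ (wri_lst_row _ (by omega))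
      (wri_lst_row (i := n + 1) _ (by omega))
    rw [hkp, hs0]
    change WriS ε j (row m) [.ez (n + 1) 0, .ex n 1, .ex n 0, .ez n 0] at hε
    obtain ⟨a1, a2, a3, b1, b2, b3, c1, c2, c3, d1, d2, d3, e1⟩ := hε
    have hDZ : WriDZ n (row m) := fun s hs => Or.inl (wri_D_row m s hs)
    have hDZ1 := wri_DZ_nxs hDZ (e := .ez (n + 1) 0) (Or.inr (Or.inl rfl))
    have hDZ2 := wri_DZ_nxs hDZ1 (e := .ex n 1) (Or.inr (Or.inr (Or.inr rfl)))
    have hDZ3 := wri_DZ_nxs hDZ2 (e := .ex n 0) (Or.inr (Or.inr (Or.inl rfl)))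
    set P1 := nxs (row m) (.ez (n + 1) 0) with hP1
    set P2 := nxs P1 (.ex n 1) with hP2
    set P3 := nxs P2 (.ex n 0) with hP3
    have ma : st (n : ℤ) 0 ∈ row m := wri_mem_row.2 ⟨n, by omega, rfl⟩
    have mb : st ((n : ℤ) + 1) 0 ∈ row m := wri_mem_row.2 ⟨n + 1, by omega, by push_cast; rfl⟩
    have ma' : st (n : ℤ) 1 ∉ row m := fun hs => by
      have := wri_D_row m _ hs
      change (1 : ℤ) = 0 at this
      omega
    have mb' : st ((n : ℤ) + 1) 1 ∉ row m := fun hs => by
      have := wri_D_row m _ hs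
      change (1 : ℤ) = 0 at this
      omega
    have m1a' : st (n : ℤ) 1 ∉ P1 := fun h => ma' ((mem_nxs (e := .ez (n + 1) 0) ne5 ne6).1 h)
    have m1b : st ((n : ℤ) + 1) 0 ∉ P1 := fun h => (lo_mem_nxs (e := .ez (n + 1) 0)).1 h mb
    have m1b' : st ((n : ℤ) + 1) 1 ∈ P1 := (hi_mem_nxs (P := row m) (e := .ez (n + 1) 0)).2 mb'
    have m2b' : st ((n : ℤ) + 1) 1 ∉ P2 := fun h => (hi_mem_nxs (e := .ex n 1)).1 h m1b'
    have m3b' : st ((n : ℤ) + 1) 1 ∉ P3 := fun h =>
      m2b' ((mem_nxs (e := .ex n 0) ne4.symm ne2.symm).1 h)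
    -- the values
    have v1 : ε (j + 1) (st ((n : ℤ) + 1) 0) + ε (j + 1) (st ((n : ℤ) + 1) 1) =
      ε j (st ((n : ℤ) + 1) 0) + ε j (st ((n : ℤ) + 1) 1) := a3
    have v2 : ε (j + 1 + 1) (st (n : ℤ) 1) + ε (j + 1 + 1) (st ((n : ℤ) + 1) 1) =
      ε (j + 1) (st (n : ℤ) 1) + ε (j + 1) (st ((n : ℤ) + 1) 1) := b3
    have w1 := b1.1 _ m1b
    have w2 := a1.1 _ mb'
    have w3 := c1.1 _ m2b'
    have w4 := b1.1 _ m1a'
    have w5 := d1.1 _ m3b'
    have w6 : ε (j + 1) (st (n : ℤ) 0) = ε j (st (n : ℤ) 0) := a2 _ ne3 ne4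
    show 2 * (0 + (enE P1 P2 (ε (j + 1)) (ε (j + 1 + 1)) (.ex n 1) +
      (enE P2 P3 (ε (j + 1 + 1)) (ε (j + 1 + 1 + 1)) (.ex n 0) + (0 + 0)))) = _
    rw [wri_ex1 hDZ1 hDZ2 b1, wri_ex0 hDZ2 hDZ3 d1, w4, w5, w6]
    have x1 : ε (j + 1 + 1) (st (n : ℤ) 1) = ε j (st ((n : ℤ) + 1) 0) := by omega
    have v7 : (t.length : ℤ) - m = 0 := by
      simp only [Kind.inn, Kind.out] at hl1
      omega
    rw [x1, v7]
    have y1 := a1.2 _ ma
    have y2 := a1.2 _ mb
    unfold fl
    push_cast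
    rcases y1 with y1 | y1 <;> rcases y2 with y2 | y2 <;> rw [y1, y2] <;> norm_num

theorem wri_main {ε : ℕ → Site → ℤ} {w : Word Unit} {s t : List Unit}
    (h : Path (triv Unit) w s t) : ∀ j : ℕ, WriS ε j (row s.length) (ke w s.length) →
    2 * wriE ε j (row s.length) (ke w s.length) =
      2 * wri (runL (fl ε) j (row s.length) (ke w s.length)) (lst (fl ε j) (row s.length)) +
        ((t.length : ℤ) - s.length) := by
  induction h with
  | nil s =>
    intro j _
    show 2 * (0 : ℤ) = 2 * 0 + ((s.length : ℤ) - s.length)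
    ring
  | @cons k n w s t r hs _ ih =>
    intro j hε
    obtain ⟨hl1, hl2⟩ := wri_step_length hs
    have e1 : s.length + k.out - k.inn = t.length := by omega
    have e2 : ke ((k, n) :: w) s.length = kle k n s.length ++ ke w t.length := by
      show kle k n s.length ++ ke w (s.length + k.out - k.inn) = _
      rw [e1]
    have e3 := (run_kle hs).2
    rw [e2] at hε ⊢
    obtain ⟨h1, h2⟩ := wri_S_append hε
    have h3 := wri_path_S h1
    rw [e3] at h2 h3
    have h4 := ih _ h2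
    have h5 := wri_letter hs h1
    rw [wri_E_append, runL_append, wri_append h3, e3]
    linarith

/-- The exponent is the writhe. -/
theorem en_ke {w : Word Unit} (h : Path (triv Unit) w [] []) {ε : ℕ → Site → ℤ}
    (hε : OrRule (ke w 0) ε) : En (ke w 0) ε = wri (runL (fl ε) 0 ∅ (ke w 0)) [] := by
  have h1 := wri_S_of_rule hε (ke w 0) [] rfl
  have h2 := wri_main (ε := ε) h 0 h1
  have e1 : En (ke w 0) ε = wriE ε 0 ∅ (ke w 0) := by
    rw [wri_E_sum]
    unfold En
    refine Finset.sum_congr rfl fun i _ => ?_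
    rw [Nat.zero_add]
  have e2 : lst (fl ε 0) (row ([] : List Unit).length) = [] := by
    show ((∅ : Finset Site).sort (· ≤ ·)).map _ = []
    rw [Finset.sort_empty]
    rfl
  rw [e2] at h2
  rw [e1]
  have h3 : 2 * wriE ε 0 ∅ (ke w 0) = 2 * wri (runL (fl ε) 0 ∅ (ke w 0)) [] + (0 - 0) := h2
  linarith

end Pool.Agent.Lib.MP_131179_gt.Dehn
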