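import Pool.Agent.Lib.MP_131179_gt.Dehn.Wirt
import Pool.Agent.Lib.MP_131179_gt.Dehn.OneComp
import Pool.Agent.Lib.MP_131179_gt.Dehn.Wri

/-!
# Knots without nonabelian labellings
-/

set_option autoImplicit false

namespace Pool.Agent.Lib.MP_131179_gt.Dehn

private theorem abel_path_labels {C : Type} {P : Palette C} {S : Set C} (hS : Closed P S)
    {w : Word C} {s t : List C} (h : Path P w s t) (hw : ∀ x, HasLabel x w → x ∈ S)
    (hs : ∀ x ∈ s, x ∈ S) : ∀ x ∈ t, x ∈ S := by
  induction h with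
  | nil s => exact hs
  | @cons k i w s t r h1 _ ih =>
    exact ih (fun x hx => hw x (hasLabel_cons.2 (Or.inr hx)))
      (step_labels hS h1 (fun c hc => hw c (hasLabel_cons.2 (Or.inl hc))) hs)

private theorem abel_fin_take {es : List HE} {j : ℕ} {e : HE} (he : es[j]? = some e) :
    Pt es (j + 1) = nxs (Pt es j) e := by
  unfold Pt
  rw [List.take_add_one, he, fin_append]
  rfl

/-- Removing a commuting pair of factors. -/
private theorem abel_lab_step {Γ : Type} [Group Γ] {S : Subgroup Γ}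
    (hc : ∀ x ∈ S, ∀ y ∈ S, x * y = y * x) {G G' : ℤ → ℤ → Γ} (h : ∀ x z, G x z ∈ S)
    (h' : ∀ x z, G' x z ∈ S) {e : HE} (hG : GStep G G' e) :
    (∀ s, s ≠ e.lo → s ≠ e.hi → lab G' s = lab G s) ∧
      lab G' e.lo * lab G' e.hi = lab G e.lo * lab G e.hi := by
  have hst : ∀ s : Site, s = st (cx s) (cz s) := fun s => rfl
  cases e with
  | ez i k =>
    constructor
    · intro s h1 h2
      have e1 : G' (cx s) (cz s) = G (cx s) (cz s) := by
        refine hG _ _ (fun hh => h2 ?_)
        rw [hst s]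
        rw [Prod.mk.injEq] at hh
        rw [hh.1, hh.2]
        rfl
      have e2 : G' (cx s) (cz s + 1) = G (cx s) (cz s + 1) := by
        refine hG _ _ (fun hh => h1 ?_)
        rw [hst s]
        rw [Prod.mk.injEq] at hh
        have h3 : cz s = k := by omega
        rw [hh.1, h3]
        rfl
      unfold lab
      rw [e1, e2]
    · have e1 : G' i k = G i k := hG _ _ (fun hh => by
        rw [Prod.mk.injEq] at hh
        omega)
      have e2 : G' i (k + 1 + 1) = G i (k + 1 + 1) := hG _ _ (fun hh => by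
        rw [Prod.mk.injEq] at hh
        omega)
      show (G' i k * (G' i (k + 1))⁻¹) * (G' i (k + 1) * (G' i (k + 1 + 1))⁻¹) =
        (G i k * (G i (k + 1))⁻¹) * (G i (k + 1) * (G i (k + 1 + 1))⁻¹)
      rw [e1, e2]
      group
  | ex i k =>
    obtain ⟨y, hy⟩ := hG
    have e0 : G' i k = G i k * y := by
      rw [hy, if_neg (by omega), if_pos (by omega), one_mul]
    have hyS : y ∈ S := by
      have h3 : y = (G i k)⁻¹ * G' i k := by rw [e0]; group
      rw [h3]
      exact S.mul_mem (S.inv_mem (h _ _)) (h' _ _)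
    constructor
    · intro s h1 h2
      unfold lab
      rw [hy, hy]
      generalize hX : cx s = X at *
      generalize hZ : cz s = Z at *
      have h1' : ¬ (X = i ∧ Z = k) := by
        rintro ⟨hh1, hh2⟩
        apply h1
        rw [hst s, hX, hZ, hh1, hh2]
        rfl
      have h2' : ¬ (X = i + 1 ∧ Z = k) := by
        rintro ⟨hh1, hh2⟩
        apply h2
        rw [hst s, hX, hZ, hh1, hh2]
        rfl
      by_cases hi : X = i
      · have hz : Z ≠ k := fun hh => h1' ⟨hi, hh⟩
        rw [if_neg (show ¬ (X = i + 1 ∧ Z ≤ k) by omega),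
          if_neg (show ¬ (X = i + 1 ∧ Z + 1 ≤ k) by omega)]
        by_cases hzk : Z ≤ k
        · rw [if_pos (show X = i ∧ Z ≤ k by omega), if_pos (show X = i ∧ Z + 1 ≤ k by omega)]
          group
        · rw [if_neg (show ¬ (X = i ∧ Z ≤ k) by omega),
            if_neg (show ¬ (X = i ∧ Z + 1 ≤ k) by omega)]
          group
      · rw [if_neg (show ¬ (X = i ∧ Z ≤ k) by omega),
          if_neg (show ¬ (X = i ∧ Z + 1 ≤ k) by omega)]
        by_cases hi1 : X = i + 1
        · have hz : Z ≠ k := fun hh => h2' ⟨hi1, hh⟩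
          by_cases hzk : Z ≤ k
          · rw [if_pos (show X = i + 1 ∧ Z ≤ k by omega),
              if_pos (show X = i + 1 ∧ Z + 1 ≤ k by omega)]
            have e1 := hc _ (S.mul_mem (h X Z) (S.inv_mem (h X (Z + 1)))) _ hyS
            calc y⁻¹ * G X Z * 1 * (y⁻¹ * G X (Z + 1) * 1)⁻¹
                = y⁻¹ * (G X Z * (G X (Z + 1))⁻¹ * y) := by group
              _ = y⁻¹ * (y * (G X Z * (G X (Z + 1))⁻¹)) := by rw [e1]
              _ = G X Z * (G X (Z + 1))⁻¹ := by group
          · rw [if_neg (show ¬ (X = i + 1 ∧ Z ≤ k) by omega),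
              if_neg (show ¬ (X = i + 1 ∧ Z + 1 ≤ k) by omega)]
            group
        · rw [if_neg (show ¬ (X = i + 1 ∧ Z ≤ k) by omega),
            if_neg (show ¬ (X = i + 1 ∧ Z + 1 ≤ k) by omega)]
          group
    · have e1 : G' i (k + 1) = G i (k + 1) := by
        rw [hy, if_neg (by omega), if_neg (by omega), one_mul, mul_one]
      have e2 : G' (i + 1) k = y⁻¹ * G (i + 1) k := by
        rw [hy, if_pos (by omega), if_neg (by omega), mul_one]
      have e3 : G' (i + 1) (k + 1) = G (i + 1) (k + 1) := by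
        rw [hy, if_neg (by omega), if_neg (by omega), one_mul, mul_one]
      show (G' i k * (G' i (k + 1))⁻¹) * (G' (i + 1) k * (G' (i + 1) (k + 1))⁻¹) =
        (G i k * (G i (k + 1))⁻¹) * (G (i + 1) k * (G (i + 1) (k + 1))⁻¹)
      rw [e0, e1, e2, e3]
      have e4 := hc _ hyS _ (S.inv_mem (h i (k + 1)))
      calc G i k * y * (G i (k + 1))⁻¹ * (y⁻¹ * G (i + 1) k * (G (i + 1) (k + 1))⁻¹)
          = G i k * (y * (G i (k + 1))⁻¹) * (y⁻¹ * G (i + 1) k * (G (i + 1) (k + 1))⁻¹) := by group
        _ = G i k * ((G i (k + 1))⁻¹ * y) * (y⁻¹ * G (i + 1) k * (G (i + 1) (k + 1))⁻¹) := by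
            rw [e4]
        _ = _ := by group

/-- All the labels are in a commutative subgroup. -/
private theorem abel_sub {L : Link} (h2 : ¬ HasNonabelianLabelling L)
    {es : List HE} (hn : Nice ∅ es) (h0 : fin ∅ es = ∅) (hd : IsDiag (run1 ∅ es) L) {Γ : Type}
    [Group Γ] {gx gy : P3 → Γ} (h : PiRel (Kc es) gx gy) :
    ∃ S : Subgroup Γ, (∀ x ∈ S, ∀ y ∈ S, x * y = y * x) ∧ ∀ j x z, Gt gx j x z ∈ S := by
  classical
  set W := runL (fun j => lab (Gt gx j)) 0 ∅ es with hW
  have hpath : Path (conj Γ) W [] [] := by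
    have h3 := path_conj h hn h0 (le_refl es.length)
    rw [List.take_length] at h3
    have h4 : Pt es es.length = ∅ := by
      unfold Pt
      rw [List.take_length]
      exact h0
    rw [h4] at h3
    have h5 : lst (lab (Gt gx es.length)) (∅ : Finset Site) = [] := by
      unfold lst
      rw [Finset.sort_empty]
      rfl
    rw [h5] at h3
    exact h3
  have hdiag : IsDiag (wmap (fun _ => ()) W) L := by
    rw [hW, erase_runL]
    exact hd
  have hcomm : ∀ a b, HasLabel a W → HasLabel b W → a * b = b * a := by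
    rintro a b ⟨i, hi⟩ ⟨j, hj⟩
    by_contra hab
    exact h2 ⟨Γ, _, W, hpath, hdiag, a, b, i, j, hi, hj, hab⟩
  set A : Set Γ := {x | HasLabel x W} with hA
  let Z1 : Subgroup Γ := Subgroup.centralizer A
  let S : Subgroup Γ := Subgroup.centralizer (Z1 : Set Γ)
  have hAS : ∀ x ∈ A, x ∈ S := by
    intro x hx
    rw [Subgroup.mem_centralizer_iff]
    intro y hy
    have hy' : y ∈ Subgroup.centralizer A := hy
    rw [Subgroup.mem_centralizer_iff] at hy'
    exact (hy' x hx).symm
  have hAZ : ∀ x ∈ A, x ∈ Z1 := by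
    intro x hx
    show x ∈ Subgroup.centralizer A
    rw [Subgroup.mem_centralizer_iff]
    intro y hy
    exact hcomm y x hy hx
  have hSZ : ∀ x ∈ S, x ∈ Z1 := by
    intro x hx
    show x ∈ Subgroup.centralizer A
    rw [Subgroup.mem_centralizer_iff]
    intro y hy
    have hx' : x ∈ Subgroup.centralizer (Z1 : Set Γ) := hx
    rw [Subgroup.mem_centralizer_iff] at hx'
    exact hx' y (hAZ y hy)
  have hSc : ∀ x ∈ S, ∀ y ∈ S, x * y = y * x := by
    intro x hx y hy
    have hy' : y ∈ Subgroup.centralizer (Z1 : Set Γ) := hy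
    rw [Subgroup.mem_centralizer_iff] at hy'
    exact hy' x (hSZ x hx)
  have hclosed : Closed (conj Γ) (S : Set Γ) :=
    ⟨fun x hx => S.inv_mem hx, fun x hx y hy => S.mul_mem (S.mul_mem (S.inv_mem hy) hx) hy⟩
  have hlab : ∀ j s, lab (Gt gx j) s ∈ S := by
    intro j s
    by_cases hs : s ∈ Pt es j
    · have hj : j ≤ es.length := by
        by_contra hj
        push Not at hj
        have h5 : Pt es j = ∅ := by
          unfold Pt
          rw [List.take_of_length_le hj.le]
          exact h0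
        rw [h5] at hs
        simp at hs
      have h6 := path_conj h hn h0 hj
      refine abel_path_labels hclosed h6 ?_ (by simp) _ ?_
      · intro x hx
        apply hAS
        show HasLabel x W
        have h7 : W = runL (fun j => lab (Gt gx j)) 0 ∅ (es.take j) ++
            runL (fun j => lab (Gt gx j)) (0 + (es.take j).length) (fin ∅ (es.take j))
              (es.drop j) := by
          rw [← runL_append, List.take_append_drop]
        rw [h7]
        exact hasLabel_append.2 (Or.inl hx)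
      · unfold lst
        rw [List.mem_map]
        exact ⟨s, (Finset.mem_sort _).2 hs, rfl⟩
    · rw [gt_lab h h0 hs]
      exact S.one_mem
  refine ⟨S, hSc, ?_⟩
  obtain ⟨Z0, hZ0⟩ := h.front
  have key : ∀ (n : ℕ) j x z, Z0 + 1 ≤ z + n → Gt gx j x z ∈ S := by
    intro n
    induction n with
    | zero =>
      intro j x z hz
      have h7 : Gt gx j x z = 1 := (hZ0 _ (by
        show Z0 ≤ z - 1
        push_cast at hz
        omega)).1
      rw [h7]
      exact S.one_mem
    | succ n ih =>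
      intro j x z hz
      have h8 : Gt gx j x z = lab (Gt gx j) (st x z) * Gt gx j x (z + 1) := by
        show _ = Gt gx j x z * (Gt gx j x (z + 1))⁻¹ * Gt gx j x (z + 1)
        group
      rw [h8]
      refine S.mul_mem (hlab _ _) (ih j x (z + 1) ?_)
      push_cast at hz
      omega
  intro j x z
  exact key (Z0 + 1 - z).toNat j x z (by
    have := Int.self_le_toNat (Z0 + 1 - z)
    omega)

/-- All the labels of the strands are powers of one element. -/
theorem exists_t {L : Link} (h1 : ¬ AtLeastTwoComponents L) (h2 : ¬ HasNonabelianLabelling L)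
    {es : List HE} (hn : Nice ∅ es) (h0 : fin ∅ es = ∅) (hd : IsDiag (run1 ∅ es) L) {Γ : Type}
    [Group Γ] {gx gy : P3 → Γ} (h : PiRel (Kc es) gx gy) {ε : ℕ → Site → ℤ}
    (hε : OrRule es ε) : ∃ t : Γ, ∀ j s, s ∈ Pt es j → lab (Gt gx j) s = t ^ (ε j s) := by
  classical
  obtain ⟨S, hSc, hS⟩ := abel_sub h2 hn h0 hd h
  have hstep : ∀ j e, es[j]? = some e →
      (∀ s, s ≠ e.lo → s ≠ e.hi → lab (Gt gx (j + 1)) s = lab (Gt gx j) s) ∧
        lab (Gt gx (j + 1)) e.lo * lab (Gt gx (j + 1)) e.hi =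
          lab (Gt gx j) e.lo * lab (Gt gx j) e.hi :=
    fun j e he => abel_lab_step hSc (hS j) (hS (j + 1)) (gt_step h he)
  have hlo : ∀ j e, es[j]? = some e → (e.lo ∈ Pt es (j + 1) ↔ e.lo ∉ Pt es j) := by
    intro j e he
    rw [abel_fin_take he]
    exact lo_mem_nxs
  have hhi : ∀ j e, es[j]? = some e → (e.hi ∈ Pt es (j + 1) ↔ e.hi ∉ Pt es j) := by
    intro j e he
    rw [abel_fin_take he]
    exact hi_mem_nxs
  have hl1 : ∀ j s, s ∉ Pt es j → lab (Gt gx j) s = 1 := fun j s hs => gt_lab h h0 hs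
  let F : ℕ → Site → Γ := fun j s => lab (Gt gx j) s ^ (ε j s)
  have hF : ConstRule es F := by
    refine ⟨?_, ?_, ?_, ?_, ?_⟩
    · intro j e s he _ hs1 hs2
      show _ ^ _ = _ ^ _
      rw [(hstep j e he).1 s hs1 hs2, hε.keep j e s he hs1 hs2]
    · intro j e he hlo1 hhi1
      have e1 := (hstep j e he).2
      have e2 := hε.sum j e he
      have n1 : e.lo ∉ Pt es (j + 1) := fun hh => (hlo j e he).1 hh hlo1
      rw [hl1 _ _ n1, hl1 _ _ hhi1, one_mul, mul_one] at e1
      rw [hε.out _ _ n1, hε.out _ _ hhi1, zero_add, add_zero] at e2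
      show _ ^ _ = _ ^ _
      rw [e1, e2]
    · intro j e he hlo1 hhi1
      have e1 := (hstep j e he).2
      have e2 := hε.sum j e he
      have n1 : e.hi ∉ Pt es (j + 1) := fun hh => (hhi j e he).1 hh hhi1
      rw [hl1 _ _ n1, hl1 _ _ hlo1, one_mul, mul_one] at e1
      rw [hε.out _ _ n1, hε.out _ _ hlo1, zero_add, add_zero] at e2
      show _ ^ _ = _ ^ _
      rw [e1, e2]
    · intro j e he hlo1 hhi1
      have e1 := (hstep j e he).2
      have e2 := hε.sum j e he
      rw [hl1 _ _ hlo1, hl1 _ _ hhi1, one_mul] at e1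
      rw [hε.out _ _ hlo1, hε.out _ _ hhi1, add_zero] at e2
      show _ ^ _ = _ ^ _
      have e3 : lab (Gt gx (j + 1)) e.hi = (lab (Gt gx (j + 1)) e.lo)⁻¹ :=
        (inv_eq_of_mul_eq_one_right e1).symm
      have e4 : ε (j + 1) e.hi = - ε (j + 1) e.lo := by omega
      rw [e3, e4, inv_zpow', neg_neg]
    · intro j e he hlo1 hhi1
      have e1 := (hstep j e he).2
      have e2 := hε.sum j e he
      have n1 : e.lo ∉ Pt es (j + 1) := fun hh => (hlo j e he).1 hh hlo1
      have n2 : e.hi ∉ Pt es (j + 1) := fun hh => (hhi j e he).1 hh hhi1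
      rw [hl1 _ _ n1, hl1 _ _ n2, one_mul] at e1
      rw [hε.out _ _ n1, hε.out _ _ n2, add_zero] at e2
      show _ ^ _ = _ ^ _
      have e3 : lab (Gt gx j) e.hi = (lab (Gt gx j) e.lo)⁻¹ :=
        (inv_eq_of_mul_eq_one_right e1.symm).symm
      have e4 : ε j e.hi = - ε j e.lo := by omega
      rw [e3, e4, inv_zpow', neg_neg]
  by_cases hex : ∃ j0 s0, s0 ∈ Pt es j0
  · obtain ⟨j0, s0, hs0⟩ := hex
    refine ⟨F j0 s0, fun j s hs => ?_⟩
    rw [← one_comp h1 h0 hd hF hs hs0]
    show _ = (_ ^ _) ^ _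
    rw [← zpow_mul]
    rcases hε.one j s hs with h3 | h3 <;> rw [h3] <;> simp
  · exact ⟨1, fun j s hs => absurd ⟨j, s, hs⟩ hex⟩

end Pool.Agent.Lib.MP_131179_gt.Dehn
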