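import Pool.Agent.Lib.MP_131179_gt.Dehn.LLink

/-!
# Arcs in the lattice and moves of arcs
-/

set_option autoImplicit false

namespace Pool.Agent.Lib.MP_131179_gt.Dehn

/-- Neighbouring points. -/
def Adj (p q : P3) : Prop := ∃ i, q = p + e3 i ∨ p = q + e3 i

/-- The edge between two neighbouring points. -/
def leOf (p q : P3) : LE :=
  if q = p + e3 0 then (p, 0) else if q = p + e3 1 then (p, 1) else if q = p + e3 2 then (p, 2)
  else if p = q + e3 0 then (q, 0) else if p = q + e3 1 then (q, 1) else (q, 2)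

/-- The edges of a path. -/
def pe : List P3 → Finset LE
  | p :: q :: l => insert (leOf p q) (pe (q :: l))
  | _ => ∅

/-- The point `p` is on the set of edges `R`. -/
def On (R : Finset LE) (p : P3) : Prop := ∃ e ∈ R, Inc e p

/-- A path from `p` to `q` which meets `R` only in its ends. -/
structure Arc (R : Finset LE) (p q : P3) (l : List P3) : Prop where
  chain : l.IsChain Adj
  nodup : l.Nodup
  head : l.head? = some p
  last : l.getLast? = some q
  free : ∀ x ∈ l, x ≠ p → x ≠ q → ¬ On R x
  disj : Disjoint R (pe l)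

/-- A link with a gap from `p` to `q`. -/
structure Half (R : Finset LE) (p q : P3) : Prop where
  ne : p ≠ q
  degp : deg R p = 1
  degq : deg R q = 1
  other : ∀ x, x ≠ p → x ≠ q → deg R x = 0 ∨ deg R x = 2

/-- The four corners of a unit square, in cyclic order. -/
def IsSq (x y z w : P3) : Prop := Adj x y ∧ Adj y z ∧ Adj z w ∧ Adj w x ∧ x ≠ z ∧ y ≠ w

/-- A move of an arc over a unit square. -/
inductive PMove (R : Finset LE) (p q : P3) : List P3 → List P3 → Prop
  | two (A B : List P3) (x y z w : P3) (h : IsSq x y z w) (h1 : Arc R p q (A ++ x :: y :: z :: B))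
      (h2 : Arc R p q (A ++ x :: w :: z :: B)) :
      PMove R p q (A ++ x :: y :: z :: B) (A ++ x :: w :: z :: B)
  | up (A B : List P3) (x y z w : P3) (h : IsSq x y z w) (h1 : Arc R p q (A ++ x :: w :: B))
      (h2 : Arc R p q (A ++ x :: y :: z :: w :: B)) :
      PMove R p q (A ++ x :: w :: B) (A ++ x :: y :: z :: w :: B)
  | down (A B : List P3) (x y z w : P3) (h : IsSq x y z w) (h1 : Arc R p q (A ++ x :: w :: B))
      (h2 : Arc R p q (A ++ x :: y :: z :: w :: B)) :
      PMove R p q (A ++ x :: y :: z :: w :: B) (A ++ x :: w :: B)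

/-- Isotopy of arcs. -/
def PIso (R : Finset LE) (p q : P3) : List P3 → List P3 → Prop :=
  Relation.ReflTransGen (PMove R p q)

theorem Adj.symm {p q : P3} (h : Adj p q) : Adj q p := by
  obtain ⟨i, h | h⟩ := h
  · exact ⟨i, Or.inr h⟩
  · exact ⟨i, Or.inl h⟩

theorem arcs_add_eq (p : P3) (i j : Fin 3) : (p + e3 i = p + e3 j) ↔ i = j := by
  constructor
  · intro h
    have h := add_left_cancel h
    revert h
    fin_cases i <;> fin_cases j <;> simp [e3]
  · rintro rfl; rfl

theorem arcs_ne_add_add (p : P3) (i j : Fin 3) : p ≠ p + e3 i + e3 j := by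
  intro h
  have h : e3 i + e3 j = 0 := by
    have : p + (e3 i + e3 j) = p + 0 := by rw [← add_assoc, ← h, add_zero]
    exact add_left_cancel this
  revert h
  fin_cases i <;> fin_cases j <;> simp [e3]

theorem arcs_ne_add (p : P3) (i : Fin 3) : p ≠ p + e3 i := by
  intro h
  have h : e3 i = 0 := by
    have : p + (e3 i) = p + 0 := by rw [← h, add_zero]
    exact add_left_cancel this
  revert h
  fin_cases i <;> simp [e3]

theorem leOf_pos (p : P3) (i : Fin 3) : leOf p (p + e3 i) = (p, i) := by
  unfold leOf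
  simp only [arcs_add_eq]
  fin_cases i
  · simp
  · simp
  · simp

theorem leOf_neg (p : P3) (i : Fin 3) : leOf (p + e3 i) p = (p, i) := by
  unfold leOf
  simp only [arcs_ne_add_add, if_false, arcs_add_eq]
  fin_cases i
  · simp
  · simp
  · simp

theorem leOf_comm {p q : P3} (h : Adj p q) : leOf p q = leOf q p := by
  obtain ⟨i, rfl | rfl⟩ := h
  · rw [leOf_pos, leOf_neg]
  · rw [leOf_pos, leOf_neg]

theorem inc_leOf {p q x : P3} (h : Adj p q) : Inc (leOf p q) x ↔ x = p ∨ x = q := by
  obtain ⟨i, rfl | rfl⟩ := h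
  · rw [leOf_pos]; rfl
  · rw [leOf_neg]
    exact or_comm

theorem pe_cons_cons (x y : P3) (l : List P3) : pe (x :: y :: l) = insert (leOf x y) (pe (y :: l)) :=
  rfl

theorem pe_single (x : P3) : pe [x] = ∅ := rfl

theorem pe_nil : pe [] = ∅ := rfl

theorem mem_of_on_pe {l : List P3} (h : l.IsChain Adj) {x : P3} (hx : On (pe l) x) : x ∈ l := by
  induction l with
  | nil => obtain ⟨e, he, _⟩ := hx; simp [pe_nil] at he
  | cons a l ih =>
    cases l with
    | nil => obtain ⟨e, he, _⟩ := hx; simp [pe_single] at he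
    | cons b l =>
      rw [List.isChain_cons_cons] at h
      obtain ⟨e, he, hi⟩ := hx
      rw [pe_cons_cons, Finset.mem_insert] at he
      rcases he with rfl | he
      · rw [inc_leOf h.1] at hi
        rcases hi with rfl | rfl <;> simp
      · exact List.mem_cons_of_mem _ (ih h.2 ⟨e, he, hi⟩)

theorem on_pe {l : List P3} (h : l.IsChain Adj) (h2 : 2 ≤ l.length) {x : P3} :
    On (pe l) x ↔ x ∈ l := by
  refine ⟨mem_of_on_pe h, ?_⟩
  intro hx
  induction l with
  | nil => simp at h2
  | cons a l ih =>
    cases l with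
    | nil => simp at h2
    | cons b l =>
      rw [List.isChain_cons_cons] at h
      have h0 : leOf a b ∈ pe (a :: b :: l) := by rw [pe_cons_cons]; exact Finset.mem_insert_self _ _
      rw [List.mem_cons] at hx
      rcases hx with rfl | hx
      · exact ⟨_, h0, (inc_leOf h.1).2 (Or.inl rfl)⟩
      · cases l with
        | nil =>
          rw [List.mem_singleton] at hx
          subst hx
          exact ⟨_, h0, (inc_leOf h.1).2 (Or.inr rfl)⟩
        | cons c l =>
          obtain ⟨e, he, hi⟩ := ih h.2 (by simp) hx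
          exact ⟨e, by rw [pe_cons_cons]; exact Finset.mem_insert_of_mem he, hi⟩

theorem pe_append (A B : List P3) (x : P3) : pe (A ++ x :: B) = pe (A ++ [x]) ∪ pe (x :: B) := by
  induction A with
  | nil => simp [pe_single]
  | cons a A ih =>
    cases A with
    | nil =>
      simp only [List.cons_append, List.nil_append, pe_cons_cons, pe_single]
      rw [Finset.insert_union, Finset.empty_union]
    | cons b A =>
      simp only [List.cons_append, pe_cons_cons] at ih ⊢
      rw [ih, Finset.insert_union]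

theorem pe_reverse {l : List P3} (h : l.IsChain Adj) : pe l.reverse = pe l := by
  induction l with
  | nil => rfl
  | cons a l ih =>
    cases l with
    | nil => rfl
    | cons b l =>
      rw [List.isChain_cons_cons] at h
      have ih := ih h.2
      rw [List.reverse_cons] at ih
      rw [List.reverse_cons, List.reverse_cons, List.append_assoc]
      show pe (l.reverse ++ b :: [a]) = _
      rw [pe_append, ih, pe_cons_cons, pe_cons_cons, pe_single, leOf_comm h.1]
      ext e
      simp only [Finset.mem_union, Finset.mem_insert, Finset.notMem_empty, or_false]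
      tauto

/-! ### Degrees -/

theorem deg_union {R S : Finset LE} (h : Disjoint R S) (x : P3) :
    deg (R ∪ S) x = deg R x + deg S x := by
  unfold deg
  rw [Finset.filter_union, Finset.card_union_of_disjoint]
  exact Finset.disjoint_filter_filter h

theorem deg_eq_zero_iff {R : Finset LE} {x : P3} : deg R x = 0 ↔ ¬ On R x := by
  unfold deg On
  rw [Finset.card_eq_zero, Finset.filter_eq_empty_iff]
  push Not
  rfl

theorem deg_insert {R : Finset LE} {e : LE} (he : e ∉ R) (x : P3) :
    deg (insert e R) x = (if Inc e x then 1 else 0) + deg R x := by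
  unfold deg
  rw [Finset.filter_insert]
  split_ifs with h
  · rw [Finset.card_insert_of_notMem (fun hh => he (Finset.mem_filter.1 hh).1), add_comm]
  · rw [zero_add]

theorem leOf_notMem_pe {a b : P3} {l : List P3} (h : (a :: b :: l).IsChain Adj)
    (hn : (a :: b :: l).Nodup) : leOf a b ∉ pe (b :: l) := by
  intro hh
  rw [List.isChain_cons_cons] at h
  have : a ∈ b :: l := mem_of_on_pe h.2 ⟨_, hh, (inc_leOf h.1).2 (Or.inl rfl)⟩
  rw [List.nodup_cons] at hn
  exact hn.1 this

theorem deg_pe_notMem {l : List P3} (h : l.IsChain Adj) {x : P3} (hx : x ∉ l) :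
    deg (pe l) x = 0 := by
  rw [deg_eq_zero_iff]
  exact fun h' => hx (mem_of_on_pe h h')

/-- The degrees of the points of a simple path. -/
theorem deg_pe {l : List P3} (h : l.IsChain Adj) (hn : l.Nodup) {a b : P3} (ha : l.head? = some a)
    (hb : l.getLast? = some b) (hab : a ≠ b) (x : P3) :
    deg (pe l) x = if x ∈ l then (if x = a ∨ x = b then 1 else 2) else 0 := by
  induction l generalizing a x with
  | nil => simp at ha
  | cons c l ih =>
    simp only [List.head?_cons, Option.some.injEq] at ha
    subst ha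
    cases l with
    | nil =>
      simp only [List.getLast?_singleton, Option.some.injEq] at hb
      exact absurd hb hab
    | cons d l =>
      have hh := leOf_notMem_pe h hn
      rw [pe_cons_cons, deg_insert hh]
      have h' := h
      rw [List.isChain_cons_cons] at h'
      have hn' := hn
      rw [List.nodup_cons] at hn'
      simp only [inc_leOf h'.1]
      have hb' : (d :: l).getLast? = some b := by
        rw [List.getLast?_cons_cons] at hb; exact hb
      have hcd : c ≠ d := fun hh => hn'.1 (by rw [hh]; simp)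
      by_cases hdb : d = b
      · subst hdb
        have hl : l = [] := by
          cases l with
          | nil => rfl
          | cons e l =>
            exfalso
            have h1 : d ∈ e :: l := by
              rw [List.getLast?_cons_cons] at hb'
              exact List.mem_of_getLast? hb'
            have h2 := hn'.2
            rw [List.nodup_cons] at h2
            exact h2.1 h1
        subst hl
        have : deg (pe [d]) x = 0 := by simp [pe_single, deg]
        rw [this, add_zero]
        by_cases h1 : x = c ∨ x = d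
        · rw [if_pos h1, if_pos (by simpa using h1), if_pos h1]
        · rw [if_neg h1, if_neg (by simpa using h1)]
      · rw [ih h'.2 hn'.2 rfl hb' hdb]
        have hcb : c ≠ b := hab
        by_cases hxc : x = c
        · subst hxc
          simp [hn'.1]
        · by_cases hxd : x = d
          · subst hxd
            simp [hdb, hxc]
          · by_cases hxl : x ∈ l
            · simp [hxl, hxc, hxd]
            · simp [hxl, hxc, hxd]

theorem arc_deg {R : Finset LE} {p q : P3} (hpq : p ≠ q) {l : List P3} (h : Arc R p q l) (x : P3) :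
    deg (R ∪ pe l) x = deg R x + if x ∈ l then (if x = p ∨ x = q then 1 else 2) else 0 := by
  rw [deg_union h.disj, deg_pe h.chain h.nodup h.head h.last hpq]

theorem Arc.mem_left {R : Finset LE} {p q : P3} {l : List P3} (h : Arc R p q l) : p ∈ l :=
  List.mem_of_head? h.head

theorem Arc.mem_right {R : Finset LE} {p q : P3} {l : List P3} (h : Arc R p q l) : q ∈ l :=
  List.mem_of_getLast? h.last

/-- An arc with a link with a gap is a link. -/
theorem arc_valid {R : Finset LE} {p q : P3} (hR : Half R p q) {l : List P3}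
    (h : Arc R p q l) : Valid (R ∪ pe l) := by
  intro x
  rw [arc_deg hR.ne h]
  by_cases hxp : x = p
  · subst hxp
    right
    rw [if_pos h.mem_left, if_pos (Or.inl rfl), hR.degp]
  · by_cases hxq : x = q
    · subst hxq
      right
      rw [if_pos h.mem_right, if_pos (Or.inr rfl), hR.degq]
    · by_cases hx : x ∈ l
      · right
        rw [if_pos hx, if_neg (by tauto), deg_eq_zero_iff.2 (h.free x hx hxp hxq)]
      · rw [if_neg hx, add_zero]
        exact hR.other x hxp hxq

/-- Cutting an arc out of a link. -/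
theorem half_of_valid {R : Finset LE} {p q : P3} (hpq : p ≠ q) {l : List P3}
    (h : Arc R p q l) (hK : Valid (R ∪ pe l)) : Half R p q := by
  refine ⟨hpq, ?_, ?_, ?_⟩
  · have := hK p
    rw [arc_deg hpq h, if_pos h.mem_left, if_pos (Or.inl rfl)] at this
    omega
  · have := hK q
    rw [arc_deg hpq h, if_pos h.mem_right, if_pos (Or.inr rfl)] at this
    omega
  · intro x hxp hxq
    have := hK x
    rw [arc_deg hpq h] at this
    by_cases hx : x ∈ l
    · left
      exact deg_eq_zero_iff.2 (h.free x hx hxp hxq)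
    · rw [if_neg hx, add_zero] at this
      exact this

/-! ### Unit squares -/

/-- A step: a direction and a sign. -/
def stepv (s : Fin 3 × Bool) : P3 := if s.2 then e3 s.1 else - e3 s.1

theorem adj_iff_step {p q : P3} : Adj p q ↔ ∃ s, q = p + stepv s := by
  constructor
  · rintro ⟨i, h | h⟩
    · exact ⟨(i, true), by simpa [stepv] using h⟩
    · exact ⟨(i, false), by
        subst h
        simp [stepv]⟩
  · rintro ⟨⟨i, b⟩, h⟩
    cases b
    · refine ⟨i, Or.inr ?_⟩
      subst h
      simp [stepv]
    · exact ⟨i, Or.inl (by simpa [stepv] using h)⟩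

theorem four_steps : ∀ s1 s2 s3 s4 : Fin 3 × Bool,
    stepv s1 + stepv s2 + stepv s3 + stepv s4 = 0 → stepv s1 + stepv s2 ≠ 0 →
    stepv s2 + stepv s3 ≠ 0 → s1.1 ≠ s2.1 ∧ stepv s4 = - stepv s2 := by
  decide +kernel

theorem isSq_steps {x y z w : P3} (h : IsSq x y z w) : ∃ s t : Fin 3 × Bool, s.1 ≠ t.1 ∧
    y = x + stepv s ∧ z = x + stepv s + stepv t ∧ w = x + stepv t := by
  obtain ⟨h1, h2, h3, h4, h5, h6⟩ := h
  rw [adj_iff_step] at h1 h2 h3 h4
  obtain ⟨s1, rfl⟩ := h1
  obtain ⟨s2, rfl⟩ := h2
  obtain ⟨s3, rfl⟩ := h3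
  obtain ⟨s4, h4⟩ := h4
  have hsum : stepv s1 + stepv s2 + stepv s3 + stepv s4 = 0 := by
    have : x + (stepv s1 + stepv s2 + stepv s3 + stepv s4) = x + 0 := by
      rw [add_zero, ← add_assoc, ← add_assoc, ← add_assoc]
      exact h4.symm
    exact add_left_cancel this
  have h12 : stepv s1 + stepv s2 ≠ 0 := by
    intro hh
    apply h5
    rw [add_assoc, hh, add_zero]
  have h23 : stepv s2 + stepv s3 ≠ 0 := by
    intro hh
    apply h6
    rw [add_assoc (x + stepv s1), hh, add_zero]
  obtain ⟨ha, hb⟩ := four_steps s1 s2 s3 s4 hsum h12 h23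
  refine ⟨s1, s2, ha, rfl, rfl, ?_⟩
  rw [hb] at hsum
  have : stepv s1 + stepv s3 = 0 := by
    have h0 : stepv s1 + stepv s2 + stepv s3 + -stepv s2 = stepv s1 + stepv s3 := by abel
    rw [← h0, hsum]
  have h1 : x + stepv s1 + stepv s2 + stepv s3 = x + stepv s2 + (stepv s1 + stepv s3) := by abel
  rw [h1, this, add_zero]

theorem leOf_pos' {p q : P3} {i : Fin 3} (h : q = p + e3 i) : leOf p q = (p, i) := by
  subst h; exact leOf_pos p i

theorem leOf_neg' {p q : P3} {i : Fin 3} (h : p = q + e3 i) : leOf p q = (q, i) := by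
  subst h; exact leOf_neg q i

/-- The edges of a unit square: `a` and `c` are parallel, `b` and `d` are parallel. -/
structure SqData (a b c d : LE) (p : P3) (i j : Fin 3) : Prop where
  lt : i < j
  eq : sqE p i j = {a, b, c, d}
  par : (({(p, i), (p + e3 j, i)} : Finset LE) = {a, c} ∧
      ({(p, j), (p + e3 i, j)} : Finset LE) = {b, d}) ∨
    (({(p, i), (p + e3 j, i)} : Finset LE) = {b, d} ∧
      ({(p, j), (p + e3 i, j)} : Finset LE) = {a, c})
  ab : a ≠ b
  ac : a ≠ c
  ad : a ≠ d
  bc : b ≠ c
  bd : b ≠ d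
  cd : c ≠ d

theorem sqE_comm (p : P3) (i j : Fin 3) : sqE p i j = sqE p j i := by
  unfold sqE
  ext e
  simp only [Finset.mem_insert, Finset.mem_singleton]
  tauto

theorem stepv_true (i : Fin 3) : stepv (i, true) = e3 i := rfl

theorem stepv_false (i : Fin 3) : stepv (i, false) = - e3 i := rfl

theorem sq_par {x : P3} {s t : Fin 3 × Bool} :
    ∃ p : P3, ({(p, s.1), (p + e3 t.1, s.1)} : Finset LE) =
      {leOf x (x + stepv s), leOf (x + stepv s + stepv t) (x + stepv t)} ∧
      ({(p, t.1), (p + e3 s.1, t.1)} : Finset LE) =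
      {leOf (x + stepv s) (x + stepv s + stepv t), leOf (x + stepv t) x} := by
  obtain ⟨i, b⟩ := s
  obtain ⟨j, c⟩ := t
  cases b <;> cases c <;> simp only [stepv_true, stepv_false]
  · refine ⟨x - e3 i - e3 j, ?_⟩
    have h1 : leOf x (x + -e3 i) = (x - e3 i, i) := by
      rw [leOf_neg' (i := i) (by abel), sub_eq_add_neg]
    have h2 : leOf (x + -e3 i + -e3 j) (x + -e3 j) = (x - e3 i - e3 j, i) := by
      rw [leOf_pos' (i := i) (by abel)]; congr 1
    have h3 : leOf (x + -e3 i) (x + -e3 i + -e3 j) = (x - e3 i - e3 j, j) := by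
      rw [leOf_neg' (i := j) (by abel)]; congr 1
    have h4 : leOf (x + -e3 j) x = (x - e3 j, j) := by
      rw [leOf_pos' (i := j) (by abel), sub_eq_add_neg]
    rw [h1, h2, h3, h4]
    have h5 : x - e3 i - e3 j + e3 j = x - e3 i := by abel
    have h6 : x - e3 i - e3 j + e3 i = x - e3 j := by abel
    rw [h5, h6]
    exact ⟨Finset.pair_comm _ _, rfl⟩
  · refine ⟨x - e3 i, ?_⟩
    have h1 : leOf x (x + -e3 i) = (x - e3 i, i) := by
      rw [leOf_neg' (i := i) (by abel), sub_eq_add_neg]
    have h2 : leOf (x + -e3 i + e3 j) (x + e3 j) = (x - e3 i + e3 j, i) := by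
      rw [leOf_pos' (i := i) (by abel)]; congr 1
    have h3 : leOf (x + -e3 i) (x + -e3 i + e3 j) = (x - e3 i, j) := by
      rw [leOf_pos' (i := j) (by abel)]; congr 1
    have h4 : leOf (x + e3 j) x = (x, j) := by
      rw [leOf_neg' (i := j) (by abel)]
    rw [h1, h2, h3, h4]
    have h6 : x - e3 i + e3 i = x := by abel
    rw [h6]
    exact ⟨rfl, rfl⟩
  · refine ⟨x - e3 j, ?_⟩
    have h1 : leOf x (x + e3 i) = (x, i) := by
      rw [leOf_pos' (i := i) (by abel)]
    have h2 : leOf (x + e3 i + -e3 j) (x + -e3 j) = (x - e3 j, i) := by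
      rw [leOf_neg' (i := i) (by abel)]; congr 1
    have h3 : leOf (x + e3 i) (x + e3 i + -e3 j) = (x - e3 j + e3 i, j) := by
      rw [leOf_neg' (i := j) (by abel)]; congr 1; abel
    have h4 : leOf (x + -e3 j) x = (x - e3 j, j) := by
      rw [leOf_pos' (i := j) (by abel), sub_eq_add_neg]
    rw [h1, h2, h3, h4]
    have h6 : x - e3 j + e3 j = x := by abel
    rw [h6]
    exact ⟨Finset.pair_comm _ _, Finset.pair_comm _ _⟩
  · refine ⟨x, ?_⟩
    have h1 : leOf x (x + e3 i) = (x, i) := by
      rw [leOf_pos' (i := i) (by abel)]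
    have h2 : leOf (x + e3 i + e3 j) (x + e3 j) = (x + e3 j, i) := by
      rw [leOf_neg' (i := i) (by abel)]
    have h3 : leOf (x + e3 i) (x + e3 i + e3 j) = (x + e3 i, j) := by
      rw [leOf_pos' (i := j) (by abel)]
    have h4 : leOf (x + e3 j) x = (x, j) := by
      rw [leOf_neg' (i := j) (by abel)]
    rw [h1, h2, h3, h4]
    exact ⟨rfl, Finset.pair_comm _ _⟩

theorem isSq_data {x y z w : P3} (h : IsSq x y z w) :
    ∃ p i j, SqData (leOf x y) (leOf y z) (leOf z w) (leOf w x) p i j := by
  obtain ⟨s, t, hst, rfl, rfl, rfl⟩ := isSq_steps h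
  obtain ⟨p, h1, h2⟩ := sq_par (x := x) (s := s) (t := t)
  set a := leOf x (x + stepv s)
  set b := leOf (x + stepv s) (x + stepv s + stepv t)
  set c := leOf (x + stepv s + stepv t) (x + stepv t)
  set d := leOf (x + stepv t) x
  have e1 : (({(p, s.1), (p + e3 t.1, s.1)} : Finset LE) ∪ {(p, t.1), (p + e3 s.1, t.1)}) =
      {a, b, c, d} := by
    rw [h1, h2]
    ext e
    simp only [Finset.mem_union, Finset.mem_insert, Finset.mem_singleton]
    tauto
  have e2 : (({(p, s.1), (p + e3 t.1, s.1)} : Finset LE) ∪ {(p, t.1), (p + e3 s.1, t.1)}) =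
      sqE p s.1 t.1 := by
    unfold sqE
    ext e
    simp only [Finset.mem_union, Finset.mem_insert, Finset.mem_singleton]
    tauto
  have hac : a ≠ c := by
    intro hh
    have h3 : (({(p, s.1), (p + e3 t.1, s.1)} : Finset LE)).card = 2 := by
      rw [Finset.card_pair]
      simp only [ne_eq, Prod.mk.injEq, and_true]
      exact arcs_ne_add p _
    rw [h1, hh, Finset.pair_eq_singleton, Finset.card_singleton] at h3
    omega
  have hbd : b ≠ d := by
    intro hh
    have h3 : (({(p, t.1), (p + e3 s.1, t.1)} : Finset LE)).card = 2 := by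
      rw [Finset.card_pair]
      simp only [ne_eq, Prod.mk.injEq, and_true]
      exact arcs_ne_add p _
    rw [h2, hh, Finset.pair_eq_singleton, Finset.card_singleton] at h3
    omega
  have hs : ∀ e ∈ ({a, c} : Finset LE), e.2 = s.1 := by
    intro e he
    rw [← h1] at he
    simp only [Finset.mem_insert, Finset.mem_singleton] at he
    rcases he with rfl | rfl <;> rfl
  have ht : ∀ e ∈ ({b, d} : Finset LE), e.2 = t.1 := by
    intro e he
    rw [← h2] at he
    simp only [Finset.mem_insert, Finset.mem_singleton] at he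
    rcases he with rfl | rfl <;> rfl
  have ha := hs a (by simp)
  have hc := hs c (by simp)
  have hb := ht b (by simp)
  have hd := ht d (by simp)
  have hab : a ≠ b := fun hh => hst (by rw [← ha, hh, hb])
  have had : a ≠ d := fun hh => hst (by rw [← ha, hh, hd])
  have hbc : b ≠ c := fun hh => hst (by rw [← hc, ← hh, hb])
  have hcd : c ≠ d := fun hh => hst (by rw [← hc, hh, hd])
  rcases lt_or_gt_of_ne hst with hlt | hlt
  · exact ⟨p, s.1, t.1, hlt, by rw [← e2, e1], Or.inl ⟨h1, h2⟩, hab, hac, had, hbc, hbd, hcd⟩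
  · exact ⟨p, t.1, s.1, hlt, by rw [sqE_comm, ← e2, e1], Or.inr ⟨h2, h1⟩, hab, hac, had, hbc, hbd,
      hcd⟩

theorem sqmove_two {K K' Q : Finset LE} (hK : Valid K) (hK' : Valid K') {a b c d : LE} {p : P3}
    {i j : Fin 3} (h : SqData a b c d p i j) (e : K = Q ∪ {a, b}) (e' : K' = Q ∪ {c, d})
    (ha : a ∉ Q) (hb : b ∉ Q) (hc : c ∉ Q) (hd : d ∉ Q) : SqMove K K' := by
  have hab := h.ab
  have hac := h.ac
  have had := h.ad
  have hbc := h.bc
  have hbd := h.bd
  have hcd := h.cd
  have hI : K ∩ sqE p i j = {a, b} := by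
    rw [h.eq, e]
    ext u
    simp only [Finset.mem_inter, Finset.mem_union, Finset.mem_insert, Finset.mem_singleton]
    constructor
    · rintro ⟨h1, h2⟩
      rcases h2 with rfl | rfl | rfl | rfl
      · exact Or.inl rfl
      · exact Or.inr rfl
      · rcases h1 with h1 | h1 | h1
        · exact absurd h1 hc
        · exact Or.inl h1
        · exact Or.inr h1
      · rcases h1 with h1 | h1 | h1
        · exact absurd h1 hd
        · exact Or.inl h1
        · exact Or.inr h1
    · rintro (rfl | rfl)
      · exact ⟨Or.inr (Or.inl rfl), Or.inl rfl⟩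
      · exact ⟨Or.inr (Or.inr rfl), Or.inr (Or.inl rfl)⟩
  have n1 : ({a, b} : Finset LE) ≠ {a, c} := by
    intro hh
    have : b ∈ ({a, c} : Finset LE) := by rw [← hh]; simp
    simp only [Finset.mem_insert, Finset.mem_singleton] at this
    rcases this with this | this
    · exact hab this.symm
    · exact hbc this
  have n2 : ({a, b} : Finset LE) ≠ {b, d} := by
    intro hh
    have : a ∈ ({b, d} : Finset LE) := by rw [← hh]; simp
    simp only [Finset.mem_insert, Finset.mem_singleton] at this
    rcases this with this | this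
    · exact hab this
    · exact had this
  refine ⟨hK, hK', p, i, j, h.lt, ?_, ?_, ?_, ?_, ?_⟩
  · rw [h.eq, e, e']
    ext u
    simp only [Finset.mem_symmDiff, Finset.mem_union, Finset.mem_insert, Finset.mem_singleton]
    constructor
    · rintro (h1 | rfl | rfl)
      · left
        refine ⟨Or.inl h1, ?_⟩
        rintro (rfl | rfl | rfl | rfl)
        · exact ha h1
        · exact hb h1
        · exact hc h1
        · exact hd h1
      · right
        refine ⟨Or.inr (Or.inr (Or.inl rfl)), ?_⟩
        rintro (h1 | h1 | h1)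
        · exact hc h1
        · exact hac h1.symm
        · exact hbc h1.symm
      · right
        refine ⟨Or.inr (Or.inr (Or.inr rfl)), ?_⟩
        rintro (h1 | h1 | h1)
        · exact hd h1
        · exact had h1.symm
        · exact hbd h1.symm
    · rintro (⟨h1, h2⟩ | ⟨h1, h2⟩)
      · rcases h1 with h1 | h1 | h1
        · exact Or.inl h1
        · exact absurd (Or.inl h1) h2
        · exact absurd (Or.inr (Or.inl h1)) h2
      · rcases h1 with h1 | h1 | h1 | h1
        · exact absurd (Or.inr (Or.inl h1)) h2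
        · exact absurd (Or.inr (Or.inr h1)) h2
        · exact Or.inr (Or.inl h1)
        · exact Or.inr (Or.inr h1)
  · rw [hI]
    exact Finset.insert_ne_empty _ _
  · rw [hI, h.eq]
    intro hh
    have : c ∈ ({a, b} : Finset LE) := by rw [hh]; simp
    simp only [Finset.mem_insert, Finset.mem_singleton] at this
    rcases this with this | this
    · exact hac this.symm
    · exact hbc this.symm
  · rw [hI]
    rcases h.par with ⟨h1, _⟩ | ⟨h1, _⟩
    · rw [h1]; exact n1
    · rw [h1]; exact n2
  · rw [hI]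
    rcases h.par with ⟨_, h1⟩ | ⟨_, h1⟩
    · rw [h1]; exact n2
    · rw [h1]; exact n1

theorem sqmove_one {K K' Q : Finset LE} (hK : Valid K) (hK' : Valid K') {a b c d : LE} {p : P3}
    {i j : Fin 3} (h : SqData a b c d p i j) (e : K = Q ∪ {d}) (e' : K' = Q ∪ {a, b, c})
    (ha : a ∉ Q) (hb : b ∉ Q) (hc : c ∉ Q) (hd : d ∉ Q) : SqMove K K' := by
  have hab := h.ab
  have hac := h.ac
  have had := h.ad
  have hbc := h.bc
  have hbd := h.bd
  have hcd := h.cd
  have hI : K ∩ sqE p i j = {d} := by
    rw [h.eq, e]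
    ext u
    simp only [Finset.mem_inter, Finset.mem_union, Finset.mem_insert, Finset.mem_singleton]
    constructor
    · rintro ⟨h1, h2⟩
      rcases h1 with h1 | h1
      · rcases h2 with rfl | rfl | rfl | rfl
        · exact absurd h1 ha
        · exact absurd h1 hb
        · exact absurd h1 hc
        · rfl
      · exact h1
    · rintro rfl
      exact ⟨Or.inr rfl, Or.inr (Or.inr (Or.inr rfl))⟩
  have n1 : ({d} : Finset LE) ≠ {a, c} := by
    intro hh
    have : a ∈ ({d} : Finset LE) := by rw [hh]; simp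
    exact had (Finset.mem_singleton.1 this)
  have n2 : ({d} : Finset LE) ≠ {b, d} := by
    intro hh
    have : b ∈ ({d} : Finset LE) := by rw [hh]; simp
    exact hbd (Finset.mem_singleton.1 this)
  refine ⟨hK, hK', p, i, j, h.lt, ?_, ?_, ?_, ?_, ?_⟩
  · rw [h.eq, e, e']
    ext u
    simp only [Finset.mem_symmDiff, Finset.mem_union, Finset.mem_insert, Finset.mem_singleton]
    constructor
    · rintro (h1 | rfl | rfl | rfl)
      · left
        refine ⟨Or.inl h1, ?_⟩
        rintro (rfl | rfl | rfl | rfl)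
        · exact ha h1
        · exact hb h1
        · exact hc h1
        · exact hd h1
      · right
        refine ⟨Or.inl rfl, ?_⟩
        rintro (h1 | h1)
        · exact ha h1
        · exact had h1
      · right
        refine ⟨Or.inr (Or.inl rfl), ?_⟩
        rintro (h1 | h1)
        · exact hb h1
        · exact hbd h1
      · right
        refine ⟨Or.inr (Or.inr (Or.inl rfl)), ?_⟩
        rintro (h1 | h1)
        · exact hc h1
        · exact hcd h1
    · rintro (⟨h1, h2⟩ | ⟨h1, h2⟩)
      · rcases h1 with h1 | h1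
        · exact Or.inl h1
        · exact absurd (Or.inr (Or.inr (Or.inr h1))) h2
      · rcases h1 with h1 | h1 | h1 | h1
        · exact Or.inr (Or.inl h1)
        · exact Or.inr (Or.inr (Or.inl h1))
        · exact Or.inr (Or.inr (Or.inr h1))
        · exact absurd (Or.inr h1) h2
  · rw [hI]
    exact Finset.singleton_ne_empty _
  · rw [hI, h.eq]
    intro hh
    have : c ∈ ({d} : Finset LE) := by rw [hh]; simp
    exact hcd (Finset.mem_singleton.1 this)
  · rw [hI]
    rcases h.par with ⟨h1, _⟩ | ⟨h1, _⟩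
    · rw [h1]; exact n1
    · rw [h1]; exact n2
  · rw [hI]
    rcases h.par with ⟨_, h1⟩ | ⟨_, h1⟩
    · rw [h1]; exact n2
    · rw [h1]; exact n1

theorem chain_left {A B : List P3} {x : P3} (h : (A ++ x :: B).IsChain Adj) :
    (A ++ [x]).IsChain Adj := by
  have : A ++ x :: B = (A ++ [x]) ++ B := by simp
  rw [this] at h
  exact h.left_of_append

theorem chain_right {A B : List P3} (h : (A ++ B).IsChain Adj) : B.IsChain Adj :=
  h.right_of_append

theorem sqmove_of_up {R : Finset LE} {p q : P3} (hR : Half R p q) (A B : List P3) (x y z w : P3)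
    (h : IsSq x y z w) (h1 : Arc R p q (A ++ x :: w :: B))
    (h2 : Arc R p q (A ++ x :: y :: z :: w :: B)) :
    SqMove (R ∪ pe (A ++ x :: w :: B)) (R ∪ pe (A ++ x :: y :: z :: w :: B)) := by
  obtain ⟨p', i, j, hd⟩ := isSq_data h
  obtain ⟨axy, ayz, azw, awx, -, -⟩ := h
  have cA : (A ++ [x]).IsChain Adj := chain_left h1.chain
  have cB : (w :: B).IsChain Adj := by
    have := chain_right h1.chain
    rw [List.isChain_cons_cons] at this
    exact this.2
  have n1 := h1.nodup
  have n2 := h2.nodup
  rw [List.nodup_append] at n1 n2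
  obtain ⟨n1a, n1b, n1c⟩ := n1
  obtain ⟨n2a, n2b, n2c⟩ := n2
  simp only [List.nodup_cons, List.mem_cons, not_or] at n1b n2b
  have hw : w ∉ A ++ [x] := by
    simp only [List.mem_append, List.mem_singleton, not_or]
    exact ⟨fun hh => n1c w hh w (by simp) rfl, fun hh => n1b.1.1 hh.symm⟩
  have hx : x ∉ w :: B := by
    simp only [List.mem_cons, not_or]
    exact ⟨n1b.1.1, n1b.1.2⟩
  have hyA : y ∉ A ++ [x] := by
    simp only [List.mem_append, List.mem_singleton, not_or]
    exact ⟨fun hh => n2c y hh y (by simp) rfl, fun hh => n2b.1.1 hh.symm⟩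
  have hyB : y ∉ w :: B := by
    simp only [List.mem_cons, not_or]
    exact ⟨n2b.2.1.2.1, n2b.2.1.2.2⟩
  have hzA : z ∉ A ++ [x] := by
    simp only [List.mem_append, List.mem_singleton, not_or]
    exact ⟨fun hh => n2c z hh z (by simp) rfl, fun hh => n2b.1.2.1 hh.symm⟩
  have hzB : z ∉ w :: B := by
    simp only [List.mem_cons, not_or]
    exact ⟨n2b.2.2.1.1, n2b.2.2.1.2⟩
  have e1 : pe (A ++ x :: w :: B) = pe (A ++ [x]) ∪ ({leOf w x} ∪ pe (w :: B)) := by
    rw [pe_append, pe_cons_cons, leOf_comm awx.symm]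
    rfl
  have e2 : pe (A ++ x :: y :: z :: w :: B) = pe (A ++ [x]) ∪
      ({leOf x y, leOf y z, leOf z w} ∪ pe (w :: B)) := by
    rw [pe_append, pe_cons_cons, pe_cons_cons, pe_cons_cons]
    ext e
    simp only [Finset.mem_union, Finset.mem_insert, Finset.mem_singleton]
    tauto
  have d1 := h1.disj
  have d2 := h2.disj
  rw [e1, Finset.disjoint_right] at d1
  rw [e2, Finset.disjoint_right] at d2
  refine sqmove_one (arc_valid hR h1) (arc_valid hR h2) hd
    (Q := R ∪ pe (A ++ [x]) ∪ pe (w :: B)) ?_ ?_ ?_ ?_ ?_ ?_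
  · rw [e1]
    ext e
    simp only [Finset.mem_union, Finset.mem_singleton]
    tauto
  · rw [e2]
    ext e
    simp only [Finset.mem_union, Finset.mem_insert, Finset.mem_singleton]
    tauto
  · rw [Finset.mem_union, Finset.mem_union]
    rintro ((hh | hh) | hh)
    · exact d2 (by simp) hh
    · exact hyA (mem_of_on_pe cA ⟨_, hh, (inc_leOf axy).2 (Or.inr rfl)⟩)
    · exact hyB (mem_of_on_pe cB ⟨_, hh, (inc_leOf axy).2 (Or.inr rfl)⟩)
  · rw [Finset.mem_union, Finset.mem_union]
    rintro ((hh | hh) | hh)
    · exact d2 (by simp) hh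
    · exact hyA (mem_of_on_pe cA ⟨_, hh, (inc_leOf ayz).2 (Or.inl rfl)⟩)
    · exact hyB (mem_of_on_pe cB ⟨_, hh, (inc_leOf ayz).2 (Or.inl rfl)⟩)
  · rw [Finset.mem_union, Finset.mem_union]
    rintro ((hh | hh) | hh)
    · exact d2 (by simp) hh
    · exact hzA (mem_of_on_pe cA ⟨_, hh, (inc_leOf azw).2 (Or.inl rfl)⟩)
    · exact hzB (mem_of_on_pe cB ⟨_, hh, (inc_leOf azw).2 (Or.inl rfl)⟩)
  · rw [Finset.mem_union, Finset.mem_union]
    rintro ((hh | hh) | hh)
    · exact d1 (by simp) hh
    · exact hw (mem_of_on_pe cA ⟨_, hh, (inc_leOf awx).2 (Or.inl rfl)⟩)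
    · exact hx (mem_of_on_pe cB ⟨_, hh, (inc_leOf awx).2 (Or.inr rfl)⟩)

theorem sqmove_of_two {R : Finset LE} {p q : P3} (hR : Half R p q) (A B : List P3) (x y z w : P3)
    (h : IsSq x y z w) (h1 : Arc R p q (A ++ x :: y :: z :: B))
    (h2 : Arc R p q (A ++ x :: w :: z :: B)) :
    SqMove (R ∪ pe (A ++ x :: y :: z :: B)) (R ∪ pe (A ++ x :: w :: z :: B)) := by
  obtain ⟨p', i, j, hd⟩ := isSq_data h
  obtain ⟨axy, ayz, azw, awx, -, -⟩ := h
  have cA : (A ++ [x]).IsChain Adj := chain_left h1.chain
  have cB : (z :: B).IsChain Adj := by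
    have := chain_right h1.chain
    rw [List.isChain_cons_cons, List.isChain_cons_cons] at this
    exact this.2.2
  have n1 := h1.nodup
  have n2 := h2.nodup
  rw [List.nodup_append] at n1 n2
  obtain ⟨n1a, n1b, n1c⟩ := n1
  obtain ⟨n2a, n2b, n2c⟩ := n2
  simp only [List.nodup_cons, List.mem_cons, not_or] at n1b n2b
  have hyA : y ∉ A ++ [x] := by
    simp only [List.mem_append, List.mem_singleton, not_or]
    exact ⟨fun hh => n1c y hh y (by simp) rfl, fun hh => n1b.1.1 hh.symm⟩
  have hyB : y ∉ z :: B := by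
    simp only [List.mem_cons, not_or]
    exact ⟨n1b.2.1.1, n1b.2.1.2⟩
  have hwA : w ∉ A ++ [x] := by
    simp only [List.mem_append, List.mem_singleton, not_or]
    exact ⟨fun hh => n2c w hh w (by simp) rfl, fun hh => n2b.1.1 hh.symm⟩
  have hwB : w ∉ z :: B := by
    simp only [List.mem_cons, not_or]
    exact ⟨n2b.2.1.1, n2b.2.1.2⟩
  have e1 : pe (A ++ x :: y :: z :: B) = pe (A ++ [x]) ∪
      ({leOf x y, leOf y z} ∪ pe (z :: B)) := by
    rw [pe_append, pe_cons_cons, pe_cons_cons]
    ext e
    simp only [Finset.mem_union, Finset.mem_insert, Finset.mem_singleton]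
    tauto
  have e2 : pe (A ++ x :: w :: z :: B) = pe (A ++ [x]) ∪
      ({leOf z w, leOf w x} ∪ pe (z :: B)) := by
    rw [pe_append, pe_cons_cons, pe_cons_cons, leOf_comm awx, leOf_comm azw]
    ext e
    simp only [Finset.mem_union, Finset.mem_insert, Finset.mem_singleton]
    tauto
  have d1 := h1.disj
  have d2 := h2.disj
  rw [e1, Finset.disjoint_right] at d1
  rw [e2, Finset.disjoint_right] at d2
  refine sqmove_two (arc_valid hR h1) (arc_valid hR h2) hd
    (Q := R ∪ pe (A ++ [x]) ∪ pe (z :: B)) ?_ ?_ ?_ ?_ ?_ ?_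
  · rw [e1]
    ext e
    simp only [Finset.mem_union, Finset.mem_insert, Finset.mem_singleton]
    tauto
  · rw [e2]
    ext e
    simp only [Finset.mem_union, Finset.mem_insert, Finset.mem_singleton]
    tauto
  · rw [Finset.mem_union, Finset.mem_union]
    rintro ((hh | hh) | hh)
    · exact d1 (by simp) hh
    · exact hyA (mem_of_on_pe cA ⟨_, hh, (inc_leOf axy).2 (Or.inr rfl)⟩)
    · exact hyB (mem_of_on_pe cB ⟨_, hh, (inc_leOf axy).2 (Or.inr rfl)⟩)
  · rw [Finset.mem_union, Finset.mem_union]
    rintro ((hh | hh) | hh)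
    · exact d1 (by simp) hh
    · exact hyA (mem_of_on_pe cA ⟨_, hh, (inc_leOf ayz).2 (Or.inl rfl)⟩)
    · exact hyB (mem_of_on_pe cB ⟨_, hh, (inc_leOf ayz).2 (Or.inl rfl)⟩)
  · rw [Finset.mem_union, Finset.mem_union]
    rintro ((hh | hh) | hh)
    · exact d2 (by simp) hh
    · exact hwA (mem_of_on_pe cA ⟨_, hh, (inc_leOf azw).2 (Or.inr rfl)⟩)
    · exact hwB (mem_of_on_pe cB ⟨_, hh, (inc_leOf azw).2 (Or.inr rfl)⟩)
  · rw [Finset.mem_union, Finset.mem_union]
    rintro ((hh | hh) | hh)
    · exact d2 (by simp) hh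
    · exact hwA (mem_of_on_pe cA ⟨_, hh, (inc_leOf awx).2 (Or.inl rfl)⟩)
    · exact hwB (mem_of_on_pe cB ⟨_, hh, (inc_leOf awx).2 (Or.inl rfl)⟩)

theorem pmove_sqmove {R : Finset LE} {p q : P3} (hR : Half R p q) {l l' : List P3}
    (h : PMove R p q l l') : SqMove (R ∪ pe l) (R ∪ pe l') := by
  cases h with
  | two A B x y z w h h1 h2 => exact sqmove_of_two hR A B x y z w h h1 h2
  | up A B x y z w h h1 h2 => exact sqmove_of_up hR A B x y z w h h1 h2
  | down A B x y z w h h1 h2 => exact (sqmove_of_up hR A B x y z w h h1 h2).symm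

theorem piso_liso {R : Finset LE} {p q : P3} (hR : Half R p q) {l l' : List P3}
    (h : PIso R p q l l') : LIso (R ∪ pe l) (R ∪ pe l') := by
  induction h with
  | refl => exact Relation.ReflTransGen.refl
  | tail _ h ih => exact ih.tail (pmove_sqmove hR h)

theorem IsSq.flip {x y z w : P3} (h : IsSq x y z w) : IsSq x w z y := by
  obtain ⟨h1, h2, h3, h4, h5, h6⟩ := h
  exact ⟨h4.symm, h3.symm, h2.symm, h1.symm, h5, h6.symm⟩

theorem IsSq.rot {x y z w : P3} (h : IsSq x y z w) : IsSq y z w x := by
  obtain ⟨h1, h2, h3, h4, h5, h6⟩ := h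
  exact ⟨h2, h3, h4, h1, h6, h5.symm⟩

theorem PMove.symm {R : Finset LE} {p q : P3} {l l' : List P3} (h : PMove R p q l l') :
    PMove R p q l' l := by
  cases h with
  | two A B x y z w h h1 h2 => exact PMove.two A B x w z y h.flip h2 h1
  | up A B x y z w h h1 h2 => exact PMove.down A B x y z w h h1 h2
  | down A B x y z w h h1 h2 => exact PMove.up A B x y z w h h1 h2

theorem PIso.symm {R : Finset LE} {p q : P3} {l l' : List P3} (h : PIso R p q l l') :
    PIso R p q l' l := by
  induction h with
  | refl => exact Relation.ReflTransGen.refl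
  | tail _ h ih => exact Relation.ReflTransGen.head h.symm ih

theorem Arc.reverse {R : Finset LE} {p q : P3} {l : List P3} (h : Arc R p q l) :
    Arc R q p l.reverse := by
  refine ⟨?_, ?_, ?_, ?_, ?_, ?_⟩
  · rw [List.isChain_reverse]
    exact h.chain.imp fun _ _ hh => hh.symm
  · exact List.nodup_reverse.2 h.nodup
  · rw [List.head?_reverse]; exact h.last
  · rw [List.getLast?_reverse]; exact h.head
  · intro x hx h1 h2
    exact h.free x (List.mem_reverse.1 hx) h2 h1
  · rw [pe_reverse h.chain]; exact h.disj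

theorem PMove.reverse {R : Finset LE} {p q : P3} {l l' : List P3} (h : PMove R p q l l') :
    PMove R q p l.reverse l'.reverse := by
  cases h with
  | two A B x y z w h h1 h2 =>
    have h1 := h1.reverse
    have h2 := h2.reverse
    have e1 : ∀ y, (A ++ x :: y :: z :: B).reverse = B.reverse ++ z :: y :: x :: A.reverse := by
      intro y; simp
    rw [e1] at h1 h2 ⊢
    rw [e1]
    exact PMove.two _ _ z y x w h.rot.rot.flip h1 h2
  | up A B x y z w h h1 h2 =>
    have h1 := h1.reverse
    have h2 := h2.reverse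
    have e1 : (A ++ x :: w :: B).reverse = B.reverse ++ w :: x :: A.reverse := by simp
    have e2 : (A ++ x :: y :: z :: w :: B).reverse =
      B.reverse ++ w :: z :: y :: x :: A.reverse := by simp
    rw [e1] at h1 ⊢
    rw [e2] at h2 ⊢
    exact PMove.up _ _ w z y x h.rot.rot.rot.flip h1 h2
  | down A B x y z w h h1 h2 =>
    have h1 := h1.reverse
    have h2 := h2.reverse
    have e1 : (A ++ x :: w :: B).reverse = B.reverse ++ w :: x :: A.reverse := by simp
    have e2 : (A ++ x :: y :: z :: w :: B).reverse =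
      B.reverse ++ w :: z :: y :: x :: A.reverse := by simp
    rw [e1] at h1 ⊢
    rw [e2] at h2 ⊢
    exact PMove.down _ _ w z y x h.rot.rot.rot.flip h1 h2

theorem PIso.reverse {R : Finset LE} {p q : P3} {l l' : List P3} (h : PIso R p q l l') :
    PIso R q p l.reverse l'.reverse := by
  induction h with
  | refl => exact Relation.ReflTransGen.refl
  | tail _ h ih => exact ih.tail h.reverse

end Pool.Agent.Lib.MP_131179_gt.Dehn
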