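import Pool.Agent.Lib.MP_131179_gt.Dehn.Null

/-!
# Attaching a face

A face with `m` edges is attached to a two-dimensional complex `E` along a closed curve.  The face is
inserted at the edge ends between the flags `σ i ε 0` and `σ i ε 1 = d (σ i ε 0)`; here `i` is the
number of the edge, and `ε` its end.  At the corner number `i`, between the end `1` of the edge `i` and
the end `0` of the edge `i + 1`, the face crosses a region of the link of the vertex, and the
function `T i` is the indicator of one side of this crossing.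
-/

set_option autoImplicit false
set_option linter.unusedSectionVars false

namespace Pool.Agent.Lib.MP_131179_gt.Dehn

open TMap

/-- All faces. -/
theorem TMap.isSub_top {Φ : Type} (E : TMap Φ) : E.IsSub fun _ => True :=
  ⟨fun _ => Iff.rfl, fun _ => Iff.rfl, fun _ => Iff.rfl⟩

/-- The first return map to the whole complex is the rotation. -/
theorem TMap.ret_top {Φ : Type} (E : TMap Φ) (x : Φ) : (E.fr E.isSub_top).ret x = E.d x :=
  (E.fr E.isSub_top).ret_of_T (x := x) trivial

theorem attach_F2 : ∀ z : F2, z = 0 ∨ z = 1 := by decide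

theorem attach_add_self (z : F2) : z + z = 0 := CharTwo.add_self_eq_zero z

/-- The orbits of `c` and `d` are finite. -/
theorem attach_finite_CD {Φ : Type} (E : TMap Φ) (y : Φ) : {z | E.CD y z}.Finite := by
  obtain ⟨n, hn, hp⟩ := E.per y
  set τ : Φ → Φ := fun y => E.d (E.c y) with hτ
  set S : Set Φ := (fun j : ℕ => τ^[j] y) '' (Set.Iio n) ∪ (fun j : ℕ => E.c (τ^[j] y)) '' (Set.Iio n)
    with hS
  have hfin : S.Finite := ((Set.finite_Iio n).image _).union ((Set.finite_Iio n).image _)
  have hyS : y ∈ S := Or.inl ⟨0, hn, rfl⟩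
  have hc : ∀ z ∈ S, E.c z ∈ S := by
    rintro z (⟨j, hj, rfl⟩ | ⟨j, hj, rfl⟩)
    · exact Or.inr ⟨j, hj, rfl⟩
    · refine Or.inl ⟨j, hj, ?_⟩
      exact (E.cc _).symm
  have hd : ∀ z ∈ S, E.d z ∈ S := by
    rintro z (⟨j, hj, rfl⟩ | ⟨j, hj, rfl⟩)
    · have key : ∃ k, k < n ∧ τ^[k + 1] y = τ^[j] y := by
        cases j with
        | zero => exact ⟨n - 1, by omega, by rw [Nat.sub_add_cancel hn]; exact hp⟩
        | succ j => exact ⟨j, by have : j + 1 < n := hj; omega, rfl⟩
      obtain ⟨k, hk, he⟩ := key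
      refine Or.inr ⟨k, hk, ?_⟩
      show E.c (τ^[k] y) = E.d (τ^[j] y)
      rw [← he, Function.iterate_succ_apply']
      exact (E.dd _).symm
    · rcases Nat.lt_or_ge (j + 1) n with h | h
      · refine Or.inl ⟨j + 1, h, ?_⟩
        show τ^[j + 1] y = _
        rw [Function.iterate_succ_apply']
      · refine Or.inl ⟨0, hn, ?_⟩
        have : j + 1 = n := by have : j < n := hj; omega
        show y = E.d (E.c (τ^[j] y))
        rw [← this, Function.iterate_succ_apply'] at hp
        exact hp.symm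
  refine hfin.subset ?_
  have key : ∀ u v, E.CD u v → (u ∈ S ↔ v ∈ S) := by
    intro u v huv
    induction huv with
    | rel u v hr =>
      obtain ⟨f, hf, rfl⟩ := hr
      simp only [List.mem_cons, List.not_mem_nil, or_false] at hf
      rcases hf with rfl | rfl
      · refine ⟨hc u, fun h => ?_⟩
        have := hc _ h
        rwa [E.cc] at this
      · refine ⟨hd u, fun h => ?_⟩
        have := hd _ h
        rwa [E.dd] at this
    | refl u => exact Iff.rfl
    | symm u v _ ih => exact ih.symm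
    | trans u v w _ _ ih1 ih2 => exact ih1.trans ih2
  intro z hz
  exact (key y z hz).1 hyS

/-- The places where a face with `m` edges is attached. -/
structure Slots {Φ : Type} (E : TMap Φ) (m : ℕ) where
  σ : ZMod m → F2 → F2 → Φ
  inj : ∀ i ε s i' ε' s', σ i ε s = σ i' ε' s' → i = i' ∧ ε = ε' ∧ s = s'
  sa : ∀ i ε s, E.a (σ i ε s) = σ i (ε + 1) s
  sδ : ∀ i ε s, E.d (σ i ε s) = σ i ε (s + 1)
  sgσ : ∀ i ε s, E.sg (σ i ε s) = ε + s
  T : ZMod m → Φ → F2
  Tb : ∀ i x, T i (E.b x) = T i x
  Td : ∀ i x, (∀ s, x ≠ σ i 1 s ∧ x ≠ σ (i + 1) 0 s) → T i (E.d x) = T i x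
  T1 : ∀ i s, T i (σ i 1 (s + 1)) = T i (σ i 1 s) + 1
  T0 : ∀ i s, T i (σ (i + 1) 0 (s + 1)) = T i (σ (i + 1) 0 s) + 1
  same : ∀ i j s, T j (σ i 1 s) = T j (σ (i + 1) 0 s)
  orb : ∀ i s, SameOrb [E.b, E.d] (σ i 1 s) (σ (i + 1) 0 s)

namespace Slots

variable {Φ : Type} {E : TMap Φ} {m : ℕ} [NeZero m] (A : Slots E m)

/-- The flags of the new face: the number of the edge, the end of the edge and the side. -/
abbrev HF (m : ℕ) : Type := ZMod m × F2 × F2

def slot (q : HF m) : Φ := A.σ q.1 q.2.1 q.2.2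

open Classical in
/-- Rotation in the new complex. -/
noncomputable def dd (x : Φ ⊕ HF m) : Φ ⊕ HF m :=
  match x with
  | .inl x => if h : ∃ q, A.slot q = x then .inr h.choose else .inl (E.d x)
  | .inr q => .inl (A.slot q)

theorem attach_slot_inj {q q' : HF m} (h : A.slot q = A.slot q') : q = q' := by
  obtain ⟨h1, h2, h3⟩ := A.inj _ _ _ _ _ _ h
  exact Prod.ext h1 (Prod.ext h2 h3)

open Classical in
theorem attach_dd_slot (q : HF m) : A.dd (.inl (A.slot q)) = .inr q := by
  have h : ∃ q', A.slot q' = A.slot q := ⟨q, rfl⟩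
  show (if h : ∃ q', A.slot q' = A.slot q then (.inr h.choose : Φ ⊕ HF m)
    else .inl (E.d (A.slot q))) = _
  rw [dif_pos h, A.attach_slot_inj h.choose_spec]

open Classical in
theorem attach_dd_not {x : Φ} (h : ∀ q, A.slot q ≠ x) : A.dd (.inl x) = .inl (E.d x) := by
  have h' : ¬ ∃ q, A.slot q = x := fun ⟨q, hq⟩ => h q hq
  show (if h : ∃ q', A.slot q' = x then (.inr h.choose : Φ ⊕ HF m) else .inl (E.d x)) = _
  rw [dif_neg h']

theorem attach_dd_inr (q : HF m) : A.dd (.inr q) = .inl (A.slot q) := rfl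

theorem attach_a_slot (q : HF m) : E.a (A.slot q) = A.slot (q.1, q.2.1 + 1, q.2.2) :=
  A.sa _ _ _

theorem attach_E_d_slot (q : HF m) : E.d (A.slot q) = A.slot (q.1, q.2.1, q.2.2 + 1) :=
  A.sδ _ _ _

theorem attach_not_d {x : Φ} (h : ∀ q, A.slot q ≠ x) (q : HF m) : A.slot q ≠ E.d x := by
  intro hq
  apply h (q.1, q.2.1, q.2.2 + 1)
  rw [← attach_E_d_slot, hq, E.dd]

theorem attach_not_a {x : Φ} (h : ∀ q, A.slot q ≠ x) (q : HF m) : A.slot q ≠ E.a x := by
  intro hq
  apply h (q.1, q.2.1 + 1, q.2.2)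
  rw [← attach_a_slot, hq, E.aa]

theorem attach_cases (x : Φ) : (∃ q, x = A.slot q) ∨ ∀ q, A.slot q ≠ x := by
  by_cases h : ∃ q, A.slot q = x
  · obtain ⟨q, hq⟩ := h
    exact Or.inl ⟨q, hq.symm⟩
  · exact Or.inr fun q hq => h ⟨q, hq⟩

theorem attach_dd_dd (x : Φ ⊕ HF m) : A.dd (A.dd x) = x := by
  rcases x with x | q
  · rcases A.attach_cases x with ⟨q, rfl⟩ | h
    · rw [attach_dd_slot, attach_dd_inr]
    · rw [A.attach_dd_not h, A.attach_dd_not (A.attach_not_d h), E.dd]
  · rw [attach_dd_inr, attach_dd_slot]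

/-- The rotation at the new face. -/
def attach_b (q : HF m) : HF m := if q.2.1 = 1 then (q.1 + 1, 0, q.2.2) else (q.1 - 1, 1, q.2.2)

/-- The corner of a flag of the new face. -/
def attach_corner (q : HF m) : ZMod m := if q.2.1 = 1 then q.1 else q.1 - 1

/-- A combination of the functions `T i`. -/
noncomputable def attach_T (γ : ZMod m → F2) (x : Φ) : F2 :=
  letI := ZMod.fintype m
  ∑ i : ZMod m, γ i * A.T i x

theorem attach_T_b (γ : ZMod m → F2) (x : Φ) : A.attach_T γ (E.b x) = A.attach_T γ x := by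
  unfold attach_T
  simp only [A.Tb]

theorem attach_T_not (γ : ZMod m → F2) {x : Φ} (h : ∀ q, A.slot q ≠ x) :
    A.attach_T γ (E.d x) = A.attach_T γ x := by
  unfold attach_T
  refine Finset.sum_congr rfl fun i _ => ?_
  rw [A.Td i x fun s => ⟨fun e => h (i, 1, s) e.symm, fun e => h (i + 1, 0, s) e.symm⟩]

theorem attach_T_slot (γ : ZMod m → F2) (q : HF m) :
    A.attach_T γ (E.d (A.slot q)) = A.attach_T γ (A.slot q) + γ (attach_corner q) := by
  classical
  let _ := ZMod.fintype m
  have h10 : (1 : F2) ≠ 0 := by decide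
  have key : ∀ i, A.T i (E.d (A.slot q)) =
      A.T i (A.slot q) + if i = attach_corner q then 1 else 0 := by
    intro i
    obtain ⟨j, ε, s⟩ := q
    rcases attach_F2 ε with rfl | rfl
    · by_cases hi : i = j - 1
      · have hj : j = i + 1 := by rw [hi]; ring
        subst hj
        rw [attach_E_d_slot]
        simp only [attach_corner, h10.symm, if_false, slot, add_sub_cancel_right, if_true]
        exact A.T0 i s
      · rw [A.Td i]
        · simp [attach_corner, hi]
        · intro s'
          constructor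
          · intro e
            exact h10 (A.inj _ _ _ _ _ _ e).2.1.symm
          · intro e
            apply hi
            have := (A.inj _ _ _ _ _ _ e).1
            simp only at this
            rw [this]; ring
    · by_cases hi : i = j
      · subst hi
        rw [attach_E_d_slot]
        simp only [attach_corner, slot, if_true]
        exact A.T1 i s
      · rw [A.Td i]
        · simp [attach_corner, hi]
        · intro s'
          constructor
          · intro e
            exact hi (A.inj _ _ _ _ _ _ e).1.symm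
          · intro e
            exact h10 (A.inj _ _ _ _ _ _ e).2.1
  unfold attach_T
  simp only [key, mul_add, Finset.sum_add_distrib]
  congr 1
  simp

theorem attach_T_same (γ : ZMod m → F2) (q : HF m) :
    A.attach_T γ (A.slot (attach_b q)) = A.attach_T γ (A.slot q) := by
  have h10 : (0 : F2) ≠ 1 := by decide
  unfold attach_T
  refine Finset.sum_congr rfl fun i _ => ?_
  obtain ⟨j, ε, s⟩ := q
  rcases attach_F2 ε with rfl | rfl
  · have h1 := A.same (j - 1) i s
    rw [sub_add_cancel] at h1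
    simp only [attach_b, h10, if_false, slot]
    rw [h1]
  · have h1 := A.same j i s
    simp only [attach_b, if_true, slot]
    rw [h1]

theorem attach_orb (G : Φ → F2) (hb : ∀ x, G (E.b x) = G x) (hd : ∀ x, G (E.d x) = G x)
    (q : HF m) : G (A.slot (attach_b q)) = G (A.slot q) := by
  have key : ∀ x y, SameOrb [E.b, E.d] x y → G x = G y := by
    intro x y h
    induction h with
    | rel u v hr =>
      obtain ⟨f, hf, rfl⟩ := hr
      simp only [List.mem_cons, List.not_mem_nil, or_false] at hf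
      rcases hf with rfl | rfl
      · exact (hb u).symm
      · exact (hd u).symm
    | refl u => rfl
    | symm u v _ ih => exact ih.symm
    | trans u v w _ _ ih1 ih2 => exact ih1.trans ih2
  have h10 : (0 : F2) ≠ 1 := by decide
  obtain ⟨j, ε, s⟩ := q
  rcases attach_F2 ε with rfl | rfl
  · have h1 := key _ _ (A.orb (j - 1) s)
    rw [sub_add_cancel] at h1
    simp only [attach_b, h10, if_false, slot]
    exact h1
  · have h1 := key _ _ (A.orb j s)
    simp only [attach_b, if_true, slot]
    exact h1.symm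

theorem attach_b_b (q : HF m) : attach_b (attach_b q) = q := by
  have h10 : (0 : F2) ≠ 1 := by decide
  obtain ⟨j, ε, s⟩ := q
  rcases attach_F2 ε with rfl | rfl <;> simp [attach_b]

theorem attach_per (x : Φ ⊕ HF m) : ∃ n, 0 < n ∧
    (fun y => A.dd (Sum.map E.c (fun q : HF m => (q.1, q.2.1, q.2.2 + 1)) y))^[n] x = x := by
  classical
  set c' : Φ ⊕ HF m → Φ ⊕ HF m := Sum.map E.c (fun q : HF m => (q.1, q.2.1, q.2.2 + 1)) with hc'
  obtain ⟨y, hy⟩ : ∃ y : Φ, (∃ z, x = .inl z ∧ E.CD y z) ∨ ∃ q, x = .inr q ∧ E.CD y (A.slot q) := by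
    rcases x with x | q
    · exact ⟨x, Or.inl ⟨x, rfl, CD.refl E x⟩⟩
    · exact ⟨A.slot q, Or.inr ⟨q, rfl, CD.refl E _⟩⟩
  let P : Set (Φ ⊕ HF m) := {w | (∃ z, w = .inl z ∧ E.CD y z) ∨ ∃ q, w = .inr q ∧ E.CD y (A.slot q)}
  have hfin : P.Finite := by
    have h1 : (Sum.inl '' {z | E.CD y z} : Set (Φ ⊕ HF m)).Finite := (attach_finite_CD E y).image _
    let _ := ZMod.fintype m
    have h2 : (Set.range (Sum.inr : HF m → Φ ⊕ HF m)).Finite := Set.finite_range _
    refine (h1.union h2).subset ?_
    rintro w (⟨z, rfl, hz⟩ | ⟨q, rfl, _⟩)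
    · exact Or.inl ⟨z, hz, rfl⟩
    · exact Or.inr ⟨q, rfl⟩
  have hcP : ∀ w ∈ P, c' w ∈ P := by
    rintro w (⟨z, rfl, hz⟩ | ⟨q, rfl, hq⟩)
    · exact Or.inl ⟨E.c z, rfl, hz.trans (CD.c E z)⟩
    · refine Or.inr ⟨_, rfl, ?_⟩
      rw [← attach_E_d_slot]
      exact hq.trans (CD.d E _)
  have hdP : ∀ w ∈ P, A.dd w ∈ P := by
    rintro w (⟨z, rfl, hz⟩ | ⟨q, rfl, hq⟩)
    · rcases A.attach_cases z with ⟨q, rfl⟩ | h
      · rw [attach_dd_slot]
        exact Or.inr ⟨q, rfl, hz⟩
      · rw [A.attach_dd_not h]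
        exact Or.inl ⟨E.d z, rfl, hz.trans (CD.d E z)⟩
    · exact Or.inl ⟨A.slot q, rfl, hq⟩
  have hcc : ∀ w, c' (c' w) = w := by
    rintro (z | ⟨i, ε, s⟩)
    · show Sum.inl (E.c (E.c z)) = _
      rw [E.cc]
    · show Sum.inr (i, ε, s + 1 + 1) = _
      rw [add_assoc, attach_add_self, add_zero]
  have : Finite P := hfin
  obtain ⟨n, hn, hp⟩ := per_of_finite (Ω := P) (β := fun w => ⟨A.dd w.1, hdP _ w.2⟩)
    (s := fun w => ⟨c' w.1, hcP _ w.2⟩) (fun w => Subtype.ext (A.attach_dd_dd w.1))
    (fun w => Subtype.ext (hcc w.1)) ⟨x, hy⟩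
  refine ⟨n, hn, ?_⟩
  have key : ∀ (n : ℕ) (w : P), ((fun w : P => (⟨A.dd (c' w.1), hdP _ (hcP _ w.2)⟩ : P))^[n] w).1 =
      (fun y => A.dd (c' y))^[n] w.1 := by
    intro n
    induction n with
    | zero => intro w; rfl
    | succ n ih =>
      intro w
      rw [Function.iterate_succ_apply, Function.iterate_succ_apply, ih]
  have h2 := congrArg Subtype.val hp
  exact (key n ⟨x, hy⟩).symm.trans h2

/-- The complex with the new face. -/
noncomputable def attach : TMap (Φ ⊕ HF m) where
  a := Sum.map E.a fun q => (q.1, q.2.1 + 1, q.2.2)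
  b := Sum.map E.b fun q => if q.2.1 = 1 then (q.1 + 1, 0, q.2.2) else (q.1 - 1, 1, q.2.2)
  c := Sum.map E.c fun q => (q.1, q.2.1, q.2.2 + 1)
  d := A.dd
  sg := Sum.elim E.sg fun q => q.2.1 + q.2.2 + 1
  en := Sum.elim E.en fun q => E.en (A.slot q)
  sd := Sum.elim E.sd fun q => q.2.2
  aa := by
    rintro (x | ⟨i, ε, s⟩)
    · exact congrArg Sum.inl (E.aa x)
    · show Sum.inr (i, ε + 1 + 1, s) = _
      rw [add_assoc, attach_add_self, add_zero]
  bb := by
    rintro (x | q)
    · exact congrArg Sum.inl (E.bb x)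
    · exact congrArg Sum.inr (attach_b_b q)
  cc := by
    rintro (x | ⟨i, ε, s⟩)
    · exact congrArg Sum.inl (E.cc x)
    · show Sum.inr (i, ε, s + 1 + 1) = _
      rw [add_assoc, attach_add_self, add_zero]
  dd := A.attach_dd_dd
  ac := by
    rintro (x | ⟨i, ε, s⟩)
    · exact congrArg Sum.inl (E.ac x)
    · rfl
  ad := by
    rintro (x | q)
    · rcases A.attach_cases x with ⟨q, rfl⟩ | h
      · show Sum.map _ _ (A.dd (.inl (A.slot q))) = A.dd (.inl (E.a (A.slot q)))
        rw [attach_dd_slot, attach_a_slot, attach_dd_slot]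
        rfl
      · show Sum.map _ _ (A.dd (.inl x)) = A.dd (.inl (E.a x))
        rw [A.attach_dd_not h, A.attach_dd_not (A.attach_not_a h), ← E.ad]
        rfl
    · show Sum.inl (E.a (A.slot q)) = Sum.inl (A.slot (q.1, q.2.1 + 1, q.2.2))
      rw [attach_a_slot]
  bc := by
    rintro (x | ⟨i, ε, s⟩)
    · exact congrArg Sum.inl (E.bc x)
    · rcases attach_F2 ε with rfl | rfl
      · rfl
      · rfl
  sga := by
    rintro (x | ⟨i, ε, s⟩)
    · exact E.sga x
    · show ε + 1 + s + 1 = ε + s + 1 + 1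
      ring
  sgb := by
    rintro (x | ⟨i, ε, s⟩)
    · exact E.sgb x
    · rcases attach_F2 ε with rfl | rfl
      · show (1 : F2) + s + 1 = 0 + s + 1 + 1
        ring
      · show (0 : F2) + s + 1 = 1 + s + 1 + 1
        have := attach_add_self 1
        linear_combination -this
  sgc := by
    rintro (x | ⟨i, ε, s⟩)
    · exact E.sgc x
    · show ε + (s + 1) + 1 = ε + s + 1 + 1
      ring
  sgd := by
    rintro (x | q)
    · rcases A.attach_cases x with ⟨q, rfl⟩ | h
      · show Sum.elim _ _ (A.dd (.inl (A.slot q))) = E.sg (A.slot q) + 1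
        rw [attach_dd_slot]
        show q.2.1 + q.2.2 + 1 = E.sg (A.σ q.1 q.2.1 q.2.2) + 1
        rw [A.sgσ]
      · show Sum.elim _ _ (A.dd (.inl x)) = E.sg x + 1
        rw [A.attach_dd_not h]
        exact E.sgd x
    · show E.sg (A.σ q.1 q.2.1 q.2.2) = q.2.1 + q.2.2 + 1 + 1
      rw [A.sgσ]
      have := attach_add_self 1
      linear_combination -this
  ena := by
    rintro (x | q)
    · exact E.ena x
    · show E.en (A.slot (q.1, q.2.1 + 1, q.2.2)) = E.en (A.slot q) + 1
      rw [← attach_a_slot, E.ena]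
  enc := by
    rintro (x | q)
    · exact E.enc x
    · show E.en (A.slot (q.1, q.2.1, q.2.2 + 1)) = E.en (A.slot q)
      rw [← attach_E_d_slot, E.end']
  end' := by
    rintro (x | q)
    · rcases A.attach_cases x with ⟨q, rfl⟩ | h
      · show Sum.elim _ _ (A.dd (.inl (A.slot q))) = E.en (A.slot q)
        rw [attach_dd_slot]
        rfl
      · show Sum.elim _ _ (A.dd (.inl x)) = E.en x
        rw [A.attach_dd_not h]
        exact E.end' x
    · rfl
  sda := by
    rintro (x | ⟨i, ε, s⟩)
    · exact E.sda x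
    · rfl
  sdb := by
    rintro (x | ⟨i, ε, s⟩)
    · exact E.sdb x
    · rcases attach_F2 ε with rfl | rfl <;> rfl
  sdc := by
    rintro (x | ⟨i, ε, s⟩)
    · exact E.sdc x
    · rfl
  per := A.attach_per
  planar := by
    intro g D hgb hgc hDd hDg
    have h10 : (0 : F2) ≠ 1 := by decide
    -- the value of `g` at a corner
    set γ : ZMod m → F2 := fun i => g (.inr (i, 1, 0)) with hγ
    have hgcc : ∀ (i : ZMod m) (ε s s' : F2), g (.inr (i, ε, s)) = g (.inr (i, ε, s')) := by
      intro i ε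
      have h1 : g (.inr (i, ε, 0 + 1)) = g (.inr (i, ε, 0)) := hgc (.inr (i, ε, 0))
      rw [zero_add] at h1
      intro s s'
      rcases attach_F2 s with rfl | rfl <;> rcases attach_F2 s' with rfl | rfl
      · rfl
      · exact h1.symm
      · exact h1
      · rfl
    have hgγ : ∀ q : HF m, g (.inr q) = γ (attach_corner q) := by
      rintro ⟨i, ε, s⟩
      rcases attach_F2 ε with rfl | rfl
      · have h1 : g (.inr (i - 1, 1, s)) = g (.inr (i, 0, s)) := hgb (.inr (i, 0, s))
        rw [← h1]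
        simp only [attach_corner, h10, if_false]
        exact hgcc _ _ _ _
      · simp only [attach_corner, if_true]
        exact hgcc _ _ _ _
    have hDslot : ∀ q : HF m, D (.inl (A.slot q)) = D (.inr q) := by
      intro q
      have := hDd (.inr q)
      exact this
    have hD1 : ∀ q : HF m, D (.inl (E.d (A.slot q))) = D (.inl (A.slot q)) +
        γ (attach_corner q) := by
      intro q
      have h1 : D (.inr q) + D (.inr (q.1, q.2.1, q.2.2 + 1)) = g (.inr q) := hDg (.inr q)
      rw [attach_E_d_slot, hDslot, hDslot, ← hgγ, ← h1, ← add_assoc, attach_add_self, zero_add]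
    have hD2 : ∀ x, (∀ q, A.slot q ≠ x) → D (.inl (E.d x)) = D (.inl x) := by
      intro x h
      have : D (A.dd (.inl x)) = D (.inl x) := hDd (.inl x)
      rwa [A.attach_dd_not h] at this
    obtain ⟨G, k1, k2, k3⟩ := E.planar
      (fun x => g (.inl x) + (A.attach_T γ x + A.attach_T γ (E.c x)))
      (fun x => D (.inl x) + A.attach_T γ x)
      (by
        intro x
        show g (.inl (E.b x)) + (A.attach_T γ (E.b x) + A.attach_T γ (E.c (E.b x))) = _
        have h1 : g (.inl (E.b x)) = g (.inl x) := hgb (.inl x)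
        rw [h1, ← E.bc, attach_T_b, attach_T_b])
      (by
        intro x
        show g (.inl (E.c x)) + (A.attach_T γ (E.c x) + A.attach_T γ (E.c (E.c x))) = _
        have h1 : g (.inl (E.c x)) = g (.inl x) := hgc (.inl x)
        rw [h1, E.cc, add_comm (A.attach_T γ (E.c x))])
      (by
        intro x
        show D (.inl (E.d x)) + A.attach_T γ (E.d x) = _
        rcases A.attach_cases x with ⟨q, rfl⟩ | h
        · rw [hD1, attach_T_slot]
          have := attach_add_self (γ (attach_corner q))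
          linear_combination this
        · rw [hD2 x h, A.attach_T_not γ h])
      (by
        intro x
        show D (.inl x) + A.attach_T γ x + (D (.inl (E.c x)) + A.attach_T γ (E.c x)) = _
        have h1 : D (.inl x) + D (.inl (E.c x)) = g (.inl x) := hDg (.inl x)
        rw [← h1]
        ring)
    refine ⟨Sum.elim (fun x => G x + A.attach_T γ x) (fun q => G (A.slot q) +
      A.attach_T γ (A.slot q)), ?_, ?_, ?_⟩
    · rintro (x | q)
      · show G (E.b x) + A.attach_T γ (E.b x) = G x + A.attach_T γ x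
        rw [k1, attach_T_b]
      · show G (A.slot (attach_b q)) + A.attach_T γ (A.slot (attach_b q)) =
          G (A.slot q) + A.attach_T γ (A.slot q)
        rw [A.attach_orb G k1 k2, attach_T_same]
    · rintro (x | q)
      · show Sum.elim _ _ (A.dd (.inl x)) = G x + A.attach_T γ x
        rcases A.attach_cases x with ⟨q, rfl⟩ | h
        · rw [attach_dd_slot]
          rfl
        · rw [A.attach_dd_not h]
          show G (E.d x) + A.attach_T γ (E.d x) = _
          rw [k2, A.attach_T_not γ h]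
      · rfl
    · rintro (x | q)
      · show G x + A.attach_T γ x + (G (E.c x) + A.attach_T γ (E.c x)) = g (.inl x)
        have h1 := k3 x
        have h2 := attach_add_self (A.attach_T γ x)
        have h3 := attach_add_self (A.attach_T γ (E.c x))
        linear_combination h1 + h2 + h3
      · show G (A.slot q) + A.attach_T γ (A.slot q) + (G (A.slot (q.1, q.2.1, q.2.2 + 1)) +
          A.attach_T γ (A.slot (q.1, q.2.1, q.2.2 + 1))) = g (.inr q)
        rw [← attach_E_d_slot, k2, attach_T_slot, hgγ]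
        have h1 := attach_add_self (G (A.slot q))
        have h2 := attach_add_self (A.attach_T γ (A.slot q))
        linear_combination h1 + h2

/-- The base flag of the new face. -/
def h0 : Φ ⊕ HF m := .inr (0, 0, 0)

theorem attach_rel_a (x : Φ ⊕ HF m) {y : Φ ⊕ HF m} (h : A.attach.OnFace h0 y) (e : x = A.attach.a y) :
    A.attach.OnFace h0 x := by
  subst e
  exact Relation.EqvGen.trans _ _ _ h (Relation.EqvGen.rel _ _ ⟨A.attach.a, by simp, rfl⟩)

theorem attach_rel_b (x : Φ ⊕ HF m) {y : Φ ⊕ HF m} (h : A.attach.OnFace h0 y) (e : x = A.attach.b y) :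
    A.attach.OnFace h0 x := by
  subst e
  exact Relation.EqvGen.trans _ _ _ h (Relation.EqvGen.rel _ _ ⟨A.attach.b, by simp, rfl⟩)

theorem attach_rel_c (x : Φ ⊕ HF m) {y : Φ ⊕ HF m} (h : A.attach.OnFace h0 y) (e : x = A.attach.c y) :
    A.attach.OnFace h0 x := by
  subst e
  exact Relation.EqvGen.trans _ _ _ h (Relation.EqvGen.rel _ _ ⟨A.attach.c, by simp, rfl⟩)

theorem onFace_iff (x : Φ ⊕ HF m) : A.attach.OnFace h0 x ↔ ∃ q, x = .inr q := by
  constructor
  · intro h
    have key : ∀ x y, SameOrb [A.attach.a, A.attach.b, A.attach.c] x y →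
        ((∃ q, x = .inr q) ↔ ∃ q, y = .inr q) := by
      intro x y h
      induction h with
      | rel u v hr =>
        obtain ⟨f, hf, rfl⟩ := hr
        simp only [List.mem_cons, List.not_mem_nil, or_false] at hf
        rcases hf with rfl | rfl | rfl
        · rcases u with x | q
          · constructor
            · rintro ⟨q, hq⟩; cases hq
            · rintro ⟨q, hq⟩; cases hq
          · exact ⟨fun _ => ⟨_, rfl⟩, fun _ => ⟨_, rfl⟩⟩
        · rcases u with x | q
          · constructor
            · rintro ⟨q, hq⟩; cases hq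
            · rintro ⟨q, hq⟩; cases hq
          · exact ⟨fun _ => ⟨_, rfl⟩, fun _ => ⟨_, rfl⟩⟩
        · rcases u with x | q
          · constructor
            · rintro ⟨q, hq⟩; cases hq
            · rintro ⟨q, hq⟩; cases hq
          · exact ⟨fun _ => ⟨_, rfl⟩, fun _ => ⟨_, rfl⟩⟩
      | refl u => exact Iff.rfl
      | symm u v _ ih => exact ih.symm
      | trans u v w _ _ ih1 ih2 => exact ih1.trans ih2
    exact (key _ _ h).1 ⟨_, rfl⟩
  · rintro ⟨⟨i, ε, s⟩, rfl⟩
    have h1 : ∀ n : ℕ, A.attach.OnFace h0 (.inr ((n : ZMod m), 0, 0)) := by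
      intro n
      induction n with
      | zero =>
        rw [Nat.cast_zero]
        exact Relation.EqvGen.refl _
      | succ n ih =>
        refine A.attach_rel_b _ (A.attach_rel_a (.inr ((n : ZMod m), 1, 0)) ih ?_) ?_
        · show _ = Sum.inr ((n : ZMod m), 0 + 1, 0)
          rw [zero_add]
        · rw [Nat.cast_succ]
          rfl
    have h2 : A.attach.OnFace h0 (.inr (i, 0, 0)) := by
      have := h1 i.val
      rwa [ZMod.natCast_zmod_val] at this
    have h3 : A.attach.OnFace h0 (.inr (i, ε, 0)) := by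
      rcases attach_F2 ε with rfl | rfl
      · exact h2
      · refine A.attach_rel_a _ h2 ?_
        show _ = Sum.inr (i, 0 + 1, 0)
        rw [zero_add]
    rcases attach_F2 s with rfl | rfl
    · exact h3
    · refine A.attach_rel_c _ h3 ?_
      show _ = Sum.inr (i, ε, 0 + 1)
      rw [zero_add]

theorem isSub_inl : A.attach.IsSub fun x => ¬ A.attach.OnFace h0 x := by
  refine ⟨fun x => not_congr ?_, fun x => not_congr ?_, fun x => not_congr ?_⟩
  · exact ⟨fun h => A.attach_rel_a x h (A.attach.aa x).symm, fun h => A.attach_rel_a _ h rfl⟩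
  · exact ⟨fun h => A.attach_rel_b x h (A.attach.bb x).symm, fun h => A.attach_rel_b _ h rfl⟩
  · exact ⟨fun h => A.attach_rel_c x h (A.attach.cc x).symm, fun h => A.attach_rel_c _ h rfl⟩

theorem attach_inl_T (x : Φ) : ¬ A.attach.OnFace h0 (.inl x) := by
  rw [onFace_iff]
  rintro ⟨q, hq⟩
  cases hq

theorem attach_iter_h (j : ℕ) : (fun y => A.attach.b (A.attach.a y))^[j] h0 =
    .inr ((j : ZMod m), 0, 0) := by
  induction j with
  | zero =>
    rw [Nat.cast_zero]
    rfl
  | succ j ih =>
    rw [Function.iterate_succ_apply', ih, Nat.cast_succ]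
    rfl

theorem faceSize_h : A.attach.FaceSize h0 m := by
  refine ⟨Nat.pos_of_ne_zero (NeZero.ne m), ?_, ?_⟩
  · rw [attach_iter_h, ZMod.natCast_self]
    rfl
  · intro j hj hjm h
    rw [attach_iter_h] at h
    have h1 : ((j : ZMod m), (0 : F2), (0 : F2)) = (0, 0, 0) := Sum.inr_injective h
    have h2 : (j : ZMod m) = 0 := congrArg Prod.fst h1
    rw [ZMod.natCast_eq_zero_iff] at h2
    exact absurd (Nat.le_of_dvd hj h2) (by omega)

theorem faceSize_inl {x : Φ} {k : ℕ} (h : E.FaceSize x k) : A.attach.FaceSize (.inl x) k := by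
  have key : ∀ j (x : Φ), (fun y => A.attach.b (A.attach.a y))^[j] (.inl x) =
      .inl ((fun y => E.b (E.a y))^[j] x) := by
    intro j
    induction j with
    | zero => intro x; rfl
    | succ j ih =>
      intro x
      rw [Function.iterate_succ_apply, Function.iterate_succ_apply]
      exact ih _
  refine ⟨h.1, ?_, ?_⟩
  · rw [key, h.2.1]
  · intro j hj hjk e
    rw [key] at e
    exact h.2.2 j hj hjk (Sum.inl_injective e)

theorem attach_d_slot (q : HF m) : A.attach.d (.inl (A.slot q)) = .inr q :=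
  A.attach_dd_slot q

theorem attach_d_of_not {x : Φ} (h : ∀ q, A.slot q ≠ x) : A.attach.d (.inl x) = .inl (E.d x) :=
  A.attach_dd_not h

theorem attach_two (q : HF m) :
    A.attach.d (A.attach.c (A.attach.d (.inl (A.slot q)))) = .inl (E.d (A.slot q)) := by
  rw [attach_d_slot, attach_E_d_slot]
  rfl

/-- In the complement of the new face, nothing has changed. -/
theorem ret_inl (x : Φ) : (A.attach.fr A.isSub_inl).ret (.inl x) = .inl (E.d x) := by
  rcases A.attach_cases x with ⟨q, rfl⟩ | h
  · have h1 : (A.attach.fr A.isSub_inl).path (.inl (A.slot q)) 1 = .inl (E.d (A.slot q)) :=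
      A.attach_two q
    rw [← h1]
    refine (A.attach.fr A.isSub_inl).fr_ret_eq ?_ ?_
    · rw [h1]
      exact A.attach_inl_T _
    · intro k hk
      have hk0 : k = 0 := by omega
      subst hk0
      show ¬ ¬ A.attach.OnFace h0 (A.attach.d (.inl (A.slot q)))
      rw [attach_d_slot, not_not, onFace_iff]
      exact ⟨q, rfl⟩
  · rw [← A.attach_d_of_not h]
    refine (A.attach.fr A.isSub_inl).ret_of_T ?_
    show ¬ A.attach.OnFace h0 (A.attach.d (.inl x))
    rw [A.attach_d_of_not h]
    exact A.attach_inl_T _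

theorem CD_inl {x y : Φ} (h : E.CD x y) : A.attach.CD (.inl x) (.inl y) := by
  induction h with
  | rel u v hr =>
    obtain ⟨f, hf, rfl⟩ := hr
    simp only [List.mem_cons, List.not_mem_nil, or_false] at hf
    rcases hf with rfl | rfl
    · exact CD.c A.attach (.inl u)
    · rcases A.attach_cases u with ⟨q, rfl⟩ | h
      · rw [← attach_two]
        exact ((CD.d A.attach _).trans (CD.c A.attach _)).trans (CD.d A.attach _)
      · rw [← A.attach_d_of_not h]
        exact CD.d A.attach _
  | refl u => exact CD.refl _ _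
  | symm u v _ ih => exact ih.symm
  | trans u v w _ _ ih1 ih2 => exact ih1.trans ih2

theorem attach_gen_inl (g : Gen) (x : Φ) : A.attach.gen A.isSub_inl g (.inl x) =
    .inl (E.gen E.isSub_top g x) := by
  cases g with
  | a => rfl
  | b => rfl
  | c => rfl
  | e =>
    show (A.attach.fr A.isSub_inl).ret (.inl x) = .inl ((E.fr E.isSub_top).ret x)
    rw [ret_inl, TMap.ret_top]

theorem attach_act_inl (w : List Gen) (x : Φ) : A.attach.act A.isSub_inl w (.inl x) =
    .inl (E.act E.isSub_top w x) := by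
  induction w generalizing x with
  | nil => rfl
  | cons g w ih =>
    show A.attach.act A.isSub_inl w (A.attach.gen A.isSub_inl g (.inl x)) = _
    rw [attach_gen_inl]
    exact ih _

theorem null_inl {x : Φ} {w : List Gen} {S : Finset Φ} {N : ℕ} (h : E.Null E.isSub_top x w S N) :
    ∃ S', A.attach.Null A.isSub_inl (.inl x) w S' N := by
  classical
  induction h with
  | nil x hx => exact ⟨_, Null.nil (V := A.attach) (hT := A.isSub_inl) (.inl x) (A.attach_inl_T x)⟩
  | vert x hx w hw hc =>
    refine ⟨_, Null.vert (V := A.attach) (hT := A.isSub_inl) (.inl x) (A.attach_inl_T x) w hw ?_⟩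
    rw [attach_act_inl, hc]
  | back x hx => exact ⟨_, Null.back (V := A.attach) (hT := A.isSub_inl) (.inl x) (A.attach_inl_T x)⟩
  | comm x hx g hg => exact ⟨_, Null.comm (V := A.attach) (hT := A.isSub_inl) (.inl x) (A.attach_inl_T x) g hg⟩
  | face x hx k hk => exact ⟨_, Null.face (V := A.attach) (hT := A.isSub_inl) (.inl x) (A.attach_inl_T x) k (A.faceSize_inl hk)⟩
  | @ins x u v r S S' N N' h h' ih ih' =>
    obtain ⟨S1, h1⟩ := ih
    obtain ⟨S2, h2⟩ := ih'
    rw [← attach_act_inl] at h2
    exact ⟨_, Null.ins h1 h2⟩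
  | @del x u v r S S' N N' h h' ih ih' =>
    obtain ⟨S1, h1⟩ := ih
    obtain ⟨S2, h2⟩ := ih'
    rw [← attach_act_inl] at h2
    exact ⟨_, Null.del h1 h2⟩

end Slots

/-- The product of the labels `el` over the edges of a walk. -/
noncomputable def TMap.ev {Φ Γ : Type} [Group Γ] (E : TMap Φ) (el : Φ → Γ) : List Gen → Φ → Γ
  | [], _ => 1
  | g :: w, x => (if g = .a then el x else 1) * E.ev el w (E.gen E.isSub_top g x)

theorem TMap.ev_append {Φ Γ : Type} [Group Γ] (E : TMap Φ) (el : Φ → Γ) (u v : List Gen) (x : Φ) :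
    E.ev el (u ++ v) x = E.ev el u x * E.ev el v (E.act E.isSub_top u x) := by
  induction u generalizing x with
  | nil =>
    show E.ev el v x = 1 * E.ev el v x
    rw [one_mul]
  | cons g u ih =>
    show (if g = .a then el x else 1) * E.ev el (u ++ v) (E.gen E.isSub_top g x) =
      ((if g = .a then el x else 1) * E.ev el u (E.gen E.isSub_top g x)) *
        E.ev el v (E.act E.isSub_top u (E.gen E.isSub_top g x))
    rw [ih, mul_assoc]

theorem attach_ev_one {Φ Γ : Type} [Group Γ] (E : TMap Φ) (el : Φ → Γ) {u : List Gen}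
    (hu : Gen.a ∉ u) (x : Φ) : E.ev el u x = 1 := by
  induction u generalizing x with
  | nil => rfl
  | cons g u ih =>
    show (if g = .a then el x else 1) * E.ev el u (E.gen E.isSub_top g x) = 1
    have h1 : g ≠ .a := fun h => hu (by rw [h]; exact List.mem_cons_self)
    rw [if_neg h1, ih (fun h => hu (List.mem_cons_of_mem _ h)), one_mul]

/-- Flags in the same region of a link are connected by a walk without `a`. -/
theorem attach_connect {Φ : Type} (E : TMap Φ) {x y : Φ} (h : SameOrb [E.b, E.d] x y) :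
    (∃ u : List Gen, Gen.a ∉ u ∧ E.act E.isSub_top u x = y) ∧
      ∃ u : List Gen, Gen.a ∉ u ∧ E.act E.isSub_top u y = x := by
  induction h with
  | rel u v hr =>
    obtain ⟨f, hf, rfl⟩ := hr
    simp only [List.mem_cons, List.not_mem_nil, or_false] at hf
    rcases hf with rfl | rfl
    · refine ⟨⟨[.b], by simp, rfl⟩, ⟨[.b], by simp, ?_⟩⟩
      exact E.bb u
    · refine ⟨⟨[.e], by simp, ?_⟩, ⟨[.e], by simp, ?_⟩⟩
      · show (E.fr E.isSub_top).ret u = _
        rw [TMap.ret_top]
      · show (E.fr E.isSub_top).ret (E.d u) = _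
        rw [TMap.ret_top, E.dd]
  | refl u => exact ⟨⟨[], by simp, rfl⟩, ⟨[], by simp, rfl⟩⟩
  | symm u v _ ih => exact ⟨ih.2, ih.1⟩
  | trans u v w _ _ ih1 ih2 =>
    obtain ⟨⟨p1, a1, b1⟩, ⟨p2, a2, b2⟩⟩ := ih1
    obtain ⟨⟨q1, c1, d1⟩, ⟨q2, c2, d2⟩⟩ := ih2
    refine ⟨⟨p1 ++ q1, ?_, ?_⟩, ⟨q2 ++ p2, ?_, ?_⟩⟩
    · rw [List.mem_append]; tauto
    · rw [TMap.act_append, b1, d1]
    · rw [List.mem_append]; tauto
    · rw [TMap.act_append, d2, b2]

/-- The walk along the boundary of the new face. -/
theorem Slots.exists_walk {Φ : Type} {E : TMap Φ} {m : ℕ} [NeZero m] (A : Slots E m) :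
    ∃ w : List Gen, E.act E.isSub_top w (A.σ 0 0 0) = A.σ 0 0 0 ∧
      A.attach.Shadow A.isSub_inl Slots.h0 (.inl (A.σ 0 0 0)) w Slots.h0 (.inl (A.σ 0 0 0)) m ∧
      ∀ (Γ : Type) (_ : Group Γ) (el : Φ → Γ), E.ev el w (A.σ 0 0 0) =
        ((List.range m).map fun j => el (A.σ (j : ZMod m) 0 0)).prod := by
  have key : ∀ k i : ℕ, ∃ w : List Gen,
      E.act E.isSub_top w (A.σ (i : ZMod m) 0 0) = A.σ ((i + k : ℕ) : ZMod m) 0 0 ∧
      A.attach.Shadow A.isSub_inl (.inr ((i : ZMod m), 0, 0)) (.inl (A.σ (i : ZMod m) 0 0)) w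
        (.inr (((i + k : ℕ) : ZMod m), 0, 0)) (.inl (A.σ ((i + k : ℕ) : ZMod m) 0 0)) k ∧
      ∀ (Γ : Type) (_ : Group Γ) (el : Φ → Γ), E.ev el w (A.σ (i : ZMod m) 0 0) =
        ((List.range k).map fun j => el (A.σ ((i + j : ℕ) : ZMod m) 0 0)).prod := by
    intro k
    induction k with
    | zero =>
      intro i
      refine ⟨[], rfl, Shadow.nil _ _ ?_, fun Γ _ el => rfl⟩
      exact CD.d A.attach (.inr ((i : ZMod m), 0, 0))
    | succ k ih =>
      intro i
      obtain ⟨w, h1, h2, h3⟩ := ih (i + 1)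
      obtain ⟨⟨u, hu, hu'⟩, -⟩ := attach_connect E (A.orb (i : ZMod m) 0)
      have ea : E.a (A.σ (i : ZMod m) 0 0) = A.σ (i : ZMod m) 1 0 := by
        rw [A.sa, zero_add]
      have eu : E.act E.isSub_top u (E.a (A.σ (i : ZMod m) 0 0)) =
          A.σ ((i + 1 : ℕ) : ZMod m) 0 0 := by
        rw [ea, hu', Nat.cast_succ]
      have ek : i + 1 + k = i + (k + 1) := by omega
      rw [ek] at h1 h2
      refine ⟨.a :: (u ++ w), ?_, ?_, ?_⟩
      · show E.act E.isSub_top (u ++ w) (E.a (A.σ (i : ZMod m) 0 0)) = _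
        rw [TMap.act_append, eu, h1]
      · refine Shadow.step _ _ ?_ u w _ _ k hu ?_
        · exact CD.d A.attach (.inr ((i : ZMod m), 0, 0))
        · have e1 : A.attach.b (A.attach.a (.inr ((i : ZMod m), 0, 0))) =
              .inr (((i + 1 : ℕ) : ZMod m), 0, 0) := by
            rw [Nat.cast_succ]
            rfl
          have e2 : A.attach.act A.isSub_inl u (A.attach.a (.inl (A.σ (i : ZMod m) 0 0))) =
              .inl (A.σ ((i + 1 : ℕ) : ZMod m) 0 0) := by
            rw [← eu, ← A.attach_act_inl]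
            rfl
          rw [e1, e2]
          exact h2
      · intro Γ _ el
        show (if Gen.a = .a then el (A.σ (i : ZMod m) 0 0) else 1) *
          E.ev el (u ++ w) (E.a (A.σ (i : ZMod m) 0 0)) = _
        rw [if_pos rfl, TMap.ev_append, attach_ev_one E el hu, one_mul, eu, h3,
          List.range_succ_eq_map, List.map_cons, List.prod_cons, List.map_map]
        congr 1
        congr 1
        refine List.map_congr_left fun j _ => ?_
        show el (A.σ ((i + 1 + j : ℕ) : ZMod m) 0 0) = el (A.σ ((i + (j + 1) : ℕ) : ZMod m) 0 0)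
        rw [show i + 1 + j = i + (j + 1) by omega]
  obtain ⟨w, h1, h2, h3⟩ := key m 0
  have e0 : ((0 : ℕ) : ZMod m) = 0 := Nat.cast_zero
  have em : ((0 + m : ℕ) : ZMod m) = 0 := by rw [zero_add, ZMod.natCast_self]
  rw [e0, em] at h1
  rw [e0, em] at h2
  refine ⟨w, h1, h2, ?_⟩
  intro Γ hΓ el
  have h4 := h3 Γ hΓ el
  rw [e0] at h4
  have h5 : ((List.range m).map fun j => el (A.σ ((0 + j : ℕ) : ZMod m) 0 0)) =
      (List.range m).map fun j => el (A.σ (j : ZMod m) 0 0) := by
    simp only [zero_add, List.bind_eq_flatMap, List.pure_def, List.map_flatMap, List.map_cons,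
      List.map_nil]
    exact (List.flatMap_pure_eq_map (fun j : ℕ => el (A.σ (j : ZMod m) 0 0)) (List.range m)).symm
  rw [h4, h5]

end Pool.Agent.Lib.MP_131179_gt.Dehn
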