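import Pool.Agent.Lib.MP_131179_gt.Dehn.Imm

/-!
# The pieces of the chords

The crossings divide the chords into pieces, and the involution `β` exchanges the two ends of each
piece.
-/

set_option autoImplicit false

namespace Pool.Agent.Lib.MP_131179_gt.Dehn

namespace Imm

variable {Ψ : Type} {I : Imm Ψ}

/-- The end of a chord at the point `x`. -/
def pt (x : Ψ) (h : I.co x = 0) : I.Om := Sum.inl ⟨x, h⟩

/-- The end at the crossing with `y` of a piece of the chord of `x`, on the side of `x`. -/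
def cr (x y : Ψ) (h : I.Cross x y) : I.Om := Sum.inr ⟨(x, y), h⟩

/-- The two ends of a piece of a chord. -/
inductive BRel : I.Om → I.Om → Prop
  | free (x : Ψ) (hx : I.co x = 0) (hx' : I.co (I.M x) = 0) (h : ∀ y, ¬ I.Cross x y) :
      BRel (pt x hx) (pt (I.M x) hx')
  | first (x y : Ψ) (hx : I.co x = 0) (h : I.Cross x y)
      (hmin : ∀ z, I.Cross x z → ¬ I.Lt x z y) : BRel (pt x hx) (cr x y h)
  | first' (x y : Ψ) (hx : I.co x = 0) (h : I.Cross x y)
      (hmin : ∀ z, I.Cross x z → ¬ I.Lt x z y) : BRel (cr x y h) (pt x hx)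
  | adj (x y z : Ψ) (hy : I.Cross x y) (hz : I.Cross x z) (h : I.Lt x z y)
      (hadj : ∀ w, I.Cross x w → ¬ (I.Lt x z w ∧ I.Lt x w y)) (hMz : I.Cross (I.M x) (I.M z)) :
      BRel (cr x y hy) (cr (I.M x) (I.M z) hMz)

theorem beta_pt_eq {x y : Ψ} (e : x = y) (hx : I.co x = 0) (hy : I.co y = 0) :
    pt x hx = pt y hy := by
  subst e
  rfl

theorem beta_cr_eq {x y x' y' : Ψ} (e : x = x') (e' : y = y') (h : I.Cross x y)
    (h' : I.Cross x' y') : cr x y h = cr x' y' h' := by
  subst e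
  subst e'
  rfl

theorem beta_pt_inj {x y : Ψ} {hx : I.co x = 0} {hy : I.co y = 0} (e : pt x hx = pt y hy) :
    x = y := congrArg Subtype.val (Sum.inl.inj e)

theorem beta_cr_inj {x y x' y' : Ψ} {h : I.Cross x y} {h' : I.Cross x' y'}
    (e : cr x y h = cr x' y' h') : x = x' ∧ y = y' := by
  have h1 : ((x, y) : Ψ × Ψ) = (x', y') := congrArg Subtype.val (Sum.inr.inj e)
  exact Prod.mk.inj h1

theorem beta_pt_ne_cr {x y y' : Ψ} {hx : I.co x = 0} {h : I.Cross y y'} :
    pt x hx ≠ cr y y' h := fun e => by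
  have : (Sum.inl ⟨x, hx⟩ : I.Om) = Sum.inr ⟨(y, y'), h⟩ := e
  exact absurd this (by simp)

/-- crossings on the other half of the chord -/
theorem beta_cross_M [Finite Ψ] {x w : Ψ} (h : I.Cross (I.M x) w) : I.Cross x (I.M w) := by
  have := h.M
  rwa [I.MM] at this

theorem beta_cross_a [Finite Ψ] {x w : Ψ} (h : I.Cross (I.a x) w) : I.Cross x (I.a w) := by
  have := h.a
  rwa [I.aa] at this

/-- the order on the other half, in terms of the first half -/
theorem beta_lt_M [Finite Ψ] {x v w : Ψ} (hv : I.Cross (I.M x) v) (hw : I.Cross (I.M x) w) :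
    I.Lt (I.M x) v w ↔ I.Lt x (I.M w) (I.M v) := by
  have := lt_M (beta_cross_M hw) (beta_cross_M hv)
  rwa [I.MM, I.MM] at this

theorem beta_lt_a [Finite Ψ] {x v w : Ψ} (hv : I.Cross (I.a x) v) (hw : I.Cross (I.a x) w) :
    I.Lt (I.a x) v w ↔ I.Lt x (I.a v) (I.a w) := by
  have := lt_a (beta_cross_a hv) (beta_cross_a hw)
  rwa [I.aa, I.aa] at this

theorem beta_wf [Finite Ψ] (x : Ψ) :
    WellFounded (fun y z : {y : Ψ // I.Cross x y} => I.Lt x y.1 z.1) := by
  have h1 : IsTrans {y : Ψ // I.Cross x y} (fun y z => I.Lt x y.1 z.1) :=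
    ⟨fun a b c hab hbc => lt_trans a.2 b.2 c.2 hab hbc⟩
  have h2 : Std.Irrefl (fun y z : {y : Ψ // I.Cross x y} => I.Lt x y.1 z.1) :=
    ⟨fun a ha => ha.1 rfl⟩
  exact Finite.wellFounded_of_trans_of_irrefl _

theorem beta_wf' [Finite Ψ] (x : Ψ) :
    WellFounded (fun y z : {y : Ψ // I.Cross x y} => I.Lt x z.1 y.1) := by
  have h1 : IsTrans {y : Ψ // I.Cross x y} (fun y z => I.Lt x z.1 y.1) :=
    ⟨fun a b c hab hbc => lt_trans c.2 b.2 a.2 hbc hab⟩
  have h2 : Std.Irrefl (fun y z : {y : Ψ // I.Cross x y} => I.Lt x z.1 y.1) :=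
    ⟨fun a ha => ha.1 rfl⟩
  exact Finite.wellFounded_of_trans_of_irrefl _

/-- a first crossing -/
theorem beta_first [Finite Ψ] {x y : Ψ} (h : I.Cross x y) :
    ∃ y0, I.Cross x y0 ∧ ∀ z, I.Cross x z → ¬ I.Lt x z y0 := by
  obtain ⟨m, -, hm⟩ := (beta_wf x).has_min Set.univ ⟨⟨y, h⟩, trivial⟩
  exact ⟨m.1, m.2, fun z hz => hm ⟨z, hz⟩ trivial⟩

/-- a last crossing -/
theorem beta_last [Finite Ψ] {x y : Ψ} (h : I.Cross x y) :
    ∃ y0, I.Cross x y0 ∧ ∀ z, I.Cross x z → ¬ I.Lt x y0 z := by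
  obtain ⟨m, -, hm⟩ := (beta_wf' x).has_min Set.univ ⟨⟨y, h⟩, trivial⟩
  exact ⟨m.1, m.2, fun z hz => hm ⟨z, hz⟩ trivial⟩

/-- a crossing is the first one or has an immediate predecessor -/
theorem beta_pred [Finite Ψ] {x y : Ψ} (h : I.Cross x y) :
    (∀ z, I.Cross x z → ¬ I.Lt x z y) ∨
      ∃ z, I.Cross x z ∧ I.Lt x z y ∧ ∀ w, I.Cross x w → ¬ (I.Lt x z w ∧ I.Lt x w y) := by
  by_cases hm : ∀ z, I.Cross x z → ¬ I.Lt x z y
  · exact Or.inl hm
  · right
    push Not at hm
    obtain ⟨z, hz, hzy⟩ := hm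
    obtain ⟨m, hm1, hm2⟩ := (beta_wf' x).has_min {z | I.Lt x z.1 y} ⟨⟨z, hz⟩, hzy⟩
    exact ⟨m.1, m.2, hm1, fun w hw hw' => hm2 ⟨w, hw⟩ hw'.2 hw'.1⟩

theorem BRel.symm [Finite Ψ] {ω ω' : I.Om} (h : BRel ω ω') : BRel ω' ω := by
  cases h with
  | free x hx hx' h =>
    have h2 : I.co (I.M (I.M x)) = 0 := by rw [I.MM]; exact hx
    have h3 := BRel.free (I.M x) hx' h2 fun w hw => h _ (beta_cross_M hw)
    rw [beta_pt_eq (I.MM x) h2 hx] at h3
    exact h3
  | first x y hx h hmin => exact BRel.first' x y hx h hmin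
  | first' x y hx h hmin => exact BRel.first x y hx h hmin
  | adj x y z hy hz h hadj hMz =>
    have h2 : I.Cross (I.M (I.M x)) (I.M (I.M y)) := by rw [I.MM, I.MM]; exact hy
    have h3 := BRel.adj (I.M x) (I.M z) (I.M y) hMz hy.M ((lt_M hz hy).2 h) (by
      rintro w hw ⟨h4, h5⟩
      rw [beta_lt_M hy.M hw, I.MM] at h4
      rw [beta_lt_M hw hMz, I.MM] at h5
      exact hadj _ (beta_cross_M hw) ⟨h5, h4⟩) h2
    rw [beta_cr_eq (I.MM x) (I.MM y) h2 hy] at h3
    exact h3

theorem beta_rel_pt {x : Ψ} {hx : I.co x = 0} {ω : I.Om} (h : BRel (pt x hx) ω) :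
    (∃ hx' : I.co (I.M x) = 0, (∀ y, ¬ I.Cross x y) ∧ ω = pt (I.M x) hx') ∨
    (∃ (y : Ψ) (h : I.Cross x y), (∀ z, I.Cross x z → ¬ I.Lt x z y) ∧ ω = cr x y h) := by
  generalize hω : pt x hx = ω0 at h
  cases h with
  | free x1 hx1 hx1' h1 =>
    have e := beta_pt_inj hω
    subst e
    exact Or.inl ⟨hx1', h1, rfl⟩
  | first x1 y hx1 h1 hmin =>
    have e := beta_pt_inj hω
    subst e
    exact Or.inr ⟨y, h1, hmin, rfl⟩
  | first' x1 y hx1 h1 hmin => exact absurd hω beta_pt_ne_cr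
  | adj x1 y z hy hz h1 hadj hMz => exact absurd hω beta_pt_ne_cr

theorem beta_rel_cr {x y : Ψ} {h0 : I.Cross x y} {ω : I.Om} (h : BRel (cr x y h0) ω) :
    (∃ hx : I.co x = 0, (∀ z, I.Cross x z → ¬ I.Lt x z y) ∧ ω = pt x hx) ∨
    (∃ (z : Ψ) (_ : I.Cross x z) (_ : I.Lt x z y)
      (_ : ∀ w, I.Cross x w → ¬ (I.Lt x z w ∧ I.Lt x w y)) (hMz : I.Cross (I.M x) (I.M z)),
      ω = cr (I.M x) (I.M z) hMz) := by
  generalize hω : cr x y h0 = ω0 at h
  cases h with
  | free x1 hx1 hx1' h1 => exact absurd hω.symm beta_pt_ne_cr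
  | first x1 y hx1 h1 hmin => exact absurd hω.symm beta_pt_ne_cr
  | first' x1 y1 hx1 h1 hmin =>
    obtain ⟨e, e'⟩ := beta_cr_inj hω
    subst e
    subst e'
    exact Or.inl ⟨hx1, hmin, rfl⟩
  | adj x1 y1 z hy hz h1 hadj hMz =>
    obtain ⟨e, e'⟩ := beta_cr_inj hω
    subst e
    subst e'
    exact Or.inr ⟨z, hz, h1, hadj, hMz, rfl⟩

theorem BRel.unique [Finite Ψ] {ω ω' ω'' : I.Om} (h : BRel ω ω') (h' : BRel ω ω'') :
    ω' = ω'' := by
  cases h with
  | free x hx hx' h =>
    rcases beta_rel_pt h' with ⟨_, _, h2⟩ | ⟨y, hy, _, _⟩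
    · exact h2.symm
    · exact absurd hy (h y)
  | first x y hx h hmin =>
    rcases beta_rel_pt h' with ⟨_, h2, _⟩ | ⟨z, hz, h2, h3⟩
    · exact absurd h (h2 y)
    · rw [h3]
      refine beta_cr_eq rfl ?_ _ _
      by_contra hne
      rcases lt_or_lt h hz hne with h4 | h4
      · exact h2 y h h4
      · exact hmin z hz h4
  | first' x y hx h hmin =>
    rcases beta_rel_cr h' with ⟨_, _, h2⟩ | ⟨z, hz, h2, _, _, _⟩
    · exact h2.symm
    · exact absurd h2 (hmin z hz)
  | adj x y z hy hz h hadj hMz =>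
    rcases beta_rel_cr h' with ⟨_, h2, _⟩ | ⟨z', hz', h2, h3, h4, h5⟩
    · exact absurd h (h2 z hz)
    · rw [h5]
      refine beta_cr_eq rfl ?_ _ _
      congr 1
      by_contra hne
      rcases lt_or_lt hz hz' hne with h6 | h6
      · exact hadj z' hz' ⟨h6, h2⟩
      · exact h3 z hz ⟨h6, h⟩

theorem BRel.exists [Finite Ψ] (ω : I.Om) : ∃ ω', BRel ω ω' := by
  rcases ω with ⟨x, hx⟩ | ⟨⟨x, y⟩, h⟩
  · by_cases hc : ∀ y, ¬ I.Cross x y
    · exact ⟨_, BRel.free x hx ((I.coM x).trans hx) hc⟩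
    · push Not at hc
      obtain ⟨y, hy⟩ := hc
      obtain ⟨y0, h0, h1⟩ := beta_first hy
      exact ⟨_, BRel.first x y0 hx h0 h1⟩
  · have h : I.Cross x y := h
    rcases beta_pred h with h1 | ⟨z, hz, h1, h2⟩
    · exact ⟨_, BRel.first' x y h.cox h h1⟩
    · exact ⟨_, BRel.adj x y z h hz h1 h2 hz.M⟩

open Classical in
/-- The value of `g` at the crossing `(x, y)`. -/
noncomputable def ev (g : I.Om → F2) (x y : Ψ) : F2 := if h : I.Cross x y then g (cr x y h) else 0

open Classical in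
/-- The value of `g` at the point `x`. -/
noncomputable def evp (g : I.Om → F2) (x : Ψ) : F2 := if h : I.co x = 0 then g (pt x h) else 0

/-- The jump of `g` along the chord of `x` at the crossing with `y`. -/
noncomputable def jmp (g : I.Om → F2) (x y : Ψ) : F2 := ev g x y + ev g (I.M x) (I.M y)

open Classical in
/-- Telescoping along the chord of `x` up to the crossing with `y`. -/
theorem tel_cross [Fintype Ψ] {g : I.Om → F2} (hg : ∀ ω ω', BRel ω ω' → g ω = g ω') {x y : Ψ}
    (h : I.Cross x y) : ev g x y = evp g x +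
      ∑ z ∈ Finset.univ.filter (fun z => I.Cross x z ∧ I.Lt x z y), jmp g x z := by
  have key : ∀ y : {y : Ψ // I.Cross x y}, ev g x y.1 = evp g x +
      ∑ z ∈ Finset.univ.filter (fun z => I.Cross x z ∧ I.Lt x z y.1), jmp g x z := by
    intro y
    induction y using (beta_wf x).induction with
    | _ y ih =>
      obtain ⟨y, hy⟩ := y
      rcases beta_pred hy with h1 | ⟨z, hz, h1, h2⟩
      · have h3 : Finset.univ.filter (fun z => I.Cross x z ∧ I.Lt x z y) = ∅ := by
          refine Finset.filter_eq_empty_iff.2 fun z _ hz => h1 z hz.1 hz.2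
        have h4 := hg _ _ (BRel.first' x y hy.cox hy h1)
        rw [h3, Finset.sum_empty, add_zero, ev, evp, dif_pos hy, dif_pos hy.cox, h4]
      · have h3 : Finset.univ.filter (fun w => I.Cross x w ∧ I.Lt x w y) =
            insert z (Finset.univ.filter (fun w => I.Cross x w ∧ I.Lt x w z)) := by
          ext w
          simp only [Finset.mem_filter, Finset.mem_univ, true_and, Finset.mem_insert]
          constructor
          · rintro ⟨hw, hwy⟩
            by_cases hne : w = z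
            · exact Or.inl hne
            · right
              refine ⟨hw, ?_⟩
              rcases lt_or_lt hw hz hne with h5 | h5
              · exact h5
              · exact absurd ⟨h5, hwy⟩ (h2 w hw)
          · rintro (rfl | ⟨hw, hwz⟩)
            · exact ⟨hz, h1⟩
            · exact ⟨hw, lt_trans hw hz hy hwz h1⟩
        have h4 : z ∉ Finset.univ.filter (fun w => I.Cross x w ∧ I.Lt x w z) := by
          simp only [Finset.mem_filter, Finset.mem_univ, true_and, not_and]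
          exact fun _ h5 => h5.1 rfl
        have h5 := hg _ _ (BRel.adj x y z hy hz h1 h2 hz.M)
        have h6 : ev g x y = ev g (I.M x) (I.M z) := by
          rw [ev, ev, dif_pos hy, dif_pos hz.M, h5]
        have h7 := ih ⟨z, hz⟩ h1
        rw [h3, Finset.sum_insert h4, h6, jmp]
        have h8 : ev g x z + ev g x z = 0 := CharTwo.add_self_eq_zero _
        change ev g x z = _ at h7
        linear_combination -h8 + h7
  exact key ⟨y, h⟩

open Classical in
/-- Telescoping along the whole chord of `x`. -/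
theorem tel_all [Fintype Ψ] {g : I.Om → F2} (hg : ∀ ω ω', BRel ω ω' → g ω = g ω') {x : Ψ}
    (h : I.co x = 0) : evp g (I.M x) = evp g x +
      ∑ z ∈ Finset.univ.filter (fun z => I.Cross x z), jmp g x z := by
  have hM : I.co (I.M x) = 0 := (I.coM x).trans h
  by_cases hc : ∀ y, ¬ I.Cross x y
  · have h3 : Finset.univ.filter (fun z => I.Cross x z) = ∅ :=
      Finset.filter_eq_empty_iff.2 fun z _ => hc z
    have h4 := hg _ _ (BRel.free x h hM hc)
    rw [h3, Finset.sum_empty, add_zero, evp, evp, dif_pos hM, dif_pos h, h4]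
  · push Not at hc
    obtain ⟨y', hy'⟩ := hc
    obtain ⟨y, hy, hmax⟩ := beta_last hy'
    have h1 : ∀ w, I.Cross (I.M x) w → ¬ I.Lt (I.M x) w (I.M y) := by
      intro w hw hlt
      rw [beta_lt_M hw hy.M, I.MM] at hlt
      exact hmax _ (beta_cross_M hw) hlt
    have h2 := hg _ _ (BRel.first (I.M x) (I.M y) hM hy.M h1)
    have h3 : Finset.univ.filter (fun w => I.Cross x w) =
        insert y (Finset.univ.filter (fun w => I.Cross x w ∧ I.Lt x w y)) := by
      ext w
      simp only [Finset.mem_filter, Finset.mem_univ, true_and, Finset.mem_insert]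
      constructor
      · intro hw
        by_cases hne : w = y
        · exact Or.inl hne
        · right
          refine ⟨hw, ?_⟩
          rcases lt_or_lt hw hy hne with h5 | h5
          · exact h5
          · exact absurd h5 (hmax w hw)
      · rintro (rfl | ⟨hw, _⟩)
        · exact hy
        · exact hw
    have h4 : y ∉ Finset.univ.filter (fun w => I.Cross x w ∧ I.Lt x w y) := by
      simp only [Finset.mem_filter, Finset.mem_univ, true_and, not_and]
      exact fun _ h5 => h5.1 rfl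
    have h5 : evp g (I.M x) = ev g (I.M x) (I.M y) := by
      rw [ev, evp, dif_pos hM, dif_pos hy.M, h2]
    have h6 := tel_cross hg hy
    have h8 : ev g x y + ev g x y = 0 := CharTwo.add_self_eq_zero _
    rw [h3, Finset.sum_insert h4, h5, jmp]
    linear_combination -h8 + h6

/-! ### The maps -/

variable (I)

/-- The involution exchanging the ends of the pieces. -/
noncomputable def β [Finite Ψ] (ω : I.Om) : I.Om := (BRel.exists ω).choose

variable {I}

theorem β_rel [Finite Ψ] (ω : I.Om) : BRel ω (I.β ω) := (BRel.exists ω).choose_spec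

theorem β_β [Finite Ψ] (ω : I.Om) : I.β (I.β ω) = ω :=
  (β_rel (I.β ω)).unique (β_rel ω).symm

/-- The other end of the crossing chord pieces at a crossing. -/
def o [Finite Ψ] (ω : I.A) : I.A := ⟨(I.M ω.1.1, I.M ω.1.2), ω.2.M⟩

def s0 [Finite Ψ] (ω : I.A) : I.A := ⟨(ω.1.2, ω.1.1), ω.2.symm⟩

def s1 [Finite Ψ] (ω : I.A) : I.A := ⟨(I.M ω.1.2, I.M ω.1.1), ω.2.M.symm⟩

def eps [Finite Ψ] (ω : I.A) : I.A := ⟨(I.a ω.1.1, I.a ω.1.2), ω.2.a⟩

/-- The sides of the crossing. -/
def idx (ω : I.A) : F2 := I.P ω.1.2 ω.1.1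

/-- `a` on all of `Om`. -/
def am [Finite Ψ] : I.Om → I.Om := Sum.map (fun x => ⟨I.a x.1, (I.coa x.1).trans x.2⟩) eps

/-- `b` on the points and `t` on the crossings. -/
def bt [Finite Ψ] (t : I.A → I.A) : I.Om → I.Om :=
  Sum.map (fun x => ⟨I.b x.1, (I.cob x.1).trans x.2⟩) t

/-- The sign on `Om`. -/
def osg : I.Om → F2 := Sum.elim (fun x => I.sg x.1) (fun ω => I.sg ω.1.1 + 1)

theorem osg_β [Finite Ψ] (ω : I.Om) : osg (I.β ω) = osg ω + 1 := by
  have key : ∀ ω ω' : I.Om, BRel ω ω' → osg ω' = osg ω + 1 := by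
    intro ω ω' h
    have h11 : (1 : F2) + 1 = 0 := CharTwo.add_self_eq_zero _
    cases h with
    | free x hx hx' h => exact I.sgM x
    | first x y hx h hmin => rfl
    | first' x y hx h hmin =>
      change I.sg x = I.sg x + 1 + 1
      rw [add_assoc, h11, add_zero]
    | adj x y z hy hz h hadj hMz =>
      change I.sg (I.M x) + 1 = I.sg x + 1 + 1
      rw [I.sgM]
  exact key _ _ (β_rel ω)

theorem β_ne [Finite Ψ] (ω : I.Om) : I.β ω ≠ ω := by
  intro h
  have h1 := osg_β ω
  rw [h] at h1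
  simp at h1

theorem am_β [Finite Ψ] (ω : I.Om) : am (I.β ω) = I.β (am ω) := by
  have ham : ∀ x (hx : I.co x = 0), am (pt x hx) = pt (I.a x) ((I.coa x).trans hx) :=
    fun x hx => rfl
  have hac : ∀ x y (h : I.Cross x y), am (cr x y h) = cr (I.a x) (I.a y) h.a :=
    fun x y h => rfl
  have key : ∀ ω ω' : I.Om, BRel ω ω' → BRel (am ω) (am ω') := by
    intro ω ω' h
    cases h with
    | free x hx hx' h =>
      have h2 : I.co (I.M (I.a x)) = 0 := by rw [I.coM, I.coa]; exact hx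
      have h3 := BRel.free (I.a x) ((I.coa x).trans hx) h2 fun w hw => h _ (beta_cross_a hw)
      rw [ham, ham, beta_pt_eq (I.aM x) _ h2]
      exact h3
    | first x y hx h hmin =>
      rw [ham, hac]
      refine BRel.first _ _ _ _ fun w hw hlt => ?_
      rw [beta_lt_a hw h.a, I.aa] at hlt
      exact hmin _ (beta_cross_a hw) hlt
    | first' x y hx h hmin =>
      rw [ham, hac]
      refine BRel.first' _ _ _ _ fun w hw hlt => ?_
      rw [beta_lt_a hw h.a, I.aa] at hlt
      exact hmin _ (beta_cross_a hw) hlt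
    | adj x y z hy hz h hadj hMz =>
      rw [hac, hac]
      have h2 : I.Cross (I.M (I.a x)) (I.M (I.a z)) := hz.a.M
      rw [beta_cr_eq (I.aM x) (I.aM z) _ h2]
      refine BRel.adj _ _ _ _ hz.a ((lt_a hz hy).2 h) ?_ _
      rintro w hw ⟨h4, h5⟩
      rw [beta_lt_a hz.a hw, I.aa] at h4
      rw [beta_lt_a hw hy.a, I.aa] at h5
      exact hadj _ (beta_cross_a hw) ⟨h4, h5⟩
  exact (key _ _ (β_rel ω)).unique (β_rel (am ω))

/-- The colour of a piece. -/
def ocol : I.Om → F2 := Sum.elim (fun x => I.col x.1) (fun ω => I.col ω.1.1)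

theorem ocol_β [Finite Ψ] (ω : I.Om) : ocol (I.β ω) = ocol ω := by
  have key : ∀ ω ω' : I.Om, BRel ω ω' → ocol ω' = ocol ω := by
    intro ω ω' h
    cases h with
    | free x hx hx' h => exact I.colM x
    | first x y hx h hmin => rfl
    | first' x y hx h hmin => rfl
    | adj x y z hy hz h hadj hMz => exact I.colM x
  exact key _ _ (β_rel ω)

/-- The end of the edge. -/
def oen : I.Om → F2 := Sum.elim (fun x => I.en x.1) (fun ω => I.en ω.1.1)

theorem oen_β [Finite Ψ] (ω : I.Om) : oen (I.β ω) = oen ω := by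
  have hM : ∀ x, I.en (I.M x) = I.en x := fun x =>
    CD.eq_of (I.cdM x) (fun z _ => I.enc z) (fun z _ => I.end' z)
  have key : ∀ ω ω' : I.Om, BRel ω ω' → oen ω' = oen ω := by
    intro ω ω' h
    cases h with
    | free x hx hx' h => exact hM x
    | first x y hx h hmin => rfl
    | first' x y hx h hmin => rfl
    | adj x y z hy hz h hadj hMz => exact hM x
  exact key _ _ (β_rel ω)

theorem cd_β [Finite Ψ] (ω : I.Om) :
    I.CD (Sum.elim (fun x => x.1) (fun ω => ω.1.1) ω) (Sum.elim (fun x => x.1) (fun ω => ω.1.1)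
      (I.β ω)) := by
  have key : ∀ ω ω' : I.Om, BRel ω ω' → I.CD (Sum.elim (fun x => x.1) (fun ω => ω.1.1) ω)
      (Sum.elim (fun x => x.1) (fun ω => ω.1.1) ω') := by
    intro ω ω' h
    cases h with
    | free x hx hx' h => exact I.cdM x
    | first x y hx h hmin => exact TMap.CD.refl _ _
    | first' x y hx h hmin => exact TMap.CD.refl _ _
    | adj x y z hy hz h hadj hMz => exact I.cdM x
  exact key _ _ (β_rel ω)

theorem beta_eq_β [Finite Ψ] {ω ω' : I.Om} (h : BRel ω ω') : ω' = I.β ω :=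
  h.unique (β_rel ω)

/-- A function which is invariant under `β` and under `o` is constant on chords. -/
theorem chord_const [Finite Ψ] {R : Type} {g : I.Om → R} (hβ : ∀ ω, g (I.β ω) = g ω)
    (ho : ∀ ω : I.A, g (Sum.inr (o ω)) = g (Sum.inr ω)) {x y : Ψ} (h : I.Cross x y) :
    g (cr x y h) = g (pt x h.cox) := by
  have hr : ∀ ω ω' : I.Om, BRel ω ω' → g ω' = g ω := fun ω ω' hω => by
    rw [beta_eq_β hω]
    exact hβ ω
  have key : ∀ y : {y : Ψ // I.Cross x y}, g (cr x y.1 y.2) = g (pt x y.2.cox) := by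
    intro y
    induction y using (beta_wf x).induction with
    | _ y ih =>
      obtain ⟨y, hy⟩ := y
      rcases beta_pred hy with h1 | ⟨z, hz, h1, h2⟩
      · exact (hr _ _ (BRel.first' x y hy.cox hy h1)).symm
      · have h5 := hr _ _ (BRel.adj x y z hy hz h1 h2 hz.M)
        have h6 : g (cr (I.M x) (I.M z) hz.M) = g (cr x z hz) := ho ⟨(x, z), hz⟩
        have h7 := ih ⟨z, hz⟩ h1
        change g (cr x y hy) = _
        rw [← h5, h6]
        exact h7
  exact key ⟨y, h⟩

theorem chord_const' [Finite Ψ] {R : Type} {g : I.Om → R} (hβ : ∀ ω, g (I.β ω) = g ω)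
    (ho : ∀ ω : I.A, g (Sum.inr (o ω)) = g (Sum.inr ω)) {x : Ψ} (h : I.co x = 0) :
    g (pt (I.M x) ((I.coM x).trans h)) = g (pt x h) := by
  by_cases hc : ∀ y, ¬ I.Cross x y
  · have h1 := beta_eq_β (BRel.free x h ((I.coM x).trans h) hc)
    rw [h1]
    exact hβ _
  · push Not at hc
    obtain ⟨y, hy⟩ := hc
    have h1 := chord_const hβ ho hy
    have h2 := chord_const hβ ho hy.M
    have h3 : g (cr (I.M x) (I.M y) hy.M) = g (cr x y hy) := ho ⟨(x, y), hy⟩
    rw [← h1, ← h3, h2]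

end Imm

end Pool.Agent.Lib.MP_131179_gt.Dehn
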