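import Pool.Agent.Lib.MP_131179_gt.Dehn.Arcs

/-!
# Arcs on the boundary of a box with empty interior
-/

set_option autoImplicit false

namespace Pool.Agent.Lib.MP_131179_gt.Dehn

/-- The coordinates of a point. -/
def co3 (p : P3) : Fin 3 → ℤ
  | 0 => p.1
  | 1 => p.2.1
  | 2 => p.2.2

/-- The point is in the box. -/
def InBox (lo hi p : P3) : Prop := ∀ i, co3 lo i ≤ co3 p i ∧ co3 p i ≤ co3 hi i

/-- The point is in the interior of the box. -/
def InInt (lo hi p : P3) : Prop := ∀ i, co3 lo i < co3 p i ∧ co3 p i < co3 hi i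

/-- The `i`-th coordinate of `p` is extremal. -/
def Ext (lo hi p : P3) (i : Fin 3) : Prop := co3 p i = co3 lo i ∨ co3 p i = co3 hi i

instance (lo hi p : P3) (i : Fin 3) : Decidable (Ext lo hi p i) :=
  inferInstanceAs (Decidable (_ ∨ _))

/-- The number of extremal coordinates: 0 in the interior, 1 in the interior of a face, 2 in the interior of
an edge of the box. -/
def nex (lo hi p : P3) : ℕ := (Finset.univ.filter fun i => Ext lo hi p i).card

/-- A path on the boundary of the box which does not run along the edges of the box. -/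
structure OnBd (lo hi : P3) (l : List P3) : Prop where
  box : ∀ p ∈ l, InBox lo hi p
  bd : ∀ p ∈ l, 1 ≤ nex lo hi p
  edge : ∀ p ∈ l, nex lo hi p ≤ 2
  gen : l.IsChain fun p q => ¬ (nex lo hi p = 2 ∧ nex lo hi q = 2)

/-! ### Coordinates -/

private theorem box_adj {p q : P3} : Adj p q ↔
    (p.2.1 = q.2.1 ∧ p.2.2 = q.2.2 ∧ (q.1 = p.1 + 1 ∨ p.1 = q.1 + 1)) ∨
    (p.1 = q.1 ∧ p.2.2 = q.2.2 ∧ (q.2.1 = p.2.1 + 1 ∨ p.2.1 = q.2.1 + 1)) ∨
    (p.1 = q.1 ∧ p.2.1 = q.2.1 ∧ (q.2.2 = p.2.2 + 1 ∨ p.2.2 = q.2.2 + 1)) := by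
  obtain ⟨a, b, c⟩ := p
  obtain ⟨d, e, f⟩ := q
  unfold Adj
  constructor
  · rintro ⟨i, h⟩
    fin_cases i <;> simp only [e3, Prod.mk_add_mk, Prod.mk.injEq] at h ⊢ <;> omega
  · rintro (h | h | h)
    · refine ⟨0, ?_⟩
      simp only [e3, Prod.mk_add_mk, Prod.mk.injEq] at h ⊢
      omega
    · refine ⟨1, ?_⟩
      simp only [e3, Prod.mk_add_mk, Prod.mk.injEq] at h ⊢
      omega
    · refine ⟨2, ?_⟩
      simp only [e3, Prod.mk_add_mk, Prod.mk.injEq] at h ⊢
      omega

private def box_st (a b : ℤ) : ℤ := if a < b then a + 1 else if b < a then a - 1 else a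

private def box_par (r w : P3) : P3 :=
  if w.2.2 ≠ r.2.2 then (w.1, w.2.1, box_st w.2.2 r.2.2)
  else if w.2.1 ≠ r.2.1 then (w.1, box_st w.2.1 r.2.1, w.2.2) else (box_st w.1 r.1, w.2.1, w.2.2)

private def box_rank (r w : P3) : ℕ :=
  (w.1 - r.1).natAbs + (w.2.1 - r.2.1).natAbs + (w.2.2 - r.2.2).natAbs

private theorem box_ext {p q : P3} : p = q ↔ p.1 = q.1 ∧ p.2.1 = q.2.1 ∧ p.2.2 = q.2.2 := by
  obtain ⟨a, b, c⟩ := p
  obtain ⟨d, e, f⟩ := q
  simp

private theorem box_par_cases (r w : P3) (h : w ≠ r) :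
    (w.2.2 < r.2.2 ∧ (box_par r w).1 = w.1 ∧ (box_par r w).2.1 = w.2.1 ∧
      (box_par r w).2.2 = w.2.2 + 1) ∨
    (r.2.2 < w.2.2 ∧ (box_par r w).1 = w.1 ∧ (box_par r w).2.1 = w.2.1 ∧
      (box_par r w).2.2 = w.2.2 - 1) ∨
    (w.2.2 = r.2.2 ∧ w.2.1 < r.2.1 ∧ (box_par r w).1 = w.1 ∧ (box_par r w).2.1 = w.2.1 + 1 ∧
      (box_par r w).2.2 = w.2.2) ∨
    (w.2.2 = r.2.2 ∧ r.2.1 < w.2.1 ∧ (box_par r w).1 = w.1 ∧ (box_par r w).2.1 = w.2.1 - 1 ∧
      (box_par r w).2.2 = w.2.2) ∨
    (w.2.2 = r.2.2 ∧ w.2.1 = r.2.1 ∧ w.1 < r.1 ∧ (box_par r w).1 = w.1 + 1 ∧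
      (box_par r w).2.1 = w.2.1 ∧ (box_par r w).2.2 = w.2.2) ∨
    (w.2.2 = r.2.2 ∧ w.2.1 = r.2.1 ∧ r.1 < w.1 ∧ (box_par r w).1 = w.1 - 1 ∧
      (box_par r w).2.1 = w.2.1 ∧ (box_par r w).2.2 = w.2.2) := by
  obtain ⟨a, b, c⟩ := w
  obtain ⟨d, e, f⟩ := r
  simp only [ne_eq, Prod.mk.injEq, box_par, box_st] at h ⊢
  by_cases hc : c = f
  · subst hc
    by_cases hb : b = e
    · subst hb
      rcases lt_trichotomy a d with h1 | h1 | h1
      · simp [h1]
      · exact absurd ⟨h1, rfl, rfl⟩ h
      · simp [h1, h1.not_gt]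
    · rcases lt_or_gt_of_ne hb with h1 | h1
      · simp [h1, hb]
      · simp [h1, hb, h1.not_gt]
  · rcases lt_or_gt_of_ne hc with h1 | h1
    · simp [h1, hc]
    · simp [h1, hc, h1.not_gt]

private theorem box_par_adj (r w : P3) (h : w ≠ r) : Adj (box_par r w) w := by
  rw [box_adj]
  have := box_par_cases r w h
  omega

private theorem box_par_rank (r w : P3) (h : w ≠ r) :
    box_rank r (box_par r w) + 1 = box_rank r w := by
  unfold box_rank
  have := box_par_cases r w h
  omega

private theorem box_rank_zero (r w : P3) : box_rank r w = 0 ↔ w = r := by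
  unfold box_rank
  rw [box_ext]
  omega

private theorem box_rank_adj (r w w' : P3) (h : Adj w w') :
    box_rank r w' = box_rank r w + 1 ∨ box_rank r w = box_rank r w' + 1 := by
  rw [box_adj] at h
  unfold box_rank
  omega

private theorem box_par_sq (r w w' : P3) (h : Adj w w') (hw : w ≠ r) (hw' : w' ≠ r)
    (h1 : box_par r w ≠ w') (h2 : box_par r w' ≠ w) :
    IsSq (box_par r w) w w' (box_par r w') := by
  refine ⟨box_par_adj r w hw, h, (box_par_adj r w' hw').symm, ?_, h1, fun h => h2 h.symm⟩
  rw [box_adj] at h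
  have p1 := box_par_cases r w hw
  have p2 := box_par_cases r w' hw'
  rw [ne_eq, box_ext] at h1 h2
  generalize box_par r w = P at *
  generalize box_par r w' = Q at *
  rw [box_adj]
  rcases h with ⟨e1, e2, h⟩ | ⟨e1, e2, h⟩ | ⟨e1, e2, h⟩ <;> rcases h with h | h <;>
    rcases p1 with p1 | p1 | p1 | p1 | p1 | p1 <;> rcases p2 with p2 | p2 | p2 | p2 | p2 | p2 <;>
    omega

/-! ### Modifications of arcs -/

private theorem box_on {R : Finset LE} {a b : P3} (h : Adj a b) (ha : ¬ On R a) :
    leOf a b ∉ R ∧ leOf b a ∉ R := by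
  refine ⟨fun h' => ha ⟨_, h', (inc_leOf h).2 (Or.inl rfl)⟩,
    fun h' => ha ⟨_, h', (inc_leOf h.symm).2 (Or.inr rfl)⟩⟩

private theorem box_pe3 (X Z : List P3) (a y b : P3) :
    pe (X ++ a :: y :: b :: Z) = pe (X ++ [a]) ∪ insert (leOf a y) (insert (leOf y b) (pe (b :: Z)))
    := by
  rw [pe_append]
  rfl

private theorem box_pe2 (X Z : List P3) (a b : P3) :
    pe (X ++ a :: b :: Z) = pe (X ++ [a]) ∪ insert (leOf a b) (pe (b :: Z)) := by
  rw [pe_append]
  rfl

private theorem box_pe4 (X Z : List P3) (a y z b : P3) :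
    pe (X ++ a :: y :: z :: b :: Z) =
      pe (X ++ [a]) ∪ insert (leOf a y) (insert (leOf y z) (insert (leOf z b) (pe (b :: Z)))) := by
  rw [pe_append]
  rfl

private theorem arc_two {R : Finset LE} {p q : P3} {X Z : List P3} {a y' b y : P3}
    (h : Arc R p q (X ++ a :: y' :: b :: Z)) (sq : IsSq a y' b y) (hX : y ∉ X) (hZ : y ∉ Z)
    (hR : ¬ On R y) : Arc R p q (X ++ a :: y :: b :: Z) := by
  obtain ⟨s1, s2, s3, s4, s5, s6⟩ := sq
  have hya : y ≠ a := by
    rintro rfl
    rw [box_adj] at s4
    omega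
  have hyb : y ≠ b := by
    rintro rfl
    rw [box_adj] at s3
    omega
  obtain ⟨c1, c2, c3, c4, c5, c6⟩ := h
  refine ⟨?_, ?_, ?_, ?_, ?_, ?_⟩
  · rw [List.isChain_append] at c1 ⊢
    simp only [List.isChain_cons_cons, List.head?_cons] at c1 ⊢
    exact ⟨c1.1, ⟨s4.symm, s3.symm, c1.2.1.2.2⟩, c1.2.2⟩
  · have h1 : (X ++ a :: b :: Z).Nodup := by
      refine c2.sublist ?_
      refine List.Sublist.append (List.Sublist.refl _) ?_
      exact List.Sublist.cons₂ _ (List.Sublist.cons _ (List.Sublist.refl _))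
    have h2 : X ++ a :: y :: b :: Z = (X ++ [a]) ++ y :: (b :: Z) := by simp
    rw [h2, List.nodup_middle, List.nodup_cons]
    refine ⟨?_, ?_⟩
    · simp only [List.mem_append, List.mem_cons, List.not_mem_nil, or_false]
      tauto
    · convert h1 using 1
      simp
  · simpa [List.head?_append] using c3
  · simpa [List.getLast?_append, List.getLast?_cons_cons] using c4
  · intro x hx hxp hxq
    rw [List.mem_append, List.mem_cons, List.mem_cons] at hx
    rcases hx with hx | hx | hx | hx
    · exact c5 x (by simp [hx]) hxp hxq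
    · exact c5 x (by simp [hx]) hxp hxq
    · exact hx ▸ hR
    · exact c5 x (by
        rw [List.mem_append, List.mem_cons, List.mem_cons]
        exact Or.inr (Or.inr (Or.inr hx))) hxp hxq
  · rw [box_pe3, Finset.disjoint_left] at c6
    rw [box_pe3, Finset.disjoint_left]
    intro e he hm
    have h1 := (box_on s4 hR).2
    have h2 := (box_on s3.symm hR).1
    have h3 := c6 he
    simp only [Finset.mem_union, Finset.mem_insert] at hm h3
    rcases hm with hm | hm | hm | hm
    · exact h3 (Or.inl hm)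
    · exact h1 (hm ▸ he)
    · exact h2 (hm ▸ he)
    · exact h3 (Or.inr (Or.inr (Or.inr hm)))

private theorem arc_up {R : Finset LE} {p q : P3} {X Z : List P3} {a b y z : P3}
    (h : Arc R p q (X ++ a :: b :: Z)) (sq : IsSq a y z b) (hX : y ∉ X) (hZ : y ∉ Z)
    (hX' : z ∉ X) (hZ' : z ∉ Z) (hR : ¬ On R y) (hR' : ¬ On R z) :
    Arc R p q (X ++ a :: y :: z :: b :: Z) := by
  obtain ⟨s1, s2, s3, s4, s5, s6⟩ := sq
  have hya : y ≠ a := by
    rintro rfl
    rw [box_adj] at s1
    omega
  have hyz : y ≠ z := by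
    rintro rfl
    rw [box_adj] at s2
    omega
  have hzb : z ≠ b := by
    rintro rfl
    rw [box_adj] at s3
    omega
  obtain ⟨c1, c2, c3, c4, c5, c6⟩ := h
  refine ⟨?_, ?_, ?_, ?_, ?_, ?_⟩
  · rw [List.isChain_append] at c1 ⊢
    simp only [List.isChain_cons_cons, List.head?_cons] at c1 ⊢
    exact ⟨c1.1, ⟨s1, s2, s3, c1.2.1.2⟩, c1.2.2⟩
  · have h2 : X ++ a :: y :: z :: b :: Z = (X ++ [a]) ++ y :: (z :: b :: Z) := by simp
    rw [h2, List.nodup_middle, List.nodup_cons]
    refine ⟨?_, ?_⟩
    · simp only [List.mem_append, List.mem_cons, List.not_mem_nil, or_false]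
      tauto
    · rw [List.nodup_middle, List.nodup_cons]
      refine ⟨?_, ?_⟩
      · simp only [List.mem_append, List.mem_cons, List.not_mem_nil, or_false]
        have : z ≠ a := fun h => s5 h.symm
        tauto
      · convert c2 using 1
        simp
  · simpa [List.head?_append] using c3
  · simpa [List.getLast?_append, List.getLast?_cons_cons] using c4
  · intro x hx hxp hxq
    rw [List.mem_append, List.mem_cons, List.mem_cons, List.mem_cons] at hx
    rcases hx with hx | hx | hx | hx | hx
    · exact c5 x (by simp [hx]) hxp hxq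
    · exact c5 x (by simp [hx]) hxp hxq
    · exact hx ▸ hR
    · exact hx ▸ hR'
    · exact c5 x (by
        rw [List.mem_append, List.mem_cons]
        exact Or.inr (Or.inr hx)) hxp hxq
  · rw [box_pe2, Finset.disjoint_left] at c6
    rw [box_pe4, Finset.disjoint_left]
    intro e he hm
    have h1 := (box_on s1.symm hR).2
    have h2 := (box_on s2 hR).1
    have h4 := (box_on s3 hR').1
    have h3 := c6 he
    simp only [Finset.mem_union, Finset.mem_insert] at hm h3
    rcases hm with hm | hm | hm | hm | hm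
    · exact h3 (Or.inl hm)
    · exact h1 (hm ▸ he)
    · exact h2 (hm ▸ he)
    · exact h4 (hm ▸ he)
    · exact h3 (Or.inr (Or.inr hm))

private theorem arc_down {R : Finset LE} {p q : P3} {X Z : List P3} {a b y z : P3}
    (h : Arc R p q (X ++ a :: y :: z :: b :: Z)) (sq : IsSq a y z b) (hR : leOf a b ∉ R) :
    Arc R p q (X ++ a :: b :: Z) := by
  obtain ⟨s1, s2, s3, s4, s5, s6⟩ := sq
  obtain ⟨c1, c2, c3, c4, c5, c6⟩ := h
  refine ⟨?_, ?_, ?_, ?_, ?_, ?_⟩
  · rw [List.isChain_append] at c1 ⊢
    simp only [List.isChain_cons_cons, List.head?_cons] at c1 ⊢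
    exact ⟨c1.1, ⟨s4.symm, c1.2.1.2.2.2⟩, c1.2.2⟩
  · refine c2.sublist ?_
    refine List.Sublist.append (List.Sublist.refl _) ?_
    exact List.Sublist.cons₂ _ (List.Sublist.cons _ (List.Sublist.cons _ (List.Sublist.refl _)))
  · simpa [List.head?_append] using c3
  · simpa [List.getLast?_append, List.getLast?_cons_cons] using c4
  · intro x hx hxp hxq
    rw [List.mem_append, List.mem_cons] at hx
    rcases hx with hx | hx | hx
    · exact c5 x (by simp [hx]) hxp hxq
    · exact c5 x (by simp [hx]) hxp hxq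
    · exact c5 x (by
        rw [List.mem_append, List.mem_cons, List.mem_cons, List.mem_cons]
        exact Or.inr (Or.inr (Or.inr (Or.inr hx)))) hxp hxq
  · rw [box_pe4, Finset.disjoint_left] at c6
    rw [box_pe2, Finset.disjoint_left]
    intro e he hm
    have h3 := c6 he
    simp only [Finset.mem_union, Finset.mem_insert] at hm h3
    rcases hm with hm | hm | hm
    · exact h3 (Or.inl hm)
    · exact hR (hm ▸ he)
    · exact h3 (Or.inr (Or.inr (Or.inr (Or.inr hm))))

private theorem piso_arc {R : Finset LE} {p q : P3} {l l' : List P3} (h : PIso R p q l l')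
    (hl : Arc R p q l) : Arc R p q l' := by
  induction h with
  | refl => exact hl
  | tail _ hm _ =>
    cases hm with
    | two A B x y z w h h1 h2 => exact h2
    | up A B x y z w h h1 h2 => exact h2
    | down A B x y z w h h1 h2 => exact h1

private theorem m_two {R : Finset LE} {p q : P3} {X Z : List P3} {a y' b y : P3}
    (h : Arc R p q (X ++ a :: y' :: b :: Z)) (sq : IsSq a y' b y) (hX : y ∉ X) (hZ : y ∉ Z)
    (hR : ¬ On R y) : PIso R p q (X ++ a :: y' :: b :: Z) (X ++ a :: y :: b :: Z) :=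
  Relation.ReflTransGen.single (PMove.two X Z a y' b y sq h (arc_two h sq hX hZ hR))

private theorem m_up {R : Finset LE} {p q : P3} {X Z : List P3} {a b y z : P3}
    (h : Arc R p q (X ++ a :: b :: Z)) (sq : IsSq a y z b) (hX : y ∉ X) (hZ : y ∉ Z)
    (hX' : z ∉ X) (hZ' : z ∉ Z) (hR : ¬ On R y) (hR' : ¬ On R z) :
    PIso R p q (X ++ a :: b :: Z) (X ++ a :: y :: z :: b :: Z) :=
  Relation.ReflTransGen.single (PMove.up X Z a y z b sq h (arc_up h sq hX hZ hX' hZ' hR hR'))

private theorem m_down {R : Finset LE} {p q : P3} {X Z : List P3} {a b y z : P3}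
    (h : Arc R p q (X ++ a :: y :: z :: b :: Z)) (sq : IsSq a y z b) (hR : leOf a b ∉ R) :
    PIso R p q (X ++ a :: y :: z :: b :: Z) (X ++ a :: b :: Z) :=
  Relation.ReflTransGen.single (PMove.down X Z a y z b sq (arc_down h sq hR) h)

/-! ### The comb -/

private def comb (r : P3) : ℕ → P3 → List P3
  | 0, w => [w]
  | n + 1, w => comb r n (box_par r w) ++ [w]

private def cc (r w : P3) : List P3 := comb r (box_rank r w) w

private theorem cc_self (r : P3) : cc r r = [r] := by
  unfold cc
  rw [(box_rank_zero r r).2 rfl]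
  rfl

private theorem cc_succ {r w : P3} (h : w ≠ r) : cc r w = cc r (box_par r w) ++ [w] := by
  unfold cc
  rw [← box_par_rank r w h]
  rfl

private theorem cc_ind {motive : P3 → Prop} (r : P3) (h0 : motive r)
    (h1 : ∀ w, w ≠ r → motive (box_par r w) → motive w) (w : P3) : motive w := by
  generalize hn : box_rank r w = n
  induction n generalizing w with
  | zero =>
    rw [box_rank_zero] at hn
    exact hn ▸ h0
  | succ n ih =>
    have hw : w ≠ r := by
      rintro rfl
      rw [(box_rank_zero w w).2 rfl] at hn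
      omega
    have := box_par_rank r w hw
    exact h1 w hw (ih _ (by omega))

private theorem cc_rank (r w : P3) : ∀ x ∈ cc r w, box_rank r x ≤ box_rank r w ∧
    (box_rank r x = box_rank r w → x = w) := by
  induction w using cc_ind r with
  | h0 =>
    intro x hx
    rw [cc_self, List.mem_singleton] at hx
    subst hx
    exact ⟨le_rfl, fun _ => rfl⟩
  | h1 w hw ih =>
    intro x hx
    have hr := box_par_rank r w hw
    rw [cc_succ hw, List.mem_append, List.mem_singleton] at hx
    rcases hx with hx | hx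
    · have := ih x hx
      exact ⟨by omega, fun h => by omega⟩
    · subst hx
      exact ⟨le_rfl, fun _ => rfl⟩

private theorem cc_nodup (r w : P3) : (cc r w).Nodup := by
  induction w using cc_ind r with
  | h0 =>
    rw [cc_self]
    exact List.nodup_singleton r
  | h1 w hw ih =>
    have hr := box_par_rank r w hw
    rw [cc_succ hw, List.nodup_append]
    refine ⟨ih, List.nodup_singleton w, ?_⟩
    rintro x hx y hy rfl
    rw [List.mem_singleton] at hy
    subst hy
    have := (cc_rank r _ x hx).1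
    omega

private theorem cc_last (r w : P3) : ∃ X, cc r w = X ++ [w] := by
  by_cases h : w = r
  · subst h
    exact ⟨[], cc_self w⟩
  · exact ⟨_, cc_succ h⟩

private theorem cc_head (r w : P3) : ∃ X, cc r w = r :: X := by
  induction w using cc_ind r with
  | h0 => exact ⟨[], cc_self r⟩
  | h1 w hw ih =>
    obtain ⟨X, hX⟩ := ih
    exact ⟨X ++ [w], by rw [cc_succ hw, hX]; rfl⟩

private theorem cc_adj_mem {r w w' : P3} (h : Adj w w') (hm : w' ∈ cc r w) :
    w ≠ r ∧ box_par r w = w' := by
  have hne : w' ≠ w := by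
    rintro rfl
    rw [box_adj] at h
    omega
  have hr := box_rank_adj r w w' h
  have h1 := (cc_rank r w w' hm).1
  by_cases hw : w = r
  · subst hw
    rw [cc_self, List.mem_singleton] at hm
    exact absurd hm hne
  · refine ⟨hw, ?_⟩
    have hp := box_par_rank r w hw
    rw [cc_succ hw, List.mem_append, List.mem_singleton] at hm
    rcases hm with hm | hm
    · have h2 := (cc_rank r _ w' hm).2
      exact (h2 (by omega)).symm
    · exact absurd hm hne

private theorem cc_adj_r {r w : P3} (h : Adj r w) : w ≠ r ∧ box_par r w = r := by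
  have hne : w ≠ r := by
    rintro rfl
    rw [box_adj] at h
    omega
  refine ⟨hne, ?_⟩
  have h1 := box_rank_adj r r w h
  have h2 := (box_rank_zero r r).2 rfl
  have h3 := box_par_rank r w hne
  rw [← box_rank_zero]
  omega

/-- Exchanging the path to `w` continued by `w'` by the path to `w'`. -/
private theorem ladder {R : Finset LE} {p q : P3} (A : List P3) (r w : P3) :
    ∀ (w' : P3) (T : List P3), Adj w w' → ¬ (w ≠ r ∧ box_par r w = w') →
      Arc R p q (A ++ (cc r w ++ w' :: T)) →
      (∀ x ∈ cc r w', ¬ On R x ∧ x ∉ A ∧ x ∉ T) →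
      PIso R p q (A ++ (cc r w ++ w' :: T)) (A ++ (cc r w' ++ T)) := by
  induction w using cc_ind r with
  | h0 =>
    intro w' T hadj _ harc _
    obtain ⟨h1, h2⟩ := cc_adj_r hadj
    rw [cc_succ h1, h2, cc_self]
    exact Relation.ReflTransGen.refl
  | h1 w hw ih =>
    intro w' T hadj hpar harc hx
    have hw' : w' ≠ r := by
      rintro rfl
      exact hpar ⟨hw, (cc_adj_r hadj.symm).2⟩
    by_cases h2 : box_par r w' = w
    · rw [cc_succ hw', h2, List.append_assoc]
      exact Relation.ReflTransGen.refl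
    · have hp1 : box_par r w ≠ w' := fun h => hpar ⟨hw, h⟩
      have sq := box_par_sq r w w' hadj hw hw' hp1 h2
      set u := box_par r w with hu
      set u' := box_par r w' with hu'
      have e1 : cc r w = cc r u ++ [w] := cc_succ hw
      have e2 : cc r w' = cc r u' ++ [w'] := cc_succ hw'
      have hu'm : u' ∈ cc r w' := by
        obtain ⟨X, hX⟩ := cc_last r u'
        rw [e2, hX]
        simp
      obtain ⟨q1, q2, q3, q4, q5, q6⟩ := sq
      by_cases h3 : u ≠ r ∧ box_par r u = u'
      · -- the ladder ends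
        obtain ⟨X, hX⟩ := cc_last r u'
        have e3 : cc r u = cc r u' ++ [u] := by rw [cc_succ h3.1, h3.2]
        have l1 : A ++ (cc r w ++ w' :: T) = (A ++ X) ++ u' :: u :: w :: w' :: T := by
          rw [e1, e3, hX]
          simp
        have l2 : A ++ (cc r w' ++ T) = (A ++ X) ++ u' :: w' :: T := by
          rw [e2, hX]
          simp
        rw [l1] at harc ⊢
        rw [l2]
        refine m_down harc ⟨q4, q1, q2, q3, fun h => q6 h.symm, q5⟩ ?_
        exact (box_on q3.symm (hx u' hu'm).1).1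
      · obtain ⟨X, hX⟩ := cc_last r u
        have l1 : A ++ (cc r w ++ w' :: T) = (A ++ X) ++ u :: w :: w' :: T := by
          rw [e1, hX]
          simp
        have l2 : A ++ (cc r u ++ u' :: (w' :: T)) = (A ++ X) ++ u :: u' :: w' :: T := by
          rw [hX]
          simp
        have l3 : A ++ (cc r w' ++ T) = A ++ (cc r u' ++ (w' :: T)) := by
          rw [e2]
          simp
        have hsq : IsSq u w w' u' := ⟨q1, q2, q3, q4, q5, q6⟩
        have hun : u' ∉ cc r u := fun h => h3 (cc_adj_mem q4.symm h)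
        have hnX : u' ∉ A ++ X := by
          rw [List.mem_append]
          rintro (h | h)
          · exact (hx u' hu'm).2.1 h
          · exact hun (by rw [hX]; simp [h])
        have m1 : PIso R p q (A ++ (cc r w ++ w' :: T)) (A ++ (cc r u ++ u' :: (w' :: T))) := by
          rw [l1] at harc ⊢
          rw [l2]
          exact m_two harc hsq hnX (hx u' hu'm).2.2 (hx u' hu'm).1
        have harc2 := piso_arc m1 harc
        have m2 := ih u' (w' :: T) q4.symm h3 harc2 (by
          intro x hxm
          have hxm' : x ∈ cc r w' := by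
            rw [e2]
            simp [hxm]
          refine ⟨(hx x hxm').1, (hx x hxm').2.1, ?_⟩
          rw [List.mem_cons]
          rintro (h | h)
          · have hnd := cc_nodup r w'
            rw [e2, List.nodup_append] at hnd
            exact hnd.2.2 x hxm w' (by simp) h
          · exact (hx x hxm').2.2 h)
        rw [l3]
        exact m1.trans m2

/-! ### Flat points and points on edges -/

private def cl1 (a b x : ℤ) : ℤ := if x ≤ a then a + 1 else if b ≤ x then b - 1 else x

private def clp (lo hi v : P3) : P3 :=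
  (cl1 lo.1 hi.1 v.1, cl1 lo.2.1 hi.2.1 v.2.1, cl1 lo.2.2 hi.2.2 v.2.2)

private def Flat (lo hi v : P3) : Prop := InBox lo hi v ∧ nex lo hi v = 1

private def Edg (lo hi v : P3) : Prop := InBox lo hi v ∧ nex lo hi v = 2

private theorem box_inbox {lo hi p : P3} : InBox lo hi p ↔ (lo.1 ≤ p.1 ∧ p.1 ≤ hi.1) ∧
    (lo.2.1 ≤ p.2.1 ∧ p.2.1 ≤ hi.2.1) ∧ (lo.2.2 ≤ p.2.2 ∧ p.2.2 ≤ hi.2.2) := by
  unfold InBox
  rw [Fin.forall_fin_succ, Fin.forall_fin_succ, Fin.forall_fin_one]
  rfl

private theorem box_inint {lo hi p : P3} : InInt lo hi p ↔ (lo.1 < p.1 ∧ p.1 < hi.1) ∧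
    (lo.2.1 < p.2.1 ∧ p.2.1 < hi.2.1) ∧ (lo.2.2 < p.2.2 ∧ p.2.2 < hi.2.2) := by
  unfold InInt
  rw [Fin.forall_fin_succ, Fin.forall_fin_succ, Fin.forall_fin_one]
  rfl

private theorem box_size {lo hi : P3} (h : ∀ i, co3 lo i + 2 ≤ co3 hi i) :
    lo.1 + 2 ≤ hi.1 ∧ lo.2.1 + 2 ≤ hi.2.1 ∧ lo.2.2 + 2 ≤ hi.2.2 := ⟨h 0, h 1, h 2⟩

private theorem box_nex (lo hi p : P3) : nex lo hi p =
    (if p.1 = lo.1 ∨ p.1 = hi.1 then 1 else 0) + ((if p.2.1 = lo.2.1 ∨ p.2.1 = hi.2.1 then 1 else 0)
      + (if p.2.2 = lo.2.2 ∨ p.2.2 = hi.2.2 then 1 else 0)) := by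
  unfold nex
  rw [Finset.card_filter, Fin.sum_univ_three, add_assoc]
  rfl

private theorem box_coord {a b x : ℤ} (h : a + 2 ≤ b) (h1 : a ≤ x) (h2 : x ≤ b) :
    (x = a ∧ cl1 a b x = a + 1 ∧ (if x = a ∨ x = b then 1 else 0 : ℕ) = 1) ∨
    (x = b ∧ cl1 a b x = b - 1 ∧ (if x = a ∨ x = b then 1 else 0 : ℕ) = 1) ∨
    (a < x ∧ x < b ∧ cl1 a b x = x ∧ (if x = a ∨ x = b then 1 else 0 : ℕ) = 0) := by
  unfold cl1
  rcases h1.eq_or_lt with h3 | h3
  · left
    subst h3
    simp
  · rcases h2.eq_or_lt with h4 | h4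
    · right; left
      subst h4
      refine ⟨rfl, ?_, ?_⟩
      · rw [if_neg (by omega), if_pos le_rfl]
      · rw [if_pos (Or.inr rfl)]
    · right; right
      refine ⟨h3, h4, ?_, ?_⟩
      · rw [if_neg (by omega), if_neg (by omega)]
      · rw [if_neg (by omega)]

private theorem flat_cases {lo hi v : P3} (h : ∀ i, co3 lo i + 2 ≤ co3 hi i)
    (hv : Flat lo hi v) :
    ((v.1 = lo.1 ∧ (clp lo hi v).1 = lo.1 + 1 ∨ v.1 = hi.1 ∧ (clp lo hi v).1 = hi.1 - 1) ∧
      lo.2.1 < v.2.1 ∧ v.2.1 < hi.2.1 ∧ (clp lo hi v).2.1 = v.2.1 ∧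
      lo.2.2 < v.2.2 ∧ v.2.2 < hi.2.2 ∧ (clp lo hi v).2.2 = v.2.2) ∨
    ((v.2.1 = lo.2.1 ∧ (clp lo hi v).2.1 = lo.2.1 + 1 ∨
        v.2.1 = hi.2.1 ∧ (clp lo hi v).2.1 = hi.2.1 - 1) ∧
      lo.1 < v.1 ∧ v.1 < hi.1 ∧ (clp lo hi v).1 = v.1 ∧
      lo.2.2 < v.2.2 ∧ v.2.2 < hi.2.2 ∧ (clp lo hi v).2.2 = v.2.2) ∨
    ((v.2.2 = lo.2.2 ∧ (clp lo hi v).2.2 = lo.2.2 + 1 ∨
        v.2.2 = hi.2.2 ∧ (clp lo hi v).2.2 = hi.2.2 - 1) ∧
      lo.1 < v.1 ∧ v.1 < hi.1 ∧ (clp lo hi v).1 = v.1 ∧
      lo.2.1 < v.2.1 ∧ v.2.1 < hi.2.1 ∧ (clp lo hi v).2.1 = v.2.1) := by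
  obtain ⟨s1, s2, s3⟩ := box_size h
  obtain ⟨hb, hn⟩ := hv
  rw [box_inbox] at hb
  obtain ⟨⟨b1, b2⟩, ⟨b3, b4⟩, ⟨b5, b6⟩⟩ := hb
  rw [box_nex] at hn
  have k1 := box_coord s1 b1 b2
  have k2 := box_coord s2 b3 b4
  have k3 := box_coord s3 b5 b6
  show ((v.1 = lo.1 ∧ cl1 lo.1 hi.1 v.1 = lo.1 + 1 ∨ v.1 = hi.1 ∧ cl1 lo.1 hi.1 v.1 = hi.1 - 1) ∧
      lo.2.1 < v.2.1 ∧ v.2.1 < hi.2.1 ∧ cl1 lo.2.1 hi.2.1 v.2.1 = v.2.1 ∧
      lo.2.2 < v.2.2 ∧ v.2.2 < hi.2.2 ∧ cl1 lo.2.2 hi.2.2 v.2.2 = v.2.2) ∨
    ((v.2.1 = lo.2.1 ∧ cl1 lo.2.1 hi.2.1 v.2.1 = lo.2.1 + 1 ∨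
        v.2.1 = hi.2.1 ∧ cl1 lo.2.1 hi.2.1 v.2.1 = hi.2.1 - 1) ∧
      lo.1 < v.1 ∧ v.1 < hi.1 ∧ cl1 lo.1 hi.1 v.1 = v.1 ∧
      lo.2.2 < v.2.2 ∧ v.2.2 < hi.2.2 ∧ cl1 lo.2.2 hi.2.2 v.2.2 = v.2.2) ∨
    ((v.2.2 = lo.2.2 ∧ cl1 lo.2.2 hi.2.2 v.2.2 = lo.2.2 + 1 ∨
        v.2.2 = hi.2.2 ∧ cl1 lo.2.2 hi.2.2 v.2.2 = hi.2.2 - 1) ∧
      lo.1 < v.1 ∧ v.1 < hi.1 ∧ cl1 lo.1 hi.1 v.1 = v.1 ∧
      lo.2.1 < v.2.1 ∧ v.2.1 < hi.2.1 ∧ cl1 lo.2.1 hi.2.1 v.2.1 = v.2.1)
  generalize (if v.1 = lo.1 ∨ v.1 = hi.1 then 1 else 0 : ℕ) = i1 at *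
  generalize (if v.2.1 = lo.2.1 ∨ v.2.1 = hi.2.1 then 1 else 0 : ℕ) = i2 at *
  generalize (if v.2.2 = lo.2.2 ∨ v.2.2 = hi.2.2 then 1 else 0 : ℕ) = i3 at *
  generalize cl1 lo.1 hi.1 v.1 = c1 at *
  generalize cl1 lo.2.1 hi.2.1 v.2.1 = c2 at *
  generalize cl1 lo.2.2 hi.2.2 v.2.2 = c3 at *
  rcases k1 with k1 | k1 | k1 <;> rcases k2 with k2 | k2 | k2 <;> rcases k3 with k3 | k3 | k3 <;>
    first
    | (exfalso; omega)
    | (left; exact ⟨by tauto, by tauto⟩)
    | (right; left; exact ⟨by tauto, by tauto⟩)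
    | (right; right; exact ⟨by tauto, by tauto⟩)

private theorem clp_int {lo hi v : P3} (h : ∀ i, co3 lo i + 2 ≤ co3 hi i)
    (hv : InBox lo hi v) : InInt lo hi (clp lo hi v) := by
  obtain ⟨s1, s2, s3⟩ := box_size h
  rw [box_inbox] at hv
  obtain ⟨⟨b1, b2⟩, ⟨b3, b4⟩, ⟨b5, b6⟩⟩ := hv
  have k1 := box_coord s1 b1 b2
  have k2 := box_coord s2 b3 b4
  have k3 := box_coord s3 b5 b6
  rw [box_inint]
  show (lo.1 < cl1 lo.1 hi.1 v.1 ∧ cl1 lo.1 hi.1 v.1 < hi.1) ∧
    (lo.2.1 < cl1 lo.2.1 hi.2.1 v.2.1 ∧ cl1 lo.2.1 hi.2.1 v.2.1 < hi.2.1) ∧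
    (lo.2.2 < cl1 lo.2.2 hi.2.2 v.2.2 ∧ cl1 lo.2.2 hi.2.2 v.2.2 < hi.2.2)
  refine ⟨?_, ?_, ?_⟩
  · rcases k1 with k1 | k1 | k1 <;> omega
  · rcases k2 with k2 | k2 | k2 <;> omega
  · rcases k3 with k3 | k3 | k3 <;> omega

private theorem not_int {lo hi v : P3} (hv : 1 ≤ nex lo hi v) : ¬ InInt lo hi v := by
  intro h
  rw [box_inint] at h
  rw [box_nex, if_neg (by omega), if_neg (by omega), if_neg (by omega)] at hv
  omega

private theorem flat_adj {lo hi v : P3} (h : ∀ i, co3 lo i + 2 ≤ co3 hi i)
    (hv : Flat lo hi v) : Adj (clp lo hi v) v := by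
  rw [box_adj]
  rcases flat_cases h hv with ⟨k | k, k'⟩ | ⟨k | k, k'⟩ | ⟨k | k, k'⟩ <;> omega

private theorem flat_flat {lo hi v v' : P3} (h : ∀ i, co3 lo i + 2 ≤ co3 hi i)
    (hv : Flat lo hi v) (hv' : Flat lo hi v') (ha : Adj v v') :
    Adj (clp lo hi v) (clp lo hi v') := by
  obtain ⟨s1, s2, s3⟩ := box_size h
  rw [box_adj] at ha ⊢
  have k1 := flat_cases h hv
  have k2 := flat_cases h hv'
  generalize clp lo hi v = w at *
  generalize clp lo hi v' = w' at *
  rcases ha with ⟨e1, e2, ha⟩ | ⟨e1, e2, ha⟩ | ⟨e1, e2, ha⟩ <;> rcases ha with ha | ha <;>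
    rcases k1 with ⟨k1 | k1, k1'⟩ | ⟨k1 | k1, k1'⟩ | ⟨k1 | k1, k1'⟩ <;>
    rcases k2 with ⟨k2 | k2, k2'⟩ | ⟨k2 | k2, k2'⟩ | ⟨k2 | k2, k2'⟩ <;> omega

private theorem flat_edg {lo hi v e : P3} (h : ∀ i, co3 lo i + 2 ≤ co3 hi i)
    (hv : Flat lo hi v) (he : Edg lo hi e) (ha : Adj v e) : clp lo hi e = clp lo hi v := by
  obtain ⟨s1, s2, s3⟩ := box_size h
  obtain ⟨hb, hn⟩ := he
  rw [box_inbox] at hb
  obtain ⟨⟨b1, b2⟩, ⟨b3, b4⟩, ⟨b5, b6⟩⟩ := hb
  rw [box_nex] at hn
  have k1 := box_coord s1 b1 b2
  have k2 := box_coord s2 b3 b4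
  have k3 := box_coord s3 b5 b6
  have k := flat_cases h hv
  rw [box_adj] at ha
  rw [box_ext]
  show cl1 lo.1 hi.1 e.1 = (clp lo hi v).1 ∧ cl1 lo.2.1 hi.2.1 e.2.1 = (clp lo hi v).2.1 ∧
    cl1 lo.2.2 hi.2.2 e.2.2 = (clp lo hi v).2.2
  generalize (if e.1 = lo.1 ∨ e.1 = hi.1 then 1 else 0 : ℕ) = i1 at *
  generalize (if e.2.1 = lo.2.1 ∨ e.2.1 = hi.2.1 then 1 else 0 : ℕ) = i2 at *
  generalize (if e.2.2 = lo.2.2 ∨ e.2.2 = hi.2.2 then 1 else 0 : ℕ) = i3 at *
  generalize cl1 lo.1 hi.1 e.1 = c1 at *
  generalize cl1 lo.2.1 hi.2.1 e.2.1 = c2 at *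
  generalize cl1 lo.2.2 hi.2.2 e.2.2 = c3 at *
  generalize clp lo hi v = w at *
  rcases k1 with k1 | k1 | k1 <;> rcases k2 with k2 | k2 | k2 <;> rcases k3 with k3 | k3 | k3 <;>
    first
    | (exfalso; omega)
    | (rcases ha with ⟨e1, e2, ha⟩ | ⟨e1, e2, ha⟩ | ⟨e1, e2, ha⟩ <;> rcases ha with ha | ha <;>
        rcases k with ⟨k | k, k'⟩ | ⟨k | k, k'⟩ | ⟨k | k, k'⟩ <;> omega)

private theorem cc_int {lo hi r : P3} (hr : InInt lo hi r) (w : P3) (hw : InInt lo hi w) :
    ∀ x ∈ cc r w, InInt lo hi x := by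
  induction w using cc_ind r with
  | h0 =>
    intro x hx
    rw [cc_self, List.mem_singleton] at hx
    exact hx ▸ hr
  | h1 w hne ih =>
    have hp : InInt lo hi (box_par r w) := by
      have k := box_par_cases r w hne
      rw [box_inint] at hr hw ⊢
      rcases k with k | k | k | k | k | k <;> omega
    intro x hx
    rw [cc_succ hne, List.mem_append, List.mem_singleton] at hx
    rcases hx with hx | hx
    · exact ih hp x hx
    · exact hx ▸ hw

/-! ### Pushing an arc into the interior -/

private theorem box_ne_int {lo hi x y : P3} (hx : InInt lo hi x) (hy : ¬ InInt lo hi y) :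
    x ≠ y := fun h => hy (h ▸ hx)

private def suf (q g : P3) : List P3 := if g = q then [] else [q]

private theorem box_proc {lo hi : P3} (h2 : ∀ i, co3 lo i + 2 ≤ co3 hi i) {R : Finset LE}
    (hR : ∀ p, InInt lo hi p → ¬ On R p) {p q r : P3} (hr : InInt lo hi r) {A : List P3}
    (hA : ∀ x ∈ A, ¬ InInt lo hi x) :
    ∀ (n : ℕ) (S : List P3), S.length ≤ n → ∀ v, Flat lo hi v →
      (∀ x ∈ S, Flat lo hi x ∨ Edg lo hi x) →
      (v :: S).IsChain (fun a b => ¬ (nex lo hi a = 2 ∧ nex lo hi b = 2)) →
      Arc R p q (A ++ (cc r (clp lo hi v) ++ v :: S)) →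
      ∃ g, Flat lo hi g ∧ g ∈ v :: S ∧ (g = q ∨ (Edg lo hi q ∧ Adj g q)) ∧
        PIso R p q (A ++ (cc r (clp lo hi v) ++ v :: S))
          (A ++ (cc r (clp lo hi g) ++ g :: suf q g)) := by
  have bd : ∀ x, Flat lo hi x ∨ Edg lo hi x → ¬ InInt lo hi x := by
    intro x hx
    apply not_int
    rcases hx with hx | hx
    · rw [hx.2]
    · rw [hx.2]
      omega
  intro n
  induction n with
  | zero =>
    intro S hS v hv _ _ harc
    have hS' : S = [] := List.length_eq_zero_iff.1 (by omega)
    subst hS'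
    have hq : v = q := by
      have := harc.last
      simpa [List.getLast?_append] using this
    subst hq
    refine ⟨v, hv, by simp, Or.inl rfl, ?_⟩
    simp only [suf, if_true]
    exact Relation.ReflTransGen.refl
  | succ n ih =>
    intro S hS v hv hB hC harc
    have hwi := clp_int h2 hv.1
    have hvb := bd v (Or.inl hv)
    obtain ⟨X, hX⟩ := cc_last r (clp lo hi v)
    have hXA : ∀ x, InInt lo hi x → x ∉ cc r (clp lo hi v) → x ∉ A ++ X := by
      intro x hx hx' hm
      rw [List.mem_append] at hm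
      rcases hm with hm | hm
      · exact hA x hm hx
      · exact hx' (by rw [hX]; simp [hm])
    cases S with
    | nil =>
      have hq : v = q := by
        have := harc.last
        simpa [List.getLast?_append] using this
      subst hq
      refine ⟨v, hv, by simp, Or.inl rfl, ?_⟩
      simp only [suf, if_true]
      exact Relation.ReflTransGen.refl
    | cons e S =>
      have hchain := harc.chain
      rw [List.isChain_append] at hchain
      have hchain2 := hchain.2.1
      rw [List.isChain_append] at hchain2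
      have hchain3 := hchain2.2.1
      rw [List.isChain_cons_cons] at hchain3
      have hve : Adj v e := hchain3.1
      rw [List.isChain_cons_cons] at hC
      have hnd := harc.nodup
      rcases hB e (by simp) with he | he
      · -- a flat point
        set w := clp lo hi v with hw
        set w' := clp lo hi e with hw'
        have hwi' : InInt lo hi w' := clp_int h2 he.1
        have hadj : Adj w w' := flat_flat h2 hv he hve
        have hbe := bd e (Or.inl he)
        have key : PIso R p q (A ++ (cc r w ++ v :: e :: S)) (A ++ (cc r w' ++ e :: S)) := by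
          by_cases hp : w ≠ r ∧ box_par r w = w'
          · obtain ⟨X', hX'⟩ := cc_last r w'
            have e3 : cc r w = cc r w' ++ [w] := by rw [cc_succ hp.1, hp.2]
            have l1 : A ++ (cc r w ++ v :: e :: S) = (A ++ X') ++ w' :: w :: v :: e :: S := by
              rw [e3, hX']
              simp
            have l2 : A ++ (cc r w' ++ e :: S) = (A ++ X') ++ w' :: e :: S := by
              rw [hX']
              simp
            rw [l1] at harc ⊢
            rw [l2]
            refine m_down harc ⟨hadj.symm, flat_adj h2 hv, hve, (flat_adj h2 he).symm,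
              box_ne_int hwi' hvb, box_ne_int hwi hbe⟩ ?_
            exact (box_on (flat_adj h2 he) (hR _ hwi')).1
          · have l1 : A ++ (cc r w ++ v :: e :: S) = (A ++ X) ++ w :: v :: e :: S := by
              rw [hX]
              simp
            have l2 : A ++ (cc r w ++ w' :: (e :: S)) = (A ++ X) ++ w :: w' :: e :: S := by
              rw [hX]
              simp
            have hSb : ∀ x ∈ S, ¬ InInt lo hi x := fun x hx =>
              bd x (hB x (List.mem_cons_of_mem _ hx))
            have m1 : PIso R p q (A ++ (cc r w ++ v :: e :: S))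
                (A ++ (cc r w ++ w' :: (e :: S))) := by
              rw [l1] at harc ⊢
              rw [l2]
              refine m_two harc ⟨flat_adj h2 hv, hve, (flat_adj h2 he).symm, hadj.symm,
                box_ne_int hwi hbe, (box_ne_int hwi' hvb).symm⟩ ?_ ?_ (hR _ hwi')
              · exact hXA w' hwi' (fun h => hp (cc_adj_mem hadj h))
              · exact fun h => hSb _ h hwi'
            have harc2 := piso_arc m1 harc
            refine m1.trans (ladder A r w w' (e :: S) hadj hp harc2 ?_)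
            intro x hx
            have hxi := cc_int hr w' hwi' x hx
            refine ⟨hR x hxi, fun h => hA x h hxi, ?_⟩
            rw [List.mem_cons]
            rintro (h | h)
            · exact hbe (h ▸ hxi)
            · exact hSb x h hxi
        obtain ⟨g, hg1, hg2, hg3, hg4⟩ := ih S (by simpa using hS) e he
          (fun x hx => hB x (List.mem_cons_of_mem _ hx)) hC.2 (piso_arc key harc)
        exact ⟨g, hg1, List.mem_cons_of_mem _ hg2, hg3, key.trans hg4⟩
      · -- a point on an edge of the box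
        cases S with
        | nil =>
          have hq : e = q := by
            have := harc.last
            simpa [List.getLast?_append] using this
          subst hq
          have hne : v ≠ e := by
            rintro rfl
            have h1 := hv.2
            have h2 := he.2
            omega
          refine ⟨v, hv, by simp, Or.inr ⟨he, hve⟩, ?_⟩
          rw [suf, if_neg hne]
          exact Relation.ReflTransGen.refl
        | cons v' S =>
          have hv' : Flat lo hi v' := by
            rcases hB v' (by simp) with h | h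
            · exact h
            · have := hC.2
              rw [List.isChain_cons_cons] at this
              exact absurd ⟨he.2, h.2⟩ this.1
          have hev : Adj e v' := by
            have := hchain3.2
            rw [List.isChain_cons_cons] at this
            exact this.1
          have c1 := flat_edg h2 hv he hve
          have c2 := flat_edg h2 hv' he hev.symm
          have c3 : clp lo hi v' = clp lo hi v := c2.symm.trans c1
          have hne : v ≠ v' := by
            rintro rfl
            have h3 : (v :: e :: v :: S).Nodup := by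
              refine hnd.sublist ?_
              exact (List.sublist_append_right _ _).trans (List.sublist_append_right _ _)
            simp at h3
          have l1 : A ++ (cc r (clp lo hi v) ++ v :: e :: v' :: S) =
              (A ++ X) ++ clp lo hi v :: v :: e :: v' :: S := by
            rw [hX]
            simp
          have l2 : A ++ (cc r (clp lo hi v') ++ v' :: S) =
              (A ++ X) ++ clp lo hi v :: v' :: S := by
            rw [c3, hX]
            simp
          have key : PIso R p q (A ++ (cc r (clp lo hi v) ++ v :: e :: v' :: S))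
              (A ++ (cc r (clp lo hi v') ++ v' :: S)) := by
            rw [l1] at harc ⊢
            rw [l2]
            have ha : Adj (clp lo hi v) v' := c3 ▸ flat_adj h2 hv'
            refine m_down harc ⟨flat_adj h2 hv, hve, hev, ha.symm,
              box_ne_int hwi (bd e (Or.inr he)), hne⟩ ?_
            exact (box_on ha (hR _ hwi)).1
          have hC2 := hC.2
          rw [List.isChain_cons_cons] at hC2
          obtain ⟨g, hg1, hg2, hg3, hg4⟩ := ih S (by
              simp only [List.length_cons] at hS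
              omega) v' hv'
            (fun x hx => hB x (List.mem_cons_of_mem _ (List.mem_cons_of_mem _ hx))) hC2.2
            (piso_arc key harc)
          exact ⟨g, hg1, List.mem_cons_of_mem _ (List.mem_cons_of_mem _ hg2), hg3,
            key.trans hg4⟩

/-- The arc from its first flat point on. -/
private theorem box_init {lo hi : P3} (h2 : ∀ i, co3 lo i + 2 ≤ co3 hi i) {R : Finset LE}
    (hR : ∀ p, InInt lo hi p → ¬ On R p) {p q f : P3} (hf : Flat lo hi f) {A S : List P3}
    (hA : ∀ x ∈ A, ¬ InInt lo hi x) (hB : ∀ x ∈ S, Flat lo hi x ∨ Edg lo hi x)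
    (hC : (f :: S).IsChain (fun a b => ¬ (nex lo hi a = 2 ∧ nex lo hi b = 2)))
    (harc : Arc R p q (A ++ f :: S)) :
    (S = [] ∧ f = q) ∨ (S = [q] ∧ Edg lo hi q ∧ Adj f q) ∨
    ∃ g, Flat lo hi g ∧ g ∈ S ∧ (g = q ∨ (Edg lo hi q ∧ Adj g q)) ∧
      PIso R p q (A ++ f :: S)
        (A ++ f :: (cc (clp lo hi f) (clp lo hi g) ++ g :: suf q g)) := by
  have bd : ∀ x, Flat lo hi x ∨ Edg lo hi x → ¬ InInt lo hi x := by
    intro x hx
    apply not_int
    rcases hx with hx | hx
    · rw [hx.2]
    · rw [hx.2]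
      omega
  have hri := clp_int h2 hf.1
  have hfb := bd f (Or.inl hf)
  have hA' : ∀ x ∈ A ++ [f], ¬ InInt lo hi x := by
    intro x hx
    rw [List.mem_append, List.mem_singleton] at hx
    rcases hx with hx | hx
    · exact hA x hx
    · exact hx ▸ hfb
  have hnd := harc.nodup
  cases S with
  | nil =>
    left
    refine ⟨rfl, ?_⟩
    have := harc.last
    simpa [List.getLast?_append] using this
  | cons e S =>
    right
    have hchain := harc.chain
    rw [List.isChain_append] at hchain
    have hchain2 := hchain.2.1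
    rw [List.isChain_cons_cons] at hchain2
    have hfe : Adj f e := hchain2.1
    rw [List.isChain_cons_cons] at hC
    rcases hB e (by simp) with he | he
    · right
      have hbe := bd e (Or.inl he)
      have hwi := clp_int h2 he.1
      have hadj := flat_flat h2 hf he hfe
      have hSb : ∀ x ∈ S, ¬ InInt lo hi x := fun x hx =>
        bd x (hB x (List.mem_cons_of_mem _ hx))
      have hcc : cc (clp lo hi f) (clp lo hi e) = [clp lo hi f, clp lo hi e] := by
        obtain ⟨a1, a2⟩ := cc_adj_r hadj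
        rw [cc_succ a1, a2, cc_self]
        rfl
      have m1 : PIso R p q (A ++ f :: e :: S)
          ((A ++ [f]) ++ (cc (clp lo hi f) (clp lo hi e) ++ e :: S)) := by
        have l2 : (A ++ [f]) ++ (cc (clp lo hi f) (clp lo hi e) ++ e :: S) =
            A ++ f :: clp lo hi f :: clp lo hi e :: e :: S := by
          rw [hcc]
          simp
        rw [l2]
        refine m_up harc ⟨(flat_adj h2 hf).symm, hadj, flat_adj h2 he, hfe.symm,
          (box_ne_int hwi hfb).symm, box_ne_int hri hbe⟩ ?_ ?_ ?_ ?_ (hR _ hri) (hR _ hwi)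
        · exact fun h => hA _ h hri
        · exact fun h => hSb _ h hri
        · exact fun h => hA _ h hwi
        · exact fun h => hSb _ h hwi
      obtain ⟨g, hg1, hg2, hg3, hg4⟩ := box_proc h2 hR hri hA' S.length S le_rfl e he
        (fun x hx => hB x (List.mem_cons_of_mem _ hx)) hC.2 (piso_arc m1 harc)
      refine ⟨g, hg1, hg2, hg3, ?_⟩
      have := m1.trans hg4
      rwa [List.append_assoc, List.singleton_append] at this
    · cases S with
      | nil =>
        left
        have hq : e = q := by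
          have := harc.last
          simpa [List.getLast?_append] using this
        subst hq
        exact ⟨rfl, he, hfe⟩
      | cons v S =>
        right
        have hv : Flat lo hi v := by
          rcases hB v (by simp) with h | h
          · exact h
          · have := hC.2
            rw [List.isChain_cons_cons] at this
            exact absurd ⟨he.2, h.2⟩ this.1
        have hev : Adj e v := by
          have := hchain2.2
          rw [List.isChain_cons_cons] at this
          exact this.1
        have c1 := flat_edg h2 hf he hfe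
        have c2 := flat_edg h2 hv he hev.symm
        have c3 : clp lo hi v = clp lo hi f := c2.symm.trans c1
        have hSb : ∀ x ∈ S, ¬ InInt lo hi x := fun x hx =>
          bd x (hB x (List.mem_cons_of_mem _ (List.mem_cons_of_mem _ hx)))
        have hne : f ≠ v := by
          rintro rfl
          have h3 : (f :: e :: f :: S).Nodup := hnd.sublist (List.sublist_append_right _ _)
          simp at h3
        have m1 : PIso R p q (A ++ f :: e :: v :: S)
            ((A ++ [f]) ++ (cc (clp lo hi f) (clp lo hi v) ++ v :: S)) := by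
          have l2 : (A ++ [f]) ++ (cc (clp lo hi f) (clp lo hi v) ++ v :: S) =
              A ++ f :: clp lo hi f :: v :: S := by
            rw [c3, cc_self]
            simp
          rw [l2]
          refine m_two harc ⟨hfe, hev, ?_, flat_adj h2 hf, hne,
            (box_ne_int hri (bd e (Or.inr he))).symm⟩ ?_ ?_ (hR _ hri)
          · exact c3 ▸ (flat_adj h2 hv).symm
          · exact fun h => hA _ h hri
          · exact fun h => hSb _ h hri
        have hC2 := hC.2
        rw [List.isChain_cons_cons] at hC2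
        obtain ⟨g, hg1, hg2, hg3, hg4⟩ := box_proc h2 hR hri hA' S.length S le_rfl v hv
          (fun x hx => hB x (List.mem_cons_of_mem _ (List.mem_cons_of_mem _ hx))) hC2.2
          (piso_arc m1 harc)
        refine ⟨g, hg1, List.mem_cons_of_mem _ hg2, hg3, ?_⟩
        have := m1.trans hg4
        rwa [List.append_assoc, List.singleton_append] at this

/-! ### Normal forms -/

private structure BF (lo hi : P3) (R : Finset LE) (p q f : P3) : Prop where
  flat : Flat lo hi f
  near : f = p ∨ (Edg lo hi p ∧ Adj p f)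
  free : f ≠ p → f ≠ q → ¬ On R f
  eq : f = q → leOf p q ∉ R

private structure BG (lo hi : P3) (R : Finset LE) (p q g : P3) : Prop where
  flat : Flat lo hi g
  near : g = q ∨ (Edg lo hi q ∧ Adj g q)
  free : g ≠ p → g ≠ q → ¬ On R g
  eq : g = p → leOf p q ∉ R

private def pre (p f : P3) : List P3 := if f = p then [] else [p]

private def NN (lo hi p q f g : P3) : List P3 :=
  if f = g then pre p f ++ f :: suf q f
  else pre p f ++ f :: (cc (clp lo hi p) (clp lo hi q) ++ g :: suf q g)

private theorem BF.cl {lo hi : P3} (h2 : ∀ i, co3 lo i + 2 ≤ co3 hi i) {R : Finset LE}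
    {p q f : P3} (h : BF lo hi R p q f) : clp lo hi f = clp lo hi p := by
  rcases h.near with h1 | h1
  · rw [h1]
  · exact (flat_edg h2 h.flat h1.1 h1.2.symm).symm

private theorem BG.cl {lo hi : P3} (h2 : ∀ i, co3 lo i + 2 ≤ co3 hi i) {R : Finset LE}
    {p q g : P3} (h : BG lo hi R p q g) : clp lo hi g = clp lo hi q := by
  rcases h.near with h1 | h1
  · rw [h1]
  · exact (flat_edg h2 h.flat h1.1 h1.2).symm

private theorem flat_ne_edg {lo hi x y : P3} (hx : Flat lo hi x) (hy : Edg lo hi y) : x ≠ y := by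
  rintro rfl
  have h1 := hx.2
  have h2 := hy.2
  omega

private theorem box_norm {lo hi : P3} (h2 : ∀ i, co3 lo i + 2 ≤ co3 hi i) {R : Finset LE}
    (hR : ∀ p, InInt lo hi p → ¬ On R p) {p q : P3} (hpq : p ≠ q) {α : List P3}
    (hα : Arc R p q α) (bα : OnBd lo hi α) :
    ∃ f g, BF lo hi R p q f ∧ BG lo hi R p q g ∧ PIso R p q α (NN lo hi p q f g) := by
  have hB : ∀ x ∈ α, Flat lo hi x ∨ Edg lo hi x := by
    intro x hx
    have h1 := bα.bd x hx
    have h3 := bα.edge x hx
    rcases (by omega : nex lo hi x = 1 ∨ nex lo hi x = 2) with h | h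
    · exact Or.inl ⟨bα.box x hx, h⟩
    · exact Or.inr ⟨bα.box x hx, h⟩
  have bd : ∀ x, Flat lo hi x ∨ Edg lo hi x → ¬ InInt lo hi x := by
    intro x hx
    apply not_int
    rcases hx with hx | hx
    · rw [hx.2]
    · rw [hx.2]
      omega
  -- the common part
  have key : ∀ (A S : List P3) (f : P3), A ++ f :: S = α → Flat lo hi f → A = pre p f →
      (f = p ∨ (Edg lo hi p ∧ Adj p f)) →
      ∃ f g, BF lo hi R p q f ∧ BG lo hi R p q g ∧ PIso R p q α (NN lo hi p q f g) := by
    intro A S f hl hf hA hn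
    have harc : Arc R p q (A ++ f :: S) := hl.symm ▸ hα
    have hfm : f ∈ α := by rw [← hl]; simp
    have hnd := harc.nodup
    have hAb : ∀ x ∈ A, ¬ InInt lo hi x := fun x hx => bd x (hB x (by rw [← hl]; simp [hx]))
    have hBS : ∀ x ∈ S, Flat lo hi x ∨ Edg lo hi x := fun x hx => hB x (by
      rw [← hl, List.mem_append, List.mem_cons]
      exact Or.inr (Or.inr hx))
    have hC : (f :: S).IsChain (fun a b => ¬ (nex lo hi a = 2 ∧ nex lo hi b = 2)) := by
      have := bα.gen
      rw [← hl, List.isChain_append] at this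
      exact this.2.1
    have hdis : ∀ x, α = [p, x] → leOf p x ∉ R := by
      intro x hx
      have h1 := hα.disj
      rw [hx, Finset.disjoint_right] at h1
      exact h1 (by simp [pe])
    have hpn : ∀ x ∈ S, x ≠ p := by
      rintro x hx rfl
      by_cases hfp : f = x
      · subst hfp
        have h1 : (f :: S).Nodup := hnd.sublist (List.sublist_append_right _ _)
        rw [List.nodup_cons] at h1
        exact h1.1 hx
      · rw [pre, if_neg hfp] at hA
        rw [hA] at hnd
        have h1 : (x :: f :: S).Nodup := hnd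
        rw [List.nodup_cons] at h1
        exact h1.1 (List.mem_cons_of_mem _ hx)
    rcases box_init h2 hR hf hAb hBS hC harc with ⟨hS, hfq⟩ | ⟨hS, hq, hfq⟩ | ⟨g, g1, g2, g3, g4⟩
    · -- `α = [p, q]`, `q` is flat
      subst hfq
      have hfp : f ≠ p := fun h => hpq h.symm
      have hαe : α = [p, f] := by
        rw [← hl, hA, hS, pre, if_neg hfp]
        rfl
      refine ⟨f, f, ⟨hf, hn, fun _ h => absurd rfl h, fun _ => hdis f hαe⟩,
        ⟨hf, Or.inl rfl, fun _ h => absurd rfl h, fun h => absurd h hfp⟩, ?_⟩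
      have : NN lo hi p f f f = α := by
        rw [NN, if_pos rfl, suf, if_pos rfl, ← hl, hA, hS]
      rw [this]
      exact Relation.ReflTransGen.refl
    · -- `α` ends after `f`
      have hfq' : f ≠ q := flat_ne_edg hf hq
      refine ⟨f, f, ⟨hf, hn, fun h1 h3 => hα.free f hfm h1 h3, fun h => absurd h hfq'⟩,
        ⟨hf, Or.inr ⟨hq, hfq⟩, fun h1 h3 => hα.free f hfm h1 h3, fun h => ?_⟩, ?_⟩
      · apply hdis
        rw [← hl, hA, hS, pre, if_pos h, h]
        rfl
      · have : NN lo hi p q f f = α := by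
          rw [NN, if_pos rfl, suf, if_neg hfq', ← hl, hA, hS]
        rw [this]
        exact Relation.ReflTransGen.refl
    · have hgm : g ∈ α := by
        rw [← hl, List.mem_append, List.mem_cons]
        exact Or.inr (Or.inr g2)
      have hfS : f ∉ S := by
        have h1 : (f :: S).Nodup := hnd.sublist (List.sublist_append_right _ _)
        rw [List.nodup_cons] at h1
        exact h1.1
      have hfg : f ≠ g := by
        rintro rfl
        exact hfS g2
      have hqS : q ∈ S := by
        have h1 := harc.last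
        cases S with
        | nil => exact absurd g2 (List.not_mem_nil)
        | cons s S =>
          have h3 : A ++ f :: s :: S = (A ++ [f]) ++ (s :: S) := by simp
          rw [h3, List.getLast?_append, List.getLast?_eq_some_getLast (List.cons_ne_nil s S),
            Option.some_or, Option.some.injEq] at h1
          rw [← h1]
          exact List.getLast_mem _
      have hFL : BF lo hi R p q f := ⟨hf, hn, fun h1 h3 => hα.free f hfm h1 h3, fun h => by
        exact absurd (h ▸ hqS) hfS⟩
      have hGL : BG lo hi R p q g := ⟨g1, g3, fun h1 h3 => hα.free g hgm h1 h3, fun h => by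
        exact absurd h (hpn g g2)⟩
      refine ⟨f, g, hFL, hGL, ?_⟩
      rw [NN, if_neg hfg, ← hFL.cl h2, ← hGL.cl h2, ← hA, ← hl]
      exact g4
  -- the beginning of `α`
  have hhead := hα.head
  cases α with
  | nil => simp at hhead
  | cons a S =>
    have ha : a = p := by simpa using hhead
    subst ha
    rcases hB a (by simp) with hp | hp
    · exact key [] S a rfl hp (by rw [pre, if_pos rfl]) (Or.inl rfl)
    · cases S with
      | nil =>
        have := hα.last
        simp only [List.getLast?_singleton, Option.some.injEq] at this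
        exact absurd this hpq
      | cons f S =>
        have hf : Flat lo hi f := by
          rcases hB f (by simp) with h | h
          · exact h
          · have := bα.gen
            rw [List.isChain_cons_cons] at this
            exact absurd ⟨hp.2, h.2⟩ this.1
        have haf : Adj a f := by
          have := hα.chain
          rw [List.isChain_cons_cons] at this
          exact this.1
        refine key [a] S f rfl hf ?_ (Or.inr ⟨hp, haf⟩)
        rw [pre, if_neg (flat_ne_edg hf hp)]

private theorem cmpA {lo hi : P3} (h2 : ∀ i, co3 lo i + 2 ≤ co3 hi i) {R : Finset LE}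
    (hR : ∀ p, InInt lo hi p → ¬ On R p) {p q f f' g : P3} (hf : BF lo hi R p q f)
    (hf' : BF lo hi R p q f') (hg : BG lo hi R p q g) (harc : Arc R p q (NN lo hi p q f g)) :
    PIso R p q (NN lo hi p q f g) (NN lo hi p q f' g) := by
  have bd : ∀ x, Flat lo hi x ∨ Edg lo hi x → ¬ InInt lo hi x := by
    intro x hx
    apply not_int
    rcases hx with hx | hx
    · rw [hx.2]
    · rw [hx.2]
      omega
  by_cases hff : f = f'
  · subst hff
    exact Relation.ReflTransGen.refl
  have hne : f ≠ p ∧ f' ≠ p ∧ Edg lo hi p ∧ Adj p f ∧ Adj p f' := by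
    rcases hf.near with h1 | h1
    · rcases hf'.near with h3 | h3
      · exact absurd (h1.trans h3.symm) hff
      · exact absurd h1 (flat_ne_edg hf.flat h3.1)
    · rcases hf'.near with h3 | h3
      · exact absurd h3 (flat_ne_edg hf'.flat h1.1)
      · exact ⟨flat_ne_edg hf.flat h1.1, flat_ne_edg hf'.flat h1.1, h1.1, h1.2, h3.2⟩
  obtain ⟨hfp, hfp', hp, ha, ha'⟩ := hne
  have hri : InInt lo hi (clp lo hi p) := clp_int h2 hp.1
  have har : Adj f (clp lo hi p) := by
    rw [← hf.cl h2]
    exact (flat_adj h2 hf.flat).symm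
  have har' : Adj f' (clp lo hi p) := by
    rw [← hf'.cl h2]
    exact (flat_adj h2 hf'.flat).symm
  have sq : IsSq p f (clp lo hi p) f' :=
    ⟨ha, har, har'.symm, ha'.symm, (box_ne_int hri (bd p (Or.inr hp))).symm, hff⟩
  have sq' : IsSq p f' (clp lo hi p) f :=
    ⟨ha', har', har.symm, ha.symm, (box_ne_int hri (bd p (Or.inr hp))).symm, fun h => hff h.symm⟩
  obtain ⟨X, hX⟩ := cc_head (clp lo hi p) (clp lo hi q)
  by_cases h1 : f = g
  · subst h1
    have e1 : NN lo hi p q f f = [] ++ p :: f :: suf q f := by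
      rw [NN, if_pos rfl, pre, if_neg hfp]
      rfl
    have hcl : clp lo hi q = clp lo hi p := (hg.cl h2).symm.trans (hf.cl h2)
    have e2 : NN lo hi p q f' f = [] ++ p :: f' :: clp lo hi p :: f :: suf q f := by
      rw [NN, if_neg (fun h => hff h.symm), pre, if_neg hfp', hcl, cc_self]
      rfl
    rw [e1] at harc ⊢
    rw [e2]
    have hsuf : ∀ x, x ∈ suf q f → Edg lo hi x := by
      intro x hx
      unfold suf at hx
      split_ifs at hx with hfq
      · exact absurd hx List.not_mem_nil
      · rw [List.mem_singleton] at hx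
        subst hx
        rcases hg.near with h | h
        · exact absurd h hfq
        · exact h.1
    refine m_up harc sq' List.not_mem_nil ?_ List.not_mem_nil ?_ ?_ (hR _ hri)
    · exact fun h => flat_ne_edg hf'.flat (hsuf _ h) rfl
    · exact fun h => bd _ (Or.inr (hsuf _ h)) hri
    · refine hf'.free hfp' ?_
      rintro rfl
      rcases hg.near with h | h
      · exact hff h
      · exact flat_ne_edg hf'.flat h.1 rfl
  · have e1 : NN lo hi p q f g = [] ++ p :: f :: clp lo hi p :: (X ++ g :: suf q g) := by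
      rw [NN, if_neg h1, pre, if_neg hfp, hX]
      rfl
    by_cases h3 : f' = g
    · subst h3
      have hcl : clp lo hi q = clp lo hi p := (hg.cl h2).symm.trans (hf'.cl h2)
      have e3 : NN lo hi p q f f' = [] ++ p :: f :: clp lo hi p :: f' :: suf q f' := by
        rw [NN, if_neg h1, pre, if_neg hfp, hcl, cc_self]
        rfl
      have e2 : NN lo hi p q f' f' = [] ++ p :: f' :: suf q f' := by
        rw [NN, if_pos rfl, pre, if_neg hfp']
        rfl
      rw [e3] at harc ⊢
      rw [e2]
      refine m_down harc sq ?_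
      by_cases hq : f' = q
      · rw [hq]
        exact hf'.eq hq
      · exact (box_on ha'.symm (hf'.free hfp' hq)).2
    · have e2 : NN lo hi p q f' g = [] ++ p :: f' :: clp lo hi p :: (X ++ g :: suf q g) := by
        rw [NN, if_neg h3, pre, if_neg hfp', hX]
        rfl
      rw [e1] at harc ⊢
      rw [e2]
      have hq' : f' ≠ q := by
        rintro rfl
        rcases hg.near with h | h
        · exact h3 h.symm
        · exact flat_ne_edg hf'.flat h.1 rfl
      refine m_two harc sq List.not_mem_nil ?_ (hf'.free hfp' hq')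
      rw [List.mem_append, List.mem_cons]
      rintro (h | h | h)
      · have hqi : InInt lo hi (clp lo hi q) := by
          rw [← hg.cl h2]
          exact clp_int h2 hg.flat.1
        have := cc_int hri (clp lo hi q) hqi f' (by rw [hX]; exact List.mem_cons_of_mem _ h)
        exact bd _ (Or.inl hf'.flat) this
      · exact h3 h
      · unfold suf at h
        split_ifs at h
        · exact absurd h List.not_mem_nil
        · rw [List.mem_singleton] at h
          exact hq' h

private theorem cmpB {lo hi : P3} (h2 : ∀ i, co3 lo i + 2 ≤ co3 hi i) {R : Finset LE}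
    (hR : ∀ p, InInt lo hi p → ¬ On R p) {p q f g g' : P3} (hf : BF lo hi R p q f)
    (hg : BG lo hi R p q g) (hg' : BG lo hi R p q g') (harc : Arc R p q (NN lo hi p q f g)) :
    PIso R p q (NN lo hi p q f g) (NN lo hi p q f g') := by
  have bd : ∀ x, Flat lo hi x ∨ Edg lo hi x → ¬ InInt lo hi x := by
    intro x hx
    apply not_int
    rcases hx with hx | hx
    · rw [hx.2]
    · rw [hx.2]
      omega
  by_cases hgg : g = g'
  · subst hgg
    exact Relation.ReflTransGen.refl
  have hne : g ≠ q ∧ g' ≠ q ∧ Edg lo hi q ∧ Adj g q ∧ Adj g' q := by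
    rcases hg.near with h1 | h1
    · rcases hg'.near with h3 | h3
      · exact absurd (h1.trans h3.symm) hgg
      · exact absurd h1 (flat_ne_edg hg.flat h3.1)
    · rcases hg'.near with h3 | h3
      · exact absurd h3 (flat_ne_edg hg'.flat h1.1)
      · exact ⟨flat_ne_edg hg.flat h1.1, flat_ne_edg hg'.flat h1.1, h1.1, h1.2, h3.2⟩
  obtain ⟨hgq, hgq', hq, ha, ha'⟩ := hne
  have hsi : InInt lo hi (clp lo hi q) := clp_int h2 hq.1
  have hqb := bd q (Or.inr hq)
  have has : Adj (clp lo hi q) g := by
    rw [← hg.cl h2]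
    exact flat_adj h2 hg.flat
  have has' : Adj (clp lo hi q) g' := by
    rw [← hg'.cl h2]
    exact flat_adj h2 hg'.flat
  have hpre : ∀ x, x ∈ pre p f → x = p ∧ Edg lo hi x := by
    intro x hx
    unfold pre at hx
    split_ifs at hx with hfp
    · exact absurd hx List.not_mem_nil
    · rw [List.mem_singleton] at hx
      subst hx
      rcases hf.near with h | h
      · exact absurd h hfp
      · exact ⟨rfl, h.1⟩
  obtain ⟨X, hX⟩ := cc_last (clp lo hi p) (clp lo hi q)
  by_cases h1 : f = g
  · subst h1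
    have hcl : clp lo hi q = clp lo hi p := (hg.cl h2).symm.trans (hf.cl h2)
    have e1 : NN lo hi p q f f = pre p f ++ f :: q :: [] := by
      rw [NN, if_pos rfl, suf, if_neg hgq]
    have e2 : NN lo hi p q f g' = pre p f ++ f :: clp lo hi q :: g' :: q :: [] := by
      rw [NN, if_neg hgg, suf, if_neg hgq', hcl, cc_self]
      rfl
    rw [e1] at harc ⊢
    rw [e2]
    refine m_up harc ⟨has.symm, has', ha', ha.symm, hgg, box_ne_int hsi hqb⟩ ?_
      List.not_mem_nil ?_ List.not_mem_nil (hR _ hsi) ?_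
    · exact fun h => bd _ (Or.inr (hpre _ h).2) hsi
    · exact fun h => flat_ne_edg hg'.flat (hpre _ h).2 rfl
    · refine hg'.free ?_ hgq'
      rintro rfl
      rcases hf.near with h | h
      · exact hgg h
      · exact flat_ne_edg hg'.flat h.1 rfl
  · by_cases h3 : f = g'
    · subst h3
      have hcl : clp lo hi q = clp lo hi p := (hg'.cl h2).symm.trans (hf.cl h2)
      have e1 : NN lo hi p q f g = pre p f ++ f :: clp lo hi q :: g :: q :: [] := by
        rw [NN, if_neg h1, suf, if_neg hgq, hcl, cc_self]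
        rfl
      have e2 : NN lo hi p q f f = pre p f ++ f :: q :: [] := by
        rw [NN, if_pos rfl, suf, if_neg hgq']
      rw [e1] at harc ⊢
      rw [e2]
      refine m_down harc ⟨has'.symm, has, ha, ha'.symm, h1, box_ne_int hsi hqb⟩ ?_
      by_cases hfp : f = p
      · have := hg'.eq hfp
        rwa [← hfp] at this
      · exact (box_on ha' (hg'.free hfp hgq')).1
    · have e1 : NN lo hi p q f g =
          (pre p f ++ f :: X) ++ clp lo hi q :: g :: q :: [] := by
        rw [NN, if_neg h1, suf, if_neg hgq, hX]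
        simp
      have e2 : NN lo hi p q f g' =
          (pre p f ++ f :: X) ++ clp lo hi q :: g' :: q :: [] := by
        rw [NN, if_neg h3, suf, if_neg hgq', hX]
        simp
      rw [e1] at harc ⊢
      rw [e2]
      have hp' : g' ≠ p := by
        rintro rfl
        rcases hf.near with h | h
        · exact h3 h
        · exact flat_ne_edg hg'.flat h.1 rfl
      refine m_two harc ⟨has, ha, ha'.symm, has'.symm, box_ne_int hsi hqb, hgg⟩ ?_
        List.not_mem_nil (hg'.free hp' hgq')
      rw [List.mem_append, List.mem_cons]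
      rintro (h | h | h)
      · exact hp' (hpre _ h).1
      · exact h3 h.symm
      · have hpi : InInt lo hi (clp lo hi p) := by
          rw [← hf.cl h2]
          exact clp_int h2 hf.flat.1
        have := cc_int hpi (clp lo hi q) hsi g' (by rw [hX]; simp [h])
        exact bd _ (Or.inl hg'.flat) this

/-- **Box lemma.** Two arcs with the same ends on the boundary of a box with empty interior are
isotopic. -/
theorem box_lemma {lo hi : P3} (h2 : ∀ i, co3 lo i + 2 ≤ co3 hi i) {R : Finset LE}
    (hR : ∀ p, InInt lo hi p → ¬ On R p) {p q : P3} (hpq : p ≠ q) {α β : List P3}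
    (hα : Arc R p q α) (hβ : Arc R p q β) (bα : OnBd lo hi α) (bβ : OnBd lo hi β) :
    PIso R p q α β := by
  obtain ⟨f, g, hf, hg, m1⟩ := box_norm h2 hR hpq hα bα
  obtain ⟨f', g', hf', hg', m4⟩ := box_norm h2 hR hpq hβ bβ
  have a1 := piso_arc m1 hα
  have m2 := cmpA h2 hR hf hf' hg a1
  have a2 := piso_arc m2 a1
  have m3 := cmpB h2 hR hf' hg hg' a2
  exact ((m1.trans m2).trans m3).trans m4.symm

end Pool.Agent.Lib.MP_131179_gt.Dehn
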