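import Pool.Agent.Lib.MP_131179_gt.Dehn.PiPair

/-!
# The choice of the cuts at the double curves
-/

set_option autoImplicit false

namespace Pool.Agent.Lib.MP_131179_gt.Dehn

namespace Imm

variable {Ψ : Type} {I : Imm Ψ}

/-- The involution at the crossings after cutting and pasting. -/
def sig [Finite Ψ] (ch : I.A → F2) (ω : I.A) : I.A := if ch ω = 0 then s0 ω else s1 ω

/-- The choice is constant on the double curves. -/
structure IsChoice [Finite Ψ] (π : I.A → I.A) (ch : I.A → F2) : Prop where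
  ch_o : ∀ ω, ch (o ω) = ch ω
  ch_s0 : ∀ ω, ch (s0 ω) = ch ω
  ch_π : ∀ ω, ch (π ω) = ch ω
  ch_eps : ∀ ω, ch (eps ω) = ch ω

theorem o_o [Finite Ψ] (ω : I.A) : o (o ω) = ω := by
  apply Subtype.ext
  apply Prod.ext
  · exact I.MM _
  · exact I.MM _

theorem s0_s0 [Finite Ψ] (ω : I.A) : s0 (s0 ω) = ω := rfl

theorem s1_eq [Finite Ψ] (ω : I.A) : s1 ω = o (s0 ω) := rfl

theorem o_s0 [Finite Ψ] (ω : I.A) : o (s0 ω) = s0 (o ω) := rfl

theorem s1_s1 [Finite Ψ] (ω : I.A) : s1 (s1 ω) = ω := by
  rw [s1_eq, s1_eq, ← o_s0, o_o, s0_s0]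

theorem eps_eps [Finite Ψ] (ω : I.A) : eps (eps ω) = ω := by
  apply Subtype.ext
  apply Prod.ext
  · exact I.aa _
  · exact I.aa _

theorem eps_o [Finite Ψ] (ω : I.A) : eps (o ω) = o (eps ω) := by
  apply Subtype.ext
  apply Prod.ext
  · exact I.aM _
  · exact I.aM _

theorem eps_s0 [Finite Ψ] (ω : I.A) : eps (s0 ω) = s0 (eps ω) := rfl

theorem IsChoice.ch_s1 [Finite Ψ] {π : I.A → I.A} {ch : I.A → F2} (h : IsChoice π ch) (ω : I.A) :
    ch (s1 ω) = ch ω := by
  rw [s1_eq, h.ch_o, h.ch_s0]

theorem IsChoice.ch_sig [Finite Ψ] {π : I.A → I.A} {ch : I.A → F2} (h : IsChoice π ch)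
    (ω : I.A) : ch (sig ch ω) = ch ω := by
  unfold sig
  split_ifs
  · exact h.ch_s0 ω
  · exact h.ch_s1 ω

theorem sig_sig [Finite Ψ] {π : I.A → I.A} {ch : I.A → F2} (h : IsChoice π ch) (ω : I.A) :
    sig ch (sig ch ω) = ω := by
  by_cases h0 : ch ω = 0
  · have e : sig ch ω = s0 ω := if_pos h0
    rw [e]
    have e' : sig ch (s0 ω) = s0 (s0 ω) := if_pos (by rw [h.ch_s0]; exact h0)
    rw [e', s0_s0]
  · have e : sig ch ω = s1 ω := if_neg h0
    rw [e]
    have e' : sig ch (s1 ω) = s1 (s1 ω) := if_neg (by rw [h.ch_s1]; exact h0)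
    rw [e', s1_s1]

theorem sig_eps [Finite Ψ] {π : I.A → I.A} {ch : I.A → F2} (h : IsChoice π ch) (ω : I.A) :
    sig ch (eps ω) = eps (sig ch ω) := by
  unfold sig
  rw [h.ch_eps]
  split_ifs
  · rfl
  · rw [s1_eq, s1_eq, eps_o, eps_s0]

theorem sig_o [Finite Ψ] {π : I.A → I.A} {ch : I.A → F2} (h : IsChoice π ch) (ω : I.A) :
    sig ch (o ω) = o (sig ch ω) := by
  unfold sig
  rw [h.ch_o]
  split_ifs
  · rfl
  · rfl

theorem sig_π [Finite Ψ] {π : I.A → I.A} {ch : I.A → F2} (hπ : IsPi I π) (h : IsChoice π ch)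
    (ω : I.A) : sig ch (π ω) = π (sig ch ω) := by
  unfold sig
  rw [h.ch_π]
  split_ifs
  · rw [hπ.comm_s0]
  · rw [s1_eq, s1_eq, hπ.comm_o, hπ.comm_s0]

theorem col_sig [Finite Ψ] (ch : I.A → F2) (ω : I.A) :
    I.col (sig ch ω).1.1 = I.col ω.1.1 + 1 := by
  have key : I.col ω.1.2 = I.col ω.1.1 + 1 := by
    have h := ω.2.col
    generalize I.col ω.1.1 = u at *
    generalize I.col ω.1.2 = v at *
    revert u v
    decide
  unfold sig
  split_ifs
  · exact key
  · show I.col (I.M ω.1.2) = _
    rw [I.colM]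
    exact key

theorem choice_en_cd {x y : Ψ} (h : I.CD x y) : I.en x = I.en y := by
  induction h with
  | rel x y h =>
    obtain ⟨f, hf, rfl⟩ := h
    simp only [List.mem_cons, List.not_mem_nil, or_false] at hf
    rcases hf with rfl | rfl
    · exact (I.enc x).symm
    · exact (I.end' x).symm
  | refl x => rfl
  | symm x y _ ih => exact ih.symm
  | trans x y z _ _ ih1 ih2 => exact ih1.trans ih2

theorem en_sig [Finite Ψ] (ch : I.A → F2) (ω : I.A) :
    I.en (sig ch ω).1.1 = I.en ω.1.1 := by
  have key : I.en ω.1.2 = I.en ω.1.1 := (choice_en_cd ω.2.cd).symm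
  unfold sig
  split_ifs
  · exact key
  · show I.en (I.M ω.1.2) = _
    rw [← choice_en_cd (I.cdM ω.1.2)]
    exact key

/-! ### Existence of the choice -/

/-- The double curves. -/
def choice_Q [Finite Ψ] (π : I.A → I.A) : Type := Quot (OStep [π, eps, o, s0])

instance choice_finQ [Finite Ψ] (π : I.A → I.A) : Finite (choice_Q π) :=
  inferInstanceAs (Finite (Quot (OStep [π, eps, o, s0])))

/-- The double curve of a crossing. -/
def choice_cl [Finite Ψ] (π : I.A → I.A) (ω : I.A) : choice_Q π := Quot.mk _ ω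

theorem choice_cl_π [Finite Ψ] (π : I.A → I.A) (ω : I.A) :
    choice_cl π (π ω) = choice_cl π ω :=
  (Quot.sound ⟨π, by simp, rfl⟩ : Quot.mk (OStep [π, eps, o, s0]) ω = Quot.mk _ (π ω)).symm

theorem choice_cl_eps [Finite Ψ] (π : I.A → I.A) (ω : I.A) :
    choice_cl π (eps ω) = choice_cl π ω :=
  (Quot.sound ⟨eps, by simp, rfl⟩ : Quot.mk (OStep [π, eps, o, s0]) ω = Quot.mk _ (eps ω)).symm

theorem choice_cl_o [Finite Ψ] (π : I.A → I.A) (ω : I.A) :
    choice_cl π (o ω) = choice_cl π ω :=
  (Quot.sound ⟨o, by simp, rfl⟩ : Quot.mk (OStep [π, eps, o, s0]) ω = Quot.mk _ (o ω)).symm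

theorem choice_cl_s0 [Finite Ψ] (π : I.A → I.A) (ω : I.A) :
    choice_cl π (s0 ω) = choice_cl π ω :=
  (Quot.sound ⟨s0, by simp, rfl⟩ : Quot.mk (OStep [π, eps, o, s0]) ω = Quot.mk _ (s0 ω)).symm

theorem choice_isChoice [Finite Ψ] (π : I.A → I.A) (ch : choice_Q π → F2) :
    IsChoice π (fun ω => ch (choice_cl π ω)) where
  ch_o ω := by simp only [choice_cl_o]
  ch_s0 ω := by simp only [choice_cl_s0]
  ch_π ω := by simp only [choice_cl_π]
  ch_eps ω := by simp only [choice_cl_eps]

/-- Propagation along a double curve. -/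
theorem choice_prop [Finite Ψ] {π : I.A → I.A} (hπ : IsPi I π) {g : I.Om → F2}
    (h1 : ∀ ω : I.A, g (Sum.inr (π ω)) = g (Sum.inr ω))
    (h2 : ∀ ω : I.A, g (Sum.inr (eps ω)) = g (Sum.inr ω)) {n ω : I.A}
    (h : Relation.EqvGen (OStep [π, eps, o, s0]) n ω) :
    (g (Sum.inr (o n)) = g (Sum.inr n) ∧ g (Sum.inr (o (s0 n))) = g (Sum.inr (s0 n))) ↔
    (g (Sum.inr (o ω)) = g (Sum.inr ω) ∧ g (Sum.inr (o (s0 ω))) = g (Sum.inr (s0 ω))) := by
  induction h with
  | rel x y h =>
    obtain ⟨f, hf, rfl⟩ := h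
    simp only [List.mem_cons, List.not_mem_nil, or_false] at hf
    rcases hf with rfl | rfl | rfl | rfl
    · rw [← hπ.comm_o, ← hπ.comm_s0, ← hπ.comm_o, h1, h1, h1, h1]
    · rw [← eps_o, ← eps_s0, ← eps_o, h2, h2, h2, h2]
    · rw [o_o, ← o_s0, o_o]
      constructor
      · rintro ⟨a, b⟩; exact ⟨a.symm, b.symm⟩
      · rintro ⟨a, b⟩; exact ⟨a.symm, b.symm⟩
    · rw [s0_s0]
      exact and_comm
  | refl x => rfl
  | symm x y _ ih => exact ih.symm
  | trans x y z _ _ ih1 ih2 => exact ih1.trans ih2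

open Classical in
/-- The involution at the crossings when only the double curves in `S` are cut. -/
noncomputable def choice_tau [Finite Ψ] (π : I.A → I.A) (S : Finset (choice_Q π))
    (ch : choice_Q π → F2) (ω : I.A) : I.A :=
  if choice_cl π ω ∈ S then (if ch (choice_cl π ω) = 0 then s0 ω else s1 ω) else o ω

/-- Everything is connected before the cuts. -/
theorem choice_base [Fintype Ψ] (hI : I.IsSphere) {g : I.Om → F2}
    (hβ : ∀ ω, g (I.β ω) = g ω) (ha : ∀ ω, g (am ω) = g ω) (hb : ∀ ω, g (bt o ω) = g ω) :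
    ∀ ω ω', g ω = g ω' := by
  classical
  have ho : ∀ ω : I.A, g (Sum.inr (o ω)) = g (Sum.inr ω) := fun ω => hb (Sum.inr ω)
  -- the function on the points
  let G : Ψ → F2 := fun x => if h : I.co x = 0 then g (pt x h) else evp g (I.c x)
  have hG0 : ∀ (x : Ψ) (h : I.co x = 0), G x = g (pt x h) := fun x h => dif_pos h
  have h01 : ∀ x : Ψ, ¬ I.co x = 0 → I.co (I.c x) = 0 := by
    intro x h
    rw [I.coc]
    generalize I.co x = u at *
    revert u
    decide
  have hG1 : ∀ (x : Ψ) (h : ¬ I.co x = 0), G x = g (pt (I.c x) (h01 x h)) := by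
    intro x h
    have : G x = evp g (I.c x) := dif_neg h
    rw [this]
    exact dif_pos (h01 x h)
  have pteq : ∀ (x y : Ψ) (hx : I.co x = 0) (hxy : x = y),
      g (pt x hx) = g (pt y (hxy ▸ hx)) := by
    intro x y hx hxy
    subst hxy
    rfl
  have hGc : ∀ x, G (I.c x) = G x := by
    intro x
    by_cases h : I.co x = 0
    · have h' : ¬ I.co (I.c x) = 0 := by rw [I.coc, h]; decide
      rw [hG0 x h, hG1 _ h']
      exact pteq _ _ _ (I.cc x)
    · rw [hG1 x h, hG0 _ (h01 x h)]
  have ext0 : ∀ f : Ψ → Ψ, (∀ x, I.c (f x) = f (I.c x)) → (∀ x, I.co (f x) = I.co x) →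
      (∀ x, I.co x = 0 → G (f x) = G x) → ∀ x, G (f x) = G x := by
    intro f hfc hfco hf x
    by_cases h : I.co x = 0
    · exact hf x h
    · rw [← hGc (f x), hfc, hf _ (h01 x h), hGc]
  have hGa : ∀ x, G (I.a x) = G x := by
    refine ext0 I.a (fun x => (I.ac x).symm) I.coa ?_
    intro x h
    have h' : I.co (I.a x) = 0 := (I.coa x).trans h
    rw [hG0 x h, hG0 _ h']
    exact ha (pt x h)
  have hGb : ∀ x, G (I.b x) = G x := by
    refine ext0 I.b (fun x => (I.bc x).symm) I.cob ?_
    intro x h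
    have h' : I.co (I.b x) = 0 := (I.cob x).trans h
    rw [hG0 x h, hG0 _ h']
    exact hb (pt x h)
  have hGM : ∀ x, G (I.M x) = G x := by
    refine ext0 I.M I.cM I.coM ?_
    intro x h
    have h' : I.co (I.M x) = 0 := (I.coM x).trans h
    rw [hG0 x h, hG0 _ h']
    exact chord_const' hβ ho h
  have hconst : ∀ x y, G x = G y := by
    refine hI.conn G ?_
    intro f hf
    simp only [List.mem_cons, List.not_mem_nil, or_false] at hf
    rcases hf with rfl | rfl | rfl | rfl
    · exact hGa
    · exact hGb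
    · exact hGc
    · exact hGM
  have hval : ∀ ω : I.Om, ∃ x, g ω = G x := by
    intro ω
    rcases ω with ⟨x, h⟩ | ⟨⟨x, y⟩, h⟩
    · exact ⟨x, (hG0 x h).symm⟩
    · exact ⟨x, (chord_const hβ ho h).trans (hG0 x h.cox).symm⟩
  intro ω ω'
  obtain ⟨x, hx⟩ := hval ω
  obtain ⟨y, hy⟩ := hval ω'
  rw [hx, hy]
  exact hconst x y

/-- The induction step: one more double curve is cut. -/
theorem choice_step [Finite Ψ] {π : I.A → I.A} (hπ : IsPi I π)
    {S : Finset (choice_Q π)} {ch : choice_Q π → F2} {q : choice_Q π} (hq : q ∉ S)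
    (hS : ∀ g ∈ Inv [I.β, bt π, am, bt (choice_tau π S ch)], ∀ ω ω', g ω = g ω') :
    open Classical in ∃ ch' : choice_Q π → F2,
      ∀ g ∈ Inv [I.β, bt π, am, bt (choice_tau π (insert q S) ch')], ∀ ω ω', g ω = g ω' := by
  classical
  obtain ⟨n, hn⟩ : ∃ n : I.A, choice_cl π n = q := by
    obtain ⟨n, hn⟩ := Quot.exists_rep q
    exact ⟨n, hn⟩
  -- the maps without the curve `q`
  let t' : I.A → I.A := fun ω => if choice_cl π ω = q then ω else choice_tau π S ch ω
  let L : List (I.Om → I.Om) := [I.β, bt π, am, bt t']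
  have sym : ∀ x y : I.Om, SameOrb L x y → SameOrb L y x := fun x y h => .symm _ _ h
  have trans : ∀ x y z : I.Om, SameOrb L x y → SameOrb L y z → SameOrb L x z :=
    fun x y z h h' => .trans _ _ _ h h'
  have gen : ∀ f ∈ L, ∀ x, SameOrb L x (f x) := fun f hf x => .rel _ _ ⟨f, hf, rfl⟩
  -- invariant functions are constant on orbits
  have const : ∀ g ∈ Inv L, ∀ x y, SameOrb L x y → g x = g y := by
    intro g hg x y h
    induction h with
    | rel x y h =>
      obtain ⟨f, hf, rfl⟩ := h
      exact (hg f hf x).symm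
    | refl x => rfl
    | symm x y _ ih => exact ih.symm
    | trans x y z _ _ ih1 ih2 => exact ih1.trans ih2
  -- the coincidence
  have coin : SameOrb L (Sum.inr n) (Sum.inr (s0 n)) ∨ SameOrb L (Sum.inr (o n)) (Sum.inr (s0 n)) ∨
      SameOrb L (Sum.inr n) (Sum.inr (o (s0 n))) ∨
      SameOrb L (Sum.inr (o n)) (Sum.inr (o (s0 n))) := by
    by_contra hcon
    push Not at hcon
    obtain ⟨c1, c2, c3, c4⟩ := hcon
    let G : I.Om → F2 := fun z =>
      if SameOrb L (Sum.inr n) z ∨ SameOrb L (Sum.inr (o n)) z then 1 else 0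
    have hGL : G ∈ Inv L := by
      intro f hf x
      have : (SameOrb L (Sum.inr n) (f x) ∨ SameOrb L (Sum.inr (o n)) (f x)) ↔
          (SameOrb L (Sum.inr n) x ∨ SameOrb L (Sum.inr (o n)) x) := by
        constructor
        · rintro (h | h)
          · exact Or.inl (trans _ _ _ h (sym _ _ (gen f hf x)))
          · exact Or.inr (trans _ _ _ h (sym _ _ (gen f hf x)))
        · rintro (h | h)
          · exact Or.inl (trans _ _ _ h (gen f hf x))
          · exact Or.inr (trans _ _ _ h (gen f hf x))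
      simp only [G, this]
    have G1 : G (Sum.inr n) = 1 := if_pos (Or.inl (.refl _))
    have G2 : G (Sum.inr (o n)) = 1 := if_pos (Or.inr (.refl _))
    have G3 : G (Sum.inr (s0 n)) = 0 := if_neg (by rintro (h | h); exacts [c1 h, c2 h])
    have G4 : G (Sum.inr (o (s0 n))) = 0 := if_neg (by rintro (h | h); exacts [c3 h, c4 h])
    have gπ : ∀ ω : I.A, G (Sum.inr (π ω)) = G (Sum.inr ω) :=
      fun ω => hGL (bt π) (by simp [L]) (Sum.inr ω)
    have geps : ∀ ω : I.A, G (Sum.inr (eps ω)) = G (Sum.inr ω) :=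
      fun ω => hGL am (by simp [L]) (Sum.inr ω)
    have hGS : G ∈ Inv [I.β, bt π, am, bt (choice_tau π S ch)] := by
      intro f hf
      simp only [List.mem_cons, List.not_mem_nil, or_false] at hf
      rcases hf with rfl | rfl | rfl | rfl
      · exact hGL _ (by simp [L])
      · exact hGL _ (by simp [L])
      · exact hGL _ (by simp [L])
      · intro x
        rcases x with x | ω
        · exact hGL (bt t') (by simp [L]) (Sum.inl x)
        · by_cases hω : choice_cl π ω = q
          · have e : choice_tau π S ch ω = o ω := if_neg (by rw [hω]; exact hq)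
            show G (Sum.inr (choice_tau π S ch ω)) = _
            rw [e]
            have hrel : Relation.EqvGen (OStep [π, eps, o, s0]) n ω :=
              Quot.eqvGen_exact (hn.trans hω.symm)
            exact ((choice_prop hπ gπ geps hrel).1 ⟨G2.trans G1.symm, G4.trans G3.symm⟩).1
          · have e : choice_tau π S ch ω = t' ω := (if_neg hω).symm
            show G (Sum.inr (choice_tau π S ch ω)) = _
            rw [e]
            exact hGL (bt t') (by simp [L]) (Sum.inr ω)
    have := hS G hGS (Sum.inr n) (Sum.inr (s0 n))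
    rw [G1, G3] at this
    exact one_ne_zero this
  -- reduction to the equality of the four values
  have red : ∀ e : F2, (∀ g : I.Om → F2, g ∈ Inv L →
      (e = 0 → g (Sum.inr (s0 n)) = g (Sum.inr n) ∧
        g (Sum.inr (o (s0 n))) = g (Sum.inr (o n))) →
      (¬ e = 0 → g (Sum.inr (o (s0 n))) = g (Sum.inr n) ∧
        g (Sum.inr (s0 n)) = g (Sum.inr (o n))) →
      g (Sum.inr (o n)) = g (Sum.inr n) ∧ g (Sum.inr (o (s0 n))) = g (Sum.inr (s0 n))) →
      ∃ ch' : choice_Q π → F2,
      ∀ g ∈ Inv [I.β, bt π, am, bt (choice_tau π (insert q S) ch')], ∀ ω ω', g ω = g ω' := by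
    intro e he
    refine ⟨Function.update ch q e, ?_⟩
    intro g hg
    set T : I.A → I.A := choice_tau π (insert q S) (Function.update ch q e) with hT
    have Tq : ∀ ω, choice_cl π ω = q → T ω = if e = 0 then s0 ω else s1 ω := by
      intro ω hω
      have h1 : T ω = if (Function.update ch q e) (choice_cl π ω) = 0 then s0 ω else s1 ω :=
        if_pos (by rw [hω]; exact Finset.mem_insert_self _ _)
      rw [h1, hω, Function.update_self]
    have Tn : ∀ ω, ¬ choice_cl π ω = q → T ω = choice_tau π S ch ω := by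
      intro ω hω
      have e1 : Function.update ch q e (choice_cl π ω) = ch (choice_cl π ω) :=
        Function.update_of_ne hω _ _
      by_cases hm : choice_cl π ω ∈ S
      · have h1 : T ω = if (Function.update ch q e) (choice_cl π ω) = 0 then s0 ω else s1 ω :=
          if_pos (Finset.mem_insert_of_mem hm)
        have h2 : choice_tau π S ch ω = if ch (choice_cl π ω) = 0 then s0 ω else s1 ω := if_pos hm
        rw [h1, h2, e1]
      · have h1 : T ω = o ω := if_neg (by
          rw [Finset.mem_insert]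
          rintro (h | h)
          · exact hω h
          · exact hm h)
        have h2 : choice_tau π S ch ω = o ω := if_neg hm
        rw [h1, h2]
    have gT : ∀ ω : I.A, g (Sum.inr (T ω)) = g (Sum.inr ω) :=
      fun ω => hg (bt T) (by simp) (Sum.inr ω)
    have gπ : ∀ ω : I.A, g (Sum.inr (π ω)) = g (Sum.inr ω) :=
      fun ω => hg (bt π) (by simp) (Sum.inr ω)
    have geps : ∀ ω : I.A, g (Sum.inr (eps ω)) = g (Sum.inr ω) :=
      fun ω => hg am (by simp) (Sum.inr ω)
    have hgL : g ∈ Inv L := by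
      intro f hf
      simp only [L, List.mem_cons, List.not_mem_nil, or_false] at hf
      rcases hf with rfl | rfl | rfl | rfl
      · exact hg _ (by simp)
      · exact hg _ (by simp)
      · exact hg _ (by simp)
      · intro x
        rcases x with x | ω
        · exact hg (bt T) (by simp) (Sum.inl x)
        · by_cases hω : choice_cl π ω = q
          · have e : t' ω = ω := if_pos hω
            show g (Sum.inr (t' ω)) = _
            rw [e]
          · have e : t' ω = T ω := (if_neg hω).trans (Tn ω hω).symm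
            show g (Sum.inr (t' ω)) = _
            rw [e]
            exact gT ω
    have hon : choice_cl π (o n) = q := (choice_cl_o π n).trans hn
    have four := he g hgL (by
      intro h0
      have a1 := gT n
      rw [Tq n hn, if_pos h0] at a1
      have a2 := gT (o n)
      rw [Tq _ hon, if_pos h0, ← o_s0] at a2
      exact ⟨a1, a2⟩) (by
      intro h0
      have a1 := gT n
      rw [Tq n hn, if_neg h0, s1_eq] at a1
      have a2 := gT (o n)
      rw [Tq _ hon, if_neg h0, s1_eq, ← o_s0, o_o] at a2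
      exact ⟨a1, a2⟩)
    apply hS g
    intro f hf
    simp only [List.mem_cons, List.not_mem_nil, or_false] at hf
    rcases hf with rfl | rfl | rfl | rfl
    · exact hg _ (by simp)
    · exact hg _ (by simp)
    · exact hg _ (by simp)
    · intro x
      rcases x with x | ω
      · exact hg (bt T) (by simp) (Sum.inl x)
      · by_cases hω : choice_cl π ω = q
        · have e : choice_tau π S ch ω = o ω := if_neg (by rw [hω]; exact hq)
          show g (Sum.inr (choice_tau π S ch ω)) = _
          rw [e]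
          have hrel : Relation.EqvGen (OStep [π, eps, o, s0]) n ω :=
            Quot.eqvGen_exact (hn.trans hω.symm)
          exact ((choice_prop hπ gπ geps hrel).1 four).1
        · show g (Sum.inr (choice_tau π S ch ω)) = _
          rw [← Tn ω hω]
          exact gT ω
  rcases coin with h | h | h | h
  · -- use `s1`
    refine red 1 ?_
    intro g hg _ h1
    obtain ⟨a1, a2⟩ := h1 one_ne_zero
    have a3 := const g hg _ _ h
    refine ⟨?_, ?_⟩
    · rw [← a2, a3]
    · rw [a1, a3]
  · -- use `s0`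
    refine red 0 ?_
    intro g hg h1 _
    obtain ⟨a1, a2⟩ := h1 rfl
    have a3 := const g hg _ _ h
    refine ⟨?_, ?_⟩
    · rw [a3, a1]
    · rw [a2, a3]
  · refine red 0 ?_
    intro g hg h1 _
    obtain ⟨a1, a2⟩ := h1 rfl
    have a3 := const g hg _ _ h
    refine ⟨?_, ?_⟩
    · rw [← a2, a3]
    · rw [a1, a3]
  · refine red 1 ?_
    intro g hg _ h1
    obtain ⟨a1, a2⟩ := h1 one_ne_zero
    have a3 := const g hg _ _ h
    refine ⟨?_, ?_⟩
    · rw [a3, a1]
    · rw [a2, a3]

/-- We can cut the double curves such that the result stays connected when the double arcs are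
added. -/
theorem exists_choice [Fintype Ψ] (hI : I.IsSphere) {π : I.A → I.A} (hπ : IsPi I π) :
    ∃ ch : I.A → F2, IsChoice π ch ∧
      ∀ g ∈ Inv [I.β, bt π, am, bt (sig ch)], ∀ ω ω', g ω = g ω' := by
  classical
  have : Fintype (choice_Q π) := Fintype.ofFinite _
  have main : ∀ S : Finset (choice_Q π), ∃ ch : choice_Q π → F2,
      ∀ g ∈ Inv [I.β, bt π, am, bt (choice_tau π S ch)], ∀ ω ω', g ω = g ω' := by
    intro S
    induction S using Finset.induction_on with
    | empty =>
      refine ⟨fun _ => 0, ?_⟩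
      intro g hg
      have e : choice_tau π (∅ : Finset (choice_Q π)) (fun _ => 0) = o := by
        funext ω
        exact if_neg (Finset.notMem_empty _)
      rw [e] at hg
      exact choice_base hI (hg _ (by simp)) (hg _ (by simp)) (hg _ (by simp))
    | insert q S hq ih =>
      obtain ⟨ch, hch⟩ := ih
      obtain ⟨ch', h'⟩ := choice_step hπ hq hch
      refine ⟨ch', ?_⟩
      convert h' using 3
  obtain ⟨ch, hch⟩ := main Finset.univ
  refine ⟨fun ω => ch (choice_cl π ω), choice_isChoice π ch, ?_⟩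
  have e : choice_tau π Finset.univ ch = sig (fun ω => ch (choice_cl π ω)) := by
    funext ω
    exact if_pos (Finset.mem_univ _)
  rw [e] at hch
  exact hch

end Imm

end Pool.Agent.Lib.MP_131179_gt.Dehn
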