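import Pool.Agent.Lib.MP_131179_gt.Dehn.NonX

/-!
# The chords of a surface
-/

set_option autoImplicit false

namespace Pool.Agent.Lib.MP_131179_gt.Dehn

variable {m : ℕ} [NeZero m] {c : Curve m} {A : Slots (EK c.K) m}

/-- The flags of the surface whose chords are nested inside the chord of `p`. -/
def Nst (S : Carried A.attach) (N R : ℤ) (p : Fl S.n) : Set (Fl S.n) :=
  {q | edgV q.1.1 = edgV p.1.1 ∧
    min (tht S N R p) (tht S N R (S.M p)) < min (tht S N R q) (tht S N R (S.M q)) ∧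
    max (tht S N R q) (tht S N R (S.M q)) < max (tht S N R p) (tht S N R (S.M p))}

/-- The depth of a chord. -/
noncomputable def dep (S : Carried A.attach) (N R : ℤ) (p : Fl S.n) : ℕ := 2 + (Nst S N R p).ncard

/-- The chord in the plane. -/
noncomputable def cp2 (S : Carried A.attach) (N R : ℤ) (p : Fl S.n) : List P2 :=
  if tht S N R p < tht S N R (S.M p) then
    ring N (dep S N R p) (tht S N R p) (tht S N R (S.M p)) (bty (edgV p.1.1).2)
  else (ring N (dep S N R p) (tht S N R (S.M p)) (tht S N R p) (bty (edgV p.1.1).2)).reverse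

/-- The chord in the lattice. -/
noncomputable def cpp (S : Carried A.attach) (N R : ℤ) (p : Fl S.n) : List P3 :=
  (cp2 S N R p).map (emb N (edgV p.1.1).1 (edgV p.1.1).2)

/-- All the assumptions. -/
structure Good3 (S : Carried A.attach) (N R : ℤ) : Prop where
  gc : GoodCurve c
  sa : SlotsAt c A
  good : S.IsGood Slots.h0
  nr : NR S N R
  card : (Nat.card (Fl S.n) : ℤ) + 3 ≤ R

variable {S : Carried A.attach} {N R : ℤ}

theorem chord_N6 (h : Good3 S N R) (p : Fl S.n) : 2 * R ≤ N ∧ 3 ≤ R := by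
  have h1 := h.nr.hN p.1.1
  have h2 : (0 : ℤ) ≤ (S.n p.1.1 : ℤ) := Int.natCast_nonneg _
  exact ⟨by linarith, h.nr.hR⟩

theorem chord_pos (h : Good3 S N R) {p : Fl S.n} (hp : ¬ IsH S p) : 0 < tht S N R p := by
  obtain ⟨i, h0, -, h1, -⟩ := tht_good h.nr hp
  obtain ⟨hN, hR⟩ := chord_N6 h p
  have h2 : 0 ≤ i * N := mul_nonneg h0 (by linarith)
  linarith

theorem chord_nonneg (h : Good3 S N R) (p : Fl S.n) : 0 ≤ tht S N R p := by
  by_cases hp : IsH S p
  · rw [tht_H N R hp]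
  · exact (chord_pos h hp).le

theorem chord_isH (h : Good3 S N R) {p : Fl S.n} (hp : tht S N R p = 0) : IsH S p := by
  by_contra hn
  exact absurd hp (chord_pos h hn).ne'

/-- The parameters of the chord are admissible. -/
theorem prm (h : Good3 S N R) {p : Fl S.n} (hp : tht S N R p < tht S N R (S.M p)) :
    Prm N R (dep S N R p) (tht S N R p) (tht S N R (S.M p)) := by
  obtain ⟨hN, hR⟩ := chord_N6 h p
  have := S.fin
  have hc : (Nst S N R p).ncard ≤ Nat.card (Fl S.n) := Set.ncard_le_card _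
  have hcard := h.card
  have hc' : ((Nst S N R p).ncard : ℤ) ≤ (Nat.card (Fl S.n) : ℤ) := by exact_mod_cast hc
  refine ⟨?_, ?_, hN, ?_, ?_, hp⟩
  · unfold dep
    push_cast
    have : (0 : ℤ) ≤ ((Nst S N R p).ncard : ℤ) := Int.natCast_nonneg _
    linarith
  · unfold dep
    push_cast
    linarith
  · by_cases hH : IsH S p
    · exact Or.inl (tht_H N R hH)
    · exact Or.inr (tht_good h.nr hH)
  · refine tht_good h.nr fun hH => ?_
    have h1 := tht_H N R hH
    have h2 := chord_nonneg h p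
    rw [h1] at hp
    exact absurd hp (not_lt.2 h2)

theorem chord_Nst_congr {p q : Fl S.n} (he : edgV q.1.1 = edgV p.1.1)
    (hmin : min (tht S N R q) (tht S N R (S.M q)) = min (tht S N R p) (tht S N R (S.M p)))
    (hmax : max (tht S N R q) (tht S N R (S.M q)) = max (tht S N R p) (tht S N R (S.M p))) :
    Nst S N R q = Nst S N R p := by
  unfold Nst
  rw [he, hmin, hmax]

theorem dep_M (h : Good3 S N R) (p : Fl S.n) : dep S N R (S.M p) = dep S N R p := by
  unfold dep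
  rw [chord_Nst_congr (edgV_M h.sa p).1]
  · rw [S.MM, min_comm]
  · rw [S.MM, max_comm]

theorem dep_lt (h : Good3 S N R) {p q : Fl S.n} (hq : q ∈ Nst S N R p) :
    dep S N R q < dep S N R p := by
  have := S.fin
  unfold dep
  have hss : Nst S N R q ⊂ Nst S N R p := by
    refine ⟨?_, ?_⟩
    · rintro r ⟨h1, h2, h3⟩
      exact ⟨h1.trans hq.1, hq.2.1.trans h2, h3.trans hq.2.2⟩
    · intro hsub
      exact lt_irrefl _ (hsub hq).2.1
  have := Set.ncard_lt_ncard hss (Set.toFinite _)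
  omega

theorem chord_congr {p q : Fl S.n} (he : edgV q.1.1 = edgV p.1.1)
    (h1 : tht S N R q = tht S N R p) (h2 : tht S N R (S.M q) = tht S N R (S.M p)) :
    cpp S N R q = cpp S N R p := by
  have hd : dep S N R q = dep S N R p := by
    unfold dep
    rw [chord_Nst_congr he (by rw [h1, h2]) (by rw [h1, h2])]
  unfold cpp cp2
  rw [he, h1, h2, hd]

theorem cpp_a (h : Good3 S N R) (p : Fl S.n) : cpp S N R (S.hn.fa p) = cpp S N R p := by
  refine chord_congr (edgV_a (A := A) p.1.1) (tht_a N R p) ?_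
  rw [← S.aM, tht_a]

theorem cpp_c (h : Good3 S N R) (p : Fl S.n) : cpp S N R (S.hn.fc p) = cpp S N R p := by
  refine chord_congr (edgV_CD h.sa (TMap.CD.c A.attach p.1.1)).1.symm (tht_c N R p) ?_
  rw [← S.cM, tht_c]

/-- The chord is a ring, or a reversed ring. -/
theorem chord_cases (h : Good3 S N R) (p : Fl S.n) :
    ∃ (q : Fl S.n) (l : List P2), edgV q.1.1 = edgV p.1.1 ∧
      Prm N R (dep S N R q) (tht S N R q) (tht S N R (S.M q)) ∧
      IsRing N (dep S N R q) (tht S N R q) (tht S N R (S.M q)) (bty (edgV p.1.1).2) l ∧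
      ((q = p ∧ cp2 S N R p = l) ∨ (q = S.M p ∧ cp2 S N R p = l.reverse)) := by
  by_cases hlt : tht S N R p < tht S N R (S.M p)
  · refine ⟨p, _, rfl, prm h hlt, isRing_ring (prm h hlt) _, Or.inl ⟨rfl, ?_⟩⟩
    unfold cp2
    rw [if_pos hlt]
  · have hne := tht_M_ne h.sa h.gc.three h.nr h.good p
    have hlt' : tht S N R (S.M p) < tht S N R (S.M (S.M p)) := by
      rw [S.MM]
      exact lt_of_le_of_ne (not_lt.1 hlt) hne
    refine ⟨S.M p, _, (edgV_M h.sa p).1, prm h hlt', isRing_ring (prm h hlt') _, Or.inr ⟨rfl, ?_⟩⟩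
    unfold cp2
    rw [if_neg hlt, S.MM, dep_M h]

theorem chord_M2 (h : Good3 S N R) (p : Fl S.n) : cp2 S N R (S.M p) = (cp2 S N R p).reverse := by
  have hne := tht_M_ne h.sa h.gc.three h.nr h.good p
  unfold cp2
  rw [(edgV_M h.sa p).1, S.MM, dep_M h]
  by_cases hlt : tht S N R p < tht S N R (S.M p)
  · rw [if_pos hlt, if_neg (not_lt.2 hlt.le)]
  · have hlt' : tht S N R (S.M p) < tht S N R p := lt_of_le_of_ne (not_lt.1 hlt) hne
    rw [if_neg hlt, if_pos hlt', List.reverse_reverse]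

theorem cpp_M (h : Good3 S N R) (p : Fl S.n) : cpp S N R (S.M p) = (cpp S N R p).reverse := by
  unfold cpp
  rw [chord_M2 h, (edgV_M h.sa p).1, List.map_reverse]

/-- The point of a flag, in the plane. -/
theorem chord_ps (S : Carried A.attach) (N R : ℤ) (p : Fl S.n) : ps S N R p =
    emb N (edgV p.1.1).1 (edgV p.1.1).2 (st2 N (tht S N R p) (bty (edgV p.1.1).2)) := rfl

theorem chord_st2_gam {b : Bool} {θ : ℤ} (hθ : 0 < θ) : st2 N θ b = gam N θ := by
  unfold st2
  rw [if_neg hθ.ne']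

theorem chord_head2 (h : Good3 S N R) (p : Fl S.n) :
    (cp2 S N R p).head? = some (st2 N (tht S N R p) (bty (edgV p.1.1).2)) := by
  obtain ⟨q, l, he, hp, hr, ⟨rfl, hc⟩ | ⟨rfl, hc⟩⟩ := chord_cases h p
  · rw [hc, hr.head]
  · rw [hc, List.head?_reverse, hr.last, S.MM]
    have h1 : 0 < tht S N R p := by
      have h2 := hp.lt
      rw [S.MM] at h2
      exact lt_of_le_of_lt (chord_nonneg h _) h2
    rw [chord_st2_gam h1]

theorem cpp_head (h : Good3 S N R) (p : Fl S.n) :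
    (cpp S N R p).head? = some (ps S N R p) := by
  unfold cpp
  rw [List.head?_map, chord_head2 h, chord_ps]
  rfl

theorem chord_adj_symm {x y : P2} (h : Adj2 x y) : Adj2 y x := by
  unfold Adj2 at *
  omega

theorem chord_chain2 (h : Good3 S N R) (p : Fl S.n) : (cp2 S N R p).IsChain Adj2 := by
  obtain ⟨q, l, he, hp, hr, ⟨-, hc⟩ | ⟨-, hc⟩⟩ := chord_cases h p
  · rw [hc]
    exact hr.chain
  · rw [hc, List.isChain_reverse]
    exact hr.chain.imp fun _ _ h => chord_adj_symm h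

theorem cpp_chain (h : Good3 S N R) (p : Fl S.n) : (cpp S N R p).IsChain Adj := by
  unfold cpp
  exact List.isChain_map_of_isChain _ (fun _ _ h => adj_emb h) (chord_chain2 h p)

theorem chord_nodup2 (h : Good3 S N R) (p : Fl S.n) : (cp2 S N R p).Nodup := by
  obtain ⟨q, l, he, hp, hr, ⟨-, hc⟩ | ⟨-, hc⟩⟩ := chord_cases h p
  · rw [hc]
    exact hr.nodup
  · rw [hc, List.nodup_reverse]
    exact hr.nodup

theorem cpp_nodup (h : Good3 S N R) (p : Fl S.n) : (cpp S N R p).Nodup := by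
  unfold cpp
  exact (chord_nodup2 h p).map (emb_injective _ _ _)

theorem chord_len2 (h : Good3 S N R) (p : Fl S.n) : 3 ≤ (cp2 S N R p).length := by
  obtain ⟨q, l, he, hp, hr, ⟨-, hc⟩ | ⟨-, hc⟩⟩ := chord_cases h p
  · rw [hc]
    exact hr.len
  · rw [hc, List.length_reverse]
    exact hr.len

theorem cpp_len (h : Good3 S N R) (p : Fl S.n) : 3 ≤ (cpp S N R p).length := by
  unfold cpp
  rw [List.length_map]
  exact chord_len2 h p

/-- The points of a chord in the plane. -/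
theorem chord_mem2 (h : Good3 S N R) {p : Fl S.n} {y : P2} (hy : y ∈ cp2 S N R p) :
    ∃ q, (q = p ∨ q = S.M p) ∧ edgV q.1.1 = edgV p.1.1 ∧
      Prm N R (dep S N R q) (tht S N R q) (tht S N R (S.M q)) ∧
      InChord N (dep S N R q) (tht S N R q) (tht S N R (S.M q)) (bty (edgV p.1.1).2) y := by
  obtain ⟨q, l, he, hp, hr, ⟨hq, hc⟩ | ⟨hq, hc⟩⟩ := chord_cases h p
  · exact ⟨q, Or.inl hq, he, hp, (hr.mem y).1 (hc ▸ hy)⟩
  · refine ⟨q, Or.inr hq, he, hp, (hr.mem y).1 ?_⟩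
    rw [hc, List.mem_reverse] at hy
    exact hy

theorem chord_bd2 (h : Good3 S N R) {p : Fl S.n} {y : P2} (hy : y ∈ cp2 S N R p)
    (hb : Bd2 N y) : y = st2 N (tht S N R p) (bty (edgV p.1.1).2) ∨
      y = st2 N (tht S N R (S.M p)) (bty (edgV p.1.1).2) := by
  obtain ⟨q, hq, he, hp, hin⟩ := chord_mem2 h hy
  have h1 := inChord_bd hp hin hb
  have h2 : 0 < tht S N R (S.M q) := lt_of_le_of_lt (chord_nonneg h q) hp.lt
  rw [← chord_st2_gam (b := bty (edgV p.1.1).2) h2] at h1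
  rcases hq with rfl | rfl
  · exact h1
  · rw [S.MM] at h1
    exact h1.symm

theorem chord_last2 (h : Good3 S N R) (p : Fl S.n) :
    (cp2 S N R p).getLast? = some (st2 N (tht S N R (S.M p)) (bty (edgV p.1.1).2)) := by
  have h1 := chord_head2 h (S.M p)
  rw [chord_M2 h, List.head?_reverse, (edgV_M h.sa p).1] at h1
  exact h1

theorem chord_gam {θ : ℤ} (hR : 3 ≤ R) (hN : 2 * R ≤ N) (hg : GoodPos N R θ) :
    (R ≤ θ ∧ θ ≤ N - R ∧ gam N θ = (θ, 0)) ∨
      (R ≤ θ - N ∧ θ - N ≤ N - R ∧ gam N θ = (N, θ - N)) ∨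
      (R ≤ 3 * N - θ ∧ 3 * N - θ ≤ N - R ∧ gam N θ = (3 * N - θ, N)) ∨
      (R ≤ 4 * N - θ ∧ 4 * N - θ ≤ N - R ∧ gam N θ = (0, 4 * N - θ)) := by
  obtain ⟨i, h0, h3, h1, h2⟩ := hg
  have hi : i = 0 ∨ i = 1 ∨ i = 2 ∨ i = 3 := by omega
  unfold gam
  rcases hi with rfl | rfl | rfl | rfl
  · left
    refine ⟨by linarith, by linarith, ?_⟩
    rw [if_pos (by linarith)]
  · right; left
    refine ⟨by linarith, by linarith, ?_⟩
    rw [if_neg (by linarith), if_pos (by linarith)]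
  · right; right; left
    refine ⟨by linarith, by linarith, ?_⟩
    rw [if_neg (by linarith), if_neg (by linarith), if_pos (by linarith)]
  · right; right; right
    refine ⟨by linarith, by linarith, ?_⟩
    rw [if_neg (by linarith), if_neg (by linarith), if_neg (by linarith)]

theorem chord_not_corner {θ : ℤ} {b : Bool} (hR : 3 ≤ R) (hN : 2 * R ≤ N)
    (hg : θ = 0 ∨ GoodPos N R θ) :
    ¬ (((st2 N θ b).1 = 0 ∨ (st2 N θ b).1 = N) ∧ ((st2 N θ b).2 = 0 ∨ (st2 N θ b).2 = N)) := by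
  unfold st2
  split_ifs with h0
  · unfold hp2
    cases b
    · simp only [Bool.false_eq_true, if_false]
      omega
    · simp only [if_true]
      omega
  · rcases hg with hg | hg
    · exact absurd hg h0
    · rcases chord_gam hR hN hg with ⟨h1, h2, h3⟩ | ⟨h1, h2, h3⟩ | ⟨h1, h2, h3⟩ | ⟨h1, h2, h3⟩ <;>
        rw [h3] <;> simp only <;> omega

theorem chord_tht_ok (h : Good3 S N R) (p : Fl S.n) :
    tht S N R p = 0 ∨ GoodPos N R (tht S N R p) := by
  by_cases hH : IsH S p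
  · exact Or.inl (tht_H N R hH)
  · exact Or.inr (tht_good h.nr hH)

theorem chord_sq2 (h : Good3 S N R) {p : Fl S.n} {y : P2} (hy : y ∈ cp2 S N R p) : Sq2 N y := by
  obtain ⟨q, -, -, hp, hin⟩ := chord_mem2 h hy
  exact inChord_box hp hin

theorem cpp_bd (h : Good3 S N R) (p : Fl S.n) :
    OnBd (bxl N (vtV p.1.1)) (bxh N (vtV p.1.1)) (cpp S N R p) := by
  obtain ⟨hN, hR⟩ := chord_N6 h p
  unfold cpp
  refine emb_onBd (by linarith) (vtV_edgV p.1.1) (fun y hy => chord_sq2 h hy) ?_ ?_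
  · intro y hy hcorner
    have hb : Bd2 N y := by
      rcases hcorner.1 with h1 | h1
      · exact Or.inl h1
      · exact Or.inr (Or.inl h1)
    rcases chord_bd2 h hy hb with h1 | h1
    · rw [h1] at hcorner
      exact chord_not_corner hR hN (chord_tht_ok h p) hcorner
    · rw [h1] at hcorner
      exact chord_not_corner hR hN (chord_tht_ok h (S.M p)) hcorner
  · rw [List.isChain_iff_getElem]
    rintro i hi ⟨hb1, hb2⟩
    have hnd := chord_nodup2 h p
    have hlen := chord_len2 h p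
    have hhead := chord_head2 h p
    have hlast := chord_last2 h p
    rw [List.head?_eq_getElem?, List.getElem?_eq_getElem (by omega), Option.some.injEq] at hhead
    rw [List.getLast?_eq_getElem?, List.getElem?_eq_getElem (by omega), Option.some.injEq] at hlast
    have h1 := chord_bd2 h (List.getElem_mem (by omega : i < (cp2 S N R p).length)) hb1
    have h2 := chord_bd2 h (List.getElem_mem hi) hb2
    rw [← hhead, ← hlast] at h1 h2
    rw [hnd.getElem_inj_iff, hnd.getElem_inj_iff] at h1 h2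
    omega

theorem cpp_int (h : Good3 S N R) (p : Fl S.n) (v x : P3) (hx : x ∈ cpp S N R p) :
    ¬ InInt (bxl N v) (bxh N v) x := by
  obtain ⟨hN, hR⟩ := chord_N6 h p
  unfold cpp at hx
  obtain ⟨y, -, rfl⟩ := List.mem_map.1 hx
  exact emb_not_int (by linarith) _ _ _ _

theorem chord_ps_M (h : Good3 S N R) (p : Fl S.n) : ps S N R (S.M p) =
    emb N (edgV p.1.1).1 (edgV p.1.1).2 (st2 N (tht S N R (S.M p)) (bty (edgV p.1.1).2)) := by
  rw [chord_ps, (edgV_M h.sa p).1]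

/-- The points of a chord. -/
theorem mem_cpp (h : Good3 S N R) {p : Fl S.n} {x : P3} (hx : x ∈ cpp S N R p) :
    ∃ y, x = emb N (edgV p.1.1).1 (edgV p.1.1).2 y ∧ Sq2 N y ∧
      (Bd2 N y → x = ps S N R p ∨ x = ps S N R (S.M p)) ∧
      ((2 ≤ y.1 ∧ y.1 ≤ N - 2 ∧ 2 ≤ y.2 ∧ y.2 ≤ N - 2) ∨
        ((IsH S p ∨ IsH S (S.M p)) ∧ (y = hp2 (bty (edgV p.1.1).2) ∨ y = (1, 1) ∨ y = (2, 1))) ∨
        (∃ q, (q = p ∨ q = S.M p) ∧ ¬ IsH S q ∧
          (y = gam N (tht S N R q) ∨ y = clp N 1 (gam N (tht S N R q))))) := by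
  unfold cpp at hx
  obtain ⟨y, hy, rfl⟩ := List.mem_map.1 hx
  refine ⟨y, rfl, chord_sq2 h hy, ?_, ?_⟩
  · intro hb
    rw [chord_ps_M h, chord_ps]
    rcases chord_bd2 h hy hb with h1 | h1
    · left; rw [← h1]
    · right; rw [← h1]
  · obtain ⟨q, hq, he, hp, hin⟩ := chord_mem2 h hy
    have hq' : (S.M q = p ∨ S.M q = S.M p) := by
      rcases hq with rfl | rfl
      · exact Or.inr rfl
      · exact Or.inl (S.MM _)
    have hpos : 0 < tht S N R (S.M q) := lt_of_le_of_lt (chord_nonneg h q) hp.lt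
    rcases inChord_deep hp hin with h1 | ⟨h1, h2⟩ | ⟨θ, hθ, h2⟩
    · exact Or.inl h1
    · right; left
      refine ⟨?_, h2⟩
      rcases hq with rfl | rfl
      · exact Or.inl (chord_isH h h1)
      · exact Or.inr (chord_isH h h1)
    · right; right
      rcases hθ with ⟨rfl, h3⟩ | rfl
      · exact ⟨q, hq, fun hH => h3 (tht_H N R hH), h2⟩
      · exact ⟨S.M q, hq', fun hH => hpos.ne' (tht_H N R hH), h2⟩

theorem chord_orb_M (p : Fl S.n) : SameOrb [S.hn.fa, S.hn.fc, S.M] p (S.M p) :=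
  Relation.EqvGen.rel _ _ ⟨S.M, by simp, rfl⟩

theorem chord_orb_a (p : Fl S.n) : SameOrb [S.hn.fa, S.hn.fc, S.M] p (S.hn.fa p) :=
  Relation.EqvGen.rel _ _ ⟨S.hn.fa, by simp, rfl⟩

theorem chord_orb_c (p : Fl S.n) : SameOrb [S.hn.fa, S.hn.fc, S.M] p (S.hn.fc p) :=
  Relation.EqvGen.rel _ _ ⟨S.hn.fc, by simp, rfl⟩

theorem chord_orb_eq (h : Good3 S N R) {p q : Fl S.n} (he : edgV p.1.1 = edgV q.1.1)
    (ht : tht S N R p = tht S N R q) : SameOrb [S.hn.fa, S.hn.fc, S.M] p q := by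
  rcases tht_inj h.gc.three h.nr h.good he ht with rfl | rfl | rfl | rfl
  · exact Relation.EqvGen.refl _
  · exact chord_orb_a p
  · exact chord_orb_c p
  · exact Relation.EqvGen.trans _ _ _ (chord_orb_c p) (chord_orb_a _)

/-- Two chords in the same square which have a common point. -/
theorem chord_common (h : Good3 S N R) {b : Bool} {q q' : Fl S.n} {y : P2}
    (he : edgV q.1.1 = edgV q'.1.1)
    (hp : Prm N R (dep S N R q) (tht S N R q) (tht S N R (S.M q)))
    (hp' : Prm N R (dep S N R q') (tht S N R q') (tht S N R (S.M q')))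
    (hin : InChord N (dep S N R q) (tht S N R q) (tht S N R (S.M q)) b y)
    (hin' : InChord N (dep S N R q') (tht S N R q') (tht S N R (S.M q')) b y) :
    SameOrb [S.hn.fa, S.hn.fc, S.M] q q' := by
  have hM := (edgV_M h.sa q).1
  have hM' := (edgV_M h.sa q').1
  have hlt := hp.lt
  have hlt' := hp'.lt
  have sym : ∀ {u v : Fl S.n}, SameOrb [S.hn.fa, S.hn.fc, S.M] u v →
      SameOrb [S.hn.fa, S.hn.fc, S.M] v u := fun hh => Relation.EqvGen.symm _ _ hh
  have tr : ∀ {u v w : Fl S.n}, SameOrb [S.hn.fa, S.hn.fc, S.M] u v →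
      SameOrb [S.hn.fa, S.hn.fc, S.M] v w → SameOrb [S.hn.fa, S.hn.fc, S.M] u w :=
    fun h1 h2 => Relation.EqvGen.trans _ _ _ h1 h2
  by_cases e1 : tht S N R q = tht S N R q'
  · exact chord_orb_eq h he e1
  by_cases e2 : tht S N R q = tht S N R (S.M q')
  · exact tr (chord_orb_eq h (he.trans hM'.symm) e2) (sym (chord_orb_M q'))
  by_cases e3 : tht S N R (S.M q) = tht S N R q'
  · exact tr (chord_orb_M q) (chord_orb_eq h (hM.trans he) e3)
  by_cases e4 : tht S N R (S.M q) = tht S N R (S.M q')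
  · exact tr (chord_orb_M q) (tr (chord_orb_eq h (hM.trans (he.trans hM'.symm)) e4)
      (sym (chord_orb_M q')))
  exfalso
  rcases lt_or_gt_of_ne e1 with h1 | h1
  · -- q starts first
    rcases lt_or_gt_of_ne e3 with h3 | h3
    · exact inChord_disj hp hp' (Or.inr h3) hin hin'
    · have hn := nonx h.sa h.gc.three h.nr h.good he h1 h3
      have hd : q' ∈ Nst S N R q := by
        refine ⟨he.symm, ?_, ?_⟩
        · rw [min_eq_left hlt.le, min_eq_left hlt'.le]
          exact h1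
        · rw [max_eq_right hlt.le, max_eq_right hlt'.le]
          exact hn.2
      have hdl := dep_lt h hd
      exact inChord_disj hp hp' (Or.inl ⟨h1, hn.2, by exact_mod_cast hdl⟩) hin hin'
  · rcases lt_or_gt_of_ne e2 with h3 | h3
    · have hn := nonx h.sa h.gc.three h.nr h.good he.symm h1 h3
      have hd : q ∈ Nst S N R q' := by
        refine ⟨he, ?_, ?_⟩
        · rw [min_eq_left hlt.le, min_eq_left hlt'.le]
          exact h1
        · rw [max_eq_right hlt.le, max_eq_right hlt'.le]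
          exact hn.2
      have hdl := dep_lt h hd
      exact inChord_disj hp' hp (Or.inl ⟨h1, hn.2, by exact_mod_cast hdl⟩) hin' hin
    · exact inChord_disj hp' hp (Or.inr h3) hin' hin

theorem cpp_cpp (h : Good3 S N R) {p p' : Fl S.n} {x : P3} (hx : x ∈ cpp S N R p)
    (hx' : x ∈ cpp S N R p') :
    SameOrb [S.hn.fa, S.hn.fc, S.M] p p' ∨ x = ps S N R p ∨ x = ps S N R (S.M p) := by
  obtain ⟨hN, hR⟩ := chord_N6 h p
  by_cases he : edgV p.1.1 = edgV p'.1.1
  · left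
    unfold cpp at hx hx'
    obtain ⟨y, hy, rfl⟩ := List.mem_map.1 hx
    obtain ⟨y', hy', he'⟩ := List.mem_map.1 hx'
    rw [← he] at he'
    obtain rfl := emb_injective _ _ _ he'
    obtain ⟨q, hq, hqe, hp, hin⟩ := chord_mem2 h hy
    obtain ⟨q', hq', hqe', hp', hin'⟩ := chord_mem2 h hy'
    rw [← he] at hin'
    have hc := chord_common h (hqe.trans (he.trans hqe'.symm)) hp hp' hin hin'
    have h1 : SameOrb [S.hn.fa, S.hn.fc, S.M] p q := by
      rcases hq with rfl | rfl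
      · exact Relation.EqvGen.refl _
      · exact chord_orb_M p
    have h2 : SameOrb [S.hn.fa, S.hn.fc, S.M] p' q' := by
      rcases hq' with rfl | rfl
      · exact Relation.EqvGen.refl _
      · exact chord_orb_M p'
    exact Relation.EqvGen.trans _ _ _ h1 (Relation.EqvGen.trans _ _ _ hc
      (Relation.EqvGen.symm _ _ h2))
  · right
    obtain ⟨y, hy, hs, hb, -⟩ := mem_cpp h hx
    obtain ⟨y', hy', hs', -, -⟩ := mem_cpp h hx'
    have := emb_eq (by linarith : (2 : ℤ) ≤ N) hs hs' (hy.symm.trans hy') he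
    exact hb this.1

theorem chord_gam_bd {θ : ℤ} (hR : 3 ≤ R) (hN : 2 * R ≤ N) (hg : GoodPos N R θ) :
    Bd2 N (gam N θ) ∧ Sq2 N (gam N θ) := by
  unfold Bd2 Sq2
  rcases chord_gam hR hN hg with ⟨h1, h2, h3⟩ | ⟨h1, h2, h3⟩ | ⟨h1, h2, h3⟩ | ⟨h1, h2, h3⟩ <;>
    rw [h3] <;> dsimp only <;> omega

theorem cpp_ps (h : Good3 S N R) {p p' : Fl S.n} (hx : ps S N R p' ∈ cpp S N R p) :
    ps S N R p' = ps S N R p ∨ ps S N R p' = ps S N R (S.M p) := by
  obtain ⟨hN, hR⟩ := chord_N6 h p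
  obtain ⟨y, hy, hs, hb, hdeep⟩ := mem_cpp h hx
  by_cases hH : IsH S p'
  · have h0 := tht_H N R hH
    have hps : ps S N R p' = emb N (edgV p'.1.1).1 (edgV p'.1.1).2 (hp2 (bty (edgV p'.1.1).2)) := by
      rw [chord_ps, h0]
      unfold st2
      rw [if_pos rfl]
    have hsq : Sq2 N (hp2 (bty (edgV p'.1.1).2)) := by
      unfold Sq2 hp2
      split_ifs <;> simp only <;> omega
    by_cases he : edgV p.1.1 = edgV p'.1.1
    · rw [hy, ← he] at hps
      have hyy := emb_injective _ _ _ hps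
      rcases hdeep with h1 | ⟨h1, -⟩ | ⟨q, hq, hqH, h1⟩
      · exfalso
        rw [hyy] at h1
        unfold hp2 at h1
        split_ifs at h1 <;> simp only at h1 <;> omega
      · rcases h1 with h1 | h1
        · left
          rw [hy, chord_ps, tht_H N R h1, hyy]
          unfold st2
          rw [if_pos rfl]
        · right
          rw [hy, chord_ps_M h, tht_H N R h1, hyy]
          unfold st2
          rw [if_pos rfl]
      · exfalso
        rw [hyy] at h1
        have hg := tht_good h.nr hqH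
        unfold hp2 clp at h1
        rcases chord_gam hR hN hg with ⟨h2, h3, h4⟩ | ⟨h2, h3, h4⟩ | ⟨h2, h3, h4⟩ | ⟨h2, h3, h4⟩ <;>
          rw [h4] at h1 <;> split_ifs at h1 <;> simp only [Prod.mk.injEq] at h1 <;> omega
    · have := emb_eq (by linarith : (2 : ℤ) ≤ N) hs hsq (hy.symm.trans hps) he
      exact hb this.1
  · have hpos := chord_pos h hH
    have hg := tht_good h.nr hH
    have hps : ps S N R p' = emb N (edgV p'.1.1).1 (edgV p'.1.1).2 (gam N (tht S N R p')) := by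
      rw [chord_ps, chord_st2_gam hpos]
    obtain ⟨hbd, hsq⟩ := chord_gam_bd hR hN hg
    by_cases he : edgV p.1.1 = edgV p'.1.1
    · rw [hy, ← he] at hps
      have hyy := emb_injective _ _ _ hps
      rw [hyy] at hb
      exact hb hbd
    · have := emb_eq (by linarith : (2 : ℤ) ≤ N) hs hsq (hy.symm.trans hps) he
      exact hb this.1

theorem chord_box {p q y z : P2}
    (h1 : (p.1 = q.1 ∧ (q.2 = p.2 + 1 ∨ p.2 = q.2 + 1)) ∨ (p.2 = q.2 ∧ (q.1 = p.1 + 1 ∨ p.1 = q.1 + 1)))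
    (h2 : (q.1 = z.1 ∧ (z.2 = q.2 + 1 ∨ q.2 = z.2 + 1)) ∨ (q.2 = z.2 ∧ (z.1 = q.1 + 1 ∨ q.1 = z.1 + 1)))
    (h3 : (z.1 = y.1 ∧ (y.2 = z.2 + 1 ∨ z.2 = y.2 + 1)) ∨ (z.2 = y.2 ∧ (y.1 = z.1 + 1 ∨ z.1 = y.1 + 1)))
    (h4 : (y.1 = p.1 ∧ (p.2 = y.2 + 1 ∨ y.2 = p.2 + 1)) ∨ (y.2 = p.2 ∧ (p.1 = y.1 + 1 ∨ y.1 = p.1 + 1)))
    (h5 : p.1 ≠ z.1 ∨ p.2 ≠ z.2) (h6 : q.1 ≠ y.1 ∨ q.2 ≠ y.2)
    (h7 : 0 < y.1 ∧ y.1 < N ∧ 0 < y.2 ∧ y.2 < N) (h8 : 0 < z.1 ∧ z.1 < N ∧ 0 < z.2 ∧ z.2 < N)
    (h9 : 0 < p.1 ∧ p.1 < N ∧ 0 < p.2 ∧ p.2 < N)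
    (h10 : 2 ≤ q.1 ∧ q.1 ≤ N - 2 ∧ 2 ≤ q.2 ∧ q.2 ≤ N - 2) :
    Adj2 p q ∧ Adj2 q z ∧ Adj2 z y ∧ Adj2 y p ∧ p ≠ z ∧ q ≠ y ∧
      (0 < y.1 ∧ y.1 < N ∧ 0 < y.2 ∧ y.2 < N) ∧ (0 < z.1 ∧ z.1 < N ∧ 0 < z.2 ∧ z.2 < N) ∧
      (0 < p.1 ∧ p.1 < N ∧ 0 < p.2 ∧ p.2 < N) ∧
      (2 ≤ q.1 ∧ q.1 ≤ N - 2 ∧ 2 ≤ q.2 ∧ q.2 ≤ N - 2) := by
  refine ⟨h1, h2, h3, h4, ?_, ?_, h7, h8, h9, h10⟩
  · rintro rfl
    rcases h5 with h | h <;> exact h rfl
  · rintro rfl
    rcases h6 with h | h <;> exact h rfl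

/-- Neighbours of the points in the second and in the third layer. -/
theorem chord_layer {θ : ℤ} (hR : 3 ≤ R) (hN : 2 * R ≤ N) (hg : GoodPos N R θ) :
    ∃ y z : P2, Adj2 (clp N 1 (gam N θ)) (clp N 2 (gam N θ)) ∧ Adj2 (clp N 2 (gam N θ)) z ∧
      Adj2 z y ∧ Adj2 y (clp N 1 (gam N θ)) ∧ clp N 1 (gam N θ) ≠ z ∧ clp N 2 (gam N θ) ≠ y ∧
      (0 < y.1 ∧ y.1 < N ∧ 0 < y.2 ∧ y.2 < N) ∧ (0 < z.1 ∧ z.1 < N ∧ 0 < z.2 ∧ z.2 < N) ∧
      (0 < (clp N 1 (gam N θ)).1 ∧ (clp N 1 (gam N θ)).1 < N ∧ 0 < (clp N 1 (gam N θ)).2 ∧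
        (clp N 1 (gam N θ)).2 < N) ∧
      (2 ≤ (clp N 2 (gam N θ)).1 ∧ (clp N 2 (gam N θ)).1 ≤ N - 2 ∧ 2 ≤ (clp N 2 (gam N θ)).2 ∧
        (clp N 2 (gam N θ)).2 ≤ N - 2) := by
  rcases chord_gam hR hN hg with ⟨h2, h3, h4⟩ | ⟨h2, h3, h4⟩ | ⟨h2, h3, h4⟩ | ⟨h2, h3, h4⟩ <;> rw [h4]
  · have e1 : clp N 1 (θ, 0) = (θ, 1) := by
      unfold clp
      exact Prod.ext (by dsimp only; omega) (by dsimp only; omega)
    have e2 : clp N 2 (θ, 0) = (θ, 2) := by
      unfold clp
      exact Prod.ext (by dsimp only; omega) (by dsimp only; omega)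
    rw [e1, e2]
    exact ⟨(θ + 1, 1), (θ + 1, 2), chord_box (by dsimp only; omega) (by dsimp only; omega)
      (by dsimp only; omega) (by dsimp only; omega) (by dsimp only; omega) (by dsimp only; omega)
      (by dsimp only; omega) (by dsimp only; omega) (by dsimp only; omega) (by dsimp only; omega)⟩
  · have e1 : clp N 1 (N, θ - N) = (N - 1, θ - N) := by
      unfold clp
      exact Prod.ext (by dsimp only; omega) (by dsimp only; omega)
    have e2 : clp N 2 (N, θ - N) = (N - 2, θ - N) := by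
      unfold clp
      exact Prod.ext (by dsimp only; omega) (by dsimp only; omega)
    rw [e1, e2]
    exact ⟨(N - 1, θ - N + 1), (N - 2, θ - N + 1), chord_box (by dsimp only; omega)
      (by dsimp only; omega) (by dsimp only; omega) (by dsimp only; omega) (by dsimp only; omega)
      (by dsimp only; omega) (by dsimp only; omega) (by dsimp only; omega) (by dsimp only; omega)
      (by dsimp only; omega)⟩
  · have e1 : clp N 1 (3 * N - θ, N) = (3 * N - θ, N - 1) := by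
      unfold clp
      exact Prod.ext (by dsimp only; omega) (by dsimp only; omega)
    have e2 : clp N 2 (3 * N - θ, N) = (3 * N - θ, N - 2) := by
      unfold clp
      exact Prod.ext (by dsimp only; omega) (by dsimp only; omega)
    rw [e1, e2]
    exact ⟨(3 * N - θ + 1, N - 1), (3 * N - θ + 1, N - 2), chord_box (by dsimp only; omega)
      (by dsimp only; omega) (by dsimp only; omega) (by dsimp only; omega) (by dsimp only; omega)
      (by dsimp only; omega) (by dsimp only; omega) (by dsimp only; omega) (by dsimp only; omega)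
      (by dsimp only; omega)⟩
  · have e1 : clp N 1 (0, 4 * N - θ) = (1, 4 * N - θ) := by
      unfold clp
      exact Prod.ext (by dsimp only; omega) (by dsimp only; omega)
    have e2 : clp N 2 (0, 4 * N - θ) = (2, 4 * N - θ) := by
      unfold clp
      exact Prod.ext (by dsimp only; omega) (by dsimp only; omega)
    rw [e1, e2]
    exact ⟨(1, 4 * N - θ + 1), (2, 4 * N - θ + 1), chord_box (by dsimp only; omega)
      (by dsimp only; omega) (by dsimp only; omega) (by dsimp only; omega) (by dsimp only; omega)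
      (by dsimp only; omega) (by dsimp only; omega) (by dsimp only; omega) (by dsimp only; omega)
      (by dsimp only; omega)⟩

/-- The beginning of the chord which starts at the other end of a chord of the special face. -/
theorem cpp_start (h : Good3 S N R) : ∃ (p0 : Fl S.n) (x p q p' q' : P3) (l : List P3),
    cpp S N R p0 = x :: p :: q :: l ∧ IsSq p q q' p' ∧
    nex (bxl N (vtV p0.1.1)) (bxh N (vtV p0.1.1)) p' = 1 ∧
    nex (bxl N (vtV p0.1.1)) (bxh N (vtV p0.1.1)) q' = 1 ∧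
    nex (bxl N (vtV p0.1.1)) (bxh N (vtV p0.1.1)) p = 1 ∧
    nex (bxl N (vtV p0.1.1)) (bxh N (vtV p0.1.1)) q = 1 ∧
    InBox (bxl N (vtV p0.1.1)) (bxh N (vtV p0.1.1)) p' ∧
    InBox (bxl N (vtV p0.1.1)) (bxh N (vtV p0.1.1)) q' ∧ l ≠ [] := by
  have hn1 := n_inr h.good ((0, 0, 0) : Slots.HF m)
  let s : Fl S.n := ⟨(.inr (0, 0, 0), 0), by rw [hn1]; exact Nat.one_pos⟩
  obtain ⟨hN, hR⟩ := chord_N6 h s
  have hs : IsH S s := ⟨(0, 0, 0), rfl⟩
  have h0 : tht S N R s = 0 := tht_H N R hs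
  have hne := tht_M_ne h.sa h.gc.three h.nr h.good s
  have hpos : 0 < tht S N R (S.M s) := by
    rw [h0] at hne
    exact lt_of_le_of_ne (chord_nonneg h _) hne.symm
  have hlt : tht S N R s < tht S N R (S.M s) := by rw [h0]; exact hpos
  have hprm := prm h hlt
  have hring := isRing_ring hprm (bty (edgV s.1.1).2)
  obtain ⟨l', hl'⟩ := hring.rev
  have hc2 : cp2 S N R s =
      ring N (dep S N R s) (tht S N R s) (tht S N R (S.M s)) (bty (edgV s.1.1).2) := by
    unfold cp2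
    rw [if_pos hlt]
  have hcM : cpp S N R (S.M s) = ((gam N (tht S N R (S.M s)) :: clp N 1 (gam N (tht S N R (S.M s))) ::
      clp N 2 (gam N (tht S N R (S.M s))) :: l').map (emb N (edgV s.1.1).1 (edgV s.1.1).2)) := by
    rw [cpp_M h]
    unfold cpp
    rw [← List.map_reverse, hc2, hl']
  obtain ⟨y, z, a1, a2, a3, a4, a5, a6, hy, hz, hi1, hi2⟩ := chord_layer hR hN hprm.h2
  have hM := edgV_M h.sa s
  have hN2 : (2 : ℤ) ≤ N := by linarith
  have hv : vtV (S.M s).1.1 = (edgV s.1.1).1 ∨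
      vtV (S.M s).1.1 + e3 (edgV s.1.1).2 = (edgV s.1.1).1 := by
    rw [← hM.1]
    exact vtV_edgV _
  have hl'ne : l' ≠ [] := by
    rintro rfl
    have h1 := congrArg List.getLast? hl'
    rw [List.getLast?_reverse, hring.head, h0] at h1
    have h2 : st2 N 0 (bty (edgV s.1.1).2) = clp N 2 (gam N (tht S N R (S.M s))) := by
      simpa using h1
    rw [← h2] at hi2
    unfold st2 hp2 at hi2
    rw [if_pos rfl] at hi2
    split_ifs at hi2 <;> simp only at hi2 <;> omega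
  refine ⟨S.M s, _, _, _, emb N (edgV s.1.1).1 (edgV s.1.1).2 y,
    emb N (edgV s.1.1).1 (edgV s.1.1).2 z, _, hcM,
    ⟨adj_emb a1, adj_emb a2, adj_emb a3, adj_emb a4,
      fun e => a5 (emb_injective _ _ _ e), fun e => a6 (emb_injective _ _ _ e)⟩,
    (emb_sq hN2 hv hy).1, (emb_sq hN2 hv hz).1, (emb_sq hN2 hv hi1).1,
    (emb_sq hN2 hv (by omega)).1, (emb_sq hN2 hv hy).2, (emb_sq hN2 hv hz).2, ?_⟩
  intro e
  exact hl'ne (List.map_eq_nil_iff.1 e)

end Pool.Agent.Lib.MP_131179_gt.Dehn
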