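import Pool.Agent.Lib.MP_131179_gt.Dehn.Fine
import Pool.Agent.Lib.MP_131179_gt.Dehn.Chord

/-!
# The chords and the fine curve
-/

set_option autoImplicit false

namespace Pool.Agent.Lib.MP_131179_gt.Dehn

/-! ### The number of extremal coordinates -/

theorem ck_E (N x a : ℤ) : (N * x + a = N * x ∨ N * x + a = N * (x + 1)) ↔ (a = 0 ∨ a = N) := by
  rw [mul_add, mul_one]
  omega

theorem ck_nex (lo hi p : P3) : nex lo hi p = (if Ext lo hi p 0 then 1 else 0) +
    (if Ext lo hi p 1 then 1 else 0) + (if Ext lo hi p 2 then 1 else 0) := by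
  unfold nex
  rw [Finset.card_filter, Fin.sum_univ_three]

theorem ck_nexp (N x y z a b c : ℤ) :
    nex (bxl N (x, y, z)) (bxh N (x, y, z)) (N * x + a, N * y + b, N * z + c) =
      (if a = 0 ∨ a = N then 1 else 0) + (if b = 0 ∨ b = N then 1 else 0) +
        (if c = 0 ∨ c = N then 1 else 0) := by
  rw [ck_nex]
  congr 1
  · congr 1
    · exact if_congr (ck_E N x a) rfl rfl
    · exact if_congr (ck_E N y b) rfl rfl
  · exact if_congr (ck_E N z c) rfl rfl

/-- Some coordinate of a point of the fine curve is divisible by `N`. -/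
theorem ck_off0 {N : ℤ} {d : Dir} {a b c : ℤ} (h : fineOff N d a b c) :
    a = 0 ∨ c = 0 ∨ c = N := by
  rcases fine_cases d with rfl | rfl | rfl | rfl | rfl | rfl <;>
    simp [fineOff] at h <;> omega

/-- One of the first two coordinates of a point of the fine curve is `1` modulo `N`. -/
theorem ck_off1 {N : ℤ} {d : Dir} {a b c : ℤ} (h : fineOff N d a b c) : a = 1 ∨ b = 1 := by
  rcases fine_cases d with rfl | rfl | rfl | rfl | rfl | rfl <;>
    simp [fineOff] at h <;> omega

theorem ck_nex_Bp {N : ℕ} (hN : 3 ≤ N) (v : P3) : nex (bxl N v) (bxh N v) (Bp N v) = 1 := by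
  obtain ⟨x, y, z⟩ := v
  have h := ck_nexp N x y z 1 1 0
  have h1 : Bp N (x, y, z) = ((N : ℤ) * x + 1, (N : ℤ) * y + 1, (N : ℤ) * z + 0) := by
    simp [Bp]
  rw [h1, h]
  have : (3 : ℤ) ≤ N := by exact_mod_cast hN
  split_ifs <;> omega

theorem ck_gen {N : ℕ} (hN : 3 ≤ N) (v : P3) (d : Dir) : (half N v d).IsChain fun p q =>
    ¬ (nex (bxl N v) (bxh N v) p = 2 ∧ nex (bxl N v) (bxh N v) q = 2) := by
  have hB := ck_nex_Bp hN v
  have hN' : (3 : ℤ) ≤ N := by exact_mod_cast hN
  obtain ⟨x, y, z⟩ := v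
  rcases fine_cases d with rfl | rfl | rfl | rfl | rfl | rfl
  · rw [fine_half_0, List.isChain_iff_getElem]
    intro i hi
    rw [List.length_map, List.length_range] at hi
    have key : ∀ t : ℕ, Bp N (x, y, z) + ((t : ℤ), 0, 0) =
        ((N : ℤ) * x + (1 + t), (N : ℤ) * y + 1, (N : ℤ) * z + 0) := by
      intro t
      simp [Bp]
      ring
    simp only [List.getElem_map, List.getElem_range]
    rw [key, key, ck_nexp, ck_nexp]
    split_ifs <;> omega
  · rw [fine_half_1, List.isChain_iff_getElem]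
    intro i hi
    rw [List.length_map, List.length_range] at hi
    have key : ∀ t : ℕ, Bp N (x, y, z) + (0, (t : ℤ), 0) =
        ((N : ℤ) * x + 1, (N : ℤ) * y + (1 + t), (N : ℤ) * z + 0) := by
      intro t
      simp [Bp]
      ring
    simp only [List.getElem_map, List.getElem_range]
    rw [key, key, ck_nexp, ck_nexp]
    split_ifs <;> omega
  · rw [fine_half_2]
    rw [List.isChain_append, List.isChain_cons]
    refine ⟨⟨?_, ?_⟩, by simp, ?_⟩
    · intro y' _ hh
      rw [hB] at hh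
      omega
    · rw [List.isChain_iff_getElem]
      intro i hi
      rw [List.length_map, List.length_range] at hi
      have key : ∀ t : ℕ, Bp N (x, y, z) - e3 0 + (0, 0, (t : ℤ)) =
          ((N : ℤ) * x + 0, (N : ℤ) * y + 1, (N : ℤ) * z + t) := by
        intro t
        simp [Bp, e3]
      simp only [List.getElem_map, List.getElem_range]
      rw [key, key, ck_nexp, ck_nexp]
      split_ifs <;> omega
    · simp only [List.head?_cons, Option.mem_def, Option.some.injEq]
      rintro w - y' rfl ⟨-, h2⟩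
      have key : Bp N (x, y, z) + (0, 0, (N : ℤ)) =
          ((N : ℤ) * x + 1, (N : ℤ) * y + 1, (N : ℤ) * z + N) := by
        simp [Bp]
      rw [key, ck_nexp] at h2
      split_ifs at h2 <;> omega
  · rw [fine_half_0']
    simp only [List.isChain_cons_cons, List.isChain_singleton, and_true]
    rw [hB]
    omega
  · rw [fine_half_1']
    simp only [List.isChain_cons_cons, List.isChain_singleton, and_true]
    rw [hB]
    omega
  · rw [fine_half_2']
    simp

variable {m : ℕ} [NeZero m] {c : Curve m} {A : Slots (EK c.K) m} {S : Carried A.attach} {N : ℕ}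
  {R : ℤ}

omit [NeZero m] in
/-- The offsets of a point of the fine curve. -/
theorem ck_ep {i : ZMod m} {x : P3} (hx : x ∈ ep N c i) : ∃ (d : Dir) (a b e : ℤ), fineLeg c i d ∧
    x = (N * (c.v (i + 1)).1 + a, N * (c.v (i + 1)).2.1 + b, N * (c.v (i + 1)).2.2 + e) ∧
    fineOff N d a b e := by
  obtain ⟨d, hd, h⟩ := fine_mem_ep hx
  obtain ⟨a, b, e, h1, h2⟩ := fine_mem h
  exact ⟨d, a, b, e, hd, h1, h2⟩

/-- The paths of the fine curve are on the boundaries of the boxes. -/
theorem ep_bd (hc : GoodCurve c) (hN : 3 ≤ N) (i : ZMod m) :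
    OnBd (bxl N (c.v (i + 1))) (bxh N (c.v (i + 1))) (ep N c i) := by
  have hN' : (3 : ℤ) ≤ N := by exact_mod_cast hN
  have key : ∀ p ∈ ep N c i, InBox (bxl N (c.v (i + 1))) (bxh N (c.v (i + 1))) p ∧
      1 ≤ nex (bxl N (c.v (i + 1))) (bxh N (c.v (i + 1))) p ∧
      nex (bxl N (c.v (i + 1))) (bxh N (c.v (i + 1))) p ≤ 2 := by
    intro p hp
    obtain ⟨d, a, b, e, hd, rfl, h⟩ := ck_ep hp
    obtain ⟨ha, hb, he⟩ := fine_bound (by omega) h
    have h0 := ck_off0 h
    have h1 := ck_off1 h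
    generalize c.v (i + 1) = v
    obtain ⟨x, y, z⟩ := v
    refine ⟨?_, ?_, ?_⟩
    · intro j
      have hj : j = 0 ∨ j = 1 ∨ j = 2 := by
        revert j
        decide
      rcases hj with rfl | rfl | rfl
      · show (N : ℤ) * x ≤ N * x + a ∧ N * x + a ≤ N * (x + 1)
        rw [mul_add, mul_one]
        omega
      · show (N : ℤ) * y ≤ N * y + b ∧ N * y + b ≤ N * (y + 1)
        rw [mul_add, mul_one]
        omega
      · show (N : ℤ) * z ≤ N * z + e ∧ N * z + e ≤ N * (z + 1)
        rw [mul_add, mul_one]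
        omega
    · rw [ck_nexp]
      split_ifs <;> omega
    · rw [ck_nexp]
      split_ifs <;> omega
  refine ⟨fun p hp => (key p hp).1, fun p hp => (key p hp).2.1, fun p hp => (key p hp).2.2, ?_⟩
  rw [fine_ep_eq (by omega) i, List.isChain_append]
  refine ⟨?_, ?_, ?_⟩
  · rw [List.isChain_reverse]
    have h := ck_gen hN (c.v (i + 1)) (c.dir i).neg
    exact h.tail.imp fun p q h h' => h ⟨h'.2, h'.1⟩
  · rw [← fine_cons (by omega)]
    exact ck_gen hN (c.v (i + 1)) (c.dir (i + 1))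
  · simp only [List.head?_cons, Option.mem_def, Option.some.injEq]
    rintro w - y' rfl ⟨-, h2⟩
    rw [ck_nex_Bp hN] at h2
    omega

theorem ck_int {N x w a : ℤ} (hN : 1 ≤ N) (h1 : N * x < N * w + a) (h2 : N * w + a < N * (x + 1))
    (ha : a = 0 ∨ a = N) : False := by
  rcases ha with ha | ha
  · rw [ha, add_zero] at h1 h2
    have h3 := lt_of_mul_lt_mul_left h1 (by omega)
    have h4 := lt_of_mul_lt_mul_left h2 (by omega)
    omega
  · have h5 : N * w + N = N * (w + 1) := by ring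
    rw [ha, h5] at h1 h2
    have h3 := lt_of_mul_lt_mul_left h1 (by omega)
    have h4 := lt_of_mul_lt_mul_left h2 (by omega)
    omega

theorem ep_int (hc : GoodCurve c) (hN : 3 ≤ N) (i : ZMod m) (v x : P3) (hx : x ∈ ep N c i) :
    ¬ InInt (bxl N v) (bxh N v) x := by
  have hN' : (3 : ℤ) ≤ N := by exact_mod_cast hN
  obtain ⟨d, a, b, e, hd, rfl, h⟩ := ck_ep hx
  intro hi
  rcases ck_off0 h with h0 | h0
  · exact ck_int (by omega) (hi 0).1 (hi 0).2 (Or.inl h0)
  · exact ck_int (by omega) (hi 2).1 (hi 2).2 h0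

theorem ck_gam {N R θ : ℤ} (hR : 3 ≤ R) (hN : 2 * R ≤ N) (h : GoodPos N R θ) : θ ≠ 0 ∧
    ((((gam N θ).1 = 0 ∨ (gam N θ).1 = N) ∧ R ≤ (gam N θ).2 ∧ (gam N θ).2 ≤ N - R) ∨
      (((gam N θ).2 = 0 ∨ (gam N θ).2 = N) ∧ R ≤ (gam N θ).1 ∧ (gam N θ).1 ≤ N - R)) := by
  obtain ⟨i, h0, h3, h1, h2⟩ := h
  have hi : i = 0 ∨ i = 1 ∨ i = 2 ∨ i = 3 := by omega
  unfold gam
  rcases hi with rfl | rfl | rfl | rfl
  · refine ⟨by omega, ?_⟩
    rw [if_pos (by omega)]
    right
    dsimp only
    omega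
  · refine ⟨by omega, ?_⟩
    rw [if_neg (by omega), if_pos (by omega)]
    left
    dsimp only
    omega
  · refine ⟨by omega, ?_⟩
    rw [if_neg (by omega), if_neg (by omega), if_pos (by omega)]
    right
    dsimp only
    omega
  · refine ⟨by omega, ?_⟩
    rw [if_neg (by omega), if_neg (by omega), if_neg (by omega)]
    left
    dsimp only
    omega

/-- The residue `1`. -/
theorem ck_one {N p q r : ℤ} (hN : 3 ≤ N) (h : N * p + 1 = N * q + r) (h0 : 0 ≤ r) (h1 : r ≤ N) :
    p = q ∧ r = 1 := by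
  rcases fine_arith (by omega) h (by omega) (by omega) h0 h1 with h2 | h2 | h2 <;> omega

/-- The coordinates of the points of a square. -/
theorem ck_emb (N : ℤ) (u : P3) (a : Fin 3) (y : P2) :
    (a = 0 ∧ emb N u a y = (N * u.1 + 0, N * u.2.1 + y.1, N * u.2.2 + y.2)) ∨
    (a = 1 ∧ emb N u a y = (N * u.1 + y.1, N * u.2.1 + 0, N * u.2.2 + y.2)) ∨
    (a = 2 ∧ emb N u a y = (N * u.1 + y.1, N * u.2.1 + y.2, N * u.2.2 + 0)) := by
  have ha : a = 0 ∨ a = 1 ∨ a = 2 := by
    revert a
    decide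
  rcases ha with rfl | rfl | rfl
  · left
    refine ⟨rfl, ?_⟩
    show (N * u.1, N * u.2.1 + y.1, N * u.2.2 + y.2) = _
    rw [add_zero]
  · right; left
    refine ⟨rfl, ?_⟩
    show (N * u.1 + y.1, N * u.2.1, N * u.2.2 + y.2) = _
    rw [add_zero]
  · right; right
    refine ⟨rfl, ?_⟩
    show (N * u.1 + y.1, N * u.2.1 + y.2, N * u.2.2) = _
    rw [add_zero]

/-- A point of the fine curve in a square: one of the coordinates is `1`. -/
theorem ck_sq (hN : 3 ≤ N) {i : ZMod m} {u : P3} {a : Fin 3} {y : P2} (hy : Sq2 N y)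
    (hx : emb N u a y ∈ ep N c i) : y.1 = 1 ∨ y.2 = 1 := by
  have hN' : (3 : ℤ) ≤ N := by exact_mod_cast hN
  obtain ⟨d, a', b', e', hd, he, h⟩ := ck_ep hx
  obtain ⟨h1, h2, h3, h4⟩ := hy
  have ho := ck_off1 h
  rcases ck_emb N u a y with ⟨-, h5⟩ | ⟨-, h5⟩ | ⟨-, h5⟩
  · rw [h5, Prod.mk.injEq, Prod.mk.injEq] at he
    obtain ⟨e1, e2, e3⟩ := he
    rcases ho with rfl | rfl
    · have := (ck_one hN' e1.symm le_rfl (by omega)).2
      omega
    · exact Or.inl (ck_one hN' e2.symm h1 h2).2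
  · rw [h5, Prod.mk.injEq, Prod.mk.injEq] at he
    obtain ⟨e1, e2, e3⟩ := he
    rcases ho with rfl | rfl
    · exact Or.inl (ck_one hN' e1.symm h1 h2).2
    · have := (ck_one hN' e2.symm le_rfl (by omega)).2
      omega
  · rw [h5, Prod.mk.injEq, Prod.mk.injEq] at he
    obtain ⟨e1, e2, e3⟩ := he
    rcases ho with rfl | rfl
    · exact Or.inl (ck_one hN' e1.symm h1 h2).2
    · exact Or.inr (ck_one hN' e2.symm h3 h4).2

theorem ck_NR (h : NR S N R) (p : Fl S.n) : 3 ≤ R ∧ 2 * R ≤ N ∧ 3 ≤ N := by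
  have h1 := h.hR
  have h2 := h.hN p.1.1
  omega

theorem ep_ps (h : Good3 S N R) {p : Fl S.n} (hp : ¬ IsH S p) (i : ZMod m) :
    ps S N R p ∉ ep N c i := by
  obtain ⟨hR, hRN, hN⟩ := ck_NR h.nr p
  obtain ⟨h0, h1⟩ := ck_gam hR hRN (tht_good h.nr hp)
  intro hx
  unfold ps at hx
  have h2 : st2 N (tht S N R p) (bty (edgV p.1.1).2) = gam N (tht S N R p) := if_neg h0
  rw [h2] at hx
  have h3 : Sq2 N (gam N (tht S N R p)) := by
    unfold Sq2
    omega
  have h4 := ck_sq hN h3 hx
  omega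

/-- The leg of the curve at a vertex. -/
theorem ck_leg (hc : GoodCurve c) {i : ZMod m} {d : Dir} :
    CLeg c.K (c.v (i + 1)) d ↔ fineLeg c i d := by
  rw [coarse_leg hc.three (i + 1) d, add_sub_cancel_right]
  exact or_comm

theorem ck_d2 : ∀ (a : Fin 3) (d : Dir), a ≠ d.1 → d = ((oth a).2, false) ∨ d = ((oth a).1, true) ∨
    d = ((oth a).2, true) ∨ d = ((oth a).1, false) := by
  decide

/-- The points of depth one at the end of a chord. -/
theorem ck_clp {N R n k : ℤ} (x : LF) (hR : 3 ≤ R) (hN : 2 * R + n ≤ N) (hk : 0 ≤ k) (hn : k < n) :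
    ∃ t, 3 ≤ t ∧ t ≤ N - 3 ∧
      ((d2 x = ((oth (d1 x).1).2, false) ∧ clp N 1 (gam N (thp N R x n k)) = (t, 1)) ∨
      (d2 x = ((oth (d1 x).1).1, true) ∧ clp N 1 (gam N (thp N R x n k)) = (N - 1, t)) ∨
      (d2 x = ((oth (d1 x).1).2, true) ∧ clp N 1 (gam N (thp N R x n k)) = (t, N - 1)) ∨
      (d2 x = ((oth (d1 x).1).1, false) ∧ clp N 1 (gam N (thp N R x n k)) = (1, t))) := by
  obtain ⟨t, ht, ht1, ht2⟩ : ∃ t, t = R + (if (d3 x).2 then n - 1 - k else k) ∧ R ≤ t ∧
      t ≤ N - R := by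
    refine ⟨_, rfl, ?_, ?_⟩ <;> split_ifs <;> omega
  have hclp : ∀ p : P2, clp N 1 p = (max 1 (min (N - 1) p.1), max 1 (min (N - 1) p.2)) :=
    fun p => rfl
  refine ⟨t, by omega, by omega, ?_⟩
  unfold thp
  simp only []
  rw [← ht]
  rcases ck_d2 (d1 x).1 (d2 x) x.2.2.1 with h | h | h | h
  · left
    refine ⟨h, ?_⟩
    rw [if_pos h]
    unfold gam
    rw [if_pos (by omega), hclp, Prod.mk.injEq]
    dsimp only
    omega
  · right; left
    refine ⟨h, ?_⟩
    rw [if_neg (by rw [h]; exact fun h' => Bool.noConfusion (congrArg Prod.snd h')), if_pos h]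
    unfold gam
    rw [if_neg (by omega), if_pos (by omega), hclp, Prod.mk.injEq]
    dsimp only
    omega
  · right; right; left
    refine ⟨h, ?_⟩
    have hne : (oth (d1 x).1).2 ≠ (oth (d1 x).1).1 := by
      generalize (d1 x).1 = a
      revert a
      decide
    rw [if_neg (by rw [h]; exact fun h' => Bool.noConfusion (congrArg Prod.snd h')),
      if_neg (by rw [h]; exact fun h' => hne (congrArg Prod.fst h')), if_pos h]
    unfold gam
    rw [if_neg (by omega), if_neg (by omega), if_pos (by omega), hclp, Prod.mk.injEq]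
    dsimp only
    omega
  · right; right; right
    refine ⟨h, ?_⟩
    have hne : (oth (d1 x).1).1 ≠ (oth (d1 x).1).2 := by
      generalize (d1 x).1 = a
      revert a
      decide
    rw [if_neg (by rw [h]; exact fun h' => hne (congrArg Prod.fst h')),
      if_neg (by rw [h]; exact fun h' => Bool.noConfusion (congrArg Prod.snd h')),
      if_neg (by rw [h]; exact fun h' => Bool.noConfusion (congrArg Prod.snd h'))]
    unfold gam
    rw [if_neg (by omega), if_neg (by omega), if_neg (by omega), hclp, Prod.mk.injEq]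
    dsimp only
    omega

theorem ck_d3 : ∀ a b e : Fin 3, a ≠ b → a ≠ e → b ≠ e →
    (a = 0 → b = 1 → e = 2) ∧ (a = 2 → b = 1 → e = 0) ∧ (a = 2 → b = 0 → e = 1) := by
  decide

/-- The square next to the edge is not pierced. -/
theorem ck_pc {K : Finset LE} {x : LF} (hx : ¬ pc K x) {b : Fin 3} (h2 : d2 x = (b, false)) :
    ((edgL x).1, (d3 x).1) ∉ K := by
  intro h
  apply hx
  have h1 : upc x = (edgL x).1 := by
    show x.1 + pv (d1 x) + pv (d2 x) = x.1 + pv (d1 x)
    rw [h2]
    show x.1 + pv (d1 x) + 0 = _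
    rw [add_zero]
  unfold pc
  rw [h1]
  exact h

/-- The offsets in the interior of a leg. -/
theorem ck_off2 {N : ℤ} {d : Dir} {a b e : ℤ} (h : fineOff N d a b e) :
    (0 < e → e < N → d = (2, true) ∧ a = 0 ∧ b = 1) ∧
    (1 < a → a < N → d = (0, true) ∧ b = 1 ∧ e = 0) ∧
    (1 < b → b < N → d = (1, true) ∧ a = 1 ∧ e = 0) := by
  rcases fine_cases d with rfl | rfl | rfl | rfl | rfl | rfl <;>
    simp [fineOff] at h ⊢ <;> omega

/-- Equal coordinates with residues which are not `0`. -/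
theorem ck_res {N p q r s : ℤ} (hN : 3 ≤ N) (h : N * p + r = N * q + s) (h0 : 0 ≤ r) (h1 : r ≤ N)
    (h2 : 0 ≤ s) (h3 : s < N) (h4 : 0 < s ∨ r = 0) : p = q ∧ r = s := by
  rcases fine_arith (by omega) h h0 h1 h2 h3.le with h5 | h5 | h5 <;> omega

theorem ck_point {u w : P3} (h1 : w.1 = u.1) (h2 : w.2.1 = u.2.1) (h3 : w.2.2 = u.2.2) : w = u :=
  Prod.ext h1 (Prod.ext h2 h3)

/-- The points of depth one at the ends of the chords are not on the fine curve. -/
theorem ck_C (hc : GoodCurve c) {n k : ℤ} {x : LF} (hx : ¬ pc c.K x) (hR : 3 ≤ R)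
    (hN : 2 * R + n ≤ N) (hk : 0 ≤ k) (hn : k < n) {i : ZMod m} :
    emb N (edgL x).1 (edgL x).2 (clp N 1 (gam N (thp N R x n k))) ∉ ep N c i := by
  intro hi
  obtain ⟨t, ht1, ht2, ht⟩ := ck_clp x hR hN hk hn
  obtain ⟨d, a', b', e', hd, he, h⟩ := ck_ep hi
  obtain ⟨ba, bb, be⟩ := fine_bound (by omega) h
  have ho1 := ck_off1 h
  obtain ⟨o1, o2, o3⟩ := ck_off2 h
  have hN3 : (3 : ℤ) ≤ N := by omega
  have hleg := (ck_leg hc).2 hd
  have h21 := x.2.2.1
  have h31 := x.2.2.2.1
  have h32 := x.2.2.2.2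
  change (d1 x).1 ≠ (d2 x).1 at h21
  change (d1 x).1 ≠ (d3 x).1 at h31
  change (d2 x).1 ≠ (d3 x).1 at h32
  obtain ⟨k1, k2, k3⟩ := ck_d3 _ _ _ h21 h31 h32
  have hb : ∀ b, d2 x = (b, false) → ((edgL x).1, (d3 x).1) ∉ c.K := fun b => ck_pc hx
  have ha : (edgL x).2 = (d1 x).1 := rfl
  generalize (edgL x).1 = u at *
  rw [ha] at he
  generalize clp N 1 (gam N (thp N R x n k)) = y at *
  rcases ck_emb N u (d1 x).1 y with ⟨ha', h5⟩ | ⟨ha', h5⟩ | ⟨ha', h5⟩
  · rw [h5, Prod.mk.injEq, Prod.mk.injEq] at he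
    obtain ⟨e1, e2, e3'⟩ := he
    rw [ha'] at ht
    rcases ho1 with rfl | rfl
    · have := (ck_one hN3 e1.symm le_rfl (by omega)).2
      omega
    · rcases ht with ⟨g1, rfl⟩ | ⟨g1, rfl⟩ | ⟨g1, rfl⟩ | ⟨g1, rfl⟩
      · have := (ck_one hN3 e2.symm (by dsimp only; omega) (by dsimp only; omega)).2
        dsimp only at this
        omega
      · have := (ck_one hN3 e2.symm (by dsimp only; omega) (by dsimp only; omega)).2
        dsimp only at this
        omega
      · have := (ck_one hN3 e2.symm (by dsimp only; omega) (by dsimp only; omega)).2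
        dsimp only at this
        omega
      · dsimp only at e2 e3'
        have f3 := ck_res hN3 e3'.symm be.1 be.2 (by omega) (by omega) (Or.inl (by omega))
        obtain ⟨q1, q2, q3⟩ := o1 (by omega) (by omega)
        subst q1
        have f1 := ck_res hN3 e1.symm ba.1 ba.2 (by omega) (by omega) (Or.inr q2)
        have f2 := ck_res hN3 e2.symm bb.1 bb.2 (by omega) (by omega) (Or.inl (by omega))
        have hv := ck_point f1.1 f2.1 f3.1
        rw [hv] at hleg
        have hd3 : (d3 x).1 = 2 := k1 ha' (by rw [g1]; rfl)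
        have hq := hb _ g1
        rw [hd3] at hq
        exact hq hleg
  · rw [h5, Prod.mk.injEq, Prod.mk.injEq] at he
    obtain ⟨e1, e2, e3'⟩ := he
    rw [ha'] at ht
    rcases ho1 with rfl | rfl
    · rcases ht with ⟨g1, rfl⟩ | ⟨g1, rfl⟩ | ⟨g1, rfl⟩ | ⟨g1, rfl⟩
      · have := (ck_one hN3 e1.symm (by dsimp only; omega) (by dsimp only; omega)).2
        dsimp only at this
        omega
      · have := (ck_one hN3 e1.symm (by dsimp only; omega) (by dsimp only; omega)).2
        dsimp only at this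
        omega
      · have := (ck_one hN3 e1.symm (by dsimp only; omega) (by dsimp only; omega)).2
        dsimp only at this
        omega
      · dsimp only at e1 e3'
        have f3 := ck_res hN3 e3'.symm be.1 be.2 (by omega) (by omega) (Or.inl (by omega))
        obtain ⟨q1, q2, q3⟩ := o1 (by omega) (by omega)
        omega
    · have := (ck_one hN3 e2.symm le_rfl (by omega)).2
      omega
  · rw [h5, Prod.mk.injEq, Prod.mk.injEq] at he
    obtain ⟨e1, e2, e3'⟩ := he
    rw [ha'] at ht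
    rcases ht with ⟨g1, rfl⟩ | ⟨g1, rfl⟩ | ⟨g1, rfl⟩ | ⟨g1, rfl⟩
    · dsimp only at e1 e2
      have f1 := ck_res hN3 e1.symm ba.1 ba.2 (by omega) (by omega) (Or.inl (by omega))
      obtain ⟨q1, q2, q3⟩ := o2 (by omega) (by omega)
      subst q1
      have f2 := ck_res hN3 e2.symm bb.1 bb.2 (by omega) (by omega) (Or.inl (by omega))
      have f3 := ck_res hN3 e3'.symm be.1 be.2 (by omega) (by omega) (Or.inr q3)
      have hv := ck_point f1.1 f2.1 f3.1
      rw [hv] at hleg
      have hd3 : (d3 x).1 = 0 := k2 ha' (by rw [g1]; rfl)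
      have hq := hb _ g1
      rw [hd3] at hq
      exact hq hleg
    · dsimp only at e1 e2
      rcases ho1 with rfl | rfl
      · have := (ck_one hN3 e1.symm (by omega) (by omega)).2
        omega
      · have := (ck_one hN3 e2.symm (by omega) (by omega)).2
        omega
    · dsimp only at e1 e2
      rcases ho1 with rfl | rfl
      · have := (ck_one hN3 e1.symm (by omega) (by omega)).2
        omega
      · have := (ck_one hN3 e2.symm (by omega) (by omega)).2
        omega
    · dsimp only at e1 e2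
      have f2 := ck_res hN3 e2.symm bb.1 bb.2 (by omega) (by omega) (Or.inl (by omega))
      obtain ⟨q1, q2, q3⟩ := o3 (by omega) (by omega)
      subst q1
      have f1 := ck_res hN3 e1.symm ba.1 ba.2 (by omega) (by omega) (Or.inl (by omega))
      have f3 := ck_res hN3 e3'.symm be.1 be.2 (by omega) (by omega) (Or.inr q3)
      have hv := ck_point f1.1 f2.1 f3.1
      rw [hv] at hleg
      have hd3 : (d3 x).1 = 1 := k3 ha' (by rw [g1]; rfl)
      have hq := hb _ g1
      rw [hd3] at hq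
      exact hq hleg

/-- The leg at the upper end of an edge of the curve. -/
theorem ck_low (hc : GoodCurve c) {i j : ZMod m} {a : Fin 3} (ha : (c.edge j).2 = a)
    (hv : c.v (i + 1) = (c.edge j).1 + e3 (c.edge j).2) : fineLeg c i (a, false) := by
  rw [← ck_leg hc]
  show (c.v (i + 1) - e3 a, a) ∈ c.K
  rw [hv, ha, add_sub_cancel_right, ← ha]
  exact c.mem_K.2 ⟨j, rfl⟩

/-- The points of the special chord near the special point. -/
theorem ck_B (hc : GoodCurve c) (hN : 6 ≤ N) {i j : ZMod m} {y : P2} (hy : y = (1, 1) ∨ y = (2, 1))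
    (hx : emb N ((c.edge j).1 + e3 (c.edge j).2) (c.edge j).2 y ∈ ep N c i) :
    (c.edge j).2 = 2 ∧ y = (1, 1) := by
  obtain ⟨d, a', b', e', hd, he, h⟩ := ck_ep hx
  have hN' : (6 : ℤ) ≤ N := by exact_mod_cast hN
  have hN3 : (3 : ℤ) ≤ N := by omega
  obtain ⟨ba, bb, be⟩ := fine_bound (by omega) h
  have ho1 := ck_off1 h
  obtain ⟨o1, o2, o3⟩ := ck_off2 h
  have hlow := fun a (ha : (c.edge j).2 = a) hv => ck_low (i := i) (j := j) hc ha hv
  generalize (c.edge j).1 + e3 (c.edge j).2 = u at *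
  have hy1 : 1 ≤ y.1 ∧ y.1 ≤ 2 ∧ y.2 = 1 := by
    rcases hy with rfl | rfl <;> norm_num
  rcases ck_emb N u (c.edge j).2 y with ⟨ha', h5⟩ | ⟨ha', h5⟩ | ⟨ha', h5⟩
  · exfalso
    rw [h5, Prod.mk.injEq, Prod.mk.injEq] at he
    obtain ⟨e1, e2, e3'⟩ := he
    have f3 := ck_res hN3 e3'.symm be.1 be.2 (by omega) (by omega) (Or.inl (by omega))
    obtain ⟨q1, q2, q3⟩ := o1 (by omega) (by omega)
    have f1 := ck_res hN3 e1.symm ba.1 ba.2 (by omega) (by omega) (Or.inr q2)
    have f2 := ck_res hN3 e2.symm bb.1 bb.2 (by omega) (by omega) (Or.inl (by omega))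
    have hv := ck_point f1.1 f2.1 f3.1
    subst q1
    have := fine_hor hc hd (hlow 0 ha' hv) (by decide) (by decide)
    exact absurd this (by decide)
  · exfalso
    rw [h5, Prod.mk.injEq, Prod.mk.injEq] at he
    obtain ⟨e1, e2, e3'⟩ := he
    have f3 := ck_res hN3 e3'.symm be.1 be.2 (by omega) (by omega) (Or.inl (by omega))
    obtain ⟨q1, q2, q3⟩ := o1 (by omega) (by omega)
    have f1 := ck_res hN3 e1.symm ba.1 ba.2 (by omega) (by omega) (Or.inl (by omega))
    omega
  · refine ⟨ha', ?_⟩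
    rcases hy with hy | hy
    · exact hy
    · exfalso
      rw [h5, Prod.mk.injEq, Prod.mk.injEq] at he
      obtain ⟨e1, e2, e3'⟩ := he
      rw [hy] at e1 e2
      dsimp only at e1 e2
      have f1 := ck_res hN3 e1.symm ba.1 ba.2 (by omega) (by omega) (Or.inl (by omega))
      obtain ⟨q1, q2, q3⟩ := o2 (by omega) (by omega)
      have f2 := ck_res hN3 e2.symm bb.1 bb.2 (by omega) (by omega) (Or.inl (by omega))
      have f3 := ck_res hN3 e3'.symm be.1 be.2 (by omega) (by omega) (Or.inr q3)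
      have hv := ck_point f1.1 f2.1 f3.1
      subst q1
      have := fine_hor hc hd (hlow 2 ha' hv) (by decide) (by decide)
      exact absurd this (by decide)

/-- The chords meet the fine curve only in the special points. -/
theorem cpp_ep (h : Good3 S N R) {p : Fl S.n} {i : ZMod m} {x : P3} (hx : x ∈ cpp S N R p)
    (hx' : x ∈ ep N c i) : (x = ps S N R p ∨ x = ps S N R (S.M p)) ∧
      (x = hpt N (c.edge i) ∨ x = hpt N (c.edge (i + 1))) := by
  obtain ⟨hR, hRN, hN⟩ := ck_NR h.nr p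
  have hN6 : 6 ≤ N := by omega
  have hM := edgV_M h.sa p
  have claim1 : x = ps S N R p ∨ x = ps S N R (S.M p) := by
    obtain ⟨y, rfl, hsq, hbd, hcase⟩ := mem_cpp h hx
    -- the points of `ps`
    have hps : ∀ q, (q = p ∨ q = S.M p) → y = st2 N (tht S N R q) (bty (edgV p.1.1).2) →
        emb N (edgV p.1.1).1 (edgV p.1.1).2 y = ps S N R p ∨
          emb N (edgV p.1.1).1 (edgV p.1.1).2 y = ps S N R (S.M p) := by
      rintro q (rfl | rfl) rfl
      · exact Or.inl rfl
      · right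
        unfold ps
        rw [hM.1]
    rcases hcase with hA | ⟨hB, hB'⟩ | ⟨q, hq, hqH, hC⟩
    · exfalso
      have := ck_sq hN hsq hx'
      omega
    · obtain ⟨q, hq, qq, hqq⟩ : ∃ q, (q = p ∨ q = S.M p) ∧ ∃ qq, q.1.1 = .inr qq := by
        rcases hB with hB | hB
        · exact ⟨p, Or.inl rfl, hB⟩
        · exact ⟨S.M p, Or.inr rfl, hB⟩
      have hed : edgV p.1.1 = ((c.edge qq.1).1 + e3 (c.edge qq.1).2, (c.edge qq.1).2) := by
        have h1 : edgV q.1.1 = edgV p.1.1 := by
          rcases hq with rfl | rfl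
          · rfl
          · exact hM.1
        rw [← h1, hqq]
        rfl
      have hst : st2 N (tht S N R q) (bty (edgV p.1.1).2) = hp2 (bty (edgV p.1.1).2) := by
        rw [tht_H N R ⟨qq, hqq⟩]
        rfl
      rcases hB' with hB' | hB'
      · exact hps q hq (by rw [hst, hB'])
      · rw [hed] at hx'
        have h2 := ck_B h.gc hN6 hB' hx'
        apply hps q hq
        rw [hst, hed]
        show y = hp2 (bty (c.edge qq.1).2)
        rw [h2.1, h2.2]
        rfl
    · rcases hC with hC | hC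
      · apply hps q hq
        rw [hC]
        have h0 := (ck_gam hR hRN (tht_good h.nr hqH)).1
        exact (if_neg h0).symm
      · exfalso
        have h1 : edgV q.1.1 = edgV p.1.1 := by
          rcases hq with rfl | rfl
          · rfl
          · exact hM.1
        obtain ⟨⟨qv, k⟩, hk⟩ := q
        rcases qv with xx | qq
        · have h2 : edgV (Sum.inl xx : VF c) = edgL xx.1 := rfl
          change edgV (Sum.inl xx : VF c) = _ at h1
          rw [← h1, h2, hC] at hx'
          refine ck_C h.gc xx.2 hR (h.nr.hN (.inl xx)) (Int.natCast_nonneg k) ?_ hx'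
          exact_mod_cast hk
        · exact hqH ⟨qq, rfl⟩
  refine ⟨claim1, ?_⟩
  have key : ∀ q, x = ps S N R q → x = hpt N (c.edge i) ∨ x = hpt N (c.edge (i + 1)) := by
    rintro q rfl
    by_cases hq : IsH S q
    · obtain ⟨qq, hqq⟩ := hq
      rw [ps_H hqq] at hx' ⊢
      rcases ep_hpt h.gc hN hx' with h1 | h1
      · exact Or.inl (by rw [h1])
      · exact Or.inr (by rw [h1])
    · exact absurd hx' (ep_ps h hq i)
  rcases claim1 with h1 | h1
  · exact key _ h1
  · exact key _ h1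

end Pool.Agent.Lib.MP_131179_gt.Dehn
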