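import Pool.Agent.Lib.MP_131179_gt.Dehn.Good

/-!
# A sphere has two sides
-/

set_option autoImplicit false

namespace Pool.Agent.Lib.MP_131179_gt.Dehn

variable {Φ : Type} {V : TMap Φ} {S : Carried V} {h : Φ}

private theorem cofn_en {x y : Φ} (hxy : V.CD x y) : V.en x = V.en y := by
  unfold TMap.CD SameOrb at hxy
  induction hxy with
  | rel x y h =>
    obtain ⟨f, hf, rfl⟩ := h
    simp only [List.mem_cons, List.not_mem_nil, or_false] at hf
    rcases hf with rfl | rfl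
    · exact (V.enc x).symm
    · exact (V.end' x).symm
  | refl x => rfl
  | symm x y _ ih => exact ih.symm
  | trans x y z _ _ ih1 ih2 => exact ih1.trans ih2

private theorem cofn_aMne (p : Fl S.n) : S.hn.fa (S.M p) ≠ p := by
  intro e
  have h1 : V.en (S.hn.fa (S.M p)).1.1 = V.en (S.M p).1.1 + 1 := V.ena _
  rw [e, ← cofn_en (S.cdM p)] at h1
  generalize V.en p.1.1 = u at h1
  revert u
  decide

private theorem cofn_four {x y z w : Fl S.n → Fl S.n} {g : Fl S.n → F2} :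
    g ∈ Inv [x, y, z, w] ↔ (∀ v, g (x v) = g v) ∧ (∀ v, g (y v) = g v) ∧ (∀ v, g (z v) = g v) ∧
      ∀ v, g (w v) = g v := by
  simp only [mem_Inv, List.mem_cons, List.not_mem_nil, or_false, forall_eq_or_imp, forall_eq]

private theorem cofn_fpf {f : Fl S.n → Fl S.n} (hf : ∀ p, f (f p) = p)
    (hs : ∀ p, V.sg (f p).1.1 = V.sg p.1.1 + 1) : FPF f :=
  linAlg_fpf_of_flip (sg := fun p : Fl S.n => V.sg p.1.1) hf hs

private theorem cofn_one (hS : S.IsGood h) : haveI := S.fin;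
    orb [S.hn.fc, S.hn.fa, S.hn.fb, S.M] = 1 := by
  have := S.fin
  have : Nonempty (Fl S.n) := ⟨⟨(h, 0), by rw [hS.h0]; exact one_pos⟩⟩
  rw [orb_eq_one_iff]
  intro g hg
  rw [cofn_four] at hg
  exact hS.conn g (cofn_four.2 ⟨hg.2.1, hg.2.2.1, hg.1, hg.2.2.2⟩)

private theorem cofn_comm : ∀ f ∈ [S.hn.fa, S.hn.fb, S.M], ∀ v, f (S.hn.fc v) = S.hn.fc (f v) := by
  intro f hf v
  simp only [List.mem_cons, List.not_mem_nil, or_false] at hf
  rcases hf with rfl | rfl | rfl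
  · exact (TMap.infl S.hn).ac v
  · exact (TMap.infl S.hn).bc v
  · exact (S.cM v).symm

private theorem cofn_two (hS : S.IsGood h) : haveI := S.fin;
    orb [S.hn.fa, S.hn.fb, S.M] = 2 := by
  have := S.fin
  have := Fintype.ofFinite (Fl S.n)
  have h1 := orb_le_double (TMap.infl S.hn).cc (cofn_comm (S := S))
  have h2 : orb [(TMap.infl S.hn).c, S.hn.fa, S.hn.fb, S.M] = 1 := cofn_one hS
  have h3 := euler_le (x := S.hn.fa) (y := S.hn.fb) (z := S.M)
    (cofn_fpf (TMap.infl S.hn).aa (TMap.infl S.hn).sga)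
    (cofn_fpf (TMap.infl S.hn).bb (TMap.infl S.hn).sgb)
    (cofn_fpf S.MM S.sgM) cofn_aMne S.aM
  have h4 := hS.sph
  rw [Nat.card_eq_fintype_card] at h4
  have h5 : orb [S.hn.fa, S.hn.fb, S.M] ≤ 2 * orb [(TMap.infl S.hn).c, S.hn.fa, S.hn.fb, S.M] := h1
  omega

/-- The side function. -/
theorem Carried.IsGood.exists_co (hS : S.IsGood h) : ∃ co : Fl S.n → F2,
    (∀ p, co (S.hn.fa p) = co p) ∧ (∀ p, co (S.hn.fb p) = co p) ∧ (∀ p, co (S.M p) = co p) ∧
      ∀ p, co (S.hn.fc p) = co p + 1 := by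
  have := S.fin
  have : Nonempty (Fl S.n) := ⟨⟨(h, 0), by rw [hS.h0]; exact one_pos⟩⟩
  obtain ⟨co, h1, h2⟩ := exists_flip (TMap.infl S.hn).cc (cofn_comm (S := S)) (cofn_one hS)
    (cofn_two hS).ge
  rw [linAlg_mem_triple] at h1
  exact ⟨co, h1.1, h1.2.1, h1.2.2, h2⟩

theorem Carried.IsGood.M_ne_c (hS : S.IsGood h) (p : Fl S.n) : S.M p ≠ S.hn.fc p := by
  obtain ⟨co, -, -, h3, h4⟩ := hS.exists_co
  intro e
  have h5 := h4 p
  rw [← e, h3] at h5
  generalize co p = u at h5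
  revert u
  decide

/-- Exactness: every even set of edges is a boundary. -/
theorem Carried.IsGood.exact (hS : S.IsGood h) {κ : Fl S.n → F2}
    (ha : ∀ p, κ (S.hn.fa p) = κ p) (hc : ∀ p, κ (S.hn.fc p) = κ p) (hM : ∀ p, κ (S.M p) = κ p)
    (hev : haveI := S.fin; haveI := Fintype.ofFinite (Fl S.n); ∀ g : Fl S.n → F2,
      (∀ p, g (S.hn.fa p) = g p) → (∀ p, g (S.hn.fb p) = g p) →
        ∑ p ∈ Finset.univ.filter (fun p : Fl S.n => V.sg p.1.1 = 1), κ p * g p = 0) :
    ∃ G : Fl S.n → F2, (∀ p, G (S.hn.fb p) = G p) ∧ (∀ p, G (S.hn.fc p) = G p) ∧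
      (∀ p, G (S.M p) = G p) ∧ ∀ p, G p + G (S.hn.fa p) = κ p := by
  have := S.fin
  let _ := Fintype.ofFinite (Fl S.n)
  have hex : Ex S.hn.fa S.hn.fb S.M (fun p : Fl S.n => V.sg p.1.1) := by
    refine (ex_iff (x := S.hn.fa) (y := S.hn.fb) (z := S.M) (TMap.infl S.hn).aa
      (TMap.infl S.hn).bb S.MM (TMap.infl S.hn).sga (TMap.infl S.hn).sgb S.sgM cofn_aMne
      S.aM).1 ?_
    have h4 := hS.sph
    rw [Nat.card_eq_fintype_card] at h4
    rw [cofn_two hS]
    omega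
  obtain ⟨G, hG1, hG2, hG3⟩ := hex κ ha hM hev
  have add_self : ∀ u : F2, u + u = 0 := by decide
  have hGa : ∀ v, G (S.hn.fa v) = G v + κ v := by
    intro v
    rw [← hG3 v, ← add_assoc, add_self, zero_add]
  have hac : ∀ v, S.hn.fa (S.hn.fc v) = S.hn.fc (S.hn.fa v) := (TMap.infl S.hn).ac
  have hbc : ∀ v, S.hn.fb (S.hn.fc v) = S.hn.fc (S.hn.fb v) := (TMap.infl S.hn).bc
  have hcc : ∀ v, S.hn.fc (S.hn.fc v) = v := (TMap.infl S.hn).cc
  have hconst : ∀ v w, G v + G (S.hn.fc v) = G w + G (S.hn.fc w) := by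
    refine hS.conn (fun v => G v + G (S.hn.fc v)) (cofn_four.2 ⟨?_, ?_, ?_, ?_⟩)
    · intro v
      show G (S.hn.fa v) + G (S.hn.fc (S.hn.fa v)) = G v + G (S.hn.fc v)
      rw [← hac, hGa, hGa, hc]
      generalize G v = u1
      generalize G (S.hn.fc v) = u2
      generalize κ v = u3
      revert u1 u2 u3
      decide
    · intro v
      show G (S.hn.fb v) + G (S.hn.fc (S.hn.fb v)) = G v + G (S.hn.fc v)
      rw [← hbc, hG1, hG1]
    · intro v
      show G (S.hn.fc v) + G (S.hn.fc (S.hn.fc v)) = G v + G (S.hn.fc v)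
      rw [hcc, add_comm]
    · intro v
      show G (S.M v) + G (S.hn.fc (S.M v)) = G v + G (S.hn.fc v)
      rw [S.cM, hG2, hG2]
  let p0 : Fl S.n := ⟨(h, 0), by rw [hS.h0]; exact one_pos⟩
  have two : ∀ u : F2, u = 0 ∨ u = 1 := by decide
  rcases two (G p0 + G (S.hn.fc p0)) with h0 | h0
  · refine ⟨G, hG1, fun p => ?_, hG2, hG3⟩
    have h1 := hconst p p0
    rw [h0] at h1
    revert h1
    generalize G p = u1
    generalize G (S.hn.fc p) = u2
    revert u1 u2
    decide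
  · obtain ⟨co, c1, c2, c3, c4⟩ := hS.exists_co
    refine ⟨fun p => G p + co p, fun p => ?_, fun p => ?_, fun p => ?_, fun p => ?_⟩
    · show G (S.hn.fb p) + co (S.hn.fb p) = G p + co p
      rw [hG1, c2]
    · show G (S.hn.fc p) + co (S.hn.fc p) = G p + co p
      have h1 := hconst p p0
      rw [h0] at h1
      rw [c4]
      revert h1
      generalize G p = u1
      generalize G (S.hn.fc p) = u2
      generalize co p = u3
      revert u1 u2 u3
      decide
    · show G (S.M p) + co (S.M p) = G p + co p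
      rw [hG2, c3]
    · show G p + co p + (G (S.hn.fa p) + co (S.hn.fa p)) = κ p
      rw [c1, hGa]
      generalize G p = u1
      generalize κ p = u2
      generalize co p = u3
      revert u1 u2 u3
      decide

end Pool.Agent.Lib.MP_131179_gt.Dehn
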