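import Pool.Agent.Lib.MP_131179_gt.Dehn.Choice

/-!
# Counting: the new surface consists of spheres
-/

set_option autoImplicit false

namespace Pool.Agent.Lib.MP_131179_gt.Dehn

/-- `orb` only depends on the set of maps. -/
theorem countom_perm {Φ : Type} {s s' : List (Φ → Φ)} (h : ∀ f, f ∈ s ↔ f ∈ s') :
    orb s = orb s' :=
  orb_congr_inv fun _ => ⟨fun hg f hf x => hg f ((h f).2 hf) x,
    fun hg f hf x => hg f ((h f).1 hf) x⟩

/-- Orbits of two maps on a disjoint union. -/
theorem countom_orb_sum {X Y : Type} [Finite X] [Finite Y] (g1 g2 : X → X) (h1 h2 : Y → Y) :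
    orb [Sum.map g1 h1, Sum.map g2 h2] = orb [g1, g2] + orb [h1, h2] := by
  unfold orb
  rw [← Module.finrank_prod]
  apply LinearEquiv.finrank_eq
  exact
    { toFun := fun f => (⟨fun x => f.1 (Sum.inl x), by
        intro g hg x
        simp only [List.mem_cons, List.not_mem_nil, or_false] at hg
        rcases hg with rfl | rfl
        · exact f.2 (Sum.map g h1) (by simp) (Sum.inl x)
        · exact f.2 (Sum.map g h2) (by simp) (Sum.inl x)⟩, ⟨fun y => f.1 (Sum.inr y), by
        intro g hg x
        simp only [List.mem_cons, List.not_mem_nil, or_false] at hg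
        rcases hg with rfl | rfl
        · exact f.2 (Sum.map g1 g) (by simp) (Sum.inr x)
        · exact f.2 (Sum.map g2 g) (by simp) (Sum.inr x)⟩)
      map_add' := fun f g => rfl
      map_smul' := fun a f => rfl
      invFun := fun p => ⟨Sum.elim p.1.1 p.2.1, by
        intro g hg x
        simp only [List.mem_cons, List.not_mem_nil, or_false] at hg
        rcases hg with rfl | rfl
        · rcases x with x | y
          · exact p.1.2 g1 (by simp) x
          · exact p.2.2 h1 (by simp) y
        · rcases x with x | y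
          · exact p.1.2 g2 (by simp) x
          · exact p.2.2 h2 (by simp) y⟩
      left_inv := fun f => by
        apply Subtype.ext
        funext x
        rcases x with x | y <;> rfl
      right_inv := fun p => rfl }

theorem countom_F2_flip (t : F2) : t + 1 = 0 ↔ ¬ t = 0 := by
  revert t; decide

theorem countom_F2_ne (t : F2) : t + 1 ≠ t := by
  revert t; decide

namespace Imm

variable {Ψ : Type} {I : Imm Ψ}

/-- `a` on the points. -/
def countom_a (I : Imm Ψ) (x : I.Pt) : I.Pt := ⟨I.a x.1, (I.coa x.1).trans x.2⟩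

/-- `b` on the points. -/
def countom_b (I : Imm Ψ) (x : I.Pt) : I.Pt := ⟨I.b x.1, (I.cob x.1).trans x.2⟩

/-- `M` on the points. -/
def countom_M (I : Imm Ψ) (x : I.Pt) : I.Pt := ⟨I.M x.1, (I.coM x.1).trans x.2⟩

theorem countom_co_c (x : Ψ) : I.co (I.c x) = 0 ↔ ¬ I.co x = 0 := by
  rw [I.coc]; exact countom_F2_flip _

theorem countom_card_pt [Finite Ψ] : 2 * Nat.card I.Pt = Nat.card Ψ := by
  have e1 : Nat.card Ψ = Nat.card {x : Ψ // I.co x = 0} + Nat.card {x : Ψ // ¬ I.co x = 0} := by
    classical
    rw [← Nat.card_sum]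
    exact (Nat.card_congr (Equiv.sumCompl (fun x : Ψ => I.co x = 0))).symm
  have e2 : Nat.card {x : Ψ // I.co x = 0} = Nat.card {x : Ψ // ¬ I.co x = 0} := by
    refine Nat.card_congr
      { toFun := fun x => ⟨I.c x.1, fun h => (countom_co_c x.1).1 h x.2⟩
        invFun := fun x => ⟨I.c x.1, (countom_co_c x.1).2 x.2⟩
        left_inv := fun x => Subtype.ext (I.cc x.1)
        right_inv := fun x => Subtype.ext (I.cc x.1) }
  have e3 : Nat.card I.Pt = Nat.card {x : Ψ // I.co x = 0} := rfl
  omega

/-- Passing from the points with sides to the points. -/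
theorem countom_half [Finite Ψ] {f g : Ψ → Ψ} (f' g' : I.Pt → I.Pt)
    (hf : ∀ x, f (I.c x) = I.c (f x)) (hg : ∀ x, g (I.c x) = I.c (g x))
    (hf' : ∀ x, (f' x).1 = f x.1) (hg' : ∀ x, (g' x).1 = g x.1)
    (cf : ∀ x, I.co (f x) = I.co x) (cg : ∀ x, I.co (g x) = I.co x) :
    orb [f, g] = 2 * orb [f', g'] := by
  have hs : ∀ k ∈ [f, g], ∀ v, k (I.c v) = I.c (k v) := by
    intro k hk v
    simp only [List.mem_cons, List.not_mem_nil, or_false] at hk
    rcases hk with rfl | rfl
    · exact hf v
    · exact hg v
  have hG : I.co ∈ Inv [f, g] := by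
    intro k hk v
    simp only [List.mem_cons, List.not_mem_nil, or_false] at hk
    rcases hk with rfl | rfl
    · exact cf v
    · exact cg v
  rw [orb_double I.cc hs hG I.coc]
  congr 1
  exact orb_transversal (p := fun x => I.co x = 0) I.cc countom_co_c hs
    (List.Forall₂.cons hf' (List.Forall₂.cons hg' List.Forall₂.nil))

theorem countom_F [Finite Ψ] : orb [I.a, I.b] = 2 * orb [I.countom_a, I.countom_b] :=
  countom_half _ _ I.ac I.bc (fun _ => rfl) (fun _ => rfl) I.coa I.cob

theorem countom_Bpt [Finite Ψ] : orb [I.b, I.M] = 2 * orb [I.countom_b, I.countom_M] :=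
  countom_half _ _ I.bc (fun x => (I.cM x).symm) (fun _ => rfl) (fun _ => rfl) I.cob I.coM

/-- The point at the start of a piece of a chord. -/
def countom_root (ω : I.Om) : I.Pt := Sum.elim id (fun ω => ⟨ω.1.1, ω.2.cox⟩) ω

theorem countom_root_rel [Finite Ψ] {ω ω' : I.Om} (h : BRel ω ω') :
    countom_root ω' = countom_root ω ∨ countom_root ω' = I.countom_M (countom_root ω) := by
  cases h with
  | free x hx hx' h => exact Or.inr rfl
  | first x y hx h hmin => exact Or.inl rfl
  | first' x y hx h hmin => exact Or.inl rfl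
  | adj x y z hy hz h hadj hMz => exact Or.inr rfl

/-- The closed curves of the surface, on the level of `Om`. -/
theorem countom_B [Finite Ψ] : orb [I.β, bt o] = orb [I.countom_b, I.countom_M] := by
  unfold orb
  apply LinearEquiv.finrank_eq
  exact
    { toFun := fun f => ⟨fun x => f.1 (Sum.inl x), by
        intro g hg x
        simp only [List.mem_cons, List.not_mem_nil, or_false] at hg
        rcases hg with rfl | rfl
        · exact f.2 (bt o) (by simp) (Sum.inl x)
        · exact chord_const' (g := f.1) (fun ω => f.2 I.β (by simp) ω)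
            (fun ω => f.2 (bt o) (by simp) (Sum.inr ω)) x.2⟩
      map_add' := fun f g => rfl
      map_smul' := fun a f => rfl
      invFun := fun h => ⟨fun ω => h.1 (countom_root ω), by
        intro g hg ω
        simp only [List.mem_cons, List.not_mem_nil, or_false] at hg
        rcases hg with rfl | rfl
        · rcases countom_root_rel (β_rel ω) with e | e
          · show h.1 (countom_root (I.β ω)) = h.1 (countom_root ω)
            rw [e]
          · show h.1 (countom_root (I.β ω)) = h.1 (countom_root ω)
            rw [e]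
            exact h.2 I.countom_M (by simp) _
        · rcases ω with x | ω
          · exact h.2 I.countom_b (by simp) x
          · exact h.2 I.countom_M (by simp) (countom_root (Sum.inr ω))⟩
      left_inv := fun f => by
        apply Subtype.ext
        funext ω
        rcases ω with x | ω
        · rfl
        · exact (chord_const (g := f.1) (fun ω => f.2 I.β (by simp) ω)
            (fun ω => f.2 (bt o) (by simp) (Sum.inr ω)) ω.2).symm
      right_inv := fun h => rfl }

theorem countom_fpf_β [Finite Ψ] : FPF I.β := ⟨β_β, β_ne⟩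

theorem countom_fpf_b [Finite Ψ] : FPF I.countom_b :=
  ⟨fun x => Subtype.ext (I.bb x.1), fun x h => I.toTMap.b_ne x.1 (congrArg Subtype.val h)⟩

theorem countom_fpf_bt [Finite Ψ] {t : I.A → I.A} (ht : FPF t) : FPF (bt t) := by
  refine ⟨?_, ?_⟩
  · rintro (x | ω)
    · exact congrArg Sum.inl (countom_fpf_b.inv x)
    · exact congrArg Sum.inr (ht.inv ω)
  · rintro (x | ω) h
    · exact countom_fpf_b.ne x (Sum.inl.inj h)
    · exact ht.ne ω (Sum.inr.inj h)

theorem countom_fpf_sig [Finite Ψ] {π : I.A → I.A} {ch : I.A → F2} (h : IsChoice π ch) :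
    FPF (sig ch) := by
  refine ⟨sig_sig h, fun ω e => ?_⟩
  have := col_sig ch ω
  rw [e] at this
  exact countom_F2_ne _ this.symm

theorem countom_fpf_eps [Finite Ψ] : FPF (eps (I := I)) := by
  refine ⟨eps_eps, fun ω e => ?_⟩
  have h1 : I.en (eps ω).1.1 = I.en ω.1.1 + 1 := I.ena ω.1.1
  rw [e] at h1
  exact countom_F2_ne _ h1.symm

theorem countom_oen_am [Finite Ψ] (ω : I.Om) : oen (am ω) = oen ω + 1 := by
  rcases ω with x | ω
  · exact I.ena x.1
  · exact I.ena ω.1.1

theorem countom_fpf_am [Finite Ψ] : FPF (am (I := I)) := by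
  refine ⟨?_, fun ω e => ?_⟩
  · rintro (x | ω)
    · exact congrArg Sum.inl (Subtype.ext (I.aa x.1))
    · exact congrArg Sum.inr (eps_eps ω)
  · have h1 := countom_oen_am ω
    rw [e] at h1
    exact countom_F2_ne _ h1.symm

/-- Euler's equality for the new surface (on the level of `Om`). -/
theorem count_om [Fintype Ψ] (hI : I.IsSphere) {π : I.A → I.A} (hπ : IsPi I π) {ch : I.A → F2}
    (hch : IsChoice π ch)
    (hc : ∀ g ∈ Inv [I.β, bt π, am, bt (sig ch)], ∀ ω ω', g ω = g ω') :
    4 * (orb [am, bt (sig ch)] + orb [I.β, bt (sig ch)]) =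
      Nat.card I.Om + 8 * orb [I.β, bt (sig ch), am] := by
  classical
  haveI : Fintype I.Om := Fintype.ofFinite _
  haveI : Fintype I.A := Fintype.ofFinite _
  haveI : Fintype I.Pt := Fintype.ofFinite _
  -- cardinalities
  have cOm : Nat.card I.Om = Nat.card I.Pt + Nat.card I.A := Nat.card_sum
  have cΨ : 2 * Nat.card I.Pt = Nat.card Ψ := countom_card_pt
  have hne : Nonempty I.Om := by
    by_contra hcon
    have hΨ : IsEmpty Ψ := ⟨fun x => hcon (by
      by_cases hx : I.co x = 0
      · exact ⟨Sum.inl ⟨x, hx⟩⟩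
      · exact ⟨Sum.inl ⟨I.c x, (countom_co_c x).2 hx⟩⟩)⟩
    have h1 := hI.sph
    have h2 := orb_le_card [I.a, I.b]
    have h3 := orb_le_card [I.b, I.M]
    have h4 : Fintype.card Ψ = 0 := Fintype.card_eq_zero
    omega
  -- the old surface
  have v1 := hI.sph
  rw [countom_F, countom_Bpt, ← Nat.card_eq_fintype_card] at v1
  have vB : orb [I.β, bt o] = orb [I.countom_b, I.countom_M] := countom_B
  have hi := hπ.orb
  -- fixed point free involutions
  have fσ : FPF (sig ch) := countom_fpf_sig hch
  have fπ : FPF π := ⟨hπ.inv, hπ.ne⟩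
  have f1 : FPF I.β := countom_fpf_β
  have f2 : FPF (bt π) := countom_fpf_bt fπ
  have f3 : FPF (bt (sig ch)) := countom_fpf_bt fσ
  have f4 : FPF (am (I := I)) := countom_fpf_am
  have hii := gem_ineq f1 f2 f3
  rw [← Nat.card_eq_fintype_card] at hii
  -- `π` and `σ`
  have hiii : orb [bt π, bt (sig ch)] = orb [I.countom_b, I.countom_b] + orb [π, sig ch] :=
    countom_orb_sum I.countom_b I.countom_b π (sig ch)
  have hb : 2 * orb [I.countom_b, I.countom_b] = Nat.card I.Pt := by
    rw [Nat.card_eq_fintype_card, ← orb_single (countom_fpf_b (I := I))]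
    congr 1
    exact countom_perm (by simp)
  have hA1 : 4 * orb [π, sig ch] = Nat.card I.A := by
    rw [Nat.card_eq_fintype_card]
    refine orb_klein fπ fσ (fun v e => ?_) (fun v => (sig_π hπ hch v).symm)
    have h1 := hπ.col (sig ch v)
    rw [e, col_sig] at h1
    exact countom_F2_ne _ h1.symm
  -- `ε` and `σ`
  have hvi : orb [am, bt (sig ch)] = orb [I.countom_a, I.countom_b] + orb [eps, sig ch] :=
    countom_orb_sum I.countom_a I.countom_b eps (sig ch)
  have hA2 : 4 * orb [eps, sig ch] = Nat.card I.A := by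
    rw [Nat.card_eq_fintype_card]
    refine orb_klein countom_fpf_eps fσ (fun v e => ?_) (fun v => (sig_eps hch v).symm)
    have h1 : I.en (eps (sig ch v)).1.1 = I.en (sig ch v).1.1 + 1 := I.ena (sig ch v).1.1
    rw [e, en_sig] at h1
    exact countom_F2_ne _ h1.symm
  -- the dimension formula
  have hiv := orb_add_le [I.β, bt (sig ch)] [I.β, bt (sig ch), am] [I.β, bt (sig ch), bt π]
    (by simp) (by simp)
  have h1 : orb ([I.β, bt (sig ch), am] ++ [I.β, bt (sig ch), bt π]) = 1 := by
    rw [orb_eq_one_iff]
    intro g hg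
    refine hc g fun f hf x => hg f ?_ x
    simp only [List.mem_cons, List.not_mem_nil, or_false, List.mem_append] at hf ⊢
    tauto
  -- Euler's inequality
  have hvii := euler_le f4 f3 f1 (fun v e => by
    have h1 := countom_oen_am (I.β v)
    rw [e, oen_β] at h1
    exact countom_F2_ne _ h1.symm) am_β
  rw [← Nat.card_eq_fintype_card] at hvii
  have p1 : orb [bt (sig ch), I.β] = orb [I.β, bt (sig ch)] :=
    countom_perm (by intro f; simp only [List.mem_cons, List.not_mem_nil, or_false]; tauto)
  have p2 : orb [am, bt (sig ch), I.β] = orb [I.β, bt (sig ch), am] :=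
    countom_perm (by intro f; simp only [List.mem_cons, List.not_mem_nil, or_false]; tauto)
  have p3 : orb [I.β, bt π, bt (sig ch)] = orb [I.β, bt (sig ch), bt π] :=
    countom_perm (by intro f; simp only [List.mem_cons, List.not_mem_nil, or_false]; tauto)
  rw [p1, p2] at hvii
  rw [p3] at hii
  omega

end Imm

end Pool.Agent.Lib.MP_131179_gt.Dehn
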