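import Pool.Agent.Lib.MP_131179_gt.Dehn.CountOm

/-!
# Counting on the level of the points
-/

set_option autoImplicit false

namespace Pool.Agent.Lib.MP_131179_gt.Dehn

namespace Imm

variable {Ψ : Type} {I : Imm Ψ}

theorem countPt_bt_bt [Finite Ψ] {π : I.A → I.A} {ch : I.A → F2} (h : IsChoice π ch) (ω : I.Om) :
    bt (sig ch) (bt (sig ch) ω) = ω := by
  rcases ω with x | ω
  · show (Sum.inl _ : I.Om) = Sum.inl x
    congr 1
    exact Subtype.ext (I.bb x.1)
  · show (Sum.inr _ : I.Om) = Sum.inr ω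
    congr 1
    exact sig_sig h ω

theorem countPt_bt_left [Finite Ψ] (t : I.A → I.A) (ω : I.Om) :
    (bt t ω).isLeft = true ↔ ω.isLeft = true := by
  rcases ω with x | ω <;> exact Iff.rfl

theorem countPt_am_left [Finite Ψ] (ω : I.Om) :
    (am ω).isLeft = true ↔ ω.isLeft = true := by
  rcases ω with x | ω <;> exact Iff.rfl

/-- The first return map to the points. -/
noncomputable def frp [Finite Ψ] {π : I.A → I.A} {ch : I.A → F2} (h : IsChoice π ch) :
    FR I.Om where
  β := I.β
  s := bt (sig ch)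
  T := fun ω => ω.isLeft = true
  ββ := β_β
  ss := countPt_bt_bt h
  sT := countPt_bt_left _
  per := per_of_finite β_β (countPt_bt_bt h)

/-- The first return map on the points. -/
noncomputable def mp [Finite Ψ] {π : I.A → I.A} {ch : I.A → F2} (h : IsChoice π ch)
    (x : {ω : I.Om // (frp h).T ω}) : {ω : I.Om // (frp h).T ω} :=
  ⟨(frp h).ret x.1, (frp h).ret_T x.2⟩

/-- The involution `b` on the points. -/
noncomputable def bp [Finite Ψ] {π : I.A → I.A} {ch : I.A → F2} (h : IsChoice π ch)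
    (x : {ω : I.Om // (frp h).T ω}) : {ω : I.Om // (frp h).T ω} :=
  ⟨bt (sig ch) x.1, ((frp h).sT x.1).2 x.2⟩

/-- The involution `a` on the points. -/
noncomputable def ap [Finite Ψ] {π : I.A → I.A} {ch : I.A → F2} (h : IsChoice π ch)
    (x : {ω : I.Om // (frp h).T ω}) : {ω : I.Om // (frp h).T ω} :=
  ⟨am x.1, (countPt_am_left x.1).2 x.2⟩

/-- `am` and `bt σ` commute on the crossings. -/
theorem countPt_comm [Finite Ψ] {π : I.A → I.A} {ch : I.A → F2} (h : IsChoice π ch) (ω : I.Om)
    (hω : ¬ (frp h).T ω) : am (bt (sig ch) ω) = bt (sig ch) (am ω) := by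
  rcases ω with x | ω
  · exact absurd rfl hω
  · show (Sum.inr _ : I.Om) = Sum.inr _
    congr 1
    exact (sig_eps h ω).symm

theorem countPt_oen_am [Finite Ψ] (ω : I.Om) : oen (am ω) = oen ω + 1 := by
  rcases ω with x | ω
  · exact I.ena x.1
  · exact I.ena ω.1.1

theorem countPt_oen_bt [Finite Ψ] {π : I.A → I.A} {ch : I.A → F2} (h : IsChoice π ch) (ω : I.Om)
    (hω : ¬ (frp h).T ω) : oen (bt (sig ch) ω) = oen ω := by
  rcases ω with x | ω
  · exact absurd rfl hω
  · exact en_sig ch ω

theorem countPt_am_am [Finite Ψ] (ω : I.Om) : am (am ω) = ω := by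
  rcases ω with x | ω
  · show (Sum.inl _ : I.Om) = Sum.inl x
    congr 1
    exact Subtype.ext (I.aa x.1)
  · show (Sum.inr _ : I.Om) = Sum.inr ω
    congr 1
    exact eps_eps ω

/-- The crossings: all orbits of `eps` and `sig` have four elements. -/
theorem countPt_A [Finite Ψ] {π : I.A → I.A} {ch : I.A → F2} (h : IsChoice π ch) :
    4 * orb [(eps : I.A → I.A), sig ch] = Nat.card I.A := by
  classical
  have : Fintype I.A := Fintype.ofFinite _
  rw [Nat.card_eq_fintype_card]
  refine orb_klein ⟨eps_eps, ?_⟩ ⟨sig_sig h, ?_⟩ ?_ ?_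
  · intro ω hω
    have h1 := I.ena ω.1.1
    have h2 : I.a ω.1.1 = ω.1.1 := congrArg (fun q : I.A => q.1.1) hω
    rw [h2] at h1
    simp at h1
  · intro ω hω
    have h1 := col_sig ch ω
    rw [hω] at h1
    simp at h1
  · intro ω hω
    have h1 := I.ena (sig ch ω).1.1
    have h2 : I.a (sig ch ω).1.1 = ω.1.1 := congrArg (fun q : I.A => q.1.1) hω
    rw [h2, en_sig] at h1
    simp at h1
  · intro ω
    exact (sig_eps h ω).symm

/-- `am` and `bt σ` on `Om`. -/
theorem countPt_om [Finite Ψ] {π : I.A → I.A} {ch : I.A → F2} (h : IsChoice π ch) :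
    4 * orb [(am : I.Om → I.Om), bt (sig ch)] = 4 * orb [ap h, bp h] + Nat.card I.A := by
  let e : {ω : I.Om // ¬ (frp h).T ω} ≃ I.A :=
    { toFun := fun ω => match ω with
        | ⟨Sum.inl _, hx⟩ => absurd rfl hx
        | ⟨Sum.inr ω, _⟩ => ω
      invFun := fun ω => ⟨Sum.inr ω, fun hh => Bool.noConfusion hh⟩
      left_inv := by
        rintro ⟨(x | ω), hx⟩
        · exact absurd rfl hx
        · rfl
      right_inv := fun _ => rfl }
  have am2 : ∀ x : {ω : I.Om // ¬ (frp h).T ω}, ¬ (frp h).T (am x.1) := fun x hx =>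
    x.2 ((countPt_am_left x.1).1 hx)
  have bt2 : ∀ x : {ω : I.Om // ¬ (frp h).T ω}, ¬ (frp h).T (bt (sig ch) x.1) := fun x hx =>
    x.2 ((countPt_bt_left _ x.1).1 hx)
  have h1 := orb_split (fun ω : I.Om => (frp h).T ω) (s := [(am : I.Om → I.Om), bt (sig ch)])
    (s1 := [ap h, bp h]) (s2 := [fun x => ⟨am x.1, am2 x⟩, fun x => ⟨bt (sig ch) x.1, bt2 x⟩])
    (List.Forall₂.cons (fun _ => rfl) (List.Forall₂.cons (fun _ => rfl) List.Forall₂.nil))
    (List.Forall₂.cons (fun _ => rfl) (List.Forall₂.cons (fun _ => rfl) List.Forall₂.nil))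
  have h2 := orb_congr e (s := [fun x => ⟨am x.1, am2 x⟩, fun x => ⟨bt (sig ch) x.1, bt2 x⟩])
    (s' := [(eps : I.A → I.A), sig ch])
    (List.Forall₂.cons (by
      rintro ⟨(x | ω), hx⟩
      · exact absurd rfl hx
      · rfl) (List.Forall₂.cons (by
      rintro ⟨(x | ω), hx⟩
      · exact absurd rfl hx
      · rfl) List.Forall₂.nil))
  rw [h1, h2, mul_add, countPt_A h]

theorem countPt_card [Finite Ψ] {π : I.A → I.A} {ch : I.A → F2} (h : IsChoice π ch) :
    Nat.card I.Om = Nat.card {ω : I.Om // (frp h).T ω} + Nat.card I.A := by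
  have h1 : Nat.card I.Om = Nat.card I.Pt + Nat.card I.A := Nat.card_sum
  rw [h1]
  congr 1
  refine Nat.card_congr
    { toFun := fun x => ⟨Sum.inl x, rfl⟩
      invFun := fun ω => match ω with
        | ⟨Sum.inl x, _⟩ => x
        | ⟨Sum.inr _, hx⟩ => absurd hx (fun hh => Bool.noConfusion hh)
      left_inv := fun _ => rfl
      right_inv := by
        rintro ⟨(x | ω), hx⟩
        · rfl
        · exact absurd hx (fun hh => Bool.noConfusion hh) }

/-- Euler's equality for the new surface, on the level of the points. -/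
theorem count_pt [Fintype Ψ] (hI : I.IsSphere) {π : I.A → I.A} (hπ : IsPi I π) {ch : I.A → F2}
    (hch : IsChoice π ch)
    (hc : ∀ g ∈ Inv [I.β, bt π, am, bt (sig ch)], ∀ ω ω', g ω = g ω') :
    4 * (orb [ap hch, bp hch] + orb [mp hch, bp hch]) =
      Nat.card {ω : I.Om // (frp hch).T ω} + 8 * orb [mp hch, bp hch, ap hch] := by
  have h0 := count_om hI hπ hch hc
  have h2 := (frp hch).orb_two
  have h3 := (frp hch).orb_three (a := am) countPt_am_left am_β (countPt_comm hch)
  have h4 := countPt_om hch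
  have h5 := countPt_card hch
  have h6 : orb [(fun x => ⟨(frp hch).β x.1, (frp hch).pure_β x.2⟩ :
          {ω // (frp hch).Pure ω} → {ω // (frp hch).Pure ω}),
        (fun x => ⟨(frp hch).s x.1, (frp hch).pure_s x.2⟩ :
          {ω // (frp hch).Pure ω} → {ω // (frp hch).Pure ω})] =
      2 * orb [(fun x => ⟨(frp hch).β x.1, (frp hch).pure_β x.2⟩ :
          {ω // (frp hch).Pure ω} → {ω // (frp hch).Pure ω}),
        (fun x => ⟨(frp hch).s x.1, (frp hch).pure_s x.2⟩ :
          {ω // (frp hch).Pure ω} → {ω // (frp hch).Pure ω}),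
        (fun x => ⟨am x.1, (frp hch).pure_map countPt_am_left am_β (countPt_comm hch) x.2⟩ :
          {ω // (frp hch).Pure ω} → {ω // (frp hch).Pure ω})] := by
    rw [orb_double (c := (fun x => ⟨am x.1,
      (frp hch).pure_map countPt_am_left am_β (countPt_comm hch) x.2⟩ :
          {ω // (frp hch).Pure ω} → {ω // (frp hch).Pure ω})) (G := fun x => oen x.1)]
    · congr 1
      refine orb_congr_inv (fun g => ?_)
      simp only [mem_Inv, List.mem_cons, List.not_mem_nil, or_false, forall_eq_or_imp, forall_eq]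
      tauto
    · intro x
      exact Subtype.ext (countPt_am_am x.1)
    · intro f hf x
      simp only [List.mem_cons, List.not_mem_nil, or_false] at hf
      rcases hf with rfl | rfl
      · exact Subtype.ext (am_β x.1).symm
      · exact Subtype.ext (countPt_comm hch x.1 ((frp hch).not_T_of_pure x.2)).symm
    · intro f hf x
      simp only [List.mem_cons, List.not_mem_nil, or_false] at hf
      rcases hf with rfl | rfl
      · exact oen_β x.1
      · exact countPt_oen_bt hch x.1 ((frp hch).not_T_of_pure x.2)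
    · intro x
      exact countPt_oen_am x.1
  have e2 : orb [I.β, bt (sig ch)] = orb [mp hch, bp hch] +
      orb [(fun x => ⟨(frp hch).β x.1, (frp hch).pure_β x.2⟩ :
          {ω // (frp hch).Pure ω} → {ω // (frp hch).Pure ω}),
        (fun x => ⟨(frp hch).s x.1, (frp hch).pure_s x.2⟩ :
          {ω // (frp hch).Pure ω} → {ω // (frp hch).Pure ω})] := h2
  have e3 : orb [I.β, bt (sig ch), am] = orb [mp hch, bp hch, ap hch] +
      orb [(fun x => ⟨(frp hch).β x.1, (frp hch).pure_β x.2⟩ :
          {ω // (frp hch).Pure ω} → {ω // (frp hch).Pure ω}),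
        (fun x => ⟨(frp hch).s x.1, (frp hch).pure_s x.2⟩ :
          {ω // (frp hch).Pure ω} → {ω // (frp hch).Pure ω}),
        (fun x => ⟨am x.1, (frp hch).pure_map countPt_am_left am_β (countPt_comm hch) x.2⟩ :
          {ω // (frp hch).Pure ω} → {ω // (frp hch).Pure ω})] := h3
  rw [h6] at e2
  omega

end Imm

end Pool.Agent.Lib.MP_131179_gt.Dehn
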