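import Pool.Agent.Lib.MP_131179_gt.Dehn.CountPt

/-!
# Descent
-/

set_option autoImplicit false

namespace Pool.Agent.Lib.MP_131179_gt.Dehn

/-- The result of the cut and paste: embedded spheres. -/
structure Emb {Ψ : Type} (W : TMap Ψ) (N : Ψ → Ψ) : Prop where
  NN : ∀ x, N (N x) = x
  aN : ∀ x, W.a (N x) = N (W.a x)
  cN : ∀ x, W.c (N x) = N (W.c x)
  sgN : ∀ x, W.sg (N x) = W.sg x + 1
  cdN : ∀ x, W.CD x (N x)
  nc : ∀ x, ∃ D : Ψ → F2, (∀ z, D (W.d z) = D z) ∧
    (∀ z, D z + D (W.c z) = open Classical in
      if z = x ∨ z = W.c x ∨ z = N x ∨ z = W.c (N x) then 1 else 0) ∧ ∀ z, D (N z) = D z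

/-! ### Auxiliary lemmas -/

theorem descent_F2 (s : F2) : s = 0 ∨ s = 1 := by
  revert s; decide

theorem descent_add_self (s : F2) : s + s = 0 := by
  revert s; decide

theorem descent_mem_left {α β : Type} {R : α → β → Prop} {l : List α} {l' : List β}
    (h : List.Forall₂ R l l') : ∀ x ∈ l, ∃ y ∈ l', R x y := by
  induction h with
  | nil => intro x hx; simp at hx
  | cons hr _ ih =>
    intro x hx
    rcases List.mem_cons.mp hx with rfl | hx
    · exact ⟨_, by simp, hr⟩
    · obtain ⟨y, hy, hxy⟩ := ih x hx
      exact ⟨y, List.mem_cons_of_mem _ hy, hxy⟩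

theorem descent_mem_right {α β : Type} {R : α → β → Prop} {l : List α} {l' : List β}
    (h : List.Forall₂ R l l') : ∀ y ∈ l', ∃ x ∈ l, R x y := by
  induction h with
  | nil => intro x hx; simp at hx
  | cons hr _ ih =>
    intro x hx
    rcases List.mem_cons.mp hx with rfl | hx
    · exact ⟨_, by simp, hr⟩
    · obtain ⟨y, hy, hxy⟩ := ih x hx
      exact ⟨y, List.mem_cons_of_mem _ hy, hxy⟩

/-- Dividing by an involution. -/
theorem descent_orb_quot {Φ Φ' : Type} {c : Φ → Φ} (q : Φ → Φ') (ι : Φ' → Φ)
    (hq : ∀ y, q (ι y) = y) (hfib : ∀ v w, q v = q w → v = w ∨ v = c w)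
    (hc : ∀ v, q (c v) = q v) {s : List (Φ → Φ)} {s' : List (Φ' → Φ')}
    (h : List.Forall₂ (fun f f' => ∀ x, q (f x) = f' (q x)) s s') : orb (c :: s) = orb s' := by
  have hfw : ∀ g : Φ' → F2, g ∈ Inv s' → g ∘ q ∈ Inv (c :: s) := by
    intro g hg
    rw [mem_Inv] at hg ⊢
    intro f hf x
    rcases List.mem_cons.mp hf with rfl | hf
    · simp [hc]
    · obtain ⟨f', hf', hff⟩ := descent_mem_left h f hf
      simp only [Function.comp_apply]
      rw [hff x, hg f' hf']
  have hbw : ∀ G : Φ → F2, G ∈ Inv (c :: s) → G ∘ ι ∈ Inv s' ∧ (G ∘ ι) ∘ q = G := by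
    intro G hG
    rw [mem_Inv] at hG
    have hGq : ∀ v w, q v = q w → G v = G w := by
      intro v w hvw
      rcases hfib v w hvw with rfl | h
      · rfl
      · rw [h]
        exact hG c (by simp) w
    refine ⟨?_, ?_⟩
    · rw [mem_Inv]
      intro f' hf' y
      obtain ⟨f, hf, hff⟩ := descent_mem_right h f' hf'
      simp only [Function.comp_apply]
      rw [← hG f (List.mem_cons_of_mem _ hf) (ι y)]
      apply hGq
      rw [hq, hff, hq]
    · funext v
      simp only [Function.comp_apply]
      apply hGq
      rw [hq]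
  unfold orb
  refine (LinearEquiv.finrank_eq (R := F2) ?_).symm
  exact
    { toFun := fun g => ⟨g.1 ∘ q, hfw g.1 g.2⟩
      invFun := fun G => ⟨G.1 ∘ ι, (hbw G.1 G.2).1⟩
      map_add' := fun g g' => rfl
      map_smul' := fun a g => rfl
      left_inv := fun g => by
        apply Subtype.ext
        funext y
        simp [hq]
      right_inv := fun G => Subtype.ext (hbw G.1 G.2).2 }

/-- Maps of first return data. -/
theorem FR.descent_map {Ω Ω' : Type} (F : FR Ω) (F' : FR Ω') (p : Ω → Ω')
    (hβ : ∀ ω, p (F.β ω) = F'.β (p ω)) (hs : ∀ ω, p (F.s ω) = F'.s (p ω))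
    (hT : ∀ ω, F'.T (p ω) ↔ F.T ω) (x : Ω) : p (F.ret x) = F'.ret (p x) := by
  have hpath : ∀ n, p (F.path x n) = F'.path (p x) n := by
    intro n
    induction n with
    | zero => simp [FR.path, hβ]
    | succ n ih =>
      simp only [FR.path, Function.iterate_succ_apply'] at ih ⊢
      rw [hβ, hs, ih]
  have hTn : ∀ n, F.T (F.path x n) ↔ F'.T (F'.path (p x) n) := by
    intro n
    rw [← hpath n, hT]
  classical
  unfold FR.ret
  by_cases h : ∃ n, F.T (F.path x n)
  · have h' : ∃ n, F'.T (F'.path (p x) n) := by
      obtain ⟨n, hn⟩ := h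
      exact ⟨n, (hTn n).1 hn⟩
    rw [dif_pos h, dif_pos h', hpath]
    congr 1
    exact Nat.find_congr' (fun {n} => hTn n)
  · have h' : ¬ ∃ n, F'.T (F'.path (p x) n) := by
      rintro ⟨n, hn⟩
      exact h ⟨n, (hTn n).2 hn⟩
    rw [dif_neg h, dif_neg h']

namespace Imm

variable {Ψ : Type} {I : Imm Ψ}

open Classical in
/-- The representative of `{x, c x}` with `co = 0`. -/
noncomputable def descent_r (I : Imm Ψ) (x : Ψ) : Ψ := if I.co x = 0 then x else I.c x

theorem descent_r_co (x : Ψ) : I.co (descent_r I x) = 0 := by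
  unfold descent_r
  split_ifs with h
  · exact h
  · rw [I.coc]
    rcases descent_F2 (I.co x) with h' | h'
    · exact absurd h' h
    · rw [h']; decide

theorem descent_r_of {x : Ψ} (h : I.co x = 0) : descent_r I x = x := if_pos h

theorem descent_r_of' {x : Ψ} (h : I.co x = 1) : descent_r I x = I.c x := by
  refine if_neg ?_
  rw [h]; decide

/-- The point of a flag, with the side. -/
noncomputable def descent_to (I : Imm Ψ) (x : Ψ) : I.Om × F2 :=
  (pt (descent_r I x) (descent_r_co x), I.co x)

/-- The chord of a piece. -/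
def descent_base (I : Imm Ψ) (ω : I.Om) : Ψ := Sum.elim (fun x => x.1) (fun ω => ω.1.1) ω

theorem descent_base_pt (x : Ψ) (h : I.co x = 0) : descent_base I (pt x h) = x := rfl

open Classical in
/-- The flag of a point with a side. -/
noncomputable def descent_from (I : Imm Ψ) (p : I.Om × F2) : Ψ :=
  if p.2 = 0 then descent_base I p.1 else I.c (descent_base I p.1)

theorem descent_from_to (x : Ψ) : descent_from I (descent_to I x) = x := by
  unfold descent_from descent_to
  rcases descent_F2 (I.co x) with h | h
  · simp [h, descent_base_pt, descent_r_of]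
  · simp [h, descent_base_pt, descent_r_of' h, I.cc]

theorem descent_from_inl (x : Ψ) (hx : I.co x = 0) (s : F2) :
    descent_from I (pt x hx, s) = if s = 0 then x else I.c x := by
  unfold descent_from
  rcases descent_F2 s with h | h
  · simp [h, descent_base_pt]
  · simp [h, descent_base_pt]

theorem descent_to_from (p : I.Om × F2) (hp : p.1.isLeft = true) :
    descent_to I (descent_from I p) = p := by
  obtain ⟨ω, s⟩ := p
  rcases ω with ⟨x, hx⟩ | ω
  · have e : (Sum.inl ⟨x, hx⟩ : I.Om) = pt x hx := rfl
    rw [e, descent_from_inl]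
    rcases descent_F2 s with h | h
    · subst h
      simp [descent_to, hx, descent_r_of hx]
    · subst h
      have h1 : I.co (I.c x) = 1 := by rw [I.coc, hx]; decide
      simp [descent_to, h1, descent_r_of' h1, I.cc]
  · simp at hp

/-- A crossing as an element of `Om`. -/
def descent_in (ω : I.A) : I.Om := Sum.inr ω

theorem descent_cases {P : I.Om → Prop} (h1 : ∀ (x : Ψ) (h : I.co x = 0), P (pt x h))
    (h2 : ∀ ω : I.A, P (descent_in ω)) (ω : I.Om) : P ω := by
  rcases ω with x | ω
  · exact h1 x.1 x.2
  · exact h2 ω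

theorem descent_pt_ext {x y : Ψ} (h : x = y) (hx : I.co x = 0) (hy : I.co y = 0) :
    pt x hx = pt y hy := by
  subst h; rfl

theorem descent_bt_pt [Finite Ψ] (t : I.A → I.A) (x : Ψ) (h : I.co x = 0) :
    bt t (pt x h) = pt (I.b x) ((I.cob x).trans h) := rfl

theorem descent_bt_in [Finite Ψ] (t : I.A → I.A) (ω : I.A) :
    bt t (descent_in ω) = descent_in (t ω) := rfl

theorem descent_am_pt [Finite Ψ] (x : Ψ) (h : I.co x = 0) :
    am (pt x h) = pt (I.a x) ((I.coa x).trans h) := rfl

theorem descent_am_in [Finite Ψ] (ω : I.A) :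
    am (descent_in ω) = descent_in (eps ω) := rfl

theorem descent_isLeft_pt (x : Ψ) (h : I.co x = 0) : Sum.isLeft (pt x h) = true := rfl

theorem descent_isLeft_in (ω : I.A) : ¬ Sum.isLeft (descent_in ω) = true := by
  show ¬ (false = true)
  simp

theorem descent_isLeft_bt [Finite Ψ] (t : I.A → I.A) (ω : I.Om) :
    Sum.isLeft (bt t ω) = true ↔ Sum.isLeft ω = true := by
  revert ω
  apply descent_cases
  · intro x h
    exact Iff.rfl
  · intro ω
    exact Iff.rfl

theorem descent_isLeft_am [Finite Ψ] (ω : I.Om) :
    Sum.isLeft (am ω) = true ↔ Sum.isLeft ω = true := by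
  revert ω
  apply descent_cases
  · intro x h
    exact Iff.rfl
  · intro ω
    exact Iff.rfl

/-- The shift of the side at a crossing. -/
def descent_sh (ch : I.A → F2) (ω : I.Om) : F2 := Sum.elim (fun _ => 0) ch ω

theorem descent_sh_pt (ch : I.A → F2) (x : Ψ) (h : I.co x = 0) :
    descent_sh ch (pt x h) = 0 := rfl

theorem descent_sh_in (ch : I.A → F2) (ω : I.A) : descent_sh ch (descent_in ω) = ch ω := rfl

/-- The involution `b` on the points, and the cut and paste at the crossings, with sides. -/
noncomputable def descent_s [Finite Ψ] (ch : I.A → F2) (p : I.Om × F2) : I.Om × F2 :=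
  (bt (sig ch) p.1, p.2 + descent_sh ch p.1)

theorem descent_s_pt [Finite Ψ] (ch : I.A → F2) (x : Ψ) (h : I.co x = 0) (s : F2) :
    descent_s ch (pt x h, s) = (pt (I.b x) ((I.cob x).trans h), s) := by
  show (bt (sig ch) (pt x h), s + descent_sh ch (pt x h)) = _
  rw [descent_sh_pt, add_zero, descent_bt_pt]

theorem descent_s_in [Finite Ψ] (ch : I.A → F2) (ω : I.A) (s : F2) :
    descent_s ch (descent_in ω, s) = (descent_in (sig ch ω), s + ch ω) := rfl

theorem descent_s_s [Finite Ψ] {π : I.A → I.A} {ch : I.A → F2} (h : IsChoice π ch)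
    (p : I.Om × F2) : descent_s ch (descent_s ch p) = p := by
  obtain ⟨ω, s⟩ := p
  revert ω
  apply descent_cases
  · intro x hx
    rw [descent_s_pt, descent_s_pt]
    rw [descent_pt_ext (I.bb x) _ hx]
  · intro ω
    rw [descent_s_in, descent_s_in, sig_sig h, h.ch_sig, add_assoc, descent_add_self, add_zero]

/-- The first return data with sides. -/
noncomputable def descent_F [Finite Ψ] {π : I.A → I.A} {ch : I.A → F2} (h : IsChoice π ch) :
    FR (I.Om × F2) where
  β := fun p => (I.β p.1, p.2)
  s := descent_s ch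
  T := fun p => Sum.isLeft p.1 = true
  ββ := fun p => by
    show (I.β (I.β p.1), p.2) = p
    rw [β_β]
  ss := descent_s_s h
  sT := fun p => descent_isLeft_bt _ p.1
  per := per_of_finite (β := fun p => (I.β p.1, p.2)) (s := descent_s ch) (fun p => by
    show (I.β (I.β p.1), p.2) = p
    rw [β_β]) (descent_s_s h)

theorem descent_F_to [Finite Ψ] {π : I.A → I.A} {ch : I.A → F2} (h : IsChoice π ch) (x : Ψ) :
    (descent_F h).T (descent_to I x) := rfl

theorem descent_F_β [Finite Ψ] {π : I.A → I.A} {ch : I.A → F2} (h : IsChoice π ch) (ω : I.Om)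
    (s : F2) : (descent_F h).β (ω, s) = (I.β ω, s) := rfl

theorem descent_F_s [Finite Ψ] {π : I.A → I.A} {ch : I.A → F2} (h : IsChoice π ch)
    (p : I.Om × F2) : (descent_F h).s p = descent_s ch p := rfl

/-- Induction on the elements outside of the points. -/
theorem descent_F_off [Finite Ψ] {π : I.A → I.A} {ch : I.A → F2} (h : IsChoice π ch)
    {P : I.Om × F2 → Prop} (h1 : ∀ (ω : I.A) (s : F2), P (descent_in ω, s)) (p : I.Om × F2)
    (hp : ¬ (descent_F h).T p) : P p := by
  obtain ⟨ω, s⟩ := p
  revert ω
  apply descent_cases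
  · intro x hx hp
    exact absurd rfl hp
  · intro ω _
    exact h1 ω s

/-- The new chords. -/
noncomputable def descent_N [Finite Ψ] {π : I.A → I.A} {ch : I.A → F2} (h : IsChoice π ch)
    (x : Ψ) : Ψ := descent_from I ((descent_F h).ret (descent_to I x))

theorem descent_to_N [Finite Ψ] {π : I.A → I.A} {ch : I.A → F2} (h : IsChoice π ch) (x : Ψ) :
    descent_to I (descent_N h x) = (descent_F h).ret (descent_to I x) :=
  descent_to_from _ ((descent_F h).ret_T (descent_F_to h x))

theorem descent_NN [Finite Ψ] {π : I.A → I.A} {ch : I.A → F2} (h : IsChoice π ch) (x : Ψ) :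
    descent_N h (descent_N h x) = x := by
  have h1 : descent_N h (descent_N h x) =
      descent_from I ((descent_F h).ret (descent_to I (descent_N h x))) := rfl
  rw [h1, descent_to_N, (descent_F h).ret_ret (descent_F_to h x), descent_from_to]

/-! ### The symmetries -/

theorem descent_r_c (x : Ψ) : descent_r I (I.c x) = descent_r I x := by
  rcases descent_F2 (I.co x) with h | h
  · have h1 : I.co (I.c x) = 1 := by rw [I.coc, h]; decide
    rw [descent_r_of h, descent_r_of' h1, I.cc]
  · have h1 : I.co (I.c x) = 0 := by rw [I.coc, h]; decide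
    rw [descent_r_of' h, descent_r_of h1]

theorem descent_to_c (x : Ψ) :
    descent_to I (I.c x) = ((descent_to I x).1, (descent_to I x).2 + 1) := by
  unfold descent_to
  rw [descent_pt_ext (descent_r_c x) _ (descent_r_co x), I.coc]

theorem descent_to_inj {x y : Ψ} (h : descent_to I x = descent_to I y) : x = y := by
  rw [← descent_from_to x, h, descent_from_to]

theorem descent_r_a (x : Ψ) : descent_r I (I.a x) = I.a (descent_r I x) := by
  rcases descent_F2 (I.co x) with h | h
  · rw [descent_r_of h, descent_r_of ((I.coa x).trans h)]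
  · rw [descent_r_of' h, descent_r_of' ((I.coa x).trans h), I.ac]

theorem descent_r_b (x : Ψ) : descent_r I (I.b x) = I.b (descent_r I x) := by
  rcases descent_F2 (I.co x) with h | h
  · rw [descent_r_of h, descent_r_of ((I.cob x).trans h)]
  · rw [descent_r_of' h, descent_r_of' ((I.cob x).trans h), I.bc]

theorem descent_to_a [Finite Ψ] (x : Ψ) :
    descent_to I (I.a x) = (am (descent_to I x).1, (descent_to I x).2) := by
  refine Prod.ext ?_ (I.coa x)
  exact descent_pt_ext (descent_r_a x) _ ((I.coa _).trans (descent_r_co x))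

theorem descent_to_b [Finite Ψ] (ch : I.A → F2) (x : Ψ) :
    descent_to I (I.b x) = (bt (sig ch) (descent_to I x).1, (descent_to I x).2) := by
  refine Prod.ext ?_ (I.cob x)
  exact descent_pt_ext (descent_r_b x) _ ((I.cob _).trans (descent_r_co x))

theorem descent_cN [Finite Ψ] {π : I.A → I.A} {ch : I.A → F2} (h : IsChoice π ch) (x : Ψ) :
    I.c (descent_N h x) = descent_N h (I.c x) := by
  apply descent_to_inj
  rw [descent_to_N, descent_to_c, descent_to_c, descent_to_N]
  have key := (descent_F h).ret_comm (a := fun p => (p.1, p.2 + 1)) (fun ω => Iff.rfl)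
    (fun ω => rfl) (descent_F_off h fun ω s => by
      rw [descent_F_s, descent_F_s, descent_s_in, descent_s_in, add_right_comm])
    (descent_F_to h x)
  exact key.symm

theorem descent_aN [Finite Ψ] {π : I.A → I.A} {ch : I.A → F2} (h : IsChoice π ch) (x : Ψ) :
    I.a (descent_N h x) = descent_N h (I.a x) := by
  apply descent_to_inj
  rw [descent_to_N, descent_to_a, descent_to_a, descent_to_N]
  have key := (descent_F h).ret_comm (a := fun p => (am p.1, p.2))
    (fun ω => descent_isLeft_am ω.1)
    (fun ω => by
      show (am (I.β ω.1), ω.2) = (I.β (am ω.1), ω.2)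
      rw [am_β]) (descent_F_off h fun ω s => by
      rw [descent_F_s, descent_F_s, descent_s_in, descent_am_in, descent_am_in, descent_s_in,
        sig_eps h, h.ch_eps])
    (descent_F_to h x)
  exact key.symm

/-! ### The sign -/

theorem descent_sgN [Finite Ψ] {π : I.A → I.A} {ch : I.A → F2} (h : IsChoice π ch) (x : Ψ) :
    I.sg (descent_N h x) = I.sg x + 1 := by
  have hto : ∀ y : Ψ, osg (descent_to I y).1 + (descent_to I y).2 = I.sg y := by
    intro y
    show I.sg (descent_r I y) + I.co y = I.sg y
    rcases descent_F2 (I.co y) with h | h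
    · rw [descent_r_of h, h, add_zero]
    · rw [descent_r_of' h, h, I.sgc, add_assoc, descent_add_self, add_zero]
  have key := (descent_F h).ret_sign (f := fun p => osg p.1 + p.2)
    (fun ω => by
      show osg (I.β ω.1) + ω.2 = osg ω.1 + ω.2 + 1
      rw [osg_β, add_right_comm]) (descent_F_off h fun ω s => by
      rw [descent_F_s, descent_s_in]
      show I.sg (sig ch ω).1.1 + 1 + (s + ch ω) = I.sg ω.1.1 + 1 + s + 1
      have h1 := ω.2.sg
      rcases descent_F2 (ch ω) with h0 | h0
      · have h2 : sig ch ω = s0 ω := if_pos h0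
        have h3 : I.sg (s0 ω).1.1 = I.sg ω.1.1 + 1 := h1
        rw [h2, h3, h0, add_zero]
        ring
      · have h2 : sig ch ω = s1 ω := if_neg (by rw [h0]; decide)
        have h3 : I.sg (s1 ω).1.1 = I.sg ω.1.1 + 1 + 1 := by
          show I.sg (I.M ω.1.2) = _
          rw [I.sgM, h1]
        have h4 : I.sg (s1 ω).1.1 = I.sg ω.1.1 := by
          rw [h3, add_assoc, descent_add_self, add_zero]
        rw [h2, h4, h0]
        ring)
    (descent_F_to h x)
  rw [← hto (descent_N h x), descent_to_N, ← hto x]
  exact key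

theorem descent_cdN [Finite Ψ] {π : I.A → I.A} {ch : I.A → F2} (h : IsChoice π ch) (x : Ψ) :
    I.CD x (descent_N h x) := by
  have hto : ∀ y : Ψ, I.CD y (descent_base I (descent_to I y).1) := by
    intro y
    show I.CD y (descent_r I y)
    rcases descent_F2 (I.co y) with h | h
    · rw [descent_r_of h]
      exact TMap.CD.refl _ _
    · rw [descent_r_of' h]
      exact TMap.CD.c _ _
  have key := (descent_F h).ret_rel
    (R := fun p q => I.CD (descent_base I p.1) (descent_base I q.1))
    (fun ω => TMap.CD.refl _ _) (fun ω ω' hR => hR.trans (cd_β ω'.1))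
    (fun ω => descent_F_off h fun ω' s hR => by
      rw [descent_F_s, descent_s_in]
      refine hR.trans ?_
      show I.CD ω'.1.1 (sig ch ω').1.1
      have h1 : I.CD ω'.1.1 ω'.1.2 := ω'.2.cd
      rcases descent_F2 (ch ω') with h0 | h0
      · have h2 : sig ch ω' = s0 ω' := if_pos h0
        rw [h2]
        exact h1
      · have h2 : sig ch ω' = s1 ω' := if_neg (by rw [h0]; decide)
        rw [h2]
        exact h1.trans (I.cdM _))
    (descent_F_to h x)
  rw [← descent_to_N] at key
  exact ((hto x).trans key).trans (hto _).symm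

/-! ### Region functions -/

/-- The region function of a `σ`-invariant function gives values near the points which are
invariant under the new chords. -/
theorem descent_D_N [Finite Ψ] {π : I.A → I.A} {ch : I.A → F2} (h : IsChoice π ch)
    {g : I.Om → F2} {D : Ψ → F2} {f : I.Om → F2 → F2} (hf : RegFun I g D f)
    (hg : ∀ ω : I.A, g (descent_in (sig ch ω)) = g (descent_in ω)) (z : Ψ) :
    D (descent_N h z) = D z := by
  have hto : ∀ y : Ψ, f (descent_to I y).1 (descent_to I y).2 = D y := by
    intro y
    show f (pt (descent_r I y) (descent_r_co y)) (I.co y) = D y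
    rcases descent_F2 (I.co y) with h | h
    · rw [h, descent_pt_ext (descent_r_of h) _ h, hf.f0]
    · have h1 : I.co (I.c y) = 0 := by rw [I.coc, h]; decide
      rw [h, descent_pt_ext (descent_r_of' h) _ h1, hf.f1, I.cc]
  have hj : ∀ (ω : I.Om) (i : F2), f ω (i + 1) = f ω i + g ω := by
    intro ω i
    have := hf.jump ω
    rcases descent_F2 i with h | h
    · subst h
      rw [← this, ← add_assoc, descent_add_self, zero_add, zero_add]
    · subst h
      rw [← this, descent_add_self, add_comm, add_assoc, descent_add_self, add_zero]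
  have hσ : ∀ (ω : I.A) (s : F2), f (descent_in (sig ch ω)) (s + ch ω) = f (descent_in ω) s := by
    intro ω s
    have hgω := hg ω
    have hc0 : f (descent_in ω) (idx ω) = f (descent_in (s0 ω)) (idx ω) := hf.c0 ω
    have hc1 : f (descent_in ω) (idx ω + 1) = f (descent_in (s1 ω)) (idx ω) := hf.c1 ω
    have hs : s = idx ω ∨ s = idx ω + 1 := by
      generalize idx ω = i
      revert s i
      decide
    rcases descent_F2 (ch ω) with h0 | h0
    · have h2 : sig ch ω = s0 ω := if_pos h0
      rw [h2] at hgω ⊢
      rw [h0, add_zero]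
      rcases hs with rfl | rfl
      · exact hc0.symm
      · rw [hj, hj, hgω, hc0]
    · have h2 : sig ch ω = s1 ω := if_neg (by rw [h0]; decide)
      rw [h2] at hgω ⊢
      rw [h0]
      rcases hs with rfl | rfl
      · rw [hj, hgω, ← hc1, hj, add_assoc, descent_add_self, add_zero]
      · rw [hc1, add_assoc, descent_add_self, add_zero]
  have key := (descent_F h).ret_inv (f := fun p => f p.1 p.2) (fun ω => hf.fβ ω.1 ω.2)
    (descent_F_off h fun ω s => hσ ω s) (descent_F_to h z)
  rw [← hto (descent_N h z), descent_to_N, ← hto z]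
  exact key

theorem descent_o_s0 [Finite Ψ] (ω : I.A) : o (s0 ω) = s1 ω := (s1_eq ω).symm

theorem descent_even [Finite Ψ] {π : I.A → I.A} {ch : I.A → F2} (h : IsChoice π ch)
    {g : I.Om → F2} (hg : ∀ ω : I.A, g (descent_in (sig ch ω)) = g (descent_in ω)) :
    Even4 g := by
  intro ω
  show g (descent_in ω) + g (descent_in (o ω)) + g (descent_in (s0 ω)) +
    g (descent_in (s1 ω)) = 0
  have h1 := hg ω
  have h2 := hg (o ω)
  rcases descent_F2 (ch ω) with h0 | h0
  · have e1 : sig ch ω = s0 ω := if_pos h0
    have e2 : sig ch (o ω) = s1 ω := by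
      have : sig ch (o ω) = s0 (o ω) := if_pos (by rw [h.ch_o, h0])
      rw [this, ← o_s0, s1_eq]
    rw [e1] at h1
    rw [e2] at h2
    rw [h1, h2]
    generalize g (descent_in ω) = u
    generalize g (descent_in (o ω)) = v
    revert u v
    decide
  · have e1 : sig ch ω = s1 ω := if_neg (by rw [h0]; decide)
    have e2 : sig ch (o ω) = s0 ω := by
      have : sig ch (o ω) = s1 (o ω) := if_neg (by rw [h.ch_o, h0]; decide)
      rw [this, s1_eq, ← o_s0, o_o]
    rw [e1] at h1
    rw [e2] at h2
    rw [h1, h2]
    generalize g (descent_in ω) = u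
    generalize g (descent_in (o ω)) = v
    revert u v
    decide

open Classical in
theorem descent_nc [Finite Ψ] {π : I.A → I.A} {ch : I.A → F2} (h : IsChoice π ch) (x : Ψ) :
    ∃ D : Ψ → F2, (∀ z, D (I.d z) = D z) ∧
      (∀ z, D z + D (I.c z) =
        if z = x ∨ z = I.c x ∨ z = descent_N h x ∨ z = I.c (descent_N h x) then 1 else 0) ∧
      ∀ z, D (descent_N h z) = D z := by
  set own : Ψ → Prop := fun z =>
    z = x ∨ z = I.c x ∨ z = descent_N h x ∨ z = I.c (descent_N h x) with hown
  have hownN : ∀ z, own (descent_N h z) ↔ own z := by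
    have h1 : ∀ z, own z → own (descent_N h z) := by
      rintro z (rfl | rfl | rfl | rfl)
      · exact Or.inr (Or.inr (Or.inl rfl))
      · exact Or.inr (Or.inr (Or.inr (descent_cN h x).symm))
      · exact Or.inl (descent_NN h x)
      · refine Or.inr (Or.inl ?_)
        rw [← descent_cN, descent_NN]
    intro z
    refine ⟨fun hz => ?_, h1 z⟩
    have := h1 _ hz
    rwa [descent_NN] at this
  have hownc : ∀ z, own (I.c z) ↔ own z := by
    have h1 : ∀ z, own z → own (I.c z) := by
      rintro z (rfl | rfl | rfl | rfl)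
      · exact Or.inr (Or.inl rfl)
      · exact Or.inl (I.cc x)
      · exact Or.inr (Or.inr (Or.inr rfl))
      · exact Or.inr (Or.inr (Or.inl (I.cc _)))
    intro z
    refine ⟨fun hz => ?_, h1 z⟩
    have := h1 _ hz
    rwa [I.cc] at this
  obtain ⟨g', hg'β, hg's, hg'T, hg'P⟩ := (descent_F h).extend (0 : F2)
    (fun p => if own (descent_from I p) then 1 else 0) (fun p hp => by
      have e : descent_from I ((descent_F h).ret p) = descent_N h (descent_from I p) := by
        unfold descent_N
        rw [descent_to_from p hp]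
      simp only [e, hownN])
  -- the two sides agree
  have hside : ∀ p : I.Om × F2, g' (p.1, p.2 + 1) = g' p := by
    intro p
    refine (descent_F h).eq_of (g := fun p => g' (p.1, p.2 + 1)) (g' := g') (fun ω => ?_)
      (descent_F_off h fun ω s => ?_) hg'β hg's (fun ω hω => ?_) (fun ω hω => ?_) p
    · exact hg'β (ω.1, ω.2 + 1)
    · have := hg's (descent_in ω, s + 1) (descent_isLeft_in ω)
      rw [descent_F_s, descent_s_in] at this
      rw [descent_F_s, descent_s_in]
      show g' (descent_in (sig ch ω), s + ch ω + 1) = g' (descent_in ω, s + 1)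
      rw [add_right_comm]
      exact this
    · have hω' : (descent_F h).T (ω.1, ω.2 + 1) := hω
      rw [hg'T _ hω, hg'T _ hω']
      have e : descent_from I (ω.1, ω.2 + 1) = I.c (descent_from I ω) := by
        apply descent_to_inj
        rw [descent_to_c, descent_to_from _ hω, descent_to_from _ hω']
      simp only [e, hownc]
    · rw [hg'P ω hω]
      refine hg'P _ ?_
      exact (descent_F h).pure_map (a := fun p => (p.1, p.2 + 1)) (fun ω => Iff.rfl)
        (fun ω => rfl) (descent_F_off h fun ω s => by
          rw [descent_F_s, descent_F_s, descent_s_in, descent_s_in, add_right_comm]) hω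
  have hside' : ∀ (ω : I.Om) (s : F2), g' (ω, s) = g' (ω, 0) := by
    intro ω s
    rcases descent_F2 s with h | h
    · rw [h]
    · subst h
      exact hside (ω, 0)
  have hσ : ∀ ω : I.A, g' (descent_in (sig ch ω), 0) = g' (descent_in ω, 0) := by
    intro ω
    have := hg's (descent_in ω, 0) (descent_isLeft_in ω)
    rw [descent_F_s, descent_s_in, hside'] at this
    exact this
  have hβ : ∀ ω : I.Om, g' (I.β ω, 0) = g' (ω, 0) := fun ω => hg'β (ω, 0)
  obtain ⟨D, f, hf⟩ := exists_region (g := fun ω => g' (ω, 0)) hβ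
    (descent_even h (g := fun ω => g' (ω, 0)) hσ)
  refine ⟨D, hf.Dd, ?_, fun z => descent_D_N h hf hσ z⟩
  have h0 : ∀ z, I.co z = 0 → D z + D (I.c z) = if own z then 1 else 0 := by
    intro z hz
    rw [← hf.f0 z hz, ← hf.f1 z hz, hf.jump]
    have hT : (descent_F h).T (pt z hz, 0) := rfl
    rw [hg'T _ hT]
    rw [descent_from_inl, if_pos rfl]
  intro z
  rcases descent_F2 (I.co z) with h | h
  · exact h0 z h
  · have h1 : I.co (I.c z) = 0 := by rw [I.coc, h]; decide
    have h2 := h0 _ h1
    rw [I.cc] at h2
    rw [add_comm, h2]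
    simp only [hownc]
    rfl

/-! ### Counting -/

/-- The first components. -/
theorem descent_ret_fst [Finite Ψ] {π : I.A → I.A} {ch : I.A → F2} (h : IsChoice π ch)
    (p : I.Om × F2) : ((descent_F h).ret p).1 = (frp h).ret p.1 :=
  (descent_F h).descent_map (frp h) (fun p => p.1) (fun _ => rfl) (fun _ => rfl)
    (fun _ => Iff.rfl) p

/-- The point of a flag. -/
noncomputable def descent_q [Finite Ψ] {π : I.A → I.A} {ch : I.A → F2} (h : IsChoice π ch)
    (x : Ψ) : {ω : I.Om // (frp h).T ω} := ⟨(descent_to I x).1, rfl⟩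

/-- A flag of a point. -/
noncomputable def descent_i [Finite Ψ] {π : I.A → I.A} {ch : I.A → F2} (h : IsChoice π ch)
    (y : {ω : I.Om // (frp h).T ω}) : Ψ := descent_from I (y.1, 0)

theorem descent_q_i [Finite Ψ] {π : I.A → I.A} {ch : I.A → F2} (h : IsChoice π ch)
    (y : {ω : I.Om // (frp h).T ω}) : descent_q h (descent_i h y) = y := by
  apply Subtype.ext
  show (descent_to I (descent_from I (y.1, 0))).1 = y.1
  have h1 : Sum.isLeft y.1 = true := y.2
  rw [descent_to_from (y.1, 0) h1]

theorem descent_q_fib [Finite Ψ] {π : I.A → I.A} {ch : I.A → F2} (h : IsChoice π ch)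
    (v w : Ψ) (hvw : descent_q h v = descent_q h w) : v = w ∨ v = I.c w := by
  have h1 : (descent_to I v).1 = (descent_to I w).1 := congrArg Subtype.val hvw
  have h2 : (descent_to I v).2 = (descent_to I w).2 ∨
      (descent_to I v).2 = (descent_to I w).2 + 1 := by
    generalize (descent_to I v).2 = s
    generalize (descent_to I w).2 = t
    revert s t
    decide
  rcases h2 with h2 | h2
  · left
    exact descent_to_inj (Prod.ext h1 h2)
  · right
    apply descent_to_inj
    rw [descent_to_c]
    exact Prod.ext h1 h2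

theorem descent_q_c [Finite Ψ] {π : I.A → I.A} {ch : I.A → F2} (h : IsChoice π ch)
    (v : Ψ) : descent_q h (I.c v) = descent_q h v := by
  apply Subtype.ext
  show (descent_to I (I.c v)).1 = _
  rw [descent_to_c]
  rfl

theorem descent_q_a [Finite Ψ] {π : I.A → I.A} {ch : I.A → F2} (h : IsChoice π ch)
    (v : Ψ) : descent_q h (I.a v) = ap h (descent_q h v) := by
  apply Subtype.ext
  show (descent_to I (I.a v)).1 = _
  rw [descent_to_a]
  rfl

theorem descent_q_b [Finite Ψ] {π : I.A → I.A} {ch : I.A → F2} (h : IsChoice π ch)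
    (v : Ψ) : descent_q h (I.b v) = bp h (descent_q h v) := by
  apply Subtype.ext
  show (descent_to I (I.b v)).1 = _
  rw [descent_to_b ch]
  rfl

theorem descent_q_N [Finite Ψ] {π : I.A → I.A} {ch : I.A → F2} (h : IsChoice π ch)
    (v : Ψ) : descent_q h (descent_N h v) = mp h (descent_q h v) := by
  apply Subtype.ext
  show (descent_to I (descent_N h v)).1 = (frp h).ret (descent_to I v).1
  rw [descent_to_N, descent_ret_fst]

theorem descent_card [Fintype Ψ] {π : I.A → I.A} {ch : I.A → F2} (h : IsChoice π ch) :
    Fintype.card Ψ = 2 * Nat.card {ω : I.Om // (frp h).T ω} := by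
  have e : Ψ ≃ {ω : I.Om // (frp h).T ω} × F2 :=
    { toFun := fun x => (descent_q h x, (descent_to I x).2)
      invFun := fun p => descent_from I (p.1.1, p.2)
      left_inv := fun x => descent_from_to x
      right_inv := fun p => by
        have h1 := descent_to_from (I := I) (p.1.1, p.2) p.1.2
        refine Prod.ext (Subtype.ext ?_) ?_
        · show (descent_to I (descent_from I (p.1.1, p.2))).1 = p.1.1
          rw [h1]
        · show (descent_to I (descent_from I (p.1.1, p.2))).2 = p.2
          rw [h1] }
  rw [← Nat.card_eq_fintype_card, Nat.card_congr e, Nat.card_prod, mul_comm]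
  congr 1
  rw [Nat.card_eq_fintype_card]
  exact ZMod.card 2

end Imm

open Imm in
/-- **Descent.** An immersed sphere with two colours can be replaced by embedded spheres with the same
points. -/
theorem descent {Ψ : Type} [Fintype Ψ] (I : Imm Ψ) (hI : I.IsSphere) :
    ∃ N : Ψ → Ψ, Emb I.toTMap N ∧
      4 * (orb [I.a, I.b] + orb [I.b, N]) = Fintype.card Ψ + 16 * orb [I.a, I.b, I.c, N] := by
  obtain ⟨π, hπ⟩ := exists_pi I
  obtain ⟨ch, hch, hc⟩ := exists_choice hI hπ
  have hcount := count_pt hI hπ hch hc
  refine ⟨descent_N hch, ⟨descent_NN hch, descent_aN hch, descent_cN hch, descent_sgN hch,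
    descent_cdN hch, descent_nc hch⟩, ?_⟩
  have e1 : orb [I.c, I.a, I.b] = orb [ap hch, bp hch] :=
    descent_orb_quot (descent_q hch) (descent_i hch) (descent_q_i hch) (descent_q_fib hch)
      (descent_q_c hch) (by
        refine List.Forall₂.cons (descent_q_a hch) (List.Forall₂.cons (descent_q_b hch)
          List.Forall₂.nil))
  have e2 : orb [I.c, descent_N hch, I.b] = orb [mp hch, bp hch] :=
    descent_orb_quot (descent_q hch) (descent_i hch) (descent_q_i hch) (descent_q_fib hch)
      (descent_q_c hch) (by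
        refine List.Forall₂.cons (descent_q_N hch) (List.Forall₂.cons (descent_q_b hch)
          List.Forall₂.nil))
  have e3 : orb [I.c, descent_N hch, I.b, I.a] = orb [mp hch, bp hch, ap hch] :=
    descent_orb_quot (descent_q hch) (descent_i hch) (descent_q_i hch) (descent_q_fib hch)
      (descent_q_c hch) (by
        refine List.Forall₂.cons (descent_q_N hch) (List.Forall₂.cons (descent_q_b hch)
          (List.Forall₂.cons (descent_q_a hch) List.Forall₂.nil)))
  have e3' : orb [I.a, I.b, I.c, descent_N hch] = orb [I.c, descent_N hch, I.b, I.a] := by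
    apply orb_congr_inv
    intro g
    rw [mem_Inv, mem_Inv]
    simp only [List.mem_cons, List.not_mem_nil, or_false, forall_eq_or_imp, forall_eq]
    tauto
  have e2' : orb [I.b, descent_N hch] = orb [descent_N hch, I.b] := by
    apply orb_congr_inv
    intro g
    rw [mem_Inv, mem_Inv]
    simp only [List.mem_cons, List.not_mem_nil, or_false, forall_eq_or_imp, forall_eq]
    tauto
  have d1 : orb [I.a, I.b] = 2 * orb [I.c, I.a, I.b] := by
    refine orb_double (G := I.co) I.cc ?_ ?_ I.coc
    · intro f hf v
      simp only [List.mem_cons, List.not_mem_nil, or_false] at hf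
      rcases hf with rfl | rfl
      · exact I.ac v
      · exact I.bc v
    · rw [mem_Inv]
      intro f hf v
      simp only [List.mem_cons, List.not_mem_nil, or_false] at hf
      rcases hf with rfl | rfl
      · exact I.coa v
      · exact I.cob v
  obtain ⟨D, f, hf, hDb⟩ := exists_region_b (I := I) (g := fun _ => 1) (fun _ => rfl)
    (fun ω => by
      show (1 : F2) + 1 + 1 + 1 = 0
      decide) (fun _ => rfl)
  have hDN : ∀ z, D (descent_N hch z) = D z := descent_D_N hch hf (fun _ => rfl)
  have hDc : ∀ z, D (I.c z) = D z + 1 := by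
    have h0 : ∀ z, I.co z = 0 → D (I.c z) = D z + 1 := by
      intro z hz
      have h1 := hf.jump (pt z hz)
      rw [hf.f0, hf.f1] at h1
      rw [← h1, ← add_assoc, descent_add_self, zero_add]
    intro z
    rcases descent_F2 (I.co z) with h | h
    · exact h0 z h
    · have h1 : I.co (I.c z) = 0 := by rw [I.coc, h]; decide
      have h2 := h0 _ h1
      rw [I.cc] at h2
      rw [h2, add_assoc, descent_add_self, add_zero]
  have d2 : orb [descent_N hch, I.b] = 2 * orb [I.c, descent_N hch, I.b] := by
    refine orb_double (G := D) I.cc ?_ ?_ hDc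
    · intro f hf v
      simp only [List.mem_cons, List.not_mem_nil, or_false] at hf
      rcases hf with rfl | rfl
      · exact (descent_cN hch v).symm
      · exact I.bc v
    · rw [mem_Inv]
      intro f hf v
      simp only [List.mem_cons, List.not_mem_nil, or_false] at hf
      rcases hf with rfl | rfl
      · exact hDN v
      · exact hDb v
  rw [e3', e3, e2', d2, e2, d1, e1, descent_card hch]
  omega

end Pool.Agent.Lib.MP_131179_gt.Dehn
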