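import Pool.Agent.Lib.MP_131179_gt.Dehn.Ring
import Pool.Agent.Lib.MP_131179_gt.Dehn.Box

/-!
# The squares in which the chords are

The square number `(u, a)` is perpendicular to the direction `a`, and its smallest corner is `N u`.
-/

set_option autoImplicit false

namespace Pool.Agent.Lib.MP_131179_gt.Dehn

/-- The embedding of the square number `(u, a)`. -/
def emb (N : ℤ) (u : P3) (a : Fin 3) (x : P2) : P3 :=
  if a = 0 then (N * u.1, N * u.2.1 + x.1, N * u.2.2 + x.2)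
  else if a = 1 then (N * u.1 + x.1, N * u.2.1, N * u.2.2 + x.2)
  else (N * u.1 + x.1, N * u.2.1 + x.2, N * u.2.2)

/-- The points on the boundary of the square. -/
def Bd2 (N : ℤ) (x : P2) : Prop := x.1 = 0 ∨ x.1 = N ∨ x.2 = 0 ∨ x.2 = N

/-- The points of the square. -/
def Sq2 (N : ℤ) (x : P2) : Prop := 0 ≤ x.1 ∧ x.1 ≤ N ∧ 0 ≤ x.2 ∧ x.2 ≤ N

private theorem embInt {N u u' x x' : ℤ} (hN : 2 ≤ N) (h0 : 0 ≤ x) (h1 : x ≤ N) (h0' : 0 ≤ x')
    (h1' : x' ≤ N) (h : N * u + x = N * u' + x') :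
    (u = u' ∧ x = x') ∨ ((x = 0 ∨ x = N) ∧ (x' = 0 ∨ x' = N)) := by
  rcases lt_trichotomy u u' with hu | hu | hu
  · right
    have h2 : N * (u + 1) ≤ N * u' := mul_le_mul_of_nonneg_left (by omega) (by omega)
    rw [mul_add, mul_one] at h2
    constructor
    · right; omega
    · left; omega
  · left
    subst hu
    exact ⟨rfl, by omega⟩
  · right
    have h2 : N * (u' + 1) ≤ N * u := mul_le_mul_of_nonneg_left (by omega) (by omega)
    rw [mul_add, mul_one] at h2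
    constructor
    · left; omega
    · right; omega

private theorem embInt0 {N u u' x : ℤ} (hN : 2 ≤ N) (h0 : 0 ≤ x) (h1 : x ≤ N)
    (h : N * u + x = N * u') : x = 0 ∨ x = N := by
  rcases embInt hN h0 h1 le_rfl (by omega : (0 : ℤ) ≤ N) (h.trans (add_zero _).symm) with h2 | h2
  · exact Or.inl h2.2
  · exact h2.1

theorem emb_injective (N : ℤ) (u : P3) (a : Fin 3) : Function.Injective (emb N u a) := by
  rintro ⟨x1, x2⟩ ⟨y1, y2⟩ h
  fin_cases a
  · simp [emb] at h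
    exact Prod.ext h.1 h.2
  · simp [emb] at h
    exact Prod.ext h.1 h.2
  · simp [emb] at h
    exact Prod.ext h.1 h.2

theorem adj_emb {N : ℤ} {u : P3} {a : Fin 3} {x y : P2} (h : Adj2 x y) :
    Adj (emb N u a x) (emb N u a y) := by
  obtain ⟨x1, x2⟩ := x
  obtain ⟨y1, y2⟩ := y
  unfold Adj2 at h
  simp only at h
  have key : ∀ (p q : P3) (i : Fin 3), (q = p + e3 i ∨ p = q + e3 i) → Adj p q :=
    fun p q i h => ⟨i, h⟩
  rcases h with ⟨h1, h2 | h2⟩ | ⟨h1, h2 | h2⟩ <;> subst h1 <;> subst h2 <;> fin_cases a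
  · exact key _ _ 2 (Or.inl (by simp [emb, e3]; ring))
  · exact key _ _ 2 (Or.inl (by simp [emb, e3]; ring))
  · exact key _ _ 1 (Or.inl (by simp [emb, e3]; ring))
  · exact key _ _ 2 (Or.inr (by simp [emb, e3]; ring))
  · exact key _ _ 2 (Or.inr (by simp [emb, e3]; ring))
  · exact key _ _ 1 (Or.inr (by simp [emb, e3]; ring))
  · exact key _ _ 1 (Or.inl (by simp [emb, e3]; ring))
  · exact key _ _ 0 (Or.inl (by simp [emb, e3]; ring))
  · exact key _ _ 0 (Or.inl (by simp [emb, e3]; ring))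
  · exact key _ _ 1 (Or.inr (by simp [emb, e3]; ring))
  · exact key _ _ 0 (Or.inr (by simp [emb, e3]; ring))
  · exact key _ _ 0 (Or.inr (by simp [emb, e3]; ring))

/-- Different squares meet only in their boundaries. -/
theorem emb_eq {N : ℤ} (hN : 2 ≤ N) {u u' : P3} {a a' : Fin 3} {x x' : P2} (hx : Sq2 N x)
    (hx' : Sq2 N x') (h : emb N u a x = emb N u' a' x') (hne : (u, a) ≠ (u', a')) :
    Bd2 N x ∧ Bd2 N x' := by
  obtain ⟨x1, x2⟩ := x
  obtain ⟨y1, y2⟩ := x'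
  obtain ⟨u1, u2, u3⟩ := u
  obtain ⟨v1, v2, v3⟩ := u'
  obtain ⟨hx1, hx2, hx3, hx4⟩ := hx
  obtain ⟨hy1, hy2, hy3, hy4⟩ := hx'
  simp only at hx1 hx2 hx3 hx4 hy1 hy2 hy3 hy4
  have hN0 : N ≠ 0 := by omega
  have canc : ∀ {p q : ℤ}, N * p = N * q → p = q := fun h => mul_left_cancel₀ hN0 h
  unfold Bd2
  fin_cases a <;> fin_cases a'
  · simp [emb] at h
    obtain ⟨h1, h2, h3⟩ := h
    have e1 : u1 = v1 := by
      rcases h1 with h1 | h1
      · exact h1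
      · exact absurd h1 hN0
    rcases embInt hN hx1 hx2 hy1 hy2 h2 with ⟨e2, e3⟩ | ⟨e2, e3⟩
    · rcases embInt hN hx3 hx4 hy3 hy4 h3 with ⟨e4, e5⟩ | ⟨e4, e5⟩
      · exact absurd (by rw [e1, e2, e4]) hne
      · simp only; tauto
    · simp only; tauto
  · simp [emb] at h
    obtain ⟨h1, h2, h3⟩ := h
    have e1 := embInt0 hN hy1 hy2 h1.symm
    have e2 := embInt0 hN hx1 hx2 h2
    simp only; tauto
  · simp [emb] at h
    obtain ⟨h1, h2, h3⟩ := h
    have e1 := embInt0 hN hy1 hy2 h1.symm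
    have e2 := embInt0 hN hx3 hx4 h3
    simp only; tauto
  · simp [emb] at h
    obtain ⟨h1, h2, h3⟩ := h
    have e1 := embInt0 hN hx1 hx2 h1
    have e2 := embInt0 hN hy1 hy2 h2.symm
    simp only; tauto
  · simp [emb] at h
    obtain ⟨h1, h2, h3⟩ := h
    have e1 : u2 = v2 := by
      rcases h2 with h1 | h1
      · exact h1
      · exact absurd h1 hN0
    rcases embInt hN hx1 hx2 hy1 hy2 h1 with ⟨e2, e3⟩ | ⟨e2, e3⟩
    · rcases embInt hN hx3 hx4 hy3 hy4 h3 with ⟨e4, e5⟩ | ⟨e4, e5⟩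
      · exact absurd (by rw [e1, e2, e4]) hne
      · simp only; tauto
    · simp only; tauto
  · simp [emb] at h
    obtain ⟨h1, h2, h3⟩ := h
    have e1 := embInt0 hN hy3 hy4 h2.symm
    have e2 := embInt0 hN hx3 hx4 h3
    simp only; tauto
  · simp [emb] at h
    obtain ⟨h1, h2, h3⟩ := h
    have e1 := embInt0 hN hx1 hx2 h1
    have e2 := embInt0 hN hy3 hy4 h3.symm
    simp only; tauto
  · simp [emb] at h
    obtain ⟨h1, h2, h3⟩ := h
    have e1 := embInt0 hN hx3 hx4 h2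
    have e2 := embInt0 hN hy3 hy4 h3.symm
    simp only; tauto
  · simp [emb] at h
    obtain ⟨h1, h2, h3⟩ := h
    have e1 : u3 = v3 := by
      rcases h3 with h1 | h1
      · exact h1
      · exact absurd h1 hN0
    rcases embInt hN hx1 hx2 hy1 hy2 h1 with ⟨e2, e3⟩ | ⟨e2, e3⟩
    · rcases embInt hN hx3 hx4 hy3 hy4 h2 with ⟨e4, e5⟩ | ⟨e4, e5⟩
      · exact absurd (by rw [e1, e2, e4]) hne
      · simp only; tauto
    · simp only; tauto

/-- The box of the vertex `v`. -/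
def bxl (N : ℤ) (v : P3) : P3 := (N * v.1, N * v.2.1, N * v.2.2)

def bxh (N : ℤ) (v : P3) : P3 := (N * (v.1 + 1), N * (v.2.1 + 1), N * (v.2.2 + 1))

theorem size_bx {N : ℤ} (hN : 2 ≤ N) (v : P3) (i : Fin 3) :
    co3 (bxl N v) i + 2 ≤ co3 (bxh N v) i := by
  fin_cases i <;> simp [co3, bxl, bxh, mul_add] <;> omega

private theorem embNe {N u v : ℤ} (hN : 2 ≤ N) {x : ℤ} (hx : 0 ≤ x ∧ x ≤ N) (hu : u = v) :
    (N * u + x = N * v ∨ N * u + x = N * (v + 1)) ↔ (x = 0 ∨ x = N) := by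
  subst hu
  rw [mul_add, mul_one]
  constructor
  · rintro (h | h)
    · left; omega
    · right; omega
  · rintro (h | h)
    · left; omega
    · right; omega

private theorem emb_box {N : ℤ} (hN : 2 ≤ N) {u v : P3} {a : Fin 3} (hv : v = u ∨ v + e3 a = u)
    {x : P2} (hx : Sq2 N x) : InBox (bxl N v) (bxh N v) (emb N u a x) := by
  obtain ⟨x1, x2⟩ := x
  obtain ⟨u1, u2, u3⟩ := u
  obtain ⟨v1, v2, v3⟩ := v
  obtain ⟨h1, h2, h3, h4⟩ := hx
  simp only at h1 h2 h3 h4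
  intro i
  rcases hv with hv | hv
  · simp only [Prod.mk.injEq] at hv
    obtain ⟨rfl, rfl, rfl⟩ := hv
    fin_cases a <;> fin_cases i <;> simp [co3, bxl, bxh, emb, mul_add] <;> omega
  · fin_cases a
    · simp [e3] at hv
      obtain ⟨rfl, rfl, rfl⟩ := hv
      fin_cases i <;> simp [co3, bxl, bxh, emb, mul_add] <;> omega
    · simp [e3] at hv
      obtain ⟨rfl, rfl, rfl⟩ := hv
      fin_cases i <;> simp [co3, bxl, bxh, emb, mul_add] <;> omega
    · simp [e3] at hv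
      obtain ⟨rfl, rfl, rfl⟩ := hv
      fin_cases i <;> simp [co3, bxl, bxh, emb, mul_add] <;> omega

private theorem nex_eq (lo hi p : P3) : nex lo hi p =
    (if Ext lo hi p 0 then 1 else 0) + (if Ext lo hi p 1 then 1 else 0) +
      (if Ext lo hi p 2 then 1 else 0) := by
  unfold nex
  rw [Finset.card_filter, Fin.sum_univ_three]

private theorem nex_emb {N : ℤ} (hN : 2 ≤ N) {u v : P3} {a : Fin 3} (hv : v = u ∨ v + e3 a = u)
    {x : P2} (hx : Sq2 N x) : nex (bxl N v) (bxh N v) (emb N u a x) =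
      1 + (if x.1 = 0 ∨ x.1 = N then 1 else 0) + (if x.2 = 0 ∨ x.2 = N then 1 else 0) := by
  obtain ⟨x1, x2⟩ := x
  obtain ⟨u1, u2, u3⟩ := u
  obtain ⟨v1, v2, v3⟩ := v
  obtain ⟨h1, h2, h3, h4⟩ := hx
  simp only at h1 h2 h3 h4
  have E : ∀ (lo hi p : P3) (i : Fin 3), Ext lo hi p i ↔ (co3 p i = co3 lo i ∨ co3 p i = co3 hi i) :=
    fun _ _ _ _ => Iff.rfl
  have self1 : ∀ w : ℤ, (N * w = N * w ∨ N * w = N * (w + 1)) ↔ True := fun w => by simp
  have self2 : ∀ w : ℤ, (N * (w + 1) = N * w ∨ N * (w + 1) = N * (w + 1)) ↔ True :=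
    fun w => by simp
  have A1 : ∀ w : ℤ, (N * w + x1 = N * w ∨ N * w + x1 = N * (w + 1)) ↔ (x1 = 0 ∨ x1 = N) :=
    fun w => embNe hN ⟨h1, h2⟩ rfl
  have A2 : ∀ w : ℤ, (N * w + x2 = N * w ∨ N * w + x2 = N * (w + 1)) ↔ (x2 = 0 ∨ x2 = N) :=
    fun w => embNe hN ⟨h3, h4⟩ rfl
  rw [nex_eq]
  rcases hv with hv | hv
  · simp only [Prod.mk.injEq] at hv
    obtain ⟨rfl, rfl, rfl⟩ := hv
    fin_cases a
    · have q0 : Ext (bxl N (v1, v2, v3)) (bxh N (v1, v2, v3)) (emb N (v1, v2, v3) 0 (x1, x2)) 0 ↔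
          True := self1 v1
      have q1 : Ext (bxl N (v1, v2, v3)) (bxh N (v1, v2, v3)) (emb N (v1, v2, v3) 0 (x1, x2)) 1 ↔
          (x1 = 0 ∨ x1 = N) := A1 v2
      have q2 : Ext (bxl N (v1, v2, v3)) (bxh N (v1, v2, v3)) (emb N (v1, v2, v3) 0 (x1, x2)) 2 ↔
          (x2 = 0 ∨ x2 = N) := A2 v3
      show (if Ext (bxl N (v1, v2, v3)) (bxh N (v1, v2, v3)) (emb N (v1, v2, v3) 0 (x1, x2)) 0
        then 1 else 0) + (if Ext (bxl N (v1, v2, v3)) (bxh N (v1, v2, v3))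
        (emb N (v1, v2, v3) 0 (x1, x2)) 1 then 1 else 0) + (if Ext (bxl N (v1, v2, v3))
        (bxh N (v1, v2, v3)) (emb N (v1, v2, v3) 0 (x1, x2)) 2 then 1 else 0) = _
      simp only [q0, q1, q2, if_true]
    · have q0 : Ext (bxl N (v1, v2, v3)) (bxh N (v1, v2, v3)) (emb N (v1, v2, v3) 1 (x1, x2)) 0 ↔
          (x1 = 0 ∨ x1 = N) := A1 v1
      have q1 : Ext (bxl N (v1, v2, v3)) (bxh N (v1, v2, v3)) (emb N (v1, v2, v3) 1 (x1, x2)) 1 ↔
          True := self1 v2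
      have q2 : Ext (bxl N (v1, v2, v3)) (bxh N (v1, v2, v3)) (emb N (v1, v2, v3) 1 (x1, x2)) 2 ↔
          (x2 = 0 ∨ x2 = N) := A2 v3
      show (if Ext (bxl N (v1, v2, v3)) (bxh N (v1, v2, v3)) (emb N (v1, v2, v3) 1 (x1, x2)) 0
        then 1 else 0) + (if Ext (bxl N (v1, v2, v3)) (bxh N (v1, v2, v3))
        (emb N (v1, v2, v3) 1 (x1, x2)) 1 then 1 else 0) + (if Ext (bxl N (v1, v2, v3))
        (bxh N (v1, v2, v3)) (emb N (v1, v2, v3) 1 (x1, x2)) 2 then 1 else 0) = _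
      simp only [q0, q1, q2, if_true]
      rw [add_comm (1 : ℕ)]
    · have q0 : Ext (bxl N (v1, v2, v3)) (bxh N (v1, v2, v3)) (emb N (v1, v2, v3) 2 (x1, x2)) 0 ↔
          (x1 = 0 ∨ x1 = N) := A1 v1
      have q1 : Ext (bxl N (v1, v2, v3)) (bxh N (v1, v2, v3)) (emb N (v1, v2, v3) 2 (x1, x2)) 1 ↔
          (x2 = 0 ∨ x2 = N) := A2 v2
      have q2 : Ext (bxl N (v1, v2, v3)) (bxh N (v1, v2, v3)) (emb N (v1, v2, v3) 2 (x1, x2)) 2 ↔
          True := self1 v3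
      show (if Ext (bxl N (v1, v2, v3)) (bxh N (v1, v2, v3)) (emb N (v1, v2, v3) 2 (x1, x2)) 0
        then 1 else 0) + (if Ext (bxl N (v1, v2, v3)) (bxh N (v1, v2, v3))
        (emb N (v1, v2, v3) 2 (x1, x2)) 1 then 1 else 0) + (if Ext (bxl N (v1, v2, v3))
        (bxh N (v1, v2, v3)) (emb N (v1, v2, v3) 2 (x1, x2)) 2 then 1 else 0) = _
      simp only [q0, q1, q2, if_true]
      omega
  · fin_cases a
    · simp [e3] at hv
      obtain ⟨rfl, rfl, rfl⟩ := hv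
      have q0 : Ext (bxl N (v1, v2, v3)) (bxh N (v1, v2, v3)) (emb N (v1 + 1, v2, v3) 0 (x1, x2)) 0 ↔
          True := self2 v1
      have q1 : Ext (bxl N (v1, v2, v3)) (bxh N (v1, v2, v3)) (emb N (v1 + 1, v2, v3) 0 (x1, x2)) 1 ↔
          (x1 = 0 ∨ x1 = N) := A1 v2
      have q2 : Ext (bxl N (v1, v2, v3)) (bxh N (v1, v2, v3)) (emb N (v1 + 1, v2, v3) 0 (x1, x2)) 2 ↔
          (x2 = 0 ∨ x2 = N) := A2 v3
      show (if Ext (bxl N (v1, v2, v3)) (bxh N (v1, v2, v3)) (emb N (v1 + 1, v2, v3) 0 (x1, x2)) 0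
        then 1 else 0) + (if Ext (bxl N (v1, v2, v3)) (bxh N (v1, v2, v3))
        (emb N (v1 + 1, v2, v3) 0 (x1, x2)) 1 then 1 else 0) + (if Ext (bxl N (v1, v2, v3))
        (bxh N (v1, v2, v3)) (emb N (v1 + 1, v2, v3) 0 (x1, x2)) 2 then 1 else 0) = _
      simp only [q0, q1, q2, if_true]
    · simp [e3] at hv
      obtain ⟨rfl, rfl, rfl⟩ := hv
      have q0 : Ext (bxl N (v1, v2, v3)) (bxh N (v1, v2, v3)) (emb N (v1, v2 + 1, v3) 1 (x1, x2)) 0 ↔
          (x1 = 0 ∨ x1 = N) := A1 v1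
      have q1 : Ext (bxl N (v1, v2, v3)) (bxh N (v1, v2, v3)) (emb N (v1, v2 + 1, v3) 1 (x1, x2)) 1 ↔
          True := self2 v2
      have q2 : Ext (bxl N (v1, v2, v3)) (bxh N (v1, v2, v3)) (emb N (v1, v2 + 1, v3) 1 (x1, x2)) 2 ↔
          (x2 = 0 ∨ x2 = N) := A2 v3
      show (if Ext (bxl N (v1, v2, v3)) (bxh N (v1, v2, v3)) (emb N (v1, v2 + 1, v3) 1 (x1, x2)) 0
        then 1 else 0) + (if Ext (bxl N (v1, v2, v3)) (bxh N (v1, v2, v3))
        (emb N (v1, v2 + 1, v3) 1 (x1, x2)) 1 then 1 else 0) + (if Ext (bxl N (v1, v2, v3))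
        (bxh N (v1, v2, v3)) (emb N (v1, v2 + 1, v3) 1 (x1, x2)) 2 then 1 else 0) = _
      simp only [q0, q1, q2, if_true]
      rw [add_comm (1 : ℕ)]
    · simp [e3] at hv
      obtain ⟨rfl, rfl, rfl⟩ := hv
      have q0 : Ext (bxl N (v1, v2, v3)) (bxh N (v1, v2, v3)) (emb N (v1, v2, v3 + 1) 2 (x1, x2)) 0 ↔
          (x1 = 0 ∨ x1 = N) := A1 v1
      have q1 : Ext (bxl N (v1, v2, v3)) (bxh N (v1, v2, v3)) (emb N (v1, v2, v3 + 1) 2 (x1, x2)) 1 ↔
          (x2 = 0 ∨ x2 = N) := A2 v2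
      have q2 : Ext (bxl N (v1, v2, v3)) (bxh N (v1, v2, v3)) (emb N (v1, v2, v3 + 1) 2 (x1, x2)) 2 ↔
          True := self2 v3
      show (if Ext (bxl N (v1, v2, v3)) (bxh N (v1, v2, v3)) (emb N (v1, v2, v3 + 1) 2 (x1, x2)) 0
        then 1 else 0) + (if Ext (bxl N (v1, v2, v3)) (bxh N (v1, v2, v3))
        (emb N (v1, v2, v3 + 1) 2 (x1, x2)) 1 then 1 else 0) + (if Ext (bxl N (v1, v2, v3))
        (bxh N (v1, v2, v3)) (emb N (v1, v2, v3 + 1) 2 (x1, x2)) 2 then 1 else 0) = _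
      simp only [q0, q1, q2, if_true]
      omega

/-- The square `(u, a)` is on the boundary of the boxes of `u` and of `u - e3 a`. -/
theorem emb_onBd {N : ℤ} (hN : 2 ≤ N) {u v : P3} {a : Fin 3} (hv : v = u ∨ v + e3 a = u)
    {l : List P2} (hsq : ∀ x ∈ l, Sq2 N x)
    (hc : ∀ x ∈ l, ¬ ((x.1 = 0 ∨ x.1 = N) ∧ (x.2 = 0 ∨ x.2 = N)))
    (hg : l.IsChain fun x y => ¬ (Bd2 N x ∧ Bd2 N y)) :
    OnBd (bxl N v) (bxh N v) (l.map (emb N u a)) := by
  classical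
  refine ⟨?_, ?_, ?_, ?_⟩
  · intro p hp
    obtain ⟨x, hx, rfl⟩ := List.mem_map.1 hp
    exact emb_box hN hv (hsq x hx)
  · intro p hp
    obtain ⟨x, hx, rfl⟩ := List.mem_map.1 hp
    rw [nex_emb hN hv (hsq x hx)]
    omega
  · intro p hp
    obtain ⟨x, hx, rfl⟩ := List.mem_map.1 hp
    rw [nex_emb hN hv (hsq x hx)]
    have h1 := hc x hx
    by_cases h2 : x.1 = 0 ∨ x.1 = N
    · have h3 : ¬ (x.2 = 0 ∨ x.2 = N) := fun h3 => h1 ⟨h2, h3⟩
      rw [if_pos h2, if_neg h3]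
    · rw [if_neg h2]
      split_ifs <;> omega
  · rw [List.isChain_map]
    have key : ∀ x ∈ l, nex (bxl N v) (bxh N v) (emb N u a x) = 2 → Bd2 N x := by
      intro x hx h2
      rw [nex_emb hN hv (hsq x hx)] at h2
      unfold Bd2
      by_contra h3
      rw [if_neg (fun h4 => h3 (by tauto)), if_neg (fun h4 => h3 (by tauto))] at h2
      omega
    have h3 := List.isChain_iff_getElem.1 hg
    rw [List.isChain_iff_getElem]
    intro i hi h4
    exact h3 i hi ⟨key _ (List.getElem_mem _) h4.1, key _ (List.getElem_mem _) h4.2⟩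

/-- The squares do not meet the interiors of the boxes. -/
theorem emb_not_int {N : ℤ} (hN : 2 ≤ N) (u v : P3) (a : Fin 3) (x : P2) :
    ¬ InInt (bxl N v) (bxh N v) (emb N u a x) := by
  obtain ⟨u1, u2, u3⟩ := u
  obtain ⟨v1, v2, v3⟩ := v
  intro h
  have hNp : 0 < N := by omega
  have key : ∀ {p q : ℤ}, N * p < N * q → N * q < N * (p + 1) → False := by
    intro p q h1 h2
    have h3 := lt_of_mul_lt_mul_left h1 hNp.le
    have h4 := lt_of_mul_lt_mul_left h2 hNp.le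
    omega
  have ha := h a
  fin_cases a
  · exact key ha.1 ha.2
  · exact key ha.1 ha.2
  · exact key ha.1 ha.2

/-- Unit squares in the square. -/
theorem emb_sq {N : ℤ} (hN : 2 ≤ N) {u v : P3} {a : Fin 3} (hv : v = u ∨ v + e3 a = u) {x : P2}
    (hx : 0 < x.1 ∧ x.1 < N ∧ 0 < x.2 ∧ x.2 < N) :
    nex (bxl N v) (bxh N v) (emb N u a x) = 1 ∧ InBox (bxl N v) (bxh N v) (emb N u a x) := by
  have hs : Sq2 N x := ⟨hx.1.le, hx.2.1.le, hx.2.2.1.le, hx.2.2.2.le⟩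
  refine ⟨?_, emb_box hN hv hs⟩
  rw [nex_emb hN hv hs, if_neg (by omega), if_neg (by omega)]

end Pool.Agent.Lib.MP_131179_gt.Dehn
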