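import Pool.Agent.Lib.MP_131179_gt.Dehn.Cyc

/-!
# The fine link, definitions

We multiply the lattice by `N`, and move the curve a little bit.
-/

set_option autoImplicit false

namespace Pool.Agent.Lib.MP_131179_gt.Dehn

/-- The base point of a vertex. -/
def Bp (N : ℕ) (v : P3) : P3 := (N * v.1 + 1, N * v.2.1 + 1, N * v.2.2)

/-- The edges of the fine link which belong to an edge. -/
def fleg (N : ℕ) (e : LE) : Finset LE :=
  if e.2 = 0 then (Finset.range N).image fun t : ℕ => (Bp N e.1 + ((t : ℤ), 0, 0), (0 : Fin 3))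
  else if e.2 = 1 then (Finset.range N).image fun t : ℕ => (Bp N e.1 + (0, (t : ℤ), 0), (1 : Fin 3))
  else insert (Bp N e.1 - e3 0, (0 : Fin 3)) (insert (Bp N e.1 - e3 0 + (0, 0, (N : ℤ)), (0 : Fin 3))
    ((Finset.range N).image fun t : ℕ => (Bp N e.1 - e3 0 + (0, 0, (t : ℤ)), (2 : Fin 3))))

/-- The fine link. -/
def fineK (N : ℕ) (K : Finset LE) : Finset LE := K.biUnion (fleg N)

/-- The special point of an edge. -/
def hpt (N : ℕ) (e : LE) : P3 :=
  if e.2 = 0 then (N * (e.1.1 + 1), N * e.1.2.1 + 1, N * e.1.2.2)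
  else if e.2 = 1 then (N * e.1.1 + 1, N * (e.1.2.1 + 1), N * e.1.2.2)
  else (N * e.1.1 + 1, N * e.1.2.1 + 1, N * (e.1.2.2 + 1))

/-- The path from the base point of `v` to the special point of the edge in the direction `d`. -/
def half (N : ℕ) (v : P3) (d : Dir) : List P3 :=
  if d.2 then
    (if d.1 = 0 then (List.range N).map fun t : ℕ => Bp N v + ((t : ℤ), 0, 0)
    else if d.1 = 1 then (List.range N).map fun t : ℕ => Bp N v + (0, (t : ℤ), 0)
    else Bp N v :: ((List.range (N + 1)).map fun t : ℕ => Bp N v - e3 0 + (0, 0, (t : ℤ))) ++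
      [Bp N v + (0, 0, (N : ℤ))])
  else
    (if d.1 = 0 then [Bp N v, Bp N v - e3 0] else if d.1 = 1 then [Bp N v, Bp N v - e3 1]
    else [Bp N v])

/-- The path between the special points of the edges number `i` and `i + 1`. -/
def ep {m : ℕ} (N : ℕ) (c : Curve m) (i : ZMod m) : List P3 :=
  (half N (c.v (i + 1)) (c.dir i).neg).reverse ++ (half N (c.v (i + 1)) (c.dir (i + 1))).tail

end Pool.Agent.Lib.MP_131179_gt.Dehn
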