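import Pool.Agent.Lib.MP_131179_gt.Dehn.Coarse
import Pool.Agent.Lib.MP_131179_gt.Dehn.Arcs
import Pool.Agent.Lib.MP_131179_gt.Dehn.FineD

/-!
# The fine link

We multiply the lattice by `N`, and move the curve a little bit.
-/

set_option autoImplicit false

namespace Pool.Agent.Lib.MP_131179_gt.Dehn

/-! ### Auxiliary lemmas -/

/-- The offsets of the points of `half`. -/
def fineOff (N : ℤ) (d : Dir) (a b c : ℤ) : Prop :=
  if d.2 then
    (if d.1 = 0 then 1 ≤ a ∧ a ≤ N ∧ b = 1 ∧ c = 0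
    else if d.1 = 1 then a = 1 ∧ 1 ≤ b ∧ b ≤ N ∧ c = 0
    else b = 1 ∧ 0 ≤ c ∧ c ≤ N ∧ (a = 0 ∨ a = 1 ∧ (c = 0 ∨ c = N)))
  else
    (if d.1 = 0 then (a = 0 ∨ a = 1) ∧ b = 1 ∧ c = 0
    else if d.1 = 1 then a = 1 ∧ (b = 0 ∨ b = 1) ∧ c = 0
    else a = 1 ∧ b = 1 ∧ c = 0)

/-- The special point in the direction `d`. -/
def fineH (N : ℕ) (v : P3) (d : Dir) : P3 :=
  if d.2 then
    (if d.1 = 0 then (N * v.1 + N, N * v.2.1 + 1, N * v.2.2)
    else if d.1 = 1 then (N * v.1 + 1, N * v.2.1 + N, N * v.2.2)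
    else (N * v.1 + 1, N * v.2.1 + 1, N * v.2.2 + N))
  else
    (if d.1 = 0 then (N * v.1, N * v.2.1 + 1, N * v.2.2)
    else if d.1 = 1 then (N * v.1 + 1, N * v.2.1, N * v.2.2)
    else (N * v.1 + 1, N * v.2.1 + 1, N * v.2.2))

theorem fine_cases (d : Dir) : d = (0, true) ∨ d = (1, true) ∨ d = (2, true) ∨ d = (0, false) ∨
    d = (1, false) ∨ d = (2, false) := by
  revert d
  decide

theorem fine_half_0 (N : ℕ) (v : P3) : half N v (0, true) =
    (List.range N).map fun t : ℕ => Bp N v + ((t : ℤ), 0, 0) := rfl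

theorem fine_half_1 (N : ℕ) (v : P3) : half N v (1, true) =
    (List.range N).map fun t : ℕ => Bp N v + (0, (t : ℤ), 0) := rfl

theorem fine_half_2 (N : ℕ) (v : P3) : half N v (2, true) =
    Bp N v :: ((List.range (N + 1)).map fun t : ℕ => Bp N v - e3 0 + (0, 0, (t : ℤ))) ++
      [Bp N v + (0, 0, (N : ℤ))] := rfl

theorem fine_half_0' (N : ℕ) (v : P3) : half N v (0, false) = [Bp N v, Bp N v - e3 0] := rfl

theorem fine_half_1' (N : ℕ) (v : P3) : half N v (1, false) = [Bp N v, Bp N v - e3 1] := rfl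

theorem fine_half_2' (N : ℕ) (v : P3) : half N v (2, false) = [Bp N v] := rfl

theorem fine_mem {N : ℕ} {v : P3} {d : Dir} {x : P3} (h : x ∈ half N v d) :
    ∃ a b c : ℤ, x = (N * v.1 + a, N * v.2.1 + b, N * v.2.2 + c) ∧ fineOff N d a b c := by
  obtain ⟨v0, v1, v2⟩ := v
  rcases fine_cases d with rfl | rfl | rfl | rfl | rfl | rfl
  · rw [fine_half_0, List.mem_map] at h
    obtain ⟨t, ht, rfl⟩ := h
    rw [List.mem_range] at ht
    refine ⟨1 + t, 1, 0, ?_, ?_⟩
    · simp only [Bp, Prod.mk_add_mk, Prod.mk.injEq]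
      refine ⟨by ring, by ring, trivial⟩
    · show (1 : ℤ) ≤ 1 + t ∧ (1 + t : ℤ) ≤ N ∧ (1 : ℤ) = 1 ∧ (0 : ℤ) = 0
      omega
  · rw [fine_half_1, List.mem_map] at h
    obtain ⟨t, ht, rfl⟩ := h
    rw [List.mem_range] at ht
    refine ⟨1, 1 + t, 0, ?_, ?_⟩
    · simp only [Bp, Prod.mk_add_mk, Prod.mk.injEq]
      refine ⟨by ring, by ring, trivial⟩
    · show (1 : ℤ) = 1 ∧ (1 : ℤ) ≤ 1 + t ∧ (1 + t : ℤ) ≤ N ∧ (0 : ℤ) = 0
      omega
  · rw [fine_half_2, List.mem_append, List.mem_cons, List.mem_map, List.mem_singleton] at h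
    rcases h with (rfl | ⟨t, ht, rfl⟩) | rfl
    · refine ⟨1, 1, 0, ?_, ?_⟩
      · simp only [Bp, add_zero]
      · show (1 : ℤ) = 1 ∧ (0 : ℤ) ≤ 0 ∧ (0 : ℤ) ≤ N ∧ ((1 : ℤ) = 0 ∨ (1 : ℤ) = 1 ∧
          ((0 : ℤ) = 0 ∨ (0 : ℤ) = N))
        omega
    · rw [List.mem_range] at ht
      refine ⟨0, 1, t, ?_, ?_⟩
      · simp only [Bp, e3, Prod.mk_add_mk, Prod.mk_sub_mk, Prod.mk.injEq]
        refine ⟨by ring, by ring, by ring⟩
      · show (1 : ℤ) = 1 ∧ (0 : ℤ) ≤ t ∧ (t : ℤ) ≤ N ∧ ((0 : ℤ) = 0 ∨ (0 : ℤ) = 1 ∧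
          ((t : ℤ) = 0 ∨ (t : ℤ) = N))
        omega
    · refine ⟨1, 1, N, ?_, ?_⟩
      · simp only [Bp, Prod.mk_add_mk, add_zero]
      · show (1 : ℤ) = 1 ∧ (0 : ℤ) ≤ N ∧ (N : ℤ) ≤ N ∧ ((1 : ℤ) = 0 ∨ (1 : ℤ) = 1 ∧
          ((N : ℤ) = 0 ∨ (N : ℤ) = N))
        omega
  · rw [fine_half_0', List.mem_cons, List.mem_singleton] at h
    rcases h with rfl | rfl
    · refine ⟨1, 1, 0, ?_, ?_⟩
      · simp only [Bp, add_zero]
      · show ((1 : ℤ) = 0 ∨ (1 : ℤ) = 1) ∧ (1 : ℤ) = 1 ∧ (0 : ℤ) = 0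
        omega
    · refine ⟨0, 1, 0, ?_, ?_⟩
      · simp only [Bp, e3, Prod.mk_sub_mk, Prod.mk.injEq]
        refine ⟨by ring, by ring, by ring⟩
      · show ((0 : ℤ) = 0 ∨ (0 : ℤ) = 1) ∧ (1 : ℤ) = 1 ∧ (0 : ℤ) = 0
        omega
  · rw [fine_half_1', List.mem_cons, List.mem_singleton] at h
    rcases h with rfl | rfl
    · refine ⟨1, 1, 0, ?_, ?_⟩
      · simp only [Bp, add_zero]
      · show (1 : ℤ) = 1 ∧ ((1 : ℤ) = 0 ∨ (1 : ℤ) = 1) ∧ (0 : ℤ) = 0
        omega
    · refine ⟨1, 0, 0, ?_, ?_⟩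
      · simp only [Bp, e3, Prod.mk_sub_mk, Prod.mk.injEq]
        refine ⟨by ring, by ring, by ring⟩
      · show (1 : ℤ) = 1 ∧ ((0 : ℤ) = 0 ∨ (0 : ℤ) = 1) ∧ (0 : ℤ) = 0
        omega
  · rw [fine_half_2', List.mem_singleton] at h
    subst h
    refine ⟨1, 1, 0, ?_, ?_⟩
    · simp only [Bp, add_zero]
    · show (1 : ℤ) = 1 ∧ (1 : ℤ) = 1 ∧ (0 : ℤ) = 0
      omega

theorem fine_last {N : ℕ} (hN : 1 ≤ N) (v : P3) (d : Dir) :
    (half N v d).getLast? = some (fineH N v d) := by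
  obtain ⟨v0, v1, v2⟩ := v
  obtain ⟨n, rfl⟩ : ∃ n, N = n + 1 := ⟨N - 1, by omega⟩
  rcases fine_cases d with rfl | rfl | rfl | rfl | rfl | rfl
  · rw [fine_half_0, List.range_succ, List.map_append, List.map_singleton,
      List.getLast?_append_of_ne_nil _ (by simp), List.getLast?_singleton]
    show some _ = some (((n + 1 : ℕ) : ℤ) * v0 + ((n + 1 : ℕ) : ℤ), ((n + 1 : ℕ) : ℤ) * v1 + 1,
      ((n + 1 : ℕ) : ℤ) * v2)
    simp only [Bp, Prod.mk_add_mk, Option.some.injEq, Prod.mk.injEq]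
    refine ⟨by push_cast; ring, by ring, by ring⟩
  · rw [fine_half_1, List.range_succ, List.map_append, List.map_singleton,
      List.getLast?_append_of_ne_nil _ (by simp), List.getLast?_singleton]
    show some _ = some (((n + 1 : ℕ) : ℤ) * v0 + 1, ((n + 1 : ℕ) : ℤ) * v1 + ((n + 1 : ℕ) : ℤ),
      ((n + 1 : ℕ) : ℤ) * v2)
    simp only [Bp, Prod.mk_add_mk, Option.some.injEq, Prod.mk.injEq]
    refine ⟨by ring, by push_cast; ring, by ring⟩
  · rw [fine_half_2, List.getLast?_append_of_ne_nil _ (by simp), List.getLast?_singleton]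
    show some _ = some (((n + 1 : ℕ) : ℤ) * v0 + 1, ((n + 1 : ℕ) : ℤ) * v1 + 1,
      ((n + 1 : ℕ) : ℤ) * v2 + ((n + 1 : ℕ) : ℤ))
    simp only [Bp, Prod.mk_add_mk, Option.some.injEq, Prod.mk.injEq]
    refine ⟨by ring, by ring, trivial⟩
  · rw [fine_half_0', List.getLast?_cons_cons, List.getLast?_singleton]
    show some _ = some (((n + 1 : ℕ) : ℤ) * v0, ((n + 1 : ℕ) : ℤ) * v1 + 1,
      ((n + 1 : ℕ) : ℤ) * v2)
    simp only [Bp, e3, Prod.mk_sub_mk, Option.some.injEq, Prod.mk.injEq]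
    refine ⟨by ring, by ring, by ring⟩
  · rw [fine_half_1', List.getLast?_cons_cons, List.getLast?_singleton]
    show some _ = some (((n + 1 : ℕ) : ℤ) * v0 + 1, ((n + 1 : ℕ) : ℤ) * v1,
      ((n + 1 : ℕ) : ℤ) * v2)
    simp only [Bp, e3, Prod.mk_sub_mk, Option.some.injEq, Prod.mk.injEq]
    refine ⟨by ring, by ring, by ring⟩
  · rw [fine_half_2', List.getLast?_singleton]
    rfl

theorem fine_cons {N : ℕ} (hN : 1 ≤ N) (v : P3) (d : Dir) :
    half N v d = Bp N v :: (half N v d).tail := by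
  obtain ⟨v0, v1, v2⟩ := v
  obtain ⟨n, rfl⟩ : ∃ n, N = n + 1 := ⟨N - 1, by omega⟩
  rcases fine_cases d with rfl | rfl | rfl | rfl | rfl | rfl
  · rw [fine_half_0, List.range_succ_eq_map, List.map_cons, List.tail_cons]
    congr 1
    simp [Bp]
  · rw [fine_half_1, List.range_succ_eq_map, List.map_cons, List.tail_cons]
    congr 1
    simp [Bp]
  · rfl
  · rfl
  · rfl
  · rfl

theorem fine_line_chain {f : ℕ → P3} (h : ∀ t, Adj (f t) (f (t + 1))) (n : ℕ) :
    ((List.range n).map f).IsChain Adj := by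
  rw [List.isChain_iff_getElem]
  intro i hi
  simpa using h i

theorem fine_adj_pos {p q : P3} (k : Fin 3) (h : q = p + e3 k) : Adj p q := ⟨k, Or.inl h⟩

theorem fine_adj_neg {p q : P3} (k : Fin 3) (h : p = q + e3 k) : Adj p q := ⟨k, Or.inr h⟩

theorem fine_chain (N : ℕ) (v : P3) (d : Dir) : (half N v d).IsChain Adj := by
  obtain ⟨v0, v1, v2⟩ := v
  rcases fine_cases d with rfl | rfl | rfl | rfl | rfl | rfl
  · rw [fine_half_0]
    apply fine_line_chain
    intro t
    apply fine_adj_pos 0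
    simp [Bp, e3]
    ring
  · rw [fine_half_1]
    apply fine_line_chain
    intro t
    apply fine_adj_pos 1
    simp [Bp, e3]
    ring
  · rw [fine_half_2]
    rw [List.isChain_append, List.isChain_cons]
    refine ⟨⟨?_, ?_⟩, by simp, ?_⟩
    · rw [List.range_succ_eq_map]
      simp only [List.map_cons, List.head?_cons, Option.mem_def, Option.some.injEq]
      rintro y rfl
      apply fine_adj_neg 0
      simp [Bp, e3]
    · apply fine_line_chain
      intro t
      apply fine_adj_pos 2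
      simp [Bp, e3]
      ring
    · rw [List.range_succ, List.map_append, List.map_singleton, List.cons_append.symm]
      rw [List.getLast?_append_of_ne_nil _ (by simp)]
      simp only [List.getLast?_singleton, List.head?_cons, Option.mem_def, Option.some.injEq]
      rintro x rfl y rfl
      apply fine_adj_pos 0
      simp [Bp, e3]
  · rw [fine_half_0']
    simp only [List.isChain_cons_cons, List.isChain_singleton, and_true]
    apply fine_adj_neg 0
    simp
  · rw [fine_half_1']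
    simp only [List.isChain_cons_cons, List.isChain_singleton, and_true]
    apply fine_adj_neg 1
    simp
  · rw [fine_half_2']
    simp

theorem fine_nodup (N : ℕ) (hN : 1 ≤ N) (v : P3) (d : Dir) : (half N v d).Nodup := by
  obtain ⟨v0, v1, v2⟩ := v
  rcases fine_cases d with rfl | rfl | rfl | rfl | rfl | rfl
  · rw [fine_half_0]
    apply List.Nodup.map _ List.nodup_range
    intro s t h
    simpa [Bp] using h
  · rw [fine_half_1]
    apply List.Nodup.map _ List.nodup_range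
    intro s t h
    simpa [Bp] using h
  · rw [fine_half_2, List.nodup_append, List.nodup_cons]
    refine ⟨⟨?_, ?_⟩, by simp, ?_⟩
    · rw [List.mem_map]
      rintro ⟨t, -, h⟩
      simp [Bp, e3] at h
    · apply List.Nodup.map _ List.nodup_range
      intro s t h
      simpa [Bp] using h
    · intro x hx y hy hxy
      subst hxy
      rw [List.mem_singleton] at hy
      subst hy
      rw [List.mem_cons, List.mem_map] at hx
      rcases hx with h | ⟨t, -, h⟩
      · simp [Bp] at h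
        omega
      · simp [Bp, e3] at h
  · rw [fine_half_0']
    simp [Bp, e3]
  · rw [fine_half_1']
    simp [Bp, e3]
  · rw [fine_half_2']
    simp

theorem fine_pe_line {f : ℕ → P3} {k : Fin 3} (h : ∀ t, f (t + 1) = f t + e3 k) (n : ℕ) :
    pe ((List.range (n + 1)).map f) = (Finset.range n).image fun t => (f t, k) := by
  induction n with
  | zero => rfl
  | succ n ih =>
    have e : (List.range (n + 1 + 1)).map f = (List.range n).map f ++ f n :: [f (n + 1)] := by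
      rw [List.range_succ, List.map_append, List.range_succ, List.map_append, List.append_assoc]
      rfl
    have e' : (List.range n).map f ++ [f n] = (List.range (n + 1)).map f := by
      rw [List.range_succ, List.map_append]
      rfl
    rw [e, pe_append, e', ih, pe_cons_cons, pe_single, Finset.range_add_one, Finset.image_insert,
      leOf_pos' (h n)]
    ext y
    simp only [Finset.mem_union, Finset.mem_insert, Finset.notMem_empty, or_false]
    exact or_comm

theorem fine_fleg {N : ℕ} (hN : 1 ≤ N) (v : P3) (k : Fin 3) : fleg N (v, k) =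
    pe (half N v (k, true)) ∪ pe (half N (v + e3 k) (k, false)) := by
  obtain ⟨v0, v1, v2⟩ := v
  obtain ⟨n, rfl⟩ : ∃ n, N = n + 1 := ⟨N - 1, by omega⟩
  have hk : k = 0 ∨ k = 1 ∨ k = 2 := by
    revert k
    decide
  rcases hk with rfl | rfl | rfl
  · rw [fine_half_0, fine_half_0', pe_cons_cons, pe_single, fine_pe_line (k := 0)]
    · have e : Bp (n + 1) ((v0, v1, v2) + e3 0) - e3 0 = Bp (n + 1) (v0, v1, v2) + ((n : ℤ), 0, 0) := by
        simp only [Bp, e3, Prod.mk_add_mk, Prod.mk_sub_mk, Prod.mk.injEq]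
        refine ⟨by push_cast; ring, by ring, by ring⟩
      rw [leOf_neg' (p := Bp (n + 1) ((v0, v1, v2) + e3 0))
        (q := Bp (n + 1) ((v0, v1, v2) + e3 0) - e3 0) (i := 0) (by simp), e]
      show ((Finset.range (n + 1)).image fun t : ℕ => (Bp (n + 1) (v0, v1, v2) + ((t : ℤ), 0, 0),
        (0 : Fin 3))) = _
      rw [Finset.range_add_one, Finset.image_insert]
      ext y
      simp only [Finset.mem_union, Finset.mem_insert, Finset.notMem_empty, or_false]
      exact or_comm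
    · intro t
      simp only [Bp, e3, Prod.mk_add_mk, Prod.mk.injEq]
      refine ⟨by push_cast; ring, by ring, by ring⟩
  · rw [fine_half_1, fine_half_1', pe_cons_cons, pe_single, fine_pe_line (k := 1)]
    · have e : Bp (n + 1) ((v0, v1, v2) + e3 1) - e3 1 = Bp (n + 1) (v0, v1, v2) + (0, (n : ℤ), 0) := by
        simp only [Bp, e3, Prod.mk_add_mk, Prod.mk_sub_mk, Prod.mk.injEq]
        refine ⟨by ring, by push_cast; ring, by ring⟩
      rw [leOf_neg' (p := Bp (n + 1) ((v0, v1, v2) + e3 1))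
        (q := Bp (n + 1) ((v0, v1, v2) + e3 1) - e3 1) (i := 1) (by simp), e]
      show ((Finset.range (n + 1)).image fun t : ℕ => (Bp (n + 1) (v0, v1, v2) + (0, (t : ℤ), 0),
        (1 : Fin 3))) = _
      rw [Finset.range_add_one, Finset.image_insert]
      ext y
      simp only [Finset.mem_union, Finset.mem_insert, Finset.notMem_empty, or_false]
      exact or_comm
    · intro t
      simp only [Bp, e3, Prod.mk_add_mk, Prod.mk.injEq]
      refine ⟨by ring, by push_cast; ring, by ring⟩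
  · rw [fine_half_2, fine_half_2', pe_single, Finset.union_empty]
    set g : ℕ → P3 := fun t => Bp (n + 1) (v0, v1, v2) - e3 0 + (0, 0, (t : ℤ)) with hg
    have hg1 : ∀ t, g (t + 1) = g t + e3 2 := by
      intro t
      simp only [hg, Bp, e3, Prod.mk_add_mk, Prod.mk_sub_mk, Prod.mk.injEq]
      refine ⟨by ring, by ring, by push_cast; ring⟩
    have e0 : g 0 = Bp (n + 1) (v0, v1, v2) - e3 0 := by
      simp [hg]
    have e1 : Bp (n + 1) (v0, v1, v2) :: (List.range (n + 1 + 1)).map g ++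
        [Bp (n + 1) (v0, v1, v2) + (0, 0, ((n + 1 : ℕ) : ℤ))] =
        Bp (n + 1) (v0, v1, v2) :: g 0 :: ((List.range (n + 1)).map (g ∘ Nat.succ) ++
        [Bp (n + 1) (v0, v1, v2) + (0, 0, ((n + 1 : ℕ) : ℤ))]) := by
      rw [List.range_succ_eq_map]
      simp
    have e2 : g 0 :: ((List.range (n + 1)).map (g ∘ Nat.succ) ++
        [Bp (n + 1) (v0, v1, v2) + (0, 0, ((n + 1 : ℕ) : ℤ))]) =
        (List.range (n + 1)).map g ++ g (n + 1) ::
        [Bp (n + 1) (v0, v1, v2) + (0, 0, ((n + 1 : ℕ) : ℤ))] := by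
      have e6 : g 0 :: (List.range (n + 1)).map (g ∘ Nat.succ) = (List.range (n + 1 + 1)).map g := by
        rw [List.range_succ_eq_map (n := n + 1), List.map_cons, List.map_map]
      have e4 : (List.range (n + 1 + 1)).map g = (List.range (n + 1)).map g ++ [g (n + 1)] := by
        rw [List.range_succ (n := n + 1), List.map_append]
        rfl
      rw [← List.cons_append, e6, e4, List.append_assoc]
      rfl
    have e5 : (List.range (n + 1)).map g ++ [g (n + 1)] = (List.range (n + 1 + 1)).map g := by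
      rw [List.range_succ (n := n + 1), List.map_append]
      rfl
    rw [e1, pe_cons_cons, e2, pe_append, e5, fine_pe_line (k := 2) hg1, pe_cons_cons, pe_single,
      leOf_neg' (p := Bp (n + 1) (v0, v1, v2)) (q := g 0) (i := 0) (by rw [e0]; simp),
      leOf_pos' (p := g (n + 1)) (i := 0) (by simp [hg, Bp, e3]), e0]
    show insert (Bp (n + 1) (v0, v1, v2) - e3 0, (0 : Fin 3)) (insert (g (n + 1), (0 : Fin 3))
      ((Finset.range (n + 1)).image fun t : ℕ => (g t, (2 : Fin 3)))) = _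
    ext y
    simp only [Finset.mem_union, Finset.mem_insert, Finset.notMem_empty, or_false]
    rw [or_comm (a := y = (g (n + 1), 0))]

theorem fine_hpt_pos (N : ℕ) (v : P3) (k : Fin 3) : hpt N (v, k) = fineH N v (k, true) := by
  have hk : k = 0 ∨ k = 1 ∨ k = 2 := by
    revert k
    decide
  rcases hk with rfl | rfl | rfl
  · show ((N * (v.1 + 1), N * v.2.1 + 1, N * v.2.2) : P3) = (N * v.1 + N, N * v.2.1 + 1, N * v.2.2)
    rw [mul_add, mul_one]
  · show ((N * v.1 + 1, N * (v.2.1 + 1), N * v.2.2) : P3) = (N * v.1 + 1, N * v.2.1 + N, N * v.2.2)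
    rw [mul_add, mul_one]
  · show ((N * v.1 + 1, N * v.2.1 + 1, N * (v.2.2 + 1)) : P3) =
      (N * v.1 + 1, N * v.2.1 + 1, N * v.2.2 + N)
    rw [mul_add, mul_one]

theorem fine_hpt_neg (N : ℕ) (v : P3) (k : Fin 3) :
    hpt N (v, k) = fineH N (v + e3 k) (k, false) := by
  obtain ⟨v0, v1, v2⟩ := v
  have hk : k = 0 ∨ k = 1 ∨ k = 2 := by
    revert k
    decide
  rcases hk with rfl | rfl | rfl
  · show ((N * (v0 + 1), N * v1 + 1, N * v2) : P3) = (N * (v0 + 1), N * (v1 + 0) + 1, N * (v2 + 0))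
    simp
  · show ((N * v0 + 1, N * (v1 + 1), N * v2) : P3) = (N * (v0 + 0) + 1, N * (v1 + 1), N * (v2 + 0))
    simp
  · show ((N * v0 + 1, N * v1 + 1, N * (v2 + 1)) : P3) =
      (N * (v0 + 0) + 1, N * (v1 + 0) + 1, N * (v2 + 1))
    simp

theorem fine_arith {N p q a a' : ℤ} (hN : 1 ≤ N) (h : N * p + a = N * q + a') (ha : 0 ≤ a)
    (ha2 : a ≤ N) (ha' : 0 ≤ a') (ha2' : a' ≤ N) :
    (p = q ∧ a = a') ∨ (p = q + 1 ∧ a = 0 ∧ a' = N) ∨ (q = p + 1 ∧ a = N ∧ a' = 0) := by
  have h1 : N * (p - q) = a' - a := by linarith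
  have h2 : p - q ≤ 1 := by
    by_contra hc
    nlinarith
  have h3 : -1 ≤ p - q := by
    by_contra hc
    nlinarith
  have h4 : p - q = -1 ∨ p - q = 0 ∨ p - q = 1 := by omega
  rcases h4 with h4 | h4 | h4
  · right; right
    rw [h4] at h1
    omega
  · left
    rw [h4] at h1
    omega
  · right; left
    rw [h4] at h1
    omega

/-- The end of `half`. -/
def fineE (N : ℤ) (d : Dir) (a b c : ℤ) : Prop :=
  if d.2 then
    (if d.1 = 0 then a = N ∧ b = 1 ∧ c = 0
    else if d.1 = 1 then a = 1 ∧ b = N ∧ c = 0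
    else a = 1 ∧ b = 1 ∧ c = N)
  else
    (if d.1 = 0 then a = 0 ∧ b = 1 ∧ c = 0
    else if d.1 = 1 then a = 1 ∧ b = 0 ∧ c = 0
    else a = 1 ∧ b = 1 ∧ c = 0)

theorem fine_E {N : ℕ} {v : P3} {d : Dir} {a b c : ℤ} (h : fineE N d a b c) :
    ((N * v.1 + a, N * v.2.1 + b, N * v.2.2 + c) : P3) = fineH N v d := by
  rcases fine_cases d with rfl | rfl | rfl | rfl | rfl | rfl
  · obtain ⟨rfl, rfl, rfl⟩ : a = N ∧ b = 1 ∧ c = 0 := h
    show _ = ((N * v.1 + N, N * v.2.1 + 1, N * v.2.2) : P3)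
    rw [add_zero]
  · obtain ⟨rfl, rfl, rfl⟩ : a = 1 ∧ b = N ∧ c = 0 := h
    show _ = ((N * v.1 + 1, N * v.2.1 + N, N * v.2.2) : P3)
    rw [add_zero]
  · obtain ⟨rfl, rfl, rfl⟩ : a = 1 ∧ b = 1 ∧ c = N := h
    rfl
  · obtain ⟨rfl, rfl, rfl⟩ : a = 0 ∧ b = 1 ∧ c = 0 := h
    show _ = ((N * v.1, N * v.2.1 + 1, N * v.2.2) : P3)
    rw [add_zero, add_zero]
  · obtain ⟨rfl, rfl, rfl⟩ : a = 1 ∧ b = 0 ∧ c = 0 := h
    show _ = ((N * v.1 + 1, N * v.2.1, N * v.2.2) : P3)
    rw [add_zero, add_zero]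
  · obtain ⟨rfl, rfl, rfl⟩ : a = 1 ∧ b = 1 ∧ c = 0 := h
    show _ = ((N * v.1 + 1, N * v.2.1 + 1, N * v.2.2) : P3)
    rw [add_zero]

theorem fine_bound {N : ℤ} (hN : 1 ≤ N) {d : Dir} {a b c : ℤ} (h : fineOff N d a b c) :
    (0 ≤ a ∧ a ≤ N) ∧ (0 ≤ b ∧ b ≤ N) ∧ (0 ≤ c ∧ c ≤ N) := by
  rcases fine_cases d with rfl | rfl | rfl | rfl | rfl | rfl <;>
    simp [fineOff] at h <;> omega

theorem fine_arith2 {N a b c a' b' c' x y z x' y' z' : ℤ} (hN : 3 ≤ N) {d d' : Dir}
    (h : fineOff N d a b c) (h' : fineOff N d' a' b' c')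
    (hx : (x = x' ∧ a = a') ∨ (x = x' + 1 ∧ a = 0 ∧ a' = N) ∨ (x' = x + 1 ∧ a = N ∧ a' = 0))
    (hy : (y = y' ∧ b = b') ∨ (y = y' + 1 ∧ b = 0 ∧ b' = N) ∨ (y' = y + 1 ∧ b = N ∧ b' = 0))
    (hz : (z = z' ∧ c = c') ∨ (z = z' + 1 ∧ c = 0 ∧ c' = N) ∨ (z' = z + 1 ∧ c = N ∧ c' = 0))
    (hne : ¬ (x = x' ∧ y = y' ∧ z = z')) :
    fineE N d a b c ∨
    ((x = x' + (dv d').1 ∧ y = y' + (dv d').2.1 ∧ z = z' + (dv d').2.2) ∧
      (fineE N d'.neg a b c ∨ (d'.neg ≠ d ∧ d'.1 ≠ 1 ∧ d.1 ≠ 1))) ∨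
    ((x' = x + (dv d).1 ∧ y' = y + (dv d).2.1 ∧ z' = z + (dv d).2.2) ∧
      (d.neg ≠ d' ∧ d'.1 ≠ 1 ∧ d.1 ≠ 1)) ∨
    ((x + (dv d).1 = x' + (dv d').1 ∧ y + (dv d).2.1 = y' + (dv d').2.1 ∧
      z + (dv d).2.2 = z' + (dv d').2.2) ∧ (d ≠ d' ∧ d'.1 ≠ 1 ∧ d.1 ≠ 1)) := by
  rcases fine_cases d with rfl | rfl | rfl | rfl | rfl | rfl <;>
    simp [fineOff, fineE, dv, e3, Dir.neg] at h ⊢ <;>
    rcases fine_cases d' with rfl | rfl | rfl | rfl | rfl | rfl <;>
    simp [fineOff] at h' ⊢ <;>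
    rcases hx with hx | hx | hx <;> omega

section curve

variable {m : ℕ} {c : Curve m}

/-- The legs at the vertex `i + 1`. -/
def fineLeg (c : Curve m) (i : ZMod m) (d : Dir) : Prop := d = (c.dir i).neg ∨ d = c.dir (i + 1)

theorem fine_dv_neg (d : Dir) : dv d.neg = -dv d := by
  rcases fine_cases d with rfl | rfl | rfl | rfl | rfl | rfl <;> rfl

theorem fine_neg_neg (d : Dir) : d.neg.neg = d := by
  rcases fine_cases d with rfl | rfl | rfl | rfl | rfl | rfl <;> rfl

theorem fine_neg_ax (d : Dir) : d.neg.1 = d.1 := rfl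

theorem fine_nbr {j : ZMod m} {d : Dir} (h : fineLeg c j d) :
    ∃ i, c.v (i + 1) = c.v (j + 1) + dv d ∧ fineLeg c i d.neg := by
  rcases h with rfl | rfl
  · refine ⟨j - 1, ?_, ?_⟩
    · rw [sub_add_cancel, c.step j, fine_dv_neg]
      abel
    · right
      rw [fine_neg_neg, sub_add_cancel]
  · exact ⟨j + 1, c.step (j + 1), Or.inl rfl⟩

theorem fine_nbr' {i j : ZMod m} {d : Dir} (h : fineLeg c j d)
    (hi : c.v (i + 1) = c.v (j + 1) + dv d) : fineLeg c i d.neg := by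
  obtain ⟨k, h1, h2⟩ := fine_nbr h
  have h3 : k = i := by
    have h4 := c.inj (h1.trans hi.symm)
    exact add_right_cancel h4
  rwa [h3] at h2

theorem fine_hor (hc : GoodCurve c) {i : ZMod m} {d d' : Dir} (h : fineLeg c i d)
    (h' : fineLeg c i d') (hd : d.1 ≠ 1) (hd' : d'.1 ≠ 1) : d = d' := by
  rcases h with rfl | rfl <;> rcases h' with rfl | rfl
  · rfl
  · exact absurd (hc.ver i hd).1 hd'
  · exact absurd (hc.ver i hd').1 hd
  · rfl

theorem fine_two (hc : GoodCurve c) : (2 : ZMod m) ≠ 0 := by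
  intro h
  have h3 := hc.three
  have h1 : ((2 : ℕ) : ZMod m) = 0 := by
    exact_mod_cast h
  rw [ZMod.natCast_eq_zero_iff] at h1
  have := Nat.le_of_dvd (by norm_num) h1
  omega

theorem fine_ne (hc : GoodCurve c) (i : ZMod m) : (c.dir i).neg ≠ c.dir (i + 1) := by
  intro h
  have h1 := c.step (i + 1)
  rw [← h, fine_dv_neg, c.step i, add_neg_cancel_right] at h1
  have h2 := c.inj h1
  have h3 : (2 : ZMod m) = 0 := by
    have h4 : i + (1 + 1) = i + 0 := by rw [← add_assoc, add_zero]; exact h2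
    have h5 := add_left_cancel h4
    rw [← h5]
    norm_num
  exact fine_two hc h3

theorem fine_hpt (N : ℕ) (i : ZMod m) : hpt N (c.edge i) = fineH N (c.v i) (c.dir i) ∧
    hpt N (c.edge i) = fineH N (c.v (i + 1)) (c.dir i).neg := by
  have hs := c.step i
  have hv : c.dir i = ((c.dir i).1, (c.dir i).2) := rfl
  have he : c.edge i = if (c.dir i).2 then (c.v i, (c.dir i).1) else (c.v (i + 1), (c.dir i).1) := rfl
  generalize c.dir i = d at *
  obtain ⟨k, s⟩ := d
  cases s with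
  | true =>
    have he' : c.edge i = (c.v i, k) := he
    have hs' : c.v (i + 1) = c.v i + e3 k := hs
    rw [he', hs']
    exact ⟨fine_hpt_pos N _ k, fine_hpt_neg N _ k⟩
  | false =>
    have he' : c.edge i = (c.v (i + 1), k) := he
    have hs' : c.v (i + 1) = c.v i + -e3 k := hs
    have hs2 : c.v i = c.v (i + 1) + e3 k := by
      rw [hs']
      abel
    rw [he']
    refine ⟨?_, fine_hpt_pos N _ k⟩
    rw [hs2]
    exact fine_hpt_neg N _ k

theorem fine_fleg_edge {N : ℕ} (hN : 1 ≤ N) (i : ZMod m) : fleg N (c.edge i) =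
    pe (half N (c.v i) (c.dir i)) ∪ pe (half N (c.v (i + 1)) (c.dir i).neg) := by
  have hs := c.step i
  have he : c.edge i = if (c.dir i).2 then (c.v i, (c.dir i).1) else (c.v (i + 1), (c.dir i).1) := rfl
  generalize c.dir i = d at *
  obtain ⟨k, s⟩ := d
  cases s with
  | true =>
    have he' : c.edge i = (c.v i, k) := he
    have hs' : c.v (i + 1) = c.v i + e3 k := hs
    rw [he', hs']
    exact fine_fleg hN _ k
  | false =>
    have he' : c.edge i = (c.v (i + 1), k) := he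
    have hs' : c.v (i + 1) = c.v i + -e3 k := hs
    have hs2 : c.v i = c.v (i + 1) + e3 k := by
      rw [hs']
      abel
    rw [he', Finset.union_comm, hs2]
    exact fine_fleg hN _ k

theorem fine_hpt_leg {N : ℕ} {i : ZMod m} {d : Dir} (h : fineLeg c i d) :
    fineH N (c.v (i + 1)) d = hpt N (c.edge i) ∨
    fineH N (c.v (i + 1)) d = hpt N (c.edge (i + 1)) := by
  rcases h with rfl | rfl
  · exact Or.inl (fine_hpt N i).2.symm
  · exact Or.inr (fine_hpt N (i + 1)).1.symm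

theorem fine_mem_ep {N : ℕ} {i : ZMod m} {x : P3} (h : x ∈ ep N c i) :
    ∃ d, fineLeg c i d ∧ x ∈ half N (c.v (i + 1)) d := by
  unfold ep at h
  rw [List.mem_append, List.mem_reverse] at h
  rcases h with h | h
  · exact ⟨_, Or.inl rfl, h⟩
  · exact ⟨_, Or.inr rfl, List.mem_of_mem_tail h⟩

theorem fine_ep_eq {N : ℕ} (hN : 1 ≤ N) (i : ZMod m) : ep N c i =
    (half N (c.v (i + 1)) (c.dir i).neg).tail.reverse ++
      Bp N (c.v (i + 1)) :: (half N (c.v (i + 1)) (c.dir (i + 1))).tail := by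
  unfold ep
  conv_lhs => rw [fine_cons hN (c.v (i + 1)) (c.dir i).neg, List.reverse_cons]
  rw [List.append_assoc]
  rfl

theorem fine_hpt_inj {N : ℕ} (hN : 2 ≤ N) : Function.Injective (hpt N) := by
  rintro ⟨⟨x, y, z⟩, k⟩ ⟨⟨x', y', z'⟩, k'⟩ h
  have key : ∀ p q : ℤ, (N : ℤ) * p ≠ N * q + 1 := by
    intro p q h
    have h1 : (N : ℤ) * (p - q) = 1 := by linarith
    have h2 : (N : ℤ) ∣ 1 := ⟨_, h1.symm⟩
    have h3 := Int.le_of_dvd (by norm_num) h2
    omega
  have hN' : (N : ℤ) ≠ 0 := by positivity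
  have key2 : ∀ p q : ℤ, (N : ℤ) * p = N * q → p = q := fun p q h => mul_left_cancel₀ hN' h
  have hk0 : ∀ k : Fin 3, k = 0 ∨ k = 1 ∨ k = 2 := by decide
  have hk := hk0 k
  have hk' := hk0 k'
  rcases hk with rfl | rfl | rfl <;> rcases hk' with rfl | rfl | rfl
  · have h1 : ((N * (x + 1), N * y + 1, N * z) : P3) = (N * (x' + 1), N * y' + 1, N * z') := h
    simp only [Prod.mk.injEq] at h1
    obtain ⟨h2, h3, h4⟩ := h1
    have h5 := key2 _ _ h2
    have h6 := key2 y y' (by linarith)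
    have h7 := key2 _ _ h4
    have h8 : x = x' := by linarith
    rw [h8, h6, h7]
  · exact absurd (congrArg Prod.fst h) (key (x + 1) x')
  · exact absurd (congrArg Prod.fst h) (key (x + 1) x')
  · exact absurd (congrArg Prod.fst h).symm (key (x' + 1) x)
  · have h1 : ((N * x + 1, N * (y + 1), N * z) : P3) = (N * x' + 1, N * (y' + 1), N * z') := h
    simp only [Prod.mk.injEq] at h1
    obtain ⟨h2, h3, h4⟩ := h1
    have h5 := key2 _ _ h3
    have h6 := key2 x x' (by linarith)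
    have h7 := key2 _ _ h4
    have h8 : y = y' := by linarith
    rw [h8, h6, h7]
  · exact absurd (congrArg (fun p : P3 => p.2.1) h) (key (y + 1) y')
  · exact absurd (congrArg Prod.fst h).symm (key (x' + 1) x)
  · exact absurd (congrArg (fun p : P3 => p.2.1) h).symm (key (y' + 1) y)
  · have h1 : ((N * x + 1, N * y + 1, N * (z + 1)) : P3) = (N * x' + 1, N * y' + 1, N * (z' + 1)) := h
    simp only [Prod.mk.injEq] at h1
    obtain ⟨h2, h3, h4⟩ := h1
    have h5 := key2 _ _ h4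
    have h6 := key2 x x' (by linarith)
    have h7 := key2 y y' (by linarith)
    have h8 : z = z' := by linarith
    rw [h8, h6, h7]

end curve

section

variable {m N : ℕ} [NeZero m] {c : Curve m}

theorem fineK_eq (hc : GoodCurve c) (hN : 2 ≤ N) :
    fineK N c.K = Finset.univ.biUnion fun i => pe (ep N c i) := by
  have _ := hc
  have h1 : ∀ i, pe (ep N c i) = pe (half N (c.v (i + 1)) (c.dir i).neg) ∪
      pe (half N (c.v (i + 1)) (c.dir (i + 1))) := by
    intro i
    rw [fine_ep_eq (by omega), pe_append]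
    congr 1
    · have h2 : (half N (c.v (i + 1)) (c.dir i).neg).tail.reverse ++ [Bp N (c.v (i + 1))] =
          (half N (c.v (i + 1)) (c.dir i).neg).reverse := by
        conv_rhs => rw [fine_cons (by omega : 1 ≤ N) (c.v (i + 1)) (c.dir i).neg, List.reverse_cons]
      rw [h2, pe_reverse (fine_chain N _ _)]
    · rw [← fine_cons (by omega : 1 ≤ N)]
  unfold fineK Curve.K
  rw [Finset.image_biUnion]
  ext e
  simp only [Finset.mem_biUnion, Finset.mem_univ, true_and, h1, Finset.mem_union,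
    fine_fleg_edge (by omega : 1 ≤ N)]
  constructor
  · rintro ⟨i, h | h⟩
    · refine ⟨i - 1, Or.inr ?_⟩
      rwa [sub_add_cancel]
    · exact ⟨i, Or.inl h⟩
  · rintro ⟨i, h | h⟩
    · exact ⟨i, Or.inr h⟩
    · exact ⟨i + 1, Or.inl h⟩

theorem ep_chain (hc : GoodCurve c) (hN : 2 ≤ N) (i : ZMod m) : (ep N c i).IsChain Adj := by
  have _ := hc
  have h1 : (half N (c.v (i + 1)) (c.dir i).neg).reverse.IsChain Adj := by
    rw [List.isChain_reverse]
    exact (fine_chain N _ _).imp fun a b h => h.symm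
  have h2 := fine_chain N (c.v (i + 1)) (c.dir (i + 1))
  unfold ep
  rw [fine_cons (by omega : 1 ≤ N) (c.v (i + 1)) (c.dir i).neg, List.reverse_cons] at h1 ⊢
  rw [fine_cons (by omega : 1 ≤ N) (c.v (i + 1)) (c.dir (i + 1))] at h2
  rw [List.append_assoc]
  rw [List.isChain_append] at h1 ⊢
  refine ⟨h1.1, h2, ?_⟩
  intro x hx y hy
  exact h1.2.2 x hx y hy

theorem ep_nodup (hc : GoodCurve c) (hN : 2 ≤ N) (i : ZMod m) : (ep N c i).Nodup := by
  have h1 := fine_nodup N (by omega) (c.v (i + 1)) (c.dir i).neg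
  have h2 := fine_nodup N (by omega) (c.v (i + 1)) (c.dir (i + 1))
  have hne := fine_ne hc i
  have hor := fun h h' => hne (fine_hor (c := c) hc (i := i) (Or.inl rfl) (Or.inr rfl) h h')
  unfold ep
  rw [List.nodup_append]
  refine ⟨List.nodup_reverse.2 h1, h2.sublist (List.tail_sublist _), ?_⟩
  intro x hx y hy hxy
  subst hxy
  rw [List.mem_reverse] at hx
  have hy' := List.mem_of_mem_tail hy
  have hxB : x ≠ Bp N (c.v (i + 1)) := by
    rintro rfl
    rw [fine_cons (by omega : 1 ≤ N) (c.v (i + 1)) (c.dir (i + 1)), List.nodup_cons] at h2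
    exact h2.1 hy
  obtain ⟨a, b, e, h3, h4⟩ := fine_mem hx
  obtain ⟨a', b', e', h5, h6⟩ := fine_mem hy'
  rw [h3] at h5
  simp only [Prod.mk.injEq, add_right_inj] at h5
  obtain ⟨rfl, rfl, rfl⟩ := h5
  have h7 : ¬ (a = 1 ∧ b = 1 ∧ e = 0) := by
    rintro ⟨rfl, rfl, rfl⟩
    apply hxB
    rw [h3]
    simp [Bp]
  have hN' : (2 : ℤ) ≤ N := by exact_mod_cast hN
  generalize (c.dir i).neg = A at *
  generalize c.dir (i + 1) = B at *
  rcases fine_cases A with rfl | rfl | rfl | rfl | rfl | rfl <;>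
    rcases fine_cases B with rfl | rfl | rfl | rfl | rfl | rfl <;>
    simp [fineOff] at h4 h6 hne hor <;> omega

theorem ep_head (hc : GoodCurve c) (hN : 2 ≤ N) (i : ZMod m) :
    (ep N c i).head? = some (hpt N (c.edge i)) := by
  have _ := hc
  have h1 := fine_last (by omega : 1 ≤ N) (c.v (i + 1)) (c.dir i).neg
  rw [← (fine_hpt N i).2] at h1
  unfold ep
  rw [List.head?_append_of_ne_nil, List.head?_reverse, h1]
  rw [fine_cons (by omega : 1 ≤ N)]
  simp

theorem ep_last (hc : GoodCurve c) (hN : 2 ≤ N) (i : ZMod m) :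
    (ep N c i).getLast? = some (hpt N (c.edge (i + 1))) := by
  have _ := hc
  have h1 := fine_last (by omega : 1 ≤ N) (c.v (i + 1)) (c.dir (i + 1))
  rw [← (fine_hpt N (i + 1)).1] at h1
  rw [fine_ep_eq (by omega), List.getLast?_append_of_ne_nil _ (by simp),
    ← fine_cons (by omega : 1 ≤ N), h1]

theorem ep_len (hc : GoodCurve c) (hN : 2 ≤ N) (i : ZMod m) : 2 ≤ (ep N c i).length := by
  have h1 := ep_head hc hN i
  have h2 := ep_last hc hN i
  by_contra h
  have h3 : hpt N (c.edge i) = hpt N (c.edge (i + 1)) := by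
    match hl : ep N c i with
    | [] => rw [hl] at h1; simp at h1
    | [a] =>
      rw [hl] at h1 h2
      simp at h1 h2
      rw [← h1, ← h2]
    | a :: b :: l =>
      rw [hl] at h
      simp at h
  have h4 := c.edge_injective hc.three (fine_hpt_inj hN h3)
  have h5 : (1 : ZMod m) = 0 := by
    have h6 : i + 0 = i + 1 := by rw [add_zero]; exact h4
    exact (add_left_cancel h6).symm
  apply fine_two hc
  have h7 : (2 : ZMod m) = 1 + 1 := by norm_num
  rw [h7, h5, add_zero]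

theorem ep_disj (hc : GoodCurve c) (hN : 3 ≤ N) {i j : ZMod m} (hij : i ≠ j) {x : P3}
    (hi : x ∈ ep N c i) (hj : x ∈ ep N c j) :
    x = hpt N (c.edge i) ∨ x = hpt N (c.edge (i + 1)) := by
  obtain ⟨d, hd, hx⟩ := fine_mem_ep hi
  obtain ⟨d', hd', hx'⟩ := fine_mem_ep hj
  obtain ⟨a, b, e, h3, h4⟩ := fine_mem hx
  obtain ⟨a', b', e', h5, h6⟩ := fine_mem hx'
  have hN' : (3 : ℤ) ≤ N := by exact_mod_cast hN
  have hb := fine_bound (by linarith) h4
  have hb' := fine_bound (by linarith) h6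
  rw [h3] at h5
  simp only [Prod.mk.injEq] at h5
  have ha1 := fine_arith (by linarith) h5.1 hb.1.1 hb.1.2 hb'.1.1 hb'.1.2
  have ha2 := fine_arith (by linarith) h5.2.1 hb.2.1.1 hb.2.1.2 hb'.2.1.1 hb'.2.1.2
  have ha3 := fine_arith (by linarith) h5.2.2 hb.2.2.1 hb.2.2.2 hb'.2.2.1 hb'.2.2.2
  have hne : ¬ ((c.v (i + 1)).1 = (c.v (j + 1)).1 ∧ (c.v (i + 1)).2.1 = (c.v (j + 1)).2.1 ∧
      (c.v (i + 1)).2.2 = (c.v (j + 1)).2.2) := by
    rintro ⟨h7, h8, h9⟩
    apply hij
    have h10 : c.v (i + 1) = c.v (j + 1) := Prod.ext h7 (Prod.ext h8 h9)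
    exact add_right_cancel (c.inj h10)
  have fin : ∀ D, fineLeg c i D → fineE N D a b e →
      x = hpt N (c.edge i) ∨ x = hpt N (c.edge (i + 1)) := by
    intro D hD hE
    rw [h3, fine_E hE]
    exact fine_hpt_leg hD
  rcases fine_arith2 hN' h4 h6 ha1 ha2 ha3 hne with h | ⟨⟨h7, h8, h9⟩, h⟩ | ⟨⟨h7, h8, h9⟩, h⟩ |
    ⟨⟨h7, h8, h9⟩, h⟩
  · exact fin d hd h
  · have h10 : c.v (i + 1) = c.v (j + 1) + dv d' := Prod.ext h7 (Prod.ext h8 h9)
    have h11 := fine_nbr' hd' h10
    rcases h with h | ⟨h, ha, hb⟩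
    · exact fin _ h11 h
    · exact absurd (fine_hor hc h11 hd ha hb) h
  · have h10 : c.v (j + 1) = c.v (i + 1) + dv d := Prod.ext h7 (Prod.ext h8 h9)
    have h11 := fine_nbr' hd h10
    exact absurd (fine_hor hc h11 hd' h.2.2 h.2.1) h.1
  · have h10 : c.v (i + 1) + dv d = c.v (j + 1) + dv d' := Prod.ext h7 (Prod.ext h8 h9)
    obtain ⟨k, h11, h12⟩ := fine_nbr hd
    rw [h10] at h11
    have h13 := fine_nbr' hd' h11
    have h14 := fine_hor hc h12 h13 h.2.2 h.2.1
    have h15 := congrArg Dir.neg h14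
    rw [fine_neg_neg, fine_neg_neg] at h15
    exact absurd h15 h.1

theorem ep_hpt (hc : GoodCurve c) (hN : 3 ≤ N) {i j : ZMod m} (h : hpt N (c.edge j) ∈ ep N c i) :
    j = i ∨ j = i + 1 := by
  by_cases hij : i = j
  · exact Or.inl hij.symm
  · have h1 : hpt N (c.edge j) ∈ ep N c j :=
      List.mem_of_mem_head? (ep_head hc (by omega) j)
    rcases ep_disj hc hN hij h h1 with h2 | h2
    · exact Or.inl (c.edge_injective hc.three (fine_hpt_inj (by omega) h2))
    · exact Or.inr (c.edge_injective hc.three (fine_hpt_inj (by omega) h2))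

theorem ep_disj_e (hc : GoodCurve c) (hN : 3 ≤ N) {i j : ZMod m} (hij : i ≠ j) :
    Disjoint (pe (ep N c i)) (pe (ep N c j)) := by
  rw [Finset.disjoint_left]
  intro e hi hj
  have key : ∀ x, Inc e x → x = hpt N (c.edge i) ∨ x = hpt N (c.edge (i + 1)) := by
    intro x hx
    have h1 := mem_of_on_pe (ep_chain hc (by omega) i) ⟨e, hi, hx⟩
    have h2 := mem_of_on_pe (ep_chain hc (by omega) j) ⟨e, hj, hx⟩
    exact ep_disj hc hN hij h1 h2
  have key' : ∀ x, Inc e x → x = hpt N (c.edge j) ∨ x = hpt N (c.edge (j + 1)) := by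
    intro x hx
    have h1 := mem_of_on_pe (ep_chain hc (by omega) i) ⟨e, hi, hx⟩
    have h2 := mem_of_on_pe (ep_chain hc (by omega) j) ⟨e, hj, hx⟩
    exact ep_disj hc hN (Ne.symm hij) h2 h1
  have hinj : ∀ {p q : ZMod m}, hpt N (c.edge p) = hpt N (c.edge q) → p = q := fun h =>
    c.edge_injective hc.three (fine_hpt_inj (by omega) h)
  have hp : Inc e e.1 := Or.inl rfl
  have hq : Inc e (e.1 + e3 e.2) := Or.inr rfl
  have hpq : e.1 ≠ e.1 + e3 e.2 := arcs_ne_add e.1 e.2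
  have h2 := fine_two hc
  rcases key _ hp with h1 | h1 <;> rcases key _ hq with h3 | h3 <;>
    rcases key' _ hp with h4 | h4 <;> rcases key' _ hq with h5 | h5
  · exact hpq (h1.trans h3.symm)
  · exact hpq (h1.trans h3.symm)
  · exact hpq (h1.trans h3.symm)
  · exact hpq (h1.trans h3.symm)
  · exact hpq (h4.trans h5.symm)
  · exact hij (hinj (h1.symm.trans h4))
  · have h6 := hinj (h1.symm.trans h4)
    have h7 := hinj (h3.symm.trans h5)
    apply h2
    rw [h6] at h7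
    have h8 : j + (1 + 1) = j + 0 := by rw [← add_assoc, add_zero]; exact h7
    rw [← add_left_cancel h8]
    norm_num
  · exact hpq (h4.trans h5.symm)
  · exact hpq (h4.trans h5.symm)
  · have h6 := hinj (h1.symm.trans h4)
    have h7 := hinj (h3.symm.trans h5)
    apply h2
    rw [h7] at h6
    have h8 : j + (1 + 1) = j + 0 := by rw [← add_assoc, add_zero]; exact h6
    rw [← add_left_cancel h8]
    norm_num
  · exact hij (add_right_cancel (hinj (h1.symm.trans h4)))
  · exact hpq (h4.trans h5.symm)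
  · exact hpq (h1.trans h3.symm)
  · exact hpq (h1.trans h3.symm)
  · exact hpq (h1.trans h3.symm)
  · exact hpq (h1.trans h3.symm)

end

end Pool.Agent.Lib.MP_131179_gt.Dehn
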