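import Pool.Agent.Lib.MP_131179_gt.Dehn.Run
import Pool.Agent.Lib.MP_131179_gt.Iso

/-!
# Moves over unit squares in the plane
-/

set_option autoImplicit false
set_option linter.unusedSimpArgs false

namespace Pool.Agent.Lib.MP_131179_gt.Dehn

/-! ### Auxiliary facts -/

private theorem sqr_lt {a b c d : ℤ} : st a b < st c d ↔ a < c ∨ (a = c ∧ b < d) := by
  unfold st
  rw [Prod.Lex.lt_iff]
  rfl

private theorem sqr_eq {a b c d : ℤ} : st a b = st c d ↔ a = c ∧ b = d := by
  unfold st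
  rw [toLex_inj, Prod.mk.injEq]

private theorem sqr_ex (p : Site) : ∃ x w, p = st x w := ⟨cx p, cz p, rfl⟩

private theorem sqr_cz (a b : ℤ) : cz (st a b) = b := rfl

private theorem sqr_split {i : ℕ} {s : List Unit} (h : i + 2 ≤ s.length) :
    ∃ l r : List Unit, l.length = i ∧ s = l ++ () :: () :: r := by
  refine ⟨s.take i, s.drop (i + 2), by rw [List.length_take]; omega, ?_⟩
  apply List.ext_getElem
  · simp only [List.length_append, List.length_take, List.length_cons, List.length_drop]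
    omega
  · intro n h1 h2
    rfl

private theorem sqr_cross {i : ℕ} {s : List Unit} (h : i + 2 ≤ s.length) :
    Path (triv Unit) [(.pos, i)] s s ∧ Path (triv Unit) [(.neg, i)] s s ∧
      Eqv (triv Unit) [(.pos, i), (.neg, i)] [] s s ∧
      Eqv (triv Unit) [(.neg, i), (.pos, i)] [] s s := by
  obtain ⟨l, r, rfl, rfl⟩ := sqr_split h
  have p1 : Path (triv Unit) [(.pos, 0)] (() :: () :: r) (() :: () :: r) := path_pos0 () ()
  have p2 : Path (triv Unit) [(.neg, 0)] (() :: () :: r) (() :: () :: r) := path_neg0 () ()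
  have q1 := p1.left l
  have q2 := p2.left l
  have e1 := (Eqv.base Base.r2PosNeg (p1.append p2) (Path.nil _)).shift_left l
  have e2 := (Eqv.base Base.r2NegPos (p2.append p1) (Path.nil _)).shift_left l
  simp only [shift_cons, shift_nil, Nat.zero_add] at q1 q2 e1 e2
  exact ⟨q1, q2, e1, e2⟩

private theorem sqr_kk {i : ℕ} {s : List Unit} (h : i + 2 ≤ s.length) (p : Prop) [Decidable p] :
    Path (triv Unit) [((if p then .neg else .pos : Kind Unit), i)] s s ∧
    Path (triv Unit) [((if p then .pos else .neg : Kind Unit), i)] s s ∧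
      Eqv (triv Unit) [((if p then .neg else .pos : Kind Unit), i),
        ((if p then .pos else .neg : Kind Unit), i)] [] s s ∧
      Eqv (triv Unit) [((if p then .pos else .neg : Kind Unit), i),
        ((if p then .neg else .pos : Kind Unit), i)] [] s s := by
  obtain ⟨h1, h2, h3, h4⟩ := sqr_cross h
  by_cases hp : p
  · simp only [hp, if_true]
    exact ⟨h2, h1, h4, h3⟩
  · simp only [hp, if_false]
    exact ⟨h1, h2, h3, h4⟩

private theorem sqr_crR (z : ℤ) (B : List Site) (r : ℕ) (s : List Unit)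
    (h : r + B.length + 1 ≤ s.length) : Path (triv Unit) (crR z r B) s s := by
  induction B generalizing r with
  | nil => exact Path.nil _
  | cons b B ih =>
    rw [List.length_cons] at h
    have h1 := (sqr_kk (i := r) (s := s) (by omega) (z < cz b)).1
    exact h1.append (ih (r + 1) (by omega))

private theorem sqr_crL (z : ℤ) (B : List Site) (r : ℕ) (s : List Unit)
    (h : r + B.length + 1 ≤ s.length) : Path (triv Unit) (crL z r B) s s := by
  induction B generalizing r with
  | nil => exact Path.nil _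
  | cons b B ih =>
    rw [List.length_cons] at h
    have h1 := (sqr_kk (i := r) (s := s) (by omega) (z < cz b)).2.1
    exact (ih (r + 1) (by omega)).append h1

private theorem sqr_RL (z : ℤ) (B : List Site) (r : ℕ) (s : List Unit)
    (h : r + B.length + 1 ≤ s.length) : Eqv (triv Unit) (crR z r B ++ crL z r B) [] s s := by
  induction B generalizing r with
  | nil => exact Eqv.refl (Path.nil _)
  | cons b B ih =>
    rw [List.length_cons] at h
    obtain ⟨h1, h2, h3, h4⟩ := sqr_kk (i := r) (s := s) (by omega) (z < cz b)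
    have e := Eqv.context h1 (ih (r + 1) (by omega)) h2
    refine (Eqv.cast e ?_ ?_ rfl rfl).trans h3
    · simp [crR, crL]
    · rfl

private theorem sqr_LR (z : ℤ) (B : List Site) (r : ℕ) (s : List Unit)
    (h : r + B.length + 1 ≤ s.length) : Eqv (triv Unit) (crL z r B ++ crR z r B) [] s s := by
  induction B generalizing r with
  | nil => exact Eqv.refl (Path.nil _)
  | cons b B ih =>
    rw [List.length_cons] at h
    obtain ⟨h1, h2, h3, h4⟩ := sqr_kk (i := r) (s := s) (by omega) (z < cz b)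
    have e := Eqv.context (sqr_crL z B (r + 1) s (by omega)) h4
      (sqr_crR z B (r + 1) s (by omega))
    refine (Eqv.cast e ?_ ?_ rfl rfl).trans (ih (r + 1) (by omega))
    · simp [crR, crL]
    · simp

private theorem sqr_mem_nxs {P : Finset Site} {e : HE} {q : Site} :
    q ∈ nxs P e ↔ (q ∈ P ↔ ¬ (q = e.lo ∨ q = e.hi)) := by
  unfold nxs
  rw [Finset.mem_symmDiff, Finset.mem_insert, Finset.mem_singleton]
  tauto

private theorem sqr_filter {P : Finset Site} {e : HE} (p : Site → Prop) [DecidablePred p]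
    (h1 : ¬ p e.lo) (h2 : ¬ p e.hi) : (nxs P e).filter p = P.filter p := by
  ext q
  rw [Finset.mem_filter, Finset.mem_filter, sqr_mem_nxs]
  by_cases hq : p q
  · have h3 : q ≠ e.lo := fun h => h1 (h ▸ hq)
    have h4 : q ≠ e.hi := fun h => h2 (h ▸ hq)
    simp [h3, h4]
  · simp [hq]

private theorem sqr_rk_nxs (P : Finset Site) (e : HE) {p : Site} (h : p ≤ e.lo) :
    rk (nxs P e) p = rk P p := by
  unfold rk
  rw [sqr_filter]
  · exact not_lt.2 h
  · exact not_lt.2 (h.trans e.lo_lt_hi.le)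

private theorem sqr_btw_nxs (P : Finset Site) (e : HE) : btw (nxs P e) e = btw P e := by
  unfold btw
  rw [sqr_filter]
  · exact fun h => lt_irrefl _ h.1
  · exact fun h => lt_irrefl _ h.2

private theorem sqr_len (P : Finset Site) : (lst1 P).length = P.card := by
  simp [lst]

private theorem sqr_bound (P : Finset Site) (e : HE) (h : e.lo ∈ P ∨ e.hi ∈ P) :
    rk P e.lo + (btw P e).length + 1 ≤ P.card := by
  unfold rk btw
  rw [Finset.length_sort]
  have hlh := e.lo_lt_hi
  have hd : Disjoint (P.filter fun q => q < e.lo) (P.filter fun q => e.lo < q ∧ q < e.hi) := by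
    rw [Finset.disjoint_left]
    intro q h1 h2
    rw [Finset.mem_filter] at h1 h2
    exact lt_asymm h1.2 h2.2.1
  rw [← Finset.card_union_of_disjoint hd]
  apply Finset.card_lt_card
  rw [Finset.ssubset_iff_of_subset]
  · rcases h with h | h
    · refine ⟨e.lo, h, ?_⟩
      simp
    · refine ⟨e.hi, h, ?_⟩
      simp only [Finset.mem_union, Finset.mem_filter, lt_self_iff_false, and_false, or_false,
        not_and, not_lt]
      exact fun _ => hlh.le
  · intro q hq
    rw [Finset.mem_union, Finset.mem_filter, Finset.mem_filter] at hq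
    rcases hq with hq | hq
    · exact hq.1
    · exact hq.1

private theorem sqr_nn (P : Finset Site) (e : HE) : nxs (nxs P e) e = P := by
  unfold nxs
  exact symmDiff_symmDiff_cancel_right _ _

/-- Moving a strand along an edge and back. -/
theorem back_edge (P : Finset Site) {e : HE} (h : e.lo ∈ P ↔ e.hi ∉ P) :
    Eqv (triv Unit) (run1 P [e, e]) [] (lst1 P) (lst1 P) := by
  have hne : e.lo ≠ e.hi := e.lo_lt_hi.ne
  have hb := sqr_bound P e (by tauto)
  rw [← sqr_len] at hb
  have hrk := sqr_rk_nxs P e (le_refl e.lo)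
  have hbt := sqr_btw_nxs P e
  have hlo : e.lo ∈ nxs P e ↔ e.lo ∉ P := by
    rw [sqr_mem_nxs]
    simp
  have hhi : e.hi ∈ nxs P e ↔ e.hi ∉ P := by
    rw [sqr_mem_nxs]
    simp
  by_cases h1 : e.lo ∈ P
  · have h2 : e.hi ∉ P := h.1 h1
    have e1 : run1 P [e, e] = crR (cz e.lo) (rk P e.lo) (btw P e) ++
        crL (cz e.lo) (rk P e.lo) (btw P e) := by
      simp only [run1, run, wd, h1, h2, hlo, hhi, hrk, hbt, if_true, if_false, not_true_eq_false,
        not_false_eq_true, List.append_nil]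
    rw [e1]
    exact sqr_RL _ _ _ _ hb
  · have h2 : e.hi ∈ P := by
      by_contra h2
      exact h1 (h.2 h2)
    have e1 : run1 P [e, e] = crL (cz e.lo) (rk P e.lo) (btw P e) ++
        crR (cz e.lo) (rk P e.lo) (btw P e) := by
      simp only [run1, run, wd, h1, h2, hlo, hhi, hrk, hbt, if_true, if_false, not_true_eq_false,
        not_false_eq_true, List.append_nil]
    rw [e1]
    exact sqr_LR _ _ _ _ hb

/-- The four edges of the square with the lower left corner `(i, z)`, in cyclic order. -/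
def sqe (i z : ℤ) : Fin 4 → HE
  | 0 => .ex i z
  | 1 => .ez (i + 1) z
  | 2 => .ex i (z + 1)
  | 3 => .ez i z

/-- The corners of the square; the edge number `k` joins the corners `k` and `k + 1`. -/
def sqv (i z : ℤ) : Fin 4 → Site
  | 0 => st i z
  | 1 => st (i + 1) z
  | 2 => st (i + 1) (z + 1)
  | 3 => st i (z + 1)

/-! ### The corners -/

private theorem sqr_inj {i z : ℤ} {j j' : Fin 4} (h : sqv i z j = sqv i z j') : j = j' := by
  fin_cases j <;> fin_cases j' <;> first | rfl | (exfalso; revert h; simp [sqv, sqr_eq])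

private theorem sqr_at {i z : ℤ} {k : Fin 4} {v : Site} :
    (sqe i z k).At v ↔ v = sqv i z k ∨ v = sqv i z (k + 1) := by
  match k with
  | 0 => exact Iff.rfl
  | 1 => exact Iff.rfl
  | 2 => exact or_comm
  | 3 => exact or_comm

private theorem sqr_mem {P : Finset Site} {i z : ℤ} {j k : Fin 4} :
    sqv i z j ∈ nxs P (sqe i z k) ↔ if j = k ∨ j = k + 1 then sqv i z j ∉ P else sqv i z j ∈ P := by
  have h1 : (sqv i z j = (sqe i z k).lo ∨ sqv i z j = (sqe i z k).hi) ↔ (j = k ∨ j = k + 1) := by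
    have h2 : (sqe i z k).At (sqv i z j) ↔ _ := sqr_at
    unfold HE.At at h2
    rw [h2]
    constructor
    · rintro (h | h)
      · exact Or.inl (sqr_inj h)
      · exact Or.inr (sqr_inj h)
    · rintro (h | h)
      · exact Or.inl (h ▸ rfl)
      · exact Or.inr (h ▸ rfl)
  rw [sqr_mem_nxs, h1]
  by_cases h : j = k ∨ j = k + 1
  · rw [if_pos h]
    simp [h]
  · rw [if_neg h]
    simp [h]

private theorem sqr_ne1 (i z : ℤ) (k : Fin 4) : sqe i z k ≠ sqe i z (k + 1) := by
  match k with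
  | 0 => exact fun h => HE.noConfusion h
  | 1 => exact fun h => HE.noConfusion h
  | 2 => exact fun h => HE.noConfusion h
  | 3 => exact fun h => HE.noConfusion h

private theorem sqr_ne2 (i z : ℤ) (k : Fin 4) : sqe i z k ≠ sqe i z (k + 2) := by
  match k with
  | 0 => intro h; injection h with h1 h2; omega
  | 1 => intro h; injection h with h1 h2; omega
  | 2 => intro h; injection h with h1 h2; omega
  | 3 => intro h; injection h with h1 h2; omega

/-! ### Equivalent lists of edges -/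

/-- Two lists of edges with the same result and equivalent words. -/
private def EQ (P : Finset Site) (es es' : List HE) : Prop :=
  fin P es = fin P es' ∧ Eqv (triv Unit) (run1 P es) (run1 P es') (lst1 P) (lst1 (fin P es))

private theorem EQ.refl' (P : Finset Site) (es : List HE) : EQ P es es :=
  ⟨rfl, Eqv.refl (run_path _ P es fun _ _ => rfl)⟩

private theorem EQ.symm' {P : Finset Site} {es es' : List HE} (h : EQ P es es') : EQ P es' es :=
  ⟨h.1.symm, h.2.symm.cast rfl rfl rfl (by rw [h.1])⟩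

private theorem EQ.trans' {P : Finset Site} {es es' es'' : List HE} (h : EQ P es es')
    (h' : EQ P es' es'') : EQ P es es'' :=
  ⟨h.1.trans h'.1, h.2.trans (h'.2.cast rfl rfl rfl (by rw [h.1]))⟩

private theorem EQ.lit {P : Finset Site} {es es' : List HE} (h : fin P es = fin P es')
    (hr : run1 P es = run1 P es') : EQ P es es' :=
  ⟨h, (EQ.refl' P es).2.cast rfl hr rfl rfl⟩

private theorem EQ.pre {P : Finset Site} {e : HE} {es es' : List HE} (h : EQ (nxs P e) es es') :
    EQ P (e :: es) (e :: es') :=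
  ⟨h.1, Eqv.prepend (wd_path _ P e rfl) h.2⟩

private theorem EQ.app {P : Finset Site} {es es' : List HE} (h : EQ P es es') (b : List HE) :
    EQ P (es ++ b) (es' ++ b) := by
  refine ⟨by rw [fin_append, fin_append, h.1], ?_⟩
  have p := run_path (fun _ => ()) (fin P es) b fun _ _ => rfl
  refine (Eqv.append h.2 p).cast ?_ ?_ rfl ?_
  · exact (run_append _ P es b).symm
  · rw [h.1]
    exact (run_append _ P es' b).symm
  · rw [fin_append]

private theorem EQ.back {P : Finset Site} {e : HE} (h : e.lo ∈ P ↔ e.hi ∉ P) : EQ P [e, e] [] :=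
  ⟨sqr_nn P e, (back_edge P h).cast rfl rfl rfl (by
    show lst1 P = lst1 (nxs (nxs P e) e)
    rw [sqr_nn])⟩

private theorem EQ.swap [SwapHyp] {P : Finset Site} {e e' : HE} (h : e ≠ e')
    (hP : ∀ v, e.At v → e'.At v → v ∉ P) : EQ P [e, e'] [e', e] :=
  ⟨fin_perm (List.Perm.swap _ _ _), SwapHyp.edges P h hP⟩

private theorem EQ.sw1 [SwapHyp] {P : Finset Site} (i z : ℤ) (k : Fin 4) (h : sqv i z (k + 1) ∉ P) :
    EQ P [sqe i z k, sqe i z (k + 1)] [sqe i z (k + 1), sqe i z k] := by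
  refine EQ.swap (sqr_ne1 i z k) fun v h1 h2 => ?_
  rw [sqr_at] at h1 h2
  rcases h1 with h1 | h1
  · exfalso
    rcases h2 with h2 | h2
    · have := sqr_inj (h1.symm.trans h2)
      revert this
      clear h1 h2 h
      revert k
      decide
    · have := sqr_inj (h1.symm.trans h2)
      revert this
      clear h1 h2 h
      revert k
      decide
  · rw [h1]
    exact h

private theorem EQ.sw2 [SwapHyp] {P : Finset Site} (i z : ℤ) (k : Fin 4) :
    EQ P [sqe i z k, sqe i z (k + 2)] [sqe i z (k + 2), sqe i z k] := by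
  refine EQ.swap (sqr_ne2 i z k) fun v h1 h2 => ?_
  exfalso
  rw [sqr_at] at h1 h2
  rcases h1 with h1 | h1 <;> rcases h2 with h2 | h2 <;>
  · have := sqr_inj (h1.symm.trans h2)
    clear h1 h2
    revert this
    revert k
    decide

/-! ### The words -/

/-- The strands in the middle of the square. -/
private def MM (P : Finset Site) (i z : ℤ) : List Site :=
  (P.filter fun q => sqv i z 3 < q ∧ q < sqv i z 1).sort (· ≤ ·)

private theorem sqr_cong (P : Finset Site) (p p' : Site → Prop) [DecidablePred p]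
    [DecidablePred p'] (h : ∀ q ∈ P, (p q ↔ p' q)) :
    (P.filter p).sort (· ≤ ·) = (P.filter p').sort (· ≤ ·) := by
  rw [Finset.filter_congr h]

private theorem MM_nxs (P : Finset Site) (i z : ℤ) (k : Fin 4) :
    MM (nxs P (sqe i z k)) i z = MM P i z := by
  unfold MM
  rw [sqr_filter]
  · match k with
    | 0 => simp [sqe, sqv, HE.lo, sqr_lt]
    | 1 => simp [sqe, sqv, HE.lo, sqr_lt]
    | 2 => simp [sqe, sqv, HE.lo, sqr_lt]
    | 3 => simp [sqe, sqv, HE.lo, sqr_lt]
  · match k with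
    | 0 => simp [sqe, sqv, HE.hi, sqr_lt]
    | 1 => simp [sqe, sqv, HE.hi, sqr_lt]
    | 2 => simp [sqe, sqv, HE.hi, sqr_lt]
    | 3 => simp [sqe, sqv, HE.hi, sqr_lt]

private theorem rk_nxs0 (P : Finset Site) (i z : ℤ) (k : Fin 4) :
    rk (nxs P (sqe i z k)) (sqv i z 0) = rk P (sqv i z 0) := by
  apply sqr_rk_nxs
  match k with
  | 0 => exact le_rfl
  | 1 => exact le_of_lt (sqr_lt.2 (Or.inl (by omega)))
  | 2 => exact le_of_lt (sqr_lt.2 (Or.inr ⟨rfl, by omega⟩))
  | 3 => exact le_rfl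

private theorem rk_3 (P : Finset Site) (i z : ℤ) :
    rk P (sqv i z 3) = rk P (sqv i z 0) + if sqv i z 0 ∈ P then 1 else 0 := by
  unfold rk
  have h1 : ∀ q : Site, q < sqv i z 3 ↔ (q < sqv i z 0 ∨ q = sqv i z 0) := by
    intro q
    obtain ⟨x, w, rfl⟩ := sqr_ex q
    simp only [sqv, sqr_lt, sqr_eq]
    omega
  by_cases h : sqv i z 0 ∈ P
  · rw [if_pos h]
    have h2 : (P.filter fun q => q < sqv i z 3) =
        insert (sqv i z 0) (P.filter fun q => q < sqv i z 0) := by
      ext q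
      rw [Finset.mem_filter, Finset.mem_insert, Finset.mem_filter, h1]
      constructor
      · rintro ⟨h3, h4 | h4⟩
        · exact Or.inr ⟨h3, h4⟩
        · exact Or.inl h4
      · rintro (h3 | h3)
        · exact ⟨h3 ▸ h, Or.inr h3⟩
        · exact ⟨h3.1, Or.inl h3.2⟩
    rw [h2, Finset.card_insert_of_notMem]
    simp
  · rw [if_neg h, Nat.add_zero]
    congr 1
    apply Finset.filter_congr
    intro q hq
    rw [h1]
    constructor
    · rintro (h3 | h3)
      · exact h3
      · exact absurd (h3 ▸ hq) h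
    · exact Or.inl

private theorem btw_0 (P : Finset Site) (i z : ℤ) (h : sqv i z 3 ∉ P) :
    btw P (sqe i z 0) = MM P i z := by
  unfold btw MM
  apply sqr_cong
  intro q hq
  have hne : q ≠ sqv i z 3 := fun h' => h (h' ▸ hq)
  obtain ⟨x, w, rfl⟩ := sqr_ex q
  simp only [sqv, sqe, HE.lo, HE.hi, sqr_lt, ne_eq, sqr_eq] at hne ⊢
  omega

private theorem btw_2 (P : Finset Site) (i z : ℤ) (h : sqv i z 1 ∉ P) :
    btw P (sqe i z 2) = MM P i z := by
  unfold btw MM
  apply sqr_cong
  intro q hq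
  have hne : q ≠ sqv i z 1 := fun h' => h (h' ▸ hq)
  obtain ⟨x, w, rfl⟩ := sqr_ex q
  simp only [sqv, sqe, HE.lo, HE.hi, sqr_lt, ne_eq, sqr_eq] at hne ⊢
  omega

private theorem btw_1 (P : Finset Site) (i z : ℤ) : btw P (sqe i z 1) = [] := btw_ez P _ _

private theorem btw_3 (P : Finset Site) (i z : ℤ) : btw P (sqe i z 3) = [] := btw_ez P _ _

private theorem crR_cong {C : Type} {z z' : ℤ} {B : List Site}
    (h : ∀ b ∈ B, (z < cz b ↔ z' < cz b)) (r : ℕ) : (crR z r B : Word C) = crR z' r B := by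
  induction B generalizing r with
  | nil => rfl
  | cons b B ih =>
    have h1 := h b (List.mem_cons_self ..)
    rw [crR, crR, ih (fun b' hb' => h b' (List.mem_cons_of_mem _ hb'))]
    simp only [h1]

private theorem crL_cong {C : Type} {z z' : ℤ} {B : List Site}
    (h : ∀ b ∈ B, (z < cz b ↔ z' < cz b)) (r : ℕ) : (crL z r B : Word C) = crL z' r B := by
  induction B generalizing r with
  | nil => rfl
  | cons b B ih =>
    have h1 := h b (List.mem_cons_self ..)
    rw [crL, crL, ih (fun b' hb' => h b' (List.mem_cons_of_mem _ hb'))]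
    simp only [h1]

private theorem MM_z (P : Finset Site) (i z : ℤ) : ∀ b ∈ MM P i z, (z + 1 < cz b ↔ z < cz b) := by
  intro b hb
  unfold MM at hb
  rw [Finset.mem_sort, Finset.mem_filter] at hb
  obtain ⟨x, w, rfl⟩ := sqr_ex b
  simp only [sqv, sqr_lt, sqr_cz] at hb ⊢
  omega

private theorem crR_MM (P : Finset Site) (i z : ℤ) (r : ℕ) :
    (crR (z + 1) r (MM P i z) : Word Unit) = crR z r (MM P i z) := crR_cong (MM_z P i z) r

private theorem crL_MM (P : Finset Site) (i z : ℤ) (r : ℕ) :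
    (crL (z + 1) r (MM P i z) : Word Unit) = crL z r (MM P i z) := crL_cong (MM_z P i z) r

private theorem lo0 (i z : ℤ) : (sqe i z 0).lo = sqv i z 0 := rfl
private theorem lo1 (i z : ℤ) : (sqe i z 1).lo = sqv i z 1 := rfl
private theorem lo2 (i z : ℤ) : (sqe i z 2).lo = sqv i z 3 := rfl
private theorem lo3 (i z : ℤ) : (sqe i z 3).lo = sqv i z 0 := rfl
private theorem hi0 (i z : ℤ) : (sqe i z 0).hi = sqv i z 1 := rfl
private theorem hi1 (i z : ℤ) : (sqe i z 1).hi = sqv i z 2 := rfl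
private theorem hi2 (i z : ℤ) : (sqe i z 2).hi = sqv i z 2 := rfl
private theorem hi3 (i z : ℤ) : (sqe i z 3).hi = sqv i z 3 := rfl
private theorem cz0 (i z : ℤ) : cz (sqv i z 0) = z := rfl
private theorem cz3 (i z : ℤ) : cz (sqv i z 3) = z + 1 := rfl

private theorem m00 (P : Finset Site) (i z : ℤ) :
    sqv i z 0 ∈ nxs P (sqe i z 0) ↔ sqv i z 0 ∉ P := sqr_mem.trans (by simp)
private theorem m10 (P : Finset Site) (i z : ℤ) :
    sqv i z 1 ∈ nxs P (sqe i z 0) ↔ sqv i z 1 ∉ P := sqr_mem.trans (by simp)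
private theorem m20 (P : Finset Site) (i z : ℤ) :
    sqv i z 2 ∈ nxs P (sqe i z 0) ↔ sqv i z 2 ∈ P := sqr_mem.trans (by simp)
private theorem m30 (P : Finset Site) (i z : ℤ) :
    sqv i z 3 ∈ nxs P (sqe i z 0) ↔ sqv i z 3 ∈ P := sqr_mem.trans (by simp)
private theorem m01 (P : Finset Site) (i z : ℤ) :
    sqv i z 0 ∈ nxs P (sqe i z 1) ↔ sqv i z 0 ∈ P := sqr_mem.trans (by
      rw [if_neg (by decide)])
private theorem m11 (P : Finset Site) (i z : ℤ) :
    sqv i z 1 ∈ nxs P (sqe i z 1) ↔ sqv i z 1 ∉ P := sqr_mem.trans (by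
      rw [if_pos (by decide)])
private theorem m21 (P : Finset Site) (i z : ℤ) :
    sqv i z 2 ∈ nxs P (sqe i z 1) ↔ sqv i z 2 ∉ P := sqr_mem.trans (by
      rw [if_pos (by decide)])
private theorem m31 (P : Finset Site) (i z : ℤ) :
    sqv i z 3 ∈ nxs P (sqe i z 1) ↔ sqv i z 3 ∈ P := sqr_mem.trans (by
      rw [if_neg (by decide)])
private theorem m02 (P : Finset Site) (i z : ℤ) :
    sqv i z 0 ∈ nxs P (sqe i z 2) ↔ sqv i z 0 ∈ P := sqr_mem.trans (by
      rw [if_neg (by decide)])
private theorem m12 (P : Finset Site) (i z : ℤ) :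
    sqv i z 1 ∈ nxs P (sqe i z 2) ↔ sqv i z 1 ∈ P := sqr_mem.trans (by
      rw [if_neg (by decide)])
private theorem m22 (P : Finset Site) (i z : ℤ) :
    sqv i z 2 ∈ nxs P (sqe i z 2) ↔ sqv i z 2 ∉ P := sqr_mem.trans (by
      rw [if_pos (by decide)])
private theorem m32 (P : Finset Site) (i z : ℤ) :
    sqv i z 3 ∈ nxs P (sqe i z 2) ↔ sqv i z 3 ∉ P := sqr_mem.trans (by
      rw [if_pos (by decide)])
private theorem m03 (P : Finset Site) (i z : ℤ) :
    sqv i z 0 ∈ nxs P (sqe i z 3) ↔ sqv i z 0 ∉ P := sqr_mem.trans (by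
      rw [if_pos (by decide)])
private theorem m13 (P : Finset Site) (i z : ℤ) :
    sqv i z 1 ∈ nxs P (sqe i z 3) ↔ sqv i z 1 ∈ P := sqr_mem.trans (by
      rw [if_neg (by decide)])
private theorem m23 (P : Finset Site) (i z : ℤ) :
    sqv i z 2 ∈ nxs P (sqe i z 3) ↔ sqv i z 2 ∈ P := sqr_mem.trans (by
      rw [if_neg (by decide)])
private theorem m33 (P : Finset Site) (i z : ℤ) :
    sqv i z 3 ∈ nxs P (sqe i z 3) ↔ sqv i z 3 ∉ P := sqr_mem.trans (by
      rw [if_pos (by decide)])

private theorem sqr_fin4 (P : Finset Site) {a b c d : Site} {e1 e2 e3 e4 : HE}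
    (h1 : ∀ v, (v = e1.lo ∨ v = e1.hi) ↔ (v = a ∨ v = b))
    (h2 : ∀ v, (v = e2.lo ∨ v = e2.hi) ↔ (v = b ∨ v = c))
    (h3 : ∀ v, (v = e3.lo ∨ v = e3.hi) ↔ (v = a ∨ v = d))
    (h4 : ∀ v, (v = e4.lo ∨ v = e4.hi) ↔ (v = d ∨ v = c))
    (hab : a ≠ b) (hbc : b ≠ c) (had : a ≠ d) (hdc : d ≠ c) :
    fin P [e1, e2] = fin P [e3, e4] := by
  ext q
  show q ∈ nxs (nxs P e1) e2 ↔ q ∈ nxs (nxs P e3) e4
  rw [sqr_mem_nxs, sqr_mem_nxs, sqr_mem_nxs, sqr_mem_nxs, h1, h2, h3, h4]
  have k1 : ¬ (q = a ∧ q = b) := fun h => hab (h.1.symm.trans h.2)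
  have k2 : ¬ (q = b ∧ q = c) := fun h => hbc (h.1.symm.trans h.2)
  have k3 : ¬ (q = a ∧ q = d) := fun h => had (h.1.symm.trans h.2)
  have k4 : ¬ (q = d ∧ q = c) := fun h => hdc (h.1.symm.trans h.2)
  tauto

private theorem fin_k (P : Finset Site) (i z : ℤ) (k : Fin 4) :
    fin P [sqe i z k, sqe i z (k + 1)] = fin P [sqe i z (k + 3), sqe i z (k + 2)] := by
  have e : ∀ k : Fin 4, k + 3 + 1 = k ∧ k + 1 + 1 = k + 2 ∧ k + 2 + 1 = k + 3 := by decide
  obtain ⟨ea, eb, ec⟩ := e k
  have ne : ∀ j j' : Fin 4, j ≠ j' → sqv i z j ≠ sqv i z j' := fun j j' h h' => h (sqr_inj h')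
  refine sqr_fin4 P (a := sqv i z k) (b := sqv i z (k + 1)) (c := sqv i z (k + 2))
    (d := sqv i z (k + 3)) ?_ ?_ ?_ ?_ ?_ ?_ ?_ ?_
  · exact fun v => sqr_at (k := k)
  · exact fun v => (sqr_at (k := k + 1)).trans (by rw [eb])
  · exact fun v => (sqr_at (k := k + 3)).trans (by rw [ea]; exact or_comm)
  · exact fun v => (sqr_at (k := k + 2)).trans (by rw [ec]; exact or_comm)
  · exact ne _ _ (by revert k; decide)
  · exact ne _ _ (by clear ea eb ec; revert k; decide)
  · exact ne _ _ (by clear ea eb ec; revert k; decide)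
  · exact ne _ _ (by clear ea eb ec; revert k; decide)

private theorem fin_sw (P : Finset Site) (e e' : HE) : fin P [e, e'] = fin P [e', e] :=
  fin_perm (List.Perm.swap _ _ _)

private theorem sqA [SwapHyp] (P : Finset Site) (i z : ℤ) (h1 : sqv i z 1 ∉ P) (h3 : sqv i z 3 ∉ P) :
    EQ P [sqe i z 0, sqe i z 1] [sqe i z 3, sqe i z 2] := by
  have hf : fin P [sqe i z 0, sqe i z 1] = fin P [sqe i z 3, sqe i z 2] := fin_k P i z 0
  have s1 : EQ P [sqe i z 0, sqe i z 1] [sqe i z 1, sqe i z 0] := EQ.sw1 i z 0 h1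
  have s2 : EQ P [sqe i z 2, sqe i z 3] [sqe i z 3, sqe i z 2] := EQ.sw1 i z 2 h3
  by_cases h0 : sqv i z 0 ∈ P <;> by_cases h2 : sqv i z 2 ∈ P
  · refine s1.trans' (EQ.lit (s1.1.symm.trans hf) ?_)
    simp only [run1, run, wd, lo0, lo1, lo2, lo3, hi0, hi1, hi2, hi3, cz0, cz3, m00, m10, m20, m30,
      m01, m11, m21, m31, m02, m12, m22, m32, m03, m13, m23, m33, h0, h1, h2, h3, btw_1, btw_3,
      rk_nxs0, rk_3, MM_nxs, crR_MM, crL_MM, btw_0, btw_2, if_true, if_false, not_true_eq_false,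
      not_false_eq_true, crR, crL, List.nil_append, List.append_nil, Nat.add_zero]
  · refine EQ.lit hf ?_
    simp only [run1, run, wd, lo0, lo1, lo2, lo3, hi0, hi1, hi2, hi3, cz0, cz3, m00, m10, m20, m30,
      m01, m11, m21, m31, m02, m12, m22, m32, m03, m13, m23, m33, h0, h1, h2, h3, btw_1, btw_3,
      rk_nxs0, rk_3, MM_nxs, crR_MM, crL_MM, btw_0, btw_2, if_true, if_false, not_true_eq_false,
      not_false_eq_true, crR, crL, List.nil_append, List.append_nil, Nat.add_zero]
  · refine s1.trans' ((EQ.lit ((s1.1.symm.trans hf).trans s2.1.symm) ?_).trans' s2)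
    simp only [run1, run, wd, lo0, lo1, lo2, lo3, hi0, hi1, hi2, hi3, cz0, cz3, m00, m10, m20, m30,
      m01, m11, m21, m31, m02, m12, m22, m32, m03, m13, m23, m33, h0, h1, h2, h3, btw_1, btw_3,
      rk_nxs0, rk_3, MM_nxs, crR_MM, crL_MM, btw_0, btw_2, if_true, if_false, not_true_eq_false,
      not_false_eq_true, crR, crL, List.nil_append, List.append_nil, Nat.add_zero]
  · refine EQ.lit hf ?_
    simp only [run1, run, wd, lo0, lo1, lo2, lo3, hi0, hi1, hi2, hi3, cz0, cz3, m00, m10, m20, m30,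
      m01, m11, m21, m31, m02, m12, m22, m32, m03, m13, m23, m33, h0, h1, h2, h3, btw_1, btw_3,
      rk_nxs0, rk_3, MM_nxs, crR_MM, crL_MM, btw_0, btw_2, if_true, if_false, not_true_eq_false,
      not_false_eq_true, crR, crL, List.nil_append, List.append_nil, Nat.add_zero,
      List.cons_append]

private theorem sqB [SwapHyp] (P : Finset Site) (i z : ℤ) (h2 : sqv i z 2 ∉ P) (h0 : sqv i z 0 ∉ P) :
    EQ P [sqe i z 1, sqe i z 2] [sqe i z 0, sqe i z 3] := by
  have hf : fin P [sqe i z 1, sqe i z 2] = fin P [sqe i z 0, sqe i z 3] := fin_k P i z 1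
  have s1 : EQ P [sqe i z 1, sqe i z 2] [sqe i z 2, sqe i z 1] := EQ.sw1 i z 1 h2
  have s2 : EQ P [sqe i z 3, sqe i z 0] [sqe i z 0, sqe i z 3] := EQ.sw1 i z 3 h0
  by_cases h1 : sqv i z 1 ∈ P <;> by_cases h3 : sqv i z 3 ∈ P
  · refine (EQ.lit (hf.trans s2.1.symm) ?_).trans' s2
    simp only [run1, run, wd, lo0, lo1, lo2, lo3, hi0, hi1, hi2, hi3, cz0, cz3, m00, m10, m20, m30,
      m01, m11, m21, m31, m02, m12, m22, m32, m03, m13, m23, m33, h0, h1, h2, h3, btw_1, btw_3,
      rk_nxs0, rk_3, MM_nxs, crR_MM, crL_MM, btw_0, btw_2, if_true, if_false, not_true_eq_false,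
      not_false_eq_true, crR, crL, List.nil_append, List.append_nil, Nat.add_zero]
  · refine EQ.lit hf ?_
    simp only [run1, run, wd, lo0, lo1, lo2, lo3, hi0, hi1, hi2, hi3, cz0, cz3, m00, m10, m20, m30,
      m01, m11, m21, m31, m02, m12, m22, m32, m03, m13, m23, m33, h0, h1, h2, h3, btw_1, btw_3,
      rk_nxs0, rk_3, MM_nxs, crR_MM, crL_MM, btw_0, btw_2, if_true, if_false, not_true_eq_false,
      not_false_eq_true, crR, crL, List.nil_append, List.append_nil, Nat.add_zero]
  · refine s1.trans' ((EQ.lit ((s1.1.symm.trans hf).trans s2.1.symm) ?_).trans' s2)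
    simp only [run1, run, wd, lo0, lo1, lo2, lo3, hi0, hi1, hi2, hi3, cz0, cz3, m00, m10, m20, m30,
      m01, m11, m21, m31, m02, m12, m22, m32, m03, m13, m23, m33, h0, h1, h2, h3, btw_1, btw_3,
      rk_nxs0, rk_3, MM_nxs, crR_MM, crL_MM, btw_0, btw_2, if_true, if_false, not_true_eq_false,
      not_false_eq_true, crR, crL, List.nil_append, List.append_nil, Nat.add_zero]
  · refine s1.trans' (EQ.lit (s1.1.symm.trans hf) ?_)
    simp only [run1, run, wd, lo0, lo1, lo2, lo3, hi0, hi1, hi2, hi3, cz0, cz3, m00, m10, m20, m30,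
      m01, m11, m21, m31, m02, m12, m22, m32, m03, m13, m23, m33, h0, h1, h2, h3, btw_1, btw_3,
      rk_nxs0, rk_3, MM_nxs, crR_MM, crL_MM, btw_0, btw_2, if_true, if_false, not_true_eq_false,
      not_false_eq_true, crR, crL, List.nil_append, List.append_nil, Nat.add_zero]

private theorem EQ.two [SwapHyp] (P : Finset Site) (i z : ℤ) (k : Fin 4) (h1 : sqv i z (k + 1) ∉ P)
    (h3 : sqv i z (k + 3) ∉ P) :
    EQ P [sqe i z k, sqe i z (k + 1)] [sqe i z (k + 3), sqe i z (k + 2)] := by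
  match k, h1, h3 with
  | 0, h1, h3 => exact sqA P i z h1 h3
  | 1, h1, h3 => exact sqB P i z h1 h3
  | 2, h1, h3 =>
    have s1 : EQ P [sqe i z 2, sqe i z 3] [sqe i z 3, sqe i z 2] := EQ.sw1 i z 2 h1
    have s2 : EQ P [sqe i z 0, sqe i z 1] [sqe i z 1, sqe i z 0] := EQ.sw1 i z 0 h3
    exact s1.trans' ((sqA P i z h3 h1).symm'.trans' s2)
  | 3, h1, h3 =>
    have s1 : EQ P [sqe i z 3, sqe i z 0] [sqe i z 0, sqe i z 3] := EQ.sw1 i z 3 h1
    have s2 : EQ P [sqe i z 1, sqe i z 2] [sqe i z 2, sqe i z 1] := EQ.sw1 i z 1 h3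
    exact s1.trans' ((sqB P i z h3 h1).symm'.trans' s2)

/-- Two adjacent edges of a square are replaced by the other two. -/
theorem sq_two [SwapHyp] (P : Finset Site) (i z : ℤ) (k : Fin 4) (h1 : sqv i z (k + 1) ∉ P)
    (h3 : sqv i z (k + 3) ∉ P) :
    Eqv (triv Unit) (run1 P [sqe i z k, sqe i z (k + 1)]) (run1 P [sqe i z (k + 3), sqe i z (k + 2)])
      (lst1 P) (lst1 (fin P [sqe i z k, sqe i z (k + 1)])) :=
  (EQ.two P i z k h1 h3).2

private theorem EQ.backk {P : Finset Site} (i z : ℤ) (k : Fin 4)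
    (h : sqv i z k ∈ P ↔ sqv i z (k + 1) ∉ P) : EQ P [sqe i z k, sqe i z k] [] := by
  apply EQ.back
  match k, h with
  | 0, h => exact h
  | 1, h => exact h
  | 2, h =>
    show sqv i z 3 ∈ P ↔ sqv i z 2 ∉ P
    have h' : sqv i z 2 ∈ P ↔ sqv i z 3 ∉ P := h
    tauto
  | 3, h =>
    show sqv i z 0 ∈ P ↔ sqv i z 3 ∉ P
    have h' : sqv i z 3 ∈ P ↔ sqv i z 0 ∉ P := h
    tauto

private theorem EQ.three [SwapHyp] (P : Finset Site) (i z : ℤ) (k : Fin 4) (h2 : sqv i z (k + 2) ∉ P)
    (h3 : sqv i z (k + 3) ∉ P) :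
    EQ P [sqe i z k] [sqe i z (k + 3), sqe i z (k + 2), sqe i z (k + 1)] := by
  have e : ∀ k : Fin 4, k + 3 + 1 = k ∧ k + 1 + 1 = k + 2 ∧ k + 2 + 1 = k + 3 ∧
      k + 3 + 3 = k + 2 ∧ k + 3 + 2 = k + 1 ∧ k + 1 + 2 = k + 3 := by decide
  have d : ∀ k : Fin 4, k ≠ k + 1 ∧ k ≠ k + 2 ∧ k ≠ k + 3 ∧ k + 1 ≠ k + 2 ∧ k + 1 ≠ k + 3 ∧
      k + 2 ≠ k + 3 ∧ k + 3 ≠ k := by decide
  obtain ⟨e1, e2, e3, e4, e5, e6⟩ := e k
  obtain ⟨d1, d2, d3, d4, d5, d6, d7⟩ := d k
  by_cases h0 : sqv i z k ∈ P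
  · -- the corner `k` is occupied
    have b : EQ P [sqe i z (k + 3), sqe i z (k + 3)] [] := by
      refine EQ.backk i z (k + 3) ?_
      rw [e1]
      exact ⟨fun h => absurd h h3, fun h => absurd h0 h⟩
    have b' : EQ P [sqe i z k] [sqe i z (k + 3), sqe i z (k + 3), sqe i z k] :=
      (b.app [sqe i z k]).symm'
    have n0 : sqv i z (k + 3 + 1) ∉ nxs P (sqe i z (k + 3)) := by
      rw [sqr_mem, if_pos (Or.inr rfl), e1]
      exact not_not.2 h0
    have n2 : sqv i z (k + 3 + 3) ∉ nxs P (sqe i z (k + 3)) := by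
      rw [sqr_mem, e4, if_neg]
      · exact h2
      · rw [e1]
        rintro (h | h)
        · exact d6 h
        · exact d2 h.symm
    have t := EQ.two _ i z (k + 3) n0 n2
    rw [e1, e4, e5] at t
    exact b'.trans' t.pre
  · have r1 : EQ P [sqe i z (k + 2), sqe i z (k + 3)] [sqe i z (k + 3), sqe i z (k + 2)] := by
      have := EQ.sw1 (P := P) i z (k + 2) (by rw [e3]; exact h3)
      rwa [e3] at this
    have r2 : EQ (nxs P (sqe i z (k + 2))) [sqe i z (k + 1), sqe i z (k + 3)]
        [sqe i z (k + 3), sqe i z (k + 1)] := by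
      have := EQ.sw2 (P := nxs P (sqe i z (k + 2))) i z (k + 1)
      rwa [e6] at this
    have r3 : EQ P [sqe i z (k + 2), sqe i z (k + 1), sqe i z (k + 3)]
        [sqe i z (k + 3), sqe i z (k + 2), sqe i z (k + 1)] :=
      r2.pre.trans' (r1.app [sqe i z (k + 1)])
    by_cases h1 : sqv i z (k + 1) ∈ P
    · have r4 : EQ P [sqe i z (k + 1), sqe i z (k + 2)] [sqe i z (k + 2), sqe i z (k + 1)] := by
        have := EQ.sw1 (P := P) i z (k + 1) (by rw [e2]; exact h2)
        rwa [e2] at this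
      have r5 : EQ P [sqe i z (k + 1), sqe i z (k + 2), sqe i z (k + 3)]
          [sqe i z (k + 2), sqe i z (k + 1), sqe i z (k + 3)] := r4.app [sqe i z (k + 3)]
      refine EQ.trans' ?_ (r5.trans' r3)
      have b : EQ P [sqe i z (k + 1), sqe i z (k + 1)] [] := by
        refine EQ.backk i z (k + 1) ?_
        rw [e2]
        exact ⟨fun _ => h2, fun _ => h1⟩
      have b' : EQ P [sqe i z k] [sqe i z (k + 1), sqe i z (k + 1), sqe i z k] :=
        (b.app [sqe i z k]).symm'
      refine b'.trans' (EQ.pre ?_)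
      have n1 : sqv i z (k + 1) ∉ nxs P (sqe i z (k + 1)) := by
        rw [sqr_mem, if_pos (Or.inl rfl)]
        exact not_not.2 h1
      have n3 : sqv i z (k + 3) ∉ nxs P (sqe i z (k + 1)) := by
        rw [sqr_mem, e2, if_neg]
        · exact h3
        · rintro (h | h)
          · exact d5 h.symm
          · exact d6 h.symm
      have t1 := (EQ.sw1 i z k n1).symm'
      have t2 := EQ.two _ i z k n1 n3
      have t3 : EQ (nxs P (sqe i z (k + 1))) [sqe i z (k + 2), sqe i z (k + 3)]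
          [sqe i z (k + 3), sqe i z (k + 2)] := by
        have := EQ.sw1 (P := nxs P (sqe i z (k + 1))) i z (k + 2) (by rw [e3]; exact n3)
        rwa [e3] at this
      exact t1.trans' (t2.trans' t3.symm')
    · -- no corner is occupied
      refine EQ.trans' ?_ r3
      have b : EQ (nxs P (sqe i z k)) [sqe i z (k + 3), sqe i z (k + 3)] [] := by
        refine EQ.backk i z (k + 3) ?_
        rw [e1, sqr_mem, sqr_mem, if_neg, if_pos (Or.inl rfl)]
        · exact ⟨fun h => absurd h h3, fun h => absurd h0 h⟩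
        · rintro (h | h)
          · exact d7 h
          · exact d5 h.symm
      have b' : EQ P [sqe i z k] [sqe i z k, sqe i z (k + 3), sqe i z (k + 3)] := b.symm'.pre
      refine b'.trans' ?_
      have t1 : EQ P [sqe i z (k + 3), sqe i z k] [sqe i z k, sqe i z (k + 3)] := by
        have := EQ.sw1 (P := P) i z (k + 3) (by rw [e1]; exact h0)
        rwa [e1] at this
      have t2 := EQ.two P i z (k + 3) (by rw [e1]; exact h0) (by rw [e4]; exact h2)
      rw [e1, e4, e5] at t2
      exact (t1.symm'.trans' t2).app [sqe i z (k + 3)]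

/-- One edge of a square is replaced by the other three. -/
theorem sq_three [SwapHyp] (P : Finset Site) (i z : ℤ) (k : Fin 4) (h2 : sqv i z (k + 2) ∉ P)
    (h3 : sqv i z (k + 3) ∉ P) :
    Eqv (triv Unit) (run1 P [sqe i z k])
      (run1 P [sqe i z (k + 3), sqe i z (k + 2), sqe i z (k + 1)])
      (lst1 P) (lst1 (fin P [sqe i z k])) :=
  (EQ.three P i z k h2 h3).2

end Pool.Agent.Lib.MP_131179_gt.Dehn
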