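import Pool.Agent.Lib.MP_131179_gt.Dehn.LLink
import Pool.Agent.Lib.MP_131179_gt.Dehn.Square

/-!
# Moves over unit squares do not change the link
-/

set_option autoImplicit false

namespace Pool.Agent.Lib.MP_131179_gt.Dehn

/-! ### Replacing a part of a scan -/

open Classical in
/-- The lower part. -/
noncomputable def sqmPre (es0 : List (ℤ × HE)) (a : ℤ) (S : ℤ × HE → Prop) : List (ℤ × HE) :=
  es0.filter fun q => q.1 ≤ a ∧ ¬ S q

open Classical in
/-- The upper part. -/
noncomputable def sqmPost (es0 : List (ℤ × HE)) (a : ℤ) (S : ℤ × HE → Prop) : List (ℤ × HE) :=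
  es0.filter fun q => ¬ q.1 ≤ a ∧ ¬ S q

theorem sqm_mem_pre {es0 : List (ℤ × HE)} {a : ℤ} {S : ℤ × HE → Prop} {q : ℤ × HE} :
    q ∈ sqmPre es0 a S ↔ q ∈ es0 ∧ q.1 ≤ a ∧ ¬ S q := by
  simp [sqmPre]

theorem sqm_mem_post {es0 : List (ℤ × HE)} {a : ℤ} {S : ℤ × HE → Prop} {q : ℤ × HE} :
    q ∈ sqmPost es0 a S ↔ q ∈ es0 ∧ ¬ q.1 ≤ a ∧ ¬ S q := by
  simp [sqmPost]

theorem sqm_scan {K0 K1 : Finset LE} {es0 : List (ℤ × HE)} (h0 : Scan K0 es0) (a : ℤ)
    (S : ℤ × HE → Prop) {mid : List (ℤ × HE)} (hs : mid.Pairwise fun a b => a.1 ≤ b.1)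
    (hn : mid.Nodup) (hm : ∀ m ∈ mid, a ≤ m.1 ∧ m.1 ≤ a + 1)
    (hS : ∀ q, S q → (q ∈ mid ↔ toLE q ∈ K1)) (hS' : ∀ q ∈ mid, S q)
    (hN : ∀ q, ¬ S q → (toLE q ∈ K0 ↔ toLE q ∈ K1)) :
    Scan K1 (sqmPre es0 a S ++ (mid ++ sqmPost es0 a S)) := by
  refine ⟨?_, ?_, ?_⟩
  · rw [List.pairwise_append, List.pairwise_append]
    refine ⟨h0.sorted.sublist List.filter_sublist, ⟨hs, h0.sorted.sublist List.filter_sublist, ?_⟩,
      ?_⟩
    · intro x hx y hy
      have h1 := hm x hx
      have h2 := (sqm_mem_post.1 hy).2.1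
      omega
    · intro x hx y hy
      have h1 := (sqm_mem_pre.1 hx).2.1
      rcases List.mem_append.1 hy with hy | hy
      · have h2 := hm y hy
        omega
      · have h2 := (sqm_mem_post.1 hy).2.1
        omega
  · rw [List.nodup_append', List.nodup_append']
    refine ⟨h0.nodup.filter _, ⟨hn, h0.nodup.filter _, ?_⟩, ?_⟩
    · intro x hx hy
      exact (sqm_mem_post.1 hy).2.2 (hS' x hx)
    · intro x hx hy
      rcases List.mem_append.1 hy with hy | hy
      · exact (sqm_mem_pre.1 hx).2.2 (hS' x hy)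
      · exact (sqm_mem_post.1 hy).2.1 (sqm_mem_pre.1 hx).2.1
  · intro q
    rw [List.mem_append, List.mem_append, sqm_mem_pre, sqm_mem_post, h0.mem]
    by_cases hq : S q
    · rw [← hS q hq]
      constructor
      · rintro (h | h | h)
        · exact absurd hq h.2.2
        · exact h
        · exact absurd hq h.2.2
      · intro h; exact Or.inr (Or.inl h)
    · rw [hN q hq]
      constructor
      · rintro (h | h | h)
        · exact h.1
        · exact absurd (hS' q h) hq
        · exact h.1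
      · intro h
        by_cases hqa : q.1 ≤ a
        · exact Or.inl ⟨h, hqa, hq⟩
        · exact Or.inr (Or.inr ⟨h, hqa, hq⟩)

/-- The strands after the lower part. -/
theorem sqm_fin {K1 : Finset LE} (hK : Valid K1) {es0 : List (ℤ × HE)}
    (a : ℤ) (S : ℤ × HE → Prop) {mid : List (ℤ × HE)}
    (hsc : Scan K1 (sqmPre es0 a S ++ (mid ++ sqmPost es0 a S)))
    (hmid : ∀ m ∈ mid, ¬ m.1 ≤ a) (s : Site) :
    s ∈ fin ∅ ((sqmPre es0 a S).map Prod.snd) ↔ vert a s ∈ K1 := by
  rw [← scan_fin hK hsc a s]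
  have h1 : (sqmPre es0 a S ++ (mid ++ sqmPost es0 a S)).filter (fun q => decide (q.1 ≤ a))
      = sqmPre es0 a S := by
    rw [List.filter_append, List.filter_append]
    have e1 : (sqmPre es0 a S).filter (fun q => decide (q.1 ≤ a)) = sqmPre es0 a S := by
      rw [List.filter_eq_self]
      intro q hq
      simpa using (sqm_mem_pre.1 hq).2.1
    have e2 : mid.filter (fun q => decide (q.1 ≤ a)) = [] := by
      rw [List.filter_eq_nil_iff]
      intro q hq
      simpa using hmid q hq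
    have e3 : (sqmPost es0 a S).filter (fun q => decide (q.1 ≤ a)) = [] := by
      rw [List.filter_eq_nil_iff]
      intro q hq
      simpa using (sqm_mem_post.1 hq).2.1
    rw [e1, e2, e3]
    simp
  rw [h1]

theorem sqm_lst_empty : lst1 ∅ = [] := by simp [lst]

/-- Replacing the middle part. -/
theorem sqm_eqv {K1 : Finset LE} (hK : Valid K1) {pre mid mid' post : List (ℤ × HE)}
    (hsc : Scan K1 (pre ++ (mid ++ post)))
    (hE : Eqv (triv Unit) (run1 (fin ∅ (pre.map Prod.snd)) (mid.map Prod.snd))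
      (run1 (fin ∅ (pre.map Prod.snd)) (mid'.map Prod.snd)) (lst1 (fin ∅ (pre.map Prod.snd)))
      (lst1 (fin (fin ∅ (pre.map Prod.snd)) (mid.map Prod.snd))))
    (hf : fin (fin ∅ (pre.map Prod.snd)) (mid.map Prod.snd) =
      fin (fin ∅ (pre.map Prod.snd)) (mid'.map Prod.snd)) :
    Eqv (triv Unit) (sword (pre ++ (mid ++ post))) (sword (pre ++ (mid' ++ post))) [] [] := by
  have hnil := scan_fin_nil hK hsc
  rw [List.map_append, List.map_append, fin_append, fin_append] at hnil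
  have hpost := run_path (fun _ : Site => ())
    (fin (fin ∅ (pre.map Prod.snd)) (mid.map Prod.snd)) (post.map Prod.snd) (fun _ _ => rfl)
  rw [hnil] at hpost
  have hpre := run_path (fun _ : Site => ()) ∅ (pre.map Prod.snd) (fun _ _ => rfl)
  have hl : lst (fun _ : Site => ()) ∅ = [] := sqm_lst_empty
  rw [hl] at hpost hpre
  simp only [sword, run1, List.map_append, run_append]
  refine Eqv.comp (Eqv.refl hpre) (Eqv.comp hE ?_)
  rw [← hf]
  exact Eqv.refl hpost

/-! ### Vertical squares -/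

theorem sqm_nxs_nxs (P : Finset Site) (e : HE) : fin P [e, e] = P := by
  simp only [fin, nxs]
  rw [symmDiff_assoc, symmDiff_self]
  simp

theorem sqm_vert_core {K K' : Finset LE} (h : Valid K) (h' : Valid K') (y : ℤ) (e : HE)
    (hA : toLE (y, e) ∈ K' ↔ toLE (y, e) ∉ K) (hB : toLE (y + 1, e) ∈ K' ↔ toLE (y + 1, e) ∉ K)
    (hN : ∀ q : ℤ × HE, ¬ (q = (y, e) ∨ q = (y + 1, e)) → (toLE q ∈ K ↔ toLE q ∈ K'))
    (hV : vert y e.lo ∈ K' ↔ vert y e.lo ∉ K) (hV' : vert y e.hi ∈ K' ↔ vert y e.hi ∉ K)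
    (hc : (toLE (y, e) ∈ K ↔ toLE (y + 1, e) ∈ K) → (vert y e.lo ∈ K ↔ vert y e.hi ∉ K)) :
    ∃ es es', Scan K es ∧ Scan K' es' ∧ Eqv (triv Unit) (sword es) (sword es') [] [] := by
  classical
  obtain ⟨es0, h0⟩ := exists_scan K
  let S : ℤ × HE → Prop := fun q => q = (y, e) ∨ q = (y + 1, e)
  have hne : ((y, e) : ℤ × HE) ≠ (y + 1, e) := by
    intro hh
    have := congrArg Prod.fst hh
    simp at this
  -- the scans
  have scanK : ∀ (K1 : Finset LE) (mid : List (ℤ × HE)), mid.Sublist [(y, e), (y + 1, e)] →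
      (∀ q, S q → (q ∈ mid ↔ toLE q ∈ K1)) → (∀ q, ¬ S q → (toLE q ∈ K ↔ toLE q ∈ K1)) →
      Scan K1 (sqmPre es0 y S ++ (mid ++ sqmPost es0 y S)) := by
    intro K1 mid hsub hS hNN
    have hmem : ∀ m ∈ mid, m = (y, e) ∨ m = (y + 1, e) := fun m hm => by
      have := hsub.subset hm
      simpa using this
    refine sqm_scan h0 y S ?_ ?_ ?_ hS hmem hNN
    · refine List.Pairwise.sublist hsub ?_
      simp
    · refine List.Nodup.sublist hsub ?_
      simp
    · intro m hm
      rcases hmem m hm with rfl | rfl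
      · simp
      · simp
  by_cases a : toLE (y, e) ∈ K <;> by_cases b : toLE (y + 1, e) ∈ K
  · -- both
    have a' : toLE (y, e) ∉ K' := fun hh => (hA.1 hh) a
    have b' : toLE (y + 1, e) ∉ K' := fun hh => (hB.1 hh) b
    have s1 := scanK K [(y, e), (y + 1, e)] (List.Sublist.refl _)
      (by rintro q (rfl | rfl) <;> simp [a, b]) (fun q _ => Iff.rfl)
    have s2 := scanK K' [] (List.nil_sublist _)
      (by rintro q (rfl | rfl) <;> simp [a', b']) hN
    have hP := sqm_fin h' y S s2 (by simp)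
    have hcc := hc (by simp [a, b])
    refine ⟨_, _, s1, s2, ?_⟩
    refine Eqv.symm (sqm_eqv h' s2 ?_ ?_)
    · refine Eqv.symm (back_edge _ ?_)
      rw [hP, hP, hV, hV']
      tauto
    · simp only [List.map_cons, List.map_nil]
      rw [sqm_nxs_nxs]
      rfl
  · -- only the lower one
    have a' : toLE (y, e) ∉ K' := fun hh => (hA.1 hh) a
    have b' : toLE (y + 1, e) ∈ K' := hB.2 b
    have s1 := scanK K [(y, e)] (by simp)
      (by rintro q (rfl | rfl) <;> simp [a, b]) (fun q _ => Iff.rfl)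
    have s2 := scanK K' [(y + 1, e)] (by simp)
      (by rintro q (rfl | rfl) <;> simp [a', b', hne]) hN
    refine ⟨_, _, s1, s2, ?_⟩
    have e1 : sword (sqmPre es0 y S ++ ([(y, e)] ++ sqmPost es0 y S)) =
        sword (sqmPre es0 y S ++ ([(y + 1, e)] ++ sqmPost es0 y S)) := by
      simp [sword]
    rw [e1]
    exact Eqv.refl (sword_path h' s2)
  · -- only the upper one
    have a' : toLE (y, e) ∈ K' := hA.2 a
    have b' : toLE (y + 1, e) ∉ K' := fun hh => (hB.1 hh) b
    have s1 := scanK K [(y + 1, e)] (by simp)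
      (by rintro q (rfl | rfl) <;> simp [a, b, hne]) (fun q _ => Iff.rfl)
    have s2 := scanK K' [(y, e)] (by simp)
      (by rintro q (rfl | rfl) <;> simp [a', b']) hN
    refine ⟨_, _, s1, s2, ?_⟩
    have e1 : sword (sqmPre es0 y S ++ ([(y, e)] ++ sqmPost es0 y S)) =
        sword (sqmPre es0 y S ++ ([(y + 1, e)] ++ sqmPost es0 y S)) := by
      simp [sword]
    rw [e1]
    exact Eqv.refl (sword_path h s1)
  · -- none
    have a' : toLE (y, e) ∈ K' := hA.2 a
    have b' : toLE (y + 1, e) ∈ K' := hB.2 b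
    have s2 := scanK K' [(y, e), (y + 1, e)] (List.Sublist.refl _)
      (by rintro q (rfl | rfl) <;> simp [a', b']) hN
    have s1 := scanK K [] (List.nil_sublist _)
      (by rintro q (rfl | rfl) <;> simp [a, b]) (fun q _ => Iff.rfl)
    have hP := sqm_fin h y S s1 (by simp)
    have hcc := hc (by simp [a, b])
    refine ⟨_, _, s1, s2, ?_⟩
    refine sqm_eqv h s1 ?_ ?_
    · refine Eqv.symm (back_edge _ ?_)
      rw [hP, hP]
      exact hcc
    · simp only [List.map_cons, List.map_nil]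
      rw [sqm_nxs_nxs]
      rfl

theorem sqm_toLE_ne_vert (q : ℤ × HE) (y : ℤ) (s : Site) : toLE q ≠ vert y s := by
  rcases q with ⟨t, i | i⟩ <;> simp [toLE, vert]

theorem sqm_vert_gen {K K' sq : Finset LE} (h : Valid K) (h' : Valid K') (y : ℤ) (e : HE)
    (hsq : ∀ q : LE, q ∈ sq ↔ (q = toLE (y, e) ∨ q = toLE (y + 1, e) ∨ q = vert y e.lo ∨
      q = vert y e.hi))
    (hK : K' = symmDiff K sq) (h1 : K ∩ sq ≠ ∅) (h2 : K ∩ sq ≠ sq)
    (h3 : K ∩ sq ≠ {toLE (y, e), toLE (y + 1, e)})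
    (h4 : K ∩ sq ≠ {vert y e.lo, vert y e.hi}) :
    ∃ es es', Scan K es ∧ Scan K' es' ∧ Eqv (triv Unit) (sword es) (sword es') [] [] := by
  have hmem : ∀ q, q ∈ K' ↔ (q ∈ K ∧ q ∉ sq) ∨ (q ∈ sq ∧ q ∉ K) := by
    intro q; rw [hK, Finset.mem_symmDiff]
  have hin : ∀ q, q ∈ sq → (q ∈ K' ↔ q ∉ K) := by
    intro q hq
    rw [hmem]; tauto
  have hA := hin (toLE (y, e)) ((hsq _).2 (Or.inl rfl))
  have hB := hin (toLE (y + 1, e)) ((hsq _).2 (Or.inr (Or.inl rfl)))
  have hL := hin (vert y e.lo) ((hsq _).2 (Or.inr (Or.inr (Or.inl rfl))))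
  have hR := hin (vert y e.hi) ((hsq _).2 (Or.inr (Or.inr (Or.inr rfl))))
  refine sqm_vert_core h h' y e hA hB ?_ hL hR ?_
  · intro q hq
    have hq' : toLE q ∉ sq := by
      rw [hsq]
      rintro (hh | hh | hh | hh)
      · exact hq (Or.inl (toLE_injective hh))
      · exact hq (Or.inr (toLE_injective hh))
      · exact sqm_toLE_ne_vert _ _ _ hh
      · exact sqm_toLE_ne_vert _ _ _ hh
    rw [hmem]; tauto
  · intro hAB
    by_cases a : toLE (y, e) ∈ K
    · have b := hAB.1 a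
      by_cases c : vert y e.lo ∈ K <;> by_cases d : vert y e.hi ∈ K
      · exfalso; apply h2
        ext q
        rw [Finset.mem_inter, hsq]
        constructor
        · exact fun hh => hh.2
        · rintro hh
          refine ⟨?_, hh⟩
          rcases hh with rfl | rfl | rfl | rfl <;> assumption
      · exact ⟨fun _ => d, fun _ => c⟩
      · exact ⟨fun hh => absurd hh c, fun hh => absurd d hh⟩
      · exfalso; apply h3
        ext q
        rw [Finset.mem_inter, hsq, Finset.mem_insert, Finset.mem_singleton]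
        constructor
        · rintro ⟨hq, rfl | rfl | rfl | rfl⟩
          · exact Or.inl rfl
          · exact Or.inr rfl
          · exact absurd hq c
          · exact absurd hq d
        · rintro (rfl | rfl)
          · exact ⟨a, Or.inl rfl⟩
          · exact ⟨b, Or.inr (Or.inl rfl)⟩
    · have b : toLE (y + 1, e) ∉ K := fun hh => a (hAB.2 hh)
      by_cases c : vert y e.lo ∈ K <;> by_cases d : vert y e.hi ∈ K
      · exfalso; apply h4
        ext q
        rw [Finset.mem_inter, hsq, Finset.mem_insert, Finset.mem_singleton]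
        constructor
        · rintro ⟨hq, rfl | rfl | rfl | rfl⟩
          · exact absurd hq a
          · exact absurd hq b
          · exact Or.inl rfl
          · exact Or.inr rfl
        · rintro (rfl | rfl)
          · exact ⟨c, Or.inr (Or.inr (Or.inl rfl))⟩
          · exact ⟨d, Or.inr (Or.inr (Or.inr rfl))⟩
      · exact ⟨fun _ => d, fun _ => c⟩
      · exact ⟨fun hh => absurd hh c, fun hh => absurd d hh⟩
      · exfalso; apply h1
        ext q
        rw [Finset.mem_inter, hsq]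
        constructor
        · rintro ⟨hq, rfl | rfl | rfl | rfl⟩
          · exact absurd hq a
          · exact absurd hq b
          · exact absurd hq c
          · exact absurd hq d
        · intro hq; simp at hq

/-- Vertical squares. -/
theorem sqmove_vert {K K' : Finset LE} (h : Valid K) (h' : Valid K') {p : P3} {i j : Fin 3}
    (hij : i < j) (hv : i = 1 ∨ j = 1) (hK : K' = symmDiff K (sqE p i j))
    (h1 : K ∩ sqE p i j ≠ ∅) (h2 : K ∩ sqE p i j ≠ sqE p i j)
    (h3 : K ∩ sqE p i j ≠ {(p, i), (p + e3 j, i)})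
    (h4 : K ∩ sqE p i j ≠ {(p, j), (p + e3 i, j)}) :
    ∃ es es', Scan K es ∧ Scan K' es' ∧ Eqv (triv Unit) (sword es) (sword es') [] [] := by
  obtain ⟨x, y, z⟩ := p
  have hcase : ∀ i j : Fin 3, i < j → (i = 1 ∨ j = 1) → (i = 0 ∧ j = 1) ∨ (i = 1 ∧ j = 2) := by
    decide
  rcases hcase i j hij hv with ⟨rfl, rfl⟩ | ⟨rfl, rfl⟩
  · -- the edge `ex x z`
    refine sqm_vert_gen h h' y (.ex x z) ?_ hK h1 h2 ?_ ?_
    · intro q
      simp [sqE, toLE, vert, HE.lo, HE.hi, cx, cz, st, e3]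
    · simpa [toLE, e3] using h3
    · simpa [vert, e3, HE.lo, HE.hi, cx, cz, st] using h4
  · refine sqm_vert_gen h h' y (.ez x z) ?_ hK h1 h2 ?_ ?_
    · intro q
      simp [sqE, toLE, vert, HE.lo, HE.hi, cx, cz, st, e3]
      tauto
    · simpa [toLE, e3] using h4
    · simpa [vert, e3, HE.lo, HE.hi, cx, cz, st] using h3

/-! ### Horizontal squares -/

/-- The edges of a horizontal square. -/
def sqmE (x y z : ℤ) (k : Fin 4) : LE := toLE (y, sqe x z k)

theorem sqm_sqe_injective (x z : ℤ) : Function.Injective (sqe x z) := by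
  intro a b hab
  fin_cases a <;> fin_cases b <;> simp [sqe] at hab ⊢

theorem sqmE_injective (x y z : ℤ) : Function.Injective (sqmE x y z) := by
  intro a b hab
  have := congrArg Prod.snd (toLE_injective hab)
  exact sqm_sqe_injective x z this

theorem sqm_mem_sqE (x y z : ℤ) (q : LE) : q ∈ sqE (x, y, z) 0 2 ↔ ∃ k, q = sqmE x y z k := by
  constructor
  · intro h
    simp only [sqE, Finset.mem_insert, Finset.mem_singleton] at h
    rcases h with rfl | rfl | rfl | rfl
    · exact ⟨0, rfl⟩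
    · exact ⟨2, by simp [sqmE, sqe, toLE, e3]⟩
    · exact ⟨3, rfl⟩
    · exact ⟨1, by simp [sqmE, sqe, toLE, e3]⟩
  · rintro ⟨k, rfl⟩
    fin_cases k <;> simp [sqE, sqmE, sqe, toLE, e3]

/-- Two edges of the square meet in a corner. -/
theorem sqm_inc (x y z : ℤ) (k : Fin 4) :
    Inc (sqmE x y z k) (cx (sqv x z (k + 1)), y, cz (sqv x z (k + 1))) ∧
    Inc (sqmE x y z (k + 1)) (cx (sqv x z (k + 1)), y, cz (sqv x z (k + 1))) := by
  fin_cases k <;> simp [Inc, sqmE, sqe, sqv, toLE, e3, cx, cz, st]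

theorem sqm_deg {K : Finset LE} (h : Valid K) {c : P3} {a b v : LE} (hab : a ≠ b) (hva : v ≠ a)
    (hvb : v ≠ b) (ha : a ∈ K) (hb : b ∈ K) (hac : Inc a c) (hbc : Inc b c) (hvc : Inc v c) :
    v ∉ K := by
  intro hv
  have hsub : ({a, b, v} : Finset LE) ⊆ K.filter fun e => Inc e c := by
    intro q hq
    simp only [Finset.mem_insert, Finset.mem_singleton] at hq
    rw [Finset.mem_filter]
    rcases hq with rfl | rfl | rfl
    · exact ⟨ha, hac⟩
    · exact ⟨hb, hbc⟩
    · exact ⟨hv, hvc⟩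
  have h3 : ({a, b, v} : Finset LE).card = 3 := by
    rw [Finset.card_eq_three]
    exact ⟨a, b, v, hab, hva.symm, hvb.symm, rfl⟩
  have h4 := Finset.card_le_card hsub
  rcases h c with h5 | h5 <;> unfold deg at h5 <;> omega

/-- If two adjacent edges of the square belong to `K`, then the corner between them is not the
end of a vertical edge. -/
theorem sqm_corner {K : Finset LE} (h : Valid K) (x y z : ℤ) (k : Fin 4)
    (h1 : sqmE x y z k ∈ K) (h2 : sqmE x y z (k + 1) ∈ K) :
    vert (y - 1) (sqv x z (k + 1)) ∉ K := by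
  obtain ⟨i1, i2⟩ := sqm_inc x y z k
  refine sqm_deg h ?_ ?_ ?_ h1 h2 i1 i2 ?_
  · intro hh
    have := sqmE_injective x y z hh
    exact (by decide : ∀ k : Fin 4, k ≠ k + 1) k this
  · exact fun hh => sqm_toLE_ne_vert _ _ _ hh.symm
  · exact fun hh => sqm_toLE_ne_vert _ _ _ hh.symm
  · right
    simp [vert, e3]

theorem sqm_corner' {K : Finset LE} (h : Valid K) (x y z : ℤ) {k l m : Fin 4} (hl : l = k + 1)
    (hm : m = k) (h1 : sqmE x y z m ∈ K) (h2 : sqmE x y z l ∈ K) :
    vert (y - 1) (sqv x z l) ∉ K := by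
  subst hl hm
  exact sqm_corner h x y z _ h1 h2

theorem sqm_sqv_injective (x z : ℤ) : Function.Injective (sqv x z) := by
  intro a b hab
  fin_cases a <;> fin_cases b <;> simp [sqv, st] at hab ⊢

theorem sqm_pair (x z : ℤ) {k l : Fin 4} (hkl : k ≠ l) :
    ({sqv x z k, sqv x z l} : Finset Site) = symmDiff {sqv x z k} {sqv x z l} := by
  have hne : sqv x z k ≠ sqv x z l := fun hh => hkl (sqm_sqv_injective x z hh)
  ext s
  rw [Finset.mem_symmDiff]
  simp only [Finset.mem_insert, Finset.mem_singleton]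
  constructor
  · rintro (rfl | rfl)
    · exact Or.inl ⟨rfl, hne⟩
    · exact Or.inr ⟨rfl, hne.symm⟩
  · rintro (h | h)
    · exact Or.inl h.1
    · exact Or.inr h.1

theorem sqm_nxs (P : Finset Site) (x z : ℤ) (k : Fin 4) :
    nxs P (sqe x z k) = symmDiff P (symmDiff {sqv x z k} {sqv x z (k + 1)}) := by
  rw [← sqm_pair x z ((by decide : ∀ k : Fin 4, k ≠ k + 1) k)]
  fin_cases k
  · rfl
  · rfl
  · simp [nxs, sqe, sqv, HE.lo, HE.hi, Finset.pair_comm]
  · simp [nxs, sqe, sqv, HE.lo, HE.hi, Finset.pair_comm]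

theorem sqm_fin_two (P : Finset Site) (x z : ℤ) (k : Fin 4) :
    fin P [sqe x z k, sqe x z (k + 1)] = fin P [sqe x z (k + 3), sqe x z (k + 2)] := by
  simp only [fin, sqm_nxs]
  have e1 : k + 1 + 1 = k + 2 := (by decide : ∀ k : Fin 4, k + 1 + 1 = k + 2) k
  have e2 : k + 3 + 1 = k := (by decide : ∀ k : Fin 4, k + 3 + 1 = k) k
  have e3 : k + 2 + 1 = k + 3 := (by decide : ∀ k : Fin 4, k + 2 + 1 = k + 3) k
  rw [e1, e2, e3]
  generalize ({sqv x z k} : Finset Site) = A
  generalize ({sqv x z (k + 1)} : Finset Site) = B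
  generalize ({sqv x z (k + 2)} : Finset Site) = C
  generalize ({sqv x z (k + 3)} : Finset Site) = D
  ext s
  simp only [Finset.mem_symmDiff]
  by_cases hp : s ∈ P <;> by_cases ha : s ∈ A <;> by_cases hb : s ∈ B <;> by_cases hc : s ∈ C <;>
    by_cases hd : s ∈ D <;> simp [hp, ha, hb, hc, hd]

theorem sqm_fin_three (P : Finset Site) (x z : ℤ) (k : Fin 4) :
    fin P [sqe x z k] = fin P [sqe x z (k + 3), sqe x z (k + 2), sqe x z (k + 1)] := by
  simp only [fin, sqm_nxs]
  have e1 : k + 1 + 1 = k + 2 := (by decide : ∀ k : Fin 4, k + 1 + 1 = k + 2) k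
  have e2 : k + 3 + 1 = k := (by decide : ∀ k : Fin 4, k + 3 + 1 = k) k
  have e3 : k + 2 + 1 = k + 3 := (by decide : ∀ k : Fin 4, k + 2 + 1 = k + 3) k
  rw [e1, e2, e3]
  generalize ({sqv x z k} : Finset Site) = A
  generalize ({sqv x z (k + 1)} : Finset Site) = B
  generalize ({sqv x z (k + 2)} : Finset Site) = C
  generalize ({sqv x z (k + 3)} : Finset Site) = D
  ext s
  simp only [Finset.mem_symmDiff]
  by_cases hp : s ∈ P <;> by_cases ha : s ∈ A <;> by_cases hb : s ∈ B <;> by_cases hc : s ∈ C <;>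
    by_cases hd : s ∈ D <;> simp [hp, ha, hb, hc, hd]

/-- The scan with the edges of the square first in their level. -/
theorem sqm_hscan {K0 K1 : Finset LE} {es0 : List (ℤ × HE)} (h0 : Scan K0 es0) (x y z : ℤ)
    (ms : List (Fin 4)) (hn : ms.Nodup) (hm : ∀ m, m ∈ ms ↔ sqmE x y z m ∈ K1)
    (hN : ∀ q, (∀ k, q ≠ sqmE x y z k) → (q ∈ K0 ↔ q ∈ K1)) :
    Scan K1 (sqmPre es0 (y - 1) (fun q => ∃ k, q = (y, sqe x z k)) ++
      (ms.map (fun m => (y, sqe x z m)) ++
        sqmPost es0 (y - 1) (fun q => ∃ k, q = (y, sqe x z k)))) := by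
  have hinj : Function.Injective fun m : Fin 4 => ((y, sqe x z m) : ℤ × HE) := by
    intro a b hab
    exact sqm_sqe_injective x z (congrArg Prod.snd hab)
  refine sqm_scan h0 (y - 1) _ ?_ ?_ ?_ ?_ ?_ ?_
  · rw [List.pairwise_map]
    exact List.pairwise_of_forall (fun _ _ => le_rfl)
  · exact hn.map hinj
  · intro m hm
    obtain ⟨k, -, rfl⟩ := List.mem_map.1 hm
    constructor <;> simp
  · rintro _ ⟨k, rfl⟩
    rw [List.mem_map]
    constructor
    · rintro ⟨m, hm', he⟩
      rw [hinj he] at hm'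
      exact (hm k).1 hm'
    · intro hk
      exact ⟨k, (hm k).2 hk, rfl⟩
  · intro q hq
    obtain ⟨k, -, rfl⟩ := List.mem_map.1 hq
    exact ⟨k, rfl⟩
  · intro q hq
    refine hN _ fun k hk => hq ⟨k, toLE_injective hk⟩

theorem sqm_four (k m : Fin 4) : m = k ∨ m = k + 1 ∨ m = k + 2 ∨ m = k + 3 := by
  revert k m; decide

theorem sqm_horiz_two [SwapHyp] {K K' : Finset LE} (h : Valid K) (h' : Valid K') (x y z : ℤ) (k : Fin 4)
    (hN : ∀ q, (∀ k, q ≠ sqmE x y z k) → (q ∈ K ↔ q ∈ K'))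
    (hE : ∀ k, sqmE x y z k ∈ K' ↔ sqmE x y z k ∉ K)
    (k0 : sqmE x y z k ∈ K) (k1 : sqmE x y z (k + 1) ∈ K) (k2 : sqmE x y z (k + 2) ∉ K)
    (k3 : sqmE x y z (k + 3) ∉ K) :
    ∃ es es', Scan K es ∧ Scan K' es' ∧ Eqv (triv Unit) (sword es) (sword es') [] [] := by
  obtain ⟨es0, h0⟩ := exists_scan K
  have s1 := sqm_hscan h0 x y z [k, k + 1] (by fin_cases k <;> decide)
    (by
      intro m
      rcases sqm_four k m with hm | hm | hm | hm <;> rw [hm]
      · simp [k0]
      · simp [k1]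
      · simp only [k2, iff_false]; fin_cases k <;> decide
      · simp only [k3, iff_false]; fin_cases k <;> decide) (fun _ _ => Iff.rfl)
  have s2 := sqm_hscan h0 x y z [k + 3, k + 2] (by fin_cases k <;> decide)
    (by
      intro m
      rw [hE]
      rcases sqm_four k m with hm | hm | hm | hm <;> rw [hm]
      · simp only [k0, not_true, iff_false]; fin_cases k <;> decide
      · simp only [k1, not_true, iff_false]; fin_cases k <;> decide
      · simp [k2]
      · simp [k3]) hN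
  refine ⟨_, _, s1, s2, ?_⟩
  have hP := sqm_fin h (y - 1) _ s1 (by
    intro m hm
    obtain ⟨k, -, rfl⟩ := List.mem_map.1 hm
    simp)
  have hPv : ∀ s, s ∈ fin ∅ ((sqmPre es0 (y - 1) (fun q => ∃ k, q = (y, sqe x z k))).map Prod.snd) →
      vert (y - 1) s ∈ K ∧ vert (y - 1) s ∈ K' := by
    intro s hs
    have hh := (hP s).1 hs
    exact ⟨hh, (hN _ fun k hk => sqm_toLE_ne_vert _ _ _ hk.symm).1 hh⟩
  refine sqm_eqv h s1 ?_ ?_
  · refine sq_two _ x z k ?_ ?_
    · intro hs
      exact sqm_corner h x y z k k0 k1 (hPv _ hs).1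
    · intro hs
      refine sqm_corner' h' x y z (k := k + 2) ?_ rfl ?_ ?_ (hPv _ hs).2
      · fin_cases k <;> decide
      · exact (hE _).2 k2
      · exact (hE _).2 k3
  · exact sqm_fin_two _ x z k

theorem sqm_horiz_three [SwapHyp] {K K' : Finset LE} (h : Valid K) (h' : Valid K') (x y z : ℤ) (k : Fin 4)
    (hN : ∀ q, (∀ k, q ≠ sqmE x y z k) → (q ∈ K ↔ q ∈ K'))
    (hE : ∀ k, sqmE x y z k ∈ K' ↔ sqmE x y z k ∉ K)
    (k0 : sqmE x y z k ∈ K) (k1 : sqmE x y z (k + 1) ∉ K) (k2 : sqmE x y z (k + 2) ∉ K)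
    (k3 : sqmE x y z (k + 3) ∉ K) :
    ∃ es es', Scan K es ∧ Scan K' es' ∧ Eqv (triv Unit) (sword es) (sword es') [] [] := by
  obtain ⟨es0, h0⟩ := exists_scan K
  have s1 := sqm_hscan h0 x y z [k] (by fin_cases k <;> decide)
    (by
      intro m
      rcases sqm_four k m with hm | hm | hm | hm <;> rw [hm]
      · simp [k0]
      · simp only [k1, iff_false]; fin_cases k <;> decide
      · simp only [k2, iff_false]; fin_cases k <;> decide
      · simp only [k3, iff_false]; fin_cases k <;> decide) (fun _ _ => Iff.rfl)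
  have s2 := sqm_hscan h0 x y z [k + 3, k + 2, k + 1] (by fin_cases k <;> decide)
    (by
      intro m
      rw [hE]
      rcases sqm_four k m with hm | hm | hm | hm <;> rw [hm]
      · simp only [k0, not_true, iff_false]; fin_cases k <;> decide
      · simp [k1]
      · simp [k2]
      · simp [k3]) hN
  refine ⟨_, _, s1, s2, ?_⟩
  have hP := sqm_fin h (y - 1) _ s1 (by
    intro m hm
    obtain ⟨k, -, rfl⟩ := List.mem_map.1 hm
    simp)
  have hPv : ∀ s, s ∈ fin ∅ ((sqmPre es0 (y - 1) (fun q => ∃ k, q = (y, sqe x z k))).map Prod.snd) →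
      vert (y - 1) s ∈ K' := by
    intro s hs
    have hh := (hP s).1 hs
    exact (hN _ fun k hk => sqm_toLE_ne_vert _ _ _ hk.symm).1 hh
  refine sqm_eqv h s1 ?_ ?_
  · refine sq_three _ x z k ?_ ?_
    · intro hs
      refine sqm_corner' h' x y z (k := k + 1) ?_ rfl ?_ ?_ (hPv _ hs)
      · fin_cases k <;> decide
      · exact (hE _).2 k1
      · exact (hE _).2 k2
    · intro hs
      refine sqm_corner' h' x y z (k := k + 2) ?_ rfl ?_ ?_ (hPv _ hs)
      · fin_cases k <;> decide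
      · exact (hE _).2 k2
      · exact (hE _).2 k3
  · exact sqm_fin_three _ x z k

theorem sqm_bool : ∀ b : Fin 4 → Bool, (∃ k, b k = true) → (∃ k, b k = false) →
    ¬ (b 0 = true ∧ b 2 = true ∧ b 1 = false ∧ b 3 = false) →
    ¬ (b 1 = true ∧ b 3 = true ∧ b 0 = false ∧ b 2 = false) →
    ∃ k, (b k = true ∧ b (k + 1) = true ∧ b (k + 2) = false ∧ b (k + 3) = false) ∨
      (b k = true ∧ b (k + 1) = false ∧ b (k + 2) = false ∧ b (k + 3) = false) ∨
      (b k = false ∧ b (k + 1) = true ∧ b (k + 2) = true ∧ b (k + 3) = true) := by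
  intro b
  have hb : b = ![b 0, b 1, b 2, b 3] := by
    funext i
    fin_cases i <;> rfl
  rw [hb]
  generalize b 0 = b0
  generalize b 1 = b1
  generalize b 2 = b2
  generalize b 3 = b3
  intro h1 h2 h3 h4
  cases b0 <;> cases b1 <;> cases b2 <;> cases b3 <;> first
    | exact ⟨0, by decide⟩
    | exact ⟨1, by decide⟩
    | exact ⟨2, by decide⟩
    | exact ⟨3, by decide⟩
    | exact absurd h1 (by decide)
    | exact absurd h2 (by decide)
    | exact absurd (by decide) h3
    | exact absurd (by decide) h4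

/-- Horizontal squares. -/
theorem sqmove_horiz [SwapHyp] {K K' : Finset LE} (h : Valid K) (h' : Valid K') {p : P3}
    (hK : K' = symmDiff K (sqE p 0 2))
    (h1 : K ∩ sqE p 0 2 ≠ ∅) (h2 : K ∩ sqE p 0 2 ≠ sqE p 0 2)
    (h3 : K ∩ sqE p 0 2 ≠ {(p, 0), (p + e3 2, 0)})
    (h4 : K ∩ sqE p 0 2 ≠ {(p, 2), (p + e3 0, 2)}) :
    ∃ es es', Scan K es ∧ Scan K' es' ∧ Eqv (triv Unit) (sword es) (sword es') [] [] := by
  obtain ⟨x, y, z⟩ := p
  have hmem : ∀ q, q ∈ K' ↔ (q ∈ K ∧ q ∉ sqE (x, y, z) 0 2) ∨ (q ∈ sqE (x, y, z) 0 2 ∧ q ∉ K) := by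
    intro q; rw [hK, Finset.mem_symmDiff]
  have hN : ∀ q, (∀ k, q ≠ sqmE x y z k) → (q ∈ K ↔ q ∈ K') := by
    intro q hq
    have hq' : q ∉ sqE (x, y, z) 0 2 := by
      rw [sqm_mem_sqE]
      rintro ⟨k, hk⟩
      exact hq k hk
    rw [hmem]; tauto
  have hE : ∀ k, sqmE x y z k ∈ K' ↔ sqmE x y z k ∉ K := by
    intro k
    have hq' : sqmE x y z k ∈ sqE (x, y, z) 0 2 := (sqm_mem_sqE _ _ _ _).2 ⟨k, rfl⟩
    rw [hmem]; tauto
  have hb := sqm_bool (fun k => decide (sqmE x y z k ∈ K)) ?_ ?_ ?_ ?_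
  · simp only [decide_eq_true_eq, decide_eq_false_iff_not] at hb
    obtain ⟨k, hk | hk | hk⟩ := hb
    · exact sqm_horiz_two h h' x y z k hN hE hk.1 hk.2.1 hk.2.2.1 hk.2.2.2
    · exact sqm_horiz_three h h' x y z k hN hE hk.1 hk.2.1 hk.2.2.1 hk.2.2.2
    · have hE' : ∀ k, sqmE x y z k ∈ K ↔ sqmE x y z k ∉ K' := by
        intro k; rw [hE]; tauto
      obtain ⟨es, es', s1, s2, heq⟩ := sqm_horiz_three h' h x y z k
        (fun q hq => (hN q hq).symm) hE' ((hE _).2 hk.1)
        (fun hh => (hE _).1 hh hk.2.1) (fun hh => (hE _).1 hh hk.2.2.1)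
        (fun hh => (hE _).1 hh hk.2.2.2)
      exact ⟨es', es, s2, s1, heq.symm⟩
  · by_contra hh
    apply h1
    ext q
    rw [Finset.mem_inter, sqm_mem_sqE]
    constructor
    · rintro ⟨hq, k, rfl⟩
      exact absurd ⟨k, by simpa using hq⟩ hh
    · intro hq; simp at hq
  · by_contra hh
    apply h2
    ext q
    rw [Finset.mem_inter, sqm_mem_sqE]
    constructor
    · exact fun hq => hq.2
    · rintro ⟨k, rfl⟩
      refine ⟨?_, k, rfl⟩
      by_contra hk
      exact hh ⟨k, by simpa using hk⟩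
  · simp only [decide_eq_true_eq, decide_eq_false_iff_not]
    rintro ⟨k0, k2, k1, k3⟩
    apply h3
    have e0 : (((x, y, z), 0) : LE) = sqmE x y z 0 := rfl
    have e2 : (((x, y, z) + e3 2, 0) : LE) = sqmE x y z 2 := by simp [sqmE, sqe, toLE, e3]
    rw [e0, e2]
    ext q
    rw [Finset.mem_inter, sqm_mem_sqE, Finset.mem_insert, Finset.mem_singleton]
    constructor
    · rintro ⟨hq, k, rfl⟩
      fin_cases k
      · exact Or.inl rfl
      · exact absurd hq k1
      · exact Or.inr rfl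
      · exact absurd hq k3
    · rintro (rfl | rfl)
      · exact ⟨k0, _, rfl⟩
      · exact ⟨k2, _, rfl⟩
  · simp only [decide_eq_true_eq, decide_eq_false_iff_not]
    rintro ⟨k1, k3, k0, k2⟩
    apply h4
    have e3' : (((x, y, z), 2) : LE) = sqmE x y z 3 := rfl
    have e1 : (((x, y, z) + e3 0, 2) : LE) = sqmE x y z 1 := by simp [sqmE, sqe, toLE, e3]
    rw [e3', e1]
    ext q
    rw [Finset.mem_inter, sqm_mem_sqE, Finset.mem_insert, Finset.mem_singleton]
    constructor
    · rintro ⟨hq, k, rfl⟩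
      fin_cases k
      · exact absurd hq k0
      · exact Or.inr rfl
      · exact absurd hq k2
      · exact Or.inl rfl
    · rintro (rfl | rfl)
      · exact ⟨k3, _, rfl⟩
      · exact ⟨k1, _, rfl⟩

theorem sqm_isDiag {u v : Word Unit} {L : Link} (h : IsDiag u L)
    (he : Eqv (triv Unit) u v [] []) : IsDiag v L := by
  obtain ⟨hu, hL⟩ := h
  refine ⟨he.left.2, ?_⟩
  rw [hL]
  exact Quotient.sound he

theorem sqmove_link [SwapHyp] {K K' : Finset LE} (h : SqMove K K') {L : Link} (hL : IsLink K L) :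
    IsLink K' L := by
  obtain ⟨p, i, j, hij, hK, h1, h2, h3, h4⟩ := h.ex
  have hcase : ∀ i j : Fin 3, i < j → (i = 0 ∧ j = 2) ∨ (i = 1 ∨ j = 1) := by decide
  have key : ∃ es es', Scan K es ∧ Scan K' es' ∧
      Eqv (triv Unit) (sword es) (sword es') [] [] := by
    rcases hcase i j hij with ⟨rfl, rfl⟩ | hv
    · exact sqmove_horiz h.left h.right hK h1 h2 h3 h4
    · exact sqmove_vert h.left h.right hij hv hK h1 h2 h3 h4
  obtain ⟨es, es', s1, s2, he⟩ := key
  obtain ⟨es0, s0, hd⟩ := hL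
  exact ⟨es', s2, sqm_isDiag hd ((scan_eqv h.left s0 s1).trans he)⟩

theorem liso_link [SwapHyp] {K K' : Finset LE} (h : LIso K K') {L : Link} (hL : IsLink K L) :
    IsLink K' L := by
  unfold LIso at h
  induction h with
  | refl => exact hL
  | tail _ h ih => exact sqmove_link h ih

/-- A lattice link represents only one link. -/
theorem isLink_unique [SwapHyp] {K : Finset LE} (hK : Valid K) {L L' : Link} (h : IsLink K L)
    (h' : IsLink K L') : L = L' := by
  obtain ⟨es, s, hd⟩ := h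
  obtain ⟨es', s', hd'⟩ := h'
  obtain ⟨hp, rfl⟩ := sqm_isDiag hd (scan_eqv hK s s')
  obtain ⟨hp', rfl⟩ := hd'
  rfl

theorem sqm_word_ee (e : HE) : run1 ∅ [e, e] = [(.cup (), 0), (.cap, 0)] := by
  have hlt := HE.lo_lt_hi e
  have hnx : nxs ∅ e = {e.lo, e.hi} := by
    simp [nxs]
  have hb0 : btw ∅ e = [] := by simp [btw]
  have hb1 : btw {e.lo, e.hi} e = [] := by
    have : (({e.lo, e.hi} : Finset Site).filter fun q => e.lo < q ∧ q < e.hi) = ∅ := by
      ext q
      simp only [Finset.mem_filter, Finset.mem_insert, Finset.mem_singleton, Finset.notMem_empty,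
        iff_false]
      rintro ⟨rfl | rfl, h1, h2⟩
      · exact lt_irrefl _ h1
      · exact lt_irrefl _ h2
    simp [btw, this]
  have hr0 : rk ∅ e.lo = 0 := by simp [rk]
  have hr1 : rk {e.lo, e.hi} e.lo = 0 := by
    have : (({e.lo, e.hi} : Finset Site).filter fun q => q < e.lo) = ∅ := by
      ext q
      simp only [Finset.mem_filter, Finset.mem_insert, Finset.mem_singleton, Finset.notMem_empty,
        iff_false]
      rintro ⟨rfl | rfl, h1⟩
      · exact lt_irrefl _ h1
      · exact lt_asymm hlt h1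
    simp [rk, this]
  simp only [run1, run, hnx, wd, hb0, hb1, hr0, hr1]
  simp [crR, crL]

theorem sqm_isDiag_unknot {w : Word Unit}
    (h : Eqv (triv Unit) w [(.cup (), 0), (.cap, 0)] [] []) : IsDiag w unknot :=
  sqm_isDiag ⟨path_unknot _ _, rfl⟩ h.symm

theorem sqm_square_vert {K : Finset LE} (y : ℤ) (e : HE)
    (h : ∀ q : ℤ × HE, toLE q ∈ K ↔ q = (y, e) ∨ q = (y + 1, e)) : IsLink K unknot := by
  refine ⟨[(y, e), (y + 1, e)], ⟨?_, ?_, ?_⟩, ?_⟩
  · simp
  · simp
  · intro q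
    rw [h]
    simp
  · apply sqm_isDiag_unknot
    have : sword [(y, e), (y + 1, e)] = [(.cup (), 0), (.cap, 0)] := sqm_word_ee e
    rw [this]
    exact Eqv.refl (path_unknot _ _)

/-- The boundary of a unit square is the unknot. -/
theorem isLink_square [SwapHyp] (p : P3) {i j : Fin 3} (h : i < j) : IsLink (sqE p i j) unknot := by
  obtain ⟨x, y, z⟩ := p
  have hcase : ∀ i j : Fin 3, i < j → (i = 0 ∧ j = 1) ∨ (i = 1 ∧ j = 2) ∨ (i = 0 ∧ j = 2) := by
    decide
  rcases hcase i j h with ⟨rfl, rfl⟩ | ⟨rfl, rfl⟩ | ⟨rfl, rfl⟩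
  · refine sqm_square_vert y (.ex x z) ?_
    rintro ⟨t, u | u⟩
    · simp [sqE, toLE, e3]
      tauto
    · simp [sqE, toLE, e3]
  · refine sqm_square_vert y (.ez x z) ?_
    rintro ⟨t, u | u⟩
    · simp [sqE, toLE, e3]
    · simp [sqE, toLE, e3]
      tauto
  · have hinj : Function.Injective fun m : Fin 4 => ((y, sqe x z m) : ℤ × HE) := by
      intro a b hab
      exact sqm_sqe_injective x z (congrArg Prod.snd hab)
    refine ⟨([3, 2, 1, 0] : List (Fin 4)).map fun m => (y, sqe x z m), ⟨?_, ?_, ?_⟩, ?_⟩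
    · rw [List.pairwise_map]
      exact List.pairwise_of_forall (fun _ _ => le_rfl)
    · exact List.Nodup.map hinj (by decide)
    · intro q
      rw [sqm_mem_sqE, List.mem_map]
      constructor
      · rintro ⟨m, -, rfl⟩
        exact ⟨m, rfl⟩
      · rintro ⟨k, hk⟩
        have := toLE_injective hk
        exact ⟨k, (by decide : ∀ k : Fin 4, k ∈ ([3, 2, 1, 0] : List (Fin 4))) k, this.symm⟩
    · apply sqm_isDiag_unknot
      have e1 : sword (([3, 2, 1, 0] : List (Fin 4)).map fun m => (y, sqe x z m)) =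
          run1 ∅ [sqe x z 3, sqe x z 2, sqe x z 1] ++
            run1 (fin ∅ [sqe x z 3, sqe x z 2, sqe x z 1]) [sqe x z 0] := by
        rw [run1, run1, ← run_append]
        rfl
      have e2 : ([(.cup (), 0), (.cap, 0)] : Word Unit) =
          run1 ∅ [sqe x z 0] ++ run1 (fin ∅ [sqe x z 0]) [sqe x z 0] := by
        rw [run1, run1, ← run_append]
        exact (sqm_word_ee (sqe x z 0)).symm
      have h3 := sq_three ∅ x z 0 (by simp) (by simp)
      have hf := sqm_fin_three ∅ x z 0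
      have hfin2 : fin ∅ [sqe x z 0, sqe x z 0] = ∅ := sqm_nxs_nxs ∅ (sqe x z 0)
      have hp := run_path (fun _ : Site => ()) (fin ∅ [sqe x z 0]) [sqe x z 0] (fun _ _ => rfl)
      rw [← fin_append] at hp
      rw [e1, e2]
      have hl : lst (fun _ : Site => ()) ∅ = [] := sqm_lst_empty
      have hp' : Path (triv Unit) (run1 (fin ∅ [sqe x z 0]) [sqe x z 0])
          (lst1 (fin ∅ [sqe x z 0])) [] := by
        have hh : fin ∅ ([sqe x z 0] ++ [sqe x z 0]) = ∅ := hfin2
        rw [hh, hl] at hp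
        exact hp
      have h3' : Eqv (triv Unit) (run1 ∅ [sqe x z 3, sqe x z 2, sqe x z 1]) (run1 ∅ [sqe x z 0]) []
          (lst1 (fin ∅ [sqe x z 0])) := by
        have := h3.symm
        rw [sqm_lst_empty] at this
        exact this
      refine Eqv.comp h3' ?_
      have hf' : fin ∅ [sqe x z 3, sqe x z 2, sqe x z 1] = fin ∅ [sqe x z 0] := hf.symm
      rw [hf']
      exact Eqv.refl hp'

end Pool.Agent.Lib.MP_131179_gt.Dehn
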