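import Pool.Agent.Lib.MP_131179_gt.Dehn.Coarse
import Pool.Agent.Lib.MP_131179_gt.Dehn.FineD
import Pool.Agent.Lib.MP_131179_gt.Dehn.SqMove

/-!
# The fine link represents the same link
-/

set_option autoImplicit false

namespace Pool.Agent.Lib.MP_131179_gt.Dehn

/-! ### Points of the plane -/

theorem fineLink_lt_iff (p q : Site) : p < q ↔ cx p < cx q ∨ cx p = cx q ∧ cz p < cz q :=
  Prod.Lex.lt_iff

theorem fineLink_cx (a b : ℤ) : cx (st a b) = a := rfl

theorem fineLink_cz (a b : ℤ) : cz (st a b) = b := rfl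

theorem fineLink_inj {a b c d : ℤ} : st a b = st c d ↔ a = c ∧ b = d := by
  rw [llink_st_iff]
  exact Iff.rfl

/-- The point of the fine lattice. -/
def fineLink_phi (N : ℕ) (s : Site) : Site := st (N * cx s + 1) (N * cz s)

/-- The strands in the fine lattice. -/
def fineLink_fs (N : ℕ) (P : Finset Site) : Finset Site := P.image (fineLink_phi N)

theorem fineLink_phi_lt {N : ℕ} (hN : 2 ≤ N) {s t : Site} :
    fineLink_phi N s < fineLink_phi N t ↔ s < t := by
  have hp : (0 : ℤ) < N := by exact_mod_cast (by omega : 0 < N)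
  rw [fineLink_lt_iff, fineLink_lt_iff]
  simp only [fineLink_phi, fineLink_cx, fineLink_cz, add_lt_add_iff_right, add_left_inj,
    mul_lt_mul_iff_of_pos_left hp, mul_right_inj' hp.ne']

theorem fineLink_phi_inj {N : ℕ} (hN : 2 ≤ N) : Function.Injective (fineLink_phi N) := by
  intro s t h
  rcases lt_trichotomy s t with h1 | h1 | h1
  · exact absurd h ((fineLink_phi_lt hN).2 h1).ne
  · exact h1
  · exact absurd h ((fineLink_phi_lt hN).2 h1).ne'

theorem fineLink_mem {N : ℕ} (hN : 2 ≤ N) {P : Finset Site} {s : Site} :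
    fineLink_phi N s ∈ fineLink_fs N P ↔ s ∈ P := by
  unfold fineLink_fs
  rw [Finset.mem_image]
  constructor
  · rintro ⟨t, h1, h2⟩
    rw [← fineLink_phi_inj hN h2]
    exact h1
  · intro h
    exact ⟨s, h, rfl⟩

/-! ### One edge -/

theorem fineLink_btw {P : Finset Site} {e : HE} (h : ∀ q ∈ P, ¬ (e.lo < q ∧ q < e.hi)) :
    btw P e = [] := by
  unfold btw
  rw [Finset.filter_eq_empty_iff.2 h, Finset.sort_empty]

theorem fineLink_btw_insert {R : Finset Site} {e : HE} :
    btw (insert e.lo R) e = btw R e ∧ btw (insert e.hi R) e = btw R e := by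
  unfold btw
  constructor
  · rw [Finset.filter_insert, if_neg (fun h => lt_irrefl _ h.1)]
  · rw [Finset.filter_insert, if_neg (fun h => lt_irrefl _ h.2)]

theorem fineLink_rk_insert {R : Finset Site} {p q : Site} (h : p ≤ q) :
    rk (insert q R) p = rk R p := by
  unfold rk
  rw [Finset.filter_insert, if_neg h.not_gt]

theorem fineLink_nxs_lo {R : Finset Site} {e : HE} (hlo : e.lo ∉ R) (hhi : e.hi ∉ R) :
    nxs (insert e.lo R) e = insert e.hi R := by
  have hne := e.lo_lt_hi.ne
  ext q
  unfold nxs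
  simp only [Finset.mem_symmDiff, Finset.mem_insert, Finset.mem_singleton]
  by_cases h1 : q = e.lo
  · subst h1
    simp [hlo, hne]
  · by_cases h2 : q = e.hi
    · subst h2
      simp [hhi, hne.symm]
    · simp [h1, h2]

theorem fineLink_nxs_hi {R : Finset Site} {e : HE} (hlo : e.lo ∉ R) (hhi : e.hi ∉ R) :
    nxs (insert e.hi R) e = insert e.lo R := by
  have hne := e.lo_lt_hi.ne
  ext q
  unfold nxs
  simp only [Finset.mem_symmDiff, Finset.mem_insert, Finset.mem_singleton]
  by_cases h1 : q = e.lo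
  · subst h1
    simp [hlo, hne]
  · by_cases h2 : q = e.hi
    · subst h2
      simp [hhi, hne.symm]
    · simp [h1, h2]

theorem fineLink_nxs_cup {R : Finset Site} {e : HE} (hlo : e.lo ∉ R) (hhi : e.hi ∉ R) :
    nxs R e = insert e.lo (insert e.hi R) := by
  ext q
  unfold nxs
  simp only [Finset.mem_symmDiff, Finset.mem_insert, Finset.mem_singleton]
  by_cases h1 : q = e.lo
  · subst h1
    simp [hlo]
  · by_cases h2 : q = e.hi
    · subst h2
      simp [hhi]
    · simp [h1, h2]

theorem fineLink_nxs_cap {R : Finset Site} {e : HE} (hlo : e.lo ∉ R) (hhi : e.hi ∉ R) :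
    nxs (insert e.lo (insert e.hi R)) e = R := by
  ext q
  unfold nxs
  simp only [Finset.mem_symmDiff, Finset.mem_insert, Finset.mem_singleton]
  by_cases h1 : q = e.lo
  · subst h1
    simp [hlo]
  · by_cases h2 : q = e.hi
    · subst h2
      simp [hhi]
    · simp [h1, h2]

section

variable {f : Site → Unit}

/-- A move to the larger end. -/
theorem fineLink_wd_lo {R : Finset Site} {e : HE} (hhi : e.hi ∉ R) :
    wd f (insert e.lo R) e = crR (cz e.lo) (rk R e.lo) (btw R e) := by
  have hne := e.lo_lt_hi.ne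
  unfold wd
  simp only [fineLink_btw_insert.1, fineLink_rk_insert le_rfl]
  rw [if_pos (Finset.mem_insert_self _ _), if_neg]
  rw [Finset.mem_insert]
  rintro (h | h)
  · exact hne h.symm
  · exact hhi h

/-- A move to the smaller end. -/
theorem fineLink_wd_hi {R : Finset Site} {e : HE} (hlo : e.lo ∉ R) :
    wd f (insert e.hi R) e = crL (cz e.lo) (rk R e.lo) (btw R e) := by
  have hne := e.lo_lt_hi.ne
  unfold wd
  simp only [fineLink_btw_insert.2, fineLink_rk_insert e.lo_lt_hi.le]
  rw [if_neg, if_pos (Finset.mem_insert_self _ _)]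
  rw [Finset.mem_insert]
  rintro (h | h)
  · exact hne h
  · exact hlo h

/-- The condition that nothing is passed. -/
def fineLink_ok (R : Finset Site) (e : HE) : Prop :=
  e.lo ∉ R ∧ e.hi ∉ R ∧ ∀ q ∈ R, ¬ (e.lo < q ∧ q < e.hi)

theorem fineLink_mv {R : Finset Site} {e : HE} (h : fineLink_ok R e) {p q : Site}
    (hp : p = e.lo) (hq : q = e.hi) :
    wd f (insert p R) e = [] ∧ nxs (insert p R) e = insert q R := by
  subst hp; subst hq
  rw [fineLink_wd_lo h.2.1, fineLink_btw h.2.2]
  exact ⟨rfl, fineLink_nxs_lo h.1 h.2.1⟩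

theorem fineLink_mv' {R : Finset Site} {e : HE} (h : fineLink_ok R e) {p q : Site}
    (hp : p = e.lo) (hq : q = e.hi) :
    wd f (insert q R) e = [] ∧ nxs (insert q R) e = insert p R := by
  subst hp; subst hq
  rw [fineLink_wd_hi h.1, fineLink_btw h.2.2]
  exact ⟨rfl, fineLink_nxs_hi h.1 h.2.1⟩

theorem fineLink_cup {R : Finset Site} {e : HE} (h : fineLink_ok R e) {p q : Site}
    (hp : p = e.lo) (hq : q = e.hi) :
    wd f R e = [(.cup (), rk R p)] ∧ nxs R e = insert p (insert q R) := by
  subst hp; subst hq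
  refine ⟨?_, fineLink_nxs_cup h.1 h.2.1⟩
  unfold wd
  simp only [fineLink_btw h.2.2]
  rw [if_neg h.1, if_neg h.2.1]
  rfl

theorem fineLink_cap {R : Finset Site} {e : HE} (h : fineLink_ok R e) {p q : Site}
    (hp : p = e.lo) (hq : q = e.hi) :
    wd f (insert p (insert q R)) e = [(.cap, rk R p)] ∧ nxs (insert p (insert q R)) e = R := by
  subst hp; subst hq
  refine ⟨?_, fineLink_nxs_cap h.1 h.2.1⟩
  unfold wd
  simp only [fineLink_btw_insert, fineLink_btw h.2.2, fineLink_rk_insert le_rfl,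
    fineLink_rk_insert e.lo_lt_hi.le]
  rw [if_pos (Finset.mem_insert_self _ _),
    if_pos (Finset.mem_insert_of_mem (Finset.mem_insert_self _ _))]
  rfl

end

/-! ### Several edges -/

theorem fineLink_run_append (P : Finset Site) (es es' : List HE) :
    run1 P (es ++ es') = run1 P es ++ run1 (fin P es) es' := run_append _ P es es'

theorem fineLink_run_cons (P : Finset Site) (e : HE) (es : List HE) :
    run1 P (e :: es) = wd (fun _ => ()) P e ++ run1 (nxs P e) es := rfl

theorem fineLink_fin_cons (P : Finset Site) (e : HE) (es : List HE) :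
    fin P (e :: es) = fin (nxs P e) es := rfl

/-- The strands between two points. -/
def fineLink_mid (R : Finset Site) (p q : Site) : List Site :=
  (R.filter fun s => p < s ∧ s < q).sort (· ≤ ·)

theorem fineLink_mid_self (R : Finset Site) (p : Site) : fineLink_mid R p p = [] := by
  unfold fineLink_mid
  rw [Finset.filter_eq_empty_iff.2, Finset.sort_empty]
  rintro s _ ⟨h1, h2⟩
  exact lt_irrefl _ (h1.trans h2)

theorem fineLink_mid_split {R : Finset Site} {p q r : Site} (hpq : p ≤ q) (hqr : q ≤ r)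
    (hq : q ∉ R) : fineLink_mid R p r = fineLink_mid R p q ++ fineLink_mid R q r := by
  unfold fineLink_mid
  rw [← sort_union]
  · congr 1
    ext s
    simp only [Finset.mem_filter, Finset.mem_union]
    constructor
    · rintro ⟨h1, h2, h3⟩
      rcases lt_trichotomy s q with h | h | h
      · exact Or.inl ⟨h1, h2, h⟩
      · exact absurd (h ▸ h1) hq
      · exact Or.inr ⟨h1, h, h3⟩
    · rintro (⟨h1, h2, h3⟩ | ⟨h1, h2, h3⟩)
      · exact ⟨h1, h2, h3.trans_le hqr⟩
      · exact ⟨h1, hpq.trans_lt h2, h3⟩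
  · intro s hs t ht
    rw [Finset.mem_filter] at hs ht
    exact hs.2.2.trans ht.2.1

theorem fineLink_rk_add {R : Finset Site} {p q : Site} (hpq : p ≤ q) (hp : p ∉ R) :
    rk R q = rk R p + (fineLink_mid R p q).length := by
  unfold fineLink_mid rk
  rw [Finset.length_sort, ← Finset.card_union_of_disjoint]
  · congr 1
    ext s
    simp only [Finset.mem_filter, Finset.mem_union]
    constructor
    · rintro ⟨h1, h2⟩
      rcases lt_trichotomy s p with h | h | h
      · exact Or.inl ⟨h1, h⟩
      · exact absurd (h ▸ h1) hp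
      · exact Or.inr ⟨h1, h, h2⟩
    · rintro (⟨h1, h2⟩ | ⟨h1, h2, h3⟩)
      · exact ⟨h1, h2.trans_le hpq⟩
      · exact ⟨h1, h3⟩
  · rw [Finset.disjoint_left]
    intro s hs ht
    rw [Finset.mem_filter] at hs ht
    exact lt_irrefl _ (hs.2.trans ht.2.1)

theorem fineLink_mid_fs {N : ℕ} (hN : 2 ≤ N) (P : Finset Site) (p q : Site) :
    fineLink_mid (fineLink_fs N P) (fineLink_phi N p) (fineLink_phi N q) =
      (fineLink_mid P p q).map (fineLink_phi N) := by
  have h1 : (fineLink_fs N P).filter (fun s => fineLink_phi N p < s ∧ s < fineLink_phi N q) =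
      (P.filter fun s => p < s ∧ s < q).map ⟨fineLink_phi N, fineLink_phi_inj hN⟩ := by
    ext s
    simp only [fineLink_fs, Finset.mem_filter, Finset.mem_image, Finset.mem_map,
      Function.Embedding.coeFn_mk]
    constructor
    · rintro ⟨⟨t, h1, rfl⟩, h2, h3⟩
      exact ⟨t, ⟨h1, (fineLink_phi_lt hN).1 h2, (fineLink_phi_lt hN).1 h3⟩, rfl⟩
    · rintro ⟨t, ⟨h1, h2, h3⟩, rfl⟩
      exact ⟨⟨t, h1, rfl⟩, (fineLink_phi_lt hN).2 h2, (fineLink_phi_lt hN).2 h3⟩
  unfold fineLink_mid
  rw [h1]
  symm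
  refine Finset.map_sort ⟨fineLink_phi N, fineLink_phi_inj hN⟩ (P.filter fun s => p < s ∧ s < q)
    (fun a b : Site => a ≤ b) (fun a b : Site => a ≤ b) ?_
  intro a _ b _
  rw [← not_lt, ← not_lt]
  exact not_congr (fineLink_phi_lt hN).symm

theorem fineLink_rk_fs {N : ℕ} (hN : 2 ≤ N) (P : Finset Site) (p : Site) :
    rk (fineLink_fs N P) (fineLink_phi N p) = rk P p := by
  have h1 : (fineLink_fs N P).filter (fun s => s < fineLink_phi N p) =
      (P.filter fun s => s < p).map ⟨fineLink_phi N, fineLink_phi_inj hN⟩ := by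
    ext s
    simp only [fineLink_fs, Finset.mem_filter, Finset.mem_image, Finset.mem_map,
      Function.Embedding.coeFn_mk]
    constructor
    · rintro ⟨⟨t, h1, rfl⟩, h2⟩
      exact ⟨t, ⟨h1, (fineLink_phi_lt hN).1 h2⟩, rfl⟩
    · rintro ⟨t, ⟨h1, h2⟩, rfl⟩
      exact ⟨⟨t, h1, rfl⟩, (fineLink_phi_lt hN).2 h2⟩
  unfold rk
  rw [h1, Finset.card_map]

theorem fineLink_crR_append (z : ℤ) (r : ℕ) (A B : List Site) :
    (crR z r (A ++ B) : Word Unit) = crR z r A ++ crR z (r + A.length) B := by
  induction A generalizing r with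
  | nil => rfl
  | cons a A ih =>
    rw [List.cons_append, crR, crR, ih, List.length_cons, List.cons_append, Nat.add_assoc,
      Nat.add_comm 1]

theorem fineLink_crL_append (z : ℤ) (r : ℕ) (A B : List Site) :
    (crL z r (A ++ B) : Word Unit) = crL z (r + A.length) B ++ crL z r A := by
  induction A generalizing r with
  | nil => simp [crL]
  | cons a A ih =>
    rw [List.cons_append, crL, crL, ih, List.length_cons, List.append_assoc, Nat.add_assoc,
      Nat.add_comm 1]

theorem fineLink_phi_cz {N : ℕ} (hN : 2 ≤ N) {z : ℤ} {b : Site} :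
    (N : ℤ) * z < cz (fineLink_phi N b) ↔ z < cz b := by
  have hp : (0 : ℤ) < N := by exact_mod_cast (by omega : 0 < N)
  exact mul_lt_mul_iff_of_pos_left hp

theorem fineLink_crR_fs {N : ℕ} (hN : 2 ≤ N) (z : ℤ) (r : ℕ) (B : List Site) :
    (crR (N * z) r (B.map (fineLink_phi N)) : Word Unit) = crR z r B := by
  induction B generalizing r with
  | nil => rfl
  | cons b B ih =>
    rw [List.map_cons, crR, crR, ih]
    simp only [fineLink_phi_cz hN]

theorem fineLink_crL_fs {N : ℕ} (hN : 2 ≤ N) (z : ℤ) (r : ℕ) (B : List Site) :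
    (crL (N * z) r (B.map (fineLink_phi N)) : Word Unit) = crL z r B := by
  induction B generalizing r with
  | nil => rfl
  | cons b B ih =>
    rw [List.map_cons, crL, crL, ih]
    simp only [fineLink_phi_cz hN]

/-- Edges in the direction of the columns. -/
def fineLink_rts (c z : ℤ) (n : ℕ) : List HE := (List.range n).map fun t : ℕ => .ex (c + t) z

/-- Edges in the direction of the depth. -/
def fineLink_ups (a b : ℤ) (n : ℕ) : List HE := (List.range n).map fun t : ℕ => .ez a (b + t)

theorem fineLink_rts_succ (c z : ℤ) (n : ℕ) :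
    fineLink_rts c z (n + 1) = fineLink_rts c z n ++ [.ex (c + n) z] := by
  unfold fineLink_rts
  rw [List.range_succ, List.map_append]
  rfl

theorem fineLink_ups_succ (a b : ℤ) (n : ℕ) :
    fineLink_ups a b (n + 1) = fineLink_ups a b n ++ [.ez a (b + n)] := by
  unfold fineLink_ups
  rw [List.range_succ, List.map_append]
  rfl

theorem fineLink_ups_succ' (a b : ℤ) (n : ℕ) :
    fineLink_ups a b (n + 1) = .ez a b :: fineLink_ups a (b + 1) n := by
  induction n with
  | zero =>
    unfold fineLink_ups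
    simp
  | succ n ih =>
    rw [fineLink_ups_succ, ih, fineLink_ups_succ, List.cons_append]
    congr 4
    push_cast
    ring

theorem fineLink_le_right {c z : ℤ} {s t : ℤ} (h : s ≤ t) : st (c + s) z ≤ st (c + t) z := by
  rcases h.eq_or_lt with rfl | h
  · exact le_rfl
  · exact ((fineLink_lt_iff _ _).2 (Or.inl (by simp only [fineLink_cx]; omega))).le

theorem fineLink_right {R : Finset Site} {c z : ℤ} (n : ℕ) (h : ∀ t : ℕ, t ≤ n → st (c + t) z ∉ R) :
    run1 (insert (st c z) R) (fineLink_rts c z n) =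
      crR z (rk R (st c z)) (fineLink_mid R (st c z) (st (c + n) z)) ∧
    fin (insert (st c z) R) (fineLink_rts c z n) = insert (st (c + n) z) R := by
  induction n with
  | zero =>
    have h0 : c + ((0 : ℕ) : ℤ) = c := by simp
    rw [h0, fineLink_mid_self]
    exact ⟨rfl, rfl⟩
  | succ n ih =>
    obtain ⟨h1, h2⟩ := ih fun t ht => h t (by omega)
    have h3 : c + ((n + 1 : ℕ) : ℤ) = c + n + 1 := by push_cast; ring
    have hc : c = c + ((0 : ℕ) : ℤ) := by simp
    have h4 : st c z ≤ st (c + n) z := by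
      have := fineLink_le_right (c := c) (z := z) (s := 0) (t := n) (by omega)
      rwa [add_zero] at this
    have h5 : st (c + n) z < st (c + n + 1) z :=
      (fineLink_lt_iff _ _).2 (Or.inl (by simp only [fineLink_cx]; omega))
    have h6 := h n (by omega)
    have h7 : st (c + n + 1) z ∉ R := h3 ▸ h (n + 1) le_rfl
    have h8 : st c z ∉ R := by
      have := h 0 (by omega)
      rwa [← hc] at this
    rw [h3, fineLink_rts_succ, fineLink_run_append, fin_append, h1, h2]
    have h9 := fineLink_wd_lo (f := fun _ => ()) (R := R) (e := .ex (c + n) z) h7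
    constructor
    · rw [fineLink_mid_split h4 h5.le h6, fineLink_crR_append]
      congr 1
      show wd _ (insert (st (c + n) z) R) _ ++ [] = _
      rw [List.append_nil]
      refine h9.trans ?_
      rw [← fineLink_rk_add h4 h8]
      rfl
    · exact fineLink_nxs_lo (R := R) (e := .ex (c + n) z) h6 h7

theorem fineLink_left {R : Finset Site} {c z : ℤ} (n : ℕ) (h : ∀ t : ℕ, t ≤ n → st (c + t) z ∉ R) :
    run1 (insert (st (c + n) z) R) (fineLink_rts c z n).reverse =
      crL z (rk R (st c z)) (fineLink_mid R (st c z) (st (c + n) z)) ∧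
    fin (insert (st (c + n) z) R) (fineLink_rts c z n).reverse = insert (st c z) R := by
  induction n with
  | zero =>
    have h0 : c + ((0 : ℕ) : ℤ) = c := by simp
    rw [h0, fineLink_mid_self]
    exact ⟨rfl, rfl⟩
  | succ n ih =>
    obtain ⟨h1, h2⟩ := ih fun t ht => h t (by omega)
    have h3 : c + ((n + 1 : ℕ) : ℤ) = c + n + 1 := by push_cast; ring
    have hc : c = c + ((0 : ℕ) : ℤ) := by simp
    have h4 : st c z ≤ st (c + n) z := by
      have := fineLink_le_right (c := c) (z := z) (s := 0) (t := n) (by omega)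
      rwa [add_zero] at this
    have h5 : st (c + n) z < st (c + n + 1) z :=
      (fineLink_lt_iff _ _).2 (Or.inl (by simp only [fineLink_cx]; omega))
    have h6 := h n (by omega)
    have h7 : st (c + n + 1) z ∉ R := h3 ▸ h (n + 1) le_rfl
    have h8 : st c z ∉ R := by
      have := h 0 (by omega)
      rwa [← hc] at this
    have h9 := fineLink_wd_hi (f := fun _ => ()) (R := R) (e := .ex (c + n) z) h6
    have h10 := fineLink_nxs_hi (R := R) (e := .ex (c + n) z) h6 h7
    rw [h3, fineLink_rts_succ, List.reverse_append, List.reverse_singleton, List.singleton_append]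
    constructor
    · show wd _ (insert (st (c + n + 1) z) R) _ ++ run1 (nxs (insert (st (c + n + 1) z) R) _) _ = _
      have h11 : nxs (insert (st (c + n + 1) z) R) (.ex (c + n) z) = insert (st (c + n) z) R := h10
      rw [h11, h1, fineLink_mid_split h4 h5.le h6, fineLink_crL_append]
      congr 1
      refine h9.trans ?_
      rw [← fineLink_rk_add h4 h8]
      rfl
    · show fin (nxs (insert (st (c + n + 1) z) R) _) _ = _
      have h11 : nxs (insert (st (c + n + 1) z) R) (.ex (c + n) z) = insert (st (c + n) z) R := h10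
      rw [h11, h2]

theorem fineLink_ok_ez {R : Finset Site} {a b : ℤ} (h1 : st a b ∉ R) (h2 : st a (b + 1) ∉ R) :
    fineLink_ok R (.ez a b) := by
  refine ⟨h1, h2, ?_⟩
  rintro q _ ⟨h3, h4⟩
  rw [fineLink_lt_iff] at h3 h4
  simp only [HE.lo, HE.hi, fineLink_cx, fineLink_cz] at h3 h4
  omega

theorem fineLink_up {R : Finset Site} {a b : ℤ} (n : ℕ) (h : ∀ t : ℕ, t ≤ n → st a (b + t) ∉ R) :
    run1 (insert (st a b) R) (fineLink_ups a b n) = [] ∧
    fin (insert (st a b) R) (fineLink_ups a b n) = insert (st a (b + n)) R := by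
  induction n with
  | zero =>
    have h0 : b + ((0 : ℕ) : ℤ) = b := by simp
    rw [h0]
    exact ⟨rfl, rfl⟩
  | succ n ih =>
    obtain ⟨h1, h2⟩ := ih fun t ht => h t (by omega)
    have h3 : b + ((n + 1 : ℕ) : ℤ) = b + n + 1 := by push_cast; ring
    have h6 := h n (by omega)
    have h7 : st a (b + n + 1) ∉ R := h3 ▸ h (n + 1) le_rfl
    have h8 := fineLink_mv (f := fun _ => ()) (fineLink_ok_ez h6 h7) rfl rfl
    rw [h3, fineLink_ups_succ, fineLink_run_append, fin_append, h1, h2]
    constructor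
    · show wd _ _ _ ++ [] = _
      rw [List.append_nil]
      exact h8.1
    · exact h8.2

theorem fineLink_dn {R : Finset Site} {a b : ℤ} (n : ℕ) (h : ∀ t : ℕ, t ≤ n → st a (b + t) ∉ R) :
    run1 (insert (st a (b + n)) R) (fineLink_ups a b n).reverse = [] ∧
    fin (insert (st a (b + n)) R) (fineLink_ups a b n).reverse = insert (st a b) R := by
  induction n with
  | zero =>
    have h0 : b + ((0 : ℕ) : ℤ) = b := by simp
    rw [h0]
    exact ⟨rfl, rfl⟩
  | succ n ih =>
    obtain ⟨h1, h2⟩ := ih fun t ht => h t (by omega)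
    have h3 : b + ((n + 1 : ℕ) : ℤ) = b + n + 1 := by push_cast; ring
    have h6 := h n (by omega)
    have h7 : st a (b + n + 1) ∉ R := h3 ▸ h (n + 1) le_rfl
    have h8 := fineLink_mv' (f := fun _ => ()) (fineLink_ok_ez h6 h7) rfl rfl
    have h9 : nxs (insert (st a (b + n + 1)) R) (.ez a (b + n)) = insert (st a (b + n)) R := h8.2
    rw [h3, fineLink_ups_succ, List.reverse_append, List.reverse_singleton, List.singleton_append]
    constructor
    · show wd _ _ _ ++ run1 (nxs _ _) _ = _
      rw [h9, h1, List.append_nil]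
      exact h8.1
    · show fin (nxs _ _) _ = _
      rw [h9, h2]

theorem fineLink_ok_ex {R : Finset Site} {a c : ℤ} (h1 : st a c ∉ R) (h2 : st (a + 1) c ∉ R)
    (h3 : ∀ q ∈ R, cx q = a → cz q ≤ c) (h4 : ∀ q ∈ R, cx q = a + 1 → c ≤ cz q) :
    fineLink_ok R (.ex a c) := by
  refine ⟨h1, h2, ?_⟩
  rintro q hq ⟨h5, h6⟩
  have h7 := h3 q hq
  have h8 := h4 q hq
  rw [fineLink_lt_iff] at h5 h6
  simp only [HE.lo, HE.hi, fineLink_cx, fineLink_cz] at h5 h6
  omega

theorem fineLink_not_mem {R : Finset Site} {a : ℤ} (hR : ∀ q ∈ R, cx q ≠ a) (b : ℤ) :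
    st a b ∉ R := fun h => hR _ h rfl

theorem fineLink_not_mem_insert {R : Finset Site} {a b c d : ℤ} (hR : st a b ∉ R)
    (h : a = c → b ≠ d) : st a b ∉ insert (st c d) R := by
  rw [Finset.mem_insert, fineLink_inj]
  rintro (⟨h1, h2⟩ | h1)
  · exact h h1 h2
  · exact hR h1

section

variable {R : Finset Site} {a b : ℤ} (hR : ∀ q ∈ R, cx q ≠ a ∧ cx q ≠ a + 1)

include hR

theorem fineLink_ok_1 : fineLink_ok R (.ex a b) :=
  fineLink_ok_ex (fineLink_not_mem (fun q hq => (hR q hq).1) _)
    (fineLink_not_mem (fun q hq => (hR q hq).2) _) (fun q hq h => absurd h (hR q hq).1)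
    (fun q hq h => absurd h (hR q hq).2)

theorem fineLink_ok_2 {d : ℤ} (hd : b < d) : fineLink_ok (insert (st a b) R) (.ex a d) := by
  refine fineLink_ok_ex ?_ ?_ ?_ ?_
  · exact fineLink_not_mem_insert (fineLink_not_mem (fun q hq => (hR q hq).1) _) (by omega)
  · exact fineLink_not_mem_insert (fineLink_not_mem (fun q hq => (hR q hq).2) _) (by omega)
  · intro q hq h
    rw [Finset.mem_insert] at hq
    rcases hq with rfl | hq
    · simp only [fineLink_cz]; omega
    · exact absurd h (hR q hq).1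
  · intro q hq h
    rw [Finset.mem_insert] at hq
    rcases hq with rfl | hq
    · simp only [fineLink_cx] at h; omega
    · exact absurd h (hR q hq).2

theorem fineLink_ok_3 {d : ℤ} (hd : b < d) : fineLink_ok (insert (st (a + 1) d) R) (.ex a b) := by
  refine fineLink_ok_ex ?_ ?_ ?_ ?_
  · exact fineLink_not_mem_insert (fineLink_not_mem (fun q hq => (hR q hq).1) _) (by omega)
  · exact fineLink_not_mem_insert (fineLink_not_mem (fun q hq => (hR q hq).2) _) (by omega)
  · intro q hq h
    rw [Finset.mem_insert] at hq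
    rcases hq with rfl | hq
    · simp only [fineLink_cx] at h; omega
    · exact absurd h (hR q hq).1
  · intro q hq h
    rw [Finset.mem_insert] at hq
    rcases hq with rfl | hq
    · simp only [fineLink_cz]; omega
    · exact absurd h (hR q hq).2

theorem fineLink_birth (n : ℕ) :
    run1 R (fineLink_ups a b (n + 1) ++ [.ex a (b + (n + 1 : ℕ)), .ex a b]) =
      [(.cup (), rk R (st a b))] ∧
    fin R (fineLink_ups a b (n + 1) ++ [.ex a (b + (n + 1 : ℕ)), .ex a b]) =
      insert (st (a + 1) b) (insert (st (a + 1) (b + (n + 1 : ℕ))) R) := by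
  have hR0 : ∀ z, st a z ∉ R := fun z => fineLink_not_mem (fun q hq => (hR q hq).1) z
  have e1 : b + ((n + 1 : ℕ) : ℤ) = b + 1 + n := by push_cast; ring
  have h1 := fineLink_cup (f := fun _ => ()) (fineLink_ok_ez (hR0 b) (hR0 (b + 1))) rfl rfl
  have h1b : nxs R (.ez a b) = insert (st a (b + 1)) (insert (st a b) R) := by
    rw [h1.2, Finset.insert_comm]
    rfl
  have h2 := fineLink_up (R := insert (st a b) R) (a := a) (b := b + 1) n (fun t ht =>
    fineLink_not_mem_insert (hR0 _) (by omega))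
  have h3 := fineLink_mv (f := fun _ => ()) (fineLink_ok_2 hR (b := b) (d := b + 1 + n)
    (by omega)) rfl rfl
  have h3b : nxs (insert (st a (b + 1 + n)) (insert (st a b) R)) (.ex a (b + 1 + n)) =
      insert (st a b) (insert (st (a + 1) (b + 1 + n)) R) := by
    refine h3.2.trans ?_
    rw [Finset.insert_comm]
    rfl
  have h4 := fineLink_mv (f := fun _ => ()) (fineLink_ok_3 hR (b := b) (d := b + 1 + n)
    (by omega)) rfl rfl
  rw [e1, fineLink_ups_succ', List.cons_append]
  constructor
  · rw [fineLink_run_cons, h1b, fineLink_run_append, h2.1, h2.2, fineLink_run_cons, h3b,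
      fineLink_run_cons, h1.1]
    have h3a : wd (fun _ => ()) (insert (st a (b + 1 + n)) (insert (st a b) R))
      (.ex a (b + 1 + n)) = [] := h3.1
    have h4a : wd (fun _ => ()) (insert (st a b) (insert (st (a + 1) (b + 1 + n)) R))
      (.ex a b) = [] := h4.1
    rw [h3a, h4a]
    rfl
  · rw [fineLink_fin_cons, h1b, fin_append, h2.2, fineLink_fin_cons, h3b, fineLink_fin_cons]
    exact h4.2

theorem fineLink_death (n : ℕ) :
    run1 (insert (st (a + 1) b) (insert (st (a + 1) (b + (n + 1 : ℕ))) R))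
      ([.ex a b, .ex a (b + (n + 1 : ℕ))] ++ (fineLink_ups a b (n + 1)).reverse) =
      [(.cap, rk R (st a b))] ∧
    fin (insert (st (a + 1) b) (insert (st (a + 1) (b + (n + 1 : ℕ))) R))
      ([.ex a b, .ex a (b + (n + 1 : ℕ))] ++ (fineLink_ups a b (n + 1)).reverse) = R := by
  have hR0 : ∀ z, st a z ∉ R := fun z => fineLink_not_mem (fun q hq => (hR q hq).1) z
  have e1 : b + ((n + 1 : ℕ) : ℤ) = b + 1 + n := by push_cast; ring
  have h1 := fineLink_mv' (f := fun _ => ()) (fineLink_ok_3 hR (b := b) (d := b + 1 + n)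
    (by omega)) rfl rfl
  have h1a : wd (fun _ => ()) (insert (st (a + 1) b) (insert (st (a + 1) (b + 1 + n)) R))
      (.ex a b) = [] := h1.1
  have h1b : nxs (insert (st (a + 1) b) (insert (st (a + 1) (b + 1 + n)) R)) (.ex a b) =
      insert (st (a + 1) (b + 1 + n)) (insert (st a b) R) := by
    refine h1.2.trans ?_
    rw [Finset.insert_comm]
    rfl
  have h2 := fineLink_mv' (f := fun _ => ()) (fineLink_ok_2 hR (b := b) (d := b + 1 + n)
    (by omega)) rfl rfl
  have h2a : wd (fun _ => ()) (insert (st (a + 1) (b + 1 + n)) (insert (st a b) R))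
      (.ex a (b + 1 + n)) = [] := h2.1
  have h2b : nxs (insert (st (a + 1) (b + 1 + n)) (insert (st a b) R)) (.ex a (b + 1 + n)) =
      insert (st a (b + 1 + n)) (insert (st a b) R) := h2.2
  have h3 := fineLink_dn (R := insert (st a b) R) (a := a) (b := b + 1) n (fun t ht =>
    fineLink_not_mem_insert (hR0 _) (by omega))
  have h4 := fineLink_cap (f := fun _ => ()) (fineLink_ok_ez (hR0 b) (hR0 (b + 1))) rfl rfl
  have h4a : wd (fun _ => ()) (insert (st a (b + 1)) (insert (st a b) R)) (.ez a b) =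
      [(.cap, rk R (st a b))] := by
    rw [Finset.insert_comm]
    exact h4.1
  have h4b : nxs (insert (st a (b + 1)) (insert (st a b) R)) (.ez a b) = R := by
    rw [Finset.insert_comm]
    exact h4.2
  rw [e1, fineLink_ups_succ', List.cons_append, List.cons_append, List.nil_append,
    List.reverse_cons]
  constructor
  · rw [fineLink_run_cons, h1a, h1b, fineLink_run_cons, h2a, h2b, fineLink_run_append, h3.1, h3.2,
      fineLink_run_cons, h4a]
    rfl
  · rw [fineLink_fin_cons, h1b, fineLink_fin_cons, h2b, fin_append, h3.2]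
    exact h4b

theorem fineLink_mvup (n : ℕ) :
    run1 (insert (st (a + 1) b) R) ([.ex a b] ++ fineLink_ups a b n ++ [.ex a (b + n)]) = [] ∧
    fin (insert (st (a + 1) b) R) ([.ex a b] ++ fineLink_ups a b n ++ [.ex a (b + n)]) =
      insert (st (a + 1) (b + n)) R := by
  have hR0 : ∀ z, st a z ∉ R := fun z => fineLink_not_mem (fun q hq => (hR q hq).1) z
  have h1 := fineLink_mv' (f := fun _ => ()) (fineLink_ok_1 hR (b := b)) rfl rfl
  have h1a : wd (fun _ => ()) (insert (st (a + 1) b) R) (.ex a b) = [] := h1.1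
  have h1b : nxs (insert (st (a + 1) b) R) (.ex a b) = insert (st a b) R := h1.2
  have h2 := fineLink_up (R := R) (a := a) (b := b) n (fun t _ => hR0 _)
  have h3 := fineLink_mv (f := fun _ => ()) (fineLink_ok_1 hR (b := b + n)) rfl rfl
  have h3a : wd (fun _ => ()) (insert (st a (b + n)) R) (.ex a (b + n)) = [] := h3.1
  have h3b : nxs (insert (st a (b + n)) R) (.ex a (b + n)) = insert (st (a + 1) (b + n)) R := h3.2
  rw [List.append_assoc, List.cons_append, List.nil_append]
  constructor
  · rw [fineLink_run_cons, h1a, h1b, fineLink_run_append, h2.1, h2.2, fineLink_run_cons, h3a]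
    rfl
  · rw [fineLink_fin_cons, h1b, fin_append, h2.2]
    exact h3b

theorem fineLink_mvdn (n : ℕ) :
    run1 (insert (st (a + 1) (b + n)) R)
      ([.ex a (b + n)] ++ (fineLink_ups a b n).reverse ++ [.ex a b]) = [] ∧
    fin (insert (st (a + 1) (b + n)) R)
      ([.ex a (b + n)] ++ (fineLink_ups a b n).reverse ++ [.ex a b]) =
      insert (st (a + 1) b) R := by
  have hR0 : ∀ z, st a z ∉ R := fun z => fineLink_not_mem (fun q hq => (hR q hq).1) z
  have h1 := fineLink_mv' (f := fun _ => ()) (fineLink_ok_1 hR (b := b + n)) rfl rfl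
  have h1a : wd (fun _ => ()) (insert (st (a + 1) (b + n)) R) (.ex a (b + n)) = [] := h1.1
  have h1b : nxs (insert (st (a + 1) (b + n)) R) (.ex a (b + n)) = insert (st a (b + n)) R := h1.2
  have h2 := fineLink_dn (R := R) (a := a) (b := b) n (fun t _ => hR0 _)
  have h3 := fineLink_mv (f := fun _ => ()) (fineLink_ok_1 hR (b := b)) rfl rfl
  have h3a : wd (fun _ => ()) (insert (st a b) R) (.ex a b) = [] := h3.1
  have h3b : nxs (insert (st a b) R) (.ex a b) = insert (st (a + 1) b) R := h3.2
  rw [List.append_assoc, List.cons_append, List.nil_append]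
  constructor
  · rw [fineLink_run_cons, h1a, h1b, fineLink_run_append, h2.1, h2.2, fineLink_run_cons, h3a]
    rfl
  · rw [fineLink_fin_cons, h1b, fin_append, h2.2]
    exact h3b

end

/-! ### The list for one coarse edge -/

/-- The horizontal fine edges which belong to a coarse edge, in the right order. -/
def fineLink_l (N : ℕ) (P : Finset Site) : HE → List HE
  | .ex i k =>
    if st i k ∈ P then fineLink_rts (N * i + 1) (N * k) N
    else (fineLink_rts (N * i + 1) (N * k) N).reverse
  | .ez i k =>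
    if st i k ∈ P then
      (if st i (k + 1) ∈ P then
        [.ex (N * i) (N * k), .ex (N * i) (N * k + N)] ++ (fineLink_ups (N * i) (N * k) N).reverse
      else [.ex (N * i) (N * k)] ++ fineLink_ups (N * i) (N * k) N ++ [.ex (N * i) (N * k + N)])
    else
      (if st i (k + 1) ∈ P then
        [.ex (N * i) (N * k + N)] ++ (fineLink_ups (N * i) (N * k) N).reverse ++
          [.ex (N * i) (N * k)]
      else fineLink_ups (N * i) (N * k) N ++ [.ex (N * i) (N * k + N), .ex (N * i) (N * k)])

theorem fineLink_phi_st (N : ℕ) (i k : ℤ) : fineLink_phi N (st i k) = st (N * i + 1) (N * k) := rfl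

theorem fineLink_fs_insert (N : ℕ) (p : Site) (P : Finset Site) :
    fineLink_fs N (insert p P) = insert (fineLink_phi N p) (fineLink_fs N P) := by
  unfold fineLink_fs
  exact Finset.image_insert _ _ _

theorem fineLink_free {N : ℕ} (hN : 2 ≤ N) {P : Finset Site} {i k : ℤ} (h1 : st i k ∉ P)
    (h2 : st (i + 1) k ∉ P) (t : ℕ) (ht : t ≤ N) :
    st (N * i + 1 + t) (N * k) ∉ fineLink_fs N P := by
  have hp : (0 : ℤ) < N := by exact_mod_cast (by omega : 0 < N)
  have ht' : (t : ℤ) ≤ N := by exact_mod_cast ht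
  intro h
  unfold fineLink_fs at h
  rw [Finset.mem_image] at h
  obtain ⟨s, hs, h3⟩ := h
  rw [fineLink_phi, fineLink_inj] at h3
  have h4 : cz s = k := mul_left_cancel₀ hp.ne' h3.2
  have h5 : (N : ℤ) * (cx s - i) = t := by linarith [h3.1, mul_sub (N : ℤ) (cx s) i]
  have h6 : cx s - i = 0 ∨ cx s - i = 1 := by
    have h7 : 0 ≤ cx s - i := by
      by_contra h8
      push Not at h8
      have : (N : ℤ) * (cx s - i) < 0 := mul_neg_of_pos_of_neg hp h8
      omega
    have h9 : cx s - i ≤ 1 := by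
      by_contra h8
      push Not at h8
      have : (N : ℤ) * 2 ≤ N * (cx s - i) := mul_le_mul_of_nonneg_left (by omega) hp.le
      omega
    omega
  have h10 : s = st (cx s) (cz s) := rfl
  rcases h6 with h6 | h6
  · rw [h4, show cx s = i by omega] at h10
    exact h1 (h10 ▸ hs)
  · rw [h4, show cx s = i + 1 by omega] at h10
    exact h2 (h10 ▸ hs)

theorem fineLink_l_ex_pos {N : ℕ} {P : Finset Site} {i k : ℤ} (h : st i k ∈ P) :
    fineLink_l N P (.ex i k) = fineLink_rts (N * i + 1) (N * k) N := if_pos h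

theorem fineLink_l_ex_neg {N : ℕ} {P : Finset Site} {i k : ℤ} (h : st i k ∉ P) :
    fineLink_l N P (.ex i k) = (fineLink_rts (N * i + 1) (N * k) N).reverse := if_neg h

theorem fineLink_l_death {N : ℕ} {P : Finset Site} {i k : ℤ} (h : st i k ∈ P)
    (h' : st i (k + 1) ∈ P) : fineLink_l N P (.ez i k) =
      [.ex (N * i) (N * k), .ex (N * i) (N * k + N)] ++
        (fineLink_ups (N * i) (N * k) N).reverse :=
  (if_pos h).trans (if_pos h')

theorem fineLink_l_up {N : ℕ} {P : Finset Site} {i k : ℤ} (h : st i k ∈ P)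
    (h' : st i (k + 1) ∉ P) : fineLink_l N P (.ez i k) =
      [.ex (N * i) (N * k)] ++ fineLink_ups (N * i) (N * k) N ++ [.ex (N * i) (N * k + N)] :=
  (if_pos h).trans (if_neg h')

theorem fineLink_l_dn {N : ℕ} {P : Finset Site} {i k : ℤ} (h : st i k ∉ P)
    (h' : st i (k + 1) ∈ P) : fineLink_l N P (.ez i k) =
      [.ex (N * i) (N * k + N)] ++ (fineLink_ups (N * i) (N * k) N).reverse ++
          [.ex (N * i) (N * k)] :=
  (if_neg h).trans (if_pos h')

theorem fineLink_l_birth {N : ℕ} {P : Finset Site} {i k : ℤ} (h : st i k ∉ P)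
    (h' : st i (k + 1) ∉ P) : fineLink_l N P (.ez i k) =
      fineLink_ups (N * i) (N * k) N ++ [.ex (N * i) (N * k + N), .ex (N * i) (N * k)] :=
  (if_neg h).trans (if_neg h')

theorem fineLink_step_ex {N : ℕ} (hN : 2 ≤ N) {P : Finset Site} {i k : ℤ}
    (h : st i k ∈ P ↔ st (i + 1) k ∉ P) :
    run1 (fineLink_fs N P) (fineLink_l N P (.ex i k)) = wd (fun _ => ()) P (.ex i k) ∧
    fin (fineLink_fs N P) (fineLink_l N P (.ex i k)) = fineLink_fs N (nxs P (.ex i k)) := by
  have e1 : (N : ℤ) * i + 1 + N = N * (i + 1) + 1 := by ring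
  have hlt : st i k < st (i + 1) k :=
      (fineLink_lt_iff _ _).2 (Or.inl (by simp only [fineLink_cx]; omega))
  by_cases h1 : st i k ∈ P
  · have h2 := h.1 h1
    obtain ⟨Q, hQ, rfl⟩ : ∃ Q, st i k ∉ Q ∧ P = insert (st i k) Q :=
      ⟨P.erase (st i k), Finset.notMem_erase _ _, (Finset.insert_erase h1).symm⟩
    have h3 : st (i + 1) k ∉ Q := fun h' => h2 (Finset.mem_insert_of_mem h')
    have h4 := fineLink_right (R := fineLink_fs N Q) (c := N * i + 1) (z := N * k) N
      (fineLink_free hN hQ h3)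
    rw [fineLink_l_ex_pos h1, fineLink_fs_insert, fineLink_phi_st, h4.1, h4.2, e1, ← fineLink_phi_st,
      ← fineLink_phi_st, fineLink_mid_fs hN, fineLink_crR_fs hN, fineLink_rk_fs hN]
    constructor
    · exact (fineLink_wd_lo (f := fun _ => ()) (R := Q) (e := .ex i k) h3).symm
    · rw [← fineLink_fs_insert]
      congr 1
      exact (fineLink_nxs_lo (R := Q) (e := .ex i k) hQ h3).symm
  · have h2 : st (i + 1) k ∈ P := by
      by_contra h2
      exact h1 (h.2 h2)
    obtain ⟨Q, hQ, rfl⟩ : ∃ Q, st (i + 1) k ∉ Q ∧ P = insert (st (i + 1) k) Q :=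
      ⟨P.erase (st (i + 1) k), Finset.notMem_erase _ _, (Finset.insert_erase h2).symm⟩
    have h3 : st i k ∉ Q := fun h' => h1 (Finset.mem_insert_of_mem h')
    have h4 := fineLink_left (R := fineLink_fs N Q) (c := N * i + 1) (z := N * k) N
      (fineLink_free hN h3 hQ)
    rw [fineLink_l_ex_neg h1, fineLink_fs_insert, fineLink_phi_st, ← e1, h4.1, h4.2, e1, ← fineLink_phi_st,
      ← fineLink_phi_st, fineLink_mid_fs hN, fineLink_crL_fs hN, fineLink_rk_fs hN]
    constructor
    · exact (fineLink_wd_hi (f := fun _ => ()) (R := Q) (e := .ex i k) h3).symm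
    · rw [← fineLink_fs_insert]
      congr 1
      exact (fineLink_nxs_hi (R := Q) (e := .ex i k) h3 hQ).symm

theorem fineLink_col {N : ℕ} (hN : 2 ≤ N) {P : Finset Site} {i : ℤ} (h : ∀ q ∈ P, cx q ≠ i) :
    ∀ q ∈ fineLink_fs N P, cx q ≠ N * i ∧ cx q ≠ N * i + 1 := by
  have hp : (0 : ℤ) < N := by exact_mod_cast (by omega : 0 < N)
  have hp2 : (2 : ℤ) ≤ N := by exact_mod_cast hN
  intro q hq
  unfold fineLink_fs at hq
  rw [Finset.mem_image] at hq
  obtain ⟨s, hs, rfl⟩ := hq
  have h1 := h s hs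
  simp only [fineLink_phi, fineLink_cx]
  constructor
  · intro h2
    have h3 : (N : ℤ) * (i - cx s) = 1 := by rw [mul_sub]; omega
    have h4 : 0 < i - cx s := by
      by_contra h5
      push Not at h5
      have : (N : ℤ) * (i - cx s) ≤ 0 := mul_nonpos_of_nonneg_of_nonpos hp.le h5
      omega
    have h6 : (N : ℤ) * 1 ≤ N * (i - cx s) := mul_le_mul_of_nonneg_left (by omega) hp.le
    omega
  · intro h2
    exact h1 (mul_left_cancel₀ hp.ne' (add_right_cancel h2))

theorem fineLink_rk_col {N : ℕ} (hN : 2 ≤ N) {P : Finset Site} {i k : ℤ}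
    (h : ∀ q ∈ P, cx q ≠ i) : rk (fineLink_fs N P) (st (N * i) (N * k)) = rk P (st i k) := by
  have hp : (0 : ℤ) < N := by exact_mod_cast (by omega : 0 < N)
  rw [← fineLink_rk_fs hN P (st i k)]
  unfold rk
  congr 1
  apply Finset.filter_congr
  intro q hq
  have h1 := fineLink_col hN h q hq
  rw [fineLink_phi_st, fineLink_lt_iff, fineLink_lt_iff]
  simp only [fineLink_cx, fineLink_cz]
  omega

theorem fineLink_split {P : Finset Site} {i k : ℤ} (h : ∀ z, st i z ∈ P → z = k ∨ z = k + 1) :
    ∃ Q : Finset Site, (∀ q ∈ Q, cx q ≠ i) ∧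
      ((st i k ∉ P ∧ st i (k + 1) ∉ P ∧ P = Q) ∨
       (st i k ∈ P ∧ st i (k + 1) ∉ P ∧ P = insert (st i k) Q) ∨
       (st i k ∉ P ∧ st i (k + 1) ∈ P ∧ P = insert (st i (k + 1)) Q) ∨
       (st i k ∈ P ∧ st i (k + 1) ∈ P ∧ P = insert (st i k) (insert (st i (k + 1)) Q))) := by
  refine ⟨P.filter fun q => cx q ≠ i, fun q hq => (Finset.mem_filter.1 hq).2, ?_⟩
  have h1 : ∀ q ∈ P, cx q = i → q = st i k ∨ q = st i (k + 1) := by
    intro q hq h2
    have h3 : q = st i (cz q) := by rw [← h2]; rfl
    rcases h (cz q) (h3 ▸ hq) with h4 | h4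
    · left; rw [h3, h4]
    · right; rw [h3, h4]
  by_cases h2 : st i k ∈ P <;> by_cases h3 : st i (k + 1) ∈ P
  · refine Or.inr (Or.inr (Or.inr ⟨h2, h3, ?_⟩))
    ext q
    simp only [Finset.mem_insert, Finset.mem_filter]
    constructor
    · intro h4
      by_cases h5 : cx q = i
      · rcases h1 q h4 h5 with h6 | h6
        · exact Or.inl h6
        · exact Or.inr (Or.inl h6)
      · exact Or.inr (Or.inr ⟨h4, h5⟩)
    · rintro (rfl | rfl | h4)
      · exact h2
      · exact h3
      · exact h4.1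
  · refine Or.inr (Or.inl ⟨h2, h3, ?_⟩)
    ext q
    simp only [Finset.mem_insert, Finset.mem_filter]
    constructor
    · intro h4
      by_cases h5 : cx q = i
      · rcases h1 q h4 h5 with h6 | h6
        · exact Or.inl h6
        · exact absurd (h6 ▸ h4) h3
      · exact Or.inr ⟨h4, h5⟩
    · rintro (rfl | h4)
      · exact h2
      · exact h4.1
  · refine Or.inr (Or.inr (Or.inl ⟨h2, h3, ?_⟩))
    ext q
    simp only [Finset.mem_insert, Finset.mem_filter]
    constructor
    · intro h4
      by_cases h5 : cx q = i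
      · rcases h1 q h4 h5 with h6 | h6
        · exact absurd (h6 ▸ h4) h2
        · exact Or.inl h6
      · exact Or.inr ⟨h4, h5⟩
    · rintro (rfl | h4)
      · exact h3
      · exact h4.1
  · refine Or.inl ⟨h2, h3, ?_⟩
    ext q
    simp only [Finset.mem_filter]
    constructor
    · intro h4
      refine ⟨h4, fun h5 => ?_⟩
      rcases h1 q h4 h5 with h6 | h6
      · exact h2 (h6 ▸ h4)
      · exact h3 (h6 ▸ h4)
    · exact fun h4 => h4.1

theorem fineLink_step_ez {N : ℕ} (hN : 2 ≤ N) {P : Finset Site} {i k : ℤ}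
    (h : ∀ z, st i z ∈ P → z = k ∨ z = k + 1) :
    run1 (fineLink_fs N P) (fineLink_l N P (.ez i k)) = wd (fun _ => ()) P (.ez i k) ∧
    fin (fineLink_fs N P) (fineLink_l N P (.ez i k)) = fineLink_fs N (nxs P (.ez i k)) := by
  obtain ⟨Q, hQ, hc⟩ := fineLink_split h
  have hR := fineLink_col hN hQ
  have e1 : (N : ℤ) * (k + 1) = N * k + N := by ring
  have hlo : (HE.ez i k).lo ∉ Q := fun h' => hQ _ h' rfl
  have hhi : (HE.ez i k).hi ∉ Q := fun h' => hQ _ h' rfl
  have hok : fineLink_ok Q (.ez i k) := fineLink_ok_ez hlo hhi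
  obtain ⟨n, rfl⟩ : ∃ n, N = n + 1 := ⟨N - 1, by omega⟩
  rcases hc with ⟨h1, h2, h3⟩ | ⟨h1, h2, h3⟩ | ⟨h1, h2, h3⟩ | ⟨h1, h2, h3⟩
  · have h4 := fineLink_birth hR (b := (n + 1 : ℕ) * k) n
    have h5 := fineLink_cup (f := fun _ => ()) hok rfl rfl
    rw [fineLink_l_birth h1 h2, h3, h4.1, h4.2, h5.1, h5.2, fineLink_fs_insert,
      fineLink_fs_insert, fineLink_rk_col hN hQ]
    refine ⟨rfl, ?_⟩
    show _ = insert (st _ _) (insert (st _ (_ * (k + 1))) _)
    rw [e1]
    rfl
  · have h4 := fineLink_mvup hR (b := (n + 1 : ℕ) * k) (n + 1)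
    have h5 := fineLink_mv (f := fun _ => ()) hok rfl rfl
    rw [fineLink_l_up h1 h2, h3, fineLink_fs_insert, fineLink_phi_st, h4.1, h4.2]
    refine ⟨h5.1.symm, ?_⟩
    have h6 : nxs (insert (st i k) Q) (.ez i k) = insert (st i (k + 1)) Q := h5.2
    rw [h6, fineLink_fs_insert, fineLink_phi_st, e1]
  · have h4 := fineLink_mvdn hR (b := (n + 1 : ℕ) * k) (n + 1)
    have h5 := fineLink_mv' (f := fun _ => ()) hok rfl rfl
    rw [fineLink_l_dn h1 h2, h3, fineLink_fs_insert, fineLink_phi_st, e1, h4.1, h4.2]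
    refine ⟨h5.1.symm, ?_⟩
    have h6 : nxs (insert (st i (k + 1)) Q) (.ez i k) = insert (st i k) Q := h5.2
    rw [h6, fineLink_fs_insert, fineLink_phi_st]
  · have h4 := fineLink_death hR (b := (n + 1 : ℕ) * k) n
    have h5 := fineLink_cap (f := fun _ => ()) hok rfl rfl
    rw [fineLink_l_death h1 h2, h3, fineLink_fs_insert, fineLink_fs_insert, fineLink_phi_st,
      fineLink_phi_st, e1, h4.1, h4.2, fineLink_rk_col hN hQ]
    refine ⟨h5.1.symm, ?_⟩
    have h6 : nxs (insert (st i k) (insert (st i (k + 1)) Q)) (.ez i k) = Q := h5.2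
    rw [h6]

/-! ### The whole list -/

/-- The list of the fine horizontal edges; the first coarse edge is on the level `y`. -/
def fineLink_list (N : ℕ) : ℤ → Finset Site → List HE → List (ℤ × HE)
  | _, _, [] => []
  | y, P, e :: es => (fineLink_l N P e).map (fun e' => (N * y + 1, e')) ++
      fineLink_list N (y + 2) (nxs P e) es

theorem fineLink_nice_tail {P : Finset Site} {e : HE} {es : List HE} (h : Nice P (e :: es)) :
    Nice (nxs P e) es := by
  constructor
  · intro j i k hj
    exact h.ex (j + 1) i k hj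
  · intro j i k z hj hz
    exact h.ez (j + 1) i k z hj hz

theorem fineLink_step {N : ℕ} (hN : 2 ≤ N) {P : Finset Site} {e : HE} {es : List HE}
    (h : Nice P (e :: es)) :
    run1 (fineLink_fs N P) (fineLink_l N P e) = wd (fun _ => ()) P e ∧
    fin (fineLink_fs N P) (fineLink_l N P e) = fineLink_fs N (nxs P e) := by
  cases e with
  | ex i k => exact fineLink_step_ex hN (h.ex 0 i k rfl)
  | ez i k => exact fineLink_step_ez hN (fun z hz => h.ez 0 i k z rfl hz)

theorem fineLink_run {N : ℕ} (hN : 2 ≤ N) {es : List HE} {P : Finset Site} (h : Nice P es)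
    (y : ℤ) :
    run1 (fineLink_fs N P) ((fineLink_list N y P es).map Prod.snd) = run1 P es := by
  induction es generalizing P y with
  | nil => rfl
  | cons e es ih =>
    obtain ⟨h1, h2⟩ := fineLink_step hN h
    have h3 : (fineLink_list N y P (e :: es)).map Prod.snd =
        fineLink_l N P e ++ (fineLink_list N (y + 2) (nxs P e) es).map Prod.snd := by
      show (List.map _ _ ++ _).map _ = _
      rw [List.map_append, List.map_map]
      congr 1
      exact List.map_id _
    rw [h3, fineLink_run_append, h1, h2, ih (fineLink_nice_tail h), fineLink_run_cons]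

theorem fineLink_mem_rts {c z : ℤ} {n : ℕ} {e : HE} :
    e ∈ fineLink_rts c z n ↔ ∃ t : ℕ, t < n ∧ e = .ex (c + t) z := by
  unfold fineLink_rts
  rw [List.mem_map]
  constructor
  · rintro ⟨t, h1, h2⟩
    exact ⟨t, List.mem_range.1 h1, h2.symm⟩
  · rintro ⟨t, h1, h2⟩
    exact ⟨t, List.mem_range.2 h1, h2.symm⟩

theorem fineLink_mem_ups {a b : ℤ} {n : ℕ} {e : HE} :
    e ∈ fineLink_ups a b n ↔ ∃ t : ℕ, t < n ∧ e = .ez a (b + t) := by
  unfold fineLink_ups
  rw [List.mem_map]
  constructor
  · rintro ⟨t, h1, h2⟩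
    exact ⟨t, List.mem_range.1 h1, h2.symm⟩
  · rintro ⟨t, h1, h2⟩
    exact ⟨t, List.mem_range.2 h1, h2.symm⟩

theorem fineLink_mem_l_ex {N : ℕ} {P : Finset Site} {i k : ℤ} {e : HE} :
    e ∈ fineLink_l N P (.ex i k) ↔ ∃ t : ℕ, t < N ∧ e = .ex (N * i + 1 + t) (N * k) := by
  by_cases h : st i k ∈ P
  · rw [fineLink_l_ex_pos h, fineLink_mem_rts]
  · rw [fineLink_l_ex_neg h, List.mem_reverse, fineLink_mem_rts]

theorem fineLink_mem_l_ez {N : ℕ} {P : Finset Site} {i k : ℤ} {e : HE} :
    e ∈ fineLink_l N P (.ez i k) ↔ e = .ex (N * i) (N * k) ∨ e = .ex (N * i) (N * k + N) ∨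
      ∃ t : ℕ, t < N ∧ e = .ez (N * i) (N * k + t) := by
  by_cases h1 : st i k ∈ P <;> by_cases h2 : st i (k + 1) ∈ P
  · rw [fineLink_l_death h1 h2]
    simp only [List.mem_append, List.mem_reverse, fineLink_mem_ups, List.mem_cons,
      List.not_mem_nil, or_false]
    exact or_assoc
  · rw [fineLink_l_up h1 h2]
    simp only [List.mem_append, fineLink_mem_ups, List.mem_cons, List.not_mem_nil, or_false]
    rw [or_assoc, or_comm (a := ∃ t : ℕ, t < N ∧ e = .ez (N * i) (N * k + t))]
  · rw [fineLink_l_dn h1 h2]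
    simp only [List.mem_append, List.mem_reverse, fineLink_mem_ups, List.mem_cons,
      List.not_mem_nil, or_false]
    rw [or_comm]
  · rw [fineLink_l_birth h1 h2]
    simp only [List.mem_append, fineLink_mem_ups, List.mem_cons, List.not_mem_nil, or_false]
    rw [or_comm, or_assoc, or_left_comm]

theorem fineLink_nodup_rts (c z : ℤ) (n : ℕ) : (fineLink_rts c z n).Nodup := by
  unfold fineLink_rts
  apply List.Nodup.map _ List.nodup_range
  intro a b hab
  simp only [HE.ex.injEq, and_true] at hab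
  omega

theorem fineLink_nodup_ups (a b : ℤ) (n : ℕ) : (fineLink_ups a b n).Nodup := by
  unfold fineLink_ups
  apply List.Nodup.map _ List.nodup_range
  intro c d hab
  simp only [HE.ez.injEq, true_and] at hab
  omega

theorem fineLink_nodup_l {N : ℕ} (hN : 2 ≤ N) (P : Finset Site) (e : HE) :
    (fineLink_l N P e).Nodup := by
  cases e with
  | ex i k =>
    by_cases h : st i k ∈ P
    · rw [fineLink_l_ex_pos h]; exact fineLink_nodup_rts _ _ _
    · rw [fineLink_l_ex_neg h, List.nodup_reverse]; exact fineLink_nodup_rts _ _ _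
  | ez i k =>
    have h0 := fineLink_nodup_ups (N * i) (N * k) N
    have h3 : HE.ex (N * i) (N * k) ∉ fineLink_ups (N * i) (N * k) N := by
      rw [fineLink_mem_ups]
      rintro ⟨t, _, h⟩
      cases h
    have h4 : HE.ex (N * i) (N * k + N) ∉ fineLink_ups (N * i) (N * k) N := by
      rw [fineLink_mem_ups]
      rintro ⟨t, _, h⟩
      cases h
    have h5 : HE.ex (N * i) (N * k) ≠ HE.ex (N * i) (N * k + N) := by
      intro h
      injection h with _ h
      omega
    have key : ∀ l : List HE, l.Perm (.ex (N * i) (N * k) :: .ex (N * i) (N * k + N) ::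
        fineLink_ups (N * i) (N * k) N) → l.Nodup := by
      intro l hl
      rw [hl.nodup_iff, List.nodup_cons, List.nodup_cons, List.mem_cons]
      refine ⟨?_, h4, h0⟩
      rintro (h | h)
      · exact h5 h
      · exact h3 h
    apply key
    by_cases h1 : st i k ∈ P <;> by_cases h2 : st i (k + 1) ∈ P
    · rw [fineLink_l_death h1 h2]
      exact ((List.reverse_perm _).cons _).cons _
    · rw [fineLink_l_up h1 h2]
      exact (List.perm_append_comm (l₂ := [HE.ex (N * i) (N * k + N)])).cons _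
    · rw [fineLink_l_dn h1 h2]
      refine (List.perm_append_comm (l₂ := [HE.ex (N * i) (N * k)])).trans ?_
      exact (((List.reverse_perm _).cons _).cons _)
    · rw [fineLink_l_birth h1 h2]
      refine List.perm_append_comm.trans ?_
      exact List.Perm.swap _ _ _

theorem fineLink_mem_list {N : ℕ} {es : List HE} {P : Finset Site} {y : ℤ} {q : ℤ × HE} :
    q ∈ fineLink_list N y P es ↔
      ∃ (j : ℕ) (e : HE), es[j]? = some e ∧ q.1 = N * (y + 2 * j) + 1 ∧
        q.2 ∈ fineLink_l N (fin P (es.take j)) e := by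
  induction es generalizing P y with
  | nil => simp [fineLink_list]
  | cons e es ih =>
    show q ∈ List.map _ _ ++ _ ↔ _
    rw [List.mem_append, ih, List.mem_map]
    constructor
    · rintro (⟨e', h1, rfl⟩ | ⟨j, e', h1, h2, h3⟩)
      · exact ⟨0, e, rfl, by simp, h1⟩
      · refine ⟨j + 1, e', h1, ?_, h3⟩
        rw [h2]
        push_cast
        ring
    · rintro ⟨j, e', h1, h2, h3⟩
      cases j with
      | zero =>
        left
        have h4 : e = e' := by simpa using h1
        subst h4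
        refine ⟨q.2, h3, ?_⟩
        refine Prod.ext ?_ rfl
        rw [h2]
        simp
      | succ j =>
        right
        refine ⟨j, e', h1, ?_, h3⟩
        rw [h2]
        push_cast
        ring

theorem fineLink_height {N : ℕ} {es : List HE} {P : Finset Site} {y : ℤ} {q : ℤ × HE}
    (h : q ∈ fineLink_list N y P es) : N * y + 1 ≤ q.1 := by
  rw [fineLink_mem_list] at h
  obtain ⟨j, e, _, h2, _⟩ := h
  rw [h2, mul_add]
  have : 0 ≤ (N : ℤ) * (2 * j) := by positivity
  omega

theorem fineLink_sorted {N : ℕ} {es : List HE} {P : Finset Site} {y : ℤ} :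
    (fineLink_list N y P es).Pairwise fun a b => a.1 ≤ b.1 := by
  induction es generalizing P y with
  | nil => exact List.Pairwise.nil
  | cons e es ih =>
    show (List.map _ _ ++ _).Pairwise _
    rw [List.pairwise_append]
    refine ⟨?_, ih, ?_⟩
    · rw [List.pairwise_map]
      exact List.pairwise_of_forall (fun _ _ => le_rfl)
    · intro a ha b hb
      rw [List.mem_map] at ha
      obtain ⟨e', _, rfl⟩ := ha
      have h1 := fineLink_height hb
      rw [mul_add] at h1
      have : 0 ≤ (N : ℤ) * 2 := by positivity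
      show (N : ℤ) * y + 1 ≤ b.1
      omega

theorem fineLink_nodup {N : ℕ} (hN : 2 ≤ N) {es : List HE} {P : Finset Site} {y : ℤ} :
    (fineLink_list N y P es).Nodup := by
  induction es generalizing P y with
  | nil => exact List.Pairwise.nil
  | cons e es ih =>
    show (List.map _ _ ++ _).Nodup
    refine List.Nodup.append ?_ ih ?_
    · apply List.Nodup.map _ (fineLink_nodup_l hN _ _)
      intro a b hab
      exact (Prod.mk.injEq _ _ _ _ ▸ hab).2
    · intro a ha hb
      rw [List.mem_map] at ha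
      obtain ⟨e', _, rfl⟩ := ha
      have h1 := fineLink_height hb
      rw [mul_add] at h1
      have hp : (2 : ℤ) ≤ N := by exact_mod_cast hN
      simp only at h1
      omega

theorem fineLink_ex_iff {N : ℕ} {y i k : ℤ} {q : ℤ × HE} {P : Finset Site} :
    toLE q ∈ fleg N ((i, y, k), 0) ↔ q.1 = N * y + 1 ∧ q.2 ∈ fineLink_l N P (.ex i k) := by
  have h0 : fleg N ((i, y, k), 0) = (Finset.range N).image fun t : ℕ =>
    (Bp N (i, y, k) + ((t : ℤ), 0, 0), (0 : Fin 3)) := rfl
  rw [h0, Finset.mem_image, fineLink_mem_l_ex]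
  obtain ⟨y', e⟩ := q
  cases e with
  | ex a b =>
    simp only [toLE, Bp, Prod.mk_add_mk, add_zero, Prod.mk.injEq, Finset.mem_range, and_true,
      HE.ex.injEq]
    constructor
    · rintro ⟨t, h1, h2, h3, h4⟩
      exact ⟨h3.symm, t, h1, h2.symm, h4.symm⟩
    · rintro ⟨h3, t, h1, h2, h4⟩
      exact ⟨t, h1, h2.symm, h3.symm, h4.symm⟩
  | ez a b =>
    constructor
    · rintro ⟨t, _, h2⟩
      exact absurd (congrArg Prod.snd h2) (by decide : (0 : Fin 3) ≠ 2)
    · rintro ⟨_, t, _, h2⟩
      cases h2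

theorem fineLink_ez_iff {N : ℕ} {y i k : ℤ} {q : ℤ × HE} {P : Finset Site} :
    toLE q ∈ fleg N ((i, y, k), 2) ↔ q.1 = N * y + 1 ∧ q.2 ∈ fineLink_l N P (.ez i k) := by
  have h0 : fleg N ((i, y, k), 2) = insert (Bp N (i, y, k) - e3 0, (0 : Fin 3))
    (insert (Bp N (i, y, k) - e3 0 + (0, 0, (N : ℤ)), (0 : Fin 3))
    ((Finset.range N).image fun t : ℕ =>
      (Bp N (i, y, k) - e3 0 + (0, 0, (t : ℤ)), (2 : Fin 3)))) := rfl
  rw [h0, Finset.mem_insert, Finset.mem_insert, Finset.mem_image, fineLink_mem_l_ez]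
  obtain ⟨y', e⟩ := q
  cases e with
  | ex a b =>
    simp only [toLE, Bp, e3, Prod.mk_sub_mk, Prod.mk_add_mk, add_zero, sub_zero, Prod.mk.injEq,
      Finset.mem_range, and_true, HE.ex.injEq, add_sub_cancel_right]
    constructor
    · rintro (⟨h1, h2, h3⟩ | ⟨h1, h2, h3⟩ | ⟨t, _, h⟩)
      · exact ⟨h2, Or.inl ⟨h1, h3⟩⟩
      · exact ⟨h2, Or.inr (Or.inl ⟨h1, h3⟩)⟩
      · exact absurd h.2 (by decide)
    · rintro ⟨h2, (⟨h1, h3⟩ | ⟨h1, h3⟩ | ⟨t, _, h⟩)⟩
      · exact Or.inl ⟨h1, h2, h3⟩
      · exact Or.inr (Or.inl ⟨h1, h2, h3⟩)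
      · cases h
  | ez a b =>
    simp only [toLE, Bp, e3, Prod.mk_sub_mk, Prod.mk_add_mk, add_zero, sub_zero, Prod.mk.injEq,
      Finset.mem_range, and_true, HE.ez.injEq, add_sub_cancel_right]
    constructor
    · rintro (h | h | ⟨t, h1, h2, h3, h4⟩)
      · exact absurd h.2 (by decide)
      · exact absurd h.2 (by decide)
      · exact ⟨h3.symm, Or.inr (Or.inr ⟨t, h1, h2.symm, h4.symm⟩)⟩
    · rintro ⟨h3, (h | h | ⟨t, h1, h2, h4⟩)⟩
      · cases h
      · cases h
      · exact Or.inr (Or.inr ⟨t, h1, h2.symm, h3.symm, h4.symm⟩)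

theorem fineLink_vert {N : ℕ} {p : P3} {q : ℤ × HE} : toLE q ∉ fleg N (p, 1) := by
  have h0 : fleg N (p, 1) = (Finset.range N).image fun t : ℕ =>
    (Bp N p + (0, (t : ℤ), 0), (1 : Fin 3)) := rfl
  rw [h0, Finset.mem_image]
  rintro ⟨t, _, h⟩
  exact llink_dir q (congrArg Prod.snd h).symm

theorem fineLink_scan {N : ℕ} (hN : 2 ≤ N) (es : List HE) :
    Scan (fineK N (Kc es)) (fineLink_list N 0 ∅ es) := by
  refine ⟨fineLink_sorted, fineLink_nodup hN, ?_⟩
  intro q
  rw [fineLink_mem_list]
  unfold fineK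
  rw [Finset.mem_biUnion]
  constructor
  · rintro ⟨j, e, h1, h2, h3⟩
    cases e with
    | ex i k =>
      refine ⟨((i, 2 * (j : ℤ), k), 0), mem_Kc_0.2 ⟨j, rfl, h1⟩, ?_⟩
      rw [fineLink_ex_iff (P := fin ∅ (es.take j))]
      exact ⟨by rw [h2, zero_add], h3⟩
    | ez i k =>
      refine ⟨((i, 2 * (j : ℤ), k), 2), mem_Kc_2.2 ⟨j, rfl, h1⟩, ?_⟩
      rw [fineLink_ez_iff (P := fin ∅ (es.take j))]
      exact ⟨by rw [h2, zero_add], h3⟩
  · rintro ⟨⟨⟨x, y, z⟩, d⟩, h1, h2⟩
    have hd : d = 0 ∨ d = 1 ∨ d = 2 := by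
      fin_cases d
      · exact Or.inl rfl
      · exact Or.inr (Or.inl rfl)
      · exact Or.inr (Or.inr rfl)
    rcases hd with rfl | rfl | rfl
    · obtain ⟨j, rfl, h3⟩ := mem_Kc_0.1 h1
      rw [fineLink_ex_iff (P := fin ∅ (es.take j))] at h2
      exact ⟨j, _, h3, by rw [h2.1, zero_add], h2.2⟩
    · exact absurd h2 fineLink_vert
    · obtain ⟨j, rfl, h3⟩ := mem_Kc_2.1 h1
      rw [fineLink_ez_iff (P := fin ∅ (es.take j))] at h2
      exact ⟨j, _, h3, by rw [h2.1, zero_add], h2.2⟩

/-- The fine link represents the same link. -/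
theorem isLink_fine {es : List HE} (h : Nice ∅ es) (h0 : fin ∅ es = ∅) {N : ℕ} (hN : 2 ≤ N)
    {L : Link} (hL : IsDiag (run1 ∅ es) L) : IsLink (fineK N (Kc es)) L := by
  refine ⟨fineLink_list N 0 ∅ es, fineLink_scan hN es, ?_⟩
  have h1 : fineLink_fs N ∅ = ∅ := Finset.image_empty _
  have h2 := fineLink_run hN h 0
  rw [h1] at h2
  unfold sword
  rw [h2]
  exact hL

end Pool.Agent.Lib.MP_131179_gt.Dehn
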