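import Pool.Agent.Lib.MP_131179_gt.Dehn.LinAlg

/-!
# First return maps

`β` and `s` are involutions of `Ω`, and `s` preserves the subset `T`.  Starting at `x ∈ T` we apply `β`,
then (as long as we are outside of `T`) `s` and `β` alternately, until we return to `T`.
-/

set_option autoImplicit false

namespace Pool.Agent.Lib.MP_131179_gt.Dehn

/-- The data of a first return map. -/
structure FR (Ω : Type) where
  β : Ω → Ω
  s : Ω → Ω
  T : Ω → Prop
  ββ : ∀ ω, β (β ω) = ω
  ss : ∀ ω, s (s ω) = ω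
  sT : ∀ ω, T (s ω) ↔ T ω
  per : ∀ ω, ∃ n, 0 < n ∧ (fun y => β (s y))^[n] ω = ω

theorem per_of_finite {Ω : Type} [Finite Ω] {β s : Ω → Ω} (hβ : ∀ ω, β (β ω) = ω)
    (hs : ∀ ω, s (s ω) = ω) (ω : Ω) : ∃ n, 0 < n ∧ (fun y => β (s y))^[n] ω = ω := by
  have hinj : Function.Injective (fun y => β (s y)) := by
    intro y z h
    have h1 := congrArg β h
    simp only [hβ] at h1
    have h2 := congrArg s h1
    simpa only [hs] using h2
  obtain ⟨n, hn, hp⟩ := hinj.mem_periodicPts ω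
  exact ⟨n, hn, hp⟩

namespace FR

variable {Ω : Type} (F : FR Ω)

/-- The path starting with `β x`. -/
def path (x : Ω) (n : ℕ) : Ω := (fun y => F.β (F.s y))^[n] (F.β x)

theorem fr_path_zero (x : Ω) : F.path x 0 = F.β x := rfl

theorem fr_path_succ (x : Ω) (n : ℕ) : F.path x (n + 1) = F.β (F.s (F.path x n)) := by
  unfold path
  rw [Function.iterate_succ_apply']

theorem exists_ret {x : Ω} (hx : F.T x) : ∃ n, F.T (F.path x n) := by
  obtain ⟨n, hn, hp⟩ := F.per (F.β x)
  obtain ⟨m, rfl⟩ := Nat.exists_eq_succ_of_ne_zero hn.ne'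
  refine ⟨m, ?_⟩
  have h1 : F.path x (m + 1) = F.β x := hp
  rw [fr_path_succ] at h1
  have h2 := congrArg F.β h1
  rw [F.ββ, F.ββ] at h2
  rw [← F.sT, h2]
  exact hx

open Classical in
/-- The first return map. -/
noncomputable def ret (x : Ω) : Ω :=
  if h : ∃ n, F.T (F.path x n) then F.path x (Nat.find h) else x

/-- The elements which are not connected with `T`. -/
def Pure (ω : Ω) : Prop := ∀ n, ¬ F.T ((fun y => F.β (F.s y))^[n] ω) ∧
  ¬ F.T ((fun y => F.β (F.s y))^[n] (F.β ω))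

theorem fr_ret_eq {x : Ω} {n : ℕ} (h : F.T (F.path x n)) (h' : ∀ m < n, ¬ F.T (F.path x m)) :
    F.ret x = F.path x n := by
  classical
  have he : ∃ n, F.T (F.path x n) := ⟨n, h⟩
  unfold ret
  rw [dif_pos he]
  have : Nat.find he = n := by
    rw [Nat.find_eq_iff]
    exact ⟨h, h'⟩
  rw [this]

theorem fr_ret_spec {x : Ω} (hx : F.T x) :
    ∃ n, F.T (F.path x n) ∧ (∀ m < n, ¬ F.T (F.path x m)) ∧ F.ret x = F.path x n := by
  classical
  have he := F.exists_ret hx
  exact ⟨Nat.find he, Nat.find_spec he, fun m hm => Nat.find_min he hm,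
    F.fr_ret_eq (Nat.find_spec he) (fun m hm => Nat.find_min he hm)⟩

theorem fr_ret_induct {x : Ω} (hx : F.T x) {P : Ω → Prop} (h0 : P (F.β x))
    (h1 : ∀ ω, ¬ F.T ω → P ω → P (F.β (F.s ω))) : P (F.ret x) := by
  obtain ⟨n, hn, hm, hr⟩ := F.fr_ret_spec hx
  rw [hr]
  have : ∀ k ≤ n, P (F.path x k) := by
    intro k
    induction k with
    | zero => intro _; exact h0
    | succ k ih =>
      intro hk
      rw [fr_path_succ]
      exact h1 _ (hm k (by omega)) (ih (by omega))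
  exact this n le_rfl

theorem ret_T {x : Ω} (hx : F.T x) : F.T (F.ret x) := by
  obtain ⟨n, hn, hm, hr⟩ := F.fr_ret_spec hx
  rw [hr]
  exact hn

/-- Running a path backwards. -/
theorem fr_back (ω : Ω) (n : ℕ) :
    (∀ k < n, F.path ((fun y => F.β (F.s y))^[n] ω) k =
      F.s ((fun y => F.β (F.s y))^[n - 1 - k] ω)) ∧
    F.path ((fun y => F.β (F.s y))^[n] ω) n = F.β ω := by
  have h1 : ∀ k < n, F.path ((fun y => F.β (F.s y))^[n] ω) k =
      F.s ((fun y => F.β (F.s y))^[n - 1 - k] ω) := by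
    intro k
    induction k with
    | zero =>
      intro hk
      obtain ⟨m, rfl⟩ := Nat.exists_eq_succ_of_ne_zero hk.ne'
      rw [fr_path_zero, Function.iterate_succ_apply']
      simp only [F.ββ]
      rfl
    | succ k ih =>
      intro hk
      rw [fr_path_succ, ih (by omega), F.ss]
      have : n - 1 - k = (n - 1 - (k + 1)) + 1 := by omega
      rw [this, Function.iterate_succ_apply']
      simp only [F.ββ]
  refine ⟨h1, ?_⟩
  rcases Nat.eq_zero_or_pos n with rfl | hn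
  · rfl
  · obtain ⟨m, rfl⟩ := Nat.exists_eq_succ_of_ne_zero hn.ne'
    rw [Nat.succ_eq_add_one, fr_path_succ, h1 m (by omega), F.ss]
    have : m + 1 - 1 - m = 0 := by omega
    rw [this]
    rfl

theorem fr_back_path (x : Ω) (n : ℕ) :
    (∀ k < n, F.path (F.path x n) k = F.s (F.path x (n - 1 - k))) ∧
    F.path (F.path x n) n = x := by
  have h := F.fr_back (F.β x) n
  rw [F.ββ] at h
  exact h

theorem ret_ret {x : Ω} (hx : F.T x) : F.ret (F.ret x) = x := by
  obtain ⟨n, hn, hm, hr⟩ := F.fr_ret_spec hx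
  obtain ⟨h1, h2⟩ := F.fr_back_path x n
  rw [hr, F.fr_ret_eq (n := n)]
  · exact h2
  · rw [h2]; exact hx
  · intro k hk
    rw [h1 k hk, F.sT]
    exact hm _ (by omega)

/-- Invariant functions are invariant under the first return map. -/
theorem ret_inv {α : Type} {f : Ω → α} (hβ : ∀ ω, f (F.β ω) = f ω)
    (hs : ∀ ω, ¬ F.T ω → f (F.s ω) = f ω) {x : Ω} (hx : F.T x) : f (F.ret x) = f x := by
  apply F.fr_ret_induct hx (P := fun ω => f ω = f x) (hβ x)
  intro ω hω h
  rw [hβ, hs ω hω, h]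

/-- A relation preserved by `β` and by `s`. -/
theorem ret_rel {R : Ω → Ω → Prop} (hrefl : ∀ ω, R ω ω)
    (hβ : ∀ ω ω', R ω ω' → R ω (F.β ω')) (hs : ∀ ω ω', ¬ F.T ω' → R ω ω' → R ω (F.s ω')) {x : Ω}
    (hx : F.T x) : R x (F.ret x) := by
  apply F.fr_ret_induct hx (P := fun ω => R x ω) (hβ x x (hrefl x))
  intro ω hω h
  exact hβ _ _ (hs _ _ hω h)

/-- A sign flipped by `β` and by `s` is flipped by the first return map. -/
theorem ret_sign {f : Ω → F2} (hβ : ∀ ω, f (F.β ω) = f ω + 1)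
    (hs : ∀ ω, ¬ F.T ω → f (F.s ω) = f ω + 1) {x : Ω} (hx : F.T x) :
    f (F.ret x) = f x + 1 := by
  apply F.fr_ret_induct hx (P := fun ω => f ω = f x + 1) (hβ x)
  intro ω hω h
  rw [hβ, hs ω hω, h]
  have : (1 : F2) + 1 = 0 := by decide
  linear_combination this

/-- If `β` and `s` have no fixed points, then the first return map has no fixed points. -/
theorem ret_ne (hβ : ∀ ω, F.β ω ≠ ω) (hs : ∀ ω, ¬ F.T ω → F.s ω ≠ ω) {x : Ω}
    (hx : F.T x) : F.ret x ≠ x := by
  obtain ⟨n, hn, hm, hr⟩ := F.fr_ret_spec hx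
  obtain ⟨h1, h2⟩ := F.fr_back_path x n
  intro hxx
  rw [hr] at hxx
  rw [hxx] at h1
  rcases Nat.eq_zero_or_pos n with rfl | hpos
  · exact hβ x hxx
  · rcases Nat.even_or_odd' (n - 1) with ⟨j, hj | hj⟩
    · have h3 := h1 j (by omega)
      have h4 : n - 1 - j = j := by omega
      rw [h4] at h3
      exact hs _ (hm j (by omega)) h3.symm
    · have h3 := h1 j (by omega)
      have h4 : n - 1 - j = j + 1 := by omega
      rw [h4] at h3
      have h5 : F.s (F.path x j) = F.path x (j + 1) := by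
        rw [h3, F.ss]
      have h6 := F.fr_path_succ x j
      rw [h5] at h6
      exact hβ _ h6.symm

/-- If the next element is already in `T`, we stop there. -/
theorem ret_of_T {x : Ω} (h : F.T (F.β x)) : F.ret x = F.β x :=
  F.fr_ret_eq (n := 0) h (fun m hm => absurd hm (Nat.not_lt_zero m))

/-- Maps commuting with `β` and `s` commute with the first return map. -/
theorem ret_comm {a : Ω → Ω} (aT : ∀ ω, F.T (a ω) ↔ F.T ω)
    (aβ : ∀ ω, a (F.β ω) = F.β (a ω)) (as : ∀ ω, ¬ F.T ω → a (F.s ω) = F.s (a ω)) {x : Ω}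
    (hx : F.T x) : F.ret (a x) = a (F.ret x) := by
  obtain ⟨n, hn, hm, hr⟩ := F.fr_ret_spec hx
  have h : ∀ k ≤ n, F.path (a x) k = a (F.path x k) := by
    intro k
    induction k with
    | zero => intro _; rw [fr_path_zero, fr_path_zero, aβ]
    | succ k ih =>
      intro hk
      rw [fr_path_succ, fr_path_succ, ih (by omega), aβ, as _ (hm k (by omega))]
  rw [hr, F.fr_ret_eq (n := n), h n le_rfl]
  · rw [h n le_rfl, aT]; exact hn
  · intro m hmn
    rw [h m hmn.le, aT]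
    exact hm m hmn

theorem not_T_of_pure {ω : Ω} (h : F.Pure ω) : ¬ F.T ω := (h 0).1

theorem pure_β {ω : Ω} (h : F.Pure ω) : F.Pure (F.β ω) := by
  intro n
  rw [F.ββ]
  exact ⟨(h n).2, (h n).1⟩

theorem pure_s {ω : Ω} (h : F.Pure ω) : F.Pure (F.s ω) := by
  intro n
  constructor
  · cases n with
    | zero =>
      rw [Function.iterate_zero_apply, F.sT]
      exact (h 0).1
    | succ n =>
      rw [Function.iterate_succ_apply]
      simp only [F.ss]
      exact (h n).2
  · have := (h (n + 1)).1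
    rwa [Function.iterate_succ_apply] at this

theorem fr_iter_map {a : Ω → Ω}
    (aβ : ∀ ω, a (F.β ω) = F.β (a ω)) (as : ∀ ω, ¬ F.T ω → a (F.s ω) = F.s (a ω)) (ω : Ω)
    (h : ∀ n, ¬ F.T ((fun y => F.β (F.s y))^[n] ω)) (n : ℕ) :
    (fun y => F.β (F.s y))^[n] (a ω) = a ((fun y => F.β (F.s y))^[n] ω) := by
  induction n with
  | zero => rfl
  | succ n ih =>
    rw [Function.iterate_succ_apply', Function.iterate_succ_apply', ih, aβ, as _ (h n)]

theorem pure_map {a : Ω → Ω} (aT : ∀ ω, F.T (a ω) ↔ F.T ω)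
    (aβ : ∀ ω, a (F.β ω) = F.β (a ω)) (as : ∀ ω, ¬ F.T ω → a (F.s ω) = F.s (a ω)) {ω : Ω} :
    F.Pure ω → F.Pure (a ω) := by
  intro h n
  rw [F.fr_iter_map aβ as ω (fun n => (h n).1), aT, ← aβ,
    F.fr_iter_map aβ as (F.β ω) (fun n => (h n).2), aT]
  exact h n

/-- Invariant functions on `T` extend. -/
theorem extend {α : Type} (z : α) (g : Ω → α) (hg : ∀ x, F.T x → g (F.ret x) = g x) :
    ∃ g' : Ω → α, (∀ ω, g' (F.β ω) = g' ω) ∧ (∀ ω, ¬ F.T ω → g' (F.s ω) = g' ω) ∧
      (∀ x, F.T x → g' x = g x) ∧ ∀ ω, F.Pure ω → g' ω = z := by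
  classical
  let τ : Ω → Ω := fun y => F.β (F.s y)
  let g' : Ω → α := fun ω => if h : ∃ n, F.T (τ^[n] ω) then g (τ^[Nat.find h] ω) else z
  have hval : ∀ ω n, F.T (τ^[n] ω) → (∀ m < n, ¬ F.T (τ^[m] ω)) → g' ω = g (τ^[n] ω) := by
    intro ω n hn hm
    have he : ∃ n, F.T (τ^[n] ω) := ⟨n, hn⟩
    have hf : Nat.find he = n := by
      rw [Nat.find_eq_iff]
      exact ⟨hn, hm⟩
    have h1 : g' ω = g (τ^[Nat.find he] ω) := dif_pos he
    rw [h1, hf]
  have hno : ∀ ω, (¬ ∃ n, F.T (τ^[n] ω)) → g' ω = z := fun ω h => dif_neg h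
  -- if `ω` reaches `T`, so does `β ω`, with the same value
  have key : ∀ ω, (∃ n, F.T (τ^[n] ω)) → (∃ n, F.T (τ^[n] (F.β ω))) ∧ g' (F.β ω) = g' ω := by
    intro ω he
    obtain ⟨n, hn, hm⟩ : ∃ n, F.T (τ^[n] ω) ∧ ∀ m < n, ¬ F.T (τ^[m] ω) :=
      ⟨Nat.find he, Nat.find_spec he, fun m hm => Nat.find_min he hm⟩
    obtain ⟨h1, h2⟩ := F.fr_back ω n
    obtain ⟨m, hm1, hm2, hr⟩ := F.fr_ret_spec hn
    have hnm : n ≤ m := by
      by_contra hlt
      push Not at hlt
      have h3 := h1 m hlt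
      change F.path (τ^[n] ω) m = F.s (τ^[n - 1 - m] ω) at h3
      rw [h3, F.sT] at hm1
      exact hm _ (by omega) hm1
    have hpath : ∀ k, F.path (τ^[n] ω) (n + k) = τ^[k] (F.β ω) := by
      intro k
      induction k with
      | zero => exact h2
      | succ k ih =>
        rw [← Nat.add_assoc, fr_path_succ, ih, Function.iterate_succ_apply']
    obtain ⟨k, rfl⟩ := Nat.exists_eq_add_of_le hnm
    have h4 : g' (F.β ω) = g (τ^[k] (F.β ω)) := by
      apply hval
      · rw [← hpath]; exact hm1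
      · intro j hj
        rw [← hpath]
        exact hm2 _ (by omega)
    refine ⟨⟨k, by rw [← hpath]; exact hm1⟩, ?_⟩
    rw [h4, hval ω n hn hm, ← hpath, ← hr]
    exact hg _ hn
  have hβ : ∀ ω, g' (F.β ω) = g' ω := by
    intro ω
    by_cases he : ∃ n, F.T (τ^[n] ω)
    · exact (key ω he).2
    · have he' : ¬ ∃ n, F.T (τ^[n] (F.β ω)) := by
        intro h
        have := (key _ h).1
        rw [F.ββ] at this
        exact he this
      rw [hno _ he, hno _ he']
  refine ⟨g', hβ, ?_, ?_, ?_⟩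
  · intro ω hω
    rw [← hβ (F.s ω)]
    change g' (τ ω) = g' ω
    by_cases he : ∃ n, F.T (τ^[n] ω)
    · obtain ⟨n, hn, hm⟩ : ∃ n, F.T (τ^[n] ω) ∧ ∀ m < n, ¬ F.T (τ^[m] ω) :=
        ⟨Nat.find he, Nat.find_spec he, fun m hm => Nat.find_min he hm⟩
      cases n with
      | zero => exact absurd hn hω
      | succ n =>
        rw [hval ω (n + 1) hn hm, hval (τ ω) n, Function.iterate_succ_apply]
        · rw [← Function.iterate_succ_apply]; exact hn
        · intro m hmn
          rw [← Function.iterate_succ_apply]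
          exact hm _ (by omega)
    · have he' : ¬ ∃ n, F.T (τ^[n] (τ ω)) := by
        rintro ⟨n, hn⟩
        rw [← Function.iterate_succ_apply] at hn
        exact he ⟨_, hn⟩
      rw [hno _ he, hno _ he']
  · intro x hx
    exact hval x 0 hx (fun m hm => absurd hm (Nat.not_lt_zero m))
  · intro ω hω
    apply hno
    rintro ⟨n, hn⟩
    exact (hω n).1 hn

/-- Invariant functions with the same values on `T` and on the pure part are equal. -/
theorem eq_of {α : Type} {g g' : Ω → α} (hβ : ∀ ω, g (F.β ω) = g ω)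
    (hs : ∀ ω, ¬ F.T ω → g (F.s ω) = g ω) (hβ' : ∀ ω, g' (F.β ω) = g' ω)
    (hs' : ∀ ω, ¬ F.T ω → g' (F.s ω) = g' ω) (hT : ∀ ω, F.T ω → g ω = g' ω)
    (hP : ∀ ω, F.Pure ω → g ω = g' ω) (ω : Ω) : g ω = g' ω := by
  classical
  have key : ∀ n ω, F.T ((fun y => F.β (F.s y))^[n] ω) → g ω = g' ω := by
    intro n
    induction n with
    | zero => intro ω h; exact hT _ h
    | succ n ih =>
      intro ω h
      by_cases hω : F.T ω
      · exact hT _ hω
      · rw [Function.iterate_succ_apply] at h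
        have := ih _ h
        rwa [hβ, hβ', hs _ hω, hs' _ hω] at this
  by_cases h : F.Pure ω
  · exact hP ω h
  · unfold Pure at h
    push Not at h
    obtain ⟨n, hn⟩ := h
    by_cases h1 : F.T ((fun y => F.β (F.s y))^[n] ω)
    · exact key n ω h1
    · have := key n _ (hn h1)
      rwa [hβ, hβ'] at this

/-- Counting orbits with one more map `a` which preserves everything. -/
theorem orb_three [Finite Ω] {a : Ω → Ω} (aT : ∀ ω, F.T (a ω) ↔ F.T ω)
    (aβ : ∀ ω, a (F.β ω) = F.β (a ω)) (as : ∀ ω, ¬ F.T ω → a (F.s ω) = F.s (a ω)) :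
    orb [F.β, F.s, a] =
      orb [(fun x => ⟨F.ret x.1, F.ret_T x.2⟩ : {ω // F.T ω} → {ω // F.T ω}),
        (fun x => ⟨F.s x.1, (F.sT x.1).2 x.2⟩ : {ω // F.T ω} → {ω // F.T ω}),
        (fun x => ⟨a x.1, (aT x.1).2 x.2⟩ : {ω // F.T ω} → {ω // F.T ω})] +
      orb [(fun x => ⟨F.β x.1, F.pure_β x.2⟩ : {ω // F.Pure ω} → {ω // F.Pure ω}),
        (fun x => ⟨F.s x.1, F.pure_s x.2⟩ : {ω // F.Pure ω} → {ω // F.Pure ω}),
        (fun x => ⟨a x.1, F.pure_map aT aβ as x.2⟩ : {ω // F.Pure ω} → {ω // F.Pure ω})] := by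
  classical
  unfold orb
  rw [← Module.finrank_prod]
  have hmem1 : ∀ f ∈ (Inv [F.β, F.s, a] : Submodule F2 (Ω → F2)),
      (fun x : {ω // F.T ω} => f x.1) ∈
        (Inv [(fun x => ⟨F.ret x.1, F.ret_T x.2⟩ : {ω // F.T ω} → {ω // F.T ω}),
        (fun x => ⟨F.s x.1, (F.sT x.1).2 x.2⟩ : {ω // F.T ω} → {ω // F.T ω}),
        (fun x => ⟨a x.1, (aT x.1).2 x.2⟩ : {ω // F.T ω} → {ω // F.T ω})] :
          Submodule F2 ({ω // F.T ω} → F2)) := by
    intro f hf
    have h1 := hf F.β (by simp)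
    have h2 := hf F.s (by simp)
    have h3 := hf a (by simp)
    intro φ hφ x
    simp only [List.mem_cons, List.not_mem_nil, or_false] at hφ
    rcases hφ with rfl | rfl | rfl
    · exact F.ret_inv h1 (fun ω _ => h2 ω) x.2
    · exact h2 x.1
    · exact h3 x.1
  have hmem2 : ∀ f ∈ (Inv [F.β, F.s, a] : Submodule F2 (Ω → F2)),
      (fun x : {ω // F.Pure ω} => f x.1) ∈
        (Inv [(fun x => ⟨F.β x.1, F.pure_β x.2⟩ : {ω // F.Pure ω} → {ω // F.Pure ω}),
        (fun x => ⟨F.s x.1, F.pure_s x.2⟩ : {ω // F.Pure ω} → {ω // F.Pure ω}),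
        (fun x => ⟨a x.1, F.pure_map aT aβ as x.2⟩ : {ω // F.Pure ω} → {ω // F.Pure ω})] :
          Submodule F2 ({ω // F.Pure ω} → F2)) := by
    intro f hf
    have h1 := hf F.β (by simp)
    have h2 := hf F.s (by simp)
    have h3 := hf a (by simp)
    intro φ hφ x
    simp only [List.mem_cons, List.not_mem_nil, or_false] at hφ
    rcases hφ with rfl | rfl | rfl
    · exact h1 x.1
    · exact h2 x.1
    · exact h3 x.1
  let L : (Inv [F.β, F.s, a] : Submodule F2 (Ω → F2)) →ₗ[F2]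
      ((Inv [(fun x => ⟨F.ret x.1, F.ret_T x.2⟩ : {ω // F.T ω} → {ω // F.T ω}),
        (fun x => ⟨F.s x.1, (F.sT x.1).2 x.2⟩ : {ω // F.T ω} → {ω // F.T ω}),
        (fun x => ⟨a x.1, (aT x.1).2 x.2⟩ : {ω // F.T ω} → {ω // F.T ω})] :
          Submodule F2 ({ω // F.T ω} → F2)) ×
       (Inv [(fun x => ⟨F.β x.1, F.pure_β x.2⟩ : {ω // F.Pure ω} → {ω // F.Pure ω}),
        (fun x => ⟨F.s x.1, F.pure_s x.2⟩ : {ω // F.Pure ω} → {ω // F.Pure ω}),
        (fun x => ⟨a x.1, F.pure_map aT aβ as x.2⟩ : {ω // F.Pure ω} → {ω // F.Pure ω})] :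
          Submodule F2 ({ω // F.Pure ω} → F2))) :=
    { toFun := fun f => (⟨fun x => f.1 x.1, hmem1 f.1 f.2⟩, ⟨fun x => f.1 x.1, hmem2 f.1 f.2⟩)
      map_add' := fun _ _ => rfl
      map_smul' := fun _ _ => rfl }
  refine (LinearEquiv.ofBijective L ⟨?_, ?_⟩).finrank_eq
  · rintro ⟨f, hf⟩ ⟨f', hf'⟩ h
    have hT : ∀ ω, F.T ω → f ω = f' ω := by
      intro ω hω
      have := congrArg (fun q => q.1.1 ⟨ω, hω⟩) h
      exact this
    have hP : ∀ ω, F.Pure ω → f ω = f' ω := by
      intro ω hω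
      have := congrArg (fun q => q.2.1 ⟨ω, hω⟩) h
      exact this
    apply Subtype.ext
    funext ω
    exact F.eq_of (hf F.β (by simp)) (fun ω _ => hf F.s (by simp) ω) (hf' F.β (by simp))
      (fun ω _ => hf' F.s (by simp) ω) hT hP ω
  · rintro ⟨⟨h1, hh1⟩, ⟨h2, hh2⟩⟩
    have h1r := hh1 _ (List.mem_cons_self)
    have h1s := hh1 _ (List.mem_cons_of_mem _ (List.mem_cons_self))
    have h1a := hh1 _ (List.mem_cons_of_mem _ (List.mem_cons_of_mem _ (List.mem_cons_self)))
    have h2β := hh2 _ (List.mem_cons_self)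
    have h2s := hh2 _ (List.mem_cons_of_mem _ (List.mem_cons_self))
    have h2a := hh2 _ (List.mem_cons_of_mem _ (List.mem_cons_of_mem _ (List.mem_cons_self)))
    let g : Ω → F2 := fun ω => if h : F.T ω then h1 ⟨ω, h⟩ else 0
    have hgT : ∀ ω (h : F.T ω), g ω = h1 ⟨ω, h⟩ := fun ω h => dif_pos h
    obtain ⟨g', e1, e2, e3, e4⟩ := F.extend (0 : F2) g (by
      intro x hx
      rw [hgT _ (F.ret_T hx), hgT x hx]
      exact h1r ⟨x, hx⟩)
    let q : Ω → F2 := fun ω => if h : F.Pure ω then h2 ⟨ω, h⟩ else 0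
    have hqP : ∀ ω (h : F.Pure ω), q ω = h2 ⟨ω, h⟩ := fun ω h => dif_pos h
    have hqN : ∀ ω, ¬ F.Pure ω → q ω = 0 := fun ω h => dif_neg h
    have hqβ : ∀ ω, q (F.β ω) = q ω := by
      intro ω
      by_cases h : F.Pure ω
      · rw [hqP _ (F.pure_β h), hqP _ h]
        exact h2β ⟨ω, h⟩
      · have h' : ¬ F.Pure (F.β ω) := by
          intro h'
          have := F.pure_β h'
          rw [F.ββ] at this
          exact h this
        rw [hqN _ h, hqN _ h']
    have hqs : ∀ ω, q (F.s ω) = q ω := by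
      intro ω
      by_cases h : F.Pure ω
      · rw [hqP _ (F.pure_s h), hqP _ h]
        exact h2s ⟨ω, h⟩
      · have h' : ¬ F.Pure (F.s ω) := by
          intro h'
          have := F.pure_s h'
          rw [F.ss] at this
          exact h this
        rw [hqN _ h, hqN _ h']
    let f : Ω → F2 := fun ω => g' ω + q ω
    have hfT : ∀ ω (h : F.T ω), f ω = h1 ⟨ω, h⟩ := by
      intro ω h
      change g' ω + q ω = _
      rw [e3 ω h, hgT ω h, hqN ω (fun hp => F.not_T_of_pure hp h), add_zero]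
    have hfP : ∀ ω (h : F.Pure ω), f ω = h2 ⟨ω, h⟩ := by
      intro ω h
      change g' ω + q ω = _
      rw [e4 ω h, hqP ω h, zero_add]
    have hfβ : ∀ ω, f (F.β ω) = f ω := by
      intro ω
      change g' (F.β ω) + q (F.β ω) = g' ω + q ω
      rw [e1, hqβ]
    have hfs : ∀ ω, f (F.s ω) = f ω := by
      intro ω
      by_cases h : F.T ω
      · rw [hfT _ ((F.sT ω).2 h), hfT _ h]
        exact h1s ⟨ω, h⟩
      · change g' (F.s ω) + q (F.s ω) = g' ω + q ω
        rw [e2 ω h, hqs]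
    have hfa : ∀ ω, f (a ω) = f ω := by
      apply F.eq_of (g := fun ω => f (a ω)) (g' := f)
      · intro ω
        rw [aβ, hfβ]
      · intro ω hω
        rw [as ω hω, hfs]
      · exact hfβ
      · intro ω _; exact hfs ω
      · intro ω h
        rw [hfT _ ((aT ω).2 h), hfT _ h]
        exact h1a ⟨ω, h⟩
      · intro ω h
        rw [hfP _ (F.pure_map aT aβ as h), hfP _ h]
        exact h2a ⟨ω, h⟩
    refine ⟨⟨f, ?_⟩, ?_⟩
    · intro φ hφ x
      simp only [List.mem_cons, List.not_mem_nil, or_false] at hφ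
      rcases hφ with rfl | rfl | rfl
      · exact hfβ x
      · exact hfs x
      · exact hfa x
    · apply Prod.ext
      · apply Subtype.ext
        funext x
        exact hfT x.1 x.2
      · apply Subtype.ext
        funext x
        exact hfP x.1 x.2

/-- Counting orbits. -/
theorem orb_two [Finite Ω] :
    orb [F.β, F.s] =
      orb [(fun x => ⟨F.ret x.1, F.ret_T x.2⟩ : {ω // F.T ω} → {ω // F.T ω}),
        (fun x => ⟨F.s x.1, (F.sT x.1).2 x.2⟩ : {ω // F.T ω} → {ω // F.T ω})] +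
      orb [(fun x => ⟨F.β x.1, F.pure_β x.2⟩ : {ω // F.Pure ω} → {ω // F.Pure ω}),
        (fun x => ⟨F.s x.1, F.pure_s x.2⟩ : {ω // F.Pure ω} → {ω // F.Pure ω})] := by
  have h := F.orb_three (a := id) (fun _ => Iff.rfl) (fun _ => rfl) (fun _ _ => rfl)
  have hid : ∀ {Φ : Type} (u v w : Φ → Φ), (∀ x, w x = x) → orb [u, v, w] = orb [u, v] := by
    intro Φ u v w hw
    apply orb_congr_inv
    intro g
    simp only [mem_Inv, List.mem_cons, List.not_mem_nil, or_false]
    constructor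
    · intro hg f hf
      rcases hf with hf | hf
      · exact hg f (Or.inl hf)
      · exact hg f (Or.inr (Or.inl hf))
    · intro hg f hf
      rcases hf with hf | hf | hf
      · exact hg f (Or.inl hf)
      · exact hg f (Or.inr hf)
      · intro x
        rw [hf, hw]
  exact (hid _ _ id (fun _ => rfl)).symm.trans (h.trans (congrArg₂ (· + ·)
    (hid _ _ _ (fun _ => rfl)) (hid _ _ _ (fun _ => rfl))))

end FR

end Pool.Agent.Lib.MP_131179_gt.Dehn
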