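import Pool.Agent.Lib.MP_131179_gt.Dehn.TMap

/-!
# Immersed spheres with two colours

`Ψ` is the set of flags of a surface carried by a two-dimensional complex (a flag is a point in which
the surface meets the boundary of the transversal disc of an edge, together with a side of the
surface).  In the disc transversal to an edge, the surface consists of chords: the chord starting at
`x` ends at `M x`, where `x` and `M x` are on the same side of the chord.  Chords of the same colour
are disjoint.  `co` is a co-orientation of the surface, and `P x y` is the side of the chord of `x` on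
which `y` is.
-/

set_option autoImplicit false

namespace Pool.Agent.Lib.MP_131179_gt.Dehn

/-- An immersed surface with two colours. -/
structure Imm (Ψ : Type) extends TMap Ψ where
  M : Ψ → Ψ
  col : Ψ → F2
  kap : Ψ → F2
  co : Ψ → F2
  P : Ψ → Ψ → F2
  MM : ∀ x, M (M x) = x
  aM : ∀ x, a (M x) = M (a x)
  cM : ∀ x, c (M x) = M (c x)
  sgM : ∀ x, sg (M x) = sg x + 1
  cdM : ∀ x, toTMap.CD x (M x)
  kapc : ∀ x, kap (c x) = kap x
  kapd : ∀ x, kap (d x) = kap x
  cola : ∀ x, col (a x) = col x + kap x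
  colb : ∀ x, col (b x) = col x
  colc : ∀ x, col (c x) = col x
  colM : ∀ x, col (M x) = col x
  coa : ∀ x, co (a x) = co x
  cob : ∀ x, co (b x) = co x
  coc : ∀ x, co (c x) = co x + 1
  coM : ∀ x, co (M x) = co x
  Pd : ∀ x y, toTMap.CD x y → P x (d y) = P x y
  Pc : ∀ x y, toTMap.CD x y → y ≠ x → y ≠ c x → y ≠ M x → y ≠ c (M x) → P x (c y) = P x y
  PM : ∀ x y, toTMap.CD x y → col y = col x → P x (M y) = P x y
  Pself : ∀ x, P x x = co x
  Pself' : ∀ x, P x (c x) = co x + 1

namespace Imm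

variable {Ψ : Type} (I : Imm Ψ)

/-- The surface is a sphere (and both sides of it are counted). -/
structure IsSphere [Fintype Ψ] : Prop where
  conn : ∀ g ∈ Inv [I.a, I.b, I.c, I.M], ∀ x y, g x = g y
  sph : 4 * (orb [I.a, I.b] + orb [I.b, I.M]) = Fintype.card Ψ + 16

/-- The chords of `x` and `y` cross, and `x` is on the side of the chord of `y` which has the same
name as the side of the chord of `x` on which `y` is. -/
structure Cross (x y : Ψ) : Prop where
  cd : I.CD x y
  col : I.col x ≠ I.col y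
  cox : I.co x = 0
  coy : I.co y = 0
  ne : I.P y x ≠ I.P y (I.M x)
  eq : I.P y x = I.P x y

/-- The points of the surface. -/
def Pt : Type := {x : Ψ // I.co x = 0}

/-- The ends of the pieces of the chords at the crossings: `(x, y)` is the end at the crossing of the
chords of `x` and `y` of the piece of the chord of `x` on the side of `x`. -/
def A : Type := {p : Ψ × Ψ // I.Cross p.1 p.2}

/-- All ends of pieces of chords. -/
def Om : Type := I.Pt ⊕ I.A

instance [Finite Ψ] : Finite I.Pt := inferInstanceAs (Finite {x : Ψ // I.co x = 0})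

instance [Finite Ψ] : Finite I.A := inferInstanceAs (Finite {p : Ψ × Ψ // I.Cross p.1 p.2})

instance [Finite Ψ] : Finite I.Om := inferInstanceAs (Finite (I.Pt ⊕ I.A))

variable {I}

theorem imm_CD_a {x y : Ψ} (h : I.CD x y) : I.CD (I.a x) (I.a y) := by
  unfold TMap.CD SameOrb at h ⊢
  induction h with
  | rel u v huv =>
    obtain ⟨f, hf, rfl⟩ := huv
    simp only [List.mem_cons, List.not_mem_nil, or_false] at hf
    rcases hf with rfl | rfl
    · exact Relation.EqvGen.rel _ _ ⟨I.c, by simp, (I.ac u).symm⟩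
    · exact Relation.EqvGen.rel _ _ ⟨I.d, by simp, (I.ad u).symm⟩
  | refl u => exact Relation.EqvGen.refl _
  | symm u v _ ih => exact Relation.EqvGen.symm _ _ ih
  | trans u v w _ _ ih1 ih2 => exact Relation.EqvGen.trans _ _ _ ih1 ih2

theorem CD_iff_a {x y : Ψ} : I.CD (I.a x) (I.a y) ↔ I.CD x y := by
  constructor
  · intro h
    have h' := imm_CD_a h
    rwa [I.aa, I.aa] at h'
  · exact imm_CD_a

theorem CD.kap {x y : Ψ} (h : I.CD x y) : I.kap x = I.kap y := by
  unfold TMap.CD SameOrb at h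
  induction h with
  | rel u v huv =>
    obtain ⟨f, hf, rfl⟩ := huv
    simp only [List.mem_cons, List.not_mem_nil, or_false] at hf
    rcases hf with rfl | rfl
    · exact (I.kapc u).symm
    · exact (I.kapd u).symm
  | refl u => rfl
  | symm u v _ ih => exact ih.symm
  | trans u v w _ _ ih1 ih2 => exact ih1.trans ih2

/-- Uniqueness of functions with given jumps. -/
theorem CD.eq_of {R : Type} {f : Ψ → R} {x y : Ψ} (h : I.CD x y)
    (hc : ∀ z, I.CD x z → f (I.c z) = f z) (hd : ∀ z, I.CD x z → f (I.d z) = f z) :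
    f y = f x := by
  have key : ∀ u v, Relation.EqvGen (OStep [I.c, I.d]) u v → I.CD x u → f v = f u := by
    intro u v huv
    induction huv with
    | rel u v huv =>
      intro hu
      obtain ⟨g, hg, rfl⟩ := huv
      simp only [List.mem_cons, List.not_mem_nil, or_false] at hg
      rcases hg with rfl | rfl
      · exact hc u hu
      · exact hd u hu
    | refl u => intro _; rfl
    | symm u v huv ih =>
      intro hv
      exact (ih (TMap.CD.trans hv (TMap.CD.symm huv))).symm
    | trans u v w huv hvw ih1 ih2 =>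
      intro hu
      rw [ih2 (TMap.CD.trans hu huv), ih1 hu]
  exact key x y h (TMap.CD.refl _ x)

theorem imm_add_self (u : F2) : u + u = 0 := by
  have : ∀ u : F2, u + u = 0 := by decide
  exact this u

theorem imm_eq_of_add (u v : F2) (h : u + v = 0) : u = v := by
  have : ∀ u v : F2, u + v = 0 → u = v := by decide
  exact this u v h

theorem imm_x_ne_M (x : Ψ) : I.M x ≠ x := fun h => by
  have := I.sgM x; rw [h] at this; simp at this

theorem imm_cM_ne (x : Ψ) : I.c (I.M x) ≠ x := fun h => by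
  have h1 := I.coc (I.M x)
  rw [h, I.coM] at h1
  simp at h1

theorem imm_M_ne_c (x : Ψ) : I.M x ≠ I.c x := fun h => by
  have h1 := I.coc x
  rw [← h, I.coM] at h1
  simp at h1

/-- The side function of a chord is determined by its jumps. -/
theorem imm_P_unique {x y : Ψ} (f : Ψ → F2) (h : I.CD x y)
    (hd : ∀ z, I.CD x z → f (I.d z) = f z)
    (hc : ∀ z, I.CD x z → z ≠ x → z ≠ I.c x → z ≠ I.M x → z ≠ I.c (I.M x) → f (I.c z) = f z)
    (h1 : f x = I.co x) (h2 : f (I.c x) = I.co x + 1) (h3 : f (I.M x) = I.co x)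
    (h4 : f (I.c (I.M x)) = I.co x + 1) : f y = I.P x y := by
  have hPM : I.P x (I.M x) = I.co x := by
    rw [I.PM x x (TMap.CD.refl _ x) rfl, I.Pself]
  have hPcM : I.P x (I.c (I.M x)) = I.co x + 1 := by
    rw [I.cM, I.PM x (I.c x) (TMap.CD.c _ x) (I.colc x), I.Pself']
  apply imm_eq_of_add
  have key : (fun z => f z + I.P x z) y = (fun z => f z + I.P x z) x := by
    apply CD.eq_of h
    · intro z hz
      show f (I.c z) + I.P x (I.c z) = f z + I.P x z
      by_cases hz1 : z = x
      · subst hz1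
        rw [h1, h2, I.Pself, I.Pself', imm_add_self, imm_add_self]
      by_cases hz2 : z = I.c x
      · subst hz2
        rw [I.cc, h1, h2, I.Pself, I.Pself', imm_add_self, imm_add_self]
      by_cases hz3 : z = I.M x
      · subst hz3
        rw [h3, h4, hPM, hPcM, imm_add_self, imm_add_self]
      by_cases hz4 : z = I.c (I.M x)
      · subst hz4
        rw [I.cc, h3, h4, hPM, hPcM, imm_add_self, imm_add_self]
      rw [hc z hz hz1 hz2 hz3 hz4, I.Pc x z hz hz1 hz2 hz3 hz4]
    · intro z hz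
      show f (I.d z) + I.P x (I.d z) = f z + I.P x z
      rw [hd z hz, I.Pd x z hz]
  have key' : f y + I.P x y = f x + I.P x x := key
  rw [key', h1, I.Pself, imm_add_self]

theorem P_self_M (x : Ψ) : I.P x (I.M x) = I.co x := by
  rw [I.PM x x (TMap.CD.refl _ x) rfl, I.Pself]

theorem P_self_cM (x : Ψ) : I.P x (I.c (I.M x)) = I.co x + 1 := by
  rw [I.cM, I.PM x (I.c x) (TMap.CD.c _ x) (I.colc x), I.Pself']

/-- `P x` only depends on the chord of `x`. -/
theorem P_M_left {x y : Ψ} (h : I.CD x y) : I.P (I.M x) y = I.P x y := by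
  have hM : ∀ z, I.CD x z → I.CD (I.M x) z := fun z hz =>
    TMap.CD.trans (TMap.CD.symm (I.cdM x)) hz
  apply imm_P_unique (I.P (I.M x)) h
  · intro z hz
    exact I.Pd _ _ (hM z hz)
  · intro z hz h1 h2 h3 h4
    exact I.Pc _ _ (hM z hz) h3 h4 (by rwa [I.MM]) (by rwa [I.MM])
  · have := P_self_M (I := I) (I.M x)
    rwa [I.MM, I.coM] at this
  · have := P_self_cM (I := I) (I.M x)
    rwa [I.MM, I.coM] at this
  · rw [I.Pself, I.coM]
  · rw [I.Pself', I.coM]

theorem P_c_left {x y : Ψ} (h : I.CD x y) : I.P (I.c x) y = I.P x y := by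
  have hM : ∀ z, I.CD x z → I.CD (I.c x) z := fun z hz =>
    TMap.CD.trans (TMap.CD.symm (TMap.CD.c _ x)) hz
  have h11 : ∀ u : F2, u + 1 + 1 = u := by decide
  apply imm_P_unique (I.P (I.c x)) h
  · intro z hz
    exact I.Pd _ _ (hM z hz)
  · intro z hz h1 h2 h3 h4
    refine I.Pc _ _ (hM z hz) h2 (by rwa [I.cc]) ?_ ?_
    · rwa [← I.cM]
    · rwa [← I.cM, I.cc]
  · have := I.Pself' (I.c x)
    rwa [I.cc, I.coc, h11] at this
  · rw [I.Pself, I.coc]
  · have := P_self_cM (I := I) (I.c x)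
    rwa [← I.cM, I.cc, I.coc, h11] at this
  · have := P_self_M (I := I) (I.c x)
    rwa [← I.cM, I.coc] at this

theorem P_a {x y : Ψ} (h : I.CD x y) : I.P (I.a x) (I.a y) = I.P x y := by
  have ha : ∀ u v, u ≠ v → I.a u ≠ I.a v := by
    intro u v huv h
    apply huv
    have := congrArg I.a h
    rwa [I.aa, I.aa] at this
  apply imm_P_unique (fun z => I.P (I.a x) (I.a z)) h
  · intro z hz
    show I.P (I.a x) (I.a (I.d z)) = I.P (I.a x) (I.a z)
    rw [I.ad]
    exact I.Pd _ _ (imm_CD_a hz)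
  · intro z hz h1 h2 h3 h4
    show I.P (I.a x) (I.a (I.c z)) = I.P (I.a x) (I.a z)
    rw [I.ac]
    refine I.Pc _ _ (imm_CD_a hz) (ha _ _ h1) ?_ ?_ ?_
    · rw [← I.ac]
      exact ha _ _ h2
    · rw [← I.aM]
      exact ha _ _ h3
    · rw [← I.aM, ← I.ac]
      exact ha _ _ h4
  · show I.P (I.a x) (I.a x) = I.co x
    rw [I.Pself, I.coa]
  · show I.P (I.a x) (I.a (I.c x)) = I.co x + 1
    rw [I.ac, I.Pself', I.coa]
  · show I.P (I.a x) (I.a (I.M x)) = I.co x
    rw [I.aM, P_self_M, I.coa]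
  · show I.P (I.a x) (I.a (I.c (I.M x))) = I.co x + 1
    rw [I.ac, I.aM, P_self_cM, I.coa]

/-- Circle sums. -/
theorem circle_sum [Fintype Ψ] {R : Type} [AddCommGroup R] (x : Ψ) (f : Ψ → R)
    (hd : ∀ z, I.CD x z → f (I.d z) = f z) :
    (open Classical in ∑ z ∈ Finset.univ.filter (fun z => I.CD x z ∧ I.sg z = 1),
      (f z - f (I.c z))) = 0 := by
  classical
  have h11 : ∀ u : F2, u + 1 + 1 = u := by decide
  rw [Finset.sum_sub_distrib, sub_eq_zero]
  symm
  apply Finset.sum_nbij' (fun z => I.d (I.c z)) (fun z => I.c (I.d z))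
  · intro z hz
    rw [Finset.mem_filter] at hz ⊢
    refine ⟨Finset.mem_univ _, TMap.CD.trans hz.2.1 (TMap.CD.trans (TMap.CD.c _ z)
      (TMap.CD.d _ _)), ?_⟩
    rw [I.sgd, I.sgc, h11]
    exact hz.2.2
  · intro z hz
    rw [Finset.mem_filter] at hz ⊢
    refine ⟨Finset.mem_univ _, TMap.CD.trans hz.2.1 (TMap.CD.trans (TMap.CD.d _ z)
      (TMap.CD.c _ _)), ?_⟩
    rw [I.sgc, I.sgd, h11]
    exact hz.2.2
  · intro z _
    show I.c (I.d (I.d (I.c z))) = z
    rw [I.dd, I.cc]
  · intro z _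
    show I.d (I.c (I.c (I.d z))) = z
    rw [I.cc, I.dd]
  · intro z hz
    rw [Finset.mem_filter] at hz
    show f (I.c z) = f (I.d (I.c z))
    rw [hd _ (TMap.CD.trans hz.2.1 (TMap.CD.c _ z))]

/-- The jump of `f` at the point of `w`, from the negative to the positive side. -/
def immJump {R : Type} [AddCommGroup R] (I : Imm Ψ) (f : Ψ → R) (w : Ψ) : R :=
  if I.sg w = 1 then f w - f (I.c w) else f (I.c w) - f w

theorem imm_circle_four [Finite Ψ] {R : Type} [AddCommGroup R] {x y : Ψ} (f : Ψ → R)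
    (h : I.CD x y) (h1 : y ≠ x) (h2 : y ≠ I.c x) (h3 : y ≠ I.M x)
    (h4 : y ≠ I.c (I.M x)) (hd : ∀ z, I.CD x z → f (I.d z) = f z)
    (hc : ∀ z, I.CD x z → z ≠ x → z ≠ I.c x → z ≠ I.M x → z ≠ I.c (I.M x) → z ≠ y →
      z ≠ I.c y → z ≠ I.M y → z ≠ I.c (I.M y) → f (I.c z) = f z) :
    immJump I f x + immJump I f (I.M x) + immJump I f y + immJump I f (I.M y) = 0 := by
  classical
  have : Fintype Ψ := Fintype.ofFinite Ψ
  -- the representative with sign one
  set r : Ψ → Ψ := fun w => if I.sg w = 1 then w else I.c w with hr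
  have hF2 : ∀ u : F2, u ≠ 1 → u = 0 := by decide
  have hsr : ∀ w, I.sg (r w) = 1 := by
    intro w
    rw [hr]
    by_cases hw : I.sg w = 1
    · simp only [if_pos hw]
      exact hw
    · simp only [if_neg hw]
      rw [I.sgc, hF2 _ hw, zero_add]
  have hrw : ∀ w, r w = w ∨ r w = I.c w := by
    intro w
    rw [hr]
    by_cases hw : I.sg w = 1
    · left
      simp only [if_pos hw]
    · right
      simp only [if_neg hw]
  have hj : ∀ w, immJump I f w = f (r w) - f (I.c (r w)) := by
    intro w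
    rw [hr]
    unfold immJump
    by_cases hw : I.sg w = 1
    · simp only [if_pos hw]
    · simp only [if_neg hw]
      rw [I.cc]
  have hcd : ∀ w, I.CD x w → I.CD x (r w) := by
    intro w hw
    rcases hrw w with h | h
    · rwa [h]
    · rw [h]
      exact TMap.CD.trans hw (TMap.CD.c _ w)
  -- different chords
  have hne : ∀ u v, v ≠ u → v ≠ I.c u → r u ≠ r v := by
    intro u v huv hucv h
    have hcc : ∀ p q, I.c p = q → p = I.c q := by
      intro p q hpq
      rw [← hpq, I.cc]
    rcases hrw u with h5 | h5 <;> rcases hrw v with h6 | h6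
    · rw [h5, h6] at h
      exact huv h.symm
    · rw [h5, h6] at h
      exact hucv (hcc _ _ h.symm)
    · rw [h5, h6] at h
      exact hucv h.symm
    · rw [h5, h6] at h
      have := hcc _ _ h
      rw [I.cc] at this
      exact huv this.symm
  have hMM : ∀ p q, I.M p = q → p = I.M q := by
    intro p q hpq
    rw [← hpq, I.MM]
  have n1 : r x ≠ r (I.M x) := hne _ _ (imm_x_ne_M x) (imm_M_ne_c x)
  have n2 : r x ≠ r y := hne _ _ h1 h2
  have n3 : r x ≠ r (I.M y) := by
    apply hne
    · intro h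
      exact h3 (hMM _ _ h)
    · intro h
      apply h4
      rw [hMM _ _ h, I.cM]
  have n4 : r (I.M x) ≠ r y := hne _ _ h3 h4
  have n5 : r (I.M x) ≠ r (I.M y) := by
    apply hne
    · intro h
      have := hMM _ _ h
      rw [I.MM] at this
      exact h1 this
    · intro h
      have := hMM _ _ h
      rw [I.cM, I.MM, ] at this
      exact h2 this
  have n6 : r y ≠ r (I.M y) := hne _ _ (imm_x_ne_M y) (imm_M_ne_c y)
  have hsum := circle_sum (I := I) x f hd
  set S : Finset Ψ := {r x, r (I.M x), r y, r (I.M y)} with hS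
  have hsub : S ⊆ Finset.univ.filter (fun z => I.CD x z ∧ I.sg z = 1) := by
    intro z hz
    rw [hS] at hz
    simp only [Finset.mem_insert, Finset.mem_singleton] at hz
    rw [Finset.mem_filter]
    refine ⟨Finset.mem_univ _, ?_⟩
    rcases hz with rfl | rfl | rfl | rfl
    · exact ⟨hcd _ (TMap.CD.refl _ x), hsr _⟩
    · exact ⟨hcd _ (I.cdM x), hsr _⟩
    · exact ⟨hcd _ h, hsr _⟩
    · exact ⟨hcd _ (TMap.CD.trans h (I.cdM y)), hsr _⟩
  have hout : ∀ z ∈ Finset.univ.filter (fun z => I.CD x z ∧ I.sg z = 1), z ∉ S →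
      f z - f (I.c z) = 0 := by
    intro z hz hzS
    rw [Finset.mem_filter] at hz
    have hrz : ∀ w, z ≠ r w → z ≠ w ∧ z ≠ I.c w := by
      intro w hw
      constructor
      · rintro rfl
        apply hw
        rw [hr]
        simp only [if_pos hz.2.2]
      · intro h
        apply hw
        have h5 : I.sg w ≠ 1 := by
          intro h6
          have h7 := hz.2.2
          rw [h, I.sgc, h6] at h7
          revert h7
          decide
        rw [hr]
        simp only [if_neg h5]
        exact h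
    rw [hS] at hzS
    simp only [Finset.mem_insert, Finset.mem_singleton, not_or] at hzS
    obtain ⟨a1, a2, a3, a4⟩ := hzS
    have b1 := hrz _ a1
    have b2 := hrz _ a2
    have b3 := hrz _ a3
    have b4 := hrz _ a4
    rw [hc z hz.2.1 b1.1 b1.2 b2.1 b2.2 b3.1 b3.2 b4.1 b4.2, sub_self]
  rw [← Finset.sum_subset hsub hout, hS, Finset.sum_insert, Finset.sum_insert, Finset.sum_insert,
    Finset.sum_singleton] at hsum
  · rw [hj, hj, hj, hj, add_assoc, add_assoc]
    exact hsum
  · simp only [Finset.mem_singleton]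
    exact n6
  · simp only [Finset.mem_insert, Finset.mem_singleton, not_or]
    exact ⟨n4, n5⟩
  · simp only [Finset.mem_insert, Finset.mem_singleton, not_or]
    exact ⟨n1, n2, n3⟩

/-- Crossing is symmetric. Here `x` and `y` are on different chords. -/
theorem imm_sep_symm {x y : Ψ} (h1 : y ≠ x) (h2 : y ≠ I.c x) (h3 : y ≠ I.M x)
    (h4 : y ≠ I.c (I.M x)) : x ≠ y ∧ x ≠ I.c y ∧ x ≠ I.M y ∧ x ≠ I.c (I.M y) := by
  refine ⟨h1.symm, ?_, ?_, ?_⟩
  · intro h
    apply h2
    rw [h, I.cc]
  · intro h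
    apply h3
    rw [h, I.MM]
  · intro h
    apply h4
    rw [h, ← I.cM, I.MM, I.cc]

theorem imm_sep_M {x y : Ψ} (h1 : y ≠ x) (h2 : y ≠ I.c x) (h3 : y ≠ I.M x)
    (h4 : y ≠ I.c (I.M x)) :
    I.M y ≠ x ∧ I.M y ≠ I.c x ∧ I.M y ≠ I.M x ∧ I.M y ≠ I.c (I.M x) := by
  refine ⟨?_, ?_, ?_, ?_⟩
  · intro h
    apply h3
    rw [← h, I.MM]
  · intro h
    apply h4
    rw [I.cM, ← h, I.MM]
  · intro h
    apply h1
    rw [← I.MM y, h, I.MM]
  · intro h
    apply h2
    rw [← I.MM y, h, I.cM, I.MM]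

theorem P_sum [Finite Ψ] {x y : Ψ} (h : I.CD x y) (h1 : y ≠ x) (h2 : y ≠ I.c x) (h3 : y ≠ I.M x)
    (h4 : y ≠ I.c (I.M x)) : I.P y x + I.P y (I.M x) + I.P x y + I.P x (I.M y) = 0 := by
  obtain ⟨k1, k2, k3, k4⟩ := imm_sep_symm h1 h2 h3 h4
  have hcd : ∀ z, I.CD x z → I.CD y z := fun z hz => TMap.CD.trans (TMap.CD.symm h) hz
  have hj := imm_circle_four (I := I) (fun z => I.P x z * I.P y z) h h1 h2 h3 h4
    (by
      intro z hz
      show I.P x (I.d z) * I.P y (I.d z) = I.P x z * I.P y z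
      rw [I.Pd x z hz, I.Pd y z (hcd z hz)])
    (by
      intro z hz a1 a2 a3 a4 b1 b2 b3 b4
      show I.P x (I.c z) * I.P y (I.c z) = I.P x z * I.P y z
      rw [I.Pc x z hz a1 a2 a3 a4, I.Pc y z (hcd z hz) b1 b2 b3 b4])
  have hyx := TMap.CD.symm h
  have e1 : I.P y (I.c x) = I.P y x := I.Pc y x hyx k1 k2 k3 k4
  have e2 : I.P y (I.c (I.M x)) = I.P y (I.M x) := by
    obtain ⟨m1, m2, m3, m4⟩ := imm_sep_M k1 k2 k3 k4
    exact I.Pc y (I.M x) (TMap.CD.trans hyx (I.cdM x)) m1 m2 m3 m4
  have e3 : I.P x (I.c y) = I.P x y := I.Pc x y h h1 h2 h3 h4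
  have e4 : I.P x (I.c (I.M y)) = I.P x (I.M y) := by
    obtain ⟨m1, m2, m3, m4⟩ := imm_sep_M h1 h2 h3 h4
    exact I.Pc x (I.M y) (TMap.CD.trans h (I.cdM y)) m1 m2 m3 m4
  have q1 : immJump I (fun z => I.P x z * I.P y z) x = I.P y x := by
    unfold immJump
    simp only [I.Pself, I.Pself', e1]
    generalize I.sg x = s
    generalize I.co x = u
    generalize I.P y x = v
    revert s u v
    decide
  have q2 : immJump I (fun z => I.P x z * I.P y z) (I.M x) = I.P y (I.M x) := by
    unfold immJump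
    simp only [P_self_M, P_self_cM, e2]
    generalize I.sg (I.M x) = s
    generalize I.co x = u
    generalize I.P y (I.M x) = v
    revert s u v
    decide
  have q3 : immJump I (fun z => I.P x z * I.P y z) y = I.P x y := by
    unfold immJump
    simp only [I.Pself, I.Pself', e3]
    generalize I.sg y = s
    generalize I.co y = u
    generalize I.P x y = v
    revert s u v
    decide
  have q4 : immJump I (fun z => I.P x z * I.P y z) (I.M y) = I.P x (I.M y) := by
    unfold immJump
    simp only [P_self_M, P_self_cM, e4]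
    generalize I.sg (I.M y) = s
    generalize I.co y = u
    generalize I.P x (I.M y) = v
    revert s u v
    decide
  rw [q1, q2, q3, q4] at hj
  exact hj

theorem Cross.imm_sep [Finite Ψ] {x y : Ψ} (h : I.Cross x y) :
    y ≠ x ∧ y ≠ I.c x ∧ y ≠ I.M x ∧ y ≠ I.c (I.M x) := by
  have hcol := h.col
  refine ⟨?_, ?_, ?_, ?_⟩ <;> rintro rfl <;> apply hcol
  · rfl
  · rw [I.colc]
  · rw [I.colM]
  · rw [I.colc, I.colM]

theorem imm_ne_iff (u v : F2) : u ≠ v ↔ v = u + 1 := by
  revert u v
  decide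

theorem Cross.imm_ne' [Finite Ψ] {x y : Ψ} (h : I.Cross x y) : I.P x y ≠ I.P x (I.M y) := by
  obtain ⟨h1, h2, h3, h4⟩ := h.imm_sep
  have hs := P_sum h.cd h1 h2 h3 h4
  have hne := h.ne
  revert hs hne
  generalize I.P y x = p
  generalize I.P y (I.M x) = q
  generalize I.P x y = r
  generalize I.P x (I.M y) = s
  revert p q r s
  decide

theorem Cross.sg [Finite Ψ] {x y : Ψ} (h : I.Cross x y) : I.sg y = I.sg x + 1 := by
  obtain ⟨h1, h2, h3, h4⟩ := h.imm_sep
  obtain ⟨k1, k2, k3, k4⟩ := imm_sep_symm h1 h2 h3 h4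
  have hcd : ∀ z, I.CD x z → I.CD y z := fun z hz => TMap.CD.trans (TMap.CD.symm h.cd) hz
  set f : Ψ → ℤ := fun z => if I.P x z = 1 ∧ I.P y z = 1 then 1 else 0 with hf
  have hj := imm_circle_four (I := I) f h.cd h1 h2 h3 h4
    (by
      intro z hz
      simp only [hf]
      rw [I.Pd x z hz, I.Pd y z (hcd z hz)])
    (by
      intro z hz a1 a2 a3 a4 b1 b2 b3 b4
      simp only [hf]
      rw [I.Pc x z hz a1 a2 a3 a4, I.Pc y z (hcd z hz) b1 b2 b3 b4])
  have hyx := TMap.CD.symm h.cd
  have e1 : I.P y (I.c x) = I.P y x := I.Pc y x hyx k1 k2 k3 k4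
  have e2 : I.P y (I.c (I.M x)) = I.P y (I.M x) := by
    obtain ⟨m1, m2, m3, m4⟩ := imm_sep_M k1 k2 k3 k4
    exact I.Pc y (I.M x) (TMap.CD.trans hyx (I.cdM x)) m1 m2 m3 m4
  have e3 : I.P x (I.c y) = I.P x y := I.Pc x y h.cd h1 h2 h3 h4
  have e4 : I.P x (I.c (I.M y)) = I.P x (I.M y) := by
    obtain ⟨m1, m2, m3, m4⟩ := imm_sep_M h1 h2 h3 h4
    exact I.Pc x (I.M y) (TMap.CD.trans h.cd (I.cdM y)) m1 m2 m3 m4
  have hne := h.ne
  have hne' := h.imm_ne'
  have heq := h.eq
  unfold immJump at hj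
  simp only [hf, I.Pself, I.Pself', P_self_M, P_self_cM, e1, e2, e3, e4, h.cox, h.coy, I.sgM] at hj
  revert hj hne hne' heq
  generalize I.P y x = p
  generalize I.P y (I.M x) = q
  generalize I.P x y = r
  generalize I.P x (I.M y) = s
  generalize I.sg x = u
  generalize I.sg y = v
  revert p q r s u v
  decide

theorem Cross.symm [Finite Ψ] {x y : Ψ} (h : I.Cross x y) : I.Cross y x where
  cd := TMap.CD.symm h.cd
  col := h.col.symm
  cox := h.coy
  coy := h.cox
  ne := h.imm_ne'
  eq := h.eq.symm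

theorem Cross.M [Finite Ψ] {x y : Ψ} (h : I.Cross x y) : I.Cross (I.M x) (I.M y) where
  cd := TMap.CD.trans (TMap.CD.symm (I.cdM x)) (TMap.CD.trans h.cd (I.cdM y))
  col := by
    rw [I.colM, I.colM]
    exact h.col
  cox := by rw [I.coM, h.cox]
  coy := by rw [I.coM, h.coy]
  ne := by
    have hyx := TMap.CD.symm h.cd
    rw [I.MM, P_M_left (TMap.CD.trans hyx (I.cdM x)), P_M_left hyx]
    exact h.ne.symm
  eq := by
    have hyx := TMap.CD.symm h.cd
    rw [P_M_left (TMap.CD.trans hyx (I.cdM x)), P_M_left (TMap.CD.trans h.cd (I.cdM y))]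
    have hne := h.ne
    have hne' := h.imm_ne'
    have heq := h.eq
    revert hne hne' heq
    generalize I.P y x = p
    generalize I.P y (I.M x) = q
    generalize I.P x y = r
    generalize I.P x (I.M y) = s
    revert p q r s
    decide

theorem Cross.a [Finite Ψ] {x y : Ψ} (h : I.Cross x y) : I.Cross (I.a x) (I.a y) where
  cd := imm_CD_a h.cd
  col := by
    rw [I.cola, I.cola, CD.kap h.cd]
    intro h'
    exact h.col (add_right_cancel h')
  cox := by rw [I.coa, h.cox]
  coy := by rw [I.coa, h.coy]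
  ne := by
    have hyx := TMap.CD.symm h.cd
    rw [← I.aM, P_a hyx, P_a (TMap.CD.trans hyx (I.cdM x))]
    exact h.ne
  eq := by
    rw [P_a (TMap.CD.symm h.cd), P_a h.cd]
    exact h.eq

theorem Cross.ne_M [Finite Ψ] {x y z : Ψ} (h : I.Cross x y) (h' : I.Cross x z) : z ≠ I.M y := by
  rintro rfl
  have heq := h'.eq
  rw [P_M_left (TMap.CD.symm h.cd), h.eq] at heq
  exact h.imm_ne' heq

/-- If the chords of `x` and `y` cross, then `(x, y)` or `(x, M y)` is a crossing. -/
theorem cross_or [Finite Ψ] {x y : Ψ} (h : I.CD x y) (h1 : I.col x ≠ I.col y) (h2 : I.co x = 0)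
    (h3 : I.co y = 0) (h4 : I.P y x ≠ I.P y (I.M x)) : I.Cross x y ∨ I.Cross x (I.M y) := by
  by_cases heq : I.P y x = I.P x y
  · left
    exact ⟨h, h1, h2, h3, h4, heq⟩
  · right
    have hyx := TMap.CD.symm h
    have hs := P_sum h (by rintro rfl; exact h1 rfl) (by rintro rfl; exact h1 (I.colc x).symm)
      (by rintro rfl; exact h1 (I.colM x).symm)
      (by rintro rfl; apply h1; rw [I.colc, I.colM])
    refine ⟨TMap.CD.trans h (I.cdM y), by rwa [I.colM], h2, by rwa [I.coM], ?_, ?_⟩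
    · rw [P_M_left hyx, P_M_left (TMap.CD.trans hyx (I.cdM x))]
      exact h4
    · rw [P_M_left hyx]
      revert hs h4 heq
      generalize I.P y x = p
      generalize I.P y (I.M x) = q
      generalize I.P x y = r
      generalize I.P x (I.M y) = s
      revert p q r s
      decide

/-- Two disjoint chords divide the disc into three regions. -/
theorem three [Finite Ψ] {x y z : Ψ} (hy : I.CD x y) (hz : I.CD x z) (hc : I.col y = I.col z)
    (h1 : z ≠ y) (h2 : z ≠ I.c y) (h3 : z ≠ I.M y) (h4 : z ≠ I.c (I.M y)) :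
    (I.P y x + I.P y z) * (I.P z x + I.P z y) = 0 := by
  obtain ⟨k1, k2, k3, k4⟩ := imm_sep_symm h1 h2 h3 h4
  have hyz : I.CD y z := TMap.CD.trans (TMap.CD.symm hy) hz
  have hzy := TMap.CD.symm hyz
  -- the side of `z` on the chord of `y` and conversely
  have z1 : I.P z (I.c y) = I.P z y := I.Pc z y hzy k1 k2 k3 k4
  have z2 : I.P z (I.M y) = I.P z y := I.PM z y hzy hc
  have z3 : I.P z (I.c (I.M y)) = I.P z y := by
    obtain ⟨m1, m2, m3, m4⟩ := imm_sep_M k1 k2 k3 k4
    rw [I.Pc z (I.M y) (TMap.CD.trans hzy (I.cdM y)) m1 m2 m3 m4, z2]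
  have y1 : I.P y (I.c z) = I.P y z := I.Pc y z hyz h1 h2 h3 h4
  have y2 : I.P y (I.M z) = I.P y z := I.PM y z hyz hc.symm
  have y3 : I.P y (I.c (I.M z)) = I.P y z := by
    obtain ⟨m1, m2, m3, m4⟩ := imm_sep_M h1 h2 h3 h4
    rw [I.Pc y (I.M z) (TMap.CD.trans hyz (I.cdM z)) m1 m2 m3 m4, y2]
  have key : (fun w => (I.P y w + I.P y z) * (I.P z w + I.P z y)) x =
      (fun w => (I.P y w + I.P y z) * (I.P z w + I.P z y)) y := by
    apply CD.eq_of (TMap.CD.symm hy)
    · intro w hw
      have hzw : I.CD z w := TMap.CD.trans hzy hw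
      show (I.P y (I.c w) + I.P y z) * (I.P z (I.c w) + I.P z y) =
        (I.P y w + I.P y z) * (I.P z w + I.P z y)
      by_cases a1 : w = y
      · subst a1
        rw [z1, imm_add_self, mul_zero, mul_zero]
      by_cases a2 : w = I.c y
      · subst a2
        rw [I.cc, z1, imm_add_self, mul_zero, mul_zero]
      by_cases a3 : w = I.M y
      · subst a3
        rw [z3, z2, imm_add_self, mul_zero, mul_zero]
      by_cases a4 : w = I.c (I.M y)
      · subst a4
        rw [I.cc, z3, z2, imm_add_self, mul_zero, mul_zero]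
      rw [I.Pc y w hw a1 a2 a3 a4]
      by_cases b1 : w = z
      · subst b1
        rw [imm_add_self, zero_mul, zero_mul]
      by_cases b2 : w = I.c z
      · subst b2
        rw [y1, imm_add_self, zero_mul, zero_mul]
      by_cases b3 : w = I.M z
      · subst b3
        rw [y2, imm_add_self, zero_mul, zero_mul]
      by_cases b4 : w = I.c (I.M z)
      · subst b4
        rw [y3, imm_add_self, zero_mul, zero_mul]
      rw [I.Pc z w hzw b1 b2 b3 b4]
    · intro w hw
      have hzw : I.CD z w := TMap.CD.trans hzy hw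
      show (I.P y (I.d w) + I.P y z) * (I.P z (I.d w) + I.P z y) =
        (I.P y w + I.P y z) * (I.P z w + I.P z y)
      rw [I.Pd y w hw, I.Pd z w hzw]
  have key' : (I.P y x + I.P y z) * (I.P z x + I.P z y) =
    (I.P y y + I.P y z) * (I.P z y + I.P z y) := key
  rw [key', imm_add_self (I.P z y), mul_zero]

/-- The crossing with `y` comes before the crossing with `z` on the chord of `x`. -/
def Lt (I : Imm Ψ) (x y z : Ψ) : Prop := y ≠ z ∧ I.P z y = I.P z x

theorem imm_cross_col [Finite Ψ] {x y z : Ψ} (hy : I.Cross x y) (hz : I.Cross x z) :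
    I.col y = I.col z := by
  have h1 := hy.col
  have h2 := hz.col
  revert h1 h2
  generalize I.col x = p
  generalize I.col y = q
  generalize I.col z = r
  revert p q r
  decide

theorem imm_cross_sep [Finite Ψ] {x y z : Ψ} (hy : I.Cross x y) (hz : I.Cross x z) (h : y ≠ z) :
    z ≠ y ∧ z ≠ I.c y ∧ z ≠ I.M y ∧ z ≠ I.c (I.M y) := by
  have hcy := hy.coy
  have hcz := hz.coy
  refine ⟨h.symm, ?_, hy.ne_M hz, ?_⟩
  · rintro rfl
    rw [I.coc, hcy] at hcz
    revert hcz
    decide
  · rintro rfl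
    rw [I.coc, I.coM, hcy] at hcz
    revert hcz
    decide

theorem imm_three_cross [Finite Ψ] {x y z : Ψ} (hy : I.Cross x y) (hz : I.Cross x z)
    (h : y ≠ z) (w : Ψ) (hw : I.CD x w) :
    (I.P y w + I.P y z) * (I.P z w + I.P z y) = 0 := by
  obtain ⟨h1, h2, h3, h4⟩ := imm_cross_sep hy hz h
  have hwx := TMap.CD.symm hw
  exact three (TMap.CD.trans hwx hy.cd) (TMap.CD.trans hwx hz.cd) (imm_cross_col hy hz) h1 h2 h3 h4

theorem lt_or_lt [Finite Ψ] {x y z : Ψ} (hy : I.Cross x y) (hz : I.Cross x z) (h : y ≠ z) :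
    I.Lt x y z ∨ I.Lt x z y := by
  have h3 := imm_three_cross hy hz h x (TMap.CD.refl _ x)
  rcases mul_eq_zero.1 h3 with h4 | h4
  · right
    exact ⟨h.symm, (imm_eq_of_add _ _ h4).symm⟩
  · left
    exact ⟨h, (imm_eq_of_add _ _ h4).symm⟩

theorem not_lt_lt [Finite Ψ] {x y z : Ψ} (hy : I.Cross x y) (hz : I.Cross x z)
    (h : I.Lt x y z) : ¬ I.Lt x z y := by
  intro h'
  have h3 := imm_three_cross hy hz h.1 (I.M x) (I.cdM x)
  have h4 := h.2
  have h5 := h'.2
  have h6 := hy.ne
  have h7 := hz.ne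
  revert h3 h4 h5 h6 h7
  generalize I.P y (I.M x) = p1
  generalize I.P y z = p2
  generalize I.P z (I.M x) = p3
  generalize I.P z y = p4
  generalize I.P y x = p5
  generalize I.P z x = p6
  revert p1 p2 p3 p4 p5 p6
  decide

theorem lt_trans [Finite Ψ] {x y z w : Ψ} (hy : I.Cross x y) (hz : I.Cross x z)
    (hw : I.Cross x w) (h : I.Lt x y z) (h' : I.Lt x z w) : I.Lt x y w := by
  have hyw : y ≠ w := by
    rintro rfl
    exact not_lt_lt hy hz h h'
  refine ⟨hyw, ?_⟩
  have h3 := imm_three_cross hz hw h'.1 y hy.cd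
  have h4 : I.P z w ≠ I.P z x := fun h4 => not_lt_lt hz hw h' ⟨h'.1.symm, h4⟩
  have h5 := h.2
  have h6 := h'.2
  revert h3 h4 h5 h6
  generalize I.P z y = p1
  generalize I.P z w = p2
  generalize I.P w y = p3
  generalize I.P w z = p4
  generalize I.P z x = p5
  generalize I.P w x = p6
  revert p1 p2 p3 p4 p5 p6
  decide

theorem lt_M [Finite Ψ] {x y z : Ψ} (hy : I.Cross x y) (hz : I.Cross x z) :
    I.Lt (I.M x) (I.M z) (I.M y) ↔ I.Lt x y z := by
  have hyx := TMap.CD.symm hy.cd
  have hyz := TMap.CD.trans hyx hz.cd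
  have e1 : I.P (I.M y) (I.M z) = I.P y z := by
    rw [P_M_left (TMap.CD.trans hyz (I.cdM z)), I.PM y z hyz (imm_cross_col hz hy)]
  have e2 : I.P (I.M y) (I.M x) = I.P y (I.M x) := P_M_left (TMap.CD.trans hyx (I.cdM x))
  have hne := hy.ne
  unfold Lt
  rw [e1, e2]
  constructor
  · rintro ⟨h1, h2⟩
    have hyz : y ≠ z := by
      rintro rfl
      exact h1 rfl
    rcases lt_or_lt hy hz hyz with h | h
    · exact h
    · exfalso
      have h3 := h.2
      rw [h2] at h3
      exact hne h3.symm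
  · intro h
    refine ⟨?_, ?_⟩
    · intro h1
      apply h.1
      rw [← I.MM y, ← h1, I.MM]
    · have h4 : I.P y z ≠ I.P y x := fun h4 => not_lt_lt hy hz h ⟨h.1.symm, h4⟩
      revert h4 hne
      generalize I.P y z = p1
      generalize I.P y x = p2
      generalize I.P y (I.M x) = p3
      revert p1 p2 p3
      decide

theorem lt_a [Finite Ψ] {x y z : Ψ} (hy : I.Cross x y) (hz : I.Cross x z) :
    I.Lt (I.a x) (I.a y) (I.a z) ↔ I.Lt x y z := by
  have hzx := TMap.CD.symm hz.cd
  unfold Lt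
  rw [P_a (TMap.CD.trans hzx hy.cd), P_a hzx]
  constructor
  · rintro ⟨h1, h2⟩
    refine ⟨?_, h2⟩
    rintro rfl
    exact h1 rfl
  · rintro ⟨h1, h2⟩
    refine ⟨?_, h2⟩
    intro h
    apply h1
    rw [← I.aa y, h, I.aa]

/-- A chord `w` of the other colour which does not cross the chord of `x` does not separate `x` from
the crossings on the chord of `x`. -/
theorem P_of_not_cross [Finite Ψ] {x y w : Ψ} (hy : I.Cross x y) (hw : I.CD x w)
    (hc : I.col w = I.col y) (h : I.P w x = I.P w (I.M x)) : I.P w y = I.P w x := by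
  have hyx := TMap.CD.symm hy.cd
  have hyMx := TMap.CD.trans hyx (I.cdM x)
  have hne := hy.ne
  -- `w` is not on the chord of `y`
  have n1 : w ≠ y := by
    rintro rfl
    exact hne h
  have n2 : w ≠ I.c y := by
    rintro rfl
    rw [P_c_left hyx, P_c_left hyMx] at h
    exact hne h
  have n3 : w ≠ I.M y := by
    rintro rfl
    rw [P_M_left hyx, P_M_left hyMx] at h
    exact hne h
  have n4 : w ≠ I.c (I.M y) := by
    rintro rfl
    have hMyx := TMap.CD.trans (TMap.CD.symm (I.cdM y)) hyx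
    have hMyMx := TMap.CD.trans hMyx (I.cdM x)
    rw [P_c_left hMyx, P_c_left hMyMx, P_M_left hyx, P_M_left hyMx] at h
    exact hne h
  have t1 := three hy.cd hw hc.symm n1 n2 n3 n4
  have t2 := three (TMap.CD.trans (TMap.CD.symm (I.cdM x)) hy.cd)
    (TMap.CD.trans (TMap.CD.symm (I.cdM x)) hw) hc.symm n1 n2 n3 n4
  revert t1 t2 h hne
  generalize I.P y x = p1
  generalize I.P y w = p2
  generalize I.P w x = p3
  generalize I.P w y = p4
  generalize I.P y (I.M x) = p5
  generalize I.P w (I.M x) = p6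
  revert p1 p2 p3 p4 p5 p6
  decide

end Imm

end Pool.Agent.Lib.MP_131179_gt.Dehn
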