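import Pool.Agent.Lib.MP_131179_gt.Dehn.Ops
import Pool.Agent.Lib.MP_131179_gt.Dehn.Imm

/-!
# Embedded spheres carried by a complex
-/

set_option autoImplicit false

namespace Pool.Agent.Lib.MP_131179_gt.Dehn

/-- A system of embedded spheres carried by a two-dimensional complex: `n x` parallel copies of the
face of `x`, joined near the edges by chords (`M` exchanges the two ends of a chord). -/
structure Carried {Φ : Type} (V : TMap Φ) where
  n : Φ → ℕ
  hn : V.Mul n
  fin : Finite (Fl n)
  M : Fl n → Fl n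
  MM : ∀ p, M (M p) = p
  aM : ∀ p, hn.fa (M p) = M (hn.fa p)
  cM : ∀ p, hn.fc (M p) = M (hn.fc p)
  sgM : ∀ p, V.sg (M p).1.1 = V.sg p.1.1 + 1
  cdM : ∀ p, V.CD p.1.1 (M p).1.1

namespace Carried

variable {Φ : Type} {V : TMap Φ} (S : Carried V)

/-- The points and sides of the chord of `p`. -/
def Own (p q : Fl S.n) : Prop := q = p ∨ q = S.hn.fc p ∨ q = S.M p ∨ q = S.hn.fc (S.M p)

/-- The side of the chord of `p` on which `q` is, computed from the values `G` on the gaps of `V`. -/
noncomputable def side (p : Fl S.n) (G : Φ → F2) (q : Fl S.n) : F2 :=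
  G q.1.1 + TMap.below (S.Own p) q.1.1 q.1.2

/-- The function `G` on the gaps is a side function of the chord of `p`. -/
structure IsSide (p : Fl S.n) (G : Φ → F2) : Prop where
  d : ∀ x, G (V.d x) = G x
  c : ∀ x, G x + G (V.c x) = TMap.below (S.Own p) x (S.n x)

/-- The surface is a sphere which passes exactly once over the face of `h0`. -/
structure IsGood (h0 : Φ) : Prop where
  /-- the chords are disjoint -/
  nc : ∀ p, ∃ G, S.IsSide p G ∧ ∀ q, S.side p G (S.M q) = S.side p G q
  conn : ∀ g ∈ Inv [S.hn.fa, S.hn.fb, S.hn.fc, S.M], ∀ p q, g p = g q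
  sph : 4 * (orb [S.hn.fa, S.hn.fb] + orb [S.hn.fb, S.M]) = Nat.card (Fl S.n) + 16
  h0 : S.n h0 = 1

end Carried

/-- There is an embedded sphere carried by `V` which passes exactly once over the face of `h0`. -/
def GoodSphere {Φ : Type} (V : TMap Φ) (h0 : Φ) : Prop := ∃ S : Carried V, S.IsGood h0

end Pool.Agent.Lib.MP_131179_gt.Dehn
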