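import Pool.Agent.Lib.MP_131179_gt.Dehn.Attach

/-!
# The fundamental group of a two-dimensional complex
-/

set_option autoImplicit false

namespace Pool.Agent.Lib.MP_131179_gt.Dehn

namespace TMap

variable {Φ : Type} (E : TMap Φ)

/-- The closed walk `w` starting at `x` is null-homotopic. -/
def NH (x : Φ) (w : List Gen) : Prop := ∃ S N, E.Null E.isSub_top x w S N

variable {E}

theorem NH.closed {x : Φ} {w : List Gen} (h : E.NH x w) : E.act E.isSub_top w x = x := by
  obtain ⟨S, N, h⟩ := h
  exact h.closed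

theorem NH.vert {x : Φ} {w : List Gen} (hw : Gen.a ∉ w) (h : E.act E.isSub_top w x = x) :
    E.NH x w :=
  ⟨_, _, Null.vert x trivial w hw h⟩

theorem NH.ins {x : Φ} {u v r : List Gen} (h : E.NH x (u ++ v))
    (h' : E.NH (E.act E.isSub_top u x) r) : E.NH x (u ++ (r ++ v)) := by
  obtain ⟨S, N, h⟩ := h
  obtain ⟨S', N', h'⟩ := h'
  exact ⟨_, _, Null.ins h h'⟩

theorem NH.del {x : Φ} {u v r : List Gen} (h : E.NH x (u ++ (r ++ v)))
    (h' : E.NH (E.act E.isSub_top u x) r) : E.NH x (u ++ v) := by
  obtain ⟨S, N, h⟩ := h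
  obtain ⟨S', N', h'⟩ := h'
  exact ⟨_, _, Null.del h h'⟩

theorem grp_gen_e (x : Φ) : E.gen E.isSub_top .e x = E.d x := E.ret_top x

theorem grp_gen_gen (g : Gen) (x : Φ) :
    E.gen E.isSub_top g (E.gen E.isSub_top g x) = x := by
  cases g with
  | a => exact E.aa x
  | b => exact E.bb x
  | c => exact E.cc x
  | e => rw [grp_gen_e, grp_gen_e, E.dd]

theorem grp_act_cons (g : Gen) (w : List Gen) (x : Φ) :
    E.act E.isSub_top (g :: w) x = E.act E.isSub_top w (E.gen E.isSub_top g x) := rfl

/-- Walking back. -/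
theorem act_reverse (w : List Gen) (x : Φ) :
    E.act E.isSub_top w.reverse (E.act E.isSub_top w x) = x := by
  induction w generalizing x with
  | nil => rfl
  | cons g w ih =>
    rw [List.reverse_cons, act_append]
    show E.gen E.isSub_top g (E.act E.isSub_top w.reverse
      (E.act E.isSub_top w (E.gen E.isSub_top g x))) = x
    rw [ih]
    exact grp_gen_gen g x

theorem grp_act_reverse' (w : List Gen) (x : Φ) :
    E.act E.isSub_top w (E.act E.isSub_top w.reverse x) = x := by
  have h := act_reverse (E := E) w.reverse x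
  rwa [List.reverse_reverse] at h

theorem grp_NH_gg (g : Gen) (x : Φ) : E.NH x [g, g] := by
  cases g with
  | a => exact ⟨_, _, Null.back x trivial⟩
  | b => exact NH.vert (by simp) (grp_gen_gen (E := E) .b x)
  | c => exact NH.vert (by simp) (grp_gen_gen (E := E) .c x)
  | e => exact NH.vert (by simp) (grp_gen_gen (E := E) .e x)

theorem NH.back (w : List Gen) (x : Φ) : E.NH x (w ++ w.reverse) := by
  induction w generalizing x with
  | nil => exact ⟨_, _, Null.nil x trivial⟩
  | cons g w ih =>
    have h := NH.ins (u := [g]) (v := [g]) (grp_NH_gg (E := E) g x) (ih (E.gen E.isSub_top g x))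
    have e : (g :: w) ++ (g :: w).reverse = [g] ++ ((w ++ w.reverse) ++ [g]) := by
      simp
    rw [e]
    exact h

theorem grp_back' (w : List Gen) (x : Φ) : E.NH x (w.reverse ++ w) := by
  have h := NH.back (E := E) w.reverse x
  rwa [List.reverse_reverse] at h

theorem grp_iter_b (j : ℕ) (x : Φ) : (fun y => E.b (E.a y))^[j] (E.b x) =
    E.b ((fun y => E.a (E.b y))^[j] x) := by
  induction j generalizing x with
  | zero => rfl
  | succ j ih =>
    rw [Function.iterate_succ_apply, Function.iterate_succ_apply]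
    exact ih _

theorem grp_iter_inv (j : ℕ) (x : Φ) : (fun y => E.a (E.b y))^[j]
    ((fun y => E.b (E.a y))^[j] x) = x := by
  induction j generalizing x with
  | zero => rfl
  | succ j ih =>
    rw [Function.iterate_succ_apply, Function.iterate_succ_apply']
    have h : E.a (E.b (E.b (E.a ((fun y => E.b (E.a y))^[j] x)))) =
        (fun y => E.b (E.a y))^[j] x := by
      rw [E.bb, E.aa]
    show (fun y => E.a (E.b y))^[j] (E.a (E.b (E.b (E.a ((fun y => E.b (E.a y))^[j] x))))) = x
    rw [h, ih]

theorem grp_iter_iff (j : ℕ) (x : Φ) : (fun y => E.b (E.a y))^[j] (E.b x) = E.b x ↔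
    (fun y => E.b (E.a y))^[j] x = x := by
  rw [grp_iter_b]
  constructor
  · intro h
    have h1 : (fun y => E.a (E.b y))^[j] x = x := by
      have h2 := congrArg E.b h
      rwa [E.bb, E.bb] at h2
    have h3 := grp_iter_inv (E := E) j x
    have hinj : Function.Injective ((fun y => E.a (E.b y))^[j]) := by
      apply Function.Injective.iterate
      intro y z hyz
      simp only at hyz
      have h4 := congrArg E.a hyz
      rw [E.aa, E.aa] at h4
      have h5 := congrArg E.b h4
      rwa [E.bb, E.bb] at h5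
    apply hinj
    rw [h3, h1]
  · intro h
    have h3 := grp_iter_inv (E := E) j x
    rw [h] at h3
    rw [h3]

theorem FaceSize.b {x : Φ} {k : ℕ} (h : E.FaceSize x k) : E.FaceSize (E.b x) k := by
  obtain ⟨h1, h2, h3⟩ := h
  refine ⟨h1, (grp_iter_iff k x).2 h2, ?_⟩
  intro j hj hjk h4
  exact h3 j hj hjk ((grp_iter_iff j x).1 h4)

theorem grp_fw_succ (k : ℕ) : fw (k + 1) = fw k ++ [.a, .b] := by
  induction k with
  | zero => rfl
  | succ k ih =>
    show Gen.a :: Gen.b :: fw (k + 1) = _
    conv_lhs => rw [ih]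
    rfl

theorem grp_fw_rev (k : ℕ) : (fw k).reverse ++ [Gen.b] = Gen.b :: fw k := by
  induction k with
  | zero => rfl
  | succ k ih =>
    have h : (fw (k + 1)).reverse = (fw k).reverse ++ [Gen.b] ++ [Gen.a] := by
      show (Gen.a :: Gen.b :: fw k).reverse = _
      simp
    rw [h, ih, grp_fw_succ]
    simp

theorem NH.reverse {x : Φ} {w : List Gen} (h : E.NH x w) : E.NH x w.reverse := by
  obtain ⟨S, N, h⟩ := h
  induction h with
  | nil x hx => exact ⟨_, _, Null.nil x trivial⟩
  | vert x hx w hw hc =>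
    apply NH.vert
    · simpa using hw
    · have h := act_reverse (E := E) w x
      rwa [hc] at h
  | back x hx => exact ⟨_, _, Null.back x trivial⟩
  | comm x hx g hg =>
    have h1 : E.NH (E.gen E.isSub_top g x) [.a, g, .a, g] := ⟨_, _, Null.comm _ trivial g hg⟩
    have h2 := NH.ins (u := [g]) (v := [g]) (grp_NH_gg (E := E) g x) h1
    have h3 : E.NH x ([g, .a, g, .a] ++ ([g, g] ++ [])) := h2
    exact NH.del (v := []) h3 (grp_NH_gg g _)
  | face x hx k hk =>
    have h1 : E.NH (E.gen E.isSub_top .b x) (fw k) := ⟨_, _, Null.face _ trivial k hk.b⟩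
    have h2 := NH.ins (u := [.b]) (v := [.b]) (grp_NH_gg (E := E) .b x) h1
    have h3 : E.NH x ((fw k).reverse ++ ([.b, .b] ++ [])) := by
      have e : (fw k).reverse ++ ([Gen.b, .b] ++ []) = [Gen.b] ++ (fw k ++ [.b]) := by
        have e1 : (fw k).reverse ++ ([Gen.b, .b] ++ []) = ((fw k).reverse ++ [Gen.b]) ++ [.b] := by
          simp
        rw [e1, grp_fw_rev]
        rfl
      rw [e]
      exact h2
    have h4 := NH.del (v := []) h3 (grp_NH_gg .b _)
    rwa [List.append_nil] at h4
  | @ins x u v r S S' N N' h h' ih ih' =>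
    have hc := h.closed
    rw [act_append] at hc
    have h1 : E.act E.isSub_top v.reverse x = E.act E.isSub_top u x := by
      have h2 := act_reverse (E := E) v (E.act E.isSub_top u x)
      rwa [hc] at h2
    have e : (u ++ (r ++ v)).reverse = v.reverse ++ (r.reverse ++ u.reverse) := by simp
    rw [e]
    apply NH.ins
    · rwa [List.reverse_append] at ih
    · rw [h1]
      exact ih'
  | @del x u v r S S' N N' h h' ih ih' =>
    have hc := h.closed
    rw [act_append, act_append, h'.closed] at hc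
    have h1 : E.act E.isSub_top v.reverse x = E.act E.isSub_top u x := by
      have h2 := act_reverse (E := E) v (E.act E.isSub_top u x)
      rwa [hc] at h2
    have e : (u ++ (r ++ v)).reverse = v.reverse ++ (r.reverse ++ u.reverse) := by simp
    rw [e] at ih
    rw [List.reverse_append]
    apply NH.del ih
    rw [h1]
    exact ih'

/-- Free homotopies. -/
theorem NH.conj {x : Φ} {u w : List Gen} (h : E.NH x (u ++ (w ++ u.reverse))) :
    E.NH (E.act E.isSub_top u x) w := by
  have h1 := NH.ins (u := u.reverse) (v := u) (grp_back' (E := E) u (E.act E.isSub_top u x))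
    (r := u ++ (w ++ u.reverse)) (by rw [act_reverse]; exact h)
  have e1 : u.reverse ++ ((u ++ (w ++ u.reverse)) ++ u) =
      [] ++ ((u.reverse ++ u) ++ (w ++ (u.reverse ++ u))) := by simp
  rw [e1] at h1
  have h2 := NH.del h1 (grp_back' u _)
  have e2 : [] ++ (w ++ (u.reverse ++ u)) = w ++ ((u.reverse ++ u) ++ []) := by simp
  rw [e2] at h2
  have h3 := NH.del h2 (grp_back' u _)
  rwa [List.append_nil] at h3

/-! ### The group -/

/-- Closed words. -/
def GrpC (E : TMap Φ) (x0 : Φ) : Type := {w : List Gen // E.act E.isSub_top w x0 = x0}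

theorem grp_closed_append {x0 : Φ} {u v : List Gen} (hu : E.act E.isSub_top u x0 = x0)
    (hv : E.act E.isSub_top v x0 = x0) : E.act E.isSub_top (u ++ v) x0 = x0 := by
  rw [act_append, hu, hv]

theorem grp_closed_reverse {x0 : Φ} {u : List Gen} (hu : E.act E.isSub_top u x0 = x0) :
    E.act E.isSub_top u.reverse x0 = x0 := by
  have h := act_reverse (E := E) u x0
  rwa [hu] at h

theorem grp_mul {x : Φ} {u v : List Gen} (hu : E.NH x u) (hv : E.NH x v) : E.NH x (u ++ v) := by
  have h := NH.ins (u := u) (v := []) (r := v) (by rw [List.append_nil]; exact hu)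
    (by rw [hu.closed]; exact hv)
  rwa [List.append_nil] at h

theorem grp_trans {x0 : Φ} {u v w : List Gen} (h : E.NH x0 (u ++ v.reverse))
    (h' : E.NH x0 (v ++ w.reverse)) : E.NH x0 (u ++ w.reverse) := by
  have h1 := grp_mul h h'
  have e : (u ++ v.reverse) ++ (v ++ w.reverse) = u ++ ((v.reverse ++ v) ++ w.reverse) := by simp
  rw [e] at h1
  exact NH.del h1 (grp_back' v _)

theorem grp_symm {x0 : Φ} {u v : List Gen} (h : E.NH x0 (u ++ v.reverse)) :
    E.NH x0 (v ++ u.reverse) := by
  have h1 := h.reverse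
  rwa [List.reverse_append, List.reverse_reverse] at h1

theorem grp_inv {x0 : Φ} {u v : List Gen} (hv : E.act E.isSub_top v x0 = x0)
    (h : E.NH x0 (u ++ v.reverse)) : E.NH x0 (u.reverse ++ v) := by
  have h1 := grp_mul (grp_symm h) (NH.back (E := E) v x0)
  have e : (v ++ u.reverse) ++ (v ++ v.reverse) = v ++ ((u.reverse ++ v) ++ v.reverse) := by simp
  rw [e] at h1
  have h2 := NH.conj h1
  rwa [hv] at h2

/-- Homotopy of closed words. -/
def grpSetoid (E : TMap Φ) (x0 : Φ) : Setoid (GrpC E x0) where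
  r u v := E.NH x0 (u.1 ++ v.1.reverse)
  iseqv :=
    { refl := fun u => NH.back u.1 x0
      symm := fun h => grp_symm h
      trans := fun h h' => grp_trans h h' }

/-- The fundamental group. -/
def GrpQ (E : TMap Φ) (x0 : Φ) : Type := Quotient (grpSetoid E x0)

/-- The class of a closed word. -/
def grpMk (E : TMap Φ) (x0 : Φ) (u : GrpC E x0) : GrpQ E x0 := Quotient.mk (grpSetoid E x0) u

theorem grpMk_eq {x0 : Φ} {u v : GrpC E x0} : grpMk E x0 u = grpMk E x0 v ↔
    E.NH x0 (u.1 ++ v.1.reverse) :=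
  ⟨fun h => Quotient.exact h, fun h => Quotient.sound h⟩

/-- Concatenation. -/
def grpMul (E : TMap Φ) (x0 : Φ) (u v : GrpC E x0) : GrpC E x0 :=
  ⟨u.1 ++ v.1, grp_closed_append u.2 v.2⟩

/-- The reversed word. -/
def grpInv (E : TMap Φ) (x0 : Φ) (u : GrpC E x0) : GrpC E x0 :=
  ⟨u.1.reverse, grp_closed_reverse u.2⟩

/-- The empty word. -/
def grpOne (E : TMap Φ) (x0 : Φ) : GrpC E x0 := ⟨[], rfl⟩

instance grpGroup (E : TMap Φ) (x0 : Φ) : Group (GrpQ E x0) where
  mul := Quotient.map₂ (grpMul E x0) (by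
    intro u u' hu v v' hv
    have hu' : E.NH x0 (u.1 ++ u'.1.reverse) := hu
    have hv' : E.NH x0 (v.1 ++ v'.1.reverse) := hv
    show E.NH x0 ((u.1 ++ v.1) ++ (u'.1 ++ v'.1).reverse)
    have h := NH.ins hu' (r := v.1 ++ v'.1.reverse) (by rw [u.2]; exact hv')
    have e : (u.1 ++ v.1) ++ (u'.1 ++ v'.1).reverse =
        u.1 ++ ((v.1 ++ v'.1.reverse) ++ u'.1.reverse) := by simp
    rw [e]
    exact h)
  one := grpMk E x0 (grpOne E x0)
  inv := Quotient.map (grpInv E x0) (by
    intro u v h
    have h' : E.NH x0 (u.1 ++ v.1.reverse) := h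
    show E.NH x0 (u.1.reverse ++ v.1.reverse.reverse)
    rw [List.reverse_reverse]
    exact grp_inv v.2 h')
  mul_assoc := by
    intro u v w
    induction u using Quotient.inductionOn with | _ u =>
    induction v using Quotient.inductionOn with | _ v =>
    induction w using Quotient.inductionOn with | _ w =>
    show grpMk E x0 (grpMul E x0 (grpMul E x0 u v) w) =
      grpMk E x0 (grpMul E x0 u (grpMul E x0 v w))
    congr 1
    exact Subtype.ext (List.append_assoc _ _ _)
  one_mul := by
    intro u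
    induction u using Quotient.inductionOn with | _ u =>
    rfl
  mul_one := by
    intro u
    induction u using Quotient.inductionOn with | _ u =>
    show grpMk E x0 (grpMul E x0 u (grpOne E x0)) = grpMk E x0 u
    congr 1
    exact Subtype.ext (List.append_nil _)
  inv_mul_cancel := by
    intro u
    induction u using Quotient.inductionOn with | _ u =>
    show grpMk E x0 (grpMul E x0 (grpInv E x0 u) u) = grpMk E x0 (grpOne E x0)
    rw [grpMk_eq]
    show E.NH x0 ((u.1.reverse ++ u.1) ++ [])
    rw [List.append_nil]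
    exact grp_back' _ _

theorem grp_mk_mul {x0 : Φ} (u v : GrpC E x0) :
    grpMk E x0 u * grpMk E x0 v = grpMk E x0 (grpMul E x0 u v) := rfl

theorem grp_mk_one {x0 : Φ} : (1 : GrpQ E x0) = grpMk E x0 (grpOne E x0) := rfl

theorem grp_mk_eq_one {x0 : Φ} {u : GrpC E x0} : grpMk E x0 u = 1 ↔ E.NH x0 u.1 := by
  rw [grp_mk_one, grpMk_eq]
  show E.NH x0 (u.1 ++ []) ↔ _
  rw [List.append_nil]

section pi

variable {x0 : Φ} {p : Φ → List Gen} (hp : ∀ y, E.act E.isSub_top (p y) x0 = y)

include hp in
theorem grp_K_closed (y : Φ) (w : List Gen) :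
    E.act E.isSub_top (p y ++ (w ++ (p (E.act E.isSub_top w y)).reverse)) x0 = x0 := by
  rw [act_append, hp, act_append]
  have h := act_reverse (E := E) (p (E.act E.isSub_top w y)) x0
  rwa [hp] at h

/-- The loop belonging to the walk `w` starting at `y`. -/
noncomputable def grpK (y : Φ) (w : List Gen) : GrpC E x0 :=
  ⟨p y ++ (w ++ (p (E.act E.isSub_top w y)).reverse), grp_K_closed hp y w⟩

/-- The class of the loop belonging to the walk `w` starting at `y`. -/
noncomputable def grpCl (y : Φ) (w : List Gen) : GrpQ E x0 :=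
  grpMk E x0 (grpK hp y w)

theorem grp_cl_one_iff (y : Φ) (w : List Gen) : grpCl hp y w = 1 ↔
    E.NH x0 (p y ++ (w ++ (p (E.act E.isSub_top w y)).reverse)) := grp_mk_eq_one

theorem grp_cl_nil (y : Φ) : grpCl hp y [] = 1 := by
  rw [grp_cl_one_iff]
  exact NH.back _ _

theorem grp_cl_cons (y : Φ) (g : Gen) (w : List Gen) :
    grpCl hp y (g :: w) = grpCl hp y [g] * grpCl hp (E.gen E.isSub_top g y) w := by
  symm
  unfold grpCl
  rw [grp_mk_mul, grpMk_eq]
  set z := E.gen E.isSub_top g y with hz
  have e : (grpMul E x0 (grpK hp y [g]) (grpK hp z w)).1 =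
      (p y ++ [g]) ++ (((p z).reverse ++ p z) ++ (w ++ (p (E.act E.isSub_top w z)).reverse)) := by
    show (p y ++ ([g] ++ (p z).reverse)) ++ (p z ++ (w ++ (p (E.act E.isSub_top w z)).reverse)) = _
    simp
  rw [e]
  have e2 : E.act E.isSub_top (g :: w) y = E.act E.isSub_top w z := rfl
  have h1 : E.NH x0 ((p y ++ ((g :: w) ++ (p (E.act E.isSub_top (g :: w) y)).reverse)) ++
      (p y ++ ((g :: w) ++ (p (E.act E.isSub_top (g :: w) y)).reverse)).reverse) := NH.back _ _
  rw [e2] at h1
  have e3 : (p y ++ ((g :: w) ++ (p (E.act E.isSub_top w z)).reverse)) ++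
      (p y ++ ((g :: w) ++ (p (E.act E.isSub_top w z)).reverse)).reverse =
      (p y ++ [g]) ++ ((w ++ (p (E.act E.isSub_top w z)).reverse) ++
      (p y ++ ((g :: w) ++ (p (E.act E.isSub_top w z)).reverse)).reverse) := by simp
  rw [e3] at h1
  have h2 := NH.ins h1 (grp_back' (p z) _)
  have e4 : ((p y ++ [g]) ++ (((p z).reverse ++ p z) ++
      (w ++ (p (E.act E.isSub_top w z)).reverse))) ++
      (p y ++ ((g :: w) ++ (p (E.act E.isSub_top w z)).reverse)).reverse =
      (p y ++ [g]) ++ (((p z).reverse ++ p z) ++ ((w ++ (p (E.act E.isSub_top w z)).reverse) ++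
      (p y ++ ((g :: w) ++ (p (E.act E.isSub_top w z)).reverse)).reverse)) := by
    simp only [List.append_assoc]
  show E.NH x0 (((p y ++ [g]) ++ (((p z).reverse ++ p z) ++
      (w ++ (p (E.act E.isSub_top w z)).reverse))) ++
      (p y ++ ((g :: w) ++ (p (E.act E.isSub_top w z)).reverse)).reverse)
  rw [e4]
  exact h2

theorem grp_cl_NH {y : Φ} {w : List Gen} (h : E.NH y w) : grpCl hp y w = 1 := by
  rw [grp_cl_one_iff, h.closed]
  exact NH.ins (NH.back (p y) x0) (by rw [hp]; exact h)

theorem grp_NH_cl {y : Φ} {w : List Gen} (hw : E.act E.isSub_top w y = y)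
    (h : grpCl hp y w = 1) : E.NH y w := by
  rw [grp_cl_one_iff, hw] at h
  have h1 := NH.conj h
  rwa [hp] at h1

theorem grp_cl_ev (hv : ∀ y g, g ≠ .a → E.NH x0 (p y ++ g ::
    (p (E.gen E.isSub_top g y)).reverse)) (y : Φ) (w : List Gen) :
    grpCl hp y w = E.ev (fun y => grpCl hp y [.a]) w y := by
  induction w generalizing y with
  | nil => exact grp_cl_nil hp y
  | cons g w ih =>
    rw [grp_cl_cons, ih]
    show _ = (if g = .a then grpCl hp y [.a] else 1) * _
    by_cases hg : g = .a
    · subst hg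
      rw [if_pos rfl]
    · rw [if_neg hg]
      congr 1
      rw [grp_cl_one_iff]
      exact hv y g hg

end pi

/-- **The fundamental group.** Let `x0` be a base point, and let `p y` be paths from `x0` to all flags `y`,
such that the loops belonging to the generators different from `a` are null-homotopic.  Then
there is a group with elements `el y` for all edges (flags) `y` with the following
properties. -/
theorem exists_pi (E : TMap Φ) (x0 : Φ) (p : Φ → List Gen)
    (hp : ∀ y, E.act E.isSub_top (p y) x0 = y)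
    (hv : ∀ y g, g ≠ .a → E.NH x0 (p y ++ g :: (p (E.gen E.isSub_top g y)).reverse)) :
    ∃ (Γ : Type) (_ : Group Γ) (el : Φ → Γ), (∀ y, el (E.a y) = (el y)⁻¹) ∧
      (∀ y, el (E.c y) = el y) ∧ (∀ y, el (E.d y) = el y) ∧
      (∀ y k, E.FaceSize y k → E.ev el (fw k) y = 1) ∧
      (∀ y, E.NH x0 (p y ++ .a :: (p (E.a y)).reverse) → el y = 1) ∧
      ∀ y w, E.act E.isSub_top w y = y → E.ev el w y = 1 → E.NH y w := by
  have hev := grp_cl_ev hp hv
  have ha : ∀ y, grpCl hp (E.a y) [.a] = (grpCl hp y [.a])⁻¹ := by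
    intro y
    have h1 := grp_cl_NH hp (grp_NH_gg (E := E) .a y)
    rw [grp_cl_cons hp y .a [.a]] at h1
    exact (inv_eq_of_mul_eq_one_right h1).symm
  have hcomm : ∀ y g, g = .c ∨ g = .e →
      grpCl hp (E.gen E.isSub_top g y) [.a] = grpCl hp y [.a] := by
    intro y g hg
    have hg' : g ≠ .a := by rcases hg with rfl | rfl <;> simp
    have h1 : E.NH (E.a y) [.a, g, .a, g] := ⟨_, _, Null.comm _ trivial g hg⟩
    have h2 := grp_cl_NH hp h1
    have h3 : ∀ z, grpCl hp z [g] = 1 := fun z => by
      rw [grp_cl_one_iff]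
      exact hv z g hg'
    rw [grp_cl_cons hp (E.a y) .a [g, .a, g], grp_cl_cons hp _ g [.a, g],
      grp_cl_cons hp _ .a [g], h3, h3, one_mul, mul_one] at h2
    have e : E.gen E.isSub_top .a (E.a y) = y := E.aa y
    rw [e] at h2
    rw [ha] at h2
    exact (inv_mul_eq_one.1 h2).symm
  refine ⟨GrpQ E x0, inferInstance, fun y => grpCl hp y [.a], ha,
    fun y => hcomm y .c (Or.inl rfl), ?_, ?_, ?_, ?_⟩
  · intro y
    have h := hcomm y .e (Or.inr rfl)
    rwa [grp_gen_e] at h
  · intro y k hk
    rw [← hev]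
    exact grp_cl_NH hp ⟨_, _, Null.face _ trivial k hk⟩
  · intro y h
    rw [grp_cl_one_iff]
    exact h
  · intro y w hw h
    rw [← hev] at h
    exact grp_NH_cl hp hw h

end TMap

end Pool.Agent.Lib.MP_131179_gt.Dehn
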