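import Pool.Agent.Lib.MP_131179_gt.Dehn.Wri

/-!
# Kinks
-/

set_option autoImplicit false

namespace Pool.Agent.Lib.MP_131179_gt.Dehn

theorem kinks_path_one {k : Kind Bool} (hk : k = .pos ∨ k = .neg) {c : Bool} {W : Word Bool}
    (h : Path flip ((.cup c, 0) :: W) [] []) :
    Path flip ((.cup (!c), 0) :: (k, 0) :: W) [] [] := by
  cases h with
  | cons h1 h2 =>
    cases h1
    refine Path.cons (Step.cup (!c) []) ?_
    rcases hk with rfl | rfl
    · refine Path.cons (Step.pos (!c) (flip.bar (!c)) []) ?_
      simpa [flip] using h2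
    · refine Path.cons (Step.neg (!c) (flip.bar (!c)) []) ?_
      simpa [flip] using h2

theorem kinks_wri_pos (c : Bool) (W : Word Bool) :
    wri ((.cup (!c), 0) :: (.pos, 0) :: W) [] = wri ((.cup c, 0) :: W) [] + 1 := by
  cases c <;> simp [wri, sgl, nxt, flip, add_comm]

theorem kinks_wri_neg (c : Bool) (W : Word Bool) :
    wri ((.cup (!c), 0) :: (.neg, 0) :: W) [] = wri ((.cup c, 0) :: W) [] - 1 := by
  cases c <;> simp [wri, sgl, nxt, flip, sub_eq_add_neg, add_comm]

theorem kinks_eqv {k : Kind Unit} (hk : k = .pos ∨ k = .neg) {w : Word Unit}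
    (h : Path (triv Unit) ((.cup (), 0) :: w) [] []) :
    Eqv (triv Unit) ((.cup (), 0) :: w) ((.cup (), 0) :: (k, 0) :: w) [] [] := by
  cases h with
  | cons h1 h2 =>
    cases h1
    have h3 : Path (triv Unit) (shift 0 [(.cup (), 0), (k, 0)]) [] [(), ()] := by
      rw [shift_zero]
      refine Path.cons (Step.cup () []) ?_
      rcases hk with rfl | rfl
      · exact Path.cons (Step.pos () () []) (Path.nil _)
      · exact Path.cons (Step.neg () () []) (Path.nil _)
    have h4 : Path (triv Unit) (shift 0 [(.cup (), 0)]) [] [(), ()] := by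
      rw [shift_zero]
      exact Path.cons (Step.cup () []) (Path.nil _)
    have hb : Base [(.cup (), 0), (k, 0)] [((.cup () : Kind Unit), 0)] := by
      rcases hk with rfl | rfl
      · exact Base.r1CupPos () ()
      · exact Base.r1CupNeg () ()
    have h5 := (Eqv.move 0 hb h3 h4).symm.append h2
    simpa using h5

theorem kinks_add (n : ℕ) (s : Bool) {c : Bool} {W : Word Bool}
    (h : Path flip ((.cup c, 0) :: W) [] []) :
    ∃ (c' : Bool) (W' : Word Bool), Path flip ((.cup c', 0) :: W') [] [] ∧
      Eqv (triv Unit) (wmap (fun _ => ()) ((.cup c, 0) :: W))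
        (wmap (fun _ => ()) ((.cup c', 0) :: W')) [] [] ∧
      wri ((.cup c', 0) :: W') [] = wri ((.cup c, 0) :: W) [] + (if s then (n : ℤ) else -n) := by
  induction n with
  | zero => exact ⟨c, W, h, Eqv.refl (h.map (isHom_unit _)), by simp⟩
  | succ n ih =>
    obtain ⟨c', W', h1, h2, h3⟩ := ih
    have hp : Path (triv Unit) ((.cup (), 0) :: wmap (fun _ => ()) W') [] [] :=
      h1.map (isHom_unit _)
    cases s with
    | true =>
      refine ⟨!c', (.pos, 0) :: W', kinks_path_one (Or.inl rfl) h1, h2.trans ?_, ?_⟩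
      · exact kinks_eqv (Or.inl rfl) hp
      · rw [kinks_wri_pos, h3]
        simp [add_assoc]
    | false =>
      refine ⟨!c', (.neg, 0) :: W', kinks_path_one (Or.inr rfl) h1, h2.trans ?_, ?_⟩
      · exact kinks_eqv (Or.inr rfl) hp
      · rw [kinks_wri_neg, h3]
        simp
        ring

/-- By adding kinks the writhe becomes zero. -/
theorem exists_kinks {w : Word Unit} (h : Path (triv Unit) w [] []) (hw : w ≠ []) :
    ∃ w' : Word Unit, w' ≠ [] ∧ Eqv (triv Unit) w w' [] [] ∧ ∃ W : Word Bool, wmap (fun _ => ()) W = w' ∧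
      Path flip W [] [] ∧ wri W [] = 0 := by
  obtain ⟨o, ho, hpo⟩ := exists_orientation h
  have ho' : wmap (fun _ => ()) o = w := ho
  obtain ⟨c, W, rfl⟩ : ∃ (c : Bool) (W : Word Bool), o = (.cup c, 0) :: W := by
    cases hpo with
    | nil => exact absurd ho'.symm hw
    | cons h1 h2 =>
      cases h1 with
      | cup c s => exact ⟨_, _, rfl⟩
  set n : ℤ := wri ((.cup c, 0) :: W) [] with hn
  obtain ⟨c', W', h1, h2, h3⟩ := kinks_add n.natAbs (decide (n ≤ 0)) hpo
  refine ⟨wmap (fun _ => ()) ((.cup c', 0) :: W'), by simp, ho' ▸ h2, _, rfl, h1, ?_⟩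
  rw [h3, ← hn]
  by_cases h0 : n ≤ 0
  · simp only [h0, decide_true, if_true]
    omega
  · simp only [h0, decide_false]
    have : ((n.natAbs : ℕ) : ℤ) = n := by omega
    simp [this]

theorem kinks_sgl_map (k : Kind Bool) (i : ℕ) (s : List Bool) :
    sgl (k.map not) i (s.map not) = sgl k i s := by
  induction i generalizing s with
  | zero =>
    cases k with
    | cup c => simp [sgl, Kind.map]
    | cap => simp [sgl, Kind.map]
    | pos =>
      rcases s with _ | ⟨a, _ | ⟨b, s⟩⟩
      · simp [sgl, Kind.map]
      · simp [sgl, Kind.map]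
      · cases a <;> cases b <;> simp [sgl, Kind.map]
    | neg =>
      rcases s with _ | ⟨a, _ | ⟨b, s⟩⟩
      · simp [sgl, Kind.map]
      · simp [sgl, Kind.map]
      · cases a <;> cases b <;> simp [sgl, Kind.map]
  | succ i ih =>
    cases s with
    | nil => cases k <;> simp [sgl, Kind.map]
    | cons a s =>
      have h1 : ∀ (l : Kind Bool) (b : Bool) (t : List Bool), sgl l (i + 1) (b :: t) = sgl l i t := by
        intro l b t
        cases l <;> rfl
      rw [List.map_cons, h1, h1, ih]

theorem kinks_isHom_not : IsHom flip flip not := ⟨fun _ => rfl, fun _ _ => rfl⟩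

theorem kinks_wri_not {W : Word Bool} {s t : List Bool} (h : Path flip W s t) :
    wri (wmap not W) (s.map not) = wri W s := by
  induction h with
  | nil s => rfl
  | @cons k i w s t r h1 h2 ih =>
    rw [wmap_cons]
    show sgl (k.map not) i (s.map not) + wri (wmap not w) (nxt flip (k.map not) i (s.map not)) =
      sgl k i s + wri w (nxt flip k i s)
    rw [kinks_sgl_map, h1.nxt_eq, (h1.map kinks_isHom_not).nxt_eq, ih]

/-- If there is only one component, the writhe does not depend on the orientation. -/
theorem wri_unique {L : Link} (hL : ¬ AtLeastTwoComponents L) {W W' : Word Bool}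
    (h : Path flip W [] []) (h' : Path flip W' [] [])
    (he : wmap (fun _ => ()) W = wmap (fun _ => ()) W') (hd : IsDiag (wmap (fun _ => ()) W) L) :
    wri W [] = wri W' [] := by
  obtain ⟨w, rfl, rfl, hw⟩ := closed_zip h h' he
  have hom : IsHom (flip.prod flip) (triv Bool) (fun x => xor x.1 x.2) := by
    refine ⟨fun x => ?_, fun _ _ => rfl⟩
    obtain ⟨a, b⟩ := x
    cases a <;> cases b <;> rfl
  have hV := hw.map hom
  simp only [List.map_nil] at hV
  have hn : ¬ ((∃ i, (Kind.cup true, i) ∈ wmap (fun x : Bool × Bool => xor x.1 x.2) w) ∧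
      (∃ i, (Kind.cup false, i) ∈ wmap (fun x : Bool × Bool => xor x.1 x.2) w)) := by
    rintro ⟨h1, h2⟩
    refine hL ⟨_, hV, ?_, h1, h2⟩
    rw [wmap_wmap]
    rw [wmap_wmap] at hd
    exact hd
  rw [not_and_or] at hn
  rcases hn with hn | hn
  · -- all labels agree
    have : wmap Prod.fst w = wmap Prod.snd w := by
      apply wmap_congr
      intro x hx
      by_contra hne
      apply hn
      have := hx.map (fun x : Bool × Bool => xor x.1 x.2)
      obtain ⟨a, b⟩ := x
      have hx1 : xor a b = true := by
        revert hne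
        cases a <;> cases b <;> simp
      simp only [hx1] at this
      exact this
    rw [this]
  · have : wmap Prod.snd w = wmap not (wmap Prod.fst w) := by
      rw [wmap_wmap]
      apply wmap_congr
      intro x hx
      by_contra hne
      apply hn
      have := hx.map (fun x : Bool × Bool => xor x.1 x.2)
      obtain ⟨a, b⟩ := x
      have hx1 : xor a b = false := by
        revert hne
        cases a <;> cases b <;> simp
      simp only [hx1] at this
      exact this
    rw [this]
    have := kinks_wri_not h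
    simp only [List.map_nil] at this
    rw [this]

end Pool.Agent.Lib.MP_131179_gt.Dehn
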