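import Pool.Agent.Lib.MP_131179_gt.Dehn.Run

/-!
# Links in the lattice

A link in the lattice `ℤ³` is a finite set of edges such that every point is an end of no or of two
edges.  The first coordinate is the column, the second one the height and the third one the depth.
We read the link level by level.
-/

set_option autoImplicit false

namespace Pool.Agent.Lib.MP_131179_gt.Dehn

/-- Points of the lattice: column, height, depth. -/
abbrev P3 : Type := ℤ × ℤ × ℤ

/-- Edges of the lattice: the starting point and the direction. -/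
abbrev LE : Type := P3 × Fin 3

/-- The unit vectors. -/
def e3 : Fin 3 → P3
  | 0 => (1, 0, 0)
  | 1 => (0, 1, 0)
  | 2 => (0, 0, 1)

/-- The point `p` is an end of the edge. -/
def Inc (e : LE) (p : P3) : Prop := p = e.1 ∨ p = e.1 + e3 e.2

instance (e : LE) (p : P3) : Decidable (Inc e p) := inferInstanceAs (Decidable (_ ∨ _))

/-- The number of edges at a point. -/
def deg (K : Finset LE) (p : P3) : ℕ := (K.filter fun e => Inc e p).card

/-- Links: every point is an end of no or of two edges. -/
def Valid (K : Finset LE) : Prop := ∀ p, deg K p = 0 ∨ deg K p = 2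

/-- The edge of the lattice given by a horizontal edge at height `y`. -/
def toLE (q : ℤ × HE) : LE :=
  match q.2 with
  | .ex i k => ((i, q.1, k), 0)
  | .ez i k => ((i, q.1, k), 2)

/-- The vertical edge over the point `s`, starting at height `y`. -/
def vert (y : ℤ) (s : Site) : LE := ((cx s, y, cz s), 1)

/-- A list of the horizontal edges, ordered by height. -/
structure Scan (K : Finset LE) (es : List (ℤ × HE)) : Prop where
  sorted : es.Pairwise fun a b => a.1 ≤ b.1
  nodup : es.Nodup
  mem : ∀ q, q ∈ es ↔ toLE q ∈ K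

/-- The word of a list of edges with heights. -/
abbrev sword (es : List (ℤ × HE)) : Word Unit := run1 ∅ (es.map Prod.snd)

theorem llink_st_iff (s : Site) (a b : ℤ) : s = st a b ↔ cx s = a ∧ cz s = b := by
  constructor
  · rintro rfl; exact ⟨rfl, rfl⟩
  · rintro ⟨h1, h2⟩
    have : s = toLex (cx s, cz s) := rfl
    rw [this, h1, h2]
    rfl

theorem toLE_injective : Function.Injective toLE := by
  rintro ⟨y, e⟩ ⟨y', e'⟩ h
  cases e with
  | ex i k =>
    cases e' with
    | ex i' k' =>
      simp only [toLE, Prod.mk.injEq, and_true] at h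
      obtain ⟨h1, h2, h3⟩ := h
      subst h1; subst h2; subst h3; rfl
    | ez i' k' =>
      simp only [toLE, Prod.mk.injEq] at h
      exact absurd h.2 (by decide)
  | ez i k =>
    cases e' with
    | ex i' k' =>
      simp only [toLE, Prod.mk.injEq] at h
      exact absurd h.2 (by decide)
    | ez i' k' =>
      simp only [toLE, Prod.mk.injEq, and_true] at h
      obtain ⟨h1, h2, h3⟩ := h
      subst h1; subst h2; subst h3; rfl

theorem llink_height (q : ℤ × HE) : (toLE q).1.2.1 = q.1 := by
  obtain ⟨y, e⟩ := q
  cases e <;> rfl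

theorem llink_dir (q : ℤ × HE) : (toLE q).2 ≠ 1 := by
  obtain ⟨y, e⟩ := q
  cases e with
  | ex i k => exact (by decide : (0 : Fin 3) ≠ 1)
  | ez i k => exact (by decide : (2 : Fin 3) ≠ 1)

theorem llink_surj (e : LE) (h : e.2 ≠ 1) : ∃ q, toLE q = e := by
  obtain ⟨⟨a, b, c⟩, d⟩ := e
  fin_cases d
  · exact ⟨(b, .ex a c), rfl⟩
  · exact absurd rfl h
  · exact ⟨(b, .ez a c), rfl⟩

/-- `s` is an end of the edge. -/
def llAt (s : Site) (e : HE) : Bool := decide (s = e.lo) || decide (s = e.hi)

theorem llAt_iff (s : Site) (e : HE) : llAt s e = true ↔ e.At s := by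
  unfold llAt HE.At
  simp

theorem llink_inc (q : ℤ × HE) (s : Site) (y : ℤ) :
    Inc (toLE q) (cx s, y, cz s) ↔ q.1 = y ∧ llAt s q.2 = true := by
  rw [llAt_iff]
  obtain ⟨y', e⟩ := q
  cases e with
  | ex i k =>
    simp only [Inc, toLE, HE.At, HE.lo, HE.hi, llink_st_iff, e3, Prod.mk_add_mk, Prod.mk.injEq,
      add_zero]
    constructor
    · rintro (⟨h1, h2, h3⟩ | ⟨h1, h2, h3⟩)
      · exact ⟨h2.symm, Or.inl ⟨h1, h3⟩⟩
      · exact ⟨h2.symm, Or.inr ⟨h1, h3⟩⟩
    · rintro ⟨h2, (⟨h1, h3⟩ | ⟨h1, h3⟩)⟩
      · exact Or.inl ⟨h1, h2.symm, h3⟩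
      · exact Or.inr ⟨h1, h2.symm, h3⟩
  | ez i k =>
    simp only [Inc, toLE, HE.At, HE.lo, HE.hi, llink_st_iff, e3, Prod.mk_add_mk, Prod.mk.injEq,
      add_zero]
    constructor
    · rintro (⟨h1, h2, h3⟩ | ⟨h1, h2, h3⟩)
      · exact ⟨h2.symm, Or.inl ⟨h1, h3⟩⟩
      · exact ⟨h2.symm, Or.inr ⟨h1, h3⟩⟩
    · rintro ⟨h2, (⟨h1, h3⟩ | ⟨h1, h3⟩)⟩
      · exact Or.inl ⟨h1, h2.symm, h3⟩
      · exact Or.inr ⟨h1, h2.symm, h3⟩

theorem llink_inc_vert (e : LE) (he : e.2 = 1) (s : Site) (y : ℤ) :
    Inc e (cx s, y, cz s) ↔ e = vert y s ∨ e = vert (y - 1) s := by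
  obtain ⟨⟨a, b, c⟩, d⟩ := e
  simp only at he
  subst he
  simp only [Inc, vert, e3, Prod.mk_add_mk, Prod.mk.injEq, add_zero, and_true]
  constructor
  · rintro (⟨h1, h2, h3⟩ | ⟨h1, h2, h3⟩)
    · exact Or.inl ⟨h1.symm, h2.symm, h3.symm⟩
    · exact Or.inr ⟨h1.symm, by omega, h3.symm⟩
  · rintro (⟨h1, h2, h3⟩ | ⟨h1, h2, h3⟩)
    · exact Or.inl ⟨h1.symm, h2.symm, h3.symm⟩
    · exact Or.inr ⟨h1.symm, by omega, h3.symm⟩

theorem llink_vert_ne (y : ℤ) (s : Site) : vert y s ≠ vert (y - 1) s := by
  intro h
  simp only [vert, Prod.mk.injEq] at h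
  omega

theorem exists_scan (K : Finset LE) : ∃ es, Scan K es := by
  classical
  let S : Finset (ℤ × HE) := K.preimage toLE (toLE_injective.injOn)
  refine ⟨S.toList.mergeSort (fun a b => decide (a.1 ≤ b.1)), ?_, ?_, ?_⟩
  · have := List.pairwise_mergeSort (le := fun a b : ℤ × HE => decide (a.1 ≤ b.1))
      (by
        intro a b c h1 h2
        simp only [decide_eq_true_eq] at h1 h2 ⊢
        exact h1.trans h2)
      (by
        intro a b
        simp only [Bool.or_eq_true, decide_eq_true_eq]
        exact le_total _ _) S.toList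
    simpa using this
  · exact (List.mergeSort_perm _ _).nodup_iff.2 S.nodup_toList
  · intro q
    rw [(List.mergeSort_perm _ _).mem_iff, Finset.mem_toList]
    simp [S]

/-- The degree of a point. -/
theorem llink_deg {K : Finset LE} {es : List (ℤ × HE)} (h : Scan K es) (y : ℤ) (s : Site) :
    deg K (cx s, y, cz s) = es.countP (fun q => decide (q.1 = y) && llAt s q.2) +
      ((if vert y s ∈ K then 1 else 0) + (if vert (y - 1) s ∈ K then 1 else 0)) := by
  classical
  unfold deg
  rw [← Finset.card_filter_add_card_filter_not (s := K.filter fun e => Inc e (cx s, y, cz s))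
    (fun e => e.2 ≠ 1)]
  congr 1
  · have h1 : (K.filter fun e => Inc e (cx s, y, cz s)).filter (fun e => e.2 ≠ 1) =
        (es.filter (fun q => decide (q.1 = y) && llAt s q.2)).toFinset.image toLE := by
      ext e
      simp only [Finset.mem_filter, Finset.mem_image, List.mem_toFinset, List.mem_filter,
        Bool.and_eq_true, decide_eq_true_eq]
      constructor
      · rintro ⟨⟨h1, h2⟩, h3⟩
        obtain ⟨q, rfl⟩ := llink_surj e h3
        exact ⟨q, ⟨(h.mem q).2 h1, (llink_inc q s y).1 h2⟩, rfl⟩
      · rintro ⟨q, ⟨h1, h2⟩, rfl⟩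
        exact ⟨⟨(h.mem q).1 h1, (llink_inc q s y).2 h2⟩, llink_dir q⟩
    rw [h1, Finset.card_image_of_injective _ toLE_injective, List.toFinset_card_of_nodup
      (h.nodup.filter _), List.countP_eq_length_filter]
  · have h1 : (K.filter fun e => Inc e (cx s, y, cz s)).filter (fun e => ¬ e.2 ≠ 1) =
        ({vert y s, vert (y - 1) s} : Finset LE).filter (fun e => e ∈ K) := by
      ext e
      simp only [Finset.mem_filter, Finset.mem_insert, Finset.mem_singleton, not_not]
      constructor
      · rintro ⟨⟨h1, h2⟩, h3⟩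
        exact ⟨(llink_inc_vert e h3 s y).1 h2, h1⟩
      · rintro ⟨h1, h2⟩
        have h3 : e.2 = 1 := by
          rcases h1 with rfl | rfl <;> rfl
        exact ⟨⟨h2, (llink_inc_vert e h3 s y).2 h1⟩, h3⟩
    rw [h1, Finset.filter_insert, Finset.filter_singleton]
    by_cases h2 : vert y s ∈ K
    · by_cases h3 : vert (y - 1) s ∈ K
      · rw [if_pos h2, if_pos h3, if_pos h2, if_pos h3, Finset.card_pair (llink_vert_ne y s)]
      · rw [if_pos h2, if_neg h3, if_pos h2, if_neg h3]
        simp
    · by_cases h3 : vert (y - 1) s ∈ K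
      · rw [if_neg h2, if_pos h3, if_neg h2, if_pos h3]
        simp
      · rw [if_neg h2, if_neg h3, if_neg h2, if_neg h3]
        simp

/-- Parity of the number of edges at a point. -/
theorem llink_mem_fin (s : Site) : ∀ (l : List HE) (P : Finset Site),
    s ∈ fin P l ↔ (s ∈ P ↔ Even (l.countP (llAt s))) := by
  intro l
  induction l with
  | nil => intro P; simp [fin]
  | cons e l ih =>
    intro P
    show s ∈ fin (nxs P e) l ↔ _
    rw [ih]
    have h1 : s ∈ nxs P e ↔ (s ∈ P ↔ ¬ llAt s e = true) := by
      unfold nxs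
      rw [Finset.mem_symmDiff, llAt_iff, HE.At]
      simp only [Finset.mem_insert, Finset.mem_singleton]
      tauto
    rw [h1, List.countP_cons]
    by_cases h2 : llAt s e = true
    · rw [if_pos h2, Nat.even_add_one]
      tauto
    · rw [if_neg h2, add_zero]
      tauto

theorem llink_count_succ (es : List (ℤ × HE)) (s : Site) (y : ℤ) :
    es.countP (fun q => decide (q.1 ≤ y) && llAt s q.2) =
      es.countP (fun q => decide (q.1 ≤ y - 1) && llAt s q.2) +
      es.countP (fun q => decide (q.1 = y) && llAt s q.2) := by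
  induction es with
  | nil => rfl
  | cons a es ih =>
    rw [List.countP_cons, List.countP_cons, List.countP_cons, ih]
    by_cases h : llAt s a.2 = true
    · simp only [h, Bool.and_true, decide_eq_true_eq]
      by_cases h1 : a.1 ≤ y - 1
      · rw [if_pos (by omega), if_pos h1, if_neg (by omega)]; omega
      · by_cases h2 : a.1 = y
        · rw [if_pos (by omega), if_neg h1, if_pos h2]; omega
        · rw [if_neg (by omega), if_neg h1, if_neg h2]; omega
    · have h' : llAt s a.2 = false := by simpa using h
      simp only [h', Bool.and_false]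
      simp

theorem llink_count_eq (es : List (ℤ × HE)) (s : Site) (y : ℤ) :
    ((es.filter fun q => q.1 ≤ y).map Prod.snd).countP (llAt s) =
      es.countP (fun q => decide (q.1 ≤ y) && llAt s q.2) := by
  rw [List.countP_map, List.countP_filter]
  congr 1
  funext q
  simp only [Function.comp]
  rw [Bool.and_comm]

/-- A lower bound of all heights. -/
theorem llink_low (K : Finset LE) : ∃ y0 : ℤ, ∀ e ∈ K, y0 < e.1.2.1 := by
  classical
  obtain ⟨M, hM⟩ := Finset.exists_le (K.image (fun e => - e.1.2.1))
  refine ⟨-M - 1, fun e he => ?_⟩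
  have : - e.1.2.1 ≤ M := hM _ (Finset.mem_image_of_mem (fun e : LE => - e.1.2.1) he)
  omega

/-- An upper bound of all heights. -/
theorem llink_high (K : Finset LE) : ∃ y0 : ℤ, ∀ e ∈ K, e.1.2.1 < y0 := by
  classical
  obtain ⟨M, hM⟩ := Finset.exists_le (K.image (fun e => e.1.2.1))
  refine ⟨M + 1, fun e he => ?_⟩
  have : e.1.2.1 ≤ M := hM _ (Finset.mem_image_of_mem (fun e : LE => e.1.2.1) he)
  omega

theorem llink_count_parity {K : Finset LE} (hK : Valid K) {es : List (ℤ × HE)} (h : Scan K es)
    (y : ℤ) (s : Site) :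
    ¬ Even (es.countP (fun q => decide (q.1 ≤ y) && llAt s q.2)) ↔ vert y s ∈ K := by
  obtain ⟨y0, hy0⟩ := llink_low K
  have hbase : ∀ y, y ≤ y0 → (¬ Even (es.countP (fun q => decide (q.1 ≤ y) && llAt s q.2)) ↔
      vert y s ∈ K) := by
    intro y hy
    have h1 : es.countP (fun q => decide (q.1 ≤ y) && llAt s q.2) = 0 := by
      rw [List.countP_eq_zero]
      intro q hq
      have h2 := hy0 _ ((h.mem q).1 hq)
      rw [llink_height] at h2
      simp only [Bool.and_eq_true, decide_eq_true_eq, not_and]
      intro h3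
      omega
    rw [h1]
    constructor
    · intro h2; exact absurd Even.zero h2
    · intro h2
      have h3 := hy0 _ h2
      simp only [vert] at h3
      omega
  have hstep : ∀ n : ℕ, (¬ Even (es.countP (fun q => decide (q.1 ≤ y0 + n) && llAt s q.2)) ↔
      vert (y0 + n) s ∈ K) := by
    intro n
    induction n with
    | zero => exact hbase _ (by simp)
    | succ n ih =>
      have h1 := llink_count_succ es s (y0 + (n + 1 : ℕ))
      have h2 := llink_deg h (y0 + (n + 1 : ℕ)) s
      have h3 := hK (cx s, y0 + (n + 1 : ℕ), cz s)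
      have h4 : y0 + ((n + 1 : ℕ) : ℤ) - 1 = y0 + n := by push_cast; ring
      rw [h4] at h1 h2
      rw [h2] at h3
      rw [h1]
      generalize es.countP (fun q => decide (q.1 ≤ y0 + (n : ℤ)) && llAt s q.2) = A at *
      generalize es.countP (fun q => decide (q.1 = y0 + ((n + 1 : ℕ) : ℤ)) && llAt s q.2) = B at *
      rw [Nat.even_iff] at ih ⊢
      by_cases h5 : vert (y0 + ((n + 1 : ℕ) : ℤ)) s ∈ K
      · by_cases h6 : vert (y0 + (n : ℤ)) s ∈ K
        · rw [if_pos h5, if_pos h6] at h3
          have h7 := ih.2 h6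
          simp only [h5, iff_true]
          omega
        · rw [if_pos h5, if_neg h6] at h3
          have h7 : A % 2 = 0 := by
            by_contra h8
            exact h6 (ih.1 h8)
          simp only [h5, iff_true]
          omega
      · by_cases h6 : vert (y0 + (n : ℤ)) s ∈ K
        · rw [if_neg h5, if_pos h6] at h3
          have h7 := ih.2 h6
          simp only [h5, iff_false]
          omega
        · rw [if_neg h5, if_neg h6] at h3
          have h7 : A % 2 = 0 := by
            by_contra h8
            exact h6 (ih.1 h8)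
          simp only [h5, iff_false]
          omega
  rcases le_total y y0 with hy | hy
  · exact hbase y hy
  · have := hstep (y - y0).toNat
    rw [Int.toNat_of_nonneg (by omega), add_sub_cancel] at this
    exact this

/-- The strands after the levels up to `y`. -/
theorem scan_fin {K : Finset LE} (hK : Valid K) {es : List (ℤ × HE)} (h : Scan K es) (y : ℤ)
    (s : Site) :
    s ∈ fin ∅ ((es.filter fun q => q.1 ≤ y).map Prod.snd) ↔ vert y s ∈ K := by
  rw [llink_mem_fin, llink_count_eq, ← llink_count_parity hK h]
  simp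

theorem scan_fin_nil {K : Finset LE} (hK : Valid K) {es : List (ℤ × HE)} (h : Scan K es) :
    fin ∅ (es.map Prod.snd) = ∅ := by
  obtain ⟨y0, hy0⟩ := llink_high K
  have h1 : (es.filter fun q => q.1 ≤ y0) = es := by
    rw [List.filter_eq_self]
    intro q hq
    have h2 := hy0 _ ((h.mem q).1 hq)
    rw [llink_height] at h2
    simp only [decide_eq_true_eq]
    omega
  ext s
  have h2 := scan_fin hK h y0 s
  rw [h1] at h2
  rw [h2]
  simp only [Finset.notMem_empty, iff_false]
  intro h3
  have h4 := hy0 _ h3
  simp only [vert] at h4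
  omega

theorem sword_path {K : Finset LE} (hK : Valid K) {es : List (ℤ × HE)} (h : Scan K es) :
    Path (triv Unit) (sword es) [] [] := by
  have h1 := run_path (C := Unit) (fun _ => ()) ∅ (es.map Prod.snd) (fun _ _ => rfl)
  rw [scan_fin_nil hK h] at h1
  have h2 : lst (fun _ : Site => ()) (∅ : Finset Site) = [] := by
    simp [lst]
  rw [h2] at h1
  exact h1

/-- Exchange of two neighbours of the same level. -/
inductive LLSwap : List (ℤ × HE) → List (ℤ × HE) → Prop
  | mk (u v : List (ℤ × HE)) (x a : ℤ × HE) (h : x.1 = a.1) :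
      LLSwap (u ++ x :: a :: v) (u ++ a :: x :: v)

theorem LLSwap.cons {l l' : List (ℤ × HE)} (h : LLSwap l l') (c : ℤ × HE) :
    LLSwap (c :: l) (c :: l') := by
  cases h with
  | mk u v x a h => exact LLSwap.mk (c :: u) v x a h

theorem llink_rt_cons {l l' : List (ℤ × HE)} (h : Relation.ReflTransGen LLSwap l l')
    (c : ℤ × HE) : Relation.ReflTransGen LLSwap (c :: l) (c :: l') := by
  induction h with
  | refl => exact Relation.ReflTransGen.refl
  | tail _ h2 ih => exact ih.tail (h2.cons c)

theorem llink_front (a : ℤ × HE) (v : List (ℤ × HE)) : ∀ u : List (ℤ × HE),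
    (∀ x ∈ u, x.1 = a.1) → Relation.ReflTransGen LLSwap (u ++ a :: v) (a :: (u ++ v)) := by
  intro u
  induction u with
  | nil => intro _; exact Relation.ReflTransGen.refl
  | cons b u ih =>
    intro h
    have h1 := llink_rt_cons (ih fun x hx => h x (List.mem_cons_of_mem _ hx)) b
    refine h1.tail ?_
    exact LLSwap.mk [] (u ++ v) b a (h b List.mem_cons_self)

theorem llink_rt_of_perm : ∀ (l' l : List (ℤ × HE)), l.Perm l' →
    l.Pairwise (fun a b => a.1 ≤ b.1) → l'.Pairwise (fun a b => a.1 ≤ b.1) →
    Relation.ReflTransGen LLSwap l l' := by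
  intro l'
  induction l' with
  | nil =>
    intro l h _ _
    rw [h.eq_nil]
  | cons a m ih =>
    intro l h hl hl'
    have ha : a ∈ l := h.mem_iff.2 List.mem_cons_self
    obtain ⟨u, v, rfl⟩ := List.append_of_mem ha
    have hu : ∀ x ∈ u, x.1 = a.1 := by
      intro x hx
      have h1 : x.1 ≤ a.1 := (List.pairwise_append.1 hl).2.2 x hx a List.mem_cons_self
      have h2 : x ∈ a :: m := h.mem_iff.1 (List.mem_append_left _ hx)
      have h3 : a.1 ≤ x.1 := by
        rcases List.mem_cons.1 h2 with h4 | h4
        · rw [h4]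
        · exact (List.pairwise_cons.1 hl').1 x h4
      exact le_antisymm h1 h3
    have h1 := llink_front a v u hu
    have h2 : (u ++ v).Perm m := by
      have h3 : (a :: (u ++ v)).Perm (a :: m) := List.perm_middle.symm.trans h
      exact (List.perm_cons a).1 h3
    have h3 : (u ++ v).Pairwise (fun a b => a.1 ≤ b.1) := by
      refine hl.sublist ?_
      exact List.Sublist.append_left (List.sublist_cons_self a v) u
    exact h1.trans (llink_rt_cons (ih (u ++ v) h2 h3 (List.pairwise_cons.1 hl').2) a)

theorem llink_swap_scan {K : Finset LE} {l l' : List (ℤ × HE)} (h : Scan K l)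
    (hs : LLSwap l l') : Scan K l' := by
  cases hs with
  | mk u v x a hxa =>
    have hp : (u ++ x :: a :: v).Perm (u ++ a :: x :: v) :=
      List.Perm.append_left u (List.Perm.swap a x v)
    refine ⟨?_, hp.nodup_iff.1 h.nodup, fun q => ?_⟩
    · have h1 := h.sorted
      rw [List.pairwise_append, List.pairwise_cons, List.pairwise_cons] at h1 ⊢
      obtain ⟨h2, ⟨h3, h4, h5⟩, h6⟩ := h1
      refine ⟨h2, ⟨?_, ?_, h5⟩, ?_⟩
      · intro b hb
        rcases List.mem_cons.1 hb with rfl | hb
        · rw [hxa]
        · exact h4 b hb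
      · intro b hb
        exact h3 b (List.mem_cons_of_mem _ hb)
      · intro c hc b hb
        apply h6 c hc b
        simp only [List.mem_cons] at hb ⊢
        tauto
    · rw [← hp.mem_iff]
      exact h.mem q

theorem llink_swap_eqv [SwapHyp] {K : Finset LE} (hK : Valid K) {l l' : List (ℤ × HE)} (h : Scan K l)
    (hs : LLSwap l l') : Eqv (triv Unit) (sword l) (sword l') [] [] := by
  have hscan := h
  have hscan' := llink_swap_scan h hs
  cases hs with
  | mk u v x a hxa =>
    have hx : x ∈ u ++ x :: a :: v := by simp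
    have ha : a ∈ u ++ x :: a :: v := by simp
    have hsort := h.sorted
    rw [List.pairwise_append, List.pairwise_cons, List.pairwise_cons] at hsort
    obtain ⟨s2, ⟨s3, s4, s5⟩, s6⟩ := hsort
    have hnd := h.nodup
    rw [List.nodup_append, List.nodup_cons] at hnd
    obtain ⟨n1, ⟨n2, n3⟩, n4⟩ := hnd
    have hne : x ≠ a := fun h1 => n2 (by rw [h1]; exact List.mem_cons_self)
    have hne2 : x.2 ≠ a.2 := fun h1 => hne (Prod.ext hxa h1)
    -- the point is not occupied
    have hP : ∀ s, x.2.At s → a.2.At s → s ∉ fin ∅ (u.map Prod.snd) := by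
      intro s hxs has
      rw [← llAt_iff] at hxs has
      -- the degree is two
      have hd := llink_deg h x.1 s
      have hd2 := hK (cx s, x.1, cz s)
      have hcnt : (u ++ x :: a :: v).countP (fun q => decide (q.1 = x.1) && llAt s q.2) =
          u.countP (fun q => decide (q.1 = x.1) && llAt s q.2) + 2 +
          v.countP (fun q => decide (q.1 = x.1) && llAt s q.2) := by
        have g1 : (decide (x.1 = x.1) && llAt s x.2) = true := by rw [hxs]; simp
        have g2 : (decide (a.1 = x.1) && llAt s a.2) = true := by rw [has, hxa]; simp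
        have g3 : (x :: a :: v).countP (fun q => decide (q.1 = x.1) && llAt s q.2) =
            (a :: v).countP (fun q => decide (q.1 = x.1) && llAt s q.2) + 1 :=
          List.countP_cons_of_pos g1
        have g4 : (a :: v).countP (fun q => decide (q.1 = x.1) && llAt s q.2) =
            v.countP (fun q => decide (q.1 = x.1) && llAt s q.2) + 1 :=
          List.countP_cons_of_pos g2
        rw [List.countP_append, g3, g4]
        omega
      rw [hcnt] at hd
      rw [hd] at hd2
      have hu0 : u.countP (fun q => decide (q.1 = x.1) && llAt s q.2) = 0 := by omega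
      have hv : ¬ vert (x.1 - 1) s ∈ K := by
        intro h1
        rw [if_pos h1] at hd2
        omega
      rw [← llink_count_parity hK h (x.1 - 1) s, not_not] at hv
      rw [llink_mem_fin]
      have h1 : (u.map Prod.snd).countP (llAt s) =
          (u ++ x :: a :: v).countP (fun q => decide (q.1 ≤ x.1 - 1) && llAt s q.2) := by
        rw [List.countP_append, List.countP_map]
        have h2 : (x :: a :: v).countP (fun q => decide (q.1 ≤ x.1 - 1) && llAt s q.2) = 0 := by
          rw [List.countP_eq_zero]
          intro q hq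
          simp only [Bool.and_eq_true, decide_eq_true_eq, not_and]
          intro h3
          exfalso
          rcases List.mem_cons.1 hq with rfl | hq
          · omega
          · have := s3 q hq
            omega
        rw [h2, add_zero]
        apply List.countP_congr
        intro q hq
        simp only [Function.comp, Bool.and_eq_true, decide_eq_true_eq]
        constructor
        · intro h3
          refine ⟨?_, h3⟩
          have h4 : q.1 ≤ x.1 := s6 q hq x List.mem_cons_self
          have h5 : q.1 ≠ x.1 := by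
            intro h6
            rw [List.countP_eq_zero] at hu0
            apply hu0 q hq
            simp [h6, h3]
          omega
        · exact fun h3 => h3.2
      rw [h1]
      simp only [Finset.notMem_empty, false_iff, not_not]
      exact hv
    have hsw := SwapHyp.edges (fin ∅ (u.map Prod.snd)) hne2 hP
    have e1 : sword (u ++ x :: a :: v) = run1 ∅ (u.map Prod.snd) ++
        (run1 (fin ∅ (u.map Prod.snd)) [x.2, a.2] ++
          run1 (fin (fin ∅ (u.map Prod.snd)) [x.2, a.2]) (v.map Prod.snd)) := by
      rw [← run_append, ← run_append]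
      simp [sword]
    have hfin : fin (fin ∅ (u.map Prod.snd)) [x.2, a.2] =
        fin (fin ∅ (u.map Prod.snd)) [a.2, x.2] := fin_perm (List.Perm.swap _ _ _)
    have e2 : sword (u ++ a :: x :: v) = run1 ∅ (u.map Prod.snd) ++
        (run1 (fin ∅ (u.map Prod.snd)) [a.2, x.2] ++
          run1 (fin (fin ∅ (u.map Prod.snd)) [x.2, a.2]) (v.map Prod.snd)) := by
      rw [hfin, ← run_append, ← run_append]
      simp [sword]
    rw [e1, e2]
    have p1 := run_path (C := Unit) (fun _ => ()) ∅ (u.map Prod.snd) (fun _ _ => rfl)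
    have p2 := run_path (C := Unit) (fun _ => ()) (fin (fin ∅ (u.map Prod.snd)) [x.2, a.2])
      (v.map Prod.snd) (fun _ _ => rfl)
    have h0 : lst (fun _ : Site => ()) (∅ : Finset Site) = [] := by
      simp [lst]
    rw [h0] at p1
    have h3 : fin (fin (fin ∅ (u.map Prod.snd)) [x.2, a.2]) (v.map Prod.snd) = ∅ := by
      have h4 := scan_fin_nil hK h
      rw [← fin_append, ← fin_append]
      rw [List.map_append] at h4
      simpa using h4
    rw [h3, h0] at p2
    exact Eqv.context p1 hsw p2

/-- The order of the edges in the levels does not matter. -/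
theorem scan_eqv [SwapHyp] {K : Finset LE} (hK : Valid K) {es es' : List (ℤ × HE)} (h : Scan K es)
    (h' : Scan K es') : Eqv (triv Unit) (sword es) (sword es') [] [] := by
  have hp : es.Perm es' := (List.perm_ext_iff_of_nodup h.nodup h'.nodup).2 fun q => by
    rw [h.mem, h'.mem]
  have hrt := llink_rt_of_perm es' es hp h.sorted h'.sorted
  clear h' hp
  have : Scan K es' ∧ Eqv (triv Unit) (sword es) (sword es') [] [] := by
    induction hrt with
    | refl => exact ⟨h, Eqv.refl (sword_path hK h)⟩
    | tail _ h2 ih => exact ⟨llink_swap_scan ih.1 h2, ih.2.trans (llink_swap_eqv hK ih.1 h2)⟩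
  exact this.2

/-- `IsLink K L`: the lattice link `K` represents the link `L`. -/
def IsLink (K : Finset LE) (L : Link) : Prop := ∃ es, Scan K es ∧ IsDiag (sword es) L

theorem exists_isLink {K : Finset LE} (hK : Valid K) : ∃ L, IsLink K L := by
  obtain ⟨es, h⟩ := exists_scan K
  exact ⟨Quotient.mk linkSetoid ⟨sword es, sword_path hK h⟩, es, h, sword_path hK h, rfl⟩

/-! ### Moves over unit squares -/

/-- The boundary of the unit square with corner `p` in the plane of the directions `i` and `j`. -/
def sqE (p : P3) (i j : Fin 3) : Finset LE := {(p, i), (p + e3 j, i), (p, j), (p + e3 i, j)}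

/-- A move over a unit square: one side is replaced by three sides or vice versa, or two adjacent
sides are replaced by the other two. -/
structure SqMove (K K' : Finset LE) : Prop where
  left : Valid K
  right : Valid K'
  ex : ∃ (p : P3) (i j : Fin 3), i < j ∧ K' = symmDiff K (sqE p i j) ∧
    K ∩ sqE p i j ≠ ∅ ∧ K ∩ sqE p i j ≠ sqE p i j ∧
    K ∩ sqE p i j ≠ {(p, i), (p + e3 j, i)} ∧ K ∩ sqE p i j ≠ {(p, j), (p + e3 i, j)}

/-- Isotopy of lattice links. -/
def LIso (K K' : Finset LE) : Prop := Relation.ReflTransGen SqMove K K'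

theorem llink_symm_inter (K S : Finset LE) : symmDiff K S ∩ S = S \ (K ∩ S) := by
  ext e
  simp only [Finset.mem_inter, Finset.mem_symmDiff, Finset.mem_sdiff]
  tauto

theorem SqMove.symm {K K' : Finset LE} (h : SqMove K K') : SqMove K' K := by
  obtain ⟨hK, hK', p, i, j, hij, he, h1, h2, h3, h4⟩ := h
  have hne : i ≠ j := ne_of_lt hij
  refine ⟨hK', hK, p, i, j, hij, ?_, ?_, ?_, ?_, ?_⟩
  · rw [he, symmDiff_symmDiff_cancel_right]
  all_goals rw [he, llink_symm_inter]
  · intro h5
    apply h2
    apply Finset.Subset.antisymm Finset.inter_subset_right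
    exact Finset.sdiff_eq_empty_iff_subset.1 h5
  · intro h5
    apply h1
    rw [Finset.sdiff_eq_self_iff_disjoint] at h5
    have h6 : Disjoint (K ∩ sqE p i j) (K ∩ sqE p i j) :=
      h5.symm.mono_right Finset.inter_subset_right
    exact Finset.disjoint_self_iff_empty _ |>.1 h6
  · intro h5
    apply h4
    have h6 : K ∩ sqE p i j = sqE p i j \ (sqE p i j \ (K ∩ sqE p i j)) := by
      rw [Finset.sdiff_sdiff_eq_self Finset.inter_subset_right]
    rw [h6, h5]
    ext e
    simp only [sqE, Finset.mem_sdiff, Finset.mem_insert, Finset.mem_singleton]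
    constructor
    · rintro ⟨h7, h8⟩
      tauto
    · rintro (rfl | rfl)
      · exact ⟨by simp, by simp [hne.symm]⟩
      · exact ⟨by simp, by simp [hne.symm]⟩
  · intro h5
    apply h3
    have h6 : K ∩ sqE p i j = sqE p i j \ (sqE p i j \ (K ∩ sqE p i j)) := by
      rw [Finset.sdiff_sdiff_eq_self Finset.inter_subset_right]
    rw [h6, h5]
    ext e
    simp only [sqE, Finset.mem_sdiff, Finset.mem_insert, Finset.mem_singleton]
    constructor
    · rintro ⟨h7, h8⟩
      tauto
    · rintro (rfl | rfl)
      · exact ⟨by simp, by simp [hne]⟩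
      · exact ⟨by simp, by simp [hne]⟩

theorem LIso.symm {K K' : Finset LE} (h : LIso K K') : LIso K' K := by
  unfold LIso at *
  induction h with
  | refl => exact Relation.ReflTransGen.refl
  | tail _ h2 ih => exact Relation.ReflTransGen.head h2.symm ih

/-- There is at most one horizontal edge on two consecutive levels. -/
def OneH (K : Finset LE) : Prop := ∀ p p' : P3, ∀ i i' : Fin 3, i ≠ 1 → i' ≠ 1 → (p, i) ∈ K →
  (p', i') ∈ K → |p.2.1 - p'.2.1| ≤ 1 → p = p' ∧ i = i'

end Pool.Agent.Lib.MP_131179_gt.Dehn
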