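import Pool.Agent.Lib.MP_131179_gt.Dehn.Null
import Pool.Agent.Lib.MP_131179_gt.Dehn.LLink

/-!
# The squares of the lattice

The flags of the two-dimensional complex of all unit squares of the lattice `ℤ³`: a flag is a point
`v` with a frame of three directions `d1, d2, d3`; the edge is `v, v + d1`, the square is spanned by
`d1` and `d2`, and `d3` is the side of the square.
-/

set_option autoImplicit false

namespace Pool.Agent.Lib.MP_131179_gt.Dehn

/-- Signed directions: the axis and the sign (`true` is the positive direction). -/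
abbrev Dir : Type := Fin 3 × Bool

/-- The vector of a direction. -/
def dv (d : Dir) : P3 := if d.2 then e3 d.1 else -e3 d.1

/-- The vector of a direction, if it is positive. -/
def pv (d : Dir) : P3 := if d.2 then e3 d.1 else 0

/-- The opposite direction. -/
def Dir.neg (d : Dir) : Dir := (d.1, !d.2)

/-- Frames. -/
abbrev Frm : Type := {f : Dir × Dir × Dir // f.1.1 ≠ f.2.1.1 ∧ f.1.1 ≠ f.2.2.1 ∧ f.2.1.1 ≠ f.2.2.1}

/-- Flags of the lattice. -/
abbrev LF : Type := P3 × Frm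

def d1 (x : LF) : Dir := x.2.1.1

def d2 (x : LF) : Dir := x.2.1.2.1

def d3 (x : LF) : Dir := x.2.1.2.2

/-- The sign of a direction. -/
def sgnD (d : Dir) : F2 := if d.2 then 0 else 1

/-- The orientation of a frame. -/
def sgF (f : Frm) : F2 :=
  (if f.1.2.1.1 = f.1.1.1 + 1 then 0 else 1) + sgnD f.1.1 + sgnD f.1.2.1 + sgnD f.1.2.2

def l3a (x : LF) : LF :=
  (x.1 + dv (d1 x), ⟨((d1 x).neg, d2 x, d3 x), x.2.2⟩)

def l3b (x : LF) : LF :=
  (x.1, ⟨(d2 x, d1 x, d3 x), fun h => x.2.2.1 h.symm, x.2.2.2.2, x.2.2.2.1⟩)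

def l3c (x : LF) : LF :=
  (x.1, ⟨(d1 x, d2 x, (d3 x).neg), x.2.2⟩)

def l3d (x : LF) : LF :=
  (x.1, ⟨(d1 x, d3 x, d2 x), x.2.2.2.1, x.2.2.1, fun h => x.2.2.2.2 h.symm⟩)

/-! ### Auxiliary facts on frames -/

local instance l3_decFrm : DecidableEq Frm := fun f f' =>
  decidable_of_iff (f.1 = f'.1) Subtype.ext_iff.symm

/-- The maps on frames. -/
def l3_fa (f : Frm) : Frm := ⟨(f.1.1.neg, f.1.2.1, f.1.2.2), f.2⟩

def l3_fb (f : Frm) : Frm := ⟨(f.1.2.1, f.1.1, f.1.2.2), fun h => f.2.1 h.symm, f.2.2.2, f.2.2.1⟩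

def l3_fc (f : Frm) : Frm := ⟨(f.1.1, f.1.2.1, f.1.2.2.neg), f.2⟩

def l3_fd (f : Frm) : Frm := ⟨(f.1.1, f.1.2.2, f.1.2.1), f.2.2.1, f.2.1, fun h => f.2.2.2 h.symm⟩

theorem l3_neg_neg (d : Dir) : d.neg.neg = d := by
  obtain ⟨i, s⟩ := d
  simp [Dir.neg]

theorem l3_dv_neg (d : Dir) : dv d.neg = -dv d := by
  obtain ⟨i, s⟩ := d
  cases s <;> simp [Dir.neg, dv]

theorem l3_pv_neg (d : Dir) : dv d + pv d.neg = pv d := by
  obtain ⟨i, s⟩ := d
  cases s <;> simp [Dir.neg, dv, pv]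

theorem l3_sgD_neg (d : Dir) : sgnD d.neg = sgnD d + 1 := by
  obtain ⟨i, s⟩ := d
  cases s <;> simp [Dir.neg, sgnD, show (1 : F2) + 1 = 0 from rfl]

theorem l3_sga : ∀ f : Frm, sgF (l3_fa f) = sgF f + 1 := by decide

theorem l3_sgb : ∀ f : Frm, sgF (l3_fb f) = sgF f + 1 := by decide

theorem l3_sgc : ∀ f : Frm, sgF (l3_fc f) = sgF f + 1 := by decide

theorem l3_sgd : ∀ f : Frm, sgF (l3_fd f) = sgF f + 1 := by decide

/-- The sign of the axis `i` in the frame `f`. -/
def l3_sa (f : Frm) (i : Fin 3) : Bool :=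
  if f.1.1.1 = i then f.1.1.2 else if f.1.2.1.1 = i then f.1.2.1.2 else f.1.2.2.2

theorem l3_sa_b : ∀ (f : Frm) (i : Fin 3), l3_sa (l3_fb f) i = l3_sa f i := by decide

theorem l3_sa_d : ∀ (f : Frm) (i : Fin 3), l3_sa (l3_fd f) i = l3_sa f i := by decide

/-- frames with the first two axes `1, 2`, `0, 2`, `0, 1`. -/
def l3_f0 (s1 s2 u : Bool) : Frm := ⟨((1, s1), (2, s2), (0, u)), by simp⟩

def l3_f1 (s0 s2 u : Bool) : Frm := ⟨((0, s0), (2, s2), (1, u)), by simp⟩

def l3_f2 (s0 s1 u : Bool) : Frm := ⟨((0, s0), (1, s1), (2, u)), by simp⟩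

/-- Every frame is one of these up to `b`. -/
theorem l3_norm_lt : ∀ f : Frm, f.1.1.1 < f.1.2.1.1 →
    f = l3_f0 f.1.1.2 f.1.2.1.2 f.1.2.2.2 ∨ f = l3_f1 f.1.1.2 f.1.2.1.2 f.1.2.2.2 ∨
      f = l3_f2 f.1.1.2 f.1.2.1.2 f.1.2.2.2 := by decide

theorem l3_norm (f : Frm) : (∃ s t u, f = l3_f0 s t u ∨ f = l3_f1 s t u ∨ f = l3_f2 s t u) ∨
    ∃ s t u, l3_fb f = l3_f0 s t u ∨ l3_fb f = l3_f1 s t u ∨ l3_fb f = l3_f2 s t u := by
  rcases lt_or_gt_of_ne f.2.1 with h | h
  · exact Or.inl ⟨_, _, _, l3_norm_lt f h⟩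
  · exact Or.inr ⟨_, _, _, l3_norm_lt (l3_fb f) h⟩

theorem l3_fbb (f : Frm) : l3_fb (l3_fb f) = f := rfl

theorem l3_planar (g D : Frm → F2) (hgb : ∀ f, g (l3_fb f) = g f) (hgc : ∀ f, g (l3_fc f) = g f)
    (hDd : ∀ f, D (l3_fd f) = D f) (hDg : ∀ f, D f + D (l3_fc f) = g f) :
    ∃ G : Frm → F2, (∀ f, G (l3_fb f) = G f) ∧ (∀ f, G (l3_fd f) = G f) ∧
      ∀ f, G f + G (l3_fc f) = g f := by
  -- the values of `g`
  have g0 : ∀ s t u, g (l3_f0 s t u) = g (l3_f0 s t true) := by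
    intro s t u
    cases u
    · exact (hgc (l3_f0 s t false)).symm.trans (congrArg g (by rfl))
    · rfl
  have g1 : ∀ s t u, g (l3_f1 s t u) = g (l3_f1 s t true) := by
    intro s t u
    cases u
    · exact (hgc (l3_f1 s t false)).symm.trans (congrArg g (by rfl))
    · rfl
  have g2 : ∀ s t u, g (l3_f2 s t u) = g (l3_f2 s t true) := by
    intro s t u
    cases u
    · exact (hgc (l3_f2 s t false)).symm.trans (congrArg g (by rfl))
    · rfl
  -- the relations around a direction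
  have rel : ∀ f : Frm, g f + g (l3_fd (l3_fc f)) + g (l3_fc f |> l3_fd |> l3_fc |> l3_fd) +
      g (l3_fc f |> l3_fd |> l3_fc |> l3_fd |> l3_fc |> l3_fd) = 0 := by
    intro f
    rw [← hDg f, ← hDg (l3_fd (l3_fc f)), ← hDg (l3_fc f |> l3_fd |> l3_fc |> l3_fd),
      ← hDg (l3_fc f |> l3_fd |> l3_fc |> l3_fd |> l3_fc |> l3_fd)]
    simp only [hDd]
    have e : D (l3_fc (l3_fd (l3_fc (l3_fd (l3_fc (l3_fd (l3_fc f))))))) = D f := by
      have := hDd (l3_fc (l3_fd (l3_fc (l3_fd (l3_fc (l3_fd (l3_fc f)))))))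
      rw [← this]
      congr 1
      apply Subtype.ext
      obtain ⟨⟨p, q, r⟩, h⟩ := f
      simp [l3_fc, l3_fd, l3_neg_neg]
    rw [e]
    have h2 : (2 : F2) = 0 := rfl
    linear_combination (D f + D (l3_fc f) + D (l3_fc (l3_fd (l3_fc f))) +
      D (l3_fc (l3_fd (l3_fc (l3_fd (l3_fc f)))))) * h2
  have r0 : ∀ s0, g (l3_f2 s0 true true) + g (l3_f2 s0 false true) + g (l3_f1 s0 true true) +
      g (l3_f1 s0 false true) = 0 := by
    intro s0
    have h := rel (l3_f2 s0 true true)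
    have e1 : l3_fd (l3_fc (l3_f2 s0 true true)) = l3_f1 s0 false true := rfl
    have e2 : l3_fd (l3_fc (l3_fd (l3_fc (l3_f2 s0 true true)))) = l3_f2 s0 false false := rfl
    have e3 : l3_fd (l3_fc (l3_fd (l3_fc (l3_fd (l3_fc (l3_f2 s0 true true)))))) =
      l3_f1 s0 true false := rfl
    rw [e3, e2, e1] at h
    rw [g2 s0 false false, g1 s0 true false] at h
    rw [← h]; ring
  have r1 : ∀ s1, g (l3_f0 s1 true true) + g (l3_f0 s1 false true) + g (l3_f2 true s1 true) +
      g (l3_f2 false s1 true) = 0 := by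
    intro s1
    have h := rel (l3_f0 s1 true true)
    have e1 : l3_fd (l3_fc (l3_f0 s1 true true)) = l3_fb (l3_f2 false s1 true) := rfl
    have e2 : l3_fd (l3_fc (l3_fd (l3_fc (l3_f0 s1 true true)))) = l3_f0 s1 false false := rfl
    have e3 : l3_fd (l3_fc (l3_fd (l3_fc (l3_fd (l3_fc (l3_f0 s1 true true)))))) =
      l3_fb (l3_f2 true s1 false) := rfl
    rw [e3, e2, e1] at h
    rw [hgb, hgb, g0 s1 false false, g2 true s1 false] at h
    rw [← h]; ring
  have r2 : ∀ s2, g (l3_f0 true s2 true) + g (l3_f0 false s2 true) + g (l3_f1 true s2 true) +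
      g (l3_f1 false s2 true) = 0 := by
    intro s2
    have h := rel (l3_fb (l3_f0 true s2 true))
    have e1 : l3_fd (l3_fc (l3_fb (l3_f0 true s2 true))) = l3_fb (l3_f1 false s2 true) := rfl
    have e2 : l3_fd (l3_fc (l3_fd (l3_fc (l3_fb (l3_f0 true s2 true))))) =
      l3_fb (l3_f0 false s2 false) := rfl
    have e3 : l3_fd (l3_fc (l3_fd (l3_fc (l3_fd (l3_fc (l3_fb (l3_f0 true s2 true))))))) =
      l3_fb (l3_f1 true s2 false) := rfl
    rw [e3, e2, e1] at h
    rw [hgb, hgb, hgb, hgb, g0 false s2 false, g1 true s2 false] at h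
    rw [← h]; ring
  -- the function
  let H : Bool → Bool → Bool → F2 := fun s0 s1 s2 =>
    (if s0 then 0 else g (l3_f0 true true true)) + (if s1 then 0 else g (l3_f1 s0 true true)) +
      (if s2 then 0 else g (l3_f2 s0 s1 true))
  have h2 : (2 : F2) = 0 := rfl
  have H2 : ∀ s0 s1 u, H s0 s1 u + H s0 s1 (!u) = g (l3_f2 s0 s1 true) := by
    intro s0 s1 u
    cases u
    · simp only [H, Bool.not_false, if_true, Bool.false_eq_true, if_false]
      linear_combination ((if s0 then 0 else g (l3_f0 true true true)) +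
        (if s1 then 0 else g (l3_f1 s0 true true))) * h2
    · simp only [H, Bool.not_true, if_true, Bool.false_eq_true, if_false]
      linear_combination ((if s0 then 0 else g (l3_f0 true true true)) +
        (if s1 then 0 else g (l3_f1 s0 true true))) * h2
  have H1 : ∀ s0 s2 u, H s0 u s2 + H s0 (!u) s2 = g (l3_f1 s0 s2 true) := by
    intro s0 s2 u
    have k : H s0 true s2 + H s0 false s2 = g (l3_f1 s0 s2 true) := by
      cases s2
      · simp only [H, if_true, Bool.false_eq_true, if_false]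
        linear_combination (if s0 then 0 else g (l3_f0 true true true)) * h2 + r0 s0 -
          g (l3_f1 s0 false true) * h2
      · simp only [H, if_true, Bool.false_eq_true, if_false]
        linear_combination (if s0 then 0 else g (l3_f0 true true true)) * h2
    cases u
    · rw [Bool.not_false, add_comm]; exact k
    · exact k
  have H0 : ∀ s1 s2 u, H u s1 s2 + H (!u) s1 s2 = g (l3_f0 s1 s2 true) := by
    intro s1 s2 u
    have k : H true s1 s2 + H false s1 s2 = g (l3_f0 s1 s2 true) := by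
      cases s1 <;> cases s2
      · simp only [H, if_true, Bool.false_eq_true, if_false]
        linear_combination r1 false + r2 true - g (l3_f0 false true true) * h2 -
          g (l3_f0 false false true) * h2
      · simp only [H, if_true, Bool.false_eq_true, if_false]
        linear_combination r2 true - g (l3_f0 false true true) * h2
      · simp only [H, if_true, Bool.false_eq_true, if_false]
        linear_combination r1 true - g (l3_f0 true false true) * h2
      · simp only [H, if_true, Bool.false_eq_true, if_false]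
        ring
    cases u
    · rw [Bool.not_false, add_comm]; exact k
    · exact k
  have hc : ∀ f : Frm, (∃ s t u, f = l3_f0 s t u ∨ f = l3_f1 s t u ∨ f = l3_f2 s t u) →
      H (l3_sa f 0) (l3_sa f 1) (l3_sa f 2) +
        H (l3_sa (l3_fc f) 0) (l3_sa (l3_fc f) 1) (l3_sa (l3_fc f) 2) = g f := by
    rintro f ⟨s, t, u, rfl | rfl | rfl⟩
    · exact (H0 s t u).trans (g0 s t u).symm
    · exact (H1 s t u).trans (g1 s t u).symm
    · exact (H2 s t u).trans (g2 s t u).symm
  refine ⟨fun f => H (l3_sa f 0) (l3_sa f 1) (l3_sa f 2), fun f => ?_, fun f => ?_, fun f => ?_⟩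
  · simp only [l3_sa_b]
  · simp only [l3_sa_d]
  · rcases l3_norm f with h | h
    · exact hc f h
    · have h3 := hc (l3_fb f) h
      have e : l3_fc (l3_fb f) = l3_fb (l3_fc f) := rfl
      rw [e] at h3
      simp only [l3_sa_b] at h3
      rw [hgb] at h3
      exact h3

/-- The complex of all unit squares. -/
def L3 : TMap LF where
  a := l3a
  b := l3b
  c := l3c
  d := l3d
  sg := fun x => sgF x.2
  en := fun x => sgnD (d1 x)
  sd := fun x => sgnD (d3 x)
  aa := by
    rintro ⟨v, ⟨⟨p, q, r⟩, h⟩⟩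
    simp [l3a, d1, d2, d3, l3_neg_neg, l3_dv_neg]
  bb := fun x => rfl
  cc := by
    rintro ⟨v, ⟨⟨p, q, r⟩, h⟩⟩
    simp [l3c, d1, d2, d3, l3_neg_neg]
  dd := fun x => rfl
  ac := fun x => rfl
  ad := fun x => rfl
  bc := fun x => rfl
  sga := fun x => l3_sga x.2
  sgb := fun x => l3_sgb x.2
  sgc := fun x => l3_sgc x.2
  sgd := fun x => l3_sgd x.2
  ena := fun x => l3_sgD_neg (d1 x)
  enc := fun x => rfl
  end' := fun x => rfl
  sda := fun x => rfl
  sdb := fun x => rfl
  sdc := fun x => l3_sgD_neg (d3 x)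
  per := by
    rintro ⟨v, ⟨⟨p, q, r⟩, h⟩⟩
    refine ⟨4, by norm_num, ?_⟩
    simp [l3c, l3d, d1, d2, d3, l3_neg_neg]
  planar := by
    intro g D hgb hgc hDd hDg
    have := fun v : P3 => l3_planar (fun f => g (v, f)) (fun f => D (v, f))
      (fun f => hgb (v, f)) (fun f => hgc (v, f)) (fun f => hDd (v, f)) (fun f => hDg (v, f))
    choose G h1 h2 h3 using this
    exact ⟨fun x => G x.1 x.2, fun x => h1 x.1 x.2, fun x => h2 x.1 x.2, fun x => h3 x.1 x.2⟩

theorem l3_CD_inv {x y : LF} (h : L3.CD x y) : x.1 = y.1 ∧ d1 x = d1 y := by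
  induction h with
  | rel u v hr =>
    obtain ⟨f, hf, rfl⟩ := hr
    simp only [List.mem_cons, List.not_mem_nil, or_false] at hf
    rcases hf with rfl | rfl
    · exact ⟨rfl, rfl⟩
    · exact ⟨rfl, rfl⟩
  | refl u => exact ⟨rfl, rfl⟩
  | symm u v _ ih => exact ⟨ih.1.symm, ih.2.symm⟩
  | trans u v w _ _ ih1 ih2 => exact ⟨ih1.1.trans ih2.1, ih1.2.trans ih2.2⟩

theorem l3_orb : ∀ f f' : Frm, f.1.1 = f'.1.1 →
    f' = f ∨ f' = l3_fc f ∨ f' = l3_fd f ∨ f' = l3_fc (l3_fd f) ∨ f' = l3_fd (l3_fc f) ∨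
    f' = l3_fc (l3_fd (l3_fc f)) ∨ f' = l3_fd (l3_fc (l3_fd f)) ∨
    f' = l3_fc (l3_fd (l3_fc (l3_fd f))) := by
  decide

theorem l3_CD_of {x y : LF} (h1 : x.1 = y.1) (h2 : d1 x = d1 y) : L3.CD x y := by
  obtain ⟨v, f⟩ := x
  obtain ⟨w, f'⟩ := y
  obtain rfl : v = w := h1
  have hc : ∀ u : LF, L3.CD u (u.1, l3_fc u.2) := fun u => TMap.CD.c L3 u
  have hd : ∀ u : LF, L3.CD u (u.1, l3_fd u.2) := fun u => TMap.CD.d L3 u
  rcases l3_orb f f' h2 with rfl | rfl | rfl | rfl | rfl | rfl | rfl | rfl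
  · exact TMap.CD.refl L3 _
  · exact hc _
  · exact hd _
  · exact (hd _).trans (hc _)
  · exact (hc _).trans (hd _)
  · exact ((hc _).trans (hd _)).trans (hc _)
  · exact ((hd _).trans (hc _)).trans (hd _)
  · exact (((hd _).trans (hc _)).trans (hd _)).trans (hc _)

theorem l3_face4 (x : LF) : (fun y => l3b (l3a y))^[4] x = x := by
  obtain ⟨v, ⟨⟨p, q, r⟩, h⟩⟩ := x
  simp only [l3a, l3b, d1, d2, d3, l3_neg_neg, l3_dv_neg, Function.iterate_succ_apply,
    Function.iterate_zero_apply, Prod.mk.injEq, and_true]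
  abel

theorem l3_face_ne (x : LF) (j : ℕ) (hj0 : 0 < j) (hj4 : j < 4) :
    (fun y => l3b (l3a y))^[j] x ≠ x := by
  obtain ⟨v, ⟨⟨⟨i, s⟩, ⟨k, t⟩, r⟩, h⟩⟩ := x
  intro he
  have h1 := congrArg (fun y : LF => y.2.1.1) he
  obtain rfl | rfl | rfl : j = 1 ∨ j = 2 ∨ j = 3 := by omega
  · simp [l3a, l3b, d1, d2, d3, Dir.neg] at h1
    exact h.1 h1.1.symm
  · simp [l3a, l3b, d1, d2, d3, Dir.neg] at h1
  · simp [l3a, l3b, d1, d2, d3, Dir.neg] at h1
    exact h.1 h1.1.symm

/-- The largest corner of the square. -/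
def upc (x : LF) : P3 := x.1 + pv (d1 x) + pv (d2 x)

/-- The square is pierced by an edge of `K`.  (The edge of `K` from `p` to `p + e3 i`, shifted by
`-(1/2, 1/2, 1/2)`, pierces the square with largest corner `p` which is perpendicular to the
direction `i`.) -/
def pc (K : Finset LE) (x : LF) : Prop := (upc x, (d3 x).1) ∈ K

instance (K : Finset LE) (x : LF) : Decidable (pc K x) := inferInstanceAs (Decidable (_ ∈ _))

theorem isSub_pc (K : Finset LE) : L3.IsSub fun x => ¬ pc K x := by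
  have ha : ∀ x, upc (l3a x) = upc x := by
    intro x
    have := l3_pv_neg (d1 x)
    show x.1 + dv (d1 x) + pv (d1 x).neg + pv (d2 x) = x.1 + pv (d1 x) + pv (d2 x)
    rw [add_assoc x.1, this]
  have hb : ∀ x, upc (l3b x) = upc x := by
    intro x
    show x.1 + pv (d2 x) + pv (d1 x) = x.1 + pv (d1 x) + pv (d2 x)
    rw [add_assoc, add_assoc, add_comm (pv (d2 x))]
  constructor
  · intro x
    show ¬ ((upc (l3a x), (d3 x).1) ∈ K) ↔ ¬ ((upc x, (d3 x).1) ∈ K)
    rw [ha]
  · intro x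
    show ¬ ((upc (l3b x), (d3 x).1) ∈ K) ↔ ¬ ((upc x, (d3 x).1) ∈ K)
    rw [hb]
  · intro x
    exact Iff.rfl

/-- The complex of the squares which are not pierced by `K`. -/
noncomputable def EK (K : Finset LE) : TMap {x : LF // ¬ pc K x} := L3.sub (isSub_pc K)

theorem EK_a (K : Finset LE) (x : {x : LF // ¬ pc K x}) : ((EK K).a x).1 = l3a x.1 := rfl

theorem EK_b (K : Finset LE) (x : {x : LF // ¬ pc K x}) : ((EK K).b x).1 = l3b x.1 := rfl

theorem EK_c (K : Finset LE) (x : {x : LF // ¬ pc K x}) : ((EK K).c x).1 = l3c x.1 := rfl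

/-- Rotation to the neighbouring square. -/
theorem EK_d {K : Finset LE} {x : {x : LF // ¬ pc K x}} (h : ¬ pc K (l3d x.1)) :
    ((EK K).d x).1 = l3d x.1 := L3.sub_d_eq (isSub_pc K) x h

/-- Rotation over one pierced square. -/
theorem EK_d2 {K : Finset LE} {x : {x : LF // ¬ pc K x}} (h : pc K (l3d x.1))
    (h' : ¬ pc K (l3d (l3c (l3d x.1)))) : ((EK K).d x).1 = l3d (l3c (l3d x.1)) := by
  refine (L3.fr (isSub_pc K)).fr_ret_eq (n := 1) h' ?_
  intro m hm
  obtain rfl : m = 0 := by omega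
  exact fun h0 => h0 h

/-- Rotation over two pierced squares. -/
theorem EK_d3 {K : Finset LE} {x : {x : LF // ¬ pc K x}} (h : pc K (l3d x.1))
    (h' : pc K (l3d (l3c (l3d x.1)))) (h'' : ¬ pc K (l3d (l3c (l3d (l3c (l3d x.1)))))) :
    ((EK K).d x).1 = l3d (l3c (l3d (l3c (l3d x.1)))) := by
  refine (L3.fr (isSub_pc K)).fr_ret_eq (n := 2) h'' ?_
  intro m hm
  obtain rfl | rfl : m = 0 ∨ m = 1 := by omega
  · exact fun h0 => h0 h
  · exact fun h0 => h0 h' 

/-- Two flags which are not pierced belong to the same end of the same edge if and only if they have the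
same vertex and the same first direction. -/
theorem EK_CD {K : Finset LE} {x y : {x : LF // ¬ pc K x}} :
    (EK K).CD x y ↔ x.1.1 = y.1.1 ∧ d1 x.1 = d1 y.1 := by
  refine (L3.sub_CD (isSub_pc K)).trans ⟨fun h => ?_, fun h => ?_⟩
  · exact l3_CD_inv h
  · exact l3_CD_of h.1 h.2

/-- All faces are squares. -/
theorem EK_faceSize (K : Finset LE) (x : {x : LF // ¬ pc K x}) : (EK K).FaceSize x 4 := by
  have hit : ∀ (k : ℕ) (x : {x : LF // ¬ pc K x}),
      ((fun y => (EK K).b ((EK K).a y))^[k] x).1 = (fun y => l3b (l3a y))^[k] x.1 := by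
    intro k
    induction k with
    | zero => intro x; rfl
    | succ k ih =>
      intro x
      rw [Function.iterate_succ_apply, Function.iterate_succ_apply, ih]
      rfl
  refine ⟨by norm_num, ?_, ?_⟩
  · apply Subtype.ext
    rw [hit]
    exact l3_face4 x.1
  · intro j hj0 hj4 h
    have h1 := congrArg Subtype.val h
    rw [hit] at h1
    exact l3_face_ne x.1 j hj0 hj4 h1

end Pool.Agent.Lib.MP_131179_gt.Dehn
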