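import Pool.Agent.Lib.MP_131179_gt.Dehn.Run

/-!
# Labelled runs

The labels of the strands depend on the time; `F j s` is the label of the strand at the point `s` after
`j` steps.
-/

set_option autoImplicit false

namespace Pool.Agent.Lib.MP_131179_gt.Dehn

variable {C : Type}

/-- The labelled word of a list of edges, starting at the time `j`. -/
def runL (F : ℕ → Site → C) : ℕ → Finset Site → List HE → Word C
  | _, _, [] => []
  | j, P, e :: es => wd (F (j + 1)) P e ++ runL F (j + 1) (nxs P e) es

theorem erase_runL (F : ℕ → Site → C) (j : ℕ) (P : Finset Site) (es : List HE) :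
    wmap (fun _ => ()) (runL F j P es) = run1 P es := by
  induction es generalizing j P with
  | nil => rfl
  | cons e es ih => simp only [runL, run1, run, wmap_append, wmap_wd, ih]

theorem runL_append (F : ℕ → Site → C) (j : ℕ) (P : Finset Site) (es es' : List HE) :
    runL F j P (es ++ es') = runL F j P es ++ runL F (j + es.length) (fin P es) es' := by
  induction es generalizing j P with
  | nil => rfl
  | cons e es ih =>
    simp only [List.cons_append, runL, fin, ih, List.append_assoc, List.length_cons]
    rw [show j + 1 + es.length = j + (es.length + 1) by omega]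

/-- A labelled run is a path if all its steps are. -/
theorem runL_path {Q : Palette C} (F : ℕ → Site → C) (P : Finset Site) (es : List HE)
    (h : ∀ i e, es[i]? = some e → Path Q (wd (F (i + 1)) (fin P (es.take i)) e)
      (lst (F i) (fin P (es.take i))) (lst (F (i + 1)) (fin P (es.take (i + 1))))) (i : ℕ)
    (hi : i ≤ es.length) :
    Path Q (runL F 0 P (es.take i)) (lst (F 0) P) (lst (F i) (fin P (es.take i))) := by
  induction i with
  | zero => exact Path.nil _
  | succ i ih =>
    have h1 : i < es.length := hi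
    have h2 : es.take (i + 1) = es.take i ++ [es[i]] := by
      rw [List.take_succ_eq_append_getElem h1]
    have h3 := h i es[i] (List.getElem?_eq_getElem h1)
    have h4 := (ih h1.le).append h3
    rw [h2, runL_append]
    rw [h2] at h4
    have h5 : (es.take i).length = i := by simp [h1.le]
    rw [h5]
    simpa [runL] using h4

theorem LabRun_ctx {Q : Palette C} {w : Word C} {s t : List C} (h : Path Q w s t) (L R : List C)
    {s' t' : List C} (hs : s' = L ++ (s ++ R)) (ht : t' = L ++ (t ++ R)) :
    Path Q (shift L.length w) s' t' := by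
  subst hs ht
  exact (h.right R).left L

theorem LabRun_crR_act {Q : Palette C} (hact : ∀ x y, Q.act x y = x) (z : ℤ) (x : C) (f : Site → C)
    (B : List Site) :
    Path Q (crR z 0 B) (x :: B.map f) (B.map f ++ [x]) := by
  induction B with
  | nil => exact Path.nil _
  | cons b B ih =>
    rw [crR, crR_shift z 0 1]
    have h1 : Path Q (shift [f b].length (crR z 0 B)) ([f b] ++ (x :: B.map f))
        ([f b] ++ (B.map f ++ [x])) := ih.left [f b]
    refine Path.cons ?_ h1
    split_ifs
    · have := Step.neg (P := Q) x (f b) (B.map f)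
      rw [hact] at this
      exact this
    · have := Step.pos (P := Q) x (f b) (B.map f)
      rw [hact] at this
      exact this

theorem LabRun_crL_act {Q : Palette C} (hact : ∀ x y, Q.act x y = x) (z : ℤ) (x : C) (f : Site → C)
    (B : List Site) :
    Path Q (crL z 0 B) (B.map f ++ [x]) (x :: B.map f) := by
  induction B with
  | nil => exact Path.nil _
  | cons b B ih =>
    rw [crL, crL_shift z 0 1]
    have h1 : Path Q (shift [f b].length (crL z 0 B)) ([f b] ++ (B.map f ++ [x]))
        ([f b] ++ (x :: B.map f)) := ih.left [f b]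
    refine h1.append (path_single_iff.2 ?_)
    split_ifs
    · have := Step.pos (P := Q) (f b) x (B.map f)
      rw [hact] at this
      exact this
    · have := Step.neg (P := Q) (f b) x (B.map f)
      rw [hact] at this
      exact this

theorem LabRun_crR_shift0 (z : ℤ) (r : ℕ) (B : List Site) :
    (crR z r B : Word C) = shift r (crR z 0 B) := by
  have h := crR_shift (C := C) z 0 r B
  rwa [Nat.zero_add] at h

theorem LabRun_crL_shift0 (z : ℤ) (r : ℕ) (B : List Site) :
    (crL z r B : Word C) = shift r (crL z 0 B) := by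
  have h := crL_shift (C := C) z 0 r B
  rwa [Nat.zero_add] at h

theorem LabRun_map_congr {f f' : Site → C} {S : Finset Site} (h : ∀ s ∈ S, f' s = f s) :
    (S.sort (· ≤ ·)).map f' = (S.sort (· ≤ ·)).map f := by
  apply List.map_congr_left
  intro s hs
  rw [Finset.mem_sort] at hs
  exact h s hs

theorem LabRun_mem_lef {P : Finset Site} {a s : Site} : s ∈ lef P a ↔ s ∈ P ∧ s < a := by
  unfold lef
  rw [Finset.mem_sort, Finset.mem_filter]

theorem LabRun_mem_rig {P : Finset Site} {a s : Site} : s ∈ rig P a ↔ s ∈ P ∧ a < s := by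
  unfold rig
  rw [Finset.mem_sort, Finset.mem_filter]

theorem LabRun_mem_btw {P : Finset Site} {e : HE} {s : Site} :
    s ∈ btw P e ↔ s ∈ P ∧ e.lo < s ∧ s < e.hi := by
  unfold btw
  rw [Finset.mem_sort, Finset.mem_filter]

/-- Palettes in which the labels do not change at the crossings. -/
theorem wd_path_act {Q : Palette C} (hact : ∀ x y, Q.act x y = x) {f f' : Site → C}
    {P : Finset Site} {e : HE} (h : ∀ s ∈ P, s ≠ e.lo → s ≠ e.hi → f' s = f s)
    (hr : e.lo ∈ P → e.hi ∉ P → f' e.hi = f e.lo) (hl : e.lo ∉ P → e.hi ∈ P → f' e.lo = f e.hi)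
    (hb : e.lo ∉ P → e.hi ∉ P → f' e.hi = Q.bar (f' e.lo))
    (hd : e.lo ∈ P → e.hi ∈ P → f e.hi = Q.bar (f e.lo)) :
    Path Q (wd f' P e) (lst f P) (lst f' (nxs P e)) := by
  have hL : ((lef P e.lo).map f).length = rk P e.lo := by
    rw [List.length_map, length_lef]
  have m1 : (lef P e.lo).map f' = (lef P e.lo).map f := by
    apply List.map_congr_left
    intro s hs
    rw [LabRun_mem_lef] at hs
    exact h s hs.1 hs.2.ne (hs.2.trans e.lo_lt_hi).ne
  have m2 : (btw P e).map f' = (btw P e).map f := by
    apply List.map_congr_left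
    intro s hs
    rw [LabRun_mem_btw] at hs
    exact h s hs.1 hs.2.1.ne' hs.2.2.ne
  have m3 : (rig P e.hi).map f' = (rig P e.hi).map f := by
    apply List.map_congr_left
    intro s hs
    rw [LabRun_mem_rig] at hs
    exact h s hs.1 (e.lo_lt_hi.trans hs.2).ne' hs.2.ne'
  unfold lst
  rw [sort_edge P e, sort_edge (nxs P e) e, lef_nxs, rig_nxs, btw_nxs]
  unfold opt wd
  simp only [lo_mem_nxs, hi_mem_nxs]
  by_cases h1 : e.lo ∈ P <;> by_cases h2 : e.hi ∈ P
  · simp only [h1, h2, if_true, not_true_eq_false, if_false, List.map_append, List.map_cons,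
      List.map_nil, List.nil_append, m1, m2, m3]
    have a1 : Path Q (crL (cz e.lo) (rk P e.lo + 1) (btw P e))
        (((lef P e.lo).map f ++ [f e.lo]) ++ (((btw P e).map f ++ [f e.hi]) ++ (rig P e.hi).map f))
        (((lef P e.lo).map f ++ [f e.lo]) ++ ((f e.hi :: (btw P e).map f) ++ (rig P e.hi).map f)) := by
      rw [LabRun_crL_shift0]
      have := ((LabRun_crL_act hact (cz e.lo) (f e.hi) f (btw P e)).right ((rig P e.hi).map f)).left
        ((lef P e.lo).map f ++ [f e.lo])
      rw [List.length_append, hL] at this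
      exact this
    have a3 := (Step.cap (P := Q) (f e.lo)
        ((btw P e).map f ++ (rig P e.hi).map f)).left ((lef P e.lo).map f)
    rw [hL, Nat.zero_add, ← hd h1 h2] at a3
    have a2 := path_single_iff.2 a3
    refine Path.append (t := ((lef P e.lo).map f ++ [f e.lo]) ++
      ((f e.hi :: (btw P e).map f) ++ (rig P e.hi).map f)) (a1.cast ?_ rfl) (a2.cast ?_ rfl)
    · simp
    · simp
  · simp only [h1, h2, if_true, not_true_eq_false, not_false_eq_true, if_false, List.map_append,
      List.map_cons, List.map_nil, List.nil_append, m1, m2, m3]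
    rw [hr h1 h2, LabRun_crR_shift0, ← hL]
    exact LabRun_ctx (LabRun_crR_act hact (cz e.lo) (f e.lo) f (btw P e)) _ ((rig P e.hi).map f)
      (by simp) (by simp)
  · simp only [h1, h2, if_true, not_true_eq_false, not_false_eq_true, if_false, List.map_append,
      List.map_cons, List.map_nil, List.nil_append, m1, m2, m3]
    rw [hl h1 h2, LabRun_crL_shift0, ← hL]
    exact LabRun_ctx (LabRun_crL_act hact (cz e.lo) (f e.hi) f (btw P e)) _ ((rig P e.hi).map f)
      (by simp) (by simp)
  · simp only [h1, h2, not_false_eq_true, if_true, if_false, List.map_append,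
      List.map_cons, List.map_nil, List.nil_append, m1, m2, m3]
    have a3 := (Step.cup (P := Q) (f' e.lo)
      ((btw P e).map f ++ (rig P e.hi).map f)).left ((lef P e.lo).map f)
    rw [hL, Nat.zero_add, ← hb h1 h2] at a3
    refine Path.cons a3 ?_
    have hL2 : ((lef P e.lo).map f ++ [f' e.lo]).length = rk P e.lo + 1 := by
      rw [List.length_append, hL]; rfl
    rw [LabRun_crR_shift0, ← hL2]
    exact LabRun_ctx (LabRun_crR_act hact (cz e.lo) (f' e.hi) f (btw P e)) _ ((rig P e.hi).map f)
      (by simp) (by simp)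

/-- How the labels of the horizontal edges change, when a strand moves along `e`. -/
def GStep {Γ : Type} [Group Γ] (G G' : ℤ → ℤ → Γ) : HE → Prop
  | .ez i k => ∀ x z, (x, z) ≠ (i, k + 1) → G' x z = G x z
  | .ex i k => ∃ y : Γ, ∀ x z, G' x z =
      (if x = i + 1 ∧ z ≤ k then y⁻¹ else 1) * G x z * (if x = i ∧ z ≤ k then y else 1)

/-- The label of a strand. -/
def lab {Γ : Type} [Group Γ] (G : ℤ → ℤ → Γ) (s : Site) : Γ := G (cx s) (cz s) * (G (cx s) (cz s + 1))⁻¹

section Conj

variable {Γ : Type} [Group Γ]

theorem LabRun_crR_under (z : ℤ) (x : Γ) (f : Site → Γ) (B : List Site) (hB : ∀ b ∈ B, z < cz b) :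
    Path (conj Γ) (crR z 0 B) (x :: B.map f)
      (B.map f ++ [(B.map f).prod⁻¹ * x * (B.map f).prod]) := by
  induction B generalizing x with
  | nil =>
    simp only [crR, List.map_nil, List.prod_nil, inv_one, one_mul, mul_one, List.nil_append]
    exact Path.nil _
  | cons b B ih =>
    rw [crR, crR_shift z 0 1, if_pos (hB b List.mem_cons_self)]
    have h1 := (ih ((f b)⁻¹ * x * f b) fun c hc => hB c (List.mem_cons_of_mem _ hc)).left [f b]
    refine Path.cons (Step.neg (P := conj Γ) x (f b) (B.map f)) ?_
    refine h1.cast rfl ?_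
    simp only [List.map_cons, List.prod_cons, List.cons_append, List.nil_append, mul_inv_rev,
      mul_assoc]

theorem LabRun_crR_over (z : ℤ) (x : Γ) (f : Site → Γ) (B : List Site) (hB : ∀ b ∈ B, ¬ z < cz b) :
    Path (conj Γ) (crR z 0 B) (x :: B.map f)
      (B.map (fun b => x * f b * x⁻¹) ++ [x]) := by
  induction B with
  | nil => exact Path.nil _
  | cons b B ih =>
    rw [crR, crR_shift z 0 1, if_neg (hB b List.mem_cons_self)]
    have h1 := (ih fun c hc => hB c (List.mem_cons_of_mem _ hc)).left [x * f b * x⁻¹]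
    refine Path.cons (Step.pos (P := conj Γ) x (f b) (B.map f)) ?_
    refine h1.cast ?_ rfl
    show _ = ((x⁻¹)⁻¹ * f b * x⁻¹) :: x :: B.map f
    rw [inv_inv]
    rfl

theorem LabRun_crL_under (z : ℤ) (x : Γ) (f : Site → Γ) (B : List Site) (hB : ∀ b ∈ B, z < cz b) :
    Path (conj Γ) (crL z 0 B) (B.map f ++ [x])
      (((B.map f).prod * x * (B.map f).prod⁻¹) :: B.map f) := by
  induction B with
  | nil =>
    simp only [crL, List.map_nil, List.prod_nil, inv_one, one_mul, mul_one, List.nil_append]
    exact Path.nil _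
  | cons b B ih =>
    rw [crL, crL_shift z 0 1, if_pos (hB b List.mem_cons_self)]
    have h1 := (ih fun c hc => hB c (List.mem_cons_of_mem _ hc)).left [f b]
    refine h1.append (path_single_iff.2 ?_)
    have h2 := Step.pos (P := conj Γ) (f b) ((B.map f).prod * x * (B.map f).prod⁻¹) (B.map f)
    have h3 : (conj Γ).act ((B.map f).prod * x * (B.map f).prod⁻¹) ((conj Γ).bar (f b)) =
        ((b :: B).map f).prod * x * ((b :: B).map f).prod⁻¹ := by
      show ((f b)⁻¹)⁻¹ * ((B.map f).prod * x * (B.map f).prod⁻¹) * (f b)⁻¹ = _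
      simp only [List.map_cons, List.prod_cons, mul_inv_rev, inv_inv, mul_assoc]
    rw [h3] at h2
    exact h2

theorem LabRun_crL_over (z : ℤ) (x : Γ) (f : Site → Γ) (B : List Site) (hB : ∀ b ∈ B, ¬ z < cz b) :
    Path (conj Γ) (crL z 0 B) (B.map f ++ [x])
      (x :: B.map (fun b => x⁻¹ * f b * x)) := by
  induction B with
  | nil => exact Path.nil _
  | cons b B ih =>
    rw [crL, crL_shift z 0 1, if_neg (hB b List.mem_cons_self)]
    have h1 := (ih fun c hc => hB c (List.mem_cons_of_mem _ hc)).left [f b]
    refine h1.append (path_single_iff.2 ?_)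
    exact Step.neg (P := conj Γ) (f b) x (B.map fun b => x⁻¹ * f b * x)

theorem LabRun_crR_append (z : ℤ) (r : ℕ) (A B : List Site) :
    (crR z r (A ++ B) : Word C) = crR z r A ++ crR z (r + A.length) B := by
  induction A generalizing r with
  | nil => rfl
  | cons a A ih =>
    simp only [List.cons_append, crR, ih, List.length_cons]
    rw [show r + 1 + A.length = r + (A.length + 1) by omega]

theorem LabRun_crL_append (z : ℤ) (r : ℕ) (A B : List Site) :
    (crL z r (A ++ B) : Word C) = crL z (r + A.length) B ++ crL z r A := by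
  induction A generalizing r with
  | nil => simp [crL]
  | cons a A ih =>
    simp only [List.cons_append, crL, ih, List.length_cons, List.append_assoc]
    rw [show r + 1 + A.length = r + (A.length + 1) by omega]

theorem LabRun_crR_both (z : ℤ) (x x' : Γ) (f : Site → Γ) (A B : List Site)
    (hA : ∀ b ∈ A, z < cz b) (hB : ∀ b ∈ B, ¬ z < cz b)
    (hx : x' = (A.map f).prod⁻¹ * x * (A.map f).prod) (L R : List Γ) {r : ℕ} (hr : L.length = r) :
    Path (conj Γ) (crR z r (A ++ B)) (L ++ (x :: (A.map f ++ (B.map f ++ R))))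
      (L ++ (A.map f ++ (B.map (fun b => x' * f b * x'⁻¹) ++ (x' :: R)))) := by
  subst hr
  rw [LabRun_crR_append]
  have h1 := LabRun_ctx (LabRun_crR_under z x f A hA) L (B.map f ++ R) rfl rfl
  rw [← LabRun_crR_shift0] at h1
  have h2 := LabRun_ctx (LabRun_crR_over z x' f B hB) (L ++ A.map f) R rfl rfl
  rw [← LabRun_crR_shift0, List.length_append, List.length_map] at h2
  rw [← hx] at h1
  refine Path.append (h1.cast ?_ rfl) (h2.cast ?_ ?_)
  · simp
  · simp
  · simp

theorem LabRun_crL_both (z : ℤ) (x x' : Γ) (f : Site → Γ) (A B : List Site)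
    (hA : ∀ b ∈ A, z < cz b) (hB : ∀ b ∈ B, ¬ z < cz b)
    (hx : x' = (A.map f).prod * x * (A.map f).prod⁻¹) (L R : List Γ) {r : ℕ} (hr : L.length = r) :
    Path (conj Γ) (crL z r (A ++ B)) (L ++ (A.map f ++ (B.map f ++ (x :: R))))
      (L ++ (x' :: (A.map f ++ (B.map (fun b => x⁻¹ * f b * x) ++ R)))) := by
  subst hr
  rw [LabRun_crL_append]
  have h1 := LabRun_ctx (LabRun_crL_under z x f A hA) L (B.map (fun b => x⁻¹ * f b * x) ++ R) rfl rfl
  rw [← LabRun_crL_shift0] at h1
  have h2 := LabRun_ctx (LabRun_crL_over z x f B hB) (L ++ A.map f) R rfl rfl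
  rw [← LabRun_crL_shift0, List.length_append, List.length_map] at h2
  rw [← hx] at h1
  refine Path.append (t := L ++ (A.map f ++ (x :: (B.map (fun b => x⁻¹ * f b * x) ++ R))))
    (h2.cast ?_ ?_) (h1.cast ?_ ?_)
  · simp
  · simp
  · simp
  · simp

/-- The strands of the column `i` with depth at least `a`. -/
theorem LabRun_prod {G : ℤ → ℤ → Γ} {P : Finset Site} (h0 : ∀ s, s ∉ P → lab G s = 1)
    (hf : ∃ Z0 : ℤ, ∀ x z, Z0 ≤ z → G x z = 1) (i a : ℤ) :
    (((P.filter fun q => cx q = i ∧ a ≤ cz q).sort (· ≤ ·)).map (lab G)).prod = G i a := by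
  obtain ⟨Z0, hZ⟩ := hf
  obtain ⟨Z1, hZ1⟩ : ∃ Z1 : ℤ, ∀ q ∈ P, cz q < Z1 := by
    obtain ⟨M, hM⟩ := (P.image cz).exists_le
    exact ⟨M + 1, fun q hq => by
      have := hM (cz q) (Finset.mem_image_of_mem _ hq)
      omega⟩
  -- large a
  have hlarge : ∀ a, max Z0 Z1 ≤ a →
      (((P.filter fun q => cx q = i ∧ a ≤ cz q).sort (· ≤ ·)).map (lab G)).prod = G i a := by
    intro a ha
    have h1 : (P.filter fun q => cx q = i ∧ a ≤ cz q) = ∅ := by
      apply Finset.filter_eq_empty_iff.2
      rintro q hq ⟨_, h2⟩
      have := hZ1 q hq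
      have := le_max_right Z0 Z1
      omega
    rw [h1, Finset.sort_empty, hZ i a (le_trans (le_max_left _ _) ha)]
    rfl
  rcases le_total (max Z0 Z1) a with h | h
  · exact hlarge a h
  · induction a, h using Int.leInductionDown with
    | base => exact hlarge _ le_rfl
    | pred a _ ih =>
      have hs : (P.filter fun q => cx q = i ∧ a - 1 ≤ cz q) =
          (P.filter fun q => q = st i (a - 1)) ∪ (P.filter fun q => cx q = i ∧ a ≤ cz q) := by
        ext q
        simp only [Finset.mem_filter, Finset.mem_union]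
        have hq : q = st i (a - 1) ↔ cx q = i ∧ cz q = a - 1 := by
          constructor
          · rintro rfl; exact ⟨rfl, rfl⟩
          · rintro ⟨h1, h2⟩
            rw [← h1, ← h2]; rfl
        rw [hq]
        constructor
        · rintro ⟨h1, h2, h3⟩
          by_cases h4 : cz q = a - 1
          · exact Or.inl ⟨h1, h2, h4⟩
          · exact Or.inr ⟨h1, h2, by omega⟩
        · rintro (⟨h1, h2, h3⟩ | ⟨h1, h2, h3⟩)
          · exact ⟨h1, h2, by omega⟩
          · exact ⟨h1, h2, by omega⟩
      rw [hs, sort_union, List.map_append, List.prod_append, ih]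
      · have h5 : (((P.filter fun q => q = st i (a - 1)).sort (· ≤ ·)).map (lab G)).prod =
            lab G (st i (a - 1)) := by
          rw [Finset.filter_eq']
          split_ifs with h6
          · rw [Finset.sort_singleton]; simp
          · rw [Finset.sort_empty, h0 _ h6]; rfl
        rw [h5]
        show G i (a - 1) * (G i (a - 1 + 1))⁻¹ * G i a = G i (a - 1)
        rw [sub_add_cancel, inv_mul_cancel_right]
      · intro s hs t ht
        rw [Finset.mem_filter] at hs ht
        rw [hs.2, Prod.Lex.lt_iff]
        right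
        refine ⟨ht.2.1.symm, ?_⟩
        show a - 1 < cz t
        omega

theorem LabRun_lt_iff {s t : Site} : s < t ↔ cx s < cx t ∨ (cx s = cx t ∧ cz s < cz t) :=
  Prod.Lex.lt_iff

theorem LabRun_btw_ex (P : Finset Site) (i k : ℤ) :
    btw P (.ex i k) = (P.filter fun q => cx q = i ∧ k + 1 ≤ cz q).sort (· ≤ ·) ++
      (P.filter fun q => cx q = i + 1 ∧ cz q < k).sort (· ≤ ·) := by
  rw [← sort_union]
  · unfold btw
    congr 1
    ext q
    simp only [Finset.mem_filter, Finset.mem_union, LabRun_lt_iff, HE.lo, HE.hi]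
    have e1 : cx (st i k) = i := rfl
    have e2 : cz (st i k) = k := rfl
    have e3 : cx (st (i + 1) k) = i + 1 := rfl
    have e4 : cz (st (i + 1) k) = k := rfl
    rw [e1, e2, e3, e4]
    constructor
    · rintro ⟨h1, h2, h3⟩
      by_cases h4 : cx q = i
      · exact Or.inl ⟨h1, h4, by omega⟩
      · exact Or.inr ⟨h1, by omega, by omega⟩
    · rintro (⟨h1, h2, h3⟩ | ⟨h1, h2, h3⟩)
      · exact ⟨h1, by omega, by omega⟩
      · exact ⟨h1, by omega, by omega⟩
  · intro s hs t ht
    rw [Finset.mem_filter] at hs ht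
    rw [LabRun_lt_iff]
    left
    omega

end Conj

/-- The relation of Wirtinger. -/
theorem wd_path_conj {Γ : Type} [Group Γ] {G G' : ℤ → ℤ → Γ} {P : Finset Site} {e : HE}
    (hG : GStep G G' e) (h0 : ∀ s, s ∉ P → lab G s = 1) (h1 : ∀ s, s ∉ nxs P e → lab G' s = 1)
    (hx : ∀ i k, e = .ex i k → (st i k ∈ P ↔ st (i + 1) k ∉ P))
    (hf : ∃ Z0 : ℤ, ∀ x z, Z0 ≤ z → G x z = 1 ∧ G' x z = 1) :
    Path (conj Γ) (wd (lab G') P e) (lst (lab G) P) (lst (lab G') (nxs P e)) := by
  cases e with
  | ez i k =>
    have hL : ((lef P (st i k)).map (lab G)).length = rk P (st i k) := by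
      rw [List.length_map, length_lef]
    simp only [GStep] at hG
    have hch : ∀ s : Site, s ≠ st i k → s ≠ st i (k + 1) → lab G' s = lab G s := by
      intro s hs1 hs2
      have q1 : (cx s, cz s) ≠ (i, k + 1) := fun h => hs2 (by
        rw [Prod.mk.injEq] at h
        rw [← h.2, ← h.1]; rfl)
      have q2 : (cx s, cz s + 1) ≠ (i, k + 1) := fun h => hs1 (by
        rw [Prod.mk.injEq] at h
        have h2 : cz s = k := by omega
        rw [← h2, ← h.1]; rfl)
      unfold lab
      rw [hG _ _ q1, hG _ _ q2]
    have hpr : lab G' (st i k) * lab G' (st i (k + 1)) = lab G (st i k) * lab G (st i (k + 1)) := by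
      show G' i k * (G' i (k + 1))⁻¹ * (G' i (k + 1) * (G' i (k + 1 + 1))⁻¹) =
        G i k * (G i (k + 1))⁻¹ * (G i (k + 1) * (G i (k + 1 + 1))⁻¹)
      rw [hG i k (by simp), hG i (k + 1 + 1) (by simp)]
      group
    have m1 : (lef P (st i k)).map (lab G') = (lef P (st i k)).map (lab G) := by
      apply List.map_congr_left
      intro s hs
      rw [LabRun_mem_lef] at hs
      exact hch s hs.2.ne (hs.2.trans (HE.ez i k).lo_lt_hi).ne
    have m3 : (rig P (st i (k + 1))).map (lab G') = (rig P (st i (k + 1))).map (lab G) := by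
      apply List.map_congr_left
      intro s hs
      rw [LabRun_mem_rig] at hs
      exact hch s ((HE.ez i k).lo_lt_hi.trans hs.2).ne' hs.2.ne'
    have n1 := @lo_mem_nxs P (.ez i k)
    have n2 := @hi_mem_nxs P (.ez i k)
    unfold lst
    rw [sort_edge P (.ez i k), sort_edge (nxs P (.ez i k)) (.ez i k), lef_nxs, rig_nxs, btw_nxs,
      btw_ez]
    unfold opt wd
    rw [btw_ez]
    simp only [lo_mem_nxs, hi_mem_nxs]
    simp only [HE.lo, HE.hi] at n1 n2 ⊢
    by_cases h2 : st i k ∈ P <;> by_cases h3 : st i (k + 1) ∈ P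
    · simp only [h2, h3, if_true, not_true_eq_false, if_false, List.map_append, List.map_cons,
        List.map_nil, List.nil_append, m1, m3, crL]
      have a1 : lab G' (st i k) = 1 := h1 _ (by rw [n1]; exact not_not.2 h2)
      have a2 : lab G' (st i (k + 1)) = 1 := h1 _ (by rw [n2]; exact not_not.2 h3)
      rw [a1, a2, one_mul] at hpr
      have a4 : lab G (st i (k + 1)) = (lab G (st i k))⁻¹ := eq_inv_of_mul_eq_one_right hpr.symm
      have a3 := (Step.cap (P := conj Γ) (lab G (st i k))
        ((rig P (st i (k + 1))).map (lab G))).left ((lef P (st i k)).map (lab G))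
      rw [hL, Nat.zero_add] at a3
      refine (path_single_iff.2 a3).cast ?_ rfl
      rw [a4]
      rfl
    · simp only [h2, h3, if_true, not_true_eq_false, not_false_eq_true, if_false, List.map_append,
        List.map_cons, List.map_nil, List.nil_append, m1, m3, crR]
      have a1 : lab G' (st i k) = 1 := h1 _ (by rw [n1]; exact not_not.2 h2)
      have a2 : lab G (st i (k + 1)) = 1 := h0 _ h3
      rw [a1, a2, one_mul, mul_one] at hpr
      rw [hpr]
      exact Path.nil _
    · simp only [h2, h3, if_true, not_true_eq_false, not_false_eq_true, if_false, List.map_append,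
        List.map_cons, List.map_nil, List.nil_append, m1, m3, crL]
      have a1 : lab G' (st i (k + 1)) = 1 := h1 _ (by rw [n2]; exact not_not.2 h3)
      have a2 : lab G (st i k) = 1 := h0 _ h2
      rw [a1, a2, one_mul, mul_one] at hpr
      rw [hpr]
      exact Path.nil _
    · simp only [h2, h3, not_false_eq_true, if_true, if_false, List.map_append,
        List.map_cons, List.map_nil, List.nil_append, m1, m3, crR]
      rw [h0 _ h2, h0 _ h3, one_mul] at hpr
      have a4 : lab G' (st i (k + 1)) = (lab G' (st i k))⁻¹ := eq_inv_of_mul_eq_one_right hpr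
      have a3 := (Step.cup (P := conj Γ) (lab G' (st i k))
        ((rig P (st i (k + 1))).map (lab G))).left ((lef P (st i k)).map (lab G))
      rw [hL, Nat.zero_add] at a3
      refine (path_single_iff.2 a3).cast rfl ?_
      rw [a4]
      rfl
  | ex i k =>
    have hL : ((lef P (st i k)).map (lab G)).length = rk P (st i k) := by
      rw [List.length_map, length_lef]
    obtain ⟨y, hy⟩ := hG
    have hxx := hx i k rfl
    have g1 : ∀ x z, x ≠ i → x ≠ i + 1 → G' x z = G x z := by
      intro x z hx1 hx2
      rw [hy, if_neg (fun h => hx2 h.1), if_neg (fun h => hx1 h.1), one_mul, mul_one]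
    have g2 : ∀ x z, k < z → G' x z = G x z := by
      intro x z hz
      rw [hy, if_neg (fun h => by omega), if_neg (fun h => by omega), one_mul, mul_one]
    have g3 : ∀ z, z ≤ k → G' i z = G i z * y := by
      intro z hz
      rw [hy, if_neg (fun h => by omega), if_pos ⟨rfl, hz⟩, one_mul]
    have g4 : ∀ z, z ≤ k → G' (i + 1) z = y⁻¹ * G (i + 1) z := by
      intro z hz
      rw [hy, if_pos ⟨rfl, hz⟩, if_neg (fun h => by omega), mul_one]
    have l1 : ∀ s : Site, cx s ≠ i → cx s ≠ i + 1 → lab G' s = lab G s := by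
      intro s hs1 hs2
      unfold lab
      rw [g1 _ _ hs1 hs2, g1 _ _ hs1 hs2]
    have l2 : ∀ s : Site, k < cz s → lab G' s = lab G s := by
      intro s hs
      unfold lab
      rw [g2 _ _ hs, g2 _ _ (by omega)]
    have l3 : ∀ s : Site, cx s = i → cz s < k → lab G' s = lab G s := by
      intro s hs1 hs2
      unfold lab
      rw [hs1, g3 _ (by omega), g3 _ (by omega)]
      group
    have l4 : ∀ s : Site, cx s = i + 1 → cz s < k → lab G' s = y⁻¹ * lab G s * y := by
      intro s hs1 hs2
      unfold lab
      rw [hs1, g4 _ (by omega), g4 _ (by omega)]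
      group
    have llo : lab G' (st i k) = G i k * y * (G i (k + 1))⁻¹ := by
      show G' i k * (G' i (k + 1))⁻¹ = _
      rw [g3 _ le_rfl, g2 _ _ (by omega)]
    have lhi : lab G' (st (i + 1) k) = y⁻¹ * lab G (st (i + 1) k) := by
      show G' (i + 1) k * (G' (i + 1) (k + 1))⁻¹ = y⁻¹ * (G (i + 1) k * (G (i + 1) (k + 1))⁻¹)
      rw [g4 _ le_rfl, g2 _ _ (by omega), mul_assoc]
    have m1 : (lef P (st i k)).map (lab G') = (lef P (st i k)).map (lab G) := by
      apply List.map_congr_left
      intro s hs
      rw [LabRun_mem_lef, LabRun_lt_iff] at hs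
      have e1 : cx (st i k) = i := rfl
      have e2 : cz (st i k) = k := rfl
      rw [e1, e2] at hs
      rcases hs.2 with h | h
      · exact l1 s (by omega) (by omega)
      · exact l3 s h.1 h.2
    have m3 : (rig P (st (i + 1) k)).map (lab G') = (rig P (st (i + 1) k)).map (lab G) := by
      apply List.map_congr_left
      intro s hs
      rw [LabRun_mem_rig, LabRun_lt_iff] at hs
      have e1 : cx (st (i + 1) k) = i + 1 := rfl
      have e2 : cz (st (i + 1) k) = k := rfl
      rw [e1, e2] at hs
      rcases hs.2 with h | h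
      · exact l1 s (by omega) (by omega)
      · exact l2 s h.2
    set A := (P.filter fun q => cx q = i ∧ k + 1 ≤ cz q).sort (· ≤ ·) with hA
    set B := (P.filter fun q => cx q = i + 1 ∧ cz q < k).sort (· ≤ ·) with hB
    have hAz : ∀ b ∈ A, k < cz b := by
      intro b hb
      rw [hA, Finset.mem_sort, Finset.mem_filter] at hb
      omega
    have hBz : ∀ b ∈ B, ¬ k < cz b := by
      intro b hb
      rw [hB, Finset.mem_sort, Finset.mem_filter] at hb
      omega
    have m2 : A.map (lab G') = A.map (lab G) := by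
      apply List.map_congr_left
      intro s hs
      exact l2 s (hAz s hs)
    have m4 : B.map (lab G') = B.map (fun b => y⁻¹ * lab G b * y) := by
      apply List.map_congr_left
      intro s hs
      rw [hB, Finset.mem_sort, Finset.mem_filter] at hs
      exact l4 s hs.2.1 hs.2.2
    have hprod : (A.map (lab G)).prod = G i (k + 1) := by
      obtain ⟨Z0, hZ0⟩ := hf
      exact LabRun_prod h0 ⟨Z0, fun x z hz => (hZ0 x z hz).1⟩ i (k + 1)
    have n1 := @lo_mem_nxs P (.ex i k)
    have n2 := @hi_mem_nxs P (.ex i k)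
    unfold lst
    rw [sort_edge P (.ex i k), sort_edge (nxs P (.ex i k)) (.ex i k), lef_nxs, rig_nxs, btw_nxs,
      LabRun_btw_ex, ← hA, ← hB]
    unfold opt wd
    rw [LabRun_btw_ex, ← hA, ← hB]
    simp only [lo_mem_nxs, hi_mem_nxs]
    simp only [HE.lo, HE.hi] at n1 n2 ⊢
    have hczk : cz (st i k) = k := rfl
    by_cases h2 : st i k ∈ P
    · have h3 : st (i + 1) k ∉ P := hxx.1 h2
      simp only [h2, h3, if_true, not_true_eq_false, not_false_eq_true, if_false, List.map_append,
        List.map_cons, List.map_nil, List.nil_append, m1, m2, m3, m4]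
      have a1 : lab G' (st i k) = 1 := h1 _ (by rw [n1]; exact not_not.2 h2)
      have a2 : lab G (st (i + 1) k) = 1 := h0 _ h3
      rw [llo] at a1
      rw [a2, mul_one] at lhi
      have hy2 : y = (G i k)⁻¹ * G i (k + 1) := by
        have := eq_inv_of_mul_eq_one_left a1
        rw [inv_inv] at this
        rw [← this]; group
      have key := LabRun_crR_both (cz (st i k)) (lab G (st i k)) y⁻¹ (lab G) A B hAz hBz (by
        rw [hprod, hy2]
        show _ = _ * (G i k * (G i (k + 1))⁻¹) * _
        group) ((lef P (st i k)).map (lab G)) ((rig P (st (i + 1) k)).map (lab G)) hL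
      rw [inv_inv] at key
      refine key.cast ?_ ?_
      · simp
      · rw [lhi]; simp
    · have h3 : st (i + 1) k ∈ P := by
        by_contra h
        exact h2 (hxx.2 h)
      simp only [h2, h3, if_true, not_true_eq_false, not_false_eq_true, if_false, List.map_append,
        List.map_cons, List.map_nil, List.nil_append, m1, m2, m3, m4]
      have a1 : lab G' (st (i + 1) k) = 1 := h1 _ (by rw [n2]; exact not_not.2 h3)
      have a2 : lab G (st i k) = 1 := h0 _ h2
      have a3 : G i k = G i (k + 1) := mul_inv_eq_one.1 a2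
      rw [lhi] at a1
      have hy2 : y = lab G (st (i + 1) k) := (inv_mul_eq_one.1 a1)
      have key := LabRun_crL_both (cz (st i k)) y (lab G' (st i k)) (lab G) A B hAz hBz (by
        rw [hprod, llo, a3]) ((lef P (st i k)).map (lab G)) ((rig P (st (i + 1) k)).map (lab G)) hL
      refine key.cast ?_ ?_
      · rw [hy2]; simp
      · simp

end Pool.Agent.Lib.MP_131179_gt.Dehn
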