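import Pool.Agent.Lib.MP_131179_gt.Dehn.Wirt
import Pool.Agent.Lib.MP_131179_gt.Dehn.Wri

/-!
# The label of the second curve
-/

set_option autoImplicit false

namespace Pool.Agent.Lib.MP_131179_gt.Dehn

/-- The direction in which the curve passes an edge. -/
def Curve.sgn {m : ℕ} [NeZero m] (c : Curve m) (e : LE) : ℤ :=
  ∑ i, if c.edge i = e then (if (c.dir i).2 then 1 else -1) else 0

/-- The orientation of the strands given by the curve. -/
def Curve.eps {m : ℕ} [NeZero m] (c : Curve m) (j : ℕ) (s : Site) : ℤ :=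
  c.sgn (vert (2 * (j : ℤ) - 1) s)

/-! ### The flow of the curve -/

section Flow

variable {m : ℕ} [NeZero m] (c : Curve m)

theorem lam_sgn_out {e : LE} (h : e ∉ c.K) : c.sgn e = 0 := by
  unfold Curve.sgn
  apply Finset.sum_eq_zero
  intro i _
  rw [if_neg]
  intro hi
  exact h (c.mem_K.2 ⟨i, hi⟩)

theorem lam_sgn_edge (h3 : 3 ≤ m) (i : ZMod m) :
    c.sgn (c.edge i) = if (c.dir i).2 then 1 else -1 := by
  unfold Curve.sgn
  rw [Finset.sum_eq_single i]
  · rw [if_pos rfl]
  · intro j _ hj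
    rw [if_neg]
    intro h
    exact hj (c.edge_injective h3 h)
  · intro h
    exact absurd (Finset.mem_univ _) h

theorem lam_sgn_one (h3 : 3 ≤ m) {e : LE} (h : e ∈ c.K) : c.sgn e = 1 ∨ c.sgn e = -1 := by
  obtain ⟨i, rfl⟩ := c.mem_K.1 h
  rw [lam_sgn_edge c h3]
  split_ifs
  · left; rfl
  · right; rfl

theorem lam_shift (p : P3) : ∑ i, (if p = c.v (i + 1) then (1 : ℤ) else 0) =
    ∑ i, (if p = c.v i then (1 : ℤ) else 0) :=
  Equiv.sum_comp (Equiv.addRight (1 : ZMod m)) fun i => if p = c.v i then (1 : ℤ) else 0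

theorem lam_flow_one (i : ZMod m) (p : P3) :
    ∑ k : Fin 3, ((if c.edge i = (p, k) then (if (c.dir i).2 then (1 : ℤ) else -1) else 0) -
      (if c.edge i = (p - e3 k, k) then (if (c.dir i).2 then (1 : ℤ) else -1) else 0)) =
      (if p = c.v i then (1 : ℤ) else 0) - (if p = c.v (i + 1) then (1 : ℤ) else 0) := by
  rw [Finset.sum_sub_distrib]
  have key : ∀ (q : P3) (k₀ : Fin 3) (s : ℤ), ∑ k : Fin 3, (if (q, k₀) = (p, k) then s else 0) =
      if p = q then s else 0 := by
    intro q k₀ s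
    rw [Finset.sum_eq_single k₀]
    · by_cases h : p = q
      · rw [if_pos h, if_pos (by rw [h])]
      · rw [if_neg h, if_neg]
        intro h2
        exact h (Prod.mk.inj h2).1.symm
    · intro k _ hk
      rw [if_neg]
      intro h2
      exact hk (Prod.mk.inj h2).2.symm
    · intro h; exact absurd (Finset.mem_univ _) h
  have key2 : ∀ (q : P3) (k₀ : Fin 3) (s : ℤ),
      ∑ k : Fin 3, (if (q, k₀) = (p - e3 k, k) then s else 0) =
      if p = q + e3 k₀ then s else 0 := by
    intro q k₀ s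
    rw [Finset.sum_eq_single k₀]
    · by_cases h : p = q + e3 k₀
      · rw [if_pos h, if_pos (by rw [h, add_sub_cancel_right])]
      · rw [if_neg h, if_neg]
        intro h2
        apply h
        rw [(Prod.mk.inj h2).1, sub_add_cancel]
    · intro k _ hk
      rw [if_neg]
      intro h2
      exact hk (Prod.mk.inj h2).2.symm
    · intro h; exact absurd (Finset.mem_univ _) h
  cases h : (c.dir i).2
  · rw [c.edge_neg h, key, key2, c.step_neg h]
    simp only [Bool.false_eq_true, if_false]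
    split_ifs <;> rfl
  · rw [c.edge_pos h, key, key2, ← c.step_pos h]
    simp only [if_true]

theorem lam_flow (p : P3) : ∑ k : Fin 3, (c.sgn (p, k) - c.sgn (p - e3 k, k)) = 0 := by
  unfold Curve.sgn
  have h1 : ∀ k : Fin 3, (∑ i, (if c.edge i = (p, k) then (if (c.dir i).2 then (1 : ℤ) else -1)
      else 0)) - (∑ i, (if c.edge i = (p - e3 k, k) then (if (c.dir i).2 then (1 : ℤ) else -1)
      else 0)) = ∑ i, ((if c.edge i = (p, k) then (if (c.dir i).2 then (1 : ℤ) else -1) else 0) -
      (if c.edge i = (p - e3 k, k) then (if (c.dir i).2 then (1 : ℤ) else -1) else 0)) := by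
    intro k
    rw [Finset.sum_sub_distrib]
  rw [Finset.sum_congr rfl fun k _ => h1 k, Finset.sum_comm,
    Finset.sum_congr rfl fun i _ => lam_flow_one c i p, Finset.sum_sub_distrib, lam_shift, sub_self]

theorem lam_flow' (x y z : ℤ) : c.sgn ((x, y, z), 0) - c.sgn ((x - 1, y, z), 0) +
    (c.sgn ((x, y, z), 1) - c.sgn ((x, y - 1, z), 1)) +
    (c.sgn ((x, y, z), 2) - c.sgn ((x, y, z - 1), 2)) = 0 := by
  have h := lam_flow c (x, y, z)
  rw [Fin.sum_univ_three] at h
  have h0 : ((x, y, z) : P3) - e3 0 = (x - 1, y, z) := by simp [e3]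
  have h1 : ((x, y, z) : P3) - e3 1 = (x, y - 1, z) := by simp [e3]
  have h2 : ((x, y, z) : P3) - e3 2 = (x, y, z - 1) := by simp [e3]
  rw [h0, h1, h2] at h
  exact h

end Flow

section Or

variable {m : ℕ} [NeZero m] {c : Curve m} {es : List HE}

theorem lam_x (hc : c.K = Kc es) {j : ℕ} {e : HE} (he : es[j]? = some e) {x z : ℤ}
    (h : e ≠ .ex x z) : c.sgn ((x, 2 * (j : ℤ), z), 0) = 0 := by
  apply lam_sgn_out
  rw [hc, mem_Kc_0]
  rintro ⟨j', h1, h2⟩
  have : j = j' := by omega
  subst this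
  rw [he] at h2
  exact h (Option.some.inj h2)

theorem lam_z (hc : c.K = Kc es) {j : ℕ} {e : HE} (he : es[j]? = some e) {x z : ℤ}
    (h : e ≠ .ez x z) : c.sgn ((x, 2 * (j : ℤ), z), 2) = 0 := by
  apply lam_sgn_out
  rw [hc, mem_Kc_2]
  rintro ⟨j', h1, h2⟩
  have : j = j' := by omega
  subst this
  rw [he] at h2
  exact h (Option.some.inj h2)

theorem lam_odd_x (hc : c.K = Kc es) (y x z : ℤ) : c.sgn ((x, 2 * y + 1, z), 0) = 0 := by
  apply lam_sgn_out
  rw [hc, mem_Kc_0]
  rintro ⟨j', h1, h2⟩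
  omega

theorem lam_odd_z (hc : c.K = Kc es) (y x z : ℤ) : c.sgn ((x, 2 * y + 1, z), 2) = 0 := by
  apply lam_sgn_out
  rw [hc, mem_Kc_2]
  rintro ⟨j', h1, h2⟩
  omega

theorem lam_up (hc : c.K = Kc es) (y : ℤ) (s : Site) :
    c.sgn (vert (2 * y + 1) s) = c.sgn (vert (2 * y) s) := by
  have h := lam_flow' c (cx s) (2 * y + 1) (cz s)
  rw [lam_odd_x hc, lam_odd_x hc, lam_odd_z hc, lam_odd_z hc, add_sub_cancel_right] at h
  unfold vert
  linarith

theorem lam_eps_succ (hc : c.K = Kc es) (j : ℕ) (s : Site) :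
    c.eps (j + 1) s = c.sgn (vert (2 * (j : ℤ)) s) := by
  unfold Curve.eps
  rw [← lam_up hc]
  congr 2
  push_cast
  ring

theorem lam_st (s : Site) : st (cx s) (cz s) = s := rfl

theorem lam_cx (x z : ℤ) : cx (st x z) = x := rfl

theorem lam_cz (x z : ℤ) : cz (st x z) = z := rfl

/-- The flow at a point of the level `2 j`. -/
theorem lam_level (hc : c.K = Kc es) (j : ℕ) (x z : ℤ) :
    c.eps (j + 1) (st x z) - c.eps j (st x z) =
      c.sgn ((x - 1, 2 * (j : ℤ), z), 0) - c.sgn ((x, 2 * (j : ℤ), z), 0) +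
      (c.sgn ((x, 2 * (j : ℤ), z - 1), 2) - c.sgn ((x, 2 * (j : ℤ), z), 2)) := by
  have h := lam_flow' c x (2 * (j : ℤ)) z
  rw [lam_eps_succ hc]
  unfold Curve.eps vert
  rw [lam_cx, lam_cz]
  linarith

theorem lam_fin_len (h0 : fin ∅ es = ∅) {j : ℕ} (hj : es.length ≤ j) : Pt es j = ∅ := by
  show fin ∅ (es.take j) = ∅
  rw [List.take_of_length_le hj, h0]

theorem lam_vert_mem (h0 : fin ∅ es = ∅) {j : ℕ} {s : Site} :
    vert (2 * (j : ℤ) - 1) s ∈ Kc es ↔ s ∈ Pt es j := by
  unfold vert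
  rw [mem_Kc_1]
  constructor
  · rintro ⟨j', h1, h2, h3⟩
    have : j = j' + 1 := by omega
    rw [this]
    exact h3
  · intro h
    have hj0 : j ≠ 0 := by
      rintro rfl
      exact absurd h (Finset.notMem_empty s)
    have hjl : j < es.length := by
      by_contra h1
      rw [lam_fin_len h0 (by omega)] at h
      exact absurd h (Finset.notMem_empty s)
    refine ⟨j - 1, by omega, by omega, ?_⟩
    rw [Nat.sub_add_cancel (by omega)]
    exact h

theorem lam_orRule (h3 : 3 ≤ m) (h0 : fin ∅ es = ∅) (hc : c.K = Kc es) : OrRule es c.eps := by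
  refine ⟨?_, ?_, ?_, ?_⟩
  · intro j s hs
    apply lam_sgn_out
    rw [hc, lam_vert_mem h0]
    exact hs
  · intro j s hs
    apply lam_sgn_one c h3
    rw [hc, lam_vert_mem h0]
    exact hs
  · intro j e s he h1 h2
    have h := lam_level hc j (cx s) (cz s)
    rw [lam_st] at h
    rw [lam_x hc he, lam_x hc he, lam_z hc he, lam_z hc he] at h
    · linarith
    · rintro rfl; exact h1 rfl
    · rintro rfl
      apply h2
      show s = st (cx s) (cz s - 1 + 1)
      rw [sub_add_cancel, lam_st]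
    · rintro rfl; exact h1 rfl
    · rintro rfl
      apply h2
      show s = st (cx s - 1 + 1) (cz s)
      rw [sub_add_cancel, lam_st]
  · intro j e he
    cases e with
    | ex i k =>
      show c.eps (j + 1) (st i k) + c.eps (j + 1) (st (i + 1) k) =
        c.eps j (st i k) + c.eps j (st (i + 1) k)
      have h1 := lam_level hc j i k
      have h2 := lam_level hc j (i + 1) k
      rw [add_sub_cancel_right] at h2
      rw [lam_x hc he (x := i - 1) (by intro h; injection h with h _; omega),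
        lam_z hc he (by simp), lam_z hc he (by simp)] at h1
      rw [lam_x hc he (x := i + 1) (by intro h; injection h with h _; omega),
        lam_z hc he (by simp), lam_z hc he (by simp)] at h2
      linarith
    | ez i k =>
      show c.eps (j + 1) (st i k) + c.eps (j + 1) (st i (k + 1)) =
        c.eps j (st i k) + c.eps j (st i (k + 1))
      have h1 := lam_level hc j i k
      have h2 := lam_level hc j i (k + 1)
      rw [add_sub_cancel_right] at h2
      rw [lam_z hc he (z := k - 1) (by intro h; injection h with _ h; omega),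
        lam_x hc he (by simp), lam_x hc he (by simp)] at h1
      rw [lam_z hc he (z := k + 1) (by intro h; injection h with _ h; omega),
        lam_x hc he (by simp), lam_x hc he (by simp)] at h2
      linarith

end Or

theorem orRule_eps {m : ℕ} [NeZero m] {c : Curve m} (h3 : 3 ≤ m) {es : List HE}
    (h0 : fin ∅ es = ∅) (hc : c.K = Kc es) : OrRule es c.eps := lam_orRule h3 h0 hc

/-! ### Powers of `t` -/

section Pow

variable {Γ : Type} [Group Γ] {t : Γ}

theorem lam_pow {G : ℤ → ℤ → Γ} {P : Finset Site} {ε : Site → ℤ}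
    (hf : ∃ Z0 : ℤ, ∀ x z, Z0 ≤ z → G x z = 1) (h0 : ∀ s, s ∉ P → lab G s = 1)
    (ht : ∀ s ∈ P, lab G s = t ^ (ε s)) (x z : ℤ) :
    G x z = t ^ (∑ s ∈ P.filter (fun s => cx s = x ∧ z ≤ cz s), ε s) := by
  obtain ⟨Z0, hZ0⟩ := hf
  obtain ⟨Z1, hZ1⟩ := (P.image cz).exists_le
  have key : ∀ (n : ℕ) (z : ℤ), max Z0 (Z1 + 1) ≤ z + n →
      G x z = t ^ (∑ s ∈ P.filter (fun s => cx s = x ∧ z ≤ cz s), ε s) := by
    intro n
    induction n with
    | zero =>
      intro z hz
      have hz1 : Z0 ≤ z := by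
        have := le_max_left Z0 (Z1 + 1)
        push_cast at hz
        omega
      have hz2 : Z1 + 1 ≤ z := by
        have := le_max_right Z0 (Z1 + 1)
        push_cast at hz
        omega
      rw [hZ0 x z hz1, Finset.filter_false_of_mem, Finset.sum_empty, zpow_zero]
      intro s hs h1
      have := hZ1 (cz s) (Finset.mem_image_of_mem _ hs)
      omega
    | succ n ih =>
      intro z hz
      have h1 := ih (z + 1) (by push_cast at hz; omega)
      have h2 : G x z = lab G (st x z) * G x (z + 1) := by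
        unfold lab
        rw [lam_cx, lam_cz, inv_mul_cancel_right]
      rw [h2, h1]
      by_cases hs : st x z ∈ P
      · have h3 : P.filter (fun s => cx s = x ∧ z ≤ cz s) =
            insert (st x z) (P.filter (fun s => cx s = x ∧ z + 1 ≤ cz s)) := by
          ext s
          rw [Finset.mem_insert, Finset.mem_filter, Finset.mem_filter]
          constructor
          · rintro ⟨h4, h5, h6⟩
            by_cases h7 : cz s = z
            · left
              rw [← lam_st s, h5, h7]
            · right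
              exact ⟨h4, h5, by omega⟩
          · rintro (rfl | ⟨h4, h5, h6⟩)
            · exact ⟨hs, rfl, le_refl z⟩
            · exact ⟨h4, h5, by omega⟩
        rw [h3, Finset.sum_insert, zpow_add, ht _ hs]
        intro h4
        have := (Finset.mem_filter.1 h4).2.2
        rw [lam_cz] at this
        omega
      · have h3 : P.filter (fun s => cx s = x ∧ z ≤ cz s) =
            P.filter (fun s => cx s = x ∧ z + 1 ≤ cz s) := by
          ext s
          rw [Finset.mem_filter, Finset.mem_filter]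
          constructor
          · rintro ⟨h4, h5, h6⟩
            refine ⟨h4, h5, ?_⟩
            by_contra h7
            apply hs
            have h8 : cz s = z := by omega
            rw [← lam_st s, h5, h8] at h4
            exact h4
          · rintro ⟨h4, h5, h6⟩
            exact ⟨h4, h5, by omega⟩
        rw [h3, h0 _ hs, one_mul]
  apply key (max Z0 (Z1 + 1) - z).toNat z
  have := Int.self_le_toNat (max Z0 (Z1 + 1) - z)
  omega

/-- The label of an edge. -/
def glab (gx gy : P3 → Γ) (e : LE) : Γ := if e.2 = 0 then gx e.1 else if e.2 = 1 then gy e.1 else 1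

theorem lam_lel {m : ℕ} [NeZero m] (c : Curve m) (gx gy : P3 → Γ) (i : ZMod m) :
    lel gx gy (c.v i) (c.dir i) =
      (glab gx gy (c.edge i)) ^ (if (c.dir i).2 then (1 : ℤ) else -1) := by
  unfold lel glab
  cases h : (c.dir i).2
  · rw [c.edge_neg h]
    have h1 : c.v (i + 1) = c.v i - e3 (c.dir i).1 := by
      rw [← c.step_neg h, add_sub_cancel_right]
    rw [h1]
    simp only [Bool.false_eq_true, if_false]
    split_ifs with h2 h3
    · rw [h2, zpow_neg_one]
    · rw [h3, zpow_neg_one]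
    · rw [one_zpow]
  · rw [c.edge_pos h]
    simp only [if_true, zpow_one]

theorem lam_list_prod (f : ℕ → ℤ) (l : List ℕ) :
    (l.map fun j => t ^ (f j)).prod = t ^ ((l.map f).sum) := by
  induction l with
  | nil => simp
  | cons a l ih => simp [ih, zpow_add]

theorem lam_sum_zmod {m : ℕ} [NeZero m] (F : ZMod m → ℤ) :
    ((List.range m).map fun j : ℕ => F (j : ZMod m)).sum = ∑ i, F i := by
  have h1 : ((List.range m).map fun j : ℕ => F (j : ZMod m)).sum =
      ∑ j ∈ Finset.range m, F (j : ZMod m) := rfl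
  rw [h1]
  apply Finset.sum_nbij fun j : ℕ => (j : ZMod m)
  · intro j _; exact Finset.mem_univ _
  · intro j hj j' hj' hjj
    rw [Finset.coe_range, Set.mem_Iio] at hj hj'
    have h2 := (ZMod.natCast_eq_natCast_iff' j j' m).1 hjj
    rwa [Nat.mod_eq_of_lt hj, Nat.mod_eq_of_lt hj'] at h2
  · intro i _
    exact ⟨i.val, by rw [Finset.coe_range]; exact ZMod.val_lt i, ZMod.natCast_zmod_val i⟩
  · intro j _; rfl

end Pow

/-- The exponent in the label of a vertical edge. -/
def enY (ε ε' : Site → ℤ) (x z : ℤ) : HE → ℤ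
  | .ez _ _ => 0
  | .ex i k => if x = i ∧ z < k then ε' (st i k) - ε (st i k) else 0

/-- The exponents of the labels. -/
def lamX (es : List HE) (ε : ℕ → Site → ℤ) (e : LE) : ℤ :=
  if e.2 = 0 then ∑ s ∈ (Pt es ((e.1.2.1 / 2).toNat + 1)).filter
    (fun s => cx s = e.1.1 + 1 ∧ e.1.2.2 < cz s), ε ((e.1.2.1 / 2).toNat + 1) s
  else if e.2 = 1 then (if e.1.2.1 % 2 = 1 then
    (es[((e.1.2.1 + 1) / 2).toNat]?).elim 0 (enY (ε ((e.1.2.1 + 1) / 2).toNat)
      (ε (((e.1.2.1 + 1) / 2).toNat + 1)) e.1.1 e.1.2.2) else 0)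
  else 0

theorem lamX_0 (es : List HE) (ε : ℕ → Site → ℤ) (j : ℕ) (x z : ℤ) :
    lamX es ε ((x, 2 * (j : ℤ), z), 0) =
      ∑ s ∈ (Pt es (j + 1)).filter (fun s => cx s = x + 1 ∧ z < cz s), ε (j + 1) s := by
  unfold lamX
  have h : ((2 * (j : ℤ)) / 2).toNat = j := by omega
  simp only [if_true, h]

theorem lamX_1e (es : List HE) (ε : ℕ → Site → ℤ) (j : ℕ) (s : Site) :
    lamX es ε (vert (2 * (j : ℤ)) s) = 0 := by
  unfold lamX vert
  simp

theorem lamX_1o (es : List HE) (ε : ℕ → Site → ℤ) (j : ℕ) (s : Site) :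
    lamX es ε (vert (2 * (j : ℤ) - 1) s) =
      (es[j]?).elim 0 (enY (ε j) (ε (j + 1)) (cx s) (cz s)) := by
  unfold lamX vert
  have h : (2 * (j : ℤ) - 1) % 2 = 1 := by omega
  have h2 : ((2 * (j : ℤ) - 1 + 1) / 2).toNat = j := by omega
  simp only [h, h2, if_true]
  rw [if_neg (by decide)]

theorem lamX_2 (es : List HE) (ε : ℕ → Site → ℤ) (p : P3) : lamX es ε (p, 2) = 0 := by
  unfold lamX
  have h1 : ¬ ((2 : Fin 3) = 0) := by decide
  have h2 : ¬ ((2 : Fin 3) = 1) := by decide
  simp only [h1, h2, if_false]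

section Main

variable {m : ℕ} [NeZero m] {c : Curve m} {es : List HE} {Γ : Type} [Group Γ] {gx gy : P3 → Γ}
  {t : Γ}

theorem lam_glab (h3 : 3 ≤ m) (h0 : fin ∅ es = ∅) (hc : c.K = Kc es) (h : PiRel (Kc es) gx gy)
    (ht : ∀ j s, s ∈ Pt es j → lab (Gt gx j) s = t ^ (c.eps j s)) {e : LE} (he : e ∈ Kc es) :
    glab gx gy e = t ^ (lamX es c.eps e) := by
  have hor := orRule_eps h3 h0 hc
  have hpow : ∀ j x z, Gt gx j x z =
      t ^ (∑ s ∈ (Pt es j).filter (fun s => cx s = x ∧ z ≤ cz s), c.eps j s) := by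
    intro j x z
    apply lam_pow _ (fun s hs => gt_lab h h0 hs) (ht j)
    obtain ⟨Z0, hZ0⟩ := h.front
    exact ⟨Z0 + 1, fun x z hz => (hZ0 _ (by show Z0 ≤ z - 1; omega)).1⟩
  have ht' : ∀ j s, lab (Gt gx j) s = t ^ (c.eps j s) := by
    intro j s
    by_cases hs : s ∈ Pt es j
    · exact ht j s hs
    · rw [gt_lab h h0 hs, hor.out j s hs, zpow_zero]
  obtain ⟨⟨x, y, z⟩, k⟩ := e
  fin_cases k
  · -- direction 0
    obtain ⟨j, rfl, hj⟩ := mem_Kc_0.1 he
    show gx (x, 2 * (j : ℤ), z) = _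
    rw [gx_even h, hpow]
    show _ = t ^ (lamX es c.eps ((x, 2 * (j : ℤ), z), 0))
    rw [lamX_0]
    congr 2
  · obtain ⟨j, hj, hy, hs⟩ := mem_Kc_1.1 he
    rcases hy with rfl | rfl
    · show gy (x, 2 * (j : ℤ), z) = t ^ (lamX es c.eps (vert (2 * (j : ℤ)) (st x z)))
      rw [lamX_1e, gy_even h h0, zpow_zero]
    · have h1 : (2 * (j : ℤ) + 1) = 2 * ((j + 1 : ℕ) : ℤ) - 1 := by push_cast; ring
      show gy (x, 2 * (j : ℤ) + 1, z) = t ^ (lamX es c.eps (vert (2 * (j : ℤ) + 1) (st x z)))
      rw [h1, lamX_1o]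
      cases he2 : es[j + 1]? with
      | none =>
        exfalso
        rw [List.getElem?_eq_none_iff] at he2
        rw [lam_fin_len h0 he2] at hs
        exact absurd hs (Finset.notMem_empty _)
      | some e =>
        cases e with
        | ez i k =>
          rw [gy_odd_ez h he2]
          show 1 = t ^ (0 : ℤ)
          rw [zpow_zero]
        | ex i k =>
          rw [gy_odd_ex h he2]
          show _ = t ^ (if x = i ∧ z < k then c.eps (j + 1 + 1) (st i k) - c.eps (j + 1) (st i k)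
            else 0)
          split_ifs with h2
          · obtain ⟨w, hw⟩ : GStep (Gt gx (j + 1)) (Gt gx (j + 1 + 1)) (.ex i k) := gt_step h he2
            have h4 := hw i (k + 1)
            rw [if_neg (by omega), if_neg (by omega), one_mul, mul_one] at h4
            have h5 : ∀ j', Gt gx j' i k = lab (Gt gx j') (st i k) * Gt gx j' i (k + 1) := by
              intro j'
              unfold lab
              rw [lam_cx, lam_cz, inv_mul_cancel_right]
            rw [h5, h5, h4, ht', ht', hpow (j + 1) i (k + 1), ← zpow_add, ← zpow_neg, ← zpow_add,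
              ← zpow_add]
            congr 1
            ring
          · rw [zpow_zero]
  · show (1 : Γ) = t ^ (lamX es c.eps ((x, y, z), 2))
    rw [lamX_2, zpow_zero]

theorem lam_sum_edges (hc : c.K = Kc es) (X : LE → ℤ) :
    ∑ i, X (c.edge i) * (if (c.dir i).2 then (1 : ℤ) else -1) = ∑ e ∈ Kc es, c.sgn e * X e := by
  unfold Curve.sgn
  rw [Finset.sum_congr rfl fun e _ => Finset.sum_mul _ _ _, Finset.sum_comm]
  apply Finset.sum_congr rfl
  intro i _
  rw [Finset.sum_eq_single (c.edge i)]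
  · rw [if_pos rfl, mul_comm]
  · intro e _ he
    rw [if_neg (fun h => he h.symm), zero_mul]
  · intro h
    exact absurd (hc ▸ c.mem_K.2 ⟨i, rfl⟩) h

/-- The edges of the level `2 j` and above. -/
theorem lam_Kc_sum (f : LE → ℤ) : ∑ e ∈ Kc es, f e = ∑ j ∈ Finset.range es.length,
    ((es[j]?).elim 0 (fun e => f (toLE (2 * (j : ℤ), e))) +
      ∑ s ∈ Pt es (j + 1), f (vert (2 * (j : ℤ)) s) +
      ∑ s ∈ Pt es (j + 1), f (vert (2 * (j : ℤ) + 1) s)) := by
  have hinj : ∀ y : ℤ, Function.Injective (vert y) := by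
    intro y s s' hss
    have h1 : ((cx s, y, cz s) : P3) = (cx s', y, cz s') := (Prod.mk.inj hss).1
    have h2 := (Prod.mk.inj h1).1
    have h3 := (Prod.mk.inj (Prod.mk.inj h1).2).2
    rw [← lam_st s, ← lam_st s', h2, h3]
  have hA : ∀ (j : ℕ) (e : LE), e ∈ ((es[j]?).toList.map fun e => toLE (2 * (j : ℤ), e)).toFinset →
      e.1.2.1 = 2 * (j : ℤ) ∧ e.2 ≠ 1 := by
    intro j e he
    rw [List.mem_toFinset, List.mem_map] at he
    obtain ⟨e', _, rfl⟩ := he
    cases e' with
    | ex i k => exact ⟨rfl, by show (0 : Fin 3) ≠ 1; decide⟩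
    | ez i k => exact ⟨rfl, by show (2 : Fin 3) ≠ 1; decide⟩
  unfold Kc
  rw [Finset.sum_biUnion]
  · apply Finset.sum_congr rfl
    intro j _
    rw [Finset.sum_union, Finset.sum_union, Finset.sum_image fun _ _ _ _ h => hinj _ h,
      Finset.sum_image fun _ _ _ _ h => hinj _ h]
    · congr 2
      cases h : es[j]? with
      | none => simp
      | some e => simp
    · rw [Finset.disjoint_left]
      intro e he he2
      obtain ⟨s, _, rfl⟩ := Finset.mem_image.1 he2
      exact (hA j _ he).2 rfl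
    · rw [Finset.disjoint_left]
      intro e he he2
      obtain ⟨s, _, rfl⟩ := Finset.mem_image.1 he2
      rw [Finset.mem_union] at he
      rcases he with he | he
      · exact (hA j _ he).2 rfl
      · obtain ⟨s', _, h⟩ := Finset.mem_image.1 he
        have h1 : ((cx s', 2 * (j : ℤ), cz s') : P3) = (cx s, 2 * (j : ℤ) + 1, cz s) :=
          (Prod.mk.inj h).1
        have h2 := (Prod.mk.inj (Prod.mk.inj h1).2).1
        omega
  · have hlev : ∀ (j : ℕ) (e : LE), e ∈ ((es[j]?).toList.map fun e =>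
        toLE (2 * (j : ℤ), e)).toFinset ∪ (Pt es (j + 1)).image (vert (2 * (j : ℤ))) ∪
        (Pt es (j + 1)).image (vert (2 * (j : ℤ) + 1)) →
        e.1.2.1 = 2 * (j : ℤ) ∨ e.1.2.1 = 2 * (j : ℤ) + 1 := by
      intro j e he
      rw [Finset.mem_union, Finset.mem_union] at he
      rcases he with (he | he) | he
      · exact Or.inl (hA j e he).1
      · obtain ⟨s, _, rfl⟩ := Finset.mem_image.1 he
        exact Or.inl rfl
      · obtain ⟨s, _, rfl⟩ := Finset.mem_image.1 he
        exact Or.inr rfl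
    intro j _ j' _ hjj
    rw [Function.onFun, Finset.disjoint_left]
    intro e he he2
    have h1 := hlev j e he
    have h2 := hlev j' e he2
    apply hjj
    omega

theorem lam_total (h3 : 3 ≤ m) (h0 : fin ∅ es = ∅) (hc : c.K = Kc es) :
    ∑ e ∈ Kc es, c.sgn e * lamX es c.eps e = En es c.eps := by
  have hor := orRule_eps h3 h0 hc
  rw [lam_Kc_sum]
  set Yf : ℕ → ℤ := fun j => ∑ s ∈ Pt es j, c.eps j s *
    (es[j]?).elim 0 (enY (c.eps j) (c.eps (j + 1)) (cx s) (cz s)) with hY
  set Xf : ℕ → ℤ := fun j => (es[j]?).elim 0 (fun e => c.sgn (toLE (2 * (j : ℤ), e)) *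
    lamX es c.eps (toLE (2 * (j : ℤ), e))) with hX
  have h1 : ∀ j ∈ Finset.range es.length,
      ((es[j]?).elim 0 (fun e => c.sgn (toLE (2 * (j : ℤ), e)) *
        lamX es c.eps (toLE (2 * (j : ℤ), e))) +
      ∑ s ∈ Pt es (j + 1), c.sgn (vert (2 * (j : ℤ)) s) * lamX es c.eps (vert (2 * (j : ℤ)) s) +
      ∑ s ∈ Pt es (j + 1), c.sgn (vert (2 * (j : ℤ) + 1) s) *
        lamX es c.eps (vert (2 * (j : ℤ) + 1) s)) = Xf j + Yf (j + 1) := by
    intro j _
    have h2 : ∑ s ∈ Pt es (j + 1), c.sgn (vert (2 * (j : ℤ)) s) *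
        lamX es c.eps (vert (2 * (j : ℤ)) s) = 0 := by
      apply Finset.sum_eq_zero
      intro s _
      rw [lamX_1e, mul_zero]
    rw [h2, add_zero]
    congr 1
    apply Finset.sum_congr rfl
    intro s _
    have h4 : (2 * (j : ℤ) + 1) = 2 * ((j + 1 : ℕ) : ℤ) - 1 := by push_cast; ring
    rw [h4, lamX_1o]
    rfl
  rw [Finset.sum_congr rfl h1, Finset.sum_add_distrib]
  have hY0 : Yf 0 = 0 := Finset.sum_empty
  have hYl : Yf es.length = 0 := by
    simp only [hY]
    rw [lam_fin_len h0 le_rfl, Finset.sum_empty]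
  have h5 : ∑ j ∈ Finset.range es.length, Yf (j + 1) = ∑ j ∈ Finset.range es.length, Yf j := by
    have h6 := Finset.sum_range_succ' Yf es.length
    rw [Finset.sum_range_succ, hYl, hY0, add_zero, add_zero] at h6
    exact h6.symm
  rw [h5, ← Finset.sum_add_distrib]
  unfold En
  apply Finset.sum_congr rfl
  intro j hj
  rw [Finset.mem_range] at hj
  simp only [hX, hY]
  obtain ⟨e, he⟩ : ∃ e, es[j]? = some e := ⟨es[j], List.getElem?_eq_getElem hj⟩
  rw [he]
  cases e with
  | ez i k =>
    show c.sgn (toLE (2 * (j : ℤ), HE.ez i k)) * lamX es c.eps ((i, 2 * (j : ℤ), k), 2) +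
      ∑ s ∈ Pt es j, c.eps j s * 0 = 0
    rw [lamX_2]
    simp
  | ex i k =>
    show c.sgn ((i, 2 * (j : ℤ), k), 0) * lamX es c.eps ((i, 2 * (j : ℤ), k), 0) +
      ∑ s ∈ Pt es j, c.eps j s * (if cx s = i ∧ cz s < k then
        c.eps (j + 1) (st i k) - c.eps j (st i k) else 0) =
      (c.eps j (st i k) - c.eps (j + 1) (st i k)) *
      (∑ s ∈ (Pt es (j + 1)).filter (fun s => cx s = i + 1 ∧ k < cz s), c.eps (j + 1) s -
        ∑ s ∈ (Pt es j).filter (fun s => cx s = i ∧ cz s < k), c.eps j s)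
    have h7 := lam_level hc j i k
    rw [lam_x hc he (x := i - 1) (by intro h; injection h with h _; omega),
      lam_z hc he (by simp), lam_z hc he (by simp)] at h7
    have h8 : c.sgn ((i, 2 * (j : ℤ), k), 0) = c.eps j (st i k) - c.eps (j + 1) (st i k) := by
      linarith
    have h9 : ∑ s ∈ Pt es j, c.eps j s * (if cx s = i ∧ cz s < k then
        c.eps (j + 1) (st i k) - c.eps j (st i k) else 0) =
        (c.eps (j + 1) (st i k) - c.eps j (st i k)) *
        ∑ s ∈ (Pt es j).filter (fun s => cx s = i ∧ cz s < k), c.eps j s := by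
      rw [Finset.sum_filter, Finset.mul_sum]
      apply Finset.sum_congr rfl
      intro s _
      split_ifs <;> ring
    rw [lamX_0, h8, h9]
    ring

theorem lam_prod (h3 : 3 ≤ m) (h0 : fin ∅ es = ∅) (hc : c.K = Kc es)
    (h : PiRel (Kc es) gx gy)
    (ht : ∀ j s, s ∈ Pt es j → lab (Gt gx j) s = t ^ (c.eps j s)) :
    ((List.range m).map fun j : ℕ => lel gx gy (c.v (j : ZMod m)) (c.dir (j : ZMod m))).prod =
      t ^ (En es c.eps) := by
  have h1 : ∀ i : ZMod m, lel gx gy (c.v i) (c.dir i) =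
      t ^ (lamX es c.eps (c.edge i) * (if (c.dir i).2 then (1 : ℤ) else -1)) := by
    intro i
    rw [lam_lel, lam_glab h3 h0 hc h ht (hc ▸ c.mem_K.2 ⟨i, rfl⟩), ← zpow_mul]
  simp only [h1]
  rw [lam_list_prod (t := t) (fun j : ℕ => lamX es c.eps (c.edge (j : ZMod m)) *
    (if (c.dir (j : ZMod m)).2 then (1 : ℤ) else -1)) (List.range m),
    lam_sum_zmod (fun i => lamX es c.eps (c.edge i) * (if (c.dir i).2 then (1 : ℤ) else -1)),
    lam_sum_edges hc, lam_total h3 h0 hc]

end Main

/-- The label of the curve. -/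
theorem prod_lel {m : ℕ} [NeZero m] {c : Curve m} (h3 : 3 ≤ m) {es : List HE} (hn : Nice ∅ es)
    (h0 : fin ∅ es = ∅) (hc : c.K = Kc es) {Γ : Type} [Group Γ] {gx gy : P3 → Γ}
    (h : PiRel (Kc es) gx gy) {t : Γ}
    (ht : ∀ j s, s ∈ Pt es j → lab (Gt gx j) s = t ^ (c.eps j s)) :
    ((List.range m).map fun j : ℕ => lel gx gy (c.v (j : ZMod m)) (c.dir (j : ZMod m))).prod =
      t ^ (En es c.eps) :=
  lam_prod h3 h0 hc h ht

end Pool.Agent.Lib.MP_131179_gt.Dehn
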