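import Mathlib

/-!
# Functions on a finite set invariant under involutions

`Inv s` is the space of all functions `Φ → ZMod 2` invariant under all maps of the list `s`, and `orb s`
is its dimension, i.e. the number of orbits.
-/

set_option autoImplicit false

namespace Pool.Agent.Lib.MP_131179_gt.Dehn

abbrev F2 : Type := ZMod 2

/-- The functions invariant under the maps in the list `s`. -/
def Inv {Φ : Type} (s : List (Φ → Φ)) : Submodule F2 (Φ → F2) where
  carrier := {g | ∀ f ∈ s, ∀ x, g (f x) = g x}
  zero_mem' := fun _ _ _ => rfl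
  add_mem' := fun {g h} hg hh f hf x => by
    show g (f x) + h (f x) = g x + h x
    rw [hg f hf x, hh f hf x]
  smul_mem' := fun a g hg f hf x => by
    show a • g (f x) = a • g x
    rw [hg f hf x]

theorem mem_Inv {Φ : Type} {s : List (Φ → Φ)} {g : Φ → F2} :
    g ∈ Inv s ↔ ∀ f ∈ s, ∀ x, g (f x) = g x := Iff.rfl

/-- The number of orbits (see `orb_eq_card`). -/
noncomputable def orb {Φ : Type} (s : List (Φ → Φ)) : ℕ := Module.finrank F2 (Inv s)

/-- `f` is an involution without fixed points. -/
structure FPF {Φ : Type} (f : Φ → Φ) : Prop where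
  inv : ∀ x, f (f x) = x
  ne : ∀ x, f x ≠ x

/-- One step by a map of the list `s`. -/
def OStep {Φ : Type} (s : List (Φ → Φ)) (x y : Φ) : Prop := ∃ f ∈ s, f x = y

/-- `x` and `y` are in the same orbit. -/
def SameOrb {Φ : Type} (s : List (Φ → Φ)) (x y : Φ) : Prop := Relation.EqvGen (OStep s) x y

end Pool.Agent.Lib.MP_131179_gt.Dehn
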