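import Pool.Agent.Lib.MP_131179_gt.Dehn.Lin

/-!
# Linear algebra of invariant functions
-/

set_option autoImplicit false

namespace Pool.Agent.Lib.MP_131179_gt.Dehn

open Finset

variable {Φ Φ' : Type}

theorem linAlg_add_self (a : F2) : a + a = 0 := CharTwo.add_self_eq_zero a

theorem linAlg_eq_of_add {a b : F2} (h : a + b = 0) : a = b := by
  have : a + b + b = b := by rw [h, zero_add]
  rwa [add_assoc, linAlg_add_self, add_zero] at this

theorem linAlg_two (a : F2) : a = 0 ∨ a = 1 := by
  revert a; decide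

/-- The map `g ↦ g + g ∘ c`. -/
noncomputable def linAlgT (c : Φ → Φ) : (Φ → F2) →ₗ[F2] (Φ → F2) :=
  LinearMap.id + LinearMap.funLeft F2 F2 c

theorem linAlgT_apply (c : Φ → Φ) (g : Φ → F2) (v : Φ) : linAlgT c g v = g v + g (c v) := rfl

/-- The dimension of the space of invariant functions is the number of orbits. -/
theorem orb_eq_card [Finite Φ] (s : List (Φ → Φ)) : orb s = Nat.card (Quot (OStep s)) := by
  classical
  have : Finite (Quot (OStep s)) := Quot.finite _
  have := Fintype.ofFinite (Quot (OStep s))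
  have e : Inv s ≃ₗ[F2] (Quot (OStep s) → F2) :=
    { toFun := fun g => Quot.lift g.1 (by
        rintro a b ⟨f, hf, rfl⟩
        exact (g.2 f hf a).symm)
      map_add' := by
        intro g h
        funext q
        induction q using Quot.ind
        rfl
      map_smul' := by
        intro r h
        funext q
        induction q using Quot.ind
        rfl
      invFun := fun φ => ⟨fun v => φ (Quot.mk _ v), by
        intro f hf x
        exact congrArg φ (Quot.sound ⟨f, hf, rfl⟩).symm⟩
      left_inv := fun g => rfl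
      right_inv := fun φ => by
        funext q
        induction q using Quot.ind
        rfl }
  rw [orb, e.finrank_eq, Module.finrank_fintype_fun_eq_card, Nat.card_eq_fintype_card]

theorem linAlg_forall_left {A B : Type} {R : A → B → Prop} {s : List A} {s' : List B}
    (h : List.Forall₂ R s s') : ∀ a ∈ s, ∃ b ∈ s', R a b := by
  induction h with
  | nil => intro f hf; simp at hf
  | cons hab _ ih =>
    intro f hf
    rcases List.mem_cons.1 hf with rfl | hf
    · exact ⟨_, List.mem_cons_self, hab⟩
    · obtain ⟨f', hf', h'⟩ := ih f hf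
      exact ⟨f', List.mem_cons_of_mem _ hf', h'⟩

theorem linAlg_forall_right {A B : Type} {R : A → B → Prop} {s : List A} {s' : List B}
    (h : List.Forall₂ R s s') : ∀ b ∈ s', ∃ a ∈ s, R a b := by
  induction h with
  | nil => intro f hf; simp at hf
  | cons hab _ ih =>
    intro f hf
    rcases List.mem_cons.1 hf with rfl | hf
    · exact ⟨_, List.mem_cons_self, hab⟩
    · obtain ⟨f', hf', h'⟩ := ih f hf
      exact ⟨f', List.mem_cons_of_mem _ hf', h'⟩

/-- Equivalent systems of maps have the same number of orbits. -/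
theorem orb_congr [Finite Φ] (e : Φ ≃ Φ') {s : List (Φ → Φ)} {s' : List (Φ' → Φ')}
    (h : List.Forall₂ (fun f f' => ∀ x, e (f x) = f' (e x)) s s') : orb s = orb s' := by
  have hl := linAlg_forall_left h
  have hr := linAlg_forall_right h
  have e' : Inv s ≃ₗ[F2] Inv s' :=
    { toFun := fun g => ⟨fun v => g.1 (e.symm v), by
        intro f' hf' x
        obtain ⟨f, hf, h'⟩ := hr f' hf'
        have h1 := h' (e.symm x)
        rw [Equiv.apply_symm_apply] at h1
        show g.1 (e.symm (f' x)) = g.1 (e.symm x)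
        rw [← h1, Equiv.symm_apply_apply]
        exact g.2 f hf _⟩
      map_add' := fun g h => rfl
      map_smul' := fun r g => rfl
      invFun := fun g => ⟨fun v => g.1 (e v), by
        intro f hf x
        obtain ⟨f', hf', h'⟩ := hl f hf
        show g.1 (e (f x)) = g.1 (e x)
        rw [h']
        exact g.2 f' hf' _⟩
      left_inv := fun g => by
        ext v
        show g.1 (e.symm (e v)) = g.1 v
        rw [Equiv.symm_apply_apply]
      right_inv := fun g => by
        ext v
        show g.1 (e (e.symm v)) = g.1 v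
        rw [Equiv.apply_symm_apply] }
  exact e'.finrank_eq

/-- `orb` only depends on the invariant functions. -/
theorem orb_congr_inv {s s' : List (Φ → Φ)} (h : ∀ g : Φ → F2, g ∈ Inv s ↔ g ∈ Inv s') :
    orb s = orb s' := by
  have : Inv s = Inv s' := Submodule.ext h
  rw [orb, orb, this]

theorem orb_le_card [Fintype Φ] (s : List (Φ → Φ)) : orb s ≤ Fintype.card Φ := by
  have h := Submodule.finrank_le (Inv s)
  rwa [Module.finrank_fintype_fun_eq_card] at h

theorem linAlg_Inv_anti {s s' : List (Φ → Φ)} (h : s ⊆ s') : Inv s' ≤ Inv s :=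
  fun _ hg f hf x => hg f (h hf) x

/-- Adding generators decreases the number of orbits. -/
theorem orb_anti [Finite Φ] {s s' : List (Φ → Φ)} (h : s ⊆ s') : orb s' ≤ orb s :=
  Submodule.finrank_mono (linAlg_Inv_anti h)

theorem linAlg_const (s : List (Φ → Φ)) (a : F2) : (fun _ : Φ => a) ∈ Inv s :=
  fun _ _ _ => rfl

theorem one_le_orb [Finite Φ] [Nonempty Φ] (s : List (Φ → Φ)) : 1 ≤ orb s := by
  rw [orb, Submodule.one_le_finrank_iff]
  intro h
  have h1 := linAlg_const s 1
  rw [h, Submodule.mem_bot] at h1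
  obtain ⟨x⟩ := ‹Nonempty Φ›
  have h2 : (1 : F2) = 0 := congrFun h1 x
  exact absurd h2 (by decide)

/-- One orbit means that all invariant functions are constant. -/
theorem orb_eq_one_iff [Finite Φ] [Nonempty Φ] (s : List (Φ → Φ)) :
    orb s = 1 ↔ ∀ g ∈ Inv s, ∀ x y, g x = g y := by
  obtain ⟨x0⟩ := ‹Nonempty Φ›
  have hne : (⟨fun _ => 1, linAlg_const s 1⟩ : Inv s) ≠ 0 := by
    intro h
    have h2 : (1 : F2) = 0 := congrFun (congrArg Subtype.val h) x0
    exact absurd h2 (by decide)
  rw [orb, finrank_eq_one_iff_of_nonzero' _ hne]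
  constructor
  · intro h g hg x y
    obtain ⟨c, hc⟩ := h ⟨g, hg⟩
    have hc' : ∀ v, g v = c := by
      intro v
      have := congrFun (congrArg Subtype.val hc) v
      simpa using this.symm
    rw [hc', hc']
  · rintro h ⟨g, hg⟩
    refine ⟨g x0, ?_⟩
    ext v
    show g x0 • (1 : F2) = g v
    rw [smul_eq_mul, mul_one]
    exact h g hg x0 v

/-- Splitting `Φ` into two invariant parts. -/
theorem orb_split [Finite Φ] (p : Φ → Prop) {s : List (Φ → Φ)}
    {s1 : List ({x // p x} → {x // p x})} {s2 : List ({x // ¬ p x} → {x // ¬ p x})}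
    (h1 : List.Forall₂ (fun (f : Φ → Φ) f1 => ∀ x, (f1 x : {x // p x}).1 = f x.1) s s1)
    (h2 : List.Forall₂ (fun (f : Φ → Φ) f2 => ∀ x, (f2 x : {x // ¬ p x}).1 = f x.1) s s2) :
    orb s = orb s1 + orb s2 := by
  classical
  have hl1 := linAlg_forall_left h1
  have hr1 := linAlg_forall_right h1
  have hl2 := linAlg_forall_left h2
  have hr2 := linAlg_forall_right h2
  have e : Inv s ≃ₗ[F2] (Inv s1 × Inv s2) :=
    { toFun := fun g => (⟨fun v => g.1 v.1, by
          intro f1 hf1 x
          obtain ⟨f, hf, h⟩ := hr1 f1 hf1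
          show g.1 (f1 x).1 = g.1 x.1
          rw [h]
          exact g.2 f hf _⟩, ⟨fun v => g.1 v.1, by
          intro f2 hf2 x
          obtain ⟨f, hf, h⟩ := hr2 f2 hf2
          show g.1 (f2 x).1 = g.1 x.1
          rw [h]
          exact g.2 f hf _⟩)
      map_add' := fun g h => rfl
      map_smul' := fun r g => rfl
      invFun := fun g => ⟨fun v => if h : p v then g.1.1 ⟨v, h⟩ else g.2.1 ⟨v, h⟩, by
        intro f hf x
        by_cases hx : p x
        · obtain ⟨f1, hf1, h⟩ := hl1 f hf
          have h' := h ⟨x, hx⟩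
          have hfx : p (f x) := by
            have := (f1 ⟨x, hx⟩).2
            rw [h'] at this
            exact this
          show (if h : p (f x) then g.1.1 ⟨f x, h⟩ else g.2.1 ⟨f x, h⟩)
            = if h : p x then g.1.1 ⟨x, h⟩ else g.2.1 ⟨x, h⟩
          rw [dif_pos hfx, dif_pos hx, ← g.1.2 f1 hf1 ⟨x, hx⟩]
          exact congrArg g.1.1 (Subtype.ext h'.symm)
        · obtain ⟨f2, hf2, h⟩ := hl2 f hf
          have h' := h ⟨x, hx⟩
          have hfx : ¬ p (f x) := by
            have := (f2 ⟨x, hx⟩).2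
            rw [h'] at this
            exact this
          show (if h : p (f x) then g.1.1 ⟨f x, h⟩ else g.2.1 ⟨f x, h⟩)
            = if h : p x then g.1.1 ⟨x, h⟩ else g.2.1 ⟨x, h⟩
          rw [dif_neg hfx, dif_neg hx, ← g.2.2 f2 hf2 ⟨x, hx⟩]
          exact congrArg g.2.1 (Subtype.ext h'.symm)⟩
      left_inv := fun g => by
        ext v
        show (if h : p v then g.1 v else g.1 v) = g.1 v
        split <;> rfl
      right_inv := fun g => by
        refine Prod.ext (Subtype.ext (funext fun v => ?_)) (Subtype.ext (funext fun v => ?_))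
        · show (if h : p v.1 then g.1.1 ⟨v.1, h⟩ else g.2.1 ⟨v.1, h⟩) = g.1.1 v
          rw [dif_pos v.2]
        · show (if h : p v.1 then g.1.1 ⟨v.1, h⟩ else g.2.1 ⟨v.1, h⟩) = g.2.1 v
          rw [dif_neg v.2] }
  rw [orb, e.finrank_eq, Module.finrank_prod]
  rfl

/-- A transversal for a fixed point free involution. -/
theorem linAlg_transversal [Finite Φ] {x : Φ → Φ} (hx : FPF x) :
    ∃ t : Φ → F2, ∀ v, t (x v) = t v + 1 := by
  classical
  obtain ⟨n, ⟨e⟩⟩ := Finite.exists_equiv_fin Φ
  refine ⟨fun v => if e v < e (x v) then 1 else 0, fun v => ?_⟩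
  show (if e (x v) < e (x (x v)) then (1 : F2) else 0) = (if e v < e (x v) then 1 else 0) + 1
  rw [hx.inv v]
  have hne : e v ≠ e (x v) := fun h => hx.ne v (e.injective h).symm
  rcases lt_or_gt_of_ne hne with h | h
  · rw [if_neg (not_lt.2 h.le), if_pos h]
    exact (linAlg_add_self 1).symm
  · rw [if_pos h, if_neg (not_lt.2 h.le), zero_add]

theorem linAlg_pair_step [Finite Φ] {s : List (Φ → Φ)} {c : Φ → Φ} (hc : ∀ v, c (c v) = v)
    (hs : ∀ f ∈ s, ∀ v, f (c v) = c (f v)) :
    ∃ T : Inv s →ₗ[F2] Inv s, (∀ g v, (T g).1 v = g.1 v + g.1 (c v)) ∧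
      Module.finrank F2 (LinearMap.ker T) = orb (c :: s) ∧
      ∀ g, (T g).1 ∈ Inv (c :: s) := by
  have hmem : ∀ g : Φ → F2, g ∈ Inv s → (fun v => g v + g (c v)) ∈ Inv s := by
    intro g hg f hf v
    show g (f v) + g (c (f v)) = g v + g (c v)
    rw [← hs f hf v, hg f hf v, hg f hf (c v)]
  refine ⟨{ toFun := fun g => ⟨fun v => g.1 v + g.1 (c v), hmem g.1 g.2⟩,
            map_add' := ?_, map_smul' := ?_ }, fun g v => rfl, ?_, ?_⟩
  · intro g h
    ext v
    show (g.1 v + h.1 v) + (g.1 (c v) + h.1 (c v)) = (g.1 v + g.1 (c v)) + (h.1 v + h.1 (c v))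
    ring
  · intro r g
    ext v
    show r * g.1 v + r * g.1 (c v) = r * (g.1 v + g.1 (c v))
    ring
  · refine LinearEquiv.finrank_eq
      { toFun := fun g => ⟨g.1.1, ?_⟩, map_add' := fun g h => rfl, map_smul' := fun r g => rfl,
        invFun := fun g => ⟨⟨g.1, ?_⟩, ?_⟩, left_inv := fun g => rfl, right_inv := fun g => rfl }
    · intro f hf v
      rcases List.mem_cons.1 hf with rfl | hf
      · have h := g.2
        rw [LinearMap.mem_ker] at h
        have h' := congrFun (congrArg Subtype.val h) v
        exact (linAlg_eq_of_add h').symm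
      · exact g.1.2 f hf v
    · exact fun f hf v => g.2 f (List.mem_cons_of_mem _ hf) v
    · rw [LinearMap.mem_ker]
      ext v
      show g.1 v + g.1 (c v) = 0
      rw [g.2 c List.mem_cons_self v]
      exact linAlg_add_self _
  · intro g f hf v
    rcases List.mem_cons.1 hf with rfl | hf
    · show g.1 (f v) + g.1 (f (f v)) = g.1 v + g.1 (f v)
      rw [hc v, add_comm]
    · exact hmem g.1 g.2 f hf v

/-- If `c` commutes with all maps and flips an invariant function, then dividing by `c` halves the
number of orbits. -/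
theorem orb_double [Finite Φ] {s : List (Φ → Φ)} {c : Φ → Φ} (hc : ∀ v, c (c v) = v)
    (hs : ∀ f ∈ s, ∀ v, f (c v) = c (f v)) {G : Φ → F2} (hG : G ∈ Inv s)
    (hGc : ∀ v, G (c v) = G v + 1) : orb s = 2 * orb (c :: s) := by
  obtain ⟨T, hT, hker, hran⟩ := linAlg_pair_step hc hs
  have h1 := LinearMap.finrank_range_add_finrank_ker T
  have h2 : Module.finrank F2 (LinearMap.range T) = orb (c :: s) := by
    refine LinearEquiv.finrank_eq
      { toFun := fun g => ⟨g.1.1, ?_⟩, map_add' := fun g h => rfl, map_smul' := fun r g => rfl,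
        invFun := fun g => ⟨⟨g.1, ?_⟩, ?_⟩, left_inv := fun g => rfl, right_inv := fun g => rfl }
    · obtain ⟨u, hu⟩ := g.2
      rw [← hu]
      exact hran u
    · exact fun f hf v => g.2 f (List.mem_cons_of_mem _ hf) v
    · refine ⟨⟨fun v => G v * g.1 v, fun f hf v => ?_⟩, ?_⟩
      · show G (f v) * g.1 (f v) = G v * g.1 v
        rw [hG f hf v, g.2 f (List.mem_cons_of_mem _ hf) v]
      · ext v
        rw [hT]
        show G v * g.1 v + G (c v) * g.1 (c v) = g.1 v
        rw [g.2 c List.mem_cons_self v, hGc v]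
        calc G v * g.1 v + (G v + 1) * g.1 v = (G v * g.1 v + G v * g.1 v) + g.1 v := by ring
          _ = g.1 v := by rw [linAlg_add_self, zero_add]
  rw [h2, hker] at h1
  show Module.finrank F2 (Inv s) = _
  rw [← h1]
  ring

/-- Adding one commuting involution at most halves the number of orbits. -/
theorem orb_le_double [Finite Φ] {s : List (Φ → Φ)} {c : Φ → Φ} (hc : ∀ v, c (c v) = v)
    (hs : ∀ f ∈ s, ∀ v, f (c v) = c (f v)) : orb s ≤ 2 * orb (c :: s) := by
  obtain ⟨T, hT, hker, hran⟩ := linAlg_pair_step hc hs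
  have h1 := LinearMap.finrank_range_add_finrank_ker T
  have h2 : Module.finrank F2 (LinearMap.range T) ≤ orb (c :: s) := by
    refine LinearMap.finrank_le_finrank_of_injective
      (f := { toFun := fun g => ⟨g.1.1, ?_⟩, map_add' := fun g h => rfl,
              map_smul' := fun r g => rfl }) ?_
    · obtain ⟨u, hu⟩ := g.2
      rw [← hu]
      exact hran u
    · intro a b hab
      have h' := Subtype.ext_iff.1
        (show (⟨a.1.1, _⟩ : Inv (c :: s)) = ⟨b.1.1, _⟩ from hab)
      exact Subtype.ext (Subtype.ext h')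
  rw [hker] at h1
  show Module.finrank F2 (Inv s) ≤ _
  omega

/-- If there is only one orbit of `c :: s`, but two orbits of `s`, then `c` exchanges them. -/
theorem exists_flip [Finite Φ] [Nonempty Φ] {s : List (Φ → Φ)} {c : Φ → Φ}
    (hc : ∀ v, c (c v) = v) (hs : ∀ f ∈ s, ∀ v, f (c v) = c (f v)) (h1 : orb (c :: s) = 1)
    (h2 : 2 ≤ orb s) : ∃ G ∈ Inv s, ∀ v, G (c v) = G v + 1 := by
  have hns : ¬ orb s = 1 := by omega
  rw [orb_eq_one_iff] at hns h1
  push Not at hns
  obtain ⟨g, hg, a, b, hab⟩ := hns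
  have hgc : (fun v => g v + g (c v)) ∈ Inv (c :: s) := by
    intro f hf v
    rcases List.mem_cons.1 hf with rfl | hf
    · show g (f v) + g (f (f v)) = g v + g (f v)
      rw [hc v, add_comm]
    · show g (f v) + g (c (f v)) = g v + g (c v)
      rw [← hs f hf v, hg f hf v, hg f hf (c v)]
  have hconst := h1 _ hgc
  refine ⟨g, hg, fun v => ?_⟩
  rcases linAlg_two (g v + g (c v)) with h0 | h0
  · exfalso
    have hinv : g ∈ Inv (c :: s) := by
      intro f hf w
      rcases List.mem_cons.1 hf with rfl | hf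
      · have h3 : g w + g (f w) = g v + g (f v) := hconst w v
        exact (linAlg_eq_of_add (h3.trans h0)).symm
      · exact hg f hf w
    exact hab (h1 g hinv a b)
  · have : g (c v) = g v + (g v + g (c v)) := by
      rw [← add_assoc, linAlg_add_self, zero_add]
    rw [this, h0]

/-- Dividing by an involution which flips a predicate preserved by the other maps. -/
theorem orb_transversal [Finite Φ] {p : Φ → Prop} {c : Φ → Φ} (hc : ∀ v, c (c v) = v)
    (hp : ∀ v, p (c v) ↔ ¬ p v) {s : List (Φ → Φ)} {s1 : List ({x // p x} → {x // p x})}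
    (hs : ∀ f ∈ s, ∀ v, f (c v) = c (f v))
    (h1 : List.Forall₂ (fun (f : Φ → Φ) f1 => ∀ x, (f1 x : {x // p x}).1 = f x.1) s s1) :
    orb (c :: s) = orb s1 := by
  classical
  have hl1 := linAlg_forall_left h1
  have hr1 := linAlg_forall_right h1
  have hpf : ∀ f ∈ s, ∀ v, p v → p (f v) := by
    intro f hf v hv
    obtain ⟨f1, hf1, h⟩ := hl1 f hf
    have h' := h ⟨v, hv⟩
    have := (f1 ⟨v, hv⟩).2
    rw [h'] at this
    exact this
  refine LinearEquiv.finrank_eq
    { toFun := fun g => ⟨fun v => g.1 v.1, ?_⟩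
      map_add' := fun g h => rfl
      map_smul' := fun r g => rfl
      invFun := fun g => ⟨fun v => if h : p v then g.1 ⟨v, h⟩ else g.1 ⟨c v, (hp v).2 h⟩, ?_⟩
      left_inv := fun g => ?_
      right_inv := fun g => ?_ }
  · intro f1 hf1 x
    obtain ⟨f, hf, h⟩ := hr1 f1 hf1
    show g.1 (f1 x).1 = g.1 x.1
    rw [h]
    exact g.2 f (List.mem_cons_of_mem _ hf) _
  · intro f hf v
    show (if h : p (f v) then g.1 ⟨f v, h⟩ else g.1 ⟨c (f v), (hp _).2 h⟩)
      = if h : p v then g.1 ⟨v, h⟩ else g.1 ⟨c v, (hp v).2 h⟩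
    rcases List.mem_cons.1 hf with rfl | hf
    · by_cases hv : p v
      · have hfv : ¬ p (f v) := fun h => (hp v).1 h hv
        rw [dif_neg hfv, dif_pos hv]
        exact congrArg g.1 (Subtype.ext (hc v))
      · have hfv : p (f v) := (hp v).2 hv
        rw [dif_pos hfv, dif_neg hv]
    · obtain ⟨f1, hf1, h⟩ := hl1 f hf
      by_cases hv : p v
      · have hfv : p (f v) := hpf f hf v hv
        rw [dif_pos hfv, dif_pos hv, ← g.2 f1 hf1 ⟨v, hv⟩]
        exact congrArg g.1 (Subtype.ext (h ⟨v, hv⟩).symm)
      · have hcv : p (c v) := (hp v).2 hv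
        have hfv : ¬ p (f v) := by
          intro h0
          have h2 : p (f (c v)) := hpf f hf _ hcv
          rw [hs f hf v] at h2
          exact (hp (f v)).1 h2 h0
        rw [dif_neg hfv, dif_neg hv, ← g.2 f1 hf1 ⟨c v, hcv⟩]
        exact congrArg g.1 (Subtype.ext ((hs f hf v).symm.trans (h ⟨c v, hcv⟩).symm))
  · ext v
    show (if h : p v then g.1 v else g.1 (c v)) = g.1 v
    split
    · rfl
    · exact g.2 c List.mem_cons_self v
  · ext v
    show (if h : p v.1 then g.1 ⟨v.1, h⟩ else g.1 ⟨c v.1, (hp _).2 h⟩) = g.1 v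
    rw [dif_pos v.2]

/-- Dimension formula for two families of maps. -/
theorem orb_add_le [Finite Φ] (s t u : List (Φ → Φ)) (ht : s ⊆ t) (hu : s ⊆ u) :
    orb t + orb u ≤ orb s + orb (t ++ u) := by
  have h1 := Submodule.finrank_sup_add_finrank_inf_eq (Inv t) (Inv u)
  have h2 : Inv t ⊓ Inv u = Inv (t ++ u) := by
    ext g
    rw [Submodule.mem_inf]
    constructor
    · rintro ⟨h, h'⟩ f hf v
      rcases List.mem_append.1 hf with hf | hf
      · exact h f hf v
      · exact h' f hf v
    · intro h
      exact ⟨fun f hf v => h f (List.mem_append_left _ hf) v,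
        fun f hf v => h f (List.mem_append_right _ hf) v⟩
  have h3 : Module.finrank F2 ↥(Inv t ⊔ Inv u) ≤ Module.finrank F2 (Inv s) :=
    Submodule.finrank_mono (sup_le (linAlg_Inv_anti ht) (linAlg_Inv_anti hu))
  rw [h2] at h1
  show Module.finrank F2 (Inv t) + Module.finrank F2 (Inv u) ≤ Module.finrank F2 (Inv s)
    + Module.finrank F2 (Inv (t ++ u))
  omega


theorem linAlg_orb_nil [Fintype Φ] : orb ([] : List (Φ → Φ)) = Fintype.card Φ := by
  have : Inv ([] : List (Φ → Φ)) = ⊤ := by
    ext g
    simp [mem_Inv]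
  rw [orb, this, finrank_top, Module.finrank_fintype_fun_eq_card]

theorem orb_single [Fintype Φ] {x : Φ → Φ} (hx : FPF x) : 2 * orb [x] = Fintype.card Φ := by
  obtain ⟨t, ht⟩ := linAlg_transversal hx
  rw [← orb_double (s := []) (c := x) hx.inv (by simp) (G := t) (by simp [mem_Inv]) ht,
    linAlg_orb_nil]

theorem linAlg_eqvGen_single {x : Φ → Φ} (hx : ∀ v, x (x v) = v) {a b : Φ}
    (h : Relation.EqvGen (OStep [x]) a b) : a = b ∨ a = x b := by
  induction h with
  | rel a b h =>
    obtain ⟨f, hf, rfl⟩ := h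
    rw [List.mem_singleton] at hf
    subst hf
    exact Or.inr (hx a).symm
  | refl a => exact Or.inl rfl
  | symm a b _ ih =>
    rcases ih with rfl | rfl
    · exact Or.inl rfl
    · exact Or.inr (hx b).symm
  | trans a b c _ _ ih1 ih2 =>
    rcases ih1 with rfl | rfl
    · exact ih2
    · rcases ih2 with rfl | rfl
      · exact Or.inr rfl
      · exact Or.inl (hx c)

theorem linAlg_flip_klein [Finite Φ] {x z : Φ → Φ} (hx : FPF x) (hz : FPF z)
    (hxz : ∀ v, x (z v) ≠ v) (h : ∀ v, x (z v) = z (x v)) :
    ∃ G ∈ Inv [x], ∀ v, G (z v) = G v + 1 := by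
  classical
  have : Finite (Quot (OStep [x])) := Quot.finite _
  let z' : Quot (OStep [x]) → Quot (OStep [x]) := Quot.lift (fun v => Quot.mk _ (z v)) (by
    rintro a b ⟨f, hf, rfl⟩
    rw [List.mem_singleton] at hf
    subst hf
    show Quot.mk _ (z a) = Quot.mk _ (z (f a))
    rw [← h]
    exact Quot.sound ⟨f, List.mem_singleton.2 rfl, rfl⟩)
  have hz' : FPF z' := by
    constructor
    · intro q
      induction q using Quot.ind with
      | _ v =>
        show Quot.mk _ (z (z v)) = Quot.mk _ v
        rw [hz.inv]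
    · intro q
      induction q using Quot.ind with
      | _ v =>
        intro hq
        have hq' : Quot.mk (OStep [x]) (z v) = Quot.mk _ v := hq
        rcases linAlg_eqvGen_single hx.inv (Quot.eqvGen_exact hq') with h1 | h1
        · exact hz.ne v h1
        · apply hxz v
          rw [h1, hx.inv]
  obtain ⟨t, ht⟩ := linAlg_transversal hz'
  refine ⟨fun v => t (Quot.mk _ v), ?_, fun v => ht (Quot.mk _ v)⟩
  intro f hf v
  exact congrArg t (Quot.sound (r := OStep [x]) ⟨f, hf, rfl⟩).symm

theorem linAlg_orb_swap (x z : Φ → Φ) : orb [x, z] = orb [z, x] := by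
  refine orb_congr_inv fun g => ?_
  simp only [mem_Inv, List.mem_cons, List.not_mem_nil, or_false, forall_eq_or_imp, forall_eq]
  exact And.comm

theorem orb_klein [Fintype Φ] {x z : Φ → Φ} (hx : FPF x) (hz : FPF z)
    (hxz : ∀ v, x (z v) ≠ v) (h : ∀ v, x (z v) = z (x v)) :
    4 * orb [x, z] = Fintype.card Φ := by
  obtain ⟨G, hG, hGz⟩ := linAlg_flip_klein hx hz hxz h
  have h1 := orb_double (s := [x]) (c := z) hz.inv (by
    intro f hf v
    rw [List.mem_singleton] at hf
    subst hf
    exact h v) hG hGz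
  have h2 := orb_single hx
  rw [linAlg_orb_swap]
  omega

/-- If two fixed point free involutions never agree, then all orbits have at least four elements. -/
theorem orb_pair_le [Fintype Φ] {x z : Φ → Φ} (hx : FPF x) (hz : FPF z)
    (hxz : ∀ v, x v ≠ z v) : 4 * orb [x, z] ≤ Fintype.card Φ := by
  classical
  rw [orb_eq_card]
  have : Finite (Quot (OStep [x, z])) := Quot.finite _
  have := Fintype.ofFinite (Quot (OStep [x, z]))
  rw [Nat.card_eq_fintype_card, ← Finset.card_univ (α := Φ),
    Finset.card_eq_sum_card_fiberwise (f := fun v => Quot.mk (OStep [x, z]) v)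
      (t := Finset.univ) (fun _ _ => Finset.mem_coe.2 (Finset.mem_univ _)),
    ← Finset.card_univ (α := Quot (OStep [x, z])), mul_comm, ← smul_eq_mul,
    ← Finset.sum_const]
  refine Finset.sum_le_sum fun q _ => ?_
  induction q using Quot.ind with
  | _ v =>
    have hxs : ∀ w, Quot.mk (OStep [x, z]) (x w) = Quot.mk _ w := fun w =>
      (Quot.sound ⟨x, by simp, rfl⟩).symm
    have hzs : ∀ w, Quot.mk (OStep [x, z]) (z w) = Quot.mk _ w := fun w =>
      (Quot.sound ⟨z, by simp, rfl⟩).symm
    have hsub : ({v, x v, z v, x (z v)} : Finset Φ) ⊆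
        Finset.univ.filter (fun w => Quot.mk (OStep [x, z]) w = Quot.mk _ v) := by
      intro w hw
      simp only [Finset.mem_insert, Finset.mem_singleton] at hw
      rw [Finset.mem_filter]
      refine ⟨Finset.mem_univ _, ?_⟩
      rcases hw with rfl | rfl | rfl | rfl
      · rfl
      · exact hxs _
      · exact hzs _
      · exact (hxs _).trans (hzs _)
    refine le_trans (le_of_eq ?_) (Finset.card_le_card hsub)
    have h1 : v ≠ x v := (hx.ne v).symm
    have h2 : v ≠ z v := (hz.ne v).symm
    have h3 : v ≠ x (z v) := by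
      intro h
      apply hxz v
      conv_lhs => rw [h]
      exact hx.inv _
    have h4 : x v ≠ z v := hxz v
    have h5 : x v ≠ x (z v) := by
      intro h
      have := congrArg x h
      rw [hx.inv, hx.inv] at this
      exact h2 this
    have h6 : z v ≠ x (z v) := (hx.ne _).symm
    rw [Finset.card_insert_of_notMem (by simp [h1, h2, h3]),
      Finset.card_insert_of_notMem (by simp [h4, h5]),
      Finset.card_insert_of_notMem (by simp [h6]), Finset.card_singleton]

/-- The annihilator of the functions invariant under a fixed point free involution. -/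
theorem mem_Inv_of_orth [Fintype Φ] {x : Φ → Φ} (hx : FPF x) {g : Φ → F2}
    (h : ∀ f : Φ → F2, (∀ v, f (x v) = f v) → ∑ v, f v * g v = 0) : ∀ v, g (x v) = g v := by
  classical
  intro v
  have h1 := h (fun w => if w = v ∨ w = x v then 1 else 0) (by
    intro w
    have : (x w = v ∨ x w = x v) ↔ (w = v ∨ w = x v) := by
      constructor
      · rintro (h | h)
        · right
          rw [← h, hx.inv]
        · left
          have := congrArg x h
          rwa [hx.inv, hx.inv] at this
      · rintro (h | h)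
        · right
          rw [h]
        · left
          rw [h, hx.inv]
    simp only [this])
  have h2 : ∑ w, (if w = v ∨ w = x v then (1 : F2) else 0) * g w
      = ∑ w ∈ ({v, x v} : Finset Φ), g w := by
    rw [← Finset.sum_filter_add_sum_filter_not Finset.univ (fun w => w = v ∨ w = x v)]
    have e1 : ∑ w ∈ Finset.univ.filter (fun w => w = v ∨ w = x v),
        (if w = v ∨ w = x v then (1 : F2) else 0) * g w = ∑ w ∈ ({v, x v} : Finset Φ), g w := by
      refine Finset.sum_congr ?_ ?_
      · ext w
        simp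
      · intro w hw
        rw [Finset.mem_insert, Finset.mem_singleton] at hw
        rw [if_pos hw, one_mul]
    have e2 : ∑ w ∈ Finset.univ.filter (fun w => ¬ (w = v ∨ w = x v)),
        (if w = v ∨ w = x v then (1 : F2) else 0) * g w = 0 := by
      refine Finset.sum_eq_zero ?_
      intro w hw
      rw [Finset.mem_filter] at hw
      rw [if_neg hw.2, zero_mul]
    rw [e1, e2, add_zero]
  rw [h2, Finset.sum_pair (hx.ne v).symm] at h1
  exact (linAlg_eq_of_add h1).symm

/-- The standard bilinear form. -/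
noncomputable def linAlgB (Φ : Type) [Fintype Φ] : LinearMap.BilinForm F2 (Φ → F2) :=
  LinearMap.mk₂ F2 (fun f g => ∑ v, f v * g v)
    (by intro a b c; simp only [Pi.add_apply, add_mul, Finset.sum_add_distrib])
    (by intro r a b; simp only [Pi.smul_apply, smul_eq_mul, Finset.mul_sum, mul_assoc])
    (by intro a b c; simp only [Pi.add_apply, mul_add, Finset.sum_add_distrib])
    (by
      intro r a b
      simp only [Pi.smul_apply, smul_eq_mul, Finset.mul_sum]
      exact Finset.sum_congr rfl fun _ _ => by ring)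

theorem linAlgB_apply [Fintype Φ] (f g : Φ → F2) : linAlgB Φ f g = ∑ v, f v * g v := rfl

theorem linAlgB_symm [Fintype Φ] (f g : Φ → F2) : linAlgB Φ f g = linAlgB Φ g f :=
  Finset.sum_congr rfl fun _ _ => mul_comm _ _

theorem linAlgB_refl [Fintype Φ] : (linAlgB Φ).IsRefl := by
  intro f g h
  rw [linAlgB_symm]
  exact h

theorem linAlgB_nondeg [Fintype Φ] : (linAlgB Φ).Nondegenerate := by
  classical
  have key : ∀ f : Φ → F2, (∀ g, linAlgB Φ f g = 0) → f = 0 := by
    intro f h
    funext v
    have h1 := h (Pi.single v 1)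
    rw [linAlgB_apply] at h1
    simpa [Pi.single_apply] using h1
  refine ⟨fun f h => key f h, fun f h => key f fun g => ?_⟩
  rw [linAlgB_symm]
  exact h g

/-- The inequality for three fixed point free involutions. -/
theorem gem_ineq [Fintype Φ] {x y z : Φ → Φ} (hx : FPF x) (hy : FPF y) (hz : FPF z) :
    2 * (orb [x, y] + orb [y, z] + orb [x, z]) ≤ Fintype.card Φ + 4 * orb [x, y, z] := by
  classical
  -- the sum of the three spaces
  let L : (Inv [x] × Inv [y] × Inv [z]) →ₗ[F2] (Φ → F2) :=
    (Inv [x]).subtype.coprod ((Inv [y]).subtype.coprod (Inv [z]).subtype)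
  have hL : ∀ p, L p = p.1.1 + (p.2.1.1 + p.2.2.1) := fun p => rfl
  have hrk := LinearMap.finrank_range_add_finrank_ker L
  rw [Module.finrank_prod, Module.finrank_prod] at hrk
  have horth : Module.finrank F2 ((linAlgB Φ).orthogonal (LinearMap.range L)) ≤ orb [x, y, z] := by
    refine Submodule.finrank_mono ?_
    intro g hg
    rw [LinearMap.BilinForm.mem_orthogonal_iff] at hg
    have key : ∀ f ∈ LinearMap.range L, ∑ v, f v * g v = 0 := fun f hf => hg f hf
    have hgx := mem_Inv_of_orth hx (g := g) (fun f hf => key f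
      ⟨(⟨f, fun a ha v => by rw [List.mem_singleton] at ha; subst ha; exact hf v⟩, 0, 0), by
        rw [hL]; simp⟩)
    have hgy := mem_Inv_of_orth hy (g := g) (fun f hf => key f
      ⟨(0, ⟨f, fun a ha v => by rw [List.mem_singleton] at ha; subst ha; exact hf v⟩, 0), by
        rw [hL]; simp⟩)
    have hgz := mem_Inv_of_orth hz (g := g) (fun f hf => key f
      ⟨(0, 0, ⟨f, fun a ha v => by rw [List.mem_singleton] at ha; subst ha; exact hf v⟩), by
        rw [hL]; simp⟩)
    intro a ha v
    simp only [List.mem_cons, List.not_mem_nil, or_false] at ha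
    rcases ha with rfl | rfl | rfl
    · exact hgx v
    · exact hgy v
    · exact hgz v
  rw [LinearMap.BilinForm.finrank_orthogonal linAlgB_nondeg, Module.finrank_fintype_fun_eq_card]
    at horth
  have h1 := orb_single hx
  have h2 := orb_single hy
  have h3 := orb_single hz
  -- the map into the kernel
  have hmono : ∀ {s s' : List (Φ → Φ)}, s ⊆ s' → ∀ g : Inv s', g.1 ∈ Inv s :=
    fun h g => linAlg_Inv_anti h g.2
  let M : (Inv [x, y] × Inv [y, z] × Inv [x, z]) →ₗ[F2] (Inv [x] × Inv [y] × Inv [z]) :=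
    { toFun := fun p =>
        (⟨p.1.1 + p.2.2.1, (Inv [x]).add_mem (hmono (by simp) p.1) (hmono (by simp) p.2.2)⟩,
         ⟨p.1.1 + p.2.1.1, (Inv [y]).add_mem (hmono (by simp) p.1) (hmono (by simp) p.2.1)⟩,
         ⟨p.2.1.1 + p.2.2.1, (Inv [z]).add_mem (hmono (by simp) p.2.1) (hmono (by simp) p.2.2)⟩)
      map_add' := by
        intro p q
        refine Prod.ext (Subtype.ext ?_) (Prod.ext (Subtype.ext ?_) (Subtype.ext ?_))
        · show (p.1.1 + q.1.1) + (p.2.2.1 + q.2.2.1) = (p.1.1 + p.2.2.1) + (q.1.1 + q.2.2.1)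
          abel
        · show (p.1.1 + q.1.1) + (p.2.1.1 + q.2.1.1) = (p.1.1 + p.2.1.1) + (q.1.1 + q.2.1.1)
          abel
        · show (p.2.1.1 + q.2.1.1) + (p.2.2.1 + q.2.2.1)
            = (p.2.1.1 + p.2.2.1) + (q.2.1.1 + q.2.2.1)
          abel
      map_smul' := by
        intro r p
        refine Prod.ext (Subtype.ext ?_) (Prod.ext (Subtype.ext ?_) (Subtype.ext ?_))
        · exact (smul_add r p.1.1 p.2.2.1).symm
        · exact (smul_add r p.1.1 p.2.1.1).symm
        · exact (smul_add r p.2.1.1 p.2.2.1).symm }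
  have hM1 : ∀ p, (M p).1.1 = p.1.1 + p.2.2.1 := fun p => rfl
  have hM2 : ∀ p, (M p).2.1.1 = p.1.1 + p.2.1.1 := fun p => rfl
  have hM3 : ∀ p, (M p).2.2.1 = p.2.1.1 + p.2.2.1 := fun p => rfl
  have hMrange : LinearMap.range M ≤ LinearMap.ker L := by
    rintro _ ⟨p, rfl⟩
    rw [LinearMap.mem_ker, hL, hM1, hM2, hM3]
    funext v
    show (p.1.1 v + p.2.2.1 v) + ((p.1.1 v + p.2.1.1 v) + (p.2.1.1 v + p.2.2.1 v)) = 0
    have e : (p.1.1 v + p.2.2.1 v) + ((p.1.1 v + p.2.1.1 v) + (p.2.1.1 v + p.2.2.1 v))
      = (p.1.1 v + p.1.1 v) + (p.2.1.1 v + p.2.1.1 v) + (p.2.2.1 v + p.2.2.1 v) := by ring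
    rw [e]
    simp only [linAlg_add_self]
  have hMker : Module.finrank F2 (LinearMap.ker M) ≤ orb [x, y, z] := by
    have hk : ∀ p ∈ LinearMap.ker M, p.1.1 = p.2.2.1 ∧ p.1.1 = p.2.1.1 := by
      intro p hp
      rw [LinearMap.mem_ker] at hp
      constructor
      · funext v
        have : (M p).1.1 v = 0 := by rw [hp]; rfl
        exact linAlg_eq_of_add this
      · funext v
        have : (M p).2.1.1 v = 0 := by rw [hp]; rfl
        exact linAlg_eq_of_add this
    refine LinearMap.finrank_le_finrank_of_injective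
      (f := { toFun := fun p => (⟨p.1.1.1, ?_⟩ : Inv [x, y, z]), map_add' := fun g h => rfl,
              map_smul' := fun r g => rfl }) ?_
    · intro a ha v
      simp only [List.mem_cons, List.not_mem_nil, or_false] at ha
      rcases ha with rfl | rfl | rfl
      · exact p.1.1.2 _ (by simp) v
      · exact p.1.1.2 _ (by simp) v
      · rw [(hk p.1 p.2).2]
        exact p.1.2.1.2 _ (by simp) v
    · intro p q hpq
      have h' := Subtype.ext_iff.1
        (show (⟨p.1.1.1, _⟩ : Inv [x, y, z]) = ⟨q.1.1.1, _⟩ from hpq)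
      have h0 : p.1.1.1 = q.1.1.1 := h'
      refine Subtype.ext (Prod.ext (Subtype.ext h0) (Prod.ext (Subtype.ext ?_) (Subtype.ext ?_)))
      · rw [← (hk p.1 p.2).2, ← (hk q.1 q.2).2, h0]
      · rw [← (hk p.1 p.2).1, ← (hk q.1 q.2).1, h0]
  have hrk2 := LinearMap.finrank_range_add_finrank_ker M
  rw [Module.finrank_prod, Module.finrank_prod] at hrk2
  have hrange := Submodule.finrank_mono hMrange
  have hle := Submodule.finrank_le (LinearMap.range L)
  rw [Module.finrank_fintype_fun_eq_card] at hle
  unfold orb at *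
  omega

/-- Euler's inequality: `χ ≤ 2 · (number of components)`. -/
theorem euler_le [Fintype Φ] {x y z : Φ → Φ} (hx : FPF x) (hy : FPF y) (hz : FPF z)
    (hxz : ∀ v, x (z v) ≠ v) (h : ∀ v, x (z v) = z (x v)) :
    4 * (orb [x, y] + orb [y, z]) ≤ Fintype.card Φ + 8 * orb [x, y, z] := by
  have h1 := gem_ineq hx hy hz
  have h2 := orb_klein hx hz hxz h
  omega

theorem linAlg_fpf_of_flip {b : Φ → Φ} {sg : Φ → F2} (hb : ∀ v, b (b v) = v)
    (sb : ∀ v, sg (b v) = sg v + 1) : FPF b := by
  refine ⟨hb, fun v hv => ?_⟩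
  have := sb v
  rw [hv] at this
  have h2 : (0 : F2) = 1 := by
    have h3 := congrArg (fun a => sg v + a) this
    simp only [← add_assoc, linAlg_add_self, zero_add] at h3
    exact h3
  exact absurd h2 (by decide)

/-- The sum of an invariant function is zero. -/
theorem linAlg_sum_inv [Fintype Φ] {b : Φ → Φ} (hb : FPF b) {f : Φ → F2}
    (hf : ∀ v, f (b v) = f v) : ∑ v, f v = 0 := by
  refine Finset.sum_involution (fun v _ => b v) ?_ ?_ ?_ ?_
  · intro v _
    rw [hf]
    exact linAlg_add_self _
  · intro v _ _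
    exact hb.ne v
  · intro v _
    exact Finset.mem_univ _
  · intro v _
    exact hb.inv v

/-- Summation over a transversal. -/
theorem linAlg_sum_transversal [Fintype Φ] {d : Φ → Φ} {sg : Φ → F2} (hd : ∀ v, d (d v) = v)
    (sd : ∀ v, sg (d v) = sg v + 1) (u : Φ → F2) :
    ∑ v ∈ univ.filter (fun v => sg v = 1), (u v + u (d v)) = ∑ v, u v := by
  classical
  rw [Finset.sum_add_distrib, ← Finset.sum_filter_add_sum_filter_not Finset.univ
    (fun v => sg v = 1) u]
  congr 1
  refine Finset.sum_bij' (fun v _ => d v) (fun v _ => d v) ?_ ?_ ?_ ?_ ?_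
  · intro v hv
    rw [Finset.mem_filter] at hv ⊢
    refine ⟨Finset.mem_univ _, ?_⟩
    rw [sd, hv.2]
    decide
  · intro v hv
    rw [Finset.mem_filter] at hv ⊢
    refine ⟨Finset.mem_univ _, ?_⟩
    rw [sd]
    rcases linAlg_two (sg v) with h0 | h0
    · rw [h0]; decide
    · exact absurd h0 hv.2
  · intro v _
    exact hd v
  · intro v _
    exact hd v
  · intro v _
    rfl

/-- `κ` is of the form `u + u ∘ d` with `u` invariant under `b` if and only if it is orthogonal to all
functions invariant under `b` and `d`. -/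
theorem la2 [Fintype Φ] {b d : Φ → Φ} {sg : Φ → F2} (hb : ∀ v, b (b v) = v)
    (hd : ∀ v, d (d v) = v) (sb : ∀ v, sg (b v) = sg v + 1) (sd : ∀ v, sg (d v) = sg v + 1)
    {κ : Φ → F2} (hκ : ∀ v, κ (d v) = κ v) :
    (∃ u : Φ → F2, (∀ v, u (b v) = u v) ∧ ∀ v, u v + u (d v) = κ v) ↔
      ∀ h : Φ → F2, (∀ v, h (b v) = h v) → (∀ v, h (d v) = h v) →
        ∑ v ∈ univ.filter (fun v => sg v = 1), κ v * h v = 0 := by
  classical
  have hbF := linAlg_fpf_of_flip hb sb
  constructor
  · rintro ⟨u, hu, hκu⟩ h hhb hhd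
    have e : ∑ v ∈ univ.filter (fun v => sg v = 1), κ v * h v
        = ∑ v ∈ univ.filter (fun v => sg v = 1), (u v * h v + u (d v) * h (d v)) := by
      refine Finset.sum_congr rfl fun v _ => ?_
      rw [hhd, ← hκu v, add_mul]
    rw [e, linAlg_sum_transversal hd sd (fun v => u v * h v)]
    exact linAlg_sum_inv hbF fun v => by rw [hu, hhb]
  · intro hyp
    let L : Inv [b] →ₗ[F2] ({v // sg v = 1} → F2) :=
      { toFun := fun u v => u.1 v.1 + u.1 (d v.1)
        map_add' := by
          intro p q
          funext v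
          show (p.1 v.1 + q.1 v.1) + (p.1 (d v.1) + q.1 (d v.1))
            = (p.1 v.1 + p.1 (d v.1)) + (q.1 v.1 + q.1 (d v.1))
          ring
        map_smul' := by
          intro r p
          funext v
          exact (mul_add r (p.1 v.1) (p.1 (d v.1))).symm }
    have hsum : ∀ f : Φ → F2, ∑ v : {v // sg v = 1}, f v.1
        = ∑ v ∈ univ.filter (fun v => sg v = 1), f v := by
      intro f
      exact (Finset.sum_subtype _ (fun v => by simp) f).symm
    have hmem : (fun v : {v // sg v = 1} => κ v.1) ∈ LinearMap.range L := by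
      rw [← LinearMap.BilinForm.orthogonal_orthogonal linAlgB_nondeg linAlgB_refl
        (LinearMap.range L), LinearMap.BilinForm.mem_orthogonal_iff]
      intro h' hh'
      rw [LinearMap.BilinForm.mem_orthogonal_iff] at hh'
      have sdv : ∀ v, ¬ sg v = 1 → sg (d v) = 1 := by
        intro v hv
        rw [sd]
        rcases linAlg_two (sg v) with h0 | h0
        · rw [h0]; decide
        · exact absurd h0 hv
      have sdv' : ∀ v, sg v = 1 → ¬ sg (d v) = 1 := by
        intro v hv
        rw [sd, hv]
        decide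
      let h : Φ → F2 := fun v => if hv : sg v = 1 then h' ⟨v, hv⟩ else h' ⟨d v, sdv v hv⟩
      have h_on : ∀ v (hv : sg v = 1), h v = h' ⟨v, hv⟩ := fun v hv => dif_pos hv
      have hhd : ∀ v, h (d v) = h v := by
        intro v
        by_cases hv : sg v = 1
        · rw [h_on v hv]
          show (if hv : sg (d v) = 1 then h' ⟨d v, hv⟩ else h' ⟨d (d v), sdv _ hv⟩) = _
          rw [dif_neg (sdv' v hv)]
          exact congrArg h' (Subtype.ext (hd v))
        · rw [h_on (d v) (sdv v hv)]
          show _ = (if hv : sg v = 1 then h' ⟨v, hv⟩ else h' ⟨d v, sdv _ hv⟩)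
          rw [dif_neg hv]
      have hhb : ∀ v, h (b v) = h v := by
        refine mem_Inv_of_orth hbF fun f hf => ?_
        have h1 : linAlgB _ (L ⟨f, fun a ha v => by
          rw [List.mem_singleton] at ha; subst ha; exact hf v⟩) h' = 0 := hh' _ ⟨_, rfl⟩
        rw [linAlgB_apply] at h1
        have h2 : ∑ v : {v // sg v = 1}, (f v.1 + f (d v.1)) * h' v
            = ∑ v : {v // sg v = 1}, (f v.1 * h v.1 + f (d v.1) * h (d v.1)) := by
          refine Finset.sum_congr rfl fun v _ => ?_
          rw [hhd, h_on v.1 v.2, add_mul]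
        have h3 : ∑ v : {v // sg v = 1}, (f v.1 + f (d v.1)) * h' v = 0 := h1
        rw [h2, hsum (fun v => f v * h v + f (d v) * h (d v)),
          linAlg_sum_transversal hd sd (fun v => f v * h v)] at h3
        exact h3
      have h4 := hyp h hhb hhd
      show linAlgB _ h' (fun v : {v // sg v = 1} => κ v.1) = 0
      rw [linAlgB_symm, linAlgB_apply]
      rw [← hsum (fun v => κ v * h v)] at h4
      rw [← h4]
      refine Finset.sum_congr rfl fun v _ => ?_
      rw [h_on v.1 v.2]
    obtain ⟨u, hu⟩ := hmem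
    refine ⟨u.1, fun v => u.2 b (List.mem_singleton.2 rfl) v, fun v => ?_⟩
    by_cases hv : sg v = 1
    · exact congrFun hu ⟨v, hv⟩
    · have hv' : sg (d v) = 1 := by
        rw [sd]
        rcases linAlg_two (sg v) with h0 | h0
        · rw [h0]; decide
        · exact absurd h0 hv
      have h5 : u.1 (d v) + u.1 (d (d v)) = κ (d v) := congrFun hu ⟨d v, hv'⟩
      rw [hd, hκ] at h5
      rw [add_comm]
      exact h5

/-- The exactness property of a surface: every even set of edges (given by `κ`) is the boundary of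
a set of vertices of the dual map. -/
def Ex [Fintype Φ] (x y z : Φ → Φ) (sg : Φ → F2) : Prop :=
  ∀ κ : Φ → F2, (∀ v, κ (x v) = κ v) → (∀ v, κ (z v) = κ v) →
    (∀ h : Φ → F2, (∀ v, h (x v) = h v) → (∀ v, h (y v) = h v) →
      ∑ v ∈ univ.filter (fun v => sg v = 1), κ v * h v = 0) →
    ∃ g : Φ → F2, (∀ v, g (y v) = g v) ∧ (∀ v, g (z v) = g v) ∧ ∀ v, g v + g (x v) = κ v

theorem linAlg_rank_flip {A B : Type} [AddCommGroup A] [Module F2 A] [AddCommGroup B]
    [Module F2 B] [FiniteDimensional F2 A] [FiniteDimensional F2 B] (P : A →ₗ[F2] B →ₗ[F2] F2) :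
    Module.finrank F2 (LinearMap.range P.flip) = Module.finrank F2 (LinearMap.range P) := by
  have h := LinearMap.finrank_range_dualMap_eq_finrank_range P
  rw [← h]
  have e : P.flip = P.dualMap ∘ₗ (Module.evalEquiv F2 B).toLinearMap := by
    ext b a
    rfl
  rw [e, LinearMap.range_comp_of_range_eq_top]
  exact LinearEquiv.range _

theorem linAlg_mem_pair {x z : Φ → Φ} {g : Φ → F2} :
    g ∈ Inv [x, z] ↔ (∀ v, g (x v) = g v) ∧ ∀ v, g (z v) = g v := by
  simp only [mem_Inv, List.mem_cons, List.not_mem_nil, or_false, forall_eq_or_imp, forall_eq]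

theorem linAlg_mem_triple {x y z : Φ → Φ} {g : Φ → F2} :
    g ∈ Inv [x, y, z] ↔ (∀ v, g (x v) = g v) ∧ (∀ v, g (y v) = g v) ∧ ∀ v, g (z v) = g v := by
  simp only [mem_Inv, List.mem_cons, List.not_mem_nil, or_false, forall_eq_or_imp, forall_eq]

/-- A system of spheres: Euler's equality and exactness are equivalent. -/
theorem ex_iff [Fintype Φ] {x y z : Φ → Φ} {sg : Φ → F2} (hx : ∀ v, x (x v) = v)
    (hy : ∀ v, y (y v) = v) (hz : ∀ v, z (z v) = v)
    (sx : ∀ v, sg (x v) = sg v + 1) (sy : ∀ v, sg (y v) = sg v + 1)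
    (sz : ∀ v, sg (z v) = sg v + 1) (hxz : ∀ v, x (z v) ≠ v) (h : ∀ v, x (z v) = z (x v)) :
    4 * (orb [x, y] + orb [y, z]) = Fintype.card Φ + 8 * orb [x, y, z] ↔ Ex x y z sg := by
  classical
  have hxF := linAlg_fpf_of_flip hx sx
  have hyF := linAlg_fpf_of_flip hy sy
  have hzF := linAlg_fpf_of_flip hz sz
  have hk := orb_klein hxF hzF hxz h
  -- the pairing
  let P : Inv [x, z] →ₗ[F2] Inv [x, y] →ₗ[F2] F2 :=
    LinearMap.mk₂ F2 (fun κ h => ∑ v ∈ univ.filter (fun v => sg v = 1), κ.1 v * h.1 v)
      (by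
        intro a b c
        rw [← Finset.sum_add_distrib]
        exact Finset.sum_congr rfl fun v _ => add_mul (a.1 v) (b.1 v) (c.1 v))
      (by
        intro r a b
        rw [Finset.smul_sum]
        exact Finset.sum_congr rfl fun v _ => mul_assoc r (a.1 v) (b.1 v))
      (by
        intro a b c
        rw [← Finset.sum_add_distrib]
        exact Finset.sum_congr rfl fun v _ => mul_add (a.1 v) (b.1 v) (c.1 v))
      (by
        intro r a b
        rw [Finset.smul_sum]
        exact Finset.sum_congr rfl fun v _ => mul_left_comm (a.1 v) r (b.1 v))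
  have hP : ∀ κ h, P κ h = ∑ v ∈ univ.filter (fun v => sg v = 1), κ.1 v * h.1 v :=
    fun κ h => rfl
  -- the difference map
  let D : Inv [y, z] →ₗ[F2] Inv [x, z] :=
    { toFun := fun g => ⟨fun v => g.1 v + g.1 (x v), by
        have hg := linAlg_mem_pair.1 g.2
        rw [linAlg_mem_pair]
        refine ⟨fun v => ?_, fun v => ?_⟩
        · show g.1 (x v) + g.1 (x (x v)) = g.1 v + g.1 (x v)
          rw [hx, add_comm]
        · show g.1 (z v) + g.1 (x (z v)) = g.1 v + g.1 (x v)
          rw [h, hg.2, hg.2]⟩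
      map_add' := by
        intro p q
        ext v
        show (p.1 v + q.1 v) + (p.1 (x v) + q.1 (x v)) = (p.1 v + p.1 (x v)) + (q.1 v + q.1 (x v))
        ring
      map_smul' := by
        intro r p
        ext v
        exact (mul_add r (p.1 v) (p.1 (x v))).symm }
  have hD : ∀ g v, (D g).1 v = g.1 v + g.1 (x v) := fun g v => rfl
  have hDP : LinearMap.range D ≤ LinearMap.ker P := by
    rintro _ ⟨g, rfl⟩
    rw [LinearMap.mem_ker]
    ext k
    rw [hP]
    have hg := linAlg_mem_pair.1 g.2
    have hk := linAlg_mem_pair.1 k.2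
    have e : ∑ v ∈ univ.filter (fun v => sg v = 1), (D g).1 v * k.1 v
        = ∑ v ∈ univ.filter (fun v => sg v = 1), (g.1 v * k.1 v + g.1 (x v) * k.1 (x v)) := by
      refine Finset.sum_congr rfl fun v _ => ?_
      rw [hD, hk.1, add_mul]
    rw [e, linAlg_sum_transversal hx sx (fun v => g.1 v * k.1 v)]
    exact linAlg_sum_inv hyF fun v => by rw [hg.1, hk.2]
  have hkerD : Module.finrank F2 (LinearMap.ker D) = orb [x, y, z] := by
    refine LinearEquiv.finrank_eq
      { toFun := fun g => ⟨g.1.1, ?_⟩, map_add' := fun g h => rfl, map_smul' := fun r g => rfl,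
        invFun := fun g => ⟨⟨g.1, ?_⟩, ?_⟩, left_inv := fun g => rfl, right_inv := fun g => rfl }
    · have h1 := g.2
      rw [LinearMap.mem_ker] at h1
      have h2 := linAlg_mem_pair.1 g.1.2
      rw [linAlg_mem_triple]
      refine ⟨fun v => ?_, h2.1, h2.2⟩
      have h3 : (D g.1).1 v = 0 := by rw [h1]; rfl
      rw [hD] at h3
      exact (linAlg_eq_of_add h3).symm
    · have h2 := linAlg_mem_triple.1 g.2
      exact linAlg_mem_pair.2 h2.2
    · have h2 := linAlg_mem_triple.1 g.2
      rw [LinearMap.mem_ker]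
      ext v
      rw [hD]
      show g.1 v + g.1 (x v) = 0
      rw [h2.1]
      exact linAlg_add_self _
  have hkerF : Module.finrank F2 (LinearMap.ker P.flip) = orb [x, y, z] := by
    refine LinearEquiv.finrank_eq
      { toFun := fun g => ⟨g.1.1, ?_⟩, map_add' := fun g h => rfl, map_smul' := fun r g => rfl,
        invFun := fun g => ⟨⟨g.1, ?_⟩, ?_⟩, left_inv := fun g => rfl, right_inv := fun g => rfl }
    · have h1 := g.2
      rw [LinearMap.mem_ker] at h1
      have h2 := linAlg_mem_pair.1 g.1.2
      rw [linAlg_mem_triple]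
      refine ⟨h2.1, h2.2, fun v => ?_⟩
      -- it is enough to treat the case `sg v = 1`
      have key : ∀ v, sg v = 1 → g.1.1 (z v) = g.1.1 v := by
        intro v hv
        let κ : Φ → F2 := fun w => if w = v ∨ w = x v ∨ w = z v ∨ w = x (z v) then 1 else 0
        have hκx : ∀ w, κ (x w) = κ w := by
          intro w
          have : (x w = v ∨ x w = x v ∨ x w = z v ∨ x w = x (z v)) ↔
              (w = v ∨ w = x v ∨ w = z v ∨ w = x (z v)) := by
            have hxx : ∀ a b, x a = b ↔ a = x b := fun a b =>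
              ⟨fun hh => by rw [← hh, hx], fun hh => by rw [hh, hx]⟩
            rw [hxx, hxx, hxx, hxx, hx, hx]
            tauto
          simp only [κ, this]
        have hκz : ∀ w, κ (z w) = κ w := by
          intro w
          have : (z w = v ∨ z w = x v ∨ z w = z v ∨ z w = x (z v)) ↔
              (w = v ∨ w = x v ∨ w = z v ∨ w = x (z v)) := by
            have hzz : ∀ a b, z a = b ↔ a = z b := fun a b =>
              ⟨fun hh => by rw [← hh, hz], fun hh => by rw [hh, hz]⟩
            rw [hzz, hzz, hzz, hzz, hz, ← h, ← h, hz]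
            tauto
          simp only [κ, this]
        have h3 : P.flip g.1 ⟨κ, linAlg_mem_pair.2 ⟨hκx, hκz⟩⟩ = 0 := by rw [h1]; rfl
        have h4 : ∑ w ∈ univ.filter (fun v => sg v = 1), κ w * g.1.1 w = 0 := h3
        have h5 : ∑ w ∈ univ.filter (fun v => sg v = 1), κ w * g.1.1 w
            = ∑ w ∈ ({v, x (z v)} : Finset Φ), g.1.1 w := by
          have hsub : ({v, x (z v)} : Finset Φ) ⊆ univ.filter (fun v => sg v = 1) := by
            intro w hw
            simp only [Finset.mem_insert, Finset.mem_singleton] at hw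
            rw [Finset.mem_filter]
            refine ⟨Finset.mem_univ _, ?_⟩
            rcases hw with rfl | rfl
            · exact hv
            · rw [sx, sz, hv]
              decide
          rw [← Finset.sum_subset hsub]
          · refine Finset.sum_congr rfl fun w hw => ?_
            simp only [Finset.mem_insert, Finset.mem_singleton] at hw
            have : κ w = 1 := if_pos (by tauto)
            rw [this, one_mul]
          · intro w hw hw'
            simp only [Finset.mem_insert, Finset.mem_singleton, not_or] at hw'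
            rw [Finset.mem_filter] at hw
            have : κ w = 0 := by
              refine if_neg ?_
              rintro (rfl | rfl | rfl | rfl)
              · exact hw'.1 rfl
              · have := hw.2
                rw [sx, hv] at this
                exact absurd this (by decide)
              · have := hw.2
                rw [sz, hv] at this
                exact absurd this (by decide)
              · exact hw'.2 rfl
            rw [this, zero_mul]
        rw [h5, Finset.sum_pair (hxz v).symm] at h4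
        have h6 := linAlg_eq_of_add h4
        rw [h2.1] at h6
        exact h6.symm
      rcases linAlg_two (sg v) with hv | hv
      · have hv' : sg (z v) = 1 := by rw [sz, hv]; decide
        have := key (z v) hv'
        rw [hz] at this
        exact this.symm
      · exact key v hv
    · have h2 := linAlg_mem_triple.1 g.2
      exact linAlg_mem_pair.2 ⟨h2.1, h2.2.1⟩
    · have h2 := linAlg_mem_triple.1 g.2
      rw [LinearMap.mem_ker]
      ext κ
      have hκ := linAlg_mem_pair.1 κ.2
      show ∑ v ∈ univ.filter (fun v => sg v = 1), κ.1 v * g.1 v = 0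
      -- pair `v` with `x (z v)`
      refine Finset.sum_involution (fun v _ => x (z v)) ?_ ?_ ?_ ?_
      · intro v _
        rw [hκ.1, hκ.2, h2.1, h2.2.2]
        exact linAlg_add_self _
      · intro v _ _
        exact hxz v
      · intro v hv
        rw [Finset.mem_filter] at hv ⊢
        refine ⟨Finset.mem_univ _, ?_⟩
        rw [sx, sz, hv.2]
        decide
      · intro v _
        show x (z (x (z v))) = v
        rw [h v, hz, hx]
  have r1 := LinearMap.finrank_range_add_finrank_ker D
  have r2 := LinearMap.finrank_range_add_finrank_ker P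
  have r3 := LinearMap.finrank_range_add_finrank_ker P.flip
  have r4 := linAlg_rank_flip P
  have r5 := Submodule.finrank_mono hDP
  have hEx : Ex x y z sg ↔ LinearMap.range D = LinearMap.ker P := by
    constructor
    · intro hE
      refine le_antisymm hDP fun κ hκ => ?_
      rw [LinearMap.mem_ker] at hκ
      have hκ' := linAlg_mem_pair.1 κ.2
      obtain ⟨g, hg1, hg2, hg3⟩ := hE κ.1 hκ'.1 hκ'.2 (fun k hk1 hk2 => by
        have : P κ ⟨k, linAlg_mem_pair.2 ⟨hk1, hk2⟩⟩ = 0 := by rw [hκ]; rfl
        exact this)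
      exact ⟨⟨g, linAlg_mem_pair.2 ⟨hg1, hg2⟩⟩, Subtype.ext (funext hg3)⟩
    · intro hE κ h1 h2 h3
      have hκ : (⟨κ, linAlg_mem_pair.2 ⟨h1, h2⟩⟩ : Inv [x, z]) ∈ LinearMap.ker P := by
        rw [LinearMap.mem_ker]
        ext k
        have hk := linAlg_mem_pair.1 k.2
        exact h3 k.1 hk.1 hk.2
      rw [← hE] at hκ
      obtain ⟨g, hg⟩ := hκ
      have hg' := linAlg_mem_pair.1 g.2
      exact ⟨g.1, hg'.1, hg'.2, fun v => congrFun (congrArg Subtype.val hg) v⟩
  have hfin : LinearMap.range D = LinearMap.ker P ↔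
      Module.finrank F2 (LinearMap.range D) = Module.finrank F2 (LinearMap.ker P) := by
    constructor
    · intro h
      rw [h]
    · intro h
      exact Submodule.eq_of_le_of_finrank_eq hDP h
  rw [hEx, hfin]
  rw [hkerD] at r1
  rw [hkerF, r4] at r3
  unfold orb at *
  constructor
  · intro h1
    omega
  · intro h1
    omega

end Pool.Agent.Lib.MP_131179_gt.Dehn
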