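import Pool.Agent.Lib.MP_131179_gt.Dehn.Run
import Pool.Agent.Lib.MP_131179_gt.Layer

/-!
# Layers

If all crossings between two classes of strands (front and back) are of the front strands over the
back strands, then the tangle only depends on the two subtangles.
-/

set_option autoImplicit false

namespace Pool.Agent.Lib.MP_131179_gt.Dehn

/-! ### The inverse of the shuffle -/

/-- The inverse of `laySh`. -/
def layShI : List Bool → Word Bool
  | [] => []
  | true :: s => shift 1 (layShI s)
  | false :: s => mirror (layNov (layT s).length) ++ shift 1 (layShI s)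

theorem layShI_path (s : List Bool) : Path (triv Bool) (layShI s) (layT s ++ layF s) s := by
  induction s with
  | nil => exact Path.nil _
  | cons a s ih =>
    cases a with
    | true => exact ih.left [true]
    | false =>
      have h := (((layNov_path false (layT s)).mirror.right (layF s))).append (ih.left [false])
      exact h.cast (by simp [layT, layF]) rfl

theorem laySh_inv (s : List Bool) : Eqv (triv Bool) (laySh s ++ layShI s) [] s s := by
  induction s with
  | nil => exact Eqv.refl (Path.nil _)
  | cons a s ih =>
    cases a with
    | true =>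
      refine (ih.shift_left [true]).cast ?_ rfl rfl rfl
      simp [laySh, layShI]
    | false =>
      have e0 : Eqv (triv Bool) (und (layT s).length ++ mirror (layNov (layT s).length)) []
          (false :: (layT s ++ layF s)) (false :: (layT s ++ layF s)) := by
        have e := (lay_ovr_nov false (layT s)).mirror.right (layF s)
        refine e.cast ?_ rfl rfl rfl
        simp [und]
      have p1 : Path (triv Bool) (shift 1 (laySh s)) (false :: s)
          (false :: (layT s ++ layF s)) := (laySh_path s).left [false]
      have p2 : Path (triv Bool) (shift 1 (layShI s)) (false :: (layT s ++ layF s))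
          (false :: s) := (layShI_path s).left [false]
      have e1 := Eqv.context p1 e0 p2
      have e2 := ih.shift_left [false]
      refine (e1.trans (e2.cast ?_ rfl rfl rfl)).cast ?_ rfl rfl rfl
      · simp
      · simp [laySh, layShI]

/-- A tangle in which the `true` strands are in front of the `false` strands is determined by its two
layers. -/
theorem lut {w w' : Word Bool} {s t : List Bool} (h : Path (triv Bool) w s t)
    (h' : Path (triv Bool) w' s t)
    (hx : ∀ p ∈ xl (triv Bool) w s, ¬ (p.1 = false ∧ p.2 = true))
    (hx' : ∀ p ∈ xl (triv Bool) w' s, ¬ (p.1 = false ∧ p.2 = true))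
    (hT : Eqv (triv Bool) (del (triv Bool) (fun x => x) w s) (del (triv Bool) (fun x => x) w' s)
      (layT s) (layT t))
    (hF : Eqv (triv Bool) (del (triv Bool) (fun x => !x) w s) (del (triv Bool) (fun x => !x) w' s)
      (layF s) (layF t)) : Eqv (triv Bool) w w' s t := by
  have e1 := (layer_word h hx).append (layShI_path t)
  have e2 := (layer_word h' hx').append (layShI_path t)
  have e3 := (Eqv.prepend (laySh_path s) (Eqv.comp (hT.right (layF s))
    (hF.shift_left (layT t)))).append (layShI_path t)
  have i1 := Eqv.prepend h (laySh_inv t)
  have i2 := Eqv.prepend h' (laySh_inv t)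
  simp only [layR, List.append_assoc, List.append_nil] at e1 e2 e3 i1 i2
  exact i1.symm.trans (e1.trans (e3.trans (e2.symm.trans i2)))

/-! ### Sorted lists of strands -/

theorem lut_sort_eq {s : Finset Site} {l : List Site} (hl : l.Pairwise (· < ·))
    (h : ∀ q, q ∈ s ↔ q ∈ l) : s.sort (· ≤ ·) = l := by
  refine List.SortedLT.eq_of_mem_iff (Finset.sortedLT_sort s) ?_ ?_
  · exact hl.sortedLT
  · intro q
    rw [Finset.mem_sort]
    exact h q

theorem lut_pairwise (s : Finset Site) : (s.sort (· ≤ ·)).Pairwise (· < ·) :=
  (Finset.sortedLT_sort s).pairwise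

theorem lut_sort_filter (s : Finset Site) (p : Site → Prop) [DecidablePred p] :
    (s.filter p).sort (· ≤ ·) = (s.sort (· ≤ ·)).filter (fun q => decide (p q)) := by
  refine lut_sort_eq ((lut_pairwise s).filter _) ?_
  intro q
  simp [and_comm]

section word

variable {C : Type}

/-- The strands to the left of the edge. -/
def lutL (P : Finset Site) (e : HE) : List Site := (P.filter fun q => q < e.lo).sort (· ≤ ·)

/-- The strands to the right of the edge. -/
def lutR (P : Finset Site) (e : HE) : List Site := (P.filter fun q => e.hi < q).sort (· ≤ ·)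

theorem lutL_length (P : Finset Site) (e : HE) : (lutL P e).length = rk P e.lo := by
  rw [lutL, Finset.length_sort, rk]

theorem lut_decomp (P : Finset Site) (e : HE) : P.sort (· ≤ ·) =
    lutL P e ++ ((if e.lo ∈ P then [e.lo] else []) ++ (btw P e ++
      ((if e.hi ∈ P then [e.hi] else []) ++ lutR P e))) := by
  have hlt := e.lo_lt_hi
  refine lut_sort_eq ?_ ?_
  · have m1 : ∀ q ∈ lutL P e, q < e.lo := fun q hq => by
      simp only [lutL, Finset.mem_sort, Finset.mem_filter] at hq
      exact hq.2
    have m2 : ∀ q ∈ (if e.lo ∈ P then [e.lo] else []), q = e.lo := fun q hq => by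
      split_ifs at hq with h0
      · simpa using hq
      · simp at hq
    have m3 : ∀ q ∈ btw P e, e.lo < q ∧ q < e.hi := fun q hq => by
      simp only [btw, Finset.mem_sort, Finset.mem_filter] at hq
      exact hq.2
    have m4 : ∀ q ∈ (if e.hi ∈ P then [e.hi] else []), q = e.hi := fun q hq => by
      split_ifs at hq with h0
      · simpa using hq
      · simp at hq
    have m5 : ∀ q ∈ lutR P e, e.hi < q := fun q hq => by
      simp only [lutR, Finset.mem_sort, Finset.mem_filter] at hq
      exact hq.2
    have h1 : (lutL P e).Pairwise (· < ·) := lut_pairwise _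
    have h2 : (if e.lo ∈ P then [e.lo] else [] : List Site).Pairwise (· < ·) := by
      split_ifs <;> simp
    have h3 : (btw P e).Pairwise (· < ·) := lut_pairwise _
    have h4 : (if e.hi ∈ P then [e.hi] else [] : List Site).Pairwise (· < ·) := by
      split_ifs <;> simp
    have h5 : (lutR P e).Pairwise (· < ·) := lut_pairwise _
    refine List.pairwise_append.2 ⟨h1, List.pairwise_append.2 ⟨h2, List.pairwise_append.2 ⟨h3,
      List.pairwise_append.2 ⟨h4, h5, ?_⟩, ?_⟩, ?_⟩, ?_⟩
    · intro a ha b hb
      rw [m4 a ha]
      exact m5 b hb
    · intro a ha b hb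
      rcases List.mem_append.1 hb with hb | hb
      · rw [m4 b hb]
        exact (m3 a ha).2
      · exact (m3 a ha).2.trans (m5 b hb)
    · intro a ha b hb
      rw [m2 a ha]
      rcases List.mem_append.1 hb with hb | hb
      · exact (m3 b hb).1
      · rcases List.mem_append.1 hb with hb | hb
        · rw [m4 b hb]
          exact hlt
        · exact hlt.trans (m5 b hb)
    · intro a ha b hb
      refine (m1 a ha).trans_le ?_
      rcases List.mem_append.1 hb with hb | hb
      · rw [m2 b hb]
      · rcases List.mem_append.1 hb with hb | hb
        · exact (m3 b hb).1.le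
        · rcases List.mem_append.1 hb with hb | hb
          · rw [m4 b hb]
            exact hlt.le
          · exact (hlt.trans (m5 b hb)).le
  · intro q
    have i1 : q ∈ (if e.lo ∈ P then [e.lo] else [] : List Site) ↔ q = e.lo ∧ q ∈ P := by
      split_ifs with h0
      · simp only [List.mem_singleton]
        exact ⟨fun h => ⟨h, h ▸ h0⟩, fun h => h.1⟩
      · simp only [List.not_mem_nil, false_iff]
        rintro ⟨rfl, h⟩
        exact h0 h
    have i2 : q ∈ (if e.hi ∈ P then [e.hi] else [] : List Site) ↔ q = e.hi ∧ q ∈ P := by
      split_ifs with h0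
      · simp only [List.mem_singleton]
        exact ⟨fun h => ⟨h, h ▸ h0⟩, fun h => h.1⟩
      · simp only [List.not_mem_nil, false_iff]
        rintro ⟨rfl, h⟩
        exact h0 h
    simp only [List.mem_append, i1, i2, lutL, lutR, btw, Finset.mem_sort, Finset.mem_filter]
    constructor
    · intro h
      rcases lt_trichotomy q e.lo with h1 | h1 | h1
      · exact Or.inl ⟨h, h1⟩
      · exact Or.inr (Or.inl ⟨h1, h⟩)
      · rcases lt_trichotomy q e.hi with h2 | h2 | h2
        · exact Or.inr (Or.inr (Or.inl ⟨h, h1, h2⟩))
        · exact Or.inr (Or.inr (Or.inr (Or.inl ⟨h2, h⟩)))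
        · exact Or.inr (Or.inr (Or.inr (Or.inr ⟨h, h2⟩)))
    · rintro (h | h | h | h | h)
      · exact h.1
      · exact h.2
      · exact h.1
      · exact h.2
      · exact h.1

theorem lut_filter_comm (P : Finset Site) (p : Site → Prop) [DecidablePred p] (e : HE) :
    lutL (P.filter p) e = (lutL P e).filter (fun q => decide (p q)) ∧
      btw (P.filter p) e = (btw P e).filter (fun q => decide (p q)) := by
  constructor
  · rw [lutL, lutL, ← lut_sort_filter, Finset.filter_filter, Finset.filter_filter]
    congr 1
    ext q
    simp only [Finset.mem_filter]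
    tauto
  · rw [btw, btw, ← lut_sort_filter, Finset.filter_filter, Finset.filter_filter]
    congr 1
    ext q
    simp only [Finset.mem_filter]
    tauto

/-! ### The moving strand -/

theorem lut_step_pos (L : List C) (a b : C) (s : List C) :
    Step (triv C) .pos L.length (L ++ a :: b :: s) (L ++ b :: a :: s) := by
  have h := (Step.pos (P := triv C) a b s).left L
  rw [Nat.zero_add] at h
  exact h

theorem lut_step_neg (L : List C) (a b : C) (s : List C) :
    Step (triv C) .neg L.length (L ++ a :: b :: s) (L ++ b :: a :: s) := by
  have h := (Step.neg (P := triv C) a b s).left L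
  rw [Nat.zero_add] at h
  exact h

theorem lut_crR_path (f : Site → C) (z : ℤ) (x : C) (B : List Site) (L R : List C) :
    Path (triv C) (crR z L.length B) (L ++ x :: (B.map f ++ R)) (L ++ (B.map f ++ x :: R)) := by
  induction B generalizing L with
  | nil => exact Path.nil _
  | cons b B ih =>
    have h := ih (L ++ [f b])
    simp only [List.length_append, List.length_cons, List.length_nil, Nat.zero_add,
      List.append_assoc, List.cons_append, List.nil_append] at h
    refine Path.cons (t := L ++ f b :: x :: (B.map f ++ R)) ?_ h
    by_cases hz : z < cz b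
    · simp only [hz, if_true]
      exact lut_step_neg L x (f b) _
    · simp only [hz, if_false]
      exact lut_step_pos L x (f b) _

theorem lut_crL_path (f : Site → C) (z : ℤ) (x : C) (B : List Site) (L R : List C) :
    Path (triv C) (crL z L.length B) (L ++ (B.map f ++ x :: R)) (L ++ x :: (B.map f ++ R)) := by
  induction B generalizing L with
  | nil => exact Path.nil _
  | cons b B ih =>
    have h := ih (L ++ [f b])
    simp only [List.length_append, List.length_cons, List.length_nil, Nat.zero_add,
      List.append_assoc, List.cons_append, List.nil_append] at h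
    refine Path.append (t := L ++ f b :: x :: (B.map f ++ R)) h (path_single_iff.2 ?_)
    by_cases hz : z < cz b
    · simp only [hz, if_true]
      exact lut_step_pos L (f b) x _
    · simp only [hz, if_false]
      exact lut_step_neg L (f b) x _

theorem lut_delL_pos (κ : C → Bool) (L : List C) (a b : C) (s : List C) :
    delL κ .pos L.length (L ++ a :: b :: s) =
      if κ a && κ b then [(.pos, (L.filter κ).length)] else [] := by
  have h := delL_left (κ := κ) (k := .pos) (i := 0) L (a :: b :: s)
  rw [Nat.zero_add] at h
  rw [h]
  simp only [delL]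
  split_ifs <;> simp

theorem lut_delL_neg (κ : C → Bool) (L : List C) (a b : C) (s : List C) :
    delL κ .neg L.length (L ++ a :: b :: s) =
      if κ a && κ b then [(.neg, (L.filter κ).length)] else [] := by
  have h := delL_left (κ := κ) (k := .neg) (i := 0) L (a :: b :: s)
  rw [Nat.zero_add] at h
  rw [h]
  simp only [delL]
  split_ifs <;> simp

theorem lut_delL_cup (κ : C → Bool) (L : List C) (a : C) (s : List C) :
    delL κ (.cup a) L.length (L ++ s) = if κ a then [(.cup a, (L.filter κ).length)] else [] := by
  have h := delL_left (κ := κ) (k := .cup a) (i := 0) L s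
  rw [Nat.zero_add] at h
  rw [h]
  simp only [delL]
  split_ifs <;> simp

theorem lut_delL_cap (κ : C → Bool) (L : List C) (a b : C) (s : List C) :
    delL κ .cap L.length (L ++ a :: b :: s) =
      if κ a then [(.cap, (L.filter κ).length)] else [] := by
  have h := delL_left (κ := κ) (k := .cap) (i := 0) L (a :: b :: s)
  rw [Nat.zero_add] at h
  rw [h]
  simp only [delL]
  split_ifs <;> simp

theorem lut_del_crR (κ : C → Bool) (f : Site → C) (z : ℤ) (x : C) (B : List Site)
    (L R : List C) :
    del (triv C) κ (crR z L.length B) (L ++ x :: (B.map f ++ R)) =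
      if κ x then crR z (L.filter κ).length (B.filter fun q => κ (f q)) else [] := by
  induction B generalizing L with
  | nil => simp [crR]
  | cons b B ih =>
    have h := ih (L ++ [f b])
    simp only [List.length_append, List.length_cons, List.length_nil, Nat.zero_add,
      List.append_assoc, List.cons_append, List.nil_append, List.filter_append] at h
    rw [crR, List.map_cons, List.cons_append]
    by_cases hz : z < cz b
    · simp only [hz, if_true]
      rw [del_cons, (lut_step_neg L x (f b) _).nxt_eq, h, lut_delL_neg]
      by_cases h1 : κ x = true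
      · by_cases h2 : κ (f b) = true
        · simp [h1, h2, crR, hz]
        · simp [h1, h2]
      · simp [h1]
    · simp only [hz, if_false]
      rw [del_cons, (lut_step_pos L x (f b) _).nxt_eq, h, lut_delL_pos]
      by_cases h1 : κ x = true
      · by_cases h2 : κ (f b) = true
        · simp [h1, h2, crR, hz]
        · simp [h1, h2]
      · simp [h1]

theorem lut_del_crL (κ : C → Bool) (f : Site → C) (z : ℤ) (x : C) (B : List Site)
    (L R : List C) :
    del (triv C) κ (crL z L.length B) (L ++ (B.map f ++ x :: R)) =
      if κ x then crL z (L.filter κ).length (B.filter fun q => κ (f q)) else [] := by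
  induction B generalizing L with
  | nil => simp [crL]
  | cons b B ih =>
    have h := ih (L ++ [f b])
    have hp := lut_crL_path f z x B (L ++ [f b]) R
    simp only [List.length_append, List.length_cons, List.length_nil, Nat.zero_add,
      List.append_assoc, List.cons_append, List.nil_append, List.filter_append] at h hp
    rw [crL, List.map_cons, List.cons_append, del_append hp, h]
    by_cases hz : z < cz b
    · simp only [hz, if_true]
      rw [del_cons, del_nil, List.append_nil, lut_delL_pos]
      by_cases h1 : κ x = true
      · by_cases h2 : κ (f b) = true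
        · simp [h1, h2, crL, hz]
        · simp [h1, h2]
      · simp [h1]
    · simp only [hz, if_false]
      rw [del_cons, del_nil, List.append_nil, lut_delL_neg]
      by_cases h1 : κ x = true
      · by_cases h2 : κ (f b) = true
        · simp [h1, h2, crL, hz]
        · simp [h1, h2]
      · simp [h1]

/-- The crossings of a strand with label `x` at depth `z` with the strands `B`. -/
def lutC (f : Site → C) (z : ℤ) (x : C) (b : Site) : C × C :=
  if z < cz b then (f b, x) else (x, f b)

theorem lut_xlL_pos (L : List C) (a b : C) (s : List C) :
    xlL .pos L.length (L ++ a :: b :: s) = [(a, b)] := by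
  have h := xlL_left (k := .pos) (i := 0) L (a :: b :: s)
  rw [Nat.zero_add] at h
  exact h

theorem lut_xlL_neg (L : List C) (a b : C) (s : List C) :
    xlL .neg L.length (L ++ a :: b :: s) = [(b, a)] := by
  have h := xlL_left (k := .neg) (i := 0) L (a :: b :: s)
  rw [Nat.zero_add] at h
  exact h

theorem lut_xlL_cup (L : List C) (a : C) (s : List C) :
    xlL (.cup a) L.length (L ++ s) = [] := by
  have h := xlL_left (k := .cup a) (i := 0) L s
  rw [Nat.zero_add] at h
  exact h

theorem lut_xlL_cap (L : List C) (s : List C) :
    xlL .cap L.length (L ++ s) = [] := by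
  have h := xlL_left (k := .cap) (i := 0) L s
  rw [Nat.zero_add] at h
  exact h

theorem lut_xl_crR (f : Site → C) (z : ℤ) (x : C) (B : List Site) (L R : List C) :
    ∀ p ∈ xl (triv C) (crR z L.length B) (L ++ x :: (B.map f ++ R)), ∃ b, p = lutC f z x b := by
  induction B generalizing L with
  | nil => simp [crR]
  | cons b B ih =>
    have h := ih (L ++ [f b])
    simp only [List.length_append, List.length_cons, List.length_nil, Nat.zero_add,
      List.append_assoc, List.cons_append, List.nil_append] at h
    rw [crR, List.map_cons, List.cons_append]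
    intro p hp
    by_cases hz : z < cz b
    · simp only [hz, if_true] at hp
      rw [xl_cons, (lut_step_neg L x (f b) _).nxt_eq, lut_xlL_neg] at hp
      rcases List.mem_append.1 hp with hp | hp
      · refine ⟨b, ?_⟩
        simp only [lutC, hz, if_true]
        simpa using hp
      · exact h p hp
    · simp only [hz, if_false] at hp
      rw [xl_cons, (lut_step_pos L x (f b) _).nxt_eq, lut_xlL_pos] at hp
      rcases List.mem_append.1 hp with hp | hp
      · refine ⟨b, ?_⟩
        simp only [lutC, hz, if_false]
        simpa using hp
      · exact h p hp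

theorem lut_xl_crL (f : Site → C) (z : ℤ) (x : C) (B : List Site) (L R : List C) :
    ∀ p ∈ xl (triv C) (crL z L.length B) (L ++ (B.map f ++ x :: R)), ∃ b, p = lutC f z x b := by
  induction B generalizing L with
  | nil => simp [crL]
  | cons b B ih =>
    have h := ih (L ++ [f b])
    have hp' := lut_crL_path f z x B (L ++ [f b]) R
    simp only [List.length_append, List.length_cons, List.length_nil, Nat.zero_add,
      List.append_assoc, List.cons_append, List.nil_append] at h hp'
    rw [crL, List.map_cons, List.cons_append, xl_append hp']
    intro p hp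
    rcases List.mem_append.1 hp with hp | hp
    · exact h p hp
    · refine ⟨b, ?_⟩
      by_cases hz : z < cz b
      · simp only [hz, if_true] at hp
        rw [xl_cons, xl_nil, List.append_nil, lut_xlL_pos] at hp
        simp only [lutC, hz, if_true]
        simpa using hp
      · simp only [hz, if_false] at hp
        rw [xl_cons, xl_nil, List.append_nil, lut_xlL_neg] at hp
        simp only [lutC, hz, if_false]
        simpa using hp

theorem lut_step_cup (L : List C) (a : C) (s : List C) :
    Step (triv C) (.cup a) L.length (L ++ s) (L ++ a :: a :: s) := by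
  have h := (Step.cup (P := triv C) a s).left L
  rw [Nat.zero_add] at h
  exact h

theorem lut_step_cap (L : List C) (a : C) (s : List C) :
    Step (triv C) .cap L.length (L ++ a :: a :: s) (L ++ s) := by
  have h := (Step.cap (P := triv C) a s).left L
  rw [Nat.zero_add] at h
  exact h

theorem lut_rk_filter (κ : C → Bool) (f : Site → C) (P : Finset Site) (e : HE) :
    rk (P.filter fun q => κ (f q) = true) e.lo = (((lutL P e).map f).filter κ).length := by
  rw [← lutL_length, (lut_filter_comm P _ e).1, List.filter_map, List.length_map]
  congr 1
  refine List.filter_congr ?_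
  intro q _
  simp

theorem lut_btw_filter (κ : C → Bool) (f : Site → C) (P : Finset Site) (e : HE) :
    btw (P.filter fun q => κ (f q) = true) e = (btw P e).filter (fun q => κ (f q)) := by
  rw [(lut_filter_comm P _ e).2]
  refine List.filter_congr ?_
  intro q _
  simp

/-- Deleting strands in the word of an edge. -/
theorem lut_del_wd (κ : C → Bool) (f : Site → C) (P : Finset Site) (e : HE)
    (hf : f e.lo = f e.hi) :
    del (triv C) κ (wd f P e) (lst f P) =
      if κ (f e.lo) then wd f (P.filter fun q => κ (f q) = true) e else [] := by
  have hr : rk P e.lo = ((lutL P e).map f).length := by rw [List.length_map, lutL_length]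
  rw [lst, lut_decomp P e, wd, wd, lut_rk_filter, lut_btw_filter, hr]
  simp only [List.map_append]
  generalize (lutL P e).map f = L
  generalize (lutR P e).map f = R
  generalize btw P e = B
  by_cases h1 : e.lo ∈ P
  · by_cases h2 : e.hi ∈ P
    · simp only [h1, h2, if_true, List.map_cons, List.map_nil, List.cons_append, List.nil_append]
      have hp := lut_crL_path f (cz e.lo) (f e.hi) B (L ++ [f e.lo]) R
      have hd := lut_del_crL κ f (cz e.lo) (f e.hi) B (L ++ [f e.lo]) R
      simp only [List.length_append, List.length_cons, List.length_nil, Nat.zero_add,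
        List.append_assoc, List.cons_append, List.nil_append, List.filter_append] at hp hd
      rw [del_append hp, hd, del_cons, del_nil, List.append_nil, lut_delL_cap, ← hf]
      by_cases hk : κ (f e.lo) = true
      · have hk' : κ (f e.hi) = true := hf ▸ hk
        simp [hk, hk', h1, h2]
      · simp [hk]
    · simp only [h1, h2, if_true, if_false, List.map_cons, List.map_nil, List.cons_append,
        List.nil_append]
      rw [lut_del_crR]
      by_cases hk : κ (f e.lo) = true
      · simp [hk, h1, h2]
      · simp [hk]
  · by_cases h2 : e.hi ∈ P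
    · simp only [h1, h2, if_true, if_false, List.map_cons, List.map_nil, List.cons_append,
        List.nil_append]
      rw [lut_del_crL, ← hf]
      by_cases hk : κ (f e.lo) = true
      · have hk' : κ (f e.hi) = true := hf ▸ hk
        simp [hk, hk', h1, h2]
      · simp [hk]
    · simp only [h1, h2, if_false, List.map_nil, List.nil_append]
      have hd := lut_del_crR κ f (cz e.lo) (f e.lo) B (L ++ [f e.lo]) R
      simp only [List.length_append, List.length_cons, List.length_nil, Nat.zero_add,
        List.append_assoc, List.cons_append, List.nil_append, List.filter_append] at hd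
      rw [del_cons, (lut_step_cup L (f e.lo) _).nxt_eq, hd, lut_delL_cup]
      by_cases hk : κ (f e.lo) = true
      · simp [hk, h1, h2]
      · simp [hk]

/-- The crossings in the word of an edge. -/
theorem lut_xl_wd (f : Site → C) (P : Finset Site) (e : HE) (hf : f e.lo = f e.hi) :
    ∀ p ∈ xl (triv C) (wd f P e) (lst f P), ∃ b, p = lutC f (cz e.lo) (f e.lo) b := by
  have hr : rk P e.lo = ((lutL P e).map f).length := by rw [List.length_map, lutL_length]
  rw [lst, lut_decomp P e, wd, hr]
  simp only [List.map_append]
  generalize (lutL P e).map f = L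
  generalize (lutR P e).map f = R
  generalize btw P e = B
  by_cases h1 : e.lo ∈ P
  · by_cases h2 : e.hi ∈ P
    · simp only [h1, h2, if_true, List.map_cons, List.map_nil, List.cons_append, List.nil_append]
      have hp := lut_crL_path f (cz e.lo) (f e.hi) B (L ++ [f e.lo]) R
      have hd := lut_xl_crL f (cz e.lo) (f e.hi) B (L ++ [f e.lo]) R
      simp only [List.length_append, List.length_cons, List.length_nil, Nat.zero_add,
        List.append_assoc, List.cons_append, List.nil_append] at hp hd
      rw [xl_append hp, xl_cons, xl_nil, List.append_nil, lut_xlL_cap, List.append_nil]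
      rw [← hf] at hd ⊢
      exact hd
    · simp only [h1, h2, if_true, if_false, List.map_cons, List.map_nil, List.cons_append,
        List.nil_append]
      exact lut_xl_crR f _ _ B L R
  · by_cases h2 : e.hi ∈ P
    · simp only [h1, h2, if_true, if_false, List.map_cons, List.map_nil, List.cons_append,
        List.nil_append]
      rw [← hf]
      exact lut_xl_crL f _ _ B L R
    · simp only [h1, h2, if_false, List.map_nil, List.nil_append]
      have hd := lut_xl_crR f (cz e.lo) (f e.lo) B (L ++ [f e.lo]) R
      simp only [List.length_append, List.length_cons, List.length_nil, Nat.zero_add,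
        List.append_assoc, List.cons_append, List.nil_append] at hd
      rw [xl_cons, (lut_step_cup L (f e.lo) _).nxt_eq, lut_xlL_cup, List.nil_append]
      exact hd

theorem lut_nxs_true (κ : C → Bool) (f : Site → C) (P : Finset Site) (e : HE)
    (hf : f e.lo = f e.hi) (hk : κ (f e.lo) = true) :
    nxs (P.filter fun q => κ (f q) = true) e = (nxs P e).filter fun q => κ (f q) = true := by
  have hk' : κ (f e.hi) = true := hf ▸ hk
  ext q
  simp only [nxs, Finset.mem_symmDiff, Finset.mem_filter, Finset.mem_insert,
    Finset.mem_singleton]
  constructor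
  · rintro (⟨⟨h1, h2⟩, h3⟩ | ⟨h1, h2⟩)
    · exact ⟨Or.inl ⟨h1, h3⟩, h2⟩
    · have h3 : κ (f q) = true := by rcases h1 with rfl | rfl <;> assumption
      exact ⟨Or.inr ⟨h1, fun h => h2 ⟨h, h3⟩⟩, h3⟩
  · rintro ⟨⟨h1, h3⟩ | ⟨h1, h2⟩, h4⟩
    · exact Or.inl ⟨⟨h1, h4⟩, h3⟩
    · exact Or.inr ⟨h1, fun h => h2 h.1⟩

theorem lut_nxs_false (κ : C → Bool) (f : Site → C) (P : Finset Site) (e : HE)
    (hf : f e.lo = f e.hi) (hk : ¬ κ (f e.lo) = true) :
    (nxs P e).filter (fun q => κ (f q) = true) = P.filter fun q => κ (f q) = true := by
  have hk' : ¬ κ (f e.hi) = true := hf ▸ hk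
  ext q
  simp only [nxs, Finset.mem_symmDiff, Finset.mem_filter, Finset.mem_insert,
    Finset.mem_singleton]
  constructor
  · rintro ⟨⟨h1, h3⟩ | ⟨h1, h2⟩, h4⟩
    · exact ⟨h1, h4⟩
    · exfalso
      rcases h1 with rfl | rfl
      · exact hk h4
      · exact hk' h4
  · rintro ⟨h1, h2⟩
    refine ⟨Or.inl ⟨h1, ?_⟩, h2⟩
    rintro (rfl | rfl)
    · exact hk h2
    · exact hk' h2

/-- Deleting strands in the word of a list of edges. -/
theorem lut_del_run (κ : C → Bool) (f : Site → C) (P : Finset Site) (es : List HE)
    (hf : ∀ e ∈ es, f e.lo = f e.hi) :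
    del (triv C) κ (run f P es) (lst f P) =
      run f (P.filter fun q => κ (f q) = true) (es.filter fun e => κ (f e.lo)) := by
  induction es generalizing P with
  | nil => rfl
  | cons e es ih =>
    have h1 := hf e List.mem_cons_self
    rw [run, del_append (wd_path f P e h1), lut_del_wd κ f P e h1,
      ih _ fun e' he' => hf e' (List.mem_cons_of_mem _ he')]
    by_cases hk : κ (f e.lo) = true
    · rw [List.filter_cons, if_pos hk, if_pos hk, run, lut_nxs_true κ f P e h1 hk]
    · rw [List.filter_cons, if_neg hk, if_neg hk, lut_nxs_false κ f P e h1 hk, List.nil_append]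

/-- The crossings in the word of a list of edges. -/
theorem lut_xl_run (f : Site → C) (P : Finset Site) (es : List HE)
    (hf : ∀ e ∈ es, f e.lo = f e.hi) :
    ∀ p ∈ xl (triv C) (run f P es) (lst f P), ∃ (q b : Site), p = lutC f (cz q) (f q) b := by
  induction es generalizing P with
  | nil => simp [run]
  | cons e es ih =>
    have h1 := hf e List.mem_cons_self
    rw [run, xl_append (wd_path f P e h1)]
    intro p hp
    rcases List.mem_append.1 hp with hp | hp
    · obtain ⟨b, hb⟩ := lut_xl_wd f P e h1 p hp
      exact ⟨e.lo, b, hb⟩
    · exact ih _ (fun e' he' => hf e' (List.mem_cons_of_mem _ he')) p hp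

/-- The final strands of the kept edges. -/
theorem lut_lst_filter (κ : C → Bool) (f : Site → C) (P : Finset Site) :
    (lst f P).filter κ = lst f (P.filter fun q => κ (f q) = true) := by
  rw [lst, lst, lut_sort_filter, List.filter_map]
  congr 1
  refine List.filter_congr ?_
  intro q _
  simp

/-- The labels of a word only depend on the labels of the strands. -/
theorem lut_run_congr (f g : Site → C) (P : Finset Site) (es : List HE)
    (h : ∀ e ∈ es, f e.lo = g e.lo) : run f P es = run g P es := by
  induction es generalizing P with
  | nil => rfl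
  | cons e es ih =>
    rw [run, run, ih _ fun e' he' => h e' (List.mem_cons_of_mem _ he')]
    congr 1
    rw [wd, wd, h e List.mem_cons_self]

end word

/-- The strands in front of depth `d` (including `d`). -/
def front (d : ℤ) (P : Finset Site) : Finset Site := P.filter fun q => d ≤ cz q

/-- The strands behind depth `d`. -/
def back (d : ℤ) (P : Finset Site) : Finset Site := P.filter fun q => ¬ d ≤ cz q

/-- The edge `e` is in front of depth `d`. -/
def HE.isFront (d : ℤ) (e : HE) : Bool := decide (d ≤ cz e.lo)

/-- The edge `e` does not cross the plane of depth `d`. -/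
def HE.Good (d : ℤ) (e : HE) : Prop := d ≤ cz e.lo ↔ d ≤ cz e.hi

theorem lut_part (d : ℤ) (κ : Bool → Bool) (c : Bool) (P P' F' : Finset Site) (es es' : List HE)
    (h : ∀ e ∈ es, e.Good d) (h' : ∀ e ∈ es', e.Good d) (hκ : ∀ b, κ b = true ↔ b = c)
    (hP : P' = P.filter fun q => κ (decide (d ≤ cz q)) = true)
    (hF : F' = (fin P es).filter fun q => κ (decide (d ≤ cz q)) = true)
    (hE : Eqv (triv Unit) (run1 P' (es.filter fun e => κ (decide (d ≤ cz e.lo))))
      (run1 P' (es'.filter fun e => κ (decide (d ≤ cz e.lo)))) (lst1 P') (lst1 F')) :
    Eqv (triv Bool) (del (triv Bool) κ (run (fun q => decide (d ≤ cz q)) P es)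
        (lst (fun q => decide (d ≤ cz q)) P))
      (del (triv Bool) κ (run (fun q => decide (d ≤ cz q)) P es')
        (lst (fun q => decide (d ≤ cz q)) P))
      ((lst (fun q => decide (d ≤ cz q)) P).filter κ)
      ((lst (fun q => decide (d ≤ cz q)) (fin P es)).filter κ) := by
  have hf : ∀ e : HE, e.Good d → decide (d ≤ cz e.lo) = decide (d ≤ cz e.hi) := fun e he =>
    decide_eq_decide.2 he
  rw [lut_del_run κ _ P es fun e he => hf e (h e he),
    lut_del_run κ _ P es' fun e he => hf e (h' e he), lut_lst_filter, lut_lst_filter, ← hP, ← hF]
  have e1 := hE.map (isHom_triv fun _ => c)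
  rw [wmap_run, wmap_run] at e1
  refine e1.cast ?_ ?_ ?_ ?_
  · refine lut_run_congr _ _ _ _ ?_
    intro e he
    exact ((hκ _).1 (List.mem_filter.1 he).2).symm
  · refine lut_run_congr _ _ _ _ ?_
    intro e he
    exact ((hκ _).1 (List.mem_filter.1 he).2).symm
  · simp only [lst, List.map_map]
    refine List.map_congr_left ?_
    intro q hq
    rw [Finset.mem_sort, hP, Finset.mem_filter] at hq
    exact ((hκ _).1 hq.2).symm
  · simp only [lst, List.map_map]
    refine List.map_congr_left ?_
    intro q hq
    rw [Finset.mem_sort, hF, Finset.mem_filter] at hq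
    exact ((hκ _).1 hq.2).symm

theorem lut_xl_ok (d : ℤ) (P : Finset Site) (es : List HE) (h : ∀ e ∈ es, e.Good d) :
    ∀ p ∈ xl (triv Bool) (run (fun q => decide (d ≤ cz q)) P es)
      (lst (fun q => decide (d ≤ cz q)) P), ¬ (p.1 = false ∧ p.2 = true) := by
  intro p hp hpp
  obtain ⟨q, b, rfl⟩ := lut_xl_run _ P es (fun e he => decide_eq_decide.2 (h e he)) p hp
  simp only [lutC] at hpp
  split_ifs at hpp with hz
  · simp only [decide_eq_false_iff_not, decide_eq_true_eq] at hpp
    omega
  · simp only [decide_eq_false_iff_not, decide_eq_true_eq] at hpp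
    omega

/-- Two lists of edges which do not cross the plane of depth `d` give equivalent tangles, if their
front parts and their back parts do. -/
theorem lut_run (d : ℤ) (P : Finset Site) {es es' : List HE} (h : ∀ e ∈ es, e.Good d)
    (h' : ∀ e ∈ es', e.Good d) (hfin : fin P es = fin P es')
    (hT : Eqv (triv Unit) (run1 (front d P) (es.filter (HE.isFront d)))
      (run1 (front d P) (es'.filter (HE.isFront d))) (lst1 (front d P))
      (lst1 (front d (fin P es))))
    (hF : Eqv (triv Unit) (run1 (back d P) (es.filter fun e => !(HE.isFront d e)))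
      (run1 (back d P) (es'.filter fun e => !(HE.isFront d e))) (lst1 (back d P))
      (lst1 (back d (fin P es)))) :
    Eqv (triv Unit) (run1 P es) (run1 P es') (lst1 P) (lst1 (fin P es)) := by
  have hf : ∀ e : HE, e.Good d → decide (d ≤ cz e.lo) = decide (d ≤ cz e.hi) := fun e he =>
    decide_eq_decide.2 he
  have p1 := run_path (fun q => decide (d ≤ cz q)) P es fun e he => hf e (h e he)
  have p2 := run_path (fun q => decide (d ≤ cz q)) P es' fun e he => hf e (h' e he)
  rw [← hfin] at p2
  have eT := lut_part d (fun x => x) true P (front d P) (front d (fin P es)) es es' h h'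
    (fun b => Iff.rfl) (by simp [front]) (by simp [front]) hT
  have eF := lut_part d (fun x => !x) false P (back d P) (back d (fin P es)) es es' h h'
    (fun b => by simp) (by simp [back]) (by simp [back]) hF
  have e := (lut p1 p2 (lut_xl_ok d P es h) (lut_xl_ok d P es' h') eT eF).map
    (isHom_triv fun _ => ())
  rw [wmap_run, wmap_run] at e
  refine e.cast rfl rfl ?_ ?_
  · simp only [lst, List.map_map]
  · simp only [lst, List.map_map]

end Pool.Agent.Lib.MP_131179_gt.Dehn
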