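import Pool.Agent.Lib.MP_131179_gt.Dehn.Coarse
import Pool.Agent.Lib.MP_131179_gt.Dehn.Attach

/-!
# The places where the new face is attached

The curve `c` is a link in the lattice, and also a curve in the one-dimensional skeleton of the
lattice; the second one is obtained from the first one by a translation by `(1/2, 1/2, 1/2)`.  We attach
a face to the complex of the squares which are not pierced by the first curve along the second one.

The walks around the corners of the curve are found by a finite computation: the pierced squares near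
a vertex of the curve are determined by four directions of the curve.
-/

set_option autoImplicit false
set_option synthInstance.maxSize 4000

namespace Pool.Agent.Lib.MP_131179_gt.Dehn

/-! ## Frames -/

def slotsk_fb (f : Frm) : Frm :=
  ⟨(f.1.2.1, f.1.1, f.1.2.2), fun h => f.2.1 h.symm, f.2.2.2, f.2.2.1⟩

def slotsk_fc (f : Frm) : Frm :=
  ⟨(f.1.1, f.1.2.1, (f.1.2.2).neg), f.2⟩

def slotsk_fd (f : Frm) : Frm :=
  ⟨(f.1.1, f.1.2.2, f.1.2.1), f.2.2.1, f.2.1, fun h => f.2.2.2 h.symm⟩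

def slotsk_fa (f : Frm) : Frm := ⟨((f.1.1).neg, f.1.2.1, f.1.2.2), f.2⟩

theorem slotsk_l3b (v : P3) (f : Frm) : l3b (v, f) = (v, slotsk_fb f) := rfl

theorem slotsk_l3c (v : P3) (f : Frm) : l3c (v, f) = (v, slotsk_fc f) := rfl

theorem slotsk_l3d (v : P3) (f : Frm) : l3d (v, f) = (v, slotsk_fd f) := rfl

theorem slotsk_l3a (v : P3) (f : Frm) : l3a (v, f) = (v + dv f.1.1, slotsk_fa f) := rfl

/-- The local knowledge about the pierced squares at a vertex: `A` and `B` are the legs of the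
curve at the vertex, and `A'`, `B'` the directions of the curve after following these legs. -/
def slotsk_kn (A' A B B' : Dir) (f : Frm) : Option Bool :=
  if f.1.1.2 then
    if f.1.2.1.2 then none
    else if A = f.1.1 then some (decide (A' = (f.1.2.2.1, true)))
    else if B = f.1.1 then some (decide (B' = (f.1.2.2.1, true)))
    else none
  else
    if f.1.2.1.2 then
      if A = f.1.2.1 then some (decide (A' = (f.1.2.2.1, true)))
      else if B = f.1.2.1 then some (decide (B' = (f.1.2.2.1, true)))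
      else none
    else some (decide (A = (f.1.2.2.1, true)) || decide (B = (f.1.2.2.1, true)))

/-- The local knowledge about the rotation. -/
def slotsk_dl (A' A B B' : Dir) (f : Frm) : Option Frm :=
  if slotsk_kn A' A B B' (slotsk_fd f) = some false then some (slotsk_fd f)
  else if slotsk_kn A' A B B' (slotsk_fd f) = some true ∧
    slotsk_kn A' A B B' (slotsk_fd (slotsk_fc (slotsk_fd f))) = some false then
      some (slotsk_fd (slotsk_fc (slotsk_fd f)))
  else none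

/-- The base slot at the leg `X`; `X'` is the direction after following this leg, and `Y` is the
other leg. -/
def slotsk_sF (X' X Y : Dir) : Frm :=
  if h0 : X.1 = 0 then ⟨(X, (1, false), (2, false)), by simp [h0]⟩
  else if h2 : X.1 = 2 then ⟨(X, (1, false), (0, false)), by simp [h2]⟩
  else if (if X.2 then X' else Y) = (2, true) then
    ⟨(X, (2, false), (0, false)), by simp [h0, h2]⟩
  else ⟨(X, (0, false), (2, false)), by simp [h0, h2]⟩

/-- The frame with given directions. -/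
def slotsk_mk (a b c : Dir) : Frm :=
  if h : a.1 ≠ b.1 ∧ a.1 ≠ c.1 ∧ b.1 ≠ c.1 then ⟨(a, b, c), h⟩
  else ⟨((0, true), (1, true), (2, true)), by decide⟩

/-- The walk around the corner; `V` is a vertical leg, `V'` is the direction after following it, and
`H` is the other leg. -/
def slotsk_lst (V' V H : Dir) : List Frm :=
  if V.2 then
    if H = (0, false) then
      [slotsk_mk (0, false) (1, true) (2, false), slotsk_mk (1, true) (0, false) (2, false)]
    else if H = (2, false) then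
      [slotsk_mk (2, false) (1, true) (0, false), slotsk_mk (1, true) (2, false) (0, false)]
    else if H = (0, true) then
      [slotsk_mk (0, true) (1, false) (2, false), slotsk_mk (1, false) (0, true) (2, false),
       slotsk_mk (1, false) (0, false) (2, false), slotsk_mk (0, false) (1, false) (2, false),
       slotsk_mk (0, false) (1, true) (2, false), slotsk_mk (1, true) (0, false) (2, false)]
    else if H = (2, true) then
      [slotsk_mk (1, true) (2, false) (0, false), slotsk_mk (2, false) (1, true) (0, false),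
       slotsk_mk (2, false) (1, false) (0, false), slotsk_mk (1, false) (2, false) (0, false),
       slotsk_mk (1, false) (2, true) (0, false), slotsk_mk (2, true) (1, false) (0, false)]
    else if V' = (2, true) then
      [slotsk_mk (1, false) (2, false) (0, false), slotsk_mk (2, false) (1, false) (0, false),
       slotsk_mk (2, false) (1, true) (0, false), slotsk_mk (1, true) (2, false) (0, false)]
    else
      [slotsk_mk (1, false) (0, false) (2, false), slotsk_mk (0, false) (1, false) (2, false),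
       slotsk_mk (0, false) (1, true) (2, false), slotsk_mk (1, true) (0, false) (2, false)]
  else
    if H = (0, false) then
      [slotsk_mk (1, false) (0, false) (2, false), slotsk_mk (0, false) (1, false) (2, false)]
    else if H = (2, false) then
      [slotsk_mk (1, false) (2, false) (0, false), slotsk_mk (2, false) (1, false) (0, false)]
    else if H = (0, true) then
      [slotsk_mk (1, false) (0, true) (2, false), slotsk_mk (0, true) (1, false) (2, false)]
    else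
      [slotsk_mk (1, false) (2, true) (0, false), slotsk_mk (2, true) (1, false) (0, false)]

def slotsk_LL (A' A B B' : Dir) : List Frm :=
  if A = (1, true) then slotsk_lst A' A B
  else if B = (1, true) then slotsk_lst B' B A
  else if A = (1, false) then slotsk_lst A' A B
  else slotsk_lst B' B A

/-- The possible directions near a vertex. -/
def slotsk_Cfg (A' A B B' : Dir) : Prop :=
  A ≠ B ∧ A' ≠ A.neg ∧ B' ≠ B.neg ∧
  (A.1 ≠ 1 → B.1 = 1 ∧ B' = B ∧ A'.1 = 1) ∧ (B.1 ≠ 1 → A.1 = 1 ∧ A' = A ∧ B'.1 = 1) ∧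
  (A'.1 ≠ 1 → A.1 = 1 ∧ B = A.neg) ∧ (B'.1 ≠ 1 → B.1 = 1 ∧ A = B.neg)

instance (A' A B B' : Dir) : Decidable (slotsk_Cfg A' A B B') := by
  unfold slotsk_Cfg; infer_instance

def slotsk_nx (A' A B B' : Dir) (f g : Frm) : Prop :=
  g = slotsk_fb f ∨ slotsk_dl A' A B B' f = some g ∨ slotsk_dl A' A B B' g = some f

instance (A' A B B' : Dir) (f g : Frm) : Decidable (slotsk_nx A' A B B' f g) := by
  unfold slotsk_nx; infer_instance

/-- The properties of the ends of the walk around the corner. -/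
def slotsk_Ends (A' A B B' : Dir) (L : List Frm) (xA xB : Frm) : Prop :=
  xA.1.1 = A ∧ xB.1.1 = B ∧
  (∀ f ∈ L, f.1.1 = A → f = xA) ∧ (∀ f ∈ L, f.1.1 = B → f = xB) ∧
  (xA = slotsk_sF A' A B ∨ slotsk_dl A' A B B' (slotsk_sF A' A B) = some xA) ∧
  (xB = slotsk_sF B' B A ∨ slotsk_dl A' A B B' (slotsk_sF B' B A) = some xB) ∧
  (∀ f ∈ L, f = xA ∨ f = xB ∨ (slotsk_dl A' A B B' f).any (fun g => decide (g ∈ L)) = true) ∧
  sgF xB = sgF xA + 1

instance (A' A B B' : Dir) (L : List Frm) (xA xB : Frm) :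
    Decidable (slotsk_Ends A' A B B' L xA xB) := by
  unfold slotsk_Ends; infer_instance

/-- The properties of the walk around the corner. -/
def slotsk_Chk (A' A B B' : Dir) (L : List Frm) : Prop :=
  (∀ f ∈ L, slotsk_kn A' A B B' f = some false) ∧
  (∀ f ∈ L, slotsk_fb f ∈ L) ∧
  List.IsChain (slotsk_nx A' A B B') L ∧
  slotsk_kn A' A B B' (slotsk_sF A' A B) = some false ∧
  slotsk_kn A' A B B' (slotsk_sF B' B A) = some false ∧
  ∃ xA ∈ L, ∃ xB ∈ L, slotsk_Ends A' A B B' L xA xB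

instance (A' A B B' : Dir) (L : List Frm) : Decidable (slotsk_Chk A' A B B' L) := by
  unfold slotsk_Chk; infer_instance

theorem slotsk_chk : ∀ A' A B B' : Dir, slotsk_Cfg A' A B B' →
    slotsk_Chk A' A B B' (slotsk_LL A' A B B') := by
  decide +kernel

theorem slotsk_fa_sF : ∀ X' X Y : Dir, slotsk_fa (slotsk_sF X' X Y) = slotsk_sF Y X.neg X' := by
  decide +kernel

theorem slotsk_sF_1 : ∀ X' X Y : Dir, (slotsk_sF X' X Y).1.1 = X := by
  decide +kernel

theorem slotsk_sF_2 : ∀ X' X Y : Dir, (slotsk_sF X' X Y).1.2.1.2 = false ∧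
    (slotsk_sF X' X Y).1.2.2.2 = false := by
  decide +kernel

theorem slotsk_dv_neg (d : Dir) : dv d.neg = - dv d := by
  rcases d with ⟨k, s⟩
  cases s <;> simp [dv, Dir.neg]

theorem slotsk_F2 (t : F2) : t = 0 ∨ t = 1 := by
  revert t; decide

/-! ## The slots of a family of flags -/

section build

variable {Φ : Type} (E : TMap Φ) {m : ℕ}

def slotsk_ap (ε : F2) (x : Φ) : Φ := if ε = 0 then x else E.a x

def slotsk_dp (t : F2) (x : Φ) : Φ := if t = 0 then x else E.d x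

def slotsk_σ (xb : ZMod m → Φ) (i : ZMod m) (ε s : F2) : Φ :=
  slotsk_dp E (E.sg (xb i) + s) (slotsk_ap E ε (xb i))

theorem slotsk_ap_add (ε : F2) (x : Φ) : E.a (slotsk_ap E ε x) = slotsk_ap E (ε + 1) x := by
  rcases slotsk_F2 ε with rfl | rfl
  · simp [slotsk_ap]
  · have : (1 : F2) + 1 = 0 := by decide
    simp [slotsk_ap, this, E.aa]

theorem slotsk_dp_add (t : F2) (x : Φ) : E.d (slotsk_dp E t x) = slotsk_dp E (t + 1) x := by
  rcases slotsk_F2 t with rfl | rfl
  · simp [slotsk_dp]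
  · have : (1 : F2) + 1 = 0 := by decide
    simp [slotsk_dp, this, E.dd]

theorem slotsk_a_dp (t : F2) (x : Φ) : E.a (slotsk_dp E t x) = slotsk_dp E t (E.a x) := by
  unfold slotsk_dp; split_ifs
  · rfl
  · exact E.ad x

theorem slotsk_sg_ap (ε : F2) (x : Φ) : E.sg (slotsk_ap E ε x) = E.sg x + ε := by
  rcases slotsk_F2 ε with rfl | rfl
  · simp [slotsk_ap]
  · simp [slotsk_ap, E.sga]

theorem slotsk_sg_dp (ε : F2) (x : Φ) : E.sg (slotsk_dp E ε x) = E.sg x + ε := by
  rcases slotsk_F2 ε with rfl | rfl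
  · simp [slotsk_dp]
  · simp [slotsk_dp, E.sgd]

theorem slotsk_σa (xb : ZMod m → Φ) (i : ZMod m) (ε s : F2) :
    E.a (slotsk_σ E xb i ε s) = slotsk_σ E xb i (ε + 1) s := by
  unfold slotsk_σ
  rw [slotsk_a_dp, slotsk_ap_add]

theorem slotsk_σd (xb : ZMod m → Φ) (i : ZMod m) (ε s : F2) :
    E.d (slotsk_σ E xb i ε s) = slotsk_σ E xb i ε (s + 1) := by
  unfold slotsk_σ
  rw [slotsk_dp_add, add_assoc]

theorem slotsk_σsg (xb : ZMod m → Φ) (i : ZMod m) (ε s : F2) :
    E.sg (slotsk_σ E xb i ε s) = ε + s := by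
  unfold slotsk_σ
  rw [slotsk_sg_dp, slotsk_sg_ap]
  generalize E.sg (xb i) = t
  revert t ε s; decide

/-- A walk around a corner. -/
structure slotsk_Corner (x0 y0 : F2 → Φ) (L : Set Φ) : Prop where
  mem : ∃ s, x0 s ∈ L ∧ x0 (s + 1) ∉ L ∧ y0 s ∈ L ∧ y0 (s + 1) ∉ L ∧
    SameOrb [E.b, E.d] (x0 s) (y0 s)
  b : ∀ x ∈ L, E.b x ∈ L
  d : ∀ x ∈ L, (∀ s, x ≠ x0 s ∧ x ≠ y0 s) → E.d x ∈ L

open Classical in
theorem slotsk_build {V : Type} (vt : Φ → V) (cv : ZMod m → V) (hcv : Function.Injective cv)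
    (xb : ZMod m → Φ)
    (hinj : ∀ i ε s i' ε' s', slotsk_σ E xb i ε s = slotsk_σ E xb i' ε' s' → i = i' ∧ ε = ε')
    (hv0 : ∀ i s, vt (slotsk_σ E xb i 0 s) = cv i)
    (hv1 : ∀ i s, vt (slotsk_σ E xb i 1 s) = cv (i + 1))
    (L : ZMod m → Set Φ) (hL : ∀ i, ∀ x ∈ L i, vt x = cv (i + 1))
    (hC : ∀ i, slotsk_Corner E (slotsk_σ E xb i 1) (slotsk_σ E xb (i + 1) 0) (L i)) :
    ∃ A : Slots E m, A.σ = slotsk_σ E xb := by
  have h11 : ∀ s : F2, s + 1 + 1 = s := by decide
  have hcase : ∀ s t : F2, t = s ∨ t = s + 1 := by decide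
  have hb : ∀ i x, E.b x ∈ L i ↔ x ∈ L i := fun i x =>
    ⟨fun h => by have := (hC i).b _ h; rwa [E.bb] at this, (hC i).b x⟩
  have hd : ∀ i x, (∀ s, x ≠ slotsk_σ E xb i 1 s ∧ x ≠ slotsk_σ E xb (i + 1) 0 s) →
      (E.d x ∈ L i ↔ x ∈ L i) := by
    intro i x hx
    refine ⟨fun h => ?_, fun h => (hC i).d x h hx⟩
    have := (hC i).d _ h ?_
    · rwa [E.dd] at this
    · intro s
      constructor
      · intro h'
        apply (hx (s + 1)).1
        rw [← slotsk_σd, ← h', E.dd]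
      · intro h'
        apply (hx (s + 1)).2
        rw [← slotsk_σd, ← h', E.dd]
  refine ⟨⟨slotsk_σ E xb, ?_, slotsk_σa E xb, slotsk_σd E xb, slotsk_σsg E xb,
    fun i x => if x ∈ L i then 1 else 0, ?_, ?_, ?_, ?_, ?_, ?_⟩, rfl⟩
  · intro i ε s i' ε' s' h
    obtain ⟨rfl, rfl⟩ := hinj _ _ _ _ _ _ h
    refine ⟨rfl, rfl, ?_⟩
    have := congrArg E.sg h
    rw [slotsk_σsg, slotsk_σsg] at this
    exact add_left_cancel this
  · intro i x
    simp only [hb]
  · intro i x hx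
    simp only [hd i x hx]
  · intro i s
    obtain ⟨t, h1, h2, -, -, -⟩ := (hC i).mem
    rcases hcase t s with rfl | rfl
    · simp [h1, h2]; decide
    · simp [h11, h1, h2]
  · intro i s
    obtain ⟨t, -, -, h1, h2, -⟩ := (hC i).mem
    rcases hcase t s with rfl | rfl
    · simp [h1, h2]; decide
    · simp [h11, h1, h2]
  · intro i j s
    by_cases hij : i = j
    · subst hij
      obtain ⟨t, h1, h2, h3, h4, -⟩ := (hC i).mem
      rcases hcase t s with rfl | rfl
      · simp [h1, h3]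
      · simp [h2, h4]
    · have h1 : slotsk_σ E xb i 1 s ∉ L j := fun h => by
        have := hL j _ h
        rw [hv1] at this
        exact hij (add_right_cancel (hcv this))
      have h2 : slotsk_σ E xb (i + 1) 0 s ∉ L j := fun h => by
        have := hL j _ h
        rw [hv0] at this
        exact hij (add_right_cancel (hcv this))
      simp [h1, h2]
  · intro i s
    obtain ⟨t, -, -, -, -, h⟩ := (hC i).mem
    rcases hcase t s with rfl | rfl
    · exact h
    · have e1 : SameOrb [E.b, E.d] (slotsk_σ E xb i 1 (t + 1)) (slotsk_σ E xb i 1 t) :=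
        Relation.EqvGen.rel _ _ ⟨E.d, by simp, by rw [slotsk_σd, h11]⟩
      have e2 : SameOrb [E.b, E.d] (slotsk_σ E xb (i + 1) 0 t) (slotsk_σ E xb (i + 1) 0 (t + 1)) :=
        Relation.EqvGen.rel _ _ ⟨E.d, by simp, by rw [slotsk_σd]⟩
      exact Relation.EqvGen.trans _ _ _ e1 (Relation.EqvGen.trans _ _ _ h e2)

end build

/-! ## The squares near a vertex of the curve -/

section vertex

variable {m : ℕ} [NeZero m] {c : Curve m}

theorem slotsk_kn_spec (h3 : 3 ≤ m) (i : ZMod m) (f : Frm) (b : Bool)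
    (h : slotsk_kn (c.dir (i - 1)).neg (c.dir i).neg (c.dir (i + 1)) (c.dir (i + 2)) f = some b) :
    pc c.K (c.v (i + 1), f) ↔ b = true := by
  obtain ⟨⟨⟨a, sa⟩, ⟨a', sa'⟩, ⟨k, sk⟩⟩, hf⟩ := f
  have hnn : ∀ (D : Dir) (k : Fin 3), D.neg = (k, true) ↔ D = (k, false) := by decide
  have M0 : (c.v (i + 1), k) ∈ c.K ↔ c.dir (i + 1) = (k, true) ∨ c.dir i = (k, false) := by
    have := c.mem_K_v h3 (i + 1) k
    rwa [add_sub_cancel_right] at this
  have M1 : ∀ q : Fin 3, c.dir (i + 1) = (q, true) →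
      ((c.v (i + 1) + e3 q, k) ∈ c.K ↔ c.dir (i + 2) = (k, true)) := by
    intro q hq
    have e1 : c.v (i + 2) = c.v (i + 1) + e3 q := by
      have := c.step (i + 1)
      rw [hq] at this
      have e : i + 1 + 1 = i + 2 := by ring
      rw [e] at this
      rw [this]; simp [dv]
    rw [← e1, c.mem_K_v h3]
    have e : i + 2 - 1 = i + 1 := by ring
    rw [e, hq]
    simp
  have M2 : ∀ q : Fin 3, (c.dir i).neg = (q, true) →
      ((c.v (i + 1) + e3 q, k) ∈ c.K ↔ (c.dir (i - 1)).neg = (k, true)) := by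
    intro q hq
    rw [hnn] at hq
    have e1 : c.v i = c.v (i + 1) + e3 q := by
      have := c.step i
      rw [hq] at this
      rw [this]; simp [dv]
    rw [← e1, c.mem_K_v h3, hnn, hq]
    simp
  have hpc : pc c.K (c.v (i + 1), ⟨((a, sa), (a', sa'), (k, sk)), hf⟩) ↔
      (c.v (i + 1) + pv (a, sa) + pv (a', sa'), k) ∈ c.K := Iff.rfl
  rw [hpc]
  cases sa <;> cases sa' <;> simp [slotsk_kn, pv] at h ⊢
  · rw [M0, ← h]
    simp [hnn]
    tauto
  · split_ifs at h with h1 h2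
    · rw [M2 _ h1]; simp at h; rw [← h]; simp
    · rw [M1 _ h2]; simp at h; rw [← h]; simp
  · split_ifs at h with h1 h2
    · rw [M2 _ h1]; simp at h; rw [← h]; simp
    · rw [M1 _ h2]; simp at h; rw [← h]; simp

theorem slotsk_dl_spec (h3 : 3 ≤ m) (i : ZMod m) (f g : Frm) (x : {x : LF // ¬ pc c.K x})
    (hx : x.1 = (c.v (i + 1), f))
    (h : slotsk_dl (c.dir (i - 1)).neg (c.dir i).neg (c.dir (i + 1)) (c.dir (i + 2)) f = some g) :
    ((EK c.K).d x).1 = (c.v (i + 1), g) := by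
  unfold slotsk_dl at h
  split_ifs at h with h1 h2
  · have := slotsk_kn_spec h3 i _ _ h1
    rw [EK_d, hx, slotsk_l3d]
    · simpa using h
    · rw [hx, slotsk_l3d]; simpa using this
  · have e1 := slotsk_kn_spec h3 i _ _ h2.1
    have e2 := slotsk_kn_spec h3 i _ _ h2.2
    rw [EK_d2, hx, slotsk_l3d, slotsk_l3c, slotsk_l3d]
    · simpa using h
    · rw [hx, slotsk_l3d]; simpa using e1
    · rw [hx, slotsk_l3d, slotsk_l3c, slotsk_l3d]; simpa using e2

omit [NeZero m] in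
theorem slotsk_two_ne (h3 : 3 ≤ m) : (2 : ZMod m) ≠ 0 := by
  intro h
  have : ((2 : ℕ) : ZMod m) = 0 := by exact_mod_cast h
  rw [ZMod.natCast_eq_zero_iff] at this
  have := Nat.le_of_dvd (by norm_num) this
  omega

omit [NeZero m] in
theorem slotsk_nb (h3 : 3 ≤ m) (i : ZMod m) : c.dir (i + 1) ≠ (c.dir i).neg := by
  intro h
  have h1 := c.step (i + 1)
  rw [h, slotsk_dv_neg, c.step i] at h1
  have h2 : c.v (i + 1 + 1) = c.v i := by rw [h1]; abel
  have h4 := c.inj h2
  apply slotsk_two_ne h3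
  have h5 : i + 2 = i + 0 := by
    rw [add_zero]
    calc i + 2 = i + 1 + 1 := by ring
      _ = i := h4
  exact add_left_cancel h5

theorem slotsk_cfg (hc : GoodCurve c) (i : ZMod m) :
    slotsk_Cfg (c.dir (i - 1)).neg (c.dir i).neg (c.dir (i + 1)) (c.dir (i + 2)) := by
  have hnn : ∀ D : Dir, D.neg.neg = D := by decide
  have hn1 : ∀ D : Dir, D.neg.1 = D.1 := by decide
  have h0 := slotsk_nb (c := c) hc.three (i - 1)
  have h1 := slotsk_nb (c := c) hc.three i
  have h2 := slotsk_nb (c := c) hc.three (i + 1)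
  have v0 := hc.ver (i - 1)
  have v1 := hc.ver i
  have v2 := hc.ver (i + 1)
  have v3 := hc.ver (i + 2)
  have e1 : i - 1 + 1 = i := by ring
  have e2 : i + 1 + 1 = i + 2 := by ring
  have e3 : i - 1 + 2 = i + 1 := by ring
  have e4 : i + 1 - 1 = i := by ring
  have e5 : i + 1 - 2 = i - 1 := by ring
  have e6 : i + 2 - 1 = i + 1 := by ring
  have e7 : i + 2 - 2 = i := by ring
  rw [e1] at h0 v0
  rw [e2] at h2
  rw [e3] at v0
  rw [e2, e4, e5] at v2
  rw [e6, e7] at v3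
  refine ⟨fun h => h1 h.symm, fun h => ?_, h2, ?_, ?_, ?_, ?_⟩
  · rw [hnn] at h
    exact h0 h.symm
  · rw [hn1, hn1]
    intro h
    obtain ⟨a1, a2, a3, a4⟩ := v1 h
    exact ⟨a1, a2, a3⟩
  · rw [hn1]
    intro h
    obtain ⟨a1, a2, a3, a4⟩ := v2 h
    exact ⟨a3, by rw [a4], a1⟩
  · rw [hn1, hn1, hnn]
    intro h
    obtain ⟨a1, a2, a3, a4⟩ := v0 h
    exact ⟨a1, a2⟩
  · intro h
    obtain ⟨a1, a2, a3, a4⟩ := v3 h
    exact ⟨a3, by rw [a4]⟩

theorem slotsk_base_npc (hc : GoodCurve c) (i : ZMod m) :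
    ¬ pc c.K (c.v i, slotsk_sF (c.dir (i + 1)) (c.dir i) (c.dir (i - 1)).neg) := by
  obtain ⟨-, -, -, -, h, -⟩ := slotsk_chk _ _ _ _ (slotsk_cfg hc (i - 1))
  have := slotsk_kn_spec hc.three (i - 1) _ _ h
  have e1 : i - 1 + 1 = i := by ring
  have e3 : i - 1 + 2 = i + 1 := by ring
  rw [e1, e3] at this
  simpa using this

noncomputable def slotsk_xb (hc : GoodCurve c) (i : ZMod m) : {x : LF // ¬ pc c.K x} :=
  ⟨(c.v i, slotsk_sF (c.dir (i + 1)) (c.dir i) (c.dir (i - 1)).neg), slotsk_base_npc hc i⟩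

theorem slotsk_a_xb (hc : GoodCurve c) (i : ZMod m) : ((EK c.K).a (slotsk_xb hc i)).1 =
    (c.v (i + 1), slotsk_sF (c.dir (i - 1)).neg (c.dir i).neg (c.dir (i + 1))) := by
  rw [EK_a]
  show l3a (c.v i, slotsk_sF (c.dir (i + 1)) (c.dir i) (c.dir (i - 1)).neg) = _
  rw [slotsk_l3a, slotsk_fa_sF, slotsk_sF_1, ← c.step]

theorem slotsk_vd {K : Finset LE} (x : {x : LF // ¬ pc K x}) :
    ((EK K).d x).1.1 = x.1.1 ∧ d1 ((EK K).d x).1 = d1 x.1 := by
  have := EK_CD.1 (TMap.CD.d (EK K) x)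
  exact ⟨this.1.symm, this.2.symm⟩

theorem slotsk_vdp {K : Finset LE} (t : F2) (x : {x : LF // ¬ pc K x}) :
    (slotsk_dp (EK K) t x).1.1 = x.1.1 ∧ d1 (slotsk_dp (EK K) t x).1 = d1 x.1 := by
  unfold slotsk_dp
  split_ifs
  · exact ⟨rfl, rfl⟩
  · exact slotsk_vd x

theorem slotsk_v0 (hc : GoodCurve c) (i : ZMod m) (s : F2) :
    (slotsk_σ (EK c.K) (slotsk_xb hc) i 0 s).1.1 = c.v i ∧
    d1 (slotsk_σ (EK c.K) (slotsk_xb hc) i 0 s).1 = c.dir i := by
  unfold slotsk_σ
  have := slotsk_vdp ((EK c.K).sg (slotsk_xb hc i) + s) (slotsk_ap (EK c.K) 0 (slotsk_xb hc i))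
  rw [this.1, this.2]
  simp only [slotsk_ap, if_true]
  exact ⟨rfl, slotsk_sF_1 _ _ _⟩

theorem slotsk_v1 (hc : GoodCurve c) (i : ZMod m) (s : F2) :
    (slotsk_σ (EK c.K) (slotsk_xb hc) i 1 s).1.1 = c.v (i + 1) ∧
    d1 (slotsk_σ (EK c.K) (slotsk_xb hc) i 1 s).1 = (c.dir i).neg := by
  unfold slotsk_σ
  have := slotsk_vdp ((EK c.K).sg (slotsk_xb hc i) + s) (slotsk_ap (EK c.K) 1 (slotsk_xb hc i))
  rw [this.1, this.2]
  have h1 : slotsk_ap (EK c.K) 1 (slotsk_xb hc i) = (EK c.K).a (slotsk_xb hc i) := by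
    simp [slotsk_ap]
  rw [h1, slotsk_a_xb]
  exact ⟨rfl, slotsk_sF_1 _ _ _⟩

theorem slotsk_sub {x y : {x : LF // ¬ pc c.K x}} (h : x.1 = y.1) : x = y := Subtype.ext h

theorem slotsk_nx_orb (h3 : 3 ≤ m) (i : ZMod m) {f g : Frm}
    (hf : ¬ pc c.K (c.v (i + 1), f)) (hg : ¬ pc c.K (c.v (i + 1), g))
    (h : slotsk_nx (c.dir (i - 1)).neg (c.dir i).neg (c.dir (i + 1)) (c.dir (i + 2)) f g) :
    SameOrb [(EK c.K).b, (EK c.K).d] ⟨(c.v (i + 1), f), hf⟩ ⟨(c.v (i + 1), g), hg⟩ := by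
  rcases h with h | h | h
  · refine Relation.EqvGen.rel _ _ ⟨(EK c.K).b, by simp, ?_⟩
    apply Subtype.ext
    rw [EK_b]
    show (c.v (i + 1), slotsk_fb f) = (c.v (i + 1), g)
    rw [h]
  · refine Relation.EqvGen.rel _ _ ⟨(EK c.K).d, by simp, ?_⟩
    apply Subtype.ext
    rw [slotsk_dl_spec h3 i f g _ rfl h]
  · refine Relation.EqvGen.symm _ _ (Relation.EqvGen.rel _ _ ⟨(EK c.K).d, by simp, ?_⟩)
    apply Subtype.ext
    rw [slotsk_dl_spec h3 i g f _ rfl h]

theorem slotsk_chain_orb (h3 : 3 ≤ m) (i : ZMod m) : ∀ (l : List Frm)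
    (_ : List.IsChain (slotsk_nx (c.dir (i - 1)).neg (c.dir i).neg (c.dir (i + 1))
      (c.dir (i + 2))) l) (hn : ∀ f ∈ l, ¬ pc c.K (c.v (i + 1), f)),
    ∀ f (hf : f ∈ l) g (hg : g ∈ l), SameOrb [(EK c.K).b, (EK c.K).d]
      ⟨(c.v (i + 1), f), hn f hf⟩ ⟨(c.v (i + 1), g), hn g hg⟩ := by
  intro l
  induction l with
  | nil => intro _ _ f hf; simp at hf
  | cons a l ih =>
    intro hch hn
    have key : ∀ g (hg : g ∈ a :: l), SameOrb [(EK c.K).b, (EK c.K).d]
        ⟨(c.v (i + 1), a), hn a (by simp)⟩ ⟨(c.v (i + 1), g), hn g hg⟩ := by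
      intro g hg
      cases l with
      | nil =>
        have : g = a := by simpa using hg
        subst this
        exact Relation.EqvGen.refl _
      | cons b l =>
        rw [List.isChain_cons_cons] at hch
        rcases List.mem_cons.1 hg with h | h
        · subst h
          exact Relation.EqvGen.refl _
        · have s1 := slotsk_nx_orb h3 i (hn a (by simp)) (hn b (by simp)) hch.1
          have s2 := ih hch.2 (fun f hf => hn f (List.mem_cons_of_mem _ hf)) b (by simp) g h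
          exact Relation.EqvGen.trans _ _ _ s1 s2
    intro f hf g hg
    exact Relation.EqvGen.trans _ _ _ (Relation.EqvGen.symm _ _ (key f hf)) (key g hg)

theorem slotsk_corner (hc : GoodCurve c) (i : ZMod m) :
    slotsk_Corner (EK c.K) (slotsk_σ (EK c.K) (slotsk_xb hc) i 1)
      (slotsk_σ (EK c.K) (slotsk_xb hc) (i + 1) 0)
      {x | x.1.1 = c.v (i + 1) ∧ x.1.2 ∈
        slotsk_LL (c.dir (i - 1)).neg (c.dir i).neg (c.dir (i + 1)) (c.dir (i + 2))} := by
  obtain ⟨h1, h2, h3, h4, h5, xA, hA, xB, hB, a1, a2, a3, a4, a5, a6, a7, a8⟩ :=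
    slotsk_chk _ _ _ _ (slotsk_cfg hc i)
  have hm := hc.three
  have hn : ∀ f ∈ slotsk_LL (c.dir (i - 1)).neg (c.dir i).neg (c.dir (i + 1)) (c.dir (i + 2)),
      ¬ pc c.K (c.v (i + 1), f) := by
    intro f hf
    have := slotsk_kn_spec hm i f _ (h1 f hf)
    simpa using this
  have hF2 : ∀ s t : F2, s + (s + t) = t := by decide
  -- the two ends
  have eA : ∃ s, slotsk_σ (EK c.K) (slotsk_xb hc) i 1 s = ⟨(c.v (i + 1), xA), hn xA hA⟩ := by
    have q : slotsk_ap (EK c.K) 1 (slotsk_xb hc i) = (EK c.K).a (slotsk_xb hc i) := by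
      simp [slotsk_ap]
    rcases a5 with h | h
    · refine ⟨(EK c.K).sg (slotsk_xb hc i) + 0, ?_⟩
      unfold slotsk_σ
      rw [hF2, q, slotsk_dp, if_pos rfl]
      apply Subtype.ext
      rw [slotsk_a_xb]
      show _ = (c.v (i + 1), xA)
      rw [h]
    · refine ⟨(EK c.K).sg (slotsk_xb hc i) + 1, ?_⟩
      unfold slotsk_σ
      rw [hF2, q, slotsk_dp, if_neg (by decide)]
      apply Subtype.ext
      rw [slotsk_dl_spec hm i _ _ _ (slotsk_a_xb hc i) h]
  have ei1 : i + 1 + 1 = i + 2 := by ring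
  have ei2 : i + 1 - 1 = i := by ring
  have qB : (slotsk_xb hc (i + 1)).1 =
      (c.v (i + 1), slotsk_sF (c.dir (i + 2)) (c.dir (i + 1)) (c.dir i).neg) := by
    show (c.v (i + 1), slotsk_sF (c.dir (i + 1 + 1)) (c.dir (i + 1)) (c.dir (i + 1 - 1)).neg) = _
    rw [ei1, ei2]
  have eB : ∃ s, slotsk_σ (EK c.K) (slotsk_xb hc) (i + 1) 0 s =
      ⟨(c.v (i + 1), xB), hn xB hB⟩ := by
    have q : slotsk_ap (EK c.K) 0 (slotsk_xb hc (i + 1)) = slotsk_xb hc (i + 1) := by
      simp [slotsk_ap]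
    rcases a6 with h | h
    · refine ⟨(EK c.K).sg (slotsk_xb hc (i + 1)) + 0, ?_⟩
      unfold slotsk_σ
      rw [hF2, q, slotsk_dp, if_pos rfl]
      apply Subtype.ext
      rw [qB]
      show _ = (c.v (i + 1), xB)
      rw [h]
    · refine ⟨(EK c.K).sg (slotsk_xb hc (i + 1)) + 1, ?_⟩
      unfold slotsk_σ
      rw [hF2, q, slotsk_dp, if_neg (by decide)]
      apply Subtype.ext
      rw [slotsk_dl_spec hm i _ _ _ qB h]
  obtain ⟨s, hs⟩ := eA
  obtain ⟨s', hs'⟩ := eB
  have hsg : ∀ f (hf : ¬ pc c.K (c.v (i + 1), f)),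
      (EK c.K).sg ⟨(c.v (i + 1), f), hf⟩ = sgF f := fun _ _ => rfl
  have g1 : (1 : F2) + s = sgF xA := by
    rw [← slotsk_σsg (EK c.K) (slotsk_xb hc) i 1 s, hs]
    rfl
  have g2 : (0 : F2) + s' = sgF xB := by
    rw [← slotsk_σsg (EK c.K) (slotsk_xb hc) (i + 1) 0 s', hs']
    rfl
  have hss : s' = s := by
    rw [a8, ← g1] at g2
    revert g2
    clear * -
    revert s s'
    decide
  subst hss
  -- the other slots are not in the set
  have nA : slotsk_σ (EK c.K) (slotsk_xb hc) i 1 (s' + 1) ∉ {x : {x : LF // ¬ pc c.K x} |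
      x.1.1 = c.v (i + 1) ∧ x.1.2 ∈
        slotsk_LL (c.dir (i - 1)).neg (c.dir i).neg (c.dir (i + 1)) (c.dir (i + 2))} := by
    intro h
    have q1 := (slotsk_v1 hc i (s' + 1)).2
    have q2 := a3 _ h.2 q1
    have q3 : slotsk_σ (EK c.K) (slotsk_xb hc) i 1 (s' + 1) =
        slotsk_σ (EK c.K) (slotsk_xb hc) i 1 s' := by
      rw [hs]
      exact Subtype.ext (Prod.ext h.1 q2)
    rw [← slotsk_σd] at q3
    exact TMap.d_ne _ _ q3
  have nB : slotsk_σ (EK c.K) (slotsk_xb hc) (i + 1) 0 (s' + 1) ∉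
      {x : {x : LF // ¬ pc c.K x} | x.1.1 = c.v (i + 1) ∧ x.1.2 ∈
        slotsk_LL (c.dir (i - 1)).neg (c.dir i).neg (c.dir (i + 1)) (c.dir (i + 2))} := by
    intro h
    have q1 := (slotsk_v0 hc (i + 1) (s' + 1)).2
    have q2 := a4 _ h.2 q1
    have q3 : slotsk_σ (EK c.K) (slotsk_xb hc) (i + 1) 0 (s' + 1) =
        slotsk_σ (EK c.K) (slotsk_xb hc) (i + 1) 0 s' := by
      rw [hs']
      exact Subtype.ext (Prod.ext h.1 q2)
    rw [← slotsk_σd] at q3
    exact TMap.d_ne _ _ q3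
  refine ⟨⟨s', ?_, nA, ?_, nB, ?_⟩, ?_, ?_⟩
  · rw [hs]; exact ⟨rfl, hA⟩
  · rw [hs']; exact ⟨rfl, hB⟩
  · rw [hs, hs']
    exact slotsk_chain_orb hm i _ h3 hn xA hA xB hB
  · rintro ⟨⟨v, f⟩, hf⟩ ⟨rfl, hx⟩
    show ((EK c.K).b _).1.1 = c.v (i + 1) ∧ ((EK c.K).b _).1.2 ∈ _
    rw [EK_b]
    exact ⟨rfl, h2 f hx⟩
  · rintro ⟨⟨v, f⟩, hf⟩ ⟨rfl, hx⟩ hne
    rcases a7 f hx with h | h | h
    · subst h
      exact absurd hs.symm (hne s').1
    · subst h
      exact absurd hs'.symm (hne s').2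
    · rw [Option.any_eq_true] at h
      obtain ⟨g, hg, hg2⟩ := h
      show ((EK c.K).d _).1.1 = c.v (i + 1) ∧ ((EK c.K).d _).1.2 ∈ _
      rw [slotsk_dl_spec hm i f g _ rfl hg]
      exact ⟨rfl, by simpa using hg2⟩

end vertex

/-- The slots are at the edges of the curve, in the sector of the negative directions. -/
structure SlotsAt {m : ℕ} [NeZero m] (c : Curve m) (A : Slots (EK c.K) m) : Prop where
  v0 : ∀ i s, (A.σ i 0 s).1.1 = c.v i
  v1 : ∀ i s, (A.σ i 1 s).1.1 = c.v (i + 1)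
  dir0 : ∀ i s, d1 (A.σ i 0 s).1 = c.dir i
  dir1 : ∀ i s, d1 (A.σ i 1 s).1 = (c.dir i).neg
  low0 : ∀ i, (c.dir i).2 = true → ∃ s, (d2 (A.σ i 0 s).1).2 = false ∧ (d3 (A.σ i 0 s).1).2 = false
  low1 : ∀ i, (c.dir i).2 = false →
    ∃ s, (d2 (A.σ i 1 s).1).2 = false ∧ (d3 (A.σ i 1 s).1).2 = false

theorem exists_slots {m : ℕ} [NeZero m] {c : Curve m} (hc : GoodCurve c) :
    ∃ A : Slots (EK c.K) m, SlotsAt c A := by
  have hinj : ∀ i ε s i' ε' s', slotsk_σ (EK c.K) (slotsk_xb hc) i ε s =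
      slotsk_σ (EK c.K) (slotsk_xb hc) i' ε' s' → i = i' ∧ ε = ε' := by
    have key : ∀ i s i' s', slotsk_σ (EK c.K) (slotsk_xb hc) i 0 s ≠
        slotsk_σ (EK c.K) (slotsk_xb hc) i' 1 s' := by
      intro i s i' s' h
      have h1 := (slotsk_v0 hc i s).1
      have h2 := (slotsk_v1 hc i' s').1
      have h3 := (slotsk_v0 hc i s).2
      have h4 := (slotsk_v1 hc i' s').2
      rw [h] at h1 h3
      have h5 : i = i' + 1 := c.inj (h1.symm.trans h2)
      subst h5
      exact slotsk_nb hc.three i' (h3.symm.trans h4)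
    intro i ε s i' ε' s' h
    rcases slotsk_F2 ε with rfl | rfl <;> rcases slotsk_F2 ε' with rfl | rfl
    · refine ⟨c.inj ?_, rfl⟩
      rw [← (slotsk_v0 hc i s).1, h, (slotsk_v0 hc i' s').1]
    · exact absurd h (key _ _ _ _)
    · exact absurd h.symm (key _ _ _ _)
    · have h1 : c.v (i + 1) = c.v (i' + 1) := by
        rw [← (slotsk_v1 hc i s).1, h, (slotsk_v1 hc i' s').1]
      exact ⟨add_right_cancel (c.inj h1), rfl⟩
  obtain ⟨A, hA⟩ := slotsk_build (EK c.K) (fun x => x.1.1) c.v c.inj (slotsk_xb hc) hinj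
    (fun i s => (slotsk_v0 hc i s).1) (fun i s => (slotsk_v1 hc i s).1)
    (fun i => {x | x.1.1 = c.v (i + 1) ∧ x.1.2 ∈
        slotsk_LL (c.dir (i - 1)).neg (c.dir i).neg (c.dir (i + 1)) (c.dir (i + 2))})
    (fun i x hx => hx.1) (slotsk_corner hc)
  have hF2 : ∀ s : F2, s + s = 0 := by decide
  refine ⟨A, ?_, ?_, ?_, ?_, ?_, ?_⟩
  · rw [hA]; exact fun i s => (slotsk_v0 hc i s).1
  · rw [hA]; exact fun i s => (slotsk_v1 hc i s).1
  · rw [hA]; exact fun i s => (slotsk_v0 hc i s).2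
  · rw [hA]; exact fun i s => (slotsk_v1 hc i s).2
  · rw [hA]
    intro i _
    refine ⟨(EK c.K).sg (slotsk_xb hc i), ?_⟩
    have : slotsk_σ (EK c.K) (slotsk_xb hc) i 0 ((EK c.K).sg (slotsk_xb hc i)) =
        slotsk_xb hc i := by
      unfold slotsk_σ slotsk_dp slotsk_ap
      rw [hF2]; simp
    rw [this]
    exact slotsk_sF_2 _ _ _
  · rw [hA]
    intro i _
    refine ⟨(EK c.K).sg (slotsk_xb hc i), ?_⟩
    have : slotsk_σ (EK c.K) (slotsk_xb hc) i 1 ((EK c.K).sg (slotsk_xb hc i)) =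
        (EK c.K).a (slotsk_xb hc i) := by
      unfold slotsk_σ slotsk_dp slotsk_ap
      rw [hF2]; simp
    rw [this, slotsk_a_xb]
    exact slotsk_sF_2 _ _ _

end Pool.Agent.Lib.MP_131179_gt.Dehn
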