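import Pool.Agent.Lib.MP_131179_gt.Dehn.TheoremA
import Pool.Agent.Lib.MP_131179_gt.Dehn.SlotsK
import Pool.Agent.Lib.MP_131179_gt.Dehn.FineLink
import Pool.Agent.Lib.MP_131179_gt.Dehn.Kinks
import Pool.Agent.Lib.MP_131179_gt.Dehn.Abel
import Pool.Agent.Lib.MP_131179_gt.Dehn.Lam

/-!
# Dehn's lemma for a knot without nonabelian labellings
-/

set_option autoImplicit false

namespace Pool.Agent.Lib.MP_131179_gt.Dehn

/-- Iteration along the new face, first kind of flags. -/
theorem main1_iter0 {Φ : Type} {E : TMap Φ} {m : ℕ} [NeZero m] (A : Slots E m) (i : ZMod m)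
    (s : F2) (j : ℕ) : (fun y => A.attach.b (A.attach.a y))^[j] (.inr (i, 0, s)) =
      .inr (i + (j : ZMod m), 0, s) := by
  induction j with
  | zero =>
    rw [Nat.cast_zero, add_zero]
    rfl
  | succ j ih =>
    rw [Function.iterate_succ_apply', ih, Nat.cast_succ, ← add_assoc]
    rfl

/-- Iteration along the new face, second kind of flags. -/
theorem main1_iter1 {Φ : Type} {E : TMap Φ} {m : ℕ} [NeZero m] (A : Slots E m) (i : ZMod m)
    (s : F2) (j : ℕ) : (fun y => A.attach.b (A.attach.a y))^[j] (.inr (i, 1, s)) =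
      .inr (i - (j : ZMod m), 1, s) := by
  induction j with
  | zero =>
    rw [Nat.cast_zero, sub_zero]
    rfl
  | succ j ih =>
    rw [Function.iterate_succ_apply', ih, Nat.cast_succ, ← sub_sub]
    rfl

theorem main1_cast {m : ℕ} [NeZero m] {j : ℕ} (hj : 0 < j) (hjm : j < m) : (j : ZMod m) ≠ 0 := by
  intro h
  rw [ZMod.natCast_eq_zero_iff] at h
  exact absurd (Nat.le_of_dvd hj h) (by omega)

theorem main1_face {Φ : Type} {E : TMap Φ} {m : ℕ} [NeZero m] (A : Slots E m)
    (q : ZMod m × F2 × F2) : A.attach.FaceSize (.inr q) m := by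
  obtain ⟨i, ε, s⟩ := q
  rcases attach_F2 ε with rfl | rfl
  · refine ⟨Nat.pos_of_ne_zero (NeZero.ne m), ?_, ?_⟩
    · rw [main1_iter0, ZMod.natCast_self, add_zero]
    · intro j hj hjm h
      rw [main1_iter0] at h
      have h1 : (i + (j : ZMod m), (0 : F2), s) = (i, 0, s) := Sum.inr_injective h
      have h2 : i + (j : ZMod m) = i := congrArg Prod.fst h1
      exact main1_cast hj hjm (by simpa using h2)
  · refine ⟨Nat.pos_of_ne_zero (NeZero.ne m), ?_, ?_⟩
    · rw [main1_iter1, ZMod.natCast_self, sub_zero]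
    · intro j hj hjm h
      rw [main1_iter1] at h
      have h1 : (i - (j : ZMod m), (1 : F2), s) = (i, 1, s) := Sum.inr_injective h
      have h2 : i - (j : ZMod m) = i := congrArg Prod.fst h1
      exact main1_cast hj hjm (by simpa using h2)

/-- A knot without nonabelian labellings can be represented by a curve in the lattice such that the
second curve bounds an embedded disc: there is an embedded sphere which passes exactly once over the
attached face. -/
theorem exists_good {L : Link} (h1 : ¬ AtLeastTwoComponents L) (h2 : ¬ HasNonabelianLabelling L)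
    (h3 : L ≠ emptyLink) :
    ∃ (m : ℕ) (_ : NeZero m) (c : Curve m) (A : Slots (EK c.K) m), GoodCurve c ∧ SlotsAt c A ∧
      (∀ N : ℕ, 2 ≤ N → IsLink (fineK N c.K) L) ∧ GoodSphere A.attach Slots.h0 := by
  obtain ⟨⟨w, hw⟩, hwL⟩ := Quotient.exists_rep L
  have hne : w ≠ [] := by
    rintro rfl
    exact h3 hwL.symm
  have hdw : IsDiag w L := ⟨hw, hwL.symm⟩
  obtain ⟨w', hw0, heqv, W, hW, hWp, hwri⟩ := exists_kinks hw hne
  have hd' : IsDiag w' L := isDiag_of_eqv heqv hdw
  have hp' : Path (triv Unit) w' [] [] := heqv.left.2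
  obtain ⟨hrun, hfin⟩ := run_ke hp'
  have hnice := nice_ke hp'
  have hrow : row ([] : List Unit).length = ∅ := rfl
  rw [hrow] at hrun hfin hnice
  have h0' : ([] : List Unit).length = 0 := rfl
  rw [h0'] at hrun hfin hnice
  set es := ke w' 0 with hes
  have h0 : fin ∅ es = ∅ := hfin
  have hd : IsDiag (run1 ∅ es) L := by rw [hrun]; exact hd'
  have hesne : es ≠ [] := by
    intro h
    rw [h] at hrun
    exact hw0 hrun.symm
  have hKne : (Kc es).Nonempty := by
    cases hes' : es with
    | nil => exact absurd hes' hesne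
    | cons e l =>
      refine ⟨toLE (2 * ((0 : ℕ) : ℤ), e), ?_⟩
      rw [coarse_mem_hor]
      exact ⟨0, rfl, rfl⟩
  obtain ⟨m, inst, c, hm3, hcK⟩ := exists_curve (valid_Kc h0) hKne (conn_Kc h1 h0 hd)
  have hgood : GoodCurve c := goodCurve_Kc hnice h0 hm3 hcK
  obtain ⟨A, hA⟩ := exists_slots hgood
  refine ⟨m, inst, c, A, hgood, hA, ?_, ?_⟩
  · intro N hN
    rw [hcK]
    exact isLink_fine hnice h0 hN hd
  · obtain ⟨Γ, instΓ, gx, gy, hrel, hnull⟩ := exists_piRel (K := c.K) (by
      rw [hcK]; exact oneH_Kc es)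
    have hrel' : PiRel (Kc es) gx gy := by rw [← hcK]; exact hrel
    have hε := orRule_eps hm3 h0 hcK
    obtain ⟨t, ht⟩ := exists_t h1 h2 hnice h0 hd hrel' hε
    have hEn : En es c.eps = 0 := by
      have e1 : En es c.eps = wri (runL (fl c.eps) 0 ∅ es) [] := en_ke hp' hε
      have e2 : wmap (fun _ => ()) (runL (fl c.eps) 0 ∅ es) = wmap (fun _ => ()) W := by
        rw [erase_runL, hrun, hW]
      have e3 := wri_unique h1 (path_flip h0 hε) hWp e2 (by
        rw [erase_runL]; exact hd)
      rw [e1, e3, hwri]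
    have hprod := prod_lel hm3 hnice h0 hcK hrel' ht
    rw [hEn, zpow_zero] at hprod
    obtain ⟨u, hact, hsh, hev⟩ := A.exists_walk
    have hev1 := hev Γ instΓ (fun x => lel gx gy x.1.1 (d1 x.1))
    simp only [hA.v0, hA.dir0] at hev1
    have hmap : ∀ (f : ZMod m → Γ) (l : List ℕ),
        (List.map f (l >>= fun a => pure ((a : ℕ) : ZMod m))) = l.map fun j : ℕ => f (j : ZMod m) := by
      intro f l
      induction l with
      | nil => rfl
      | cons a l ih =>
        show List.map f (((a : ℕ) : ZMod m) :: (l >>= fun a => pure ((a : ℕ) : ZMod m))) = _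
        rw [List.map_cons, ih, List.map_cons]
    rw [hmap, hprod] at hev1
    obtain ⟨S, N, hN⟩ := hnull (A.σ 0 0 0) u hact hev1
    obtain ⟨S', hS'⟩ := A.null_inl hN
    refine good_of_null A.attach Slots.h0 A.isSub_inl A.faceSize_h hsh hS' ?_
    rintro (x | q)
    · exact ⟨4, A.faceSize_inl (EK_faceSize c.K x)⟩
    · exact ⟨m, main1_face A q⟩

end Pool.Agent.Lib.MP_131179_gt.Dehn
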