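import Pool.Agent.Lib.MP_131179_gt.Dehn.Shell
import Pool.Agent.Lib.MP_131179_gt.Dehn.Box
import Pool.Agent.Lib.MP_131179_gt.Dehn.SqMove

/-!
# Spheres in the lattice

The vertices of a cell decomposition are points of the lattice, the edges are paths, and each cell
(except the cell `h`) is contained in a box: its boundary is on the boundary of the box, and no
edge meets the interior of the box.
-/

set_option autoImplicit false

namespace Pool.Agent.Lib.MP_131179_gt.Dehn

/-! ### Closed walks -/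

section Walks

variable {Z Y : Type} {e0 e1 : Y → Z}

theorem realz_walk_append (w : List (Z × Y)) (a : Z × Y) (w' : List (Z × Y)) (z : Z) :
    Walk e0 e1 (w ++ a :: w') z ↔ Walk e0 e1 w a.1 ∧ Walk e0 e1 (a :: w') z := by
  induction w with
  | nil => simp [Walk]
  | cons b w ih =>
    cases w with
    | nil => simp [Walk]
    | cons b' w =>
      simp only [List.cons_append, Walk] at ih ⊢
      rw [ih, and_assoc]

/-- A closed walk. -/
def RClosed (e0 e1 : Y → Z) (w : List (Z × Y)) : Prop :=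
  ∀ a l, w = a :: l → Walk e0 e1 (a :: l) a.1

theorem realz_rclosed_rot {a : Z × Y} {l : List (Z × Y)} (h : RClosed e0 e1 (a :: l)) :
    RClosed e0 e1 (l ++ [a]) := by
  have h1 := h a l rfl
  intro b m hbm
  rw [← hbm]
  cases l with
  | nil =>
    simp only [List.nil_append, List.cons.injEq] at hbm
    rw [← hbm.1]; exact h1
  | cons c l =>
    simp only [List.cons_append, List.cons.injEq] at hbm
    obtain ⟨rfl, -⟩ := hbm
    rw [realz_walk_append]
    exact ⟨h1.2, h1.1⟩

theorem realz_rclosed_rotate {w : List (Z × Y)} (h : RClosed e0 e1 w) (n : ℕ) :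
    RClosed e0 e1 (w.rotate n) := by
  induction n generalizing w with
  | zero => simpa using h
  | succ n ih =>
    cases w with
    | nil => simpa using h
    | cons a l =>
      rw [List.rotate_cons_succ]
      exact ih (realz_rclosed_rot h)

theorem realz_rclosed_rotated {w w' : List (Z × Y)} (h : RClosed e0 e1 w) (hr : w.IsRotated w') :
    RClosed e0 e1 w' := by
  obtain ⟨n, rfl⟩ := hr
  exact realz_rclosed_rotate h n

theorem realz_walk_end {w : List (Z × Y)} {z : Z} (h : Walk e0 e1 w z) {a : Z × Y} (ha : a ∈ w) :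
    ∃ z' ∈ w.map Prod.fst ++ [z], Joins e0 e1 a.2 a.1 z' := by
  induction w with
  | nil => simp at ha
  | cons b w ih =>
    cases w with
    | nil =>
      simp only [List.mem_cons, List.not_mem_nil, or_false] at ha
      subst ha
      exact ⟨z, by simp, h⟩
    | cons c w =>
      rcases List.mem_cons.1 ha with rfl | ha
      · exact ⟨c.1, by simp, h.1⟩
      · obtain ⟨z', hz', hj⟩ := ih h.2 ha
        exact ⟨z', by rw [List.map_cons, List.cons_append]; exact List.mem_cons_of_mem _ hz', hj⟩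

theorem realz_walk_ends {w : List (Z × Y)} {z : Z} (h : Walk e0 e1 w z) {a : Z × Y} (ha : a ∈ w)
    {v : Z} (hv : v = e0 a.2 ∨ v = e1 a.2) : v ∈ w.map Prod.fst ++ [z] := by
  obtain ⟨z', hz', hj⟩ := realz_walk_end h ha
  have h1 : a.1 ∈ w.map Prod.fst ++ [z] :=
    List.mem_append_left _ (List.mem_map_of_mem ha)
  rcases hj with ⟨h2, h3⟩ | ⟨h2, h3⟩ <;> rcases hv with rfl | rfl
  · rw [h2]; exact h1
  · rw [h3]; exact hz'
  · rw [h2]; exact hz'
  · rw [h3]; exact h1

end Walks

/-! ### Degrees of simple paths -/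

theorem realz_adj_ne {p q : P3} (h : Adj p q) : p ≠ q := by
  rintro rfl
  obtain ⟨i, hi | hi⟩ := h <;> fin_cases i <;> simp [e3, Prod.ext_iff] at hi

theorem realz_deg_insert {K : Finset LE} {e : LE} (he : e ∉ K) (x : P3) :
    deg (insert e K) x = deg K x + (if Inc e x then 1 else 0) := by
  unfold deg
  rw [Finset.filter_insert]
  split_ifs with h
  · rw [Finset.card_insert_of_notMem]
    intro h2
    exact he (Finset.mem_filter.1 h2).1
  · rfl

theorem realz_deg_zero {K : Finset LE} {x : P3} (h : ¬ On K x) : deg K x = 0 := by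
  unfold deg
  rw [Finset.card_eq_zero, Finset.filter_eq_empty_iff]
  intro e he h2
  exact h ⟨e, he, h2⟩

theorem realz_on_mem {l : List P3} (h : l.IsChain Adj) {x : P3} (hx : On (pe l) x) : x ∈ l := by
  match l with
  | [] => obtain ⟨e, he, -⟩ := hx; simp [pe] at he
  | [a] => obtain ⟨e, he, -⟩ := hx; simp [pe] at he
  | a :: b :: l => exact (on_pe h (by simp)).1 hx

theorem realz_deg {l : List P3} (h : l.IsChain Adj) (hn : l.Nodup) {p q : P3}
    (hp : l.head? = some p) (hq : l.getLast? = some q) (hpq : p ≠ q) (x : P3) :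
    deg (pe l) x = if x ∈ l then (if x = p ∨ x = q then 1 else 2) else 0 := by
  induction l generalizing p with
  | nil => simp at hp
  | cons a l ih =>
    simp only [List.head?_cons, Option.some.injEq] at hp
    subst hp
    cases l with
    | nil =>
      simp at hq
      exact absurd hq hpq
    | cons b l =>
      rw [List.getLast?_cons_cons] at hq
      rw [List.isChain_cons_cons] at h
      obtain ⟨hab, hc⟩ := h
      rw [List.nodup_cons] at hn
      obtain ⟨ha, hn⟩ := hn
      have hne : leOf a b ∉ pe (b :: l) := by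
        intro h2
        exact ha (realz_on_mem hc ⟨_, h2, (inc_leOf hab).2 (Or.inl rfl)⟩)
      have hpe : pe (a :: b :: l) = insert (leOf a b) (pe (b :: l)) := rfl
      rw [hpe, realz_deg_insert hne]
      simp only [inc_leOf hab]
      by_cases hbq : b = q
      · -- l = []
        have hl : l = [] := by
          cases l with
          | nil => rfl
          | cons c l =>
            exfalso
            rw [List.getLast?_cons_cons] at hq
            rw [List.nodup_cons] at hn
            apply hn.1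
            rw [hbq]
            exact List.mem_of_getLast? hq
        subst hl
        subst hbq
        have h0 : deg (pe [b]) x = 0 := by simp [deg, pe]
        rw [h0]
        by_cases hxa : x = a
        · simp [hxa]
        · by_cases hxb : x = b
          · simp [hxb]
          · simp [hxa, hxb]
      · rw [ih hc hn (by simp) hq hbq]
        by_cases hxa : x = a
        · subst hxa
          simp [ha, hpq]
        · by_cases hxb : x = b
          · subst hxb
            simp [hxa, hbq]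
          · by_cases hxl : x ∈ l
            · by_cases hxq : x = q
              · subst hxq
                simp [hxa, hxb, hxl]
              · simp [hxa, hxb, hxl, hxq]
            · simp [hxa, hxb, hxl]

theorem realz_half {l : List P3} (h : l.IsChain Adj) (hn : l.Nodup) {p q : P3}
    (hp : l.head? = some p) (hq : l.getLast? = some q) (hpq : p ≠ q) : Half (pe l) p q := by
  have hd := realz_deg h hn hp hq hpq
  refine ⟨hpq, ?_, ?_, ?_⟩
  · rw [hd]; simp [List.mem_of_head? hp]
  · rw [hd]; simp [List.mem_of_getLast? hq]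
  · intro x hxp hxq
    rw [hd]
    split_ifs with h1 h2
    · rcases h2 with h2 | h2 <;> contradiction
    · right; rfl
    · left; rfl


/-! ### Arcs and squares -/

theorem realz_arc_reverse {R : Finset LE} {p q : P3} {l : List P3} (h : Arc R p q l) :
    Arc R q p l.reverse := by
  refine ⟨?_, List.nodup_reverse.2 h.nodup, ?_, ?_, ?_, ?_⟩
  · rw [List.isChain_reverse]
    exact h.chain.imp fun x y hxy => Adj.symm hxy
  · rw [List.head?_reverse]; exact h.last
  · rw [List.getLast?_reverse]; exact h.head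
  · intro x hx hxp hxq
    exact h.free x (by simpa using hx) hxq hxp
  · rw [pe_reverse h.chain]; exact h.disj

theorem realz_onBd_reverse {lo hi : P3} {l : List P3} (h : OnBd lo hi l) :
    OnBd lo hi l.reverse := by
  refine ⟨fun p hp => h.box p (by simpa using hp), fun p hp => h.bd p (by simpa using hp),
    fun p hp => h.edge p (by simpa using hp), ?_⟩
  rw [List.isChain_reverse]
  exact h.gen.imp fun x y hxy h2 => hxy ⟨h2.2, h2.1⟩

theorem realz_leOf_add (p : P3) (i : Fin 3) : leOf p (p + e3 i) = (p, i) := by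
  fin_cases i <;> simp [leOf, e3, Prod.ext_iff]

theorem realz_adj_add (p : P3) (i : Fin 3) : Adj p (p + e3 i) := ⟨i, Or.inl rfl⟩

theorem realz_leOf_add' (p : P3) (i : Fin 3) : leOf (p + e3 i) p = (p, i) := by
  rw [leOf_comm (realz_adj_add p i).symm, realz_leOf_add]

theorem realz_e3_add : ∀ a b c d : Fin 3, e3 a + e3 b = e3 c + e3 d →
    (a = c ∧ b = d) ∨ (a = d ∧ b = c) := by decide

theorem realz_s3 (p : P3) (i : Fin 3) :
    (p + e3 i).1 + (p + e3 i).2.1 + (p + e3 i).2.2 = p.1 + p.2.1 + p.2.2 + 1 := by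
  fin_cases i <;> simp [e3] <;> ring

theorem realz_sq_set (c : P3) (i j : Fin 3) (hij : i ≠ j) : ∃ i' j', i' < j' ∧
    ({(c, i), (c + e3 i, j), (c + e3 j, i), (c, j)} : Finset LE) = sqE c i' j' := by
  rcases lt_or_gt_of_ne hij with h | h
  · refine ⟨i, j, h, ?_⟩
    ext e
    simp only [sqE, Finset.mem_insert, Finset.mem_singleton]
    tauto
  · refine ⟨j, i, h, ?_⟩
    ext e
    simp only [sqE, Finset.mem_insert, Finset.mem_singleton]
    tauto

theorem realz_sq_edges (c : P3) (i j : Fin 3) : leOf c (c + e3 i) = (c, i) ∧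
    leOf (c + e3 i) (c + e3 i + e3 j) = (c + e3 i, j) ∧
    leOf (c + e3 i + e3 j) (c + e3 j) = (c + e3 j, i) ∧ leOf (c + e3 j) c = (c, j) := by
  refine ⟨realz_leOf_add _ _, realz_leOf_add _ _, ?_, realz_leOf_add' _ _⟩
  rw [add_right_comm]
  exact realz_leOf_add' _ _

theorem realz_sq_cases {p q q' p' : P3} (h : IsSq p q q' p') :
    ∃ (c : P3) (i j : Fin 3), i ≠ j ∧
      ((p = c ∧ q = c + e3 i ∧ q' = c + e3 i + e3 j ∧ p' = c + e3 j) ∨
      (q = c ∧ q' = c + e3 i ∧ p' = c + e3 i + e3 j ∧ p = c + e3 j) ∨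
      (q' = c ∧ p' = c + e3 i ∧ p = c + e3 i + e3 j ∧ q = c + e3 j) ∨
      (p' = c ∧ p = c + e3 i ∧ q = c + e3 i + e3 j ∧ q' = c + e3 j)) := by
  obtain ⟨⟨a, ha⟩, ⟨b, hb⟩, ⟨c, hc⟩, ⟨d, hd⟩, hne1, hne2⟩ := h
  have key : ∀ (x y : P3) (i : Fin 3), y = x + e3 i →
      y.1 + y.2.1 + y.2.2 = x.1 + x.2.1 + x.2.2 + 1 := by
    rintro x y i rfl
    exact realz_s3 x i
  rcases ha with ha | ha <;> rcases hb with hb | hb <;> rcases hc with hc | hc <;>
    rcases hd with hd | hd
  all_goals
    have sa := key _ _ _ ha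
    have sb := key _ _ _ hb
    have sc := key _ _ _ hc
    have sd := key _ _ _ hd
  all_goals try (exfalso; omega)
  all_goals clear sa sb sc sd key
  · -- q = p + a, q' = q + b, q' = p' + c, p' = p + d
    have h1 : e3 a + e3 b = e3 d + e3 c := by
      have : p + (e3 a + e3 b) = p + (e3 d + e3 c) := by
        rw [← add_assoc, ← add_assoc, ← ha, ← hb, ← hd, ← hc]
      exact add_left_cancel this
    rcases realz_e3_add _ _ _ _ h1 with ⟨rfl, rfl⟩ | ⟨rfl, rfl⟩
    · exact absurd (ha.trans hd.symm) hne2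
    · refine ⟨p, a, b, ?_, Or.inl ⟨rfl, ha, by rw [← ha, hb], hd⟩⟩
      rintro rfl
      exact hne2 (ha.trans hd.symm)
  · -- q = p + a, q = q' + b, p' = q' + c, p' = p + d
    exfalso
    have h1 : e3 a + e3 c = e3 b + e3 d := by
      linear_combination -ha + hb - hc + hd
    rcases realz_e3_add _ _ _ _ h1 with ⟨h2, h3⟩ | ⟨h2, h3⟩
    · apply hne1
      rw [ha, h2] at hb
      exact add_right_cancel hb
    · exact hne2 (by rw [ha, hd, h2])
  · -- q = p + a, q = q' + b, q' = p' + c, p = p' + d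
    have h1 : e3 d + e3 a = e3 c + e3 b := by
      linear_combination -ha + hb + hc - hd
    rcases realz_e3_add _ _ _ _ h1 with ⟨h2, h3⟩ | ⟨h2, h3⟩
    · exact absurd (by rw [hd, hc, h2]) hne1
    · refine ⟨p', d, a, ?_, Or.inr (Or.inr (Or.inr ⟨rfl, hd, by rw [← hd, ha], by rw [h3]; exact hc⟩))⟩
      intro h4
      apply hne1
      rw [hd, hc, h4, h3]
  · -- p = q + a, q' = q + b, p' = q' + c, p' = p + d
    have h1 : e3 b + e3 c = e3 a + e3 d := by
      linear_combination ha - hb - hc + hd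
    rcases realz_e3_add _ _ _ _ h1 with ⟨h2, h3⟩ | ⟨h2, h3⟩
    · exact absurd (by rw [ha, hb, h2]) hne1
    · refine ⟨q, b, c, ?_, Or.inr (Or.inl ⟨rfl, hb, by rw [← hb, hc], by rw [h3]; exact ha⟩)⟩
      intro h4
      apply hne1
      rw [ha, hb, h4, h3]
  · -- p = q + a, q' = q + b, q' = p' + c, p = p' + d
    exfalso
    have h1 : e3 a + e3 c = e3 b + e3 d := by
      linear_combination -ha + hb - hc + hd
    rcases realz_e3_add _ _ _ _ h1 with ⟨h2, h3⟩ | ⟨h2, h3⟩
    · exact hne1 (by rw [ha, hb, h2])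
    · apply hne2
      rw [ha, h2] at hd
      exact add_right_cancel hd
  · -- p = q + a, q = q' + b, p' = q' + c, p = p' + d
    have h1 : e3 c + e3 d = e3 b + e3 a := by
      linear_combination ha + hb - hc - hd
    rcases realz_e3_add _ _ _ _ h1 with ⟨h2, h3⟩ | ⟨h2, h3⟩
    · exact absurd (by rw [hb, hc, h2]) hne2
    · refine ⟨q', c, d, ?_, Or.inr (Or.inr (Or.inl ⟨rfl, hc, by rw [← hc, hd], by rw [h3]; exact hb⟩))⟩
      intro h4
      apply hne2
      rw [hb, hc, h4, h3]

theorem realz_square {p q q' p' : P3} (h : IsSq p q q' p') : ∃ (c : P3) (i j : Fin 3), i < j ∧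
    {leOf p q} ∪ pe [q, q', p', p] = sqE c i j := by
  have hset : ({leOf p q} ∪ pe [q, q', p', p] : Finset LE) =
      {leOf p q, leOf q q', leOf q' p', leOf p' p} := by
    ext e
    simp only [pe, Finset.mem_union, Finset.mem_insert, Finset.mem_singleton, Finset.notMem_empty]
    tauto
  rw [hset]
  obtain ⟨c, i, j, hij, hh⟩ := realz_sq_cases h
  obtain ⟨i', j', hlt, hs⟩ := realz_sq_set c i j hij
  refine ⟨c, i', j', hlt, ?_⟩
  rw [← hs]
  obtain ⟨h1, h2, h3, h4⟩ := realz_sq_edges c i j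
  rcases hh with ⟨rfl, rfl, rfl, rfl⟩ | ⟨rfl, rfl, rfl, rfl⟩ | ⟨rfl, rfl, rfl, rfl⟩ |
    ⟨rfl, rfl, rfl, rfl⟩ <;> rw [h1, h2, h3, h4] <;> ext e <;>
    simp only [Finset.mem_insert, Finset.mem_singleton] <;> tauto

variable {Z Y C : Type} [Fintype Y] [DecidableEq Y] [DecidableEq Z] [DecidableEq C]

/-- A realization of a cell decomposition in the lattice. -/
structure Realz (S : CellSphere Z Y C) (h : C) where
  pt : Z → P3
  path : Y → List P3
  lo : C → P3
  hi : C → P3
  inj : Function.Injective pt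
  len : ∀ y, 2 ≤ (path y).length
  chain : ∀ y, (path y).IsChain Adj
  nodup : ∀ y, (path y).Nodup
  head : ∀ y, (path y).head? = some (pt (S.e0 y))
  last : ∀ y, (path y).getLast? = some (pt (S.e1 y))
  /-- the interior points of a path are not on other paths -/
  disj : ∀ y y' x, x ∈ path y → x ∈ path y' → y ≠ y' → x = pt (S.e0 y) ∨ x = pt (S.e1 y)
  /-- different paths have no edges in common -/
  disj_e : ∀ y y', y ≠ y' → Disjoint (pe (path y)) (pe (path y'))
  /-- no vertex is an interior point of a path -/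
  disj_pt : ∀ y z, pt z ∈ path y → z = S.e0 y ∨ z = S.e1 y
  size : ∀ c i, co3 (lo c) i + 2 ≤ co3 (hi c) i
  bd : ∀ c y, c ≠ h → (S.s0 y = c ∨ S.s1 y = c) → OnBd (lo c) (hi c) (path y)
  empty : ∀ c y x, c ≠ h → x ∈ path y → ¬ InInt (lo c) (hi c) x

namespace Realz

variable {S : CellSphere Z Y C} {h : C} (r : Realz S h)

/-- The lattice link of a closed curve. -/
def link (g : Finset Y) : Finset LE := g.biUnion fun y => pe (r.path y)

/-! ### The path of a walk -/

/-- `L` is the path of the walk `w` from `z` to `z'`. -/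
structure IsCat (w : List (Z × Y)) (z z' : Z) (L : List P3) : Prop where
  chain : L.IsChain Adj
  nodup : L.Nodup
  head : L.head? = some (r.pt z)
  last : L.getLast? = some (r.pt z')
  mem : ∀ x, x ∈ L ↔ ∃ a ∈ w, x ∈ r.path a.2
  pe : ∀ e, e ∈ pe L ↔ ∃ a ∈ w, e ∈ pe (r.path a.2)
  gen : ∀ Q : P3 → P3 → Prop, (∀ x y, Q x y → Q y x) → (∀ a ∈ w, (r.path a.2).IsChain Q) →
    L.IsChain Q

theorem realz_chain_reverse {Q : P3 → P3 → Prop} (hQ : ∀ x y, Q x y → Q y x) {l : List P3}
    (hl : l.IsChain Q) : l.reverse.IsChain Q := by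
  rw [List.isChain_reverse]
  exact hl.imp fun x y hxy => hQ x y hxy

theorem isCat_one {y : Y} {z z' : Z} (hj : Joins S.e0 S.e1 y z z') :
    ∃ L, r.IsCat [(z, y)] z z' L := by
  rcases hj with ⟨rfl, rfl⟩ | ⟨rfl, rfl⟩
  · refine ⟨r.path y, r.chain y, r.nodup y, r.head y, r.last y, ?_, ?_, ?_⟩
    · intro x; simp
    · intro x; simp
    · intro Q _ hQ; exact hQ _ (List.mem_singleton_self _)
  · refine ⟨(r.path y).reverse, realz_chain_reverse (fun _ _ => Adj.symm) (r.chain y),
      List.nodup_reverse.2 (r.nodup y), ?_, ?_, ?_, ?_, ?_⟩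
    · rw [List.head?_reverse]; exact r.last y
    · rw [List.getLast?_reverse]; exact r.head y
    · intro x; simp
    · intro x; rw [pe_reverse (r.chain y)]; simp
    · intro Q hQ hQ2
      exact realz_chain_reverse hQ (hQ2 _ (List.mem_singleton_self _))

theorem isCat_cons {y : Y} {z z' z'' : Z} {w : List (Z × Y)} {L₁ L₂ : List P3}
    (h1 : r.IsCat [(z, y)] z z' L₁) (h2 : r.IsCat w z' z'' L₂)
    (hm : ∀ x, x ∈ L₁ → x ∈ L₂ → x = r.pt z') : ∃ L, r.IsCat ((z, y) :: w) z z'' L := by
  obtain ⟨A, hA⟩ : ∃ A, L₁ = A ++ [r.pt z'] := List.getLast?_eq_some_iff.1 h1.last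
  obtain ⟨B, hB⟩ : ∃ B, L₂ = r.pt z' :: B := List.head?_eq_some_iff.1 h2.head
  subst hA
  subst hB
  refine ⟨A ++ r.pt z' :: B, ?_, ?_, ?_, ?_, ?_, ?_, ?_⟩
  · rw [List.isChain_split]; exact ⟨h1.chain, h2.chain⟩
  · rw [List.nodup_append]
    refine ⟨(List.nodup_append.1 h1.nodup).1, h2.nodup, ?_⟩
    intro a ha b hb hab
    subst hab
    have h3 := hm a (by simp [ha]) hb
    have h4 := (List.nodup_append.1 h1.nodup).2.2 a ha (r.pt z') (by simp)
    exact h4 h3
  · have := h1.head
    cases A with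
    | nil => simpa using this
    | cons a A => simpa using this
  · rw [List.getLast?_append_of_ne_nil _ (by simp)]; exact h2.last
  · intro x
    have e1 := h1.mem x
    have e2 := h2.mem x
    simp only [List.mem_append, List.mem_cons, List.not_mem_nil, or_false, exists_eq_left] at e1 e2 ⊢
    rw [exists_eq_or_imp, ← e1, ← e2]
    tauto
  · intro e
    rw [pe_append, Finset.mem_union, h1.pe, h2.pe]
    simp
  · intro Q hQ hQ2
    rw [List.isChain_split]
    exact ⟨h1.gen Q hQ (fun a ha => hQ2 a (by simp at ha; simp [ha])),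
      h2.gen Q hQ (fun a ha => hQ2 a (by simp [ha]))⟩

theorem exists_isCat {w : List (Z × Y)} {a : Z × Y} {z' : Z} (hw : Walk S.e0 S.e1 (a :: w) z')
    (hz : ((a :: w).map Prod.fst ++ [z']).Nodup) (hy : ((a :: w).map Prod.snd).Nodup) :
    ∃ L, r.IsCat (a :: w) a.1 z' L := by
  induction w generalizing a with
  | nil => exact r.isCat_one hw
  | cons b w ih =>
    obtain ⟨hj, hw⟩ := hw
    rw [List.map_cons, List.cons_append, List.nodup_cons] at hz
    rw [List.map_cons, List.nodup_cons] at hy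
    obtain ⟨L₂, hL₂⟩ := ih hw hz.2 hy.2
    obtain ⟨L₁, hL₁⟩ := r.isCat_one hj
    refine r.isCat_cons hL₁ hL₂ ?_
    intro x hx1 hx2
    rw [hL₁.mem] at hx1
    obtain ⟨a', ha', hx1⟩ := hx1
    simp only [List.mem_cons, List.not_mem_nil, or_false] at ha'
    subst ha'
    obtain ⟨c, hc, hx2⟩ := (hL₂.mem x).1 hx2
    have hne : a.2 ≠ c.2 := by
      intro h3
      apply hy.1
      rw [h3]
      exact List.mem_map_of_mem hc
    have h4 : x = r.pt a.1 ∨ x = r.pt b.1 := by
      rcases r.disj _ _ x hx1 hx2 hne with h4 | h4 <;> rcases hj with ⟨h5, h6⟩ | ⟨h5, h6⟩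
      · left; rw [h4, h5]
      · right; rw [h4, h5]
      · right; rw [h4, h6]
      · left; rw [h4, h6]
    rcases h4 with h4 | h4
    · exfalso
      subst h4
      exact hz.1 (realz_walk_ends hw hc (r.disj_pt _ _ hx2))
    · exact h4

theorem mem_link {g : Finset Y} {e : LE} : e ∈ r.link g ↔ ∃ y ∈ g, e ∈ pe (r.path y) := by
  simp [link]

theorem on_link {g : Finset Y} {x : P3} (h : On (r.link g) x) : ∃ y ∈ g, x ∈ r.path y := by
  obtain ⟨e, he, hx⟩ := h
  obtain ⟨y, hy, he⟩ := r.mem_link.1 he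
  exact ⟨y, hy, realz_on_mem (r.chain y) ⟨e, he, hx⟩⟩

theorem arc_of_walk {w : List (Z × Y)} {a : Z × Y} {z' : Z} (hw : Walk S.e0 S.e1 (a :: w) z')
    (hz : ((a :: w).map Prod.fst ++ [z']).Nodup) (hy : ((a :: w).map Prod.snd).Nodup)
    {g : Finset Y} (hg : ∀ b ∈ a :: w, b.2 ∉ g)
    (hi : ∀ b ∈ w, ∀ y ∈ g, ¬ (S.e0 y = b.1 ∨ S.e1 y = b.1)) :
    ∃ L, r.IsCat (a :: w) a.1 z' L ∧ Arc (r.link g) (r.pt a.1) (r.pt z') L := by
  obtain ⟨L, hL⟩ := r.exists_isCat hw hz hy
  refine ⟨L, hL, hL.chain, hL.nodup, hL.head, hL.last, ?_, ?_⟩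
  · intro x hx hxp hxq hon
    obtain ⟨y, hyg, hxy⟩ := r.on_link hon
    obtain ⟨c, hc, hxc⟩ := (hL.mem x).1 hx
    have hne : c.2 ≠ y := fun h3 => hg c hc (h3 ▸ hyg)
    obtain ⟨v, hv, rfl⟩ : ∃ v, (v = S.e0 c.2 ∨ v = S.e1 c.2) ∧ x = r.pt v := by
      rcases r.disj _ _ x hxc hxy hne with h4 | h4
      · exact ⟨_, Or.inl rfl, h4⟩
      · exact ⟨_, Or.inr rfl, h4⟩
    have h5 := realz_walk_ends hw hc hv
    rw [List.map_cons, List.cons_append, List.mem_cons, List.mem_append, List.mem_singleton] at h5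
    rcases h5 with h5 | h5 | h5
    · exact hxp (by rw [h5])
    · obtain ⟨b, hb, rfl⟩ := List.mem_map.1 h5
      rcases r.disj_pt _ _ hxy with h6 | h6
      · exact hi b hb y hyg (Or.inl h6.symm)
      · exact hi b hb y hyg (Or.inr h6.symm)
    · exact hxq (by rw [h5])
  · rw [Finset.disjoint_left]
    intro e he he2
    obtain ⟨y, hyg, he⟩ := r.mem_link.1 he
    obtain ⟨c, hc, he2⟩ := (hL.pe e).1 he2
    have hne : y ≠ c.2 := fun h3 => hg c hc (h3 ▸ hyg)
    exact Finset.disjoint_left.1 (r.disj_e _ _ hne) he he2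

theorem onBd_cat {w : List (Z × Y)} {z z' : Z} {L : List P3} (hL : r.IsCat w z z' L) {lo hi : P3}
    (h : ∀ a ∈ w, OnBd lo hi (r.path a.2)) : OnBd lo hi L := by
  refine ⟨?_, ?_, ?_, ?_⟩
  · intro p hp
    obtain ⟨a, ha, hp⟩ := (hL.mem p).1 hp
    exact (h a ha).box p hp
  · intro p hp
    obtain ⟨a, ha, hp⟩ := (hL.mem p).1 hp
    exact (h a ha).bd p hp
  · intro p hp
    obtain ⟨a, ha, hp⟩ := (hL.mem p).1 hp
    exact (h a ha).edge p hp
  · exact hL.gen _ (fun x y hxy h2 => hxy ⟨h2.2, h2.1⟩) fun a ha => (h a ha).gen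

theorem mem_bd {c : C} {y : Y} : y ∈ S.bd c ↔ S.s0 y = c ∨ S.s1 y = c := by
  simp [CellSphere.bd]

theorem rclosed_cyc (c : C) : RClosed S.e0 S.e1 (S.cyc c) := fun a l h => S.closed c a l h

/-- Cutting the boundary of a cell at an edge. -/
theorem exists_cut {c : C} {y : Y} (hy : y ∈ S.bd c) : ∃ L,
    Arc (r.link {y}) (r.pt (S.e1 y)) (r.pt (S.e0 y)) L ∧
    (∀ e, e ∈ r.link (S.bd c) ↔ e ∈ pe (r.path y) ∨ e ∈ pe L) ∧
    (∀ x ∈ L, ∃ y' ∈ S.bd c, x ∈ r.path y') ∧
    (∀ x ∈ L, x ∈ r.path y → x = r.pt (S.e0 y) ∨ x = r.pt (S.e1 y)) ∧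
    (∀ Q : P3 → P3 → Prop, (∀ x y, Q x y → Q y x) → (∀ y' ∈ S.bd c, (r.path y').IsChain Q) →
      L.IsChain Q) := by
  obtain ⟨z, hz⟩ := (S.mem_cyc c y).2 (mem_bd.1 hy)
  obtain ⟨u, v, huv⟩ := List.append_of_mem hz
  have hrot : (S.cyc c).IsRotated ((z, y) :: (v ++ u)) := by
    rw [huv]
    have := List.isRotated_append (l := u) (l' := (z, y) :: v)
    simpa using this
  have hcl := realz_rclosed_rotated (rclosed_cyc (S := S) c) hrot
  have hw := hcl _ _ rfl
  have hnz : (((z, y) :: (v ++ u)).map Prod.fst).Nodup :=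
    (hrot.map Prod.fst).nodup_iff.1 (S.nodup_z c)
  have hny : (((z, y) :: (v ++ u)).map Prod.snd).Nodup :=
    (hrot.map Prod.snd).nodup_iff.1 (S.nodup_y c)
  have hmem : ∀ y', y' ∈ S.bd c ↔ y' = y ∨ ∃ a ∈ v ++ u, a.2 = y' := by
    intro y'
    rw [mem_bd, ← S.mem_cyc]
    constructor
    · rintro ⟨z', hz'⟩
      rw [hrot.mem_iff, List.mem_cons] at hz'
      rcases hz' with h1 | h1
      · left; exact (Prod.ext_iff.1 h1).2
      · right; exact ⟨_, h1, rfl⟩
    · rintro (rfl | ⟨a, ha, rfl⟩)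
      · exact ⟨z, hz⟩
      · exact ⟨a.1, hrot.mem_iff.2 (List.mem_cons_of_mem _ ha)⟩
  generalize hvu : v ++ u = w at *
  cases w with
  | nil =>
    exfalso
    rcases hw with ⟨h1, h2⟩ | ⟨h1, h2⟩
    · exact S.ne_e y (h1.trans h2.symm)
    · exact S.ne_e y (h1.trans h2.symm)
  | cons b w =>
    obtain ⟨hj, hw⟩ := hw
    simp only [List.map_cons] at hnz hny
    have hnz2 : ((b :: w).map Prod.fst ++ [z]).Nodup := by
      rw [List.nodup_cons] at hnz
      rw [List.nodup_append]
      refine ⟨hnz.2, by simp, ?_⟩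
      intro a ha b' hb' hab
      rw [List.mem_singleton] at hb'
      subst hb'
      subst hab
      exact hnz.1 ha
    obtain ⟨L, hL, hA⟩ := r.arc_of_walk (g := {y}) hw hnz2 (List.nodup_cons.1 hny).2
      (by
        intro a ha h1
        rw [Finset.mem_singleton] at h1
        apply (List.nodup_cons.1 hny).1
        rw [← h1]
        exact List.mem_map_of_mem ha)
      (by
        intro a ha y' hy' h1
        rw [Finset.mem_singleton] at hy'
        subst hy'
        have h2 : a.1 ∈ w.map Prod.fst := List.mem_map_of_mem ha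
        have h3 : a.1 = z ∨ a.1 = b.1 := by
          rcases hj with ⟨h4, h5⟩ | ⟨h4, h5⟩ <;> rcases h1 with h1 | h1
          · left; rw [← h1, h4]
          · right; rw [← h1, h5]
          · right; rw [← h1, h4]
          · left; rw [← h1, h5]
        rw [List.nodup_cons, List.nodup_cons] at hnz
        rcases h3 with h3 | h3
        · exact hnz.1 (by rw [← h3]; exact List.mem_cons_of_mem _ h2)
        · exact hnz.2.1 (by rw [← h3]; exact h2))
    have hlink : ∀ e, e ∈ r.link (S.bd c) ↔ e ∈ pe (r.path y) ∨ e ∈ pe L := by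
      intro e
      rw [mem_link, hL.pe]
      constructor
      · rintro ⟨y', hy', he⟩
        rcases (hmem y').1 hy' with rfl | ⟨a, ha, rfl⟩
        · left; exact he
        · right; exact ⟨a, ha, he⟩
      · rintro (he | ⟨a, ha, he⟩)
        · exact ⟨y, hy, he⟩
        · exact ⟨a.2, (hmem _).2 (Or.inr ⟨a, ha, rfl⟩), he⟩
    have hpt : ∀ x ∈ L, ∃ y' ∈ S.bd c, x ∈ r.path y' := by
      intro x hx
      obtain ⟨a, ha, hx⟩ := (hL.mem x).1 hx
      exact ⟨a.2, (hmem _).2 (Or.inr ⟨a, ha, rfl⟩), hx⟩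
    have hint : ∀ x ∈ L, x ∈ r.path y → x = r.pt (S.e0 y) ∨ x = r.pt (S.e1 y) := by
      intro x hx hxy
      obtain ⟨a, ha, hx⟩ := (hL.mem x).1 hx
      apply r.disj _ _ x hxy hx
      intro h3
      apply (List.nodup_cons.1 hny).1
      show y ∈ (b :: w).map Prod.snd
      rw [h3]
      exact List.mem_map_of_mem ha
    have hgen : ∀ Q : P3 → P3 → Prop, (∀ x y, Q x y → Q y x) →
        (∀ y' ∈ S.bd c, (r.path y').IsChain Q) → L.IsChain Q := by
      intro Q hQ hQ2
      exact hL.gen Q hQ fun a ha => hQ2 _ ((hmem _).2 (Or.inr ⟨a, ha, rfl⟩))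
    rcases hj with ⟨h4, h5⟩ | ⟨h4, h5⟩
    · -- e0 y = z, e1 y = b.1
      simp only at h4 h5
      subst h4
      rw [← h5] at hA
      exact ⟨L, hA, hlink, hpt, hint, hgen⟩
    · simp only at h4 h5
      subst h5
      rw [← h4] at hA
      refine ⟨L.reverse, realz_arc_reverse hA, ?_, ?_, ?_, ?_⟩
      · rw [pe_reverse hL.chain]; exact hlink
      · intro x hx; exact hpt x (by simpa using hx)
      · intro x hx; exact hint x (by simpa using hx)
      · intro Q hQ hQ2
        exact realz_chain_reverse hQ (hgen Q hQ hQ2)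

theorem valid_bd (c : C) : Valid (r.link (S.bd c)) := by
  obtain ⟨a, l, hal⟩ := List.exists_cons_of_ne_nil (S.cyc_ne c)
  have hy : a.2 ∈ S.bd c := by
    rw [mem_bd, ← S.mem_cyc]
    exact ⟨a.1, by rw [hal]; simp⟩
  obtain ⟨L, hA, hlink, -, -, -⟩ := r.exists_cut hy
  have hne : r.pt (S.e0 a.2) ≠ r.pt (S.e1 a.2) := fun h1 => S.ne_e _ (r.inj h1)
  have h1 : Half (r.link {a.2}) (r.pt (S.e0 a.2)) (r.pt (S.e1 a.2)) := by
    have : r.link {a.2} = pe (r.path a.2) := by simp [link]
    rw [this]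
    exact realz_half (r.chain _) (r.nodup _) (r.head _) (r.last _) hne
  have h2 := arc_valid h1 (realz_arc_reverse hA)
  rw [pe_reverse hA.chain] at h2
  have h3 : r.link (S.bd c) = r.link {a.2} ∪ pe L := by
    ext e
    rw [hlink, Finset.mem_union]
    simp [link]
  rw [h3]
  exact h2

theorem step_liso {g g' : Finset Y} (hg : Valid (r.link g)) (hs : S.StepP (fun c => c ≠ h) g g') :
    LIso (r.link g) (r.link g') := by
  obtain ⟨c, l₁, l₂, hc, hrot, hne₁, hne₂, hl₁, hl₂, hi₁, hi₂, hg'⟩ := hs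
  obtain ⟨a, w₁, rfl⟩ := List.exists_cons_of_ne_nil hne₁
  obtain ⟨b, w₂, rfl⟩ := List.exists_cons_of_ne_nil hne₂
  have hcl := realz_rclosed_rotated (rclosed_cyc (S := S) c) hrot.symm
  have hw := hcl a (w₁ ++ b :: w₂) rfl
  rw [← List.cons_append, realz_walk_append] at hw
  obtain ⟨hw₁, hw₂⟩ := hw
  have hnz : (((a :: w₁) ++ (b :: w₂)).map Prod.fst).Nodup :=
    (hrot.map Prod.fst).nodup_iff.2 (S.nodup_z c)
  have hny : (((a :: w₁) ++ (b :: w₂)).map Prod.snd).Nodup :=
    (hrot.map Prod.snd).nodup_iff.2 (S.nodup_y c)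
  rw [List.map_append, List.nodup_append] at hnz hny
  have hmem : ∀ y', y' ∈ S.bd c ↔ (∃ a' ∈ a :: w₁, a'.2 = y') ∨ ∃ a' ∈ b :: w₂, a'.2 = y' := by
    intro y'
    rw [mem_bd, ← S.mem_cyc]
    constructor
    · rintro ⟨z', hz'⟩
      rw [← hrot.mem_iff, List.mem_append] at hz'
      rcases hz' with h1 | h1
      · left; exact ⟨_, h1, rfl⟩
      · right; exact ⟨_, h1, rfl⟩
    · rintro (⟨a', ha', rfl⟩ | ⟨a', ha', rfl⟩)
      · exact ⟨a'.1, hrot.mem_iff.1 (List.mem_append_left _ ha')⟩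
      · exact ⟨a'.1, hrot.mem_iff.1 (List.mem_append_right _ ha')⟩
  set E : Finset Y := ((a :: w₁).map Prod.snd).toFinset with hE
  have hEm : ∀ y, y ∈ E ↔ ∃ a' ∈ a :: w₁, a'.2 = y := by
    intro y
    rw [hE, List.mem_toFinset, List.mem_map]
  set G := g \ E with hG
  have hGm : ∀ y, y ∈ G ↔ y ∈ g ∧ ¬ ∃ a' ∈ a :: w₁, a'.2 = y := by
    intro y
    rw [hG, Finset.mem_sdiff, hEm]
  obtain ⟨α, hα, hαA⟩ := r.arc_of_walk (g := G) hw₁
    (by
      rw [List.nodup_append]
      refine ⟨hnz.1, by simp, ?_⟩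
      intro x hx y hy
      rw [List.mem_singleton] at hy
      subst hy
      exact hnz.2.2 x hx _ (by simp))
    hny.1
    (by
      intro x hx h1
      exact ((hGm _).1 h1).2 ⟨x, hx, rfl⟩)
    (by
      intro x hx y hy h1
      obtain ⟨h2, h3⟩ := (hGm _).1 hy
      exact h3 (hi₁ x hx y h2 h1))
  obtain ⟨β, hβ, hβA⟩ := r.arc_of_walk (g := G) hw₂
    (by
      rw [List.nodup_append]
      refine ⟨hnz.2.1, by simp, ?_⟩
      intro x hx y hy
      rw [List.mem_singleton] at hy
      subst hy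
      exact (hnz.2.2 _ (by simp) x hx).symm)
    hny.2.1
    (by
      intro x hx h1
      exact hl₂ x hx ((hGm _).1 h1).1)
    (by
      intro x hx y hy h1
      exact hi₂ x hx y ((hGm _).1 hy).1 h1)
  have hab : r.pt a.1 ≠ r.pt b.1 := by
    intro h1
    exact hnz.2.2 a.1 (by simp) b.1 (by simp) (r.inj h1)
  have hg1 : r.link g = r.link G ∪ pe α := by
    ext e
    rw [Finset.mem_union, mem_link, mem_link, hα.pe]
    constructor
    · rintro ⟨y, hy, he⟩
      by_cases h1 : ∃ a' ∈ a :: w₁, a'.2 = y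
      · obtain ⟨a', ha', rfl⟩ := h1
        right; exact ⟨a', ha', he⟩
      · left; exact ⟨y, (hGm y).2 ⟨hy, h1⟩, he⟩
    · rintro (⟨y, hy, he⟩ | ⟨a', ha', he⟩)
      · exact ⟨y, ((hGm y).1 hy).1, he⟩
      · exact ⟨_, hl₁ a' ha', he⟩
  have hg2 : r.link g' = r.link G ∪ pe β.reverse := by
    rw [pe_reverse hβ.chain]
    ext e
    rw [Finset.mem_union, mem_link, mem_link, hβ.pe]
    constructor
    · rintro ⟨y, hy, he⟩
      rw [hg', Finset.mem_symmDiff, hmem] at hy
      rcases hy with ⟨h1, h2⟩ | ⟨h1, h2⟩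
      · left
        exact ⟨y, (hGm y).2 ⟨h1, fun h3 => h2 (Or.inl h3)⟩, he⟩
      · rcases h1 with ⟨a', ha', rfl⟩ | ⟨a', ha', rfl⟩
        · exact absurd (hl₁ a' ha') h2
        · right; exact ⟨a', ha', he⟩
    · rintro (⟨y, hy, he⟩ | ⟨a', ha', he⟩)
      · refine ⟨y, ?_, he⟩
        rw [hg', Finset.mem_symmDiff, hmem]
        obtain ⟨h1, h2⟩ := (hGm y).1 hy
        left
        refine ⟨h1, ?_⟩
        rintro (h3 | ⟨a', ha', rfl⟩)
        · exact h2 h3
        · exact hl₂ a' ha' h1
      · refine ⟨a'.2, ?_, he⟩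
        rw [hg', Finset.mem_symmDiff, hmem]
        right
        exact ⟨Or.inr ⟨a', ha', rfl⟩, hl₂ a' ha'⟩
  have hβA' := realz_arc_reverse hβA
  have hhalf : Half (r.link G) (r.pt a.1) (r.pt b.1) :=
    half_of_valid hab hαA (hg1 ▸ hg)
  rw [hg1, hg2]
  apply piso_liso hhalf
  apply box_lemma (r.size c) _ hab hαA hβA'
  · apply r.onBd_cat hα
    intro a' ha'
    exact r.bd c _ hc (mem_bd.1 ((hmem _).2 (Or.inl ⟨a', ha', rfl⟩)))
  · apply realz_onBd_reverse
    apply r.onBd_cat hβ
    intro a' ha'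
    exact r.bd c _ hc (mem_bd.1 ((hmem _).2 (Or.inr ⟨a', ha', rfl⟩)))
  · intro p hp hon
    obtain ⟨y, hy, hpy⟩ := r.on_link hon
    exact r.empty c y p hc hpy hp

theorem liso_valid {K K' : Finset LE} (h : LIso K K') (hK : Valid K) : Valid K' := by
  induction h with
  | refl => exact hK
  | tail _ h1 _ => exact h1.right

theorem link_iso [Finite C] {t : C} (ht : h ≠ t) : LIso (r.link (S.bd h)) (r.link (S.bd t)) := by
  have h1 := S.shelling ht
  have : ∀ g, Relation.ReflTransGen (S.StepP fun c => c ≠ h) (S.bd h) g →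
      LIso (r.link (S.bd h)) (r.link g) := by
    intro g hg
    induction hg with
    | refl => exact Relation.ReflTransGen.refl
    | tail _ h2 ih =>
      exact ih.trans (r.step_liso (liso_valid ih (r.valid_bd h)) h2)
  exact this _ h1

theorem unknot_aux [SwapHyp] {t : C} (ht : t ≠ h) {y : Y} {x p q p' q' u : P3}
    {l L : List P3} (hlp : ∀ z, z ∈ x :: p :: q :: l ↔ z ∈ r.path y)
    (hpeP : pe (x :: p :: q :: l) = pe (r.path y))
    (hch : (x :: p :: q :: l).IsChain Adj) (hnd : (x :: p :: q :: l).Nodup)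
    (hlast : (x :: p :: q :: l).getLast? = some u)
    (hg : (x :: p :: q :: l).IsChain fun z w =>
      ¬ (nex (r.lo t) (r.hi t) z = 2 ∧ nex (r.lo t) (r.hi t) w = 2))
    (hyb : y ∈ S.bd t)
    (hA : Arc (r.link {y}) u x L)
    (hlink : ∀ e, e ∈ r.link (S.bd t) ↔ e ∈ pe (r.path y) ∨ e ∈ pe L)
    (hpt : ∀ x ∈ L, ∃ y' ∈ S.bd t, x ∈ r.path y')
    (hint : ∀ z ∈ L, z ∈ r.path y → z = x ∨ z = u)
    (hgen : ∀ Q : P3 → P3 → Prop, (∀ x y, Q x y → Q y x) →
      (∀ y' ∈ S.bd t, (r.path y').IsChain Q) → L.IsChain Q)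
    (hsq : IsSq p q q' p')
    (h1 : nex (r.lo t) (r.hi t) p' = 1) (h2 : nex (r.lo t) (r.hi t) q' = 1)
    (h3 : nex (r.lo t) (r.hi t) p = 1) (h4 : nex (r.lo t) (r.hi t) q = 1)
    (b1 : InBox (r.lo t) (r.hi t) p') (b2 : InBox (r.lo t) (r.hi t) q') :
    IsLink (r.link (S.bd t)) unknot := by
  rw [List.getLast?_cons_cons, List.getLast?_cons_cons] at hlast
  obtain ⟨A, hA1⟩ : ∃ A, q :: l = A ++ [u] := List.getLast?_eq_some_iff.1 hlast
  obtain ⟨B, hB⟩ : ∃ B, L = u :: B := List.head?_eq_some_iff.1 hA.head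
  obtain ⟨B', hB'⟩ : ∃ B', L = B' ++ [x] := List.getLast?_eq_some_iff.1 hA.last
  rw [List.isChain_cons_cons, List.isChain_cons_cons] at hch
  obtain ⟨hxp, hpq, hchq⟩ := hch
  rw [List.nodup_cons, List.nodup_cons] at hnd
  obtain ⟨hx1, hp1, hndq⟩ := hnd
  have huq : u ∈ q :: l := by rw [hA1]; simp
  have hpne : p ≠ q := realz_adj_ne hpq
  have hpL : p ∉ L := by
    intro h5
    rcases hint p h5 (by rw [← hlp]; simp) with h6 | h6
    · exact hx1 (by rw [← h6]; simp)
    · exact hp1 (by rw [h6]; exact huq)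
  -- the arc
  have hαdef : A ++ (L ++ [p]) = A ++ u :: (B ++ [p]) := by rw [hB]; rfl
  have hLp : L ++ [p] = B' ++ x :: [p] := by rw [hB']; simp
  have hLpc : ∀ Q : P3 → P3 → Prop, L.IsChain Q → Q x p → (L ++ [p]).IsChain Q := by
    intro Q hQ hxp
    rw [hLp, List.isChain_split, ← hB']
    exact ⟨hQ, by simpa using hxp⟩
  have hαc : ∀ Q : P3 → P3 → Prop, (q :: l).IsChain Q → L.IsChain Q → Q x p →
      (A ++ (L ++ [p])).IsChain Q := by
    intro Q hQ1 hQ2 hQ3
    rw [hαdef, List.isChain_split, ← hA1]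
    refine ⟨hQ1, ?_⟩
    have := hLpc Q hQ2 hQ3
    rw [hB] at this
    exact this
  have hαmem : ∀ z, z ∈ A ++ (L ++ [p]) ↔ z ∈ q :: l ∨ z ∈ L ∨ z = p := by
    intro z
    have : z ∈ u :: B ↔ z ∈ L := by rw [hB]
    rw [hA1, List.mem_append, List.mem_append, List.mem_append, List.mem_singleton,
      List.mem_singleton]
    constructor
    · tauto
    · rintro ((h5 | h5) | h5 | h5)
      · tauto
      · right; left; rw [h5, hB]; simp
      · tauto
      · tauto
  have hpe : ∀ e, e ∈ pe (A ++ (L ++ [p])) ↔ e ∈ pe (q :: l) ∨ e ∈ pe L ∨ e = leOf x p := by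
    intro e
    rw [hαdef, pe_append, ← hA1]
    have h5 : u :: (B ++ [p]) = B' ++ x :: [p] := by
      rw [← hLp, hB]; rfl
    rw [h5, pe_append, ← hB']
    simp only [pe, Finset.mem_union, Finset.mem_insert, Finset.notMem_empty, or_false]
  have hdisj : leOf p q ∉ pe (A ++ (L ++ [p])) := by
    rw [hpe]
    rintro (h5 | h5 | h5)
    · exact hp1 (realz_on_mem hchq ⟨_, h5, (inc_leOf hpq).2 (Or.inl rfl)⟩)
    · exact hpL (realz_on_mem hA.chain ⟨_, h5, (inc_leOf hpq).2 (Or.inl rfl)⟩)
    · have h6 : Inc (leOf x p) q := h5 ▸ (inc_leOf hpq).2 (Or.inr rfl)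
      rcases (inc_leOf hxp).1 h6 with h7 | h7
      · exact hx1 (by rw [← h7]; simp)
      · exact hpne h7.symm
  have hArc : Arc {leOf p q} q p (A ++ (L ++ [p])) := by
    refine ⟨hαc _ hchq hA.chain hxp, ?_, ?_, ?_, ?_, ?_⟩
    · rw [List.nodup_append]
      rw [hA1] at hndq
      refine ⟨(List.nodup_append.1 hndq).1, ?_, ?_⟩
      · rw [List.nodup_append]
        refine ⟨hA.nodup, by simp, ?_⟩
        intro a ha b hb hab
        rw [List.mem_singleton] at hb
        subst hb
        subst hab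
        exact hpL ha
      · intro a ha b hb hab
        subst hab
        have haq : a ∈ q :: l := by rw [hA1]; simp [ha]
        rw [List.mem_append, List.mem_singleton] at hb
        rcases hb with hb | hb
        · rcases hint a hb (by rw [← hlp]; exact List.mem_cons_of_mem _ (List.mem_cons_of_mem _ haq))
            with h6 | h6
          · exact hx1 (by rw [← h6]; exact List.mem_cons_of_mem _ haq)
          · exact (List.nodup_append.1 hndq).2.2 a ha u (by simp) h6
        · exact hp1 (by rw [← hb]; exact haq)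
    · rw [hαdef]
      cases A with
      | nil =>
        simp only [List.nil_append, List.cons.injEq] at hA1
        simp [hA1.1]
      | cons a A =>
        simp only [List.cons_append, List.cons.injEq] at hA1
        simp [hA1.1]
    · rw [List.getLast?_append_of_ne_nil _ (by simp)]
      simp
    · intro z _ hzq hzp hon
      obtain ⟨e, he, hz⟩ := hon
      rw [Finset.mem_singleton] at he
      subst he
      rcases (inc_leOf hpq).1 hz with h5 | h5
      · exact hzp h5
      · exact hzq h5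
    · rw [Finset.disjoint_singleton_left]
      exact hdisj
  have hK1 : r.link (S.bd t) = {leOf p q} ∪ pe (A ++ (L ++ [p])) := by
    ext e
    have h5 : e ∈ pe (r.path y) ↔ e = leOf x p ∨ e = leOf p q ∨ e ∈ pe (q :: l) := by
      rw [← hpeP]
      simp only [pe, Finset.mem_insert]
    rw [hlink, Finset.mem_union, Finset.mem_singleton, hpe, h5]
    tauto
  -- the other arc
  obtain ⟨hs1, hs2, hs3, hs4, hs5, hs6⟩ := hsq
  have hArc2 : Arc {leOf p q} q p [q, q', p', p] := by
    refine ⟨?_, ?_, rfl, rfl, ?_, ?_⟩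
    · rw [List.isChain_cons_cons, List.isChain_cons_cons, List.isChain_cons_cons]
      exact ⟨hs2, hs3, hs4, List.isChain_singleton _⟩
    · have n1 := realz_adj_ne hs2
      have n2 := realz_adj_ne hs3
      have n3 := realz_adj_ne hs4
      have n4 := hpne.symm
      have n5 := hs5.symm
      simp only [List.nodup_cons, List.mem_cons, List.not_mem_nil, or_false, not_or,
        List.nodup_nil, not_false_eq_true, and_true]
      exact ⟨⟨n1, hs6, n4⟩, ⟨n2, n5⟩, n3⟩
    · intro z _ hzq hzp hon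
      obtain ⟨e, he, hz⟩ := hon
      rw [Finset.mem_singleton] at he
      subst he
      rcases (inc_leOf hpq).1 hz with h5 | h5
      · exact hzp h5
      · exact hzq h5
    · rw [Finset.disjoint_singleton_left]
      simp only [pe, Finset.mem_insert, Finset.notMem_empty, or_false, not_or]
      refine ⟨?_, ?_, ?_⟩
      · intro h5
        have h6 : Inc (leOf q q') p := h5 ▸ (inc_leOf hpq).2 (Or.inl rfl)
        rcases (inc_leOf hs2).1 h6 with h7 | h7
        · exact hpne h7
        · exact hs5 h7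
      · intro h5
        have h6 : Inc (leOf q' p') p := h5 ▸ (inc_leOf hpq).2 (Or.inl rfl)
        rcases (inc_leOf hs3).1 h6 with h7 | h7
        · exact hs5 h7
        · exact realz_adj_ne hs4 h7.symm
      · intro h5
        have h6 : Inc (leOf p' p) q := h5 ▸ (inc_leOf hpq).2 (Or.inr rfl)
        rcases (inc_leOf hs4).1 h6 with h7 | h7
        · exact hs6 h7
        · exact hpne h7.symm
  have hbdy : ∀ y' ∈ S.bd t, OnBd (r.lo t) (r.hi t) (r.path y') :=
    fun y' hy' => r.bd t y' ht (mem_bd.1 hy')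
  have hbdyy := hbdy y hyb
  have hin : ∀ z ∈ A ++ (L ++ [p]), ∃ y' ∈ S.bd t, z ∈ r.path y' := by
    intro z hz
    rcases (hαmem z).1 hz with h5 | h5 | h5
    · exact ⟨y, hyb, by rw [← hlp]; exact List.mem_cons_of_mem _ (List.mem_cons_of_mem _ h5)⟩
    · exact hpt z h5
    · exact ⟨y, hyb, by rw [← hlp, h5]; simp⟩
  have hOn1 : OnBd (r.lo t) (r.hi t) (A ++ (L ++ [p])) := by
    rw [List.isChain_cons_cons, List.isChain_cons_cons] at hg
    refine ⟨?_, ?_, ?_, ?_⟩
    · intro z hz
      obtain ⟨y', hy', hz⟩ := hin z hz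
      exact (hbdy y' hy').box z hz
    · intro z hz
      obtain ⟨y', hy', hz⟩ := hin z hz
      exact (hbdy y' hy').bd z hz
    · intro z hz
      obtain ⟨y', hy', hz⟩ := hin z hz
      exact (hbdy y' hy').edge z hz
    · apply hαc _ hg.2.2 _ hg.1
      exact hgen _ (fun x y hxy h2 => hxy ⟨h2.2, h2.1⟩) fun y' hy' => (hbdy y' hy').gen
  have hOn2 : OnBd (r.lo t) (r.hi t) [q, q', p', p] := by
    have hq' : ∀ z ∈ [q, q', p', p], InBox (r.lo t) (r.hi t) z ∧ nex (r.lo t) (r.hi t) z = 1 := by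
      intro z hz
      simp only [List.mem_cons, List.not_mem_nil, or_false] at hz
      rcases hz with rfl | rfl | rfl | rfl
      · exact ⟨hbdyy.box _ (by rw [← hlp]; simp), h4⟩
      · exact ⟨b2, h2⟩
      · exact ⟨b1, h1⟩
      · exact ⟨hbdyy.box _ (by rw [← hlp]; simp), h3⟩
    refine ⟨fun z hz => (hq' z hz).1, fun z hz => (hq' z hz).2.ge,
      fun z hz => by rw [(hq' z hz).2]; norm_num, ?_⟩
    simp only [List.isChain_cons_cons, List.isChain_singleton, h1, h2, h3, h4]
    norm_num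
  have hint0 : ∀ z, InInt (r.lo t) (r.hi t) z → nex (r.lo t) (r.hi t) z = 0 := by
    intro z hz
    unfold nex
    rw [Finset.card_eq_zero, Finset.filter_eq_empty_iff]
    intro i _ h5
    obtain ⟨h6, h7⟩ := hz i
    rcases h5 with h5 | h5 <;> omega
  have hhalf : Half {leOf p q} q p := by
    apply half_of_valid hpne.symm hArc
    rw [← hK1]
    exact r.valid_bd t
  have hiso : LIso ({leOf p q} ∪ pe (A ++ (L ++ [p]))) ({leOf p q} ∪ pe [q, q', p', p]) := by
    apply piso_liso hhalf
    apply box_lemma (r.size t) _ hpne.symm hArc hArc2 hOn1 hOn2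
    intro z hz hon
    obtain ⟨e, he, hz2⟩ := hon
    rw [Finset.mem_singleton] at he
    subst he
    have h5 := hint0 z hz
    rcases (inc_leOf hpq).1 hz2 with h6 | h6
    · rw [h6, h3] at h5; exact absurd h5 (by norm_num)
    · rw [h6, h4] at h5; exact absurd h5 (by norm_num)
  obtain ⟨c, i, j, hij, hsq2⟩ := realz_square ⟨hs1, hs2, hs3, hs4, hs5, hs6⟩
  rw [hK1]
  apply liso_link hiso.symm
  rw [hsq2]
  exact isLink_square c hij

/-- The boundary of a cell is the unknot.  Here the edge `y` of the cell `t` begins (or, read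
backwards, begins) with three points such that the unit square over the second step is on the
boundary of the box. -/
theorem unknot_bd [SwapHyp] {t : C} (ht : t ≠ h) {y : Y} (hy : S.s0 y = t ∨ S.s1 y = t) {x p q p' q' : P3}
    {l : List P3} (hl : r.path y = x :: p :: q :: l ∨ (r.path y).reverse = x :: p :: q :: l)
    (hsq : IsSq p q q' p')
    (h1 : nex (r.lo t) (r.hi t) p' = 1) (h2 : nex (r.lo t) (r.hi t) q' = 1)
    (h3 : nex (r.lo t) (r.hi t) p = 1) (h4 : nex (r.lo t) (r.hi t) q = 1)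
    (b1 : InBox (r.lo t) (r.hi t) p') (b2 : InBox (r.lo t) (r.hi t) q')
    (hll : l ≠ []) : IsLink (r.link (S.bd t)) unknot := by
  have hyb : y ∈ S.bd t := mem_bd.2 hy
  obtain ⟨L, hA, hlink, hpt, hint, hgen⟩ := r.exists_cut hyb
  have hg := (r.bd t y ht hy).gen
  rcases hl with hl | hl
  · have hx : r.pt (S.e0 y) = x := by
      have := r.head y
      rw [hl] at this
      simpa using this.symm
    rw [hx] at hA hint
    refine r.unknot_aux ht (fun z => by rw [hl]) (by rw [hl]) (by rw [← hl]; exact r.chain y)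
      (by rw [← hl]; exact r.nodup y) (by rw [← hl]; exact r.last y) (by rw [← hl]; exact hg)
      hyb hA hlink hpt hint hgen hsq h1 h2 h3 h4 b1 b2
  · have hx : r.pt (S.e1 y) = x := by
      have := r.last y
      rw [← List.head?_reverse, hl] at this
      simpa using this.symm
    rw [hx] at hA hint
    refine r.unknot_aux ht (L := L.reverse) (u := r.pt (S.e0 y)) (fun z => by rw [← hl]; simp)
      (by rw [← hl, pe_reverse (r.chain y)])
      (by rw [← hl]; exact realz_chain_reverse (fun _ _ => Adj.symm) (r.chain y))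
      (by rw [← hl]; exact List.nodup_reverse.2 (r.nodup y))
      (by rw [← hl, List.getLast?_reverse]; exact r.head y)
      (by
        rw [← hl]
        exact realz_chain_reverse (fun x y hxy h2 => hxy ⟨h2.2, h2.1⟩) hg)
      hyb (realz_arc_reverse hA) (by rw [pe_reverse hA.chain]; exact hlink)
      (fun z hz => hpt z (by simpa using hz))
      (fun z hz hz2 => (hint z (by simpa using hz) hz2).symm)
      (fun Q hQ hQ2 => realz_chain_reverse hQ (hgen Q hQ hQ2)) hsq h1 h2 h3 h4 b1 b2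

end Realz

end Pool.Agent.Lib.MP_131179_gt.Dehn
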