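import Pool.Agent.Lib.MP_131179_gt.Dehn.Sph
import Pool.Agent.Lib.MP_131179_gt.Dehn.Realz

/-!
# A sphere in the lattice: the boundary of the special face is unknotted
-/

set_option autoImplicit false

namespace Pool.Agent.Lib.MP_131179_gt.Dehn

variable {Φ : Type} {V : TMap Φ}

/-- The realization of a sphere in the lattice: `cp p` is the path from the position of `p` to the
position of `M p`, and `ep i` is the path from the position of the edge `i` of the special face to
the position of the edge `i + 1`. -/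
structure SReal (S : Carried V) (m : ℕ) [NeZero m] extends SPos S m where
  lo : P3 → P3
  hi : P3 → P3
  cp : Fl S.n → List P3
  ep : ZMod m → List P3
  size : ∀ v i, co3 (lo v) i + 2 ≤ co3 (hi v) i
  cp_a : ∀ p, cp (S.hn.fa p) = cp p
  cp_c : ∀ p, cp (S.hn.fc p) = cp p
  cp_M : ∀ p, cp (S.M p) = (cp p).reverse
  cp_head : ∀ p, (cp p).head? = some (pos p)
  cp_chain : ∀ p, (cp p).IsChain Adj
  cp_nodup : ∀ p, (cp p).Nodup
  cp_len : ∀ p, 3 ≤ (cp p).length
  cp_bd : ∀ p, OnBd (lo (vtx p)) (hi (vtx p)) (cp p)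
  cp_int : ∀ p v x, x ∈ cp p → ¬ InInt (lo v) (hi v) x
  cp_cp : ∀ p p' x, x ∈ cp p → x ∈ cp p' →
    SameOrb [S.hn.fa, S.hn.fc, S.M] p p' ∨ x = pos p ∨ x = pos (S.M p)
  cp_pos : ∀ p p', pos p' ∈ cp p → pos p' = pos p ∨ pos p' = pos (S.M p)
  ep_head : ∀ i, (ep i).head? = some (pos (hf (i, 1, 0)))
  ep_last : ∀ i, (ep i).getLast? = some (pos (hf (i + 1, 0, 0)))
  ep_chain : ∀ i, (ep i).IsChain Adj
  ep_nodup : ∀ i, (ep i).Nodup
  ep_len : ∀ i, 2 ≤ (ep i).length
  ep_bd : ∀ i, OnBd (lo (vtx (hf (i, 1, 0)))) (hi (vtx (hf (i, 1, 0)))) (ep i)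
  ep_int : ∀ i v x, x ∈ ep i → ¬ InInt (lo v) (hi v) x
  ep_ep : ∀ i j x, i ≠ j → x ∈ ep i → x ∈ ep j →
    x = pos (hf (i, 0, 0)) ∨ x = pos (hf (i + 1, 0, 0))
  ep_ep_e : ∀ i j, i ≠ j → Disjoint (pe (ep i)) (pe (ep j))
  ep_hf : ∀ i j, pos (hf (j, 0, 0)) ∈ ep i → j = i ∨ j = i + 1
  ep_pos : ∀ i p, (∀ q, p ≠ hf q) → pos p ∉ ep i
  cp_ep : ∀ p i x, x ∈ cp p → x ∈ ep i → (x = pos p ∨ x = pos (S.M p)) ∧
    (x = pos (hf (i, 0, 0)) ∨ x = pos (hf (i + 1, 0, 0)))
  start : ∃ (p0 : Fl S.n) (x p q p' q' : P3) (l : List P3), cp p0 = x :: p :: q :: l ∧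
    IsSq p q q' p' ∧ nex (lo (vtx p0)) (hi (vtx p0)) p' = 1 ∧
    nex (lo (vtx p0)) (hi (vtx p0)) q' = 1 ∧ nex (lo (vtx p0)) (hi (vtx p0)) p = 1 ∧
    nex (lo (vtx p0)) (hi (vtx p0)) q = 1 ∧ InBox (lo (vtx p0)) (hi (vtx p0)) p' ∧
    InBox (lo (vtx p0)) (hi (vtx p0)) q' ∧ l ≠ []

theorem sphr_inc_ne (e : LE) : ∃ x y, x ≠ y ∧ Inc e x ∧ Inc e y := by
  obtain ⟨p, i⟩ := e
  refine ⟨p, p + e3 i, ?_, Or.inl rfl, Or.inr rfl⟩
  intro h
  have h1 : e3 i = 0 := by
    have := h.symm
    rwa [add_eq_left] at this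
  clear h
  revert h1
  revert i
  decide

theorem sphr_no_edge {l : List P3} (h : l.IsChain Adj) (hn : l.Nodup) (h3 : 3 ≤ l.length)
    {a b : P3} (ha : l.head? = some a) (hb : l.getLast? = some b) {e : LE} (he : e ∈ pe l)
    (hx : ∀ x, Inc e x → x = a ∨ x = b) : False := by
  match l, h, hn, h3, ha, hb, he with
  | a' :: c :: l', h, hn, h3, ha, hb, he =>
    simp only [List.head?_cons, Option.some.injEq] at ha
    subst ha
    rw [List.getLast?_cons_cons] at hb
    rw [List.isChain_cons_cons] at h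
    rw [List.nodup_cons] at hn
    have hl' : l' ≠ [] := by
      rintro rfl
      simp at h3
    have hbl : b ∈ l' := by
      cases l' with
      | nil => exact absurd rfl hl'
      | cons d l' =>
        rw [List.getLast?_cons_cons] at hb
        exact List.mem_of_getLast? hb
    rw [pe_cons_cons, Finset.mem_insert] at he
    rcases he with rfl | he
    · rcases hx c ((inc_leOf h.1).2 (Or.inr rfl)) with h1 | h1
      · exact hn.1 (by rw [h1]; simp)
      · subst h1
        exact (List.nodup_cons.1 hn.2).1 hbl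
    · obtain ⟨x, y, hxy, h1, h2⟩ := sphr_inc_ne e
      have key : ∀ z, Inc e z → z = b := by
        intro z hz
        rcases hx z hz with h4 | h4
        · exfalso
          apply hn.1
          rw [← h4]
          exact mem_of_on_pe h.2 ⟨e, he, hz⟩
        · exact h4
      exact hxy ((key x h1).trans (key y h2).symm)

theorem sphr_orb_inv {Ψ β : Type} {s : List (Ψ → Ψ)} {x y : Ψ} (h : SameOrb s x y) {F : Ψ → β}
    (hF : ∀ f ∈ s, ∀ x, F (f x) = F x) : F x = F y := by
  induction h with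
  | rel x y h =>
    obtain ⟨f, hf, rfl⟩ := h
    exact (hF f hf x).symm
  | refl x => rfl
  | symm x y _ ih => exact ih.symm
  | trans x y z _ _ ih1 ih2 => exact ih1.trans ih2

theorem sphr_out {Ψ : Type} {s : List (Ψ → Ψ)} (x : Ψ) :
    SameOrb s (Quot.out (Quot.mk (OStep s) x)) x := by
  have := Quot.out_eq (Quot.mk (OStep s) x)
  exact Quot.eqvGen_exact this

section

variable {S : Carried V} {m : ℕ} [NeZero m] (D : SReal S m)

namespace SReal

theorem sphr_fa_fa (p : Fl S.n) : S.hn.fa (S.hn.fa p) = p := by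
  apply Subtype.ext
  apply Prod.ext
  · exact V.aa p.1.1
  · rfl

theorem sphr_fa_fc (p : Fl S.n) : S.hn.fa (S.hn.fc p) = S.hn.fc (S.hn.fa p) := by
  apply Subtype.ext
  apply Prod.ext
  · exact V.ac p.1.1
  · show S.n p.1.1 - 1 - p.1.2 = S.n (V.a p.1.1) - 1 - p.1.2
    rw [S.hn.a]

/-- The last point of a chord. -/
theorem sphr_cp_last (p : Fl S.n) : (D.cp p).getLast? = some (D.pos (S.M p)) := by
  rw [← List.head?_reverse, ← D.cp_M, D.cp_head]

theorem sphr_pos_hf (i : ZMod m) (ε s ε' s' : F2) :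
    D.pos (D.hf (i, ε, s)) = D.pos (D.hf (i, ε', s')) := by
  rw [D.pos_hf]

/-- The vertex of a class of flags. -/
theorem sphr_vtx_out (p : Fl S.n) :
    D.vtx (Quot.out (Quot.mk (OStep [S.hn.fb, S.hn.fc, S.M]) p)) = D.vtx p := by
  refine sphr_orb_inv (sphr_out p) (F := D.vtx) ?_
  intro f hf x
  simp only [List.mem_cons, List.not_mem_nil, or_false] at hf
  rcases hf with rfl | rfl | rfl
  · exact D.vtx_b x
  · exact D.vtx_c x
  · exact D.vtx_M x

noncomputable def sphr_path : SPos.YY S m → List P3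
  | .inl y => D.cp (Quot.out y)
  | .inr i => D.ep i

noncomputable def sphr_lo : SPos.CC S → P3
  | none => D.lo 0
  | some v => D.lo (D.vtx (Quot.out v))

noncomputable def sphr_hi : SPos.CC S → P3
  | none => D.hi 0
  | some v => D.hi (D.vtx (Quot.out v))

theorem sphr_lo_mk (p : Fl S.n) : D.sphr_lo (some (Quot.mk _ p)) = D.lo (D.vtx p) := by
  show D.lo (D.vtx (Quot.out _)) = _
  rw [sphr_vtx_out]

theorem sphr_hi_mk (p : Fl S.n) : D.sphr_hi (some (Quot.mk _ p)) = D.hi (D.vtx p) := by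
  show D.hi (D.vtx (Quot.out _)) = _
  rw [sphr_vtx_out]

theorem sphr_head (y : SPos.YY S m) : (D.sphr_path y).head? = some (D.e0 y).1 := by
  cases y with
  | inl y => exact D.cp_head _
  | inr i => exact D.ep_head i

theorem sphr_last (y : SPos.YY S m) : (D.sphr_path y).getLast? = some (D.e1 y).1 := by
  cases y with
  | inl y => exact D.sphr_cp_last _
  | inr i => exact D.ep_last i

theorem sphr_disj (y y' : SPos.YY S m) (x : P3) (h : x ∈ D.sphr_path y) (h' : x ∈ D.sphr_path y')
    (hne : y ≠ y') : x = (D.e0 y).1 ∨ x = (D.e1 y).1 := by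
  cases y with
  | inl y =>
    cases y' with
    | inl y' =>
      rcases D.cp_cp _ _ x h h' with h1 | h1
      · exfalso
        apply hne
        have := Quot.eqvGen_sound (r := OStep [S.hn.fa, S.hn.fc, S.M]) h1
        rw [Quot.out_eq, Quot.out_eq] at this
        rw [this]
      · exact h1
    | inr i => exact (D.cp_ep _ i x h h').1
  | inr i =>
    cases y' with
    | inl y' =>
      rcases (D.cp_ep _ i x h' h).2 with h1 | h1
      · left
        rw [h1]
        exact D.sphr_pos_hf _ _ _ _ _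
      · right
        exact h1
    | inr j =>
      rcases D.ep_ep i j x (fun h1 => hne (by rw [h1])) h h' with h1 | h1
      · left
        rw [h1]
        exact D.sphr_pos_hf _ _ _ _ _
      · right
        exact h1

theorem sphr_chain (y : SPos.YY S m) : (D.sphr_path y).IsChain Adj := by
  cases y with
  | inl y => exact D.cp_chain _
  | inr i => exact D.ep_chain i

theorem sphr_nodup (y : SPos.YY S m) : (D.sphr_path y).Nodup := by
  cases y with
  | inl y => exact D.cp_nodup _
  | inr i => exact D.ep_nodup i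

theorem sphr_disj_e_inl (y : SPos.Chd S) (y' : SPos.YY S m) (hne : Sum.inl y ≠ y') :
    Disjoint (pe (D.sphr_path (Sum.inl y))) (pe (D.sphr_path y')) := by
  rw [Finset.disjoint_left]
  intro e he he'
  refine sphr_no_edge (D.sphr_chain (Sum.inl y)) (D.sphr_nodup _) (D.cp_len _)
    (D.sphr_head _) (D.sphr_last _) he ?_
  intro x hx
  exact D.sphr_disj (Sum.inl y) y' x (mem_of_on_pe (D.sphr_chain _) ⟨e, he, hx⟩)
    (mem_of_on_pe (D.sphr_chain _) ⟨e, he', hx⟩) hne

theorem sphr_disj_e (y y' : SPos.YY S m) (hne : y ≠ y') :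
    Disjoint (pe (D.sphr_path y)) (pe (D.sphr_path y')) := by
  cases y with
  | inl y => exact D.sphr_disj_e_inl y y' hne
  | inr i =>
    cases y' with
    | inl y' => exact (D.sphr_disj_e_inl y' (Sum.inr i) hne.symm).symm
    | inr j => exact D.ep_ep_e i j (fun h1 => hne (by rw [h1]))

theorem sphr_disj_pt (y : SPos.YY S m) (z : D.ZZ) (h : z.1 ∈ D.sphr_path y) :
    z = D.e0 y ∨ z = D.e1 y := by
  obtain ⟨z, p', rfl⟩ := z
  cases y with
  | inl y =>
    rcases D.cp_pos _ p' h with h1 | h1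
    · left; exact Subtype.ext h1
    · right; exact Subtype.ext h1
  | inr i =>
    by_cases hp : ∀ q, p' ≠ D.hf q
    · exact absurd h (D.ep_pos i p' hp)
    · push Not at hp
      obtain ⟨⟨j, ε, s⟩, rfl⟩ := hp
      have h1 : D.pos (D.hf (j, 0, 0)) ∈ D.ep i := by
        rw [D.sphr_pos_hf j 0 0 ε s]
        exact h
      rcases D.ep_hf i j h1 with rfl | rfl
      · left; exact Subtype.ext (D.sphr_pos_hf _ _ _ _ _)
      · right; exact Subtype.ext (D.sphr_pos_hf _ _ _ _ _)

theorem sphr_bd (c : SPos.CC S) (y : SPos.YY S m) (hc : c ≠ none)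
    (h : D.s0 y = c ∨ SPos.s1 y = c) : OnBd (D.sphr_lo c) (D.sphr_hi c) (D.sphr_path y) := by
  cases y with
  | inl y =>
    rcases h with h | h
    · subst h
      show OnBd (D.sphr_lo (some (Quot.mk _ _))) (D.sphr_hi (some (Quot.mk _ _))) (D.cp _)
      rw [sphr_lo_mk, sphr_hi_mk]
      exact D.cp_bd _
    · subst h
      show OnBd (D.sphr_lo (some (Quot.mk _ _))) (D.sphr_hi (some (Quot.mk _ _))) (D.cp _)
      rw [sphr_lo_mk, sphr_hi_mk, ← D.cp_a]
      exact D.cp_bd _
  | inr i =>
    rcases h with h | h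
    · subst h
      show OnBd (D.sphr_lo (some (Quot.mk _ _))) (D.sphr_hi (some (Quot.mk _ _))) (D.ep _)
      rw [sphr_lo_mk, sphr_hi_mk]
      exact D.ep_bd _
    · exact absurd h.symm hc

theorem sphr_empty (c : SPos.CC S) (y : SPos.YY S m) (x : P3) (hc : c ≠ none)
    (h : x ∈ D.sphr_path y) : ¬ InInt (D.sphr_lo c) (D.sphr_hi c) x := by
  cases c with
  | none => exact absurd rfl hc
  | some v =>
    cases y with
    | inl y => exact D.cp_int _ _ x h
    | inr i => exact D.ep_int _ _ x h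

theorem sphr_size (c : SPos.CC S) (i : Fin 3) : co3 (D.sphr_lo c) i + 2 ≤ co3 (D.sphr_hi c) i := by
  cases c with
  | none => exact D.size _ _
  | some v => exact D.size _ _

end SReal

end

/-- **The boundary of the special face is unknotted.** -/
theorem SReal.unknot [SwapHyp] {S : Carried V} {m : ℕ} [NeZero m] (D : SReal S m) {h : Φ}
    (hS : S.IsGood h) : Valid (Finset.univ.biUnion fun i => pe (D.ep i)) ∧
      IsLink (Finset.univ.biUnion fun i => pe (D.ep i)) unknot := by
  classical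
  obtain ⟨K, h0, h1, h2, h3⟩ := D.toSPos.exists_cellSphere hS
  let r : Realz K (none : SPos.CC S) :=
    { pt := Subtype.val
      path := D.sphr_path
      lo := D.sphr_lo
      hi := D.sphr_hi
      inj := Subtype.val_injective
      len := by
        intro y
        cases y with
        | inl y => exact le_trans (by norm_num) (D.cp_len _)
        | inr i => exact D.ep_len i
      chain := D.sphr_chain
      nodup := D.sphr_nodup
      head := by intro y; rw [h0]; exact D.sphr_head y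
      last := by intro y; rw [h1]; exact D.sphr_last y
      disj := by
        intro y y' x
        rw [h0, h1]
        exact D.sphr_disj y y' x
      disj_e := D.sphr_disj_e
      disj_pt := by
        intro y z
        rw [h0, h1]
        exact D.sphr_disj_pt y z
      size := D.sphr_size
      bd := by
        intro c y
        rw [h2, h3]
        exact D.sphr_bd c y
      empty := D.sphr_empty }
  have hlink : r.link (K.bd none) = Finset.univ.biUnion fun i => pe (D.ep i) := by
    ext e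
    rw [Realz.mem_link, Finset.mem_biUnion]
    constructor
    · rintro ⟨y, hy, he⟩
      have hy2 : K.s0 y = none ∨ K.s1 y = none := by
        unfold CellSphere.bd at hy
        exact (Finset.mem_filter.1 hy).2
      rw [h2, h3] at hy2
      cases y with
      | inl y =>
        exfalso
        rcases hy2 with hy2 | hy2 <;> simp [SPos.s0, SPos.s1] at hy2
      | inr i => exact ⟨i, Finset.mem_univ _, he⟩
    · rintro ⟨i, -, he⟩
      refine ⟨Sum.inr i, ?_, he⟩
      unfold CellSphere.bd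
      rw [Finset.mem_filter]
      refine ⟨Finset.mem_univ _, Or.inr ?_⟩
      rw [h3]
      rfl
  rw [← hlink]
  refine ⟨r.valid_bd none, ?_⟩
  obtain ⟨p0, x, p, q, p', q', l, hl, hsq, n1, n2, n3, n4, b1, b2, hll⟩ := D.start
  have ht : (none : SPos.CC S) ≠ some (Quot.mk _ p0) := by simp
  refine liso_link (r.link_iso ht).symm ?_
  -- the chord of `p0`
  obtain ⟨p1, hp1⟩ : ∃ p1, p1 = Quot.out (Quot.mk (OStep [S.hn.fa, S.hn.fc, S.M]) p0) := ⟨_, rfl⟩
  have horb : SameOrb [S.hn.fa, S.hn.fc, S.M] p1 p0 := by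
    rw [hp1]
    exact sphr_out p0
  have mkb : ∀ p, (Quot.mk (OStep [S.hn.fb, S.hn.fc, S.M]) (S.hn.fc p) : SPos.Vtx S) =
      Quot.mk _ p := fun p => (Quot.sound ⟨S.hn.fc, by simp, rfl⟩).symm
  have mkM : ∀ p, (Quot.mk (OStep [S.hn.fb, S.hn.fc, S.M]) (S.M p) : SPos.Vtx S) =
      Quot.mk _ p := fun p => (Quot.sound ⟨S.M, by simp, rfl⟩).symm
  have k1 : ({Quot.mk _ p1, Quot.mk _ (S.hn.fa p1)} : Set (SPos.Vtx S)) =
      {Quot.mk _ p0, Quot.mk _ (S.hn.fa p0)} := by
    refine sphr_orb_inv horb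
      (F := fun p => ({Quot.mk _ p, Quot.mk _ (S.hn.fa p)} : Set (SPos.Vtx S))) ?_
    intro f hf z
    simp only [List.mem_cons, List.not_mem_nil, or_false] at hf
    rcases hf with rfl | rfl | rfl
    · simp only [SReal.sphr_fa_fa]
      exact Set.pair_comm _ _
    · simp only [SReal.sphr_fa_fc, mkb]
    · simp only [S.aM, mkM]
  have k2 : ({D.cp p1, (D.cp p1).reverse} : Set (List P3)) = {D.cp p0, (D.cp p0).reverse} := by
    refine sphr_orb_inv horb (F := fun p => ({D.cp p, (D.cp p).reverse} : Set (List P3))) ?_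
    intro f hf z
    simp only [List.mem_cons, List.not_mem_nil, or_false] at hf
    rcases hf with rfl | rfl | rfl
    · simp only [D.cp_a]
    · simp only [D.cp_c]
    · simp only [D.cp_M, List.reverse_reverse]
      exact Set.pair_comm _ _
  have hy : K.s0 (Sum.inl (Quot.mk _ p0)) = some (Quot.mk _ p0) ∨
      K.s1 (Sum.inl (Quot.mk _ p0)) = some (Quot.mk _ p0) := by
    rw [h2, h3]
    show some (Quot.mk _ (Quot.out _)) = _ ∨ some (Quot.mk _ (S.hn.fa (Quot.out _))) = _
    rw [← hp1]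
    have : (Quot.mk _ p0 : SPos.Vtx S) ∈
        ({Quot.mk _ p1, Quot.mk _ (S.hn.fa p1)} : Set (SPos.Vtx S)) := by
      rw [k1]; simp
    rcases this with h4 | h4
    · left; rw [h4]
    · right; rw [Set.mem_singleton_iff.1 h4]
  have hpath : r.path (Sum.inl (Quot.mk _ p0)) = x :: p :: q :: l ∨
      (r.path (Sum.inl (Quot.mk _ p0))).reverse = x :: p :: q :: l := by
    show D.cp (Quot.out _) = _ ∨ (D.cp (Quot.out _)).reverse = _
    rw [← hp1, ← hl]
    have : D.cp p0 ∈ ({D.cp p1, (D.cp p1).reverse} : Set (List P3)) := by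
      rw [k2]; simp
    rcases this with h4 | h4
    · left; rw [h4]
    · right; rw [Set.mem_singleton_iff.1 h4]
  have e1 : r.lo (some (Quot.mk _ p0)) = D.lo (D.vtx p0) := D.sphr_lo_mk p0
  have e2 : r.hi (some (Quot.mk _ p0)) = D.hi (D.vtx p0) := D.sphr_hi_mk p0
  exact r.unknot_bd ht.symm hy hpath hsq (by rw [e1, e2]; exact n1) (by rw [e1, e2]; exact n2)
    (by rw [e1, e2]; exact n3) (by rw [e1, e2]; exact n4) (by rw [e1, e2]; exact b1)
    (by rw [e1, e2]; exact b2) hll

end Pool.Agent.Lib.MP_131179_gt.Dehn
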