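import Pool.Agent.Lib.MP_131179_gt.Dehn.Fine
import Pool.Agent.Lib.MP_131179_gt.Dehn.ChordK
import Pool.Agent.Lib.MP_131179_gt.Dehn.SphR

/-!
# The fine curve is unknotted
-/

set_option autoImplicit false

namespace Pool.Agent.Lib.MP_131179_gt.Dehn

section main2

variable {m : ℕ} [NeZero m] {c : Curve m} {A : Slots (EK c.K) m} {S : Carried A.attach}

/-- The special flags. -/
def main2_hf (hS : S.IsGood Slots.h0) (q : ZMod m × F2 × F2) : Fl S.n :=
  ⟨(.inr q, 0), by rw [n_inr hS q]; exact Nat.one_pos⟩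

theorem main2_isH (hS : S.IsGood Slots.h0) {p : Fl S.n} (h : IsH S p) :
    ∃ q, p = main2_hf hS q := by
  obtain ⟨q, hq⟩ := h
  refine ⟨q, Subtype.ext (Prod.ext hq ?_)⟩
  have h1 := p.2
  rw [hq, n_inr hS q] at h1
  exact Nat.lt_one_iff.1 h1

theorem main2_isH_hf (hS : S.IsGood Slots.h0) (q : ZMod m × F2 × F2) :
    IsH S (main2_hf hS q) := ⟨q, rfl⟩

theorem main2_not_isH (hS : S.IsGood Slots.h0) {p : Fl S.n} (h : ∀ q, p ≠ main2_hf hS q) :
    ¬ IsH S p := fun hp => by
  obtain ⟨q, hq⟩ := main2_isH hS hp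
  exact h q hq

theorem main2_ps_hf (hS : S.IsGood Slots.h0) (N : ℕ) (R : ℤ) (q : ZMod m × F2 × F2) :
    ps S N R (main2_hf hS q) = hpt N (c.edge q.1) := ps_H rfl

theorem main2_ps_a (N R : ℤ) (p : Fl S.n) : ps S N R (S.hn.fa p) = ps S N R p := by
  unfold ps
  rw [tht_a]
  have h1 : edgV (S.hn.fa p).1.1 = edgV p.1.1 := edgV_a (A := A) p.1.1
  rw [h1]

theorem main2_ps_c (hA : SlotsAt c A) (N R : ℤ) (p : Fl S.n) :
    ps S N R (S.hn.fc p) = ps S N R p := by
  unfold ps
  rw [tht_c]
  have h1 : edgV (S.hn.fc p).1.1 = edgV p.1.1 :=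
    (edgV_CD hA (TMap.CD.c A.attach p.1.1)).1.symm
  rw [h1]

theorem main2_hpt (hc : GoodCurve c) {N : ℕ} (hN : 3 ≤ N) {i j : ZMod m}
    (h : hpt N (c.edge i) = hpt N (c.edge j)) : i = j := by
  have hN2 : 2 ≤ N := by omega
  have h1 : hpt N (c.edge j) ∈ ep N c i := by
    rw [← h]
    exact List.mem_of_mem_head? (ep_head hc hN2 i)
  have h2 : hpt N (c.edge i) ∈ ep N c j := by
    rw [h]
    exact List.mem_of_mem_head? (ep_head hc hN2 j)
  rcases ep_hpt hc hN h1 with h3 | h3
  · exact h3.symm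
  rcases ep_hpt hc hN h2 with h4 | h4
  · exact h4
  exfalso
  have h5 : ((2 : ℕ) : ZMod m) = 0 := by
    have h6 : i = i + 1 + 1 := by rw [← h3, ← h4]
    have h7 : i + 0 = i + (1 + 1) := by rw [add_zero, ← add_assoc]; exact h6
    have h8 := add_left_cancel h7
    push_cast
    rw [h8]
    norm_num
  rw [ZMod.natCast_eq_zero_iff] at h5
  have h9 := Nat.le_of_dvd (by norm_num) h5
  have := hc.three
  omega

theorem main2_last (N : ℕ) (R : ℤ) (h : Good3 S N R) (p : Fl S.n) :
    (cpp S N R p).getLast? = some (ps S N R (S.M p)) := by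
  have h1 := cpp_head h (S.M p)
  rw [cpp_M h, List.head?_reverse] at h1
  exact h1

theorem main2_ps_M (N : ℕ) (R : ℤ) (h : Good3 S N R) (p : Fl S.n) :
    ps S N R (S.M p) ≠ ps S N R p := by
  intro he
  have h1 := cpp_head h p
  have h2 := main2_last N R h p
  have h3 := cpp_nodup h p
  have h4 := cpp_len h p
  rw [he] at h2
  match hl : cpp S N R p, h1, h2, h3, h4 with
  | x :: y :: z :: l, h1, h2, h3, h4 =>
    simp only [List.head?_cons, Option.some.injEq] at h1
    rw [List.getLast?_cons_cons, List.getLast?_cons_cons] at h2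
    have h5 := List.mem_of_mem_getLast? h2
    rw [← h1] at h5
    exact (List.nodup_cons.1 h3).1 (List.mem_cons_of_mem _ h5)

/-- The realization in the lattice. -/
noncomputable def main2_real {N : ℕ} {R : ℤ} (hN : 3 ≤ N) (h : Good3 S N R) : SReal S m where
  three := h.gc.three
  hf := main2_hf h.good
  hfi := fun q q' hq => Sum.inr_injective (congrArg (fun p : Fl S.n => p.1.1) hq)
  hfa := fun q => Subtype.ext rfl
  hfb := fun q => Subtype.ext rfl
  hfc := fun q => by
    refine Subtype.ext (Prod.ext rfl ?_)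
    show S.n (.inr q) - 1 - 0 = 0
    rw [n_inr h.good q]
  vtx := fun p => vtV p.1.1
  vtx_a := fun p => vtV_a (A := A) h.gc.three p.1.1
  vtx_b := fun p => vtV_b (A := A) p.1.1
  vtx_c := fun p => vtV_c (A := A) p.1.1
  vtx_M := fun p => (edgV_M h.sa p).2
  vtx_hf := fun i j hij => c.inj hij
  pos := ps S N R
  pos_a := main2_ps_a _ _
  pos_b := fun p hp => ps_b h.nr (main2_not_isH h.good hp)
  pos_c := main2_ps_c h.sa _ _
  pos_hf := fun q q' => by
    rw [main2_ps_hf, main2_ps_hf]
    exact ⟨main2_hpt h.gc hN, fun e => by rw [e]⟩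
  pos_ne := fun p q hp => ps_ne h.nr (main2_not_isH h.good hp) (main2_isH_hf h.good q)
  pos_inj := fun p p' hp hp' he =>
    ps_inj h.nr (main2_not_isH h.good hp) (main2_not_isH h.good hp') he
  pos_vtx := fun p p' hp hp' he hv =>
    ps_vt h.nr (main2_not_isH h.good hp) (main2_not_isH h.good hp') he hv
  pos_M := main2_ps_M N R h
  lo := bxl N
  hi := bxh N
  cp := cpp S N R
  ep := ep N c
  size := size_bx (by exact_mod_cast (show 2 ≤ N by omega))
  cp_a := cpp_a h
  cp_c := cpp_c h
  cp_M := cpp_M h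
  cp_head := cpp_head h
  cp_chain := cpp_chain h
  cp_nodup := cpp_nodup h
  cp_len := cpp_len h
  cp_bd := cpp_bd h
  cp_int := cpp_int h
  cp_cp := fun p p' x => cpp_cpp h
  cp_pos := fun p p' => cpp_ps h
  ep_head := fun i => by rw [main2_ps_hf]; exact ep_head h.gc (by omega) i
  ep_last := fun i => by rw [main2_ps_hf]; exact ep_last h.gc (by omega) i
  ep_chain := ep_chain h.gc (by omega)
  ep_nodup := ep_nodup h.gc (by omega)
  ep_len := ep_len h.gc (by omega)
  ep_bd := fun i => ep_bd h.gc hN i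
  ep_int := ep_int h.gc hN
  ep_ep := fun i j x hij hi hj => by
    rw [main2_ps_hf, main2_ps_hf]
    exact ep_disj h.gc hN hij hi hj
  ep_ep_e := fun i j hij => ep_disj_e h.gc hN hij
  ep_hf := fun i j hj => by
    rw [main2_ps_hf] at hj
    exact ep_hpt h.gc hN hj
  ep_pos := fun i p hp => ep_ps h (main2_not_isH h.good hp) i
  cp_ep := fun p i x hx hx' => by
    rw [main2_ps_hf, main2_ps_hf]
    exact cpp_ep h hx hx'
  start := cpp_start h

theorem main2_n_le (x : VF c) : S.n x ≤ Nat.card (Fl S.n) := by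
  have hf : Finite (Fl S.n) := S.fin
  let f : Fin (S.n x) → Fl S.n := fun k => ⟨(x, k.1), k.2⟩
  have hi : Function.Injective f := by
    intro k k' hk
    exact Fin.ext (congrArg (fun p : Fl S.n => p.1.2) hk)
  have h1 := Nat.card_le_card_of_injective f hi
  rwa [Nat.card_fin] at h1

end main2

/-- If there is an embedded sphere which passes exactly once over the special face, then the curve
is unknotted. -/
theorem unknot_of_good [SwapHyp] {m : ℕ} [NeZero m] {c : Curve m} {A : Slots (EK c.K) m}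
    (hc : GoodCurve c) (hA : SlotsAt c A) (hG : GoodSphere A.attach Slots.h0) :
    ∃ N : ℕ, 2 ≤ N ∧ Valid (fineK N c.K) ∧ IsLink (fineK N c.K) unknot := by
  obtain ⟨S, hS⟩ := hG
  have h : Good3 S ((3 * Nat.card (Fl S.n) + 20 : ℕ) : ℤ) ((Nat.card (Fl S.n) : ℤ) + 5) :=
    { gc := hc
      sa := hA
      good := hS
      nr :=
        { hR := by omega
          hN := fun x => by
            have := main2_n_le (S := S) x
            push_cast
            omega }
      card := by omega }
  refine ⟨3 * Nat.card (Fl S.n) + 20, by omega, ?_⟩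
  rw [fineK_eq hc (by omega)]
  exact (main2_real (by omega) h).unknot hS

end Pool.Agent.Lib.MP_131179_gt.Dehn
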