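import Pool.Agent.Lib.MP_131179_gt.Dehn.Lut

/-!
# Exchanging two edges
-/

set_option autoImplicit false
set_option linter.unusedSimpArgs false

namespace Pool.Agent.Lib.MP_131179_gt.Dehn

/-! ### Unlabelled words -/

private theorem sw_unit_ext {s t : List Unit} (h : s.length = t.length) : s = t :=
  List.ext_getElem h fun _ _ _ => rfl

/-- A numerical condition for paths of unlabelled words. -/
private def sw_okU : Word Unit → ℕ → ℕ → Prop
  | [], n, m => n = m
  | (k, i) :: w, n, m => i + k.inn ≤ n ∧ sw_okU w (n - k.inn + k.out) m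

private theorem sw_stepU {k : Kind Unit} {i : ℕ} {s t : List Unit} :
    Step (triv Unit) k i s t ↔ i + k.inn ≤ s.length ∧ t.length = s.length - k.inn + k.out := by
  constructor
  · intro h
    induction h with
    | cup c s => simp [Kind.inn, Kind.out]
    | cap c s => simp [Kind.inn, Kind.out]
    | pos a b s => simp [Kind.inn, Kind.out]
    | neg a b s => simp [Kind.inn, Kind.out]
    | there a h ih => simp only [List.length_cons]; omega
  · rintro ⟨h1, h2⟩
    induction i generalizing s t with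
    | zero =>
      cases k with
      | cup c =>
        have : t = () :: () :: s := sw_unit_ext (by simp [h2, Kind.inn, Kind.out])
        subst this
        exact Step.cup c s
      | cap =>
        have : s = () :: () :: t := sw_unit_ext (by
          simp only [Kind.inn, Kind.out] at h1 h2
          simp only [List.length_cons]
          omega)
        subst this
        exact Step.cap () t
      | pos =>
        simp only [Kind.inn, Kind.out] at h1 h2
        match s, h1, h2 with
        | _ :: _ :: s, h1, h2 =>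
          have : t = () :: () :: s := sw_unit_ext (by
            simp only [List.length_cons] at h2 ⊢
            omega)
          subst this
          exact Step.pos () () s
      | neg =>
        simp only [Kind.inn, Kind.out] at h1 h2
        match s, h1, h2 with
        | _ :: _ :: s, h1, h2 =>
          have : t = () :: () :: s := sw_unit_ext (by
            simp only [List.length_cons] at h2 ⊢
            omega)
          subst this
          exact Step.neg () () s
    | succ i ih =>
      match s, t, h1, h2 with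
      | [], t, h1, h2 => simp at h1
      | _ :: s, [], h1, h2 =>
        exfalso
        simp only [List.length_cons, List.length_nil] at h1 h2
        omega
      | _ :: s, _ :: t, h1, h2 =>
        refine Step.there () (ih ?_ ?_)
        · simp only [List.length_cons] at h1
          omega
        · simp only [List.length_cons] at h1 h2
          omega

private theorem sw_pathU {w : Word Unit} {s t : List Unit} :
    Path (triv Unit) w s t ↔ sw_okU w s.length t.length := by
  induction w generalizing s with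
  | nil =>
    rw [path_nil_iff]
    exact ⟨fun h => h ▸ rfl, sw_unit_ext⟩
  | cons l w ih =>
    obtain ⟨k, i⟩ := l
    rw [path_cons_iff]
    constructor
    · rintro ⟨t1, h1, h2⟩
      rw [sw_stepU] at h1
      rw [ih, h1.2] at h2
      exact ⟨h1.1, h2⟩
    · rintro ⟨h1, h2⟩
      refine ⟨List.replicate (s.length - k.inn + k.out) (), sw_stepU.2 ⟨h1, by simp⟩, ?_⟩
      rw [ih]
      simpa using h2

private theorem sw_mvU {u v u' v' : Word Unit} (b : Base u v) (r : ℕ) (hu : shift r u = u')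
    (hv : shift r v = v') {s t : List Unit} (h1 : sw_okU u' s.length t.length)
    (h2 : sw_okU v' s.length t.length) : Eqv (triv Unit) u' v' s t := by
  subst hu hv
  exact Eqv.move r b (sw_pathU.2 h1) (sw_pathU.2 h2)

private theorem sw_preU {a u v : Word Unit} {s t : List Unit} (n : ℕ) (h : sw_okU a s.length n)
    (h' : ∀ s' : List Unit, s'.length = n → Eqv (triv Unit) u v s' t) :
    Eqv (triv Unit) (a ++ u) (a ++ v) s t :=
  Eqv.prepend (sw_pathU.2 (by simpa using h)) (h' (List.replicate n ()) (by simp))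

private theorem sw_appU {b u v : Word Unit} {s t : List Unit} (n : ℕ) (h : sw_okU b n t.length)
    (h' : ∀ s' : List Unit, s'.length = n → Eqv (triv Unit) u v s s') :
    Eqv (triv Unit) (u ++ b) (v ++ b) s t :=
  Eqv.append (h' (List.replicate n ()) (by simp)) (sw_pathU.2 (by simpa using h))

section moves
variable {s t : List Unit} (r : ℕ)

private theorem U_zig (h : sw_okU [(.cup (), r + 1), (.cap, r)] s.length t.length) :
    Eqv (triv Unit) [(.cup (), r + 1), (.cap, r)] [] s t :=
  sw_mvU (v' := []) (Base.zig ()) r (by simp [Nat.add_comm]) rfl h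
    (by simp only [sw_okU, Kind.inn, Kind.out] at h ⊢; omega)

private theorem U_zag (h : sw_okU [(.cup (), r), (.cap, r + 1)] s.length t.length) :
    Eqv (triv Unit) [(.cup (), r), (.cap, r + 1)] [] s t :=
  sw_mvU (v' := []) (Base.zag ()) r (by simp [Nat.add_comm]) rfl h
    (by simp only [sw_okU, Kind.inn, Kind.out] at h ⊢; omega)

private theorem U_capOver (h : sw_okU [(.pos, r), (.cap, r + 1)] s.length t.length) :
    Eqv (triv Unit) [(.pos, r), (.cap, r + 1)] [(.neg, r + 1), (.cap, r)] s t :=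
  sw_mvU Base.capOver r (by simp [Nat.add_comm]) (by simp [Nat.add_comm]) h
    (by simp only [sw_okU, Kind.inn, Kind.out] at h ⊢; omega)

private theorem U_capUnder (h : sw_okU [(.neg, r), (.cap, r + 1)] s.length t.length) :
    Eqv (triv Unit) [(.neg, r), (.cap, r + 1)] [(.pos, r + 1), (.cap, r)] s t :=
  sw_mvU Base.capUnder r (by simp [Nat.add_comm]) (by simp [Nat.add_comm]) h
    (by simp only [sw_okU, Kind.inn, Kind.out] at h ⊢; omega)

private theorem U_cupOver (h : sw_okU [(.cup (), r + 1), (.pos, r)] s.length t.length) :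
    Eqv (triv Unit) [(.cup (), r + 1), (.pos, r)] [(.cup (), r), (.neg, r + 1)] s t :=
  sw_mvU (Base.cupOver () ()) r (by simp [Nat.add_comm]) (by simp [Nat.add_comm]) h
    (by simp only [sw_okU, Kind.inn, Kind.out] at h ⊢; omega)

private theorem U_r1CupPos (h : sw_okU [(.cup (), r), (.pos, r)] s.length t.length) :
    Eqv (triv Unit) [(.cup (), r), (.pos, r)] [(.cup (), r)] s t :=
  sw_mvU (Base.r1CupPos () ()) r (by simp) (by simp) h
    (by simp only [sw_okU, Kind.inn, Kind.out] at h ⊢; omega)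

private theorem U_r1CupNeg (h : sw_okU [(.cup (), r), (.neg, r)] s.length t.length) :
    Eqv (triv Unit) [(.cup (), r), (.neg, r)] [(.cup (), r)] s t :=
  sw_mvU (Base.r1CupNeg () ()) r (by simp) (by simp) h
    (by simp only [sw_okU, Kind.inn, Kind.out] at h ⊢; omega)

private theorem U_r1CapPos (h : sw_okU [(.pos, r), (.cap, r)] s.length t.length) :
    Eqv (triv Unit) [(.pos, r), (.cap, r)] [(.cap, r)] s t :=
  sw_mvU Base.r1CapPos r (by simp) (by simp) h
    (by simp only [sw_okU, Kind.inn, Kind.out] at h ⊢; omega)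

/-- `cup r, neg (r + 1), cap r`. -/
private theorem U_3 (h : sw_okU [(.cup (), r), (.neg, r + 1), (.cap, r)] s.length t.length) :
    Eqv (triv Unit) [(.cup (), r), (.neg, r + 1), (.cap, r)] [] s t := by
  have h' := h
  simp only [sw_okU, Kind.inn, Kind.out] at h
  have e1 : Eqv (triv Unit) ([(.cup (), r)] ++ [(.neg, r + 1), (.cap, r)])
      ([(.cup (), r)] ++ [(.pos, r), (.cap, r + 1)]) s t :=
    sw_preU (s.length + 2) (by simp only [sw_okU, Kind.inn, Kind.out]; omega) fun s' hs' =>
      (U_capOver r (by simp only [sw_okU, Kind.inn, Kind.out]; omega)).symm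
  have e2 : Eqv (triv Unit) ([(.cup (), r), (.pos, r)] ++ [(.cap, r + 1)])
      ([(.cup (), r)] ++ [(.cap, r + 1)]) s t :=
    sw_appU (s.length + 2) (by simp only [sw_okU, Kind.inn, Kind.out]; omega) fun s' hs' =>
      U_r1CupPos r (by simp only [sw_okU, Kind.inn, Kind.out]; omega)
  exact e1.trans (e2.trans (U_zag r (by simp only [sw_okU, Kind.inn, Kind.out]; omega)))

/-- `cup r, pos (r + 1), cap r`. -/
private theorem U_4 (h : sw_okU [(.cup (), r), (.pos, r + 1), (.cap, r)] s.length t.length) :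
    Eqv (triv Unit) [(.cup (), r), (.pos, r + 1), (.cap, r)] [] s t := by
  simp only [sw_okU, Kind.inn, Kind.out] at h
  have e1 : Eqv (triv Unit) ([(.cup (), r)] ++ [(.pos, r + 1), (.cap, r)])
      ([(.cup (), r)] ++ [(.neg, r), (.cap, r + 1)]) s t :=
    sw_preU (s.length + 2) (by simp only [sw_okU, Kind.inn, Kind.out]; omega) fun s' hs' =>
      (U_capUnder r (by simp only [sw_okU, Kind.inn, Kind.out]; omega)).symm
  have e2 : Eqv (triv Unit) ([(.cup (), r), (.neg, r)] ++ [(.cap, r + 1)])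
      ([(.cup (), r)] ++ [(.cap, r + 1)]) s t :=
    sw_appU (s.length + 2) (by simp only [sw_okU, Kind.inn, Kind.out]; omega) fun s' hs' =>
      U_r1CupNeg r (by simp only [sw_okU, Kind.inn, Kind.out]; omega)
  exact e1.trans (e2.trans (U_zag r (by simp only [sw_okU, Kind.inn, Kind.out]; omega)))

/-- `cup (r + 1), pos (r + 2), cap r ~ pos r`. -/
private theorem U_6 (h : sw_okU [(.cup (), r + 1), (.pos, r + 2), (.cap, r)] s.length t.length) :
    Eqv (triv Unit) [(.cup (), r + 1), (.pos, r + 2), (.cap, r)] [(.pos, r)] s t := by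
  simp only [sw_okU, Kind.inn, Kind.out] at h
  have e1 : Eqv (triv Unit) ([(.cup (), r + 1)] ++ [(.pos, r + 2), (.cap, r)])
      ([(.cup (), r + 1)] ++ [(.cap, r), (.pos, r)]) s t :=
    sw_preU (s.length + 2) (by simp only [sw_okU, Kind.inn, Kind.out]; omega) fun s' hs' =>
      (sw_mvU (Base.far .cap .pos 0) r (u' := [(.cap, r), (.pos, r)]) (v' := [(.pos, r + 2), (.cap, r)])
        (by simp [Kind.out]) (by simp [Kind.inn, Nat.add_comm])
        (by simp only [sw_okU, Kind.inn, Kind.out]; omega)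
        (by simp only [sw_okU, Kind.inn, Kind.out]; omega)).symm
  have e2 : Eqv (triv Unit) ([(.cup (), r + 1), (.cap, r)] ++ [(.pos, r)])
      ([] ++ [(.pos, r)]) s t :=
    sw_appU s.length (by simp only [sw_okU, Kind.inn, Kind.out]; omega) fun s' hs' =>
      U_zig r (by simp only [sw_okU, Kind.inn, Kind.out]; omega)
  exact e1.trans e2

/-- `cup r, neg (r + 2), cap (r + 1) ~ neg r`. -/
private theorem U_7 (h : sw_okU [(.cup (), r), (.neg, r + 2), (.cap, r + 1)] s.length t.length) :
    Eqv (triv Unit) [(.cup (), r), (.neg, r + 2), (.cap, r + 1)] [(.neg, r)] s t := by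
  simp only [sw_okU, Kind.inn, Kind.out] at h
  have e1 : Eqv (triv Unit) ([(.cup (), r), (.neg, r + 2)] ++ [(.cap, r + 1)])
      ([(.neg, r), (.cup (), r)] ++ [(.cap, r + 1)]) s t :=
    sw_appU (s.length + 2) (by simp only [sw_okU, Kind.inn, Kind.out]; omega) fun s' hs' =>
      sw_mvU (Base.far (.cup ()) .neg 0) r (by simp [Kind.out, Nat.add_comm])
        (by simp [Kind.inn])
        (by simp only [sw_okU, Kind.inn, Kind.out]; omega)
        (by simp only [sw_okU, Kind.inn, Kind.out]; omega)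
  have e2 : Eqv (triv Unit) ([(.neg, r)] ++ [(.cup (), r), (.cap, r + 1)])
      ([(.neg, r)] ++ []) s t :=
    sw_preU s.length (by simp only [sw_okU, Kind.inn, Kind.out]; omega) fun s' hs' =>
      U_zag r (by simp only [sw_okU, Kind.inn, Kind.out]; omega)
  exact e1.trans e2

/-- `cup (r + 2), pos (r + 1), cap r ~ neg r`. -/
private theorem U_9 (h : sw_okU [(.cup (), r + 2), (.pos, r + 1), (.cap, r)] s.length t.length) :
    Eqv (triv Unit) [(.cup (), r + 2), (.pos, r + 1), (.cap, r)] [(.neg, r)] s t := by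
  simp only [sw_okU, Kind.inn, Kind.out] at h
  have e1 : Eqv (triv Unit) ([(.cup (), r + 2)] ++ [(.pos, r + 1), (.cap, r)])
      ([(.cup (), r + 2)] ++ [(.neg, r), (.cap, r + 1)]) s t :=
    sw_preU (s.length + 2) (by simp only [sw_okU, Kind.inn, Kind.out]; omega) fun s' hs' =>
      (U_capUnder r (by simp only [sw_okU, Kind.inn, Kind.out]; omega)).symm
  have e2 : Eqv (triv Unit) ([(.cup (), r + 2), (.neg, r)] ++ [(.cap, r + 1)])
      ([(.neg, r), (.cup (), r + 2)] ++ [(.cap, r + 1)]) s t :=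
    sw_appU (s.length + 2) (by simp only [sw_okU, Kind.inn, Kind.out]; omega) fun s' hs' =>
      (sw_mvU (Base.far .neg (.cup ()) 0) r (u' := [(.neg, r), (.cup (), r + 2)])
        (v' := [(.cup (), r + 2), (.neg, r)]) (by simp [Kind.out, Nat.add_comm])
        (by simp [Kind.inn, Nat.add_comm])
        (by simp only [sw_okU, Kind.inn, Kind.out]; omega)
        (by simp only [sw_okU, Kind.inn, Kind.out]; omega)).symm
  have e3 : Eqv (triv Unit) ([(.neg, r)] ++ [(.cup (), r + 2), (.cap, r + 1)])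
      ([(.neg, r)] ++ []) s t :=
    sw_preU s.length (by simp only [sw_okU, Kind.inn, Kind.out]; omega) fun s' hs' =>
      U_zig (r + 1) (by simp only [sw_okU, Kind.inn, Kind.out]; omega)
  exact e1.trans (e2.trans e3)

/-- `cup r, neg (r + 1), cap (r + 2) ~ pos r`. -/
private theorem U_10 (h : sw_okU [(.cup (), r), (.neg, r + 1), (.cap, r + 2)] s.length t.length) :
    Eqv (triv Unit) [(.cup (), r), (.neg, r + 1), (.cap, r + 2)] [(.pos, r)] s t := by
  simp only [sw_okU, Kind.inn, Kind.out] at h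
  have e1 : Eqv (triv Unit) ([(.cup (), r), (.neg, r + 1)] ++ [(.cap, r + 2)])
      ([(.cup (), r + 1), (.pos, r)] ++ [(.cap, r + 2)]) s t :=
    sw_appU (s.length + 2) (by simp only [sw_okU, Kind.inn, Kind.out]; omega) fun s' hs' =>
      (U_cupOver r (by simp only [sw_okU, Kind.inn, Kind.out]; omega)).symm
  have e2 : Eqv (triv Unit) ([(.cup (), r + 1)] ++ [(.pos, r), (.cap, r + 2)])
      ([(.cup (), r + 1)] ++ [(.cap, r + 2), (.pos, r)]) s t :=
    sw_preU (s.length + 2) (by simp only [sw_okU, Kind.inn, Kind.out]; omega) fun s' hs' =>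
      sw_mvU (Base.far .pos .cap 0) r (by simp [Kind.out, Nat.add_comm])
        (by simp [Kind.inn, Nat.add_comm])
        (by simp only [sw_okU, Kind.inn, Kind.out]; omega)
        (by simp only [sw_okU, Kind.inn, Kind.out]; omega)
  have e3 : Eqv (triv Unit) ([(.cup (), r + 1), (.cap, r + 2)] ++ [(.pos, r)])
      ([] ++ [(.pos, r)]) s t :=
    sw_appU s.length (by simp only [sw_okU, Kind.inn, Kind.out]; omega) fun s' hs' =>
      U_zag (r + 1) (by simp only [sw_okU, Kind.inn, Kind.out]; omega)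
  exact e1.trans (e2.trans e3)

/-- `cup (r + 1), neg (r + 1), cap r ~ []`. -/
private theorem U_12 (h : sw_okU [(.cup (), r + 1), (.neg, r + 1), (.cap, r)] s.length t.length) :
    Eqv (triv Unit) [(.cup (), r + 1), (.neg, r + 1), (.cap, r)] [] s t := by
  simp only [sw_okU, Kind.inn, Kind.out] at h
  have e2 : Eqv (triv Unit) ([(.cup (), r + 1), (.neg, r + 1)] ++ [(.cap, r)])
      ([(.cup (), r + 1)] ++ [(.cap, r)]) s t :=
    sw_appU (s.length + 2) (by simp only [sw_okU, Kind.inn, Kind.out]; omega) fun s' hs' =>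
      U_r1CupNeg (r + 1) (by simp only [sw_okU, Kind.inn, Kind.out]; omega)
  exact e2.trans (U_zig r (by simp only [sw_okU, Kind.inn, Kind.out]; omega))

/-- `cup r, pos (r + 1), cap (r + 1) ~ []`. -/
private theorem U_13 (h : sw_okU [(.cup (), r), (.pos, r + 1), (.cap, r + 1)] s.length t.length) :
    Eqv (triv Unit) [(.cup (), r), (.pos, r + 1), (.cap, r + 1)] [] s t := by
  simp only [sw_okU, Kind.inn, Kind.out] at h
  have e2 : Eqv (triv Unit) ([(.cup (), r)] ++ [(.pos, r + 1), (.cap, r + 1)])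
      ([(.cup (), r)] ++ [(.cap, r + 1)]) s t :=
    sw_preU (s.length + 2) (by simp only [sw_okU, Kind.inn, Kind.out]; omega) fun s' hs' =>
      U_r1CapPos (r + 1) (by simp only [sw_okU, Kind.inn, Kind.out]; omega)
  exact e2.trans (U_zag r (by simp only [sw_okU, Kind.inn, Kind.out]; omega))

end moves

/-! ### Strands -/

private theorem sw_st_lt {x z x' z' : ℤ} : st x z < st x' z' ↔ x < x' ∨ x = x' ∧ z < z' := by
  unfold st
  exact Prod.Lex.toLex_lt_toLex

private theorem sw_st_eq {x z x' z' : ℤ} : st x z = st x' z' ↔ x = x' ∧ z = z' := by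
  unfold st
  rw [toLex_inj, Prod.mk.injEq]

private theorem sw_st_eta (q : Site) : st (cx q) (cz q) = q := rfl

@[simp] private theorem sw_cz_st (x z : ℤ) : cz (st x z) = z := rfl

@[simp] private theorem sw_cx_st (x z : ℤ) : cx (st x z) = x := rfl

private theorem sw_mem_nxs {P : Finset Site} {e : HE} {q : Site} :
    q ∈ nxs P e ↔ (q ∈ P ∧ ¬ (q = e.lo ∨ q = e.hi)) ∨ ((q = e.lo ∨ q = e.hi) ∧ q ∉ P) := by
  unfold nxs
  rw [Finset.mem_symmDiff, Finset.mem_insert, Finset.mem_singleton]

private theorem sw_length_lst1 (P : Finset Site) : (lst1 P).length = P.card := by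
  simp [lst1, lst]

private theorem sw_lst1_eq {P : Finset Site} {s : List Unit} (h : s.length = P.card) : s = lst1 P :=
  sw_unit_ext (by rw [h, sw_length_lst1])

private theorem sw_run1_path (P : Finset Site) (es : List HE) :
    Path (triv Unit) (run1 P es) (lst1 P) (lst1 (fin P es)) :=
  run_path _ P es fun _ _ => rfl

private theorem sw_run1_path' (P : Finset Site) (e e' : HE) :
    Path (triv Unit) (run1 P [e', e]) (lst1 P) (lst1 (fin P [e, e'])) := by
  rw [fin_perm (List.Perm.swap e' e [])]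
  exact sw_run1_path P [e', e]

private theorem sw_run1_two (P : Finset Site) (e e' : HE) :
    run1 P [e, e'] = wd (fun _ => ()) P e ++ wd (fun _ => ()) (nxs P e) e' := by
  show wd (fun _ => ()) P e ++ (wd (fun _ => ()) (nxs P e) e' ++ []) = _
  rw [List.append_nil]

private theorem sw_run1_one (P : Finset Site) (e : HE) :
    run1 P [e] = wd (fun _ => ()) P e := by
  show wd (fun _ => ()) P e ++ [] = _
  rw [List.append_nil]

private theorem swap_symm {P : Finset Site} {e e' : HE}
    (h : Eqv (triv Unit) (run1 P [e, e']) (run1 P [e', e]) (lst1 P) (lst1 (fin P [e, e']))) :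
    Eqv (triv Unit) (run1 P [e', e]) (run1 P [e, e']) (lst1 P) (lst1 (fin P [e', e])) := by
  rw [fin_perm (List.Perm.swap e e' [])]
  exact h.symm

/-! ### Distant edges -/

private theorem swap_sep (P : Finset Site) {e e' : HE} (h : e.hi < e'.lo) :
    Eqv (triv Unit) (run1 P [e, e']) (run1 P [e', e]) (lst1 P) (lst1 (fin P [e, e'])) := by
  have hlt := e.lo_lt_hi
  have hlt' := e'.lo_lt_hi
  obtain ⟨P1, hP1⟩ : ∃ P1, P1 = P.filter fun q => q < e'.lo := ⟨_, rfl⟩
  obtain ⟨P2, hP2⟩ : ∃ P2, P2 = P.filter fun q => ¬ q < e'.lo := ⟨_, rfl⟩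
  have m1 : ∀ q, q ∈ P1 ↔ q ∈ P ∧ q < e'.lo := fun q => by rw [hP1, Finset.mem_filter]
  have m2 : ∀ q, q ∈ P2 ↔ q ∈ P ∧ ¬ q < e'.lo := fun q => by rw [hP2, Finset.mem_filter]
  have hP : P = P1 ∪ P2 := by
    ext q
    rw [Finset.mem_union, m1, m2]
    tauto
  have n1 : ∀ q ∈ nxs P1 e, q < e'.lo := by
    intro q hq
    rcases sw_mem_nxs.1 hq with ⟨hq, -⟩ | ⟨rfl | rfl, -⟩
    · exact ((m1 q).1 hq).2
    · exact hlt.trans h
    · exact h
  have n2 : ∀ q ∈ nxs P2 e', ¬ q < e'.lo := by
    intro q hq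
    rcases sw_mem_nxs.1 hq with ⟨hq, -⟩ | ⟨rfl | rfl, -⟩
    · exact ((m2 q).1 hq).2
    · exact lt_irrefl _
    · exact not_lt.2 hlt'.le
  have x1 : nxs P e = nxs P1 e ∪ P2 := by
    ext q
    rw [Finset.mem_union, sw_mem_nxs, sw_mem_nxs, m1, m2]
    by_cases hq : q = e.lo ∨ q = e.hi
    · have : q < e'.lo := by
        rcases hq with rfl | rfl
        · exact hlt.trans h
        · exact h
      tauto
    · tauto
  have x2 : nxs P e' = P1 ∪ nxs P2 e' := by
    ext q
    rw [Finset.mem_union, sw_mem_nxs, sw_mem_nxs, m1, m2]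
    by_cases hq : q = e'.lo ∨ q = e'.hi
    · have : ¬ q < e'.lo := by
        rcases hq with rfl | rfl
        · exact lt_irrefl _
        · exact not_lt.2 hlt'.le
      tauto
    · tauto
  have w1 : wd (fun _ => ()) P e = wd (fun _ => ()) P1 e := by
    conv_lhs => rw [hP]
    exact wd_left _ fun q hq => h.trans_le (not_lt.1 ((m2 q).1 hq).2)
  have w2 : wd (fun _ => ()) (nxs P e') e = wd (fun _ => ()) P1 e := by
    rw [x2]
    exact wd_left _ fun q hq => h.trans_le (not_lt.1 (n2 q hq))
  have w3 : wd (fun _ => ()) P e' = shift P1.card (wd (fun _ => ()) P2 e') := by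
    conv_lhs => rw [hP]
    refine wd_right _ (fun q hq => ((m1 q).1 hq).2) ?_
    rw [Finset.disjoint_left]
    intro q h2 h1
    exact ((m2 q).1 h2).2 ((m1 q).1 h1).2
  have w4 : wd (fun _ => ()) (nxs P e) e' = shift (nxs P1 e).card (wd (fun _ => ()) P2 e') := by
    rw [x1]
    refine wd_right _ n1 ?_
    rw [Finset.disjoint_left]
    intro q h2 h1
    exact ((m2 q).1 h2).2 (n1 q h1)
  have c1 : P1.card + P2.card = P.card := by
    rw [hP, Finset.card_union_of_disjoint]
    rw [Finset.disjoint_left]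
    intro q h1 h2
    exact ((m2 q).1 h2).2 ((m1 q).1 h1).2
  have x3 : fin P [e, e'] = nxs P1 e ∪ nxs P2 e' := by
    show nxs (nxs P e) e' = _
    ext q
    rw [x1, sw_mem_nxs, Finset.mem_union, Finset.mem_union, sw_mem_nxs (P := P2)]
    by_cases hq : q = e'.lo ∨ q = e'.hi
    · have h3 : ¬ q < e'.lo := by
        rcases hq with rfl | rfl
        · exact lt_irrefl _
        · exact not_lt.2 hlt'.le
      have h4 : q ∉ nxs P1 e := fun h5 => h3 (n1 q h5)
      tauto
    · tauto
  have c2 : (nxs P1 e).card + (nxs P2 e').card = (fin P [e, e']).card := by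
    rw [x3, Finset.card_union_of_disjoint]
    rw [Finset.disjoint_left]
    intro q h1 h2
    exact n2 q h2 (n1 q h1)
  have key := interchange (sw_run1_path P1 [e]) (sw_run1_path P2 [e'])
  rw [sw_run1_two, sw_run1_two, w1, w2, w3, w4]
  rw [sw_run1_one, sw_run1_one, sw_length_lst1, sw_length_lst1] at key
  refine key.cast rfl rfl (sw_lst1_eq ?_) (sw_lst1_eq ?_)
  · rw [List.length_append, sw_length_lst1, sw_length_lst1, c1]
  · rw [List.length_append, sw_length_lst1, sw_length_lst1]
    exact c2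

/-! ### Layers -/

private theorem sw_front_nxs {d : ℤ} {P : Finset Site} {e : HE} (h : d ≤ cz e.lo) (h' : d ≤ cz e.hi) :
    front d (nxs P e) = nxs (front d P) e := by
  ext q
  unfold front
  rw [Finset.mem_filter, sw_mem_nxs, sw_mem_nxs, Finset.mem_filter]
  by_cases hq : q = e.lo ∨ q = e.hi
  · have : d ≤ cz q := by rcases hq with rfl | rfl <;> assumption
    tauto
  · tauto

private theorem sw_back_nxs {d : ℤ} {P : Finset Site} {e : HE} (h : d ≤ cz e.lo) (h' : d ≤ cz e.hi) :
    back d (nxs P e) = back d P := by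
  ext q
  unfold back
  rw [Finset.mem_filter, sw_mem_nxs, Finset.mem_filter]
  by_cases hq : q = e.lo ∨ q = e.hi
  · have : d ≤ cz q := by rcases hq with rfl | rfl <;> assumption
    tauto
  · tauto

private theorem sw_front_nxs' {d : ℤ} {P : Finset Site} {e : HE} (h : ¬ d ≤ cz e.lo)
    (h' : ¬ d ≤ cz e.hi) : front d (nxs P e) = front d P := by
  ext q
  unfold front
  rw [Finset.mem_filter, sw_mem_nxs, Finset.mem_filter]
  by_cases hq : q = e.lo ∨ q = e.hi
  · have : ¬ d ≤ cz q := by rcases hq with rfl | rfl <;> assumption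
    tauto
  · tauto

private theorem sw_back_nxs' {d : ℤ} {P : Finset Site} {e : HE} (h : ¬ d ≤ cz e.lo)
    (h' : ¬ d ≤ cz e.hi) : back d (nxs P e) = nxs (back d P) e := by
  ext q
  unfold back
  rw [Finset.mem_filter, sw_mem_nxs, sw_mem_nxs, Finset.mem_filter]
  by_cases hq : q = e.lo ∨ q = e.hi
  · have : ¬ d ≤ cz q := by rcases hq with rfl | rfl <;> assumption
    tauto
  · tauto

/-- One edge is in front of the other one. -/
private theorem swap_layers (d : ℤ) (P : Finset Site) {e e' : HE} (h1 : d ≤ cz e.lo)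
    (h2 : d ≤ cz e.hi) (h3 : ¬ d ≤ cz e'.lo) (h4 : ¬ d ≤ cz e'.hi) :
    Eqv (triv Unit) (run1 P [e, e']) (run1 P [e', e]) (lst1 P) (lst1 (fin P [e, e'])) := by
  have f1 : HE.isFront d e = true := by simp [HE.isFront, h1]
  have f2 : HE.isFront d e' = false := by simp only [HE.isFront, decide_eq_false_iff_not]; exact h3
  have g1 : HE.Good d e := ⟨fun _ => h2, fun _ => h1⟩
  have g2 : HE.Good d e' := ⟨fun h => absurd h h3, fun h => absurd h h4⟩
  refine lut_run d P (es := [e, e']) (es' := [e', e]) ?_ ?_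
    (fin_perm (List.Perm.swap e' e [])) ?_ ?_
  · intro x hx
    rw [List.mem_cons, List.mem_singleton] at hx
    rcases hx with rfl | rfl <;> assumption
  · intro x hx
    rw [List.mem_cons, List.mem_singleton] at hx
    rcases hx with rfl | rfl <;> assumption
  · simp only [List.filter_cons, List.filter_nil, f1, f2, if_true, Bool.false_eq_true, if_false]
    have h5 : front d (fin P [e, e']) = fin (front d P) [e] := by
      show front d (nxs (nxs P e) e') = nxs (front d P) e
      rw [sw_front_nxs' h3 h4, sw_front_nxs h1 h2]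
    rw [h5]
    exact Eqv.refl (sw_run1_path _ _)
  · simp only [List.filter_cons, List.filter_nil, f1, f2, if_true, Bool.false_eq_true, if_false,
      Bool.not_true, Bool.not_false]
    have h5 : back d (fin P [e, e']) = fin (back d P) [e'] := by
      show back d (nxs (nxs P e) e') = nxs (back d P) e'
      rw [sw_back_nxs' h3 h4, sw_back_nxs h1 h2]
    rw [h5]
    exact Eqv.refl (sw_run1_path _ _)

/-- Strands behind both edges can be removed. -/
private theorem swap_front (d : ℤ) (P : Finset Site) {e e' : HE} (h1 : d ≤ cz e.lo)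
    (h2 : d ≤ cz e.hi) (h3 : d ≤ cz e'.lo) (h4 : d ≤ cz e'.hi)
    (h : Eqv (triv Unit) (run1 (front d P) [e, e']) (run1 (front d P) [e', e]) (lst1 (front d P))
      (lst1 (fin (front d P) [e, e']))) :
    Eqv (triv Unit) (run1 P [e, e']) (run1 P [e', e]) (lst1 P) (lst1 (fin P [e, e'])) := by
  have f1 : HE.isFront d e = true := by simp [HE.isFront, h1]
  have f2 : HE.isFront d e' = true := by simp [HE.isFront, h3]
  have g1 : HE.Good d e := ⟨fun _ => h2, fun _ => h1⟩
  have g2 : HE.Good d e' := ⟨fun _ => h4, fun _ => h3⟩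
  refine lut_run d P (es := [e, e']) (es' := [e', e]) ?_ ?_
    (fin_perm (List.Perm.swap e' e [])) ?_ ?_
  · intro x hx
    rw [List.mem_cons, List.mem_singleton] at hx
    rcases hx with rfl | rfl <;> assumption
  · intro x hx
    rw [List.mem_cons, List.mem_singleton] at hx
    rcases hx with rfl | rfl <;> assumption
  · simp only [List.filter_cons, List.filter_nil, f1, f2, if_true]
    have h5 : front d (fin P [e, e']) = fin (front d P) [e, e'] := by
      show front d (nxs (nxs P e) e') = nxs (nxs (front d P) e) e'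
      rw [sw_front_nxs h3 h4, sw_front_nxs h1 h2]
    rw [h5]
    exact h
  · simp only [List.filter_cons, List.filter_nil, f1, f2, Bool.not_true, Bool.false_eq_true,
      if_false]
    have h5 : back d (fin P [e, e']) = back d P := by
      show back d (nxs (nxs P e) e') = back d P
      rw [sw_back_nxs h3 h4, sw_back_nxs h1 h2]
    rw [h5]
    exact Eqv.refl (Path.nil _)

/-- Strands in front of both edges can be removed. -/
private theorem swap_back (d : ℤ) (P : Finset Site) {e e' : HE} (h1 : ¬ d ≤ cz e.lo)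
    (h2 : ¬ d ≤ cz e.hi) (h3 : ¬ d ≤ cz e'.lo) (h4 : ¬ d ≤ cz e'.hi)
    (h : Eqv (triv Unit) (run1 (back d P) [e, e']) (run1 (back d P) [e', e]) (lst1 (back d P))
      (lst1 (fin (back d P) [e, e']))) :
    Eqv (triv Unit) (run1 P [e, e']) (run1 P [e', e]) (lst1 P) (lst1 (fin P [e, e'])) := by
  have f1 : HE.isFront d e = false := by simp only [HE.isFront, decide_eq_false_iff_not]; exact h1
  have f2 : HE.isFront d e' = false := by simp only [HE.isFront, decide_eq_false_iff_not]; exact h3
  have g1 : HE.Good d e := ⟨fun h => absurd h h1, fun h => absurd h h2⟩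
  have g2 : HE.Good d e' := ⟨fun h => absurd h h3, fun h => absurd h h4⟩
  refine lut_run d P (es := [e, e']) (es' := [e', e]) ?_ ?_
    (fin_perm (List.Perm.swap e' e [])) ?_ ?_
  · intro x hx
    rw [List.mem_cons, List.mem_singleton] at hx
    rcases hx with rfl | rfl <;> assumption
  · intro x hx
    rw [List.mem_cons, List.mem_singleton] at hx
    rcases hx with rfl | rfl <;> assumption
  · simp only [List.filter_cons, List.filter_nil, f1, f2, Bool.false_eq_true, if_false]
    have h5 : front d (fin P [e, e']) = front d P := by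
      show front d (nxs (nxs P e) e') = front d P
      rw [sw_front_nxs' h3 h4, sw_front_nxs' h1 h2]
    rw [h5]
    exact Eqv.refl (Path.nil _)
  · simp only [List.filter_cons, List.filter_nil, f1, f2, Bool.not_false, if_true]
    have h5 : back d (fin P [e, e']) = fin (back d P) [e, e'] := by
      show back d (nxs (nxs P e) e') = nxs (nxs (back d P) e) e'
      rw [sw_back_nxs' h3 h4, sw_back_nxs' h1 h2]
    rw [h5]
    exact h

private theorem HE.Disj.symm {e e' : HE} (h : e.Disj e') : e'.Disj e :=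
  ⟨h.1.symm, h.2.2.1.symm, h.2.1.symm, h.2.2.2.symm⟩

private theorem swap_ex_ez (P : Finset Site) {i k j m : ℤ} (h : (HE.ex i k).Disj (HE.ez j m)) :
    Eqv (triv Unit) (run1 P [.ex i k, .ez j m]) (run1 P [.ez j m, .ex i k]) (lst1 P)
      (lst1 (fin P [.ex i k, .ez j m])) := by
  obtain ⟨h1, h2, h3, h4⟩ := h
  simp only [HE.lo, HE.hi, ne_eq, sw_st_eq] at h1 h2 h3 h4
  rcases lt_or_ge k m with hk | hk
  · refine swap_symm (swap_layers m P ?_ ?_ ?_ ?_) <;> simp only [HE.lo, HE.hi, sw_cz_st] <;> omega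
  · rcases lt_or_ge (m + 1) k with hk' | hk'
    · refine swap_layers k P ?_ ?_ ?_ ?_ <;> simp only [HE.lo, HE.hi, sw_cz_st] <;> omega
    · rcases lt_or_ge j i with hj | hj
      · refine swap_symm (swap_sep P ?_)
        simp only [HE.lo, HE.hi, sw_st_lt]
        omega
      · refine swap_sep P ?_
        simp only [HE.lo, HE.hi, sw_st_lt]
        omega

theorem swap_disj (P : Finset Site) {e e' : HE} (h : e.Disj e') :
    Eqv (triv Unit) (run1 P [e, e']) (run1 P [e', e]) (lst1 P) (lst1 (fin P [e, e'])) := by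
  cases e with
  | ex i k =>
    cases e' with
    | ex j m =>
      obtain ⟨h1, h2, h3, h4⟩ := h
      simp only [HE.lo, HE.hi, ne_eq, sw_st_eq] at h1 h2 h3 h4
      rcases lt_trichotomy k m with hk | hk | hk
      · refine swap_symm (swap_layers m P ?_ ?_ ?_ ?_) <;> simp only [HE.lo, HE.hi, sw_cz_st] <;>
          omega
      · rcases lt_or_ge j i with hj | hj
        · refine swap_symm (swap_sep P ?_)
          simp only [HE.lo, HE.hi, sw_st_lt]
          omega
        · refine swap_sep P ?_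
          simp only [HE.lo, HE.hi, sw_st_lt]
          omega
      · refine swap_layers k P ?_ ?_ ?_ ?_ <;> simp only [HE.lo, HE.hi, sw_cz_st] <;> omega
    | ez j m => exact swap_ex_ez P h
  | ez i k =>
    cases e' with
    | ex j m => exact swap_symm (swap_ex_ez P h.symm)
    | ez j m =>
      obtain ⟨h1, h2, h3, h4⟩ := h
      simp only [HE.lo, HE.hi, ne_eq, sw_st_eq] at h1 h2 h3 h4
      rcases lt_trichotomy i j with hi | hi | hi
      · refine swap_sep P ?_
        simp only [HE.lo, HE.hi, sw_st_lt]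
        omega
      · rcases lt_or_ge m k with hj | hj
        · refine swap_symm (swap_sep P ?_)
          simp only [HE.lo, HE.hi, sw_st_lt]
          omega
        · refine swap_sep P ?_
          simp only [HE.lo, HE.hi, sw_st_lt]
          omega
      · refine swap_symm (swap_sep P ?_)
        simp only [HE.lo, HE.hi, sw_st_lt]
        omega

/-! ### Explicit words -/

private theorem sw_wd_nil {P : Finset Site} {e : HE} (h : btw P e = []) :
    wd (fun _ => ()) P e = if e.lo ∈ P then (if e.hi ∈ P then [(.cap, rk P e.lo)] else [])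
      else (if e.hi ∈ P then [] else [(.cup (), rk P e.lo)]) := by
  unfold wd
  rw [h]
  rfl

private theorem sw_wd_one {P : Finset Site} {e : HE} {b : Site} (h : btw P e = [b]) :
    wd (fun _ => ()) P e = if e.lo ∈ P then
      (if e.hi ∈ P then [(if cz e.lo < cz b then .pos else .neg, rk P e.lo + 1),
        (.cap, rk P e.lo)] else [(if cz e.lo < cz b then .neg else .pos, rk P e.lo)])
      else (if e.hi ∈ P then [(if cz e.lo < cz b then .pos else .neg, rk P e.lo)]
        else [(.cup (), rk P e.lo), (if cz e.lo < cz b then .neg else .pos, rk P e.lo + 1)]) := by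
  unfold wd
  rw [h]
  rfl

private theorem sw_btw_nil {P : Finset Site} {e : HE} (h : ∀ q ∈ P, ¬ (e.lo < q ∧ q < e.hi)) :
    btw P e = [] := by
  unfold btw
  rw [Finset.filter_false_of_mem h]
  exact Finset.sort_empty _

private theorem sw_btw_one {P : Finset Site} {e : HE} {b : Site} (hb : b ∈ P) (hb' : e.lo < b ∧ b < e.hi)
    (h : ∀ q ∈ P, e.lo < q ∧ q < e.hi → q = b) : btw P e = [b] := by
  unfold btw
  have : P.filter (fun q => e.lo < q ∧ q < e.hi) = {b} := by
    ext q
    rw [Finset.mem_filter, Finset.mem_singleton]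
    constructor
    · rintro ⟨h1, h2⟩
      exact h q h1 h2
    · rintro rfl
      exact ⟨hb, hb'⟩
  rw [this]
  exact Finset.sort_singleton _ _

private theorem sw_rk_next {P : Finset Site} {p q : Site} (hpq : p < q)
    (h : ∀ x ∈ P, ¬ (p < x ∧ x < q)) : rk P q = rk P p + if p ∈ P then 1 else 0 := by
  unfold rk
  by_cases hp : p ∈ P
  · rw [if_pos hp]
    have : P.filter (fun x => x < q) = insert p (P.filter fun x => x < p) := by
      ext x
      rw [Finset.mem_insert, Finset.mem_filter, Finset.mem_filter]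
      constructor
      · rintro ⟨h1, h2⟩
        rcases lt_trichotomy x p with h3 | h3 | h3
        · exact Or.inr ⟨h1, h3⟩
        · exact Or.inl h3
        · exact absurd ⟨h3, h2⟩ (h x h1)
      · rintro (rfl | ⟨h1, h2⟩)
        · exact ⟨hp, hpq⟩
        · exact ⟨h1, h2.trans hpq⟩
    rw [this, Finset.card_insert_of_notMem]
    intro h1
    exact lt_irrefl _ (Finset.mem_filter.1 h1).2
  · rw [if_neg hp, Nat.add_zero]
    congr 1
    ext x
    rw [Finset.mem_filter, Finset.mem_filter]
    constructor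
    · rintro ⟨h1, h2⟩
      rcases lt_trichotomy x p with h3 | h3 | h3
      · exact ⟨h1, h3⟩
      · exact absurd (h3 ▸ h1) hp
      · exact absurd ⟨h3, h2⟩ (h x h1)
    · rintro ⟨h1, h2⟩
      exact ⟨h1, h2.trans hpq⟩

private theorem sw_rk_nxs {P : Finset Site} {e : HE} {p : Site} (h : p ≤ e.lo) :
    rk (nxs P e) p = rk P p := by
  unfold rk
  congr 1
  ext x
  rw [Finset.mem_filter, Finset.mem_filter, sw_mem_nxs]
  have := e.lo_lt_hi
  by_cases hx : x < p
  · have h1 : ¬ (x = e.lo ∨ x = e.hi) := by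
      rintro (rfl | rfl)
      · exact absurd (hx.trans_le h) (lt_irrefl _)
      · exact absurd ((hx.trans_le h).trans this) (lt_irrefl _)
    tauto
  · tauto

private theorem swap_chain (P : Finset Site) {e e' : HE} (hv : e.hi = e'.lo) (hP : e.hi ∉ P)
    (h1 : ∀ q ∈ P, ¬ (e.lo < q ∧ q < e.hi)) (h2 : ∀ q ∈ P, ¬ (e'.lo < q ∧ q < e'.hi)) :
    Eqv (triv Unit) (run1 P [e, e']) (run1 P [e', e]) (lst1 P) (lst1 (fin P [e, e'])) := by
  have p1 := sw_pathU.1 (sw_run1_path P [e, e'])
  have p2 := sw_pathU.1 (sw_run1_path' P e e')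
  have hlt := e.lo_lt_hi
  have hlt' := e'.lo_lt_hi
  have hne : e.lo ≠ e.hi := hlt.ne
  have hne' : e'.lo ≠ e'.hi := hlt'.ne
  have hne2 : e.lo ≠ e'.hi := (hlt.trans (hv ▸ hlt')).ne
  have h3 : ∀ q ∈ nxs P e', ¬ (e.lo < q ∧ q < e.hi) := by
    intro q hq hq'
    rcases sw_mem_nxs.1 hq with ⟨hq, -⟩ | ⟨rfl | rfl, -⟩
    · exact h1 q hq hq'
    · exact lt_irrefl _ (hv ▸ hq'.2)
    · exact lt_irrefl _ (hlt'.trans (hv ▸ hq'.2))
  have h4 : ∀ q ∈ nxs P e, ¬ (e'.lo < q ∧ q < e'.hi) := by
    intro q hq hq'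
    rcases sw_mem_nxs.1 hq with ⟨hq, -⟩ | ⟨rfl | rfl, -⟩
    · exact h2 q hq hq'
    · exact lt_irrefl _ ((hv ▸ hq'.1).trans hlt)
    · exact lt_irrefl _ (hv ▸ hq'.1)
  have h5 : ∀ q ∈ nxs P e, ¬ (e.lo < q ∧ q < e.hi) := by
    intro q hq hq'
    rcases sw_mem_nxs.1 hq with ⟨hq, -⟩ | ⟨rfl | rfl, -⟩
    · exact h1 q hq hq'
    · exact lt_irrefl _ hq'.1
    · exact lt_irrefl _ hq'.2
  have r1 : rk P e.hi = rk P e.lo + if e.lo ∈ P then 1 else 0 := sw_rk_next hlt h1
  have r2 : rk (nxs P e) e.hi = rk P e.lo + if e.lo ∈ nxs P e then 1 else 0 := by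
    rw [sw_rk_next hlt h5, sw_rk_nxs le_rfl]
  have r3 : rk (nxs P e') e.lo = rk P e.lo := sw_rk_nxs (by rw [← hv]; exact hlt.le)
  have m1 : e.lo ∈ nxs P e ↔ ¬ e.lo ∈ P := by rw [sw_mem_nxs]; tauto
  have m2 : e.hi ∈ nxs P e := by rw [sw_mem_nxs]; tauto
  have m3 : e'.hi ∈ nxs P e ↔ e'.hi ∈ P := by
    rw [sw_mem_nxs]
    have : ¬ (e'.hi = e.lo ∨ e'.hi = e.hi) := by
      rintro (h | h)
      · exact hne2 h.symm
      · exact hne' (h ▸ hv).symm
    tauto
  have m4 : e.hi ∈ nxs P e' := by rw [sw_mem_nxs, hv]; rw [hv] at hP; tauto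
  have m5 : e.lo ∈ nxs P e' ↔ e.lo ∈ P := by
    rw [sw_mem_nxs]
    have : ¬ (e.lo = e'.lo ∨ e.lo = e'.hi) := by
      rintro (h | h)
      · exact hne (h.trans hv.symm)
      · exact hne2 h
    tauto
  rw [sw_run1_two, sw_wd_nil (sw_btw_nil h1), sw_wd_nil (sw_btw_nil h4)] at p1 ⊢
  rw [sw_run1_two, sw_wd_nil (sw_btw_nil h2), sw_wd_nil (sw_btw_nil h3)] at p2 ⊢
  rw [← hv] at p1 p2 ⊢
  simp only [m1, m2, m3, m4, m5, r1, r2, r3, hP, if_true, if_false] at p1 p2 ⊢
  by_cases a : e.lo ∈ P <;> by_cases b : e'.hi ∈ P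
  · simp only [a, b, if_true, if_false, not_true, not_false_eq_true, List.nil_append,
      List.append_nil, Nat.add_zero] at p1 p2 ⊢
    exact Eqv.refl (sw_pathU.2 p1)
  · simp only [a, b, if_true, if_false, not_true, not_false_eq_true, List.nil_append,
      List.append_nil, Nat.add_zero, List.cons_append] at p1 p2 ⊢
    exact (U_zig _ p2).symm
  · simp only [a, b, if_true, if_false, not_true, not_false_eq_true, List.nil_append,
      List.append_nil, Nat.add_zero, List.cons_append] at p1 p2 ⊢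
    exact U_zag _ p1
  · simp only [a, b, if_true, if_false, not_true, not_false_eq_true, List.nil_append,
      List.append_nil, Nat.add_zero] at p1 p2 ⊢
    exact Eqv.refl (sw_pathU.2 p1)

/-! ### Blocks of four points -/

/-- All strands have depth `k` or `k + 1`; `b0, …, b3` tell which of the four points in the columns
`i` and `i + 1` are occupied. -/
private structure Blk (P : Finset Site) (i k : ℤ) (r : ℕ) (b0 b1 b2 b3 : Bool) : Prop where
  thin : ∀ q ∈ P, cz q = k ∨ cz q = k + 1
  hr : rk P (st i k) = r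
  h0 : st i k ∈ P ↔ b0 = true
  h1 : st i (k + 1) ∈ P ↔ b1 = true
  h2 : st (i + 1) k ∈ P ↔ b2 = true
  h3 : st (i + 1) (k + 1) ∈ P ↔ b3 = true

/-- The word of an edge with at most one strand between the ends. -/
private def wW (up : Bool) (r : ℕ) : Bool → Bool → Bool → Word Unit
  | true, false, true => [(.cap, r)]
  | true, true, true => [(if up then .pos else .neg, r + 1), (.cap, r)]
  | true, false, false => []
  | true, true, false => [(if up then .neg else .pos, r)]
  | false, false, true => []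
  | false, true, true => [(if up then .pos else .neg, r)]
  | false, false, false => [(.cup (), r)]
  | false, true, false => [(.cup (), r), (if up then .neg else .pos, r + 1)]

section blk
variable {P : Finset Site} {i k : ℤ} {r : ℕ} {b0 b1 b2 b3 : Bool}

private theorem sw_wd_wW {e : HE} {x : Site} {up lo mid hi : Bool} (h : ∀ q ∈ P, e.lo < q ∧ q < e.hi → q = x)
    (hx : e.lo < x ∧ x < e.hi) (hup : cz e.lo < cz x ↔ up = true) (hlo : e.lo ∈ P ↔ lo = true)
    (hmid : x ∈ P ↔ mid = true) (hhi : e.hi ∈ P ↔ hi = true) :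
    wd (fun _ => ()) P e = wW up (rk P e.lo) lo mid hi := by
  cases mid with
  | false =>
    have hx' : x ∉ P := by simpa using hmid
    rw [sw_wd_nil (sw_btw_nil fun q hq hq' => hx' (h q hq hq' ▸ hq))]
    cases lo <;> cases hi <;> simp [hlo, hhi, wW]
  | true =>
    rw [sw_wd_one (sw_btw_one (hmid.2 rfl) hx h)]
    cases lo <;> cases hi <;> cases up <;> simp [hlo, hhi, wW, hup]

private theorem sw_wd_wZ {e : HE} {lo hi : Bool} (h : ∀ q ∈ P, ¬ (e.lo < q ∧ q < e.hi))
    (hlo : e.lo ∈ P ↔ lo = true) (hhi : e.hi ∈ P ↔ hi = true) :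
    wd (fun _ => ()) P e = wW true (rk P e.lo) lo false hi := by
  rw [sw_wd_nil (sw_btw_nil h)]
  cases lo <;> cases hi <;> simp [hlo, hhi, wW]

private theorem Blk.r1 (h : Blk P i k r b0 b1 b2 b3) : rk P (st i (k + 1)) = r + b0.toNat := by
  rw [sw_rk_next (p := st i k), h.hr]
  · congr 1
    cases b0 <;> simp [h.h0]
  · rw [sw_st_lt]; omega
  · intro q hq hq'
    rw [← sw_st_eta q, sw_st_lt, sw_st_lt] at hq'
    omega

private theorem Blk.r2 (h : Blk P i k r b0 b1 b2 b3) :
    rk P (st (i + 1) k) = r + b0.toNat + b1.toNat := by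
  rw [sw_rk_next (p := st i (k + 1)), h.r1]
  · congr 1
    cases b1 <;> simp [h.h1]
  · rw [sw_st_lt]; omega
  · intro q hq hq'
    rw [← sw_st_eta q, sw_st_lt, sw_st_lt] at hq'
    have := h.thin q hq
    omega

private theorem Blk.ex0 (h : Blk P i k r b0 b1 b2 b3) :
    wd (fun _ => ()) P (.ex i k) = wW true r b0 b1 b2 := by
  have := sw_wd_wW (P := P) (e := .ex i k) (x := st i (k + 1)) (up := true) (lo := b0) (mid := b1)
    (hi := b2) ?_ ?_ ?_ h.h0 h.h1 h.h2
  · rw [this]
    congr 1
    exact h.hr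
  · intro q hq hq'
    have h1 := h.thin q hq
    rw [← sw_st_eta q, HE.lo, HE.hi, sw_st_lt, sw_st_lt] at hq'
    rw [← sw_st_eta q, sw_st_eq]
    omega
  · rw [HE.lo, HE.hi, sw_st_lt, sw_st_lt]
    omega
  · simp [HE.lo]

private theorem Blk.ex1 (h : Blk P i k r b0 b1 b2 b3) :
    wd (fun _ => ()) P (.ex i (k + 1)) = wW false (r + b0.toNat) b1 b2 b3 := by
  have := sw_wd_wW (P := P) (e := .ex i (k + 1)) (x := st (i + 1) k) (up := false) (lo := b1) (mid := b2)
    (hi := b3) ?_ ?_ ?_ h.h1 h.h2 h.h3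
  · rw [this]
    congr 1
    exact h.r1
  · intro q hq hq'
    have h1 := h.thin q hq
    rw [← sw_st_eta q, HE.lo, HE.hi, sw_st_lt, sw_st_lt] at hq'
    rw [← sw_st_eta q, sw_st_eq]
    omega
  · rw [HE.lo, HE.hi, sw_st_lt, sw_st_lt]
    omega
  · simp [HE.lo]

private theorem Blk.ez0 (h : Blk P i k r b0 b1 b2 b3) :
    wd (fun _ => ()) P (.ez i k) = wW true r b0 false b1 := by
  have := sw_wd_wZ (P := P) (e := .ez i k) (lo := b0) (hi := b1) ?_ h.h0 h.h1
  · rw [this]
    congr 1
    exact h.hr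
  · intro q hq hq'
    rw [← sw_st_eta q, HE.lo, HE.hi, sw_st_lt, sw_st_lt] at hq'
    omega

private theorem Blk.ez1 (h : Blk P i k r b0 b1 b2 b3) :
    wd (fun _ => ()) P (.ez (i + 1) k) = wW true (r + b0.toNat + b1.toNat) b2 false b3 := by
  have := sw_wd_wZ (P := P) (e := .ez (i + 1) k) (lo := b2) (hi := b3) ?_ h.h2 h.h3
  · rw [this]
    congr 1
    exact h.r2
  · intro q hq hq'
    rw [← sw_st_eta q, HE.lo, HE.hi, sw_st_lt, sw_st_lt] at hq'
    omega

private theorem Blk.thin' (h : ∀ q ∈ P, cz q = k ∨ cz q = k + 1) {e : HE}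
    (h1 : cz e.lo = k ∨ cz e.lo = k + 1) (h2 : cz e.hi = k ∨ cz e.hi = k + 1) :
    ∀ q ∈ nxs P e, cz q = k ∨ cz q = k + 1 := by
  intro q hq
  rcases sw_mem_nxs.1 hq with ⟨hq, -⟩ | ⟨rfl | rfl, -⟩
  · exact h q hq
  · exact h1
  · exact h2

private theorem sw_mem_yes {e : HE} {q : Site} {b : Bool} (h : q ∈ P ↔ b = true)
    (hq : q = e.lo ∨ q = e.hi) : q ∈ nxs P e ↔ (!b) = true := by
  rw [sw_mem_nxs, h]
  cases b <;> simp [hq]

private theorem sw_mem_no {e : HE} {q : Site} {b : Bool} (h : q ∈ P ↔ b = true)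
    (hq : ¬ (q = e.lo ∨ q = e.hi)) : q ∈ nxs P e ↔ b = true := by
  rw [sw_mem_nxs, h]
  cases b <;> simp [hq]

private theorem Blk.nex0 (h : Blk P i k r b0 b1 b2 b3) :
    Blk (nxs P (.ex i k)) i k r (!b0) b1 (!b2) b3 where
  thin := Blk.thin' h.thin (by simp [HE.lo]) (by simp [HE.hi])
  hr := by rw [sw_rk_nxs, h.hr]; rfl
  h0 := sw_mem_yes h.h0 (by simp [HE.lo, HE.hi, sw_st_eq])
  h1 := sw_mem_no h.h1 (by simp [HE.lo, HE.hi, sw_st_eq])
  h2 := sw_mem_yes h.h2 (by simp [HE.lo, HE.hi, sw_st_eq])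
  h3 := sw_mem_no h.h3 (by simp [HE.lo, HE.hi, sw_st_eq])

private theorem Blk.nex1 (h : Blk P i k r b0 b1 b2 b3) :
    Blk (nxs P (.ex i (k + 1))) i k r b0 (!b1) b2 (!b3) where
  thin := Blk.thin' h.thin (by simp [HE.lo]) (by simp [HE.hi])
  hr := by
    rw [sw_rk_nxs, h.hr]
    refine le_of_lt ?_
    rw [HE.lo, sw_st_lt]
    omega
  h0 := sw_mem_no h.h0 (by simp [HE.lo, HE.hi, sw_st_eq])
  h1 := sw_mem_yes h.h1 (by simp [HE.lo, HE.hi, sw_st_eq])
  h2 := sw_mem_no h.h2 (by simp [HE.lo, HE.hi, sw_st_eq])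
  h3 := sw_mem_yes h.h3 (by simp [HE.lo, HE.hi, sw_st_eq])

private theorem Blk.nez0 (h : Blk P i k r b0 b1 b2 b3) :
    Blk (nxs P (.ez i k)) i k r (!b0) (!b1) b2 b3 where
  thin := Blk.thin' h.thin (by simp [HE.lo]) (by simp [HE.hi])
  hr := by rw [sw_rk_nxs, h.hr]; rfl
  h0 := sw_mem_yes h.h0 (by simp [HE.lo, HE.hi, sw_st_eq])
  h1 := sw_mem_yes h.h1 (by simp [HE.lo, HE.hi, sw_st_eq])
  h2 := sw_mem_no h.h2 (by simp [HE.lo, HE.hi, sw_st_eq])
  h3 := sw_mem_no h.h3 (by simp [HE.lo, HE.hi, sw_st_eq])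

private theorem Blk.nez1 (h : Blk P i k r b0 b1 b2 b3) :
    Blk (nxs P (.ez (i + 1) k)) i k r b0 b1 (!b2) (!b3) where
  thin := Blk.thin' h.thin (by simp [HE.lo]) (by simp [HE.hi])
  hr := by
    rw [sw_rk_nxs, h.hr]
    refine le_of_lt ?_
    rw [HE.lo, sw_st_lt]
    omega
  h0 := sw_mem_no h.h0 (by simp [HE.lo, HE.hi, sw_st_eq])
  h1 := sw_mem_no h.h1 (by simp [HE.lo, HE.hi, sw_st_eq])
  h2 := sw_mem_yes h.h2 (by simp [HE.lo, HE.hi, sw_st_eq])
  h3 := sw_mem_yes h.h3 (by simp [HE.lo, HE.hi, sw_st_eq])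

private theorem sw_exists_blk (P : Finset Site) (i k : ℤ) (h : ∀ q ∈ P, cz q = k ∨ cz q = k + 1) :
    ∃ r b0 b1 b2 b3, Blk P i k r b0 b1 b2 b3 :=
  ⟨rk P (st i k), decide (st i k ∈ P), decide (st i (k + 1) ∈ P), decide (st (i + 1) k ∈ P),
    decide (st (i + 1) (k + 1) ∈ P), h, rfl, by simp, by simp, by simp, by simp⟩

end blk

private theorem blk_ex0_ez0 (P : Finset Site) (i k : ℤ) (h : ∀ q ∈ P, cz q = k ∨ cz q = k + 1)
    (hP : st i k ∉ P) :
    Eqv (triv Unit) (run1 P [.ex i k, .ez i k]) (run1 P [.ez i k, .ex i k]) (lst1 P)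
      (lst1 (fin P [.ex i k, .ez i k])) := by
  obtain ⟨r, b0, b1, b2, b3, B⟩ := sw_exists_blk P i k h
  obtain rfl : b0 = false := by
    have := B.h0
    cases b0
    · rfl
    · exact absurd (this.2 rfl) hP
  have p1 := sw_pathU.1 (sw_run1_path P [.ex i k, .ez i k])
  have p2 := sw_pathU.1 (sw_run1_path' P (.ex i k) (.ez i k))
  rw [sw_run1_two, B.ex0, B.nex0.ez0] at p1 ⊢
  rw [sw_run1_two, B.ez0, B.nez0.ex0] at p2 ⊢
  cases b1 <;> cases b2 <;>
    simp only [wW, Bool.not_true, Bool.not_false, if_true, Bool.false_eq_true, if_false,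
      List.nil_append, List.cons_append, List.append_nil] at p1 p2 ⊢
  all_goals first
    | exact Eqv.refl (sw_pathU.2 p1)
    | exact U_r1CapPos _ p1
    | exact U_3 _ p1
    | exact (U_4 _ p2).symm
    | exact (U_r1CupNeg _ p2).symm

private theorem blk_ex1_ez0 (P : Finset Site) (i k : ℤ) (h : ∀ q ∈ P, cz q = k ∨ cz q = k + 1)
    (hP : st i (k + 1) ∉ P) :
    Eqv (triv Unit) (run1 P [.ex i (k + 1), .ez i k]) (run1 P [.ez i k, .ex i (k + 1)]) (lst1 P)
      (lst1 (fin P [.ex i (k + 1), .ez i k])) := by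
  obtain ⟨r, b0, b1, b2, b3, B⟩ := sw_exists_blk P i k h
  obtain rfl : b1 = false := by
    have := B.h1
    cases b1
    · rfl
    · exact absurd (this.2 rfl) hP
  have p1 := sw_pathU.1 (sw_run1_path P [.ex i (k + 1), .ez i k])
  have p2 := sw_pathU.1 (sw_run1_path' P (.ex i (k + 1)) (.ez i k))
  rw [sw_run1_two, B.ex1, B.nex1.ez0] at p1 ⊢
  rw [sw_run1_two, B.ez0, B.nez0.ex1] at p2 ⊢
  cases b0 <;> cases b2 <;> cases b3 <;>
    simp only [wW, Bool.not_true, Bool.not_false, if_true, Bool.false_eq_true, if_false,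
      List.nil_append, List.cons_append, List.append_nil, Bool.toNat_true, Bool.toNat_false,
      Nat.add_zero, Nat.add_assoc, Nat.reduceAdd] at p1 p2 ⊢
  all_goals first
    | exact Eqv.refl (sw_pathU.2 p1)
    | exact U_zig _ p1
    | exact (U_zag _ p2).symm
    | exact U_6 _ p1
    | exact (U_7 _ p2).symm

private theorem blk_ex0_ez1 (P : Finset Site) (i k : ℤ) (h : ∀ q ∈ P, cz q = k ∨ cz q = k + 1)
    (hP : st (i + 1) k ∉ P) :
    Eqv (triv Unit) (run1 P [.ex i k, .ez (i + 1) k]) (run1 P [.ez (i + 1) k, .ex i k]) (lst1 P)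
      (lst1 (fin P [.ex i k, .ez (i + 1) k])) := by
  obtain ⟨r, b0, b1, b2, b3, B⟩ := sw_exists_blk P i k h
  obtain rfl : b2 = false := by
    have := B.h2
    cases b2
    · rfl
    · exact absurd (this.2 rfl) hP
  have p1 := sw_pathU.1 (sw_run1_path P [.ex i k, .ez (i + 1) k])
  have p2 := sw_pathU.1 (sw_run1_path' P (.ex i k) (.ez (i + 1) k))
  rw [sw_run1_two, B.ex0, B.nex0.ez1] at p1 ⊢
  rw [sw_run1_two, B.ez1, B.nez1.ex0] at p2 ⊢
  cases b0 <;> cases b1 <;> cases b3 <;>
    simp only [wW, Bool.not_true, Bool.not_false, if_true, Bool.false_eq_true, if_false,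
      List.nil_append, List.cons_append, List.append_nil, Bool.toNat_true, Bool.toNat_false,
      Nat.add_zero, Nat.add_assoc, Nat.reduceAdd] at p1 p2 ⊢
  all_goals first
    | exact Eqv.refl (sw_pathU.2 p1)
    | exact U_zag _ p1
    | exact (U_zig _ p2).symm
    | exact U_capUnder _ p1
    | exact (U_9 _ p2).symm
    | exact U_10 _ p1
    | exact (U_cupOver _ p2).symm

private theorem blk_ex1_ez1 (P : Finset Site) (i k : ℤ) (h : ∀ q ∈ P, cz q = k ∨ cz q = k + 1)
    (hP : st (i + 1) (k + 1) ∉ P) :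
    Eqv (triv Unit) (run1 P [.ex i (k + 1), .ez (i + 1) k])
      (run1 P [.ez (i + 1) k, .ex i (k + 1)]) (lst1 P)
      (lst1 (fin P [.ex i (k + 1), .ez (i + 1) k])) := by
  obtain ⟨r, b0, b1, b2, b3, B⟩ := sw_exists_blk P i k h
  obtain rfl : b3 = false := by
    have := B.h3
    cases b3
    · rfl
    · exact absurd (this.2 rfl) hP
  have p1 := sw_pathU.1 (sw_run1_path P [.ex i (k + 1), .ez (i + 1) k])
  have p2 := sw_pathU.1 (sw_run1_path' P (.ex i (k + 1)) (.ez (i + 1) k))
  rw [sw_run1_two, B.ex1, B.nex1.ez1] at p1 ⊢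
  rw [sw_run1_two, B.ez1, B.nez1.ex1] at p2 ⊢
  cases b0 <;> cases b1 <;> cases b2 <;>
    simp only [wW, Bool.not_true, Bool.not_false, if_true, Bool.false_eq_true, if_false,
      List.nil_append, List.cons_append, List.append_nil, Bool.toNat_true, Bool.toNat_false,
      Nat.add_zero, Nat.add_assoc, Nat.reduceAdd] at p1 p2 ⊢
  all_goals first
    | exact Eqv.refl (sw_pathU.2 p1)
    | exact U_r1CapPos _ p1
    | exact (U_12 _ p2).symm
    | exact U_13 _ p1
    | exact (U_r1CupNeg _ p2).symm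

private theorem share_ex_ex (P : Finset Site) (i k : ℤ) (hP : st (i + 1) k ∉ P) :
    Eqv (triv Unit) (run1 P [.ex i k, .ex (i + 1) k]) (run1 P [.ex (i + 1) k, .ex i k]) (lst1 P)
      (lst1 (fin P [.ex i k, .ex (i + 1) k])) := by
  refine swap_front k P (by simp [HE.lo]) (by simp [HE.hi]) (by simp [HE.lo]) (by simp [HE.hi]) ?_
  refine swap_back (k + 1) _ (by simp [HE.lo]) (by simp [HE.hi]) (by simp [HE.lo])
    (by simp [HE.hi]) ?_
  have hm : ∀ q ∈ back (k + 1) (front k P), q ∈ P ∧ cz q = k := by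
    intro q hq
    unfold back front at hq
    rw [Finset.mem_filter, Finset.mem_filter] at hq
    exact ⟨hq.1.1, by omega⟩
  refine swap_chain _ rfl (fun h => hP (hm _ h).1) ?_ ?_
  · intro q hq hq'
    have := (hm q hq).2
    rw [← sw_st_eta q, HE.lo, HE.hi, sw_st_lt, sw_st_lt] at hq'
    omega
  · intro q hq hq'
    have := (hm q hq).2
    rw [← sw_st_eta q, HE.lo, HE.hi, sw_st_lt, sw_st_lt] at hq'
    omega

private theorem share_ez_ez (P : Finset Site) (i k : ℤ) (hP : st i (k + 1) ∉ P) :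
    Eqv (triv Unit) (run1 P [.ez i k, .ez i (k + 1)]) (run1 P [.ez i (k + 1), .ez i k]) (lst1 P)
      (lst1 (fin P [.ez i k, .ez i (k + 1)])) := by
  refine swap_chain _ rfl hP ?_ ?_
  · intro q hq hq'
    rw [← sw_st_eta q, HE.lo, HE.hi, sw_st_lt, sw_st_lt] at hq'
    omega
  · intro q hq hq'
    rw [← sw_st_eta q, HE.lo, HE.hi, sw_st_lt, sw_st_lt] at hq'
    omega

private theorem share_ex_ez (P : Finset Site) {i k j m : ℤ} {v : Site} (hv : (HE.ex i k).At v)
    (hv' : (HE.ez j m).At v) (hP : v ∉ P) :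
    Eqv (triv Unit) (run1 P [.ex i k, .ez j m]) (run1 P [.ez j m, .ex i k]) (lst1 P)
      (lst1 (fin P [.ex i k, .ez j m])) := by
  have hk : k = m ∨ k = m + 1 := by
    rcases hv with rfl | rfl <;> rcases hv' with h | h <;>
      simp only [HE.lo, HE.hi, sw_st_eq] at h <;> omega
  refine swap_front m P ?_ ?_ ?_ ?_ ?_
  · simp only [HE.lo, HE.hi, sw_cz_st]; omega
  · simp only [HE.lo, HE.hi, sw_cz_st]; omega
  · simp only [HE.lo, HE.hi, sw_cz_st]; omega
  · simp only [HE.lo, HE.hi, sw_cz_st]; omega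
  refine swap_back (m + 2) _ ?_ ?_ ?_ ?_ ?_
  · simp only [HE.lo, HE.hi, sw_cz_st]; omega
  · simp only [HE.lo, HE.hi, sw_cz_st]; omega
  · simp only [HE.lo, HE.hi, sw_cz_st]; omega
  · simp only [HE.lo, HE.hi, sw_cz_st]; omega
  have hm : ∀ q ∈ back (m + 2) (front m P), q ∈ P ∧ (cz q = m ∨ cz q = m + 1) := by
    intro q hq
    unfold back front at hq
    rw [Finset.mem_filter, Finset.mem_filter] at hq
    exact ⟨hq.1.1, by omega⟩
  have hP' : v ∉ back (m + 2) (front m P) := fun h => hP (hm _ h).1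
  have hm' := fun q hq => (hm q hq).2
  rcases hv with rfl | rfl <;> rcases hv' with h | h <;>
    simp only [HE.lo, HE.hi, sw_st_eq] at h hP' <;> obtain ⟨rfl, rfl⟩ := h
  · exact blk_ex0_ez0 _ _ _ hm' hP'
  · exact blk_ex1_ez0 _ _ _ hm' hP'
  · exact blk_ex0_ez1 _ _ _ hm' hP'
  · exact blk_ex1_ez1 _ _ _ hm' hP'

theorem swap_share (P : Finset Site) {e e' : HE} (h : e ≠ e') {v : Site} (hv : e.At v)
    (hv' : e'.At v) (hP : v ∉ P) :
    Eqv (triv Unit) (run1 P [e, e']) (run1 P [e', e]) (lst1 P) (lst1 (fin P [e, e'])) := by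
  cases e with
  | ex i k =>
    cases e' with
    | ex j m =>
      rcases hv with rfl | rfl <;> rcases hv' with h1 | h1 <;>
        simp only [HE.lo, HE.hi, sw_st_eq] at h1 hP <;> obtain ⟨h1, rfl⟩ := h1
      · exact absurd (h1 ▸ rfl) h
      · subst h1
        exact swap_symm (share_ex_ex P j k hP)
      · subst h1
        exact share_ex_ex P i k hP
      · obtain rfl : i = j := by omega
        exact absurd rfl h
    | ez j m => exact share_ex_ez P hv hv' hP
  | ez i k =>
    cases e' with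
    | ex j m => exact swap_symm (share_ex_ez P hv' hv hP)
    | ez j m =>
      rcases hv with rfl | rfl <;> rcases hv' with h1 | h1 <;>
        simp only [HE.lo, HE.hi, sw_st_eq] at h1 hP <;> obtain ⟨rfl, h1⟩ := h1
      · exact absurd (h1 ▸ rfl) h
      · subst h1
        exact swap_symm (share_ez_ez P i m hP)
      · subst h1
        exact share_ez_ez P i k hP
      · obtain rfl : k = m := by omega
        exact absurd rfl h

/-- Two different edges can be exchanged if they do not meet in an occupied point. -/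
theorem swap_edges (P : Finset Site) {e e' : HE} (h : e ≠ e')
    (hP : ∀ v, e.At v → e'.At v → v ∉ P) :
    Eqv (triv Unit) (run1 P [e, e']) (run1 P [e', e]) (lst1 P) (lst1 (fin P [e, e'])) := by
  by_cases hd : e.Disj e'
  · exact swap_disj P hd
  · have : ∃ v, e.At v ∧ e'.At v := by
      unfold HE.Disj at hd
      by_contra hc
      push Not at hc
      refine hd ⟨?_, ?_, ?_, ?_⟩
      · intro h1; exact hc e.lo (Or.inl rfl) (Or.inl h1)
      · intro h1; exact hc e.lo (Or.inl rfl) (Or.inr h1)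
      · intro h1; exact hc e.hi (Or.inr rfl) (Or.inl h1)
      · intro h1; exact hc e.hi (Or.inr rfl) (Or.inr h1)
    obtain ⟨v, hv, hv'⟩ := this
    exact swap_share P h hv hv' (hP v hv hv')

instance instSwapHyp : SwapHyp := ⟨fun P _ _ => swap_edges P⟩

end Pool.Agent.Lib.MP_131179_gt.Dehn
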