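import Pool.Agent.Lib.MP_131179_gt.Dehn.Main1
import Pool.Agent.Lib.MP_131179_gt.Dehn.Main2
import Pool.Agent.Lib.MP_131179_gt.Dehn.Swap

/-!
# Knots without nonabelian labellings are trivial
-/

set_option autoImplicit false

namespace Pool.Agent.Lib.MP_131179_gt.Dehn

/-- **Dehn's lemma for knots.** A knot whose diagrams have no nonabelian Wirtinger labellings is
the unknot. -/
theorem unknot_of_abelian {L : Link} (h1 : ¬ AtLeastTwoComponents L)
    (h2 : ¬ HasNonabelianLabelling L) (h3 : L ≠ emptyLink) : L = unknot := by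
  obtain ⟨m, _, c, A, hc, hA, hL, hG⟩ := exists_good h1 h2 h3
  obtain ⟨N, hN, hv, hu⟩ := unknot_of_good hc hA hG
  exact isLink_unique hv (hL N hN) hu

end Pool.Agent.Lib.MP_131179_gt.Dehn
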