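import Pool.Agent.Lib.MP_131179_gt.Dehn.Theta

/-!
# The chords do not cross
-/

set_option autoImplicit false

namespace Pool.Agent.Lib.MP_131179_gt.Dehn

/-! ### The eight flags at the end of an edge -/

/-- The direction `d2` of the side number `i`. -/
def nxA (a : Fin 3) : Fin 4 → Dir
  | 0 => ((oth a).2, false)
  | 1 => ((oth a).1, true)
  | 2 => ((oth a).2, true)
  | 3 => ((oth a).1, false)

/-- The direction `d3` of the flag on the side `i` which faces the smaller positions. -/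
def nxB (a : Fin 3) : Fin 4 → Dir
  | 0 => ((oth a).1, false)
  | 1 => ((oth a).2, false)
  | 2 => ((oth a).1, true)
  | 3 => ((oth a).2, true)

theorem nx_prop : ∀ (D : Dir) (i : Fin 4), D.1 ≠ (nxA D.1 i).1 ∧ D.1 ≠ (nxB D.1 i).1 ∧
    (nxA D.1 i).1 ≠ (nxB D.1 i).1 := by decide

/-- The frame on the side `i` facing the smaller positions. -/
def nxlo (D : Dir) (i : Fin 4) : Frm := ⟨(D, nxA D.1 i, nxB D.1 i), nx_prop D i⟩

/-- The frame on the side `i` facing the larger positions. -/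
def nxhi (D : Dir) (i : Fin 4) : Frm := ⟨(D, nxA D.1 i, (nxB D.1 i).neg), nx_prop D i⟩

local instance nx_decFrm : DecidableEq Frm := fun f f' =>
  decidable_of_iff (f.1 = f'.1) Subtype.ext_iff.symm

theorem nx_cases : ∀ f : Frm, ∃ i : Fin 4, f = nxlo f.1.1 i ∨ f = nxhi f.1.1 i := by decide

theorem nx_c_lo (D : Dir) (i : Fin 4) : l3_fc (nxlo D i) = nxhi D i := rfl

theorem nx_c_hi : ∀ (D : Dir) (i : Fin 4), l3_fc (nxhi D i) = nxlo D i := by decide

theorem nx_d_hi : ∀ (D : Dir) (i : Fin 4), l3_fd (nxhi D i) = nxlo D (i + 1) := by decide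

theorem nx_low : ∀ f : Frm, f.1.2.1.2 = false → f.1.2.2.2 = false →
    f = nxlo f.1.1 0 ∨ f = nxhi f.1.1 3 := by decide

theorem nx_lo_low : ∀ (D : Dir) (i : Fin 4), (nxlo D i).1.2.1.2 = false →
    (nxlo D i).1.2.2.2 = false → i = 0 := by decide

theorem nx_hi_low : ∀ (D : Dir) (i : Fin 4), (nxhi D i).1.2.1.2 = false →
    (nxhi D i).1.2.2.2 = false → i = 3 := by decide

/-- The first position of a copy on the side `i`. -/
def nxS (N R n : ℤ) : Fin 4 → ℤ
  | 0 => R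
  | 1 => N + R
  | 2 => 3 * N - R - n + 1
  | 3 => 4 * N - R - n + 1

theorem nx_thp_lo (N R n k : ℤ) (v : P3) (D : Dir) (i : Fin 4) :
    thp N R (v, nxlo D i) n k = nxS N R n i + k := by
  obtain ⟨a, s⟩ := D
  fin_cases i <;> fin_cases a <;> simp [thp, nxS, nxlo, nxA, nxB, d1, d2, d3, oth] <;> ring

theorem nx_thp_hi (N R n k : ℤ) (v : P3) (D : Dir) (i : Fin 4) :
    thp N R (v, nxhi D i) n k = nxS N R n i + (n - 1 - k) := by
  obtain ⟨a, s⟩ := D
  fin_cases i <;> fin_cases a <;> simp [thp, nxS, nxhi, nxA, nxB, d1, d2, d3, oth, Dir.neg] <;> ring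

theorem nxS_bounds {N R n : ℤ} (h : 2 * R + n ≤ N) (i : Fin 4) :
    (i.val : ℤ) * N + R ≤ nxS N R n i ∧ nxS N R n i + n ≤ ((i.val : ℤ) + 1) * N - R + 1 := by
  fin_cases i <;> refine ⟨?_, ?_⟩ <;> simp only [nxS] <;> norm_num <;> linarith

/-- The direction of the flags with the edge `E` and the vertex `v`. -/
def nxD (E : P3 × Fin 3) (v : P3) : Dir := (E.2, decide (v ≠ E.1))

theorem nx_e3_ne (k : Fin 3) : e3 k ≠ 0 := by
  fin_cases k <;> simp [e3]

theorem nx_d1 (x : LF) : d1 x = nxD (edgL x) x.1 := by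
  unfold nxD edgL
  have h : (d1 x).2 = decide (x.1 ≠ x.1 + pv (d1 x)) := by
    cases hd : (d1 x).2
    · rw [pv, if_neg (by rw [hd]; decide), add_zero]
      simp
    · rw [pv, if_pos hd]
      symm
      rw [decide_eq_true_iff]
      intro h
      exact nx_e3_ne _ (add_left_cancel (h.symm.trans (add_zero x.1).symm))
  exact Prod.ext rfl h

section Side

variable {m : ℕ} [NeZero m] {c : Curve m} {A : Slots (EK c.K) m} {S : Carried A.attach}

theorem nx_pc {v : P3} {D : Dir} {i : Fin 4} :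
    ¬ pc c.K (v, nxhi D i) ↔ ¬ pc c.K (v, nxlo D i) := (isSub_pc c.K).c (v, nxlo D i)

/-- The flag on the side `i` facing the smaller positions. -/
def nxF {v : P3} {D : Dir} (i : Fin 4) (h : ¬ pc c.K (v, nxlo D i)) : VF c :=
  .inl ⟨(v, nxlo D i), h⟩

theorem nx_c {v : P3} {D : Dir} (i : Fin 4) (h : ¬ pc c.K (v, nxlo D i)) :
    A.attach.c (nxF i h) = .inl ⟨(v, nxhi D i), nx_pc.2 h⟩ := rfl

/-- Classification of the flags at the end of an edge. -/
theorem nx_class (x : VF c) : (∃ q, x = .inr q) ∨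
    ∃ (i : Fin 4) (h : ¬ pc c.K (vtV x, nxlo (nxD (edgV x) (vtV x)) i)),
      x = nxF i h ∨ x = A.attach.c (nxF i h) := by
  rcases x with x | q
  · right
    obtain ⟨⟨v, f⟩, hx⟩ := x
    obtain ⟨i, hi⟩ := nx_cases f
    have hD : f.1.1 = nxD (edgL (v, f)) v := nx_d1 (v, f)
    rw [hD] at hi
    rcases hi with hi | hi
    · have h1 : ¬ pc c.K (v, nxlo (nxD (edgL (v, f)) v) i) := by rw [← hi]; exact hx
      refine ⟨i, h1, Or.inl ?_⟩
      show (Sum.inl ⟨(v, f), hx⟩ : VF c) = Sum.inl ⟨(v, nxlo (nxD (edgL (v, f)) v) i), h1⟩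
      congr 2
      exact Prod.ext rfl hi
    · have h1 : ¬ pc c.K (v, nxhi (nxD (edgL (v, f)) v) i) := by rw [← hi]; exact hx
      refine ⟨i, nx_pc.1 h1, Or.inr ?_⟩
      show (Sum.inl ⟨(v, f), hx⟩ : VF c) = Sum.inl ⟨(v, nxhi (nxD (edgL (v, f)) v) i), h1⟩
      congr 2
      exact Prod.ext rfl hi
  · exact Or.inl ⟨q, rfl⟩

theorem nx_tht_lo {N R : ℤ} {r : Fl S.n} {v : P3} {D : Dir} {i : Fin 4}
    {h : ¬ pc c.K (v, nxlo D i)} (hr : r.1.1 = nxF i h) :
    tht S N R r = nxS N R (S.n (nxF i h)) i + r.1.2 := by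
  obtain ⟨⟨x, k⟩, hk⟩ := r
  simp only at hr
  subst hr
  exact nx_thp_lo N R _ _ v D i

theorem nx_tht_hi {N R : ℤ} {r : Fl S.n} {v : P3} {D : Dir} {i : Fin 4}
    {h : ¬ pc c.K (v, nxlo D i)} (hr : r.1.1 = A.attach.c (nxF i h)) :
    tht S N R r = nxS N R (S.n (nxF i h)) i + (S.n (nxF i h) - 1 - r.1.2) := by
  rw [← S.hn.c (nxF i h)]
  obtain ⟨⟨x, k⟩, hk⟩ := r
  simp only at hr
  subst hr
  exact nx_thp_hi N R _ _ v D i

/-- The position of a flag. -/
theorem nx_pos {N R : ℤ} {r : Fl S.n} {E : P3 × Fin 3} {v : P3} (hE : edgV r.1.1 = E)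
    (hv : vtV r.1.1 = v) : (IsH S r ∧ tht S N R r = 0) ∨
    ∃ (i : Fin 4) (h : ¬ pc c.K (v, nxlo (nxD E v) i)),
      nxS N R (S.n (nxF i h)) i ≤ tht S N R r ∧
      tht S N R r < nxS N R (S.n (nxF i h)) i + S.n (nxF i h) := by
  subst hE
  subst hv
  rcases nx_class (A := A) r.1.1 with h | ⟨i, h, h1 | h1⟩
  · exact Or.inl ⟨h, tht_H N R h⟩
  · right
    refine ⟨i, h, ?_⟩
    have h2 := r.2
    rw [h1] at h2
    rw [nx_tht_lo h1]
    constructor <;> omega
  · right
    refine ⟨i, h, ?_⟩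
    have h2 := r.2
    rw [h1, S.hn.c] at h2
    rw [nx_tht_hi h1]
    constructor <;> omega

theorem nx_sep1 {N R : ℤ} (h : NR S N R) {r : Fl S.n} {E : P3 × Fin 3} {v : P3}
    (hE : edgV r.1.1 = E) (hv : vtV r.1.1 = v) {i : Fin 4}
    (hi : ¬ pc c.K (v, nxlo (nxD E v) i)) :
    (tht S N R r < (i.val : ℤ) * N + 1 ↔ tht S N R r < nxS N R (S.n (nxF i hi)) i) ∧
    (tht S N R r < ((i.val : ℤ) + 1) * N + 1 ↔
      tht S N R r < nxS N R (S.n (nxF i hi)) i + S.n (nxF i hi)) := by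
  have hR := h.hR
  have b1 := nxS_bounds (h.hN (nxF i hi)) i
  have hN0 : 6 ≤ N := by
    have := h.hN (nxF i hi)
    have : (0 : ℤ) ≤ S.n (nxF i hi) := Int.natCast_nonneg _
    linarith
  rcases nx_pos (N := N) (R := R) hE hv with ⟨-, h0⟩ | ⟨j, hj, h1, h2⟩
  · rw [h0]
    obtain ⟨b2, b3⟩ := b1
    have : (0 : ℤ) ≤ S.n (nxF i hi) := Int.natCast_nonneg _
    have h5 : 0 ≤ (i.val : ℤ) * N := by positivity
    have h6 : 0 ≤ ((i.val : ℤ) + 1) * N := by positivity
    constructor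
    · constructor <;> intro <;> linarith
    · constructor <;> intro <;> linarith
  · have b4 := nxS_bounds (h.hN (nxF j hj)) j
    by_cases hij : i = j
    · subst hij
      obtain ⟨b2, b3⟩ := b1
      constructor
      · constructor <;> intro <;> linarith
      · constructor <;> intro <;> linarith
    · obtain ⟨b2, b3⟩ := b1
      obtain ⟨b5, b6⟩ := b4
      have hn : (0 : ℤ) ≤ S.n (nxF i hi) := Int.natCast_nonneg _
      rcases lt_or_gt_of_ne hij with hlt | hlt
      · have h7 : (i.val : ℤ) + 1 ≤ j.val := by exact_mod_cast hlt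
        have h8 : ((i.val : ℤ) + 1) * N ≤ (j.val : ℤ) * N :=
          mul_le_mul_of_nonneg_right h7 (by linarith)
        have h9 : ((i.val : ℤ) + 1) * N = (i.val : ℤ) * N + N := by ring
        constructor
        · constructor <;> intro <;> linarith
        · constructor <;> intro <;> linarith
      · have h7 : (j.val : ℤ) + 1 ≤ i.val := by exact_mod_cast hlt
        have h8 : ((j.val : ℤ) + 1) * N ≤ (i.val : ℤ) * N :=
          mul_le_mul_of_nonneg_right h7 (by linarith)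
        have h9 : ((i.val : ℤ) + 1) * N = (i.val : ℤ) * N + N := by ring
        constructor
        · constructor <;> intro <;> linarith
        · constructor <;> intro <;> linarith

theorem nx_sep2 {N R : ℤ} (h : NR S N R) {r : Fl S.n} {E : P3 × Fin 3} {v : P3}
    (hE : edgV r.1.1 = E) (hv : vtV r.1.1 = v) {i : Fin 4}
    (hi : pc c.K (v, nxlo (nxD E v) i)) :
    (tht S N R r < (i.val : ℤ) * N + 1 ↔ tht S N R r < ((i.val : ℤ) + 1) * N + 1) := by
  have hR := h.hR
  have hN0 : 6 ≤ N := by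
    have := h.hN r.1.1
    have : (0 : ℤ) ≤ S.n r.1.1 := Int.natCast_nonneg _
    linarith
  rcases nx_pos (N := N) (R := R) hE hv with ⟨-, h0⟩ | ⟨j, hj, h1, h2⟩
  · rw [h0]
    have h5 : 0 ≤ (i.val : ℤ) * N := by positivity
    have h6 : 0 ≤ ((i.val : ℤ) + 1) * N := by positivity
    constructor <;> intro <;> linarith
  · obtain ⟨b5, b6⟩ := nxS_bounds (h.hN (nxF j hj)) j
    have hij : i ≠ j := by
      rintro rfl
      exact hj hi
    rcases lt_or_gt_of_ne hij with hlt | hlt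
    · have h7 : (i.val : ℤ) + 1 ≤ j.val := by exact_mod_cast hlt
      have h8 : ((i.val : ℤ) + 1) * N ≤ (j.val : ℤ) * N :=
        mul_le_mul_of_nonneg_right h7 (by linarith)
      have h9 : ((i.val : ℤ) + 1) * N = (i.val : ℤ) * N + N := by ring
      constructor <;> intro <;> linarith
    · have h7 : (j.val : ℤ) + 1 ≤ i.val := by exact_mod_cast hlt
      have h8 : ((j.val : ℤ) + 1) * N ≤ (i.val : ℤ) * N :=
        mul_le_mul_of_nonneg_right h7 (by linarith)
      have h9 : ((i.val : ℤ) + 1) * N = (i.val : ℤ) * N + N := by ring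
      constructor <;> intro <;> linarith

theorem edgV_M (hA : SlotsAt c A) (p : Fl S.n) :
    edgV (S.M p).1.1 = edgV p.1.1 ∧ vtV (S.M p).1.1 = vtV p.1.1 := by
  obtain ⟨h1, h2⟩ := edgV_CD hA (S.cdM p)
  exact ⟨h1.symm, h2.symm⟩

/-- Flags with the same edge, vertex and position. -/
theorem nx_inj (h3 : 3 ≤ m) {N R : ℤ} (h : NR S N R) (hS : S.IsGood Slots.h0) {p q : Fl S.n}
    (he : edgV p.1.1 = edgV q.1.1) (hv : vtV p.1.1 = vtV q.1.1)
    (ht : tht S N R p = tht S N R q) : q = p ∨ q = S.hn.fc p := by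
  rcases tht_inj h3 h hS he ht with h1 | h1 | h1 | h1
  · exact Or.inl h1
  · exfalso
    rw [h1] at hv
    exact vtV_a h3 (A := A) p.1.1 hv.symm
  · exact Or.inr h1
  · exfalso
    rw [h1] at hv
    have h2 : vtV (A.attach.a (A.attach.c p.1.1)) ≠ vtV (A.attach.c p.1.1) := vtV_a h3 _
    rw [vtV_c] at h2
    exact h2 hv.symm

theorem tht_M_ne (hA : SlotsAt c A) (h3 : 3 ≤ m) {N R : ℤ} (h : NR S N R)
    (hS : S.IsGood Slots.h0) (p : Fl S.n) : tht S N R (S.M p) ≠ tht S N R p := by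
  intro ht
  obtain ⟨h1, h2⟩ := edgV_M hA p
  rcases nx_inj h3 h hS h1.symm h2.symm ht.symm with h4 | h4
  · have := S.sgM p
    rw [h4] at this
    simp at this
  · exact hS.M_ne_c p h4

theorem nx_own_iff (hA : SlotsAt c A) (h3 : 3 ≤ m) {N R : ℤ} (h : NR S N R)
    (hS : S.IsGood Slots.h0) {p q : Fl S.n}
    (he : edgV p.1.1 = edgV q.1.1) (hv : vtV p.1.1 = vtV q.1.1) :
    S.Own p q ↔ tht S N R p = tht S N R q ∨ tht S N R (S.M p) = tht S N R q := by
  obtain ⟨e1, e2⟩ := edgV_M hA p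
  unfold Carried.Own
  constructor
  · rintro (rfl | rfl | rfl | rfl)
    · exact Or.inl rfl
    · exact Or.inl (tht_c N R p).symm
    · exact Or.inr rfl
    · exact Or.inr (tht_c N R (S.M p)).symm
  · rintro (h1 | h1)
    · rcases nx_inj h3 h hS he hv h1 with h2 | h2
      · exact Or.inl h2
      · exact Or.inr (Or.inl h2)
    · rcases nx_inj h3 h hS (e1.trans he) (e2.trans hv) h1 with h2 | h2
      · exact Or.inr (Or.inr (Or.inl h2))
      · exact Or.inr (Or.inr (Or.inr h2))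

/-- The number of own points before the position `θ`. -/
def nxC (S : Carried A.attach) (N R : ℤ) (p : Fl S.n) (θ : ℤ) : F2 :=
  (if tht S N R p < θ then 1 else 0) + (if tht S N R (S.M p) < θ then 1 else 0)

theorem nxC_congr {N R : ℤ} {p : Fl S.n} {θ θ' : ℤ}
    (h1 : tht S N R p < θ ↔ tht S N R p < θ')
    (h2 : tht S N R (S.M p) < θ ↔ tht S N R (S.M p) < θ') : nxC S N R p θ = nxC S N R p θ' := by
  unfold nxC
  rw [if_congr h1 rfl rfl, if_congr h2 rfl rfl]

theorem nx_two (x : F2) : x + x = 0 := by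
  have : ∀ x : F2, x + x = 0 := by decide
  exact this x

theorem nxC_succ (hA : SlotsAt c A) (h3 : 3 ≤ m) {N R : ℤ} (h : NR S N R)
    (hS : S.IsGood Slots.h0) (p : Fl S.n) (θ : ℤ) : nxC S N R p (θ + 1) = nxC S N R p θ +
      (if tht S N R p = θ ∨ tht S N R (S.M p) = θ then 1 else 0) := by
  have hne := tht_M_ne hA h3 h hS p
  have key : ∀ t : ℤ, (if t < θ + 1 then (1 : F2) else 0) = (if t < θ then 1 else 0) +
      (if t = θ then 1 else 0) := by
    intro t
    rcases lt_trichotomy t θ with h1 | h1 | h1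
    · rw [if_pos (by omega), if_pos h1, if_neg (by omega), add_zero]
    · rw [if_pos (by omega), if_neg (by omega), if_pos h1, zero_add]
    · rw [if_neg (by omega), if_neg (by omega), if_neg (by omega), add_zero]
  unfold nxC
  rw [key, key]
  have h4 : (if tht S N R p = θ ∨ tht S N R (S.M p) = θ then (1 : F2) else 0) =
      (if tht S N R p = θ then 1 else 0) + (if tht S N R (S.M p) = θ then 1 else 0) := by
    by_cases h5 : tht S N R p = θ
    · have h6 : tht S N R (S.M p) ≠ θ := fun h7 => hne (h7.trans h5.symm)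
      rw [if_pos (Or.inl h5), if_pos h5, if_neg h6, add_zero]
    · by_cases h6 : tht S N R (S.M p) = θ
      · rw [if_pos (Or.inr h6), if_neg h5, if_pos h6, zero_add]
      · rw [if_neg (by tauto), if_neg h5, if_neg h6, add_zero]
  rw [h4]
  ring

theorem nx_below (hA : SlotsAt c A) (h3 : 3 ≤ m) {N R : ℤ} (h : NR S N R)
    (hS : S.IsGood Slots.h0) {p : Fl S.n} {E : P3 × Fin 3} {v : P3}
    (hE : edgV p.1.1 = E) (hv : vtV p.1.1 = v) {i : Fin 4}
    (hi : ¬ pc c.K (v, nxlo (nxD E v) i)) (k : ℕ) (hk : k ≤ S.n (nxF i hi))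
    (hEi : edgV (nxF i hi : VF c) = E) :
    TMap.below (S.Own p) (nxF i hi) k =
      nxC S N R p (nxS N R (S.n (nxF i hi)) i + k) + nxC S N R p (nxS N R (S.n (nxF i hi)) i) := by
  classical
  induction k with
  | zero =>
    unfold TMap.below
    rw [Finset.sum_range_zero, Nat.cast_zero, add_zero, nx_two]
  | succ k ih =>
    have ih' := ih (by omega)
    unfold TMap.below at ih' ⊢
    rw [Finset.sum_range_succ, ih']
    have h1 : (nxS N R (S.n (nxF i hi)) i + ((k + 1 : ℕ) : ℤ)) =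
        (nxS N R (S.n (nxF i hi)) i + (k : ℤ)) + 1 := by push_cast; ring
    rw [h1, nxC_succ hA h3 h hS]
    have h2 : (∃ h : k < S.n (nxF i hi), S.Own p ⟨(nxF i hi, k), h⟩) ↔
        (tht S N R p = nxS N R (S.n (nxF i hi)) i + (k : ℤ) ∨
          tht S N R (S.M p) = nxS N R (S.n (nxF i hi)) i + (k : ℤ)) := by
      have hk' : k < S.n (nxF i hi) := by omega
      have h5 : tht S N R (⟨(nxF i hi, k), hk'⟩ : Fl S.n) =
          nxS N R (S.n (nxF i hi)) i + (k : ℤ) := nx_tht_lo (r := ⟨(nxF i hi, k), hk'⟩) rfl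
      have h6 := nx_own_iff (N := N) (R := R) hA h3 h hS (p := p)
        (q := ⟨(nxF i hi, k), hk'⟩) (hE.trans hEi.symm) hv
      rw [h5] at h6
      rw [← h6]
      exact ⟨fun ⟨_, h7⟩ => h7, fun h7 => ⟨hk', h7⟩⟩
    rw [if_congr h2 rfl rfl]
    ring

theorem nx_F2 (x y : F2) : x = y ∨ x = y + 1 := by
  have : ∀ x y : F2, x = y ∨ x = y + 1 := by decide
  exact this x y

theorem nx_slot_low (hA : SlotsAt c A) (i : ZMod m) (ε : F2) :
    ∃ s, (d2 (A.σ i ε s).1).2 = false ∧ (d3 (A.σ i ε s).1).2 = false := by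
  have key : ∀ ε₀ s, (d2 (A.σ i ε₀ s).1).2 = false ∧ (d3 (A.σ i ε₀ s).1).2 = false →
      (d2 (A.σ i (ε₀ + 1) s).1).2 = false ∧ (d3 (A.σ i (ε₀ + 1) s).1).2 = false := by
    intro ε₀ s hs
    rw [← A.sa i ε₀ s, EK_a]
    exact hs
  obtain ⟨ε₀, s, hs⟩ : ∃ ε₀ s, (d2 (A.σ i ε₀ s).1).2 = false ∧
      (d3 (A.σ i ε₀ s).1).2 = false := by
    cases hd : (c.dir i).2
    · obtain ⟨s, hs⟩ := hA.low1 i hd
      exact ⟨1, s, hs⟩
    · obtain ⟨s, hs⟩ := hA.low0 i hd
      exact ⟨0, s, hs⟩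
  rcases nx_F2 ε ε₀ with rfl | rfl
  · exact ⟨s, hs⟩
  · exact ⟨s, key ε₀ s hs⟩

theorem nx_not3 : ∀ j : Fin 4, ¬ 3 < j := by decide

theorem nx_not0 : ∀ j : Fin 4, ¬ j < 0 := by decide

theorem nx_fin : ∀ i j : Fin 4, i < j → j = i + 1 ∨ (j = i + 1 + 1 ∧ i < i + 1 ∧ i + 1 < j) ∨
    (j = i + 1 + 1 + 1 ∧ (i < i + 1 ∧ i + 1 < j) ∧ (i < i + 1 + 1 ∧ i + 1 + 1 < j)) := by decide

theorem nx_l3d (v : P3) (D : Dir) (i : Fin 4) : l3d (v, nxhi D i) = (v, nxlo D (i + 1)) :=
  Prod.ext rfl (nx_d_hi D i)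

theorem nx_l3c (v : P3) (D : Dir) (i : Fin 4) : l3c (v, nxlo D i) = (v, nxhi D i) := rfl

theorem nx_gapE {v : P3} {D : Dir} {i j : Fin 4} (hi : ¬ pc c.K (v, nxlo D i))
    (hj : ¬ pc c.K (v, nxlo D j)) (hij : i < j)
    (hb : ∀ k, i < k → k < j → pc c.K (v, nxlo D k)) :
    (EK c.K).d ⟨(v, nxhi D i), nx_pc.2 hi⟩ = ⟨(v, nxlo D j), hj⟩ := by
  apply Subtype.ext
  rcases nx_fin i j hij with h1 | ⟨h1, h2, h3⟩ | ⟨h1, h2, h3⟩
  · subst h1
    have h4 : ¬ pc c.K (l3d (v, nxhi D i)) := by rw [nx_l3d]; exact hj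
    rw [EK_d (x := ⟨(v, nxhi D i), nx_pc.2 hi⟩) h4, nx_l3d]
  · have h4 : pc c.K (l3d (v, nxhi D i)) := by rw [nx_l3d]; exact hb _ h2 h3
    have h5 : ¬ pc c.K (l3d (l3c (l3d (v, nxhi D i)))) := by
      rw [nx_l3d, nx_l3c, nx_l3d, ← h1]; exact hj
    rw [EK_d2 (x := ⟨(v, nxhi D i), nx_pc.2 hi⟩) h4 h5, nx_l3d, nx_l3c, nx_l3d, ← h1]
  · have h4 : pc c.K (l3d (v, nxhi D i)) := by rw [nx_l3d]; exact hb _ h2.1 h2.2
    have h5 : pc c.K (l3d (l3c (l3d (v, nxhi D i)))) := by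
      rw [nx_l3d, nx_l3c, nx_l3d]; exact hb _ h3.1 h3.2
    have h6 : ¬ pc c.K (l3d (l3c (l3d (l3c (l3d (v, nxhi D i)))))) := by
      rw [nx_l3d, nx_l3c, nx_l3d, nx_l3c, nx_l3d, ← h1]; exact hj
    rw [EK_d3 (x := ⟨(v, nxhi D i), nx_pc.2 hi⟩) h4 h5 h6, nx_l3d, nx_l3c, nx_l3d, nx_l3c, nx_l3d,
      ← h1]

theorem nx_gapV (hA : SlotsAt c A) {v : P3} {D : Dir} {i j : Fin 4}
    (hi : ¬ pc c.K (v, nxlo D i)) (hj : ¬ pc c.K (v, nxlo D j)) (hij : i < j)
    (hb : ∀ k, i < k → k < j → pc c.K (v, nxlo D k)) :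
    A.attach.d (A.attach.c (nxF i hi)) = nxF j hj := by
  have h1 := nx_gapE hi hj hij hb
  have h2 : ∀ q, A.slot q ≠ ⟨(v, nxhi D i), nx_pc.2 hi⟩ := by
    intro q hq
    obtain ⟨s', l1, l2⟩ := nx_slot_low hA q.1 q.2.1
    rcases nx_F2 s' q.2.2 with hs | hs
    · rw [hs] at l1 l2
      have h4 : A.σ q.1 q.2.1 q.2.2 = ⟨(v, nxhi D i), nx_pc.2 hi⟩ := hq
      rw [h4] at l1 l2
      have h5 := nx_hi_low D i l1 l2
      subst h5
      exact nx_not3 j hij
    · rw [hs] at l1 l2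
      have h4 : A.σ q.1 q.2.1 (q.2.2 + 1) = ⟨(v, nxlo D j), hj⟩ := by
        rw [← h1, ← hq, A.attach_E_d_slot]
        rfl
      rw [h4] at l1 l2
      have h5 := nx_lo_low D j l1 l2
      subst h5
      exact nx_not0 i hij
  show A.dd (.inl ⟨(v, nxhi D i), nx_pc.2 hi⟩) = _
  rw [A.attach_dd_not h2, h1]
  rfl

theorem nx_face (hA : SlotsAt c A) (h3 : 3 ≤ m) {N R : ℤ} (h : NR S N R)
    (hS : S.IsGood Slots.h0) {p : Fl S.n} {G : VF c → F2} (hG : S.IsSide p G)
    {E : P3 × Fin 3} {v : P3} (hE : edgV p.1.1 = E) (hv : vtV p.1.1 = v) {i : Fin 4}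
    (hi : ¬ pc c.K (v, nxlo (nxD E v) i)) (hEi : edgV (nxF i hi : VF c) = E) :
    G (nxF i hi) + nxC S N R p ((i.val : ℤ) * N + 1) =
      G (A.attach.c (nxF i hi)) + nxC S N R p (((i.val : ℤ) + 1) * N + 1) := by
  obtain ⟨e1, e2⟩ := edgV_M hA p
  have a1 := nx_sep1 h hE hv hi
  have a2 := nx_sep1 h (e1.trans hE) (e2.trans hv) hi
  have b1 := nxC_congr a1.1 a2.1
  have b2 := nxC_congr a1.2 a2.2
  have b3 := nx_below hA h3 h hS hE hv hi _ le_rfl hEi
  have b4 := hG.c (nxF i hi)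
  rw [b3, ← b1, ← b2] at b4
  have key : ∀ a b c d : F2, a + b = c + d → a + d = b + c := by decide
  exact key _ _ _ _ b4

theorem nx_corner (hA : SlotsAt c A) {N R : ℤ} (h : NR S N R) {p : Fl S.n}
    {E : P3 × Fin 3} {v : P3} (hE : edgV p.1.1 = E) (hv : vtV p.1.1 = v) {i j : Fin 4}
    (hb : ∀ k, i < k → k < j → pc c.K (v, nxlo (nxD E v) k)) (d : ℕ)
    (hd : i.val + 1 + d ≤ j.val) : nxC S N R p (((i.val : ℤ) + 1) * N + 1) =
      nxC S N R p (((i.val + 1 + d : ℕ) : ℤ) * N + 1) := by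
  obtain ⟨e1, e2⟩ := edgV_M hA p
  induction d with
  | zero => push_cast; rw [add_zero]
  | succ d ih =>
    rw [ih (by omega)]
    have hk := hb ⟨i.val + 1 + d, by omega⟩ (by rw [Fin.lt_def]; simp only; omega)
      (by rw [Fin.lt_def]; simp only; omega)
    have a1 := nx_sep2 h hE hv hk
    have a2 := nx_sep2 h (e1.trans hE) (e2.trans hv) hk
    have b1 := nxC_congr a1 a2
    simp only at b1
    rw [b1]
    push_cast
    rfl

theorem nx_const (hA : SlotsAt c A) (h3 : 3 ≤ m) {N R : ℤ} (h : NR S N R)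
    (hS : S.IsGood Slots.h0) {p : Fl S.n} {G : VF c → F2} (hG : S.IsSide p G)
    {E : P3 × Fin 3} {v : P3} (hE : edgV p.1.1 = E) (hv : vtV p.1.1 = v)
    (hEi : ∀ (i : Fin 4) (hi : ¬ pc c.K (v, nxlo (nxD E v) i)), edgV (nxF i hi : VF c) = E) :
    ∀ (n : ℕ) (i j : Fin 4) (hi : ¬ pc c.K (v, nxlo (nxD E v) i))
      (hj : ¬ pc c.K (v, nxlo (nxD E v) j)), i < j → j.val - i.val ≤ n →
    G (nxF i hi) + nxC S N R p ((i.val : ℤ) * N + 1) =
      G (nxF j hj) + nxC S N R p ((j.val : ℤ) * N + 1) := by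
  intro n
  induction n with
  | zero =>
    intro i j hi hj hij hn
    rw [Fin.lt_def] at hij
    omega
  | succ n ih =>
    intro i j hi hj hij hn
    by_cases hk : ∃ k, i < k ∧ k < j ∧ ¬ pc c.K (v, nxlo (nxD E v) k)
    · obtain ⟨k, k1, k2, k3⟩ := hk
      have k1' := Fin.lt_def.1 k1
      have k2' := Fin.lt_def.1 k2
      rw [ih i k hi k3 k1 (by omega), ih k j k3 hj k2 (by omega)]
    · have hb : ∀ k, i < k → k < j → pc c.K (v, nxlo (nxD E v) k) := by
        intro k k1 k2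
        by_contra k3
        exact hk ⟨k, k1, k2, k3⟩
      rw [nx_face hA h3 h hS hG hE hv hi (hEi i hi), ← hG.d (A.attach.c (nxF i hi)),
        nx_gapV hA hi hj hij hb]
      have hij' := Fin.lt_def.1 hij
      rw [nx_corner hA h hE hv hb (j.val - (i.val + 1)) (by omega)]
      have : i.val + 1 + (j.val - (i.val + 1)) = j.val := by omega
      rw [this]

theorem nx_edgV {E : P3 × Fin 3} {v : P3} (x : VF c) (hE : edgV x = E) (hv : vtV x = v) (i : Fin 4)
    (hi : ¬ pc c.K (v, nxlo (nxD E v) i)) : edgV (nxF i hi : VF c) = E := by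
  show edgL (v, nxlo (nxD E v) i) = E
  have h1 := vtV_edgV x
  rw [hE, hv] at h1
  unfold edgL
  show (v + pv (nxD E v), E.2) = E
  refine Prod.ext ?_ rfl
  show v + pv (nxD E v) = E.1
  unfold pv nxD
  by_cases h2 : v = E.1
  · rw [if_neg]
    · rw [add_zero]; exact h2
    · simp [h2]
  · rw [if_pos]
    · rcases h1 with h1 | h1
      · exact absurd h1 h2
      · exact h1
    · simp [h2]

theorem nx_exists (hA : SlotsAt c A) (x : VF c) :
    ∃ i : Fin 4, ¬ pc c.K (vtV x, nxlo (nxD (edgV x) (vtV x)) i) := by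
  rcases x with x | q
  · rcases nx_class (A := A) (.inl x) with ⟨q, hq⟩ | ⟨i, h, -⟩
    · cases hq
    · exact ⟨i, h⟩
  · have h1 : A.attach.CD (.inr q) (.inl (A.slot q)) := TMap.CD.d A.attach (.inr q)
    obtain ⟨h2, h4⟩ := edgV_CD hA h1
    rw [h2, h4]
    rcases nx_class (A := A) (.inl (A.slot q)) with ⟨q, hq⟩ | ⟨i, h, -⟩
    · cases hq
    · exact ⟨i, h⟩

theorem nx_own_c (p q : Fl S.n) : S.Own p (S.hn.fc q) ↔ S.Own p q := by
  have h1 : ∀ a b : Fl S.n, S.hn.fc a = b ↔ a = S.hn.fc b := by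
    intro a b
    constructor
    · rintro rfl; exact (S.hn.ops_fc_fc a).symm
    · rintro rfl; exact S.hn.ops_fc_fc b
  have h2 : ∀ a b : Fl S.n, S.hn.fc a = S.hn.fc b ↔ a = b := by
    intro a b
    rw [h1, S.hn.ops_fc_fc]
  unfold Carried.Own
  rw [h1, h2, h1, h2]
  tauto

theorem nx_side_c {p : Fl S.n} {G : VF c → F2} (hG : S.IsSide p G) {q : Fl S.n}
    (hq : ¬ S.Own p q) : S.side p G q = S.side p G (S.hn.fc q) := by
  have h1 := (TMap.gap_infl S.hn (nx_own_c p) hG.d hG.c).2 q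
  rw [if_neg hq] at h1
  have key : ∀ a b : F2, a + b = 0 → a = b := by decide
  exact key _ _ h1

/-- The position of the flags relative to a chord. -/
theorem exists_side (hA : SlotsAt c A) (h3 : 3 ≤ m) {N R : ℤ} (h : NR S N R)
    (hS : S.IsGood Slots.h0) {p : Fl S.n} {G : VF c → F2} (hG : S.IsSide p G) :
    ∃ z : F2, ∀ q : Fl S.n, edgV q.1.1 = edgV p.1.1 → vtV q.1.1 = vtV p.1.1 → ¬ S.Own p q →
      S.side p G q = z + (if tht S N R p < tht S N R q then 1 else 0) +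
        (if tht S N R (S.M p) < tht S N R q then 1 else 0) := by
  classical
  obtain ⟨e1, e2⟩ := edgV_M hA p
  obtain ⟨i0, hi0⟩ := nx_exists hA p.1.1
  have hEi := fun i hi => nx_edgV p.1.1 rfl rfl i hi
  set E := edgV p.1.1 with hE
  set v := vtV p.1.1 with hv
  set z := G (nxF i0 hi0) + nxC S N R p ((i0.val : ℤ) * N + 1) with hz
  have hconst : ∀ (i : Fin 4) (hi : ¬ pc c.K (v, nxlo (nxD E v) i)),
      G (nxF i hi) + nxC S N R p ((i.val : ℤ) * N + 1) = z := by
    intro i hi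
    rcases lt_trichotomy i i0 with h1 | h1 | h1
    · exact nx_const hA h3 h hS hG rfl rfl hEi _ i i0 hi hi0 h1 le_rfl
    · subst h1; rfl
    · exact (nx_const hA h3 h hS hG rfl rfl hEi _ i0 i hi0 hi h1 le_rfl).symm
  have hlo : ∀ q : Fl S.n, ∀ (i : Fin 4) (hi : ¬ pc c.K (v, nxlo (nxD E v) i)),
      q.1.1 = nxF i hi → S.side p G q = z + nxC S N R p (tht S N R q) := by
    intro q i hi hq
    have hk := q.2
    rw [hq] at hk
    unfold Carried.side
    rw [hq, nx_below hA h3 h hS rfl rfl hi q.1.2 hk.le (hEi i hi), nx_tht_lo hq,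
      ← hconst i hi, nxC_congr (nx_sep1 h hE.symm hv.symm hi).1
        (nx_sep1 h (e1.trans hE.symm) (e2.trans hv.symm) hi).1]
    ring
  refine ⟨z, fun q hqE hqv hq => ?_⟩
  have hR := h.hR
  have hnn : ∀ r : Fl S.n, edgV r.1.1 = E → vtV r.1.1 = v → ¬ IsH S r →
      R ≤ tht S N R r ∧ tht S N R r < 4 * N + 1 := by
    intro r hr1 hr2 hr3
    rcases nx_pos (N := N) (R := R) hr1 hr2 with ⟨h5, -⟩ | ⟨j, hj, h5, h6⟩
    · exact absurd h5 hr3
    · obtain ⟨b1, b2⟩ := nxS_bounds (h.hN (nxF j hj)) j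
      have hN0 : 0 ≤ N := by
        have := h.hN (nxF j hj)
        have : (0 : ℤ) ≤ S.n (nxF j hj) := Int.natCast_nonneg _
        linarith
      have b3 : 0 ≤ (j.val : ℤ) * N := by positivity
      have b4 : ((j.val : ℤ) + 1) * N ≤ 4 * N := by
        apply mul_le_mul_of_nonneg_right _ hN0
        have := j.2
        have : j.val + 1 ≤ 4 := by omega
        exact_mod_cast this
      constructor <;> linarith
  rw [add_assoc]
  show S.side p G q = z + nxC S N R p (tht S N R q)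
  by_cases hH : IsH S q
  · -- the special flag
    have hp : ¬ IsH S p := by
      intro hp
      rcases nx_inj h3 h hS hqE.symm hqv.symm ((tht_H N R hp).trans (tht_H N R hH).symm) with h5 | h5
      · exact hq (Or.inl h5)
      · exact hq (Or.inr (Or.inl h5))
    have hMp : ¬ IsH S (S.M p) := by
      intro hp
      rcases nx_inj h3 h hS (e1.trans hqE.symm) (e2.trans hqv.symm)
        ((tht_H N R hp).trans (tht_H N R hH).symm) with h5 | h5
      · exact hq (Or.inr (Or.inr (Or.inl h5)))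
      · exact hq (Or.inr (Or.inr (Or.inr h5)))
    obtain ⟨b1, b2⟩ := hnn p rfl rfl hp
    obtain ⟨b3, b4⟩ := hnn (S.M p) e1 e2 hMp
    have c0 : nxC S N R p 0 = 0 := by
      unfold nxC
      rw [if_neg (by omega), if_neg (by omega), add_zero]
    have c1 : nxC S N R p 1 = 0 := by
      unfold nxC
      rw [if_neg (by omega), if_neg (by omega), add_zero]
    have c4 : nxC S N R p (4 * N + 1) = 0 := by
      unfold nxC
      rw [if_pos b2, if_pos b4]
      exact nx_two 1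
    rw [tht_H N R hH, c0, add_zero]
    obtain ⟨⟨x, k⟩, hk⟩ := q
    obtain ⟨q', rfl⟩ : ∃ q', x = .inr q' := hH
    have hn1 := n_inr hS q'
    have hk0 : k = 0 := by
      have : k < S.n (.inr q') := hk
      omega
    subst hk0
    have s1 : S.side p G ⟨(.inr q', 0), hk⟩ = G (.inr q') := by
      unfold Carried.side TMap.below
      rw [Finset.sum_range_zero, add_zero]
    rw [s1]
    obtain ⟨s', l1, l2⟩ := nx_slot_low hA q'.1 q'.2.1
    have s2 : G (.inr q') = G (.inr (q'.1, q'.2.1, s')) := by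
      rcases nx_F2 s' q'.2.2 with hs | hs
      · rw [hs]
      · rw [hs]
        have h5 := hG.c (.inr q')
        rw [hn1] at h5
        unfold TMap.below at h5
        rw [Finset.sum_range_one, if_neg] at h5
        · have key : ∀ a b : F2, a + b = 0 → a = b := by decide
          exact key _ _ h5
        · rintro ⟨h6, h7⟩
          exact hq h7
    have s3 : G (.inr (q'.1, q'.2.1, s')) = G (.inl (A.σ q'.1 q'.2.1 s')) :=
      (hG.d (.inr (q'.1, q'.2.1, s'))).symm
    rw [s2, s3]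
    have hCD : A.attach.CD (.inr (q'.1, q'.2.1, s')) (.inl (A.σ q'.1 q'.2.1 s')) :=
      TMap.CD.d A.attach (.inr (q'.1, q'.2.1, s'))
    obtain ⟨g1, g2⟩ := edgV_CD hA hCD
    have g3 : edgV (.inl (A.σ q'.1 q'.2.1 s') : VF c) = E := g1.symm.trans hqE
    have g4 : vtV (.inl (A.σ q'.1 q'.2.1 s') : VF c) = v := g2.symm.trans hqv
    generalize A.σ q'.1 q'.2.1 s' = y at l1 l2 g3 g4
    obtain ⟨⟨w, f⟩, hy⟩ := y
    have g5 : w = v := g4
    subst g5
    have g6 : f.1.1 = nxD E v := by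
      have := nx_d1 (v, f)
      rw [show edgL (v, f) = E from g3] at this
      exact this
    rcases nx_low f l1 l2 with hf | hf
    · rw [g6] at hf
      subst hf
      have h5 := hconst 0 hy
      have h6 : (((0 : Fin 4).val : ℤ)) * N + 1 = 1 := by norm_num
      rw [h6, c1, add_zero] at h5
      exact h5
    · rw [g6] at hf
      subst hf
      have h5 := hconst 3 (nx_pc.1 hy)
      rw [nx_face hA h3 h hS hG rfl rfl (nx_pc.1 hy) (hEi 3 _)] at h5
      have h6 : (((3 : Fin 4).val : ℤ) + 1) * N + 1 = 4 * N + 1 := by norm_num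
      rw [h6, c4, add_zero] at h5
      exact h5
  · rcases nx_class (A := A) q.1.1 with h5 | ⟨i, hi, h5 | h5⟩
    · exact absurd h5 hH
    · revert hi h5
      rw [hqE, hqv]
      intro hi h5
      exact hlo q i hi h5
    · revert hi h5
      rw [hqE, hqv]
      intro hi h5
      rw [nx_side_c hG hq, ← tht_c N R q]
      apply hlo (S.hn.fc q) i hi
      show A.attach.c q.1.1 = _
      rw [h5, A.attach.cc]

/-- **The chords do not cross.** -/
theorem nonx (hA : SlotsAt c A) (h3 : 3 ≤ m) {N R : ℤ} (h : NR S N R)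
    (hS : S.IsGood Slots.h0) {p q : Fl S.n} (he : edgV p.1.1 = edgV q.1.1)
    (h1 : tht S N R p < tht S N R q) (h2 : tht S N R q < tht S N R (S.M p)) :
    tht S N R p < tht S N R (S.M q) ∧ tht S N R (S.M q) < tht S N R (S.M p) := by
  have main : ∀ q : Fl S.n, edgV p.1.1 = edgV q.1.1 → vtV p.1.1 = vtV q.1.1 →
      tht S N R p < tht S N R q → tht S N R q < tht S N R (S.M p) →
      tht S N R p < tht S N R (S.M q) ∧ tht S N R (S.M q) < tht S N R (S.M p) := by
    intro q he hv h1 h2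
    obtain ⟨G, hG, hside⟩ := hS.nc p
    obtain ⟨z, hz⟩ := exists_side hA h3 h hS hG
    obtain ⟨e1, e2⟩ := edgV_M hA q
    have o1 : ¬ S.Own p q := by
      rw [nx_own_iff hA h3 h hS he hv]
      rintro (h4 | h4)
      · exact h1.ne h4
      · exact h2.ne h4.symm
    have o2 : ¬ S.Own p (S.M q) := by
      intro h4
      apply o1
      unfold Carried.Own at h4 ⊢
      have hM : ∀ a b : Fl S.n, S.M a = b → a = S.M b := by
        rintro a b rfl
        exact (S.MM a).symm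
      rcases h4 with h4 | h4 | h4 | h4
      · exact Or.inr (Or.inr (Or.inl (hM _ _ h4)))
      · right; right; right
        rw [hM _ _ h4, S.cM]
      · left
        rw [hM _ _ h4, S.MM]
      · right; left
        rw [hM _ _ h4, ← S.cM, S.MM]
    have s1 := hz q he.symm hv.symm o1
    have s2 := hz (S.M q) (e1.trans he.symm) (e2.trans hv.symm) o2
    have hne : tht S N R (S.M q) ≠ tht S N R (S.M p) := by
      intro h4
      exact o2 ((nx_own_iff hA h3 h hS (he.trans e1.symm) (hv.trans e2.symm)).2 (Or.inr h4.symm))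
    rw [hside q, s1, if_pos h1, if_neg (not_lt.2 h2.le)] at s2
    by_cases h5 : tht S N R (S.M p) < tht S N R (S.M q)
    · exfalso
      rw [if_pos h5, if_pos ((h1.trans h2).trans h5)] at s2
      have key : ∀ z : F2, z + 1 + 0 ≠ z + 1 + 1 := by decide
      exact key z s2
    · rw [if_neg h5] at s2
      by_cases h6 : tht S N R p < tht S N R (S.M q)
      · exact ⟨h6, lt_of_le_of_ne (not_lt.1 h5) hne⟩
      · exfalso
        rw [if_neg h6] at s2
        have key : ∀ z : F2, z + 1 + 0 ≠ z + 0 + 0 := by decide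
        exact key z s2
  by_cases hv : vtV p.1.1 = vtV q.1.1
  · exact main q he hv h1 h2
  · have hEa : edgV p.1.1 = edgV (S.hn.fa q).1.1 := he.trans (edgV_a (A := A) q.1.1).symm
    have hva : vtV p.1.1 = vtV (S.hn.fa q).1.1 := by
      have g1 := vtV_edgV p.1.1
      have g2 := vtV_edgV q.1.1
      have g3 := vtV_edgV (S.hn.fa q).1.1
      have g4 : vtV (S.hn.fa q).1.1 ≠ vtV q.1.1 := vtV_a h3 (A := A) q.1.1
      rw [← hEa] at g3
      rw [← he] at g2
      rcases g1 with g1 | g1 <;> rcases g2 with g2 | g2 <;> rcases g3 with g3 | g3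
      · exact g1.trans g3.symm
      · exact absurd (g1.trans g2.symm) hv
      · exact g1.trans g3.symm
      · exact absurd (add_right_cancel (g3.trans g2.symm)) g4
      · exact absurd (g3.trans g2.symm) g4
      · exact add_right_cancel (g1.trans g3.symm)
      · exact absurd (add_right_cancel (g1.trans g2.symm)) hv
      · exact add_right_cancel (g1.trans g3.symm)
    have := main (S.hn.fa q) hEa hva (by rw [tht_a]; exact h1) (by rw [tht_a]; exact h2)
    rw [← S.aM, tht_a] at this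
    exact this

end Side

end Pool.Agent.Lib.MP_131179_gt.Dehn
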