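import Pool.Agent.Lib.MP_131179_gt.Dehn.Ops

/-!
# Closed words which are null-homotopic

Words in the generators `a, b, c, e` describe walks in a two-dimensional complex; here `e` is the
rotation around an edge in the subcomplex `T`.
-/

set_option autoImplicit false

namespace Pool.Agent.Lib.MP_131179_gt.Dehn

/-- The generators of walks. -/
inductive Gen : Type
  | a | b | c | e
  deriving DecidableEq

namespace TMap

variable {Φ : Type} (V : TMap Φ) {T : Φ → Prop} (hT : V.IsSub T)

/-- The action of a generator. -/
noncomputable def gen (g : Gen) (x : Φ) : Φ :=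
  match g with
  | .a => V.a x
  | .b => V.b x
  | .c => V.c x
  | .e => (V.fr hT).ret x

/-- The end of the walk with the word `w` starting at `x`. -/
noncomputable def act : List Gen → Φ → Φ
  | [], x => x
  | g :: w, x => act w (V.gen hT g x)

open Classical in
/-- The flags visited by a walk. -/
noncomputable def visit : List Gen → Φ → Finset Φ
  | [], x => {x}
  | g :: w, x => insert x (visit w (V.gen hT g x))

/-- The word `(a b)^k`. -/
def fw : ℕ → List Gen
  | 0 => []
  | k + 1 => .a :: .b :: fw k

/-- `k` is the number of edges of the face of `x`. -/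
def FaceSize (x : Φ) (k : ℕ) : Prop :=
  0 < k ∧ (fun y => V.b (V.a y))^[k] x = x ∧ ∀ j, 0 < j → j < k → (fun y => V.b (V.a y))^[j] x ≠ x

open Classical in
/-- `Null x w S N`: the word `w` is a closed walk starting at `x` in the complex `T`, and
null-homotopic; `S` is the set of flags visited by the homotopy, and `N` bounds the size of the
homotopy. -/
inductive Null : Φ → List Gen → Finset Φ → ℕ → Prop
  | nil (x : Φ) (hx : T x) : Null x [] {x} 1
  | vert (x : Φ) (hx : T x) (w : List Gen) (hw : Gen.a ∉ w) (hc : V.act hT w x = x) :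
      Null x w (V.visit hT w x) (w.length + 1)
  | back (x : Φ) (hx : T x) : Null x [.a, .a] {x, V.a x} 2
  | comm (x : Φ) (hx : T x) (g : Gen) (hg : g = .c ∨ g = .e) :
      Null x [.a, g, .a, g] (V.visit hT [.a, g, .a, g] x) 5
  | face (x : Φ) (hx : T x) (k : ℕ) (hk : V.FaceSize x k) :
      Null x (fw k) (V.visit hT (fw k) x) (2 * k + 1)
  | ins {x : Φ} {u v r : List Gen} {S S' : Finset Φ} {N N' : ℕ} (h : Null x (u ++ v) S N)
      (h' : Null (V.act hT u x) r S' N') : Null x (u ++ (r ++ v)) (S ∪ S') (N + N')
  | del {x : Φ} {u v r : List Gen} {S S' : Finset Φ} {N N' : ℕ} (h : Null x (u ++ (r ++ v)) S N)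
      (h' : Null (V.act hT u x) r S' N') : Null x (u ++ v) (S ∪ S') (N + N')

variable {V hT}

theorem act_append (u v : List Gen) (x : Φ) :
    V.act hT (u ++ v) x = V.act hT v (V.act hT u x) := by
  induction u generalizing x with
  | nil => rfl
  | cons g u ih => exact ih _

theorem null_gen_T {g : Gen} {x : Φ} (hx : T x) : T (V.gen hT g x) := by
  cases g with
  | a => exact (hT.a x).2 hx
  | b => exact (hT.b x).2 hx
  | c => exact (hT.c x).2 hx
  | e => exact (V.fr hT).ret_T hx

theorem act_T {w : List Gen} {x : Φ} (hx : T x) : T (V.act hT w x) := by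
  induction w generalizing x with
  | nil => exact hx
  | cons g w ih => exact ih (null_gen_T hx)

theorem null_act_fw (k : ℕ) (x : Φ) :
    V.act hT (fw k) x = (fun y => V.b (V.a y))^[k] x := by
  induction k generalizing x with
  | zero => rfl
  | succ k ih =>
      rw [Function.iterate_succ_apply]
      exact ih _

theorem null_e_comm {x : Φ} (hx : T x) : (V.fr hT).ret (V.a x) = V.a ((V.fr hT).ret x) :=
  (V.fr hT).ret_comm (a := V.a) hT.a V.ad (fun ω _ => V.ac ω) hx

theorem Null.closed {x : Φ} {w : List Gen} {S : Finset Φ} {N : ℕ} (h : V.Null hT x w S N) :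
    V.act hT w x = x := by
  induction h with
  | nil x hx => rfl
  | vert x hx w hw hc => exact hc
  | back x hx => exact V.aa x
  | comm x hx g hg =>
      rcases hg with rfl | rfl
      · show V.c (V.a (V.c (V.a x))) = x
        rw [V.ac, V.aa, V.cc]
      · show (V.fr hT).ret (V.a ((V.fr hT).ret (V.a x))) = x
        rw [null_e_comm hx, V.aa, (V.fr hT).ret_ret hx]
  | face x hx k hk =>
      rw [null_act_fw]
      exact hk.2.1
  | @ins x u v r S S' N N' h h' ih ih' =>
      rw [act_append, act_append, ih', ← act_append]
      exact ih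
  | @del x u v r S S' N N' h h' ih ih' =>
      rw [act_append, act_append, ih', ← act_append] at ih
      exact ih

theorem null_visit_T {w : List Gen} {x y : Φ} (hx : T x) (hy : y ∈ V.visit hT w x) : T y := by
  classical
  induction w generalizing x with
  | nil =>
      have : y = x := by simpa [visit] using hy
      rwa [this]
  | cons g w ih =>
      have h1 : y = x ∨ y ∈ V.visit hT w (V.gen hT g x) := by simpa [visit] using hy
      rcases h1 with rfl | h1
      · exact hx
      · exact ih (null_gen_T hx) h1

theorem null_mem_visit (w : List Gen) (x : Φ) : x ∈ V.visit hT w x := by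
  classical
  cases w with
  | nil => simp [visit]
  | cons g w => simp [visit]

open Classical in
theorem null_visit_append (u v : List Gen) (x : Φ) :
    V.visit hT (u ++ v) x = V.visit hT u x ∪ V.visit hT v (V.act hT u x) := by
  induction u generalizing x with
  | nil =>
      show V.visit hT v x = {x} ∪ V.visit hT v x
      symm
      rw [Finset.union_eq_right, Finset.singleton_subset_iff]
      exact null_mem_visit v x
  | cons g u ih =>
      show insert x (V.visit hT (u ++ v) (V.gen hT g x)) =
        insert x (V.visit hT u (V.gen hT g x)) ∪ V.visit hT v (V.act hT u (V.gen hT g x))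
      rw [ih, Finset.insert_union]

theorem null_visit_card (w : List Gen) (x : Φ) : (V.visit hT w x).card ≤ w.length + 1 := by
  classical
  induction w generalizing x with
  | nil => simp [visit]
  | cons g w ih =>
      refine (Finset.card_insert_le _ _).trans ?_
      rw [List.length_cons]
      exact Nat.add_le_add_right (ih _) 1

theorem null_fw_length (k : ℕ) : (fw k).length = 2 * k := by
  induction k with
  | zero => rfl
  | succ k ih =>
      show (fw k).length + 1 + 1 = _
      omega

theorem Null.T_of_mem {x : Φ} {w : List Gen} {S : Finset Φ} {N : ℕ} (h : V.Null hT x w S N)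
    {y : Φ} (hy : y ∈ S) : T y := by
  classical
  induction h generalizing y with
  | nil x hx =>
      rw [Finset.mem_singleton] at hy
      rwa [hy]
  | vert x hx w hw hc => exact null_visit_T hx hy
  | back x hx =>
      rw [Finset.mem_insert, Finset.mem_singleton] at hy
      rcases hy with rfl | rfl
      · exact hx
      · exact (hT.a x).2 hx
  | comm x hx g hg => exact null_visit_T hx hy
  | face x hx k hk => exact null_visit_T hx hy
  | @ins x u v r S S' N N' h h' ih ih' =>
      rw [Finset.mem_union] at hy
      rcases hy with hy | hy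
      · exact ih hy
      · exact ih' hy
  | @del x u v r S S' N N' h h' ih ih' =>
      rw [Finset.mem_union] at hy
      rcases hy with hy | hy
      · exact ih hy
      · exact ih' hy

theorem Null.visit_subset {x : Φ} {w : List Gen} {S : Finset Φ} {N : ℕ}
    (h : V.Null hT x w S N) : V.visit hT w x ⊆ S := by
  classical
  induction h with
  | nil x hx => exact Finset.Subset.refl _
  | vert x hx w hw hc => exact Finset.Subset.refl _
  | back x hx =>
      intro y hy
      have h1 : y = x ∨ y = V.a x ∨ y = V.a (V.a x) := by simpa [visit, gen] using hy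
      rw [V.aa] at h1
      rw [Finset.mem_insert, Finset.mem_singleton]
      tauto
  | comm x hx g hg => exact Finset.Subset.refl _
  | face x hx k hk => exact Finset.Subset.refl _
  | @ins x u v r S S' N N' h h' ih ih' =>
      rw [null_visit_append] at ih
      rw [null_visit_append, null_visit_append, h'.closed]
      intro y hy
      rw [Finset.mem_union, Finset.mem_union] at hy
      rw [Finset.mem_union]
      rcases hy with hy | hy | hy
      · exact Or.inl (ih (Finset.mem_union_left _ hy))
      · exact Or.inr (ih' hy)
      · exact Or.inl (ih (Finset.mem_union_right _ hy))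
  | @del x u v r S S' N N' h h' ih ih' =>
      rw [null_visit_append, null_visit_append, h'.closed] at ih
      rw [null_visit_append]
      intro y hy
      rw [Finset.mem_union] at hy
      rw [Finset.mem_union]
      rcases hy with hy | hy
      · exact Or.inl (ih (Finset.mem_union_left _ hy))
      · exact Or.inl (ih (Finset.mem_union_right _ (Finset.mem_union_right _ hy)))

theorem Null.card_le {x : Φ} {w : List Gen} {S : Finset Φ} {N : ℕ} (h : V.Null hT x w S N) :
    S.card ≤ N := by
  classical
  induction h with
  | nil x hx => simp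
  | vert x hx w hw hc => exact null_visit_card w x
  | back x hx => exact Finset.card_le_two
  | comm x hx g hg => exact null_visit_card _ x
  | face x hx k hk =>
      have := null_visit_card (V := V) (hT := hT) (fw k) x
      rwa [null_fw_length] at this
  | @ins x u v r S S' N N' h h' ih ih' =>
      exact (Finset.card_union_le _ _).trans (Nat.add_le_add ih ih')
  | @del x u v r S S' N N' h h' ih ih' =>
      exact (Finset.card_union_le _ _).trans (Nat.add_le_add ih ih')

theorem null_start_T {x : Φ} {w : List Gen} {S : Finset Φ} {N : ℕ} (h : V.Null hT x w S N) :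
    T x := h.T_of_mem (h.visit_subset (null_mem_visit w x))

theorem null_gen_inv {R : Type} {f : Φ → R} (ga : ∀ z, f (V.a z) = f z)
    (gb : ∀ z, f (V.b z) = f z) (gc : ∀ z, f (V.c z) = f z) (gd : ∀ z, f (V.d z) = f z)
    {x : Φ} (hx : T x) (g : Gen) : f (V.gen hT g x) = f x := by
  cases g with
  | a => exact ga x
  | b => exact gb x
  | c => exact gc x
  | e => exact (V.fr hT).ret_inv gd (fun ω _ => gc ω) hx

theorem null_act_inv {R : Type} {f : Φ → R} (ga : ∀ z, f (V.a z) = f z)
    (gb : ∀ z, f (V.b z) = f z) (gc : ∀ z, f (V.c z) = f z) (gd : ∀ z, f (V.d z) = f z)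
    {x : Φ} (hx : T x) (w : List Gen) : f (V.act hT w x) = f x := by
  induction w generalizing x with
  | nil => rfl
  | cons g w ih => exact (ih (null_gen_T hx)).trans (null_gen_inv ga gb gc gd hx g)

theorem null_visit_inv {R : Type} {f : Φ → R} (ga : ∀ z, f (V.a z) = f z)
    (gb : ∀ z, f (V.b z) = f z) (gc : ∀ z, f (V.c z) = f z) (gd : ∀ z, f (V.d z) = f z)
    {x : Φ} (hx : T x) (w : List Gen) {y : Φ} (hy : y ∈ V.visit hT w x) : f y = f x := by
  classical
  induction w generalizing x with
  | nil =>
      have : y = x := by simpa [visit] using hy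
      rw [this]
  | cons g w ih =>
      have h1 : y = x ∨ y ∈ V.visit hT w (V.gen hT g x) := by simpa [visit] using hy
      rcases h1 with rfl | h1
      · rfl
      · exact (ih (null_gen_T hx) h1).trans (null_gen_inv ga gb gc gd hx g)

/-- All visited flags are connected. -/
theorem Null.conn {x : Φ} {w : List Gen} {S : Finset Φ} {N : ℕ} (h : V.Null hT x w S N)
    {y : Φ} (hy : y ∈ S) {R : Type} {g : Φ → R} (ga : ∀ z, g (V.a z) = g z)
    (gb : ∀ z, g (V.b z) = g z) (gc : ∀ z, g (V.c z) = g z) (gd : ∀ z, g (V.d z) = g z) :
    g y = g x := by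
  classical
  induction h generalizing y with
  | nil x hx =>
      rw [Finset.mem_singleton] at hy
      rw [hy]
  | vert x hx w hw hc => exact null_visit_inv ga gb gc gd hx _ hy
  | back x hx =>
      rw [Finset.mem_insert, Finset.mem_singleton] at hy
      rcases hy with rfl | rfl
      · rfl
      · exact ga x
  | comm x hx g' hg => exact null_visit_inv ga gb gc gd hx _ hy
  | face x hx k hk => exact null_visit_inv ga gb gc gd hx _ hy
  | @ins x u v r S S' N N' h h' ih ih' =>
      rw [Finset.mem_union] at hy
      rcases hy with hy | hy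
      · exact ih hy
      · exact (ih' hy).trans (null_act_inv ga gb gc gd (null_start_T h) u)
  | @del x u v r S S' N N' h h' ih ih' =>
      rw [Finset.mem_union] at hy
      rcases hy with hy | hy
      · exact ih hy
      · exact (ih' hy).trans (null_act_inv ga gb gc gd (null_start_T h) u)

/-! ### Homology -/

variable (V hT)

/-- The sum of `κ` over the edges of a walk. -/
noncomputable def asum (κ : Φ → F2) : List Gen → Φ → F2
  | [], _ => 0
  | g :: w, x => (if g = .a then κ x else 0) + asum κ w (V.gen hT g x)

variable {V hT}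

theorem asum_append (κ : Φ → F2) (u v : List Gen) (x : Φ) :
    V.asum hT κ (u ++ v) x = V.asum hT κ u x + V.asum hT κ v (V.act hT u x) := by
  induction u generalizing x with
  | nil =>
      show V.asum hT κ v x = 0 + V.asum hT κ v x
      rw [zero_add]
  | cons g u ih =>
      show (if g = .a then κ x else 0) + V.asum hT κ (u ++ v) (V.gen hT g x) =
        (if g = .a then κ x else 0) + V.asum hT κ u (V.gen hT g x) +
          V.asum hT κ v (V.act hT u (V.gen hT g x))
      rw [ih, add_assoc]

theorem null_asum_vert (κ : Φ → F2) {w : List Gen} (hw : Gen.a ∉ w) (x : Φ) :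
    V.asum hT κ w x = 0 := by
  induction w generalizing x with
  | nil => rfl
  | cons g w ih =>
      show (if g = .a then κ x else 0) + V.asum hT κ w (V.gen hT g x) = 0
      have h1 : g ≠ .a := fun h => hw (by rw [h]; exact List.mem_cons_self)
      have h2 : Gen.a ∉ w := fun h => hw (List.mem_cons_of_mem _ h)
      rw [if_neg h1, ih h2, add_zero]

theorem null_F2_add_self (t : F2) : t + t = 0 := CharTwo.add_self_eq_zero t

/-- The sum over the boundary of a face. -/
theorem null_asum_fw (κ : Φ → F2) (k : ℕ) (x : Φ) :
    V.asum hT κ (fw k) x = ∑ j ∈ Finset.range k, κ ((fun y => V.b (V.a y))^[j] x) := by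
  induction k generalizing x with
  | zero => rfl
  | succ k ih =>
      have h1 : V.asum hT κ (fw (k + 1)) x = κ x + V.asum hT κ (fw k) (V.b (V.a x)) := by
        show (if Gen.a = .a then κ x else 0) + ((if Gen.b = .a then κ (V.a x) else 0) +
          V.asum hT κ (fw k) (V.b (V.a x))) = _
        rw [if_pos rfl, if_neg (by decide), zero_add]
      rw [h1, ih, Finset.sum_range_succ']
      rw [add_comm]
      rfl

section facesum

variable (V)

/-- Going once around the face. -/
def null_rot (y : Φ) : Φ := V.b (V.a y)

theorem null_rot_inj : Function.Injective V.null_rot := by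
  intro y z h
  have h1 : V.b (V.b (V.a y)) = V.b (V.b (V.a z)) := congrArg V.b h
  rw [V.bb, V.bb] at h1
  have h2 : V.a (V.a y) = V.a (V.a z) := congrArg V.a h1
  rwa [V.aa, V.aa] at h2

theorem null_iter_sg (j : ℕ) (x : Φ) : V.sg (V.null_rot^[j] x) = V.sg x := by
  induction j generalizing x with
  | zero => rfl
  | succ j ih =>
      rw [Function.iterate_succ_apply, ih]
      show V.sg (V.b (V.a x)) = V.sg x
      rw [V.sgb, V.sga, add_assoc, null_F2_add_self, add_zero]

theorem null_iter_sd (j : ℕ) (x : Φ) : V.sd (V.null_rot^[j] x) = V.sd x := by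
  induction j generalizing x with
  | zero => rfl
  | succ j ih =>
      rw [Function.iterate_succ_apply, ih]
      show V.sd (V.b (V.a x)) = V.sd x
      rw [V.sdb, V.sda]

/-- The two exponents as booleans: apply `a` and `c`. -/
def null_tau (s t : Bool) (y : Φ) : Φ := (if t then V.c else id) ((if s then V.a else id) y)

theorem null_tau_inj (s t : Bool) : Function.Injective (V.null_tau s t) := by
  have ha : Function.Injective V.a := fun y z h => by
    have := congrArg V.a h
    rwa [V.aa, V.aa] at this
  have hc : Function.Injective V.c := fun y z h => by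
    have := congrArg V.c h
    rwa [V.cc, V.cc] at this
  intro y z h
  unfold null_tau at h
  cases s <;> cases t <;> simp only [Bool.false_eq_true, if_true, if_false, id] at h
  · exact h
  · exact hc h
  · exact ha h
  · exact ha (hc h)

/-- All flags of the face are of this form. -/
theorem null_face_form {x : Φ} {k : ℕ} (hk : V.FaceSize x k) {y : Φ}
    (hy : SameOrb [V.a, V.b, V.c] x y) :
    ∃ j < k, ∃ s t : Bool, y = V.null_tau s t (V.null_rot^[j] x) := by
  obtain ⟨hk0, hk1, -⟩ := hk
  have hk1' : V.null_rot^[k] x = x := hk1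
  have key : ∀ y z : Φ, SameOrb [V.a, V.b, V.c] y z →
      ((∃ j < k, ∃ s t : Bool, y = V.null_tau s t (V.null_rot^[j] x)) ↔
        ∃ j < k, ∃ s t : Bool, z = V.null_tau s t (V.null_rot^[j] x)) := by
    have cl : ∀ f ∈ [V.a, V.b, V.c], ∀ y : Φ,
        (∃ j < k, ∃ s t : Bool, y = V.null_tau s t (V.null_rot^[j] x)) →
        ∃ j < k, ∃ s t : Bool, f y = V.null_tau s t (V.null_rot^[j] x) := by
      intro f hf y hy
      obtain ⟨j, hj, s, t, rfl⟩ := hy
      have hf' : f = V.a ∨ f = V.b ∨ f = V.c := by simpa using hf
      rcases hf' with rfl | rfl | rfl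
      · refine ⟨j, hj, !s, t, ?_⟩
        unfold null_tau
        cases s <;> cases t <;>
          simp only [Bool.not_true, Bool.not_false, Bool.false_eq_true, if_true, if_false, id,
            V.ac, V.aa]
      · cases s with
        | true =>
            -- `b (a y)` is the next one
            have e1 : V.b (V.null_tau true t (V.null_rot^[j] x)) =
                V.null_tau false t (V.null_rot^[j + 1] x) := by
              rw [Function.iterate_succ_apply']
              unfold null_tau null_rot
              cases t <;> simp only [Bool.false_eq_true, if_true, if_false, id, V.bc]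
            rcases Nat.lt_or_ge (j + 1) k with h1 | h1
            · exact ⟨j + 1, h1, false, t, e1⟩
            · have h2 : j + 1 = k := by omega
              refine ⟨0, hk0, false, t, ?_⟩
              rw [e1, h2, hk1']
              rfl
        | false =>
            rcases Nat.eq_zero_or_pos j with h1 | h1
            · subst h1
              refine ⟨k - 1, by omega, true, t, ?_⟩
              have e2 : x = V.b (V.a (V.null_rot^[k - 1] x)) := by
                have : V.null_rot^[(k - 1) + 1] x = x := by
                  rw [Nat.sub_add_cancel hk0]; exact hk1'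
                rw [Function.iterate_succ_apply'] at this
                exact this.symm
              have e3 : V.b x = V.a (V.null_rot^[k - 1] x) := by
                conv_lhs => rw [e2]
                rw [V.bb]
              unfold null_tau
              rw [Function.iterate_zero, id]
              cases t
              · simp only [Bool.false_eq_true, if_true, if_false, id]
                exact e3
              · simp only [Bool.false_eq_true, if_true, if_false, id, V.bc]
                rw [e3]
            · refine ⟨j - 1, by omega, true, t, ?_⟩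
              have e2 : V.null_rot^[j] x = V.b (V.a (V.null_rot^[j - 1] x)) := by
                conv_lhs => rw [← Nat.sub_add_cancel h1]
                rw [Function.iterate_succ_apply']
                rfl
              have e3 : V.b (V.null_rot^[j] x) = V.a (V.null_rot^[j - 1] x) := by
                rw [e2, V.bb]
              unfold null_tau
              cases t
              · simp only [Bool.false_eq_true, if_true, if_false, id]
                exact e3
              · simp only [Bool.false_eq_true, if_true, if_false, id, V.bc]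
                rw [e3]
      · refine ⟨j, hj, s, !t, ?_⟩
        unfold null_tau
        cases s <;> cases t <;>
          simp only [Bool.not_true, Bool.not_false, Bool.false_eq_true, if_true, if_false, id,
            V.cc]
    have inv : ∀ f ∈ [V.a, V.b, V.c], ∀ y : Φ, f (f y) = y := by
      intro f hf y
      have hf' : f = V.a ∨ f = V.b ∨ f = V.c := by simpa using hf
      rcases hf' with rfl | rfl | rfl
      · exact V.aa y
      · exact V.bb y
      · exact V.cc y
    intro y z hyz
    induction hyz with
    | rel y z h =>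
        obtain ⟨f, hf, rfl⟩ := h
        constructor
        · exact cl f hf y
        · intro h
          have := cl f hf _ h
          rwa [inv f hf y] at this
    | refl y => exact Iff.rfl
    | symm y z _ ih => exact ih.symm
    | trans y z w _ _ ih1 ih2 => exact ih1.trans ih2
  refine (key x y hy).1 ⟨0, hk0, false, false, ?_⟩
  rfl

theorem null_sameOrb_iter (x : Φ) (j : ℕ) : SameOrb [V.a, V.b, V.c] x (V.null_rot^[j] x) := by
  induction j with
  | zero => exact Relation.EqvGen.refl _
  | succ j ih =>
      rw [Function.iterate_succ_apply']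
      refine Relation.EqvGen.trans _ _ _ ih (Relation.EqvGen.trans _ _ _
        (Relation.EqvGen.rel _ _ ⟨V.a, by simp, rfl⟩)
        (Relation.EqvGen.rel _ _ ⟨V.b, by simp, rfl⟩))

theorem null_sameOrb_tau (s t : Bool) (x : Φ) : SameOrb [V.a, V.b, V.c] x (V.null_tau s t x) := by
  have h1 : SameOrb [V.a, V.b, V.c] x ((if s then V.a else id) x) := by
    cases s
    · exact Relation.EqvGen.refl _
    · exact Relation.EqvGen.rel _ _ ⟨V.a, by simp, rfl⟩
  refine Relation.EqvGen.trans _ _ _ h1 ?_
  unfold null_tau
  cases t
  · exact Relation.EqvGen.refl _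
  · exact Relation.EqvGen.rel _ _ ⟨V.c, by simp, rfl⟩

theorem null_sg_tau (s t : Bool) (x : Φ) :
    V.sg (V.null_tau s t x) = V.sg x + (if s then 1 else 0) + (if t then 1 else 0) := by
  unfold null_tau
  cases s <;> cases t <;>
    simp only [Bool.false_eq_true, if_true, if_false, id, V.sgc, V.sga, add_zero]

theorem null_sd_tau (s t : Bool) (x : Φ) :
    V.sd (V.null_tau s t x) = V.sd x + (if t then 1 else 0) := by
  unfold null_tau
  cases s <;> cases t <;>
    simp only [Bool.false_eq_true, if_true, if_false, id, V.sdc, V.sda, add_zero]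

theorem null_exists_tau (x : Φ) : ∃ s t : Bool, ∀ s' t' : Bool, ∀ y : Φ, V.sg y = V.sg x →
    V.sd y = V.sd x →
    ((V.sg (V.null_tau s' t' y) = 1 ∧ V.sd (V.null_tau s' t' y) = 1) ↔ s' = s ∧ t' = t) := by
  have h01 : ∀ z : F2, z = 0 ∨ z = 1 := by decide
  have key : ∀ p q : F2, ∃ s t : Bool, ∀ s' t' : Bool,
      ((p + (if s' then 1 else 0) + (if t' then 1 else 0) = 1 ∧ q + (if t' then 1 else 0) = 1) ↔
        s' = s ∧ t' = t) := by decide
  obtain ⟨s, t, h⟩ := key (V.sg x) (V.sd x)
  refine ⟨s, t, fun s' t' y h1 h2 => ?_⟩
  rw [null_sg_tau, null_sd_tau, h1, h2]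
  exact h s' t'

open Classical in
/-- The sum over the boundary of a face as a sum over flags. -/
theorem null_face_sum [Fintype Φ] {x : Φ} {k : ℕ} (hk : V.FaceSize x k) (κ : Φ → F2)
    (ka : ∀ y, κ (V.a y) = κ y) (kc : ∀ y, κ (V.c y) = κ y) :
    ∑ j ∈ Finset.range k, κ (V.null_rot^[j] x) =
      ∑ y ∈ Finset.univ.filter (fun y => V.sg y = 1 ∧ V.sd y = 1),
        κ y * (if SameOrb [V.a, V.b, V.c] x y then 1 else 0) := by
  obtain ⟨s, t, hst⟩ := V.null_exists_tau x
  have ktau : ∀ y, κ (V.null_tau s t y) = κ y := by
    intro y
    unfold null_tau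
    cases s <;> cases t <;> simp only [Bool.false_eq_true, if_true, if_false, id, ka, kc]
  have hstep : ∑ y ∈ Finset.univ.filter (fun y => V.sg y = 1 ∧ V.sd y = 1),
        κ y * (if SameOrb [V.a, V.b, V.c] x y then 1 else 0) =
      ∑ y ∈ Finset.univ.filter (fun y => (V.sg y = 1 ∧ V.sd y = 1) ∧
        SameOrb [V.a, V.b, V.c] x y), κ y := by
    rw [Finset.sum_filter, Finset.sum_filter]
    refine Finset.sum_congr rfl fun y _ => ?_
    by_cases h1 : V.sg y = 1 ∧ V.sd y = 1
    · by_cases h2 : SameOrb [V.a, V.b, V.c] x y
      · rw [if_pos h1, if_pos h2, if_pos ⟨h1, h2⟩, mul_one]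
      · rw [if_pos h1, if_neg h2, if_neg (fun h => h2 h.2), mul_zero]
    · rw [if_neg h1, if_neg (fun h => h1 h.1)]
  rw [hstep]
  refine Finset.sum_nbij (fun j => V.null_tau s t (V.null_rot^[j] x)) ?_ ?_ ?_ ?_
  · intro j _
    rw [Finset.mem_filter]
    refine ⟨Finset.mem_univ _, ?_, ?_⟩
    · exact (hst s t _ (V.null_iter_sg j x) (V.null_iter_sd j x)).2 ⟨rfl, rfl⟩
    · exact Relation.EqvGen.trans _ _ _ (V.null_sameOrb_iter x j) (V.null_sameOrb_tau s t _)
  · intro i hi j hj hij
    have h1 := V.null_tau_inj s t hij
    rw [Finset.mem_coe, Finset.mem_range] at hi hj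
    have hmin := hk.2.2
    -- the iterates are distinct
    have main : ∀ i j : ℕ, i < j → j < k → V.null_rot^[i] x ≠ V.null_rot^[j] x := by
      intro i j hij hjk h
      have h2 : V.null_rot^[i] x = V.null_rot^[i] (V.null_rot^[j - i] x) := by
        rw [← Function.iterate_add_apply, Nat.add_sub_cancel' hij.le]
        exact h
      have h3 := (V.null_rot_inj.iterate i) h2
      exact hmin (j - i) (by omega) (by omega) h3.symm
    rcases lt_trichotomy i j with h2 | h2 | h2
    · exact absurd h1 (main i j h2 hj)
    · exact h2
    · exact absurd h1.symm (main j i h2 hi)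
  · intro y hy
    rw [Finset.mem_coe, Finset.mem_filter] at hy
    obtain ⟨j, hj, s', t', rfl⟩ := V.null_face_form hk hy.2.2
    have h1 := (hst s' t' _ (V.null_iter_sg j x) (V.null_iter_sd j x)).1 hy.2.1
    obtain ⟨rfl, rfl⟩ := h1
    exact ⟨j, by simpa using hj, rfl⟩
  · intro j _
    exact (ktau _).symm

end facesum

/-- A null-homotopic walk is the boundary of a chain. -/
theorem Null.chain [Fintype Φ] {x : Φ} {w : List Gen} {S : Finset Φ} {N : ℕ}
    (h : V.Null hT x w S N) :
    ∃ z : Φ → F2, z ∈ Inv [V.a, V.b, V.c] ∧ (∀ y, ¬ T y → z y = 0) ∧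
      ∀ κ ∈ Inv [V.a, V.c, V.d], V.asum hT κ w x =
        ∑ y ∈ Finset.univ.filter (fun y => V.sg y = 1 ∧ V.sd y = 1), κ y * z y := by
  classical
  have kinv : ∀ κ ∈ Inv [V.a, V.c, V.d], (∀ y, κ (V.a y) = κ y) ∧ (∀ y, κ (V.c y) = κ y) ∧
      ∀ y, κ (V.d y) = κ y := by
    intro κ hκ
    exact ⟨hκ V.a (by simp), hκ V.c (by simp), hκ V.d (by simp)⟩
  have zero_case : ∀ (x : Φ) (w : List Gen),
      (∀ κ ∈ Inv [V.a, V.c, V.d], V.asum hT κ w x = 0) →
      ∃ z : Φ → F2, z ∈ Inv [V.a, V.b, V.c] ∧ (∀ y, ¬ T y → z y = 0) ∧
      ∀ κ ∈ Inv [V.a, V.c, V.d], V.asum hT κ w x =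
        ∑ y ∈ Finset.univ.filter (fun y => V.sg y = 1 ∧ V.sd y = 1), κ y * z y := by
    intro x w h
    refine ⟨0, Submodule.zero_mem _, fun _ _ => rfl, fun κ hκ => ?_⟩
    rw [h κ hκ]
    simp
  induction h with
  | nil x hx => exact zero_case x [] fun κ _ => rfl
  | vert x hx w hw hc => exact zero_case x w fun κ _ => null_asum_vert κ hw x
  | back x hx =>
      refine zero_case x _ fun κ hκ => ?_
      show (if Gen.a = .a then κ x else 0) + ((if Gen.a = .a then κ (V.a x) else 0) + 0) = 0
      rw [if_pos rfl, if_pos rfl, (kinv κ hκ).1, add_zero, null_F2_add_self]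
  | comm x hx g hg =>
      refine zero_case x _ fun κ hκ => ?_
      obtain ⟨ka, kc, kd⟩ := kinv κ hκ
      have hga : g ≠ .a := by rcases hg with rfl | rfl <;> decide
      have hax : T (V.a x) := (hT.a x).2 hx
      have h1 : κ (V.gen hT g (V.a x)) = κ x := by
        rcases hg with rfl | rfl
        · show κ (V.c (V.a x)) = κ x
          rw [kc, ka]
        · show κ ((V.fr hT).ret (V.a x)) = κ x
          rw [(V.fr hT).ret_inv kd (fun ω _ => kc ω) hax, ka]
      show (if Gen.a = .a then κ x else 0) + ((if g = .a then κ (V.a x) else 0) +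
        ((if Gen.a = .a then κ (V.gen hT g (V.a x)) else 0) +
          ((if g = .a then κ (V.a (V.gen hT g (V.a x))) else 0) + 0))) = 0
      rw [if_pos rfl, if_neg hga, if_pos rfl, if_neg hga, h1, zero_add, add_zero, add_zero,
        null_F2_add_self]
  | face x hx k hk =>
      refine ⟨fun y => if SameOrb [V.a, V.b, V.c] x y then 1 else 0, ?_, ?_, ?_⟩
      · intro f hf y
        have h1 : SameOrb [V.a, V.b, V.c] x (f y) ↔ SameOrb [V.a, V.b, V.c] x y := by
          constructor
          · intro h
            exact Relation.EqvGen.trans _ _ _ h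
              (Relation.EqvGen.symm _ _ (Relation.EqvGen.rel _ _ ⟨f, hf, rfl⟩))
          · intro h
            exact Relation.EqvGen.trans _ _ _ h (Relation.EqvGen.rel _ _ ⟨f, hf, rfl⟩)
        show (if SameOrb [V.a, V.b, V.c] x (f y) then (1 : F2) else 0) =
          if SameOrb [V.a, V.b, V.c] x y then 1 else 0
        simp only [h1]
      · intro y hy
        have h1 : ∀ z z' : Φ, SameOrb [V.a, V.b, V.c] z z' → (T z ↔ T z') := by
          intro z z' h
          induction h with
          | rel z z' h =>
              obtain ⟨f, hf, rfl⟩ := h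
              have hf' : f = V.a ∨ f = V.b ∨ f = V.c := by simpa using hf
              rcases hf' with rfl | rfl | rfl
              · exact (hT.a z).symm
              · exact (hT.b z).symm
              · exact (hT.c z).symm
          | refl z => exact Iff.rfl
          | symm z z' _ ih => exact ih.symm
          | trans z z' z'' _ _ ih1 ih2 => exact ih1.trans ih2
        show (if SameOrb [V.a, V.b, V.c] x y then (1 : F2) else 0) = 0
        rw [if_neg]
        exact fun h => hy ((h1 x y h).1 hx)
      · intro κ hκ
        obtain ⟨ka, kc, kd⟩ := kinv κ hκ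
        rw [null_asum_fw]
        exact V.null_face_sum hk κ ka kc
  | @ins x u v r S S' N N' h h' ih ih' =>
      obtain ⟨z1, a1, b1, c1⟩ := ih
      obtain ⟨z2, a2, b2, c2⟩ := ih'
      refine ⟨z1 + z2, Submodule.add_mem _ a1 a2, fun y hy => ?_, fun κ hκ => ?_⟩
      · show z1 y + z2 y = 0
        rw [b1 y hy, b2 y hy, add_zero]
      · have e1 := c1 κ hκ
        have e2 := c2 κ hκ
        rw [asum_append] at e1
        rw [asum_append, asum_append, h'.closed]
        have e3 : ∑ y ∈ Finset.univ.filter (fun y => V.sg y = 1 ∧ V.sd y = 1),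
            κ y * (z1 + z2) y =
            ∑ y ∈ Finset.univ.filter (fun y => V.sg y = 1 ∧ V.sd y = 1), κ y * z1 y +
            ∑ y ∈ Finset.univ.filter (fun y => V.sg y = 1 ∧ V.sd y = 1), κ y * z2 y := by
          rw [← Finset.sum_add_distrib]
          exact Finset.sum_congr rfl fun y _ => mul_add _ _ _
        rw [e3, ← e1, ← e2]
        ring
  | @del x u v r S S' N N' h h' ih ih' =>
      obtain ⟨z1, a1, b1, c1⟩ := ih
      obtain ⟨z2, a2, b2, c2⟩ := ih'
      refine ⟨z1 + z2, Submodule.add_mem _ a1 a2, fun y hy => ?_, fun κ hκ => ?_⟩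
      · show z1 y + z2 y = 0
        rw [b1 y hy, b2 y hy, add_zero]
      · have e1 := c1 κ hκ
        have e2 := c2 κ hκ
        rw [asum_append, asum_append, h'.closed] at e1
        rw [asum_append]
        have e3 : ∑ y ∈ Finset.univ.filter (fun y => V.sg y = 1 ∧ V.sd y = 1),
            κ y * (z1 + z2) y =
            ∑ y ∈ Finset.univ.filter (fun y => V.sg y = 1 ∧ V.sd y = 1), κ y * z1 y +
            ∑ y ∈ Finset.univ.filter (fun y => V.sg y = 1 ∧ V.sd y = 1), κ y * z2 y := by
          rw [← Finset.sum_add_distrib]
          exact Finset.sum_congr rfl fun y _ => mul_add _ _ _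
        rw [e3, ← e1, ← e2]
        have e4 := null_F2_add_self (V.asum hT κ r (V.act hT u x))
        linear_combination (-1 : F2) * e4

/-! ### The boundary of the special face -/

variable (V) in
/-- The face of `h`. -/
def OnFace (h x : Φ) : Prop := SameOrb [V.a, V.b, V.c] h x

variable (V hT) in
/-- `Shadow χ y w χ' y' m`: the walk `w` from `y` to `y'` runs parallel to `m` edges of the
boundary of a face, from `χ` to `χ'`. -/
inductive Shadow : Φ → Φ → List Gen → Φ → Φ → ℕ → Prop
  | nil (χ y : Φ) (h : V.CD χ y) : Shadow χ y [] χ y 0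
  | step (χ y : Φ) (h : V.CD χ y) (u w : List Gen) (χ' y' : Φ) (m : ℕ) (hu : Gen.a ∉ u)
      (h' : Shadow (V.b (V.a χ)) (V.act hT u (V.a y)) w χ' y' m) :
      Shadow χ y (.a :: (u ++ w)) χ' y' (m + 1)

variable (V) in
/-- The certificate: the boundary of the face of `h` is null-homotopic in the complement of this
face, by a homotopy which visits all faces. -/
structure Cert (h : Φ) (B N : ℕ) : Prop where
  ex : ∃ (hT : V.IsSub fun x => ¬ V.OnFace h x) (y : Φ) (w : List Gen) (S : Finset Φ) (m : ℕ),
    V.FaceSize h m ∧ V.Shadow hT h y w h y m ∧ V.Null hT y w S N ∧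
      ∀ x, ¬ V.OnFace h x → ∃ z ∈ S, V.OnFace z x
  size : ∀ x, ∃ k, k ≤ B ∧ V.FaceSize x k

end TMap

end Pool.Agent.Lib.MP_131179_gt.Dehn
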