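import Pool.Agent.Lib.MP_131179_gt.Dehn.TMap
import Pool.Agent.Lib.MP_131179_gt.Dehn.FirstReturn

/-!
# Operations on two-dimensional complexes

Subcomplexes (unions of faces), double covers and parallel copies of faces.
-/

set_option autoImplicit false

namespace Pool.Agent.Lib.MP_131179_gt.Dehn

theorem ops_add_self (x : F2) : x + x = 0 := CharTwo.add_self_eq_zero x

theorem ops_eq_of_add {x y : F2} (h : x + y = 0) : y = x := by
  have h1 : x + (x + y) = x + 0 := by rw [h]
  rw [← add_assoc, ops_add_self, zero_add, add_zero] at h1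
  exact h1

/-- All return times are met by the iterates of the first return map. -/
theorem ops_ret_iter {Ω : Type} (F : FR Ω) (n : ℕ) : ∀ x : Ω, F.T x → 0 < n →
    F.T ((fun y => F.β (F.s y))^[n] x) →
    ∃ k, 0 < k ∧ (fun y => F.ret (F.s y))^[k] x = (fun y => F.β (F.s y))^[n] x := by
  classical
  induction n using Nat.strong_induction_on with
  | _ n ih =>
    intro x hx hn h
    have hs : F.T (F.s x) := (F.sT x).2 hx
    have hex : ∃ m, F.T (F.path (F.s x) m) := F.exists_ret hs
    have hpath : ∀ m, F.path (F.s x) m = (fun y => F.β (F.s y))^[m + 1] x := by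
      intro m
      rw [Function.iterate_succ_apply]
      rfl
    have hret : F.ret (F.s x) = (fun y => F.β (F.s y))^[Nat.find hex + 1] x := by
      unfold FR.ret
      rw [dif_pos hex, hpath]
    have hle : Nat.find hex ≤ n - 1 := by
      apply Nat.find_le
      rw [hpath, Nat.sub_add_cancel hn]
      exact h
    rcases Nat.lt_or_ge (Nat.find hex + 1) n with hlt | hge
    · obtain ⟨k, hk, hk2⟩ := ih (n - (Nat.find hex + 1)) (by omega) (F.ret (F.s x))
        (F.ret_T hs) (by omega) (by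
          rw [hret, ← Function.iterate_add_apply, Nat.sub_add_cancel hlt.le]; exact h)
      refine ⟨k + 1, by omega, ?_⟩
      rw [Function.iterate_succ_apply, hk2, hret, ← Function.iterate_add_apply,
        Nat.sub_add_cancel hlt.le]
    · refine ⟨1, one_pos, ?_⟩
      have : Nat.find hex + 1 = n := by omega
      rw [Function.iterate_one, hret, this]

namespace TMap

variable {Φ : Type} (V : TMap Φ)

/-! ### Unions of faces -/

/-- A union of faces. -/
structure IsSub (p : Φ → Prop) : Prop where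
  a : ∀ x, p (V.a x) ↔ p x
  b : ∀ x, p (V.b x) ↔ p x
  c : ∀ x, p (V.c x) ↔ p x

/-- The first return map to a union of faces. -/
def fr {p : Φ → Prop} (hp : V.IsSub p) : FR Φ where
  β := V.d
  s := V.c
  T := p
  ββ := V.dd
  ss := V.cc
  sT := hp.c
  per := V.per

theorem ops_fr_extend {p : Φ → Prop} (hp : V.IsSub p) {α : Type} (z : α) {D : {x // p x} → α}
    (hD : ∀ x : {x // p x}, D ⟨(V.fr hp).ret x.1, (V.fr hp).ret_T x.2⟩ = D x) :
    ∃ D' : Φ → α, (∀ x, D' (V.d x) = D' x) ∧ (∀ x, ¬ p x → D' (V.c x) = D' x) ∧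
      ∀ x : {x // p x}, D' x.1 = D x := by
  classical
  obtain ⟨D', h1, h2, h3, -⟩ := (V.fr hp).extend z (fun x => if h : p x then D ⟨x, h⟩ else z)
    (by
      intro x hx
      have hx' : p x := hx
      have hr : p ((V.fr hp).ret x) := (V.fr hp).ret_T hx
      simp only [dif_pos hx', dif_pos hr]
      exact hD ⟨x, hx'⟩)
  refine ⟨D', h1, h2, ?_⟩
  rintro ⟨x, hx⟩
  rw [h3 x hx, dif_pos hx]

theorem ops_fr_CD {p : Φ → Prop} (hp : V.IsSub p) {α : Type} {D : {x // p x} → α}
    (hD : ∀ x : {x // p x}, D ⟨(V.fr hp).ret x.1, (V.fr hp).ret_T x.2⟩ = D x)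
    (hc : ∀ x : {x // p x}, D ⟨V.c x.1, (hp.c x.1).2 x.2⟩ = D x)
    {x y : {x // p x}} (h : V.CD x.1 y.1) : D x = D y := by
  obtain ⟨D', h1, h2, h3⟩ := V.ops_fr_extend hp (D x) hD
  have h4 : ∀ z, D' (V.c z) = D' z := by
    intro z
    by_cases hz : p z
    · have e1 := h3 ⟨z, hz⟩
      have e2 := h3 ⟨V.c z, (hp.c z).2 hz⟩
      have e3 := hc ⟨z, hz⟩
      simp only at e1 e2 e3
      rw [e1, e2, e3]
    · exact h2 z hz
  have h5 : ∀ u v, V.CD u v → D' u = D' v := by
    intro u v huv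
    induction huv with
    | rel u v hr =>
      obtain ⟨f, hf, rfl⟩ := hr
      simp only [List.mem_cons, List.not_mem_nil, or_false] at hf
      rcases hf with rfl | rfl
      · exact (h4 u).symm
      · exact (h1 u).symm
    | refl u => rfl
    | symm u v _ ih => exact ih.symm
    | trans u v w _ _ ih1 ih2 => exact ih1.trans ih2
  rw [← h3 x, ← h3 y]
  exact h5 _ _ h

/-- The subcomplex. -/
noncomputable def sub {p : Φ → Prop} (hp : V.IsSub p) : TMap {x // p x} where
  a := fun x => ⟨V.a x.1, (hp.a x.1).2 x.2⟩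
  b := fun x => ⟨V.b x.1, (hp.b x.1).2 x.2⟩
  c := fun x => ⟨V.c x.1, (hp.c x.1).2 x.2⟩
  d := fun x => ⟨(V.fr hp).ret x.1, (V.fr hp).ret_T x.2⟩
  sg := fun x => V.sg x.1
  en := fun x => V.en x.1
  sd := fun x => V.sd x.1
  aa := fun x => Subtype.ext (V.aa x.1)
  bb := fun x => Subtype.ext (V.bb x.1)
  cc := fun x => Subtype.ext (V.cc x.1)
  dd := fun x => Subtype.ext ((V.fr hp).ret_ret x.2)
  ac := fun x => Subtype.ext (V.ac x.1)
  ad := fun x => by
    apply Subtype.ext
    exact ((V.fr hp).ret_comm (a := V.a) hp.a V.ad (fun ω _ => V.ac ω) x.2).symm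
  bc := fun x => Subtype.ext (V.bc x.1)
  sga := fun x => V.sga x.1
  sgb := fun x => V.sgb x.1
  sgc := fun x => V.sgc x.1
  sgd := fun x => (V.fr hp).ret_sign V.sgd (fun ω _ => V.sgc ω) x.2
  ena := fun x => V.ena x.1
  enc := fun x => V.enc x.1
  end' := fun x => (V.fr hp).ret_inv V.end' (fun ω _ => V.enc ω) x.2
  sda := fun x => V.sda x.1
  sdb := fun x => V.sdb x.1
  sdc := fun x => V.sdc x.1
  per := by
    intro x
    obtain ⟨n, hn, h⟩ := V.per x.1
    obtain ⟨k, hk, hk2⟩ := ops_ret_iter (V.fr hp) n x.1 x.2 hn (by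
      show p ((fun y => V.d (V.c y))^[n] x.1)
      rw [h]; exact x.2)
    refine ⟨k, hk, ?_⟩
    have key : ∀ (k : ℕ) (x : {x // p x}), ((fun y : {x // p x} =>
        (⟨(V.fr hp).ret (V.c y.1), (V.fr hp).ret_T ((hp.c y.1).2 y.2)⟩ : {x // p x}))^[k] x).1 =
        (fun y => (V.fr hp).ret ((V.fr hp).s y))^[k] x.1 := by
      intro k
      induction k with
      | zero => intro x; rfl
      | succ k ih =>
        intro x
        rw [Function.iterate_succ_apply, Function.iterate_succ_apply, ih]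
        rfl
    apply Subtype.ext
    refine (key k x).trans ?_
    rw [hk2]
    exact h
  planar := by
    classical
    intro g D hgb hgc hDd hDg
    obtain ⟨D', h1, h2, h3⟩ := V.ops_fr_extend hp (0 : F2) (D := D) hDd
    obtain ⟨G, k1, k2, k3⟩ := V.planar (fun x => if h : p x then g ⟨x, h⟩ else 0) D'
      (by
        intro x
        by_cases hx : p x
        · have hb : p (V.b x) := (hp.b x).2 hx
          simp only [dif_pos hx, dif_pos hb]
          exact hgb ⟨x, hx⟩
        · have hb : ¬ p (V.b x) := fun h => hx ((hp.b x).1 h)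
          simp only [dif_neg hx, dif_neg hb])
      (by
        intro x
        by_cases hx : p x
        · have hb : p (V.c x) := (hp.c x).2 hx
          simp only [dif_pos hx, dif_pos hb]
          exact hgc ⟨x, hx⟩
        · have hb : ¬ p (V.c x) := fun h => hx ((hp.c x).1 h)
          simp only [dif_neg hx, dif_neg hb])
      h1
      (by
        intro x
        by_cases hx : p x
        · have hb : p (V.c x) := (hp.c x).2 hx
          simp only [dif_pos hx]
          rw [h3 ⟨x, hx⟩, h3 ⟨V.c x, hb⟩]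
          exact hDg ⟨x, hx⟩
        · simp only [dif_neg hx]
          rw [h2 x hx, ops_add_self])
    refine ⟨fun x => G x.1, fun x => k1 x.1, ?_, ?_⟩
    · intro x
      refine (V.fr hp).ret_inv (f := G) k2 ?_ x.2
      intro ω hω
      have hω' : ¬ p ω := hω
      have := k3 ω
      simp only [dif_neg hω'] at this
      exact ops_eq_of_add this
    · intro x
      have := k3 x.1
      simp only [dif_pos x.2] at this
      exact this

/-- Functions on the gaps of a subcomplex extend to the whole complex. -/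
theorem sub_extend {p : Φ → Prop} (hp : V.IsSub p) {D : {x // p x} → F2}
    (hD : ∀ x, D ((V.sub hp).d x) = D x) :
    ∃ D' : Φ → F2, (∀ x, D' (V.d x) = D' x) ∧ (∀ x, ¬ p x → D' (V.c x) = D' x) ∧
      ∀ x, D' x.1 = D x := V.ops_fr_extend hp (0 : F2) (D := D) hD

/-- Conversely, functions on the gaps which do not change outside of the subcomplex restrict. -/
theorem sub_restrict {p : Φ → Prop} (hp : V.IsSub p) {D : Φ → F2} (hd : ∀ x, D (V.d x) = D x)
    (hc : ∀ x, ¬ p x → D (V.c x) = D x) (x : {x // p x}) : D ((V.sub hp).d x).1 = D x.1 :=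
  (V.fr hp).ret_inv (f := D) hd hc x.2

/-- The first return stays at the same end of the edge. -/
theorem ops_ret_CD {p : Φ → Prop} (hp : V.IsSub p) {x : Φ} (hx : p x) :
    V.CD x ((V.fr hp).ret x) :=
  (V.fr hp).ret_rel (R := V.CD) (CD.refl V) (fun _ ω' h => h.trans (CD.d V ω'))
    (fun _ ω' _ h => h.trans (CD.c V ω')) hx

/-- The same for functions with values in any set. -/
theorem sub_CD {p : Φ → Prop} (hp : V.IsSub p) {x y : {x // p x}} :
    (V.sub hp).CD x y ↔ V.CD x.1 y.1 := by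
  constructor
  · intro h
    induction h with
    | rel u v hr =>
      obtain ⟨f, hf, rfl⟩ := hr
      simp only [List.mem_cons, List.not_mem_nil, or_false] at hf
      rcases hf with rfl | rfl
      · exact CD.c V u.1
      · exact V.ops_ret_CD hp u.2
    | refl u => exact CD.refl V _
    | symm u v _ ih => exact ih.symm
    | trans u v w _ _ ih1 ih2 => exact ih1.trans ih2
  · intro h
    have := V.ops_fr_CD hp (D := fun z => (V.sub hp).CD x z)
      (fun z => propext ⟨fun hz => hz.trans (CD.symm (CD.d (V.sub hp) z)),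
        fun hz => hz.trans (CD.d (V.sub hp) z)⟩)
      (fun z => propext ⟨fun hz => hz.trans (CD.symm (CD.c (V.sub hp) z)),
        fun hz => hz.trans (CD.c (V.sub hp) z)⟩) h
    exact this ▸ CD.refl (V.sub hp) x

/-- If the neighbouring face belongs to the subcomplex, `d` does not change. -/
theorem sub_d_eq {p : Φ → Prop} (hp : V.IsSub p) (x : {x // p x}) (h : p (V.d x.1)) :
    ((V.sub hp).d x).1 = V.d x.1 := (V.fr hp).ret_of_T h

/-! ### Double covers -/

/-- The double cover given by a function on the set of edges. -/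
def cover (κ : Φ → F2) (ha : ∀ x, κ (V.a x) = κ x) (hc : ∀ x, κ (V.c x) = κ x)
    (hd : ∀ x, κ (V.d x) = κ x) : TMap (Φ × F2) where
  a := fun x => (V.a x.1, x.2 + κ x.1)
  b := fun x => (V.b x.1, x.2)
  c := fun x => (V.c x.1, x.2)
  d := fun x => (V.d x.1, x.2)
  sg := fun x => V.sg x.1
  en := fun x => V.en x.1
  sd := fun x => V.sd x.1
  aa := fun x => by
    apply Prod.ext
    · exact V.aa x.1
    · show x.2 + κ x.1 + κ (V.a x.1) = x.2
      rw [ha, add_assoc, ops_add_self, add_zero]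
  bb := fun x => Prod.ext (V.bb x.1) rfl
  cc := fun x => Prod.ext (V.cc x.1) rfl
  dd := fun x => Prod.ext (V.dd x.1) rfl
  ac := fun x => by
    apply Prod.ext
    · exact V.ac x.1
    · show x.2 + κ (V.c x.1) = x.2 + κ x.1
      rw [hc]
  ad := fun x => by
    apply Prod.ext
    · exact V.ad x.1
    · show x.2 + κ (V.d x.1) = x.2 + κ x.1
      rw [hd]
  bc := fun x => Prod.ext (V.bc x.1) rfl
  sga := fun x => V.sga x.1
  sgb := fun x => V.sgb x.1
  sgc := fun x => V.sgc x.1
  sgd := fun x => V.sgd x.1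
  ena := fun x => V.ena x.1
  enc := fun x => V.enc x.1
  end' := fun x => V.end' x.1
  sda := fun x => V.sda x.1
  sdb := fun x => V.sdb x.1
  sdc := fun x => V.sdc x.1
  per := by
    intro x
    obtain ⟨n, hn, h⟩ := V.per x.1
    refine ⟨n, hn, ?_⟩
    have key : ∀ (k : ℕ) (x : Φ × F2), (fun y : Φ × F2 => (V.d (V.c y.1), y.2))^[k] x =
        ((fun y => V.d (V.c y))^[k] x.1, x.2) := by
      intro k
      induction k with
      | zero => intro x; rfl
      | succ k ih =>
        intro x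
        rw [Function.iterate_succ_apply, Function.iterate_succ_apply, ih]
    refine (key n x).trans ?_
    rw [h]
  planar := by
    intro g D hgb hgc hDd hDg
    have h : ∀ i : F2, ∃ G : Φ → F2, (∀ x, G (V.b x) = G x) ∧ (∀ x, G (V.d x) = G x) ∧
        ∀ x, G x + G (V.c x) = g (x, i) := fun i =>
      V.planar (fun x => g (x, i)) (fun x => D (x, i)) (fun x => hgb (x, i)) (fun x => hgc (x, i))
        (fun x => hDd (x, i)) (fun x => hDg (x, i))
    choose G h1 h2 h3 using h
    exact ⟨fun x => G x.2 x.1, fun x => h1 x.2 x.1, fun x => h2 x.2 x.1, fun x => h3 x.2 x.1⟩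

theorem cover_CD (κ : Φ → F2) (ha : ∀ x, κ (V.a x) = κ x) (hc : ∀ x, κ (V.c x) = κ x)
    (hd : ∀ x, κ (V.d x) = κ x) {x y : Φ × F2} :
    (V.cover κ ha hc hd).CD x y ↔ V.CD x.1 y.1 ∧ x.2 = y.2 := by
  constructor
  · intro h
    induction h with
    | rel u v hr =>
      obtain ⟨f, hf, rfl⟩ := hr
      simp only [List.mem_cons, List.not_mem_nil, or_false] at hf
      rcases hf with rfl | rfl
      · exact ⟨CD.c V u.1, rfl⟩
      · exact ⟨CD.d V u.1, rfl⟩
    | refl u => exact ⟨CD.refl V _, rfl⟩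
    | symm u v _ ih => exact ⟨ih.1.symm, ih.2.symm⟩
    | trans u v w _ _ ih1 ih2 => exact ⟨ih1.1.trans ih2.1, ih1.2.trans ih2.2⟩
  · rintro ⟨h, h2⟩
    have key : ∀ u v : Φ, V.CD u v → ∀ i : F2, (V.cover κ ha hc hd).CD (u, i) (v, i) := by
      intro u v huv i
      induction huv with
      | rel u v hr =>
        obtain ⟨f, hf, rfl⟩ := hr
        simp only [List.mem_cons, List.not_mem_nil, or_false] at hf
        rcases hf with rfl | rfl
        · exact CD.c (V.cover κ ha hc hd) (u, i)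
        · exact CD.d (V.cover κ ha hc hd) (u, i)
      | refl u => exact CD.refl _ _
      | symm u v _ ih => exact ih.symm
      | trans u v w _ _ ih1 ih2 => exact ih1.trans ih2
    have := key x.1 y.1 h x.2
    have e : (y.1, x.2) = y := Prod.ext rfl h2
    rw [e] at this
    exact this

end TMap

/-! ### Parallel copies of faces -/

/-- The flags of the parallel copies: `n x` copies of the face of `x`; the copy number `k`, counted from
the side of `x`. -/
def Fl {Φ : Type} (n : Φ → ℕ) : Type := {p : Φ × ℕ // p.2 < n p.1}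

instance {Φ : Type} [Finite Φ] (n : Φ → ℕ) : Finite (Fl n) := by
  apply Finite.of_injective (fun p : Fl n => (⟨p.1.1, ⟨p.1.2, p.2⟩⟩ : Σ x : Φ, Fin (n x)))
  rintro ⟨⟨x, k⟩, hk⟩ ⟨⟨y, l⟩, hl⟩ h
  simp only at h
  obtain ⟨h1, h2⟩ := Sigma.mk.inj h
  subst h1
  have h3 := eq_of_heq h2
  have h4 : k = l := congrArg Fin.val h3
  subst h4
  rfl

/-- The number of copies is a function on the set of faces (possibly zero). -/
structure TMap.Mul {Φ : Type} (V : TMap Φ) (n : Φ → ℕ) : Prop where
  a : ∀ x, n (V.a x) = n x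
  b : ∀ x, n (V.b x) = n x
  c : ∀ x, n (V.c x) = n x

namespace TMap

variable {Φ : Type} {V : TMap Φ} {n : Φ → ℕ}

theorem Mul.isSub (h : V.Mul n) : V.IsSub fun x => 0 < n x where
  a := fun x => by rw [h.a]
  b := fun x => by rw [h.b]
  c := fun x => by rw [h.c]

def Mul.fa (h : V.Mul n) (p : Fl n) : Fl n := ⟨(V.a p.1.1, p.1.2), by rw [h.a]; exact p.2⟩

def Mul.fb (h : V.Mul n) (p : Fl n) : Fl n := ⟨(V.b p.1.1, p.1.2), by rw [h.b]; exact p.2⟩

def Mul.fc (h : V.Mul n) (p : Fl n) : Fl n :=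
  ⟨(V.c p.1.1, n p.1.1 - 1 - p.1.2), by rw [h.c]; have := p.2; omega⟩

/-- Rotation around the edge. -/
noncomputable def Mul.fd (h : V.Mul n) (p : Fl n) : Fl n :=
  if hk : p.1.2 = 0 then
    ⟨((V.fr h.isSub).ret p.1.1, 0), (V.fr h.isSub).ret_T (lt_of_le_of_lt (Nat.zero_le _) p.2)⟩
  else ⟨(V.c p.1.1, n p.1.1 - p.1.2), by rw [h.c]; have := p.2; omega⟩

theorem ops_pos (p : Fl n) : 0 < n p.1.1 := lt_of_le_of_lt (Nat.zero_le _) p.2

theorem Mul.ops_fd_zero (h : V.Mul n) (p : Fl n) (hk : p.1.2 = 0) :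
    (h.fd p).1 = ((V.fr h.isSub).ret p.1.1, 0) := by
  unfold Mul.fd
  rw [dif_pos hk]

theorem Mul.ops_fd_pos (h : V.Mul n) (p : Fl n) (hk : p.1.2 ≠ 0) :
    (h.fd p).1 = (V.c p.1.1, n p.1.1 - p.1.2) := by
  unfold Mul.fd
  rw [dif_neg hk]

theorem Mul.ops_fc_fc (h : V.Mul n) (p : Fl n) : h.fc (h.fc p) = p := by
  apply Subtype.ext
  apply Prod.ext
  · exact V.cc p.1.1
  · show n (V.c p.1.1) - 1 - (n p.1.1 - 1 - p.1.2) = p.1.2
    rw [h.c]
    have := p.2
    omega

theorem Mul.ops_fd_fd (h : V.Mul n) (p : Fl n) : h.fd (h.fd p) = p := by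
  apply Subtype.ext
  have hp := p.2
  by_cases hk : p.1.2 = 0
  · have e := h.ops_fd_zero p hk
    have e2 : (h.fd p).1.2 = 0 := by rw [e]
    rw [h.ops_fd_zero _ e2, e]
    apply Prod.ext
    · exact (V.fr h.isSub).ret_ret (ops_pos p)
    · exact hk.symm
  · have e := h.ops_fd_pos p hk
    have e2 : (h.fd p).1.2 ≠ 0 := by
      rw [e]
      show n p.1.1 - p.1.2 ≠ 0
      omega
    rw [h.ops_fd_pos _ e2, e]
    apply Prod.ext
    · exact V.cc p.1.1
    · show n (V.c p.1.1) - (n p.1.1 - p.1.2) = p.1.2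
      rw [h.c]
      omega

theorem Mul.ops_fa_fd (h : V.Mul n) (p : Fl n) : h.fa (h.fd p) = h.fd (h.fa p) := by
  apply Subtype.ext
  have hp := p.2
  by_cases hk : p.1.2 = 0
  · have e := h.ops_fd_zero p hk
    have e2 : (h.fa p).1.2 = 0 := hk
    rw [h.ops_fd_zero _ e2]
    show (V.a (h.fd p).1.1, (h.fd p).1.2) = _
    rw [e]
    apply Prod.ext
    · exact ((V.fr h.isSub).ret_comm (a := V.a) h.isSub.a V.ad (fun ω _ => V.ac ω)
        (ops_pos p)).symm
    · rfl
  · have e := h.ops_fd_pos p hk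
    have e2 : (h.fa p).1.2 ≠ 0 := hk
    rw [h.ops_fd_pos _ e2]
    show (V.a (h.fd p).1.1, (h.fd p).1.2) = _
    rw [e]
    apply Prod.ext
    · exact V.ac p.1.1
    · show n p.1.1 - p.1.2 = n (V.a p.1.1) - p.1.2
      rw [h.a]

/-- One step around the edge. -/
noncomputable def Mul.opsU (h : V.Mul n) (p : Fl n) : Fl n := h.fd (h.fc p)

theorem Mul.opsU_lt (h : V.Mul n) {x : Φ} {k : ℕ} (hk : k < n x) (hk1 : k + 1 < n x) :
    h.opsU ⟨(x, k), hk⟩ = ⟨(x, k + 1), hk1⟩ := by
  apply Subtype.ext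
  have e2 : (h.fc ⟨(x, k), hk⟩).1.2 ≠ 0 := by
    show n x - 1 - k ≠ 0
    omega
  show (h.fd (h.fc ⟨(x, k), hk⟩)).1 = _
  rw [h.ops_fd_pos _ e2]
  apply Prod.ext
  · exact V.cc x
  · show n (V.c x) - (n x - 1 - k) = k + 1
    rw [h.c]
    omega

theorem Mul.opsU_last (h : V.Mul n) {x : Φ} {k : ℕ} (hk : k < n x) (hk1 : k + 1 = n x) :
    h.opsU ⟨(x, k), hk⟩ = ⟨((V.fr h.isSub).ret (V.c x), 0), (V.fr h.isSub).ret_T
      (show 0 < n (V.c x) by rw [h.c]; omega)⟩ := by
  apply Subtype.ext
  have e2 : (h.fc ⟨(x, k), hk⟩).1.2 = 0 := by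
    show n x - 1 - k = 0
    omega
  show (h.fd (h.fc ⟨(x, k), hk⟩)).1 = _
  rw [h.ops_fd_zero _ e2]
  rfl

theorem Mul.opsU_iter (h : V.Mul n) {x : Φ} (hx : 0 < n x) {k : ℕ} (hk : k < n x) :
    h.opsU^[k] ⟨(x, 0), hx⟩ = ⟨(x, k), hk⟩ := by
  induction k with
  | zero => rfl
  | succ k ih =>
    rw [Function.iterate_succ_apply', ih (by omega), h.opsU_lt]

theorem Mul.opsU_next (h : V.Mul n) {x : Φ} (hx : 0 < n x) :
    h.opsU^[n x] ⟨(x, 0), hx⟩ = ⟨((V.fr h.isSub).ret (V.c x), 0), (V.fr h.isSub).ret_T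
      (show 0 < n (V.c x) by rw [h.c]; exact hx)⟩ := by
  obtain ⟨m, hm⟩ : ∃ m, m + 1 = n x := ⟨n x - 1, by omega⟩
  have e : h.opsU^[m + 1] ⟨(x, 0), hx⟩ = ⟨((V.fr h.isSub).ret (V.c x), 0), (V.fr h.isSub).ret_T
      (show 0 < n (V.c x) by rw [h.c]; exact hx)⟩ := by
    rw [Function.iterate_succ_apply', h.opsU_iter hx (k := m) (by omega),
      h.opsU_last _ hm]
  exact (congrArg (fun k => h.opsU^[k] ⟨(x, 0), hx⟩) hm).symm.trans e

theorem Mul.opsU_sub (h : V.Mul n) (m : ℕ) (x : {x // 0 < n x}) :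
    ∃ M, m ≤ M ∧ h.opsU^[M] ⟨(x.1, 0), x.2⟩ =
      ⟨(((fun y => (V.sub h.isSub).d ((V.sub h.isSub).c y))^[m] x).1, 0),
        ((fun y => (V.sub h.isSub).d ((V.sub h.isSub).c y))^[m] x).2⟩ := by
  induction m generalizing x with
  | zero => exact ⟨0, le_refl _, rfl⟩
  | succ m ih =>
    obtain ⟨M, hM, hM2⟩ := ih ((V.sub h.isSub).d ((V.sub h.isSub).c x))
    refine ⟨M + n x.1, by have := x.2; omega, ?_⟩
    rw [Function.iterate_add_apply, h.opsU_next x.2]
    simp only [Function.iterate_succ_apply]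
    exact hM2

theorem Mul.ops_per (h : V.Mul n) (p : Fl n) : ∃ m, 0 < m ∧ (fun q => h.fd (h.fc q))^[m] p = p := by
  have hx : 0 < n p.1.1 := ops_pos p
  obtain ⟨m, hm, hm2⟩ := (V.sub h.isSub).per ⟨p.1.1, hx⟩
  obtain ⟨M, hM, hM2⟩ := h.opsU_sub m ⟨p.1.1, hx⟩
  refine ⟨M, by omega, ?_⟩
  have e : h.opsU^[M] ⟨(p.1.1, 0), hx⟩ = ⟨(p.1.1, 0), hx⟩ := by
    rw [hM2]
    apply Subtype.ext
    apply Prod.ext
    · exact congrArg Subtype.val hm2
    · rfl
  have e2 : h.opsU^[p.1.2] ⟨(p.1.1, 0), hx⟩ = p := by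
    exact h.opsU_iter hx p.2
  show h.opsU^[M] p = p
  rw [← e2, ← Function.iterate_add_apply, add_comm, Function.iterate_add_apply, e]

/-! Partial sums of a function over the first copies. -/

/-- Extension by zero. -/
def opsx (g : Fl n → F2) (x : Φ) (k : ℕ) : F2 := if h : k < n x then g ⟨(x, k), h⟩ else 0

/-- The sum over the first `k` copies. -/
def opsum (g : Fl n → F2) (x : Φ) (k : ℕ) : F2 := ∑ j ∈ Finset.range k, opsx g x j

theorem ops_refl (w : ℕ → F2) {N k : ℕ} (hk : k ≤ N) :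
    ∑ j ∈ Finset.range (N - k), w (N - 1 - j) + ∑ j ∈ Finset.range k, w j =
      ∑ j ∈ Finset.range N, w j := by
  have e1 : ∑ j ∈ Finset.range (N - k), w (N - 1 - j) =
      ∑ j ∈ Finset.range (N - k), w (k + j) := by
    rw [← Finset.sum_range_reflect (fun j => w (k + j)) (N - k)]
    apply Finset.sum_congr rfl
    intro j hj
    rw [Finset.mem_range] at hj
    congr 1
    omega
  have e2 : N = k + (N - k) := by omega
  rw [e1]
  conv_rhs => rw [e2, Finset.sum_range_add]
  rw [add_comm]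

theorem Mul.ops_sum_c (h : V.Mul n) {g : Fl n → F2} (hg : ∀ p, g (h.fc p) = g p) (x : Φ) {k : ℕ}
    (hk : k ≤ n x) : opsum g (V.c x) (n x - k) + opsum g x k = opsum g x (n x) := by
  unfold opsum
  rw [← ops_refl (opsx g x) hk]
  congr 1
  apply Finset.sum_congr rfl
  intro j hj
  rw [Finset.mem_range] at hj
  have hj1 : j < n (V.c x) := by rw [h.c]; omega
  have hj2 : n x - 1 - j < n x := by omega
  unfold opsx
  rw [dif_pos hj1, dif_pos hj2, ← hg ⟨(V.c x, j), hj1⟩]
  congr 1
  apply Subtype.ext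
  apply Prod.ext
  · exact V.cc x
  · show n (V.c x) - 1 - j = n x - 1 - j
    rw [h.c]

theorem ops_sum_succ (g : Fl n → F2) (p : Fl n) :
    opsum g p.1.1 (p.1.2 + 1) = opsum g p.1.1 p.1.2 + g p := by
  unfold opsum
  rw [Finset.sum_range_succ]
  congr 1
  unfold opsx
  rw [dif_pos p.2]
  rfl

/-- A function on the gaps of `V` with the correct jumps gives a function on the gaps of the
parallel copies. -/
theorem Mul.ops_gap_core (h : V.Mul n) {g : Fl n → F2} (hg : ∀ p, g (h.fc p) = g p) {G : Φ → F2}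
    (hd : ∀ x, G (V.d x) = G x) (hc : ∀ x, G x + G (V.c x) = opsum g x (n x)) :
    (∀ p, G (h.fd p).1.1 + opsum g (h.fd p).1.1 (h.fd p).1.2 =
      G p.1.1 + opsum g p.1.1 p.1.2) ∧
    ∀ p, (G p.1.1 + opsum g p.1.1 p.1.2) +
      (G (h.fc p).1.1 + opsum g (h.fc p).1.1 (h.fc p).1.2) = g p := by
  constructor
  · intro p
    have hp := p.2
    by_cases hk : p.1.2 = 0
    · rw [h.ops_fd_zero p hk, hk]
      have : G ((V.fr h.isSub).ret p.1.1) = G p.1.1 := by
        refine (V.fr h.isSub).ret_inv (f := G) hd ?_ (ops_pos p)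
        intro ω hω
        have hω' : ¬ 0 < n ω := hω
        have hn : n ω = 0 := by omega
        have := hc ω
        rw [hn] at this
        exact ops_eq_of_add this
      show G ((V.fr h.isSub).ret p.1.1) + opsum g ((V.fr h.isSub).ret p.1.1) 0 = _
      rw [this]
      rfl
    · rw [h.ops_fd_pos p hk]
      show G (V.c p.1.1) + opsum g (V.c p.1.1) (n p.1.1 - p.1.2) = _
      have e1 := h.ops_sum_c hg p.1.1 hp.le
      have e2 := hc p.1.1
      rw [← e1] at e2
      have e3 : ∀ A B C D : F2, A + B = C + D → B + C = A + D := by decide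
      exact e3 _ _ _ _ e2
  · intro p
    have hp := p.2
    have e1 := h.ops_sum_c hg p.1.1 (k := p.1.2 + 1) (by omega)
    have e2 := hc p.1.1
    rw [← e1, ops_sum_succ] at e2
    show (G p.1.1 + opsum g p.1.1 p.1.2) +
      (G (V.c p.1.1) + opsum g (V.c p.1.1) (n p.1.1 - 1 - p.1.2)) = g p
    have e4 : n p.1.1 - 1 - p.1.2 = n p.1.1 - (p.1.2 + 1) := by omega
    rw [e4]
    have e3 : ∀ A B C D E : F2, A + B = C + (D + E) → A + D + (B + C) = E := by decide
    exact e3 _ _ _ _ _ e2

/-- A function on the gaps of the parallel copies comes from a function on the gaps of `V`. -/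
theorem Mul.ops_core_gap (h : V.Mul n) {g D : Fl n → F2} (hd : ∀ p, D (h.fd p) = D p)
    (hc : ∀ p, D p + D (h.fc p) = g p) :
    ∃ G : Φ → F2, (∀ x, G (V.d x) = G x) ∧ (∀ x, G x + G (V.c x) = opsum g x (n x)) ∧
      ∀ p : Fl n, D p = G p.1.1 + opsum g p.1.1 p.1.2 := by
  obtain ⟨G, h1, h2, h3⟩ := V.ops_fr_extend h.isSub (0 : F2)
    (D := fun x => D ⟨(x.1, 0), x.2⟩) (by
      intro x
      have := hd ⟨(x.1, 0), x.2⟩
      rw [← this]
      exact congrArg D (Subtype.ext (h.ops_fd_zero ⟨(x.1, 0), x.2⟩ rfl).symm))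
  -- partial sums
  have h4 : ∀ (x : Φ) (k : ℕ) (hk : k < n x), D ⟨(x, k), hk⟩ = G x + opsum g x k := by
    intro x k
    induction k with
    | zero =>
      intro hk
      have := h3 ⟨x, hk⟩
      simp only at this
      rw [this]
      unfold opsum
      simp
    | succ k ih =>
      intro hk
      have hk' : k < n x := by omega
      have e1 := hc ⟨(x, k), hk'⟩
      have e2 : D (h.fc ⟨(x, k), hk'⟩) = D ⟨(x, k + 1), hk⟩ := by
        rw [← hd (h.fc ⟨(x, k), hk'⟩)]
        congr 1
        exact h.opsU_lt hk' hk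
      rw [e2, ih hk'] at e1
      have e3 := ops_sum_succ g ⟨(x, k), hk'⟩
      simp only at e3
      rw [e3]
      have e5 : ∀ A B C E : F2, A + B + C = E → C = A + (B + E) := by decide
      exact e5 _ _ _ _ e1
  refine ⟨G, h1, ?_, ?_⟩
  · intro x
    rcases Nat.eq_zero_or_pos (n x) with h0 | hpos
    · rw [h2 x (by omega), ops_add_self, h0]
      unfold opsum
      simp
    · obtain ⟨m, hm⟩ : ∃ m, n x = m + 1 := ⟨n x - 1, by omega⟩
      have hm' : m < n x := by omega
      have e1 := hc ⟨(x, m), hm'⟩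
      have hc0 : 0 < n (V.c x) := by rw [h.c]; exact hpos
      have e2 : h.fc ⟨(x, m), hm'⟩ = ⟨(V.c x, 0), hc0⟩ := by
        apply Subtype.ext
        apply Prod.ext
        · rfl
        · show n x - 1 - m = 0
          omega
      have e3 := ops_sum_succ g ⟨(x, m), hm'⟩
      simp only at e3
      have e6 := h3 ⟨V.c x, hc0⟩
      simp only at e6
      rw [e2, h4 x m hm', ← e6] at e1
      rw [hm, e3]
      have e5 : ∀ A B C E : F2, A + B + C = E → A + C = B + E := by decide
      exact e5 _ _ _ _ e1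
  · intro p
    exact h4 p.1.1 p.1.2 p.2

/-- The complex of the parallel copies of the faces. -/
noncomputable def infl (h : V.Mul n) : TMap (Fl n) where
  a := h.fa
  b := h.fb
  c := h.fc
  d := h.fd
  sg := fun p => V.sg p.1.1
  en := fun p => V.en p.1.1
  sd := fun p => V.sd p.1.1
  aa := fun p => Subtype.ext (Prod.ext (V.aa p.1.1) rfl)
  bb := fun p => Subtype.ext (Prod.ext (V.bb p.1.1) rfl)
  cc := h.ops_fc_fc
  dd := h.ops_fd_fd
  ac := fun p => by
    apply Subtype.ext
    apply Prod.ext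
    · exact V.ac p.1.1
    · show n p.1.1 - 1 - p.1.2 = n (V.a p.1.1) - 1 - p.1.2
      rw [h.a]
  ad := h.ops_fa_fd
  bc := fun p => by
    apply Subtype.ext
    apply Prod.ext
    · exact V.bc p.1.1
    · show n p.1.1 - 1 - p.1.2 = n (V.b p.1.1) - 1 - p.1.2
      rw [h.b]
  sga := fun p => V.sga p.1.1
  sgb := fun p => V.sgb p.1.1
  sgc := fun p => V.sgc p.1.1
  sgd := fun p => by
    by_cases hk : p.1.2 = 0
    · rw [h.ops_fd_zero p hk]
      exact (V.fr h.isSub).ret_sign V.sgd (fun ω _ => V.sgc ω) (ops_pos p)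
    · rw [h.ops_fd_pos p hk]
      exact V.sgc p.1.1
  ena := fun p => V.ena p.1.1
  enc := fun p => V.enc p.1.1
  end' := fun p => by
    by_cases hk : p.1.2 = 0
    · rw [h.ops_fd_zero p hk]
      exact (V.fr h.isSub).ret_inv V.end' (fun ω _ => V.enc ω) (ops_pos p)
    · rw [h.ops_fd_pos p hk]
      exact V.enc p.1.1
  sda := fun p => V.sda p.1.1
  sdb := fun p => V.sdb p.1.1
  sdc := fun p => V.sdc p.1.1
  per := h.ops_per
  planar := by
    intro g D hgb hgc hDd hDg
    obtain ⟨G0, h1, h2, -⟩ := h.ops_core_gap hDd hDg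
    have hbk : ∀ x k, opsum g (V.b x) k = opsum g x k := by
      intro x k
      unfold opsum
      apply Finset.sum_congr rfl
      intro j _
      unfold opsx
      by_cases hj : j < n x
      · have hj' : j < n (V.b x) := by rw [h.b]; exact hj
        rw [dif_pos hj, dif_pos hj']
        exact hgb ⟨(x, j), hj⟩
      · have hj' : ¬ j < n (V.b x) := by rw [h.b]; exact hj
        rw [dif_neg hj, dif_neg hj']
    obtain ⟨G, k1, k2, k3⟩ := V.planar (fun x => opsum g x (n x)) G0
      (fun x => by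
        show opsum g (V.b x) (n (V.b x)) = opsum g x (n x)
        rw [h.b, hbk])
      (fun x => by
        show opsum g (V.c x) (n (V.c x)) = opsum g x (n x)
        have := h.ops_sum_c hgc x (k := 0) (Nat.zero_le _)
        rw [← this, h.c]
        unfold opsum
        simp)
      h1 h2
    obtain ⟨m1, m2⟩ := h.ops_gap_core hgc k2 k3
    refine ⟨fun p => G p.1.1 + opsum g p.1.1 p.1.2, ?_, m1, m2⟩
    intro p
    show G (V.b p.1.1) + opsum g (V.b p.1.1) p.1.2 = _
    rw [k1, hbk]

theorem infl_CD (h : V.Mul n) {p q : Fl n} : (infl h).CD p q ↔ V.CD p.1.1 q.1.1 := by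
  constructor
  · intro hpq
    induction hpq with
    | rel u v hr =>
      obtain ⟨f, hf, rfl⟩ := hr
      simp only [List.mem_cons, List.not_mem_nil, or_false] at hf
      rcases hf with rfl | rfl
      · exact CD.c V u.1.1
      · show V.CD u.1.1 (h.fd u).1.1
        by_cases hk : u.1.2 = 0
        · rw [h.ops_fd_zero u hk]
          exact V.ops_ret_CD h.isSub (ops_pos u)
        · rw [h.ops_fd_pos u hk]
          exact CD.c V u.1.1
    | refl u => exact CD.refl V _
    | symm u v _ ih => exact ih.symm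
    | trans u v w _ _ ih1 ih2 => exact ih1.trans ih2
  · intro hpq
    have hU : ∀ q : Fl n, (infl h).CD q (h.opsU q) := fun q =>
      (CD.c (infl h) q).trans (CD.d (infl h) (h.fc q))
    have hUk : ∀ (k : ℕ) (q : Fl n), (infl h).CD q (h.opsU^[k] q) := by
      intro k
      induction k with
      | zero => intro q; exact CD.refl _ _
      | succ k ih =>
        intro q
        rw [Function.iterate_succ_apply]
        exact (hU q).trans (ih _)
    have h0 : ∀ q : Fl n, (infl h).CD ⟨(q.1.1, 0), ops_pos q⟩ q := by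
      intro q
      have := hUk q.1.2 ⟨(q.1.1, 0), ops_pos q⟩
      rw [h.opsU_iter (ops_pos q) q.2] at this
      exact this
    have key := V.ops_fr_CD h.isSub (D := fun z => (infl h).CD p ⟨(z.1, 0), z.2⟩)
      (fun z => by
        have e : (⟨((V.fr h.isSub).ret z.1, 0), (V.fr h.isSub).ret_T z.2⟩ : Fl n) =
            (infl h).d ⟨(z.1, 0), z.2⟩ := by
          apply Subtype.ext
          exact (h.ops_fd_zero ⟨(z.1, 0), z.2⟩ rfl).symm
        apply propext
        constructor
        · intro hz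
          have hz' : (infl h).CD p ⟨((V.fr h.isSub).ret z.1, 0), (V.fr h.isSub).ret_T z.2⟩ := hz
          rw [e] at hz'
          exact hz'.trans (CD.d (infl h) _).symm
        · intro hz
          show (infl h).CD p ⟨((V.fr h.isSub).ret z.1, 0), (V.fr h.isSub).ret_T z.2⟩
          rw [e]
          exact hz.trans (CD.d (infl h) _))
      (fun z => by
        have e : (infl h).CD ⟨(V.c z.1, 0), (h.isSub.c z.1).2 z.2⟩ ⟨(z.1, 0), z.2⟩ :=
          (h0 (h.fc ⟨(z.1, 0), z.2⟩)).trans (CD.c (infl h) ⟨(z.1, 0), z.2⟩).symm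
        exact propext ⟨fun hz => hz.trans e, fun hz => hz.trans e.symm⟩)
      (x := ⟨p.1.1, ops_pos p⟩) (y := ⟨q.1.1, ops_pos q⟩) hpq
    simp only at key
    have h2 : (infl h).CD p ⟨(p.1.1, 0), ops_pos p⟩ := (h0 p).symm
    rw [key] at h2
    exact h2.trans (h0 q)

open Classical in
/-- The number of points of the set `S` among the first `k` copies over `x`. -/
noncomputable def below (S : Fl n → Prop) (x : Φ) (k : ℕ) : F2 :=
  ∑ j ∈ Finset.range k, if ∃ h : j < n x, S ⟨(x, j), h⟩ then 1 else 0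

open Classical in
theorem ops_below (S : Fl n → Prop) (x : Φ) (k : ℕ) :
    below S x k = opsum (fun p => if S p then 1 else 0) x k := by
  unfold below opsum
  apply Finset.sum_congr rfl
  intro j _
  unfold opsx
  by_cases hj : j < n x
  · rw [dif_pos hj]
    apply if_congr _ rfl rfl
    constructor
    · rintro ⟨h1, h2⟩
      exact h2
    · intro hS
      exact ⟨hj, hS⟩
  · rw [dif_neg hj, if_neg]
    rintro ⟨h1, -⟩
    exact hj h1

/-- A function on the gaps of the parallel copies with jumps at the points of `S` comes from a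
function on the gaps of `V`. -/
theorem infl_gap (h : V.Mul n) {S : Fl n → Prop} {D : Fl n → F2} (hS : ∀ p, S (h.fc p) ↔ S p)
    (hd : ∀ p, D ((infl h).d p) = D p)
    (hc : ∀ p, D p + D (h.fc p) = open Classical in if S p then 1 else 0) :
    ∃ G : Φ → F2, (∀ x, G (V.d x) = G x) ∧ (∀ x, G x + G (V.c x) = below S x (n x)) ∧
      ∀ p : Fl n, D p = G p.1.1 + below S p.1.1 p.1.2 := by
  classical
  obtain ⟨G, h1, h2, h3⟩ := h.ops_core_gap (g := fun p => if S p then 1 else 0) hd
    (fun p => by rw [hc p])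
  refine ⟨G, h1, ?_, ?_⟩
  · intro x
    rw [h2 x, ops_below]
  · intro p
    rw [h3 p, ops_below]

/-- Conversely, a function on the gaps of `V` with the correct jumps gives a function on the gaps of the
parallel copies. -/
theorem gap_infl (h : V.Mul n) {S : Fl n → Prop} {G : Φ → F2} (hS : ∀ p, S (h.fc p) ↔ S p)
    (hd : ∀ x, G (V.d x) = G x) (hc : ∀ x, G x + G (V.c x) = below S x (n x)) :
    (∀ p, G ((infl h).d p).1.1 + below S ((infl h).d p).1.1 ((infl h).d p).1.2
      = G p.1.1 + below S p.1.1 p.1.2) ∧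
    ∀ p, (G p.1.1 + below S p.1.1 p.1.2) +
      (G (h.fc p).1.1 + below S (h.fc p).1.1 (h.fc p).1.2) =
        open Classical in if S p then 1 else 0 := by
  classical
  simp only [ops_below] at hc ⊢
  exact h.ops_gap_core (g := fun p => if S p then 1 else 0)
    (fun p => if_congr (hS p) rfl rfl) hd hc

end TMap

end Pool.Agent.Lib.MP_131179_gt.Dehn
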