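import Pool.Agent.Lib.MP_131179_gt.Dehn.LinAlg

/-!
# The pairing lemma

Two systems of closed curves on spheres cross in a finite set `X`.  The element `(ξ, i)` of `X × F2` is
the direction of the first curve at `ξ` on the side `i` of the second curve, and also the direction
of the second curve at `ξ` on the side `i` of the first curve.  The involution `r` goes to the other end
of a piece of the first curve and `u` goes to the other end of a piece of the second curve.
`G ξ s t` is the value of a region function on the quadrant at `ξ` on the side `s` of the first curve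
and on the side `t` of the second curve.
-/

set_option autoImplicit false

namespace Pool.Agent.Lib.MP_131179_gt.Dehn

/-- Exactness: every even set of pieces is the boundary of a set of regions. -/
def ArrEx {X : Type} (r u : X × F2 → X × F2) : Prop :=
  ∀ gr gu : X × F2 → F2, (∀ v, gr (r v) = gr v) → (∀ v, gu (u v) = gu v) →
    (∀ ξ, gr (ξ, 0) + gr (ξ, 1) + gu (ξ, 0) + gu (ξ, 1) = 0) →
    ∃ G : X → F2 → F2 → F2,
      (∀ ξ s i, G (r (ξ, i)).1 s (r (ξ, i)).2 = G ξ s i) ∧
      (∀ ξ i t, G (u (ξ, i)).1 (u (ξ, i)).2 t = G ξ i t) ∧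
      (∀ ξ i, G ξ 0 i + G ξ 1 i = gr (ξ, i)) ∧
      (∀ ξ i, G ξ i 0 + G ξ i 1 = gu (ξ, i))

/-! ### auxiliary lemmas -/

theorem pairing_f2_cases : ∀ i t : F2, i = t ∨ i = t + 1 := by decide

theorem pairing_f2_ne : ∀ t : F2, t + 1 ≠ t := by decide

theorem pairing_f2_sum : ∀ a b t : F2, (t = 0 → a + b = b + a) := by decide

/-- Comparison of two spaces of invariant functions. -/
theorem pairing_orb_add {Φ Φ' : Type} [Finite Φ] [Finite Φ'] {s : List (Φ → Φ)}
    {s' : List (Φ' → Φ')} (j : Φ' → Φ) (k : ℕ) (e : Fin k → Φ)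
    (hres : ∀ f ∈ Inv s, (fun v => f (j v)) ∈ Inv s')
    (hext : ∀ f' ∈ Inv s', ∀ c : Fin k → F2, ∃ f ∈ Inv s, (∀ v, f (j v) = f' v) ∧
      ∀ i, f (e i) = c i)
    (hinj : ∀ f ∈ Inv s, (∀ v, f (j v) = 0) → (∀ i, f (e i) = 0) → f = 0) :
    orb s = orb s' + k := by
  let L : Inv s →ₗ[F2] (Inv s' × (Fin k → F2)) :=
    { toFun := fun f => (⟨fun v => f.1 (j v), hres f.1 f.2⟩, fun i => f.1 (e i))
      map_add' := fun f g => rfl
      map_smul' := fun a f => rfl }
  have hinjL : Function.Injective L := by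
    rw [injective_iff_map_eq_zero]
    intro f hf
    have h1 : (fun v => f.1 (j v)) = 0 := congrArg (fun z => (z.1.1 : Φ' → F2)) hf
    have h2 : (fun i => f.1 (e i)) = 0 := congrArg (fun z => z.2) hf
    exact Subtype.ext (hinj f.1 f.2 (fun v => congrFun h1 v) (fun i => congrFun h2 i))
  have hsurL : Function.Surjective L := by
    rintro ⟨f', c⟩
    obtain ⟨f, hf, h1, h2⟩ := hext f'.1 f'.2 c
    refine ⟨⟨f, hf⟩, ?_⟩
    refine Prod.ext (Subtype.ext ?_) ?_
    · funext v; exact h1 v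
    · funext i; exact h2 i
  have := (LinearEquiv.ofBijective L ⟨hinjL, hsurL⟩).finrank_eq
  unfold orb
  rw [this, Module.finrank_prod, Module.finrank_fin_fun]

section Join

variable {X : Type}

open Classical in
/-- Remove `a` and `b` and join the ends of their pieces. -/
noncomputable def pairingJoin (r : X × F2 → X × F2) (a b v : X × F2) : X × F2 :=
  if r v = a then r b else if r v = b then r a else r v

theorem pairingJoin_a {r : X × F2 → X × F2} {a b v : X × F2} (h : r v = a) :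
    pairingJoin r a b v = r b := by
  unfold pairingJoin; rw [if_pos h]

theorem pairingJoin_b {r : X × F2 → X × F2} {a b v : X × F2} (hab : a ≠ b) (h : r v = b) :
    pairingJoin r a b v = r a := by
  unfold pairingJoin; rw [if_neg (by rw [h]; exact hab.symm), if_pos h]

theorem pairingJoin_o {r : X × F2 → X × F2} {a b v : X × F2} (h1 : r v ≠ a) (h2 : r v ≠ b) :
    pairingJoin r a b v = r v := by
  unfold pairingJoin; rw [if_neg h1, if_neg h2]

theorem pairingJoin_fun {r : X × F2 → X × F2} {a b : X × F2} (hab : a ≠ b) {α : Type}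
    {g : X × F2 → α} (hg : ∀ v, g (r v) = g v) (h : g a = g b) (v : X × F2) :
    g (pairingJoin r a b v) = g v := by
  by_cases h1 : r v = a
  · rw [pairingJoin_a h1, hg, ← h, ← h1, hg]
  by_cases h2 : r v = b
  · rw [pairingJoin_b hab h2, hg, h, ← h2, hg]
  · rw [pairingJoin_o h1 h2, hg]

theorem pairingJoin_inv {r : X × F2 → X × F2} (hr : FPF r) {a b v : X × F2} (hab : a ≠ b)
    (ha : v ≠ a) (hb : v ≠ b) : pairingJoin r a b (pairingJoin r a b v) = v := by
  by_cases h1 : r v = a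
  · rw [pairingJoin_a h1, pairingJoin_b hab (hr.inv b), ← h1, hr.inv]
  by_cases h2 : r v = b
  · rw [pairingJoin_b hab h2, pairingJoin_a (hr.inv a), ← h2, hr.inv]
  · rw [pairingJoin_o h1 h2, pairingJoin_o (by rw [hr.inv]; exact ha) (by rw [hr.inv]; exact hb),
      hr.inv]

theorem pairingJoin_ne {r : X × F2 → X × F2} (hr : FPF r) {a b v : X × F2} (hab : a ≠ b) :
    pairingJoin r a b v ≠ v := by
  by_cases h1 : r v = a
  · rw [pairingJoin_a h1]
    intro h
    apply hab
    rw [← h1, ← h, hr.inv]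
  by_cases h2 : r v = b
  · rw [pairingJoin_b hab h2]
    intro h
    apply hab
    rw [← h2, ← h, hr.inv]
  · rw [pairingJoin_o h1 h2]
    exact hr.ne v

/-- The remaining points. -/
abbrev PairingRem (ξ ξ' : X) : Type := {x : X // x ≠ ξ ∧ x ≠ ξ'}

/-- The inclusion. -/
def pairingInc (ξ ξ' : X) (v : PairingRem ξ ξ' × F2) : X × F2 := (v.1.1, v.2)

theorem pairingInc_inj {ξ ξ' : X} {v w : PairingRem ξ ξ' × F2}
    (h : pairingInc ξ ξ' v = pairingInc ξ ξ' w) : v = w := by
  have h1 : v.1.1 = w.1.1 := congrArg Prod.fst h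
  have h2 : v.2 = w.2 := by
    have h3 : (pairingInc ξ ξ' v).2 = (pairingInc ξ ξ' w).2 := by rw [h]
    exact h3
  exact Prod.ext (Subtype.ext h1) h2

theorem pairingInc_ne {ξ ξ' : X} (v : PairingRem ξ ξ' × F2) (i : F2) :
    pairingInc ξ ξ' v ≠ (ξ, i) := fun h => v.1.2.1 (congrArg Prod.fst h)

theorem pairingInc_ne' {ξ ξ' : X} (v : PairingRem ξ ξ' × F2) (i : F2) :
    pairingInc ξ ξ' v ≠ (ξ', i) := fun h => v.1.2.2 (congrArg Prod.fst h)

/-- All elements. -/
theorem pairing_cases (ξ ξ' : X) (t : F2) (v : X × F2) :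
    (∃ w, v = pairingInc ξ ξ' w) ∨ v = (ξ, t) ∨ v = (ξ', t) ∨ v = (ξ, t + 1) ∨
      v = (ξ', t + 1) := by
  obtain ⟨x, i⟩ := v
  by_cases h1 : x = ξ
  · subst h1
    rcases pairing_f2_cases i t with h | h
    · subst h; exact Or.inr (Or.inl rfl)
    · subst h; exact Or.inr (Or.inr (Or.inr (Or.inl rfl)))
  by_cases h2 : x = ξ'
  · subst h2
    rcases pairing_f2_cases i t with h | h
    · subst h; exact Or.inr (Or.inr (Or.inl rfl))
    · subst h; exact Or.inr (Or.inr (Or.inr (Or.inr rfl)))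
  · exact Or.inl ⟨(⟨x, h1, h2⟩, i), rfl⟩

theorem pairing_ab {ξ ξ' : X} (hne : ξ ≠ ξ') (t : F2) :
    ((ξ, t) : X × F2) ≠ (ξ', t) := fun h => hne (congrArg Prod.fst h)

theorem pairing_shift {ξ ξ' : X} (t : F2) :
    ((ξ, t + 1) : X × F2) ≠ (ξ', t) := fun h => pairing_f2_ne t (congrArg Prod.snd h)

/-- The image of the first joined point. -/
theorem pairing_ra {r : X × F2 → X × F2} (hr : FPF r) {ξ ξ' : X} {t : F2}
    (h : r (ξ, t) = (ξ', t)) :
    (∃ w, r (ξ, t + 1) = pairingInc ξ ξ' w) ∨ r (ξ, t + 1) = (ξ', t + 1) := by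
  rcases pairing_cases ξ ξ' t (r (ξ, t + 1)) with h1 | h1 | h1 | h1 | h1
  · exact Or.inl h1
  · exfalso
    have : ((ξ, t + 1) : X × F2) = (ξ', t) := by rw [← h, ← h1, hr.inv]
    exact pairing_shift t this
  · exfalso
    rw [← h] at h1
    have : ((ξ, t + 1) : X × F2) = (ξ, t) := by rw [← hr.inv (ξ, t + 1), h1, hr.inv]
    exact pairing_shift t this
  · exact absurd h1 (hr.ne _)
  · exact Or.inr h1

theorem pairing_rb {r : X × F2 → X × F2} (hr : FPF r) {ξ ξ' : X} {t : F2}
    (h : r (ξ, t) = (ξ', t)) :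
    (∃ w, r (ξ', t + 1) = pairingInc ξ ξ' w) ∨ r (ξ', t + 1) = (ξ, t + 1) := by
  rcases pairing_cases ξ ξ' t (r (ξ', t + 1)) with h1 | h1 | h1 | h1 | h1
  · exact Or.inl h1
  · exfalso
    have : ((ξ', t + 1) : X × F2) = (ξ', t) := by rw [← h, ← h1, hr.inv]
    exact pairing_shift t this
  · exfalso
    rw [← h] at h1
    have : ((ξ', t + 1) : X × F2) = (ξ, t) := by rw [← hr.inv (ξ', t + 1), h1, hr.inv]
    exact pairing_shift t this
  · exact Or.inr h1
  · exact absurd h1 (hr.ne _)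

/-- The joined map preserves the remaining part. -/
theorem pairingJoin_mem {r : X × F2 → X × F2} (hr : FPF r) {ξ ξ' : X} {t : F2}
    (hne : ξ ≠ ξ') (h : r (ξ, t) = (ξ', t)) (v : PairingRem ξ ξ' × F2) :
    ∃ w, pairingJoin r (ξ, t + 1) (ξ', t + 1) (pairingInc ξ ξ' v) = pairingInc ξ ξ' w := by
  have hab : ((ξ, t + 1) : X × F2) ≠ (ξ', t + 1) := pairing_ab hne _
  by_cases h1 : r (pairingInc ξ ξ' v) = (ξ, t + 1)
  · rw [pairingJoin_a h1]
    rcases pairing_rb hr h with h2 | h2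
    · exact h2
    · exfalso
      have : pairingInc ξ ξ' v = (ξ', t + 1) := by
        rw [← hr.inv (pairingInc ξ ξ' v), h1, ← h2, hr.inv]
      exact pairingInc_ne' v _ this
  by_cases h2 : r (pairingInc ξ ξ' v) = (ξ', t + 1)
  · rw [pairingJoin_b hab h2]
    rcases pairing_ra hr h with h3 | h3
    · exact h3
    · exfalso
      have : pairingInc ξ ξ' v = (ξ, t + 1) := by
        rw [← hr.inv (pairingInc ξ ξ' v), h2, ← h3, hr.inv]
      exact pairingInc_ne v _ this
  rw [pairingJoin_o h1 h2]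
  rcases pairing_cases ξ ξ' t (r (pairingInc ξ ξ' v)) with h3 | h3 | h3 | h3 | h3
  · exact h3
  · exfalso
    have : pairingInc ξ ξ' v = (ξ', t) := by
      rw [← h, ← h3, hr.inv]
    exact pairingInc_ne' v _ this
  · exfalso
    rw [← h] at h3
    have : pairingInc ξ ξ' v = (ξ, t) := by
      rw [← hr.inv (pairingInc ξ ξ' v), h3, hr.inv]
    exact pairingInc_ne v _ this
  · exact absurd h3 h1
  · exact absurd h3 h2

open Classical in
/-- The reduced map. -/
noncomputable def pairingRed (r : X × F2 → X × F2) (ξ ξ' : X) (t : F2)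
    (v : PairingRem ξ ξ' × F2) : PairingRem ξ ξ' × F2 :=
  if h : ∃ w, pairingJoin r (ξ, t + 1) (ξ', t + 1) (pairingInc ξ ξ' v) = pairingInc ξ ξ' w then
    h.choose else v

theorem pairingInc_red {r : X × F2 → X × F2} (hr : FPF r) {ξ ξ' : X} {t : F2}
    (hne : ξ ≠ ξ') (h : r (ξ, t) = (ξ', t)) (v : PairingRem ξ ξ' × F2) :
    pairingInc ξ ξ' (pairingRed r ξ ξ' t v) =
      pairingJoin r (ξ, t + 1) (ξ', t + 1) (pairingInc ξ ξ' v) := by
  have h1 := pairingJoin_mem hr hne h v
  unfold pairingRed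
  rw [dif_pos h1]
  exact h1.choose_spec.symm

theorem pairingRed_fpf {r : X × F2 → X × F2} (hr : FPF r) {ξ ξ' : X} {t : F2}
    (hne : ξ ≠ ξ') (h : r (ξ, t) = (ξ', t)) : FPF (pairingRed r ξ ξ' t) := by
  have hab : ((ξ, t + 1) : X × F2) ≠ (ξ', t + 1) := pairing_ab hne _
  constructor
  · intro v
    apply pairingInc_inj
    rw [pairingInc_red hr hne h, pairingInc_red hr hne h]
    exact pairingJoin_inv hr hab (pairingInc_ne v _) (pairingInc_ne' v _)
  · intro v h1
    have h2 := congrArg (pairingInc ξ ξ') h1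
    rw [pairingInc_red hr hne h] at h2
    exact pairingJoin_ne hr hab h2

theorem pairing_res {r : X × F2 → X × F2} (hr : FPF r) {ξ ξ' : X} {t : F2}
    (hne : ξ ≠ ξ') (h : r (ξ, t) = (ξ', t)) {α : Type} {g : X × F2 → α}
    (hg : ∀ v, g (r v) = g v) (hab : g (ξ, t + 1) = g (ξ', t + 1))
    (v : PairingRem ξ ξ' × F2) :
    g (pairingInc ξ ξ' (pairingRed r ξ ξ' t v)) = g (pairingInc ξ ξ' v) := by
  rw [pairingInc_red hr hne h]
  exact pairingJoin_fun (pairing_ab hne _) hg hab _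

/-- Extension of invariant functions. -/
theorem pairing_ext {r : X × F2 → X × F2} (hr : FPF r) {ξ ξ' : X} {t : F2}
    (hne : ξ ≠ ξ') (h : r (ξ, t) = (ξ', t)) {α : Type} (g' : PairingRem ξ ξ' × F2 → α)
    (hg' : ∀ v, g' (pairingRed r ξ ξ' t v) = g' v) (c1 : α) :
    ∃ A : α, (r (ξ, t + 1) = (ξ', t + 1) → A = c1) ∧ ∀ c0 : α, ∃ g : X × F2 → α,
      (∀ v, g (r v) = g v) ∧ (∀ v, g (pairingInc ξ ξ' v) = g' v) ∧
      g (ξ, t + 1) = A ∧ g (ξ', t + 1) = A ∧ g (ξ, t) = c0 ∧ g (ξ', t) = c0 := by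
  classical
  have hab : ((ξ, t + 1) : X × F2) ≠ (ξ', t + 1) := pairing_ab hne _
  obtain ⟨A, hA1, hA2, hA3⟩ : ∃ A : α, (r (ξ, t + 1) = (ξ', t + 1) → A = c1) ∧
      (∀ v, r (pairingInc ξ ξ' v) = (ξ, t + 1) → g' v = A) ∧
      (∀ v, r (pairingInc ξ ξ' v) = (ξ', t + 1) → g' v = A) := by
    rcases pairing_ra hr h with ⟨w, hw⟩ | hb
    · refine ⟨g' w, fun h1 => ?_, fun v hv => ?_, fun v hv => ?_⟩
      · rw [h1] at hw
        exact absurd hw.symm (pairingInc_ne' w _)
      · have : v = w := by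
          apply pairingInc_inj
          rw [← hw, ← hv, hr.inv]
        rw [this]
      · have : pairingRed r ξ ξ' t w = v := by
          apply pairingInc_inj
          rw [pairingInc_red hr hne h, pairingJoin_a (by rw [← hw, hr.inv]), ← hv, hr.inv]
        rw [← this, hg']
    · refine ⟨c1, fun _ => rfl, fun v hv => ?_, fun v hv => ?_⟩
      · exfalso
        have : pairingInc ξ ξ' v = (ξ', t + 1) := by rw [← hb, ← hv, hr.inv]
        exact pairingInc_ne' v _ this
      · exfalso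
        rw [← hb] at hv
        have : pairingInc ξ ξ' v = (ξ, t + 1) := by
          rw [← hr.inv (pairingInc ξ ξ' v), hv, hr.inv]
        exact pairingInc_ne v _ this
  refine ⟨A, hA1, fun c0 => ?_⟩
  let g : X × F2 → α := fun v =>
    if hv : v.1 ≠ ξ ∧ v.1 ≠ ξ' then g' (⟨v.1, hv⟩, v.2) else if v.2 = t then c0 else A
  have gi : ∀ v, g (pairingInc ξ ξ' v) = g' v := by
    intro v
    have : (pairingInc ξ ξ' v).1 ≠ ξ ∧ (pairingInc ξ ξ' v).1 ≠ ξ' := v.1.2
    simp only [g]
    rw [dif_pos this]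
    rfl
  have ga : g (ξ, t + 1) = A := by
    simp only [g]
    rw [dif_neg (by simp), if_neg (pairing_f2_ne t)]
  have gb : g (ξ', t + 1) = A := by
    simp only [g]
    rw [dif_neg (by simp), if_neg (pairing_f2_ne t)]
  have gc : g (ξ, t) = c0 := by simp [g]
  have gd : g (ξ', t) = c0 := by simp [g]
  refine ⟨g, fun v => ?_, gi, ga, gb, gc, gd⟩
  rcases pairing_cases ξ ξ' t v with ⟨w, rfl⟩ | rfl | rfl | rfl | rfl
  · rw [gi]
    by_cases h1 : r (pairingInc ξ ξ' w) = (ξ, t + 1)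
    · rw [h1, ga, hA2 w h1]
    by_cases h2 : r (pairingInc ξ ξ' w) = (ξ', t + 1)
    · rw [h2, gb, hA3 w h2]
    rw [← pairingJoin_o h1 h2, ← pairingInc_red hr hne h, gi, hg']
  · rw [h, gc, gd]
  · rw [← h, hr.inv, gc, h, gd]
  · rw [ga]
    rcases pairing_ra hr h with ⟨w, hw⟩ | hb
    · rw [hw, gi]
      exact hA2 w (by rw [← hw, hr.inv])
    · rw [hb, gb]
  · rw [gb]
    rcases pairing_rb hr h with ⟨w, hw⟩ | hb
    · rw [hw, gi]
      exact hA3 w (by rw [← hw, hr.inv])
    · rw [hb, ga]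

theorem ArrEx.symm {r u : X × F2 → X × F2} (h : ArrEx r u) : ArrEx u r := by
  intro gu gr hgu hgr he
  obtain ⟨G, h1, h2, h3, h4⟩ := h gr gu hgr hgu (fun ξ => by
    have := he ξ
    linear_combination this)
  exact ⟨fun ξ s t => G ξ t s, fun ξ s i => h2 ξ i s, fun ξ i t => h1 ξ t i,
    fun ξ i => h4 ξ i, fun ξ i => h3 ξ i⟩

theorem pairing_sum_t (f : F2 → F2) (t : F2) : f 0 + f 1 = f t + f (t + 1) := by
  rcases pairing_f2_cases t 0 with h | h
  · rw [h, zero_add]
  · rw [h, zero_add]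
    have : (1 + 1 : F2) = 0 := by decide
    rw [this, add_comm]

/-- Exactness passes to the reduced system. -/
theorem pairing_arrEx {r u : X × F2 → X × F2} (hr : FPF r) (hu : FPF u) (hE : ArrEx r u)
    {ξ ξ' : X} {s t : F2} (hne : ξ ≠ ξ') (h : r (ξ, t) = (ξ', t)) (h' : u (ξ, s) = (ξ', s)) :
    ArrEx (pairingRed r ξ ξ' t) (pairingRed u ξ ξ' s) := by
  intro gr' gu' hgr' hgu' he'
  obtain ⟨A, -, hA⟩ := pairing_ext hr hne h gr' hgr' 0
  obtain ⟨gr, hgr, gri, gra, grb, grc, grd⟩ := hA A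
  obtain ⟨B, -, hB⟩ := pairing_ext hu hne h' gu' hgu' 0
  obtain ⟨gu, hgu, gui, gua, gub, guc, gud⟩ := hB B
  have two : ∀ a : F2, a + a = 0 := by decide
  obtain ⟨G, h1, h2, h3, h4⟩ := hE gr gu hgr hgu (by
    intro x
    have e1 := pairing_sum_t (fun i => gr (x, i)) t
    have e2 := pairing_sum_t (fun i => gu (x, i)) s
    rw [add_assoc, e1, e2]
    by_cases hx : x = ξ
    · rw [hx, gra, grc, gua, guc, two, two, add_zero]
    by_cases hx' : x = ξ'
    · rw [hx', grb, grd, gub, gud, two, two, add_zero]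
    · have e3 := he' ⟨x, hx, hx'⟩
      rw [← gri, ← gri, ← gui, ← gui, add_assoc] at e3
      simp only [pairingInc] at e3
      rw [e1, e2] at e3
      exact e3)
  -- around the bigon
  have b1 : ∀ s', G ξ' s' t = G ξ s' t := by
    intro s'
    have := h1 ξ s' t
    rw [h] at this
    exact this
  have b2 : ∀ t', G ξ' s t' = G ξ s t' := by
    intro t'
    have := h2 ξ s t'
    rw [h'] at this
    exact this
  have b3 : G ξ' (s + 1) (t + 1) = G ξ (s + 1) (t + 1) := by
    have e1 := h4 ξ (s + 1)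
    have e2 := h4 ξ' (s + 1)
    have e3 := pairing_sum_t (fun i => G ξ (s + 1) i) t
    have e4 := pairing_sum_t (fun i => G ξ' (s + 1) i) t
    rw [e3, gua] at e1
    rw [e4, gub, ← e1, b1] at e2
    exact add_left_cancel e2
  have b4 : ∀ s', G ξ' s' (t + 1) = G ξ s' (t + 1) := by
    intro s'
    rcases pairing_f2_cases s' s with hs | hs
    · rw [hs]; exact b2 _
    · rw [hs]; exact b3
  have b5 : ∀ t', G ξ' (s + 1) t' = G ξ (s + 1) t' := by
    intro t'
    rcases pairing_f2_cases t' t with ht | ht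
    · rw [ht]; exact b1 _
    · rw [ht]; exact b3
  refine ⟨fun x => G x.1, fun x s' i => ?_, fun x i t' => ?_, fun x i => ?_, fun x i => ?_⟩
  · exact pairing_res hr hne h (g := fun v => G v.1 s' v.2) (fun v => h1 v.1 s' v.2)
      (b4 s').symm (x, i)
  · exact pairing_res hu hne h' (g := fun v => G v.1 v.2 t') (fun v => h2 v.1 v.2 t')
      (b5 t').symm (x, i)
  · rw [← gri]; exact h3 x.1 i
  · rw [← gui]; exact h4 x.1 i

open Classical in
/-- The extended pairing. -/
noncomputable def pairingP (ξ ξ' : X) (p : PairingRem ξ ξ' → PairingRem ξ ξ') (x : X) : X :=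
  if h : x ≠ ξ ∧ x ≠ ξ' then (p ⟨x, h⟩).1 else if x = ξ then ξ' else ξ

theorem pairingP_rem (ξ ξ' : X) (p : PairingRem ξ ξ' → PairingRem ξ ξ') (x : PairingRem ξ ξ') :
    pairingP ξ ξ' p x.1 = (p x).1 := by
  unfold pairingP
  rw [dif_pos x.2]

theorem pairingP_ξ (ξ ξ' : X) (p : PairingRem ξ ξ' → PairingRem ξ ξ') :
    pairingP ξ ξ' p ξ = ξ' := by
  unfold pairingP
  rw [dif_neg (by simp), if_pos rfl]

theorem pairingP_ξ' {ξ ξ' : X} (hne : ξ ≠ ξ') (p : PairingRem ξ ξ' → PairingRem ξ ξ') :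
    pairingP ξ ξ' p ξ' = ξ := by
  unfold pairingP
  rw [dif_neg (by simp), if_neg hne.symm]

theorem pairingP_fpf {ξ ξ' : X} (hne : ξ ≠ ξ') {p : PairingRem ξ ξ' → PairingRem ξ ξ'}
    (hp : FPF p) : FPF (pairingP ξ ξ' p) := by
  constructor
  · intro x
    by_cases h1 : x = ξ
    · rw [h1, pairingP_ξ, pairingP_ξ' hne]
    by_cases h2 : x = ξ'
    · rw [h2, pairingP_ξ' hne, pairingP_ξ]
    · rw [pairingP_rem ξ ξ' p ⟨x, h1, h2⟩, pairingP_rem, hp.inv]
  · intro x
    by_cases h1 : x = ξ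
    · rw [h1, pairingP_ξ]; exact hne.symm
    by_cases h2 : x = ξ'
    · rw [h2, pairingP_ξ' hne]; exact hne
    · rw [pairingP_rem ξ ξ' p ⟨x, h1, h2⟩]
      exact fun h => hp.ne _ (Subtype.ext h)

theorem pairing_inc_P (ξ ξ' : X) (p : PairingRem ξ ξ' → PairingRem ξ ξ')
    (v : PairingRem ξ ξ' × F2) :
    pairingInc ξ ξ' (p v.1, v.2) =
      (pairingP ξ ξ' p (pairingInc ξ ξ' v).1, (pairingInc ξ ξ' v).2) := by
  unfold pairingInc
  rw [pairingP_rem]

open Classical in
/-- The number of closed curves which disappear. -/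
noncomputable def pairingD (r : X × F2 → X × F2) (ξ ξ' : X) (t : F2) : ℕ :=
  if r (ξ, t + 1) = (ξ', t + 1) then 1 else 0

theorem pairing_countA [Finite X] {r : X × F2 → X × F2} (hr : FPF r) {ξ ξ' : X} {t : F2}
    (hne : ξ ≠ ξ') (h : r (ξ, t) = (ξ', t)) (p : PairingRem ξ ξ' → PairingRem ξ ξ') :
    orb [r, fun v => (pairingP ξ ξ' p v.1, v.2)] =
      orb [pairingRed r ξ ξ' t, fun v => (p v.1, v.2)] + 1 + pairingD r ξ ξ' t := by
  have hres : ∀ f ∈ Inv [r, fun v => (pairingP ξ ξ' p v.1, v.2)],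
      (fun v => f (pairingInc ξ ξ' v)) ∈
        Inv [pairingRed r ξ ξ' t, fun v => (p v.1, v.2)] := by
    intro f hf
    have f1 : ∀ v, f (r v) = f v := hf _ (by simp)
    have f2 : ∀ v : X × F2, f (pairingP ξ ξ' p v.1, v.2) = f v :=
      hf (fun v => (pairingP ξ ξ' p v.1, v.2)) (by simp)
    have f3 : f (ξ, t + 1) = f (ξ', t + 1) := by
      have := f2 (ξ, t + 1)
      simp only [pairingP_ξ] at this
      exact this.symm
    intro g hg v
    simp only [List.mem_cons, List.not_mem_nil, or_false] at hg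
    rcases hg with rfl | rfl
    · exact pairing_res hr hne h f1 f3 v
    · show f (pairingInc ξ ξ' (p v.1, v.2)) = _
      rw [pairing_inc_P, f2]
  have hext : ∀ f' ∈ Inv [pairingRed r ξ ξ' t, fun v => (p v.1, v.2)], ∀ c1 c0 : F2,
      ∃ f ∈ Inv [r, fun v => (pairingP ξ ξ' p v.1, v.2)],
        (∀ v, f (pairingInc ξ ξ' v) = f' v) ∧ f (ξ, t) = c0 ∧
        (r (ξ, t + 1) = (ξ', t + 1) → f (ξ, t + 1) = c1) := by
    intro f' hf' c1 c0
    have f1 : ∀ v, f' (pairingRed r ξ ξ' t v) = f' v := hf' _ (by simp)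
    have f2 : ∀ v : PairingRem ξ ξ' × F2, f' (p v.1, v.2) = f' v :=
      hf' (fun v => (p v.1, v.2)) (by simp)
    obtain ⟨A, hA, hg⟩ := pairing_ext hr hne h f' f1 c1
    obtain ⟨g, g1, g2, g3, g4, g5, g6⟩ := hg c0
    refine ⟨g, ?_, g2, g5, fun h1 => by rw [g3, hA h1]⟩
    intro q hq v
    simp only [List.mem_cons, List.not_mem_nil, or_false] at hq
    rcases hq with rfl | rfl
    · exact g1 v
    · rcases pairing_cases ξ ξ' t v with ⟨w, rfl⟩ | rfl | rfl | rfl | rfl
      · show g (pairingP ξ ξ' p (pairingInc ξ ξ' w).1, (pairingInc ξ ξ' w).2) = _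
        rw [← pairing_inc_P, g2, g2, f2]
      · show g (pairingP ξ ξ' p ξ, t) = _
        rw [pairingP_ξ, g5, g6]
      · show g (pairingP ξ ξ' p ξ', t) = _
        rw [pairingP_ξ' hne, g5, g6]
      · show g (pairingP ξ ξ' p ξ, t + 1) = _
        rw [pairingP_ξ, g3, g4]
      · show g (pairingP ξ ξ' p ξ', t + 1) = _
        rw [pairingP_ξ' hne, g3, g4]
  have hinj : ∀ f ∈ Inv [r, fun v => (pairingP ξ ξ' p v.1, v.2)],
      (∀ v, f (pairingInc ξ ξ' v) = 0) → f (ξ, t) = 0 →
      (r (ξ, t + 1) = (ξ', t + 1) → f (ξ, t + 1) = 0) → f = 0 := by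
    intro f hf h0 h1 h2
    have f1 : ∀ v, f (r v) = f v := hf _ (by simp)
    have f2 : ∀ v : X × F2, f (pairingP ξ ξ' p v.1, v.2) = f v :=
      hf (fun v => (pairingP ξ ξ' p v.1, v.2)) (by simp)
    have f3 : ∀ i, f (ξ', i) = f (ξ, i) := by
      intro i
      have := f2 (ξ, i)
      simp only [pairingP_ξ] at this
      exact this
    have f4 : f (ξ, t + 1) = 0 := by
      rcases pairing_ra hr h with ⟨w, hw⟩ | hb
      · rw [← f1, hw, h0]
      · exact h2 hb
    funext v
    rcases pairing_cases ξ ξ' t v with ⟨w, rfl⟩ | rfl | rfl | rfl | rfl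
    · exact h0 w
    · exact h1
    · rw [f3]; exact h1
    · exact f4
    · rw [f3]; exact f4
  by_cases hb : r (ξ, t + 1) = (ξ', t + 1)
  · have hD : pairingD r ξ ξ' t = 1 := by unfold pairingD; rw [if_pos hb]
    rw [hD]
    refine pairing_orb_add (pairingInc ξ ξ') 2 ![(ξ, t), (ξ, t + 1)] hres ?_ ?_
    · intro f' hf' c
      obtain ⟨f, h1, h2, h3, h4⟩ := hext f' hf' (c 1) (c 0)
      refine ⟨f, h1, h2, fun i => ?_⟩
      fin_cases i
      · exact h3
      · exact h4 hb
    · intro f hf h0 h1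
      exact hinj f hf h0 (h1 0) (fun _ => h1 1)
  · have hD : pairingD r ξ ξ' t = 0 := by unfold pairingD; rw [if_neg hb]
    rw [hD]
    refine pairing_orb_add (pairingInc ξ ξ') 1 ![(ξ, t)] hres ?_ ?_
    · intro f' hf' c
      obtain ⟨f, h1, h2, h3, h4⟩ := hext f' hf' 0 (c 0)
      refine ⟨f, h1, h2, fun i => ?_⟩
      fin_cases i
      exact h3
    · intro f hf h0 h1
      exact hinj f hf h0 (h1 0) (fun hb' => absurd hb' hb)

theorem pairing_countB [Finite X] {r : X × F2 → X × F2} (hr : FPF r) {ξ ξ' : X} {t : F2}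
    (hne : ξ ≠ ξ') (h : r (ξ, t) = (ξ', t)) :
    orb [r, fun v => (v.1, v.2 + 1)] =
      orb [pairingRed r ξ ξ' t, fun v => (v.1, v.2 + 1)] + pairingD r ξ ξ' t := by
  have two : ∀ i : F2, i + 1 + 1 = i := by decide
  have hres : ∀ f ∈ Inv [r, fun v => (v.1, v.2 + 1)],
      (fun v => f (pairingInc ξ ξ' v)) ∈
        Inv [pairingRed r ξ ξ' t, fun v => (v.1, v.2 + 1)] := by
    intro f hf
    have f1 : ∀ v, f (r v) = f v := hf _ (by simp)
    have f2 : ∀ v : X × F2, f (v.1, v.2 + 1) = f v :=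
      hf (fun v => (v.1, v.2 + 1)) (by simp)
    have f3 : f (ξ, t + 1) = f (ξ', t + 1) := by
      have e1 := f2 (ξ, t)
      have e2 := f2 (ξ', t)
      have e3 := f1 (ξ, t)
      simp only at e1 e2
      rw [h] at e3
      rw [e1, e2, e3]
    intro g hg v
    simp only [List.mem_cons, List.not_mem_nil, or_false] at hg
    rcases hg with rfl | rfl
    · exact pairing_res hr hne h f1 f3 v
    · exact f2 (pairingInc ξ ξ' v)
  have hext : ∀ f' ∈ Inv [pairingRed r ξ ξ' t, fun v => (v.1, v.2 + 1)], ∀ c1 : F2,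
      ∃ f ∈ Inv [r, fun v => (v.1, v.2 + 1)],
        (∀ v, f (pairingInc ξ ξ' v) = f' v) ∧
        (r (ξ, t + 1) = (ξ', t + 1) → f (ξ, t + 1) = c1) := by
    intro f' hf' c1
    have f1 : ∀ v, f' (pairingRed r ξ ξ' t v) = f' v := hf' _ (by simp)
    have f2 : ∀ v : PairingRem ξ ξ' × F2, f' (v.1, v.2 + 1) = f' v :=
      hf' (fun v => (v.1, v.2 + 1)) (by simp)
    obtain ⟨A, hA, hg⟩ := pairing_ext hr hne h f' f1 c1
    obtain ⟨g, g1, g2, g3, g4, g5, g6⟩ := hg A
    refine ⟨g, ?_, g2, fun h1 => by rw [g3, hA h1]⟩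
    intro q hq v
    simp only [List.mem_cons, List.not_mem_nil, or_false] at hq
    rcases hq with rfl | rfl
    · exact g1 v
    · rcases pairing_cases ξ ξ' t v with ⟨w, rfl⟩ | rfl | rfl | rfl | rfl
      · show g (pairingInc ξ ξ' (w.1, w.2 + 1)) = _
        rw [g2, g2, f2]
      · show g (ξ, t + 1) = _
        rw [g5, g3]
      · show g (ξ', t + 1) = _
        rw [g6, g4]
      · show g (ξ, t + 1 + 1) = _
        rw [two, g5, g3]
      · show g (ξ', t + 1 + 1) = _
        rw [two, g6, g4]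
  have hinj : ∀ f ∈ Inv [r, fun v => (v.1, v.2 + 1)],
      (∀ v, f (pairingInc ξ ξ' v) = 0) →
      (r (ξ, t + 1) = (ξ', t + 1) → f (ξ, t + 1) = 0) → f = 0 := by
    intro f hf h0 h2
    have f1 : ∀ v, f (r v) = f v := hf _ (by simp)
    have f2 : ∀ v : X × F2, f (v.1, v.2 + 1) = f v :=
      hf (fun v => (v.1, v.2 + 1)) (by simp)
    have f4 : f (ξ, t + 1) = 0 := by
      rcases pairing_ra hr h with ⟨w, hw⟩ | hb
      · rw [← f1, hw, h0]
      · exact h2 hb
    have f5 : f (ξ, t) = 0 := by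
      have := f2 (ξ, t)
      simp only at this
      rw [← this, f4]
    have f6 : f (ξ', t) = 0 := by
      rw [← h, f1, f5]
    have f7 : f (ξ', t + 1) = 0 := by
      have := f2 (ξ', t)
      simp only at this
      rw [this, f6]
    funext v
    rcases pairing_cases ξ ξ' t v with ⟨w, rfl⟩ | rfl | rfl | rfl | rfl
    · exact h0 w
    · exact f5
    · exact f6
    · exact f4
    · exact f7
  by_cases hb : r (ξ, t + 1) = (ξ', t + 1)
  · have hD : pairingD r ξ ξ' t = 1 := by unfold pairingD; rw [if_pos hb]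
    rw [hD]
    refine pairing_orb_add (pairingInc ξ ξ') 1 ![(ξ, t + 1)] hres ?_ ?_
    · intro f' hf' c
      obtain ⟨f, h1, h2, h4⟩ := hext f' hf' (c 0)
      refine ⟨f, h1, h2, fun i => ?_⟩
      fin_cases i
      exact h4 hb
    · intro f hf h0 h1
      exact hinj f hf h0 (fun _ => h1 0)
  · have hD : pairingD r ξ ξ' t = 0 := by unfold pairingD; rw [if_neg hb]
    rw [hD]
    refine pairing_orb_add (pairingInc ξ ξ') 0 Fin.elim0 hres ?_ ?_
    · intro f' hf' c
      obtain ⟨f, h1, h2, h4⟩ := hext f' hf' 0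
      exact ⟨f, h1, h2, fun i => i.elim0⟩
    · intro f hf h0 h1
      exact hinj f hf h0 (fun hb' => absurd hb' hb)

end Join

/-- A bigon. -/
theorem exists_bigon {X : Type} [Finite X] [Nonempty X] {r u : X × F2 → X × F2} (hr : FPF r)
    (hu : FPF u) (h : ArrEx r u) :
    ∃ ξ ξ' s t, ξ ≠ ξ' ∧ r (ξ, t) = (ξ', t) ∧ u (ξ, s) = (ξ', s) := by
  classical
  have : Fintype X := Fintype.ofFinite X
  let R : X × F2 × F2 → X × F2 × F2 := fun q =>
    ((r (q.1, q.2.2)).1, q.2.1, (r (q.1, q.2.2)).2)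
  let U : X × F2 × F2 → X × F2 × F2 := fun q =>
    ((u (q.1, q.2.1)).1, (u (q.1, q.2.1)).2, q.2.2)
  have hR : FPF R := by
    constructor
    · rintro ⟨x, s, i⟩
      simp only [R, Prod.mk.eta, hr.inv]
    · rintro ⟨x, s, i⟩ he
      simp only [R, Prod.mk.injEq] at he
      exact hr.ne (x, i) (Prod.ext he.1 he.2.2)
  have hU : FPF U := by
    constructor
    · rintro ⟨x, s, i⟩
      simp only [U, Prod.mk.eta, hu.inv]
    · rintro ⟨x, s, i⟩ he
      simp only [U, Prod.mk.injEq] at he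
      exact hu.ne (x, s) (Prod.ext he.1 he.2.1)
  by_cases hRU : ∃ q, R q = U q
  · obtain ⟨⟨x, s, t⟩, hq⟩ := hRU
    simp only [R, U, Prod.mk.injEq] at hq
    obtain ⟨h1, h2, h3⟩ := hq
    refine ⟨x, (r (x, t)).1, s, t, ?_, ?_, ?_⟩
    · intro he
      exact hr.ne (x, t) (Prod.ext he.symm h3)
    · exact Prod.ext rfl h3
    · exact Prod.ext h1.symm h2.symm
  exfalso
  have hcard := orb_pair_le hR hU (fun v hv => hRU ⟨v, hv⟩)
  have hc1 : Fintype.card (X × F2 × F2) = 4 * Fintype.card X := by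
    simp only [Fintype.card_prod, ZMod.card]
    ring
  rw [hc1] at hcard
  -- the space of even pairs
  let ev : (Inv [r] × Inv [u]) →ₗ[F2] (X → F2) :=
    { toFun := fun g x => g.1.1 (x, 0) + g.1.1 (x, 1) + g.2.1 (x, 0) + g.2.1 (x, 1)
      map_add' := fun f g => by
        funext x
        show (f.1.1 (x, 0) + g.1.1 (x, 0)) + (f.1.1 (x, 1) + g.1.1 (x, 1)) +
          (f.2.1 (x, 0) + g.2.1 (x, 0)) + (f.2.1 (x, 1) + g.2.1 (x, 1)) =
          (f.1.1 (x, 0) + f.1.1 (x, 1) + f.2.1 (x, 0) + f.2.1 (x, 1)) +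
          (g.1.1 (x, 0) + g.1.1 (x, 1) + g.2.1 (x, 0) + g.2.1 (x, 1))
        ring
      map_smul' := fun a f => by
        funext x
        show (a * f.1.1 (x, 0)) + (a * f.1.1 (x, 1)) +
          (a * f.2.1 (x, 0)) + (a * f.2.1 (x, 1)) =
          a * (f.1.1 (x, 0) + f.1.1 (x, 1) + f.2.1 (x, 0) + f.2.1 (x, 1))
        ring }
  have e1 := LinearMap.finrank_range_add_finrank_ker ev
  have e2 : Module.finrank F2 (LinearMap.range ev) ≤ Fintype.card X := by
    calc Module.finrank F2 (LinearMap.range ev) ≤ Module.finrank F2 (X → F2) :=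
          Submodule.finrank_le _
      _ = Fintype.card X := Module.finrank_fintype_fun_eq_card F2
  have e3 : Module.finrank F2 (Inv [r] × Inv [u]) = 2 * Fintype.card X := by
    rw [Module.finrank_prod]
    have h1 := orb_single hr
    have h2 := orb_single hu
    simp only [Fintype.card_prod, ZMod.card] at h1 h2
    unfold orb at h1 h2
    omega
  -- the boundary map
  let Th : Inv [R, U] →ₗ[F2] ((X × F2 → F2) × (X × F2 → F2)) :=
    { toFun := fun G => (fun v => G.1 (v.1, 0, v.2) + G.1 (v.1, 1, v.2),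
        fun v => G.1 (v.1, v.2, 0) + G.1 (v.1, v.2, 1))
      map_add' := fun f g => by
        refine Prod.ext ?_ ?_
        · funext v
          show (f.1 (v.1, 0, v.2) + g.1 (v.1, 0, v.2)) + (f.1 (v.1, 1, v.2) + g.1 (v.1, 1, v.2)) =
            (f.1 (v.1, 0, v.2) + f.1 (v.1, 1, v.2)) + (g.1 (v.1, 0, v.2) + g.1 (v.1, 1, v.2))
          ring
        · funext v
          show (f.1 (v.1, v.2, 0) + g.1 (v.1, v.2, 0)) + (f.1 (v.1, v.2, 1) + g.1 (v.1, v.2, 1)) =
            (f.1 (v.1, v.2, 0) + f.1 (v.1, v.2, 1)) + (g.1 (v.1, v.2, 0) + g.1 (v.1, v.2, 1))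
          ring
      map_smul' := fun a f => by
        refine Prod.ext ?_ ?_
        · funext v
          show (a * f.1 (v.1, 0, v.2)) + (a * f.1 (v.1, 1, v.2)) =
            a * (f.1 (v.1, 0, v.2) + f.1 (v.1, 1, v.2))
          ring
        · funext v
          show (a * f.1 (v.1, v.2, 0)) + (a * f.1 (v.1, v.2, 1)) =
            a * (f.1 (v.1, v.2, 0) + f.1 (v.1, v.2, 1))
          ring }
  have e4 := LinearMap.finrank_range_add_finrank_ker Th
  have e5 : 1 ≤ Module.finrank F2 (LinearMap.ker Th) := by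
    have two : (1 + 1 : F2) = 0 := by decide
    have hmem : (⟨fun _ => (1 : F2), fun f _ x => rfl⟩ : Inv [R, U]) ∈ LinearMap.ker Th := by
      rw [LinearMap.mem_ker]
      refine Prod.ext ?_ ?_
      · funext v; exact two
      · funext v; exact two
    have : Nontrivial (LinearMap.ker Th) := by
      refine ⟨⟨⟨_, hmem⟩, 0, ?_⟩⟩
      intro he
      obtain ⟨x⟩ := (inferInstance : Nonempty X)
      have h1 := congrArg (fun z => z.1.1 (x, 0, 0)) he
      have h2 : (1 : F2) = 0 := h1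
      exact one_ne_zero h2
    exact Module.finrank_pos
  let io : LinearMap.ker ev →ₗ[F2] ((X × F2 → F2) × (X × F2 → F2)) :=
    { toFun := fun g => (g.1.1.1, g.1.2.1)
      map_add' := fun f g => rfl
      map_smul' := fun a f => rfl }
  have hio : Function.Injective io := by
    rw [injective_iff_map_eq_zero]
    intro g hg
    have h1 : g.1.1.1 = 0 := congrArg Prod.fst hg
    have h2 : g.1.2.1 = 0 := congrArg Prod.snd hg
    exact Subtype.ext (Prod.ext (Subtype.ext h1) (Subtype.ext h2))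
  have hle : LinearMap.range io ≤ LinearMap.range Th := by
    rintro _ ⟨g, rfl⟩
    have g1 : ∀ v, g.1.1.1 (r v) = g.1.1.1 v := g.1.1.2 r (by simp)
    have g2 : ∀ v, g.1.2.1 (u v) = g.1.2.1 v := g.1.2.2 u (by simp)
    have g3 : ∀ x, g.1.1.1 (x, 0) + g.1.1.1 (x, 1) + g.1.2.1 (x, 0) + g.1.2.1 (x, 1) = 0 := by
      intro x
      have := LinearMap.mem_ker.1 g.2
      exact congrFun this x
    obtain ⟨G, h1, h2, h3, h4⟩ := h g.1.1.1 g.1.2.1 g1 g2 g3
    refine ⟨⟨fun q => G q.1 q.2.1 q.2.2, ?_⟩, ?_⟩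
    · intro f hf q
      simp only [List.mem_cons, List.not_mem_nil, or_false] at hf
      rcases hf with rfl | rfl
      · exact h1 q.1 q.2.1 q.2.2
      · exact h2 q.1 q.2.1 q.2.2
    · refine Prod.ext ?_ ?_
      · funext v; exact h3 v.1 v.2
      · funext v; exact h4 v.1 v.2
  have e6 : Module.finrank F2 (LinearMap.ker ev) ≤ Module.finrank F2 (LinearMap.range Th) := by
    rw [← LinearMap.finrank_range_of_inj hio]
    exact Submodule.finrank_mono hle
  have e7 : Module.finrank F2 (Inv [R, U]) = orb [R, U] := rfl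
  have hX : 0 < Fintype.card X := Fintype.card_pos
  omega

theorem pairing_card_rem {X : Type} [Fintype X] {ξ ξ' : X} (hne : ξ ≠ ξ')
    [Fintype (PairingRem ξ ξ')] : Fintype.card (PairingRem ξ ξ') + 2 = Fintype.card X := by
  classical
  have h1 : Fintype.card (PairingRem ξ ξ') =
      (Finset.univ.filter (fun x : X => x ≠ ξ ∧ x ≠ ξ')).card := Fintype.card_subtype _
  have h2 : (Finset.univ.filter (fun x : X => x ≠ ξ ∧ x ≠ ξ')) = ({ξ, ξ'} : Finset X)ᶜ := by
    ext x
    simp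
  have h3 := Finset.card_add_card_compl ({ξ, ξ'} : Finset X)
  rw [Finset.card_pair hne] at h3
  rw [h1, h2]
  omega

theorem pairing_aux (n : ℕ) : ∀ {X : Type} [Fintype X] {r u : X × F2 → X × F2}, FPF r → FPF u →
    ArrEx r u → Fintype.card X ≤ n →
    ∃ p : X → X, FPF p ∧
      2 * orb [r, fun v => (p v.1, v.2)] = 2 * orb [r, fun v => (v.1, v.2 + 1)] + Fintype.card X ∧
      2 * orb [u, fun v => (p v.1, v.2)] =
        2 * orb [u, fun v => (v.1, v.2 + 1)] + Fintype.card X := by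
  classical
  induction n with
  | zero =>
    intro X _ r u hr hu h hn
    have hX : Fintype.card X = 0 := by omega
    have : IsEmpty X := Fintype.card_eq_zero_iff.1 hX
    have h0 : ∀ s : List (X × F2 → X × F2), orb s = 0 := by
      intro s
      have := orb_le_card s
      rw [Fintype.card_prod, hX, zero_mul] at this
      omega
    refine ⟨id, ⟨fun x => isEmptyElim x, fun x => isEmptyElim x⟩, ?_, ?_⟩
    · rw [h0, h0, hX]
    · rw [h0, h0, hX]
  | succ n ih =>
    intro X _ r u hr hu h hn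
    by_cases hX : IsEmpty X
    · have hX0 : Fintype.card X = 0 := Fintype.card_eq_zero_iff.2 hX
      have h0 : ∀ s : List (X × F2 → X × F2), orb s = 0 := by
        intro s
        have := orb_le_card s
        rw [Fintype.card_prod, hX0, zero_mul] at this
        omega
      refine ⟨id, ⟨fun x => isEmptyElim x, fun x => isEmptyElim x⟩, ?_, ?_⟩
      · rw [h0, h0, hX0]
      · rw [h0, h0, hX0]
    · have : Nonempty X := not_isEmpty_iff.1 hX
      obtain ⟨ξ, ξ', s, t, hne, hrt, hus⟩ := exists_bigon hr hu h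
      have hcard := pairing_card_rem hne
      obtain ⟨p, hp, h1, h2⟩ := ih (X := PairingRem ξ ξ') (pairingRed_fpf hr hne hrt)
        (pairingRed_fpf hu hne hus) (pairing_arrEx hr hu h hne hrt hus) (by omega)
      refine ⟨pairingP ξ ξ' p, pairingP_fpf hne hp, ?_, ?_⟩
      · rw [pairing_countA hr hne hrt p, pairing_countB hr hne hrt]
        omega
      · rw [pairing_countA hu hne hus p, pairing_countB hu hne hus]
        omega

/-- **The pairing lemma.** -/
theorem exists_pairing {X : Type} [Fintype X] {r u : X × F2 → X × F2} (hr : FPF r) (hu : FPF u)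
    (h : ArrEx r u) :
    ∃ p : X → X, FPF p ∧
      2 * orb [r, fun v => (p v.1, v.2)] = 2 * orb [r, fun v => (v.1, v.2 + 1)] + Fintype.card X ∧
      2 * orb [u, fun v => (p v.1, v.2)] = 2 * orb [u, fun v => (v.1, v.2 + 1)] + Fintype.card X :=
  pairing_aux (Fintype.card X) hr hu h le_rfl

end Pool.Agent.Lib.MP_131179_gt.Dehn
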