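import Pool.Agent.Lib.MP_131179_gt.Dehn.L3
import Pool.Agent.Lib.MP_131179_gt.Dehn.Grp

/-!
# The group of a lattice link
-/

set_option autoImplicit false

namespace Pool.Agent.Lib.MP_131179_gt.Dehn

/-- The label of an edge of the lattice, given by the labels `gx` and `gy` of the edges in the directions
`0` and `1`; the edges in the direction `2` have trivial labels. -/
def lel {Γ : Type} [Group Γ] (gx gy : P3 → Γ) (v : P3) (d : Dir) : Γ :=
  if d.1 = 0 then (if d.2 then gx v else (gx (v - e3 0))⁻¹)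
  else if d.1 = 1 then (if d.2 then gy v else (gy (v - e3 1))⁻¹)
  else 1

/-- The relations between the labels of the edges. -/
structure PiRel {Γ : Type} [Group Γ] (K : Finset LE) (gx gy : P3 → Γ) : Prop where
  front : ∃ Z0 : ℤ, ∀ p : P3, Z0 ≤ p.2.2 → gx p = 1 ∧ gy p = 1
  sqY : ∀ p, (p + e3 0 + e3 2, (1 : Fin 3)) ∉ K → gx (p + e3 2) = gx p
  sqX : ∀ p, (p + e3 1 + e3 2, (0 : Fin 3)) ∉ K → gy (p + e3 2) = gy p
  sqZ : ∀ p, (p + e3 0 + e3 1, (2 : Fin 3)) ∉ K →
    gx p * gy (p + e3 0) = gy p * gx (p + e3 1)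

section conn

variable {K : Finset LE}

/-- The flags of the complex. -/
abbrev Pi1FL (K : Finset LE) : Type := {x : LF // ¬ pc K x}

/-- Two flags are connected by a walk around a vertex. -/
def pi1VC (y y' : Pi1FL K) : Prop :=
  ∃ w : List Gen, Gen.a ∉ w ∧ (EK K).act (EK K).isSub_top w y = y'

theorem pi1VC_refl (y : Pi1FL K) : pi1VC y y := ⟨[], by simp, rfl⟩

theorem pi1VC_symm {y y' : Pi1FL K} (h : pi1VC y y') : pi1VC y' y := by
  obtain ⟨w, hw, rfl⟩ := h
  exact ⟨w.reverse, by simpa using hw, TMap.act_reverse w y⟩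

theorem pi1VC_trans {y y' y'' : Pi1FL K} (h : pi1VC y y') (h' : pi1VC y' y'') : pi1VC y y'' := by
  obtain ⟨w, hw, rfl⟩ := h
  obtain ⟨w', hw', rfl⟩ := h'
  refine ⟨w ++ w', ?_, TMap.act_append w w' y⟩
  simp only [List.mem_append, not_or]
  exact ⟨hw, hw'⟩

theorem pi1VC_b (y : Pi1FL K) : pi1VC y ((EK K).b y) := ⟨[.b], by simp, rfl⟩

theorem pi1VC_CD {y y' : Pi1FL K} (h : (EK K).CD y y') : pi1VC y y' := by
  unfold TMap.CD SameOrb at h
  induction h with
  | rel x y h =>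
      obtain ⟨f, hf, rfl⟩ := h
      simp only [List.mem_cons, List.not_mem_nil, or_false] at hf
      rcases hf with rfl | rfl
      · exact ⟨[.c], by simp, rfl⟩
      · exact ⟨[.e], by simp, TMap.ret_top (EK K) x⟩
  | refl x => exact pi1VC_refl x
  | symm x y _ ih => exact pi1VC_symm ih
  | trans x y z _ _ ih ih' => exact pi1VC_trans ih ih'

theorem pi1_height (x : LF) : x.1.2.1 ≤ (upc x).2.1 ∧ (upc x).2.1 ≤ x.1.2.1 + 1 := by
  obtain ⟨v, ⟨⟨⟨i, s⟩, ⟨j, t⟩, ⟨k, r⟩⟩, h1, h2, h3⟩⟩ := x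
  simp only at h1 h2 h3
  unfold upc pv d1 d2
  simp only
  fin_cases i <;> fin_cases j <;> cases s <;> cases t <;>
    simp_all [e3]

/-- At most one vertical square at a vertex is pierced. -/
theorem pi1_one (hK : OneH K) {x x' : LF} (hv : x.1 = x'.1) (h3 : (d3 x).1 ≠ 1)
    (h3' : (d3 x').1 ≠ 1) (hx : pc K x) (hx' : pc K x') : upc x = upc x' := by
  have h := hK (upc x) (upc x') (d3 x).1 (d3 x').1 h3 h3' hx hx' (by
    have a1 := pi1_height x
    have a2 := pi1_height x'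
    rw [hv] at a1
    rw [abs_le]
    constructor <;> linarith [a1.1, a1.2, a2.1, a2.2])
  exact h.1

/-- Vertical frames with the direction `0`. -/
def pi1F0 (s t : Bool) : Frm := ⟨((1, s), (0, t), (2, true)), by decide +revert⟩

/-- Vertical frames with the direction `2`. -/
def pi1F2 (s t : Bool) : Frm := ⟨((1, s), (2, t), (0, true)), by decide +revert⟩

theorem pi1_F0 (hK : OneH K) (v : P3) (s s' : Bool) (h : pc K (v, pi1F0 s true)) :
    ¬ pc K (v, pi1F0 s' false) := by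
  intro h'
  have h1 := pi1_one hK (x := (v, pi1F0 s true)) (x' := (v, pi1F0 s' false)) rfl
    (by simp [d3, pi1F0]) (by simp [d3, pi1F0]) h h'
  have h2 := congrArg Prod.fst h1
  cases s <;> cases s' <;> simp [upc, d1, d2, pi1F0, pv, e3] at h2

theorem pi1_F0' (hK : OneH K) (v : P3) (t t' : Bool) (h : pc K (v, pi1F0 true t)) :
    ¬ pc K (v, pi1F0 false t') := by
  intro h'
  have h1 := pi1_one hK (x := (v, pi1F0 true t)) (x' := (v, pi1F0 false t')) rfl
    (by simp [d3, pi1F0]) (by simp [d3, pi1F0]) h h'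
  have h2 := congrArg (fun q : P3 => q.2.1) h1
  cases t <;> cases t' <;> simp [upc, d1, d2, pi1F0, pv, e3] at h2

theorem pi1_F2' (hK : OneH K) (v : P3) (t t' : Bool) (h : pc K (v, pi1F2 true t)) :
    ¬ pc K (v, pi1F2 false t') := by
  intro h'
  have h1 := pi1_one hK (x := (v, pi1F2 true t)) (x' := (v, pi1F2 false t')) rfl
    (by simp [d3, pi1F2]) (by simp [d3, pi1F2]) h h'
  have h2 := congrArg (fun q : P3 => q.2.1) h1
  cases t <;> cases t' <;> simp [upc, d1, d2, pi1F2, pv, e3] at h2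

/-- The flags at the vertex `v` with the first directions `δ` and `δ'` are connected. -/
def pi1R (K : Finset LE) (v : P3) (δ δ' : Dir) : Prop :=
  ∀ y y' : Pi1FL K, y.1.1 = v → d1 y.1 = δ → y'.1.1 = v → d1 y'.1 = δ' → pi1VC y y'

theorem pi1_R_refl (v : P3) (δ : Dir) : pi1R K v δ δ := fun y y' h1 h2 h3 h4 =>
  pi1VC_CD (EK_CD.2 ⟨h1.trans h3.symm, h2.trans h4.symm⟩)

theorem pi1_R_symm {v : P3} {δ δ' : Dir} (h : pi1R K v δ δ') : pi1R K v δ' δ :=
  fun y y' h1 h2 h3 h4 => pi1VC_symm (h y' y h3 h4 h1 h2)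

theorem pi1_R_trans {v : P3} {δ δ' δ'' : Dir} (hne : ∃ y : Pi1FL K, y.1.1 = v ∧ d1 y.1 = δ')
    (h : pi1R K v δ δ') (h' : pi1R K v δ' δ'') : pi1R K v δ δ'' := by
  obtain ⟨z, hz1, hz2⟩ := hne
  exact fun y y' h1 h2 h3 h4 => pi1VC_trans (h y z h1 h2 hz1 hz2) (h' z y' hz1 hz2 h3 h4)

theorem pi1_R_of {x : LF} (hx : ¬ pc K x) : pi1R K x.1 (d1 x) (d2 x) := by
  intro y y' h1 h2 h3 h4
  have e1 : pi1VC y ⟨x, hx⟩ := pi1VC_CD (EK_CD.2 ⟨h1, h2⟩)
  have e2 : pi1VC ((EK K).b ⟨x, hx⟩) y' := by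
    apply pi1VC_CD
    rw [EK_CD, EK_b]
    exact ⟨h3.symm, h4.symm⟩
  exact pi1VC_trans e1 (pi1VC_trans (pi1VC_b _) e2)

theorem pi1_R_y (hK : OneH K) (v : P3) : pi1R K v (1, true) (1, false) := by
  by_cases h : pc K (v, pi1F0 true true) ∨ pc K (v, pi1F0 false true)
  · have h1 : ¬ pc K (v, pi1F0 true false) := by
      rcases h with h | h
      · exact pi1_F0 hK v _ _ h
      · exact pi1_F0 hK v _ _ h
    have h2 : ¬ pc K (v, pi1F0 false false) := by
      rcases h with h | h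
      · exact pi1_F0 hK v _ _ h
      · exact pi1_F0 hK v _ _ h
    have r1 : pi1R K v (1, true) (0, false) := pi1_R_of h1
    have r2 : pi1R K v (1, false) (0, false) := pi1_R_of h2
    refine pi1_R_trans ⟨(EK K).b ⟨_, h1⟩, ?_⟩ r1 (pi1_R_symm r2)
    rw [EK_b]
    exact ⟨rfl, rfl⟩
  · rw [not_or] at h
    have r1 : pi1R K v (1, true) (0, true) := pi1_R_of h.1
    have r2 : pi1R K v (1, false) (0, true) := pi1_R_of h.2
    refine pi1_R_trans ⟨(EK K).b ⟨_, h.1⟩, ?_⟩ r1 (pi1_R_symm r2)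
    rw [EK_b]
    exact ⟨rfl, rfl⟩

theorem pi1_ne_y (hK : OneH K) (v : P3) (s : Bool) :
    ∃ y : Pi1FL K, y.1.1 = v ∧ d1 y.1 = (1, s) := by
  by_cases h : pc K (v, pi1F0 s true)
  · exact ⟨⟨_, pi1_F0 hK v _ s h⟩, rfl, rfl⟩
  · exact ⟨⟨_, h⟩, rfl, rfl⟩

theorem pi1_ne (hK : OneH K) (v : P3) (δ : Dir) : ∃ y : Pi1FL K, y.1.1 = v ∧ d1 y.1 = δ := by
  obtain ⟨i, t⟩ := δ
  fin_cases i
  · by_cases h : pc K (v, pi1F0 true t)
    · refine ⟨(EK K).b ⟨_, pi1_F0' hK v _ t h⟩, ?_⟩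
      rw [EK_b]
      exact ⟨rfl, rfl⟩
    · refine ⟨(EK K).b ⟨_, h⟩, ?_⟩
      rw [EK_b]
      exact ⟨rfl, rfl⟩
  · exact pi1_ne_y hK v t
  · by_cases h : pc K (v, pi1F2 true t)
    · refine ⟨(EK K).b ⟨_, pi1_F2' hK v _ t h⟩, ?_⟩
      rw [EK_b]
      exact ⟨rfl, rfl⟩
    · refine ⟨(EK K).b ⟨_, h⟩, ?_⟩
      rw [EK_b]
      exact ⟨rfl, rfl⟩

theorem pi1_R_all (hK : OneH K) (v : P3) (δ : Dir) : pi1R K v (1, true) δ := by
  obtain ⟨i, t⟩ := δ
  fin_cases i
  · by_cases h : pc K (v, pi1F0 true t)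
    · have r : pi1R K v (1, false) (0, t) := pi1_R_of (pi1_F0' hK v _ t h)
      exact pi1_R_trans (pi1_ne hK v _) (pi1_R_y hK v) r
    · have r : pi1R K v (1, true) (0, t) := pi1_R_of h
      exact r
  · cases t
    · exact pi1_R_y hK v
    · exact pi1_R_refl v _
  · by_cases h : pc K (v, pi1F2 true t)
    · have r : pi1R K v (1, false) (2, t) := pi1_R_of (pi1_F2' hK v _ t h)
      exact pi1_R_trans (pi1_ne hK v _) (pi1_R_y hK v) r
    · have r : pi1R K v (1, true) (2, t) := pi1_R_of h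
      exact r

/-- All flags at a vertex are connected. -/
theorem pi1_conn (hK : OneH K) {y y' : Pi1FL K} (h : y.1.1 = y'.1.1) : pi1VC y y' := by
  obtain ⟨z, hz1, hz2⟩ := pi1_ne hK y.1.1 (1, true)
  exact pi1VC_trans (pi1VC_symm (pi1_R_all hK y.1.1 _ z y hz1 hz2 rfl rfl))
    (pi1_R_all hK y.1.1 _ z y' hz1 hz2 h.symm rfl)

end conn

section tree

variable {K : Finset LE} (hK : OneH K)

/-- A flag at every end of an edge. -/
noncomputable def pi1fl (v : P3) (δ : Dir) : Pi1FL K := (pi1_ne hK v δ).choose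

theorem pi1fl_v (v : P3) (δ : Dir) : (pi1fl hK v δ).1.1 = v := (pi1_ne hK v δ).choose_spec.1

theorem pi1fl_d (v : P3) (δ : Dir) : d1 (pi1fl hK v δ).1 = δ := (pi1_ne hK v δ).choose_spec.2

/-- The flag of a vertex. -/
noncomputable def pi1ρ (v : P3) : Pi1FL K := pi1fl hK v (1, true)

theorem pi1ρ_v (v : P3) : (pi1ρ hK v).1.1 = v := pi1fl_v hK v _

open Classical in
/-- A walk around a vertex. -/
noncomputable def pi1w (y y' : Pi1FL K) : List Gen := if h : pi1VC y y' then h.choose else []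

theorem pi1w_a (y y' : Pi1FL K) : Gen.a ∉ pi1w y y' := by
  unfold pi1w
  split_ifs with h
  · exact h.choose_spec.1
  · simp

include hK in
theorem pi1w_act {y y' : Pi1FL K} (h : y.1.1 = y'.1.1) :
    (EK K).act (EK K).isSub_top (pi1w y y') y = y' := by
  unfold pi1w
  rw [dif_pos (pi1_conn hK h)]
  exact (pi1_conn hK h).choose_spec.2

/-- The walk from the flag of `v` along an edge. -/
noncomputable def pi1S (v : P3) (δ : Dir) : List Gen :=
  pi1w (pi1ρ hK v) (pi1fl hK v δ) ++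
    (Gen.a :: pi1w ((EK K).a (pi1fl hK v δ)) (pi1ρ hK (v + dv δ)))

theorem pi1_a_v (v : P3) (δ : Dir) : ((EK K).a (pi1fl hK v δ)).1.1 = v + dv δ := by
  rw [EK_a]
  show (pi1fl hK v δ).1.1 + dv (d1 (pi1fl hK v δ).1) = _
  rw [pi1fl_v, pi1fl_d]

theorem pi1_a_d (v : P3) (δ : Dir) : d1 ((EK K).a (pi1fl hK v δ)).1 = δ.neg := by
  rw [EK_a]
  show (d1 (pi1fl hK v δ).1).neg = _
  rw [pi1fl_d]

theorem pi1S_act (v : P3) (δ : Dir) :
    (EK K).act (EK K).isSub_top (pi1S hK v δ) (pi1ρ hK v) = pi1ρ hK (v + dv δ) := by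
  unfold pi1S
  rw [TMap.act_append, pi1w_act hK (by rw [pi1ρ_v, pi1fl_v])]
  show (EK K).act (EK K).isSub_top _ ((EK K).a (pi1fl hK v δ)) = _
  exact pi1w_act hK (by rw [pi1_a_v, pi1ρ_v])

/-- Walking `n` steps in the direction `δ`. -/
noncomputable def pi1go (u : P3) (δ : Dir) (W : List Gen) : ℕ → List Gen
  | 0 => W
  | n + 1 => pi1go u δ W n ++ pi1S hK (u + (n : ℤ) • dv δ) δ

/-- Walking `t` steps in the direction of an axis. -/
noncomputable def pi1ext (u : P3) (i : Fin 3) (W : List Gen) (t : ℤ) : List Gen :=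
  if 0 ≤ t then pi1go hK u (i, true) W t.toNat else pi1go hK u (i, false) W (-t).toNat

theorem pi1ext_zero (u : P3) (i : Fin 3) (W : List Gen) : pi1ext hK u i W 0 = W := by
  unfold pi1ext
  simp [pi1go]

theorem pi1ext_pos (u : P3) (i : Fin 3) (W : List Gen) {t : ℤ} (ht : 0 ≤ t) :
    pi1ext hK u i W (t + 1) = pi1ext hK u i W t ++ pi1S hK (u + t • e3 i) (i, true) := by
  obtain ⟨n, rfl⟩ := Int.eq_ofNat_of_zero_le ht
  unfold pi1ext
  rw [if_pos (by omega), if_pos (by omega)]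
  have h1 : ((n : ℤ) + 1).toNat = n + 1 := by omega
  have h2 : (n : ℤ).toNat = n := by omega
  rw [h1, h2]
  rfl

theorem pi1ext_neg (u : P3) (i : Fin 3) (W : List Gen) {t : ℤ} (ht : t ≤ 0) :
    pi1ext hK u i W (t - 1) = pi1ext hK u i W t ++ pi1S hK (u + t • e3 i) (i, false) := by
  obtain ⟨n, hn⟩ := Int.eq_ofNat_of_zero_le (neg_nonneg.2 ht)
  have ht' : t = -(n : ℤ) := by omega
  subst ht'
  have h3 : pi1ext hK u i W (-(n : ℤ)) = pi1go hK u (i, false) W n := by
    unfold pi1ext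
    split_ifs with h
    · have h4 : n = 0 := by omega
      subst h4
      simp [pi1go]
    · have h4 : (- -(n : ℤ)).toNat = n := by omega
      rw [h4]
  rw [h3]
  unfold pi1ext
  rw [if_neg (by omega)]
  have h1 : (-(-(n : ℤ) - 1)).toNat = n + 1 := by omega
  rw [h1]
  show pi1go hK u (i, false) W n ++ pi1S hK (u + (n : ℤ) • dv (i, false)) (i, false) = _
  have h2 : (n : ℤ) • dv (i, false) = -(n : ℤ) • e3 i := by
    show (n : ℤ) • (-e3 i) = _
    rw [smul_neg, neg_smul]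
  rw [h2]

theorem pi1ext_act (x0 : Pi1FL K) (u : P3) (i : Fin 3) (W : List Gen) (t : ℤ)
    (hW : (EK K).act (EK K).isSub_top W x0 = pi1ρ hK u) :
    (EK K).act (EK K).isSub_top (pi1ext hK u i W t) x0 = pi1ρ hK (u + t • e3 i) := by
  induction t using Int.induction_on with
  | zero => rw [pi1ext_zero, zero_smul, add_zero, hW]
  | succ n ih =>
      rw [pi1ext_pos hK u i W (by omega), TMap.act_append, ih, pi1S_act]
      congr 1
      rw [add_smul, one_smul, add_assoc]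
      rfl
  | pred n ih =>
      rw [pi1ext_neg hK u i W (by omega), TMap.act_append, ih, pi1S_act]
      congr 1
      rw [sub_smul, one_smul, add_sub_assoc', sub_eq_add_neg]
      rfl

/-- The path from the base flag to the flag of the vertex `v`. -/
noncomputable def pi1P (Z0 : ℤ) (v : P3) : List Gen :=
  pi1ext hK (v.1, v.2.1, Z0) 2 (pi1ext hK (v.1, 0, Z0) 1 (pi1ext hK (0, 0, Z0) 0 [] v.1) v.2.1)
    (v.2.2 - Z0)

theorem pi1P_act (Z0 : ℤ) (v : P3) :
    (EK K).act (EK K).isSub_top (pi1P hK Z0 v) (pi1ρ hK (0, 0, Z0)) = pi1ρ hK v := by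
  obtain ⟨a, b, c⟩ := v
  unfold pi1P
  have h1 := pi1ext_act hK (pi1ρ hK (0, 0, Z0)) (0, 0, Z0) 0 [] a rfl
  have e1 : ((0, 0, Z0) : P3) + a • e3 0 = (a, 0, Z0) := by
    ext <;> simp [e3]
  rw [e1] at h1
  have h2 := pi1ext_act hK (pi1ρ hK (0, 0, Z0)) (a, 0, Z0) 1 _ b h1
  have e2 : ((a, 0, Z0) : P3) + b • e3 1 = (a, b, Z0) := by
    ext <;> simp [e3]
  rw [e2] at h2
  have h3 := pi1ext_act hK (pi1ρ hK (0, 0, Z0)) (a, b, Z0) 2 _ (c - Z0) h2
  have e3' : ((a, b, Z0) : P3) + (c - Z0) • e3 2 = (a, b, c) := by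
    ext <;> simp [e3]
  rw [e3'] at h3
  exact h3

/-- The edge in the direction `δ` at `v` belongs to the tree. -/
def pi1Tr (Z0 : ℤ) (v : P3) (δ : Dir) : Prop :=
  pi1P hK Z0 (v + dv δ) = pi1P hK Z0 v ++ pi1S hK v δ

theorem pi1Tr_z (Z0 : ℤ) (v : P3) :
    pi1Tr hK Z0 v (2, true) ∨ pi1Tr hK Z0 (v + e3 2) (2, false) := by
  obtain ⟨a, b, c⟩ := v
  rcases le_or_gt Z0 c with h | h
  · left
    unfold pi1Tr pi1P
    have e1 : ((a, b, c) : P3) + dv (2, true) = (a, b, c + 1) := by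
      ext <;> simp [e3, dv]
    rw [e1]
    simp only
    rw [show c + 1 - Z0 = (c - Z0) + 1 by ring, pi1ext_pos hK _ _ _ (by omega)]
    congr 2
    ext <;> simp [e3]
  · right
    unfold pi1Tr pi1P
    have e1 : ((a, b, c) : P3) + e3 2 = (a, b, c + 1) := by
      ext <;> simp [e3]
    rw [e1]
    have e2 : ((a, b, c + 1) : P3) + dv (2, false) = (a, b, c) := by
      ext <;> simp [e3, dv]
    rw [e2]
    simp only
    rw [show c - Z0 = (c + 1 - Z0) - 1 by ring, pi1ext_neg hK _ _ _ (by omega)]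
    congr 2
    ext <;> simp [e3]

theorem pi1Tr_y (Z0 a b : ℤ) :
    pi1Tr hK Z0 (a, b, Z0) (1, true) ∨ pi1Tr hK Z0 (a, b + 1, Z0) (1, false) := by
  rcases le_or_gt 0 b with h | h
  · left
    unfold pi1Tr pi1P
    have e1 : ((a, b, Z0) : P3) + dv (1, true) = (a, b + 1, Z0) := by
      ext <;> simp [e3, dv]
    rw [e1]
    simp only
    rw [sub_self, pi1ext_zero, pi1ext_zero, pi1ext_pos hK _ _ _ h]
    congr 2
    ext <;> simp [e3]
  · right
    unfold pi1Tr pi1P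
    have e2 : ((a, b + 1, Z0) : P3) + dv (1, false) = (a, b, Z0) := by
      ext <;> simp [e3, dv]
    rw [e2]
    simp only
    rw [sub_self, pi1ext_zero, pi1ext_zero]
    have h1 := pi1ext_neg hK (a, 0, Z0) 1 (pi1ext hK (0, 0, Z0) 0 [] a)
      (show b + 1 ≤ 0 by omega)
    rw [show b + 1 - 1 = b by ring] at h1
    rw [h1]
    congr 2
    ext <;> simp [e3]

theorem pi1Tr_x (Z0 a : ℤ) :
    pi1Tr hK Z0 (a, 0, Z0) (0, true) ∨ pi1Tr hK Z0 (a + 1, 0, Z0) (0, false) := by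
  rcases le_or_gt 0 a with h | h
  · left
    unfold pi1Tr pi1P
    have e1 : ((a, 0, Z0) : P3) + dv (0, true) = (a + 1, 0, Z0) := by
      ext <;> simp [e3, dv]
    rw [e1]
    simp only
    rw [sub_self, pi1ext_zero, pi1ext_zero, pi1ext_zero, pi1ext_zero, pi1ext_pos hK _ _ _ h]
    congr 2
    ext <;> simp [e3]
  · right
    unfold pi1Tr pi1P
    have e2 : ((a + 1, 0, Z0) : P3) + dv (0, false) = (a, 0, Z0) := by
      ext <;> simp [e3, dv]
    rw [e2]
    simp only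
    rw [sub_self, pi1ext_zero, pi1ext_zero, pi1ext_zero, pi1ext_zero]
    have h1 := pi1ext_neg hK (0, 0, Z0) 0 [] (show a + 1 ≤ 0 by omega)
    rw [show a + 1 - 1 = a by ring] at h1
    rw [h1]
    congr 2
    ext <;> simp [e3]

/-- The path to a flag. -/
noncomputable def pi1p (Z0 : ℤ) (y : Pi1FL K) : List Gen :=
  pi1P hK Z0 y.1.1 ++ pi1w (pi1ρ hK y.1.1) y

theorem pi1p_act (Z0 : ℤ) (y : Pi1FL K) :
    (EK K).act (EK K).isSub_top (pi1p hK Z0 y) (pi1ρ hK (0, 0, Z0)) = y := by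
  unfold pi1p
  rw [TMap.act_append, pi1P_act, pi1w_act hK (pi1ρ_v hK _)]

/-- Closed walks of the form `Q M Q⁻¹`, where `M` is a walk around a vertex. -/
theorem pi1_NH (x0 y : Pi1FL K) (Q M : List Gen)
    (hQ : (EK K).act (EK K).isSub_top Q x0 = y) (hM : Gen.a ∉ M)
    (hc : (EK K).act (EK K).isSub_top M y = y) : (EK K).NH x0 (Q ++ (M ++ Q.reverse)) := by
  apply TMap.NH.ins (TMap.NH.back Q x0)
  rw [hQ]
  exact TMap.NH.vert hM hc

theorem pi1_vertex (g : Gen) (hg : g ≠ .a) (y : Pi1FL K) :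
    ((EK K).gen (EK K).isSub_top g y).1.1 = y.1.1 := by
  cases g with
  | a => exact absurd rfl hg
  | b =>
      show ((EK K).b y).1.1 = y.1.1
      rw [EK_b]
      rfl
  | c =>
      show ((EK K).c y).1.1 = y.1.1
      rw [EK_c]
      rfl
  | e =>
      show (((EK K).fr (EK K).isSub_top).ret y).1.1 = y.1.1
      rw [TMap.ret_top]
      exact (EK_CD.1 (TMap.CD.d (EK K) y)).1.symm

theorem pi1p_vert (Z0 : ℤ) (y : Pi1FL K) (g : Gen) (hg : g ≠ .a) :
    (EK K).NH (pi1ρ hK (0, 0, Z0)) (pi1p hK Z0 y ++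
      g :: (pi1p hK Z0 ((EK K).gen (EK K).isSub_top g y)).reverse) := by
  have hv := pi1_vertex g hg y
  obtain ⟨z, hz⟩ : ∃ z, (EK K).gen (EK K).isSub_top g y = z := ⟨_, rfl⟩
  rw [hz] at hv ⊢
  unfold pi1p
  rw [hv]
  have e1 : (pi1P hK Z0 y.1.1 ++ pi1w (pi1ρ hK y.1.1) y) ++
      g :: (pi1P hK Z0 y.1.1 ++ pi1w (pi1ρ hK y.1.1) z).reverse =
      pi1P hK Z0 y.1.1 ++ ((pi1w (pi1ρ hK y.1.1) y ++ g :: (pi1w (pi1ρ hK y.1.1) z).reverse) ++
        (pi1P hK Z0 y.1.1).reverse) := by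
    simp [List.append_assoc]
  rw [e1]
  apply pi1_NH _ _ _ _ (pi1P_act hK Z0 y.1.1)
  · simp only [List.mem_append, List.mem_cons, List.mem_reverse, not_or]
    exact ⟨pi1w_a _ _, fun h => hg h.symm, pi1w_a _ _⟩
  · rw [TMap.act_append, pi1w_act hK (pi1ρ_v hK _)]
    show (EK K).act (EK K).isSub_top _ ((EK K).gen (EK K).isSub_top g y) = _
    rw [hz]
    have h1 : (EK K).act (EK K).isSub_top (pi1w (pi1ρ hK y.1.1) z) (pi1ρ hK y.1.1) = z :=
      pi1w_act hK (by rw [pi1ρ_v, hv])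
    have h2 := TMap.act_reverse (E := EK K) (pi1w (pi1ρ hK y.1.1) z) (pi1ρ hK y.1.1)
    rwa [h1] at h2

theorem pi1p_tree (Z0 : ℤ) (v : P3) (δ : Dir) (h : pi1Tr hK Z0 v δ) :
    (EK K).NH (pi1ρ hK (0, 0, Z0)) (pi1p hK Z0 (pi1fl hK v δ) ++
      Gen.a :: (pi1p hK Z0 ((EK K).a (pi1fl hK v δ))).reverse) := by
  unfold pi1Tr at h
  unfold pi1p
  rw [pi1_a_v, pi1fl_v, h]
  unfold pi1S
  obtain ⟨f, hf⟩ : ∃ f, pi1fl hK v δ = f := ⟨_, rfl⟩
  have hfv : f.1.1 = v := by rw [← hf, pi1fl_v]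
  have hav : ((EK K).a f).1.1 = v + dv δ := by rw [← hf, pi1_a_v]
  rw [hf]
  have e1 : (pi1P hK Z0 v ++ pi1w (pi1ρ hK v) f) ++
      Gen.a :: ((pi1P hK Z0 v ++ (pi1w (pi1ρ hK v) f ++
        Gen.a :: pi1w ((EK K).a f) (pi1ρ hK (v + dv δ)))) ++
        pi1w (pi1ρ hK (v + dv δ)) ((EK K).a f)).reverse =
      (pi1P hK Z0 v ++ (pi1w (pi1ρ hK v) f ++ [Gen.a])) ++
        (((pi1w (pi1ρ hK (v + dv δ)) ((EK K).a f)).reverse ++
          (pi1w ((EK K).a f) (pi1ρ hK (v + dv δ))).reverse) ++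
        (pi1P hK Z0 v ++ (pi1w (pi1ρ hK v) f ++ [Gen.a])).reverse) := by
    simp [List.append_assoc]
  rw [e1]
  apply pi1_NH _ ((EK K).a f)
  · rw [TMap.act_append, pi1P_act, TMap.act_append, pi1w_act hK (by rw [pi1ρ_v, hfv])]
    rfl
  · simp only [List.mem_append, List.mem_reverse, not_or]
    exact ⟨pi1w_a _ _, pi1w_a _ _⟩
  · have h1 : (EK K).act (EK K).isSub_top (pi1w (pi1ρ hK (v + dv δ)) ((EK K).a f))
        (pi1ρ hK (v + dv δ)) = (EK K).a f := pi1w_act hK (by rw [pi1ρ_v, hav])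
    have h2 := TMap.act_reverse (E := EK K) (pi1w (pi1ρ hK (v + dv δ)) ((EK K).a f))
      (pi1ρ hK (v + dv δ))
    rw [h1] at h2
    have h3 : (EK K).act (EK K).isSub_top (pi1w ((EK K).a f) (pi1ρ hK (v + dv δ)))
        ((EK K).a f) = pi1ρ hK (v + dv δ) := pi1w_act hK (by rw [pi1ρ_v, hav])
    have h4 := TMap.act_reverse (E := EK K) (pi1w ((EK K).a f) (pi1ρ hK (v + dv δ)))
      ((EK K).a f)
    rw [h3] at h4
    rw [TMap.act_append, h2, h4]

end tree

theorem pi1_bound (K : Finset LE) : ∃ Z0 : ℤ, ∀ p : P3, ∀ i : Fin 3, Z0 ≤ p.2.2 → (p, i) ∉ K := by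
  classical
  induction K using Finset.induction_on with
  | empty => exact ⟨0, fun p i _ => by simp⟩
  | insert e K _ ih =>
      obtain ⟨Z0, hZ⟩ := ih
      refine ⟨max Z0 (e.1.2.2 + 1), fun p i hp hmem => ?_⟩
      rw [Finset.mem_insert] at hmem
      rcases hmem with h | h
      · have h1 : p.2.2 = e.1.2.2 := by rw [← h]
        have h2 := le_max_right Z0 (e.1.2.2 + 1)
        omega
      · exact hZ p i (le_trans (le_max_left _ _) hp) h

/-- Labels which are equal along a direction of the integers. -/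
theorem pi1_const {Γ : Type} {f : ℤ → Γ} {c : Γ} (h0 : f 0 = c) (h : ∀ t, f (t + 1) = f t) (t : ℤ) :
    f t = c := by
  induction t using Int.induction_on with
  | zero => exact h0
  | succ n ih => rw [h, ih]
  | pred n ih =>
      have h1 := h (-(n : ℤ) - 1)
      rw [show -(n : ℤ) - 1 + 1 = -(n : ℤ) by ring] at h1
      rw [← h1, ih]

/-- **The group of a lattice link.** -/
theorem exists_piRel {K : Finset LE} (hK : OneH K) :
    ∃ (Γ : Type) (_ : Group Γ) (gx gy : P3 → Γ), PiRel K gx gy ∧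
      ∀ (y : {x : LF // ¬ pc K x}) (w : List Gen), (EK K).act (EK K).isSub_top w y = y →
        (EK K).ev (fun x => lel gx gy x.1.1 (d1 x.1)) w y = 1 → (EK K).NH y w := by
  obtain ⟨Z0, hZ0⟩ := pi1_bound K
  obtain ⟨Γ, inst, el, ha, hc, hd, hf, ht, hlast⟩ := TMap.exists_pi (EK K) (pi1ρ hK (0, 0, Z0))
    (pi1p hK Z0) (pi1p_act hK Z0) (pi1p_vert hK Z0)
  -- the labels
  obtain ⟨lab, hlabdef⟩ : ∃ lab : P3 → Dir → Γ, lab = fun v δ => el (pi1fl hK v δ) := ⟨_, rfl⟩
  have hCD : ∀ y y' : Pi1FL K, (EK K).CD y y' → el y = el y' := by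
    intro y y' h
    unfold TMap.CD SameOrb at h
    induction h with
    | rel x y h =>
        obtain ⟨f, hf, rfl⟩ := h
        simp only [List.mem_cons, List.not_mem_nil, or_false] at hf
        rcases hf with rfl | rfl
        · exact (hc x).symm
        · exact (hd x).symm
    | refl x => rfl
    | symm x y _ ih => exact ih.symm
    | trans x y z _ _ ih ih' => exact ih.trans ih'
  have hlab : ∀ y : Pi1FL K, el y = lab y.1.1 (d1 y.1) := by
    intro y
    rw [hlabdef]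
    apply hCD
    rw [EK_CD, pi1fl_v, pi1fl_d]
    exact ⟨rfl, rfl⟩
  have hneg : ∀ v δ, lab (v + dv δ) δ.neg = (lab v δ)⁻¹ := by
    intro v δ
    have h1 := ha (pi1fl hK v δ)
    rw [hlab, pi1_a_v, pi1_a_d, hlab (pi1fl hK v δ), pi1fl_v, pi1fl_d] at h1
    exact h1
  have htree : ∀ v δ, pi1Tr hK Z0 v δ → lab v δ = 1 := by
    intro v δ h
    rw [hlabdef]
    exact ht _ (pi1p_tree hK Z0 v δ h)
  have hminus : ∀ v i, lab v (i, false) = (lab (v - e3 i) (i, true))⁻¹ := by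
    intro v i
    have h1 := hneg (v - e3 i) (i, true)
    have h2 : v - e3 i + dv (i, true) = v := by
      show v - e3 i + e3 i = v
      rw [sub_add_cancel]
    rw [h2] at h1
    exact h1
  have htree' : ∀ v i, pi1Tr hK Z0 (v + e3 i) (i, false) → lab v (i, true) = 1 := by
    intro v i h
    have h1 := htree _ _ h
    rw [hminus, add_sub_cancel_right] at h1
    exact inv_eq_one.1 h1
  have hz : ∀ v, lab v (2, true) = 1 := by
    intro v
    rcases pi1Tr_z hK Z0 v with h | h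
    · exact htree _ _ h
    · exact htree' _ _ h
  have hz' : ∀ v, lab v (2, false) = 1 := by
    intro v
    rw [hminus, hz, inv_one]
  have hy0 : ∀ a b, lab (a, b, Z0) (1, true) = 1 := by
    intro a b
    rcases pi1Tr_y hK Z0 a b with h | h
    · exact htree _ _ h
    · apply htree'
      have e1 : ((a, b, Z0) : P3) + e3 1 = (a, b + 1, Z0) := by
        ext <;> simp [e3]
      rw [e1]
      exact h
  have hx0 : ∀ a, lab (a, 0, Z0) (0, true) = 1 := by
    intro a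
    rcases pi1Tr_x hK Z0 a with h | h
    · exact htree _ _ h
    · apply htree'
      have e1 : ((a, 0, Z0) : P3) + e3 0 = (a + 1, 0, Z0) := by
        ext <;> simp [e3]
      rw [e1]
      exact h
  -- the square relation
  have hsq : ∀ (v : P3) (i j k : Fin 3) (hij : i ≠ j) (hik : i ≠ k) (hjk : j ≠ k),
      (v + e3 i + e3 j, k) ∉ K → lab v (i, true) * lab (v + e3 i) (j, true) =
        lab v (j, true) * lab (v + e3 j) (i, true) := by
    intro v i j k hij hik hjk hn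
    have hnp : ¬ pc K (v, ⟨((i, true), (j, true), (k, true)), hij, hik, hjk⟩) := hn
    obtain ⟨x, hx⟩ : ∃ x : Pi1FL K, x.1 = (v, ⟨((i, true), (j, true), (k, true)), hij, hik, hjk⟩) :=
      ⟨⟨_, hnp⟩, rfl⟩
    have h4 := hf x 4 (EK_faceSize K x)
    have h5 : el x * el ((EK K).b ((EK K).a x)) *
        el ((EK K).b ((EK K).a ((EK K).b ((EK K).a x)))) *
        el ((EK K).b ((EK K).a ((EK K).b ((EK K).a ((EK K).b ((EK K).a x)))))) = 1 := by
      rw [← h4]
      simp only [TMap.fw, TMap.ev, TMap.gen]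
      simp [mul_assoc]
    have c1 : ((EK K).b ((EK K).a x)).1 = (v + e3 i,
        ⟨((j, true), (i, false), (k, true)), fun h => hij h.symm, hjk, hik⟩) := by
      rw [EK_b, EK_a, hx]
      rfl
    have c2 : ((EK K).b ((EK K).a ((EK K).b ((EK K).a x)))).1 = (v + e3 i + e3 j,
        ⟨((i, false), (j, false), (k, true)), hij, hik, hjk⟩) := by
      rw [EK_b, EK_a, c1]
      rfl
    have c3 : ((EK K).b ((EK K).a ((EK K).b ((EK K).a ((EK K).b ((EK K).a x)))))).1 =
        (v + e3 i + e3 j + -e3 i,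
        ⟨((j, false), (i, true), (k, true)), fun h => hij h.symm, hjk, hik⟩) := by
      rw [EK_b, EK_a, c2]
      rfl
    rw [hlab x, hlab ((EK K).b ((EK K).a x)), hlab ((EK K).b ((EK K).a ((EK K).b ((EK K).a x)))),
      hlab ((EK K).b ((EK K).a ((EK K).b ((EK K).a ((EK K).b ((EK K).a x)))))),
      c1, c2, c3, hx] at h5
    have h6 : lab v (i, true) * lab (v + e3 i) (j, true) * lab (v + e3 i + e3 j) (i, false) *
        lab (v + e3 i + e3 j + -e3 i) (j, false) = 1 := h5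
    rw [hminus (v + e3 i + e3 j) i, hminus (v + e3 i + e3 j + -e3 i) j,
      show v + e3 i + e3 j - e3 i = v + e3 j by abel,
      show v + e3 i + e3 j + -e3 i - e3 j = v by abel] at h6
    have h7 := mul_inv_eq_one.1 h6
    have h8 := mul_inv_eq_iff_eq_mul.1 h7
    exact h8
  -- the labels are given by `gx` and `gy`
  have hel : (fun x : Pi1FL K => lel (fun v => lab v (0, true)) (fun v => lab v (1, true))
      x.1.1 (d1 x.1)) = el := by
    funext x
    rw [hlab x]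
    obtain ⟨v, hv⟩ : ∃ v, x.1.1 = v := ⟨_, rfl⟩
    obtain ⟨δ, hδ⟩ : ∃ δ, d1 x.1 = δ := ⟨_, rfl⟩
    rw [hv, hδ]
    obtain ⟨i, s⟩ := δ
    fin_cases i <;> cases s
    · simp only [lel]
      simpa using (hminus v 0).symm
    · simp [lel]
    · simp only [lel]
      simpa using (hminus v 1).symm
    · simp [lel]
    · simpa [lel] using (hz' v).symm
    · simpa [lel] using (hz v).symm
  refine ⟨Γ, inst, fun v => lab v (0, true), fun v => lab v (1, true), ⟨⟨Z0, ?_⟩, ?_, ?_, ?_⟩, ?_⟩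
  · -- in front
    have sy : ∀ p : P3, Z0 ≤ p.2.2 → lab (p + e3 2) (0, true) = lab p (0, true) := by
      intro p hp
      have h1 := hsq p 0 2 1 (by decide) (by decide) (by decide)
        (hZ0 _ _ (by simp only [e3, Prod.snd_add]; omega))
      rw [hz, hz, mul_one, one_mul] at h1
      exact h1.symm
    have sx : ∀ p : P3, Z0 ≤ p.2.2 → lab (p + e3 2) (1, true) = lab p (1, true) := by
      intro p hp
      have h1 := hsq p 1 2 0 (by decide) (by decide) (by decide)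
        (hZ0 _ _ (by simp only [e3, Prod.snd_add]; omega))
      rw [hz, hz, mul_one, one_mul] at h1
      exact h1.symm
    have hx1 : ∀ a b, lab (a, b, Z0) (0, true) = 1 := by
      intro a b
      apply pi1_const (f := fun b => lab (a, b, Z0) (0, true)) (hx0 a)
      intro t
      have h1 := hsq (a, t, Z0) 0 1 2 (by decide) (by decide) (by decide)
        (hZ0 _ _ (by simp [e3]))
      have e1 : ((a, t, Z0) : P3) + e3 0 = (a + 1, t, Z0) := by
        ext <;> simp [e3]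
      have e2 : ((a, t, Z0) : P3) + e3 1 = (a, t + 1, Z0) := by
        ext <;> simp [e3]
      rw [e1, e2, hy0, hy0, mul_one, one_mul] at h1
      exact h1.symm
    have up : ∀ (n : ℕ) (a b : ℤ), lab (a, b, Z0 + n) (0, true) = 1 ∧
        lab (a, b, Z0 + n) (1, true) = 1 := by
      intro n a b
      induction n with
      | zero =>
          simp only [Nat.cast_zero, add_zero]
          exact ⟨hx1 a b, hy0 a b⟩
      | succ n ih =>
          have e1 : ((a, b, Z0 + ((n + 1 : ℕ) : ℤ)) : P3) = (a, b, Z0 + n) + e3 2 := by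
            ext <;> simp [e3, add_assoc]
          rw [e1, sy _ (by simp), sx _ (by simp)]
          exact ih
    intro p hp
    obtain ⟨a, b, c⟩ := p
    obtain ⟨n, hn⟩ := Int.eq_ofNat_of_zero_le (sub_nonneg.2 hp)
    simp only at hn
    have hc' : c = Z0 + n := by omega
    rw [hc']
    exact up n a b
  · intro p hp
    have h1 := hsq p 0 2 1 (by decide) (by decide) (by decide) hp
    rw [hz, hz, mul_one, one_mul] at h1
    exact h1.symm
  · intro p hp
    have h1 := hsq p 1 2 0 (by decide) (by decide) (by decide) hp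
    rw [hz, hz, mul_one, one_mul] at h1
    exact h1.symm
  · intro p hp
    exact hsq p 0 1 2 (by decide) (by decide) (by decide) hp
  · intro y w hw hev
    rw [hel] at hev
    exact hlast y w hw hev

end Pool.Agent.Lib.MP_131179_gt.Dehn
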