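import Pool.Agent.Lib.MP_131179_gt.Dehn.Region
import Pool.Agent.Lib.MP_131179_gt.Dehn.Pairing
import Pool.Agent.Lib.MP_131179_gt.Dehn.FirstReturn

/-!
# The double arcs

The crossings are joined in pairs by double arcs of the discs in the balls around the vertices.
-/

set_option autoImplicit false

namespace Pool.Agent.Lib.MP_131179_gt.Dehn

/-! ### Comparison of first return maps -/

namespace FR

variable {Ω : Type}

theorem piPair_path (F F' : FR Ω) (hβ : ∀ ω, F'.β ω = F.β ω)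
    (hs : ∀ ω, ¬ F.T ω → F'.s ω = F.s ω) (x : Ω) (n : ℕ)
    (h : ∀ m < n, ¬ F.T (F.path x m)) : F'.path x n = F.path x n := by
  induction n with
  | zero => simp [path, hβ]
  | succ n ih =>
    have ih' := ih (fun m hm => h m (by omega))
    have h1 : F.path x (n + 1) = F.β (F.s (F.path x n)) := by
      simp only [path, Function.iterate_succ_apply']
    have h2 : F'.path x (n + 1) = F'.β (F'.s (F'.path x n)) := by
      simp only [path, Function.iterate_succ_apply']
    rw [h1, h2, ih', hs _ (h n (by omega)), hβ]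

theorem piPair_ret (F F' : FR Ω) (hβ : ∀ ω, F'.β ω = F.β ω) (hT : ∀ ω, F'.T ω ↔ F.T ω)
    (hs : ∀ ω, ¬ F.T ω → F'.s ω = F.s ω) {x : Ω} (hx : F.T x) : F'.ret x = F.ret x := by
  classical
  have hex : ∃ n, F.T (F.path x n) := F.exists_ret hx
  have hmin : ∀ m < Nat.find hex, ¬ F.T (F.path x m) := fun m hm => Nat.find_min hex hm
  have hfx : ∀ n ≤ Nat.find hex, F'.path x n = F.path x n := fun n hn =>
    piPair_path F F' hβ hs x n (fun m hm => hmin m (by omega))
  have hex' : ∃ n, F'.T (F'.path x n) := ⟨Nat.find hex, by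
    rw [hfx _ le_rfl, hT]; exact Nat.find_spec hex⟩
  have heq : Nat.find hex' = Nat.find hex := by
    rw [Nat.find_eq_iff]
    refine ⟨by rw [hfx _ le_rfl, hT]; exact Nat.find_spec hex, fun m hm => ?_⟩
    rw [hfx _ hm.le, hT]
    exact hmin m hm
  have he1 : F.ret x = F.path x (Nat.find hex) := by
    unfold ret
    rw [dif_pos hex]
  have e2 : F'.ret x = F'.path x (Nat.find hex') := by
    unfold ret
    rw [dif_pos hex']
  rw [he1, e2, heq, hfx _ le_rfl]

theorem piPair_iter (F F' : FR Ω) (hβ : ∀ ω, F'.β ω = F.β ω)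
    (hs : ∀ ω, ¬ F.T ω → F'.s ω = F.s ω) (x : Ω)
    (h : ∀ m, ¬ F.T ((fun y => F.β (F.s y))^[m] x)) (n : ℕ) :
    (fun y => F'.β (F'.s y))^[n] x = (fun y => F.β (F.s y))^[n] x := by
  induction n with
  | zero => rfl
  | succ n ih =>
    rw [Function.iterate_succ_apply', Function.iterate_succ_apply', ih, hs _ (h n), hβ]

theorem piPair_pure_of (F F' : FR Ω) (hβ : ∀ ω, F'.β ω = F.β ω) (hT : ∀ ω, F'.T ω ↔ F.T ω)
    (hs : ∀ ω, ¬ F.T ω → F'.s ω = F.s ω) {ω : Ω} (h : F.Pure ω) : F'.Pure ω := by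
  intro n
  have h1 := piPair_iter F F' hβ hs ω (fun m => (h m).1) n
  have h2 := piPair_iter F F' hβ hs (F.β ω) (fun m => (h m).2) n
  rw [hT, hT, h1, hβ, h2]
  exact h n

theorem piPair_pure (F F' : FR Ω) (hβ : ∀ ω, F'.β ω = F.β ω) (hT : ∀ ω, F'.T ω ↔ F.T ω)
    (hs : ∀ ω, ¬ F.T ω → F'.s ω = F.s ω) (ω : Ω) : F'.Pure ω ↔ F.Pure ω :=
  ⟨fun h => piPair_pure_of F' F (fun ω => (hβ ω).symm) (fun ω => (hT ω).symm)
    (fun ω hω => (hs ω (fun h' => hω ((hT ω).2 h'))).symm) h,
    fun h => piPair_pure_of F F' hβ hT hs h⟩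

end FR

namespace Imm

variable {Ψ : Type} {I : Imm Ψ}

/-- Properties of the involution `π` which goes to the other end of a double arc. -/
structure IsPi [Finite Ψ] (I : Imm Ψ) (π : I.A → I.A) : Prop where
  inv : ∀ ω, π (π ω) = ω
  ne : ∀ ω, π ω ≠ ω
  comm_o : ∀ ω, π (o ω) = o (π ω)
  comm_s0 : ∀ ω, π (s0 ω) = s0 (π ω)
  col : ∀ ω, I.col (π ω).1.1 = I.col ω.1.1
  orb : 4 * orb [I.β, bt π] = 4 * orb [I.β, bt o] + Nat.card I.A

/-! ### Small facts -/

theorem piPair_f2 (a : F2) : a = 0 ∨ a = 1 := by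
  revert a; decide

theorem piPair_f2_ne {a b : F2} (h : a ≠ b) : b = a + 1 := by
  revert a b; decide

theorem piPair_f2_add (a : F2) : a + 1 + 1 = a := by
  revert a; decide

theorem piPair_f2_ne_add (a : F2) : a + 1 ≠ a := by
  revert a; decide

theorem piPair_oo [Finite Ψ] (ω : I.A) : o (o ω) = ω := by
  apply Subtype.ext
  apply Prod.ext
  · exact I.MM _
  · exact I.MM _

theorem piPair_s0s0 [Finite Ψ] (ω : I.A) : s0 (s0 ω) = ω := rfl

theorem piPair_os0 [Finite Ψ] (ω : I.A) : o (s0 ω) = s0 (o ω) := rfl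

theorem piPair_s1 [Finite Ψ] (ω : I.A) : s1 ω = s0 (o ω) := rfl

theorem piPair_idx_o [Finite Ψ] (ω : I.A) : idx (o ω) = idx ω + 1 := by
  have h1 : idx (o ω) = I.P (I.M ω.1.2) (I.M ω.1.1) := rfl
  have hcd : I.CD ω.1.2 (I.M ω.1.1) := (ω.2.cd.symm).trans (I.cdM _)
  rw [h1, P_M_left hcd]
  exact piPair_f2_ne ω.2.ne

theorem piPair_idx_s0 [Finite Ψ] (ω : I.A) : idx (s0 ω) = idx ω := ω.2.eq.symm

theorem piPair_col_o [Finite Ψ] (ω : I.A) : I.col (o ω).1.1 = I.col ω.1.1 := I.colM _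

theorem piPair_col_s0 [Finite Ψ] (ω : I.A) : I.col (s0 ω).1.1 = I.col ω.1.1 + 1 :=
  piPair_f2_ne ω.2.col

theorem piPair_col_s0_iff [Finite Ψ] (ω : I.A) : I.col (s0 ω).1.1 = 0 ↔ ¬ I.col ω.1.1 = 0 := by
  rw [piPair_col_s0]
  rcases piPair_f2 (I.col ω.1.1) with h | h <;> rw [h] <;> decide

/-! ### Powers of `o` -/

/-- The power `o ^ i`. -/
def piPairOp [Finite Ψ] (i : F2) (ω : I.A) : I.A := if i = 0 then ω else o ω

theorem piPairOp_zero [Finite Ψ] (ω : I.A) : piPairOp 0 ω = ω := if_pos rfl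

theorem piPairOp_one [Finite Ψ] (ω : I.A) : piPairOp 1 ω = o ω := if_neg (by decide)

theorem piPairOp_succ [Finite Ψ] (i : F2) (ω : I.A) :
    piPairOp (i + 1) ω = o (piPairOp i ω) := by
  rcases piPair_f2 i with rfl | rfl
  · rw [zero_add, piPairOp_one, piPairOp_zero]
  · rw [show (1 + 1 : F2) = 0 from by decide, piPairOp_one, piPairOp_zero, piPair_oo]

theorem piPairOp_self [Finite Ψ] (i : F2) (ω : I.A) : piPairOp i (piPairOp i ω) = ω := by
  rcases piPair_f2 i with rfl | rfl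
  · rw [piPairOp_zero, piPairOp_zero]
  · rw [piPairOp_one, piPairOp_one, piPair_oo]

theorem piPairOp_idx [Finite Ψ] (i : F2) (ω : I.A) : idx (piPairOp i ω) = idx ω + i := by
  rcases piPair_f2 i with rfl | rfl
  · rw [piPairOp_zero, add_zero]
  · rw [piPairOp_one, piPair_idx_o]

theorem piPairOp_col [Finite Ψ] (i : F2) (ω : I.A) :
    I.col (piPairOp i ω).1.1 = I.col ω.1.1 := by
  rcases piPair_f2 i with rfl | rfl
  · rw [piPairOp_zero]
  · rw [piPairOp_one, piPair_col_o]

theorem piPairOp_o [Finite Ψ] (i : F2) (ω : I.A) : piPairOp i (o ω) = o (piPairOp i ω) := by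
  rcases piPair_f2 i with rfl | rfl
  · rw [piPairOp_zero, piPairOp_zero]
  · rw [piPairOp_one, piPairOp_one]

/-- The crossings. -/
def PiPairX [Finite Ψ] (I : Imm Ψ) : Type := {ω : I.A // I.col ω.1.1 = 0 ∧ idx ω = 0}

instance [Finite Ψ] : Finite I.PiPairX :=
  inferInstanceAs (Finite {ω : I.A // I.col ω.1.1 = 0 ∧ idx ω = 0})

/-- The ends of the pieces of the curves of colour `0`. -/
def PiPairA0 [Finite Ψ] (I : Imm Ψ) : Type := {ω : I.A // I.col ω.1.1 = 0}

instance [Finite Ψ] : Finite I.PiPairA0 := inferInstanceAs (Finite {ω : I.A // I.col ω.1.1 = 0})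

/-- Constructor. -/
def piPairMk0 [Finite Ψ] (ω : I.A) (h : I.col ω.1.1 = 0) : I.PiPairA0 := ⟨ω, h⟩

/-- The identification of the ends of colour `0`. -/
def piPairE0 [Finite Ψ] : I.PiPairX × F2 ≃ I.PiPairA0 where
  toFun v := ⟨piPairOp v.2 v.1.1, by rw [piPairOp_col]; exact v.1.2.1⟩
  invFun ω := (⟨piPairOp (idx ω.1) ω.1, by rw [piPairOp_col]; exact ω.2, by
    rw [piPairOp_idx]; exact CharTwo.add_self_eq_zero _⟩, idx ω.1)
  left_inv v := by
    have hidx : idx (piPairOp v.2 v.1.1) = v.2 := by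
      rw [piPairOp_idx, v.1.2.2, zero_add]
    apply Prod.ext
    · apply Subtype.ext
      show piPairOp (idx (piPairOp v.2 v.1.1)) (piPairOp v.2 v.1.1) = v.1.1
      rw [hidx, piPairOp_self]
    · exact hidx
  right_inv ω := by
    apply Subtype.ext
    show piPairOp (idx ω.1) (piPairOp (idx ω.1) ω.1) = ω.1
    exact piPairOp_self _ _

theorem piPairE0_idx [Finite Ψ] (v : I.PiPairX × F2) : idx (piPairE0 v).1 = v.2 := by
  show idx (piPairOp v.2 v.1.1) = v.2
  rw [piPairOp_idx, v.1.2.2, zero_add]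

theorem piPairE0_succ [Finite Ψ] (ξ : I.PiPairX) (i : F2) : (piPairE0 (ξ, i + 1)).1 = o (piPairE0 (ξ, i)).1 :=
  piPairOp_succ _ _

/-- The other colour. -/
def piPairSw [Finite Ψ] (ω : {ω : I.A // ¬ I.col ω.1.1 = 0}) : I.PiPairA0 :=
  ⟨s0 ω.1, (piPair_col_s0_iff _).2 ω.2⟩

/-- The identification of the ends of colour `1`. -/
def piPairE1 [Finite Ψ] : {ω : I.A // ¬ I.col ω.1.1 = 0} ≃ I.PiPairX × F2 where
  toFun ω := piPairE0.symm (piPairSw ω)
  invFun v := ⟨s0 (piPairE0 v).1, fun h => (piPair_col_s0_iff _).1 h (piPairE0 v).2⟩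
  left_inv ω := by
    apply Subtype.ext
    show s0 (piPairE0 (piPairE0.symm (piPairSw ω))).1 = ω.1
    rw [Equiv.apply_symm_apply]
    rfl
  right_inv v := by
    show piPairE0.symm (piPairSw ⟨s0 (piPairE0 v).1, _⟩) = v
    rw [Equiv.symm_apply_eq]
    apply Subtype.ext
    rfl

/-! ### The first return map -/

/-- `b` on the points and `t` on the crossings, with first return to the crossings. -/
noncomputable def piPairF [Finite Ψ] (t : I.A → I.A) (ht : ∀ ω, t (t ω) = ω) : FR I.Om where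
  β := I.β
  s := bt t
  T := fun ω => ω.isRight = true
  ββ := β_β
  ss := fun ω => by
    rcases ω with x | ω
    · show (Sum.inl _ : I.Om) = Sum.inl x
      congr 1
      exact Subtype.ext (I.bb x.1)
    · show (Sum.inr (t (t ω)) : I.Om) = Sum.inr ω
      rw [ht]
  sT := fun ω => by
    rcases ω with x | ω <;> exact Iff.rfl
  per := per_of_finite β_β (fun ω => by
    rcases ω with x | ω
    · show (Sum.inl _ : I.Om) = Sum.inl x
      congr 1
      exact Subtype.ext (I.bb x.1)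
    · show (Sum.inr (t (t ω)) : I.Om) = Sum.inr ω
      rw [ht])

/-- The standard first return data. -/
noncomputable abbrev piPairF0 [Finite Ψ] (I : Imm Ψ) : FR I.Om := piPairF o piPair_oo

theorem piPairF0_T [Finite Ψ] (ω : I.A) : I.piPairF0.T (Sum.inr ω) := rfl

theorem piPairF0_not_T [Finite Ψ] {ω : I.Om} (h : ¬ I.piPairF0.T ω) : ∃ x, ω = Sum.inl x := by
  rcases ω with x | ω
  · exact ⟨x, rfl⟩
  · exact absurd rfl h

/-- The first return map to the crossings. -/
noncomputable def piPairRho [Finite Ψ] (ω : I.A) : I.A :=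
  Sum.getRight (I.piPairF0.ret (Sum.inr ω)) (I.piPairF0.ret_T (piPairF0_T ω))

theorem piPairRho_spec [Finite Ψ] (ω : I.A) : (Sum.inr (piPairRho ω) : I.Om) = I.piPairF0.ret (Sum.inr ω) :=
  Sum.inr_getRight _ _

theorem piPairRho_rho [Finite Ψ] (ω : I.A) : piPairRho (piPairRho ω) = ω := by
  have h : (Sum.inr (piPairRho (piPairRho ω)) : I.Om) = Sum.inr ω := by
    rw [piPairRho_spec, piPairRho_spec, I.piPairF0.ret_ret (piPairF0_T ω)]
  exact Sum.inr_injective h

theorem piPairRho_ne [Finite Ψ] (ω : I.A) : piPairRho ω ≠ ω := by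
  intro h
  have h1 : I.piPairF0.ret (Sum.inr ω) = Sum.inr ω := by rw [← piPairRho_spec, h]
  refine I.piPairF0.ret_ne β_ne ?_ (piPairF0_T ω) h1
  intro ω' hω' he
  obtain ⟨x, rfl⟩ := piPairF0_not_T hω'
  have h2 : (Sum.inl (⟨I.b x.1, (I.cob x.1).trans x.2⟩ : I.Pt) : I.Om) = Sum.inl x := he
  have h3 := Sum.inl_injective h2
  exact I.toTMap.b_ne x.1 (congrArg Subtype.val h3)

/-- Functions invariant under `β` and (on the points) under `b` are invariant under `piPairRho`. -/
theorem piPairRho_inv [Finite Ψ] {α : Type} {f : I.Om → α} (hβ : ∀ ω, f (I.β ω) = f ω)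
    (hb : ∀ x : I.Pt, f (Sum.inl ⟨I.b x.1, (I.cob x.1).trans x.2⟩) = f (Sum.inl x)) (ω : I.A) :
    f (Sum.inr (piPairRho ω)) = f (Sum.inr ω) := by
  rw [piPairRho_spec]
  refine I.piPairF0.ret_inv hβ ?_ (piPairF0_T ω)
  intro ω' hω'
  obtain ⟨x, rfl⟩ := piPairF0_not_T hω'
  exact hb x

theorem piPairRho_col [Finite Ψ] (ω : I.A) : I.col (piPairRho ω).1.1 = I.col ω.1.1 :=
  piPairRho_inv (f := ocol) ocol_β (fun x => I.colb x.1) ω

/-! ### Counting orbits -/

theorem piPairF0_agree [Finite Ψ] (t : I.A → I.A) (ht : ∀ ω, t (t ω) = ω) (ω : I.Om)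
    (h : ¬ I.piPairF0.T ω) : (piPairF t ht).s ω = I.piPairF0.s ω := by
  obtain ⟨x, rfl⟩ := piPairF0_not_T h
  rfl

/-- The crossings as a part of `Om`. -/
def piPairET [Finite Ψ] (t : I.A → I.A) (ht : ∀ ω, t (t ω) = ω) :
    {ω // (piPairF t ht).T ω} ≃ I.A where
  toFun := fun ω => Sum.getRight ω.1 ω.2
  invFun := fun ω => ⟨Sum.inr ω, rfl⟩
  left_inv := fun _ => Subtype.ext (Sum.inr_getRight _ _)
  right_inv := fun _ => rfl

/-- The number of orbits of `β, b` without crossings. -/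
noncomputable def piPairNPure [Finite Ψ] (I : Imm Ψ) : ℕ :=
  Dehn.orb [(fun x => ⟨I.piPairF0.β x.1, I.piPairF0.pure_β x.2⟩ : {ω // I.piPairF0.Pure ω} → {ω // I.piPairF0.Pure ω}),
    (fun x => ⟨I.piPairF0.s x.1, I.piPairF0.pure_s x.2⟩ : {ω // I.piPairF0.Pure ω} → {ω // I.piPairF0.Pure ω})]

theorem piPair_orb_bt [Finite Ψ] (t : I.A → I.A) (ht : ∀ ω, t (t ω) = ω) :
    Dehn.orb [I.β, bt t] = Dehn.orb [piPairRho, t] + piPairNPure I := by
  have h0 := (piPairF t ht).orb_two
  have h1 : Dehn.orb [(piPairF t ht).β, (piPairF t ht).s] = Dehn.orb [I.β, bt t] := rfl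
  rw [h1] at h0
  rw [h0]
  congr 1
  · refine orb_congr (piPairET t ht) ?_
    refine List.Forall₂.cons ?_ (List.Forall₂.cons ?_ List.Forall₂.nil)
    · rintro ⟨ω, hω⟩
      rcases ω with x | ω
      · exact absurd hω (by simp [piPairF])
      · apply Sum.inr_injective (α := I.Pt)
        have he1 : (Sum.inr (piPairET t ht ⟨(piPairF t ht).ret (Sum.inr ω),
            (piPairF t ht).ret_T hω⟩) : I.Om) = (piPairF t ht).ret (Sum.inr ω) :=
          Sum.inr_getRight _ _
        refine he1.trans ?_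
        refine Eq.trans ?_ (piPairRho_spec ω).symm
        exact FR.piPair_ret I.piPairF0 (piPairF t ht) (fun _ => rfl) (fun _ => Iff.rfl)
          (piPairF0_agree t ht) (piPairF0_T ω)
    · rintro ⟨ω, hω⟩
      rcases ω with x | ω
      · exact absurd hω (by simp [piPairF])
      · rfl
  · refine orb_congr (Equiv.subtypeEquivRight (FR.piPair_pure I.piPairF0 (piPairF t ht)
      (fun _ => rfl) (fun _ => Iff.rfl) (piPairF0_agree t ht))) ?_
    refine List.Forall₂.cons ?_ (List.Forall₂.cons ?_ List.Forall₂.nil)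
    · rintro ⟨ω, hω⟩
      rfl
    · rintro ⟨ω, hω⟩
      apply Subtype.ext
      exact piPairF0_agree t ht ω (((FR.piPair_pure I.piPairF0 (piPairF t ht)
        (fun _ => rfl) (fun _ => Iff.rfl) (piPairF0_agree t ht)) ω).1 hω |> I.piPairF0.not_T_of_pure)

/-- The first curve. -/
noncomputable def piPairR [Finite Ψ] (v : I.PiPairX × F2) : I.PiPairX × F2 :=
  piPairE0.symm (piPairMk0 (piPairRho (piPairE0 v).1) ((piPairRho_col _).trans (piPairE0 v).2))

/-- The second curve. -/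
noncomputable def piPairU [Finite Ψ] (v : I.PiPairX × F2) : I.PiPairX × F2 :=
  piPairE0.symm (piPairMk0 (s0 (piPairRho (s0 (piPairE0 v).1))) ((piPair_col_s0_iff _).2 (by
    rw [piPairRho_col]
    exact fun h => (piPair_col_s0_iff _).1 h (piPairE0 v).2)))

theorem piPairE0_r [Finite Ψ] (v : I.PiPairX × F2) : (piPairE0 (piPairR v)).1 = piPairRho (piPairE0 v).1 := by
  unfold piPairR
  rw [Equiv.apply_symm_apply]
  rfl

theorem piPairE0_u [Finite Ψ] (v : I.PiPairX × F2) : (piPairE0 (piPairU v)).1 = s0 (piPairRho (s0 (piPairE0 v).1)) := by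
  unfold piPairU
  rw [Equiv.apply_symm_apply]
  rfl

theorem piPairE0_inj [Finite Ψ] {v w : I.PiPairX × F2} (h : (piPairE0 v).1 = (piPairE0 w).1) : v = w :=
  piPairE0.injective (Subtype.ext h)

theorem piPairR_fpf [Finite Ψ] : FPF (piPairR : I.PiPairX × F2 → I.PiPairX × F2) where
  inv v := by
    apply piPairE0_inj
    rw [piPairE0_r, piPairE0_r, piPairRho_rho]
  ne v h := by
    have h1 := piPairE0_r v
    rw [h] at h1
    exact piPairRho_ne _ h1.symm

theorem piPairU_fpf [Finite Ψ] : FPF (piPairU : I.PiPairX × F2 → I.PiPairX × F2) where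
  inv v := by
    apply piPairE0_inj
    rw [piPairE0_u, piPairE0_u, piPair_s0s0, piPairRho_rho, piPair_s0s0]
  ne v h := by
    have h1 := piPairE0_u v
    rw [h] at h1
    have h2 : s0 (piPairE0 v).1 = piPairRho (s0 (piPairE0 v).1) := by
      conv_lhs => rw [h1]
      rfl
    exact piPairRho_ne _ h2.symm

/-- A map on the ends given by a map on `PiPairX × F2`. -/
noncomputable def piPairLift [Finite Ψ] (q : I.PiPairX × F2 → I.PiPairX × F2) (ω : I.A) : I.A :=
  open Classical in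
  if h : I.col ω.1.1 = 0 then (piPairE0 (q (piPairE0.symm (piPairMk0 ω h)))).1
  else s0 (piPairE0 (q (piPairE0.symm (piPairMk0 (s0 ω) ((piPair_col_s0_iff _).2 h))))).1

theorem piPairLift_pos [Finite Ψ] (q : I.PiPairX × F2 → I.PiPairX × F2) (ω : I.PiPairA0) :
    piPairLift q ω.1 = (piPairE0 (q (piPairE0.symm ω))).1 := by
  unfold piPairLift
  rw [dif_pos ω.2]
  rfl

theorem piPairLift_neg [Finite Ψ] (q : I.PiPairX × F2 → I.PiPairX × F2) (ω : I.PiPairA0) :
    piPairLift q (s0 ω.1) = s0 (piPairE0 (q (piPairE0.symm ω))).1 := by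
  unfold piPairLift
  rw [dif_neg (fun h => (piPair_col_s0_iff _).1 h ω.2)]
  rfl

/-- Induction over the two colours. -/
theorem piPair_ind [Finite Ψ] {p : I.A → Prop} (h0 : ∀ v : I.PiPairX × F2, p (piPairE0 v).1)
    (h1 : ∀ v : I.PiPairX × F2, p (s0 (piPairE0 v).1)) (ω : I.A) : p ω := by
  by_cases h : I.col ω.1.1 = 0
  · have := h0 (piPairE0.symm (piPairMk0 ω h))
    rw [Equiv.apply_symm_apply] at this
    exact this
  · have := h1 (piPairE0.symm (piPairMk0 (s0 ω) ((piPair_col_s0_iff _).2 h)))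
    rw [Equiv.apply_symm_apply] at this
    exact this

theorem piPairLift_e0 [Finite Ψ] (q : I.PiPairX × F2 → I.PiPairX × F2) (v : I.PiPairX × F2) :
    piPairLift q (piPairE0 v).1 = (piPairE0 (q v)).1 := by
  rw [piPairLift_pos, Equiv.symm_apply_apply]

theorem piPairLift_s0 [Finite Ψ] (q : I.PiPairX × F2 → I.PiPairX × F2) (v : I.PiPairX × F2) :
    piPairLift q (s0 (piPairE0 v).1) = s0 (piPairE0 (q v)).1 := by
  rw [piPairLift_neg, Equiv.symm_apply_apply]

theorem piPairLift_col [Finite Ψ] (q : I.PiPairX × F2 → I.PiPairX × F2) (ω : I.A) :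
    I.col (piPairLift q ω).1.1 = I.col ω.1.1 := by
  refine piPair_ind (p := fun ω => I.col (piPairLift q ω).1.1 = I.col ω.1.1) ?_ ?_ ω
  · intro v
    show I.col (piPairLift q (piPairE0 v).1).1.1 = _
    rw [piPairLift_e0, (piPairE0 v).2, (piPairE0 (q v)).2]
  · intro v
    show I.col (piPairLift q (s0 (piPairE0 v).1)).1.1 = _
    rw [piPairLift_s0, piPair_col_s0, piPair_col_s0, (piPairE0 v).2, (piPairE0 (q v)).2]

/-- Counting orbits on the two colours. -/
theorem piPair_orb_lift [Finite Ψ] (q : I.PiPairX × F2 → I.PiPairX × F2) :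
    Dehn.orb [piPairRho, piPairLift q] = Dehn.orb [piPairR, q] + Dehn.orb [piPairU, q] := by
  have h := orb_split (Φ := I.A) (fun ω => I.col ω.1.1 = 0) (s := [piPairRho, piPairLift q])
    (s1 := [fun ω => ⟨piPairRho ω.1, (piPairRho_col _).trans ω.2⟩,
      fun ω => ⟨piPairLift q ω.1, (piPairLift_col q _).trans ω.2⟩])
    (s2 := [fun ω => ⟨piPairRho ω.1, by rw [piPairRho_col]; exact ω.2⟩,
      fun ω => ⟨piPairLift q ω.1, by rw [piPairLift_col]; exact ω.2⟩])
    (List.Forall₂.cons (fun _ => rfl) (List.Forall₂.cons (fun _ => rfl) List.Forall₂.nil))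
    (List.Forall₂.cons (fun _ => rfl) (List.Forall₂.cons (fun _ => rfl) List.Forall₂.nil))
  rw [h]
  congr 1
  · refine orb_congr (Φ := I.PiPairA0) (piPairE0 (I := I)).symm ?_
    refine List.Forall₂.cons ?_ (List.Forall₂.cons ?_ List.Forall₂.nil)
    · intro ω
      show piPairE0.symm (⟨piPairRho ω.1, _⟩ : I.PiPairA0) = piPairR (piPairE0.symm ω)
      unfold piPairR
      congr 1
      apply Subtype.ext
      show piPairRho ω.1 = piPairRho (piPairE0 (piPairE0.symm ω)).1
      rw [Equiv.apply_symm_apply]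
    · intro ω
      show piPairE0.symm (piPairMk0 (piPairLift q ω.1) _) = q (piPairE0.symm ω)
      rw [Equiv.symm_apply_eq]
      apply Subtype.ext
      exact piPairLift_pos q ω
  · refine orb_congr piPairE1 ?_
    refine List.Forall₂.cons ?_ (List.Forall₂.cons ?_ List.Forall₂.nil)
    · intro ω
      show piPairE0.symm (piPairSw ⟨piPairRho ω.1, _⟩) = piPairU (piPairE0.symm (piPairSw ω))
      unfold piPairU
      congr 1
      apply Subtype.ext
      show s0 (piPairRho ω.1) = s0 (piPairRho (s0 (piPairE0 (piPairE0.symm (piPairSw ω))).1))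
      rw [Equiv.apply_symm_apply]
      rfl
    · intro ω
      show piPairE0.symm (piPairSw ⟨piPairLift q ω.1, _⟩) = q (piPairE0.symm (piPairSw ω))
      rw [Equiv.symm_apply_eq]
      apply Subtype.ext
      show s0 (piPairLift q ω.1) = (piPairE0 (q (piPairE0.symm (piPairSw ω)))).1
      have := piPairLift_neg q (piPairSw ω)
      have h2 : s0 (piPairSw ω).1 = ω.1 := rfl
      rw [h2] at this
      rw [this]
      rfl

theorem piPairLift_o [Finite Ψ] : (piPairLift (fun v => (v.1, v.2 + 1)) : I.A → I.A) = o := by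
  funext ω
  refine piPair_ind (p := fun ω => piPairLift (fun v => (v.1, v.2 + 1)) ω = o ω) ?_ ?_ ω
  · intro v
    show piPairLift _ (piPairE0 v).1 = _
    rw [piPairLift_e0, piPairE0_succ]
  · intro v
    show piPairLift _ (s0 (piPairE0 v).1) = _
    rw [piPairLift_s0, piPairE0_succ, piPair_os0]

/-! ### Exactness -/

/-- The values of the region function on the quadrants. -/
theorem piPair_reg_quad [Finite Ψ] {g : I.Om → F2} {D : Ψ → F2} {f : I.Om → F2 → F2}
    (h : RegFun I g D f) (ξ : I.PiPairX) (i t : F2) :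
    f (Sum.inr (piPairE0 (ξ, t)).1) i = f (Sum.inr (s0 (piPairE0 (ξ, i)).1)) t := by
  by_cases hti : i = t
  · subst hti
    have h0 := h.c0 (piPairE0 (ξ, i)).1
    rw [piPairE0_idx] at h0
    exact h0
  · have h1 := piPair_f2_ne hti
    subst h1
    have h0 := h.c1 (piPairE0 (ξ, i + 1)).1
    rw [piPairE0_idx] at h0
    simp only [] at h0
    rw [piPair_f2_add, piPair_s1, ← piPairE0_succ, piPair_f2_add] at h0
    exact h0

theorem piPair_reg_rho [Finite Ψ] {g : I.Om → F2} {D : Ψ → F2} {f : I.Om → F2 → F2}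
    (h : RegFun I g D f) (hD : ∀ z, D (I.b z) = D z) (ω : I.A) (s : F2) :
    f (Sum.inr (piPairRho ω)) s = f (Sum.inr ω) s := by
  refine piPairRho_inv (f := fun ω => f ω s) (fun ω => h.fβ ω s) ?_ ω
  intro x
  rcases piPair_f2 s with rfl | rfl
  · have h1 := h.f0 (I.b x.1) ((I.cob x.1).trans x.2)
    have h2 := h.f0 x.1 x.2
    show f (pt (I.b x.1) _) 0 = f (pt x.1 x.2) 0
    rw [h1, h2, hD]
  · have h1 := h.f1 (I.b x.1) ((I.cob x.1).trans x.2)
    have h2 := h.f1 x.1 x.2
    show f (pt (I.b x.1) _) 1 = f (pt x.1 x.2) 1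
    rw [h1, h2, ← I.bc, hD]

theorem piPair_arrEx [Finite Ψ] (I : Imm Ψ) :
    ArrEx (piPairR : I.PiPairX × F2 → I.PiPairX × F2) piPairU := by
  classical
  intro gr gu hr hu hev
  -- the function on the crossings
  let gA : I.A → F2 := fun ω => if h : I.col ω.1.1 = 0 then gr (piPairE0.symm (piPairMk0 ω h))
    else gu (piPairE0.symm (piPairMk0 (s0 ω) ((piPair_col_s0_iff _).2 h)))
  have gA0 : ∀ v : I.PiPairX × F2, gA (piPairE0 v).1 = gr v := by
    intro v
    show (if h : I.col (piPairE0 v).1.1.1 = 0 then gr (piPairE0.symm (piPairMk0 (piPairE0 v).1 h)) else _) = _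
    rw [dif_pos (piPairE0 v).2]
    congr 1
    exact piPairE0.symm_apply_apply v
  have gA1 : ∀ v : I.PiPairX × F2, gA (s0 (piPairE0 v).1) = gu v := by
    intro v
    show (if h : I.col (s0 (piPairE0 v).1).1.1 = 0 then _ else
      gu (piPairE0.symm (piPairMk0 (s0 (s0 (piPairE0 v).1)) ((piPair_col_s0_iff _).2 h)))) = _
    rw [dif_neg (fun h => (piPair_col_s0_iff _).1 h (piPairE0 v).2)]
    congr 1
    exact piPairE0.symm_apply_apply v
  have gAρ : ∀ ω, gA (piPairRho ω) = gA ω := by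
    intro ω
    refine piPair_ind (p := fun ω => gA (piPairRho ω) = gA ω) ?_ ?_ ω
    · intro v
      show gA (piPairRho (piPairE0 v).1) = gA (piPairE0 v).1
      rw [← piPairE0_r, gA0, gA0, hr]
    · intro v
      show gA (piPairRho (s0 (piPairE0 v).1)) = gA (s0 (piPairE0 v).1)
      have h1 : piPairRho (s0 (piPairE0 v).1) = s0 (piPairE0 (piPairU v)).1 := by
        rw [piPairE0_u]; rfl
      rw [h1, gA1, gA1, hu]
  -- extension to all pieces
  obtain ⟨g, hgβ, hgs, hgT, -⟩ := I.piPairF0.extend (0 : F2) (Sum.elim (fun _ => 0) gA) (by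
    intro x hx
    rcases x with x | ω
    · exact absurd hx (by simp [piPairF])
    · rw [← piPairRho_spec]
      exact gAρ ω)
  have hgA : ∀ ω : I.A, g (Sum.inr ω) = gA ω := fun ω => hgT _ (piPairF0_T ω)
  have hgb : ∀ x : I.Pt, g (Sum.inl ⟨I.b x.1, (I.cob x.1).trans x.2⟩) = g (Sum.inl x) := by
    intro x
    exact hgs (Sum.inl x) (by simp [piPairF])
  have hgev : Even4 g := by
    intro ω
    rw [hgA, hgA, hgA, hgA, piPair_s1]
    refine piPair_ind (p := fun ω => gA ω + gA (o ω) + gA (s0 ω) + gA (s0 (o ω)) = 0) ?_ ?_ ω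
    · rintro ⟨ξ, i⟩
      show gA (piPairE0 (ξ, i)).1 + gA (o (piPairE0 (ξ, i)).1) + gA (s0 (piPairE0 (ξ, i)).1) +
        gA (s0 (o (piPairE0 (ξ, i)).1)) = 0
      rw [← piPairE0_succ, gA0, gA0, gA1, gA1]
      have h1 := hev ξ
      rcases piPair_f2 i with rfl | rfl
      · rw [zero_add, h1]
      · rw [show (1 + 1 : F2) = 0 from by decide]
        linear_combination h1
    · rintro ⟨ξ, i⟩
      show gA (s0 (piPairE0 (ξ, i)).1) + gA (o (s0 (piPairE0 (ξ, i)).1)) + gA (s0 (s0 (piPairE0 (ξ, i)).1)) +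
        gA (s0 (o (s0 (piPairE0 (ξ, i)).1))) = 0
      rw [piPair_os0, piPair_s0s0, piPair_s0s0, ← piPairE0_succ, gA0, gA0, gA1, gA1]
      have h1 := hev ξ
      rcases piPair_f2 i with rfl | rfl
      · rw [zero_add]
        linear_combination h1
      · rw [show (1 + 1 : F2) = 0 from by decide]
        linear_combination h1
  obtain ⟨D, f, hf, hD⟩ := exists_region_b hgβ hgev hgb
  refine ⟨fun ξ s i => f (Sum.inr (piPairE0 (ξ, i)).1) s, ?_, ?_, ?_, ?_⟩
  · intro ξ s i
    show f (Sum.inr (piPairE0 (piPairR (ξ, i))).1) s = f (Sum.inr (piPairE0 (ξ, i)).1) s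
    rw [piPairE0_r, piPair_reg_rho hf hD]
  · intro ξ i t
    show f (Sum.inr (piPairE0 ((piPairU (ξ, i)).1, t)).1) (piPairU (ξ, i)).2 = f (Sum.inr (piPairE0 (ξ, t)).1) i
    rw [piPair_reg_quad hf, piPair_reg_quad hf]
    show f (Sum.inr (s0 (piPairE0 (piPairU (ξ, i))).1)) t = _
    rw [piPairE0_u, piPair_s0s0, piPair_reg_rho hf hD]
  · intro ξ i
    show f (Sum.inr (piPairE0 (ξ, i)).1) 0 + f (Sum.inr (piPairE0 (ξ, i)).1) 1 = gr (ξ, i)
    exact (hf.jump _).trans ((hgA _).trans (gA0 _))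
  · intro ξ i
    show f (Sum.inr (piPairE0 (ξ, 0)).1) i + f (Sum.inr (piPairE0 (ξ, 1)).1) i = gu (ξ, i)
    rw [piPair_reg_quad hf, piPair_reg_quad hf]
    exact (hf.jump _).trans ((hgA _).trans (gA1 _))

/-! ### The number of ends -/

theorem piPair_card_A [Finite Ψ] (I : Imm Ψ) : Nat.card I.A = 4 * Nat.card I.PiPairX := by
  classical
  have h1 : Nat.card I.A = Nat.card ({ω : I.A // I.col ω.1.1 = 0} ⊕
      {ω : I.A // ¬ I.col ω.1.1 = 0}) :=
    Nat.card_congr (Equiv.sumCompl (fun ω : I.A => I.col ω.1.1 = 0)).symm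
  have h2 : Nat.card {ω : I.A // I.col ω.1.1 = 0} = Nat.card (I.PiPairX × F2) :=
    Nat.card_congr (piPairE0 (I := I)).symm
  have h3 : Nat.card {ω : I.A // ¬ I.col ω.1.1 = 0} = Nat.card (I.PiPairX × F2) :=
    Nat.card_congr piPairE1
  have h4 : Nat.card (I.PiPairX × F2) = Nat.card I.PiPairX * 2 := by
    rw [Nat.card_prod, Nat.card_zmod]
  rw [h1, Nat.card_sum, h2, h3, h4]
  ring

theorem exists_pi [Finite Ψ] (I : Imm Ψ) : ∃ π, IsPi I π := by
  classical
  have : Fintype I.PiPairX := Fintype.ofFinite _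
  obtain ⟨p, hp, hr, hu⟩ := exists_pairing piPairR_fpf piPairU_fpf (piPair_arrEx I)
  have hcard : Fintype.card I.PiPairX = Nat.card I.PiPairX := (Nat.card_eq_fintype_card).symm
  refine ⟨piPairLift (fun v => (p v.1, v.2)), ?_, ?_, ?_, ?_, piPairLift_col _, ?_⟩
  · intro ω
    refine piPair_ind (p := fun ω => piPairLift (fun v => (p v.1, v.2)) (piPairLift (fun v => (p v.1, v.2)) ω)
      = ω) ?_ ?_ ω
    · intro v
      show piPairLift _ (piPairLift _ (piPairE0 v).1) = _
      rw [piPairLift_e0, piPairLift_e0, hp.inv]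
    · intro v
      show piPairLift _ (piPairLift _ (s0 (piPairE0 v).1)) = _
      rw [piPairLift_s0, piPairLift_s0, hp.inv]
  · intro ω
    refine piPair_ind (p := fun ω => piPairLift (fun v => (p v.1, v.2)) ω ≠ ω) ?_ ?_ ω
    · intro v h
      rw [piPairLift_e0] at h
      have := congrArg Prod.fst (piPairE0_inj h)
      exact hp.ne _ this
    · intro v h
      rw [piPairLift_s0] at h
      have h2 : (piPairE0 (p v.1, v.2)).1 = (piPairE0 v).1 := congrArg s0 h
      have := congrArg Prod.fst (piPairE0_inj h2)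
      exact hp.ne _ this
  · intro ω
    refine piPair_ind (p := fun ω => piPairLift (fun v => (p v.1, v.2)) (o ω) =
      o (piPairLift (fun v => (p v.1, v.2)) ω)) ?_ ?_ ω
    · rintro ⟨ξ, i⟩
      show piPairLift _ (o (piPairE0 (ξ, i)).1) = o (piPairLift _ (piPairE0 (ξ, i)).1)
      rw [← piPairE0_succ, piPairLift_e0, piPairLift_e0, ← piPairE0_succ]
    · rintro ⟨ξ, i⟩
      show piPairLift _ (o (s0 (piPairE0 (ξ, i)).1)) = o (piPairLift _ (s0 (piPairE0 (ξ, i)).1))
      rw [piPair_os0, ← piPairE0_succ, piPairLift_s0, piPairLift_s0, piPair_os0, ← piPairE0_succ]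
  · intro ω
    refine piPair_ind (p := fun ω => piPairLift (fun v => (p v.1, v.2)) (s0 ω) =
      s0 (piPairLift (fun v => (p v.1, v.2)) ω)) ?_ ?_ ω
    · intro v
      show piPairLift _ (s0 (piPairE0 v).1) = s0 (piPairLift _ (piPairE0 v).1)
      rw [piPairLift_e0, piPairLift_s0]
    · intro v
      show piPairLift _ (s0 (s0 (piPairE0 v).1)) = s0 (piPairLift _ (s0 (piPairE0 v).1))
      rw [piPair_s0s0, piPairLift_e0, piPairLift_s0, piPair_s0s0]
  · have hinv : ∀ ω : I.A, piPairLift (fun v => (p v.1, v.2)) (piPairLift (fun v => (p v.1, v.2)) ω) = ω := by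
      intro ω
      refine piPair_ind (p := fun ω => piPairLift (fun v => (p v.1, v.2)) (piPairLift (fun v => (p v.1, v.2)) ω)
        = ω) ?_ ?_ ω
      · intro v
        show piPairLift _ (piPairLift _ (piPairE0 v).1) = _
        rw [piPairLift_e0, piPairLift_e0, hp.inv]
      · intro v
        show piPairLift _ (piPairLift _ (s0 (piPairE0 v).1)) = _
        rw [piPairLift_s0, piPairLift_s0, hp.inv]
    rw [piPair_orb_bt _ hinv, piPair_orb_bt _ piPair_oo, piPair_orb_lift, ← piPairLift_o, piPair_orb_lift, piPair_card_A, ← hcard]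
    omega

end Imm

end Pool.Agent.Lib.MP_131179_gt.Dehn
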