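import Pool.Agent.Lib.MP_131179_gt.Dehn.Beta

/-!
# Region functions

Every even set of pieces of chords is the boundary of a set of regions.
-/

set_option autoImplicit false

namespace Pool.Agent.Lib.MP_131179_gt.Dehn

namespace Imm

variable {Ψ : Type} {I : Imm Ψ}

/-- `g` is even at the crossings. -/
def Even4 [Finite Ψ] (g : I.Om → F2) : Prop :=
  ∀ ω : I.A, g (Sum.inr ω) + g (Sum.inr (o ω)) + g (Sum.inr (s0 ω)) + g (Sum.inr (s1 ω)) = 0

/-- A region function for `g`: `f ω s` is the value on the side `s` of the piece `ω`, and `D` gives the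
values near the points of the surface. -/
structure RegFun [Finite Ψ] (I : Imm Ψ) (g : I.Om → F2) (D : Ψ → F2) (f : I.Om → F2 → F2) :
    Prop where
  Dd : ∀ z, D (I.d z) = D z
  f0 : ∀ (x : Ψ) (h : I.co x = 0), f (pt x h) 0 = D x
  f1 : ∀ (x : Ψ) (h : I.co x = 0), f (pt x h) 1 = D (I.c x)
  fβ : ∀ ω s, f (I.β ω) s = f ω s
  jump : ∀ ω, f ω 0 + f ω 1 = g ω
  c0 : ∀ ω : I.A, f (Sum.inr ω) (idx ω) = f (Sum.inr (s0 ω)) (idx ω)
  c1 : ∀ ω : I.A, f (Sum.inr ω) (idx ω + 1) = f (Sum.inr (s1 ω)) (idx ω)

/-! ### Arithmetic in `F2` -/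

theorem region_add_self (a : F2) : a + a = 0 := CharTwo.add_self_eq_zero a

theorem region_eq_of_add {a b : F2} (h : a + b = 0) : a = b := by
  revert a b; decide

theorem region_ne {a b : F2} (h : a ≠ b) : b = a + 1 := by
  revert a b; decide

/-! ### Values at the crossings -/

theorem region_ev_of {g : I.Om → F2} {x y : Ψ} (h : I.Cross x y) : ev g x y = g (cr x y h) := by
  unfold ev
  rw [dif_pos h]

theorem region_ev_not {g : I.Om → F2} {x y : Ψ} (h : ¬ I.Cross x y) : ev g x y = 0 := by
  unfold ev
  rw [dif_neg h]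

theorem region_evp_of {g : I.Om → F2} {x : Ψ} (h : I.co x = 0) : evp g x = g (pt x h) := by
  unfold evp
  rw [dif_pos h]

theorem region_evp_not {g : I.Om → F2} {x : Ψ} (h : I.co x ≠ 0) : evp g x = 0 := by
  unfold evp
  rw [dif_neg h]

theorem region_cross_M [Finite Ψ] {x y : Ψ} : I.Cross (I.M x) (I.M y) ↔ I.Cross x y := by
  constructor
  · intro h
    have h1 := h.M
    rwa [I.MM, I.MM] at h1
  · exact Cross.M

theorem region_jmp_not [Finite Ψ] {g : I.Om → F2} {x y : Ψ} (h : ¬ I.Cross x y) :
    jmp g x y = 0 := by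
  unfold jmp
  rw [region_ev_not h, region_ev_not (fun h' => h (region_cross_M.1 h')), add_zero]

theorem region_jmp_M {g : I.Om → F2} (x y : Ψ) : jmp g (I.M x) (I.M y) = jmp g x y := by
  unfold jmp
  rw [I.MM, I.MM, add_comm]

theorem region_jmp_symm [Finite Ψ] {g : I.Om → F2} (hev : Even4 g) (x y : Ψ) :
    jmp g y x = jmp g x y := by
  by_cases h : I.Cross x y
  · have h1 := hev ⟨(x, y), h⟩
    have e1 : ev g x y = g (Sum.inr ⟨(x, y), h⟩) := region_ev_of h
    have e2 : ev g (I.M x) (I.M y) = g (Sum.inr (o ⟨(x, y), h⟩)) := region_ev_of h.M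
    have e3 : ev g y x = g (Sum.inr (s0 ⟨(x, y), h⟩)) := region_ev_of h.symm
    have e4 : ev g (I.M y) (I.M x) = g (Sum.inr (s1 ⟨(x, y), h⟩)) := region_ev_of h.M.symm
    unfold jmp
    rw [e1, e2, e3, e4]
    symm
    apply region_eq_of_add
    rw [← h1]
    ring
  · rw [region_jmp_not h, region_jmp_not (fun h' => h h'.symm)]

/-- Multiply by a jump: only crossings matter. -/
theorem region_jmp_congr [Finite Ψ] {g : I.Om → F2} {x y : Ψ} {a b : F2}
    (h : I.Cross x y → a = b) : jmp g x y * a = jmp g x y * b := by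
  by_cases hc : I.Cross x y
  · rw [h hc]
  · rw [region_jmp_not hc, zero_mul, zero_mul]

theorem region_sum_M [Fintype Ψ] (f : Ψ → F2) : ∑ y, f (I.M y) = ∑ y, f y :=
  Equiv.sum_comp (Function.Involutive.toPerm I.M I.MM) f

theorem region_M_ne (x : Ψ) : I.M x ≠ x := fun h => by
  have := I.sgM x
  rw [h] at this
  simp at this

theorem region_CD_M {z x : Ψ} (h : I.CD z x) : I.CD z (I.M x) := TMap.CD.trans h (I.cdM x)

theorem region_CD_c {z x : Ψ} (h : I.CD z x) : I.CD z (I.c x) :=
  TMap.CD.trans h (TMap.CD.c I.toTMap x)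

theorem region_CD_d {z x : Ψ} (h : I.CD z x) : I.CD z (I.d x) :=
  TMap.CD.trans h (TMap.CD.d I.toTMap x)

theorem region_brel [Finite Ψ] {g : I.Om → F2} (hβ : ∀ ω, g (I.β ω) = g ω) {ω ω' : I.Om}
    (h : BRel ω ω') : g ω = g ω' := by
  have h1 : I.β ω = ω' := (β_rel ω).unique h
  rw [← h1, hβ]

/-! ### The coefficients -/

/-- The linear coefficient of the chord of `x`. -/
noncomputable def region_H [Fintype Ψ] (g : I.Om → F2) (x : Ψ) : F2 :=
  evp g x + ∑ y, jmp g x y * I.P y x

theorem region_H_not [Fintype Ψ] {g : I.Om → F2} {x : Ψ} (h : I.co x ≠ 0) :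
    region_H g x = 0 := by
  unfold region_H
  rw [region_evp_not h, zero_add]
  apply Finset.sum_eq_zero
  intro y _
  rw [region_jmp_not (fun h' => h h'.cox), zero_mul]

open Classical in
theorem region_H_M [Fintype Ψ] {g : I.Om → F2} (hβ : ∀ ω, g (I.β ω) = g ω) {x : Ψ}
    (h : I.co x = 0) : region_H g (I.M x) = region_H g x := by
  unfold region_H
  have h1 := tel_all (fun ω ω' h' => region_brel hβ h') h
  rw [h1, ← region_sum_M (I := I)]
  have h2 : ∑ y, jmp g (I.M x) (I.M y) * I.P (I.M y) (I.M x) =
      ∑ y, (jmp g x y * I.P y x + jmp g x y) := by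
    apply Finset.sum_congr rfl
    intro y _
    rw [region_jmp_M]
    have h3 : jmp g x y * I.P (I.M y) (I.M x) = jmp g x y * (I.P y x + 1) := by
      apply region_jmp_congr
      intro hc
      rw [P_M_left (region_CD_M (TMap.CD.symm hc.cd)), region_ne hc.ne]
    rw [h3]
    ring
  have h4 : ∑ z ∈ Finset.univ.filter (fun z => I.Cross x z), jmp g x z = ∑ z, jmp g x z := by
    rw [Finset.sum_filter]
    apply Finset.sum_congr rfl
    intro z _
    by_cases hc : I.Cross x z
    · rw [if_pos hc]
    · rw [if_neg hc, region_jmp_not hc]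
  rw [h2, h4, Finset.sum_add_distrib]
  have h5 := region_add_self (∑ z, jmp g x z)
  linear_combination h5

open Classical in
/-- The polynomial of the disc of `z`. -/
noncomputable def region_F [Fintype Ψ] (g : I.Om → F2) (z : Ψ) (E : Ψ → F2) : F2 :=
  ∑ x, (if I.CD z x then 1 else 0) *
    (I.sg x * (region_H g x * E x + (1 + I.col x) * ∑ y, jmp g x y * (E x * E y)))

open Classical in
theorem region_F_congr [Fintype Ψ] {g : I.Om → F2} {z z' : Ψ} (hz : I.CD z z') {E E' : Ψ → F2}
    (h : ∀ u, I.CD z u → I.co u = 0 → E u = E' u) : region_F g z E = region_F g z' E' := by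
  unfold region_F
  apply Finset.sum_congr rfl
  intro x _
  by_cases hx : I.CD z x
  · rw [if_pos hx, if_pos (TMap.CD.trans (TMap.CD.symm hz) hx)]
    by_cases hc : I.co x = 0
    · rw [h x hx hc]
      have h1 : ∑ y, jmp g x y * (E' x * E y) = ∑ y, jmp g x y * (E' x * E' y) := by
        apply Finset.sum_congr rfl
        intro y _
        apply region_jmp_congr
        intro h2
        rw [h y (TMap.CD.trans hx h2.cd) h2.coy]
      rw [h1]
    · have h1 : ∀ E'' : Ψ → F2, ∑ y, jmp g x y * (E'' x * E'' y) = 0 := by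
        intro E''
        apply Finset.sum_eq_zero
        intro y _
        rw [region_jmp_not (fun h' => hc h'.cox), zero_mul]
      rw [region_H_not hc, h1, h1]
      ring
  · rw [if_neg hx, if_neg (fun h' => hx (TMap.CD.trans hz h'))]
    ring

/-- The sum over the crossings of the chord of `x` only depends on the chord. -/
theorem region_S_M [Fintype Ψ] {g : I.Om → F2} {z x : Ψ} (hz : I.CD z x) {E : Ψ → F2}
    (hE : ∀ u, I.CD z u → I.co u = 0 → E (I.M u) = E u) :
    ∑ y, jmp g (I.M x) y * E y = ∑ y, jmp g x y * E y := by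
  rw [← region_sum_M (I := I)]
  apply Finset.sum_congr rfl
  intro y _
  rw [region_jmp_M]
  apply region_jmp_congr
  intro hc
  exact hE y (TMap.CD.trans hz hc.cd) hc.coy

open Classical in
/-- The jump of the polynomial. -/
theorem region_jump [Fintype Ψ] {g : I.Om → F2} (hβ : ∀ ω, g (I.β ω) = g ω) (hev : Even4 g)
    {z x : Ψ} (hz : I.CD z x) (hx : I.co x = 0) {E0 E1 : Ψ → F2}
    (hE : ∀ u, I.CD z u → I.co u = 0 → E0 (I.M u) = E0 u)
    (h1 : E1 x = E0 x + 1) (h2 : E1 (I.M x) = E0 (I.M x) + 1)
    (h3 : ∀ u, I.CD z u → I.co u = 0 → u ≠ x → u ≠ I.M x → E1 u = E0 u) :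
    region_F g z E0 + region_F g z E1 = region_H g x + ∑ y, jmp g x y * E0 y := by
  have hMx : I.M x ≠ x := region_M_ne x
  set δ : Ψ → F2 := fun u => if u = x ∨ u = I.M x then 1 else 0 with hδ
  have hδx : δ x = 1 := by simp [hδ]
  have hδM : δ (I.M x) = 1 := by simp [hδ]
  have hδ0 : ∀ u, u ≠ x → u ≠ I.M x → δ u = 0 := by
    intro u hu hu'
    simp [hδ, hu, hu']
  have hE1 : region_F g z E1 = region_F g z (fun u => E0 u + δ u) := by
    apply region_F_congr (TMap.CD.refl I.toTMap z)
    intro u hu hu0
    by_cases hux : u = x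
    · rw [hux, hδx, h1]
    · by_cases huM : u = I.M x
      · rw [huM, hδM, h2]
      · rw [hδ0 u hux huM, add_zero, h3 u hu hu0 hux huM]
  rw [hE1]
  have hcol : ∀ u, δ u ≠ 0 → I.col u = I.col x := by
    intro u hu
    by_cases hux : u = x
    · rw [hux]
    · by_cases huM : u = I.M x
      · rw [huM, I.colM]
      · exact absurd (hδ0 u hux huM) hu
  have hquad : ∀ u v, jmp g u v * (δ u * δ v) = 0 := by
    intro u v
    by_cases hu : δ u = 0
    · rw [hu]; ring
    by_cases hv : δ v = 0
    · rw [hv]; ring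
    rw [region_jmp_not, zero_mul]
    intro hc
    exact hc.col (by rw [hcol u hu, hcol v hv])
  set ι : Ψ → F2 := fun u => if I.CD z u then 1 else 0 with hι
  have hιx : ι x = 1 := by simp [hι, hz]
  have hιM : ι (I.M x) = 1 := by
    have := region_CD_M hz
    simp [hι, this]
  have expand : region_F g z E0 + region_F g z (fun u => E0 u + δ u) =
      (∑ u, ι u * (I.sg u * (region_H g u * δ u))) +
      ((∑ u, ∑ v, ι u * I.sg u * (1 + I.col u) * jmp g u v * (δ u * E0 v)) +
      (∑ u, ∑ v, ι u * I.sg u * (1 + I.col u) * jmp g u v * (E0 u * δ v))) := by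
    unfold region_F
    rw [← Finset.sum_add_distrib, ← Finset.sum_add_distrib, ← Finset.sum_add_distrib]
    apply Finset.sum_congr rfl
    intro u _
    have e1 : ∑ v, jmp g u v * ((E0 u + δ u) * (E0 v + δ v)) =
        ∑ v, jmp g u v * (E0 u * E0 v) + (∑ v, jmp g u v * (δ u * E0 v) +
          ∑ v, jmp g u v * (E0 u * δ v)) := by
      rw [← Finset.sum_add_distrib, ← Finset.sum_add_distrib]
      apply Finset.sum_congr rfl
      intro v _
      linear_combination hquad u v
    have e2 : ∑ v, ι u * I.sg u * (1 + I.col u) * jmp g u v * (δ u * E0 v) =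
        ι u * I.sg u * (1 + I.col u) * ∑ v, jmp g u v * (δ u * E0 v) := by
      rw [Finset.mul_sum]
      apply Finset.sum_congr rfl
      intro v _
      ring
    have e3 : ∑ v, ι u * I.sg u * (1 + I.col u) * jmp g u v * (E0 u * δ v) =
        ι u * I.sg u * (1 + I.col u) * ∑ v, jmp g u v * (E0 u * δ v) := by
      rw [Finset.mul_sum]
      apply Finset.sum_congr rfl
      intro v _
      ring
    rw [e1, e2, e3]
    have e4 := region_add_self (ι u * (I.sg u * (region_H g u * E0 u + (1 + I.col u) *
      ∑ v, jmp g u v * (E0 u * E0 v))))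
    simp only [hι] at e4 ⊢
    linear_combination e4
  rw [expand]
  have swap : (∑ u, ∑ v, ι u * I.sg u * (1 + I.col u) * jmp g u v * (E0 u * δ v)) =
      ∑ u, ∑ v, ι u * (I.sg u + 1) * I.col u * jmp g u v * (δ u * E0 v) := by
    rw [Finset.sum_comm]
    apply Finset.sum_congr rfl
    intro u _
    apply Finset.sum_congr rfl
    intro v _
    rw [region_jmp_symm hev u v]
    by_cases hc : I.Cross u v
    · have e1 : ι v = ι u := by
        simp only [hι]
        by_cases hu : I.CD z u
        · rw [if_pos hu, if_pos (TMap.CD.trans hu hc.cd)]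
        · rw [if_neg hu, if_neg (fun h => hu (TMap.CD.trans h (TMap.CD.symm hc.cd)))]
      have e2 : I.sg v = I.sg u + 1 := hc.sg
      have e3 : I.col v = I.col u + 1 := region_ne hc.col
      have e4 : (1 : F2) + (I.col u + 1) = I.col u := by
        have := region_add_self (1 : F2)
        linear_combination this
      rw [e1, e2, e3, e4]
      ring
    · rw [region_jmp_not hc]
      ring
  rw [swap]
  have comb : (∑ u, ∑ v, ι u * I.sg u * (1 + I.col u) * jmp g u v * (δ u * E0 v)) +
      (∑ u, ∑ v, ι u * (I.sg u + 1) * I.col u * jmp g u v * (δ u * E0 v)) =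
      ∑ u, δ u * (ι u * ((I.sg u + I.col u) * ∑ v, jmp g u v * E0 v)) := by
    rw [← Finset.sum_add_distrib]
    apply Finset.sum_congr rfl
    intro u _
    rw [← Finset.sum_add_distrib, Finset.mul_sum, Finset.mul_sum, Finset.mul_sum]
    apply Finset.sum_congr rfl
    intro v _
    have := region_add_self (ι u * I.sg u * I.col u * jmp g u v * (δ u * E0 v))
    linear_combination this
  rw [comb]
  have pick : ∀ G : Ψ → F2, ∑ u, δ u * G u = G x + G (I.M x) := by
    intro G
    rw [← Finset.sum_subset (Finset.subset_univ ({x, I.M x} : Finset Ψ))]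
    · rw [Finset.sum_pair hMx.symm, hδx, hδM, one_mul, one_mul]
    · intro u _ hu
      simp only [Finset.mem_insert, Finset.mem_singleton, not_or] at hu
      rw [hδ0 u hu.1 hu.2, zero_mul]
  have lin : ∑ u, ι u * (I.sg u * (region_H g u * δ u)) =
      ∑ u, δ u * (ι u * (I.sg u * region_H g u)) := by
    apply Finset.sum_congr rfl
    intro u _
    ring
  rw [lin, pick, pick, hιx, hιM, I.sgM, I.colM, region_H_M hβ hx, region_S_M hz hE]
  have e1 := region_add_self (I.sg x * region_H g x)
  have e2 := region_add_self ((I.sg x + I.col x) * ∑ v, jmp g x v * E0 v)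
  linear_combination e1 + e2

/-! ### The vectors -/

open Classical in
/-- The vector of the side `s` of a point. -/
noncomputable def region_Ep (I : Imm Ψ) (x : Ψ) (s : F2) (u : Ψ) : F2 :=
  if u = x ∨ u = I.M x then s else I.P u x

open Classical in
/-- The vector of the side `s` of the end of a piece. -/
noncomputable def region_Ec (I : Imm Ψ) (x y : Ψ) (s : F2) (u : Ψ) : F2 :=
  if u = x ∨ u = I.M x then s else if u = y ∨ u = I.M y then I.P y x else
    if I.col u = I.col x then I.P u x else I.P u y

/-- The function near the points. -/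
noncomputable def region_D [Fintype Ψ] (g : I.Om → F2) (w : Ψ) : F2 :=
  region_F g w (fun u => I.P u w)

/-- The function on the sides of the pieces. -/
noncomputable def region_f [Fintype Ψ] (g : I.Om → F2) : I.Om → F2 → F2 :=
  Sum.elim (fun x s => region_F g x.1 (region_Ep I x.1 s))
    (fun ω s => region_F g ω.1.1 (region_Ec I ω.1.1 ω.1.2 s))

theorem region_Dd [Fintype Ψ] (g : I.Om → F2) (w : Ψ) : region_D g (I.d w) = region_D g w := by
  unfold region_D
  apply region_F_congr (TMap.CD.symm (TMap.CD.d I.toTMap w))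
  intro u hu _
  exact I.Pd u w (TMap.CD.symm (TMap.CD.trans (TMap.CD.d I.toTMap w) hu))

theorem region_f0 [Fintype Ψ] (g : I.Om → F2) {x : Ψ} (h : I.co x = 0) :
    region_F g x (region_Ep I x 0) = region_D g x := by
  unfold region_D
  apply region_F_congr (TMap.CD.refl I.toTMap x)
  intro u _ _
  unfold region_Ep
  by_cases hu : u = x ∨ u = I.M x
  · rw [if_pos hu]
    rcases hu with rfl | rfl
    · rw [I.Pself, h]
    · rw [P_M_left (TMap.CD.refl I.toTMap x), I.Pself, h]
  · rw [if_neg hu]

theorem region_Pc {x u : Ψ} (hcd : I.CD u x) (hx : I.co x = 0) (hu0 : I.co u = 0) (h1 : u ≠ x)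
    (h2 : u ≠ I.M x) : I.P u (I.c x) = I.P u x := by
  apply I.Pc u x hcd
  · exact fun h => h1 h.symm
  · intro h
    have h3 := I.coc u
    rw [← h, hx, hu0] at h3
    exact absurd h3 (by decide)
  · intro h
    apply h2
    rw [h, I.MM]
  · intro h
    have h3 := I.coc (I.M u)
    rw [← h, hx, I.coM, hu0] at h3
    exact absurd h3 (by decide)

theorem region_f1 [Fintype Ψ] (g : I.Om → F2) {x : Ψ} (h : I.co x = 0) :
    region_F g x (region_Ep I x 1) = region_D g (I.c x) := by
  unfold region_D
  apply region_F_congr (TMap.CD.c I.toTMap x)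
  intro u hcd hu0
  unfold region_Ep
  by_cases hu : u = x ∨ u = I.M x
  · rw [if_pos hu]
    rcases hu with rfl | rfl
    · rw [I.Pself', h, zero_add]
    · rw [P_M_left (TMap.CD.c I.toTMap x), I.Pself', h, zero_add]
  · rw [if_neg hu]
    rw [not_or] at hu
    exact (region_Pc (TMap.CD.symm hcd) h hu0 hu.1 hu.2).symm

theorem region_ne_of_cross {x y : Ψ} (h : I.Cross x y) : y ≠ x ∧ y ≠ I.M x := by
  constructor
  · rintro rfl
    exact h.col rfl
  · rintro rfl
    exact h.col (I.colM x).symm

theorem region_jump_pt [Fintype Ψ] {g : I.Om → F2} (hβ : ∀ ω, g (I.β ω) = g ω) (hev : Even4 g)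
    {x : Ψ} (h : I.co x = 0) :
    region_F g x (region_Ep I x 0) + region_F g x (region_Ep I x 1) = g (pt x h) := by
  classical
  have hMx : I.M x ≠ x := region_M_ne x
  rw [region_jump hβ hev (TMap.CD.refl I.toTMap x) h]
  · have e1 : ∑ y, jmp g x y * region_Ep I x 0 y = ∑ y, jmp g x y * I.P y x := by
      apply Finset.sum_congr rfl
      intro y _
      apply region_jmp_congr
      intro hc
      unfold region_Ep
      rw [if_neg]
      rw [not_or]
      exact region_ne_of_cross hc
    rw [e1]
    unfold region_H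
    rw [region_evp_of h]
    have := region_add_self (∑ y, jmp g x y * I.P y x)
    linear_combination this
  · intro u hu hu0
    unfold region_Ep
    by_cases hux : u = x ∨ u = I.M x
    · rw [if_pos hux, if_pos]
      rcases hux with rfl | rfl
      · exact Or.inr rfl
      · exact Or.inl (I.MM x)
    · rw [if_neg hux, if_neg]
      · exact P_M_left (TMap.CD.symm hu)
      · rintro (h1 | h1)
        · apply hux
          right
          rw [← h1, I.MM]
        · apply hux
          left
          rw [← I.MM u, h1, I.MM]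
  · unfold region_Ep
    rw [if_pos (Or.inl rfl), if_pos (Or.inl rfl), zero_add]
  · unfold region_Ep
    rw [if_pos (Or.inr rfl), if_pos (Or.inr rfl), zero_add]
  · intro u _ _ h1 h2
    unfold region_Ep
    rw [if_neg (not_or.2 ⟨h1, h2⟩), if_neg (not_or.2 ⟨h1, h2⟩)]

theorem region_jump_cr [Fintype Ψ] {g : I.Om → F2} (hβ : ∀ ω, g (I.β ω) = g ω) (hev : Even4 g)
    {x y : Ψ} (h : I.Cross x y) :
    region_F g x (region_Ec I x y 0) + region_F g x (region_Ec I x y 1) = g (cr x y h) := by
  classical
  have hMx : I.M x ≠ x := region_M_ne x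
  have hne := region_ne_of_cross h
  rw [region_jump hβ hev (TMap.CD.refl I.toTMap x) h.cox]
  · rw [← region_ev_of (g := g) h, tel_cross (fun ω ω' h' => region_brel hβ h') h]
    unfold region_H
    have e1 : ∑ z ∈ Finset.univ.filter (fun z => I.Cross x z ∧ I.Lt x z y), jmp g x z =
        ∑ z, (jmp g x z * I.P z x + jmp g x z * region_Ec I x y 0 z) := by
      rw [Finset.sum_filter]
      apply Finset.sum_congr rfl
      intro z _
      by_cases hc : I.Cross x z
      · have hz := region_ne_of_cross hc
        unfold region_Ec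
        rw [if_neg (not_or.2 hz)]
        by_cases hzy : z = y
        · subst hzy
          rw [if_pos (Or.inl rfl), if_neg]
          · rw [region_add_self]
          · rintro ⟨_, h1⟩
            exact h1.1 rfl
        · have hzM : z ≠ I.M y := Cross.ne_M h hc
          rw [if_neg (not_or.2 ⟨hzy, hzM⟩), if_neg (fun h' : I.col z = I.col x => hc.col h'.symm)]
          by_cases hlt : I.Lt x z y
          · rw [if_pos ⟨hc, hlt⟩]
            have h1 : ¬ I.Lt x y z := not_lt_lt hc h hlt
            have h2 : I.P z y ≠ I.P z x := by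
              intro h3
              exact h1 ⟨fun h4 => hzy h4.symm, h3⟩
            rw [region_ne h2]
            have := region_add_self (jmp g x z * I.P z y)
            linear_combination -this
          · rw [if_neg (fun h' => hlt h'.2)]
            have h1 : I.Lt x y z := (lt_or_lt hc h hzy).resolve_left hlt
            rw [h1.2]
            exact (region_add_self _).symm
      · rw [if_neg (fun h' => hc h'.1), region_jmp_not hc]
        ring
    rw [e1, Finset.sum_add_distrib]
    ring
  · intro u hu hu0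
    unfold region_Ec
    have key : ∀ v : Ψ, (I.M u = v ∨ I.M u = I.M v) ↔ (u = v ∨ u = I.M v) := by
      intro v
      constructor
      · rintro (h1 | h1)
        · right
          rw [← h1, I.MM]
        · left
          rw [← I.MM u, h1, I.MM]
      · rintro (h1 | h1)
        · right
          rw [h1]
        · left
          rw [h1, I.MM]
    by_cases hux : u = x ∨ u = I.M x
    · rw [if_pos hux, if_pos ((key x).2 hux)]
    · rw [if_neg hux, if_neg (fun h' => hux ((key x).1 h'))]
      by_cases huy : u = y ∨ u = I.M y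
      · rw [if_pos huy, if_pos ((key y).2 huy)]
      · rw [if_neg huy, if_neg (fun h' => huy ((key y).1 h')), I.colM]
        by_cases hcol : I.col u = I.col x
        · rw [if_pos hcol, if_pos hcol]
          exact P_M_left (TMap.CD.symm hu)
        · rw [if_neg hcol, if_neg hcol]
          exact P_M_left (TMap.CD.trans (TMap.CD.symm hu) h.cd)
  · unfold region_Ec
    rw [if_pos (Or.inl rfl), if_pos (Or.inl rfl), zero_add]
  · unfold region_Ec
    rw [if_pos (Or.inr rfl), if_pos (Or.inr rfl), zero_add]
  · intro u _ _ h1 h2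
    unfold region_Ec
    rw [if_neg (not_or.2 ⟨h1, h2⟩), if_neg (not_or.2 ⟨h1, h2⟩)]

/-! ### Invariance -/

theorem region_col {x y u : Ψ} (h : I.col u ≠ I.col x) (h' : I.col y ≠ I.col x) :
    I.col u = I.col y := by
  rw [region_ne h.symm, region_ne h'.symm]

theorem region_P_M {x u : Ψ} (hcd : I.CD x u) (hc : I.col u = I.col x) :
    I.P u (I.M x) = I.P u x :=
  I.PM u x (TMap.CD.symm hcd) hc.symm

/-- Either the chord of `u` crosses the chord of `x`, or it does not separate its ends. -/
theorem region_cross_or [Finite Ψ] {x u : Ψ} (hx : I.co x = 0) (hcd : I.CD x u)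
    (hu : I.co u = 0) (hc : I.col u ≠ I.col x) :
    I.P u x = I.P u (I.M x) ∨ ∃ v, I.Cross x v ∧ (v = u ∨ v = I.M u) := by
  by_cases h : I.P u x = I.P u (I.M x)
  · exact Or.inl h
  · right
    rcases cross_or hcd hc.symm hx hu h with h1 | h1
    · exact ⟨u, h1, Or.inl rfl⟩
    · exact ⟨I.M u, h1, Or.inr rfl⟩

theorem region_P_v {x u v w : Ψ} (hcd : I.CD x u) (hv : v = u ∨ v = I.M u) (hw : I.CD x w) :
    I.P v w = I.P u w := by
  rcases hv with rfl | rfl
  · rfl
  · exact P_M_left (TMap.CD.trans (TMap.CD.symm hcd) hw)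

theorem region_v_ne {u v y : Ψ} (hv : v = u ∨ v = I.M u) (h1 : u ≠ y) (h2 : u ≠ I.M y) :
    v ≠ y := by
  rcases hv with rfl | rfl
  · exact h1
  · rintro rfl
    exact h2 (I.MM u).symm

theorem region_min [Finite Ψ] {x y u : Ψ} (hy : I.Cross x y)
    (hmin : ∀ z, I.Cross x z → ¬ I.Lt x z y) (hcd : I.CD x u) (hu : I.co u = 0)
    (hc : I.col u ≠ I.col x) (h1 : u ≠ y) (h2 : u ≠ I.M y) : I.P u y = I.P u x := by
  rcases region_cross_or hy.cox hcd hu hc with h | ⟨v, hv, hvu⟩
  · exact P_of_not_cross hy hcd (region_col hc hy.col.symm) h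
  · have hvy := region_v_ne hvu h1 h2
    have h3 : I.Lt x y v := (lt_or_lt hv hy hvy).resolve_left (hmin v hv)
    have h4 := h3.2
    rwa [region_P_v hcd hvu hy.cd, region_P_v hcd hvu (TMap.CD.refl I.toTMap x)] at h4

theorem region_adj [Finite Ψ] {x y z u : Ψ} (hy : I.Cross x y) (hz : I.Cross x z)
    (h : I.Lt x z y) (hadj : ∀ w, I.Cross x w → ¬ (I.Lt x z w ∧ I.Lt x w y))
    (hcd : I.CD x u) (hu : I.co u = 0) (hc : I.col u ≠ I.col x) (h1 : u ≠ y) (h2 : u ≠ I.M y)
    (h3 : u ≠ z) (h4 : u ≠ I.M z) : I.P u z = I.P u y := by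
  rcases region_cross_or hy.cox hcd hu hc with h' | ⟨v, hv, hvu⟩
  · rw [P_of_not_cross hy hcd (region_col hc hy.col.symm) h',
      P_of_not_cross hz hcd (region_col hc hz.col.symm) h']
  · have hvy := region_v_ne hvu h1 h2
    have hvz := region_v_ne hvu h3 h4
    rw [← region_P_v hcd hvu hy.cd, ← region_P_v hcd hvu hz.cd]
    rcases lt_or_lt hv hy hvy with h5 | h5
    · have h6 : ¬ I.Lt x z v := fun h7 => hadj v hv ⟨h7, h5⟩
      have h7 : ¬ I.Lt x y v := not_lt_lt hv hy h5
      have h8 : I.P v y ≠ I.P v x := fun h9 => h7 ⟨hvy.symm, h9⟩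
      have h9 : I.P v z ≠ I.P v x := fun h9 => h6 ⟨hvz.symm, h9⟩
      rw [region_ne h8.symm, region_ne h9.symm]
    · have h6 : I.Lt x z v := lt_trans hz hy hv h h5
      rw [h6.2, h5.2]

theorem region_f_brel [Fintype Ψ] (g : I.Om → F2) {ω ω' : I.Om} (h : BRel ω ω') (s : F2) :
    region_f g ω' s = region_f g ω s := by
  have first : ∀ (x y : Ψ) (h : I.Cross x y) (hmin : ∀ z, I.Cross x z → ¬ I.Lt x z y),
      region_F g x (region_Ep I x s) = region_F g x (region_Ec I x y s) := by
    intro x y h hmin
    apply region_F_congr (TMap.CD.refl I.toTMap x)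
    intro u hcd hu
    unfold region_Ep region_Ec
    by_cases hux : u = x ∨ u = I.M x
    · rw [if_pos hux, if_pos hux]
    · rw [if_neg hux, if_neg hux]
      by_cases huy : u = y ∨ u = I.M y
      · rw [if_pos huy]
        rcases huy with rfl | rfl
        · rfl
        · exact P_M_left (TMap.CD.symm h.cd)
      · rw [if_neg huy]
        rw [not_or] at huy
        by_cases hc : I.col u = I.col x
        · rw [if_pos hc]
        · rw [if_neg hc]
          exact (region_min h hmin hcd hu hc huy.1 huy.2).symm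
  cases h with
  | free x hx hx' h =>
    show region_F g (I.M x) (region_Ep I (I.M x) s) = region_F g x (region_Ep I x s)
    apply region_F_congr (TMap.CD.symm (I.cdM x))
    intro u hcd hu
    have hcd' : I.CD x u := TMap.CD.trans (I.cdM x) hcd
    unfold region_Ep
    by_cases hux : u = x ∨ u = I.M x
    · rw [if_pos hux, if_pos]
      rcases hux with rfl | rfl
      · exact Or.inr (I.MM u).symm
      · exact Or.inl rfl
    · rw [if_neg hux, if_neg]
      · by_cases hc : I.col u = I.col x
        · exact region_P_M hcd' hc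
        · rcases region_cross_or hx hcd' hu hc with h' | ⟨v, hv, _⟩
          · exact h'.symm
          · exact absurd hv (h v)
      · rw [I.MM]
        exact fun h' => hux h'.symm
  | first x y hx h hmin => exact (first x y h hmin).symm
  | first' x y hx h hmin => exact first x y h hmin
  | adj x y z hy hz h hadj hMz =>
    show region_F g (I.M x) (region_Ec I (I.M x) (I.M z) s) = region_F g x (region_Ec I x y s)
    apply region_F_congr (TMap.CD.symm (I.cdM x))
    intro u hcd hu
    have hcd' : I.CD x u := TMap.CD.trans (I.cdM x) hcd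
    have hzy : z ≠ y := h.1
    have hzM : z ≠ I.M y := Cross.ne_M hy hz
    have hMzy : I.M z ≠ y := by
      rintro rfl
      exact hzM (I.MM z).symm
    have hMzM : I.M z ≠ I.M y := by
      intro h'
      apply hzy
      rw [← I.MM z, h', I.MM]
    have hcol : I.col z = I.col y := region_col hz.col.symm hy.col.symm
    unfold region_Ec
    rw [I.MM, I.MM, I.colM]
    by_cases hux : u = x ∨ u = I.M x
    · rw [if_pos hux, if_pos hux.symm]
    rw [if_neg hux, if_neg (fun h' => hux h'.symm)]
    by_cases hc : I.col u = I.col x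
    · have huy : ¬ (u = y ∨ u = I.M y) := by
        rintro (rfl | rfl)
        · exact hy.col hc.symm
        · rw [I.colM] at hc
          exact hy.col hc.symm
      have huz : ¬ (u = I.M z ∨ u = z) := by
        rintro (rfl | rfl)
        · rw [I.colM] at hc
          exact hz.col hc.symm
        · exact hz.col hc.symm
      rw [if_neg huy, if_neg huz, if_pos hc, if_pos hc]
      exact region_P_M hcd' hc
    rw [if_neg hc, if_neg hc]
    by_cases huz : u = I.M z ∨ u = z
    · have huy : ¬ (u = y ∨ u = I.M y) := by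
        rcases huz with rfl | rfl
        · exact not_or.2 ⟨hMzy, hMzM⟩
        · exact not_or.2 ⟨hzy, hzM⟩
      rw [if_pos huz, if_neg huy]
      have e1 : I.P (I.M z) (I.M x) = I.P z x + 1 := by
        rw [P_M_left (region_CD_M (TMap.CD.symm hz.cd)), region_ne hz.ne]
      have e2 : I.P u y = I.P z y := by
        rcases huz with rfl | rfl
        · exact P_M_left (TMap.CD.trans (TMap.CD.symm hz.cd) hy.cd)
        · rfl
      have e3 : I.P z y ≠ I.P z x := by
        intro h'
        exact not_lt_lt hz hy h ⟨hzy.symm, h'⟩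
      rw [e1, e2, region_ne e3.symm]
    rw [if_neg huz]
    by_cases huy : u = y ∨ u = I.M y
    · rw [if_pos huy]
      have e1 : I.P u (I.M z) = I.P y z := by
        have e2 : I.P u (I.M z) = I.P y (I.M z) := by
          rcases huy with rfl | rfl
          · rfl
          · exact P_M_left (region_CD_M (TMap.CD.trans (TMap.CD.symm hy.cd) hz.cd))
        rw [e2]
        exact region_P_M (TMap.CD.trans (TMap.CD.symm hz.cd) hy.cd) hcol.symm
      rw [e1, h.2]
    rw [if_neg huy]
    rw [not_or] at huy huz
    rw [region_P_M (TMap.CD.trans (TMap.CD.symm hz.cd) hcd') (region_col hc hz.col.symm)]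
    exact region_adj hy hz h hadj hcd' hu hc huy.1 huy.2 huz.2 huz.1

theorem region_c0 [Fintype Ψ] (g : I.Om → F2) (ω : I.A) :
    region_f g (Sum.inr ω) (idx ω) = region_f g (Sum.inr (s0 ω)) (idx ω) := by
  obtain ⟨⟨x, y⟩, h⟩ := ω
  have h' : I.Cross x y := h
  show region_F g x (region_Ec I x y (I.P y x)) = region_F g y (region_Ec I y x (I.P y x))
  apply region_F_congr h'.cd
  intro u hcd hu
  unfold region_Ec
  have hne := region_ne_of_cross h'
  by_cases hux : u = x ∨ u = I.M x
  · have huy : ¬ (u = y ∨ u = I.M y) := by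
      intro h1
      have e1 : I.col u = I.col x := by
        rcases hux with rfl | rfl
        · rfl
        · exact I.colM x
      have e2 : I.col u = I.col y := by
        rcases h1 with rfl | rfl
        · rfl
        · exact I.colM y
      exact h'.col (e1.symm.trans e2)
    rw [if_pos hux, if_neg huy, if_pos hux]
    exact h'.eq
  · rw [if_neg hux]
    by_cases huy : u = y ∨ u = I.M y
    · rw [if_pos huy, if_pos huy]
    · rw [if_neg huy, if_neg huy, if_neg hux]
      by_cases hc : I.col u = I.col x
      · rw [if_pos hc, if_neg (fun h1 => h'.col (hc.symm.trans h1))]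
      · rw [if_neg hc, if_pos (region_col hc h'.col.symm)]

theorem region_c1 [Fintype Ψ] (g : I.Om → F2) (ω : I.A) :
    region_f g (Sum.inr ω) (idx ω + 1) = region_f g (Sum.inr (s1 ω)) (idx ω) := by
  obtain ⟨⟨x, y⟩, h⟩ := ω
  have h' : I.Cross x y := h
  show region_F g x (region_Ec I x y (I.P y x + 1)) =
    region_F g (I.M y) (region_Ec I (I.M y) (I.M x) (I.P y x))
  apply region_F_congr (region_CD_M h'.cd)
  intro u hcd hu
  unfold region_Ec
  rw [I.MM, I.MM, I.colM]
  by_cases hux : u = x ∨ u = I.M x
  · have huy : ¬ (u = y ∨ u = I.M y) := by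
      intro h1
      have e1 : I.col u = I.col x := by
        rcases hux with rfl | rfl
        · rfl
        · exact I.colM x
      have e2 : I.col u = I.col y := by
        rcases h1 with rfl | rfl
        · rfl
        · exact I.colM y
      exact h'.col (e1.symm.trans e2)
    rw [if_pos hux, if_neg (fun h1 : u = I.M y ∨ u = y => huy h1.symm), if_pos hux.symm,
      P_M_left (region_CD_M h'.cd), region_ne h'.symm.ne, h'.eq]
  · rw [if_neg hux, if_neg (fun h1 : u = I.M x ∨ u = x => hux h1.symm)]
    by_cases huy : u = y ∨ u = I.M y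
    · rw [if_pos huy, if_pos huy.symm]
    · rw [if_neg huy, if_neg (fun h1 : u = I.M y ∨ u = y => huy h1.symm)]
      by_cases hc : I.col u = I.col x
      · rw [if_pos hc, if_neg (fun h1 : I.col u = I.col y => h'.col (hc.symm.trans h1))]
        exact (region_P_M hcd hc).symm
      · rw [if_neg hc, if_pos (region_col hc h'.col.symm)]
        exact (region_P_M (TMap.CD.trans (TMap.CD.symm h'.cd) hcd)
          (region_col hc h'.col.symm)).symm

theorem region_main [Fintype Ψ] {g : I.Om → F2} (hβ : ∀ ω, g (I.β ω) = g ω) (hev : Even4 g) :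
    RegFun I g (region_D g) (region_f g) where
  Dd := region_Dd g
  f0 _ h := region_f0 g h
  f1 _ h := region_f1 g h
  fβ ω s := region_f_brel g (β_rel ω) s
  jump ω := by
    rcases ω with ⟨x, h⟩ | ⟨⟨x, y⟩, h⟩
    · exact region_jump_pt hβ hev h
    · exact region_jump_cr hβ hev h
  c0 := region_c0 g
  c1 := region_c1 g

theorem exists_region [Finite Ψ] {g : I.Om → F2} (hβ : ∀ ω, g (I.β ω) = g ω) (hev : Even4 g) :
    ∃ D f, RegFun I g D f := by
  classical
  have := Fintype.ofFinite Ψ
  exact ⟨_, _, region_main hβ hev⟩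

/-- The chord of an end. -/
def region_base (ω : I.Om) : Ψ := Sum.elim (fun x => x.1) (fun ω => ω.1.1) ω

theorem exists_region_b [Finite Ψ] {g : I.Om → F2} (hβ : ∀ ω, g (I.β ω) = g ω) (hev : Even4 g)
    (hb : ∀ x : I.Pt, g (Sum.inl ⟨I.b x.1, (I.cob x.1).trans x.2⟩) = g (Sum.inl x)) :
    ∃ D f, RegFun I g D f ∧ ∀ z, D (I.b z) = D z := by
  classical
  obtain ⟨D, f, hR⟩ := exists_region hβ hev
  have hb' : ∀ z, evp g (I.b z) = evp g z := by
    intro z
    by_cases hz : I.co z = 0
    · rw [region_evp_of hz, region_evp_of ((I.cob z).trans hz)]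
      exact hb ⟨z, hz⟩
    · rw [region_evp_not hz, region_evp_not (by rw [I.cob]; exact hz)]
  have hj : ∀ z, D z + D (I.c z) = evp g z + evp g (I.c z) := by
    have h0 : ∀ z, I.co z = 0 → D z + D (I.c z) = evp g z + evp g (I.c z) := by
      intro z hz
      rw [region_evp_of hz, region_evp_not (x := I.c z), ← hR.jump, hR.f0 z hz, hR.f1 z hz,
        add_zero]
      rw [I.coc, hz]
      decide
    intro z
    by_cases hz : I.co z = 0
    · exact h0 z hz
    · have h1 : I.co (I.c z) = 0 := by
        rw [I.coc, region_ne (fun h => hz h.symm : (0 : F2) ≠ I.co z)]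
        decide
      have h2 := h0 (I.c z) h1
      rw [I.cc] at h2
      rw [add_comm, h2, add_comm]
  obtain ⟨G, hGb, hGd, hGc⟩ := I.planar (fun z => evp g z + evp g (I.c z)) D
    (fun z => by simp only [hb', ← I.bc]) (fun z => by simp only [I.cc]; rw [add_comm])
    hR.Dd hj
  have hconst : ∀ {x y : Ψ}, I.CD x y → G y + D y = G x + D x := by
    intro x y hxy
    apply CD.eq_of (f := fun z => G z + D z) hxy
    · intro z _
      have h1 := hGc z
      have h2 := hj z
      have h3 := region_add_self (G z + D z)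
      have h4 : (G z + G (I.c z)) + (D z + D (I.c z)) = 0 := by
        rw [h1, h2]
        exact region_add_self _
      show G (I.c z) + D (I.c z) = G z + D z
      linear_combination h4 - h3
    · intro z _
      show G (I.d z) + D (I.d z) = G z + D z
      rw [hGd, hR.Dd]
  refine ⟨G, fun ω s => f ω s + (G (region_base ω) + D (region_base ω)), ?_, hGb⟩
  constructor
  · exact hGd
  · intro x h
    show f (pt x h) 0 + (G x + D x) = G x
    rw [hR.f0]
    have := region_add_self (D x)
    linear_combination this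
  · intro x h
    show f (pt x h) 1 + (G x + D x) = G (I.c x)
    rw [hR.f1, ← hconst (TMap.CD.c I.toTMap x)]
    have := region_add_self (D (I.c x))
    linear_combination this
  · intro ω s
    show f (I.β ω) s + (G (region_base (I.β ω)) + D (region_base (I.β ω))) = _
    have h1 := hconst (x := region_base ω) (y := region_base (I.β ω)) (cd_β ω)
    rw [hR.fβ, h1]
  · intro ω
    have := region_add_self (G (region_base ω) + D (region_base ω))
    show f ω 0 + (G (region_base ω) + D (region_base ω)) +
      (f ω 1 + (G (region_base ω) + D (region_base ω))) = g ω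
    rw [← hR.jump ω]
    linear_combination this
  · intro ω
    show f (Sum.inr ω) (idx ω) + (G ω.1.1 + D ω.1.1) =
      f (Sum.inr (s0 ω)) (idx ω) + (G ω.1.2 + D ω.1.2)
    rw [hR.c0, hconst ω.2.cd]
  · intro ω
    show f (Sum.inr ω) (idx ω + 1) + (G ω.1.1 + D ω.1.1) =
      f (Sum.inr (s1 ω)) (idx ω) + (G (I.M ω.1.2) + D (I.M ω.1.2))
    rw [hR.c1, hconst (region_CD_M ω.2.cd)]

end Imm

end Pool.Agent.Lib.MP_131179_gt.Dehn
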