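import Pool.Agent.Lib.MP_131179_gt.Dehn.Arcs

/-!
# Chords in a square

The boundary of the square `[0, N]²` is parametrized by `gam N θ`, `0 ≤ θ < 4 N`, starting at the
corner `(0, 0)`.  A chord from `θ1` to `θ2` goes perpendicularly from the boundary to the depth `r`,
then parallel to the boundary, and then back to the boundary.  For `θ1 = 0` the chord starts at a
special point near the corner `(0, 0)` and goes diagonally to the depth `r`.
-/

set_option autoImplicit false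

namespace Pool.Agent.Lib.MP_131179_gt.Dehn

/-- Points of the plane. -/
abbrev P2 : Type := ℤ × ℤ

/-- Neighbouring points. -/
def Adj2 (p q : P2) : Prop :=
  (p.1 = q.1 ∧ (q.2 = p.2 + 1 ∨ p.2 = q.2 + 1)) ∨ (p.2 = q.2 ∧ (q.1 = p.1 + 1 ∨ p.1 = q.1 + 1))

/-- The boundary of the square. -/
def gam (N θ : ℤ) : P2 :=
  if θ ≤ N then (θ, 0) else if θ ≤ 2 * N then (N, θ - N) else if θ ≤ 3 * N then (3 * N - θ, N)
  else (0, 4 * N - θ)

/-- The nearest point of depth at least `r`. -/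
def clp (N r : ℤ) (p : P2) : P2 := (max r (min (N - r) p.1), max r (min (N - r) p.2))

/-- Positions which are not near the corners. -/
def GoodPos (N R θ : ℤ) : Prop := ∃ i : ℤ, 0 ≤ i ∧ i ≤ 3 ∧ i * N + R ≤ θ ∧ θ ≤ (i + 1) * N - R

/-- The special point. -/
def hp2 (b : Bool) : P2 := if b then (1, 0) else (1, 1)

/-- The end of a chord. -/
def st2 (N θ : ℤ) (b : Bool) : P2 := if θ = 0 then hp2 b else gam N θ

/-- The points of a perpendicular segment. -/
def InSeg (N r θ : ℤ) (x : P2) : Prop := ∃ k : ℤ, 0 ≤ k ∧ k ≤ r ∧ x = clp N k (gam N θ)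

/-- The points parallel to the boundary. -/
def InRing (N r θ1 θ2 : ℤ) (x : P2) : Prop := ∃ θ : ℤ, θ1 ≤ θ ∧ θ ≤ θ2 ∧ x = clp N r (gam N θ)

/-- The points of the diagonal segment. -/
def InStub (r : ℤ) (b : Bool) (x : P2) : Prop :=
  x = hp2 b ∨ x = (1, 1) ∨ ∃ k : ℤ, 2 ≤ k ∧ k ≤ r ∧ (x = (k, k) ∨ x = (k, k - 1))

/-- The points of a chord. -/
def InChord (N r θ1 θ2 : ℤ) (b : Bool) (x : P2) : Prop :=
  (if θ1 = 0 then InStub r b x else InSeg N r θ1 x) ∨ InRing N r θ1 θ2 x ∨ InSeg N r θ2 x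

/-- The conditions for the parameters. -/
structure Prm (N R r θ1 θ2 : ℤ) : Prop where
  hr : 2 ≤ r
  hR : r < R
  hN : 2 * R ≤ N
  h1 : θ1 = 0 ∨ GoodPos N R θ1
  h2 : GoodPos N R θ2
  lt : θ1 < θ2

/-- The list `l` is the chord. -/
structure IsRing (N r θ1 θ2 : ℤ) (b : Bool) (l : List P2) : Prop where
  chain : l.IsChain Adj2
  nodup : l.Nodup
  head : l.head? = some (st2 N θ1 b)
  last : l.getLast? = some (gam N θ2)
  mem : ∀ x, x ∈ l ↔ InChord N r θ1 θ2 b x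
  len : 3 ≤ l.length
  rev : ∃ l', l.reverse = gam N θ2 :: clp N 1 (gam N θ2) :: clp N 2 (gam N θ2) :: l'

/-! ### Coordinates -/

theorem Ring_cl (N r x : ℤ) (hN : 2 * r ≤ N) :
    (x ≤ r ∧ max r (min (N - r) x) = r) ∨ (r < x ∧ x < N - r ∧ max r (min (N - r) x) = x) ∨
      (N - r ≤ x ∧ max r (min (N - r) x) = N - r) := by
  rcases le_total x r with h | h
  · left; rw [min_eq_right (by omega), max_eq_left h]; exact ⟨h, rfl⟩
  · rcases le_total x (N - r) with h' | h'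
    · rw [min_eq_right h', max_eq_right h]; omega
    · right; right; rw [min_eq_left h', max_eq_right (by omega)]; exact ⟨h', rfl⟩

theorem Ring_cases {N r θ : ℤ} (hr : 0 ≤ r) (hN : 2 * r ≤ N) (h0 : 0 ≤ θ) (h1 : θ ≤ 4 * N) :
    ∃ a b, clp N r (gam N θ) = (a, b) ∧
    ((0 ≤ θ ∧ θ ≤ N ∧ b = r ∧ ((θ ≤ r ∧ a = r) ∨ (r < θ ∧ θ < N - r ∧ a = θ) ∨
        (N - r ≤ θ ∧ a = N - r))) ∨
     (N < θ ∧ θ ≤ 2 * N ∧ a = N - r ∧ ((θ - N ≤ r ∧ b = r) ∨
        (r < θ - N ∧ θ - N < N - r ∧ b = θ - N) ∨ (N - r ≤ θ - N ∧ b = N - r))) ∨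
     (2 * N < θ ∧ θ ≤ 3 * N ∧ b = N - r ∧ ((3 * N - θ ≤ r ∧ a = r) ∨
        (r < 3 * N - θ ∧ 3 * N - θ < N - r ∧ a = 3 * N - θ) ∨ (N - r ≤ 3 * N - θ ∧ a = N - r))) ∨
     (3 * N < θ ∧ θ ≤ 4 * N ∧ a = r ∧ ((4 * N - θ ≤ r ∧ b = r) ∨
        (r < 4 * N - θ ∧ 4 * N - θ < N - r ∧ b = 4 * N - θ) ∨
        (N - r ≤ 4 * N - θ ∧ b = N - r)))) := by
  refine ⟨_, _, rfl, ?_⟩
  have c0 := Ring_cl N r 0 hN
  have cN := Ring_cl N r N hN
  unfold gam
  split_ifs with g1 g2 g3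
  · have c := Ring_cl N r θ hN
    left
    exact ⟨h0, g1, by simp only; omega, by simp only; omega⟩
  · have c := Ring_cl N r (θ - N) hN
    right; left
    exact ⟨by omega, g2, by simp only; omega, by simp only; omega⟩
  · have c := Ring_cl N r (3 * N - θ) hN
    right; right; left
    exact ⟨by omega, g3, by simp only; omega, by simp only; omega⟩
  · have c := Ring_cl N r (4 * N - θ) hN
    right; right; right
    exact ⟨by omega, h1, by simp only; omega, by simp only; omega⟩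

theorem Ring_adj {N r θ : ℤ} (hr : 0 ≤ r) (hN : 2 * r < N) (h0 : 0 ≤ θ) (h1 : θ + 1 ≤ 4 * N) :
    clp N r (gam N θ) = clp N r (gam N (θ + 1)) ∨
      Adj2 (clp N r (gam N θ)) (clp N r (gam N (θ + 1))) := by
  obtain ⟨a, b, e, h⟩ := Ring_cases (θ := θ) hr hN.le h0 (by omega)
  obtain ⟨a', b', e', h'⟩ := Ring_cases (θ := θ + 1) hr hN.le (by omega) (by omega)
  rw [e, e']
  unfold Adj2
  simp only [Prod.mk.injEq]
  omega

theorem Ring_key {N r θ θ'' : ℤ} (hr : 0 ≤ r) (hN : 2 * r < N) (h0 : 0 ≤ θ) (h1 : θ ≤ θ'')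
    (h3 : θ'' < 4 * N - r) (h : clp N r (gam N θ) = clp N r (gam N θ'')) :
    θ = θ'' ∨ (θ'' ≤ r) ∨ (N - r ≤ θ ∧ θ'' ≤ N + r) ∨ (2 * N - r ≤ θ ∧ θ'' ≤ 2 * N + r) ∨
      (3 * N - r ≤ θ ∧ θ'' ≤ 3 * N + r) := by
  obtain ⟨a, b, e, c⟩ := Ring_cases (θ := θ) hr hN.le h0 (by omega)
  obtain ⟨a'', b'', e'', c''⟩ := Ring_cases (θ := θ'') hr hN.le (by omega) (by omega)
  rw [e, e''] at h
  simp only [Prod.mk.injEq] at h
  obtain ⟨rfl, rfl⟩ := h
  omega

theorem Ring_between {N r θ θ' θ'' : ℤ} (hr : 0 ≤ r) (hN : 2 * r < N) (h0 : 0 ≤ θ) (h1 : θ ≤ θ')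
    (h2 : θ' ≤ θ'') (h3 : θ'' < 4 * N - r) (h : clp N r (gam N θ) = clp N r (gam N θ'')) :
    clp N r (gam N θ') = clp N r (gam N θ) := by
  have key := Ring_key hr hN h0 (h1.trans h2) h3 h
  clear h
  obtain ⟨a, b, e, c⟩ := Ring_cases (θ := θ) hr hN.le h0 (by omega)
  obtain ⟨a', b', e', c'⟩ := Ring_cases (θ := θ') hr hN.le (by omega) (by omega)
  rw [e, e']
  simp only [Prod.mk.injEq]
  rcases key with rfl | h | h | h | h
  · obtain rfl : θ = θ' := by omega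
    rw [e] at e'
    simp only [Prod.mk.injEq] at e'
    omega
  · omega
  · omega
  · omega
  · omega

/-- Points on perpendicular segments. -/
theorem Ring_seg {N R k θ : ℤ} (hR : 0 < R) (h : GoodPos N R θ) (hk : 0 ≤ k) (hk' : k ≤ R) :
    ∃ s, R ≤ s ∧ s ≤ N - R ∧
      ((θ = s ∧ clp N k (gam N θ) = (s, k)) ∨
       (θ = N + s ∧ clp N k (gam N θ) = (N - k, s)) ∨
       (θ = 2 * N + s ∧ clp N k (gam N θ) = (N - s, N - k)) ∨
       (θ = 3 * N + s ∧ clp N k (gam N θ) = (k, N - s))) := by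
  obtain ⟨i, h0, h3, h1, h2⟩ := h
  have hi : i = 0 ∨ i = 1 ∨ i = 2 ∨ i = 3 := by omega
  have c0 := Ring_cl N k 0 (by rcases hi with rfl | rfl | rfl | rfl <;> omega)
  have cN := Ring_cl N k N (by rcases hi with rfl | rfl | rfl | rfl <;> omega)
  rcases hi with rfl | rfl | rfl | rfl
  · refine ⟨θ, by omega, by omega, Or.inl ⟨rfl, ?_⟩⟩
    have c := Ring_cl N k θ (by omega)
    unfold gam clp
    rw [if_pos (by omega)]
    simp only [Prod.mk.injEq]
    omega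
  · refine ⟨θ - N, by omega, by omega, Or.inr (Or.inl ⟨by ring, ?_⟩)⟩
    have c := Ring_cl N k (θ - N) (by omega)
    unfold gam clp
    rw [if_neg (by omega), if_pos (by omega)]
    simp only [Prod.mk.injEq]
    omega
  · refine ⟨θ - 2 * N, by omega, by omega, Or.inr (Or.inr (Or.inl ⟨by ring, ?_⟩))⟩
    have c := Ring_cl N k (3 * N - θ) (by omega)
    unfold gam clp
    rw [if_neg (by omega), if_neg (by omega), if_pos (by omega)]
    simp only [Prod.mk.injEq]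
    omega
  · refine ⟨θ - 3 * N, by omega, by omega, Or.inr (Or.inr (Or.inr ⟨by ring, ?_⟩))⟩
    have c := Ring_cl N k (4 * N - θ) (by omega)
    unfold gam clp
    rw [if_neg (by omega), if_neg (by omega), if_neg (by omega)]
    simp only [Prod.mk.injEq]
    omega

theorem Ring_clp_zero {N R θ : ℤ} (hR : 0 < R) (h : GoodPos N R θ) :
    clp N 0 (gam N θ) = gam N θ := by
  obtain ⟨i, h0, h3, h1, h2⟩ := h
  have hi : i = 0 ∨ i = 1 ∨ i = 2 ∨ i = 3 := by omega
  have hN : 0 ≤ N := by rcases hi with rfl | rfl | rfl | rfl <;> omega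
  have c0 := Ring_cl N 0 0 (by omega)
  have cN := Ring_cl N 0 N (by omega)
  rcases hi with rfl | rfl | rfl | rfl
  · have c := Ring_cl N 0 θ (by omega)
    unfold gam clp
    rw [if_pos (by omega)]
    simp only [Prod.mk.injEq]
    omega
  · have c := Ring_cl N 0 (θ - N) (by omega)
    unfold gam clp
    rw [if_neg (by omega), if_pos (by omega)]
    simp only [Prod.mk.injEq]
    omega
  · have c := Ring_cl N 0 (3 * N - θ) (by omega)
    unfold gam clp
    rw [if_neg (by omega), if_neg (by omega), if_pos (by omega)]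
    simp only [Prod.mk.injEq]
    omega
  · have c := Ring_cl N 0 (4 * N - θ) (by omega)
    unfold gam clp
    rw [if_neg (by omega), if_neg (by omega), if_neg (by omega)]
    simp only [Prod.mk.injEq]
    omega

theorem Ring_gp_bound {N R θ : ℤ} (hN : 2 * R ≤ N) (hR : 0 < R) (h : GoodPos N R θ) :
    R ≤ θ ∧ θ ≤ 4 * N - R := by
  obtain ⟨i, h0, h3, h1, h2⟩ := h
  have hi : i = 0 ∨ i = 1 ∨ i = 2 ∨ i = 3 := by omega
  rcases hi with rfl | rfl | rfl | rfl <;> omega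

theorem Ring_clp_corner {N r : ℤ} (hr : 0 ≤ r) (hN : 2 * r ≤ N) :
    clp N r (gam N 0) = (r, r) := by
  have c := Ring_cl N r 0 hN
  unfold gam clp
  rw [if_pos (by omega)]
  simp only [Prod.mk.injEq]
  omega

/-! ### Paths -/

/-- `l` is a path from `x` to `y` with the set of points `P`. -/
structure RingPath (P : P2 → Prop) (x y : P2) (l : List P2) : Prop where
  chain : l.IsChain Adj2
  nodup : l.Nodup
  head : l.head? = some x
  last : l.getLast? = some y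
  mem : ∀ z, z ∈ l ↔ P z

theorem Ring_symm {p q : P2} (h : Adj2 p q) : Adj2 q p := by
  unfold Adj2 at *; omega

theorem RingPath.cons {P : P2 → Prop} {x y : P2} {l : List P2} (h : RingPath P x y l) :
    ∃ t, l = x :: t := by
  cases l with
  | nil => have h' := h.head; simp at h'
  | cons a t =>
    have := h.head
    simp only [List.head?_cons, Option.some.injEq] at this
    exact ⟨t, by rw [this]⟩

theorem RingPath.glue {P Q : P2 → Prop} {x y z : P2} {l1 l2 : List P2} (h1 : RingPath P x y l1)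
    (h2 : RingPath Q y z l2) (hd : ∀ w, P w → Q w → w = y) :
    RingPath (fun w => P w ∨ Q w) x z (l1 ++ l2.tail) := by
  obtain ⟨t, rfl⟩ := h2.cons
  simp only [List.tail_cons]
  have hn := List.nodup_cons.1 h2.nodup
  have hy : y ∈ l1 := List.mem_of_getLast? h1.last
  refine ⟨?_, ?_, ?_, ?_, ?_⟩
  · rw [List.isChain_append]
    refine ⟨h1.chain, h2.chain.tail, ?_⟩
    intro a ha b hb
    rw [h1.last] at ha
    have ha' : y = a := by simpa using ha
    subst ha'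
    cases t with
    | nil => simp at hb
    | cons c t =>
      have hb' : c = b := by simpa using hb
      subst hb'
      exact (List.isChain_cons_cons.1 h2.chain).1
  · rw [List.nodup_append]
    refine ⟨h1.nodup, hn.2, ?_⟩
    intro a ha b hb hab
    subst hab
    have h3 : a = y := hd a ((h1.mem a).1 ha) ((h2.mem a).1 (List.mem_cons_of_mem _ hb))
    subst h3
    exact hn.1 hb
  · obtain ⟨s, rfl⟩ := h1.cons
    simp
  · cases t with
    | nil =>
      have h3 := h2.last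
      simp only [List.getLast?_singleton, Option.some.injEq] at h3
      rw [List.append_nil, h1.last, h3]
    | cons c t =>
      rw [List.getLast?_append_of_ne_nil _ (List.cons_ne_nil _ _)]
      have h3 := h2.last
      rwa [List.getLast?_cons_cons] at h3
  · intro w
    rw [List.mem_append, h1.mem]
    constructor
    · rintro (h | h)
      · exact Or.inl h
      · exact Or.inr ((h2.mem w).1 (List.mem_cons_of_mem _ h))
    · rintro (h | h)
      · exact Or.inl h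
      · rcases List.mem_cons.1 ((h2.mem w).2 h) with rfl | h'
        · exact Or.inl ((h1.mem _).1 hy)
        · exact Or.inr h'

theorem RingPath.congr {P Q : P2 → Prop} {x y : P2} {l : List P2} (h : RingPath P x y l)
    (hPQ : ∀ z, P z ↔ Q z) : RingPath Q x y l :=
  ⟨h.chain, h.nodup, h.head, h.last, fun z => (h.mem z).trans (hPQ z)⟩

theorem RingPath.reverse {P : P2 → Prop} {x y : P2} {l : List P2} (h : RingPath P x y l) :
    RingPath P y x l.reverse := by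
  refine ⟨?_, List.nodup_reverse.2 h.nodup, ?_, ?_, fun z => ?_⟩
  · rw [List.isChain_reverse]
    exact h.chain.imp fun a b hab => Ring_symm hab
  · rw [List.head?_reverse]; exact h.last
  · rw [List.getLast?_reverse]; exact h.head
  · rw [List.mem_reverse]; exact h.mem z

/-- The list of the members of a sequence. -/
theorem Ring_seq (f : ℕ → P2) (n : ℕ) (hadj : ∀ i < n, f i = f (i + 1) ∨ Adj2 (f i) (f (i + 1)))
    (hbt : ∀ i m j, i ≤ m → m ≤ j → j ≤ n → f i = f j → f m = f i) :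
    ∃ l, RingPath (fun z => ∃ i ≤ n, f i = z) (f 0) (f n) l ∧
      ((∀ i < n, f i ≠ f (i + 1)) → l = (List.range (n + 1)).map f) := by
  induction n with
  | zero =>
    refine ⟨[f 0], ⟨List.isChain_singleton _, List.nodup_singleton _, rfl, rfl, fun z => ?_⟩,
      fun _ => rfl⟩
    constructor
    · intro h
      exact ⟨0, le_rfl, (List.mem_singleton.1 h).symm⟩
    · rintro ⟨i, hi, rfl⟩
      obtain rfl : i = 0 := by omega
      exact List.mem_singleton.2 rfl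
  | succ n ih =>
    obtain ⟨l, hl, hl'⟩ := ih (fun i hi => hadj i (by omega))
      (fun i m j h1 h2 h3 h4 => hbt i m j h1 h2 (by omega) h4)
    by_cases he : f n = f (n + 1)
    · refine ⟨l, ?_, fun h => absurd he (h n (by omega))⟩
      rw [← he]
      refine hl.congr fun z => ?_
      constructor
      · rintro ⟨i, hi, rfl⟩
        exact ⟨i, by omega, rfl⟩
      · rintro ⟨i, hi, rfl⟩
        rcases Nat.lt_or_ge i (n + 1) with h | h
        · exact ⟨i, by omega, rfl⟩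
        · obtain rfl : i = n + 1 := by omega
          exact ⟨n, le_rfl, he⟩
    · have hadj' : Adj2 (f n) (f (n + 1)) := (hadj n (by omega)).resolve_left he
      have h2 : RingPath (fun z => z = f n ∨ z = f (n + 1)) (f n) (f (n + 1))
          [f n, f (n + 1)] := by
        refine ⟨?_, ?_, rfl, rfl, fun z => ?_⟩
        · rw [List.isChain_cons_cons]
          exact ⟨hadj', List.isChain_singleton _⟩
        · simpa using he
        · simp
      have h3 := hl.glue h2 (by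
        rintro w ⟨i, hi, rfl⟩ (h | h)
        · exact h
        · exact (he ((hbt i n (n + 1) hi (by omega) le_rfl h).trans h)).elim)
      refine ⟨l ++ [f (n + 1)], h3.congr fun z => ?_, fun h => ?_⟩
      · constructor
        · rintro (⟨i, hi, rfl⟩ | rfl | rfl)
          · exact ⟨i, by omega, rfl⟩
          · exact ⟨n, by omega, rfl⟩
          · exact ⟨n + 1, le_rfl, rfl⟩
        · rintro ⟨i, hi, rfl⟩
          rcases Nat.lt_or_ge i (n + 1) with h | h
          · exact Or.inl ⟨i, by omega, rfl⟩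
          · obtain rfl : i = n + 1 := by omega
            exact Or.inr (Or.inr rfl)
      · rw [hl' (fun i hi => h i (by omega)), List.range_succ (n := n + 1), List.map_append]
        rfl

/-- The perpendicular segment. -/
theorem Ring_segPath {N R r θ : ℤ} (hr : 2 ≤ r) (hR : r < R) (h : GoodPos N R θ) :
    ∃ l', RingPath (InSeg N r θ) (gam N θ) (clp N r (gam N θ))
      (gam N θ :: clp N 1 (gam N θ) :: clp N 2 (gam N θ) :: l') := by
  have hseg : ∀ i : ℕ, (i : ℤ) ≤ r → ∃ s, R ≤ s ∧ s ≤ N - R ∧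
      ((θ = s ∧ clp N i (gam N θ) = (s, (i : ℤ))) ∨
       (θ = N + s ∧ clp N i (gam N θ) = (N - i, s)) ∨
       (θ = 2 * N + s ∧ clp N i (gam N θ) = (N - s, N - i)) ∨
       (θ = 3 * N + s ∧ clp N i (gam N θ) = ((i : ℤ), N - s))) := fun i hi =>
    Ring_seg (by omega) h (by omega) (by omega)
  have hinj : ∀ i j : ℕ, (i : ℤ) ≤ r → (j : ℤ) ≤ r → clp N i (gam N θ) = clp N j (gam N θ) →
      i = j := by
    intro i j hi hj hij
    obtain ⟨s, hs1, hs2, hs⟩ := hseg i hi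
    obtain ⟨s', hs1', hs2', hs'⟩ := hseg j hj
    rcases hs with ⟨e1, e2⟩ | ⟨e1, e2⟩ | ⟨e1, e2⟩ | ⟨e1, e2⟩ <;>
      rcases hs' with ⟨e3, e4⟩ | ⟨e3, e4⟩ | ⟨e3, e4⟩ | ⟨e3, e4⟩ <;>
      rw [e2, e4] at hij <;> simp only [Prod.mk.injEq] at hij <;> omega
  obtain ⟨m, hm⟩ : ∃ m : ℕ, r = (m : ℤ) + 2 := ⟨(r - 2).toNat, by omega⟩
  obtain ⟨l, hl, hl'⟩ := Ring_seq (fun i => clp N i (gam N θ)) (m + 2) (by
      intro i hi
      right
      obtain ⟨s, hs1, hs2, hs⟩ := hseg i (by omega)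
      obtain ⟨s', hs1', hs2', hs'⟩ := hseg (i + 1) (by push_cast; omega)
      push_cast at hs' ⊢
      unfold Adj2
      rcases hs with ⟨e1, e2⟩ | ⟨e1, e2⟩ | ⟨e1, e2⟩ | ⟨e1, e2⟩ <;>
        rcases hs' with ⟨e3, e4⟩ | ⟨e3, e4⟩ | ⟨e3, e4⟩ | ⟨e3, e4⟩ <;>
        rw [e2, e4] <;> dsimp only <;> omega)
    (by
      intro i k j h1 h2 h3 h4
      obtain rfl : i = j := hinj i j (by omega) (by omega) h4
      obtain rfl : i = k := by omega
      rfl)
  have h1 := hl' (fun i hi he => by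
    have := hinj i (i + 1) (by omega) (by push_cast; omega) he
    omega)
  have h2 : List.range (m + 2 + 1) = 0 :: 1 :: 2 :: (List.range m).map (fun i => i + 3) := by
    rw [List.range_succ_eq_map, List.range_succ_eq_map, List.range_succ_eq_map]
    simp [Function.comp_def]
  have hz : clp N 0 (gam N θ) = gam N θ := Ring_clp_zero (by omega) h
  rw [h2] at h1
  simp only [List.map_cons, Nat.cast_zero, Nat.cast_one, Nat.cast_ofNat, hz] at h1
  refine ⟨List.map (fun i : ℕ => clp N i (gam N θ)) (List.map (fun i => i + 3) (List.range m)), ?_⟩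
  rw [← h1]
  simp only [Nat.cast_zero, hz] at hl
  have h3 : ((m + 2 : ℕ) : ℤ) = r := by push_cast; omega
  rw [h3] at hl
  refine hl.congr fun z => ?_
  constructor
  · rintro ⟨i, hi, rfl⟩
    exact ⟨i, by omega, by omega, rfl⟩
  · rintro ⟨k, hk, hk', rfl⟩
    exact ⟨k.toNat, by omega, by rw [Int.toNat_of_nonneg hk]⟩

/-- The parallel path. -/
theorem Ring_ringPath {N r θ1 θ2 : ℤ} (hr : 0 ≤ r) (hN : 2 * r < N) (h0 : 0 ≤ θ1)
    (h1 : θ1 ≤ θ2) (h2 : θ2 < 4 * N - r) :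
    ∃ l, RingPath (InRing N r θ1 θ2) (clp N r (gam N θ1)) (clp N r (gam N θ2)) l := by
  obtain ⟨n, hn⟩ : ∃ n : ℕ, θ2 = θ1 + n := ⟨(θ2 - θ1).toNat, by omega⟩
  obtain ⟨l, hl, -⟩ := Ring_seq (fun i => clp N r (gam N (θ1 + i))) n (by
      intro i hi
      have := Ring_adj (θ := θ1 + i) hr hN (by omega) (by omega)
      push_cast
      rwa [← add_assoc])
    (by
      intro i k j h1 h2 h3 h4
      exact Ring_between hr hN (by omega) (by omega) (by omega) (by omega) h4)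
  simp only [Nat.cast_zero, add_zero, ← hn] at hl
  refine ⟨l, hl.congr fun z => ?_⟩
  constructor
  · rintro ⟨i, hi, rfl⟩
    exact ⟨θ1 + i, by omega, by omega, rfl⟩
  · rintro ⟨θ, hθ, hθ', rfl⟩
    refine ⟨(θ - θ1).toNat, by omega, ?_⟩
    rw [Int.toNat_of_nonneg (by omega)]
    congr 2
    ring

/-- The diagonal path. -/
theorem Ring_stubPath {r : ℤ} (hr : 2 ≤ r) (b : Bool) :
    ∃ l, RingPath (InStub r b) (hp2 b) (r, r) l := by
  obtain ⟨m, hm⟩ : ∃ m : ℕ, r = (m : ℤ) + 2 := ⟨(r - 2).toNat, by omega⟩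
  let f : ℕ → P2 := fun i => if i = 0 then hp2 b else
    ((((i - 1) / 2 + 1 + (i - 1) % 2 : ℕ) : ℤ), (((i - 1) / 2 + 1 : ℕ) : ℤ))
  have hf0 : f 0 = hp2 b := rfl
  have hf : ∀ i : ℕ, 1 ≤ i → f i = ((((i - 1) / 2 + 1 + (i - 1) % 2 : ℕ) : ℤ),
      (((i - 1) / 2 + 1 : ℕ) : ℤ)) := fun i hi => if_neg (by omega)
  have hf1 : f 1 = (1, 1) := by rw [hf 1 le_rfl]; norm_num
  have hb : hp2 b = (1, 0) ∨ hp2 b = (1, 1) := by cases b <;> simp [hp2]
  obtain ⟨l, hl, -⟩ := Ring_seq f (2 * m + 3) (by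
      intro i hi
      rcases Nat.eq_zero_or_pos i with rfl | hi0
      · rw [zero_add, hf0, hf1]
        rcases hb with hb | hb
        · right; rw [hb]; unfold Adj2; simp
        · left; exact hb
      · right
        rw [hf i hi0, hf (i + 1) (by omega)]
        unfold Adj2
        dsimp only
        omega)
    (by
      intro i k j h1 h2 h3 h4
      rcases Nat.eq_zero_or_pos i with rfl | hi0
      · rcases Nat.eq_zero_or_pos j with rfl | hj0
        · obtain rfl : k = 0 := by omega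
          rfl
        · rw [hf0, hf j hj0] at h4
          rcases hb with hb | hb
          · rw [hb] at h4
            simp only [Prod.mk.injEq] at h4
            omega
          · rw [hb] at h4
            simp only [Prod.mk.injEq] at h4
            have hj1 : j = 1 := by omega
            subst hj1
            rcases Nat.eq_zero_or_pos k with rfl | hk0
            · rfl
            · obtain rfl : k = 1 := by omega
              rw [hf1, hf0, hb]
      · rw [hf i hi0, hf j (by omega)] at h4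
        simp only [Prod.mk.injEq] at h4
        obtain rfl : i = k := by omega
        rfl)
  have e1 : f (2 * m + 3) = (r, r) := by
    rw [hf _ (by omega)]
    simp only [Prod.mk.injEq]
    omega
  rw [hf0, e1] at hl
  refine ⟨l, hl.congr fun z => ?_⟩
  constructor
  · rintro ⟨i, hi, rfl⟩
    rcases Nat.eq_zero_or_pos i with rfl | hi0
    · exact Or.inl hf0
    rcases Nat.lt_or_ge i 2 with hi1 | hi1
    · obtain rfl : i = 1 := by omega
      exact Or.inr (Or.inl hf1)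
    · right; right
      rw [hf i hi0]
      refine ⟨(((i - 1) / 2 + 1 + (i - 1) % 2 : ℕ) : ℤ), by omega, by omega, ?_⟩
      simp only [Prod.mk.injEq, true_and]
      omega
  · rintro (rfl | rfl | ⟨k, hk, hk', rfl | rfl⟩)
    · exact ⟨0, by omega, hf0⟩
    · exact ⟨1, by omega, hf1⟩
    · refine ⟨(2 * k - 1).toNat, by omega, ?_⟩
      rw [hf _ (by omega)]
      simp only [Prod.mk.injEq]
      omega
    · refine ⟨(2 * k - 2).toNat, by omega, ?_⟩
      rw [hf _ (by omega)]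
      simp only [Prod.mk.injEq]
      omega

theorem Prm.bounds {N R r θ1 θ2 : ℤ} (h : Prm N R r θ1 θ2) :
    0 ≤ θ1 ∧ θ2 ≤ 4 * N - R ∧ 2 * r < N ∧ 0 < R := by
  have h1 := h.hr
  have h2 := h.hR
  have h3 := h.hN
  have h4 := Ring_gp_bound h3 (by omega) h.h2
  refine ⟨?_, h4.2, by omega, by omega⟩
  rcases h.h1 with h5 | h5
  · omega
  · have := Ring_gp_bound h3 (by omega) h5
    omega

/-- Description of the points of the different parts. -/
theorem Ring_inSeg {N R r θ : ℤ} (hR : r < R) (hR0 : 0 < R) (h : GoodPos N R θ) {x : P2}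
    (hx : InSeg N r θ x) : ∃ s k a b, R ≤ s ∧ s ≤ N - R ∧ 0 ≤ k ∧ k ≤ r ∧ x = (a, b) ∧
      ((θ = s ∧ a = s ∧ b = k) ∨ (θ = N + s ∧ a = N - k ∧ b = s) ∨
       (θ = 2 * N + s ∧ a = N - s ∧ b = N - k) ∨ (θ = 3 * N + s ∧ a = k ∧ b = N - s)) ∧
      x = clp N k (gam N θ) := by
  obtain ⟨k, hk, hk', rfl⟩ := hx
  obtain ⟨s, h1, h2, h3⟩ := Ring_seg hR0 h hk (by omega)
  refine ⟨s, k, (clp N k (gam N θ)).1, (clp N k (gam N θ)).2, h1, h2, hk, hk', rfl, ?_, rfl⟩
  rcases h3 with ⟨e1, e2⟩ | ⟨e1, e2⟩ | ⟨e1, e2⟩ | ⟨e1, e2⟩ <;> rw [e2] <;> dsimp only <;> omega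

theorem Ring_inRing {N R r θ1 θ2 : ℤ} (h : Prm N R r θ1 θ2) {x : P2}
    (hx : InRing N r θ1 θ2 x) : ∃ θ a b, θ1 ≤ θ ∧ θ ≤ θ2 ∧ x = (a, b) ∧
    ((0 ≤ θ ∧ θ ≤ N ∧ b = r ∧ ((θ ≤ r ∧ a = r) ∨ (r < θ ∧ θ < N - r ∧ a = θ) ∨
        (N - r ≤ θ ∧ a = N - r))) ∨
     (N < θ ∧ θ ≤ 2 * N ∧ a = N - r ∧ ((θ - N ≤ r ∧ b = r) ∨
        (r < θ - N ∧ θ - N < N - r ∧ b = θ - N) ∨ (N - r ≤ θ - N ∧ b = N - r))) ∨
     (2 * N < θ ∧ θ ≤ 3 * N ∧ b = N - r ∧ ((3 * N - θ ≤ r ∧ a = r) ∨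
        (r < 3 * N - θ ∧ 3 * N - θ < N - r ∧ a = 3 * N - θ) ∨ (N - r ≤ 3 * N - θ ∧ a = N - r))) ∨
     (3 * N < θ ∧ θ ≤ 4 * N ∧ a = r ∧ ((4 * N - θ ≤ r ∧ b = r) ∨
        (r < 4 * N - θ ∧ 4 * N - θ < N - r ∧ b = 4 * N - θ) ∨
        (N - r ≤ 4 * N - θ ∧ b = N - r)))) := by
  obtain ⟨θ, h1, h2, rfl⟩ := hx
  have hb := h.bounds
  have hr := h.hr
  obtain ⟨a, b, e, h3⟩ := Ring_cases (N := N) (r := r) (θ := θ) (by omega) (by omega) (by omega)
    (by omega)
  exact ⟨θ, a, b, h1, h2, e, h3⟩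

theorem Ring_inStub {r : ℤ} (hr : 2 ≤ r) {b : Bool} {x : P2} (hx : InStub r b x) :
    ∃ p q, x = (p, q) ∧ 1 ≤ p ∧ 0 ≤ q ∧ p ≤ r ∧ q ≤ r ∧
      ((x = hp2 b ∧ p = 1 ∧ q ≤ 1) ∨ (p = 1 ∧ q = 1) ∨ (2 ≤ p ∧ (q = p ∨ q = p - 1))) := by
  have hb : hp2 b = (1, 0) ∨ hp2 b = (1, 1) := by cases b <;> simp [hp2]
  rcases hx with rfl | rfl | ⟨k, hk, hk', rfl | rfl⟩
  · rcases hb with hb | hb
    · exact ⟨1, 0, hb, by omega, by omega, by omega, by omega, Or.inl ⟨rfl, rfl, by omega⟩⟩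
    · exact ⟨1, 1, hb, by omega, by omega, by omega, by omega, Or.inl ⟨rfl, rfl, by omega⟩⟩
  · exact ⟨1, 1, rfl, by omega, by omega, by omega, by omega, Or.inr (Or.inl ⟨rfl, rfl⟩)⟩
  · exact ⟨k, k, rfl, by omega, by omega, by omega, by omega, Or.inr (Or.inr ⟨hk, Or.inl rfl⟩)⟩
  · exact ⟨k, k - 1, rfl, by omega, by omega, by omega, by omega,
      Or.inr (Or.inr ⟨hk, Or.inr rfl⟩)⟩

theorem Ring_gp {N R θ : ℤ} (h : GoodPos N R θ) :
    (R ≤ θ ∧ θ ≤ N - R) ∨ (N + R ≤ θ ∧ θ ≤ 2 * N - R) ∨ (2 * N + R ≤ θ ∧ θ ≤ 3 * N - R) ∨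
      (3 * N + R ≤ θ ∧ θ ≤ 4 * N - R) := by
  obtain ⟨i, h0, h3, h1, h2⟩ := h
  have hi : i = 0 ∨ i = 1 ∨ i = 2 ∨ i = 3 := by omega
  rcases hi with rfl | rfl | rfl | rfl <;> omega

theorem Ring_gp1 {N R r θ1 θ2 : ℤ} (h : Prm N R r θ1 θ2) (h0 : θ1 ≠ 0) : GoodPos N R θ1 :=
  h.h1.resolve_left h0

theorem exists_ring {N R r θ1 θ2 : ℤ} (h : Prm N R r θ1 θ2) (b : Bool) :
    ∃ l, IsRing N r θ1 θ2 b l := by
  obtain ⟨hb0, hb1, hb2, hb3⟩ := h.bounds
  have hr := h.hr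
  have hR := h.hR
  have hN := h.hN
  have hlt := h.lt
  -- the first part
  obtain ⟨l1, hl1⟩ : ∃ l, RingPath (fun x => if θ1 = 0 then InStub r b x else InSeg N r θ1 x)
      (st2 N θ1 b) (clp N r (gam N θ1)) l := by
    by_cases h0 : θ1 = 0
    · subst h0
      obtain ⟨l, hl⟩ := Ring_stubPath hr b
      refine ⟨l, ?_⟩
      rw [Ring_clp_corner (by omega) (by omega)]
      have e : st2 N 0 b = hp2 b := if_pos rfl
      rw [e]
      exact hl.congr fun z => by simp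
    · obtain ⟨l', hl'⟩ := Ring_segPath hr hR (Ring_gp1 h h0)
      have e : st2 N θ1 b = gam N θ1 := if_neg h0
      rw [e]
      exact ⟨_, hl'.congr fun z => by simp [h0]⟩
  obtain ⟨l2, hl2⟩ := Ring_ringPath (N := N) (r := r) (θ1 := θ1) (θ2 := θ2) (by omega) hb2 hb0
    hlt.le (by omega)
  obtain ⟨l', hl3⟩ := Ring_segPath hr hR h.h2
  have g1 := hl1.glue hl2 (by
    intro w hw hw'
    obtain ⟨θ, a, b', h1, h2, e, h3⟩ := Ring_inRing h hw'
    by_cases h0 : θ1 = 0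
    · rw [if_pos h0] at hw
      obtain ⟨p, q, e', h4⟩ := Ring_inStub hr hw
      rw [e] at e'
      simp only [Prod.mk.injEq] at e'
      obtain ⟨rfl, rfl⟩ := e'
      rw [h0, Ring_clp_corner (by omega) (by omega), e]
      simp only [Prod.mk.injEq]
      omega
    · rw [if_neg h0] at hw
      obtain ⟨s, k, p, q, h4, h5, h6, h7, e', h8, e''⟩ := Ring_inSeg hR hb3 (Ring_gp1 h h0) hw
      rw [e] at e'
      simp only [Prod.mk.injEq] at e'
      obtain ⟨rfl, rfl⟩ := e'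
      have hk : k = r := by omega
      rw [e'', hk])
  have g2 := g1.glue hl3.reverse (by
    intro w hw hw'
    obtain ⟨s', k', p', q', h4', h5', h6', h7', e1, h8', e2⟩ := Ring_inSeg hR hb3 h.h2 hw'
    rcases hw with hw | hw
    · by_cases h0 : θ1 = 0
      · rw [if_pos h0] at hw
        obtain ⟨p, q, e', h4⟩ := Ring_inStub hr hw
        rw [e1] at e'
        simp only [Prod.mk.injEq] at e'
        obtain ⟨rfl, rfl⟩ := e'
        omega
      · rw [if_neg h0] at hw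
        obtain ⟨s, k, p, q, h4, h5, h6, h7, e', h8, e''⟩ := Ring_inSeg hR hb3 (Ring_gp1 h h0) hw
        rw [e1] at e'
        simp only [Prod.mk.injEq] at e'
        obtain ⟨rfl, rfl⟩ := e'
        omega
    · obtain ⟨θ, a, b', h1, h2, e, h3⟩ := Ring_inRing h hw
      rw [e1] at e
      simp only [Prod.mk.injEq] at e
      obtain ⟨rfl, rfl⟩ := e
      have hk : k' = r := by omega
      rw [e2, hk])
  -- the reverse of the list
  obtain ⟨t, ht⟩ := hl3.reverse.cons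
  obtain ⟨s, hs⟩ := g1.reverse.cons
  have hrev : (l1 ++ l2.tail ++ (gam N θ2 :: clp N 1 (gam N θ2) :: clp N 2 (gam N θ2) ::
      l').reverse.tail).reverse = gam N θ2 :: clp N 1 (gam N θ2) :: clp N 2 (gam N θ2) ::
      (l' ++ s) := by
    rw [List.reverse_append, hs, ht, List.tail_cons, List.append_cons, ← List.reverse_cons, ← ht,
      List.reverse_reverse]
    rfl
  refine ⟨_, ⟨g2.chain, g2.nodup, g2.head, g2.last, ?_, ?_, _, hrev⟩⟩
  · intro x
    rw [g2.mem]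
    unfold InChord
    tauto
  · rw [← List.length_reverse, hrev]
    simp

/-- the four kinds of points of a chord -/
theorem Ring_chord {N R r θ1 θ2 : ℤ} (h : Prm N R r θ1 θ2) {b : Bool} {x : P2}
    (hx : InChord N r θ1 θ2 b x) :
    (θ1 = 0 ∧ InStub r b x) ∨ (θ1 ≠ 0 ∧ GoodPos N R θ1 ∧ InSeg N r θ1 x) ∨
      InRing N r θ1 θ2 x ∨ (GoodPos N R θ2 ∧ InSeg N r θ2 x) := by
  rcases hx with hx | hx | hx
  · by_cases h0 : θ1 = 0
    · rw [if_pos h0] at hx
      exact Or.inl ⟨h0, hx⟩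
    · rw [if_neg h0] at hx
      exact Or.inr (Or.inl ⟨h0, Ring_gp1 h h0, hx⟩)
  · exact Or.inr (Or.inr (Or.inl hx))
  · exact Or.inr (Or.inr (Or.inr ⟨h.h2, hx⟩))

theorem inChord_box {N R r θ1 θ2 : ℤ} (h : Prm N R r θ1 θ2) {b : Bool} {x : P2}
    (hx : InChord N r θ1 θ2 b x) : 0 ≤ x.1 ∧ x.1 ≤ N ∧ 0 ≤ x.2 ∧ x.2 ≤ N := by
  obtain ⟨hb0, hb1, hb2, hb3⟩ := h.bounds
  have hr := h.hr
  have hR := h.hR
  have hN := h.hN
  rcases Ring_chord h hx with ⟨h0, hx⟩ | ⟨h0, hg, hx⟩ | hx | ⟨hg, hx⟩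
  · obtain ⟨p, q, rfl, h4⟩ := Ring_inStub hr hx
    simp only
    omega
  · obtain ⟨s, k, p, q, h4, h5, h6, h7, rfl, h8, -⟩ := Ring_inSeg hR hb3 hg hx
    simp only
    omega
  · obtain ⟨θ, p, q, h1, h2, rfl, h3⟩ := Ring_inRing h hx
    simp only
    omega
  · obtain ⟨s, k, p, q, h4, h5, h6, h7, rfl, h8, -⟩ := Ring_inSeg hR hb3 hg hx
    simp only
    omega

/-- A chord meets the boundary only in its ends. -/
theorem inChord_bd {N R r θ1 θ2 : ℤ} (h : Prm N R r θ1 θ2) {b : Bool} {x : P2}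
    (hx : InChord N r θ1 θ2 b x) (hb : x.1 = 0 ∨ x.1 = N ∨ x.2 = 0 ∨ x.2 = N) :
    x = st2 N θ1 b ∨ x = gam N θ2 := by
  obtain ⟨hb0, hb1, hb2, hb3⟩ := h.bounds
  have hr := h.hr
  have hR := h.hR
  have hN := h.hN
  rcases Ring_chord h hx with ⟨h0, hx⟩ | ⟨h0, hg, hx⟩ | hx | ⟨hg, hx⟩
  · left
    obtain ⟨p, q, e, h4⟩ := Ring_inStub hr hx
    rw [e] at hb
    simp only at hb
    have e1 : st2 N θ1 b = hp2 b := if_pos h0
    rw [e1]
    obtain ⟨h6, h7, h8, h9, ⟨h5, -⟩ | h5 | h5⟩ := h4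
    · exact h5
    · omega
    · omega
  · left
    obtain ⟨s, k, p, q, h4, h5, h6, h7, e, h8, e'⟩ := Ring_inSeg hR hb3 hg hx
    rw [e] at hb
    simp only at hb
    have e1 : st2 N θ1 b = gam N θ1 := if_neg h0
    have hk : k = 0 := by omega
    rw [e1, e', hk, Ring_clp_zero hb3 hg]
  · obtain ⟨θ, p, q, h1, h2, rfl, h3⟩ := Ring_inRing h hx
    simp only at hb
    omega
  · right
    obtain ⟨s, k, p, q, h4, h5, h6, h7, e, h8, e'⟩ := Ring_inSeg hR hb3 hg hx
    rw [e] at hb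
    simp only at hb
    have hk : k = 0 := by omega
    rw [e', hk, Ring_clp_zero hb3 hg]

/-- Nested chords of different depths and chords over disjoint intervals are disjoint. -/
theorem inChord_disj {N R r θ1 θ2 r' θ1' θ2' : ℤ} (h : Prm N R r θ1 θ2)
    (h' : Prm N R r' θ1' θ2') (hd : (θ1 < θ1' ∧ θ2' < θ2 ∧ r' < r) ∨ θ2 < θ1') {b : Bool}
    {x : P2} (hx : InChord N r θ1 θ2 b x) (hx' : InChord N r' θ1' θ2' b x) : False := by
  obtain ⟨hb0, hb1, hb2, hb3⟩ := h.bounds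
  have hr := h.hr
  have hR := h.hR
  have hN := h.hN
  have hlt := h.lt
  obtain ⟨hb0', hb1', hb2', -⟩ := h'.bounds
  have hr' := h'.hr
  have hR' := h'.hR
  have hlt' := h'.lt
  have h0' : θ1' ≠ 0 := by omega
  have hg1 := Ring_gp1 h' h0'
  have gp2 := Ring_gp h.h2
  have gp1' := Ring_gp hg1
  have gp2' := Ring_gp h'.h2
  -- a point of a segment is not on a segment at another position
  have hss : ∀ θ θ' ρ ρ', ρ < R → ρ' < R → GoodPos N R θ → GoodPos N R θ' → θ ≠ θ' →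
      InSeg N ρ θ x → InSeg N ρ' θ' x → False := by
    intro θ θ' ρ ρ' hρ hρ' hg hg' hne hx hx'
    obtain ⟨s, k, p, q, h4, h5, h6, h7, e, h8, -⟩ := Ring_inSeg hρ hb3 hg hx
    obtain ⟨s', k', p', q', h4', h5', h6', h7', e', h8', -⟩ := Ring_inSeg hρ' hb3 hg' hx'
    rw [e] at e'
    simp only [Prod.mk.injEq] at e'
    obtain ⟨rfl, rfl⟩ := e'
    omega
  -- a point of a segment is not on a ring which does not contain its position
  have hsr : ∀ θ ρ ρ' ϑ1 ϑ2, ρ < R → Prm N R ρ' ϑ1 ϑ2 → GoodPos N R θ → (θ < ϑ1 ∨ ϑ2 < θ) →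
      InSeg N ρ θ x → InRing N ρ' ϑ1 ϑ2 x → False := by
    intro θ ρ ρ' ϑ1 ϑ2 hρ hp hg hne hx hx'
    have b1 := hp.bounds
    have b2 := hp.hr
    have b3 := hp.hR
    obtain ⟨s, k, p, q, h4, h5, h6, h7, e, h8, -⟩ := Ring_inSeg hρ hb3 hg hx
    obtain ⟨t, p', q', h1, h2, e', h3⟩ := Ring_inRing hp hx'
    rw [e] at e'
    simp only [Prod.mk.injEq] at e'
    obtain ⟨rfl, rfl⟩ := e'
    omega
  -- a point of a short segment is not on a deep ring
  have hsr' : ∀ θ ρ ρ' ϑ1 ϑ2, ρ < ρ' → Prm N R ρ' ϑ1 ϑ2 → GoodPos N R θ →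
      InSeg N ρ θ x → InRing N ρ' ϑ1 ϑ2 x → False := by
    intro θ ρ ρ' ϑ1 ϑ2 hρ hp hg hx hx'
    have b1 := hp.bounds
    have b2 := hp.hr
    have b3 := hp.hR
    obtain ⟨s, k, p, q, h4, h5, h6, h7, e, h8, -⟩ := Ring_inSeg (hρ.trans b3) hb3 hg hx
    obtain ⟨t, p', q', h1, h2, e', h3⟩ := Ring_inRing hp hx'
    rw [e] at e'
    simp only [Prod.mk.injEq] at e'
    obtain ⟨rfl, rfl⟩ := e'
    omega
  rcases Ring_chord h hx with ⟨h0, hx⟩ | ⟨h0, hg, hx⟩ | hx | ⟨hg, hx⟩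
  · obtain ⟨p, q, e, h4⟩ := Ring_inStub hr hx
    rcases Ring_chord h' hx' with ⟨h0, -⟩ | ⟨-, -, hx'⟩ | hx' | ⟨-, hx'⟩
    · exact h0' h0
    · obtain ⟨s', k', p', q', h4', h5', h6', h7', e', h8', -⟩ := Ring_inSeg hR' hb3 hg1 hx'
      rw [e] at e'
      simp only [Prod.mk.injEq] at e'
      obtain ⟨rfl, rfl⟩ := e'
      omega
    · obtain ⟨t, p', q', h1, h2, e', h3⟩ := Ring_inRing h' hx'
      rw [e] at e'
      simp only [Prod.mk.injEq] at e'
      obtain ⟨rfl, rfl⟩ := e'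
      omega
    · obtain ⟨s', k', p', q', h4', h5', h6', h7', e', h8', -⟩ := Ring_inSeg hR' hb3 h'.h2 hx'
      rw [e] at e'
      simp only [Prod.mk.injEq] at e'
      obtain ⟨rfl, rfl⟩ := e'
      omega
  · rcases Ring_chord h' hx' with ⟨h0, -⟩ | ⟨-, -, hx'⟩ | hx' | ⟨-, hx'⟩
    · exact h0' h0
    · exact hss _ _ _ _ hR hR' hg hg1 (by omega) hx hx'
    · exact hsr _ _ _ _ _ hR h' hg (by omega) hx hx'
    · exact hss _ _ _ _ hR hR' hg h'.h2 (by omega) hx hx'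
  · rcases Ring_chord h' hx' with ⟨h0, -⟩ | ⟨-, -, hx'⟩ | hx' | ⟨-, hx'⟩
    · exact h0' h0
    · rcases hd with hd | hd
      · exact hsr' _ _ _ _ _ hd.2.2 h hg1 hx' hx
      · exact hsr _ _ _ _ _ hR' h hg1 (by omega) hx' hx
    · obtain ⟨t, p, q, h1, h2, e, h3⟩ := Ring_inRing h hx
      obtain ⟨t', p', q', h1', h2', e', h3'⟩ := Ring_inRing h' hx'
      have he := e
      rw [e'] at e
      simp only [Prod.mk.injEq] at e
      obtain ⟨rfl, rfl⟩ := e
      have hrr : r = r' := by omega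
      subst hrr
      have hd' : θ2 < θ1' := by omega
      obtain ⟨t1, ht1, ht1', hx1⟩ := hx
      obtain ⟨t2, ht2, ht2', hx2⟩ := hx'
      have hk := Ring_key (N := N) (r := r) (θ := t1) (θ'' := t2) (by omega) hb2 (by omega)
        (by omega) (by omega) (hx1.symm.trans hx2)
      clear h3 h3' he e' h1 h2 h1' h2'
      omega
    · rcases hd with hd | hd
      · exact hsr' _ _ _ _ _ hd.2.2 h h'.h2 hx' hx
      · exact hsr _ _ _ _ _ hR' h h'.h2 (by omega) hx' hx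
  · rcases Ring_chord h' hx' with ⟨h0, -⟩ | ⟨-, -, hx'⟩ | hx' | ⟨-, hx'⟩
    · exact h0' h0
    · exact hss _ _ _ _ hR hR' hg hg1 (by omega) hx hx'
    · exact hsr _ _ _ _ _ hR h' hg (by omega) hx hx'
    · exact hss _ _ _ _ hR hR' hg h'.h2 (by omega) hx hx'

/-- The points of a chord near the boundary. -/
theorem inChord_deep {N R r θ1 θ2 : ℤ} (h : Prm N R r θ1 θ2) {b : Bool} {x : P2}
    (hx : InChord N r θ1 θ2 b x) :
    (2 ≤ x.1 ∧ x.1 ≤ N - 2 ∧ 2 ≤ x.2 ∧ x.2 ≤ N - 2) ∨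
      (θ1 = 0 ∧ (x = hp2 b ∨ x = (1, 1) ∨ x = (2, 1))) ∨
      (∃ θ, ((θ = θ1 ∧ θ1 ≠ 0) ∨ θ = θ2) ∧ (x = gam N θ ∨ x = clp N 1 (gam N θ))) := by
  obtain ⟨hb0, hb1, hb2, hb3⟩ := h.bounds
  have hr := h.hr
  have hR := h.hR
  have hN := h.hN
  have hlt := h.lt
  have hseg : ∀ θ, GoodPos N R θ → InSeg N r θ x →
      (2 ≤ x.1 ∧ x.1 ≤ N - 2 ∧ 2 ≤ x.2 ∧ x.2 ≤ N - 2) ∨ x = gam N θ ∨
        x = clp N 1 (gam N θ) := by
    intro θ hg hx
    obtain ⟨s, k, p, q, h4, h5, h6, h7, e, h8, e'⟩ := Ring_inSeg hR hb3 hg hx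
    have hk : k = 0 ∨ k = 1 ∨ 2 ≤ k := by omega
    rcases hk with rfl | rfl | hk
    · right; left; rw [e', Ring_clp_zero hb3 hg]
    · right; right; exact e'
    · left
      rw [e]
      simp only
      omega
  rcases Ring_chord h hx with ⟨h0, hx⟩ | ⟨h0, hg, hx⟩ | hx | ⟨hg, hx⟩
  · obtain ⟨p, q, e, h4⟩ := Ring_inStub hr hx
    obtain ⟨h1, h2, h3, h4', ⟨h5, -⟩ | h5 | h5⟩ := h4
    · exact Or.inr (Or.inl ⟨h0, Or.inl h5⟩)
    · refine Or.inr (Or.inl ⟨h0, Or.inr (Or.inl ?_)⟩)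
      rw [e, h5.1, h5.2]
    · by_cases h6 : 2 ≤ q
      · left
        rw [e]
        simp only
        omega
      · refine Or.inr (Or.inl ⟨h0, Or.inr (Or.inr ?_)⟩)
        rw [e]
        simp only [Prod.mk.injEq]
        omega
  · rcases hseg θ1 hg hx with h1 | h1
    · exact Or.inl h1
    · exact Or.inr (Or.inr ⟨θ1, Or.inl ⟨rfl, h0⟩, h1⟩)
  · left
    obtain ⟨θ, p, q, h1, h2, rfl, h3⟩ := Ring_inRing h hx
    simp only
    omega
  · rcases hseg θ2 hg hx with h1 | h1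
    · exact Or.inl h1
    · exact Or.inr (Or.inr ⟨θ2, Or.inr rfl, h1⟩)

open Classical in
/-- The chord. -/
noncomputable def ring (N r θ1 θ2 : ℤ) (b : Bool) : List P2 :=
  if h : ∃ l, IsRing N r θ1 θ2 b l then h.choose else []

theorem isRing_ring {N R r θ1 θ2 : ℤ} (h : Prm N R r θ1 θ2) (b : Bool) :
    IsRing N r θ1 θ2 b (ring N r θ1 θ2 b) := by
  have hl := exists_ring h b
  unfold ring
  rw [dif_pos hl]
  exact hl.choose_spec

end Pool.Agent.Lib.MP_131179_gt.Dehn
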