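import Pool.Agent.Lib.MP_131179_gt.Basic

/-!
# Words from horizontal moves

The strands of a tangle are in the points of a finite subset `P` of the plane `ℤ × ℤ` (column and
depth), seen from the front (large depth numbers are in front) they are ordered lexicographically.  A
horizontal edge moves a strand to a neighbouring point; if both ends of the edge are free, a new
pair of strands is created, if both are occupied, the two strands are joined.
-/

set_option autoImplicit false

namespace Pool.Agent.Lib.MP_131179_gt.Dehn

/-- A point of the plane: column and depth, with the lexicographic order. -/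
abbrev Site : Type := ℤ ×ₗ ℤ

def st (x z : ℤ) : Site := toLex (x, z)

/-- The column of a point. -/
def cx (p : Site) : ℤ := (ofLex p).1

/-- The depth of a point. -/
def cz (p : Site) : ℤ := (ofLex p).2

/-- Horizontal edges: `ex i k` from `(i, k)` to `(i + 1, k)` and `ez i k` from `(i, k)` to
`(i, k + 1)`. -/
inductive HE : Type
  | ex (i k : ℤ)
  | ez (i k : ℤ)
  deriving DecidableEq

/-- The smaller end of an edge. -/
def HE.lo : HE → Site
  | .ex i k => st i k
  | .ez i k => st i k

/-- The larger end of an edge. -/
def HE.hi : HE → Site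
  | .ex i k => st (i + 1) k
  | .ez i k => st i (k + 1)

/-- The number of strands to the left of `p`. -/
def rk (P : Finset Site) (p : Site) : ℕ := (P.filter fun q => q < p).card

/-- The strands strictly between the ends of the edge, from the left to the right. -/
def btw (P : Finset Site) (e : HE) : List Site :=
  (P.filter fun q => e.lo < q ∧ q < e.hi).sort (· ≤ ·)

variable {C : Type}

/-- A strand at depth `z` moves from the position `r` to the right, passing the strands `B`. -/
def crR (z : ℤ) : ℕ → List Site → Word C
  | _, [] => []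
  | r, b :: B => (if z < cz b then .neg else .pos, r) :: crR z (r + 1) B

/-- A strand at depth `z` moves to the left to the position `r`, passing the strands `B`. -/
def crL (z : ℤ) : ℕ → List Site → Word C
  | _, [] => []
  | r, b :: B => crL z (r + 1) B ++ [(if z < cz b then .pos else .neg, r)]

/-- The word of one edge; the labels of the strands are given by `f`. -/
def wd (f : Site → C) (P : Finset Site) (e : HE) : Word C :=
  let r := rk P e.lo
  let B := btw P e
  let z := cz e.lo
  if e.lo ∈ P then
    if e.hi ∈ P then crL z (r + 1) B ++ [(.cap, r)] else crR z r B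
  else
    if e.hi ∈ P then crL z r B else (.cup (f e.lo), r) :: crR z (r + 1) B

/-- The strands after the edge. -/
def nxs (P : Finset Site) (e : HE) : Finset Site := symmDiff P {e.lo, e.hi}

/-- The word of a list of edges. -/
def run (f : Site → C) : Finset Site → List HE → Word C
  | _, [] => []
  | P, e :: es => wd f P e ++ run f (nxs P e) es

/-- The strands after a list of edges. -/
def fin : Finset Site → List HE → Finset Site
  | P, [] => P
  | P, e :: es => fin (nxs P e) es

/-- The list of the labels of the strands. -/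
def lst (f : Site → C) (P : Finset Site) : List C := (P.sort (· ≤ ·)).map f

/-- The unlabelled word of a list of edges. -/
abbrev run1 (P : Finset Site) (es : List HE) : Word Unit := run (fun _ => ()) P es

/-- Unlabelled lists of strands. -/
abbrev lst1 (P : Finset Site) : List Unit := lst (fun _ => ()) P

theorem btw_ez (P : Finset Site) (i k : ℤ) : btw P (.ez i k) = [] := by
  unfold btw
  have h : (P.filter fun q => (HE.ez i k).lo < q ∧ q < (HE.ez i k).hi) = ∅ := by
    apply Finset.filter_eq_empty_iff.2
    rintro q _ ⟨h1, h2⟩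
    rw [Prod.Lex.lt_iff] at h1 h2
    simp only [HE.lo, HE.hi, st, ofLex_toLex] at h1 h2
    omega
  rw [h, Finset.sort_empty]

theorem HE.lo_lt_hi (e : HE) : e.lo < e.hi := by
  cases e with
  | ex i k =>
    rw [Prod.Lex.lt_iff]
    left
    show i < i + 1
    omega
  | ez i k =>
    rw [Prod.Lex.lt_iff]
    right
    exact ⟨rfl, show k < k + 1 by omega⟩

theorem run_append (f : Site → C) (P : Finset Site) (es es' : List HE) :
    run f P (es ++ es') = run f P es ++ run f (fin P es) es' := by
  induction es generalizing P with
  | nil => rfl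
  | cons e es ih => simp only [List.cons_append, run, fin, ih, List.append_assoc]

theorem fin_append (P : Finset Site) (es es' : List HE) :
    fin P (es ++ es') = fin (fin P es) es' := by
  induction es generalizing P with
  | nil => rfl
  | cons e es ih => simp only [List.cons_append, fin, ih]

/-- The final set of strands does not depend on the order. -/
theorem fin_perm {P : Finset Site} {es es' : List HE} (h : es.Perm es') : fin P es = fin P es' := by
  induction h generalizing P with
  | nil => rfl
  | cons e _ ih => exact ih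
  | swap e e' l =>
    show fin (nxs (nxs P e') e) l = fin (nxs (nxs P e) e') l
    congr 1
    unfold nxs
    exact symmDiff_right_comm _ _ _
  | trans _ _ ih1 ih2 => exact ih1.trans ih2

theorem wmap_crR {D : Type} (g : C → D) (z : ℤ) (r : ℕ) (B : List Site) :
    wmap g (crR z r B) = crR z r B := by
  induction B generalizing r with
  | nil => rfl
  | cons b B ih =>
    simp only [crR, wmap_cons, ih]
    split_ifs <;> rfl

theorem wmap_crL {D : Type} (g : C → D) (z : ℤ) (r : ℕ) (B : List Site) :
    wmap g (crL z r B) = crL z r B := by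
  induction B generalizing r with
  | nil => rfl
  | cons b B ih =>
    simp only [crL, wmap_append, ih, wmap_cons, wmap_nil]
    split_ifs <;> rfl

theorem wmap_wd {D : Type} (g : C → D) (f : Site → C) (P : Finset Site) (e : HE) :
    wmap g (wd f P e) = wd (fun p => g (f p)) P e := by
  unfold wd
  simp only
  split_ifs
  · rw [wmap_append, wmap_crL]; rfl
  · rw [wmap_crR]
  · rw [wmap_crL]
  · rw [wmap_cons, wmap_crR]; rfl

theorem wmap_run {D : Type} (g : C → D) (f : Site → C) (P : Finset Site) (es : List HE) :
    wmap g (run f P es) = run (fun p => g (f p)) P es := by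
  induction es generalizing P with
  | nil => rfl
  | cons e es ih => simp only [run, wmap_append, wmap_wd, ih]

theorem crR_shift (z : ℤ) (r n : ℕ) (B : List Site) :
    (crR z (r + n) B : Word C) = shift n (crR z r B) := by
  induction B generalizing r with
  | nil => rfl
  | cons b B ih =>
    rw [crR, crR, shift_cons, ← ih (r + 1), Nat.add_right_comm]

theorem crL_shift (z : ℤ) (r n : ℕ) (B : List Site) :
    (crL z (r + n) B : Word C) = shift n (crL z r B) := by
  induction B generalizing r with
  | nil => rfl
  | cons b B ih =>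
    rw [crL, crL, shift_append, ← ih (r + 1), Nat.add_right_comm]
    rfl

theorem crR_path (z : ℤ) (x : C) (f : Site → C) (B : List Site) :
    Path (triv C) (crR z 0 B) (x :: B.map f) (B.map f ++ [x]) := by
  induction B with
  | nil => exact Path.nil _
  | cons b B ih =>
    rw [crR, crR_shift z 0 1]
    have h1 : Path (triv C) (shift [f b].length (crR z 0 B)) ([f b] ++ (x :: B.map f))
        ([f b] ++ (B.map f ++ [x])) := ih.left [f b]
    refine Path.cons ?_ h1
    split_ifs
    · exact Step.neg x (f b) _
    · exact Step.pos x (f b) _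

theorem crL_path (z : ℤ) (x : C) (f : Site → C) (B : List Site) :
    Path (triv C) (crL z 0 B) (B.map f ++ [x]) (x :: B.map f) := by
  induction B with
  | nil => exact Path.nil _
  | cons b B ih =>
    rw [crL, crL_shift z 0 1]
    have h1 : Path (triv C) (shift [f b].length (crL z 0 B)) ([f b] ++ (B.map f ++ [x]))
        ([f b] ++ (x :: B.map f)) := ih.left [f b]
    refine h1.append (path_single_iff.2 ?_)
    split_ifs
    · exact Step.pos (f b) x _
    · exact Step.neg (f b) x _

/-- A moving strand in a context, to the right. -/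
theorem crR_path' (z : ℤ) (x : C) (f : Site → C) (B : List Site) (L R : List C) {r : ℕ}
    (hr : L.length = r) :
    Path (triv C) (crR z r B) (L ++ (x :: B.map f ++ R)) (L ++ (B.map f ++ [x] ++ R)) := by
  subst hr
  have h := ((crR_path z x f B).right R).left L
  have h2 := crR_shift (C := C) z 0 L.length B
  rw [Nat.zero_add] at h2
  rw [h2]
  exact h

/-- A moving strand in a context, to the left. -/
theorem crL_path' (z : ℤ) (x : C) (f : Site → C) (B : List Site) (L R : List C) {r : ℕ}
    (hr : L.length = r) :
    Path (triv C) (crL z r B) (L ++ (B.map f ++ [x] ++ R)) (L ++ (x :: B.map f ++ R)) := by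
  subst hr
  have h := ((crL_path z x f B).right R).left L
  have h2 := crL_shift (C := C) z 0 L.length B
  rw [Nat.zero_add] at h2
  rw [h2]
  exact h

theorem sort_union {S T : Finset Site} (h : ∀ s ∈ S, ∀ t ∈ T, s < t) :
    (S ∪ T).sort (· ≤ ·) = S.sort (· ≤ ·) ++ T.sort (· ≤ ·) := by
  have hd : Disjoint S T := by
    rw [Finset.disjoint_left]
    intro a ha hb
    exact lt_irrefl _ (h a ha a hb)
  have hn : (S.sort (· ≤ ·) ++ T.sort (· ≤ ·)).Nodup := by
    refine List.Nodup.append (Finset.sort_nodup _ _) (Finset.sort_nodup _ _) ?_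
    intro a ha hb
    rw [Finset.mem_sort] at ha hb
    exact lt_irrefl _ (h a ha a hb)
  have hp : ((S ∪ T).sort (· ≤ ·)).Perm (S.sort (· ≤ ·) ++ T.sort (· ≤ ·)) := by
    rw [List.perm_ext_iff_of_nodup (Finset.sort_nodup _ _) hn]
    intro a
    simp only [Finset.mem_sort, Finset.mem_union, List.mem_append]
  refine List.Perm.eq_of_pairwise (le := (· ≤ ·)) ?_ (Finset.pairwise_sort _ _) ?_ hp
  · intro a b _ _ h1 h2
    exact le_antisymm h1 h2
  · rw [List.pairwise_append]
    refine ⟨Finset.pairwise_sort _ _, Finset.pairwise_sort _ _, ?_⟩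
    intro a ha b hb
    rw [Finset.mem_sort] at ha hb
    exact (h a ha b hb).le

/-- One point or nothing. -/
def opt (P : Finset Site) (a : Site) : List Site := if a ∈ P then [a] else []

/-- The strands to the left of `a`. -/
def lef (P : Finset Site) (a : Site) : List Site := (P.filter fun q => q < a).sort (· ≤ ·)

/-- The strands to the right of `a`. -/
def rig (P : Finset Site) (a : Site) : List Site := (P.filter fun q => a < q).sort (· ≤ ·)

theorem length_lef (P : Finset Site) (a : Site) : (lef P a).length = rk P a := by
  unfold lef rk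
  exact Finset.length_sort _

theorem sort_split (P : Finset Site) (a : Site) :
    P.sort (· ≤ ·) = lef P a ++ (opt P a ++ rig P a) := by
  have h1 : P = (P.filter fun q => q < a) ∪ ((P.filter fun q => q = a) ∪
      (P.filter fun q => a < q)) := by
    ext q
    simp only [Finset.mem_union, Finset.mem_filter]
    constructor
    · intro hq
      rcases lt_trichotomy q a with h | h | h
      · exact Or.inl ⟨hq, h⟩
      · exact Or.inr (Or.inl ⟨hq, h⟩)
      · exact Or.inr (Or.inr ⟨hq, h⟩)
    · rintro (h | h | h) <;> exact h.1
  conv_lhs => rw [h1]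
  rw [sort_union, sort_union]
  · congr 2
    unfold opt
    rw [Finset.filter_eq']
    split_ifs
    · exact Finset.sort_singleton _ _
    · exact Finset.sort_empty _
  · intro s hs t ht
    rw [Finset.mem_filter] at hs ht
    rw [hs.2]
    exact ht.2
  · intro s hs t ht
    rw [Finset.mem_union, Finset.mem_filter, Finset.mem_filter] at ht
    rw [Finset.mem_filter] at hs
    rcases ht with h | h
    · rw [h.2]; exact hs.2
    · exact hs.2.trans h.2

theorem rig_split (P : Finset Site) {a b : Site} (hab : a < b) :
    rig P a = (P.filter fun q => a < q ∧ q < b).sort (· ≤ ·) ++ (opt P b ++ rig P b) := by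
  have h := sort_split (P.filter fun q => a < q) b
  unfold rig
  rw [h]
  congr 1
  · unfold lef
    rw [Finset.filter_filter]
  · congr 1
    · unfold opt
      have : b ∈ (P.filter fun q => a < q) ↔ b ∈ P := by
        rw [Finset.mem_filter]
        exact ⟨fun h => h.1, fun h => ⟨h, hab⟩⟩
      simp only [this]
    · unfold rig
      rw [Finset.filter_filter]
      congr 1
      ext q
      simp only [Finset.mem_filter]
      constructor
      · rintro ⟨h1, _, h2⟩
        exact ⟨h1, h2⟩
      · rintro ⟨h1, h2⟩
        exact ⟨h1, hab.trans h2, h2⟩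

/-- The sorted list of strands, split at the ends of an edge. -/
theorem sort_edge (P : Finset Site) (e : HE) :
    P.sort (· ≤ ·) =
      lef P e.lo ++ (opt P e.lo ++ (btw P e ++ (opt P e.hi ++ rig P e.hi))) := by
  rw [sort_split P e.lo, rig_split P e.lo_lt_hi]
  rfl

theorem mem_nxs {P : Finset Site} {e : HE} {q : Site} (h1 : q ≠ e.lo) (h2 : q ≠ e.hi) :
    q ∈ nxs P e ↔ q ∈ P := by
  unfold nxs
  rw [Finset.mem_symmDiff]
  simp [h1, h2]

theorem lo_mem_nxs {P : Finset Site} {e : HE} : e.lo ∈ nxs P e ↔ e.lo ∉ P := by
  unfold nxs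
  rw [Finset.mem_symmDiff]
  simp

theorem hi_mem_nxs {P : Finset Site} {e : HE} : e.hi ∈ nxs P e ↔ e.hi ∉ P := by
  unfold nxs
  rw [Finset.mem_symmDiff]
  simp

theorem lef_nxs (P : Finset Site) (e : HE) : lef (nxs P e) e.lo = lef P e.lo := by
  unfold lef
  congr 1
  ext q
  simp only [Finset.mem_filter]
  constructor
  · rintro ⟨h1, h2⟩
    exact ⟨(mem_nxs h2.ne (h2.trans e.lo_lt_hi).ne).1 h1, h2⟩
  · rintro ⟨h1, h2⟩
    exact ⟨(mem_nxs h2.ne (h2.trans e.lo_lt_hi).ne).2 h1, h2⟩

theorem rig_nxs (P : Finset Site) (e : HE) : rig (nxs P e) e.hi = rig P e.hi := by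
  unfold rig
  congr 1
  ext q
  simp only [Finset.mem_filter]
  constructor
  · rintro ⟨h1, h2⟩
    exact ⟨(mem_nxs (e.lo_lt_hi.trans h2).ne' h2.ne').1 h1, h2⟩
  · rintro ⟨h1, h2⟩
    exact ⟨(mem_nxs (e.lo_lt_hi.trans h2).ne' h2.ne').2 h1, h2⟩

theorem btw_nxs (P : Finset Site) (e : HE) : btw (nxs P e) e = btw P e := by
  unfold btw
  congr 1
  ext q
  simp only [Finset.mem_filter]
  constructor
  · rintro ⟨h1, h2, h3⟩
    exact ⟨(mem_nxs h2.ne' h3.ne).1 h1, h2, h3⟩
  · rintro ⟨h1, h2, h3⟩
    exact ⟨(mem_nxs h2.ne' h3.ne).2 h1, h2, h3⟩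

/-- The word of an edge is a tangle with constant labels along the strands. -/
theorem wd_path (f : Site → C) (P : Finset Site) (e : HE) (hf : f e.lo = f e.hi) :
    Path (triv C) (wd f P e) (lst f P) (lst f (nxs P e)) := by
  have hL : ((lef P e.lo).map f).length = rk P e.lo := by
    rw [List.length_map, length_lef]
  unfold lst
  rw [sort_edge P e, sort_edge (nxs P e) e, lef_nxs, rig_nxs, btw_nxs]
  unfold opt wd
  simp only [lo_mem_nxs, hi_mem_nxs]
  by_cases h1 : e.lo ∈ P <;> by_cases h2 : e.hi ∈ P
  · -- both ends occupied: the strand at `hi` moves to the left and is joined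
    simp only [h1, h2, if_true, not_true_eq_false, if_false, List.map_append, List.map_cons,
      List.map_nil, List.nil_append]
    have a1 := crL_path' (cz e.lo) (f e.hi) f (btw P e) ((lef P e.lo).map f ++ [f e.lo])
      ((rig P e.hi).map f) (r := rk P e.lo + 1) (by simp [hL])
    have a2 : Path (triv C) [(Kind.cap, rk P e.lo)]
        ((lef P e.lo).map f ++ (f e.lo :: f e.lo :: ((btw P e).map f ++ (rig P e.hi).map f)))
        ((lef P e.lo).map f ++ ((btw P e).map f ++ (rig P e.hi).map f)) := by
      rw [path_single_iff]
      have a3 := (Step.cap (P := triv C) (f e.lo)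
        ((btw P e).map f ++ (rig P e.hi).map f)).left ((lef P e.lo).map f)
      rw [hL, Nat.zero_add] at a3
      exact a3
    refine Path.append (t := (lef P e.lo).map f ++
      (f e.lo :: f e.lo :: ((btw P e).map f ++ (rig P e.hi).map f))) ?_ a2
    refine a1.cast ?_ ?_
    · simp
    · simp [hf]
  · -- moves to the right
    simp only [h1, h2, if_true, not_true_eq_false, not_false_eq_true, if_false, List.map_append,
      List.map_cons, List.map_nil, List.nil_append]
    have a1 := crR_path' (cz e.lo) (f e.lo) f (btw P e) ((lef P e.lo).map f)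
      ((rig P e.hi).map f) hL
    refine a1.cast ?_ ?_
    · simp
    · simp [hf]
  · simp only [h1, h2, if_true, not_true_eq_false, not_false_eq_true, if_false, List.map_append,
      List.map_cons, List.map_nil, List.nil_append]
    have a1 := crL_path' (cz e.lo) (f e.hi) f (btw P e) ((lef P e.lo).map f)
      ((rig P e.hi).map f) hL
    refine a1.cast ?_ ?_
    · simp
    · simp [hf]
  · simp only [h1, h2, not_false_eq_true, if_true, if_false, List.map_append,
      List.map_cons, List.map_nil, List.nil_append]
    have a1 := crR_path' (cz e.lo) (f e.lo) f (btw P e) ((lef P e.lo).map f ++ [f e.lo])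
      ((rig P e.hi).map f) (r := rk P e.lo + 1) (by simp [hL])
    have a3 := (Step.cup (P := triv C) (f e.lo)
      ((btw P e).map f ++ (rig P e.hi).map f)).left ((lef P e.lo).map f)
    rw [hL, Nat.zero_add] at a3
    refine Path.cons a3 (a1.cast ?_ ?_)
    · simp [triv]
    · simp [hf]

theorem run_path (f : Site → C) (P : Finset Site) (es : List HE)
    (hf : ∀ e ∈ es, f e.lo = f e.hi) : Path (triv C) (run f P es) (lst f P) (lst f (fin P es)) := by
  induction es generalizing P with
  | nil => exact Path.nil _
  | cons e es ih =>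
    exact (wd_path f P e (hf e List.mem_cons_self)).append
      (ih (nxs P e) fun e' he' => hf e' (List.mem_cons_of_mem _ he'))

/-- Strands to the right of everything do not matter. -/
theorem wd_left {P Q : Finset Site} {e : HE} (f : Site → C) (h : ∀ q ∈ Q, e.hi < q) :
    wd f (P ∪ Q) e = wd f P e := by
  have h1 : rk (P ∪ Q) e.lo = rk P e.lo := by
    unfold rk
    congr 1
    ext q
    simp only [Finset.mem_filter, Finset.mem_union]
    constructor
    · rintro ⟨h1 | h1, h2⟩
      · exact ⟨h1, h2⟩
      · exact absurd (h2.trans e.lo_lt_hi) (h q h1).not_gt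
    · rintro ⟨h1, h2⟩
      exact ⟨Or.inl h1, h2⟩
  have h2 : btw (P ∪ Q) e = btw P e := by
    unfold btw
    congr 1
    ext q
    simp only [Finset.mem_filter, Finset.mem_union]
    constructor
    · rintro ⟨h1 | h1, h2⟩
      · exact ⟨h1, h2⟩
      · exact absurd h2.2 (h q h1).not_gt
    · rintro ⟨h1, h2⟩
      exact ⟨Or.inl h1, h2⟩
  have h3 : e.lo ∈ P ∪ Q ↔ e.lo ∈ P := by
    rw [Finset.mem_union]
    exact ⟨fun h' => h'.resolve_right fun h'' => (h _ h'').not_gt e.lo_lt_hi, Or.inl⟩
  have h4 : e.hi ∈ P ∪ Q ↔ e.hi ∈ P := by
    rw [Finset.mem_union]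
    exact ⟨fun h' => h'.resolve_right fun h'' => lt_irrefl _ (h _ h''), Or.inl⟩
  unfold wd
  simp only [h1, h2, h3, h4]

/-- Strands to the left of everything shift the word. -/
theorem wd_right {P Q : Finset Site} {e : HE} (f : Site → C) (h : ∀ q ∈ Q, q < e.lo)
    (hd : Disjoint P Q) : wd f (Q ∪ P) e = shift Q.card (wd f P e) := by
  have h1 : rk (Q ∪ P) e.lo = rk P e.lo + Q.card := by
    unfold rk
    rw [Finset.filter_union, Finset.card_union_of_disjoint, add_comm]
    · congr 2
      exact Finset.filter_true_of_mem h
    · exact (Finset.disjoint_filter_filter hd).symm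
  have h2 : btw (Q ∪ P) e = btw P e := by
    unfold btw
    congr 1
    ext q
    simp only [Finset.mem_filter, Finset.mem_union]
    constructor
    · rintro ⟨h1 | h1, h2⟩
      · exact absurd h2.1 (h q h1).not_gt
      · exact ⟨h1, h2⟩
    · rintro ⟨h1, h2⟩
      exact ⟨Or.inr h1, h2⟩
  have h3 : e.lo ∈ Q ∪ P ↔ e.lo ∈ P := by
    rw [Finset.mem_union]
    exact ⟨fun h' => h'.resolve_left fun h'' => lt_irrefl _ (h _ h''), Or.inr⟩
  have h4 : e.hi ∈ Q ∪ P ↔ e.hi ∈ P := by
    rw [Finset.mem_union]
    exact ⟨fun h' => h'.resolve_left fun h'' => (h _ h'').not_gt e.lo_lt_hi, Or.inr⟩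
  unfold wd
  simp only [h1, h2, h3, h4]
  split_ifs
  · rw [shift_append, ← crL_shift, Nat.add_right_comm]
    rfl
  · rw [← crR_shift]
  · rw [← crL_shift]
  · rw [shift_cons, ← crR_shift, Nat.add_right_comm]

/-! ### Exchanging two edges -/

/-- The edges have no common end. -/
def HE.Disj (e e' : HE) : Prop := e.lo ≠ e'.lo ∧ e.lo ≠ e'.hi ∧ e.hi ≠ e'.lo ∧ e.hi ≠ e'.hi

/-- The site `v` is an end of the edge. -/
def HE.At (e : HE) (v : Site) : Prop := v = e.lo ∨ v = e.hi

/-- Two edges may be exchanged. This is `swap_edges`; it is a class only so that the files that use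
it do not have to wait for its proof. -/
class SwapHyp : Prop where
  edges : ∀ (P : Finset Site) {e e' : HE}, e ≠ e' → (∀ v, e.At v → e'.At v → v ∉ P) →
    Eqv (triv Unit) (run1 P [e, e']) (run1 P [e', e]) (lst1 P) (lst1 (fin P [e, e']))

end Pool.Agent.Lib.MP_131179_gt.Dehn
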