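import Pool.Agent.Lib.MP_131179_gt.Dehn.Lin

/-!
# Shelling of spheres

An abstract cell decomposition of a sphere with vertices `Z`, edges `Y` and cells `C`.
-/

set_option autoImplicit false
set_option linter.unusedSectionVars false

namespace Pool.Agent.Lib.MP_131179_gt.Dehn

open Finset

/-- The edge `y` joins `z` and `z'`. -/
def Joins {Z Y : Type} (e0 e1 : Y → Z) (y : Y) (z z' : Z) : Prop :=
  (e0 y = z ∧ e1 y = z') ∨ (e0 y = z' ∧ e1 y = z)

/-- `l = [(z₁, y₁), …, (zₙ, yₙ)]` is a path: the edge `yᵢ` joins `zᵢ` and `zᵢ₊₁`, and the last edge ends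
in `z`. -/
def Walk {Z Y : Type} (e0 e1 : Y → Z) : List (Z × Y) → Z → Prop
  | [], _ => True
  | [a], z => Joins e0 e1 a.2 a.1 z
  | a :: b :: l, z => Joins e0 e1 a.2 a.1 b.1 ∧ Walk e0 e1 (b :: l) z

/-- A cell decomposition of the sphere, in which the boundary of each cell is a simple closed
curve. -/
structure CellSphere (Z Y C : Type) [Fintype Y] [DecidableEq Z] where
  e0 : Y → Z
  e1 : Y → Z
  s0 : Y → C
  s1 : Y → C
  ne_e : ∀ y, e0 y ≠ e1 y
  ne_s : ∀ y, s0 y ≠ s1 y
  /-- the boundary of the cell, a closed path -/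
  cyc : C → List (Z × Y)
  cyc_ne : ∀ c, cyc c ≠ []
  mem_cyc : ∀ c y, (∃ z, (z, y) ∈ cyc c) ↔ s0 y = c ∨ s1 y = c
  nodup_z : ∀ c, ((cyc c).map Prod.fst).Nodup
  nodup_y : ∀ c, ((cyc c).map Prod.snd).Nodup
  closed : ∀ c a l, cyc c = a :: l → Walk e0 e1 (a :: l) a.1
  /-- connectedness -/
  conn : ∀ G : C → F2, (∀ y, G (s0 y) = G (s1 y)) → ∀ c c', G c = G c'
  /-- every even set of edges is the boundary of a set of cells -/
  ex : ∀ g : Y → F2, (∀ z, ∑ y, (if e0 y = z ∨ e1 y = z then g y else 0) = 0) →
    ∃ G : C → F2, ∀ y, g y = G (s0 y) + G (s1 y)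

namespace CellSphere

variable {Z Y C : Type} [Fintype Y] [DecidableEq Y] [DecidableEq Z] [DecidableEq C]
  (S : CellSphere Z Y C)

/-- The edges on the boundary of a cell. -/
def bd (c : C) : Finset Y := univ.filter fun y => S.s0 y = c ∨ S.s1 y = c

/-- A closed curve `g` is pushed over a cell `c` with the property `p`: the boundary of the cell consists of
a path `l₁` which belongs to the curve `g`, and of a path `l₂` which meets `g` only in its ends. -/
structure StepP (p : C → Prop) (g g' : Finset Y) : Prop where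
  ex : ∃ (c : C) (l₁ l₂ : List (Z × Y)), p c ∧ (l₁ ++ l₂).IsRotated (S.cyc c) ∧ l₁ ≠ [] ∧
    l₂ ≠ [] ∧ (∀ a ∈ l₁, a.2 ∈ g) ∧ (∀ a ∈ l₂, a.2 ∉ g) ∧
    (∀ a ∈ l₁.tail, ∀ y ∈ g, S.e0 y = a.1 ∨ S.e1 y = a.1 → ∃ b ∈ l₁, b.2 = y) ∧
    (∀ a ∈ l₂.tail, ∀ y ∈ g, ¬ (S.e0 y = a.1 ∨ S.e1 y = a.1)) ∧ g' = symmDiff g (S.bd c)

/-! ### The cyclic list of the boundary -/

omit [DecidableEq Y] [DecidableEq C] in
theorem shell_len (c : C) : 0 < (S.cyc c).length := List.length_pos_iff.2 (S.cyc_ne c)

/-- The boundary of the cell as a periodic sequence. -/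
def shell_a (c : C) (i : ℕ) : Z × Y :=
  (S.cyc c)[i % (S.cyc c).length]'(Nat.mod_lt _ (S.shell_len c))

omit [Fintype Y] [DecidableEq Y] [DecidableEq Z] [DecidableEq C] in
theorem shell_walk_get {e0 e1 : Y → Z} (L : List (Z × Y)) (z : Z) (h : Walk e0 e1 L z) :
    (∀ i (hi : i + 1 < L.length), Joins e0 e1 (L[i]).2 (L[i]).1 (L[i + 1]).1) ∧
    (∀ i (hi : i < L.length), i + 1 = L.length → Joins e0 e1 (L[i]).2 (L[i]).1 z) := by
  induction L with
  | nil => exact ⟨fun i hi => absurd hi (by simp), fun i hi => absurd hi (by simp)⟩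
  | cons a l ih =>
    cases l with
    | nil =>
      refine ⟨fun i hi => absurd hi (by simp), fun i hi _ => ?_⟩
      have : i = 0 := by simpa using hi
      subst this
      exact h
    | cons b l =>
      obtain ⟨h1, h2⟩ := h
      obtain ⟨i1, i2⟩ := ih h2
      refine ⟨fun i hi => ?_, fun i hi hl => ?_⟩
      · cases i with
        | zero => exact h1
        | succ i => exact i1 i (by simpa using hi)
      · cases i with
        | zero => simp at hl
        | succ i => exact i2 i (by simpa using hi) (by simpa using hl)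

omit [DecidableEq Y] [DecidableEq C] in
theorem shell_joins (c : C) (i : ℕ) :
    Joins S.e0 S.e1 (S.shell_a c i).2 (S.shell_a c i).1 (S.shell_a c (i + 1)).1 := by
  have hpos := S.shell_len c
  have hw : Walk S.e0 S.e1 (S.cyc c) ((S.cyc c)[0]'hpos).1 := by
    have hcl := S.closed c
    revert hcl hpos
    generalize S.cyc c = L
    intro hpos hcl
    cases L with
    | nil => simp at hpos
    | cons a l => exact hcl a l rfl
  obtain ⟨h1, h2⟩ := shell_walk_get _ _ hw
  have hi := Nat.mod_lt i hpos
  by_cases hlt : i % (S.cyc c).length + 1 < (S.cyc c).length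
  · have e : (i + 1) % (S.cyc c).length = i % (S.cyc c).length + 1 := by
      rw [Nat.add_mod, Nat.mod_eq_of_lt (a := 1) (by omega), Nat.mod_eq_of_lt hlt]
    have := h1 _ hlt
    unfold shell_a
    simp only [e]
    exact this
  · have e' : i % (S.cyc c).length + 1 = (S.cyc c).length := by omega
    have e : (i + 1) % (S.cyc c).length = 0 := by
      have : (i + 1) % (S.cyc c).length = (i % (S.cyc c).length + 1) % (S.cyc c).length := by
        rw [Nat.mod_add_mod]
      rw [this, e', Nat.mod_self]
    have := h2 _ hi e'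
    unfold shell_a
    simp only [e]
    exact this

omit [DecidableEq Y] [DecidableEq C] in
theorem shell_per (c : C) (i : ℕ) : S.shell_a c (i + (S.cyc c).length) = S.shell_a c i := by
  unfold shell_a
  simp only [Nat.add_mod_right]

omit [DecidableEq Y] [DecidableEq C] in
theorem shell_mod (c : C) (i : ℕ) : S.shell_a c (i % (S.cyc c).length) = S.shell_a c i := by
  unfold shell_a
  simp only [Nat.mod_mod]

omit [DecidableEq Y] [DecidableEq C] in
theorem shell_inj_z (c : C) {i j : ℕ} (h : (S.shell_a c i).1 = (S.shell_a c j).1) :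
    i % (S.cyc c).length = j % (S.cyc c).length := by
  have hn := S.nodup_z c
  rw [List.nodup_iff_injective_getElem] at hn
  have hi := Nat.mod_lt i (S.shell_len c)
  have hj := Nat.mod_lt j (S.shell_len c)
  have := @hn ⟨i % (S.cyc c).length, by simpa using hi⟩ ⟨j % (S.cyc c).length, by simpa using hj⟩
    (by simpa [shell_a] using h)
  simpa using this

omit [DecidableEq Y] [DecidableEq C] in
theorem shell_inj_y (c : C) {i j : ℕ} (h : (S.shell_a c i).2 = (S.shell_a c j).2) :
    i % (S.cyc c).length = j % (S.cyc c).length := by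
  have hn := S.nodup_y c
  rw [List.nodup_iff_injective_getElem] at hn
  have hi := Nat.mod_lt i (S.shell_len c)
  have hj := Nat.mod_lt j (S.shell_len c)
  have := @hn ⟨i % (S.cyc c).length, by simpa using hi⟩ ⟨j % (S.cyc c).length, by simpa using hj⟩
    (by simpa [shell_a] using h)
  simpa using this

theorem shell_mem_bd (c : C) (y : Y) :
    y ∈ S.bd c ↔ ∃ i < (S.cyc c).length, (S.shell_a c i).2 = y := by
  rw [bd, mem_filter, ← S.mem_cyc c y]
  constructor
  · rintro ⟨_, z, hz⟩
    obtain ⟨i, hi, e⟩ := List.getElem_of_mem hz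
    refine ⟨i, hi, ?_⟩
    have : S.shell_a c i = (S.cyc c)[i] := by
      unfold shell_a
      simp only [Nat.mod_eq_of_lt hi]
    rw [this, e]
  · rintro ⟨i, hi, e⟩
    refine ⟨mem_univ _, (S.shell_a c i).1, ?_⟩
    rw [← e]
    exact List.getElem_mem _

theorem shell_a_mem (c : C) (i : ℕ) : (S.shell_a c i).2 ∈ S.bd c := by
  rw [shell_mem_bd]
  exact ⟨i % (S.cyc c).length, Nat.mod_lt _ (S.shell_len c), by rw [shell_mod]⟩

omit [DecidableEq Y] [DecidableEq C] in
theorem shell_two (c : C) : 2 ≤ (S.cyc c).length := by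
  by_contra h
  have hpos := S.shell_len c
  have h1 : (S.cyc c).length = 1 := by omega
  have hj := S.shell_joins c 0
  have e : S.shell_a c (0 + 1) = S.shell_a c 0 := by
    rw [← S.shell_mod c (0 + 1), h1]
  rw [e] at hj
  rcases hj with ⟨a, b⟩ | ⟨a, b⟩
  · exact S.ne_e _ (a.trans b.symm)
  · exact S.ne_e _ (a.trans b.symm)

/-! ### Even sets of edges -/

/-- The indicator function of a set of edges. -/
def shell_ind (g : Finset Y) (y : Y) : F2 := if y ∈ g then 1 else 0

/-- Even functions. -/
def shell_EvenF (f : Y → F2) : Prop :=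
  ∀ z, ∑ y, (if S.e0 y = z ∨ S.e1 y = z then f y else 0) = 0

omit [DecidableEq Y] [DecidableEq C] in
theorem shell_inc (c : C) (i : ℕ) (z : Z) (r : F2) :
    (if S.e0 (S.shell_a c i).2 = z ∨ S.e1 (S.shell_a c i).2 = z then r else 0) =
      (if (S.shell_a c i).1 = z then r else 0) +
      (if (S.shell_a c (i + 1)).1 = z then r else 0) := by
  have hne := S.ne_e (S.shell_a c i).2
  rcases S.shell_joins c i with ⟨a, b⟩ | ⟨a, b⟩
  · rw [← a, ← b]
    by_cases h1 : S.e0 (S.shell_a c i).2 = z
    · have h2 : ¬ S.e1 (S.shell_a c i).2 = z := fun h => hne (h1.trans h.symm)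
      simp [h1, h2]
    · by_cases h2 : S.e1 (S.shell_a c i).2 = z
      · simp [h1, h2]
      · simp [h1, h2]
  · rw [← a, ← b]
    by_cases h1 : S.e0 (S.shell_a c i).2 = z
    · have h2 : ¬ S.e1 (S.shell_a c i).2 = z := fun h => hne (h1.trans h.symm)
      simp [h1, h2]
    · by_cases h2 : S.e1 (S.shell_a c i).2 = z
      · simp [h1, h2]
      · simp [h1, h2]

theorem shell_bd_image (c : C) :
    S.bd c = (range (S.cyc c).length).image (fun i => (S.shell_a c i).2) := by
  ext y
  rw [shell_mem_bd, mem_image]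
  constructor
  · rintro ⟨i, hi, e⟩
    exact ⟨i, mem_range.2 hi, e⟩
  · rintro ⟨i, hi, e⟩
    exact ⟨i, mem_range.1 hi, e⟩

/-- Sums over a function supported on the boundary of a cell. -/
theorem shell_sum_bd (c : C) {f : Y → F2} (hf : ∀ y, y ∉ S.bd c → f y = 0) (z : Z) :
    ∑ y, (if S.e0 y = z ∨ S.e1 y = z then f y else 0) =
      ∑ i ∈ range (S.cyc c).length, ((if (S.shell_a c i).1 = z then f (S.shell_a c i).2 else 0) +
      (if (S.shell_a c (i + 1)).1 = z then f (S.shell_a c i).2 else 0)) := by
  have h1 : ∑ y, (if S.e0 y = z ∨ S.e1 y = z then f y else 0) =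
      ∑ y ∈ S.bd c, (if S.e0 y = z ∨ S.e1 y = z then f y else 0) := by
    symm
    apply sum_subset (subset_univ _)
    intro y _ hy
    rw [hf y hy]
    simp
  rw [h1, shell_bd_image, sum_image]
  · apply sum_congr rfl
    intro i _
    exact S.shell_inc c i z _
  · intro i hi j hj h
    have := S.shell_inj_y c h
    rwa [Nat.mod_eq_of_lt (by simpa using hi), Nat.mod_eq_of_lt (by simpa using hj)] at this

theorem shell_even_bd (c : C) : S.shell_EvenF (shell_ind (S.bd c)) := by
  intro z
  rw [S.shell_sum_bd c (by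
    intro y hy
    exact if_neg hy)]
  have h1 : ∀ i, shell_ind (S.bd c) (S.shell_a c i).2 = 1 := fun i => if_pos (S.shell_a_mem c i)
  simp only [h1]
  rw [sum_add_distrib]
  have h2 : ∑ i ∈ range (S.cyc c).length, (if (S.shell_a c (i + 1)).1 = z then (1 : F2) else 0) =
      ∑ i ∈ range (S.cyc c).length, (if (S.shell_a c i).1 = z then (1 : F2) else 0) := by
    have e1 := sum_range_succ (fun i => if (S.shell_a c i).1 = z then (1 : F2) else 0)
      (S.cyc c).length
    have e2 := sum_range_succ' (fun i => if (S.shell_a c i).1 = z then (1 : F2) else 0)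
      (S.cyc c).length
    have e3 : S.shell_a c (S.cyc c).length = S.shell_a c 0 := by
      have := S.shell_per c 0
      rwa [zero_add] at this
    rw [e1, e3] at e2
    exact (add_right_cancel e2).symm
  rw [h2]
  exact CharTwo.add_self_eq_zero _

/-- The boundary of a cell is minimal. -/
theorem shell_min (c : C) {f : Y → F2} (hf : ∀ y, y ∉ S.bd c → f y = 0)
    (he : S.shell_EvenF f) : (∀ y, f y = 0) ∨ ∀ y ∈ S.bd c, f y = 1 := by
  have hn2 := S.shell_two c
  have hpos := S.shell_len c
  have step : ∀ i, f (S.shell_a c (i + 1)).2 = f (S.shell_a c i).2 := by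
    intro i
    have h := he (S.shell_a c (i + 1)).1
    rw [S.shell_sum_bd c hf, sum_add_distrib] at h
    have s1 : ∑ j ∈ range (S.cyc c).length,
        (if (S.shell_a c j).1 = (S.shell_a c (i + 1)).1 then f (S.shell_a c j).2 else 0) =
        f (S.shell_a c (i + 1)).2 := by
      rw [sum_eq_single ((i + 1) % (S.cyc c).length)]
      · rw [shell_mod, if_pos rfl]
      · intro j hj hne
        rw [if_neg]
        intro e
        have := S.shell_inj_z c e
        rw [Nat.mod_eq_of_lt (mem_range.1 hj)] at this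
        exact hne this
      · intro hni
        exact absurd (mem_range.2 (Nat.mod_lt _ hpos)) hni
    have s2 : ∑ j ∈ range (S.cyc c).length,
        (if (S.shell_a c (j + 1)).1 = (S.shell_a c (i + 1)).1 then f (S.shell_a c j).2 else 0) =
        f (S.shell_a c i).2 := by
      rw [sum_eq_single (i % (S.cyc c).length)]
      · rw [if_pos, shell_mod]
        rw [← S.shell_mod c (i % (S.cyc c).length + 1), Nat.mod_add_mod, shell_mod]
      · intro j hj hne
        rw [if_neg]
        intro e
        have := S.shell_inj_z c e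
        have h3 : j ≡ i [MOD (S.cyc c).length] := Nat.ModEq.add_right_cancel' 1 this
        have h4 : j % (S.cyc c).length = i % (S.cyc c).length := h3
        rw [Nat.mod_eq_of_lt (mem_range.1 hj)] at h4
        exact hne h4
      · intro hni
        exact absurd (mem_range.2 (Nat.mod_lt _ hpos)) hni
    rw [s1, s2] at h
    have := CharTwo.add_eq_zero.1 h
    exact this
  have all : ∀ i, f (S.shell_a c i).2 = f (S.shell_a c 0).2 := by
    intro i
    induction i with
    | zero => rfl
    | succ i ih => rw [step, ih]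
  have h01 : ∀ u : F2, u = 0 ∨ u = 1 := by decide
  rcases h01 (f (S.shell_a c 0).2) with h0 | h1
  · left
    intro y
    by_cases hy : y ∈ S.bd c
    · obtain ⟨i, _, e⟩ := (S.shell_mem_bd c y).1 hy
      rw [← e, all, h0]
    · exact hf y hy
  · right
    intro y hy
    obtain ⟨i, _, e⟩ := (S.shell_mem_bd c y).1 hy
    rw [← e, all, h1]

/-! ### Boundaries of sets of cells -/

/-- The boundary of a set of cells. -/
def shell_dl (K : Finset C) : Finset Y := univ.filter fun y => ¬ (S.s0 y ∈ K ↔ S.s1 y ∈ K)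

omit [DecidableEq Y] [DecidableEq Z] [Fintype Y] in
theorem shell_f2_ite (p q : Prop) [Decidable p] [Decidable q] :
    (if ¬ (p ↔ q) then (1 : F2) else 0) = (if p then 1 else 0) + (if q then 1 else 0) := by
  by_cases hp : p <;> by_cases hq : q <;> simp [hp, hq] <;> decide

theorem shell_ind_dl (K : Finset C) (y : Y) :
    shell_ind (S.shell_dl K) y = (if S.s0 y ∈ K then 1 else 0) + (if S.s1 y ∈ K then 1 else 0) := by
  rw [← shell_f2_ite]
  unfold shell_ind shell_dl
  simp only [mem_filter, mem_univ, true_and]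

theorem shell_dl_singleton (c : C) : S.shell_dl {c} = S.bd c := by
  ext y
  unfold shell_dl bd
  simp only [mem_filter, mem_univ, true_and, mem_singleton]
  have := S.ne_s y
  constructor
  · intro h
    by_contra hn
    push Not at hn
    exact h ⟨fun e => absurd e hn.1, fun e => absurd e hn.2⟩
  · rintro (h | h) h'
    · exact this (h.trans (h'.1 h).symm)
    · exact this ((h'.2 h).trans h.symm)

theorem shell_even_dl (K : Finset C) : S.shell_EvenF (shell_ind (S.shell_dl K)) := by
  intro z
  induction K using Finset.induction_on with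
  | empty =>
    apply sum_eq_zero
    intro y _
    rw [shell_ind_dl]
    simp
  | insert c K hc ih =>
    have h1 := S.shell_even_bd c z
    have key : ∀ y, shell_ind (S.shell_dl (insert c K)) y =
        shell_ind (S.shell_dl K) y + shell_ind (S.bd c) y := by
      intro y
      rw [← S.shell_dl_singleton c, shell_ind_dl, shell_ind_dl, shell_ind_dl]
      have hs : ∀ d : C, (if d ∈ insert c K then (1 : F2) else 0) =
          (if d ∈ K then 1 else 0) + (if d ∈ ({c} : Finset C) then 1 else 0) := by
        intro d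
        by_cases hd : d = c
        · subst hd
          simp [hc]
        · simp [hd]
      rw [hs, hs]
      ring
    have : ∑ y, (if S.e0 y = z ∨ S.e1 y = z then shell_ind (S.shell_dl (insert c K)) y else 0) =
        ∑ y, (if S.e0 y = z ∨ S.e1 y = z then shell_ind (S.shell_dl K) y else 0) +
        ∑ y, (if S.e0 y = z ∨ S.e1 y = z then shell_ind (S.bd c) y else 0) := by
      rw [← sum_add_distrib]
      apply sum_congr rfl
      intro y _
      rw [key]
      split_ifs
      · rfl
      · rw [add_zero]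
    rw [this, ih, h1, add_zero]

theorem shell_dl_insert {c : C} {K : Finset C} (hc : c ∉ K) :
    S.shell_dl (insert c K) = symmDiff (S.shell_dl K) (S.bd c) := by
  ext y
  rw [← S.shell_dl_singleton c, Finset.mem_symmDiff]
  unfold shell_dl
  simp only [mem_filter, mem_univ, true_and, mem_insert, mem_singleton]
  have hne := S.ne_s y
  by_cases h0 : S.s0 y = c
  · have h1 : S.s1 y ≠ c := fun h => hne (h0.trans h.symm)
    have h2 : S.s0 y ∉ K := by rw [h0]; exact hc
    simp only [h0, h1, h2, true_or, false_or, true_iff, false_iff, not_not, iff_false, not_true,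
      not_false_iff]
    tauto
  · by_cases h1 : S.s1 y = c
    · have h2 : S.s1 y ∉ K := by rw [h1]; exact hc
      simp only [h0, h1, h2, true_or, false_or, true_iff, false_iff, not_not, iff_false, not_true,
        not_false_iff, iff_true]
      tauto
    · simp only [h0, h1, false_or, iff_self, not_true, not_false_iff, and_true, false_and, or_false]

/-! ### Connected sets of cells -/

/-- The set `T` of cells is connected. -/
def shell_Con (T : Finset C) : Prop :=
  ∀ K : Finset C, (∀ y, S.s0 y ∈ T → S.s1 y ∈ T → (S.s0 y ∈ K ↔ S.s1 y ∈ K)) →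
    (∀ c ∈ T, c ∈ K) ∨ ∀ c ∈ T, c ∉ K

/-- The cell `c` is adjacent to `R`. -/
def shell_Adj (c : C) (R : Finset C) : Prop :=
  ∃ y, (S.s0 y = c ∧ S.s1 y ∈ R) ∨ (S.s1 y = c ∧ S.s0 y ∈ R)

theorem shell_con_insert {T : Finset C} {c : C} (hT : S.shell_Con T) (hc : S.shell_Adj c T) :
    S.shell_Con (insert c T) := by
  intro K hK
  have h1 := hT K (fun y h0 h1 => hK y (mem_insert_of_mem h0) (mem_insert_of_mem h1))
  obtain ⟨y, hy⟩ := hc
  rcases hy with ⟨e, he⟩ | ⟨e, he⟩
  · have h2 := hK y (by rw [e]; exact mem_insert_self _ _) (mem_insert_of_mem he)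
    rw [e] at h2
    rcases h1 with h1 | h1
    · left
      intro d hd
      rcases mem_insert.1 hd with rfl | hd
      · exact h2.2 (h1 _ he)
      · exact h1 d hd
    · right
      intro d hd
      rcases mem_insert.1 hd with rfl | hd
      · exact fun h => h1 _ he (h2.1 h)
      · exact h1 d hd
  · have h2 := hK y (mem_insert_of_mem he) (by rw [e]; exact mem_insert_self _ _)
    rw [e] at h2
    rcases h1 with h1 | h1
    · left
      intro d hd
      rcases mem_insert.1 hd with rfl | hd
      · exact h2.1 (h1 _ he)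
      · exact h1 d hd
    · right
      intro d hd
      rcases mem_insert.1 hd with rfl | hd
      · exact fun h => h1 _ he (h2.2 h)
      · exact h1 d hd

theorem shell_conn (K : Finset C) (h : ∀ y, S.s0 y ∈ K ↔ S.s1 y ∈ K) :
    (∀ c, c ∈ K) ∨ ∀ c, c ∉ K := by
  by_contra hn
  push Not at hn
  obtain ⟨⟨c, hc⟩, d, hd⟩ := hn
  have := S.conn (fun c => if c ∈ K then 1 else 0) (by
    intro y
    by_cases h0 : S.s0 y ∈ K
    · have h1 := (h y).1 h0
      simp [h0, h1]
    · have h1 : S.s1 y ∉ K := fun h' => h0 ((h y).2 h')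
      simp [h0, h1]) c d
  simp [hc, hd] at this

theorem shell_mem_bd_iff (c : C) (y : Y) : y ∈ S.bd c ↔ S.s0 y = c ∨ S.s1 y = c := by
  unfold bd
  simp

theorem shell_mem_dl (K : Finset C) (y : Y) :
    y ∈ S.shell_dl K ↔ ¬ (S.s0 y ∈ K ↔ S.s1 y ∈ K) := by
  unfold shell_dl
  simp

/-- A set of cells whose boundary is contained in the boundary of a cell. -/
theorem shell_dl_sub {D : Finset C} {c : C} (h : ∀ y ∈ S.shell_dl D, y ∈ S.bd c) :
    (∀ y, y ∉ S.shell_dl D) ∨ ∀ y ∈ S.bd c, y ∈ S.shell_dl D := by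
  have := S.shell_min c (f := shell_ind (S.shell_dl D)) (by
    intro y hy
    exact if_neg (fun h' => hy (h y h'))) (S.shell_even_dl D)
  rcases this with h1 | h1
  · left
    intro y hy
    have := h1 y
    rw [shell_ind, if_pos hy] at this
    exact one_ne_zero this
  · right
    intro y hy
    by_contra hn
    have := h1 y hy
    rw [shell_ind, if_neg hn] at this
    exact zero_ne_one this

theorem shell_con_singleton (c : C) : S.shell_Con {c} := by
  intro K _
  by_cases hc : c ∈ K
  · left
    intro d hd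
    rw [mem_singleton.1 hd]
    exact hc
  · right
    intro d hd
    rw [mem_singleton.1 hd]
    exact hc

theorem shell_con_compl [Fintype C] (h : C) : S.shell_Con ({h}ᶜ : Finset C) := by
  intro K hK
  have hD : ∀ y ∈ S.shell_dl (K.erase h), y ∈ S.bd h := by
    intro y hy
    rw [shell_mem_dl] at hy
    rw [shell_mem_bd_iff]
    by_contra hn
    push Not at hn
    apply hy
    rw [mem_erase, mem_erase]
    have := hK y (by simpa using hn.1) (by simpa using hn.2)
    constructor
    · rintro ⟨_, h1⟩
      exact ⟨hn.2, this.1 h1⟩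
    · rintro ⟨_, h1⟩
      exact ⟨hn.1, this.2 h1⟩
  rcases S.shell_dl_sub hD with h1 | h1
  · right
    have := S.shell_conn (K.erase h) (by
      intro y
      have := h1 y
      rw [shell_mem_dl, not_not] at this
      exact this)
    rcases this with h2 | h2
    · exact absurd (h2 h) (by simp)
    · intro c hc hcK
      exact h2 c (mem_erase.2 ⟨by simpa using hc, hcK⟩)
  · left
    have := S.shell_conn (insert h (K.erase h)) (by
      intro y
      by_cases hy : y ∈ S.bd h
      · have h3 := h1 y hy
        rw [shell_mem_dl] at h3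
        rw [shell_mem_bd_iff] at hy
        rcases hy with hy | hy
        · have h4 : S.s0 y ∉ K.erase h := by rw [hy]; simp
          have h5 : S.s1 y ∈ K.erase h := by
            by_contra h6
            exact h3 ⟨fun h7 => absurd h7 h4, fun h7 => absurd h7 h6⟩
          exact ⟨fun _ => mem_insert_of_mem h5, fun _ => by rw [hy]; exact mem_insert_self _ _⟩
        · have h4 : S.s1 y ∉ K.erase h := by rw [hy]; simp
          have h5 : S.s0 y ∈ K.erase h := by
            by_contra h6
            exact h3 ⟨fun h7 => absurd h7 h6, fun h7 => absurd h7 h4⟩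
          exact ⟨fun _ => by rw [hy]; exact mem_insert_self _ _, fun _ => mem_insert_of_mem h5⟩
      · have h3 : y ∉ S.shell_dl (K.erase h) := fun h4 => hy (hD y h4)
        rw [shell_mem_dl, not_not] at h3
        rw [shell_mem_bd_iff] at hy
        push Not at hy
        rw [mem_insert, mem_insert]
        constructor
        · rintro (h4 | h4)
          · exact absurd h4 hy.1
          · exact Or.inr (h3.1 h4)
        · rintro (h4 | h4)
          · exact absurd h4 hy.2
          · exact Or.inr (h3.2 h4))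
    rcases this with h2 | h2
    · intro c hc
      have := h2 c
      rw [mem_insert] at this
      rcases this with h3 | h3
      · exact absurd h3 (by simpa using hc)
      · exact mem_of_mem_erase h3
    · exact absurd (mem_insert_self h (K.erase h)) (h2 h)

/-- There is an admissible cell. -/
theorem shell_choice [Fintype C] {R : Finset C} {t : C} (hR : R.Nonempty) (ht : t ∉ R)
    (hc : S.shell_Con Rᶜ) (hne : Rᶜ ≠ {t}) :
    ∃ c, c ∉ R ∧ c ≠ t ∧ S.shell_Adj c R ∧ S.shell_Con (insert c R)ᶜ := by
  classical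
  let P : Finset (C × Finset C) := univ.filter fun q =>
    q.1 ∉ R ∧ q.1 ≠ t ∧ S.shell_Adj q.1 R ∧ t ∈ q.2 ∧ q.2 ⊆ (insert q.1 R)ᶜ ∧ S.shell_Con q.2
  have hmemP : ∀ q, q ∈ P ↔ (q.1 ∉ R ∧ q.1 ≠ t ∧ S.shell_Adj q.1 R ∧ t ∈ q.2 ∧
      q.2 ⊆ (insert q.1 R)ᶜ ∧ S.shell_Con q.2) := by
    intro q
    simp [P]
  have hP : P.Nonempty := by
    by_contra hemp
    rw [not_nonempty_iff_eq_empty] at hemp
    -- no cell except `t` is adjacent to `R`
    have hno : ∀ c, c ∉ R → c ≠ t → ¬ S.shell_Adj c R := by
      intro c h1 h2 h3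
      have : (c, ({t} : Finset C)) ∈ P := by
        rw [hmemP]
        refine ⟨h1, h2, h3, mem_singleton_self t, ?_, S.shell_con_singleton t⟩
        intro d hd
        rw [mem_singleton.1 hd, mem_compl, mem_insert]
        rintro (h | h)
        · exact h2 h.symm
        · exact ht h
      rw [hemp] at this
      exact absurd this (notMem_empty _)
    have hD : ∀ y ∈ S.shell_dl ((Rᶜ).erase t), y ∈ S.bd t := by
      intro y hy
      rw [shell_mem_dl] at hy
      rw [shell_mem_bd_iff]
      by_contra hn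
      push Not at hn
      apply hy
      rw [mem_erase, mem_erase, mem_compl, mem_compl]
      constructor
      · rintro ⟨_, h1⟩
        exact ⟨hn.2, fun h2 => hno _ h1 hn.1 ⟨y, Or.inl ⟨rfl, h2⟩⟩⟩
      · rintro ⟨_, h1⟩
        exact ⟨hn.1, fun h2 => hno _ h1 hn.2 ⟨y, Or.inr ⟨rfl, h2⟩⟩⟩
    have htc : t ∈ Rᶜ := mem_compl.2 ht
    obtain ⟨r, hr⟩ := hR
    rcases S.shell_dl_sub hD with h1 | h1
    · have := S.shell_conn ((Rᶜ).erase t) (by
        intro y
        have := h1 y
        rw [shell_mem_dl, not_not] at this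
        exact this)
      rcases this with h2 | h2
      · exact absurd (h2 t) (by simp)
      · apply hne
        ext c
        rw [mem_singleton]
        constructor
        · intro hcR
          by_contra hct
          exact h2 c (mem_erase.2 ⟨hct, hcR⟩)
        · rintro rfl
          exact htc
    · -- `R` is closed
      have := S.shell_conn R (by
        intro y
        by_cases hy : y ∈ S.bd t
        · have h3 := h1 y hy
          rw [shell_mem_dl, mem_erase, mem_erase, mem_compl, mem_compl] at h3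
          rw [shell_mem_bd_iff] at hy
          rcases hy with hy | hy
          · rw [hy] at h3 ⊢
            have h5 : S.s1 y ∉ R := by
              intro h6
              apply h3
              constructor
              · rintro ⟨h7, _⟩; exact absurd rfl h7
              · rintro ⟨_, h7⟩; exact absurd h6 h7
            exact ⟨fun h6 => absurd h6 ht, fun h6 => absurd h6 h5⟩
          · rw [hy] at h3 ⊢
            have h5 : S.s0 y ∉ R := by
              intro h6
              apply h3
              constructor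
              · rintro ⟨_, h7⟩; exact absurd h6 h7
              · rintro ⟨h7, _⟩; exact absurd rfl h7
            exact ⟨fun h6 => absurd h6 h5, fun h6 => absurd h6 ht⟩
        · rw [shell_mem_bd_iff] at hy
          push Not at hy
          constructor
          · intro h3
            by_contra h4
            exact hno _ h4 hy.2 ⟨y, Or.inr ⟨rfl, h3⟩⟩
          · intro h3
            by_contra h4
            exact hno _ h4 hy.1 ⟨y, Or.inl ⟨rfl, h3⟩⟩)
      rcases this with h2 | h2
      · exact ht (h2 t)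
      · exact h2 r hr
  obtain ⟨⟨c, K⟩, hcK, hmax⟩ := exists_max_image P (fun q => q.2.card) hP
  rw [hmemP] at hcK
  obtain ⟨hcR, hct, hadj, htK, hKT, hKcon⟩ := hcK
  simp only at hcR hct hadj htK hKT hKcon
  refine ⟨c, hcR, hct, hadj, ?_⟩
  have hKT' : ∀ d ∈ K, d ≠ c ∧ d ∉ R := by
    intro d hd
    have := hKT hd
    rw [mem_compl, mem_insert] at this
    push Not at this
    exact this
  -- `K` is closed in the complement
  have hclosed : ∀ d, d ∉ K → d ≠ c → d ∉ R → ¬ S.shell_Adj d K := by
    intro d hdK hdc hdR hda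
    have : (c, insert d K) ∈ P := by
      rw [hmemP]
      refine ⟨hcR, hct, hadj, mem_insert_of_mem htK, ?_, S.shell_con_insert hKcon hda⟩
      intro e he
      rcases mem_insert.1 he with rfl | he
      · rw [mem_compl, mem_insert]
        rintro (h | h)
        · exact hdc h
        · exact hdR h
      · exact hKT he
    have h2 := hmax _ this
    simp only [card_insert_of_notMem hdK] at h2
    omega
  -- `c` is adjacent to `K`
  have hcK : S.shell_Adj c K := by
    by_contra hn
    have h1 := hc K (by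
      intro y h0 h1
      rw [mem_compl] at h0 h1
      constructor
      · intro h2
        by_contra h3
        by_cases h4 : S.s1 y = c
        · exact hn ⟨y, Or.inr ⟨h4, h2⟩⟩
        · exact hclosed _ h3 h4 h1 ⟨y, Or.inr ⟨rfl, h2⟩⟩
      · intro h2
        by_contra h3
        by_cases h4 : S.s0 y = c
        · exact hn ⟨y, Or.inl ⟨h4, h2⟩⟩
        · exact hclosed _ h3 h4 h0 ⟨y, Or.inl ⟨rfl, h2⟩⟩)
    rcases h1 with h1 | h1
    · exact (hKT' c (h1 c (mem_compl.2 hcR))).1 rfl
    · exact h1 t (mem_compl.2 ht) htK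
  -- no other cell is adjacent to `R`
  have hno : ∀ d, d ∉ K → d ≠ c → d ∉ R → ¬ S.shell_Adj d R := by
    intro d hdK hdc hdR hda
    have hdt : d ≠ t := fun h => hdK (h ▸ htK)
    have hcK' : c ∉ K := fun h => (hKT' c h).1 rfl
    have : (d, insert c K) ∈ P := by
      rw [hmemP]
      refine ⟨hdR, hdt, hda, mem_insert_of_mem htK, ?_, S.shell_con_insert hKcon hcK⟩
      intro e he
      rw [mem_compl, mem_insert]
      rcases mem_insert.1 he with rfl | he
      · rintro (h | h)
        · exact hdc h.symm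
        · exact hcR h
      · rintro (h | h)
        · have h' : e = d := h
          exact hdK (h' ▸ he)
        · exact (hKT' e he).2 h
    have h2 := hmax _ this
    simp only [card_insert_of_notMem hcK'] at h2
    omega
  -- the rest is empty
  have hrest : ∀ d, d ≠ c → d ∉ R → d ∈ K := by
    by_contra hex
    push Not at hex
    obtain ⟨d, hdc, hdR, hdK⟩ := hex
    let D : Finset C := (insert c R)ᶜ \ K
    have hmD : ∀ e, e ∈ D ↔ (e ≠ c ∧ e ∉ R ∧ e ∉ K) := by
      intro e
      simp only [D, mem_sdiff, mem_compl, mem_insert]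
      tauto
    have hD : ∀ y ∈ S.shell_dl D, y ∈ S.bd c := by
      intro y hy
      rw [shell_mem_dl] at hy
      rw [shell_mem_bd_iff]
      by_contra hn
      push Not at hn
      apply hy
      rw [hmD, hmD]
      constructor
      · rintro ⟨_, h1, h2⟩
        refine ⟨hn.2, fun h3 => hno _ h2 hn.1 h1 ⟨y, Or.inl ⟨rfl, h3⟩⟩,
          fun h3 => hclosed _ h2 hn.1 h1 ⟨y, Or.inl ⟨rfl, h3⟩⟩⟩
      · rintro ⟨_, h1, h2⟩
        refine ⟨hn.1, fun h3 => hno _ h2 hn.2 h1 ⟨y, Or.inr ⟨rfl, h3⟩⟩,
          fun h3 => hclosed _ h2 hn.2 h1 ⟨y, Or.inr ⟨rfl, h3⟩⟩⟩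
    rcases S.shell_dl_sub hD with h1 | h1
    · have := S.shell_conn D (by
        intro y
        have := h1 y
        rw [shell_mem_dl, not_not] at this
        exact this)
      rcases this with h2 | h2
      · exact ((hmD c).1 (h2 c)).1 rfl
      · exact h2 d ((hmD d).2 ⟨hdc, hdR, hdK⟩)
    · obtain ⟨y, hy⟩ := hadj
      have hyb : y ∈ S.bd c := by
        rw [shell_mem_bd_iff]
        rcases hy with hy | hy
        · exact Or.inl hy.1
        · exact Or.inr hy.1
      have h2 := h1 y hyb
      rw [shell_mem_dl, hmD, hmD] at h2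
      rcases hy with ⟨hy, hy'⟩ | ⟨hy, hy'⟩
      · apply h2
        constructor
        · rintro ⟨h3, _⟩; exact absurd hy h3
        · rintro ⟨_, h3, _⟩; exact absurd hy' h3
      · apply h2
        constructor
        · rintro ⟨_, h3, _⟩; exact absurd hy' h3
        · rintro ⟨h3, _⟩; exact absurd hy h3
  have : (insert c R)ᶜ = K := by
    ext d
    rw [mem_compl, mem_insert]
    constructor
    · intro h
      push Not at h
      exact hrest d h.1 h.2
    · intro h
      have := hKT' d h
      push Not
      exact this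
  rw [this]
  exact hKcon

/-! ### Counting -/

/-- The degree of a vertex in a set of edges. -/
def shell_deg (H : Finset Y) (z : Z) : ℕ := (H.filter fun y => S.e0 y = z ∨ S.e1 y = z).card

/-- Extension by zero. -/
def shell_E (H : Finset Y) (f : H → F2) (y : Y) : F2 := if h : y ∈ H then f ⟨y, h⟩ else 0

theorem shell_E_add (H : Finset Y) (f f' : H → F2) (y : Y) :
    shell_E H (f + f') y = shell_E H f y + shell_E H f' y := by
  unfold shell_E
  split_ifs
  · rfl
  · rw [add_zero]

theorem shell_E_smul (H : Finset Y) (r : F2) (f : H → F2) (y : Y) :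
    shell_E H (r • f) y = r • shell_E H f y := by
  unfold shell_E
  split_ifs
  · rfl
  · rw [smul_zero]

/-- The linear map of the counting argument. -/
def shell_Psi (H : Finset Y) (W : Finset Z) (ya yb : Y) :
    (H → F2) →ₗ[F2] ((W → F2) × (F2 × F2)) where
  toFun f := (fun w => ∑ y, (if S.e0 y = w.1 ∨ S.e1 y = w.1 then shell_E H f y else 0),
    (shell_E H f ya, shell_E H f yb))
  map_add' f f' := by
    ext w
    · show ∑ y, (if S.e0 y = w.1 ∨ S.e1 y = w.1 then shell_E H (f + f') y else 0) =
        ∑ y, (if S.e0 y = w.1 ∨ S.e1 y = w.1 then shell_E H f y else 0) +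
        ∑ y, (if S.e0 y = w.1 ∨ S.e1 y = w.1 then shell_E H f' y else 0)
      rw [← sum_add_distrib]
      apply sum_congr rfl
      intro y _
      rw [shell_E_add]
      split_ifs
      · rfl
      · rw [add_zero]
    · exact shell_E_add H f f' ya
    · exact shell_E_add H f f' yb
  map_smul' r f := by
    ext w
    · show ∑ y, (if S.e0 y = w.1 ∨ S.e1 y = w.1 then shell_E H (r • f) y else 0) =
        r • ∑ y, (if S.e0 y = w.1 ∨ S.e1 y = w.1 then shell_E H f y else 0)
      rw [smul_sum]
      apply sum_congr rfl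
      intro y _
      rw [shell_E_smul]
      split_ifs
      · rfl
      · rw [smul_zero]
    · exact shell_E_smul H r f ya
    · exact shell_E_smul H r f yb

theorem shell_two_ends (V : Finset Z) (y : Y) (h0 : S.e0 y ∈ V) (h1 : S.e1 y ∈ V) :
    V.filter (fun z => S.e0 y = z ∨ S.e1 y = z) = {S.e0 y, S.e1 y} := by
  ext z
  rw [mem_filter, mem_insert, mem_singleton]
  constructor
  · rintro ⟨_, h | h⟩
    · exact Or.inl h.symm
    · exact Or.inr h.symm
  · rintro (rfl | rfl)
    · exact ⟨h0, Or.inl rfl⟩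
    · exact ⟨h1, Or.inr rfl⟩

/-- The counting argument: there cannot be three vertices of degree at least three. -/
theorem shell_euler (H : Finset Y) (ya yb : Y)
    (hker : ∀ f : Y → F2, (∀ y, y ∉ H → f y = 0) → S.shell_EvenF f → f ya = 0 → f yb = 0 →
      ∀ y, f y = 0)
    (hdeg : ∀ z, ∀ y ∈ H, (S.e0 y = z ∨ S.e1 y = z) → 2 ≤ S.shell_deg H z)
    {z0 z1 z2 : Z} (h01 : z0 ≠ z1) (h02 : z0 ≠ z2) (h12 : z1 ≠ z2) (d0 : 3 ≤ S.shell_deg H z0)
    (d1 : 3 ≤ S.shell_deg H z1) (d2 : 3 ≤ S.shell_deg H z2) : False := by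
  classical
  let V : Finset Z := H.image S.e0 ∪ H.image S.e1
  have hV0 : ∀ y ∈ H, S.e0 y ∈ V := fun y hy =>
    mem_union_left _ (mem_image_of_mem _ hy)
  have hV1 : ∀ y ∈ H, S.e1 y ∈ V := fun y hy =>
    mem_union_right _ (mem_image_of_mem _ hy)
  have hVy : ∀ z ∈ V, ∃ y ∈ H, S.e0 y = z ∨ S.e1 y = z := by
    intro z hz
    rcases mem_union.1 hz with hz | hz
    · obtain ⟨y, hy, e⟩ := mem_image.1 hz
      exact ⟨y, hy, Or.inl e⟩
    · obtain ⟨y, hy, e⟩ := mem_image.1 hz
      exact ⟨y, hy, Or.inr e⟩
  have hVdeg : ∀ z, 3 ≤ S.shell_deg H z → z ∈ V := by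
    intro z hz
    have : 0 < (H.filter fun y => S.e0 y = z ∨ S.e1 y = z).card := by
      unfold shell_deg at hz
      omega
    obtain ⟨y, hy⟩ := card_pos.1 this
    rw [mem_filter] at hy
    rcases hy.2 with h | h
    · rw [← h]; exact hV0 y hy.1
    · rw [← h]; exact hV1 y hy.1
  have hz0 := hVdeg z0 d0
  have hz1 := hVdeg z1 d1
  have hz2 := hVdeg z2 d2
  -- the dimension count
  have hcard : H.card ≤ V.card + 1 := by
    have hinj : Function.Injective (S.shell_Psi H (V.erase z0) ya yb) := by
      rw [injective_iff_map_eq_zero]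
      intro f hf
      have hf1 : ∀ w ∈ V.erase z0,
          ∑ y, (if S.e0 y = w ∨ S.e1 y = w then shell_E H f y else 0) = 0 := by
        intro w hw
        exact congrFun (congrArg Prod.fst hf) ⟨w, hw⟩
      have hf2 : shell_E H f ya = 0 := congrArg (fun q => q.2.1) hf
      have hf3 : shell_E H f yb = 0 := congrArg (fun q => q.2.2) hf
      have hsupp : ∀ y, y ∉ H → shell_E H f y = 0 := fun y hy => dif_neg hy
      have htot : ∑ z ∈ V, ∑ y, (if S.e0 y = z ∨ S.e1 y = z then shell_E H f y else 0) = 0 := by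
        rw [sum_comm]
        apply sum_eq_zero
        intro y _
        by_cases hy : y ∈ H
        · rw [← sum_filter, S.shell_two_ends V y (hV0 y hy) (hV1 y hy), sum_pair (S.ne_e y)]
          exact CharTwo.add_self_eq_zero _
        · rw [hsupp y hy]
          simp
      have heven : S.shell_EvenF (shell_E H f) := by
        intro z
        by_cases hz : z ∈ V
        · by_cases hz' : z = z0
          · rw [← add_sum_erase V _ hz0] at htot
            have : ∑ z ∈ V.erase z0,
                ∑ y, (if S.e0 y = z ∨ S.e1 y = z then shell_E H f y else 0) = 0 :=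
              sum_eq_zero hf1
            rw [this, add_zero] at htot
            rw [hz']
            exact htot
          · exact hf1 z (mem_erase.2 ⟨hz', hz⟩)
        · apply sum_eq_zero
          intro y _
          by_cases hy : y ∈ H
          · rw [if_neg]
            rintro (h | h)
            · exact hz (h ▸ hV0 y hy)
            · exact hz (h ▸ hV1 y hy)
          · rw [hsupp y hy]
            simp
      have hall := hker _ hsupp heven hf2 hf3
      funext y
      have := hall y.1
      unfold shell_E at this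
      rw [dif_pos y.2] at this
      exact this
    have h1 := LinearMap.finrank_le_finrank_of_injective hinj
    rw [Module.finrank_prod, Module.finrank_prod, Module.finrank_pi, Module.finrank_pi,
      Module.finrank_self, Fintype.card_coe, Fintype.card_coe, card_erase_of_mem hz0] at h1
    have h2 : 0 < V.card := card_pos.2 ⟨z0, hz0⟩
    omega
  -- the sum of the degrees
  have hsum : ∑ z ∈ V, S.shell_deg H z = 2 * H.card := by
    have h1 : ∀ z, S.shell_deg H z = ∑ y ∈ H, if S.e0 y = z ∨ S.e1 y = z then 1 else 0 := by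
      intro z
      unfold shell_deg
      rw [card_filter]
    simp only [h1]
    rw [sum_comm]
    have h2 : ∀ y ∈ H, ∑ z ∈ V, (if S.e0 y = z ∨ S.e1 y = z then 1 else 0) = 2 := by
      intro y hy
      rw [← card_filter, S.shell_two_ends V y (hV0 y hy) (hV1 y hy), card_pair (S.ne_e y)]
    rw [sum_congr rfl h2, sum_const, smul_eq_mul, mul_comm]
  have hlow : ∀ z ∈ V, 2 + (if z ∈ ({z0, z1, z2} : Finset Z) then 1 else 0) ≤
      S.shell_deg H z := by
    intro z hz
    by_cases h : z ∈ ({z0, z1, z2} : Finset Z)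
    · rw [if_pos h]
      rw [mem_insert, mem_insert, mem_singleton] at h
      rcases h with rfl | rfl | rfl
      · exact d0
      · exact d1
      · exact d2
    · rw [if_neg h]
      obtain ⟨y, hy, e⟩ := hVy z hz
      exact hdeg z y hy e
  have h3 := sum_le_sum hlow
  rw [hsum, sum_add_distrib, sum_const, smul_eq_mul, ← card_filter] at h3
  have h4 : V.filter (fun z => z ∈ ({z0, z1, z2} : Finset Z)) = {z0, z1, z2} := by
    ext z
    rw [mem_filter]
    constructor
    · exact fun h => h.2
    · intro h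
      refine ⟨?_, h⟩
      rw [mem_insert, mem_insert, mem_singleton] at h
      rcases h with rfl | rfl | rfl
      · exact hz0
      · exact hz1
      · exact hz2
  have h5 : ({z0, z1, z2} : Finset Z).card = 3 := by
    rw [card_insert_of_notMem, card_pair h12]
    rw [mem_insert, mem_singleton]
    rintro (h | h)
    · exact h01 h
    · exact h02 h
  rw [h4, h5] at h3
  omega

/-! ### One step -/

theorem shell_second {E : Finset Y} (he : S.shell_EvenF (shell_ind E)) {y : Y} {z : Z}
    (hy : y ∈ E) (hz : S.e0 y = z ∨ S.e1 y = z) :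
    ∃ y' ∈ E, y' ≠ y ∧ (S.e0 y' = z ∨ S.e1 y' = z) := by
  by_contra hn
  push Not at hn
  have h := he z
  rw [sum_eq_single y] at h
  · rw [if_pos hz, shell_ind, if_pos hy] at h
    exact one_ne_zero h
  · intro y' _ hne
    by_cases h1 : S.e0 y' = z ∨ S.e1 y' = z
    · rw [if_pos h1]
      by_cases h2 : y' ∈ E
      · have := hn y' h2 hne
        exact absurd h1 (by push Not; exact this)
      · exact if_neg h2
    · exact if_neg h1
  · intro h1
    exact absurd (mem_univ y) h1

theorem shell_deg_two {E H : Finset Y} (hEH : E ⊆ H) (he : S.shell_EvenF (shell_ind E)) {y : Y}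
    {z : Z} (hy : y ∈ E) (hz : S.e0 y = z ∨ S.e1 y = z) : 2 ≤ S.shell_deg H z := by
  obtain ⟨y', h1, h2, h3⟩ := S.shell_second he hy hz
  unfold shell_deg
  exact one_lt_card.2 ⟨y, mem_filter.2 ⟨hEH hy, hz⟩, y', mem_filter.2 ⟨hEH h1, h3⟩, h2.symm⟩

theorem shell_deg_three {H : Finset Y} {y1 y2 y3 : Y} {z : Z} (h1 : y1 ∈ H) (h2 : y2 ∈ H)
    (h3 : y3 ∈ H) (i1 : S.e0 y1 = z ∨ S.e1 y1 = z) (i2 : S.e0 y2 = z ∨ S.e1 y2 = z)
    (i3 : S.e0 y3 = z ∨ S.e1 y3 = z) (h12 : y1 ≠ y2) (h13 : y1 ≠ y3) (h23 : y2 ≠ y3) :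
    3 ≤ S.shell_deg H z := by
  unfold shell_deg
  exact two_lt_card.2 ⟨y1, mem_filter.2 ⟨h1, i1⟩, y2, mem_filter.2 ⟨h2, i2⟩, y3,
    mem_filter.2 ⟨h3, i3⟩, h12, h13, h23⟩

theorem shell_inc_left (c : C) (i : ℕ) :
    S.e0 (S.shell_a c i).2 = (S.shell_a c i).1 ∨ S.e1 (S.shell_a c i).2 = (S.shell_a c i).1 := by
  rcases S.shell_joins c i with ⟨a, _⟩ | ⟨_, a⟩
  · exact Or.inl a
  · exact Or.inr a

theorem shell_inc_right (c : C) (i : ℕ) :
    S.e0 (S.shell_a c i).2 = (S.shell_a c (i + 1)).1 ∨
    S.e1 (S.shell_a c i).2 = (S.shell_a c (i + 1)).1 := by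
  rcases S.shell_joins c i with ⟨_, a⟩ | ⟨a, _⟩
  · exact Or.inr a
  · exact Or.inl a

/-- A vertex at which the boundary of `c` enters or leaves `g`. -/
theorem shell_switch {g : Finset Y} (hg : S.shell_EvenF (shell_ind g)) (c : C) (i : ℕ)
    (h : ((S.shell_a c i).2 ∈ g ∧ (S.shell_a c (i + 1)).2 ∉ g) ∨
      ((S.shell_a c i).2 ∉ g ∧ (S.shell_a c (i + 1)).2 ∈ g)) :
    3 ≤ S.shell_deg (g ∪ S.bd c) (S.shell_a c (i + 1)).1 := by
  rcases h with ⟨h1, h2⟩ | ⟨h1, h2⟩
  · obtain ⟨y, a1, a2, a3⟩ := S.shell_second hg h1 (S.shell_inc_right c i)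
    exact S.shell_deg_three (mem_union_left _ h1) (mem_union_right _ (S.shell_a_mem c (i + 1)))
      (mem_union_left _ a1) (S.shell_inc_right c i) (S.shell_inc_left c (i + 1)) a3
      (fun e => h2 (e ▸ h1)) a2.symm (fun e => h2 (e ▸ a1))
  · obtain ⟨y, a1, a2, a3⟩ := S.shell_second hg h2 (S.shell_inc_left c (i + 1))
    exact S.shell_deg_three (mem_union_left _ h2) (mem_union_right _ (S.shell_a_mem c i))
      (mem_union_left _ a1) (S.shell_inc_left c (i + 1)) (S.shell_inc_right c i) a3
      (fun e => h1 (e ▸ h2)) a2.symm (fun e => h1 (e ▸ a1))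

theorem shell_con_const [Fintype C] {T : Finset C} (hT : S.shell_Con T) {G : C → F2}
    (hG : ∀ y, S.s0 y ∈ T → S.s1 y ∈ T → G (S.s0 y) = G (S.s1 y)) :
    ∀ a ∈ T, ∀ b ∈ T, G a = G b := by
  have h := hT (univ.filter fun c => G c = 1) (by
    intro y h0 h1
    simp only [mem_filter, mem_univ, true_and]
    rw [hG y h0 h1])
  simp only [mem_filter, mem_univ, true_and] at h
  have h01 : ∀ u : F2, u ≠ 1 → u = 0 := by decide
  intro a ha b hb
  rcases h with h | h
  · rw [h a ha, h b hb]
  · rw [h01 _ (h a ha), h01 _ (h b hb)]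

/-- The step of the shelling. -/
theorem shell_step [Fintype C] {R : Finset C} {c t h : C} (hh : h ∈ R) (ht : t ∉ R)
    (hct : c ≠ t) (hcR : c ∉ R) (hR : S.shell_Con R) (hRc : S.shell_Con Rᶜ)
    (hadj : S.shell_Adj c R) (hT : S.shell_Con (insert c R)ᶜ) :
    S.StepP (fun c => c ≠ h) (S.shell_dl R) (S.shell_dl (insert c R)) := by
  classical
  have hn2 := S.shell_two c
  have hpos := S.shell_len c
  set n := (S.cyc c).length with hn
  have hgE := S.shell_even_dl R
  have hbE := S.shell_even_bd c
  have hmT : ∀ d, d ∈ (insert c R)ᶜ ↔ (d ≠ c ∧ d ∉ R) := by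
    intro d
    rw [mem_compl, mem_insert]
    push Not
    rfl
  -- `c` is adjacent to the rest
  have hadjT : S.shell_Adj c (insert c R)ᶜ := by
    by_contra hna
    have h1 := hRc (insert c R)ᶜ (by
      intro y h0 h1
      rw [mem_compl] at h0 h1
      rw [hmT, hmT]
      constructor
      · rintro ⟨a1, _⟩
        refine ⟨fun e => hna ⟨y, Or.inr ⟨e, (hmT _).2 ⟨a1, h0⟩⟩⟩, h1⟩
      · rintro ⟨a1, _⟩
        refine ⟨fun e => hna ⟨y, Or.inl ⟨e, (hmT _).2 ⟨a1, h1⟩⟩⟩, h0⟩)
    rcases h1 with h1 | h1
    · exact ((hmT c).1 (h1 c (mem_compl.2 hcR))).1 rfl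
    · exact h1 t (mem_compl.2 ht) ((hmT t).2 ⟨hct.symm, ht⟩)
  obtain ⟨ya, hya⟩ := hadj
  obtain ⟨yb, hyb⟩ := hadjT
  have hya1 : ya ∈ S.bd c := by
    rw [shell_mem_bd_iff]
    rcases hya with hy | hy
    · exact Or.inl hy.1
    · exact Or.inr hy.1
  have hya2 : ya ∈ S.shell_dl R := by
    rw [shell_mem_dl]
    rcases hya with ⟨e, hy⟩ | ⟨e, hy⟩
    · rw [e]
      exact fun h' => hcR (h'.2 hy)
    · rw [e]
      exact fun h' => hcR (h'.1 hy)
  have hyb1 : yb ∈ S.bd c := by
    rw [shell_mem_bd_iff]
    rcases hyb with hy | hy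
    · exact Or.inl hy.1
    · exact Or.inr hy.1
  have hyb2 : yb ∉ S.shell_dl R := by
    rw [shell_mem_dl, not_not]
    rcases hyb with ⟨e, hy⟩ | ⟨e, hy⟩
    · rw [e]
      exact ⟨fun h' => absurd h' hcR, fun h' => absurd h' ((hmT _).1 hy).2⟩
    · rw [e]
      exact ⟨fun h' => absurd h' ((hmT _).1 hy).2, fun h' => absurd h' hcR⟩
  -- the counting lemma applies
  have hker : ∀ f : Y → F2, (∀ y, y ∉ S.shell_dl R ∪ S.bd c → f y = 0) → S.shell_EvenF f →
      f ya = 0 → f yb = 0 → ∀ y, f y = 0 := by
    intro f hf he ha hb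
    obtain ⟨G, hG⟩ := S.ex f he
    have hGeq : ∀ y, f y = 0 → G (S.s0 y) = G (S.s1 y) := by
      intro y hy
      rw [hG] at hy
      exact CharTwo.add_eq_zero.1 hy
    have c1 := S.shell_con_const hR (G := G) (by
      intro y h0 h1
      apply hGeq
      apply hf
      rw [mem_union, shell_mem_dl, shell_mem_bd_iff]
      rintro (h2 | h2 | h2)
      · exact h2 ⟨fun _ => h1, fun _ => h0⟩
      · exact hcR (h2 ▸ h0)
      · exact hcR (h2 ▸ h1))
    have c2 := S.shell_con_const hT (G := G) (by
      intro y h0 h1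
      rw [hmT] at h0 h1
      apply hGeq
      apply hf
      rw [mem_union, shell_mem_dl, shell_mem_bd_iff]
      rintro (h2 | h2 | h2)
      · exact h2 ⟨fun h3 => absurd h3 h0.2, fun h3 => absurd h3 h1.2⟩
      · exact h0.1 h2
      · exact h1.1 h2)
    have hGc : ∀ d, G d = G c := by
      intro d
      by_cases hdR : d ∈ R
      · have h1 := hGeq ya ha
        rcases hya with ⟨e, hy⟩ | ⟨e, hy⟩
        · rw [c1 d hdR _ hy, ← h1, e]
        · rw [c1 d hdR _ hy, h1, e]
      · by_cases hdc : d = c
        · rw [hdc]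
        · have hdT : d ∈ (insert c R)ᶜ := (hmT d).2 ⟨hdc, hdR⟩
          have h1 := hGeq yb hb
          rcases hyb with ⟨e, hy⟩ | ⟨e, hy⟩
          · rw [c2 d hdT _ hy, ← h1, e]
          · rw [c2 d hdT _ hy, h1, e]
    intro y
    rw [hG, hGc (S.s0 y), hGc (S.s1 y)]
    exact CharTwo.add_self_eq_zero _
  have hdeg : ∀ z, ∀ y ∈ S.shell_dl R ∪ S.bd c, (S.e0 y = z ∨ S.e1 y = z) →
      2 ≤ S.shell_deg (S.shell_dl R ∪ S.bd c) z := by
    intro z y hy hz
    rcases mem_union.1 hy with hy | hy
    · exact S.shell_deg_two subset_union_left hgE hy hz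
    · exact S.shell_deg_two subset_union_right hbE hy hz
  have no3 : ∀ z0 z1 z2 : Z, z0 ≠ z1 → z0 ≠ z2 → z1 ≠ z2 →
      3 ≤ S.shell_deg (S.shell_dl R ∪ S.bd c) z0 → 3 ≤ S.shell_deg (S.shell_dl R ∪ S.bd c) z1 →
      3 ≤ S.shell_deg (S.shell_dl R ∪ S.bd c) z2 → False :=
    fun z0 z1 z2 h1 h2 h3 d0 d1 d2 => S.shell_euler _ ya yb hker hdeg h1 h2 h3 d0 d1 d2
  set g := S.shell_dl R with hg
  -- the start of the path
  obtain ⟨ia, hia, eia⟩ := (S.shell_mem_bd c ya).1 hya1
  obtain ⟨ib, hib, eib⟩ := (S.shell_mem_bd c yb).1 hyb1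
  obtain ⟨s, hs1, hs2⟩ : ∃ s, (S.shell_a c s).2 ∉ g ∧ (S.shell_a c (s + 1)).2 ∈ g := by
    have hex : ∃ m, (S.shell_a c (ib + m)).2 ∈ g := by
      refine ⟨ia + n * ib - ib, ?_⟩
      have e : ib + (ia + n * ib - ib) = ia + n * ib := by
        have : ib ≤ n * ib := Nat.le_mul_of_pos_left ib hpos
        omega
      rw [e, ← S.shell_mod c (ia + n * ib), ← hn, Nat.add_mul_mod_self_left, hn, shell_mod, eia]
      exact hya2
    have hm := Nat.find_spec hex
    have hmin := fun m (h : m < Nat.find hex) => Nat.find_min hex h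
    set m := Nat.find hex with hmdef
    have hm0 : m ≠ 0 := by
      intro e
      rw [e, add_zero, eib] at hm
      exact hyb2 hm
    refine ⟨ib + (m - 1), hmin (m - 1) (by omega), ?_⟩
    have e : ib + (m - 1) + 1 = ib + m := by omega
    rw [e]
    exact hm
  -- the first part of the path
  have hlast : (S.shell_a c (s + 1 + (n - 1))).2 ∉ g := by
    have e : s + 1 + (n - 1) = s + n := by omega
    rw [e, hn, S.shell_per]
    exact hs1
  have hexk : ∃ k, (S.shell_a c (s + 1 + k)).2 ∉ g := ⟨n - 1, hlast⟩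
  have hk1 := Nat.find_spec hexk
  have hk2 := fun m (h : m < Nat.find hexk) => Nat.find_min hexk h
  have hk3 : Nat.find hexk ≤ n - 1 := Nat.find_min' hexk hlast
  set k := Nat.find hexk with hkdef
  have hk0 : 0 < k := by
    rcases Nat.eq_zero_or_pos k with h0 | h0
    · rw [h0, add_zero] at hk1
      exact absurd hs2 hk1
    · exact h0
  have hkn : k < n := by omega
  have hin : ∀ i < k, (S.shell_a c (s + 1 + i)).2 ∈ g := by
    intro i hi
    have := hk2 i hi
    rwa [not_not] at this
  have dist : ∀ i j, i < n → j < n → i ≠ j →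
      (S.shell_a c (s + 1 + i)).1 ≠ (S.shell_a c (s + 1 + j)).1 := by
    intro i j hi hj hij e
    have h1 := S.shell_inj_z c e
    have h2 : i ≡ j [MOD n] := Nat.ModEq.add_left_cancel' (s + 1) h1
    exact hij (Nat.ModEq.eq_of_lt_of_lt h2 hi hj)
  have disty : ∀ i j, i < n → j < n → i ≠ j →
      (S.shell_a c (s + 1 + i)).2 ≠ (S.shell_a c (s + 1 + j)).2 := by
    intro i j hi hj hij e
    have h1 := S.shell_inj_y c e
    have h2 : i ≡ j [MOD n] := Nat.ModEq.add_left_cancel' (s + 1) h1
    exact hij (Nat.ModEq.eq_of_lt_of_lt h2 hi hj)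
  have deg0 : 3 ≤ S.shell_deg (g ∪ S.bd c) (S.shell_a c (s + 1 + 0)).1 :=
    S.shell_switch hgE c s (Or.inr ⟨hs1, hs2⟩)
  have degk : 3 ≤ S.shell_deg (g ∪ S.bd c) (S.shell_a c (s + 1 + k)).1 := by
    have h1 := S.shell_switch hgE c (s + 1 + (k - 1)) (Or.inl ⟨hin (k - 1) (by omega), by
      have e : s + 1 + (k - 1) + 1 = s + 1 + k := by omega
      rw [e]
      exact hk1⟩)
    have e : s + 1 + (k - 1) + 1 = s + 1 + k := by omega
    rw [e] at h1
    exact h1
  have no : ∀ j, 0 < j → j < n → j ≠ k →
      ¬ 3 ≤ S.shell_deg (g ∪ S.bd c) (S.shell_a c (s + 1 + j)).1 := by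
    intro j hj0 hjn hjk h3
    exact no3 _ _ _ (dist 0 k hpos hkn (by omega)) (dist 0 j hpos hjn (by omega))
      (dist k j hkn hjn (fun e => hjk e.symm)) deg0 degk h3
  have hout : ∀ i, k ≤ i → i < n → (S.shell_a c (s + 1 + i)).2 ∉ g := by
    intro i
    induction i with
    | zero => intro h1; omega
    | succ i ih =>
      intro h1 h2
      rcases Nat.eq_or_lt_of_le h1 with h3 | h3
      · rw [← h3]; exact hk1
      · have h4 := ih (by omega) (by omega)
        intro h5
        apply no (i + 1) (by omega) h2 (by omega)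
        exact S.shell_switch hgE c (s + 1 + i) (Or.inr ⟨h4, h5⟩)
  -- the lists
  have hLlen : ((S.cyc c).rotate (s + 1)).length = n := by rw [List.length_rotate]
  have hLget : ∀ i (hi : i < ((S.cyc c).rotate (s + 1)).length),
      ((S.cyc c).rotate (s + 1))[i] = S.shell_a c (s + 1 + i) := by
    intro i hi
    rw [List.getElem_rotate]
    unfold shell_a
    simp only [Nat.add_comm i (s + 1)]
  set L := (S.cyc c).rotate (s + 1) with hL
  have mem1 : ∀ a, a ∈ L.take k ↔ ∃ i < k, S.shell_a c (s + 1 + i) = a := by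
    intro a
    rw [List.mem_take_iff_getElem]
    constructor
    · rintro ⟨i, hi, e⟩
      rw [hLlen] at hi
      refine ⟨i, by omega, ?_⟩
      rw [← e, hLget]
    · rintro ⟨i, hi, e⟩
      refine ⟨i, by rw [hLlen]; omega, ?_⟩
      rw [← e, hLget]
  have mem1t : ∀ a, a ∈ (L.take k).tail → ∃ i, 0 < i ∧ i < k ∧ S.shell_a c (s + 1 + i) = a := by
    intro a ha
    obtain ⟨i, hi, e⟩ := List.getElem_of_mem ha
    have hi' : i + 1 < k := by
      rw [List.length_tail, List.length_take, hLlen] at hi
      omega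
    refine ⟨i + 1, by omega, hi', ?_⟩
    rw [← e, List.getElem_tail, List.getElem_take, hLget]
  have mem2 : ∀ a, a ∈ L.drop k → ∃ i, k ≤ i ∧ i < n ∧ S.shell_a c (s + 1 + i) = a := by
    intro a ha
    obtain ⟨i, hi, e⟩ := List.getElem_of_mem ha
    rw [List.length_drop, hLlen] at hi
    refine ⟨k + i, by omega, by omega, ?_⟩
    rw [← e, List.getElem_drop, hLget]
  have mem2t : ∀ a, a ∈ (L.drop k).tail → ∃ i, k < i ∧ i < n ∧ S.shell_a c (s + 1 + i) = a := by
    intro a ha
    obtain ⟨i, hi, e⟩ := List.getElem_of_mem ha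
    rw [List.length_tail, List.length_drop, hLlen] at hi
    refine ⟨k + (i + 1), by omega, by omega, ?_⟩
    rw [← e, List.getElem_tail, List.getElem_drop, hLget]
  refine ⟨c, L.take k, L.drop k, fun e => hcR (e ▸ hh), ?_, ?_, ?_, ?_, ?_, ?_, ?_, ?_⟩
  · rw [List.take_append_drop]
    exact List.IsRotated.symm ⟨s + 1, rfl⟩
  · intro e
    have := congrArg List.length e
    rw [List.length_take, hLlen, List.length_nil] at this
    omega
  · intro e
    have := congrArg List.length e
    rw [List.length_drop, hLlen, List.length_nil] at this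
    omega
  · intro a ha
    obtain ⟨i, hi, rfl⟩ := (mem1 a).1 ha
    exact hin i hi
  · intro a ha
    obtain ⟨i, hi1, hi2, rfl⟩ := mem2 a ha
    exact hout i hi1 hi2
  · intro a ha y hy hya'
    obtain ⟨i, hi0, hik, rfl⟩ := mem1t a ha
    by_contra hcon
    push Not at hcon
    have e : s + 1 + (i - 1) + 1 = s + 1 + i := by omega
    apply no i hi0 (by omega) (by omega)
    refine S.shell_deg_three (mem_union_right _ (S.shell_a_mem c (s + 1 + (i - 1))))
      (mem_union_right _ (S.shell_a_mem c (s + 1 + i))) (mem_union_left _ hy) ?_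
      (S.shell_inc_left c _) hya' (disty (i - 1) i (by omega) (by omega) (by omega))
      (hcon _ ((mem1 _).2 ⟨i - 1, by omega, rfl⟩)) (hcon _ ((mem1 _).2 ⟨i, hik, rfl⟩))
    have := S.shell_inc_right c (s + 1 + (i - 1))
    rw [e] at this
    exact this
  · intro a ha y hy hya'
    obtain ⟨i, hik, hin', rfl⟩ := mem2t a ha
    have e : s + 1 + (i - 1) + 1 = s + 1 + i := by omega
    apply no i (by omega) hin' (by omega)
    refine S.shell_deg_three (mem_union_right _ (S.shell_a_mem c (s + 1 + (i - 1))))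
      (mem_union_right _ (S.shell_a_mem c (s + 1 + i))) (mem_union_left _ hy) ?_
      (S.shell_inc_left c _) hya' (disty (i - 1) i (by omega) (by omega) (by omega))
      (fun e' => hout (i - 1) (by omega) (by omega) (e' ▸ hy))
      (fun e' => hout i (by omega) (by omega) (e' ▸ hy))
    have := S.shell_inc_right c (s + 1 + (i - 1))
    rw [e] at this
    exact this
  · exact S.shell_dl_insert hcR

/-- **Shelling.** The boundary of the cell `h` can be pushed over all the cells except `h` and `t`,
until it becomes the boundary of the cell `t`. -/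
theorem shelling [Finite C] {h t : C} (ht : h ≠ t) :
    Relation.ReflTransGen (S.StepP fun c => c ≠ h) (S.bd h) (S.bd t) := by
  classical
  have : Fintype C := Fintype.ofFinite C
  have key : ∀ (n : ℕ) (R : Finset C), (Rᶜ).card = n → h ∈ R → t ∉ R → S.shell_Con R →
      S.shell_Con Rᶜ →
      Relation.ReflTransGen (S.StepP fun c => c ≠ h) (S.shell_dl R) (S.bd t) := by
    intro n
    induction n with
    | zero =>
      intro R hR _ htR _ _
      rw [card_eq_zero] at hR
      have := mem_compl.2 htR
      rw [hR] at this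
      exact absurd this (notMem_empty _)
    | succ n ih =>
      intro R hR hhR htR hc1 hc2
      by_cases hne : Rᶜ = {t}
      · have e : S.shell_dl R = S.bd t := by
          rw [← S.shell_dl_singleton t, ← hne]
          ext y
          rw [shell_mem_dl, shell_mem_dl, mem_compl, mem_compl]
          tauto
        rw [e]
      · obtain ⟨c, h1, h2, h3, h4⟩ := S.shell_choice ⟨h, hhR⟩ htR hc2 hne
        have hstep := S.shell_step hhR htR h2 h1 hc1 hc2 h3 h4
        refine Relation.ReflTransGen.head hstep (ih (insert c R) ?_ (mem_insert_of_mem hhR) ?_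
          (S.shell_con_insert hc1 h3) h4)
        · have e : (insert c R)ᶜ = (Rᶜ).erase c := by
            ext d
            rw [mem_compl, mem_insert, mem_erase, mem_compl]
            push Not
            rfl
          rw [e, card_erase_of_mem (mem_compl.2 h1), hR]
          rfl
        · rw [mem_insert]
          rintro (h5 | h5)
          · exact h2 h5.symm
          · exact htR h5
  have := key _ {h} rfl (mem_singleton_self h) (by
    rw [mem_singleton]
    exact fun e => ht e.symm) (S.shell_con_singleton h) (S.shell_con_compl h)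
  rw [S.shell_dl_singleton] at this
  exact this

end CellSphere

end Pool.Agent.Lib.MP_131179_gt.Dehn
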