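import Pool.Agent.Lib.MP_131179_gt.Dehn.CoFn
import Pool.Agent.Lib.MP_131179_gt.Dehn.Shell
import Pool.Agent.Lib.MP_131179_gt.Dehn.LLink

/-!
# The cell decomposition dual to a sphere

The vertices of the cell decomposition are the faces of the sphere, the edges are the edges of the
sphere and the cells are the vertices of the sphere.  The special face is not a vertex but a cell of the
cell decomposition.
-/

set_option autoImplicit false

namespace Pool.Agent.Lib.MP_131179_gt.Dehn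

variable {Φ : Type} {V : TMap Φ}

/-- The positions of the faces of a surface; the flags `hf q` are the flags of the special face, which
has `m` edges, `vtx p` is the vertex of the flag `p`, `pos p` the position of its face (and for the special
face the position of its edge). -/
structure SPos (S : Carried V) (m : ℕ) [NeZero m] where
  three : 3 ≤ m
  hf : ZMod m × F2 × F2 → Fl S.n
  hfi : Function.Injective hf
  hfa : ∀ q, S.hn.fa (hf q) = hf (q.1, q.2.1 + 1, q.2.2)
  hfb : ∀ q, S.hn.fb (hf q) = hf (if q.2.1 = 1 then (q.1 + 1, 0, q.2.2) else (q.1 - 1, 1, q.2.2))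
  hfc : ∀ q, S.hn.fc (hf q) = hf (q.1, q.2.1, q.2.2 + 1)
  vtx : Fl S.n → P3
  vtx_a : ∀ p, vtx (S.hn.fa p) ≠ vtx p
  vtx_b : ∀ p, vtx (S.hn.fb p) = vtx p
  vtx_c : ∀ p, vtx (S.hn.fc p) = vtx p
  vtx_M : ∀ p, vtx (S.M p) = vtx p
  /-- the vertices of the special face are different -/
  vtx_hf : ∀ i j : ZMod m, vtx (hf (i, 0, 0)) = vtx (hf (j, 0, 0)) → i = j
  pos : Fl S.n → P3
  pos_a : ∀ p, pos (S.hn.fa p) = pos p
  pos_b : ∀ p, (∀ q, p ≠ hf q) → pos (S.hn.fb p) = pos p
  pos_c : ∀ p, pos (S.hn.fc p) = pos p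
  pos_hf : ∀ q q', pos (hf q) = pos (hf q') ↔ q.1 = q'.1
  pos_ne : ∀ p q, (∀ q', p ≠ hf q') → pos p ≠ pos (hf q)
  pos_inj : ∀ p p', (∀ q, p ≠ hf q) → (∀ q, p' ≠ hf q) → pos p = pos p' →
    SameOrb [S.hn.fa, S.hn.fb, S.hn.fc] p p'
  pos_vtx : ∀ p p', (∀ q, p ≠ hf q) → (∀ q, p' ≠ hf q) → pos p = pos p' → vtx p = vtx p' →
    p' = p ∨ p' = S.hn.fb p ∨ p' = S.hn.fc p ∨ p' = S.hn.fb (S.hn.fc p)
  pos_M : ∀ p, pos (S.M p) ≠ pos p

namespace SPos

variable {S : Carried V} {m : ℕ} [NeZero m] (D : SPos S m)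

/-- The vertices of the cell decomposition. -/
abbrev ZZ : Type := {z : P3 // ∃ p, D.pos p = z}

/-- The chords. -/
abbrev Chd (S : Carried V) : Type := Quot (OStep [S.hn.fa, S.hn.fc, S.M])

/-- The vertices of the sphere. -/
abbrev Vtx (S : Carried V) : Type := Quot (OStep [S.hn.fb, S.hn.fc, S.M])

/-- The edges: the chords, and the edges of the special cell, from the position of the edge `i` of the
special face to the position of the edge `i + 1`. -/
abbrev YY (S : Carried V) (m : ℕ) : Type := Chd S ⊕ ZMod m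

/-- The cells. -/
abbrev CC (S : Carried V) : Type := Option (Vtx S)

noncomputable def e0 : YY S m → D.ZZ
  | .inl y => ⟨D.pos (Quot.out y), _, rfl⟩
  | .inr i => ⟨D.pos (D.hf (i, 1, 0)), _, rfl⟩

noncomputable def e1 : YY S m → D.ZZ
  | .inl y => ⟨D.pos (S.M (Quot.out y)), _, rfl⟩
  | .inr i => ⟨D.pos (D.hf (i + 1, 0, 0)), _, rfl⟩

noncomputable def s0 : YY S m → CC S
  | .inl y => some (Quot.mk _ (Quot.out y))
  | .inr i => some (Quot.mk _ (D.hf (i, 1, 0)))

noncomputable def s1 : YY S m → CC S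
  | .inl y => some (Quot.mk _ (S.hn.fa (Quot.out y)))
  | .inr _ => none

noncomputable instance : Fintype (YY S m) := by
  haveI := S.fin
  haveI : Finite (Chd S) := Quot.finite _
  exact Fintype.ofFinite _

instance : Finite (CC S) := by
  haveI := S.fin
  haveI : Finite (Vtx S) := Quot.finite _
  infer_instance


/-! ### Elementary relations -/

section rel

variable (S)

theorem sph_aa (p : Fl S.n) : S.hn.fa (S.hn.fa p) = p := Subtype.ext (Prod.ext (V.aa _) rfl)

theorem sph_bb (p : Fl S.n) : S.hn.fb (S.hn.fb p) = p := Subtype.ext (Prod.ext (V.bb _) rfl)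

theorem sph_cc (p : Fl S.n) : S.hn.fc (S.hn.fc p) = p := S.hn.ops_fc_fc p

theorem sph_ac (p : Fl S.n) : S.hn.fa (S.hn.fc p) = S.hn.fc (S.hn.fa p) := by
  apply Subtype.ext
  apply Prod.ext
  · exact V.ac _
  · show S.n p.1.1 - 1 - p.1.2 = S.n (V.a p.1.1) - 1 - p.1.2
    rw [S.hn.a]

theorem sph_bc (p : Fl S.n) : S.hn.fb (S.hn.fc p) = S.hn.fc (S.hn.fb p) := by
  apply Subtype.ext
  apply Prod.ext
  · exact V.bc _
  · show S.n p.1.1 - 1 - p.1.2 = S.n (V.b p.1.1) - 1 - p.1.2
    rw [S.hn.b]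

/-- The orientation of a flag. -/
def sph_sg (p : Fl S.n) : F2 := V.sg p.1.1

theorem sph_sga (p : Fl S.n) : sph_sg S (S.hn.fa p) = sph_sg S p + 1 := V.sga _

theorem sph_sgb (p : Fl S.n) : sph_sg S (S.hn.fb p) = sph_sg S p + 1 := V.sgb _

theorem sph_sgc (p : Fl S.n) : sph_sg S (S.hn.fc p) = sph_sg S p + 1 := V.sgc _

theorem sph_sgM (p : Fl S.n) : sph_sg S (S.M p) = sph_sg S p + 1 := S.sgM p

end rel

theorem sph_one_add (x : F2) : x + 1 ≠ x := by
  intro h
  have : (1 : F2) = 0 := by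
    have := congrArg (fun y => y - x) h
    simpa using this
  exact one_ne_zero this

theorem sph_add_one_one (x : F2) : x + 1 + 1 = x := by
  rw [add_assoc, CharTwo.add_self_eq_zero, add_zero]

/-- A property closed under the involutions of a list is constant on orbits. -/
theorem sph_orb {Ω : Type} {L : List (Ω → Ω)} (hL : ∀ f ∈ L, ∀ x, f (f x) = x) {P : Ω → Prop}
    (hP : ∀ f ∈ L, ∀ x, P x → P (f x)) {x y : Ω} (h : SameOrb L x y) : P x ↔ P y := by
  induction h with
  | rel u v hr =>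
    obtain ⟨f, hf, rfl⟩ := hr
    exact ⟨hP f hf u, fun h => by have := hP f hf _ h; rwa [hL f hf] at this⟩
  | refl u => exact Iff.rfl
  | symm u v _ ih => exact ih.symm
  | trans u v w _ _ ih1 ih2 => exact ih1.trans ih2

/-- The eight flags of a chord. -/
def sph_E8 (S : Carried V) (p x : Fl S.n) : Prop :=
  (x = p ∨ x = S.hn.fa p ∨ x = S.hn.fc p ∨ x = S.hn.fa (S.hn.fc p)) ∨
    (x = S.M p ∨ x = S.hn.fa (S.M p) ∨ x = S.hn.fc (S.M p) ∨ x = S.hn.fa (S.hn.fc (S.M p)))

theorem sph_E8_self (p : Fl S.n) : sph_E8 S p p := Or.inl (Or.inl rfl)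

theorem sph_E8_a {p x : Fl S.n} (h : sph_E8 S p x) : sph_E8 S p (S.hn.fa x) := by
  unfold sph_E8 at h ⊢
  rcases h with (h | h | h | h) | (h | h | h | h) <;> subst h <;>
    simp only [sph_aa, true_or, or_true]

theorem sph_E8_c {p x : Fl S.n} (h : sph_E8 S p x) : sph_E8 S p (S.hn.fc x) := by
  unfold sph_E8 at h ⊢
  rcases h with (h | h | h | h) | (h | h | h | h) <;> subst h <;>
    simp only [← sph_ac, sph_cc, true_or, or_true]

theorem sph_E8_M {p x : Fl S.n} (h : sph_E8 S p x) : sph_E8 S p (S.M x) := by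
  unfold sph_E8 at h ⊢
  rcases h with (h | h | h | h) | (h | h | h | h) <;> subst h <;>
    simp only [← S.aM, ← S.cM, S.MM, true_or, or_true]

theorem sph_chord_inv : ∀ f ∈ [S.hn.fa, S.hn.fc, S.M], ∀ x, f (f x) = x := by
  intro f hf x
  simp only [List.mem_cons, List.not_mem_nil, or_false] at hf
  rcases hf with rfl | rfl | rfl
  · exact sph_aa S x
  · exact sph_cc S x
  · exact S.MM x

theorem sph_chord_E8 {p x : Fl S.n} (h : SameOrb [S.hn.fa, S.hn.fc, S.M] p x) : sph_E8 S p x := by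
  refine (sph_orb sph_chord_inv (P := sph_E8 S p) ?_ h).1 (sph_E8_self p)
  intro f hf y hy
  simp only [List.mem_cons, List.not_mem_nil, or_false] at hf
  rcases hf with rfl | rfl | rfl
  · exact sph_E8_a hy
  · exact sph_E8_c hy
  · exact sph_E8_M hy

/-- The chord of a flag. -/
def sph_ch (p : Fl S.n) : Chd S := Quot.mk _ p

/-- The vertex of a flag. -/
def sph_vx (p : Fl S.n) : Vtx S := Quot.mk _ p

theorem sph_ch_a (p : Fl S.n) : sph_ch (S.hn.fa p) = sph_ch p :=
  (Quot.sound ⟨S.hn.fa, by simp, rfl⟩ : Quot.mk (OStep [S.hn.fa, S.hn.fc, S.M]) p = _).symm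

theorem sph_ch_c (p : Fl S.n) : sph_ch (S.hn.fc p) = sph_ch p :=
  (Quot.sound ⟨S.hn.fc, by simp, rfl⟩ : Quot.mk (OStep [S.hn.fa, S.hn.fc, S.M]) p = _).symm

theorem sph_ch_M (p : Fl S.n) : sph_ch (S.M p) = sph_ch p :=
  (Quot.sound ⟨S.M, by simp, rfl⟩ : Quot.mk (OStep [S.hn.fa, S.hn.fc, S.M]) p = _).symm

theorem sph_vx_b (p : Fl S.n) : sph_vx (S.hn.fb p) = sph_vx p :=
  (Quot.sound ⟨S.hn.fb, by simp, rfl⟩ : Quot.mk (OStep [S.hn.fb, S.hn.fc, S.M]) p = _).symm

theorem sph_vx_c (p : Fl S.n) : sph_vx (S.hn.fc p) = sph_vx p :=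
  (Quot.sound ⟨S.hn.fc, by simp, rfl⟩ : Quot.mk (OStep [S.hn.fb, S.hn.fc, S.M]) p = _).symm

theorem sph_vx_M (p : Fl S.n) : sph_vx (S.M p) = sph_vx p :=
  (Quot.sound ⟨S.M, by simp, rfl⟩ : Quot.mk (OStep [S.hn.fb, S.hn.fc, S.M]) p = _).symm

theorem sph_ch_eq {p x : Fl S.n} (h : sph_ch p = sph_ch x) : sph_E8 S p x :=
  sph_chord_E8 (Quot.eqvGen_exact h)

theorem sph_ch_out (y : Chd S) : sph_ch (Quot.out y) = y := Quot.out_eq y

theorem sph_vx_out (v : Vtx S) : sph_vx (Quot.out v) = v := Quot.out_eq v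

include D in
theorem sph_vtx_vx {p x : Fl S.n} (h : sph_vx p = sph_vx x) : D.vtx p = D.vtx x := by
  have h1 : SameOrb [S.hn.fb, S.hn.fc, S.M] p x := Quot.eqvGen_exact h
  refine ((sph_orb (P := fun z => D.vtx p = D.vtx z) ?_ ?_ h1).1 rfl)
  · intro f hf x
    simp only [List.mem_cons, List.not_mem_nil, or_false] at hf
    rcases hf with rfl | rfl | rfl
    · exact sph_bb S x
    · exact sph_cc S x
    · exact S.MM x
  · intro f hf x hx
    simp only [List.mem_cons, List.not_mem_nil, or_false] at hf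
    rcases hf with rfl | rfl | rfl
    · rw [hx, D.vtx_b]
    · rw [hx, D.vtx_c]
    · rw [hx, D.vtx_M]

/-- The two vertices of a chord: if `y` is the chord of `p`, its vertices are those of `p` and of
`fa p`. -/
theorem sph_vx_ch {p x : Fl S.n} (h : sph_ch p = sph_ch x) :
    (sph_vx x = sph_vx p ∧ sph_vx (S.hn.fa x) = sph_vx (S.hn.fa p)) ∨
      (sph_vx x = sph_vx (S.hn.fa p) ∧ sph_vx (S.hn.fa x) = sph_vx p) := by
  have h8 := sph_ch_eq h
  unfold sph_E8 at h8
  rcases h8 with (h | h | h | h) | (h | h | h | h) <;> subst h <;>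
    simp only [sph_aa, sph_ac, S.aM, sph_vx_c, sph_vx_M, true_and, and_self, true_or, or_true]


/-! ### Lists built from segments -/

section gl

variable {Ω β Z Y : Type}

/-- The segments of `p`, `ρ p`, `ρ (ρ p)`, … -/
def sph_gl (ρ : Ω → Ω) (seg : Ω → List β) : Ω → ℕ → List β
  | _, 0 => []
  | p, k + 1 => seg p ++ sph_gl ρ seg (ρ p) k

theorem sph_mem_gl {ρ : Ω → Ω} {seg : Ω → List β} {x : β} (k : ℕ) : ∀ p : Ω,
    x ∈ sph_gl ρ seg p k ↔ ∃ j < k, x ∈ seg (ρ^[j] p) := by
  induction k with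
  | zero => intro p; simp [sph_gl]
  | succ k ih =>
    intro p
    simp only [sph_gl, List.mem_append, ih]
    constructor
    · rintro (h | ⟨j, hj, h⟩)
      · exact ⟨0, Nat.succ_pos k, h⟩
      · exact ⟨j + 1, Nat.succ_lt_succ hj, h⟩
    · rintro ⟨j, hj, h⟩
      cases j with
      | zero => exact Or.inl h
      | succ j => exact Or.inr ⟨j, Nat.lt_of_succ_lt_succ hj, h⟩

theorem sph_gl_nodup {γ : Type} {ρ : Ω → Ω} {seg : Ω → List β} (f : β → γ) (k : ℕ) : ∀ p : Ω,
    (∀ j < k, ((seg (ρ^[j] p)).map f).Nodup) →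
    (∀ i j, i < j → j < k → ∀ x ∈ seg (ρ^[i] p), ∀ y ∈ seg (ρ^[j] p), f x ≠ f y) →
    ((sph_gl ρ seg p k).map f).Nodup := by
  induction k with
  | zero => intro p _ _; simp [sph_gl]
  | succ k ih =>
    intro p h1 h2
    simp only [sph_gl, List.map_append]
    rw [List.nodup_append]
    refine ⟨h1 0 (Nat.succ_pos k), ih (ρ p) (fun j hj => h1 (j + 1) (Nat.succ_lt_succ hj))
      (fun i j hij hj => h2 (i + 1) (j + 1) (Nat.succ_lt_succ hij) (Nat.succ_lt_succ hj)), ?_⟩
    intro a ha b hb hab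
    obtain ⟨x, hx, rfl⟩ := List.mem_map.1 ha
    obtain ⟨y, hy, rfl⟩ := List.mem_map.1 hb
    obtain ⟨j, hj, hy'⟩ := (sph_mem_gl k _).1 hy
    exact h2 0 (j + 1) (Nat.succ_pos j) (Nat.succ_lt_succ hj) x hx y hy' hab

theorem sph_walk_append {e0 e1 : Y → Z} (b : Z × Y) (l2 : List (Z × Y)) (z : Z)
    (h2 : Walk e0 e1 (b :: l2) z) : ∀ l1 : List (Z × Y), l1 ≠ [] → Walk e0 e1 l1 b.1 →
    Walk e0 e1 (l1 ++ b :: l2) z
  | [], h, _ => absurd rfl h
  | [_], _, h1 => ⟨h1, h2⟩
  | _ :: a' :: l, _, h1 => ⟨h1.1, sph_walk_append b l2 z h2 (a' :: l) (by simp) h1.2⟩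

theorem sph_walk_gl {e0 e1 : Y → Z} {ρ : Ω → Ω} {seg : Ω → List (Z × Y)} {π : Ω → Z}
    (hd : ∀ p, ∃ b l, seg p = b :: l ∧ b.1 = π p) (hw : ∀ p, Walk e0 e1 (seg p) (π (ρ p)))
    (k : ℕ) : ∀ p : Ω, Walk e0 e1 (sph_gl ρ seg p k) (π (ρ^[k] p)) := by
  induction k with
  | zero => intro p; trivial
  | succ k ih =>
    intro p
    cases k with
    | zero =>
      simp only [sph_gl, List.append_nil]
      exact hw p
    | succ k =>
      have h1 := ih (ρ p)
      rw [← Function.iterate_succ_apply] at h1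
      obtain ⟨b, l, hb, hb1⟩ := hd (ρ p)
      have h3 : sph_gl ρ seg (ρ p) (k + 1) = b :: (l ++ sph_gl ρ seg (ρ (ρ p)) k) := by
        simp only [sph_gl, hb, List.cons_append]
      have h4 : sph_gl ρ seg p (k + 1 + 1) = seg p ++ sph_gl ρ seg (ρ p) (k + 1) := rfl
      rw [h4, h3]
      rw [h3] at h1
      refine sph_walk_append b _ _ h1 _ ?_ ?_
      · obtain ⟨b', l', hb', _⟩ := hd p
        rw [hb']
        simp
      · rw [hb1]
        exact hw p

theorem sph_gl_head {ρ : Ω → Ω} {seg : Ω → List (Z × Y)} {π : Ω → Z}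
    (hd : ∀ p, ∃ b l, seg p = b :: l ∧ b.1 = π p) {k : ℕ} (hk : 0 < k) (p : Ω) {a : Z × Y}
    {l : List (Z × Y)} (h : sph_gl ρ seg p k = a :: l) : a.1 = π p := by
  obtain ⟨k, rfl⟩ : ∃ k', k = k' + 1 := ⟨k - 1, by omega⟩
  obtain ⟨b, l', hb, hb1⟩ := hd p
  simp only [sph_gl, hb, List.cons_append] at h
  rw [← (List.cons.inj h).1, hb1]

end gl

/-! ### The boundary of a vertex cell -/

/-- Rotation around the vertex. -/
def sph_rho (S : Carried V) (p : Fl S.n) : Fl S.n := S.hn.fb (S.M p)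

theorem sph_rho_inj : Function.Injective (sph_rho S) := by
  intro p q h
  have h1 := congrArg S.hn.fb h
  simp only [sph_rho, sph_bb] at h1
  have h2 := congrArg S.M h1
  rwa [S.MM, S.MM] at h2

theorem sph_rho_sg (p : Fl S.n) : sph_sg S (sph_rho S p) = sph_sg S p := by
  unfold sph_rho
  rw [sph_sgb, sph_sgM, sph_add_one_one]

theorem sph_rho_vx (p : Fl S.n) : sph_vx (sph_rho S p) = sph_vx p := by
  unfold sph_rho
  rw [sph_vx_b, sph_vx_M]

theorem sph_iter_sg (j : ℕ) : ∀ p : Fl S.n, sph_sg S ((sph_rho S)^[j] p) = sph_sg S p := by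
  induction j with
  | zero => intro p; rfl
  | succ j ih => intro p; rw [Function.iterate_succ_apply, ih, sph_rho_sg]

theorem sph_iter_vx (j : ℕ) : ∀ p : Fl S.n, sph_vx ((sph_rho S)^[j] p) = sph_vx p := by
  induction j with
  | zero => intro p; rfl
  | succ j ih => intro p; rw [Function.iterate_succ_apply, ih, sph_rho_vx]

theorem sph_iter_co {co : Fl S.n → F2} (hb : ∀ p, co (S.hn.fb p) = co p)
    (hM : ∀ p, co (S.M p) = co p) (j : ℕ) : ∀ p : Fl S.n, co ((sph_rho S)^[j] p) = co p := by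
  induction j with
  | zero => intro p; rfl
  | succ j ih => intro p; rw [Function.iterate_succ_apply, ih, sph_rho, hb, hM]

/-- The number of edges of the boundary of a vertex. -/
noncomputable def sph_per (p : Fl S.n) : ℕ := Function.minimalPeriod (sph_rho S) p

theorem sph_per_pos (p : Fl S.n) : 0 < sph_per p := by
  haveI := S.fin
  exact Function.minimalPeriod_pos_of_mem_periodicPts (sph_rho_inj.mem_periodicPts p)

theorem sph_per_iter (p : Fl S.n) : (sph_rho S)^[sph_per p] p = p :=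
  Function.iterate_minimalPeriod

theorem sph_per_inj (p : Fl S.n) {i j : ℕ} (hi : i < sph_per p) (hj : j < sph_per p)
    (h : (sph_rho S)^[i] p = (sph_rho S)^[j] p) : i = j :=
  Function.iterate_injOn_Iio_minimalPeriod hi hj h

theorem sph_iter_lt (p : Fl S.n) (i : ℕ) :
    ∃ j < sph_per p, (sph_rho S)^[i] p = (sph_rho S)^[j] p :=
  ⟨i % sph_per p, Nat.mod_lt _ (sph_per_pos p), Function.iterate_mod_minimalPeriod_eq.symm⟩

/-- The orbit of a vertex. -/
theorem sph_vx_orbit {p x : Fl S.n} (h : sph_vx x = sph_vx p) :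
    ∃ j, (x = (sph_rho S)^[j] p ∨ x = S.M ((sph_rho S)^[j] p)) ∨
      (x = S.hn.fc ((sph_rho S)^[j] p) ∨ x = S.hn.fc (S.M ((sph_rho S)^[j] p))) := by
  have h1 : SameOrb [S.hn.fb, S.hn.fc, S.M] p x := Quot.eqvGen_exact h.symm
  have hprev : ∀ j, ∃ j', S.hn.fb ((sph_rho S)^[j] p) = S.M ((sph_rho S)^[j'] p) := by
    intro j
    obtain ⟨k, hk⟩ : ∃ k, sph_per p = k + 1 := ⟨sph_per p - 1, by have := sph_per_pos p; omega⟩
    refine ⟨j + k, ?_⟩
    have h2 : (sph_rho S)^[j] p = sph_rho S ((sph_rho S)^[j + k] p) := by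
      rw [← Function.iterate_succ_apply' (sph_rho S)]
      have : (j + k).succ = j + sph_per p := by omega
      rw [this, Function.iterate_add_apply, sph_per_iter]
    rw [h2]
    simp only [sph_rho, sph_bb]
  refine (sph_orb (P := fun x => ∃ j, (x = (sph_rho S)^[j] p ∨ x = S.M ((sph_rho S)^[j] p)) ∨
      (x = S.hn.fc ((sph_rho S)^[j] p) ∨ x = S.hn.fc (S.M ((sph_rho S)^[j] p)))) ?_ ?_ h1).1
      ⟨0, Or.inl (Or.inl rfl)⟩
  · intro f hf x
    simp only [List.mem_cons, List.not_mem_nil, or_false] at hf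
    rcases hf with rfl | rfl | rfl
    · exact sph_bb S x
    · exact sph_cc S x
    · exact S.MM x
  · intro f hf x hx
    obtain ⟨j, hj⟩ := hx
    simp only [List.mem_cons, List.not_mem_nil, or_false] at hf
    rcases hf with rfl | rfl | rfl
    · rcases hj with (h | h) | (h | h) <;> subst h
      · obtain ⟨j', hj'⟩ := hprev j
        exact ⟨j', Or.inl (Or.inr hj')⟩
      · refine ⟨j + 1, Or.inl (Or.inl ?_)⟩
        rw [Function.iterate_succ_apply']
        rfl
      · obtain ⟨j', hj'⟩ := hprev j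
        refine ⟨j', Or.inr (Or.inr ?_)⟩
        rw [sph_bc, hj']
      · refine ⟨j + 1, Or.inr (Or.inl ?_)⟩
        rw [Function.iterate_succ_apply', sph_bc]
        rfl
    · rcases hj with (h | h) | (h | h) <;> subst h
      · exact ⟨j, Or.inr (Or.inl rfl)⟩
      · exact ⟨j, Or.inr (Or.inr rfl)⟩
      · exact ⟨j, Or.inl (Or.inl (sph_cc S _))⟩
      · exact ⟨j, Or.inl (Or.inr (sph_cc S _))⟩
    · rcases hj with (h | h) | (h | h) <;> subst h
      · exact ⟨j, Or.inl (Or.inr rfl)⟩
      · exact ⟨j, Or.inl (Or.inl (S.MM _))⟩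
      · exact ⟨j, Or.inr (Or.inr (S.cM _).symm)⟩
      · refine ⟨j, Or.inr (Or.inl ?_)⟩
        rw [← S.cM, S.MM]

theorem sph_ch_of_vx {p x : Fl S.n} (h : sph_vx x = sph_vx p) :
    ∃ j < sph_per p, sph_ch x = sph_ch ((sph_rho S)^[j] p) := by
  obtain ⟨i, hi⟩ := sph_vx_orbit h
  obtain ⟨j, hj, hij⟩ := sph_iter_lt p i
  rw [hij] at hi
  refine ⟨j, hj, ?_⟩
  rcases hi with (h | h) | (h | h) <;> subst h
  · rfl
  · exact sph_ch_M _
  · exact sph_ch_c _
  · rw [sph_ch_c, sph_ch_M]

/-- For every flag `x` of the vertex, `x`, `fb x`, `fc x` or `fb (fc x)` is one of the `M p_j`. -/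
theorem sph_M_of_vx {p x : Fl S.n} (h : sph_vx x = sph_vx p) :
    ∃ j < sph_per p, (S.M ((sph_rho S)^[j] p) = x ∨ S.M ((sph_rho S)^[j] p) = S.hn.fb x) ∨
      (S.M ((sph_rho S)^[j] p) = S.hn.fc x ∨ S.M ((sph_rho S)^[j] p) = S.hn.fb (S.hn.fc x)) := by
  have hprev : ∀ j, ∃ j', S.hn.fb ((sph_rho S)^[j] p) = S.M ((sph_rho S)^[j'] p) := by
    intro j
    obtain ⟨k, hk⟩ : ∃ k, sph_per p = k + 1 := ⟨sph_per p - 1, by have := sph_per_pos p; omega⟩
    refine ⟨j + k, ?_⟩
    have h2 : (sph_rho S)^[j] p = sph_rho S ((sph_rho S)^[j + k] p) := by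
      rw [← Function.iterate_succ_apply' (sph_rho S)]
      have : (j + k).succ = j + sph_per p := by omega
      rw [this, Function.iterate_add_apply, sph_per_iter]
    rw [h2]
    simp only [sph_rho, sph_bb]
  obtain ⟨i, hi⟩ := sph_vx_orbit h
  rcases hi with (h | h) | (h | h)
  · obtain ⟨i', hi'⟩ := hprev i
    obtain ⟨j, hj, hij⟩ := sph_iter_lt p i'
    exact ⟨j, hj, Or.inl (Or.inr (by rw [← hij, ← hi', h]))⟩
  · obtain ⟨j, hj, hij⟩ := sph_iter_lt p i
    exact ⟨j, hj, Or.inl (Or.inl (by rw [← hij, h]))⟩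
  · obtain ⟨i', hi'⟩ := hprev i
    obtain ⟨j, hj, hij⟩ := sph_iter_lt p i'
    exact ⟨j, hj, Or.inr (Or.inr (by rw [← hij, ← hi', h, sph_cc]))⟩
  · obtain ⟨j, hj, hij⟩ := sph_iter_lt p i
    exact ⟨j, hj, Or.inr (Or.inl (by rw [← hij, h, sph_cc]))⟩


/-! ### Special flags -/

theorem sph_hf_c (i : ZMod m) (e s : F2) : D.hf (i, e, s + 1) = S.hn.fc (D.hf (i, e, s)) :=
  (D.hfc (i, e, s)).symm

theorem sph_F2 (x y : F2) : y = x ∨ y = x + 1 := by
  revert x y; decide

/-- The vertex of a special flag. -/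
def sph_kap (q : ZMod m × F2 × F2) : ZMod m := if q.2.1 = 1 then q.1 + 1 else q.1

theorem sph_vtx_hf (q : ZMod m × F2 × F2) : D.vtx (D.hf q) = D.vtx (D.hf (sph_kap q, 0, 0)) := by
  have h0 : ∀ (i : ZMod m) (e s : F2), D.vtx (D.hf (i, e, s)) = D.vtx (D.hf (i, e, 0)) := by
    intro i e s
    rcases sph_F2 0 s with h | h
    · rw [h]
    · rw [h, sph_hf_c, D.vtx_c]
  obtain ⟨i, e, s⟩ := q
  rw [h0]
  unfold sph_kap
  rcases sph_F2 0 e with h | h
  · simp [h]
  · have he : e = 1 := by rw [h, zero_add]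
    subst he
    have h2 := D.hfb (i, 1, 0)
    simp only [if_true] at h2
    rw [if_pos rfl]
    simp only
    rw [← h2, D.vtx_b]

theorem sph_kap_eq {q q' : ZMod m × F2 × F2} (h : D.vtx (D.hf q) = D.vtx (D.hf q')) :
    sph_kap q = sph_kap q' := by
  rw [D.sph_vtx_hf q, D.sph_vtx_hf q'] at h
  exact D.vtx_hf _ _ h

include D in
theorem sph_one_ne : (1 : ZMod m) ≠ 0 := by
  have h3 := D.three
  haveI : Fact (1 < m) := ⟨by omega⟩
  exact one_ne_zero

section co

variable {co : Fl S.n → F2} (hca : ∀ p, co (S.hn.fa p) = co p) (hcb : ∀ p, co (S.hn.fb p) = co p)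
  (hcM : ∀ p, co (S.M p) = co p) (hcc : ∀ p, co (S.hn.fc p) = co p + 1)

include hca hcb hcc in
theorem sph_co_hf (i : ZMod m) (e s : F2) : co (D.hf (i, e, s)) = co (D.hf (0, 0, 0)) + s := by
  have h1 : ∀ (i : ZMod m) (e : F2), co (D.hf (i, e, 0)) = co (D.hf (i, 0, 0)) := by
    intro i e
    rcases sph_F2 0 e with h | h
    · rw [h]
    · have h7 := D.hfa (i, 0, 0)
      simp only at h7
      rw [h, ← h7, hca]
  have h2 : ∀ i : ZMod m, co (D.hf (i + 1, 0, 0)) = co (D.hf (i, 0, 0)) := by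
    intro i
    have h3 := D.hfb (i, 1, 0)
    simp only [if_true] at h3
    rw [← h3, hcb, h1]
  have h4 : ∀ k : ℕ, co (D.hf ((k : ZMod m), 0, 0)) = co (D.hf (0, 0, 0)) := by
    intro k
    induction k with
    | zero => simp
    | succ k ih =>
      push_cast
      rw [h2, ih]
  have h5 : co (D.hf (i, e, 0)) = co (D.hf (0, 0, 0)) := by
    rw [h1, ← ZMod.natCast_zmod_val i, h4]
  rcases sph_F2 0 s with h | h
  · rw [h, h5, add_zero]
  · rw [h, sph_hf_c, hcc, h5, zero_add]

include hca hcb hcc in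
/-- Special flags with the same edge, vertex and side are equal. -/
theorem sph_hf_eq1 {q q' : ZMod m × F2 × F2} (h1 : q.1 = q'.1)
    (h2 : D.vtx (D.hf q) = D.vtx (D.hf q')) (h3 : co (D.hf q) = co (D.hf q')) : q = q' := by
  have h4 := D.sph_kap_eq h2
  obtain ⟨i, e, s⟩ := q
  obtain ⟨i', e', s'⟩ := q'
  simp only at h1
  subst h1
  rw [D.sph_co_hf hca hcb hcc i e s, D.sph_co_hf hca hcb hcc i e' s'] at h3
  have hs : s = s' := add_left_cancel h3
  have he : e = e' := by
    unfold sph_kap at h4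
    simp only at h4
    have hone := D.sph_one_ne
    rcases sph_F2 0 e with h | h <;> rcases sph_F2 0 e' with h' | h' <;>
      simp only [h, h', zero_add] at h4 ⊢
    · simp at h4
      exact absurd h4 hone
    · simp at h4
      exact absurd h4 hone
  rw [hs, he]

include hca hcb hcc in
/-- Special flags with the same vertex, orientation and side are equal. -/
theorem sph_hf_eq2 {q q' : ZMod m × F2 × F2} (h1 : sph_sg S (D.hf q) = sph_sg S (D.hf q'))
    (h2 : D.vtx (D.hf q) = D.vtx (D.hf q')) (h3 : co (D.hf q) = co (D.hf q')) : q = q' := by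
  have h4 := D.sph_kap_eq h2
  obtain ⟨i, e, s⟩ := q
  obtain ⟨i', e', s'⟩ := q'
  have h3' := h3
  rw [D.sph_co_hf hca hcb hcc i e s, D.sph_co_hf hca hcb hcc i' e' s'] at h3'
  have hs : s = s' := add_left_cancel h3'
  subst hs
  unfold sph_kap at h4
  simp only at h4
  rcases sph_F2 0 e with h | h <;> rcases sph_F2 0 e' with h' | h'
  · subst h; subst h'
    simp at h4
    rw [h4]
  · exfalso
    rw [zero_add] at h'
    subst h; subst h'
    simp at h4
    have h5 := D.hfb (i', 1, s)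
    simp only [if_true] at h5
    rw [h4, ← h5, sph_sgb] at h1
    exact sph_one_add _ h1
  · exfalso
    rw [zero_add] at h
    subst h; subst h'
    simp at h4
    have h5 := D.hfb (i, 1, s)
    simp only [if_true] at h5
    rw [← h4, ← h5, sph_sgb] at h1
    exact sph_one_add _ h1.symm
  · rw [zero_add] at h h'
    subst h; subst h'
    simp at h4
    rw [h4]

end co

/-- The index of the edge of the special cell at the special flag `x`. -/
def sph_eq (q : ZMod m × F2 × F2) : ZMod m := if q.2.1 = 1 then q.1 else q.1 - 1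

open Classical in
/-- The index of the edge of the special cell at the special flag `x`. -/
noncomputable def sph_eta (x : Fl S.n) : ZMod m :=
  if h : ∃ q, x = D.hf q then sph_eq (Classical.choose h) else 0

theorem sph_eta_hf (q : ZMod m × F2 × F2) : D.sph_eta (D.hf q) = sph_eq q := by
  have h : ∃ q', D.hf q = D.hf q' := ⟨q, rfl⟩
  unfold sph_eta
  rw [dif_pos h, ← D.hfi (Classical.choose_spec h)]

/-- The position of a flag. -/
def sph_zz (p : Fl S.n) : D.ZZ := ⟨D.pos p, p, rfl⟩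

theorem sph_zz_eq {p x : Fl S.n} : D.sph_zz p = D.sph_zz x ↔ D.pos p = D.pos x := by
  unfold sph_zz
  rw [Subtype.mk.injEq]

open Classical in
/-- One segment of the boundary of a vertex. -/
noncomputable def sph_seg (p : Fl S.n) : List (D.ZZ × YY S m) :=
  (D.sph_zz p, Sum.inl (sph_ch p)) ::
    (if ∃ q, S.M p = D.hf q then [(D.sph_zz (S.M p), Sum.inr (D.sph_eta (S.M p)))] else [])

theorem sph_joins_ch (p : Fl S.n) :
    Joins D.e0 D.e1 (Sum.inl (sph_ch p)) (D.sph_zz p) (D.sph_zz (S.M p)) := by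
  have h := sph_ch_eq (p := p) (x := Quot.out (sph_ch p)) (sph_ch_out _).symm
  unfold Joins e0 e1
  simp only
  have hz : ∀ x y : Fl S.n, ((⟨D.pos x, x, rfl⟩ : D.ZZ) = D.sph_zz y) ↔ D.pos x = D.pos y :=
    fun x y => D.sph_zz_eq (p := x) (x := y)
  rw [hz, hz, hz, hz]
  unfold sph_E8 at h
  rcases h with (h | h | h | h) | (h | h | h | h) <;> rw [h] <;>
    simp only [← S.aM, ← S.cM, S.MM, D.pos_a, D.pos_c, and_self, true_or, or_true]

theorem sph_joins_in (i : ZMod m) : Joins D.e0 D.e1 (Sum.inr i) (D.sph_zz (D.hf (i, 0, 0)))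
    (D.sph_zz (D.hf (i + 1, 0, 0))) := by
  left
  refine ⟨?_, rfl⟩
  change (⟨D.pos (D.hf (i, 1, 0)), _, rfl⟩ : D.ZZ) = _
  exact D.sph_zz_eq.2 ((D.pos_hf _ _).2 rfl)

theorem sph_joins_eta (q : ZMod m × F2 × F2) : Joins D.e0 D.e1 (Sum.inr (sph_eq q))
    (D.sph_zz (D.hf q)) (D.sph_zz (S.hn.fb (D.hf q))) := by
  have h1 := D.sph_joins_in (sph_eq q)
  rw [D.hfb]
  obtain ⟨i, e, s⟩ := q
  have hz : ∀ (q q' : ZMod m × F2 × F2), q.1 = q'.1 → D.sph_zz (D.hf q) = D.sph_zz (D.hf q') :=
    fun q q' h => D.sph_zz_eq.2 ((D.pos_hf _ _).2 h)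
  unfold sph_eq at h1 ⊢
  simp only at h1 ⊢
  by_cases he : e = 1
  · rw [if_pos he] at h1 ⊢
    rw [if_pos he]
    rw [hz (i, 0, 0) (i, e, s) rfl, hz (i + 1, 0, 0) (i + 1, 0, s) rfl] at h1
    exact h1
  · rw [if_neg he] at h1 ⊢
    rw [if_neg he]
    rw [hz (i - 1, 0, 0) (i - 1, 1, s) rfl, hz (i - 1 + 1, 0, 0) (i, e, s) (by simp)] at h1
    exact h1.symm

theorem sph_seg_head (p : Fl S.n) : ∃ b l, D.sph_seg p = b :: l ∧ b.1 = D.sph_zz p :=
  ⟨_, _, rfl, rfl⟩

theorem sph_seg_walk (p : Fl S.n) : Walk D.e0 D.e1 (D.sph_seg p) (D.sph_zz (sph_rho S p)) := by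
  have h1 := D.sph_joins_ch p
  unfold sph_seg sph_rho
  by_cases h : ∃ q, S.M p = D.hf q
  · rw [if_pos h]
    refine ⟨h1, ?_⟩
    obtain ⟨q, hq⟩ := h
    rw [hq, sph_eta_hf]
    exact D.sph_joins_eta q
  · rw [if_neg h]
    have h2 : D.sph_zz (S.hn.fb (S.M p)) = D.sph_zz (S.M p) :=
      D.sph_zz_eq.2 (D.pos_b _ fun q hq => h ⟨q, hq⟩)
    rw [h2]
    exact h1

/-- The boundary of a vertex. -/
noncomputable def sph_cyV (v : Vtx S) : List (D.ZZ × YY S m) :=
  sph_gl (sph_rho S) D.sph_seg (Quot.out v) (sph_per (Quot.out v))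

/-- The boundary of the special cell. -/
noncomputable def sph_cyN : List (D.ZZ × YY S m) :=
  sph_gl (fun i : ZMod m => i + 1)
    (fun i => [(D.sph_zz (D.hf (i, 0, 0)), (Sum.inr i : YY S m))]) 0 m

theorem sph_closedV (v : Vtx S) (a : D.ZZ × YY S m) (l : List (D.ZZ × YY S m))
    (h : D.sph_cyV v = a :: l) : Walk D.e0 D.e1 (a :: l) a.1 := by
  have h1 := sph_walk_gl D.sph_seg_head D.sph_seg_walk (sph_per (Quot.out v)) (Quot.out v)
  rw [sph_per_iter] at h1
  have h2 := sph_gl_head D.sph_seg_head (sph_per_pos _) (Quot.out v) h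
  unfold sph_cyV at h
  rw [h] at h1
  rw [h2]
  exact h1

theorem sph_iter_add (j : ℕ) : ∀ i : ZMod m, (fun i : ZMod m => i + 1)^[j] i = i + j := by
  induction j with
  | zero => intro i; simp
  | succ j ih =>
    intro i
    rw [Function.iterate_succ_apply, ih]
    push_cast
    ring

theorem sph_closedN (a : D.ZZ × YY S m) (l : List (D.ZZ × YY S m))
    (h : D.sph_cyN = a :: l) : Walk D.e0 D.e1 (a :: l) a.1 := by
  have hd : ∀ i : ZMod m, ∃ b l, [(D.sph_zz (D.hf (i, 0, 0)), (Sum.inr i : YY S m))] = b :: l ∧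
      b.1 = D.sph_zz (D.hf (i, 0, 0)) := fun i => ⟨_, _, rfl, rfl⟩
  have h1 := sph_walk_gl (ρ := fun i : ZMod m => i + 1) hd
    (fun i => D.sph_joins_in i) m 0
  rw [sph_iter_add, ZMod.natCast_self, add_zero] at h1
  have h2 := sph_gl_head hd (NeZero.pos m) (0 : ZMod m) h
  unfold sph_cyN at h
  rw [h] at h1
  rw [h2]
  exact h1


/-- The flag of an element of a segment. -/
theorem sph_mem_seg {p : Fl S.n} {x : D.ZZ × YY S m} (hx : x ∈ D.sph_seg p) :
    x = (D.sph_zz p, Sum.inl (sph_ch p)) ∨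
      ∃ q, S.M p = D.hf q ∧ x = (D.sph_zz (D.hf q), Sum.inr (sph_eq q)) := by
  unfold sph_seg at hx
  rw [List.mem_cons] at hx
  rcases hx with h | h
  · exact Or.inl h
  · right
    split_ifs at h with h'
    · obtain ⟨q, hq⟩ := h'
      rw [List.mem_singleton] at h
      rw [hq, sph_eta_hf] at h
      exact ⟨q, hq, h⟩
    · simp at h

theorem sph_seg_mem1 (p : Fl S.n) : (D.sph_zz p, (Sum.inl (sph_ch p) : YY S m)) ∈ D.sph_seg p := by
  unfold sph_seg
  exact List.mem_cons_self

theorem sph_seg_mem2 {p : Fl S.n} {q : ZMod m × F2 × F2} (h : S.M p = D.hf q) :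
    (D.sph_zz (D.hf q), (Sum.inr (sph_eq q) : YY S m)) ∈ D.sph_seg p := by
  unfold sph_seg
  rw [if_pos ⟨q, h⟩, h, sph_eta_hf]
  simp

section co

variable {co : Fl S.n → F2} (hca : ∀ p, co (S.hn.fa p) = co p) (hcb : ∀ p, co (S.hn.fb p) = co p)
  (hcM : ∀ p, co (S.M p) = co p) (hcc : ∀ p, co (S.hn.fc p) = co p + 1)

include hca hcb hcc in
/-- Two flags at the same vertex on the same side with the same position are equal if they have
the same orientation, or if one of them is not special. -/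
theorem sph_pos_eq {x x' : Fl S.n} (hv : D.vtx x = D.vtx x') (hc : co x = co x')
    (hp : D.pos x = D.pos x') (hs : sph_sg S x = sph_sg S x' ∨ ∃ q, x' = D.hf q) : x = x' := by
  by_cases h : ∃ q, x = D.hf q
  · obtain ⟨q, rfl⟩ := h
    by_cases h' : ∃ q', x' = D.hf q'
    · obtain ⟨q', rfl⟩ := h'
      rw [D.sph_hf_eq1 hca hcb hcc ((D.pos_hf _ _).1 hp) hv hc]
    · exact absurd hp.symm (D.pos_ne _ _ fun q' hq' => h' ⟨q', hq'⟩)
  · by_cases h' : ∃ q', x' = D.hf q'
    · obtain ⟨q', rfl⟩ := h'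
      exact absurd hp (D.pos_ne _ _ fun q hq => h ⟨q, hq⟩)
    · rcases hs with hs | hs
      · rcases D.pos_vtx x x' (fun q hq => h ⟨q, hq⟩) (fun q hq => h' ⟨q, hq⟩) hp hv with
          e | e | e | e
        · exact e.symm
        · rw [e, sph_sgb] at hs
          exact absurd hs.symm (sph_one_add _)
        · rw [e, sph_sgc] at hs
          exact absurd hs.symm (sph_one_add _)
        · rw [e, hcb, hcc] at hc
          exact absurd hc.symm (sph_one_add _)
      · exact absurd hs h'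

include hca hcb hcM hcc in
theorem sph_nodup_zV (v : Vtx S) : ((D.sph_cyV v).map Prod.fst).Nodup := by
  unfold sph_cyV
  set p := Quot.out v
  have hvx : ∀ j, D.vtx ((sph_rho S)^[j] p) = D.vtx p := fun j =>
    D.sph_vtx_vx (sph_iter_vx j p)
  have hco : ∀ j, co ((sph_rho S)^[j] p) = co p := fun j => sph_iter_co hcb hcM j p
  have hsg : ∀ j, sph_sg S ((sph_rho S)^[j] p) = sph_sg S p := fun j => sph_iter_sg j p
  refine sph_gl_nodup _ _ _ ?_ ?_
  · intro j _
    unfold sph_seg
    split_ifs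
    · simp only [List.map_cons, List.map_nil, List.nodup_cons, List.mem_singleton,
        List.not_mem_nil, not_false_eq_true, List.nodup_nil, and_true, D.sph_zz_eq]
      exact fun h => D.pos_M _ h.symm
    · simp
  · intro i j hij hj x hx y hy hxy
    have hij' : (sph_rho S)^[i] p ≠ (sph_rho S)^[j] p := fun h =>
      absurd (sph_per_inj p (hij.trans hj) hj h) (by omega)
    rcases D.sph_mem_seg hx with hx | ⟨q, hq, hx⟩ <;> rcases D.sph_mem_seg hy with hy | ⟨q', hq', hy⟩ <;>
      subst hx <;> subst hy <;> simp only [D.sph_zz_eq] at hxy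
    · exact hij' (D.sph_pos_eq hca hcb hcc (by rw [hvx, hvx]) (by rw [hco, hco]) hxy
        (Or.inl (by rw [hsg, hsg])))
    · rw [← hq'] at hxy
      have := D.sph_pos_eq hca hcb hcc (by rw [D.vtx_M, hvx, hvx]) (by rw [hcM, hco, hco]) hxy
        (Or.inr ⟨q', hq'⟩)
      have h2 := congrArg (sph_sg S) this
      rw [sph_sgM, hsg, hsg] at h2
      exact sph_one_add _ h2.symm
    · rw [← hq] at hxy
      have := D.sph_pos_eq hca hcb hcc (by rw [D.vtx_M, hvx, hvx]) (by rw [hcM, hco, hco]) hxy.symm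
        (Or.inr ⟨q, hq⟩)
      have h2 := congrArg (sph_sg S) this
      rw [sph_sgM, hsg, hsg] at h2
      exact sph_one_add _ h2.symm
    · rw [← hq, ← hq'] at hxy
      have := D.sph_pos_eq hca hcb hcc (by rw [D.vtx_M, D.vtx_M, hvx, hvx])
        (by rw [hcM, hcM, hco, hco]) hxy (Or.inr ⟨q', hq'⟩)
      have h2 := congrArg S.M this
      rw [S.MM, S.MM] at h2
      exact hij' h2

include hca hcb hcM hcc in
theorem sph_nodup_yV (v : Vtx S) : ((D.sph_cyV v).map Prod.snd).Nodup := by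
  unfold sph_cyV
  set p := Quot.out v
  have hvx : ∀ j, D.vtx ((sph_rho S)^[j] p) = D.vtx p := fun j =>
    D.sph_vtx_vx (sph_iter_vx j p)
  have hco : ∀ j, co ((sph_rho S)^[j] p) = co p := fun j => sph_iter_co hcb hcM j p
  have hsg : ∀ j, sph_sg S ((sph_rho S)^[j] p) = sph_sg S p := fun j => sph_iter_sg j p
  refine sph_gl_nodup _ _ _ ?_ ?_
  · intro j _
    unfold sph_seg
    split_ifs
    · simp
    · simp
  · intro i j hij hj x hx y hy hxy
    have hij' : (sph_rho S)^[i] p ≠ (sph_rho S)^[j] p := fun h =>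
      absurd (sph_per_inj p (hij.trans hj) hj h) (by omega)
    rcases D.sph_mem_seg hx with hx | ⟨q, hq, hx⟩ <;> rcases D.sph_mem_seg hy with hy | ⟨q', hq', hy⟩ <;>
      subst hx <;> subst hy <;> simp only at hxy
    · have h8 := sph_ch_eq (Sum.inl_injective hxy)
      have e1 := hvx i
      have e2 := hvx j
      have e3 := hco i
      have e4 := hco j
      have e5 := hsg i
      have e6 := hsg j
      set P := (sph_rho S)^[i] p
      set Q := (sph_rho S)^[j] p
      unfold sph_E8 at h8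
      rcases h8 with (h | h | h | h) | (h | h | h | h)
      · exact hij' h.symm
      · rw [h] at e2
        exact D.vtx_a P (e2.trans e1.symm)
      · rw [h, sph_sgc] at e6
        exact sph_one_add _ (e6.trans e5.symm)
      · rw [h] at e2
        refine D.vtx_a (S.hn.fc P) (e2.trans ?_)
        rw [D.vtx_c]
        exact e1.symm
      · rw [h, sph_sgM] at e6
        exact sph_one_add _ (e6.trans e5.symm)
      · rw [h] at e2
        refine D.vtx_a (S.M P) (e2.trans ?_)
        rw [D.vtx_M]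
        exact e1.symm
      · rw [h, hcc, hcM] at e4
        exact sph_one_add _ (e4.trans e3.symm)
      · rw [h] at e2
        refine D.vtx_a (S.hn.fc (S.M P)) (e2.trans ?_)
        rw [D.vtx_c, D.vtx_M]
        exact e1.symm
    · exact absurd hxy (by simp)
    · exact absurd hxy (by simp)
    · have h1 : q = q' := by
        refine D.sph_hf_eq2 hca hcb hcc ?_ ?_ ?_
        · rw [← hq, ← hq', sph_sgM, sph_sgM, hsg, hsg]
        · rw [← hq, ← hq', D.vtx_M, D.vtx_M, hvx, hvx]
        · rw [← hq, ← hq', hcM, hcM, hco, hco]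
      have h2 : S.M ((sph_rho S)^[i] p) = S.M ((sph_rho S)^[j] p) := by rw [hq, hq', h1]
      have h3 := congrArg S.M h2
      rw [S.MM, S.MM] at h3
      exact hij' h3

end co

theorem sph_nat_inj {i j : ℕ} (hi : i < m) (hj : j < m)
    (h : (0 : ZMod m) + i = 0 + j) : i = j := by
  rw [zero_add, zero_add] at h
  have := congrArg ZMod.val h
  rwa [ZMod.val_cast_of_lt hi, ZMod.val_cast_of_lt hj] at this

theorem sph_nodup_zN : (D.sph_cyN.map Prod.fst).Nodup := by
  unfold sph_cyN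
  refine sph_gl_nodup _ _ _ (fun j _ => by simp) ?_
  intro i j hij hj x hx y hy hxy
  rw [List.mem_singleton] at hx hy
  subst hx; subst hy
  simp only [D.sph_zz_eq, D.pos_hf, sph_iter_add] at hxy
  exact absurd (sph_nat_inj (hij.trans hj) hj hxy) (by omega)

theorem sph_nodup_yN : (D.sph_cyN.map Prod.snd).Nodup := by
  unfold sph_cyN
  refine sph_gl_nodup _ _ _ (fun j _ => by simp) ?_
  intro i j hij hj x hx y hy hxy
  rw [List.mem_singleton] at hx hy
  subst hx; subst hy
  simp only [sph_iter_add] at hxy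
  exact absurd (sph_nat_inj (hij.trans hj) hj (Sum.inr_injective hxy)) (by omega)

/-! ### The edges of the cells -/

theorem sph_vx_hf (q : ZMod m × F2 × F2) : sph_vx (D.hf q) = sph_vx (D.hf (sph_eq q, 1, 0)) ∨
    sph_vx (D.hf q) = sph_vx (D.hf (sph_eq q, 1, 0)) := by
  left
  have h0 : ∀ (i : ZMod m) (e s : F2), sph_vx (D.hf (i, e, s)) = sph_vx (D.hf (i, e, 0)) := by
    intro i e s
    rcases sph_F2 0 s with h | h
    · rw [h]
    · rw [h, sph_hf_c, sph_vx_c]
  obtain ⟨i, e, s⟩ := q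
  rw [h0]
  unfold sph_eq
  rcases sph_F2 0 e with h | h
  · subst h
    simp only
    rw [if_neg (by decide)]
    have h2 := D.hfb (i, 0, 0)
    simp only at h2
    rw [if_neg (by decide)] at h2
    rw [← h2, sph_vx_b]
  · have he : e = 1 := by rw [h, zero_add]
    subst he
    simp

theorem sph_memV (v : Vtx S) (y : YY S m) :
    (∃ z, (z, y) ∈ D.sph_cyV v) ↔ D.s0 y = some v ∨ s1 y = some v := by
  unfold sph_cyV
  simp only [sph_mem_gl]
  have hv := sph_vx_out v
  set p := Quot.out v with hp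
  have hvj : ∀ j, sph_vx ((sph_rho S)^[j] p) = v := fun j => (sph_iter_vx j p).trans hv
  cases y with
  | inl y =>
    have e0 : D.s0 (Sum.inl y) = some v ↔ sph_vx (Quot.out y) = v := by
      change some (sph_vx (Quot.out y)) = some v ↔ _
      rw [Option.some_inj]
    have e1' : (s1 (Sum.inl y : YY S m) : CC S) = some v ↔
        sph_vx (S.hn.fa (Quot.out y)) = v := by
      change some (sph_vx (S.hn.fa (Quot.out y))) = some v ↔ _
      rw [Option.some_inj]
    rw [e0, e1']
    constructor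
    · rintro ⟨z, j, hj, hm⟩
      rcases D.sph_mem_seg hm with h | ⟨q, _, h⟩
      · have h1 : y = sph_ch ((sph_rho S)^[j] p) := Sum.inl_injective (congrArg Prod.snd h)
        have h2 : sph_ch (Quot.out y) = sph_ch ((sph_rho S)^[j] p) := by
          rw [sph_ch_out]; exact h1
        rcases sph_vx_ch h2 with ⟨h3, _⟩ | ⟨h3, _⟩
        · left; rw [← h3, hvj]
        · right; rw [← h3, hvj]
      · exact absurd (congrArg Prod.snd h) (by simp)
    · intro h
      obtain ⟨x, hx, hxy⟩ : ∃ x, sph_vx x = v ∧ sph_ch x = y := by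
        rcases h with h | h
        · exact ⟨_, h, sph_ch_out y⟩
        · exact ⟨_, h, (sph_ch_a _).trans (sph_ch_out y)⟩
      obtain ⟨j, hj, hc⟩ := sph_ch_of_vx (p := p) (hx.trans hv.symm)
      refine ⟨D.sph_zz ((sph_rho S)^[j] p), j, hj, ?_⟩
      have h3 := D.sph_seg_mem1 ((sph_rho S)^[j] p)
      rw [← hc, hxy] at h3
      exact h3
  | inr i =>
    have e0 : D.s0 (Sum.inr i) = some v ↔ sph_vx (D.hf (i, 1, 0)) = v := by
      change some (sph_vx (D.hf (i, 1, 0))) = some v ↔ _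
      rw [Option.some_inj]
    have e1 : ¬ (s1 (Sum.inr i : YY S m) : CC S) = some v := by
      change ¬ (none = some v)
      simp
    rw [e0]
    constructor
    · rintro ⟨z, j, hj, hm⟩
      rcases D.sph_mem_seg hm with h | ⟨q, hq, h⟩
      · exact absurd (congrArg Prod.snd h) (by simp)
      · left
        have h1 : i = sph_eq q := Sum.inr_injective (congrArg Prod.snd h)
        rw [h1]
        rcases D.sph_vx_hf q with h2 | h2 <;>
          rw [← h2, ← hq, sph_vx_M, hvj]
    · intro h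
      have h := h.resolve_right e1
      obtain ⟨j, hj, hc⟩ := sph_M_of_vx (p := p) (h.trans hv.symm)
      obtain ⟨q, hq, hqi⟩ : ∃ q, S.M ((sph_rho S)^[j] p) = D.hf q ∧ sph_eq q = i := by
        have h4 := D.hfb (i, 1, 0)
        have h5 := D.hfb (i, 1, 1)
        simp only [if_true] at h4 h5
        have h6 := D.hfc (i, 1, 0)
        simp only [zero_add] at h6
        rcases hc with (hc | hc) | (hc | hc)
        · exact ⟨_, hc, by simp [sph_eq]⟩
        · exact ⟨_, hc.trans h4, by simp [sph_eq]⟩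
        · exact ⟨_, hc.trans h6, by simp [sph_eq]⟩
        · rw [h6, h5] at hc
          exact ⟨_, hc, by simp [sph_eq]⟩
      refine ⟨D.sph_zz (D.hf q), j, hj, ?_⟩
      have h3 := D.sph_seg_mem2 hq
      rw [hqi] at h3
      exact h3

theorem sph_memN (y : YY S m) :
    (∃ z, (z, y) ∈ D.sph_cyN) ↔ D.s0 y = none ∨ s1 y = none := by
  unfold sph_cyN
  simp only [sph_mem_gl, List.mem_singleton, sph_iter_add]
  cases y with
  | inl y =>
    constructor
    · rintro ⟨z, j, _, h⟩
      exact absurd (congrArg Prod.snd h) (by simp)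
    · rintro (h | h)
      · exact absurd h (by simp [s0])
      · exact absurd h (by simp [s1])
  | inr i =>
    constructor
    · intro _
      right
      rfl
    · intro _
      refine ⟨D.sph_zz (D.hf (0 + (i.val : ZMod m), 0, 0)), i.val, ZMod.val_lt i, ?_⟩
      rw [Prod.mk.injEq]
      exact ⟨rfl, by rw [zero_add, ZMod.natCast_zmod_val]⟩


/-! ### Connectedness -/

theorem sph_conn {h : Φ} (hS : S.IsGood h) (G : CC S → F2) (hG : ∀ y : YY S m, G (D.s0 y) = G (s1 y))
    (c c' : CC S) : G c = G c' := by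
  have ha : ∀ p, G (some (sph_vx (S.hn.fa p))) = G (some (sph_vx p)) := by
    intro p
    have h1 : G (some (sph_vx (Quot.out (sph_ch p)))) =
        G (some (sph_vx (S.hn.fa (Quot.out (sph_ch p))))) := hG (Sum.inl (sph_ch p))
    rcases sph_vx_ch (p := p) (x := Quot.out (sph_ch p)) (sph_ch_out _).symm with ⟨h2, h3⟩ | ⟨h2, h3⟩
    · rw [h2, h3] at h1
      exact h1.symm
    · rw [h2, h3] at h1
      exact h1
  have hinv : (fun p => G (some (sph_vx p))) ∈ Inv [S.hn.fa, S.hn.fb, S.hn.fc, S.M] := by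
    rw [mem_Inv]
    intro f hf x
    simp only [List.mem_cons, List.not_mem_nil, or_false] at hf
    rcases hf with rfl | rfl | rfl | rfl
    · exact ha x
    · simp only [sph_vx_b]
    · simp only [sph_vx_c]
    · simp only [sph_vx_M]
  have hc := hS.conn _ hinv
  have hnone : G none = G (some (sph_vx (D.hf (0, 1, 0)))) := (hG (Sum.inr 0)).symm
  have hall : ∀ c : CC S, G c = G (some (sph_vx (D.hf (0, 1, 0)))) := by
    intro c
    cases c with
    | none => exact hnone
    | some v =>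
      rw [← sph_vx_out v]
      exact hc _ _
  rw [hall c, hall c']

/-! ### Even sets of edges -/

theorem sph_ab_hf {α : Type} {F : Fl S.n → α} (ha : ∀ p, F (S.hn.fa p) = F p)
    (hb : ∀ p, F (S.hn.fb p) = F p) (i : ZMod m) (e s : F2) :
    F (D.hf (i, e, s)) = F (D.hf (0, 0, s)) := by
  have h1 : ∀ (i : ZMod m) (e : F2), F (D.hf (i, e, s)) = F (D.hf (i, 0, s)) := by
    intro i e
    rcases sph_F2 0 e with h | h
    · rw [h]
    · have h7 := D.hfa (i, 0, s)
      simp only at h7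
      rw [h, ← h7, ha]
  have h2 : ∀ i : ZMod m, F (D.hf (i + 1, 0, s)) = F (D.hf (i, 0, s)) := by
    intro i
    have h3 := D.hfb (i, 1, s)
    simp only [if_true] at h3
    rw [← h3, hb, h1]
  have h4 : ∀ k : ℕ, F (D.hf ((k : ZMod m), 0, s)) = F (D.hf (0, 0, s)) := by
    intro k
    induction k with
    | zero => simp
    | succ k ih =>
      push_cast
      rw [h2, ih]
  rw [h1, ← ZMod.natCast_zmod_val i, h4]

section co

variable {co : Fl S.n → F2} (hca : ∀ p, co (S.hn.fa p) = co p) (hcb : ∀ p, co (S.hn.fb p) = co p)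
  (hcM : ∀ p, co (S.M p) = co p) (hcc : ∀ p, co (S.hn.fc p) = co p + 1)

include hca hcb hcc in
/-- Functions on the two sides of the faces. -/
theorem sph_face_const {F : Fl S.n → F2} (ha : ∀ p, F (S.hn.fa p) = F p)
    (hb : ∀ p, F (S.hn.fb p) = F p) {p x : Fl S.n} (h : SameOrb [S.hn.fa, S.hn.fb, S.hn.fc] p x)
    (hc : co x = co p) : F x = F p := by
  have h1 := (sph_orb (P := fun x => (co x = co p → F x = F p) ∧
      (co x = co p + 1 → F (S.hn.fc x) = F p)) ?_ ?_ h).1
      ⟨fun _ => rfl, fun h => absurd h.symm (sph_one_add _)⟩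
  · exact h1.1 hc
  · intro f hf x
    simp only [List.mem_cons, List.not_mem_nil, or_false] at hf
    rcases hf with rfl | rfl | rfl
    · exact sph_aa S x
    · exact sph_bb S x
    · exact sph_cc S x
  · intro f hf x hx
    simp only [List.mem_cons, List.not_mem_nil, or_false] at hf
    rcases hf with rfl | rfl | rfl
    · rw [hca, ha, ← sph_ac, ha]
      exact hx
    · rw [hcb, hb, ← sph_bc, hb]
      exact hx
    · rw [hcc, sph_cc]
      refine ⟨fun h => hx.2 ?_, fun h => hx.1 (add_right_cancel h)⟩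
      rw [← h, sph_add_one_one]

variable [Fintype (Fl S.n)] [Fintype (Chd S)]

open Classical in
include hca hcc in
/-- The chords which end in `z` correspond to the positive flags in `z` on one side. -/
theorem sph_ends (g : Chd S → F2) (z : D.ZZ) (c0 : F2) :
    ∑ p ∈ Finset.univ.filter (fun p : Fl S.n => (sph_sg S p = 1 ∧ co p = c0) ∧ D.sph_zz p = z),
        g (sph_ch p) =
      ∑ c : Chd S, if D.e0 (Sum.inl c) = z ∨ D.e1 (Sum.inl c) = z then g c else 0 := by
  rw [← Finset.sum_filter]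
  refine Finset.sum_nbij sph_ch ?_ ?_ ?_ (fun _ _ => rfl)
  · intro p hp
    rw [Finset.mem_filter] at hp ⊢
    refine ⟨Finset.mem_univ _, ?_⟩
    rcases D.sph_joins_ch p with ⟨h1, h2⟩ | ⟨h1, h2⟩
    · left; rw [h1]; exact hp.2.2
    · right; rw [h2]; exact hp.2.2
  · intro p hp x hx hpx
    have hp := (Finset.mem_filter.1 hp).2
    have hx := (Finset.mem_filter.1 hx).2
    have h8 := sph_ch_eq hpx
    have hpos : D.pos x = D.pos p := D.sph_zz_eq.1 (hx.2.trans hp.2.symm)
    have hsg : sph_sg S x = sph_sg S p := hx.1.1.trans hp.1.1.symm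
    have hco : co x = co p := hx.1.2.trans hp.1.2.symm
    unfold sph_E8 at h8
    rcases h8 with (h | h | h | h) | (h | h | h | h)
    · exact h.symm
    · rw [h, sph_sga] at hsg
      exact absurd hsg (sph_one_add _)
    · rw [h, hcc] at hco
      exact absurd hco (sph_one_add _)
    · rw [h, hca, hcc] at hco
      exact absurd hco (sph_one_add _)
    · rw [h] at hpos
      exact absurd hpos (D.pos_M p)
    · rw [h, D.pos_a] at hpos
      exact absurd hpos (D.pos_M p)
    · rw [h, D.pos_c] at hpos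
      exact absurd hpos (D.pos_M p)
    · rw [h, D.pos_a, D.pos_c] at hpos
      exact absurd hpos (D.pos_M p)
  · intro c hc
    have hc := (Finset.mem_filter.1 hc).2
    obtain ⟨x, hx1, hx2⟩ : ∃ x, D.sph_zz x = z ∧ sph_ch x = c := by
      rcases hc with h | h
      · exact ⟨Quot.out c, h, sph_ch_out c⟩
      · exact ⟨S.M (Quot.out c), h, (sph_ch_M _).trans (sph_ch_out c)⟩
    obtain ⟨x1, hx3, hx4, hx5⟩ : ∃ x, D.sph_zz x = z ∧ sph_ch x = c ∧ co x = c0 := by
      rcases sph_F2 (co x) c0 with h | h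
      · exact ⟨x, hx1, hx2, h.symm⟩
      · exact ⟨S.hn.fc x, (D.sph_zz_eq.2 (D.pos_c x)).trans hx1, (sph_ch_c x).trans hx2,
          (hcc x).trans h.symm⟩
    obtain ⟨x2, hx6, hx7, hx8, hx9⟩ : ∃ x, D.sph_zz x = z ∧ sph_ch x = c ∧ co x = c0 ∧
        sph_sg S x = 1 := by
      rcases sph_F2 (sph_sg S x1) 1 with h | h
      · exact ⟨x1, hx3, hx4, hx5, h.symm⟩
      · exact ⟨S.hn.fa x1, (D.sph_zz_eq.2 (D.pos_a x1)).trans hx3, (sph_ch_a x1).trans hx4,
          (hca x1).trans hx5, (sph_sga S x1).trans h.symm⟩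
    exact ⟨x2, by simp [hx6, hx8, hx9], hx7⟩

end co

/-- The position of the edge `i` of the special face. -/
def sph_zi (i : ZMod m) : D.ZZ := D.sph_zz (D.hf (i, 0, 0))

theorem sph_zi_inj : Function.Injective D.sph_zi := by
  intro i j h
  exact (D.pos_hf _ _).1 (D.sph_zz_eq.1 h)

theorem sph_zz_hf (q : ZMod m × F2 × F2) : D.sph_zz (D.hf q) = D.sph_zi q.1 :=
  D.sph_zz_eq.2 ((D.pos_hf _ _).2 rfl)

theorem sph_special_of {x : Fl S.n} {i : ZMod m} (h : D.sph_zz x = D.sph_zi i) :
    ∃ q, x = D.hf q ∧ q.1 = i := by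
  by_cases h' : ∃ q, x = D.hf q
  · obtain ⟨q, rfl⟩ := h'
    exact ⟨q, rfl, (D.pos_hf _ _).1 (D.sph_zz_eq.1 h)⟩
  · exact absurd (D.sph_zz_eq.1 h) (D.pos_ne _ _ fun q hq => h' ⟨q, hq⟩)

open Classical in
/-- The edges of the special cell which end in the position `z`. -/
theorem sph_in_ends (g : ZMod m → F2) (j : ZMod m) :
    (∑ i : ZMod m, if D.e0 (Sum.inr i) = D.sph_zi j ∨ D.e1 (Sum.inr i) = D.sph_zi j then g i
      else 0) = g j + g (j - 1) := by
  have h0 : ∀ i : ZMod m, D.e0 (Sum.inr i) = D.sph_zi i := fun i => D.sph_zz_hf (i, 1, 0)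
  have h1 : ∀ i : ZMod m, D.e1 (Sum.inr i) = D.sph_zi (i + 1) := fun i => rfl
  have hne : ∀ i : ZMod m, i + 1 ≠ i := by
    intro i h
    exact D.sph_one_ne (add_eq_left.1 h)
  have h2 : ∀ i : ZMod m, (if D.e0 (Sum.inr i) = D.sph_zi j ∨ D.e1 (Sum.inr i) = D.sph_zi j
      then g i else 0) = (if i = j then g i else 0) + (if i = j - 1 then g i else 0) := by
    intro i
    have e : (D.e0 (Sum.inr i) = D.sph_zi j ∨ D.e1 (Sum.inr i) = D.sph_zi j) ↔
        (i = j ∨ i = j - 1) := by
      rw [h0, h1, D.sph_zi_inj.eq_iff, D.sph_zi_inj.eq_iff, eq_sub_iff_add_eq]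
    rw [if_congr e rfl rfl]
    by_cases hi : i = j
    · have hi' : ¬ i = j - 1 := by
        intro h
        rw [eq_sub_iff_add_eq] at h
        exact hne i (h.trans hi.symm)
      rw [if_pos (Or.inl hi), if_pos hi, if_neg hi', add_zero]
    · by_cases hi' : i = j - 1
      · rw [if_pos (Or.inr hi'), if_neg hi, if_pos hi', zero_add]
      · rw [if_neg (by tauto), if_neg hi, if_neg hi', add_zero]
  rw [Finset.sum_congr rfl fun i _ => h2 i, Finset.sum_add_distrib, Finset.sum_ite_eq',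
    Finset.sum_ite_eq', if_pos (Finset.mem_univ _), if_pos (Finset.mem_univ _)]

open Classical in
/-- The only chord in the position of the edge `j` of the special face. -/
theorem sph_ch_ends [Fintype (Chd S)] (g : Chd S → F2) (j : ZMod m) :
    (∑ c : Chd S, if D.e0 (Sum.inl c) = D.sph_zi j ∨ D.e1 (Sum.inl c) = D.sph_zi j then g c
      else 0) = g (sph_ch (D.hf (j, 0, 0))) := by
  have h1 : ∀ c : Chd S, (D.e0 (Sum.inl c) = D.sph_zi j ∨ D.e1 (Sum.inl c) = D.sph_zi j) ↔
      c = sph_ch (D.hf (j, 0, 0)) := by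
    intro c
    constructor
    · intro hc
      obtain ⟨x, hx1, hx2⟩ : ∃ x, D.sph_zz x = D.sph_zi j ∧ sph_ch x = c := by
        rcases hc with h | h
        · exact ⟨Quot.out c, h, sph_ch_out c⟩
        · exact ⟨S.M (Quot.out c), h, (sph_ch_M _).trans (sph_ch_out c)⟩
      obtain ⟨⟨i, e, s⟩, rfl, hq⟩ := D.sph_special_of hx1
      simp only at hq
      subst hq
      rw [← hx2]
      have h3 : ∀ e s, sph_ch (D.hf (i, e, s)) = sph_ch (D.hf (i, e, 0)) := by
        intro e s
        rcases sph_F2 0 s with h | h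
        · rw [h]
        · rw [h, sph_hf_c, sph_ch_c]
      rw [h3]
      rcases sph_F2 0 e with h | h
      · rw [h]
      · have h7 := D.hfa (i, 0, 0)
        simp only at h7
        rw [h, ← h7, sph_ch_a]
    · rintro rfl
      rcases D.sph_joins_ch (D.hf (j, 0, 0)) with ⟨h2, _⟩ | ⟨_, h2⟩
      · exact Or.inl h2
      · exact Or.inr h2
  simp only [h1]
  rw [Finset.sum_ite_eq', if_pos (Finset.mem_univ _)]

open Classical in
theorem sph_ex {h : Φ} (hS : S.IsGood h) (g : YY S m → F2)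
    (hg : ∀ z : D.ZZ, ∑ y : YY S m, (if D.e0 y = z ∨ D.e1 y = z then g y else 0) = 0) :
    ∃ G : CC S → F2, ∀ y, g y = G (D.s0 y) + G (s1 y) := by
  haveI := S.fin
  letI := Fintype.ofFinite (Fl S.n)
  haveI : Finite (Chd S) := Quot.finite _
  letI := Fintype.ofFinite (Chd S)
  obtain ⟨co, hca, hcb, hcM, hcc⟩ := hS.exists_co
  -- evenness, with the two kinds of edges separated
  have hsplit : ∀ F : YY S m → F2, ∑ y, F y = ∑ c : Chd S, F (Sum.inl c) + ∑ i : ZMod m, F (Sum.inr i) := by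
    intro F
    refine Eq.trans ?_ (Fintype.sum_sum_type F)
    refine Finset.sum_congr ?_ fun _ _ => rfl
    ext x
    exact ⟨fun _ => @Finset.mem_univ _ (_) x, fun _ => @Finset.mem_univ _ (_) x⟩
  have hg' : ∀ z : D.ZZ,
      (∑ c : Chd S, if D.e0 (Sum.inl c) = z ∨ D.e1 (Sum.inl c) = z then g (Sum.inl c) else 0) =
      ∑ i : ZMod m, if D.e0 (Sum.inr i) = z ∨ D.e1 (Sum.inr i) = z then g (Sum.inr i) else 0 := by
    intro z
    have h1 := hg z
    rw [hsplit] at h1
    have h2 := ops_eq_of_add h1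
    exact h2.symm
  have hz1 : ∀ j : ZMod m, g (Sum.inl (sph_ch (D.hf (j, 0, 0)))) =
      g (Sum.inr j) + g (Sum.inr (j - 1)) := by
    intro j
    have h1 := hg' (D.sph_zi j)
    rw [D.sph_ch_ends (fun c => g (Sum.inl c)), D.sph_in_ends (fun i => g (Sum.inr i))] at h1
    exact h1
  set κ : Fl S.n → F2 := fun p => g (Sum.inl (sph_ch p)) with hκ
  have hκa : ∀ p, κ (S.hn.fa p) = κ p := fun p => by simp only [hκ, sph_ch_a]
  have hκc : ∀ p, κ (S.hn.fc p) = κ p := fun p => by simp only [hκ, sph_ch_c]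
  have hκM : ∀ p, κ (S.M p) = κ p := fun p => by simp only [hκ, sph_ch_M]
  haveI : Finite D.ZZ := by
    refine Finite.of_surjective (fun p : Fl S.n => D.sph_zz p) ?_
    rintro ⟨z, p, rfl⟩
    exact ⟨p, rfl⟩
  letI := Fintype.ofFinite D.ZZ
  obtain ⟨G0, hGb, hGc, hGM, hGa⟩ := hS.exact hκa hκc hκM (by
    intro g' ha hb
    -- one side
    have hside : ∀ c0 : F2, ∑ p ∈ Finset.univ.filter (fun p : Fl S.n => sph_sg S p = 1 ∧ co p = c0),
        κ p * g' p = 0 := by
      intro c0
      rw [← Finset.sum_fiberwise (Finset.univ.filter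
        (fun p : Fl S.n => sph_sg S p = 1 ∧ co p = c0)) D.sph_zz]
      simp only [Finset.filter_filter]
      have hW : ∀ (z : D.ZZ) (γ : F2), (∀ p, (sph_sg S p = 1 ∧ co p = c0) ∧ D.sph_zz p = z →
          g' p = γ) → ∑ p ∈ Finset.univ.filter
            (fun p : Fl S.n => (sph_sg S p = 1 ∧ co p = c0) ∧ D.sph_zz p = z), κ p * g' p =
          (∑ i : ZMod m, if D.e0 (Sum.inr i) = z ∨ D.e1 (Sum.inr i) = z then g (Sum.inr i)
            else 0) * γ := by
        intro z γ hγ
        rw [← hg' z, ← D.sph_ends hca hcc (fun c => g (Sum.inl c)) z c0, Finset.sum_mul]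
        refine Finset.sum_congr rfl fun p hp => ?_
        rw [hγ p (Finset.mem_filter.1 hp).2]
      have hns : ∀ z : D.ZZ, z ∉ Finset.univ.image D.sph_zi →
          ∑ p ∈ Finset.univ.filter
            (fun p : Fl S.n => (sph_sg S p = 1 ∧ co p = c0) ∧ D.sph_zz p = z), κ p * g' p = 0 := by
        intro z hz
        have hz' : ∀ i, z ≠ D.sph_zi i := by
          intro i hi
          exact hz (Finset.mem_image.2 ⟨i, Finset.mem_univ _, hi.symm⟩)
        have hin : (∑ i : ZMod m, if D.e0 (Sum.inr i) = z ∨ D.e1 (Sum.inr i) = z then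
            g (Sum.inr i) else 0) = 0 := by
          refine Finset.sum_eq_zero fun i _ => ?_
          have h0 : D.e0 (Sum.inr i) = D.sph_zi i := D.sph_zz_hf (i, 1, 0)
          have h1 : D.e1 (Sum.inr i) = D.sph_zi (i + 1) := rfl
          rw [if_neg]
          rintro (h | h)
          · exact hz' i (h.symm.trans h0)
          · exact hz' (i + 1) (h.symm.trans h1)
        by_cases hex : ∃ p, (sph_sg S p = 1 ∧ co p = c0) ∧ D.sph_zz p = z
        · obtain ⟨p0, hp0⟩ := hex
          rw [hW z (g' p0), hin, zero_mul]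
          intro p hp
          have hns : ∀ x, D.sph_zz x = z → ∀ q, x ≠ D.hf q := by
            intro x hx q hq
            subst hq
            exact hz' q.1 (hx.symm.trans (D.sph_zz_hf q))
          refine sph_face_const hca hcb hcc ha hb (D.pos_inj p0 p (hns _ hp0.2) (hns _ hp.2)
            (D.sph_zz_eq.1 (hp0.2.trans hp.2.symm))) (hp.1.2.trans hp0.1.2.symm)
        · refine Finset.sum_eq_zero fun p hp => ?_
          exact absurd ⟨p, (Finset.mem_filter.1 hp).2⟩ hex
      rw [← Finset.sum_subset (Finset.subset_univ (Finset.univ.image D.sph_zi))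
        (fun z _ hz => hns z hz), Finset.sum_image (fun i _ j _ hij => D.sph_zi_inj hij)]
      -- the special positions
      have hγ : ∀ i : ZMod m, ∑ p ∈ Finset.univ.filter
            (fun p : Fl S.n => (sph_sg S p = 1 ∧ co p = c0) ∧ D.sph_zz p = D.sph_zi i),
            κ p * g' p = (g (Sum.inr i) + g (Sum.inr (i - 1))) *
              g' (D.hf (0, 0, c0 - co (D.hf (0, 0, 0)))) := by
        intro i
        rw [hW (D.sph_zi i) (g' (D.hf (0, 0, c0 - co (D.hf (0, 0, 0))))),
          D.sph_in_ends (fun i => g (Sum.inr i))]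
        intro p hp
        obtain ⟨⟨j, e, s⟩, rfl, _⟩ := D.sph_special_of hp.2
        have h3 := hp.1.2
        rw [D.sph_co_hf hca hcb hcc j e s] at h3
        have h4 : s = c0 - co (D.hf (0, 0, 0)) := by rw [← h3]; ring
        rw [D.sph_ab_hf ha hb, h4]
      rw [Finset.sum_congr rfl fun i _ => hγ i, ← Finset.sum_mul, Finset.sum_add_distrib]
      have h5 : ∑ i : ZMod m, g (Sum.inr (i - 1)) = ∑ i : ZMod m, g (Sum.inr i) :=
        Fintype.sum_equiv (Equiv.subRight (1 : ZMod m)) _ _ (fun i => rfl)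
      rw [h5, CharTwo.add_self_eq_zero, zero_mul]
    have h0 := hside 0
    have h1 := hside 1
    have h2 : ∑ p ∈ Finset.univ.filter (fun p : Fl S.n => sph_sg S p = 1), κ p * g' p = 0 := by
      rw [← Finset.sum_filter_add_sum_filter_not _ (fun p : Fl S.n => co p = 0),
        Finset.filter_filter, Finset.filter_filter, h0, zero_add]
      have h3 : ∀ p : Fl S.n, (sph_sg S p = 1 ∧ ¬ co p = 0) ↔ (sph_sg S p = 1 ∧ co p = 1) := by
        intro p
        have : (¬ co p = 0) ↔ co p = 1 := by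
          generalize co p = x
          revert x; decide
        rw [this]
      rw [Finset.filter_congr fun p _ => h3 p]
      exact h1
    refine Eq.trans ?_ h2
    refine Finset.sum_congr ?_ fun _ _ => rfl
    ext p
    rw [Finset.mem_filter, Finset.mem_filter]
    rfl)
  have hGv : ∀ {p x : Fl S.n}, sph_vx p = sph_vx x → G0 x = G0 p := by
    intro p x hpx
    refine (sph_orb (P := fun z => G0 z = G0 p) ?_ ?_ (Quot.eqvGen_exact hpx)).1 rfl
    · intro f hf x
      simp only [List.mem_cons, List.not_mem_nil, or_false] at hf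
      rcases hf with rfl | rfl | rfl
      · exact sph_bb S x
      · exact sph_cc S x
      · exact S.MM x
    · intro f hf x hx
      simp only [List.mem_cons, List.not_mem_nil, or_false] at hf
      rcases hf with rfl | rfl | rfl
      · rw [hGb, hx]
      · rw [hGc, hx]
      · rw [hGM, hx]
  set u : ZMod m → F2 := fun i => g (Sum.inr i) + G0 (D.hf (i, 1, 0)) with hu
  have hu1 : ∀ i, u (i + 1) = u i := by
    intro i
    have h1 := hz1 (i + 1)
    have h2 := hGa (D.hf (i + 1, 0, 0))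
    have h3 := D.hfa (i + 1, 0, 0)
    simp only [zero_add] at h3
    have h4 := D.hfb (i, 1, 0)
    simp only [if_true] at h4
    rw [h3, ← h4, hGb] at h2
    have h5 : κ (D.hf (i + 1, 0, 0)) = g (Sum.inr (i + 1)) + g (Sum.inr i) := by
      simp only [hκ]
      rw [h1, add_sub_cancel_right]
    rw [h4, h5] at h2
    simp only [hu]
    clear h1 h5 hz1 hg' hg
    generalize g (Sum.inr (i + 1)) = a at *
    generalize g (Sum.inr i) = b at *
    generalize G0 (D.hf (i + 1, 1, 0)) = c at *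
    generalize G0 (D.hf (i, 1, 0)) = d at *
    revert h2
    revert a b c d
    decide
  have hu2 : ∀ i, u i = u 0 := by
    have h1 : ∀ k : ℕ, u (k : ZMod m) = u 0 := by
      intro k
      induction k with
      | zero => simp
      | succ k ih => push_cast; rw [hu1, ih]
    intro i
    rw [← ZMod.natCast_zmod_val i, h1]
  refine ⟨fun c => c.elim (u 0) (fun v => G0 (Quot.out v)), fun y => ?_⟩
  cases y with
  | inl c =>
    have h1 : g (Sum.inl c) = κ (Quot.out c) := by simp only [hκ, sph_ch_out]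
    have h2 : G0 (Quot.out (sph_vx (Quot.out c))) = G0 (Quot.out c) := hGv (sph_vx_out _).symm
    have h3 : G0 (Quot.out (sph_vx (S.hn.fa (Quot.out c)))) = G0 (S.hn.fa (Quot.out c)) :=
      hGv (sph_vx_out _).symm
    change g (Sum.inl c) = G0 (Quot.out (sph_vx (Quot.out c))) +
      G0 (Quot.out (sph_vx (S.hn.fa (Quot.out c))))
    rw [h1, h2, h3, hGa]
  | inr i =>
    have h2 : G0 (Quot.out (sph_vx (D.hf (i, 1, 0)))) = G0 (D.hf (i, 1, 0)) :=
      hGv (sph_vx_out _).symm
    change g (Sum.inr i) = G0 (Quot.out (sph_vx (D.hf (i, 1, 0)))) + u 0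
    rw [h2, ← hu2 i]
    simp only [hu]
    rw [add_comm (g _), ← add_assoc, CharTwo.add_self_eq_zero, zero_add]

open Classical in
/-- **The dual cell decomposition.** -/
theorem exists_cellSphere {h : Φ} (hS : S.IsGood h) :
    ∃ K : CellSphere D.ZZ (YY S m) (CC S), K.e0 = D.e0 ∧ K.e1 = D.e1 ∧ K.s0 = D.s0 ∧
      K.s1 = s1 := by
  obtain ⟨co, hca, hcb, hcM, hcc⟩ := hS.exists_co
  refine ⟨{
    e0 := D.e0
    e1 := D.e1
    s0 := D.s0
    s1 := s1
    ne_e := ?_
    ne_s := ?_
    cyc := fun c => c.elim D.sph_cyN D.sph_cyV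
    cyc_ne := ?_
    mem_cyc := ?_
    nodup_z := ?_
    nodup_y := ?_
    closed := ?_
    conn := D.sph_conn hS
    ex := D.sph_ex hS }, rfl, rfl, rfl, rfl⟩
  · intro y
    cases y with
    | inl c =>
      intro h
      exact D.pos_M _ (D.sph_zz_eq.1 (show D.sph_zz (Quot.out c) = D.sph_zz (S.M (Quot.out c))
        from h)).symm
    | inr i =>
      intro h
      have h0 : D.e0 (Sum.inr i) = D.sph_zi i := D.sph_zz_hf (i, 1, 0)
      have h1 : D.e1 (Sum.inr i) = D.sph_zi (i + 1) := rfl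
      rw [h0, h1] at h
      have h2 := D.sph_zi_inj h
      exact D.sph_one_ne (left_eq_add.1 h2)
  · intro y
    cases y with
    | inl c =>
      intro h
      have h1 : sph_vx (Quot.out c) = sph_vx (S.hn.fa (Quot.out c)) := Option.some_inj.1 h
      exact D.vtx_a _ (D.sph_vtx_vx h1).symm
    | inr i =>
      intro h
      exact absurd h (by simp [s0, s1])
  · intro c
    cases c with
    | none =>
      intro h
      have h1 : (∃ z, (z, (Sum.inr 0 : YY S m)) ∈ D.sph_cyN) := (D.sph_memN _).2 (Or.inr rfl)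
      obtain ⟨z, hz⟩ := h1
      have h' : D.sph_cyN = [] := h
      rw [h'] at hz
      simp at hz
    | some v =>
      intro h
      have h1 : D.sph_cyV v = [] := h
      have h2 : ∃ z, (z, (Sum.inl (sph_ch (Quot.out v)) : YY S m)) ∈ D.sph_cyV v := by
        rw [D.sph_memV]
        rcases sph_vx_ch (p := Quot.out v) (x := Quot.out (sph_ch (Quot.out v)))
          (sph_ch_out _).symm with ⟨h3, _⟩ | ⟨_, h3⟩
        · left
          change some (sph_vx (Quot.out (sph_ch (Quot.out v)))) = some v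
          rw [h3, sph_vx_out]
        · right
          change some (sph_vx (S.hn.fa (Quot.out (sph_ch (Quot.out v))))) = some v
          rw [h3, sph_vx_out]
      obtain ⟨z, hz⟩ := h2
      rw [h1] at hz
      simp at hz
  · intro c y
    cases c with
    | none => exact D.sph_memN y
    | some v => exact D.sph_memV v y
  · intro c
    cases c with
    | none => exact D.sph_nodup_zN
    | some v => exact D.sph_nodup_zV hca hcb hcM hcc v
  · intro c
    cases c with
    | none => exact D.sph_nodup_yN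
    | some v => exact D.sph_nodup_yV hca hcb hcM hcc v
  · intro c a l h
    cases c with
    | none => exact D.sph_closedN a l h
    | some v => exact D.sph_closedV v a l h

end SPos

end Pool.Agent.Lib.MP_131179_gt.Dehn
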