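import Pool.Agent.Lib.MP_131179_gt.Dehn.LinAlg

/-!
# Two-dimensional complexes in three-dimensional space

A flag is a triple (vertex, edge, face, side of the face).  `a` goes to the other vertex of the edge,
`b` to the other edge of the face at the vertex, `c` to the other side of the face and `d` rotates
around the edge to the neighbouring face.  Vertices are the orbits of `b, c, d`, edges the orbits
of `a, c, d`, faces the orbits of `a, b, c`, and the boundary components of a neighbourhood are the
orbits of `a, b, d`.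
-/

set_option autoImplicit false

namespace Pool.Agent.Lib.MP_131179_gt.Dehn

/-- A two-dimensional complex in three-dimensional space. -/
structure TMap (Φ : Type) where
  a : Φ → Φ
  b : Φ → Φ
  c : Φ → Φ
  d : Φ → Φ
  /-- orientation -/
  sg : Φ → F2
  /-- the end of the edge -/
  en : Φ → F2
  /-- the side of the face -/
  sd : Φ → F2
  aa : ∀ x, a (a x) = x
  bb : ∀ x, b (b x) = x
  cc : ∀ x, c (c x) = x
  dd : ∀ x, d (d x) = x
  ac : ∀ x, a (c x) = c (a x)
  ad : ∀ x, a (d x) = d (a x)
  bc : ∀ x, b (c x) = c (b x)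
  sga : ∀ x, sg (a x) = sg x + 1
  sgb : ∀ x, sg (b x) = sg x + 1
  sgc : ∀ x, sg (c x) = sg x + 1
  sgd : ∀ x, sg (d x) = sg x + 1
  ena : ∀ x, en (a x) = en x + 1
  enc : ∀ x, en (c x) = en x
  end' : ∀ x, en (d x) = en x
  sda : ∀ x, sd (a x) = sd x
  sdb : ∀ x, sd (b x) = sd x
  sdc : ∀ x, sd (c x) = sd x + 1
  /-- only finitely many faces meet at an edge -/
  per : ∀ x, ∃ n, 0 < n ∧ (fun y => d (c y))^[n] x = x
  /-- the links of the vertices are planar -/
  planar : ∀ g D : Φ → F2, (∀ x, g (b x) = g x) → (∀ x, g (c x) = g x) →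
    (∀ x, D (d x) = D x) → (∀ x, D x + D (c x) = g x) →
    ∃ G : Φ → F2, (∀ x, G (b x) = G x) ∧ (∀ x, G (d x) = G x) ∧ ∀ x, G x + G (c x) = g x

namespace TMap

variable {Φ : Type} (V : TMap Φ)

/-- `x` and `y` belong to the same end of the same edge. -/
def CD (x y : Φ) : Prop := SameOrb [V.c, V.d] x y

theorem a_ne (x : Φ) : V.a x ≠ x := fun h => by
  have := V.sga x; rw [h] at this; simp at this

theorem b_ne (x : Φ) : V.b x ≠ x := fun h => by
  have := V.sgb x; rw [h] at this; simp at this

theorem c_ne (x : Φ) : V.c x ≠ x := fun h => by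
  have := V.sgc x; rw [h] at this; simp at this

theorem d_ne (x : Φ) : V.d x ≠ x := fun h => by
  have := V.sgd x; rw [h] at this; simp at this

theorem CD.refl (x : Φ) : V.CD x x := Relation.EqvGen.refl _

variable {V}

theorem CD.symm {x y : Φ} (h : V.CD x y) : V.CD y x := Relation.EqvGen.symm _ _ h

theorem CD.trans {x y z : Φ} (h : V.CD x y) (h' : V.CD y z) : V.CD x z :=
  Relation.EqvGen.trans _ _ _ h h'

variable (V)

theorem CD.c (x : Φ) : V.CD x (V.c x) := Relation.EqvGen.rel _ _ ⟨V.c, by simp, rfl⟩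

theorem CD.d (x : Φ) : V.CD x (V.d x) := Relation.EqvGen.rel _ _ ⟨V.d, by simp, rfl⟩

end TMap

end Pool.Agent.Lib.MP_131179_gt.Dehn
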