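import Pool.Agent.Lib.MP_131179_gt.Dehn.Null
import Pool.Agent.Lib.MP_131179_gt.Dehn.Good

/-!
# The top of the tower
-/

set_option autoImplicit false

namespace Pool.Agent.Lib.MP_131179_gt.Dehn

/-! ### Linear algebra -/

/-- `G ↦ G + G ∘ c`. -/
def toplevel_T {Φ : Type} (c : Φ → Φ) : (Φ → F2) →ₗ[F2] (Φ → F2) where
  toFun G x := G x + G (c x)
  map_add' G H := by
    funext x
    simp only [Pi.add_apply]
    ring
  map_smul' r G := by
    funext x
    simp only [Pi.smul_apply, smul_eq_mul, RingHom.id_apply]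
    ring

theorem toplevel_T_apply {Φ : Type} (c : Φ → Φ) (G : Φ → F2) (x : Φ) :
    toplevel_T c G x = G x + G (c x) := rfl

theorem toplevel_add_eq_zero {a b : F2} : a + b = 0 ↔ b = a := by
  revert a b
  decide

theorem toplevel_rank {Φ : Type} [Finite Φ] (c : Φ → Φ) (s : List (Φ → Φ)) :
    Module.finrank F2 (Submodule.map (toplevel_T c) (Inv s)) + orb (c :: s) = orb s := by
  have h1 := LinearMap.finrank_range_add_finrank_ker ((toplevel_T c).domRestrict (Inv s))
  rw [LinearMap.range_domRestrict] at h1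
  have h2 : Module.finrank F2 (LinearMap.ker ((toplevel_T c).domRestrict (Inv s))) =
      orb (c :: s) := by
    unfold orb
    rw [← Submodule.finrank_map_subtype_eq]
    refine congrArg (fun S : Submodule F2 (Φ → F2) => Module.finrank F2 S) ?_
    ext g
    simp only [Submodule.mem_map, LinearMap.mem_ker, Submodule.subtype_apply, Subtype.exists,
      exists_and_right, exists_eq_right]
    constructor
    · rintro ⟨hg, h0⟩
      rw [mem_Inv]
      intro f hf x
      rcases List.mem_cons.1 hf with rfl | hf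
      · have h3 := congrFun h0 x
        exact toplevel_add_eq_zero.1 h3
      · exact hg f hf x
    · intro hg
      rw [mem_Inv] at hg
      refine ⟨fun f hf x => hg f (List.mem_cons_of_mem _ hf) x, ?_⟩
      funext x
      exact toplevel_add_eq_zero.2 (hg c (List.mem_cons_self ..) x)
  rw [h2] at h1
  exact h1

/-- The pairing. -/
def toplevel_B {Φ : Type} (F : Finset Φ) : (Φ → F2) →ₗ[F2] (Φ → F2) →ₗ[F2] F2 :=
  LinearMap.mk₂ F2 (fun κ z => ∑ y ∈ F, κ y * z y)
    (by
      intro a b z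
      simp only [Pi.add_apply, add_mul, Finset.sum_add_distrib])
    (by
      intro r a z
      simp only [Pi.smul_apply, smul_eq_mul, mul_assoc, Finset.mul_sum])
    (by
      intro a b z
      simp only [Pi.add_apply, mul_add, Finset.sum_add_distrib])
    (by
      intro r a z
      simp only [Pi.smul_apply, smul_eq_mul, Finset.mul_sum]
      refine Finset.sum_congr rfl fun y _ => ?_
      ring)

theorem toplevel_B_apply {Φ : Type} (F : Finset Φ) (κ z : Φ → F2) :
    toplevel_B F κ z = ∑ y ∈ F, κ y * z y := rfl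

/-- The right annihilator inside `U`. -/
def toplevel_Z {Φ : Type} (F : Finset Φ) (W U : Submodule F2 (Φ → F2)) : Submodule F2 (Φ → F2) where
  carrier := {z | z ∈ U ∧ ∀ κ ∈ W, toplevel_B F κ z = 0}
  zero_mem' := ⟨U.zero_mem, fun κ _ => by rw [map_zero]⟩
  add_mem' := fun {a b} ha hb => ⟨U.add_mem ha.1 hb.1, fun κ hκ => by
    rw [map_add, ha.2 κ hκ, hb.2 κ hκ, add_zero]⟩
  smul_mem' := fun r a ha => ⟨U.smul_mem r ha.1, fun κ hκ => by
    rw [map_smul, ha.2 κ hκ, smul_zero]⟩

/-- The left annihilator inside `W`. -/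
def toplevel_L {Φ : Type} (F : Finset Φ) (W U : Submodule F2 (Φ → F2)) : Submodule F2 (Φ → F2) where
  carrier := {κ | κ ∈ W ∧ ∀ z ∈ U, toplevel_B F κ z = 0}
  zero_mem' := ⟨W.zero_mem, fun κ _ => by rw [map_zero]; rfl⟩
  add_mem' := fun {a b} ha hb => ⟨W.add_mem ha.1 hb.1, fun κ hκ => by
    rw [map_add, LinearMap.add_apply, ha.2 κ hκ, hb.2 κ hκ, add_zero]⟩
  smul_mem' := fun r a ha => ⟨W.smul_mem r ha.1, fun κ hκ => by
    rw [map_smul, LinearMap.smul_apply, ha.2 κ hκ, smul_zero]⟩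

theorem toplevel_pair {Φ : Type} [Finite Φ] (F : Finset Φ) (W U : Submodule F2 (Φ → F2)) :
    Module.finrank F2 W + Module.finrank F2 (toplevel_Z F W U) ≤
      Module.finrank F2 U + Module.finrank F2 (toplevel_L F W U) := by
  -- the map from `W` to the dual of `U`
  let P : W →ₗ[F2] Module.Dual F2 U :=
    (LinearMap.lcomp F2 F2 U.subtype).comp ((toplevel_B F).comp W.subtype)
  have hP : ∀ (κ : W) (z : U), P κ z = toplevel_B F κ.1 z.1 := fun _ _ => rfl
  let Z' : Submodule F2 U := Submodule.comap U.subtype (toplevel_Z F W U)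
  have hZ' : Module.finrank F2 Z' = Module.finrank F2 (toplevel_Z F W U) := by
    have h1 : toplevel_Z F W U ≤ U := fun z hz => hz.1
    exact (Submodule.comapSubtypeEquivOfLe h1).finrank_eq
  have h1 := LinearMap.finrank_range_add_finrank_ker P
  have h2 : Module.finrank F2 (LinearMap.ker P) = Module.finrank F2 (toplevel_L F W U) := by
    rw [← Submodule.finrank_map_subtype_eq]
    refine congrArg (fun S : Submodule F2 (Φ → F2) => Module.finrank F2 S) ?_
    ext κ
    simp only [Submodule.mem_map, LinearMap.mem_ker, Submodule.subtype_apply, Subtype.exists,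
      exists_and_right, exists_eq_right]
    constructor
    · rintro ⟨hκ, h0⟩
      exact ⟨hκ, fun z hz => LinearMap.congr_fun h0 (⟨z, hz⟩ : U)⟩
    · rintro ⟨hκ, h0⟩
      refine ⟨hκ, ?_⟩
      ext z
      exact h0 z.1 z.2
  have h3 : LinearMap.range P ≤ Z'.dualAnnihilator := by
    rintro _ ⟨κ, rfl⟩
    rw [Submodule.mem_dualAnnihilator]
    intro z hz
    rw [hP]
    exact hz.2 κ.1 κ.2
  have h4 := Submodule.finrank_mono h3
  have h5 := Subspace.finrank_add_finrank_dualAnnihilator_eq Z'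
  omega

namespace TMap

variable {Φ : Type} (V : TMap Φ)

/-- A function on the set of edges whose sum over the boundary of each face is zero. -/
structure Closed (κ : Φ → F2) : Prop where
  a : ∀ x, κ (V.a x) = κ x
  c : ∀ x, κ (V.c x) = κ x
  d : ∀ x, κ (V.d x) = κ x
  ex : ∃ u : Φ → F2, (∀ x, u (V.b x) = u x) ∧ (∀ x, u (V.c x) = u x) ∧
    ∀ x, u x + u (V.a x) = κ x

/-- The first cohomology group is zero. -/
def H1zero : Prop := ∀ κ, V.Closed κ → ∃ p : Φ → F2, (∀ x, p (V.b x) = p x) ∧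
  (∀ x, p (V.c x) = p x) ∧ (∀ x, p (V.d x) = p x) ∧ ∀ x, p x + p (V.a x) = κ x


/-! ### Counting -/

theorem toplevel_Inv_swap {s s' : List (Φ → Φ)} (h : ∀ f, f ∈ s ↔ f ∈ s') (g : Φ → F2) :
    g ∈ Inv s ↔ g ∈ Inv s' := by
  rw [mem_Inv, mem_Inv]
  exact ⟨fun hg f hf => hg f ((h f).2 hf), fun hg f hf => hg f ((h f).1 hf)⟩

theorem toplevel_orb_swap {s s' : List (Φ → Φ)} (h : ∀ f, f ∈ s ↔ f ∈ s') : orb s = orb s' :=
  orb_congr_inv (toplevel_Inv_swap h)

theorem toplevel_fpf_a : FPF V.a := ⟨V.aa, V.a_ne⟩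
theorem toplevel_fpf_b : FPF V.b := ⟨V.bb, V.b_ne⟩
theorem toplevel_fpf_c : FPF V.c := ⟨V.cc, V.c_ne⟩
theorem toplevel_fpf_d : FPF V.d := ⟨V.dd, V.d_ne⟩

theorem toplevel_ad_ne (v : Φ) : V.a (V.d v) ≠ v := fun h => by
  have h1 := V.ena (V.d v)
  rw [h, V.end'] at h1
  simp at h1

theorem toplevel_cb_ne (v : Φ) : V.c (V.b v) ≠ v := fun h => by
  have h1 := V.sdc (V.b v)
  rw [h, V.sdb] at h1
  simp at h1

/-- The planarity of the links. -/
theorem toplevel_ex [Fintype Φ] : Ex V.c V.d V.b V.sg := by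
  intro κ hc hb hh
  obtain ⟨D, hD, hDc⟩ := (la2 (b := V.d) (d := V.c) V.dd V.cc V.sgd V.sgc hc).2
    (fun h hd' hc' => hh h hc' hd')
  obtain ⟨G, hG1, hG2, hG3⟩ := V.planar κ D hb hc hD hDc
  exact ⟨G, hG2, hG1, hG3⟩

theorem toplevel_link [Fintype Φ] :
    4 * (orb [V.c, V.d] + orb [V.d, V.b]) = Fintype.card Φ + 8 * orb [V.c, V.d, V.b] :=
  (ex_iff V.cc V.dd V.bb V.sgc V.sgd V.sgb V.toplevel_cb_ne (fun v => (V.bc v).symm)).2 V.toplevel_ex

theorem toplevel_cd [Finite Φ] : orb [V.c, V.d] = 2 * orb [V.a, V.c, V.d] := by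
  refine orb_double V.aa ?_ (G := V.en) ?_ V.ena
  · intro f hf v
    simp only [List.mem_cons, List.not_mem_nil, or_false] at hf
    rcases hf with rfl | rfl
    · exact (V.ac v).symm
    · exact (V.ad v).symm
  · intro f hf v
    simp only [List.mem_cons, List.not_mem_nil, or_false] at hf
    rcases hf with rfl | rfl
    · exact V.enc v
    · exact V.end' v

theorem toplevel_ab [Finite Φ] : orb [V.a, V.b] = 2 * orb [V.a, V.b, V.c] := by
  have h : orb [V.a, V.b] = 2 * orb [V.c, V.a, V.b] := by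
    refine orb_double V.cc ?_ (G := V.sd) ?_ V.sdc
    · intro f hf v
      simp only [List.mem_cons, List.not_mem_nil, or_false] at hf
      rcases hf with rfl | rfl
      · exact V.ac v
      · exact V.bc v
    · intro f hf v
      simp only [List.mem_cons, List.not_mem_nil, or_false] at hf
      rcases hf with rfl | rfl
      · exact V.sda v
      · exact V.sdb v
  rw [h]
  congr 1
  refine toplevel_orb_swap fun f => ?_
  simp only [List.mem_cons, List.not_mem_nil, or_false]
  tauto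

/-- Euler's inequality for the boundary components. -/
theorem toplevel_le [Fintype Φ] :
    4 * (orb [V.a, V.b] + orb [V.b, V.d]) ≤ Fintype.card Φ + 8 * orb [V.a, V.b, V.d] :=
  euler_le V.toplevel_fpf_a V.toplevel_fpf_b V.toplevel_fpf_d V.toplevel_ad_ne V.ad

/-- The cycles. -/
def toplevel_Cyc [Fintype Φ] : Submodule F2 (Φ → F2) :=
  toplevel_Z (Finset.univ.filter (fun y => V.sg y = 1 ∧ V.sd y = 1)) (Inv [V.a, V.c, V.d])
    (Inv [V.a, V.b, V.c])


theorem toplevel_f2 (a : F2) : a = 0 ∨ a = 1 := by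
  revert a
  decide

theorem toplevel_im_le [Fintype Φ] :
    Submodule.map (toplevel_T V.c) (Inv [V.a, V.b, V.d]) ≤ V.toplevel_Cyc := by
  rintro _ ⟨G, hG, rfl⟩
  have hG' : G ∈ Inv [V.a, V.b, V.d] := hG
  have Ga : ∀ x, G (V.a x) = G x := hG' V.a (by simp)
  have Gb : ∀ x, G (V.b x) = G x := hG' V.b (by simp)
  have Gd : ∀ x, G (V.d x) = G x := hG' V.d (by simp)
  refine ⟨?_, ?_⟩
  · intro f hf x
    simp only [List.mem_cons, List.not_mem_nil, or_false] at hf
    simp only [toplevel_T_apply]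
    rcases hf with rfl | rfl | rfl
    · rw [Ga, ← V.ac, Ga]
    · rw [Gb, ← V.bc, Gb]
    · rw [V.cc, add_comm]
  · intro κ hκ
    have κa : ∀ x, κ (V.a x) = κ x := hκ V.a (by simp)
    have κc : ∀ x, κ (V.c x) = κ x := hκ V.c (by simp)
    have κd : ∀ x, κ (V.d x) = κ x := hκ V.d (by simp)
    rw [toplevel_B_apply]
    simp only [toplevel_T_apply, mul_add, Finset.sum_add_distrib]
    have h1 : ∑ y ∈ Finset.univ.filter (fun y => V.sg y = 1 ∧ V.sd y = 1), κ y * G y =
        ∑ y ∈ (Finset.univ.filter (fun y => V.sg y = 0)).filter (fun y => V.sd y = 1),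
          κ y * G y := by
      refine Finset.sum_nbij' V.a V.a ?_ ?_ (fun y _ => V.aa y) (fun y _ => V.aa y) ?_
      · intro y hy
        simp only [Finset.mem_filter, Finset.mem_univ, true_and] at hy ⊢
        rw [V.sga, V.sda, hy.1, hy.2]
        decide
      · intro y hy
        simp only [Finset.mem_filter, Finset.mem_univ, true_and] at hy ⊢
        rw [V.sga, V.sda, hy.1, hy.2]
        decide
      · intro y _
        rw [κa, Ga]
    have h2 : ∑ y ∈ Finset.univ.filter (fun y => V.sg y = 1 ∧ V.sd y = 1), κ y * G (V.c y) =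
        ∑ y ∈ (Finset.univ.filter (fun y => V.sg y = 0)).filter (fun y => ¬ V.sd y = 1),
          κ y * G y := by
      refine Finset.sum_nbij' V.c V.c ?_ ?_ (fun y _ => V.cc y) (fun y _ => V.cc y) ?_
      · intro y hy
        simp only [Finset.mem_filter, Finset.mem_univ, true_and] at hy ⊢
        rw [V.sgc, V.sdc, hy.1, hy.2]
        decide
      · intro y hy
        simp only [Finset.mem_filter, Finset.mem_univ, true_and] at hy ⊢
        rcases toplevel_f2 (V.sd y) with h | h
        · rw [V.sgc, V.sdc, hy.1, h]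
          decide
        · exact absurd h hy.2
      · intro y _
        rw [κc]
    rw [h1, h2, Finset.sum_filter_add_sum_filter_not]
    refine Finset.sum_involution (fun y _ => V.a (V.d y)) ?_ ?_ ?_ ?_
    · intro y _
      rw [κa, κd, Ga, Gd]
      exact toplevel_add_eq_zero.2 rfl
    · intro y _ _
      exact V.toplevel_ad_ne y
    · intro y hy
      simp only [Finset.mem_filter, Finset.mem_univ, true_and] at hy ⊢
      rw [V.sga, V.sgd, hy]
      decide
    · intro y _
      show V.a (V.d (V.a (V.d y))) = y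
      rw [V.ad, V.aa, V.dd]

theorem toplevel_sdc {x : Φ} (hx : ¬ V.sd x = 1) : V.sd (V.c x) = 1 := by
  rcases toplevel_f2 (V.sd x) with h | h
  · rw [V.sdc, h]
    decide
  · exact absurd h hx

/-- Extension from one side to both sides of the faces. -/
noncomputable def toplevel_ext (h : {x // V.sd x = 1} → F2) (x : Φ) : F2 :=
  open Classical in
  if hx : V.sd x = 1 then h ⟨x, hx⟩ else h ⟨V.c x, V.toplevel_sdc hx⟩

/-- The map `a` on one side of the faces. -/
def toplevel_a1 (x : {x // V.sd x = 1}) : {x // V.sd x = 1} :=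
  ⟨V.a x.1, by rw [V.sda]; exact x.2⟩

/-- The map `b` on one side of the faces. -/
def toplevel_b1 (x : {x // V.sd x = 1}) : {x // V.sd x = 1} :=
  ⟨V.b x.1, by rw [V.sdb]; exact x.2⟩

theorem toplevel_ext_pos (h : {x // V.sd x = 1} → F2) {x : Φ} (hx : V.sd x = 1) :
    V.toplevel_ext h x = h ⟨x, hx⟩ := by
  unfold toplevel_ext
  rw [dif_pos hx]

theorem toplevel_ext_neg (h : {x // V.sd x = 1} → F2) {x : Φ} (hx : ¬ V.sd x = 1) :
    V.toplevel_ext h x = h ⟨V.c x, V.toplevel_sdc hx⟩ := by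
  unfold toplevel_ext
  rw [dif_neg hx]

theorem toplevel_ext_c (h : {x // V.sd x = 1} → F2) (x : Φ) :
    V.toplevel_ext h (V.c x) = V.toplevel_ext h x := by
  by_cases hx : V.sd x = 1
  · have hcx : ¬ V.sd (V.c x) = 1 := by
      rw [V.sdc, hx]
      decide
    rw [V.toplevel_ext_pos h hx, V.toplevel_ext_neg h hcx]
    congr 1
    exact Subtype.ext (V.cc x)
  · rw [V.toplevel_ext_neg h hx, V.toplevel_ext_pos h (V.toplevel_sdc hx)]

theorem toplevel_ext_a (h : {x // V.sd x = 1} → F2) (x : Φ) :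
    V.toplevel_ext h (V.a x) = V.toplevel_ext (fun y => h (V.toplevel_a1 y)) x := by
  by_cases hx : V.sd x = 1
  · have hax : V.sd (V.a x) = 1 := by rw [V.sda, hx]
    rw [V.toplevel_ext_pos _ hx, V.toplevel_ext_pos _ hax]
    rfl
  · have hax : ¬ V.sd (V.a x) = 1 := by rw [V.sda]; exact hx
    rw [V.toplevel_ext_neg _ hx, V.toplevel_ext_neg _ hax]
    congr 1
    exact Subtype.ext (V.ac x).symm

theorem toplevel_ext_b (h : {x // V.sd x = 1} → F2) (x : Φ) :
    V.toplevel_ext h (V.b x) = V.toplevel_ext (fun y => h (V.toplevel_b1 y)) x := by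
  by_cases hx : V.sd x = 1
  · have hax : V.sd (V.b x) = 1 := by rw [V.sdb, hx]
    rw [V.toplevel_ext_pos _ hx, V.toplevel_ext_pos _ hax]
    rfl
  · have hax : ¬ V.sd (V.b x) = 1 := by rw [V.sdb]; exact hx
    rw [V.toplevel_ext_neg _ hx, V.toplevel_ext_neg _ hax]
    congr 1
    exact Subtype.ext (V.bc x).symm

theorem toplevel_closed [Fintype Φ] {κ : Φ → F2}
    (hκ : κ ∈ toplevel_L (Finset.univ.filter (fun y => V.sg y = 1 ∧ V.sd y = 1))
      (Inv [V.a, V.c, V.d]) (Inv [V.a, V.b, V.c])) : V.Closed κ := by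
  classical
  obtain ⟨hκ, h0⟩ := hκ
  have κa : ∀ x, κ (V.a x) = κ x := hκ V.a (by simp)
  have κc : ∀ x, κ (V.c x) = κ x := hκ V.c (by simp)
  have κd : ∀ x, κ (V.d x) = κ x := hκ V.d (by simp)
  refine ⟨κa, κc, κd, ?_⟩
  have h1 := (la2 (Φ := {x // V.sd x = 1}) (b := V.toplevel_b1) (d := V.toplevel_a1)
    (sg := fun x => V.sg x.1) (κ := fun x => κ x.1) (fun v => Subtype.ext (V.bb v.1))
    (fun v => Subtype.ext (V.aa v.1)) (fun v => V.sgb v.1) (fun v => V.sga v.1)
    (fun v => κa v.1)).2 (by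
      intro h hb ha
      have h2 := h0 (V.toplevel_ext h) (by
        intro f hf x
        simp only [List.mem_cons, List.not_mem_nil, or_false] at hf
        rcases hf with rfl | rfl | rfl
        · rw [V.toplevel_ext_a]
          congr 1
          funext y
          exact ha y
        · rw [V.toplevel_ext_b]
          congr 1
          funext y
          exact hb y
        · exact V.toplevel_ext_c h x)
      rw [toplevel_B_apply] at h2
      rw [← h2]
      refine Finset.sum_bij (fun v _ => v.1) ?_ ?_ ?_ ?_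
      · intro v hv
        simp only [Finset.mem_filter, Finset.mem_univ, true_and] at hv ⊢
        exact ⟨hv, v.2⟩
      · intro v _ w _ hvw
        exact Subtype.ext hvw
      · intro y hy
        simp only [Finset.mem_filter, Finset.mem_univ, true_and] at hy
        exact ⟨⟨y, hy.2⟩, by simpa using hy.1, rfl⟩
      · intro v _
        rw [V.toplevel_ext_pos h v.2])
  obtain ⟨u, hu1, hu2⟩ := h1
  refine ⟨V.toplevel_ext u, ?_, V.toplevel_ext_c u, ?_⟩
  · intro x
    rw [V.toplevel_ext_b]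
    congr 1
    funext y
    exact hu1 y
  · intro x
    rw [V.toplevel_ext_a]
    by_cases hx : V.sd x = 1
    · rw [V.toplevel_ext_pos _ hx, V.toplevel_ext_pos _ hx]
      exact hu2 ⟨x, hx⟩
    · rw [V.toplevel_ext_neg _ hx, V.toplevel_ext_neg _ hx]
      refine (hu2 ⟨V.c x, _⟩).trans ?_
      exact κc x

theorem toplevel_L_le [Fintype Φ] (hH : V.H1zero) :
    toplevel_L (Finset.univ.filter (fun y => V.sg y = 1 ∧ V.sd y = 1))
      (Inv [V.a, V.c, V.d]) (Inv [V.a, V.b, V.c]) ≤
    Submodule.map (toplevel_T V.a) (Inv [V.b, V.c, V.d]) := by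
  intro κ hκ
  obtain ⟨p, hb, hc, hd, hp⟩ := hH κ (V.toplevel_closed hκ)
  refine ⟨p, ?_, ?_⟩
  · intro f hf x
    simp only [List.mem_cons, List.not_mem_nil, or_false] at hf
    rcases hf with rfl | rfl | rfl
    · exact hb x
    · exact hc x
    · exact hd x
  · funext x
    exact hp x

/-- All the counting. -/
theorem toplevel_count [Fintype Φ] [Nonempty Φ]
    (hc : ∀ g ∈ Inv [V.a, V.b, V.c, V.d], ∀ x y, g x = g y) (hH : V.H1zero) :
    orb [V.a, V.b, V.c] + orb [V.b, V.c, V.d] = orb [V.a, V.c, V.d] + orb [V.a, V.b, V.d] ∧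
    Module.finrank F2 V.toplevel_Cyc ≤
      Module.finrank F2 (Submodule.map (toplevel_T V.c) (Inv [V.a, V.b, V.d])) := by
  have h1 := (orb_eq_one_iff [V.a, V.b, V.c, V.d]).2 hc
  have h2 := toplevel_rank V.c [V.a, V.b, V.d]
  have h3 := toplevel_rank V.a [V.b, V.c, V.d]
  have h4 : orb [V.c, V.a, V.b, V.d] = 1 := by
    rw [← h1]
    refine toplevel_orb_swap fun f => ?_
    simp only [List.mem_cons, List.not_mem_nil, or_false]
    tauto
  rw [h4] at h2
  rw [h1] at h3
  have h5 := Submodule.finrank_mono V.toplevel_im_le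
  have h6 := Submodule.finrank_mono (V.toplevel_L_le hH)
  have h7 := toplevel_pair (Finset.univ.filter (fun y => V.sg y = 1 ∧ V.sd y = 1))
    (Inv [V.a, V.c, V.d]) (Inv [V.a, V.b, V.c])
  have h8 := V.toplevel_link
  have h9 := V.toplevel_cd
  have h10 := V.toplevel_ab
  have h11 := V.toplevel_le
  have h12 : orb [V.d, V.b] = orb [V.b, V.d] := by
    refine toplevel_orb_swap fun f => ?_
    simp only [List.mem_cons, List.not_mem_nil, or_false]
    tauto
  have h13 : orb [V.c, V.d, V.b] = orb [V.b, V.c, V.d] := by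
    refine toplevel_orb_swap fun f => ?_
    simp only [List.mem_cons, List.not_mem_nil, or_false]
    tauto
  have h14 : Module.finrank F2 (Inv [V.a, V.c, V.d]) = orb [V.a, V.c, V.d] := rfl
  have h15 : Module.finrank F2 (Inv [V.a, V.b, V.c]) = orb [V.a, V.b, V.c] := rfl
  have h16 : Module.finrank F2 (toplevel_Z (Finset.univ.filter
    (fun y => V.sg y = 1 ∧ V.sd y = 1)) (Inv [V.a, V.c, V.d]) (Inv [V.a, V.b, V.c])) =
      Module.finrank F2 V.toplevel_Cyc := rfl
  rw [h14, h15, h16] at h7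
  rw [h12, h13] at h8
  constructor <;> omega

/-- The boundary components are spheres. -/
theorem top_euler [Fintype Φ] [Nonempty Φ] (hc : ∀ g ∈ Inv [V.a, V.b, V.c, V.d], ∀ x y, g x = g y)
    (hH : V.H1zero) :
    4 * (orb [V.a, V.b] + orb [V.b, V.d]) = Fintype.card Φ + 8 * orb [V.a, V.b, V.d] := by
  have h1 := (V.toplevel_count hc hH).1
  have h8 := V.toplevel_link
  have h9 := V.toplevel_cd
  have h10 := V.toplevel_ab
  have h12 : orb [V.d, V.b] = orb [V.b, V.d] := by
    refine toplevel_orb_swap fun f => ?_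
    simp only [List.mem_cons, List.not_mem_nil, or_false]
    tauto
  have h13 : orb [V.c, V.d, V.b] = orb [V.b, V.c, V.d] := by
    refine toplevel_orb_swap fun f => ?_
    simp only [List.mem_cons, List.not_mem_nil, or_false]
    tauto
  rw [h12, h13] at h8
  omega

/-- The cycles are sums of boundary components. -/
theorem top_cycle [Fintype Φ] [Nonempty Φ] (hc : ∀ g ∈ Inv [V.a, V.b, V.c, V.d], ∀ x y, g x = g y)
    (hH : V.H1zero) {z : Φ → F2} (hz : z ∈ Inv [V.a, V.b, V.c])
    (hz' : ∀ κ ∈ Inv [V.a, V.c, V.d],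
      ∑ y ∈ Finset.univ.filter (fun y => V.sg y = 1 ∧ V.sd y = 1), κ y * z y = 0) :
    ∃ G ∈ Inv [V.a, V.b, V.d], ∀ x, G x + G (V.c x) = z x := by
  have h1 := Submodule.eq_of_le_of_finrank_le V.toplevel_im_le (V.toplevel_count hc hH).2
  have h2 : z ∈ V.toplevel_Cyc := ⟨hz, hz'⟩
  rw [← h1] at h2
  obtain ⟨G, hG, rfl⟩ := h2
  exact ⟨G, hG, fun x => rfl⟩


/-! ### A boundary component -/

theorem toplevel_inv_of_orb {s : List (Φ → Φ)} {x y : Φ} (h : SameOrb s x y) {g : Φ → F2}
    (hg : g ∈ Inv s) : g x = g y := by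
  induction h with
  | rel x y h =>
    obtain ⟨f, hf, rfl⟩ := h
    exact (hg f hf x).symm
  | refl x => rfl
  | symm x y _ ih => exact ih.symm
  | trans x y z _ _ ih1 ih2 => exact ih1.trans ih2

theorem toplevel_C_step {s : List (Φ → Φ)} {h : Φ} {f : Φ → Φ} (hf : f ∈ s) (x : Φ) :
    SameOrb s h (f x) ↔ SameOrb s h x := by
  have h1 : SameOrb s x (f x) := Relation.EqvGen.rel _ _ ⟨f, hf, rfl⟩
  exact ⟨fun h2 => Relation.EqvGen.trans _ _ _ h2 (Relation.EqvGen.symm _ _ h1),
    fun h2 => Relation.EqvGen.trans _ _ _ h2 h1⟩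

/-- The boundary component of `h`. -/
def toplevel_C (h x : Φ) : Prop := SameOrb [V.a, V.b, V.d] h x

theorem toplevel_Ca (h x : Φ) : V.toplevel_C h (V.a x) ↔ V.toplevel_C h x :=
  toplevel_C_step (by simp) x

theorem toplevel_Cb (h x : Φ) : V.toplevel_C h (V.b x) ↔ V.toplevel_C h x :=
  toplevel_C_step (by simp) x

theorem toplevel_Cd (h x : Φ) : V.toplevel_C h (V.d x) ↔ V.toplevel_C h x :=
  toplevel_C_step (by simp) x

/-- The number of sides of a face on the boundary component. -/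
noncomputable def toplevel_n (h x : Φ) : ℕ :=
  open Classical in
  (if V.toplevel_C h x then 1 else 0) + (if V.toplevel_C h (V.c x) then 1 else 0)

theorem toplevel_mul (h : Φ) : V.Mul (V.toplevel_n h) where
  a := fun x => by
    unfold toplevel_n
    rw [V.toplevel_Ca, ← V.ac, V.toplevel_Ca]
  b := fun x => by
    unfold toplevel_n
    rw [V.toplevel_Cb, ← V.bc, V.toplevel_Cb]
  c := fun x => by
    unfold toplevel_n
    rw [V.cc, add_comm]

theorem toplevel_n_pos {h x : Φ} (hx : V.toplevel_C h x) : 0 < V.toplevel_n h x := by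
  unfold toplevel_n
  rw [if_pos hx]
  omega

/-- The side of a face on the boundary component. -/
def toplevel_mk (h x : Φ) (hx : V.toplevel_C h x) : Fl (V.toplevel_n h) :=
  ⟨(x, 0), V.toplevel_n_pos hx⟩

/-- The flags of the form `mk x`. -/
def toplevel_F1 (h : Φ) (p : Fl (V.toplevel_n h)) : Prop := V.toplevel_C h p.1.1 ∧ p.1.2 = 0

theorem toplevel_F1_mk (h x : Φ) (hx : V.toplevel_C h x) :
    V.toplevel_F1 h (V.toplevel_mk h x hx) := ⟨hx, rfl⟩

theorem toplevel_eq_mk {h : Φ} {p : Fl (V.toplevel_n h)} (hp : V.toplevel_F1 h p) :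
    p = V.toplevel_mk h p.1.1 hp.1 := by
  apply Subtype.ext
  exact Prod.ext rfl hp.2

theorem toplevel_F1_fc (h : Φ) (p : Fl (V.toplevel_n h)) :
    V.toplevel_F1 h ((V.toplevel_mul h).fc p) ↔ ¬ V.toplevel_F1 h p := by
  obtain ⟨⟨x, k⟩, hk⟩ := p
  have hk' : k < V.toplevel_n h x := hk
  have e1 : V.toplevel_F1 h ⟨(x, k), hk⟩ ↔ (V.toplevel_C h x ∧ k = 0) := Iff.rfl
  have e2 : V.toplevel_F1 h ((V.toplevel_mul h).fc ⟨(x, k), hk⟩) ↔
      (V.toplevel_C h (V.c x) ∧ V.toplevel_n h x - 1 - k = 0) := Iff.rfl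
  rw [e1, e2]
  clear e1 e2
  unfold toplevel_n at hk' ⊢
  by_cases h1 : V.toplevel_C h x <;> by_cases h2 : V.toplevel_C h (V.c x)
  · rw [if_pos h1, if_pos h2] at hk' ⊢
    simp only [h1, h2, true_and]
    omega
  · rw [if_pos h1, if_neg h2] at hk' ⊢
    simp only [h1, h2, true_and, false_and, false_iff, not_not]
    omega
  · rw [if_neg h1, if_pos h2] at hk' ⊢
    simp only [h1, h2, true_and, false_and, not_false_eq_true, iff_true]
    omega
  · rw [if_neg h1, if_neg h2] at hk'
    omega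

theorem toplevel_fcfc (h : Φ) (p : Fl (V.toplevel_n h)) :
    (V.toplevel_mul h).fc ((V.toplevel_mul h).fc p) = p := (infl (V.toplevel_mul h)).cc p

theorem toplevel_cases (h : Φ) (p : Fl (V.toplevel_n h)) :
    (∃ x hx, p = V.toplevel_mk h x hx) ∨
      ∃ x hx, p = (V.toplevel_mul h).fc (V.toplevel_mk h x hx) := by
  by_cases hp : V.toplevel_F1 h p
  · exact Or.inl ⟨_, _, V.toplevel_eq_mk hp⟩
  · right
    have h1 := (V.toplevel_F1_fc h p).2 hp
    exact ⟨_, _, by rw [← V.toplevel_eq_mk h1, V.toplevel_fcfc]⟩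

/-- The other end of the chord. -/
noncomputable def toplevel_M (h : Φ) (p : Fl (V.toplevel_n h)) : Fl (V.toplevel_n h) :=
  open Classical in
  if hp : V.toplevel_F1 h p then V.toplevel_mk h (V.d p.1.1) ((V.toplevel_Cd h _).2 hp.1)
  else (V.toplevel_mul h).fc (V.toplevel_mk h (V.d ((V.toplevel_mul h).fc p).1.1)
    ((V.toplevel_Cd h _).2 ((V.toplevel_F1_fc h p).2 hp).1))

theorem toplevel_M_mk (h x : Φ) (hx : V.toplevel_C h x) :
    V.toplevel_M h (V.toplevel_mk h x hx) =
      V.toplevel_mk h (V.d x) ((V.toplevel_Cd h _).2 hx) := by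
  unfold toplevel_M
  rw [dif_pos (V.toplevel_F1_mk h x hx)]
  rfl

theorem toplevel_M_fc (h x : Φ) (hx : V.toplevel_C h x) :
    V.toplevel_M h ((V.toplevel_mul h).fc (V.toplevel_mk h x hx)) =
      (V.toplevel_mul h).fc (V.toplevel_mk h (V.d x) ((V.toplevel_Cd h _).2 hx)) := by
  have h1 : ¬ V.toplevel_F1 h ((V.toplevel_mul h).fc (V.toplevel_mk h x hx)) := by
    rw [V.toplevel_F1_fc, not_not]
    exact V.toplevel_F1_mk h x hx
  unfold toplevel_M
  rw [dif_neg h1]
  congr 1
  apply Subtype.ext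
  refine Prod.ext ?_ rfl
  show V.d ((V.toplevel_mul h).fc ((V.toplevel_mul h).fc (V.toplevel_mk h x hx))).1.1 = V.d x
  rw [V.toplevel_fcfc]
  rfl

/-- The boundary component as a surface. -/
noncomputable def toplevel_S [Finite Φ] (h : Φ) : Carried V where
  n := V.toplevel_n h
  hn := V.toplevel_mul h
  fin := inferInstance
  M := V.toplevel_M h
  MM := by
    intro p
    rcases V.toplevel_cases h p with ⟨x, hx, rfl⟩ | ⟨x, hx, rfl⟩
    · rw [V.toplevel_M_mk, V.toplevel_M_mk]
      apply Subtype.ext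
      exact Prod.ext (V.dd x) rfl
    · rw [V.toplevel_M_fc, V.toplevel_M_fc]
      congr 1
      apply Subtype.ext
      exact Prod.ext (V.dd x) rfl
  aM := by
    intro p
    have hfa : ∀ x hx, (V.toplevel_mul h).fa (V.toplevel_mk h x hx) =
      V.toplevel_mk h (V.a x) ((V.toplevel_Ca h x).2 hx) := fun _ _ => rfl
    have hac : ∀ q, (V.toplevel_mul h).fa ((V.toplevel_mul h).fc q) =
      (V.toplevel_mul h).fc ((V.toplevel_mul h).fa q) := (infl (V.toplevel_mul h)).ac
    rcases V.toplevel_cases h p with ⟨x, hx, rfl⟩ | ⟨x, hx, rfl⟩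
    · rw [V.toplevel_M_mk, hfa, hfa, V.toplevel_M_mk]
      apply Subtype.ext
      exact Prod.ext (V.ad x) rfl
    · rw [V.toplevel_M_fc, hac, hac, hfa, hfa, V.toplevel_M_fc]
      congr 1
      apply Subtype.ext
      exact Prod.ext (V.ad x) rfl
  cM := by
    intro p
    rcases V.toplevel_cases h p with ⟨x, hx, rfl⟩ | ⟨x, hx, rfl⟩
    · rw [V.toplevel_M_mk, V.toplevel_M_fc]
    · rw [V.toplevel_M_fc, V.toplevel_fcfc, V.toplevel_fcfc, V.toplevel_M_mk]
  sgM := by
    intro p
    rcases V.toplevel_cases h p with ⟨x, hx, rfl⟩ | ⟨x, hx, rfl⟩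
    · rw [V.toplevel_M_mk]
      exact V.sgd x
    · rw [V.toplevel_M_fc]
      show V.sg (V.c (V.d x)) = V.sg (V.c x) + 1
      rw [V.sgc, V.sgd, V.sgc]
  cdM := by
    intro p
    rcases V.toplevel_cases h p with ⟨x, hx, rfl⟩ | ⟨x, hx, rfl⟩
    · rw [V.toplevel_M_mk]
      exact CD.d V x
    · rw [V.toplevel_M_fc]
      show V.CD (V.c x) (V.c (V.d x))
      exact ((CD.c V x).symm.trans (CD.d V x)).trans (CD.c V (V.d x))


theorem toplevel_mk_inj {h x y : Φ} {hx : V.toplevel_C h x} {hy : V.toplevel_C h y}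
    (e : V.toplevel_mk h x hx = V.toplevel_mk h y hy) : x = y :=
  congrArg (fun q : Fl (V.toplevel_n h) => q.1.1) e

theorem toplevel_mk_ne_fc {h x y : Φ} {hx : V.toplevel_C h x} {hy : V.toplevel_C h y} :
    V.toplevel_mk h x hx ≠ (V.toplevel_mul h).fc (V.toplevel_mk h y hy) := fun e => by
  have h1 : ¬ V.toplevel_F1 h ((V.toplevel_mul h).fc (V.toplevel_mk h y hy)) := by
    rw [V.toplevel_F1_fc, not_not]
    exact V.toplevel_F1_mk h y hy
  rw [← e] at h1
  exact h1 (V.toplevel_F1_mk h x hx)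

/-- The points and sides of the chord of `p`. -/
def toplevel_Own (h : Φ) (p q : Fl (V.toplevel_n h)) : Prop :=
  q = p ∨ q = (V.toplevel_mul h).fc p ∨ q = V.toplevel_M h p ∨
    q = (V.toplevel_mul h).fc (V.toplevel_M h p)

theorem toplevel_own_fc (h : Φ) (p q : Fl (V.toplevel_n h)) :
    V.toplevel_Own h p ((V.toplevel_mul h).fc q) ↔ V.toplevel_Own h p q := by
  have e : ∀ r r' : Fl (V.toplevel_n h), (V.toplevel_mul h).fc r = r' ↔
      r = (V.toplevel_mul h).fc r' := by
    intro r r'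
    constructor
    · rintro rfl
      rw [V.toplevel_fcfc]
    · rintro rfl
      rw [V.toplevel_fcfc]
  unfold toplevel_Own
  rw [e, e, e, e, V.toplevel_fcfc, V.toplevel_fcfc]
  tauto

theorem toplevel_own_mk (h x y : Φ) (hx : V.toplevel_C h x) (hy : V.toplevel_C h y) :
    V.toplevel_Own h (V.toplevel_mk h x hx) (V.toplevel_mk h y hy) ↔ y = x ∨ y = V.d x := by
  unfold toplevel_Own
  rw [V.toplevel_M_mk]
  constructor
  · rintro (h1 | h1 | h1 | h1)
    · exact Or.inl (V.toplevel_mk_inj h1)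
    · exact absurd h1 V.toplevel_mk_ne_fc
    · exact Or.inr (V.toplevel_mk_inj h1)
    · exact absurd h1 V.toplevel_mk_ne_fc
  · rintro (rfl | rfl)
    · exact Or.inl rfl
    · exact Or.inr (Or.inr (Or.inl rfl))

/-- The side function of a chord. -/
noncomputable def toplevel_G (x : Φ) (y : Φ) : F2 :=
  open Classical in if y = x ∨ y = V.d x then 1 else 0

theorem toplevel_below (h x : Φ) (hx : V.toplevel_C h x) (y : Φ) :
    V.toplevel_G x y + V.toplevel_G x (V.c y) =
      TMap.below (V.toplevel_Own h (V.toplevel_mk h x hx)) y (V.toplevel_n h y) := by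
  classical
  have hG0 : ∀ z, ¬ V.toplevel_C h z → V.toplevel_G x z = 0 := by
    intro z hz
    unfold toplevel_G
    rw [if_neg]
    rintro (rfl | rfl)
    · exact hz hx
    · exact hz ((V.toplevel_Cd h x).2 hx)
  -- the two kinds of points
  have t1 : ∀ hy : V.toplevel_C h y,
      (if ∃ hj : 0 < V.toplevel_n h y, V.toplevel_Own h (V.toplevel_mk h x hx) ⟨(y, 0), hj⟩
        then (1 : F2) else 0) = V.toplevel_G x y := by
    intro hy
    unfold toplevel_G
    refine if_congr ?_ rfl rfl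
    rw [← V.toplevel_own_mk h x y hx hy]
    exact ⟨fun h1 => h1.2, fun h1 => ⟨V.toplevel_n_pos hy, h1⟩⟩
  have t2 : ∀ hy : V.toplevel_C h (V.c y), ∀ j, j + 1 = V.toplevel_n h y →
      (if ∃ hj : j < V.toplevel_n h y, V.toplevel_Own h (V.toplevel_mk h x hx) ⟨(y, j), hj⟩
        then (1 : F2) else 0) = V.toplevel_G x (V.c y) := by
    intro hy j hj
    unfold toplevel_G
    refine if_congr ?_ rfl rfl
    rw [← V.toplevel_own_mk h x (V.c y) hx hy, ← V.toplevel_own_fc]
    have hj' : j < V.toplevel_n h y := by omega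
    have e : (V.toplevel_mul h).fc (V.toplevel_mk h (V.c y) hy) = ⟨(y, j), hj'⟩ := by
      apply Subtype.ext
      refine Prod.ext (V.cc y) ?_
      show V.toplevel_n h (V.c y) - 1 - 0 = j
      rw [(V.toplevel_mul h).c]
      omega
    rw [e]
    exact ⟨fun h1 => h1.2, fun h1 => ⟨hj', h1⟩⟩
  have hn : V.toplevel_n h y = (if V.toplevel_C h y then 1 else 0) +
    (if V.toplevel_C h (V.c y) then 1 else 0) := by
    unfold toplevel_n
    congr
  unfold below
  by_cases h1 : V.toplevel_C h y <;> by_cases h2 : V.toplevel_C h (V.c y)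
  · rw [if_pos h1, if_pos h2] at hn
    have h3 := t1 h1
    have h4 := t2 h2 1 (by omega)
    rw [← h3, ← h4, show (Finset.range (V.toplevel_n h y)) = Finset.range 2 by rw [hn],
      Finset.sum_range_succ, Finset.sum_range_one]
  · rw [if_pos h1, if_neg h2] at hn
    have h3 := t1 h1
    rw [← h3, hG0 _ h2, show (Finset.range (V.toplevel_n h y)) = Finset.range 1 by rw [hn],
      Finset.sum_range_one, add_zero]
  · rw [if_neg h1, if_pos h2] at hn
    have h4 := t2 h2 0 (by omega)
    rw [← h4, hG0 _ h1, show (Finset.range (V.toplevel_n h y)) = Finset.range 1 by rw [hn],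
      Finset.sum_range_one, zero_add]
  · rw [if_neg h1, if_neg h2] at hn
    rw [hG0 _ h1, hG0 _ h2, show (Finset.range (V.toplevel_n h y)) = Finset.range 0 by rw [hn],
      Finset.sum_range_zero, add_zero]

theorem toplevel_G_d (x y : Φ) : V.toplevel_G x (V.d y) = V.toplevel_G x y := by
  classical
  unfold toplevel_G
  refine if_congr ?_ rfl rfl
  constructor
  · rintro (rfl | h1)
    · exact Or.inr (V.dd y).symm
    · left
      have h2 := congrArg V.d h1
      rwa [V.dd, V.dd] at h2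
  · rintro (rfl | rfl)
    · exact Or.inr rfl
    · exact Or.inl (V.dd x)

/-- The side of the chord of `p`. -/
noncomputable def toplevel_side (h : Φ) (p : Fl (V.toplevel_n h)) (G : Φ → F2)
    (q : Fl (V.toplevel_n h)) : F2 := G q.1.1 + below (V.toplevel_Own h p) q.1.1 q.1.2

theorem toplevel_nc_mk (h x : Φ) (hx : V.toplevel_C h x) (q : Fl (V.toplevel_n h)) :
    V.toplevel_side h (V.toplevel_mk h x hx) (V.toplevel_G x) (V.toplevel_M h q) =
      V.toplevel_side h (V.toplevel_mk h x hx) (V.toplevel_G x) q := by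
  classical
  have h1 := (gap_infl (V.toplevel_mul h) (S := V.toplevel_Own h (V.toplevel_mk h x hx))
    (G := V.toplevel_G x) (V.toplevel_own_fc h _) (V.toplevel_G_d x) (V.toplevel_below h x hx)).2
  have h3 : ∀ y hy, V.toplevel_side h (V.toplevel_mk h x hx) (V.toplevel_G x)
      (V.toplevel_mk h y hy) = V.toplevel_G x y := by
    intro y hy
    show V.toplevel_G x y + below _ y 0 = _
    unfold below
    rw [Finset.sum_range_zero, add_zero]
  have h4 : ∀ y hy, V.toplevel_side h (V.toplevel_mk h x hx) (V.toplevel_G x)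
      ((V.toplevel_mul h).fc (V.toplevel_mk h y hy)) = V.toplevel_G x y + V.toplevel_G x y := by
    intro y hy
    have h5 := h1 (V.toplevel_mk h y hy)
    have h6 := h3 y hy
    unfold toplevel_side at h6 ⊢
    rw [h6] at h5
    have h7 : ∀ a b c : F2, a + b = c → b = a + c := by decide
    refine (h7 _ _ _ h5).trans ?_
    congr 1
    unfold toplevel_G
    exact if_congr (V.toplevel_own_mk h x y hx hy) rfl rfl
  rcases V.toplevel_cases h q with ⟨y, hy, rfl⟩ | ⟨y, hy, rfl⟩
  · rw [V.toplevel_M_mk, h3, h3, V.toplevel_G_d]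
  · rw [V.toplevel_M_fc, h4, h4, V.toplevel_G_d]

theorem toplevel_nc [Finite Φ] (h : Φ) (p : Fl (V.toplevel_n h)) :
    ∃ G, (V.toplevel_S h).IsSide p G ∧
      ∀ q, (V.toplevel_S h).side p G ((V.toplevel_S h).M q) = (V.toplevel_S h).side p G q := by
  rcases V.toplevel_cases h p with ⟨x, hx, rfl⟩ | ⟨x, hx, rfl⟩
  · exact ⟨V.toplevel_G x, ⟨V.toplevel_G_d x, V.toplevel_below h x hx⟩, V.toplevel_nc_mk h x hx⟩
  · have e : V.toplevel_Own h ((V.toplevel_mul h).fc (V.toplevel_mk h x hx)) =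
        V.toplevel_Own h (V.toplevel_mk h x hx) := by
      funext q
      apply propext
      unfold toplevel_Own
      rw [V.toplevel_M_fc, V.toplevel_M_mk, V.toplevel_fcfc, V.toplevel_fcfc]
      tauto
    have h2 := V.toplevel_below h x hx
    have h3 := V.toplevel_nc_mk h x hx
    unfold toplevel_side at h3
    rw [← e] at h2 h3
    exact ⟨V.toplevel_G x, ⟨V.toplevel_G_d x, h2⟩, h3⟩


theorem toplevel_conn [Finite Φ] (h : Φ) (g : Fl (V.toplevel_n h) → F2)
    (ga : ∀ p, g ((V.toplevel_mul h).fa p) = g p) (gb : ∀ p, g ((V.toplevel_mul h).fb p) = g p)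
    (gc : ∀ p, g ((V.toplevel_mul h).fc p) = g p) (gM : ∀ p, g (V.toplevel_M h p) = g p)
    (p q : Fl (V.toplevel_n h)) : g p = g q := by
  classical
  let g' : Φ → F2 := fun x => if hx : V.toplevel_C h x then g (V.toplevel_mk h x hx) else 0
  have hg1 : ∀ x hx, g' x = g (V.toplevel_mk h x hx) := fun x hx => dif_pos hx
  have hg0 : ∀ x, ¬ V.toplevel_C h x → g' x = 0 := fun x hx => dif_neg hx
  have hg' : g' ∈ Inv [V.a, V.b, V.d] := by
    intro f hf x
    simp only [List.mem_cons, List.not_mem_nil, or_false] at hf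
    rcases hf with rfl | rfl | rfl
    · by_cases hx : V.toplevel_C h x
      · rw [hg1 x hx, hg1 _ ((V.toplevel_Ca h x).2 hx)]
        exact ga (V.toplevel_mk h x hx)
      · rw [hg0 x hx, hg0 _ fun h1 => hx ((V.toplevel_Ca h x).1 h1)]
    · by_cases hx : V.toplevel_C h x
      · rw [hg1 x hx, hg1 _ ((V.toplevel_Cb h x).2 hx)]
        exact gb (V.toplevel_mk h x hx)
      · rw [hg0 x hx, hg0 _ fun h1 => hx ((V.toplevel_Cb h x).1 h1)]
    · by_cases hx : V.toplevel_C h x
      · rw [hg1 x hx, hg1 _ ((V.toplevel_Cd h x).2 hx), ← V.toplevel_M_mk h x hx]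
        exact gM (V.toplevel_mk h x hx)
      · rw [hg0 x hx, hg0 _ fun h1 => hx ((V.toplevel_Cd h x).1 h1)]
  have key : ∀ r : Fl (V.toplevel_n h), g r = g' h := by
    intro r
    rcases V.toplevel_cases h r with ⟨x, hx, rfl⟩ | ⟨x, hx, rfl⟩
    · rw [← hg1 x hx]
      exact (toplevel_inv_of_orb hx hg').symm
    · rw [gc, ← hg1 x hx]
      exact (toplevel_inv_of_orb hx hg').symm
  rw [key p, key q]

/-- The flags of the component. -/
abbrev toplevel_CT (h : Φ) : Type := {x // V.toplevel_C h x}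

/-- The other flags. -/
abbrev toplevel_NT (h : Φ) : Type := {x // ¬ V.toplevel_C h x}

def toplevel_aC (h : Φ) (x : V.toplevel_CT h) : V.toplevel_CT h :=
  ⟨V.a x.1, (V.toplevel_Ca h x.1).2 x.2⟩
def toplevel_bC (h : Φ) (x : V.toplevel_CT h) : V.toplevel_CT h :=
  ⟨V.b x.1, (V.toplevel_Cb h x.1).2 x.2⟩
def toplevel_dC (h : Φ) (x : V.toplevel_CT h) : V.toplevel_CT h :=
  ⟨V.d x.1, (V.toplevel_Cd h x.1).2 x.2⟩
def toplevel_aN (h : Φ) (x : V.toplevel_NT h) : V.toplevel_NT h :=
  ⟨V.a x.1, fun h1 => x.2 ((V.toplevel_Ca h x.1).1 h1)⟩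
def toplevel_bN (h : Φ) (x : V.toplevel_NT h) : V.toplevel_NT h :=
  ⟨V.b x.1, fun h1 => x.2 ((V.toplevel_Cb h x.1).1 h1)⟩
def toplevel_dN (h : Φ) (x : V.toplevel_NT h) : V.toplevel_NT h :=
  ⟨V.d x.1, fun h1 => x.2 ((V.toplevel_Cd h x.1).1 h1)⟩

theorem toplevel_eulerC [Fintype Φ] (h : Φ)
    (he : 4 * (orb [V.a, V.b] + orb [V.b, V.d]) = Fintype.card Φ + 8 * orb [V.a, V.b, V.d]) :
    4 * (orb [V.toplevel_aC h, V.toplevel_bC h] + orb [V.toplevel_bC h, V.toplevel_dC h]) =
      Nat.card (V.toplevel_CT h) + 8 := by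
  classical
  have ne : ∀ {f : Φ → Φ}, (∀ x, f x ≠ x) → ∀ (P : Φ → Prop) (f' : {x // P x} → {x // P x}),
      (∀ x, (f' x).1 = f x.1) → ∀ x, f' x ≠ x := fun hf P f' hf' x e => by
    have e1 := congrArg Subtype.val e
    rw [hf'] at e1
    exact hf _ e1
  have hC := euler_le (Φ := V.toplevel_CT h) (x := V.toplevel_aC h) (y := V.toplevel_bC h)
    (z := V.toplevel_dC h)
    ⟨fun x => Subtype.ext (V.aa x.1), ne V.a_ne _ _ fun _ => rfl⟩
    ⟨fun x => Subtype.ext (V.bb x.1), ne V.b_ne _ _ fun _ => rfl⟩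
    ⟨fun x => Subtype.ext (V.dd x.1), ne V.d_ne _ _ fun _ => rfl⟩
    (fun v e => V.toplevel_ad_ne v.1 (congrArg Subtype.val e))
    (fun v => Subtype.ext (V.ad v.1))
  have hN := euler_le (Φ := V.toplevel_NT h) (x := V.toplevel_aN h) (y := V.toplevel_bN h)
    (z := V.toplevel_dN h)
    ⟨fun x => Subtype.ext (V.aa x.1), ne V.a_ne _ _ fun _ => rfl⟩
    ⟨fun x => Subtype.ext (V.bb x.1), ne V.b_ne _ _ fun _ => rfl⟩
    ⟨fun x => Subtype.ext (V.dd x.1), ne V.d_ne _ _ fun _ => rfl⟩
    (fun v e => V.toplevel_ad_ne v.1 (congrArg Subtype.val e))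
    (fun v => Subtype.ext (V.ad v.1))
  have s1 : orb [V.a, V.b] = orb [V.toplevel_aC h, V.toplevel_bC h] +
      orb [V.toplevel_aN h, V.toplevel_bN h] :=
    orb_split (V.toplevel_C h)
      (List.Forall₂.cons (fun _ => rfl) (List.Forall₂.cons (fun _ => rfl) List.Forall₂.nil))
      (List.Forall₂.cons (fun _ => rfl) (List.Forall₂.cons (fun _ => rfl) List.Forall₂.nil))
  have s2 : orb [V.b, V.d] = orb [V.toplevel_bC h, V.toplevel_dC h] +
      orb [V.toplevel_bN h, V.toplevel_dN h] :=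
    orb_split (V.toplevel_C h)
      (List.Forall₂.cons (fun _ => rfl) (List.Forall₂.cons (fun _ => rfl) List.Forall₂.nil))
      (List.Forall₂.cons (fun _ => rfl) (List.Forall₂.cons (fun _ => rfl) List.Forall₂.nil))
  have s3 : orb [V.a, V.b, V.d] = orb [V.toplevel_aC h, V.toplevel_bC h, V.toplevel_dC h] +
      orb [V.toplevel_aN h, V.toplevel_bN h, V.toplevel_dN h] :=
    orb_split (V.toplevel_C h)
      (List.Forall₂.cons (fun _ => rfl) (List.Forall₂.cons (fun _ => rfl)
        (List.Forall₂.cons (fun _ => rfl) List.Forall₂.nil)))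
      (List.Forall₂.cons (fun _ => rfl) (List.Forall₂.cons (fun _ => rfl)
        (List.Forall₂.cons (fun _ => rfl) List.Forall₂.nil)))
  have s4 : Fintype.card Φ = Fintype.card (V.toplevel_CT h) + Fintype.card (V.toplevel_NT h) := by
    rw [← Fintype.card_sum]
    exact Fintype.card_congr (Equiv.sumCompl (V.toplevel_C h)).symm
  have hh : V.toplevel_C h h := Relation.EqvGen.refl _
  have : Nonempty (V.toplevel_CT h) := ⟨⟨h, hh⟩⟩
  have h1 : orb [V.toplevel_aC h, V.toplevel_bC h, V.toplevel_dC h] = 1 := by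
    rw [orb_eq_one_iff]
    intro g hg
    let g' : Φ → F2 := fun x => if hx : V.toplevel_C h x then g ⟨x, hx⟩ else 0
    have hg1 : ∀ x hx, g' x = g ⟨x, hx⟩ := fun x hx => dif_pos hx
    have hg0 : ∀ x, ¬ V.toplevel_C h x → g' x = 0 := fun x hx => dif_neg hx
    have hg' : g' ∈ Inv [V.a, V.b, V.d] := by
      intro f hf x
      simp only [List.mem_cons, List.not_mem_nil, or_false] at hf
      rcases hf with rfl | rfl | rfl
      · by_cases hx : V.toplevel_C h x
        · rw [hg1 x hx, hg1 _ ((V.toplevel_Ca h x).2 hx)]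
          exact hg (V.toplevel_aC h) (by simp) ⟨x, hx⟩
        · rw [hg0 x hx, hg0 _ fun h1 => hx ((V.toplevel_Ca h x).1 h1)]
      · by_cases hx : V.toplevel_C h x
        · rw [hg1 x hx, hg1 _ ((V.toplevel_Cb h x).2 hx)]
          exact hg (V.toplevel_bC h) (by simp) ⟨x, hx⟩
        · rw [hg0 x hx, hg0 _ fun h1 => hx ((V.toplevel_Cb h x).1 h1)]
      · by_cases hx : V.toplevel_C h x
        · rw [hg1 x hx, hg1 _ ((V.toplevel_Cd h x).2 hx)]
          exact hg (V.toplevel_dC h) (by simp) ⟨x, hx⟩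
        · rw [hg0 x hx, hg0 _ fun h1 => hx ((V.toplevel_Cd h x).1 h1)]
    have key : ∀ x : V.toplevel_CT h, g x = g' h := by
      intro x
      rw [← hg1 x.1 x.2]
      exact (toplevel_inv_of_orb x.2 hg').symm
    intro x y
    rw [key x, key y]
  rw [Nat.card_eq_fintype_card]
  omega

/-- The flags of the component are the flags of the surface of the form `mk x`. -/
noncomputable def toplevel_e (h : Φ) : V.toplevel_CT h ≃ {p // V.toplevel_F1 h p} where
  toFun x := ⟨V.toplevel_mk h x.1 x.2, V.toplevel_F1_mk h x.1 x.2⟩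
  invFun p := ⟨p.1.1.1, p.2.1⟩
  left_inv _ := rfl
  right_inv p := Subtype.ext (V.toplevel_eq_mk p.2).symm

/-- The other flags. -/
noncomputable def toplevel_e' (h : Φ) :
    {p // V.toplevel_F1 h p} ≃ {p // ¬ V.toplevel_F1 h p} where
  toFun p := ⟨(V.toplevel_mul h).fc p.1, by rw [V.toplevel_F1_fc, not_not]; exact p.2⟩
  invFun p := ⟨(V.toplevel_mul h).fc p.1, by rw [V.toplevel_F1_fc]; exact p.2⟩
  left_inv p := Subtype.ext (V.toplevel_fcfc h p.1)
  right_inv p := Subtype.ext (V.toplevel_fcfc h p.1)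

theorem toplevel_card [Finite Φ] (h : Φ) :
    Nat.card (Fl (V.toplevel_n h)) = 2 * Nat.card (V.toplevel_CT h) := by
  classical
  rw [Nat.card_congr (Equiv.sumCompl (V.toplevel_F1 h)).symm, Nat.card_sum,
    ← Nat.card_congr (V.toplevel_e' h), ← Nat.card_congr (V.toplevel_e h)]
  ring

theorem toplevel_orb2 [Finite Φ] (h : Φ)
    {f1 f2 : Fl (V.toplevel_n h) → Fl (V.toplevel_n h)}
    {g1 g2 : V.toplevel_CT h → V.toplevel_CT h}
    (c1 : ∀ p, f1 ((V.toplevel_mul h).fc p) = (V.toplevel_mul h).fc (f1 p))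
    (c2 : ∀ p, f2 ((V.toplevel_mul h).fc p) = (V.toplevel_mul h).fc (f2 p))
    (e1 : ∀ x : V.toplevel_CT h, f1 (V.toplevel_mk h x.1 x.2) = V.toplevel_mk h (g1 x).1 (g1 x).2)
    (e2 : ∀ x : V.toplevel_CT h, f2 (V.toplevel_mk h x.1 x.2) = V.toplevel_mk h (g2 x).1 (g2 x).2) :
    orb [f1, f2] = 2 * orb [g1, g2] := by
  classical
  have hs : ∀ f ∈ [f1, f2], ∀ v, f ((V.toplevel_mul h).fc v) = (V.toplevel_mul h).fc (f v) := by
    intro f hf v
    simp only [List.mem_cons, List.not_mem_nil, or_false] at hf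
    rcases hf with rfl | rfl
    · exact c1 v
    · exact c2 v
  have F1 : ∀ {f : Fl (V.toplevel_n h) → Fl (V.toplevel_n h)}
      {g : V.toplevel_CT h → V.toplevel_CT h}
      (_ : ∀ p, f ((V.toplevel_mul h).fc p) = (V.toplevel_mul h).fc (f p))
      (_ : ∀ x : V.toplevel_CT h, f (V.toplevel_mk h x.1 x.2) =
        V.toplevel_mk h (g x).1 (g x).2) (p),
      V.toplevel_F1 h (f p) ↔ V.toplevel_F1 h p := by
    intro f g c e p
    rcases V.toplevel_cases h p with ⟨x, hx, rfl⟩ | ⟨x, hx, rfl⟩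
    · rw [e ⟨x, hx⟩]
      exact ⟨fun _ => V.toplevel_F1_mk h x hx, fun _ => V.toplevel_F1_mk h _ _⟩
    · rw [c, e ⟨x, hx⟩, V.toplevel_F1_fc, V.toplevel_F1_fc]
      exact not_congr ⟨fun _ => V.toplevel_F1_mk h x hx, fun _ => V.toplevel_F1_mk h _ _⟩
  have h1 : orb [f1, f2] = 2 * orb [(V.toplevel_mul h).fc, f1, f2] := by
    refine orb_double (V.toplevel_fcfc h) hs (G := fun p => if V.toplevel_F1 h p then 1 else 0)
      ?_ ?_
    · intro f hf p
      simp only [List.mem_cons, List.not_mem_nil, or_false] at hf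
      rcases hf with rfl | rfl
      · exact if_congr (F1 c1 e1 p) rfl rfl
      · exact if_congr (F1 c2 e2 p) rfl rfl
    · intro p
      by_cases hp : V.toplevel_F1 h p
      · have hp' : ¬ V.toplevel_F1 h ((V.toplevel_mul h).fc p) := by
          rw [V.toplevel_F1_fc, not_not]
          exact hp
        rw [if_pos hp, if_neg hp']
        decide
      · have hp' : V.toplevel_F1 h ((V.toplevel_mul h).fc p) := by
          rw [V.toplevel_F1_fc]
          exact hp
        rw [if_neg hp, if_pos hp']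
        decide
  have h2 : orb [(V.toplevel_mul h).fc, f1, f2] =
      orb [(fun p => ⟨f1 p.1, (F1 c1 e1 p.1).2 p.2⟩ :
        {p // V.toplevel_F1 h p} → {p // V.toplevel_F1 h p}),
        (fun p => ⟨f2 p.1, (F1 c2 e2 p.1).2 p.2⟩ :
        {p // V.toplevel_F1 h p} → {p // V.toplevel_F1 h p})] :=
    orb_transversal (V.toplevel_fcfc h) (V.toplevel_F1_fc h) hs
      (List.Forall₂.cons (fun _ => rfl) (List.Forall₂.cons (fun _ => rfl) List.Forall₂.nil))
  rw [h1, h2]
  congr 1
  refine (orb_congr (V.toplevel_e h) (List.Forall₂.cons ?_ (List.Forall₂.cons ?_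
    List.Forall₂.nil))).symm
  · intro x
    exact Subtype.ext (e1 x).symm
  · intro x
    exact Subtype.ext (e2 x).symm

theorem toplevel_sph [Fintype Φ] (h : Φ)
    (he : 4 * (orb [V.a, V.b] + orb [V.b, V.d]) = Fintype.card Φ + 8 * orb [V.a, V.b, V.d]) :
    4 * (orb [(V.toplevel_mul h).fa, (V.toplevel_mul h).fb] +
      orb [(V.toplevel_mul h).fb, V.toplevel_M h]) = Nat.card (Fl (V.toplevel_n h)) + 16 := by
  have h1 : orb [(V.toplevel_mul h).fa, (V.toplevel_mul h).fb] =
      2 * orb [V.toplevel_aC h, V.toplevel_bC h] :=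
    V.toplevel_orb2 h (infl (V.toplevel_mul h)).ac (infl (V.toplevel_mul h)).bc
      (fun _ => rfl) (fun _ => rfl)
  have h2 : orb [(V.toplevel_mul h).fb, V.toplevel_M h] =
      2 * orb [V.toplevel_bC h, V.toplevel_dC h] :=
    V.toplevel_orb2 h (infl (V.toplevel_mul h)).bc (fun p => ((V.toplevel_S h).cM p).symm)
      (fun _ => rfl) (fun x => V.toplevel_M_mk h x.1 x.2)
  have h3 := V.toplevel_eulerC h he
  have h4 := V.toplevel_card h
  rw [h1, h2, h4]
  omega

/-- A boundary component which is on one side of the face of `h` only, and which is a sphere, is a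
good sphere. -/
theorem good_of_boundary [Fintype Φ] (h : Φ) (hc : ¬ SameOrb [V.a, V.b, V.d] h (V.c h))
    (he : 4 * (orb [V.a, V.b] + orb [V.b, V.d]) = Fintype.card Φ + 8 * orb [V.a, V.b, V.d]) :
    GoodSphere V h := by
  refine ⟨V.toplevel_S h, ?_, ?_, ?_, ?_⟩
  · exact V.toplevel_nc h
  · intro g hg p q
    exact V.toplevel_conn h g (hg _ (List.mem_cons_self ..))
      (hg _ (List.mem_cons_of_mem _ (List.mem_cons_self ..)))
      (hg _ (List.mem_cons_of_mem _ (List.mem_cons_of_mem _ (List.mem_cons_self ..))))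
      (hg _ (List.mem_cons_of_mem _ (List.mem_cons_of_mem _ (List.mem_cons_of_mem _
        (List.mem_cons_self ..))))) p q
  · exact V.toplevel_sph h he
  · have hh : V.toplevel_C h h := Relation.EqvGen.refl _
    have hc' : ¬ V.toplevel_C h (V.c h) := hc
    show V.toplevel_n h h = 1
    unfold toplevel_n
    rw [if_pos hh, if_neg hc']


/-! ### The top of the tower -/

/-- The flags along the boundary of a face. -/
def toplevel_r (h : Φ) (i : ℕ) : Φ := (fun y => V.b (V.a y))^[i] h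

theorem toplevel_r_succ (h : Φ) (i : ℕ) :
    V.toplevel_r h (i + 1) = V.b (V.a (V.toplevel_r h i)) := by
  unfold toplevel_r
  rw [Function.iterate_succ_apply']

theorem toplevel_r_sg (h : Φ) (i : ℕ) : V.sg (V.toplevel_r h i) = V.sg h := by
  induction i with
  | zero => rfl
  | succ i ih =>
    rw [V.toplevel_r_succ, V.sgb, V.sga, ih, add_assoc]
    have : (1 : F2) + 1 = 0 := by decide
    rw [this, add_zero]

theorem toplevel_r_sd (h : Φ) (i : ℕ) : V.sd (V.toplevel_r h i) = V.sd h := by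
  induction i with
  | zero => rfl
  | succ i ih => rw [V.toplevel_r_succ, V.sdb, V.sda, ih]

theorem toplevel_r_face (h : Φ) (i : ℕ) : V.OnFace h (V.toplevel_r h i) := by
  induction i with
  | zero => exact Relation.EqvGen.refl _
  | succ i ih =>
    rw [V.toplevel_r_succ]
    exact (toplevel_C_step (by simp) _).2 ((toplevel_C_step (by simp) _).2 ih)

theorem toplevel_face {h : Φ} {m : ℕ} (hm : V.FaceSize h m) {x : Φ} (hx : V.OnFace h x) :
    ∃ i < m, x = V.toplevel_r h i ∨ x = V.a (V.toplevel_r h i) ∨ x = V.c (V.toplevel_r h i) ∨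
      x = V.c (V.a (V.toplevel_r h i)) := by
  classical
  obtain ⟨hm0, hm1, -⟩ := hm
  have hr : V.toplevel_r h m = V.toplevel_r h 0 := hm1
  have B2 : ∀ i < m, ∃ j < m, V.b (V.a (V.toplevel_r h i)) = V.toplevel_r h j := by
    intro i hi
    rw [← V.toplevel_r_succ]
    rcases Nat.lt_or_ge (i + 1) m with h1 | h1
    · exact ⟨i + 1, h1, rfl⟩
    · exact ⟨0, hm0, by rw [← hr]; congr 1; omega⟩
  have B1 : ∀ i < m, ∃ j < m, V.b (V.toplevel_r h i) = V.a (V.toplevel_r h j) := by
    intro i hi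
    rcases Nat.eq_zero_or_pos i with h1 | h1
    · refine ⟨m - 1, by omega, ?_⟩
      have h2 := V.toplevel_r_succ h (m - 1)
      rw [show m - 1 + 1 = m by omega, hr] at h2
      rw [h1, h2, V.bb]
    · refine ⟨i - 1, by omega, ?_⟩
      have h2 := V.toplevel_r_succ h (i - 1)
      rw [show i - 1 + 1 = i by omega] at h2
      rw [h2, V.bb]
  let R : Φ → Prop := fun x => ∃ i < m, x = V.toplevel_r h i ∨ x = V.a (V.toplevel_r h i) ∨
    x = V.c (V.toplevel_r h i) ∨ x = V.c (V.a (V.toplevel_r h i))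
  have Ra : ∀ x, R x → R (V.a x) := by
    rintro x ⟨i, hi, rfl | rfl | rfl | rfl⟩
    · exact ⟨i, hi, Or.inr (Or.inl rfl)⟩
    · exact ⟨i, hi, Or.inl (V.aa _)⟩
    · exact ⟨i, hi, Or.inr (Or.inr (Or.inr (V.ac _)))⟩
    · exact ⟨i, hi, Or.inr (Or.inr (Or.inl (by rw [V.ac, V.aa])))⟩
  have Rc : ∀ x, R x → R (V.c x) := by
    rintro x ⟨i, hi, rfl | rfl | rfl | rfl⟩
    · exact ⟨i, hi, Or.inr (Or.inr (Or.inl rfl))⟩
    · exact ⟨i, hi, Or.inr (Or.inr (Or.inr rfl))⟩
    · exact ⟨i, hi, Or.inl (V.cc _)⟩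
    · exact ⟨i, hi, Or.inr (Or.inl (V.cc _))⟩
  have Rb : ∀ x, R x → R (V.b x) := by
    rintro x ⟨i, hi, rfl | rfl | rfl | rfl⟩
    · obtain ⟨j, hj, e⟩ := B1 i hi
      exact ⟨j, hj, Or.inr (Or.inl e)⟩
    · obtain ⟨j, hj, e⟩ := B2 i hi
      exact ⟨j, hj, Or.inl e⟩
    · obtain ⟨j, hj, e⟩ := B1 i hi
      exact ⟨j, hj, Or.inr (Or.inr (Or.inr (by rw [V.bc, e])))⟩
    · obtain ⟨j, hj, e⟩ := B2 i hi
      exact ⟨j, hj, Or.inr (Or.inr (Or.inl (by rw [V.bc, e])))⟩
  have hg : (fun x => if R x then (1 : F2) else 0) ∈ Inv [V.a, V.b, V.c] := by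
    intro f hf x
    simp only [List.mem_cons, List.not_mem_nil, or_false] at hf
    refine if_congr ?_ rfl rfl
    rcases hf with rfl | rfl | rfl
    · exact ⟨fun h1 => by rw [← V.aa x]; exact Ra _ h1, Ra x⟩
    · exact ⟨fun h1 => by rw [← V.bb x]; exact Rb _ h1, Rb x⟩
    · exact ⟨fun h1 => by rw [← V.cc x]; exact Rc _ h1, Rc x⟩
  have h1 := toplevel_inv_of_orb hx hg
  have h2 : R h := ⟨0, hm0, Or.inl rfl⟩
  by_contra h3
  have h4 : ¬ R x := h3
  simp only [if_pos h2, if_neg h4] at h1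
  exact one_ne_zero h1

theorem toplevel_r_inj {h : Φ} {m : ℕ} (hm : V.FaceSize h m) {i j : ℕ} (hi : i < m) (hj : j < m)
    (e : V.toplevel_r h i = V.toplevel_r h j) : i = j := by
  obtain ⟨-, -, hm2⟩ := hm
  have inj : Function.Injective (fun y => V.b (V.a y)) := by
    intro x y hxy
    have h1 := congrArg V.b hxy
    simp only [V.bb] at h1
    have h2 := congrArg V.a h1
    simpa only [V.aa] using h2
  have key : ∀ i j, i < j → j < m → V.toplevel_r h i ≠ V.toplevel_r h j := by
    intro i j hij hj e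
    refine hm2 (j - i) (by omega) (by omega) ?_
    apply inj.iterate i
    show (fun y => V.b (V.a y))^[i] ((fun y => V.b (V.a y))^[j - i] h) =
      (fun y => V.b (V.a y))^[i] h
    rw [← Function.iterate_add_apply, show i + (j - i) = j by omega]
    exact e.symm
  rcases Nat.lt_trichotomy i j with h1 | h1 | h1
  · exact absurd e (key i j h1 hj)
  · exact h1
  · exact absurd e.symm (key j i h1 hi)

/-- Moving the flags of a face to the good side. -/
theorem toplevel_U (s t : F2) : ∃ U : Φ → Φ, (∀ x, U (U x) = x) ∧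
    (∀ x, V.sg (U x) = V.sg x + s + 1) ∧ (∀ x, V.sd (U x) = V.sd x + t + 1) ∧
    (∀ h x, V.OnFace h (U x) ↔ V.OnFace h x) ∧
    ∀ κ ∈ Inv [V.a, V.c, V.d], ∀ x, κ (U x) = κ x := by
  have h11 : ∀ a : F2, a + 1 + 1 = a := by decide
  rcases toplevel_f2 s with rfl | rfl <;> rcases toplevel_f2 t with rfl | rfl
  · refine ⟨V.c, V.cc, ?_, ?_, ?_, ?_⟩
    · intro x
      rw [V.sgc, add_zero]
    · intro x
      rw [V.sdc, add_zero]
    · intro h x
      exact toplevel_C_step (by simp) x
    · intro κ hκ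
      exact hκ V.c (by simp)
  · refine ⟨V.a, V.aa, ?_, ?_, ?_, ?_⟩
    · intro x
      rw [V.sga, add_zero]
    · intro x
      rw [V.sda, h11]
    · intro h x
      exact toplevel_C_step (by simp) x
    · intro κ hκ
      exact hκ V.a (by simp)
  · refine ⟨fun x => V.c (V.a x), ?_, ?_, ?_, ?_, ?_⟩
    · intro x
      show V.c (V.a (V.c (V.a x))) = x
      rw [V.ac, V.aa, V.cc]
    · intro x
      show V.sg (V.c (V.a x)) = _
      rw [V.sgc, V.sga]
    · intro x
      show V.sd (V.c (V.a x)) = _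
      rw [V.sdc, V.sda, add_zero]
    · intro h x
      exact (toplevel_C_step (by simp) _).trans (toplevel_C_step (by simp) x)
    · intro κ hκ x
      exact (hκ V.c (by simp) _).trans (hκ V.a (by simp) x)
  · refine ⟨fun x => x, fun x => rfl, ?_, ?_, fun h x => Iff.rfl, fun κ hκ x => rfl⟩
    · intro x
      rw [h11]
    · intro x
      rw [h11]

open Classical in
/-- The sum of a function on the edges over the boundary of a face. -/
theorem toplevel_facesum [Fintype Φ] {h : Φ} {m : ℕ} (hm : V.FaceSize h m) {κ : Φ → F2}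
    (hκ : κ ∈ Inv [V.a, V.c, V.d]) :
    ∑ y ∈ Finset.univ.filter (fun y => V.sg y = 1 ∧ V.sd y = 1),
      κ y * (if V.OnFace h y then 1 else 0) = ∑ i ∈ Finset.range m, κ (V.toplevel_r h i) := by
  obtain ⟨U, hUU, hUg, hUd, hUf, hUκ⟩ := V.toplevel_U (V.sg h) (V.sd h)
  have h1 : ∀ a : F2, a + a + 1 = 1 := by decide
  have h2 : ∑ y ∈ Finset.univ.filter (fun y => V.sg y = 1 ∧ V.sd y = 1),
      κ y * (if V.OnFace h y then 1 else 0) =
      ∑ y ∈ (Finset.univ.filter (fun y => V.sg y = 1 ∧ V.sd y = 1)).filter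
        (fun y => V.OnFace h y), κ y := by
    rw [Finset.sum_filter (fun y => V.OnFace h y)]
    refine Finset.sum_congr rfl fun y _ => ?_
    split_ifs
    · rw [mul_one]
    · rw [mul_zero]
  rw [h2]
  symm
  refine Finset.sum_nbij (fun i => U (V.toplevel_r h i)) ?_ ?_ ?_ ?_
  · intro i _
    simp only [Finset.mem_filter, Finset.mem_univ, true_and]
    refine ⟨⟨?_, ?_⟩, ?_⟩
    · rw [hUg, V.toplevel_r_sg, h1]
    · rw [hUd, V.toplevel_r_sd, h1]
    · exact (hUf h _).2 (V.toplevel_r_face h i)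
  · intro i hi j hj e
    have hi' : i < m := by simpa using hi
    have hj' : j < m := by simpa using hj
    have e1 : U (V.toplevel_r h i) = U (V.toplevel_r h j) := e
    have e2 := congrArg U e1
    rw [hUU, hUU] at e2
    exact V.toplevel_r_inj hm hi' hj' e2
  · intro y hy
    simp only [Finset.coe_filter, Finset.mem_filter, Finset.mem_univ, true_and,
      Set.mem_ofPred_eq] at hy
    obtain ⟨⟨hy1, hy2⟩, hy3⟩ := hy
    have hf := (hUf h y).2 hy3
    have hg : V.sg (U y) = V.sg h := by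
      rw [hUg, hy1]
      have : ∀ a : F2, 1 + a + 1 = a := by decide
      rw [this]
    have hd : V.sd (U y) = V.sd h := by
      rw [hUd, hy2]
      have : ∀ a : F2, 1 + a + 1 = a := by decide
      rw [this]
    have hne : ∀ a : F2, a + 1 ≠ a := by decide
    obtain ⟨i, hi, h3⟩ := V.toplevel_face hm hf
    refine ⟨i, by simpa using hi, ?_⟩
    have h4 : U y = V.toplevel_r h i := by
      rcases h3 with h3 | h3 | h3 | h3
      · exact h3
      · exfalso
        rw [h3, V.sga, V.toplevel_r_sg] at hg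
        exact hne _ hg
      · exfalso
        rw [h3, V.sdc, V.toplevel_r_sd] at hd
        exact hne _ hd
      · exfalso
        rw [h3, V.sdc, V.sda, V.toplevel_r_sd] at hd
        exact hne _ hd
    show U (V.toplevel_r h i) = y
    rw [← h4, hUU]
  · intro i _
    exact (hUκ κ hκ _).symm

variable {V}

theorem toplevel_asum_zero {T : Φ → Prop} {hT : V.IsSub T} (κ : Φ → F2) {u : List Gen}
    (hu : Gen.a ∉ u) (x : Φ) : V.asum hT κ u x = 0 := by
  induction u generalizing x with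
  | nil => rfl
  | cons g u ih =>
    have h1 : g ≠ Gen.a := fun e => hu (by rw [e]; exact List.mem_cons_self ..)
    have h2 : Gen.a ∉ u := fun e => hu (List.mem_cons_of_mem _ e)
    show (if g = .a then κ x else 0) + V.asum hT κ u (V.gen hT g x) = 0
    rw [if_neg h1, ih h2, add_zero]

theorem toplevel_shadow_CD {T : Φ → Prop} {hT : V.IsSub T} {χ y χ' y' : Φ} {w : List Gen} {m : ℕ}
    (h : V.Shadow hT χ y w χ' y' m) : V.CD χ y := by
  cases h with
  | nil _ _ h => exact h
  | step _ _ h => exact h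

theorem toplevel_shadow_asum {T : Φ → Prop} {hT : V.IsSub T} {χ y χ' y' : Φ} {w : List Gen}
    {m : ℕ} (h : V.Shadow hT χ y w χ' y' m) {κ : Φ → F2} (hκ : κ ∈ Inv [V.a, V.c, V.d]) :
    V.asum hT κ w y = ∑ i ∈ Finset.range m, κ (V.toplevel_r χ i) := by
  induction h with
  | nil χ y h => rfl
  | step χ y h u w χ' y' m hu _ ih =>
    show (if Gen.a = Gen.a then κ y else 0) + V.asum hT κ (u ++ w) (V.a y) = _
    rw [if_pos rfl, asum_append, toplevel_asum_zero κ hu, zero_add, ih, Finset.sum_range_succ',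
      add_comm]
    congr 1
    have h1 : κ ∈ Inv [V.c, V.d] := fun f hf => hκ f (List.mem_cons_of_mem _ hf)
    exact (toplevel_inv_of_orb h h1).symm

variable (V)

/-- The top of the tower. -/
theorem good_of_H1zero [Fintype Φ] {h : Φ} {B N : ℕ} (hC : V.Cert h B N) (hH : V.H1zero) :
    GoodSphere V h := by
  classical
  obtain ⟨⟨hT, y, w, S, m, hm, hs, hn, hS⟩, -⟩ := hC
  have : Nonempty Φ := ⟨h⟩
  have hc : ∀ g ∈ Inv [V.a, V.b, V.c, V.d], ∀ x y, g x = g y := by
    intro g hg
    have ga : ∀ z, g (V.a z) = g z := hg V.a (by simp)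
    have gb : ∀ z, g (V.b z) = g z := hg V.b (by simp)
    have gc : ∀ z, g (V.c z) = g z := hg V.c (by simp)
    have gd : ∀ z, g (V.d z) = g z := hg V.d (by simp)
    have g1 : g ∈ Inv [V.c, V.d] := by
      intro f hf
      simp only [List.mem_cons, List.not_mem_nil, or_false] at hf
      rcases hf with rfl | rfl
      · exact gc
      · exact gd
    have g2 : g ∈ Inv [V.a, V.b, V.c] := by
      intro f hf
      simp only [List.mem_cons, List.not_mem_nil, or_false] at hf
      rcases hf with rfl | rfl | rfl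
      · exact ga
      · exact gb
      · exact gc
    have hhy : g h = g y := toplevel_inv_of_orb (toplevel_shadow_CD hs) g1
    have key : ∀ x, g x = g y := by
      intro x
      by_cases hx : V.OnFace h x
      · rw [← hhy]
        exact (toplevel_inv_of_orb hx g2).symm
      · obtain ⟨z, hz, hzx⟩ := hS x hx
        rw [← hn.conn hz ga gb gc gd]
        exact (toplevel_inv_of_orb hzx g2).symm
    intro x x'
    rw [key x, key x']
  obtain ⟨z0, hz0, hz1, hz2⟩ := hn.chain
  have hz : (fun x => z0 x + if V.OnFace h x then 1 else 0) ∈ Inv [V.a, V.b, V.c] := by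
    intro f hf x
    show z0 (f x) + _ = z0 x + _
    rw [hz0 f hf x]
    congr 1
    exact if_congr (toplevel_C_step hf x) rfl rfl
  obtain ⟨G, hG, hGz⟩ := V.top_cycle hc hH hz (by
    intro κ hκ
    simp only [mul_add, Finset.sum_add_distrib]
    have h1 := V.toplevel_facesum hm hκ
    rw [← toplevel_shadow_asum hs hκ, hz2 κ hκ] at h1
    exact toplevel_add_eq_zero.2 h1)
  have hGh : G h + G (V.c h) = 1 := by
    have hface : V.OnFace h h := Relation.EqvGen.refl _
    rw [hGz h, hz1 h (fun h1 => h1 hface), if_pos hface, zero_add]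
  refine V.good_of_boundary h ?_ (V.top_euler hc hH)
  intro horb
  rw [toplevel_inv_of_orb horb hG] at hGh
  have h2 : G (V.c h) + G (V.c h) = 0 := toplevel_add_eq_zero.2 rfl
  rw [h2] at hGh
  exact zero_ne_one hGh

end TMap

end Pool.Agent.Lib.MP_131179_gt.Dehn
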