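import Pool.Agent.Lib.MP_131179_gt.Dehn.Good
import Pool.Agent.Lib.MP_131179_gt.Dehn.Descent
import Pool.Agent.Lib.MP_131179_gt.Dehn.TopLevel

/-!
# Spheres in subcomplexes, double covers, and after descent
-/

set_option autoImplicit false

namespace Pool.Agent.Lib.MP_131179_gt.Dehn

variable {Φ : Type} {V : TMap Φ}

/-! ### Auxiliary lemmas -/

theorem transfer_const {Ω α : Type} {s : List (Ω → Ω)} {g : Ω → α}
    (hg : ∀ f ∈ s, ∀ x, g (f x) = g x) {x y : Ω} (h : SameOrb s x y) : g x = g y := by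
  induction h with
  | rel x y h =>
    obtain ⟨f, hf, rfl⟩ := h
    exact (hg f hf x).symm
  | refl => rfl
  | symm _ _ _ ih => exact ih.symm
  | trans _ _ _ _ _ h1 h2 => exact h1.trans h2

theorem transfer_CD_const {α : Type} {g : Φ → α} (hc : ∀ x, g (V.c x) = g x)
    (hd : ∀ x, g (V.d x) = g x) {x y : Φ} (h : V.CD x y) : g x = g y := by
  refine transfer_const (s := [V.c, V.d]) ?_ h
  intro f hf
  simp only [List.mem_cons, List.not_mem_nil, or_false] at hf
  rcases hf with rfl | rfl
  · exact hc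
  · exact hd

theorem transfer_inv3 {Ω : Type} {f1 f2 f3 : Ω → Ω} {g : Ω → F2} :
    g ∈ Inv [f1, f2, f3] ↔ (∀ x, g (f1 x) = g x) ∧ (∀ x, g (f2 x) = g x) ∧
      ∀ x, g (f3 x) = g x := by
  rw [mem_Inv]
  simp only [List.mem_cons, List.not_mem_nil, or_false, forall_eq_or_imp, forall_eq]

theorem transfer_inv4 {Ω : Type} {f1 f2 f3 f4 : Ω → Ω} {g : Ω → F2} :
    g ∈ Inv [f1, f2, f3, f4] ↔ (∀ x, g (f1 x) = g x) ∧ (∀ x, g (f2 x) = g x) ∧
      (∀ x, g (f3 x) = g x) ∧ ∀ x, g (f4 x) = g x := by
  rw [mem_Inv]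
  simp only [List.mem_cons, List.not_mem_nil, or_false, forall_eq_or_imp, forall_eq]

theorem transfer_add_self (x : F2) : x + x = 0 := CharTwo.add_self_eq_zero x

/-! ### Subcomplexes -/

open Classical in
/-- Extension by zero of the number of sheets. -/
noncomputable def transferSubN {p : Φ → Prop} (n : {x // p x} → ℕ) (x : Φ) : ℕ :=
  if hx : p x then n ⟨x, hx⟩ else 0

theorem transferSubN_val {p : Φ → Prop} (n : {x // p x} → ℕ) (x : {x // p x}) :
    transferSubN n x.1 = n x := dif_pos x.2

theorem transferSubN_mk {p : Φ → Prop} (n : {x // p x} → ℕ) {x : Φ} (hx : p x) :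
    transferSubN n x = n ⟨x, hx⟩ := dif_pos hx

theorem transferSubN_zero {p : Φ → Prop} (n : {x // p x} → ℕ) {x : Φ} (hx : ¬ p x) :
    transferSubN n x = 0 := dif_neg hx

theorem transferSubN_pos {p : Φ → Prop} {n : {x // p x} → ℕ} {x : Φ}
    (h : 0 < transferSubN n x) : p x := by
  by_contra hx
  rw [transferSubN_zero n hx] at h
  exact lt_irrefl 0 h

/-- The flags of the sheets are the same. -/
noncomputable def transferSubE {p : Φ → Prop} (n : {x // p x} → ℕ) :
    Fl n ≃ Fl (transferSubN n) where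
  toFun q := ⟨(q.1.1.1, q.1.2), by
    change q.1.2 < transferSubN n q.1.1.1
    rw [transferSubN_val]; exact q.2⟩
  invFun q := ⟨(⟨q.1.1, transferSubN_pos (lt_of_le_of_lt (Nat.zero_le _) q.2)⟩, q.1.2), by
    have h := q.2
    rw [transferSubN_mk n (transferSubN_pos (lt_of_le_of_lt (Nat.zero_le _) q.2))] at h
    exact h⟩
  left_inv _ := rfl
  right_inv _ := rfl

theorem transferSub_mul {p : Φ → Prop} (hp : V.IsSub p) {n : {x // p x} → ℕ}
    (hn : (V.sub hp).Mul n) : V.Mul (transferSubN n) where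
  a := fun x => by
    by_cases hx : p x
    · rw [transferSubN_mk n ((hp.a x).2 hx), transferSubN_mk n hx]
      exact hn.a ⟨x, hx⟩
    · rw [transferSubN_zero n (fun h => hx ((hp.a x).1 h)), transferSubN_zero n hx]
  b := fun x => by
    by_cases hx : p x
    · rw [transferSubN_mk n ((hp.b x).2 hx), transferSubN_mk n hx]
      exact hn.b ⟨x, hx⟩
    · rw [transferSubN_zero n (fun h => hx ((hp.b x).1 h)), transferSubN_zero n hx]
  c := fun x => by
    by_cases hx : p x
    · rw [transferSubN_mk n ((hp.c x).2 hx), transferSubN_mk n hx]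
      exact hn.c ⟨x, hx⟩
    · rw [transferSubN_zero n (fun h => hx ((hp.c x).1 h)), transferSubN_zero n hx]

theorem transferSub_below {p : Φ → Prop} {n : {x // p x} → ℕ} {S : Fl n → Prop}
    {S' : Fl (transferSubN n) → Prop} (h : ∀ q, S' (transferSubE n q) ↔ S q) (x : {x // p x})
    (k : ℕ) : TMap.below S' x.1 k = TMap.below S x k := by
  unfold TMap.below
  refine Finset.sum_congr rfl fun j _ => ?_
  have hiff : (∃ h : j < transferSubN n x.1, S' ⟨(x.1, j), h⟩) ↔
      ∃ h : j < n x, S ⟨(x, j), h⟩ := by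
    constructor
    · rintro ⟨hj, hS⟩
      have hj' : j < n x := by rwa [transferSubN_val] at hj
      exact ⟨hj', (h ⟨(x, j), hj'⟩).1 hS⟩
    · rintro ⟨hj, hS⟩
      exact ⟨by rwa [transferSubN_val], (h ⟨(x, j), hj⟩).2 hS⟩
  by_cases hP : ∃ h : j < n x, S ⟨(x, j), h⟩
  · rw [if_pos (hiff.2 hP), if_pos hP]
  · rw [if_neg (fun h => hP (hiff.1 h)), if_neg hP]

theorem transfer_below_zero {n : Φ → ℕ} (S : Fl n → Prop) {x : Φ} (h : n x = 0) (k : ℕ) :
    TMap.below S x k = 0 := by
  unfold TMap.below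
  refine Finset.sum_eq_zero fun j _ => ?_
  rw [if_neg]
  rintro ⟨hj, -⟩
  omega

/-- A sphere in a subcomplex is a sphere in the complex, and does not use the other faces. -/
theorem good_of_sub_strong {p : Φ → Prop} (hp : V.IsSub p) {h : {x // p x}}
    (hG : GoodSphere (V.sub hp) h) :
    ∃ S : Carried V, S.IsGood h.1 ∧ ∀ x, ¬ p x → S.n x = 0 := by
  obtain ⟨S, hS⟩ := hG
  have hm : V.Mul (transferSubN S.n) := transferSub_mul hp S.hn
  let e := transferSubE S.n
  have ea : ∀ q, e (S.hn.fa q) = hm.fa (e q) := fun _ => rfl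
  have eb : ∀ q, e (S.hn.fb q) = hm.fb (e q) := fun _ => rfl
  have ec : ∀ q, e (S.hn.fc q) = hm.fc (e q) := by
    intro q
    apply Subtype.ext
    refine Prod.ext rfl ?_
    change S.n q.1.1 - 1 - q.1.2 = transferSubN S.n q.1.1.1 - 1 - q.1.2
    rw [transferSubN_val]
  have ea' : ∀ q, e.symm (hm.fa q) = S.hn.fa (e.symm q) := fun q => by
    rw [Equiv.symm_apply_eq, ea, Equiv.apply_symm_apply]
  have eb' : ∀ q, e.symm (hm.fb q) = S.hn.fb (e.symm q) := fun q => by
    rw [Equiv.symm_apply_eq, eb, Equiv.apply_symm_apply]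
  have ec' : ∀ q, e.symm (hm.fc q) = S.hn.fc (e.symm q) := fun q => by
    rw [Equiv.symm_apply_eq, ec, Equiv.apply_symm_apply]
  have e1 : ∀ q, (e.symm q).1.1.1 = q.1.1 := fun _ => rfl
  have hfin := S.fin
  let S' : Carried V :=
    { n := transferSubN S.n
      hn := hm
      fin := Finite.of_equiv _ e
      M := fun q => e (S.M (e.symm q))
      MM := fun q => by rw [Equiv.symm_apply_apply, S.MM, Equiv.apply_symm_apply]
      aM := fun q => by rw [← ea, S.aM, ea']
      cM := fun q => by rw [← ec, S.cM, ec']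
      sgM := fun q => S.sgM (e.symm q)
      cdM := fun q => (V.sub_CD hp).1 (S.cdM (e.symm q)) }
  have hM : ∀ q, S'.M (e q) = e (S.M q) := fun q => by
    change e (S.M (e.symm (e q))) = _
    rw [Equiv.symm_apply_apply]
  refine ⟨S', ⟨?_, ?_, ?_, ?_⟩, fun x hx => transferSubN_zero S.n hx⟩
  · intro q'
    obtain ⟨q, rfl⟩ := e.surjective q'
    obtain ⟨G, hG1, hG2⟩ := hS.nc q
    obtain ⟨G', h1, h2, h3⟩ := V.sub_extend hp hG1.d
    have hOwn : ∀ z, S'.Own (e q) (e z) ↔ S.Own q z := by
      intro z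
      unfold Carried.Own
      rw [hM]
      have c1 : S'.hn.fc (e q) = e (S.hn.fc q) := (ec q).symm
      have c2 : S'.hn.fc (e (S.M q)) = e (S.hn.fc (S.M q)) := (ec _).symm
      rw [c1, c2, e.injective.eq_iff, e.injective.eq_iff, e.injective.eq_iff,
        e.injective.eq_iff]
    refine ⟨G', ⟨h1, ?_⟩, ?_⟩
    · intro x
      by_cases hx : p x
      · have e3 : TMap.below (S'.Own (e q)) x (S'.n x) = TMap.below (S.Own q) ⟨x, hx⟩ (S.n ⟨x, hx⟩) := by
          have := transferSub_below hOwn ⟨x, hx⟩ (S.n ⟨x, hx⟩)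
          rw [← this]
          congr 1
          exact transferSubN_mk S.n hx
        rw [e3, ← hG1.c ⟨x, hx⟩]
        have e4 := h3 ⟨x, hx⟩
        have e5 := h3 ((V.sub hp).c ⟨x, hx⟩)
        rw [← e4, ← e5]
        rfl
      · rw [h2 x hx, transfer_add_self, transfer_below_zero]
        exact transferSubN_zero S.n hx
    · intro z'
      obtain ⟨z, rfl⟩ := e.surjective z'
      have hside : ∀ w, S'.side (e q) G' (e w) = S.side q G w := by
        intro w
        unfold Carried.side
        have := transferSub_below hOwn w.1.1 w.1.2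
        change G' w.1.1.1 + TMap.below (S'.Own (e q)) w.1.1.1 w.1.2 = _
        rw [this, h3]
      rw [hM, hside, hside]
      exact hG2 z
  · intro g hg p' q'
    rw [transfer_inv4] at hg
    obtain ⟨g1, g2, g3, g4⟩ := hg
    have := hS.conn (fun z => g (e z)) (transfer_inv4.2 ⟨fun x => g1 (e x), fun x => g2 (e x),
      fun x => by
        rw [ec]
        exact g3 (e x), fun x => by
        rw [← hM]
        exact g4 (e x)⟩) (e.symm p') (e.symm q')
    simpa using this
  · have o1 : orb [S.hn.fa, S.hn.fb] = orb [S'.hn.fa, S'.hn.fb] :=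
      orb_congr e (List.Forall₂.cons ea (List.Forall₂.cons eb List.Forall₂.nil))
    have o2 : orb [S.hn.fb, S.M] = orb [S'.hn.fb, S'.M] :=
      orb_congr e (List.Forall₂.cons eb (List.Forall₂.cons (fun x => (hM x).symm) List.Forall₂.nil))
    rw [← o1, ← o2, hS.sph]
    congr 1
    exact Nat.card_congr e
  · change transferSubN S.n h.1 = 1
    rw [transferSubN_val]
    exact hS.h0

/-- A sphere in a subcomplex is a sphere in the complex. -/
theorem good_of_sub {p : Φ → Prop} (hp : V.IsSub p) {h : {x // p x}}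
    (hG : GoodSphere (V.sub hp) h) : GoodSphere V h.1 := by
  obtain ⟨S, hS, -⟩ := good_of_sub_strong hp hG
  exact ⟨S, hS⟩

/-! ### Components -/

theorem transfer_ineq {Ω : Type} [Finite Ω] {a b c N : Ω → Ω} (ha : FPF a) (hb : FPF b)
    (hN : FPF N) (hne : ∀ v, a (N v) ≠ v) (haN : ∀ v, a (N v) = N (a v)) (hc : ∀ v, c (c v) = v)
    (hac : ∀ v, a (c v) = c (a v)) (hbc : ∀ v, b (c v) = c (b v))
    (hNc : ∀ v, N (c v) = c (N v)) :
    4 * (orb [a, b] + orb [b, N]) ≤ Nat.card Ω + 16 * orb [a, b, c, N] := by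
  have := Fintype.ofFinite Ω
  have h1 := euler_le ha hb hN hne haN
  have h2 : orb [a, b, N] ≤ 2 * orb [c, a, b, N] := by
    refine orb_le_double hc ?_
    intro f hf
    simp only [List.mem_cons, List.not_mem_nil, or_false] at hf
    rcases hf with rfl | rfl | rfl
    · exact hac
    · exact hbc
    · exact hNc
  have h3 : orb [c, a, b, N] = orb [a, b, c, N] := by
    refine orb_congr_inv fun g => ?_
    rw [transfer_inv4, transfer_inv4]
    tauto
  rw [Nat.card_eq_fintype_card]
  omega

theorem transfer_sameOrb {Ω : Type} {s : List (Ω → Ω)} {f : Ω → Ω} (hf : f ∈ s) {x y : Ω}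
    (h : SameOrb s x y) : SameOrb s x (f y) :=
  Relation.EqvGen.trans _ _ _ h (Relation.EqvGen.rel _ _ ⟨f, hf, rfl⟩)

theorem transfer_sameOrb_iff {Ω : Type} {s : List (Ω → Ω)} {f : Ω → Ω} (hf : f ∈ s) {x y : Ω} :
    SameOrb s x (f y) ↔ SameOrb s x y :=
  ⟨fun h => Relation.EqvGen.trans _ _ _ h
    (Relation.EqvGen.symm _ _ (Relation.EqvGen.rel _ _ ⟨f, hf, rfl⟩)), transfer_sameOrb hf⟩

/-- An invariant function on a component is constant. -/
theorem transfer_comp_const {Ω : Type} {f1 f2 f3 f4 : Ω → Ω} {z0 : Ω}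
    (g : Ω → F2) (h1 : ∀ z, SameOrb [f1, f2, f3, f4] z0 z → g (f1 z) = g z)
    (h2 : ∀ z, SameOrb [f1, f2, f3, f4] z0 z → g (f2 z) = g z)
    (h3 : ∀ z, SameOrb [f1, f2, f3, f4] z0 z → g (f3 z) = g z)
    (h4 : ∀ z, SameOrb [f1, f2, f3, f4] z0 z → g (f4 z) = g z) {z : Ω}
    (hz : SameOrb [f1, f2, f3, f4] z0 z) : g z0 = g z := by
  classical
  let g' : Ω → F2 := fun z => if SameOrb [f1, f2, f3, f4] z0 z then g z else 0
  have key : ∀ f ∈ [f1, f2, f3, f4], (∀ z, SameOrb [f1, f2, f3, f4] z0 z → g (f z) = g z) →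
      ∀ z, g' (f z) = g' z := by
    intro f hf hfz z
    by_cases h : SameOrb [f1, f2, f3, f4] z0 z
    · have h' := transfer_sameOrb hf h
      change (if _ then _ else _) = (if _ then _ else _)
      rw [if_pos h, if_pos h', hfz z h]
    · have h' : ¬ SameOrb [f1, f2, f3, f4] z0 (f z) := fun h' =>
        h ((transfer_sameOrb_iff hf).1 h')
      change (if _ then _ else _) = (if _ then _ else _)
      rw [if_neg h, if_neg h']
  have hg' : ∀ f ∈ [f1, f2, f3, f4], ∀ z, g' (f z) = g' z := by
    intro f hf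
    have hf' := hf
    simp only [List.mem_cons, List.not_mem_nil, or_false] at hf'
    rcases hf' with rfl | rfl | rfl | rfl
    · exact key _ hf h1
    · exact key _ hf h2
    · exact key _ hf h3
    · exact key _ hf h4
  have h := transfer_const hg' hz
  have h0 : SameOrb [f1, f2, f3, f4] z0 z0 := Relation.EqvGen.refl _
  change (if _ then _ else _) = (if _ then _ else _) at h
  rw [if_pos h0, if_pos hz] at h
  exact h

/-! ### Selecting some of the parallel sheets -/

/-- The copy number `k` over `x` is selected. -/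
def transferP {n : Φ → ℕ} (T : Fl n → Prop) (x : Φ) (k : ℕ) : Prop :=
  ∃ h : k < n x, T ⟨(x, k), h⟩

open Classical in
/-- The number of selected copies among the first `k` copies. -/
noncomputable def transferC {n : Φ → ℕ} (T : Fl n → Prop) (x : Φ) (k : ℕ) : ℕ :=
  Nat.count (transferP T x) k

open Classical in
theorem transferC_succ_pos {n : Φ → ℕ} {T : Fl n → Prop} {x : Φ} {k : ℕ}
    (h : transferP T x k) : transferC T x (k + 1) = transferC T x k + 1 := by
  unfold transferC
  rw [Nat.count_succ, if_pos h]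

open Classical in
theorem transferC_succ_neg {n : Φ → ℕ} {T : Fl n → Prop} {x : Φ} {k : ℕ}
    (h : ¬ transferP T x k) : transferC T x (k + 1) = transferC T x k := by
  unfold transferC
  rw [Nat.count_succ, if_neg h, add_zero]

theorem transferC_zero {n : Φ → ℕ} (T : Fl n → Prop) (x : Φ) : transferC T x 0 = 0 := by
  unfold transferC
  simp

/-- The number of selected copies. -/
noncomputable def transferSelN {n : Φ → ℕ} (T : Fl n → Prop) (x : Φ) : ℕ := transferC T x (n x)

open Classical in
theorem transferC_lt {n : Φ → ℕ} {T : Fl n → Prop} {x : Φ} {k l : ℕ} (h : transferP T x k)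
    (hl : k < l) : transferC T x k < transferC T x l := Nat.count_strict_mono h hl

/-- The new number of a selected sheet. -/
noncomputable def transferSelF {n : Φ → ℕ} (T : Fl n → Prop) (q : {q : Fl n // T q}) :
    Fl (transferSelN T) :=
  ⟨(q.1.1.1, transferC T q.1.1.1 q.1.1.2),
    transferC_lt (k := q.1.1.2) (l := n q.1.1.1) ⟨q.1.2, q.2⟩ q.1.2⟩

theorem transferSelF_inj {n : Φ → ℕ} (T : Fl n → Prop) : Function.Injective (transferSelF T) := by
  rintro ⟨⟨⟨x, k⟩, hk⟩, hT⟩ ⟨⟨⟨y, l⟩, hl⟩, hT'⟩ h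
  have h1 : (x, transferC T x k) = (y, transferC T y l) := congrArg Subtype.val h
  rw [Prod.mk.injEq] at h1
  obtain ⟨rfl, h2⟩ := h1
  have hP : transferP T x k := ⟨hk, hT⟩
  have hP' : transferP T x l := ⟨hl, hT'⟩
  have hkl : k = l := by
    rcases lt_trichotomy k l with h | h | h
    · exact absurd h2 (transferC_lt hP h).ne
    · exact h
    · exact absurd h2 (transferC_lt hP' h).ne'
  subst hkl
  rfl

theorem transferSelF_surj {n : Φ → ℕ} (T : Fl n → Prop) :
    Function.Surjective (transferSelF T) := by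
  classical
  rintro ⟨⟨x, k'⟩, hk'⟩
  have hcond : ∀ hf : (Set.ofPred (transferP T x)).Finite, k' < hf.toFinset.card := by
    intro hf
    refine lt_of_lt_of_le (show k' < transferC T x (n x) from hk') ?_
    exact Nat.count_le_card hf (n x)
  have h1 := Nat.nth_mem k' hcond
  have h2 := Nat.count_nth hcond
  obtain ⟨hlt, hT⟩ := h1
  refine ⟨⟨⟨(x, Nat.nth (transferP T x) k'), hlt⟩, hT⟩, ?_⟩
  apply Subtype.ext
  refine Prod.ext rfl ?_
  exact h2

/-- Selected sheets are renumbered. -/
noncomputable def transferSelE {n : Φ → ℕ} (T : Fl n → Prop) :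
    {q : Fl n // T q} ≃ Fl (transferSelN T) :=
  Equiv.ofBijective _ ⟨transferSelF_inj T, transferSelF_surj T⟩

theorem transferSelE_val {n : Φ → ℕ} (T : Fl n → Prop) (q : {q : Fl n // T q}) :
    (transferSelE T q).1 = (q.1.1.1, transferC T q.1.1.1 q.1.1.2) := rfl

theorem transferSel_below {n : Φ → ℕ} {T S : Fl n → Prop} {S' : Fl (transferSelN T) → Prop}
    (hST : ∀ q, S q → T q) (h : ∀ q : {q : Fl n // T q}, S' (transferSelE T q) ↔ S q.1) (x : Φ) :
    ∀ k, k ≤ n x → TMap.below S' x (transferC T x k) = TMap.below S x k := by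
  intro k
  induction k with
  | zero =>
    intro _
    rw [transferC_zero]
    unfold TMap.below
    simp
  | succ k ih =>
    intro hk
    have hk' : k < n x := hk
    have e1 : TMap.below S x (k + 1) = TMap.below S x k + TMap.below S x (k + 1) +
        TMap.below S x k := by
      rw [add_right_comm, transfer_add_self, zero_add]
    by_cases hP : transferP T x k
    · obtain ⟨_, hT⟩ := hP
      have hlt : transferC T x k < transferSelN T x := transferC_lt ⟨hk', hT⟩ hk'
      have hiff : (∃ h : transferC T x k < transferSelN T x, S' ⟨(x, transferC T x k), h⟩) ↔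
          ∃ h : k < n x, S ⟨(x, k), h⟩ := by
        have h0 := h ⟨⟨(x, k), hk'⟩, hT⟩
        constructor
        · rintro ⟨_, hS⟩
          exact ⟨hk', h0.1 hS⟩
        · rintro ⟨_, hS⟩
          exact ⟨hlt, h0.2 hS⟩
      rw [transferC_succ_pos ⟨hk', hT⟩]
      have ih' := ih (le_of_lt hk')
      unfold TMap.below at ih' ⊢
      rw [Finset.sum_range_succ, Finset.sum_range_succ, ih']
      congr 1
      by_cases hS : ∃ h : k < n x, S ⟨(x, k), h⟩
      · rw [if_pos (hiff.2 hS), if_pos hS]
      · rw [if_neg (fun h => hS (hiff.1 h)), if_neg hS]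
    · rw [transferC_succ_neg hP, ih (le_of_lt hk')]
      unfold TMap.below
      rw [Finset.sum_range_succ, if_neg, add_zero]
      rintro ⟨h1, hS⟩
      exact hP ⟨h1, hST _ hS⟩

/-- Reflection. -/
theorem transferC_reflect {n : Φ → ℕ} (hm : V.Mul n) {T : Fl n → Prop}
    (hT : ∀ q, T (hm.fc q) ↔ T q) (x : Φ) :
    ∀ m, m ≤ n x → transferC T (V.c x) m + transferC T x (n x - m) = transferSelN T x := by
  intro m
  induction m with
  | zero =>
    intro _
    rw [transferC_zero, zero_add, Nat.sub_zero]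
    rfl
  | succ m ih =>
    intro hmn
    have ih' := ih (by omega)
    have hiff : transferP T (V.c x) m ↔ transferP T x (n x - (m + 1)) := by
      constructor
      · rintro ⟨h1, h2⟩
        refine ⟨by omega, ?_⟩
        have h3 : n x - (m + 1) < n x := by omega
        have e : hm.fc ⟨(x, n x - (m + 1)), h3⟩ = ⟨(V.c x, m), h1⟩ := by
          apply Subtype.ext
          refine Prod.ext rfl ?_
          change n x - 1 - (n x - (m + 1)) = m
          omega
        rw [← e, hT] at h2
        exact h2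
      · rintro ⟨h1, h2⟩
        refine ⟨by rw [hm.c]; omega, ?_⟩
        have e : hm.fc ⟨(x, n x - (m + 1)), h1⟩ = ⟨(V.c x, m), by rw [hm.c]; omega⟩ := by
          apply Subtype.ext
          refine Prod.ext rfl ?_
          change n x - 1 - (n x - (m + 1)) = m
          omega
        rw [← e, hT]
        exact h2
    have hsub : n x - m = (n x - (m + 1)) + 1 := by omega
    rw [hsub] at ih'
    by_cases hP : transferP T x (n x - (m + 1))
    · rw [transferC_succ_pos hP] at ih'
      rw [transferC_succ_pos (hiff.2 hP)]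
      omega
    · rw [transferC_succ_neg hP] at ih'
      rw [transferC_succ_neg (fun h => hP (hiff.1 h))]
      omega

theorem transferP_a {n : Φ → ℕ} (hm : V.Mul n) {T : Fl n → Prop}
    (hT : ∀ q, T (hm.fa q) ↔ T q) (x : Φ) : transferP T (V.a x) = transferP T x := by
  funext k
  apply propext
  constructor
  · rintro ⟨h1, h2⟩
    have h3 : k < n x := by rwa [hm.a] at h1
    exact ⟨h3, (hT ⟨(x, k), h3⟩).1 h2⟩
  · rintro ⟨h1, h2⟩
    exact ⟨by rwa [hm.a], (hT ⟨(x, k), h1⟩).2 h2⟩

theorem transferP_b {n : Φ → ℕ} (hm : V.Mul n) {T : Fl n → Prop}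
    (hT : ∀ q, T (hm.fb q) ↔ T q) (x : Φ) : transferP T (V.b x) = transferP T x := by
  funext k
  apply propext
  constructor
  · rintro ⟨h1, h2⟩
    have h3 : k < n x := by rwa [hm.b] at h1
    exact ⟨h3, (hT ⟨(x, k), h3⟩).1 h2⟩
  · rintro ⟨h1, h2⟩
    exact ⟨by rwa [hm.b], (hT ⟨(x, k), h1⟩).2 h2⟩

theorem transferSel_mul {n : Φ → ℕ} (hm : V.Mul n) {T : Fl n → Prop}
    (ha : ∀ q, T (hm.fa q) ↔ T q) (hb : ∀ q, T (hm.fb q) ↔ T q)
    (hc : ∀ q, T (hm.fc q) ↔ T q) : V.Mul (transferSelN T) where
  a := fun x => by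
    unfold transferSelN transferC
    rw [transferP_a hm ha, hm.a]
  b := fun x => by
    unfold transferSelN transferC
    rw [transferP_b hm hb, hm.b]
  c := fun x => by
    have h := transferC_reflect hm hc x (n x) le_rfl
    rw [Nat.sub_self, transferC_zero, add_zero] at h
    rw [← h]
    unfold transferSelN
    rw [hm.c]

/-- One component of a system of embedded spheres carried by parallel copies of the faces. -/
theorem good_of_emb {n : Φ → ℕ} (hm : V.Mul n) [Finite (Fl n)]
    {N : Fl n → Fl n} (hN : Emb (TMap.infl hm) N)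
    (he : 4 * (orb [hm.fa, hm.fb] + orb [hm.fb, N]) =
      Nat.card (Fl n) + 16 * orb [hm.fa, hm.fb, hm.fc, N]) {h : Φ} (h1 : n h = 1) :
    GoodSphere V h := by
  classical
  -- the maps on all flags
  have aa : ∀ q, hm.fa (hm.fa q) = q := (TMap.infl hm).aa
  have bb : ∀ q, hm.fb (hm.fb q) = q := (TMap.infl hm).bb
  have cc : ∀ q, hm.fc (hm.fc q) = q := (TMap.infl hm).cc
  have ac : ∀ q, hm.fa (hm.fc q) = hm.fc (hm.fa q) := (TMap.infl hm).ac
  have bc : ∀ q, hm.fb (hm.fc q) = hm.fc (hm.fb q) := (TMap.infl hm).bc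
  have aN : ∀ q, hm.fa (N q) = N (hm.fa q) := hN.aN
  have cN : ∀ q, hm.fc (N q) = N (hm.fc q) := hN.cN
  have NN : ∀ q, N (N q) = q := hN.NN
  have ane : ∀ q, hm.fa q ≠ q := (TMap.infl hm).a_ne
  have bne : ∀ q, hm.fb q ≠ q := (TMap.infl hm).b_ne
  have Nne : ∀ q, N q ≠ q := fun q hq => by
    have h2 := hN.sgN q
    rw [hq] at h2
    simp at h2
  have enN : ∀ q, (TMap.infl hm).en (N q) = (TMap.infl hm).en q := fun q =>
    (transfer_CD_const (TMap.infl hm).enc (TMap.infl hm).end' (hN.cdN q)).symm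
  have aNne : ∀ q, hm.fa (N q) ≠ q := fun q hq => by
    have h2 : (TMap.infl hm).en (hm.fa (N q)) = (TMap.infl hm).en (N q) + 1 :=
      (TMap.infl hm).ena (N q)
    rw [hq, enN] at h2
    simp at h2
  -- the component
  let z0 : Fl n := ⟨(h, 0), by rw [h1]; exact Nat.one_pos⟩
  let T : Fl n → Prop := fun q => SameOrb [hm.fa, hm.fb, hm.fc, N] z0 q
  have Ta : ∀ q, T (hm.fa q) ↔ T q := fun q => transfer_sameOrb_iff (by simp)
  have Tb : ∀ q, T (hm.fb q) ↔ T q := fun q => transfer_sameOrb_iff (by simp)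
  have Tc : ∀ q, T (hm.fc q) ↔ T q := fun q => transfer_sameOrb_iff (by simp)
  have TN : ∀ q, T (N q) ↔ T q := fun q => transfer_sameOrb_iff (by simp)
  have T0 : T z0 := Relation.EqvGen.refl _
  -- restricted maps
  let ra : {q // T q} → {q // T q} := fun q => ⟨hm.fa q.1, (Ta _).2 q.2⟩
  let rb : {q // T q} → {q // T q} := fun q => ⟨hm.fb q.1, (Tb _).2 q.2⟩
  let rc : {q // T q} → {q // T q} := fun q => ⟨hm.fc q.1, (Tc _).2 q.2⟩
  let rN : {q // T q} → {q // T q} := fun q => ⟨N q.1, (TN _).2 q.2⟩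
  let sa : {q // ¬ T q} → {q // ¬ T q} := fun q => ⟨hm.fa q.1, fun h => q.2 ((Ta _).1 h)⟩
  let sb : {q // ¬ T q} → {q // ¬ T q} := fun q => ⟨hm.fb q.1, fun h => q.2 ((Tb _).1 h)⟩
  let sc : {q // ¬ T q} → {q // ¬ T q} := fun q => ⟨hm.fc q.1, fun h => q.2 ((Tc _).1 h)⟩
  let sN : {q // ¬ T q} → {q // ¬ T q} := fun q => ⟨N q.1, fun h => q.2 ((TN _).1 h)⟩
  have ineqT := transfer_ineq (a := ra) (b := rb) (c := rc) (N := rN)
    ⟨fun q => Subtype.ext (aa q.1), fun q hq => ane q.1 (congrArg Subtype.val hq)⟩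
    ⟨fun q => Subtype.ext (bb q.1), fun q hq => bne q.1 (congrArg Subtype.val hq)⟩
    ⟨fun q => Subtype.ext (NN q.1), fun q hq => Nne q.1 (congrArg Subtype.val hq)⟩
    (fun q hq => aNne q.1 (congrArg Subtype.val hq)) (fun q => Subtype.ext (aN q.1))
    (fun q => Subtype.ext (cc q.1)) (fun q => Subtype.ext (ac q.1))
    (fun q => Subtype.ext (bc q.1)) (fun q => Subtype.ext (cN q.1).symm)
  have ineqS := transfer_ineq (a := sa) (b := sb) (c := sc) (N := sN)
    ⟨fun q => Subtype.ext (aa q.1), fun q hq => ane q.1 (congrArg Subtype.val hq)⟩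
    ⟨fun q => Subtype.ext (bb q.1), fun q hq => bne q.1 (congrArg Subtype.val hq)⟩
    ⟨fun q => Subtype.ext (NN q.1), fun q hq => Nne q.1 (congrArg Subtype.val hq)⟩
    (fun q hq => aNne q.1 (congrArg Subtype.val hq)) (fun q => Subtype.ext (aN q.1))
    (fun q => Subtype.ext (cc q.1)) (fun q => Subtype.ext (ac q.1))
    (fun q => Subtype.ext (bc q.1)) (fun q => Subtype.ext (cN q.1).symm)
  have o1 : orb [hm.fa, hm.fb] = orb [ra, rb] + orb [sa, sb] :=
    orb_split T (.cons (fun _ => rfl) (.cons (fun _ => rfl) .nil))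
      (.cons (fun _ => rfl) (.cons (fun _ => rfl) .nil))
  have o2 : orb [hm.fb, N] = orb [rb, rN] + orb [sb, sN] :=
    orb_split T (.cons (fun _ => rfl) (.cons (fun _ => rfl) .nil))
      (.cons (fun _ => rfl) (.cons (fun _ => rfl) .nil))
  have o3 : orb [hm.fa, hm.fb, hm.fc, N] = orb [ra, rb, rc, rN] + orb [sa, sb, sc, sN] :=
    orb_split T (.cons (fun _ => rfl) (.cons (fun _ => rfl) (.cons (fun _ => rfl)
        (.cons (fun _ => rfl) .nil))))
      (.cons (fun _ => rfl) (.cons (fun _ => rfl) (.cons (fun _ => rfl)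
        (.cons (fun _ => rfl) .nil))))
  have hcard : Nat.card (Fl n) = Nat.card {q // T q} + Nat.card {q // ¬ T q} := by
    rw [← Nat.card_sum]
    exact (Nat.card_congr (Equiv.sumCompl T)).symm
  -- invariant functions on the component are constant
  have constT : ∀ g ∈ Inv [ra, rb, rc, rN], ∀ p q, g p = g q := by
    intro g hg
    rw [transfer_inv4] at hg
    obtain ⟨g1, g2, g3, g4⟩ := hg
    let g' : Fl n → F2 := fun z => if hz : T z then g ⟨z, hz⟩ else 0
    have hg' : ∀ z (hz : T z), g' z = g ⟨z, hz⟩ := fun z hz => dif_pos hz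
    have key : ∀ q : {q // T q}, g ⟨z0, T0⟩ = g q := by
      rintro ⟨q, hq⟩
      rw [← hg' z0 T0, ← hg' q hq]
      refine transfer_comp_const g' ?_ ?_ ?_ ?_ hq
      · intro z hz
        rw [hg' z hz, hg' _ ((Ta z).2 hz)]
        exact g1 ⟨z, hz⟩
      · intro z hz
        rw [hg' z hz, hg' _ ((Tb z).2 hz)]
        exact g2 ⟨z, hz⟩
      · intro z hz
        rw [hg' z hz, hg' _ ((Tc z).2 hz)]
        exact g3 ⟨z, hz⟩
      · intro z hz
        rw [hg' z hz, hg' _ ((TN z).2 hz)]
        exact g4 ⟨z, hz⟩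
    intro p q
    rw [← key p, ← key q]
  have : Nonempty {q // T q} := ⟨⟨z0, T0⟩⟩
  have oT : orb [ra, rb, rc, rN] = 1 := (orb_eq_one_iff _).2 constT
  -- the new surface
  let e := transferSelE T
  have hm' : V.Mul (transferSelN T) := transferSel_mul hm Ta Tb Tc
  have ea : ∀ q, e (ra q) = hm'.fa (e q) := by
    intro q
    apply Subtype.ext
    refine Prod.ext rfl ?_
    change transferC T (V.a q.1.1.1) q.1.1.2 = transferC T q.1.1.1 q.1.1.2
    unfold transferC
    rw [transferP_a hm Ta]
  have eb : ∀ q, e (rb q) = hm'.fb (e q) := by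
    intro q
    apply Subtype.ext
    refine Prod.ext rfl ?_
    change transferC T (V.b q.1.1.1) q.1.1.2 = transferC T q.1.1.1 q.1.1.2
    unfold transferC
    rw [transferP_b hm Tb]
  have ec : ∀ q, e (rc q) = hm'.fc (e q) := by
    intro q
    apply Subtype.ext
    refine Prod.ext rfl ?_
    change transferC T (V.c q.1.1.1) (n q.1.1.1 - 1 - q.1.1.2) =
      transferSelN T q.1.1.1 - 1 - transferC T q.1.1.1 q.1.1.2
    have hq : q.1.1.2 < n q.1.1.1 := q.1.2
    have hr := transferC_reflect hm Tc q.1.1.1 (n q.1.1.1 - 1 - q.1.1.2) (by omega)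
    have hs : n q.1.1.1 - (n q.1.1.1 - 1 - q.1.1.2) = q.1.1.2 + 1 := by omega
    rw [hs, transferC_succ_pos ⟨hq, q.2⟩] at hr
    omega
  have eas : ∀ q, e.symm (hm'.fa q) = ra (e.symm q) := fun q => by
    rw [Equiv.symm_apply_eq, ea, Equiv.apply_symm_apply]
  have ecs : ∀ q, e.symm (hm'.fc q) = rc (e.symm q) := fun q => by
    rw [Equiv.symm_apply_eq, ec, Equiv.apply_symm_apply]
  have e1 : ∀ q, (e q).1.1 = q.1.1.1 := fun _ => rfl
  let S' : Carried V :=
    { n := transferSelN T
      hn := hm'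
      fin := Finite.of_equiv _ e
      M := fun q => e (rN (e.symm q))
      MM := fun q => by
        rw [Equiv.symm_apply_apply]
        have : rN (rN (e.symm q)) = e.symm q := Subtype.ext (NN _)
        rw [this, Equiv.apply_symm_apply]
      aM := fun q => by
        rw [← ea, eas]
        congr 1
        exact Subtype.ext (aN _)
      cM := fun q => by
        rw [← ec, ecs]
        congr 1
        exact Subtype.ext (cN _)
      sgM := fun q => by
        obtain ⟨p, rfl⟩ := e.surjective q
        rw [Equiv.symm_apply_apply, e1, e1]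
        exact hN.sgN p.1
      cdM := fun q => by
        obtain ⟨p, rfl⟩ := e.surjective q
        rw [Equiv.symm_apply_apply, e1, e1]
        exact (TMap.infl_CD hm).1 (hN.cdN p.1) }
  have hM : ∀ q, S'.M (e q) = e (rN q) := fun q => by
    change e (rN (e.symm (e q))) = _
    rw [Equiv.symm_apply_apply]
  refine ⟨S', ?_, ?_, ?_, ?_⟩
  · intro q'
    obtain ⟨q, rfl⟩ := e.surjective q'
    obtain ⟨D, hD1, hD2, hD3⟩ := hN.nc q.1
    let S : Fl n → Prop := fun z => z = q.1 ∨ z = hm.fc q.1 ∨ z = N q.1 ∨ z = hm.fc (N q.1)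
    have hS : ∀ z, S (hm.fc z) ↔ S z := by
      intro z
      have hcc : ∀ u v, hm.fc u = v ↔ u = hm.fc v := fun u v =>
        ⟨fun h => by rw [← h, cc], fun h => by rw [h, cc]⟩
      change (_ ∨ _ ∨ _ ∨ _) ↔ (_ ∨ _ ∨ _ ∨ _)
      rw [hcc, hcc, hcc, hcc, cc, cc]
      tauto
    obtain ⟨G, hG1, hG2, hG3⟩ := TMap.infl_gap hm hS hD1 (fun z => by
      have h2 := hD2 z
      convert h2 <;> rfl)
    have hST : ∀ z, S z → T z := by
      intro z hz
      rcases hz with rfl | rfl | rfl | rfl
      · exact q.2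
      · exact (Tc _).2 q.2
      · exact (TN _).2 q.2
      · exact (Tc _).2 ((TN _).2 q.2)
    have hOwn : ∀ z : {z // T z}, S'.Own (e q) (e z) ↔ S z.1 := by
      intro z
      unfold Carried.Own
      rw [hM]
      have c1 : S'.hn.fc (e q) = e (rc q) := (ec q).symm
      have c2 : S'.hn.fc (e (rN q)) = e (rc (rN q)) := (ec _).symm
      rw [c1, c2, e.injective.eq_iff, e.injective.eq_iff, e.injective.eq_iff,
        e.injective.eq_iff, Subtype.ext_iff, Subtype.ext_iff, Subtype.ext_iff, Subtype.ext_iff]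
    have hbel := transferSel_below hST hOwn
    refine ⟨G, ⟨hG1, ?_⟩, ?_⟩
    · intro x
      rw [hG2 x, ← hbel x (n x) le_rfl]
      rfl
    · intro z'
      obtain ⟨z, rfl⟩ := e.surjective z'
      have hside : ∀ w, S'.side (e q) G (e w) = D w.1 := by
        intro w
        unfold Carried.side
        change G w.1.1.1 + TMap.below (S'.Own (e q)) w.1.1.1 (transferC T w.1.1.1 w.1.1.2) = _
        rw [hbel _ _ (le_of_lt w.1.2), hG3]
      rw [hM, hside, hside]
      exact hD3 z.1
  · intro g hg p' q'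
    rw [transfer_inv4] at hg
    obtain ⟨g1, g2, g3, g4⟩ := hg
    have := constT (fun z => g (e z)) (transfer_inv4.2 ⟨fun x => by
        rw [ea]; exact g1 (e x), fun x => by
        rw [eb]; exact g2 (e x), fun x => by
        rw [ec]; exact g3 (e x), fun x => by
        rw [← hM]; exact g4 (e x)⟩) (e.symm p') (e.symm q')
    simpa using this
  · have p1 : orb [ra, rb] = orb [S'.hn.fa, S'.hn.fb] :=
      orb_congr e (.cons ea (.cons eb .nil))
    have p2 : orb [rb, rN] = orb [S'.hn.fb, S'.M] :=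
      orb_congr e (.cons eb (.cons (fun x => (hM x).symm) .nil))
    have p3 : Nat.card {q // T q} = Nat.card (Fl S'.n) := Nat.card_congr e
    rw [← p1, ← p2, ← p3]
    rw [o1, o2, o3, hcard, oT] at he
    rw [oT] at ineqT
    omega
  · change transferSelN T h = 1
    have hP : transferP T h 0 := ⟨by rw [h1]; exact Nat.one_pos, T0⟩
    unfold transferSelN
    rw [h1, transferC_succ_pos hP, transferC_zero]

/-- The number of sheets over a face, for a surface in a double cover. -/
def mergeN (n : Φ × F2 → ℕ) (x : Φ) : ℕ := n (x, 0) + n (x, 1)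

/-! ### Merging the sheets of a surface in a double cover -/

theorem transfer_F2_cases (i j : F2) : j = i ∨ j = i + 1 := by
  revert i j; decide

theorem transfer_F2_ne (i : F2) : i + 1 ≠ i := by
  revert i; decide

theorem transfer_F2_ne' {i j : F2} (h : ¬ i = j) : j = i + 1 := by
  revert i j; decide

theorem transfer_mergeN (n : Φ × F2 → ℕ) (x : Φ) (i : F2) :
    mergeN n x = n (x, i) + n (x, i + 1) := by
  unfold mergeN
  rcases transfer_F2_cases 0 i with rfl | rfl
  · rfl
  · rw [show (0 : F2) + 1 = 1 by decide, show (1 : F2) + 1 = 0 by decide, add_comm]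

/-- The value of the merging map. -/
def transferMv (q : Φ → F2) (n : Φ × F2 → ℕ) (p : Φ × ℕ) : (Φ × F2) × ℕ :=
  if p.2 < n (p.1, q p.1) then ((p.1, q p.1), p.2)
  else ((p.1, q p.1 + 1), p.2 - n (p.1, q p.1))

/-- The merging map. -/
def transferMe (q : Φ → F2) (n : Φ × F2 → ℕ) (p : Fl (mergeN n)) : Fl n :=
  ⟨transferMv q n p.1, by
    have hp : p.1.2 < mergeN n p.1.1 := p.2
    rw [transfer_mergeN n p.1.1 (q p.1.1)] at hp
    unfold transferMv
    split_ifs with h
    · exact h
    · change p.1.2 - n (p.1.1, q p.1.1) < n (p.1.1, q p.1.1 + 1)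
      omega⟩

/-- The inverse of the merging map. -/
def transferMi (q : Φ → F2) (n : Φ × F2 → ℕ) (p : Fl n) : Fl (mergeN n) :=
  ⟨(p.1.1.1, if p.1.1.2 = q p.1.1.1 then p.1.2 else n (p.1.1.1, q p.1.1.1) + p.1.2), by
    have hp : p.1.2 < n p.1.1 := p.2
    have hp' : p.1.2 < n (p.1.1.1, p.1.1.2) := hp
    change _ < mergeN n p.1.1.1
    rw [transfer_mergeN n p.1.1.1 (q p.1.1.1)]
    split_ifs with h
    · rw [h] at hp'
      omega
    · have h2 := transfer_F2_ne' (fun h' => h h'.symm)
      rw [h2] at hp'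
      omega⟩

/-- The merging map is a bijection. -/
def transferME (q : Φ → F2) (n : Φ × F2 → ℕ) : Fl (mergeN n) ≃ Fl n where
  toFun := transferMe q n
  invFun := transferMi q n
  left_inv := by
    rintro ⟨⟨x, k⟩, hk⟩
    apply Subtype.ext
    change ((transferMv q n (x, k)).1.1,
      if (transferMv q n (x, k)).1.2 = q (transferMv q n (x, k)).1.1 then
        (transferMv q n (x, k)).2
      else n ((transferMv q n (x, k)).1.1, q (transferMv q n (x, k)).1.1) +
        (transferMv q n (x, k)).2) = (x, k)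
    unfold transferMv
    by_cases h : k < n (x, q x)
    · rw [if_pos h, if_pos rfl]
    · rw [if_neg h, if_neg (transfer_F2_ne _)]
      refine Prod.ext rfl ?_
      change n (x, q x) + (k - n (x, q x)) = k
      omega
  right_inv := by
    rintro ⟨⟨⟨x, i⟩, k⟩, hk⟩
    have hk' : k < n (x, i) := hk
    apply Subtype.ext
    change transferMv q n (x, if i = q x then k else n (x, q x) + k) = ((x, i), k)
    unfold transferMv
    by_cases h : i = q x
    · subst h
      rw [if_pos rfl]
      exact if_pos hk'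
    · rw [if_neg h]
      have h2 : i = q x + 1 := transfer_F2_ne' (fun h' => h h'.symm)
      change (if n (x, q x) + k < n (x, q x) then ((x, q x), n (x, q x) + k)
        else ((x, q x + 1), n (x, q x) + k - n (x, q x))) = ((x, i), k)
      rw [if_neg (by omega), h2]
      refine Prod.ext rfl ?_
      change n (x, q x) + k - n (x, q x) = k
      omega

theorem transferME_fst (q : Φ → F2) (n : Φ × F2 → ℕ) (p : Fl (mergeN n)) :
    (transferME q n p).1.1.1 = p.1.1 := by
  change (transferMv q n p.1).1.1 = p.1.1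
  unfold transferMv
  split_ifs <;> rfl

/-- The position in the lift `i` of the copy number `k`. -/
def transferCnt (q : Φ → F2) (n : Φ × F2 → ℕ) (i : F2) (y : Φ) (k : ℕ) : ℕ :=
  if q y = i then min k (n (y, i)) else k - n (y, q y)

theorem transferME_eq (q : Φ → F2) (n : Φ × F2 → ℕ) {i : F2} (p : Fl (mergeN n))
    (h : (transferME q n p).1.1.2 = i) :
    (transferME q n p).1 = ((p.1.1, i), transferCnt q n i p.1.1 p.1.2) := by
  change (transferMv q n p.1).1.2 = i at h
  change transferMv q n p.1 = _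
  unfold transferMv at h ⊢
  unfold transferCnt
  by_cases hk : p.1.2 < n (p.1.1, q p.1.1)
  · rw [if_pos hk] at h ⊢
    change q p.1.1 = i at h
    subst h
    rw [if_pos rfl, min_eq_left (le_of_lt hk)]
  · rw [if_neg hk] at h ⊢
    change q p.1.1 + 1 = i at h
    subst h
    rw [if_neg (fun h => transfer_F2_ne _ h.symm)]

theorem transferME_below (q : Φ → F2) (n : Φ × F2 → ℕ) {i : F2} {U : Fl n → Prop}
    (hU : ∀ p, U p → p.1.1.2 = i) (y : Φ) : ∀ k, k ≤ mergeN n y →
    TMap.below (fun p => U (transferME q n p)) y k =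
      TMap.below U (y, i) (transferCnt q n i y k) := by
  intro k
  induction k with
  | zero =>
    intro _
    have : transferCnt q n i y 0 = 0 := by
      unfold transferCnt
      split_ifs
      · exact Nat.zero_min _
      · exact Nat.zero_sub _
    rw [this]
    unfold TMap.below
    simp
  | succ k ih =>
    intro hk
    have ih' := ih (by omega)
    have hk' : k < mergeN n y := hk
    have hk2 : k < n (y, q y) + n (y, q y + 1) := by
      rw [← transfer_mergeN n y (q y)]; exact hk'
    -- the value at the copy number k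
    have hval : ∀ z w, (transferME q n ⟨(y, k), hk'⟩) = w → w.1 = z →
        ((∃ h : k < mergeN n y, U (transferME q n ⟨(y, k), h⟩)) ↔ ∃ h : z.2 < n z.1, U ⟨z, h⟩) := by
      rintro z w h1 rfl
      constructor
      · rintro ⟨_, h⟩
        rw [h1] at h
        exact ⟨w.2, h⟩
      · rintro ⟨_, h⟩
        refine ⟨hk', ?_⟩
        rw [h1]
        exact h
    by_cases hlt : k < n (y, q y)
    · have hE : (transferME q n ⟨(y, k), hk'⟩).1 = ((y, q y), k) := by
        change transferMv q n (y, k) = _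
        unfold transferMv
        exact if_pos hlt
      have hiff := hval _ _ rfl hE
      by_cases hq : q y = i
      · have c1 : transferCnt q n i y (k + 1) = k + 1 := by
          unfold transferCnt
          rw [if_pos hq, ← hq]
          exact min_eq_left hlt
        have c2 : transferCnt q n i y k = k := by
          unfold transferCnt
          rw [if_pos hq, ← hq]
          exact min_eq_left (le_of_lt hlt)
        rw [c2] at ih'
        rw [c1]
        unfold TMap.below at ih' ⊢
        rw [Finset.sum_range_succ, Finset.sum_range_succ, ih']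
        congr 1
        rw [hq] at hiff
        by_cases hP : ∃ h : k < n (y, i), U ⟨((y, i), k), h⟩
        · rw [if_pos hP, if_pos (hiff.2 hP)]
        · rw [if_neg hP, if_neg (fun h => hP (hiff.1 h))]
      · have c1 : transferCnt q n i y (k + 1) = 0 := by
          unfold transferCnt
          rw [if_neg hq]
          omega
        have c2 : transferCnt q n i y k = 0 := by
          unfold transferCnt
          rw [if_neg hq]
          omega
        rw [c2] at ih'
        rw [c1, ← ih']
        unfold TMap.below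
        rw [Finset.sum_range_succ, if_neg, add_zero]
        intro h
        obtain ⟨_, h3⟩ := hiff.1 h
        exact hq (hU _ h3)
    · have hE : (transferME q n ⟨(y, k), hk'⟩).1 = ((y, q y + 1), k - n (y, q y)) := by
        change transferMv q n (y, k) = _
        unfold transferMv
        exact if_neg hlt
      have hiff := hval _ _ rfl hE
      by_cases hq : q y = i
      · have c1 : transferCnt q n i y (k + 1) = n (y, i) := by
          unfold transferCnt
          rw [if_pos hq, ← hq]
          exact min_eq_right (by omega)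
        have c2 : transferCnt q n i y k = n (y, i) := by
          unfold transferCnt
          rw [if_pos hq, ← hq]
          exact min_eq_right (by omega)
        rw [c2] at ih'
        rw [c1, ← ih']
        unfold TMap.below
        rw [Finset.sum_range_succ, if_neg, add_zero]
        intro h
        obtain ⟨_, h3⟩ := hiff.1 h
        have h4 : q y + 1 = i := hU _ h3
        rw [hq] at h4
        exact transfer_F2_ne _ h4
      · have hi : i = q y + 1 := transfer_F2_ne' hq
        have c1 : transferCnt q n i y (k + 1) = k - n (y, q y) + 1 := by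
          unfold transferCnt
          rw [if_neg hq]
          omega
        have c2 : transferCnt q n i y k = k - n (y, q y) := by
          unfold transferCnt
          rw [if_neg hq]
        rw [c2] at ih'
        rw [c1]
        unfold TMap.below at ih' ⊢
        rw [Finset.sum_range_succ, Finset.sum_range_succ, ih']
        congr 1
        rw [← hi] at hiff
        by_cases hP : ∃ h : k - n (y, q y) < n (y, i), U ⟨((y, i), k - n (y, q y)), h⟩
        · rw [if_pos hP, if_pos (hiff.2 hP)]
        · rw [if_neg hP, if_neg (fun h => hP (hiff.1 h))]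

theorem transferCnt_top (q : Φ → F2) (n : Φ × F2 → ℕ) (i : F2) (y : Φ) :
    transferCnt q n i y (mergeN n y) = n (y, i) := by
  unfold transferCnt
  split_ifs with h
  · rw [transfer_mergeN n y i]
    exact min_eq_right (Nat.le_add_right _ _)
  · rw [transfer_mergeN n y (q y), transfer_F2_ne' h]
    omega

theorem transferME_a {κ : Φ → F2} (hκ : V.Closed κ) {q : Φ → F2}
    (qa : ∀ x, q (V.a x) = q x + κ x) {n : Φ × F2 → ℕ}
    (hn : (V.cover κ hκ.a hκ.c hκ.d).Mul n) (hm : V.Mul (mergeN n)) (p : Fl (mergeN n)) :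
    transferME q n (hm.fa p) = hn.fa (transferME q n p) := by
  have h1 : n (V.a p.1.1, q (V.a p.1.1)) = n (p.1.1, q p.1.1) := by
    rw [qa]
    exact hn.a (p.1.1, q p.1.1)
  apply Subtype.ext
  change transferMv q n (V.a p.1.1, p.1.2) =
    ((V.a (transferMv q n p.1).1.1, (transferMv q n p.1).1.2 + κ (transferMv q n p.1).1.1),
      (transferMv q n p.1).2)
  unfold transferMv
  by_cases hk : p.1.2 < n (p.1.1, q p.1.1)
  · rw [if_pos hk, if_pos (by rw [h1]; exact hk), qa]
  · rw [if_neg hk, if_neg (by rw [h1]; exact hk), h1, qa]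
    refine Prod.ext (Prod.ext rfl ?_) rfl
    exact add_right_comm _ _ _

theorem transferME_b {κ : Φ → F2} (hκ : V.Closed κ) {q : Φ → F2}
    (qb : ∀ x, q (V.b x) = q x) {n : Φ × F2 → ℕ}
    (hn : (V.cover κ hκ.a hκ.c hκ.d).Mul n) (hm : V.Mul (mergeN n)) (p : Fl (mergeN n)) :
    transferME q n (hm.fb p) = hn.fb (transferME q n p) := by
  have h1 : n (V.b p.1.1, q (V.b p.1.1)) = n (p.1.1, q p.1.1) := by
    rw [qb]
    exact hn.b (p.1.1, q p.1.1)
  apply Subtype.ext
  change transferMv q n (V.b p.1.1, p.1.2) =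
    ((V.b (transferMv q n p.1).1.1, (transferMv q n p.1).1.2),
      (transferMv q n p.1).2)
  unfold transferMv
  by_cases hk : p.1.2 < n (p.1.1, q p.1.1)
  · rw [if_pos hk, if_pos (by rw [h1]; exact hk), qb]
  · rw [if_neg hk, if_neg (by rw [h1]; exact hk), h1, qb]

theorem transferME_c {κ : Φ → F2} (hκ : V.Closed κ) {q : Φ → F2}
    (qc : ∀ x, q (V.c x) = q x + 1) {n : Φ × F2 → ℕ}
    (hn : (V.cover κ hκ.a hκ.c hκ.d).Mul n) (hm : V.Mul (mergeN n)) (p : Fl (mergeN n)) :
    transferME q n (hm.fc p) = hn.fc (transferME q n p) := by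
  have h1 : n (V.c p.1.1, q (V.c p.1.1)) = n (p.1.1, q p.1.1 + 1) := by
    rw [qc]
    exact hn.c (p.1.1, q p.1.1 + 1)
  have hp : p.1.2 < mergeN n p.1.1 := p.2
  have hN : mergeN n p.1.1 = n (p.1.1, q p.1.1) + n (p.1.1, q p.1.1 + 1) := transfer_mergeN _ _ _
  apply Subtype.ext
  change transferMv q n (V.c p.1.1, mergeN n p.1.1 - 1 - p.1.2) =
    ((V.c (transferMv q n p.1).1.1, (transferMv q n p.1).1.2),
      n (transferMv q n p.1).1 - 1 - (transferMv q n p.1).2)
  unfold transferMv
  by_cases hk : p.1.2 < n (p.1.1, q p.1.1)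
  · rw [if_pos hk, if_neg (by
      change ¬ (mergeN n p.1.1 - 1 - p.1.2 < n (V.c p.1.1, q (V.c p.1.1)))
      rw [h1]
      omega)]
    refine Prod.ext (Prod.ext rfl ?_) ?_
    · change q (V.c p.1.1) + 1 = q p.1.1
      rw [qc, add_assoc, transfer_add_self, add_zero]
    · change mergeN n p.1.1 - 1 - p.1.2 - n (V.c p.1.1, q (V.c p.1.1)) =
        n (p.1.1, q p.1.1) - 1 - p.1.2
      rw [h1]
      omega
  · rw [if_neg hk, if_pos (by
      change mergeN n p.1.1 - 1 - p.1.2 < n (V.c p.1.1, q (V.c p.1.1))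
      rw [h1]
      omega)]
    refine Prod.ext (Prod.ext rfl ?_) ?_
    · change q (V.c p.1.1) = q p.1.1 + 1
      rw [qc]
    · change mergeN n p.1.1 - 1 - p.1.2 =
        n (p.1.1, q p.1.1 + 1) - 1 - (p.1.2 - n (p.1.1, q p.1.1))
      omega

/-- The immersed sphere below an embedded sphere in a double cover. -/
theorem imm_of_cover {κ : Φ → F2} (hκ : V.Closed κ)
    (S : Carried (V.cover κ hκ.a hκ.c hκ.d)) {h : Φ × F2} (hS : S.IsGood h)
    (hm : V.Mul (mergeN S.n)) [Fintype (Fl (mergeN S.n))] :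
    ∃ I : Imm (Fl (mergeN S.n)), I.toTMap = TMap.infl hm ∧ I.IsSphere := by
  obtain ⟨u, ub, uc, ua⟩ := hκ.ex
  let q : Φ → F2 := fun x => u x + V.sd x
  have qb : ∀ x, q (V.b x) = q x := fun x => by
    change u (V.b x) + V.sd (V.b x) = u x + V.sd x
    rw [ub, V.sdb]
  have qc : ∀ x, q (V.c x) = q x + 1 := fun x => by
    change u (V.c x) + V.sd (V.c x) = u x + V.sd x + 1
    rw [uc, V.sdc, add_assoc]
  have qa : ∀ x, q (V.a x) = q x + κ x := fun x => by
    change u (V.a x) + V.sd (V.a x) = u x + V.sd x + κ x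
    rw [V.sda, ← ua x]
    have := transfer_add_self (u x)
    linear_combination (-1 : F2) * this
  let E := transferME q S.n
  have Ea : ∀ p, E (hm.fa p) = S.hn.fa (E p) := transferME_a hκ qa S.hn hm
  have Eb : ∀ p, E (hm.fb p) = S.hn.fb (E p) := transferME_b hκ qb S.hn hm
  have Ec : ∀ p, E (hm.fc p) = S.hn.fc (E p) := transferME_c hκ qc S.hn hm
  have E1 : ∀ p, (E p).1.1.1 = p.1.1 := transferME_fst q S.n
  have Eas : ∀ p, E.symm (S.hn.fa p) = hm.fa (E.symm p) := fun p => by
    rw [Equiv.symm_apply_eq, Ea, Equiv.apply_symm_apply]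
  have Ecs : ∀ p, E.symm (S.hn.fc p) = hm.fc (E.symm p) := fun p => by
    rw [Equiv.symm_apply_eq, Ec, Equiv.apply_symm_apply]
  let M : Fl (mergeN S.n) → Fl (mergeN S.n) := fun p => E.symm (S.M (E p))
  have EM : ∀ p, E (M p) = S.M (E p) := fun p => Equiv.apply_symm_apply _ _
  have aa : ∀ q, hm.fa (hm.fa q) = q := (TMap.infl hm).aa
  have bb : ∀ q, hm.fb (hm.fb q) = q := (TMap.infl hm).bb
  have cc : ∀ q, hm.fc (hm.fc q) = q := (TMap.infl hm).cc
  have ac : ∀ q, hm.fa (hm.fc q) = hm.fc (hm.fa q) := (TMap.infl hm).ac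
  have bc : ∀ q, hm.fb (hm.fc q) = hm.fc (hm.fb q) := (TMap.infl hm).bc
  have MM : ∀ p, M (M p) = p := fun p => by
    apply E.injective
    rw [EM, EM, S.MM]
  have aM : ∀ p, hm.fa (M p) = M (hm.fa p) := fun p => by
    apply E.injective
    rw [Ea, EM, S.aM, EM, Ea]
  have cM : ∀ p, hm.fc (M p) = M (hm.fc p) := fun p => by
    apply E.injective
    rw [Ec, EM, S.cM, EM, Ec]
  have M1 : ∀ p, (M p).1.1 = (S.M (E p)).1.1.1 := fun p => by
    rw [← E1, EM]
  have sgM : ∀ p, V.sg (M p).1.1 = V.sg p.1.1 + 1 := fun p => by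
    rw [M1, ← E1 p]
    exact S.sgM (E p)
  have cd : ∀ p, V.CD (E p).1.1.1 (S.M (E p)).1.1.1 ∧ (E p).1.1.2 = (S.M (E p)).1.1.2 := fun p =>
    (V.cover_CD κ hκ.a hκ.c hκ.d).1 (S.cdM (E p))
  have cdM : ∀ p, (TMap.infl hm).CD p (M p) := fun p => by
    rw [TMap.infl_CD, M1, ← E1 p]
    exact (cd p).1
  have Mne : ∀ p, M p ≠ p := fun p hp => by
    have h2 := sgM p
    rw [hp] at h2
    simp at h2
  have enM : ∀ q, (TMap.infl hm).en (M q) = (TMap.infl hm).en q := fun q =>
    (transfer_CD_const (TMap.infl hm).enc (TMap.infl hm).end' (cdM q)).symm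
  have aMne : ∀ q, hm.fa (M q) ≠ q := fun q hq => by
    have h2 : (TMap.infl hm).en (hm.fa (M q)) = (TMap.infl hm).en (M q) + 1 :=
      (TMap.infl hm).ena (M q)
    rw [hq, enM] at h2
    simp at h2
  -- Euler's equality
  have hfin := S.fin
  have o1 : orb [hm.fa, hm.fb] = orb [S.hn.fa, S.hn.fb] :=
    orb_congr E (.cons Ea (.cons Eb .nil))
  have o2 : orb [hm.fb, M] = orb [S.hn.fb, S.M] :=
    orb_congr E (.cons Eb (.cons EM .nil))
  have o3 : Fintype.card (Fl (mergeN S.n)) = Nat.card (Fl S.n) := by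
    rw [← Nat.card_eq_fintype_card]
    exact Nat.card_congr E
  have sph : 4 * (orb [hm.fa, hm.fb] + orb [hm.fb, M]) = Fintype.card (Fl (mergeN S.n)) + 16 := by
    rw [o1, o2, o3]
    exact hS.sph
  have conn : ∀ g ∈ Inv [hm.fa, hm.fb, hm.fc, M], ∀ x y, g x = g y := by
    intro g hg x y
    rw [transfer_inv4] at hg
    obtain ⟨g1, g2, g3, g4⟩ := hg
    have := hS.conn (fun z => g (E.symm z)) (transfer_inv4.2 ⟨fun z => by
        obtain ⟨p, rfl⟩ := E.surjective z
        rw [← Ea, Equiv.symm_apply_apply, Equiv.symm_apply_apply]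
        exact g1 p, fun z => by
        obtain ⟨p, rfl⟩ := E.surjective z
        rw [← Eb, Equiv.symm_apply_apply, Equiv.symm_apply_apply]
        exact g2 p, fun z => by
        obtain ⟨p, rfl⟩ := E.surjective z
        rw [← Ec, Equiv.symm_apply_apply, Equiv.symm_apply_apply]
        exact g3 p, fun z => by
        obtain ⟨p, rfl⟩ := E.surjective z
        rw [← EM, Equiv.symm_apply_apply, Equiv.symm_apply_apply]
        exact g4 p⟩) (E x) (E y)
    simpa using this
  have hne : Nonempty (Fl (mergeN S.n)) :=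
    ⟨E.symm ⟨(h, 0), by rw [hS.h0]; exact Nat.one_pos⟩⟩
  have hfl := exists_flip (s := [hm.fa, hm.fb, M]) (c := hm.fc) cc (by
      intro f hf
      simp only [List.mem_cons, List.not_mem_nil, or_false] at hf
      rcases hf with rfl | rfl | rfl
      · exact ac
      · exact bc
      · exact fun v => (cM v).symm) (by
      rw [orb_eq_one_iff]
      intro g hg x y
      refine conn g ?_ x y
      rw [transfer_inv4] at hg ⊢
      tauto) (by
      have h1 := euler_le (x := hm.fa) (y := hm.fb) (z := M)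
        ⟨aa, (TMap.infl hm).a_ne⟩ ⟨bb, (TMap.infl hm).b_ne⟩ ⟨MM, Mne⟩ aMne aM
      omega)
  obtain ⟨co, co1, coc⟩ := hfl
  rw [transfer_inv3] at co1
  obtain ⟨coa, cob, coM⟩ := co1
  -- the side functions
  choose G hG1 hG2 using fun x => hS.nc (E x)
  let col : Fl (mergeN S.n) → F2 := fun x => (E x).1.1.2
  have colM : ∀ x, col (M x) = col x := fun x => by
    change (E (M x)).1.1.2 = (E x).1.1.2
    rw [EM]
    exact (cd x).2.symm
  have colc : ∀ x, col (hm.fc x) = col x := fun x => by
    change (E (hm.fc x)).1.1.2 = (E x).1.1.2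
    rw [Ec]
    rfl
  let T : Fl (mergeN S.n) → Fl (mergeN S.n) → Prop := fun x y => S.Own (E x) (E y)
  have hT : ∀ x y, T x y ↔ (y = x ∨ y = hm.fc x ∨ y = M x ∨ y = hm.fc (M x)) := by
    intro x y
    change (_ ∨ _ ∨ _ ∨ _) ↔ _
    rw [← Ec, ← EM, ← Ec, E.injective.eq_iff, E.injective.eq_iff, E.injective.eq_iff,
      E.injective.eq_iff]
  have hTc : ∀ x y, T x (hm.fc y) ↔ T x y := by
    intro x y
    have hcc : ∀ u v, hm.fc u = v ↔ u = hm.fc v := fun u v =>
      ⟨fun h => by rw [← h, cc], fun h => by rw [h, cc]⟩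
    rw [hT, hT, hcc, hcc, hcc, hcc, cc, cc]
    tauto
  have hOwn : ∀ x p, S.Own (E x) p → p.1.1.2 = col x := by
    intro x p hp
    obtain ⟨y, rfl⟩ := E.surjective p
    have hy : T x y := hp
    rw [hT] at hy
    change col y = col x
    rcases hy with rfl | rfl | rfl | rfl
    · rfl
    · exact colc x
    · exact colM x
    · rw [colc, colM]
  let D : Fl (mergeN S.n) → Fl (mergeN S.n) → F2 := fun x y =>
    G x (y.1.1, col x) + TMap.below (T x) y.1.1 y.1.2
  have hbel : ∀ x y k, k ≤ mergeN S.n y → TMap.below (T x) y k =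
      TMap.below (S.Own (E x)) (y, col x) (transferCnt q S.n (col x) y k) := fun x y k hk =>
    transferME_below q S.n (hOwn x) y k hk
  have hgap : ∀ x, (∀ p, D x ((TMap.infl hm).d p) = D x p) ∧ ∀ p, D x p + D x (hm.fc p) =
      open Classical in if T x p then 1 else 0 := by
    intro x
    refine TMap.gap_infl (G := fun y => G x (y, col x)) hm (hTc x) ?_ ?_
    · intro y
      exact (hG1 x).d (y, col x)
    · intro y
      rw [hbel x y _ le_rfl, transferCnt_top]
      exact (hG1 x).c (y, col x)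
  have hD : ∀ x y, col y = col x → D x y = S.side (E x) (G x) (E y) := by
    intro x y hy
    change G x (y.1.1, col x) + TMap.below (T x) y.1.1 y.1.2 =
      G x (E y).1.1 + TMap.below (S.Own (E x)) (E y).1.1 (E y).1.2
    rw [hbel x y.1.1 y.1.2 (le_of_lt y.2)]
    have := transferME_eq q S.n y hy
    change (E y).1 = _ at this
    rw [this]
  have hxx : ∀ x, T x x := fun x => (hT x x).2 (Or.inl rfl)
  let I : Imm (Fl (mergeN S.n)) :=
    { TMap.infl hm with
      M := M
      col := col
      kap := fun z => κ z.1.1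
      co := co
      P := fun x y => D x y + D x x + co x
      MM := MM
      aM := aM
      cM := cM
      sgM := sgM
      cdM := cdM
      kapc := fun z => hκ.c z.1.1
      kapd := fun z => by
        have h1 := (TMap.infl_CD hm).1 (TMap.CD.d (TMap.infl hm) z)
        exact (transfer_CD_const hκ.c hκ.d h1).symm
      cola := fun z => by
        change (E (hm.fa z)).1.1.2 = (E z).1.1.2 + κ z.1.1
        rw [Ea, ← E1 z]
        rfl
      colb := fun z => by
        change (E (hm.fb z)).1.1.2 = (E z).1.1.2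
        rw [Eb]
        rfl
      colc := colc
      colM := colM
      coa := coa
      cob := cob
      coc := coc
      coM := coM
      Pd := fun x y _ => by
        change D x ((TMap.infl hm).d y) + D x x + co x = D x y + D x x + co x
        rw [(hgap x).1 y]
      Pc := fun x y _ h1 h2 h3 h4 => by
        change D x (hm.fc y) + D x x + co x = D x y + D x x + co x
        have h5 := (hgap x).2 y
        have h6 : ¬ T x y := fun h => by
          rcases (hT x y).1 h with h | h | h | h
          · exact h1 h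
          · exact h2 h
          · exact h3 h
          · exact h4 h
        rw [if_neg h6] at h5
        have h7 := transfer_add_self (D x y)
        have h8 : D x (hm.fc y) = D x y := by
          linear_combination h5 - h7
        rw [h8]
      PM := fun x y _ h => by
        change D x (M y) + D x x + co x = D x y + D x x + co x
        have h' : col (M y) = col x := (colM y).trans h
        rw [hD x (M y) h', hD x y h, EM, hG2 x (E y)]
      Pself := fun x => by
        change D x x + D x x + co x = co x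
        rw [transfer_add_self, zero_add]
      Pself' := fun x => by
        change D x (hm.fc x) + D x x + co x = co x + 1
        have h5 := (hgap x).2 x
        rw [if_pos (hxx x)] at h5
        linear_combination h5 }
  exact ⟨I, rfl, ⟨conn, sph⟩⟩

theorem transfer_merge_mul {κ : Φ → F2} (hκ : V.Closed κ) {n : Φ × F2 → ℕ}
    (hn : (V.cover κ hκ.a hκ.c hκ.d).Mul n) : V.Mul (mergeN n) where
  a := fun x => by
    have h1 : n (V.a x, 0 + κ x) = n (x, 0) := hn.a (x, 0)
    rw [zero_add] at h1
    have h2 : n (V.a x, 1 + κ x) = n (x, 1) := hn.a (x, 1)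
    rw [transfer_mergeN n (V.a x) (κ x), h1, add_comm (κ x), h2]
    rfl
  b := fun x => by
    have h1 : n (V.b x, 0) = n (x, 0) := hn.b (x, 0)
    have h2 : n (V.b x, 1) = n (x, 1) := hn.b (x, 1)
    unfold mergeN
    rw [h1, h2]
  c := fun x => by
    have h1 : n (V.c x, 0) = n (x, 0) := hn.c (x, 0)
    have h2 : n (V.c x, 1) = n (x, 1) := hn.c (x, 1)
    unfold mergeN
    rw [h1, h2]

/-- **Descent for good spheres.** -/
theorem good_of_cover {κ : Φ → F2} (hκ : V.Closed κ)
    (S : Carried (V.cover κ hκ.a hκ.c hκ.d)) {h : Φ} (hS : S.IsGood (h, 0))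
    (h1 : S.n (h, 1) = 0) : GoodSphere V h := by
  have hm : V.Mul (mergeN S.n) := transfer_merge_mul hκ S.hn
  have hfin := S.fin
  have hfin' : Finite (Fl (mergeN S.n)) := Finite.of_equiv _ (transferME (fun _ => 0) S.n).symm
  have hft := Fintype.ofFinite (Fl (mergeN S.n))
  obtain ⟨I, hI1, hI2⟩ := imm_of_cover hκ S hS hm
  obtain ⟨N, hN, he⟩ := descent I hI2
  rw [hI1] at hN he
  refine good_of_emb hm hN ?_ ?_
  · rw [Nat.card_eq_fintype_card]
    exact he
  · unfold mergeN
    rw [hS.h0, h1]

end Pool.Agent.Lib.MP_131179_gt.Dehn
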