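import Pool.Agent.Lib.MP_131179_gt.Dehn.Tower
import Pool.Agent.Lib.MP_131179_gt.Dehn.Transfer

/-!
# Theorem A: certificates give spheres
-/

set_option autoImplicit false

namespace Pool.Agent.Lib.MP_131179_gt.Dehn

/-! ### The finite case -/

theorem thA_aux {B N : ℕ} : ∀ (M : ℕ) (Φ : Type) (_ : Finite Φ) (V : TMap Φ) (h : Φ),
    V.Cert h B N → 8 * B * (N + 1) - (orb [V.a, V.b, V.c] + orb [V.a, V.c, V.d]) = M →
    GoodSphere V h := by
  intro M
  induction M using Nat.strong_induction_on with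
  | _ M ih =>
    intro Φ _ V h hC hM
    classical
    have : Fintype Φ := Fintype.ofFinite Φ
    by_cases hH : V.H1zero
    · exact TMap.good_of_H1zero V hC hH
    · unfold TMap.H1zero at hH
      rw [not_forall] at hH
      obtain ⟨κ, hκ'⟩ := hH
      rw [Classical.not_imp] at hκ'
      obtain ⟨hκ, hn⟩ := hκ'
      obtain ⟨p, hp, h0, h1, hC', hlt⟩ := TMap.tower_step hC hκ hn
      have hle := hC'.orb_le
      have hG := ih _ (by omega) {x // p x} inferInstance (hκ.cover.sub hp) ⟨(h, 0), h0⟩ hC' rfl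
      obtain ⟨S, hS, hSn⟩ := good_of_sub_strong hp hG
      exact good_of_cover hκ S hS (hSn _ h1)

/-- **Theorem A**, finite case. -/
theorem good_of_cert_finite {Φ : Type} [Finite Φ] (V : TMap Φ) {h : Φ} {B N : ℕ}
    (hC : V.Cert h B N) : GoodSphere V h :=
  thA_aux _ Φ inferInstance V h hC rfl

/-! ### Faces -/

section Faces

variable {Φ : Type} (V : TMap Φ)

theorem thA_onFace_self (x : Φ) : V.OnFace x x := Relation.EqvGen.refl _

variable {V}

theorem thA_onFace_a {z x : Φ} : V.OnFace z (V.a x) ↔ V.OnFace z x := by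
  constructor
  · intro h
    exact Relation.EqvGen.trans _ _ _ h
      (Relation.EqvGen.symm _ _ (Relation.EqvGen.rel _ _ ⟨V.a, by simp, rfl⟩))
  · intro h
    exact Relation.EqvGen.trans _ _ _ h (Relation.EqvGen.rel _ _ ⟨V.a, by simp, rfl⟩)

theorem thA_onFace_b {z x : Φ} : V.OnFace z (V.b x) ↔ V.OnFace z x := by
  constructor
  · intro h
    exact Relation.EqvGen.trans _ _ _ h
      (Relation.EqvGen.symm _ _ (Relation.EqvGen.rel _ _ ⟨V.b, by simp, rfl⟩))
  · intro h
    exact Relation.EqvGen.trans _ _ _ h (Relation.EqvGen.rel _ _ ⟨V.b, by simp, rfl⟩)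

theorem thA_onFace_c {z x : Φ} : V.OnFace z (V.c x) ↔ V.OnFace z x := by
  constructor
  · intro h
    exact Relation.EqvGen.trans _ _ _ h
      (Relation.EqvGen.symm _ _ (Relation.EqvGen.rel _ _ ⟨V.c, by simp, rfl⟩))
  · intro h
    exact Relation.EqvGen.trans _ _ _ h (Relation.EqvGen.rel _ _ ⟨V.c, by simp, rfl⟩)

/-- The first half of the flags of a face. -/
def thAset (V : TMap Φ) (z : Φ) : Set Φ := Set.range fun j : ℕ => (fun y => V.b (V.a y))^[j] z

theorem thA_range_finite {k : ℕ} {z : Φ} (hk : V.FaceSize z k) : (thAset V z).Finite := by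
  have hper : Function.IsPeriodicPt (fun y => V.b (V.a y)) k z := hk.2.1
  refine Set.Finite.subset (Set.finite_range
    (fun j : Fin k => (fun y => V.b (V.a y))^[j.1] z)) ?_
  rintro _ ⟨j, rfl⟩
  refine ⟨⟨j % k, Nat.mod_lt _ hk.1⟩, ?_⟩
  exact hper.iterate_mod_apply j

/-- The flags of a face. -/
def thAall (V : TMap Φ) (z : Φ) : Set Φ :=
  (thAset V z ∪ V.a '' thAset V z) ∪ V.c '' (thAset V z ∪ V.a '' thAset V z)

theorem thA_all_finite {k : ℕ} {z : Φ} (hk : V.FaceSize z k) : (thAall V z).Finite := by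
  have h := thA_range_finite hk
  have h2 := h.union (h.image V.a)
  exact h2.union (h2.image V.c)

theorem thA_set_ba {z x : Φ} (hx : x ∈ thAset V z) : V.b (V.a x) ∈ thAset V z := by
  obtain ⟨j, rfl⟩ := hx
  exact ⟨j + 1, by simp only [Function.iterate_succ_apply']⟩

theorem thA_set_b {k : ℕ} {z : Φ} (hk : V.FaceSize z k) {x : Φ} (hx : x ∈ thAset V z) :
    V.b x ∈ V.a '' thAset V z := by
  obtain ⟨j, rfl⟩ := hx
  have key : ∀ m, V.b ((fun y => V.b (V.a y))^[m + 1] z) ∈ V.a '' thAset V z := by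
    intro m
    refine ⟨_, ⟨m, rfl⟩, ?_⟩
    simp only [Function.iterate_succ_apply', V.bb]
  rcases j with _ | j
  · have hk0 := hk.1
    obtain ⟨m, rfl⟩ : ∃ m, k = m + 1 := ⟨k - 1, by omega⟩
    have := key m
    rw [hk.2.1] at this
    exact this
  · exact key j

theorem thA_union_a {z x : Φ} (hx : x ∈ thAset V z ∪ V.a '' thAset V z) :
    V.a x ∈ thAset V z ∪ V.a '' thAset V z := by
  rcases hx with hx | ⟨y, hy, rfl⟩
  · exact Or.inr ⟨x, hx, rfl⟩
  · rw [V.aa]; exact Or.inl hy

theorem thA_union_b {k : ℕ} {z : Φ} (hk : V.FaceSize z k) {x : Φ}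
    (hx : x ∈ thAset V z ∪ V.a '' thAset V z) :
    V.b x ∈ thAset V z ∪ V.a '' thAset V z := by
  rcases hx with hx | ⟨y, hy, rfl⟩
  · exact Or.inr (thA_set_b hk hx)
  · exact Or.inl (thA_set_ba hy)

theorem thA_mem_all {k : ℕ} {z : Φ} (hk : V.FaceSize z k) {x : Φ} (h : V.OnFace z x) :
    x ∈ thAall V z := by
  have ha : ∀ x, x ∈ thAall V z → V.a x ∈ thAall V z := by
    rintro x (hx | ⟨y, hy, rfl⟩)
    · exact Or.inl (thA_union_a hx)
    · rw [V.ac]; exact Or.inr ⟨_, thA_union_a hy, rfl⟩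
  have hb : ∀ x, x ∈ thAall V z → V.b x ∈ thAall V z := by
    rintro x (hx | ⟨y, hy, rfl⟩)
    · exact Or.inl (thA_union_b hk hx)
    · rw [V.bc]; exact Or.inr ⟨_, thA_union_b hk hy, rfl⟩
  have hc : ∀ x, x ∈ thAall V z → V.c x ∈ thAall V z := by
    rintro x (hx | ⟨y, hy, rfl⟩)
    · exact Or.inr ⟨_, hx, rfl⟩
    · rw [V.cc]; exact Or.inl hy
  have key : ∀ x y, Relation.EqvGen (OStep [V.a, V.b, V.c]) x y →
      (x ∈ thAall V z ↔ y ∈ thAall V z) := by
    intro x y hxy
    induction hxy with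
    | rel x y h =>
      obtain ⟨f, hf, rfl⟩ := h
      simp only [List.mem_cons, List.not_mem_nil, or_false] at hf
      rcases hf with rfl | rfl | rfl
      · exact ⟨ha _, fun h => by have := ha _ h; rwa [V.aa] at this⟩
      · exact ⟨hb _, fun h => by have := hb _ h; rwa [V.bb] at this⟩
      · exact ⟨hc _, fun h => by have := hc _ h; rwa [V.cc] at this⟩
    | refl x => exact Iff.rfl
    | symm x y _ ih => exact ih.symm
    | trans x y w _ _ ih1 ih2 => exact ih1.trans ih2
  exact (key z x h).1 (Or.inl (Or.inl ⟨0, rfl⟩))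

theorem thA_face_finite {k : ℕ} {z : Φ} (hk : V.FaceSize z k) : {x | V.OnFace z x}.Finite :=
  (thA_all_finite hk).subset fun _ hx => thA_mem_all hk hx

/-! ### Subcomplexes -/

variable {p : Φ → Prop} (hp : V.IsSub p)

theorem thA_onFace_sub {z x : {x // p x}} : (V.sub hp).OnFace z x ↔ V.OnFace z.1 x.1 := by
  constructor
  · intro h
    unfold TMap.OnFace SameOrb at h
    induction h with
    | rel x y h =>
      obtain ⟨f, hf, rfl⟩ := h
      simp only [List.mem_cons, List.not_mem_nil, or_false] at hf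
      rcases hf with rfl | rfl | rfl
      · exact thA_onFace_a.2 (thA_onFace_self V _)
      · exact thA_onFace_b.2 (thA_onFace_self V _)
      · exact thA_onFace_c.2 (thA_onFace_self V _)
    | refl x => exact thA_onFace_self V _
    | symm x y _ ih => exact Relation.EqvGen.symm _ _ ih
    | trans x y w _ _ ih1 ih2 => exact Relation.EqvGen.trans _ _ _ ih1 ih2
  · intro h
    have key : ∀ x y, Relation.EqvGen (OStep [V.a, V.b, V.c]) x y →
        (p x ↔ p y) ∧ ∀ hx hy, (V.sub hp).OnFace ⟨x, hx⟩ ⟨y, hy⟩ := by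
      intro x y hxy
      induction hxy with
      | rel x y h =>
        obtain ⟨f, hf, rfl⟩ := h
        simp only [List.mem_cons, List.not_mem_nil, or_false] at hf
        rcases hf with rfl | rfl | rfl
        · exact ⟨(hp.a x).symm, fun hx hy =>
            (thA_onFace_a (V := V.sub hp)).2 (thA_onFace_self (V.sub hp) ⟨x, hx⟩)⟩
        · exact ⟨(hp.b x).symm, fun hx hy =>
            (thA_onFace_b (V := V.sub hp)).2 (thA_onFace_self (V.sub hp) ⟨x, hx⟩)⟩
        · exact ⟨(hp.c x).symm, fun hx hy =>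
            (thA_onFace_c (V := V.sub hp)).2 (thA_onFace_self (V.sub hp) ⟨x, hx⟩)⟩
      | refl x => exact ⟨Iff.rfl, fun hx hy => thA_onFace_self (V.sub hp) ⟨x, hx⟩⟩
      | symm x y _ ih => exact ⟨ih.1.symm, fun hx hy => Relation.EqvGen.symm _ _ (ih.2 hy hx)⟩
      | trans x y w _ _ ih1 ih2 =>
        exact ⟨ih1.1.trans ih2.1, fun hx hy =>
          Relation.EqvGen.trans _ _ _ (ih1.2 hx (ih1.1.1 hx)) (ih2.2 (ih1.1.1 hx) hy)⟩
    exact (key _ _ h).2 z.2 x.2

theorem thA_iter_sub (j : ℕ) (x : {x // p x}) :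
    ((fun y => (V.sub hp).b ((V.sub hp).a y))^[j] x).1 = (fun y => V.b (V.a y))^[j] x.1 := by
  induction j with
  | zero => rfl
  | succ j ih =>
    simp only [Function.iterate_succ_apply']
    rw [← ih]
    rfl

theorem thA_faceSize_sub {k : ℕ} {x : {x // p x}} (hk : V.FaceSize x.1 k) :
    (V.sub hp).FaceSize x k := by
  refine ⟨hk.1, Subtype.ext ?_, fun j hj hjk h => ?_⟩
  · rw [thA_iter_sub]; exact hk.2.1
  · apply hk.2.2 j hj hjk
    rw [← thA_iter_sub hp, h]

/-! ### First return maps in subcomplexes -/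

variable {T : Φ → Prop} {hT : V.IsSub T} {T' : {x // p x} → Prop} {hT' : (V.sub hp).IsSub T'}

theorem thA_ret_sub (hTT : ∀ x, T' x ↔ T x.1) {x : {x // p x}} (hx : T x.1)
    (hr : p ((V.fr hT).ret x.1)) :
    (((V.sub hp).fr hT').ret x).1 = (V.fr hT).ret x.1 := by
  have hx' : ((V.sub hp).fr hT').T x := (hTT x).2 hx
  obtain ⟨g', h1, h2, h3, -⟩ := (V.fr hT).extend False
    (fun y => y = x.1 ∨ y = (V.fr hT).ret x.1) (by
      intro y hy
      apply propext
      constructor
      · rintro (h | h)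
        · right; rw [← h, FR.ret_ret _ hy]
        · left
          rw [← FR.ret_ret (V.fr hT) hy, h, FR.ret_ret (V.fr hT) hx]
      · rintro (h | h)
        · right; rw [h]
        · left; rw [h, FR.ret_ret (V.fr hT) hx])
  have hc : ∀ y, ¬ (T y ∧ p y) → g' (V.c y) = g' y := by
    intro y hy
    by_cases hTy : T y
    · have hpy : ¬ p y := fun h => hy ⟨hTy, h⟩
      rw [h3 y hTy, h3 (V.c y) ((hT.c y).2 hTy)]
      apply propext
      constructor
      · rintro (h | h)
        · exact absurd ((hp.c y).1 (h ▸ x.2)) hpy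
        · exact absurd ((hp.c y).1 (h ▸ hr)) hpy
      · rintro (h | h)
        · exact absurd (h ▸ x.2) hpy
        · exact absurd (h ▸ hr) hpy
    · exact h2 y hTy
  have hd' : ∀ y : {x // p x}, g' ((V.sub hp).d y).1 = g' y.1 := by
    intro y
    exact FR.ret_inv (V.fr hp) (f := g') h1 (fun ω hω => hc ω fun h => hω h.2) y.2
  have hinv : g' ((((V.sub hp).fr hT').ret x).1) = g' x.1 :=
    FR.ret_inv ((V.sub hp).fr hT') (f := fun y => g' y.1) hd'
      (fun ω hω => hc ω.1 fun h => hω ((hTT ω).2 h.1)) hx'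
  have hrT : T (((V.sub hp).fr hT').ret x).1 := (hTT _).1 (FR.ret_T _ hx')
  rw [h3 _ hrT, h3 _ hx] at hinv
  have hor : (((V.sub hp).fr hT').ret x).1 = x.1 ∨
      (((V.sub hp).fr hT').ret x).1 = (V.fr hT).ret x.1 := by
    rw [hinv]; exact Or.inl rfl
  rcases hor with h | h
  · exact absurd (Subtype.ext h) (FR.ret_ne ((V.sub hp).fr hT') (V.sub hp).d_ne
      (fun ω _ => (V.sub hp).c_ne ω) hx')
  · exact h

theorem thA_gen_sub (hTT : ∀ x, T' x ↔ T x.1) {x : {x // p x}} (hx : T x.1) (g : Gen)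
    (hr : p (V.gen hT g x.1)) : ((V.sub hp).gen hT' g x).1 = V.gen hT g x.1 := by
  cases g with
  | a => rfl
  | b => rfl
  | c => rfl
  | e => exact thA_ret_sub hp hTT hx hr

theorem thA_gen_T {x : Φ} (hx : T x) (g : Gen) : T (V.gen hT g x) := by
  cases g with
  | a => exact (hT.a x).2 hx
  | b => exact (hT.b x).2 hx
  | c => exact (hT.c x).2 hx
  | e => exact FR.ret_T (V.fr hT) hx

theorem thA_mem_visit_self (w : List Gen) (x : Φ) : x ∈ V.visit hT w x := by
  cases w with
  | nil => simp [TMap.visit]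
  | cons g w => simp [TMap.visit]

theorem thA_act_mem_visit (w : List Gen) (x : Φ) : V.act hT w x ∈ V.visit hT w x := by
  induction w generalizing x with
  | nil => simp [TMap.visit, TMap.act]
  | cons g w ih =>
    simp only [TMap.visit, TMap.act, Finset.mem_insert]
    exact Or.inr (ih _)

theorem thA_visit_left (u w : List Gen) (x y : Φ) (h : y ∈ V.visit hT u x) :
    y ∈ V.visit hT (u ++ w) x := by
  induction u generalizing x with
  | nil =>
    simp only [TMap.visit, Finset.mem_singleton] at h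
    subst h
    exact thA_mem_visit_self _ _
  | cons g u ih =>
    simp only [TMap.visit, List.cons_append, Finset.mem_insert] at h ⊢
    rcases h with h | h
    · exact Or.inl h
    · exact Or.inr (ih _ h)

theorem thA_visit_right (u w : List Gen) (x y : Φ) (h : y ∈ V.visit hT w (V.act hT u x)) :
    y ∈ V.visit hT (u ++ w) x := by
  induction u generalizing x with
  | nil => exact h
  | cons g u ih =>
    simp only [TMap.visit, List.cons_append, Finset.mem_insert]
    exact Or.inr (ih _ h)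

theorem thA_act_sub (hTT : ∀ x, T' x ↔ T x.1) (w : List Gen) {x : {x // p x}} (hx : T x.1)
    (hv : ∀ y ∈ V.visit hT w x.1, p y) : ((V.sub hp).act hT' w x).1 = V.act hT w x.1 := by
  induction w generalizing x with
  | nil => rfl
  | cons g w ih =>
    have hv' : ∀ y ∈ V.visit hT w (V.gen hT g x.1), p y := fun y hy => hv y (by
      simp only [TMap.visit, Finset.mem_insert]; exact Or.inr hy)
    have hg := thA_gen_sub (hT' := hT') hp hTT hx g (hv' _ (thA_mem_visit_self _ _))
    show ((V.sub hp).act hT' w ((V.sub hp).gen hT' g x)).1 = V.act hT w (V.gen hT g x.1)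
    rw [ih (x := (V.sub hp).gen hT' g x) (by rw [hg]; exact thA_gen_T hx g)
      (by rw [hg]; exact hv'), hg]

theorem thA_act_T (w : List Gen) {x : Φ} (hx : T x) : T (V.act hT w x) := by
  induction w generalizing x with
  | nil => exact hx
  | cons g w ih => exact ih (thA_gen_T hx g)

theorem thA_shadow_sub (hTT : ∀ x, T' x ↔ T x.1) {χ y χ' y' : Φ} {w : List Gen} {m : ℕ}
    (hs : V.Shadow hT χ y w χ' y' m) : ∀ (hχ : p χ) (hy : p y), T y →
      (∀ z ∈ V.visit hT w y, p z) → ∃ (hχ' : p χ') (hy' : p y'),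
        (V.sub hp).Shadow hT' ⟨χ, hχ⟩ ⟨y, hy⟩ w ⟨χ', hχ'⟩ ⟨y', hy'⟩ m := by
  induction hs with
  | nil χ y h =>
    intro hχ hy _ _
    exact ⟨hχ, hy, TMap.Shadow.nil _ _ ((V.sub_CD hp).2 h)⟩
  | step χ y h u w χ' y' m hu h' ih =>
    intro hχ hy hTy hv
    have hχ2 : p (V.b (V.a χ)) := (hp.b _).2 ((hp.a _).2 hχ)
    have hv1 : ∀ z ∈ V.visit hT (u ++ w) (V.a y), p z := fun z hz => hv z (by
      simp only [TMap.visit, Finset.mem_insert]; exact Or.inr hz)
    have hv2 : ∀ z ∈ V.visit hT u (V.a y), p z := fun z hz =>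
      hv1 z (thA_visit_left _ _ _ _ hz)
    have hv3 : ∀ z ∈ V.visit hT w (V.act hT u (V.a y)), p z := fun z hz =>
      hv1 z (thA_visit_right _ _ _ _ hz)
    have hTa : T (V.a y) := (hT.a y).2 hTy
    have hya : p (V.a y) := (hp.a y).2 hy
    have hact := thA_act_sub (hT' := hT') hp hTT u (x := ⟨V.a y, hya⟩) hTa hv2
    have hy2 : p (V.act hT u (V.a y)) := hv2 _ (thA_act_mem_visit _ _)
    obtain ⟨hχ', hy', hs'⟩ := ih hχ2 hy2 (thA_act_T u hTa) hv3
    refine ⟨hχ', hy', TMap.Shadow.step _ _ ((V.sub_CD hp).2 h) u w _ _ m hu ?_⟩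
    have e1 : (V.sub hp).act hT' u ((V.sub hp).a ⟨y, hy⟩) = ⟨V.act hT u (V.a y), hy2⟩ :=
      Subtype.ext hact
    rw [e1]
    exact hs'

end Faces

/-- **Theorem A.** If the boundary of the face of `h` is null-homotopic in the complement of this face,
then there is an embedded sphere which passes exactly once over the face of `h`. -/
theorem good_of_null {Φ : Type} (V : TMap Φ) (h : Φ) (hT : V.IsSub fun x => ¬ V.OnFace h x)
    {y : Φ} {w : List Gen} {S : Finset Φ} {m N : ℕ} (hm : V.FaceSize h m)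
    (hs : V.Shadow hT h y w h y m) (hnull : V.Null hT y w S N)
    (hfin : ∀ x, ∃ k, V.FaceSize x k) : GoodSphere V h := by
  classical
  let p : Φ → Prop := fun x => ∃ z ∈ insert h S, V.OnFace z x
  have hp : V.IsSub p :=
    ⟨fun x => by simp only [p, thA_onFace_a], fun x => by simp only [p, thA_onFace_b],
      fun x => by simp only [p, thA_onFace_c]⟩
  have hpf : Finite {x // p x} := by
    have : {x | p x}.Finite := by
      have h1 : {x | p x} = ⋃ z ∈ ((insert h S : Finset Φ) : Set Φ), {x | V.OnFace z x} := by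
        ext x
        simp only [p, Set.mem_ofPred_eq, Set.mem_iUnion, Finset.mem_coe, exists_prop]
      rw [h1]
      refine Set.Finite.biUnion (Finset.finite_toSet _) fun z _ => ?_
      obtain ⟨k, hk⟩ := hfin z
      exact thA_face_finite hk
    exact this
  have hph : p h := ⟨h, Finset.mem_insert_self _ _, thA_onFace_self V h⟩
  have hpS : ∀ z ∈ S, p z := fun z hz => ⟨z, Finset.mem_insert_of_mem hz, thA_onFace_self V z⟩
  have hyS : y ∈ S := hnull.visit_subset (thA_mem_visit_self _ _)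
  have hyT : ¬ V.OnFace h y := hnull.T_of_mem hyS
  let T' : {x // p x} → Prop := fun x => ¬ (V.sub hp).OnFace ⟨h, hph⟩ x
  have hT' : (V.sub hp).IsSub T' :=
    ⟨fun x => by simp only [T', thA_onFace_a], fun x => by simp only [T', thA_onFace_b],
      fun x => by simp only [T', thA_onFace_c]⟩
  have hTT : ∀ x, T' x ↔ ¬ V.OnFace h x.1 := fun x => by
    simp only [T', thA_onFace_sub]
  obtain ⟨S', hS', hmem⟩ := TMap.Null.restrict hp (hT' := hT') hTT hnull hpS (hpS y hyS)
  obtain ⟨hχ', hy', hsh⟩ := thA_shadow_sub (hT' := hT') hp hTT hs hph (hpS y hyS) hyT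
    (fun z hz => hpS z (hnull.visit_subset hz))
  choose k hk using hfin
  obtain ⟨B, hB⟩ : ∃ B, ∀ x : {x // p x}, k x.1 ≤ B := by
    have := Fintype.ofFinite {x // p x}
    exact ⟨Finset.univ.sup fun x : {x // p x} => k x.1, fun x =>
      Finset.le_sup (f := fun x : {x // p x} => k x.1) (Finset.mem_univ x)⟩
  have hC : (V.sub hp).Cert ⟨h, hph⟩ B N := by
    refine ⟨⟨hT', ⟨y, hpS y hyS⟩, w, S', m, thA_faceSize_sub hp hm, hsh, hS', ?_⟩, ?_⟩
    · rintro ⟨x, z, hz, hzx⟩ hx
      rw [Finset.mem_insert] at hz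
      rcases hz with rfl | hz
      · exact absurd ((thA_onFace_sub hp).2 hzx) hx
      · exact ⟨⟨z, hpS z hz⟩, (hmem _).2 hz, (thA_onFace_sub hp).2 hzx⟩
    · intro x
      exact ⟨k x.1, hB x, thA_faceSize_sub hp (hk x.1)⟩
  exact good_of_sub hp (good_of_cert_finite (V.sub hp) hC)

end Pool.Agent.Lib.MP_131179_gt.Dehn
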