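import Pool.Agent.Lib.MP_131179_gt.Dehn.Emb
import Pool.Agent.Lib.MP_131179_gt.Dehn.FineD
import Pool.Agent.Lib.MP_131179_gt.Dehn.SlotsK
import Pool.Agent.Lib.MP_131179_gt.Dehn.CoFn

/-!
# Positions of the sheets of a surface

`A.attach` is the complex of the squares which are not pierced by the curve `c`, together with the
special face.  A surface carried by this complex meets the square perpendicular to an edge of the
lattice in chords; the square number `(u, a)` belongs to the edge from `u - e3 a` to `u`.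
-/

set_option autoImplicit false

namespace Pool.Agent.Lib.MP_131179_gt.Dehn

variable {m : ℕ} [NeZero m] {c : Curve m} (A : Slots (EK c.K) m)

/-- The flags of the complex. -/
abbrev VF (c : Curve m) : Type := {x : LF // ¬ pc c.K x} ⊕ Slots.HF m

/-- The edge of a flag of the lattice (given by its upper end and its direction). -/
def edgL (x : LF) : P3 × Fin 3 := (x.1 + pv (d1 x), (d1 x).1)

/-- The edge of a flag. -/
def edgV : VF c → P3 × Fin 3
  | .inl x => edgL x.1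
  | .inr q => ((c.edge q.1).1 + e3 (c.edge q.1).2, (c.edge q.1).2)

/-- The vertex of a flag. -/
def vtV : VF c → P3
  | .inl x => x.1.1
  | .inr q => if q.2.1 = 0 then c.v q.1 else c.v (q.1 + 1)

/-- The two axes different from `a`. -/
def oth (a : Fin 3) : Fin 3 × Fin 3 := if a = 0 then (1, 2) else if a = 1 then (0, 2) else (0, 1)

/-- The position of the sheet number `k` (counted from the side of the flag) among `n` sheets on the
boundary of the square perpendicular to the edge. -/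
def thp (N R : ℤ) (x : LF) (n k : ℤ) : ℤ :=
  let t := R + (if (d3 x).2 then n - 1 - k else k)
  if d2 x = ((oth (d1 x).1).2, false) then t
  else if d2 x = ((oth (d1 x).1).1, true) then N + t
  else if d2 x = ((oth (d1 x).1).2, true) then 3 * N - t
  else 4 * N - t

variable {A}

/-- The position of a flag of the surface; the special face has the position `0`. -/
def tht (S : Carried A.attach) (N R : ℤ) (p : Fl S.n) : ℤ :=
  match p.1.1 with
  | .inl x => thp N R x.1 (S.n p.1.1) p.1.2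
  | .inr _ => 0

/-- The type of the special point. -/
def bty (a : Fin 3) : Bool := decide (a ≠ 2)

/-- The point of the lattice which belongs to a flag of the surface. -/
def ps (S : Carried A.attach) (N R : ℤ) (p : Fl S.n) : P3 :=
  emb N (edgV p.1.1).1 (edgV p.1.1).2 (st2 N (tht S N R p) (bty (edgV p.1.1).2))

/-- The flags of the special face. -/
def IsH (S : Carried A.attach) (p : Fl S.n) : Prop := ∃ q, p.1.1 = .inr q

/-! ### Auxiliary facts on positions -/

/-- The side of the square. -/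
def theta_sd (a : Fin 3) (d : Dir) : Fin 4 :=
  if d = ((oth a).2, false) then 0 else if d = ((oth a).1, true) then 1
  else if d = ((oth a).2, true) then 2 else 3

/-- The position on a side. -/
def theta_f (N t : ℤ) (s : Fin 4) : ℤ :=
  if s = 0 then t else if s = 1 then N + t else if s = 2 then 3 * N - t else 4 * N - t

/-- The offset. -/
def theta_t (R : ℤ) (x : LF) (n k : ℤ) : ℤ := R + (if (d3 x).2 then n - 1 - k else k)

theorem theta_thp (N R : ℤ) (x : LF) (n k : ℤ) :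
    thp N R x n k = theta_f N (theta_t R x n k) (theta_sd (d1 x).1 (d2 x)) := by
  unfold thp theta_f theta_t theta_sd
  simp only
  split_ifs <;> simp_all

theorem theta_sd_inj : ∀ (a : Fin 3) (d d' : Dir), a ≠ d.1 → a ≠ d'.1 →
    theta_sd a d = theta_sd a d' → d = d' := by decide

theorem theta_fin4 : ∀ s : Fin 4, s = 0 ∨ s = 1 ∨ s = 2 ∨ s = 3 := by decide

theorem theta_f0 (N t : ℤ) : theta_f N t 0 = t := rfl
theorem theta_f1 (N t : ℤ) : theta_f N t 1 = N + t := rfl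
theorem theta_f2 (N t : ℤ) : theta_f N t 2 = 3 * N - t := rfl
theorem theta_f3 (N t : ℤ) : theta_f N t 3 = 4 * N - t := rfl

theorem theta_f_inj {N t t' : ℤ} {s s' : Fin 4} (h1 : 0 < t) (h2 : t < N) (h1' : 0 < t')
    (h2' : t' < N) (h : theta_f N t s = theta_f N t' s') : s = s' ∧ t = t' := by
  rcases theta_fin4 s with rfl | rfl | rfl | rfl <;>
    rcases theta_fin4 s' with rfl | rfl | rfl | rfl <;>
    simp only [theta_f0, theta_f1, theta_f2, theta_f3] at h <;>
    first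
    | exact ⟨rfl, by omega⟩
    | exact absurd h (by omega)

theorem theta_f_good {N R t : ℤ} {s : Fin 4} (h1 : R ≤ t) (h2 : t ≤ N - R) :
    GoodPos N R (theta_f N t s) := by
  rcases theta_fin4 s with rfl | rfl | rfl | rfl <;>
    simp only [theta_f0, theta_f1, theta_f2, theta_f3]
  · exact ⟨0, by omega, by omega, by omega, by omega⟩
  · exact ⟨1, by omega, by omega, by omega, by omega⟩
  · exact ⟨2, by omega, by omega, by omega, by omega⟩
  · exact ⟨3, by omega, by omega, by omega, by omega⟩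

theorem theta_f_pos {N t : ℤ} {s : Fin 4} (h1 : 0 < t) (h2 : t < N) : 0 < theta_f N t s := by
  rcases theta_fin4 s with rfl | rfl | rfl | rfl <;>
    simp only [theta_f0, theta_f1, theta_f2, theta_f3] <;> omega

theorem theta_gam {N t : ℤ} {s : Fin 4} (h1 : 0 < t) (h2 : t < N) :
    gam N (theta_f N t s) =
      if s = 0 then (t, 0) else if s = 1 then (N, t) else if s = 2 then (t, N) else (0, t) := by
  rcases theta_fin4 s with rfl | rfl | rfl | rfl
  · rw [theta_f0, gam, if_pos (by omega)]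
    rfl
  · rw [theta_f1, gam, if_neg (by omega), if_pos (by omega)]
    show (N, N + t - N) = (N, t)
    rw [add_sub_cancel_left]
  · rw [theta_f2, gam, if_neg (by omega), if_neg (by omega), if_pos (by omega)]
    show (3 * N - (3 * N - t), N) = (t, N)
    rw [sub_sub_cancel]
  · rw [theta_f3, gam, if_neg (by omega), if_neg (by omega), if_neg (by omega)]
    show ((0 : ℤ), 4 * N - (4 * N - t)) = (0, t)
    rw [sub_sub_cancel]

/-- The point at distance `t` from `N w` in the direction `l`. -/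
def theta_P (N t : ℤ) (w : P3) (l : Fin 3) : P3 :=
  if l = 0 then (N * w.1 + t, N * w.2.1, N * w.2.2)
  else if l = 1 then (N * w.1, N * w.2.1 + t, N * w.2.2)
  else (N * w.1, N * w.2.1, N * w.2.2 + t)

theorem theta_P0 (N t : ℤ) (w : P3) : theta_P N t w 0 = (N * w.1 + t, N * w.2.1, N * w.2.2) := rfl
theorem theta_P1 (N t : ℤ) (w : P3) : theta_P N t w 1 = (N * w.1, N * w.2.1 + t, N * w.2.2) := rfl
theorem theta_P2 (N t : ℤ) (w : P3) : theta_P N t w 2 = (N * w.1, N * w.2.1, N * w.2.2 + t) := rfl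

theorem theta_fin3 : ∀ s : Fin 3, s = 0 ∨ s = 1 ∨ s = 2 := by decide

theorem theta_mod {N a b t t' : ℤ} (h1 : 0 ≤ t) (h2 : t < N) (h1' : 0 ≤ t') (h2' : t' < N)
    (h : N * a + t = N * b + t') : a = b ∧ t = t' := by
  have h3 : N * (a - b) = t' - t := by rw [mul_sub]; omega
  have hN : 0 < N := by omega
  have h4 : a - b = 0 := by
    by_contra h5
    rcases lt_or_gt_of_ne h5 with h6 | h6
    · have : N * (a - b) ≤ N * (-1) := mul_le_mul_of_nonneg_left (by omega) hN.le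
      omega
    · have : N * 1 ≤ N * (a - b) := mul_le_mul_of_nonneg_left (by omega) hN.le
      omega
  rw [h4, mul_zero] at h3
  omega

theorem theta_mod0 {N a b t : ℤ} (h1 : 0 < t) (h2 : t < N) (h : N * a + t = N * b) : False := by
  have := theta_mod h1.le h2 le_rfl (by omega) (h.trans (add_zero _).symm)
  omega

theorem theta_mul {N a b : ℤ} (hN : 0 < N) (h : N * a = N * b) : a = b :=
  mul_left_cancel₀ hN.ne' h

theorem theta_P_inj {N t t' : ℤ} {w w' : P3} {l l' : Fin 3} (h1 : 0 < t) (h2 : t < N)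
    (h1' : 0 < t') (h2' : t' < N) (h : theta_P N t w l = theta_P N t' w' l') :
    w = w' ∧ l = l' ∧ t = t' := by
  have hN : 0 < N := by omega
  obtain ⟨w1, w2, w3⟩ := w
  obtain ⟨v1, v2, v3⟩ := w'
  rcases theta_fin3 l with rfl | rfl | rfl <;> rcases theta_fin3 l' with rfl | rfl | rfl <;>
    simp only [theta_P0, theta_P1, theta_P2, Prod.mk.injEq] at h
  · obtain ⟨k1, k2, k3⟩ := h
    obtain ⟨k4, k5⟩ := theta_mod h1.le h2 h1'.le h2' k1
    exact ⟨by rw [k4, theta_mul hN k2, theta_mul hN k3], rfl, k5⟩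
  · exact (theta_mod0 h1 h2 h.1).elim
  · exact (theta_mod0 h1 h2 h.1).elim
  · exact (theta_mod0 h1 h2 h.2.1).elim
  · obtain ⟨k1, k2, k3⟩ := h
    obtain ⟨k4, k5⟩ := theta_mod h1.le h2 h1'.le h2' k2
    exact ⟨by rw [k4, theta_mul hN k1, theta_mul hN k3], rfl, k5⟩
  · exact (theta_mod0 h1 h2 h.2.1).elim
  · exact (theta_mod0 h1 h2 h.2.2).elim
  · exact (theta_mod0 h1 h2 h.2.2).elim
  · obtain ⟨k1, k2, k3⟩ := h
    obtain ⟨k4, k5⟩ := theta_mod h1.le h2 h1'.le h2' k3
    exact ⟨by rw [k4, theta_mul hN k1, theta_mul hN k2], rfl, k5⟩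

theorem theta_P_ne {N t : ℤ} {w : P3} {l : Fin 3} (h1 : 1 < t) (h2 : t < N) (u : P3) (a : Fin 3) :
    theta_P N t w l ≠ emb N u a (hp2 (bty a)) := by
  intro h
  obtain ⟨w1, w2, w3⟩ := w
  obtain ⟨v1, v2, v3⟩ := u
  have key : ∀ z z' δ : ℤ, (δ = 0 ∨ δ = 1) → N * z + t = N * z' + δ → False := by
    intro z z' δ hδ hz
    have := theta_mod (by omega) h2 (by omega) (by omega) hz
    omega
  rcases theta_fin3 l with rfl | rfl | rfl <;> rcases theta_fin3 a with rfl | rfl | rfl <;>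
    simp [theta_P0, theta_P1, theta_P2, emb, bty, hp2] at h
  · exact key _ _ 0 (Or.inl rfl) (by rw [add_zero]; exact h.1)
  · exact key _ _ 1 (Or.inr rfl) h.1
  · exact key _ _ 1 (Or.inr rfl) h.1
  · exact key _ _ 1 (Or.inr rfl) h.2.1
  · exact key _ _ 0 (Or.inl rfl) (by rw [add_zero]; exact h.2.1)
  · exact key _ _ 1 (Or.inr rfl) h.2.1
  · exact key _ _ 0 (Or.inl rfl) (by rw [add_zero]; exact h.2.2)
  · exact key _ _ 0 (Or.inl rfl) (by rw [add_zero]; exact h.2.2)
  · exact key _ _ 0 (Or.inl rfl) (by rw [add_zero]; exact h.2.2)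

/-- The key formula. -/
theorem theta_key {N R n k : ℤ} (x : LF) (h1 : 0 < theta_t R x n k) (h2 : theta_t R x n k < N) :
    emb N (edgL x).1 (edgL x).2 (gam N (thp N R x n k)) =
      theta_P N (theta_t R x n k) (upc x) (d3 x).1 := by
  rw [theta_thp]
  generalize theta_t R x n k = t at h1 h2
  rw [theta_gam h1 h2]
  obtain ⟨⟨v1, v2, v3⟩, ⟨⟨⟨i, s⟩, ⟨j, s'⟩, ⟨l, s''⟩⟩, h⟩⟩ := x
  simp only at h
  rcases theta_fin3 i with rfl | rfl | rfl <;> rcases theta_fin3 j with rfl | rfl | rfl <;>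
    rcases theta_fin3 l with rfl | rfl | rfl <;> first
    | exact absurd rfl h.1
    | exact absurd rfl h.2.1
    | exact absurd rfl h.2.2
    | (cases s <;> cases s' <;>
        simp [theta_sd, oth, edgL, upc, pv, d1, d2, d3, e3, emb, theta_P] <;> ring_nf)

theorem theta_upc_a (x : LF) : upc (l3a x) = upc x := by
  have := l3_pv_neg (d1 x)
  show x.1 + dv (d1 x) + pv (d1 x).neg + pv (d2 x) = x.1 + pv (d1 x) + pv (d2 x)
  rw [add_assoc x.1, this]

theorem theta_upc_b (x : LF) : upc (l3b x) = upc x := by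
  show x.1 + pv (d2 x) + pv (d1 x) = x.1 + pv (d1 x) + pv (d2 x)
  rw [add_assoc, add_assoc, add_comm (pv (d2 x))]

theorem theta_upc_c (x : LF) : upc (l3c x) = upc x := rfl

theorem theta_t_c {R : ℤ} (x : LF) {n k : ℕ} (hk : k < n) :
    theta_t R (l3c x) n ((n - 1 - k : ℕ) : ℤ) = theta_t R x n k := by
  have e : (d3 (l3c x)).2 = !(d3 x).2 := rfl
  unfold theta_t
  rw [e]
  cases h : (d3 x).2
  · simp only [Bool.not_false, if_true, Bool.false_eq_true, if_false]
    omega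
  · simp only [Bool.not_true, if_true, Bool.false_eq_true, if_false]
    omega

theorem theta_dv_ne (d : Dir) : dv d ≠ 0 := by
  obtain ⟨i, s⟩ := d
  rcases theta_fin3 i with rfl | rfl | rfl <;> cases s <;> simp [dv, e3]

theorem theta_edgL_a (x : LF) : edgL (l3a x) = edgL x := by
  show (x.1 + dv (d1 x) + pv (d1 x).neg, (d1 x).1) = (x.1 + pv (d1 x), (d1 x).1)
  rw [add_assoc, l3_pv_neg]

section

variable {S : Carried A.attach}

theorem edgV_a (x : VF c) : edgV (A.attach.a x) = edgV x := by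
  rcases x with x | q
  · exact theta_edgL_a x.1
  · rfl

omit [NeZero m] in
theorem theta_edgV_d0 (i : ZMod m) :
    (c.v i + pv (c.dir i), (c.dir i).1) = ((c.edge i).1 + e3 (c.edge i).2, (c.edge i).2) := by
  cases h : (c.dir i).2
  · rw [c.edge_neg h]
    show _ = (c.v (i + 1) + e3 (c.dir i).1, (c.dir i).1)
    rw [c.step_neg h, pv, if_neg (by rw [h]; decide), add_zero]
  · rw [c.edge_pos h, pv, if_pos h]

omit [NeZero m] in
theorem theta_edgV_d1 (i : ZMod m) :
    (c.v (i + 1) + pv (c.dir i).neg, (c.dir i).neg.1) =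
      ((c.edge i).1 + e3 (c.edge i).2, (c.edge i).2) := by
  rw [← theta_edgV_d0, c.step]
  show (_, (c.dir i).1) = _
  rw [add_assoc, l3_pv_neg]

theorem theta_slot (hA : SlotsAt c A) (q : Slots.HF m) :
    edgV (c := c) (.inl (A.slot q)) = edgV (c := c) (.inr q) ∧
      vtV (c := c) (.inl (A.slot q)) = vtV (c := c) (.inr q) := by
  obtain ⟨i, ε, s⟩ := q
  rcases attach_F2 ε with rfl | rfl
  · constructor
    · show ((A.σ i 0 s).1.1 + pv (d1 (A.σ i 0 s).1), (d1 (A.σ i 0 s).1).1) = _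
      rw [hA.v0, hA.dir0]
      exact theta_edgV_d0 i
    · show (A.σ i 0 s).1.1 = if (0 : F2) = 0 then c.v i else c.v (i + 1)
      rw [hA.v0, if_pos rfl]
  · constructor
    · show ((A.σ i 1 s).1.1 + pv (d1 (A.σ i 1 s).1), (d1 (A.σ i 1 s).1).1) = _
      rw [hA.v1, hA.dir1]
      exact theta_edgV_d1 i
    · show (A.σ i 1 s).1.1 = if (1 : F2) = 0 then c.v i else c.v (i + 1)
      rw [hA.v1, if_neg (by decide)]

theorem theta_step_d (hA : SlotsAt c A) (x : VF c) :
    edgV x = edgV (A.attach.d x) ∧ vtV x = vtV (A.attach.d x) := by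
  rcases x with x | q
  · rcases A.attach_cases x with ⟨q, rfl⟩ | h
    · have h1 : A.attach.d (.inl (A.slot q)) = .inr q := A.attach_dd_slot q
      rw [h1]
      exact theta_slot hA q
    · have h1 : A.attach.d (.inl x) = .inl ((EK c.K).d x) := A.attach_dd_not h
      rw [h1]
      have h2 := EK_CD.1 (TMap.CD.d (EK c.K) x)
      constructor
      · show (x.1.1 + pv (d1 x.1), (d1 x.1).1) = _
        rw [h2.1, h2.2]
        rfl
      · exact h2.1
  · have h := theta_slot hA q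
    exact ⟨h.1.symm, h.2.symm⟩

theorem edgV_CD (hA : SlotsAt c A) {x y : VF c} (h : A.attach.CD x y) :
    edgV x = edgV y ∧ vtV x = vtV y := by
  induction h with
  | rel u v hr =>
    obtain ⟨f, hf, rfl⟩ := hr
    simp only [List.mem_cons, List.not_mem_nil, or_false] at hf
    rcases hf with rfl | rfl
    · rcases u with x | q
      · exact ⟨rfl, rfl⟩
      · exact ⟨rfl, rfl⟩
    · exact theta_step_d hA u
  | refl u => exact ⟨rfl, rfl⟩
  | symm u v _ ih => exact ⟨ih.1.symm, ih.2.symm⟩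
  | trans u v w _ _ ih1 ih2 => exact ⟨ih1.1.trans ih2.1, ih1.2.trans ih2.2⟩

theorem vtV_a (h3 : 3 ≤ m) (x : VF c) : vtV (A.attach.a x) ≠ vtV x := by
  have hne : ∀ j : ZMod m, c.v (j + 1) ≠ c.v j := by
    intro j hj
    have h2 := c.inj hj
    apply Curve.cyc_one_ne h3
    have h3 : j + 1 = j + 0 := by rw [add_zero]; exact h2
    exact add_left_cancel h3
  rcases x with x | ⟨i, ε, s⟩
  · show x.1.1 + dv (d1 x.1) ≠ x.1.1
    intro h
    apply theta_dv_ne (d1 x.1)
    exact add_left_cancel (h.trans (add_zero _).symm)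
  · rcases attach_F2 ε with rfl | rfl
    · show (if (0 : F2) + 1 = 0 then c.v i else c.v (i + 1)) ≠
        if (0 : F2) = 0 then c.v i else c.v (i + 1)
      rw [if_neg (by decide), if_pos rfl]
      exact hne i
    · show (if (1 : F2) + 1 = 0 then c.v i else c.v (i + 1)) ≠
        if (1 : F2) = 0 then c.v i else c.v (i + 1)
      rw [if_pos (by decide), if_neg (by decide)]
      exact (hne i).symm

theorem vtV_b (x : VF c) : vtV (A.attach.b x) = vtV x := by
  rcases x with x | ⟨i, ε, s⟩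
  · rfl
  · rcases attach_F2 ε with rfl | rfl
    · show (if (1 : F2) = 0 then c.v (i - 1) else c.v (i - 1 + 1)) =
        if (0 : F2) = 0 then c.v i else c.v (i + 1)
      rw [if_neg (by decide), if_pos rfl, sub_add_cancel]
    · show (if (0 : F2) = 0 then c.v (i + 1) else c.v (i + 1 + 1)) =
        if (1 : F2) = 0 then c.v i else c.v (i + 1)
      rw [if_pos rfl, if_neg (by decide)]

theorem vtV_c (x : VF c) : vtV (A.attach.c x) = vtV x := by
  rcases x with x | ⟨i, ε, s⟩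
  · rfl
  · rfl

theorem theta_vt_dir (p : P3) (d : Dir) : p = p + pv d ∨ p + e3 d.1 = p + pv d := by
  cases h : d.2
  · left
    rw [pv, if_neg (by rw [h]; decide), add_zero]
  · right
    rw [pv, if_pos h]

/-- The vertex is an end of the edge. -/
theorem vtV_edgV (x : VF c) :
    vtV x = (edgV x).1 ∨ vtV x + e3 (edgV x).2 = (edgV x).1 := by
  rcases x with x | ⟨i, ε, s⟩
  · exact theta_vt_dir x.1.1 (d1 x.1)
  · rcases attach_F2 ε with rfl | rfl
    · have h1 := theta_edgV_d0 (c := c) i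
      have h2 : edgV (c := c) (.inr (i, 0, s)) = (c.v i + pv (c.dir i), (c.dir i).1) := h1.symm
      rw [h2]
      exact theta_vt_dir (c.v i) (c.dir i)
    · have h1 := theta_edgV_d1 (c := c) i
      have h2 : edgV (c := c) (.inr (i, 1, s)) =
        (c.v (i + 1) + pv (c.dir i).neg, (c.dir i).neg.1) := h1.symm
      rw [h2]
      exact theta_vt_dir (c.v (i + 1)) (c.dir i).neg

theorem tht_a (N R : ℤ) (p : Fl S.n) : tht S N R (S.hn.fa p) = tht S N R p := by
  obtain ⟨⟨x | q, k⟩, hk⟩ := p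
  · show thp N R (l3a x.1) (S.n (A.attach.a (.inl x))) k = thp N R x.1 (S.n (.inl x)) k
    rw [S.hn.a]
    rfl
  · rfl

theorem tht_c (N R : ℤ) (p : Fl S.n) : tht S N R (S.hn.fc p) = tht S N R p := by
  obtain ⟨⟨x | q, k⟩, hk⟩ := p
  · show thp N R (l3c x.1) (S.n (A.attach.c (.inl x))) ((S.n (.inl x) - 1 - k : ℕ) : ℤ) =
      thp N R x.1 (S.n (.inl x)) k
    rw [S.hn.c, theta_thp, theta_thp, theta_t_c x.1 hk]
    rfl
  · rfl

theorem tht_H (N R : ℤ) {p : Fl S.n} (h : IsH S p) : tht S N R p = 0 := by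
  obtain ⟨⟨x | q, k⟩, hk⟩ := p
  · obtain ⟨q, hq⟩ := h
    cases hq
  · rfl

/-- The conditions for `N` and `R`. -/
structure NR (S : Carried A.attach) (N R : ℤ) : Prop where
  hR : 3 ≤ R
  hN : ∀ x, 2 * R + S.n x ≤ N

theorem theta_t_bd {N R : ℤ} (h : NR S N R) {x : {x : LF // ¬ pc c.K x}} {k : ℕ}
    (hk : k < S.n (.inl x)) : R ≤ theta_t R x.1 (S.n (.inl x)) k ∧
      theta_t R x.1 (S.n (.inl x)) k ≤ N - R := by
  have h1 := h.hN (.inl x)
  have h2 := h.hR
  unfold theta_t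
  split_ifs
  · omega
  · omega

theorem tht_good {N R : ℤ} (h : NR S N R) {p : Fl S.n} (hp : ¬ IsH S p) :
    GoodPos N R (tht S N R p) := by
  obtain ⟨⟨x | q, k⟩, hk⟩ := p
  · show GoodPos N R (thp N R x.1 (S.n (.inl x)) k)
    rw [theta_thp]
    have h1 := theta_t_bd h hk
    exact theta_f_good h1.1 h1.2
  · exact absurd ⟨q, rfl⟩ hp

theorem n_inr (hS : S.IsGood Slots.h0) (q : Slots.HF m) : S.n (.inr q) = 1 := by
  have h1 : A.attach.OnFace Slots.h0 (.inr q) := (A.onFace_iff _).2 ⟨q, rfl⟩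
  have key : ∀ x y, SameOrb [A.attach.a, A.attach.b, A.attach.c] x y → S.n x = S.n y := by
    intro x y h
    induction h with
    | rel u v hr =>
      obtain ⟨f, hf, rfl⟩ := hr
      simp only [List.mem_cons, List.not_mem_nil, or_false] at hf
      rcases hf with rfl | rfl | rfl
      · exact (S.hn.a u).symm
      · exact (S.hn.b u).symm
      · exact (S.hn.c u).symm
    | refl u => rfl
    | symm u v _ ih => exact ih.symm
    | trans u v w _ _ ih1 ih2 => exact ih1.trans ih2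
  rw [← key _ _ h1]
  exact hS.h0

theorem theta_ext {p q : Fl S.n} (h1 : p.1.1 = q.1.1) (h2 : p.1.2 = q.1.2) : p = q :=
  Subtype.ext (Prod.ext h1 h2)

/-- The offset of a flag of the surface. -/
def theta_tt (R : ℤ) (p : Fl S.n) : ℤ :=
  match p.1.1 with
  | .inl x => theta_t R x.1 (S.n p.1.1) p.1.2
  | .inr _ => 0

/-- The corner and the axis of a flag. -/
def theta_w (x : VF c) : P3 × Fin 3 :=
  match x with
  | .inl x => (upc x.1, (d3 x.1).1)
  | .inr _ => (0, 0)

theorem theta_tt_a (R : ℤ) (p : Fl S.n) : theta_tt R (S.hn.fa p) = theta_tt R p := by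
  obtain ⟨⟨x | q, k⟩, hk⟩ := p
  · show theta_t R (l3a x.1) (S.n (A.attach.a (.inl x))) k = theta_t R x.1 (S.n (.inl x)) k
    rw [S.hn.a]
    rfl
  · rfl

theorem theta_tt_b (R : ℤ) (p : Fl S.n) : theta_tt R (S.hn.fb p) = theta_tt R p := by
  obtain ⟨⟨x | q, k⟩, hk⟩ := p
  · show theta_t R (l3b x.1) (S.n (A.attach.b (.inl x))) k = theta_t R x.1 (S.n (.inl x)) k
    rw [S.hn.b]
    rfl
  · rfl

theorem theta_tt_c (R : ℤ) (p : Fl S.n) : theta_tt R (S.hn.fc p) = theta_tt R p := by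
  obtain ⟨⟨x | q, k⟩, hk⟩ := p
  · show theta_t R (l3c x.1) (S.n (A.attach.c (.inl x))) ((S.n (.inl x) - 1 - k : ℕ) : ℤ) =
      theta_t R x.1 (S.n (.inl x)) k
    rw [S.hn.c, theta_t_c x.1 hk]
  · rfl

theorem theta_w_a (x : VF c) : theta_w (A.attach.a x) = theta_w x := by
  rcases x with x | q
  · show (upc (l3a x.1), (d3 x.1).1) = (upc x.1, (d3 x.1).1)
    rw [theta_upc_a]
  · rfl

theorem theta_w_b (x : VF c) : theta_w (A.attach.b x) = theta_w x := by
  rcases x with x | q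
  · show (upc (l3b x.1), (d3 x.1).1) = (upc x.1, (d3 x.1).1)
    rw [theta_upc_b]
  · rfl

theorem theta_w_c (x : VF c) : theta_w (A.attach.c x) = theta_w x := by
  rcases x with x | q
  · rfl
  · rfl

theorem theta_orb {R : ℤ} {p p' : Fl S.n} (h : SameOrb [S.hn.fa, S.hn.fb, S.hn.fc] p p') :
    theta_w p.1.1 = theta_w p'.1.1 ∧ theta_tt R p = theta_tt R p' := by
  induction h with
  | rel u v hr =>
    obtain ⟨f, hf, rfl⟩ := hr
    simp only [List.mem_cons, List.not_mem_nil, or_false] at hf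
    rcases hf with rfl | rfl | rfl
    · exact ⟨(theta_w_a (A := A) u.1.1).symm, (theta_tt_a R u).symm⟩
    · exact ⟨(theta_w_b (A := A) u.1.1).symm, (theta_tt_b R u).symm⟩
    · exact ⟨(theta_w_c (A := A) u.1.1).symm, (theta_tt_c R u).symm⟩
  | refl u => exact ⟨rfl, rfl⟩
  | symm u v _ ih => exact ⟨ih.1.symm, ih.2.symm⟩
  | trans u v w _ _ ih1 ih2 => exact ⟨ih1.1.trans ih2.1, ih1.2.trans ih2.2⟩

theorem theta_tt_bd {N R : ℤ} (h : NR S N R) {p : Fl S.n} (hp : ¬ IsH S p) :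
    R ≤ theta_tt R p ∧ theta_tt R p ≤ N - R := by
  obtain ⟨⟨x | q, k⟩, hk⟩ := p
  · exact theta_t_bd h hk
  · exact absurd ⟨q, rfl⟩ hp

theorem theta_ps {N R : ℤ} (h : NR S N R) {p : Fl S.n} (hp : ¬ IsH S p) :
    ps S N R p = theta_P N (theta_tt R p) (theta_w p.1.1).1 (theta_w p.1.1).2 := by
  obtain ⟨⟨x | q, k⟩, hk⟩ := p
  · have h1 : R ≤ theta_t R x.1 (S.n (.inl x)) k ∧ theta_t R x.1 (S.n (.inl x)) k ≤ N - R :=
      theta_t_bd h hk
    have h2 := h.hR
    have h3 : thp N R x.1 (S.n (.inl x)) k ≠ 0 := by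
      rw [theta_thp]
      exact (theta_f_pos (by omega) (by omega)).ne'
    show emb N (edgL x.1).1 (edgL x.1).2 (st2 N (thp N R x.1 (S.n (.inl x)) k) _) = _
    rw [st2, if_neg h3, theta_key x.1 (by omega) (by omega)]
    rfl
  · exact absurd ⟨q, rfl⟩ hp

theorem theta_uniq {R : ℤ} {p q : Fl S.n} {x y : {x : LF // ¬ pc c.K x}} (hp : p.1.1 = .inl x)
    (hq : q.1.1 = .inl y) (hxy : x.1 = y.1) (ht : theta_tt R p = theta_tt R q) : p = q := by
  obtain ⟨⟨x', k⟩, hk⟩ := p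
  obtain ⟨⟨y', l⟩, hl⟩ := q
  simp only at hp hq
  subst hp; subst hq
  obtain rfl : x = y := Subtype.ext hxy
  refine theta_ext rfl ?_
  have h1 : theta_t R x.1 (S.n (.inl x)) k = theta_t R x.1 (S.n (.inl x)) l := ht
  unfold theta_t at h1
  simp only at hk hl
  show k = l
  split_ifs at h1 <;> omega

theorem theta_inl {p : Fl S.n} (hp : ¬ IsH S p) : ∃ x, p.1.1 = .inl x := by
  obtain ⟨⟨x | q, k⟩, hk⟩ := p
  · exact ⟨x, rfl⟩
  · exact absurd ⟨q, rfl⟩ hp

theorem theta_fa_inl {p : Fl S.n} {x : {x : LF // ¬ pc c.K x}} (hp : p.1.1 = .inl x) :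
    (S.hn.fa p).1.1 = .inl ((EK c.K).a x) := by
  show A.attach.a p.1.1 = _
  rw [hp]
  rfl

theorem theta_fb_inl {p : Fl S.n} {x : {x : LF // ¬ pc c.K x}} (hp : p.1.1 = .inl x) :
    (S.hn.fb p).1.1 = .inl ((EK c.K).b x) := by
  show A.attach.b p.1.1 = _
  rw [hp]
  rfl

theorem theta_fc_inl {p : Fl S.n} {x : {x : LF // ¬ pc c.K x}} (hp : p.1.1 = .inl x) :
    (S.hn.fc p).1.1 = .inl ((EK c.K).c x) := by
  show A.attach.c p.1.1 = _
  rw [hp]
  rfl

theorem theta_dir : ∀ d d' : Dir, d.1 = d'.1 → d' = d ∨ d' = d.neg := by decide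

theorem theta_ax : ∀ a b e a' b' e' : Fin 3, a ≠ b → a ≠ e → b ≠ e → a' ≠ b' → a' ≠ e' →
    b' ≠ e' → a = a' → b = b' → e = e' := by decide

theorem theta_lf_ext {x y : LF} (h0 : x.1 = y.1) (h1 : d1 x = d1 y) (h2 : d2 x = d2 y)
    (h3 : d3 x = d3 y) : x = y := by
  obtain ⟨v, ⟨⟨a, b, e⟩, h⟩⟩ := x
  obtain ⟨v', ⟨⟨a', b', e'⟩, h'⟩⟩ := y
  obtain rfl : v = v' := h0
  obtain rfl : a = a' := h1
  obtain rfl : b = b' := h2
  obtain rfl : e = e' := h3
  rfl

theorem tht_inj (h3 : 3 ≤ m) {N R : ℤ} (h : NR S N R) (hS : S.IsGood Slots.h0) {p q : Fl S.n}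
    (he : edgV p.1.1 = edgV q.1.1) (ht : tht S N R p = tht S N R q) :
    q = p ∨ q = S.hn.fa p ∨ q = S.hn.fc p ∨ q = S.hn.fa (S.hn.fc p) := by
  have hR := h.hR
  by_cases hp : IsH S p <;> by_cases hq : IsH S q
  · obtain ⟨⟨x, k⟩, hk⟩ := p
    obtain ⟨⟨y, l⟩, hl⟩ := q
    obtain ⟨⟨i, ε, s⟩, hp⟩ := hp
    obtain ⟨⟨j, ε', s'⟩, hq⟩ := hq
    simp only at hp hq
    subst hp; subst hq
    simp only at hk hl
    rw [n_inr hS] at hk hl
    obtain rfl : k = 0 := by omega
    obtain rfl : l = 0 := by omega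
    have he' : ((c.edge i).1 + e3 (c.edge i).2, (c.edge i).2) =
      ((c.edge j).1 + e3 (c.edge j).2, (c.edge j).2) := he
    have he1 : c.edge i = c.edge j := by
      rw [Prod.mk.injEq] at he'
      refine Prod.ext ?_ he'.2
      have h5 := he'.1
      rw [he'.2] at h5
      exact add_right_cancel h5
    obtain rfl : i = j := c.edge_injective h3 he1
    have hc0 : ∀ q : Slots.HF m, S.n (.inr q) - 1 - 0 = 0 := by
      intro q
      rw [n_inr hS]
    rcases (attach_F2 (ε' + ε) : ε' + ε = 0 ∨ ε' + ε = 1) with h5 | h5 <;>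
      rcases (attach_F2 (s' + s) : s' + s = 0 ∨ s' + s = 1) with h6 | h6
    · left
      have e1 : ε' = ε := by linear_combination h5 - attach_add_self ε
      have e2 : s' = s := by linear_combination h6 - attach_add_self s
      subst e1; subst e2
      exact theta_ext rfl rfl
    · right; right; left
      have e1 : ε' = ε := by linear_combination h5 - attach_add_self ε
      have e2 : s' = s + 1 := by linear_combination h6 - attach_add_self s
      subst e1; subst e2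
      exact theta_ext rfl (hc0 _).symm
    · right; left
      have e1 : ε' = ε + 1 := by linear_combination h5 - attach_add_self ε
      have e2 : s' = s := by linear_combination h6 - attach_add_self s
      subst e1; subst e2
      exact theta_ext rfl rfl
    · right; right; right
      have e1 : ε' = ε + 1 := by linear_combination h5 - attach_add_self ε
      have e2 : s' = s + 1 := by linear_combination h6 - attach_add_self s
      subst e1; subst e2
      exact theta_ext rfl (hc0 _).symm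
  · exfalso
    rw [tht_H N R hp] at ht
    obtain ⟨i, h5, _, h6, _⟩ := tht_good h hq
    rw [← ht] at h6
    have hN := h.hN (.inr (0, 0, 0))
    have h7 : 0 ≤ i * N := mul_nonneg h5 (by omega)
    omega
  · exfalso
    rw [tht_H N R hq] at ht
    obtain ⟨i, h5, _, h6, _⟩ := tht_good h hp
    rw [ht] at h6
    have hN := h.hN (.inr (0, 0, 0))
    have h7 : 0 ≤ i * N := mul_nonneg h5 (by omega)
    omega
  · obtain ⟨x, hx⟩ := theta_inl hp
    obtain ⟨y, hy⟩ := theta_inl hq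
    have b1 := theta_tt_bd h hp
    have b2 := theta_tt_bd h hq
    have e1 : tht S N R p = theta_f N (theta_tt R p) (theta_sd (d1 x.1).1 (d2 x.1)) := by
      obtain ⟨⟨x', k⟩, hk⟩ := p
      simp only at hx
      subst hx
      exact theta_thp N R x.1 _ _
    have e2 : tht S N R q = theta_f N (theta_tt R q) (theta_sd (d1 y.1).1 (d2 y.1)) := by
      obtain ⟨⟨x', k⟩, hk⟩ := q
      simp only at hy
      subst hy
      exact theta_thp N R y.1 _ _
    rw [e1, e2] at ht
    obtain ⟨h5, h6⟩ := theta_f_inj (by omega) (by omega) (by omega) (by omega) ht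
    rw [hx, hy] at he
    have he' : (x.1.1 + pv (d1 x.1), (d1 x.1).1) = (y.1.1 + pv (d1 y.1), (d1 y.1).1) := he
    rw [Prod.mk.injEq] at he'
    obtain ⟨he1, he2⟩ := he'
    rw [← he2] at h5
    have h7 : d2 x.1 = d2 y.1 := theta_sd_inj _ _ _ x.1.2.2.1 (he2 ▸ y.1.2.2.1) h5
    have h8 : (d3 x.1).1 = (d3 y.1).1 := theta_ax _ _ _ _ _ _ x.1.2.2.1 x.1.2.2.2.1
      x.1.2.2.2.2 y.1.2.2.1 y.1.2.2.2.1 y.1.2.2.2.2 he2 (congrArg Prod.fst h7)
    rcases theta_dir _ _ he2 with h9 | h9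
    · have h10 : y.1.1 = x.1.1 := by
        rw [h9] at he1
        exact (add_right_cancel he1).symm
      rcases theta_dir _ _ h8 with h11 | h11
      · left
        exact theta_uniq (R := R) hy hx (theta_lf_ext h10 h9 h7.symm h11) h6.symm
      · right; right; left
        refine theta_uniq (R := R) hy (theta_fc_inl hx) (theta_lf_ext h10 h9 h7.symm h11) ?_
        rw [theta_tt_c, h6]
    · have h10 : y.1.1 = x.1.1 + dv (d1 x.1) := by
        rw [h9, ← l3_pv_neg, ← add_assoc] at he1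
        exact (add_right_cancel he1).symm
      rcases theta_dir _ _ h8 with h11 | h11
      · right; left
        refine theta_uniq (R := R) hy (theta_fa_inl hx) (theta_lf_ext h10 h9 h7.symm h11) ?_
        rw [theta_tt_a, h6]
      · right; right; right
        refine theta_uniq (R := R) hy (theta_fa_inl (theta_fc_inl hx))
          (theta_lf_ext h10 h9 h7.symm h11) ?_
        rw [theta_tt_a, theta_tt_c, h6]

theorem theta_not_b {p : Fl S.n} (hp : ¬ IsH S p) : ¬ IsH S (S.hn.fb p) := by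
  obtain ⟨x, hx⟩ := theta_inl hp
  rintro ⟨q, hq⟩
  rw [theta_fb_inl hx] at hq
  cases hq

theorem ps_b {N R : ℤ} (h : NR S N R) {p : Fl S.n} (hp : ¬ IsH S p) :
    ps S N R (S.hn.fb p) = ps S N R p := by
  rw [theta_ps h hp, theta_ps h (theta_not_b hp), theta_tt_b]
  have h1 : theta_w (S.hn.fb p).1.1 = theta_w p.1.1 := theta_w_b (A := A) p.1.1
  rw [h1]

theorem ps_H {N : ℕ} {R : ℤ} {p : Fl S.n} {q : Slots.HF m} (h : p.1.1 = .inr q) :
    ps S N R p = hpt N (c.edge q.1) := by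
  obtain ⟨⟨x, k⟩, hk⟩ := p
  simp only at h
  subst h
  show emb N ((c.edge q.1).1 + e3 (c.edge q.1).2) (c.edge q.1).2 (hp2 (bty (c.edge q.1).2)) = _
  generalize c.edge q.1 = e
  obtain ⟨⟨v1, v2, v3⟩, a⟩ := e
  rcases theta_fin3 a with rfl | rfl | rfl <;> simp [emb, hp2, bty, hpt, e3]

theorem ps_ne {N R : ℤ} (h : NR S N R) {p p' : Fl S.n} (hp : ¬ IsH S p) (hp' : IsH S p') :
    ps S N R p ≠ ps S N R p' := by
  have hR := h.hR
  have h1 := theta_tt_bd h hp
  rw [theta_ps h hp]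
  obtain ⟨⟨x, k⟩, hk⟩ := p'
  obtain ⟨q, hq⟩ := hp'
  simp only at hq
  subst hq
  exact theta_P_ne (by omega) (by omega) _ _

theorem theta_ps_eq {N R : ℤ} (h : NR S N R) {p p' : Fl S.n} (hp : ¬ IsH S p)
    (hp' : ¬ IsH S p') (he : ps S N R p = ps S N R p') :
    theta_w p.1.1 = theta_w p'.1.1 ∧ theta_tt R p = theta_tt R p' := by
  have hR := h.hR
  have h1 := theta_tt_bd h hp
  have h2 := theta_tt_bd h hp'
  rw [theta_ps h hp, theta_ps h hp'] at he
  obtain ⟨h3, h4, h5⟩ := theta_P_inj (by omega) (by omega) (by omega) (by omega) he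
  exact ⟨Prod.ext h3 h4, h5⟩

theorem theta_sa (p : Fl S.n) : SameOrb [S.hn.fa, S.hn.fb, S.hn.fc] p (S.hn.fa p) :=
  Relation.EqvGen.rel _ _ ⟨S.hn.fa, by simp, rfl⟩

theorem theta_sb (p : Fl S.n) : SameOrb [S.hn.fa, S.hn.fb, S.hn.fc] p (S.hn.fb p) :=
  Relation.EqvGen.rel _ _ ⟨S.hn.fb, by simp, rfl⟩

theorem theta_sc (p : Fl S.n) : SameOrb [S.hn.fa, S.hn.fb, S.hn.fc] p (S.hn.fc p) :=
  Relation.EqvGen.rel _ _ ⟨S.hn.fc, by simp, rfl⟩

theorem theta_canon {p : Fl S.n} (hp : ¬ IsH S p) : ∃ (p1 : Fl S.n) (y : {x : LF // ¬ pc c.K x}),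
    SameOrb [S.hn.fa, S.hn.fb, S.hn.fc] p p1 ∧ p1.1.1 = .inl y ∧ (d1 y.1).2 = false ∧
      (d2 y.1).2 = false ∧ (d1 y.1).1 < (d2 y.1).1 ∧ (d3 y.1).2 = true := by
  have s1 : ∃ (p1 : Fl S.n) (y : {x : LF // ¬ pc c.K x}),
      SameOrb [S.hn.fa, S.hn.fb, S.hn.fc] p p1 ∧ p1.1.1 = .inl y ∧ (d1 y.1).2 = false := by
    obtain ⟨x, hx⟩ := theta_inl hp
    cases h : (d1 x.1).2
    · exact ⟨p, x, Relation.EqvGen.refl _, hx, h⟩
    · refine ⟨S.hn.fa p, _, theta_sa p, theta_fa_inl hx, ?_⟩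
      show (!(d1 x.1).2) = false
      rw [h]; rfl
  have s2 : ∃ (p1 : Fl S.n) (y : {x : LF // ¬ pc c.K x}),
      SameOrb [S.hn.fa, S.hn.fb, S.hn.fc] p p1 ∧ p1.1.1 = .inl y ∧ (d1 y.1).2 = false ∧
      (d2 y.1).2 = false := by
    obtain ⟨p1, x, ho, hx, h1⟩ := s1
    cases h : (d2 x.1).2
    · exact ⟨p1, x, ho, hx, h1, h⟩
    · refine ⟨S.hn.fb (S.hn.fa (S.hn.fb p1)), _, ?_,
        theta_fb_inl (theta_fa_inl (theta_fb_inl hx)), ?_, ?_⟩
      · exact (((ho.trans _ _ _ (theta_sb p1)).trans _ _ _ (theta_sa _)).trans _ _ _ (theta_sb _))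
      · exact h1
      · show (!(d2 x.1).2) = false
        rw [h]; rfl
  have s3 : ∃ (p1 : Fl S.n) (y : {x : LF // ¬ pc c.K x}),
      SameOrb [S.hn.fa, S.hn.fb, S.hn.fc] p p1 ∧ p1.1.1 = .inl y ∧ (d1 y.1).2 = false ∧
      (d2 y.1).2 = false ∧ (d1 y.1).1 < (d2 y.1).1 := by
    obtain ⟨p1, x, ho, hx, h1, h2⟩ := s2
    rcases lt_or_gt_of_ne x.1.2.2.1 with h | h
    · exact ⟨p1, x, ho, hx, h1, h2, h⟩
    · exact ⟨S.hn.fb p1, _, ho.trans _ _ _ (theta_sb p1), theta_fb_inl hx, h2, h1, h⟩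
  obtain ⟨p1, x, ho, hx, h1, h2, h3⟩ := s3
  cases h : (d3 x.1).2
  · refine ⟨S.hn.fc p1, _, ho.trans _ _ _ (theta_sc p1), theta_fc_inl hx, h1, h2, h3, ?_⟩
    show (!(d3 x.1).2) = true
    rw [h]; rfl
  · exact ⟨p1, x, ho, hx, h1, h2, h3, h⟩

theorem theta_ax2 : ∀ a b e a' b' e' : Fin 3, a ≠ b → a ≠ e → b ≠ e → a' ≠ b' → a' ≠ e' →
    b' ≠ e' → e = e' → a < b → a' < b' → a = a' ∧ b = b' := by decide

theorem ps_inj {N R : ℤ} (h : NR S N R) {p p' : Fl S.n} (hp : ¬ IsH S p) (hp' : ¬ IsH S p')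
    (he : ps S N R p = ps S N R p') : SameOrb [S.hn.fa, S.hn.fb, S.hn.fc] p p' := by
  obtain ⟨hw, ht⟩ := theta_ps_eq h hp hp' he
  obtain ⟨p1, y, ho, hy, h1, h2, h3, h4⟩ := theta_canon hp
  obtain ⟨p1', y', ho', hy', h1', h2', h3', h4'⟩ := theta_canon hp'
  obtain ⟨k1, k2⟩ := theta_orb (R := R) ho
  obtain ⟨k1', k2'⟩ := theta_orb (R := R) ho'
  have hw2 : theta_w p1.1.1 = theta_w p1'.1.1 := by rw [← k1, ← k1', hw]
  have ht2 : theta_tt R p1 = theta_tt R p1' := by rw [← k2, ← k2', ht]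
  rw [hy, hy'] at hw2
  have hw3 : (upc y.1, (d3 y.1).1) = (upc y'.1, (d3 y'.1).1) := hw2
  rw [Prod.mk.injEq] at hw3
  obtain ⟨hw4, hw5⟩ := hw3
  obtain ⟨a1, a2⟩ := theta_ax2 _ _ _ _ _ _ y.1.2.2.1 y.1.2.2.2.1
      y.1.2.2.2.2 y'.1.2.2.1 y'.1.2.2.2.1 y'.1.2.2.2.2 hw5 h3 h3'
  have u1 : upc y.1 = y.1.1 := by
    unfold upc
    rw [pv, pv, if_neg (by rw [h1]; decide), if_neg (by rw [h2]; decide), add_zero, add_zero]
  have u2 : upc y'.1 = y'.1.1 := by
    unfold upc
    rw [pv, pv, if_neg (by rw [h1']; decide), if_neg (by rw [h2']; decide), add_zero, add_zero]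
  have e1 : y.1 = y'.1 := by
    refine theta_lf_ext ?_ ?_ ?_ ?_
    · rw [← u1, ← u2, hw4]
    · exact Prod.ext a1 (h1.trans h1'.symm)
    · exact Prod.ext a2 (h2.trans h2'.symm)
    · exact Prod.ext hw5 (h4.trans h4'.symm)
  have e2 : p1 = p1' := theta_uniq (R := R) hy hy' e1 ht2
  rw [← e2] at ho'
  exact ho.trans _ _ _ (ho'.symm _ _)

theorem theta_pv : ∀ d e d' e' : Dir, d.1 ≠ e.1 → d'.1 ≠ e'.1 →
    (d'.1 = d.1 ∧ e'.1 = e.1 ∨ d'.1 = e.1 ∧ e'.1 = d.1) → pv d + pv e = pv d' + pv e' →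
    (d' = d ∧ e' = e) ∨ (d' = e ∧ e' = d) := by
  decide

theorem theta_ax3 : ∀ a b e a' b' e' : Fin 3, a ≠ b → a ≠ e → b ≠ e → a' ≠ b' → a' ≠ e' →
    b' ≠ e' → e = e' → (a' = a ∧ b' = b ∨ a' = b ∧ b' = a) := by decide

theorem ps_vt {N R : ℤ} (h : NR S N R) {p p' : Fl S.n} (hp : ¬ IsH S p) (hp' : ¬ IsH S p')
    (he : ps S N R p = ps S N R p') (hv : vtV p.1.1 = vtV p'.1.1) :
    p' = p ∨ p' = S.hn.fb p ∨ p' = S.hn.fc p ∨ p' = S.hn.fb (S.hn.fc p) := by
  obtain ⟨hw, ht⟩ := theta_ps_eq h hp hp' he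
  obtain ⟨x, hx⟩ := theta_inl hp
  obtain ⟨y, hy⟩ := theta_inl hp'
  rw [hx, hy] at hw hv
  have hw3 : (upc x.1, (d3 x.1).1) = (upc y.1, (d3 y.1).1) := hw
  rw [Prod.mk.injEq] at hw3
  obtain ⟨hw4, hw5⟩ := hw3
  have hv' : x.1.1 = y.1.1 := hv
  have h1 : pv (d1 x.1) + pv (d2 x.1) = pv (d1 y.1) + pv (d2 y.1) := by
    unfold upc at hw4
    rw [hv', add_assoc, add_assoc] at hw4
    exact add_left_cancel hw4
  have h2 := theta_ax3 _ _ _ _ _ _ x.1.2.2.1 x.1.2.2.2.1
      x.1.2.2.2.2 y.1.2.2.1 y.1.2.2.2.1 y.1.2.2.2.2 hw5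
  have h3 := theta_pv _ _ _ _ x.1.2.2.1 y.1.2.2.1 h2 h1
  rcases h3 with ⟨h4, h5⟩ | ⟨h4, h5⟩ <;> rcases theta_dir _ _ hw5 with h6 | h6
  · left
    exact theta_uniq (R := R) hy hx (theta_lf_ext hv'.symm h4 h5 h6) ht.symm
  · right; right; left
    refine theta_uniq (R := R) hy (theta_fc_inl hx) (theta_lf_ext hv'.symm h4 h5 h6) ?_
    rw [theta_tt_c, ht]
  · right; left
    refine theta_uniq (R := R) hy (theta_fb_inl hx) (theta_lf_ext hv'.symm h4 h5 h6) ?_
    rw [theta_tt_b, ht]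
  · right; right; right
    refine theta_uniq (R := R) hy (theta_fb_inl (theta_fc_inl hx))
      (theta_lf_ext hv'.symm h4 h5 h6) ?_
    rw [theta_tt_b, theta_tt_c, ht]

end

end Pool.Agent.Lib.MP_131179_gt.Dehn
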