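import Pool.Agent.Lib.MP_131179_gt.Dehn.TopLevel

/-!
# The tower: lifting certificates
-/

set_option autoImplicit false

namespace Pool.Agent.Lib.MP_131179_gt.Dehn

namespace TMap

variable {Φ : Type} {V : TMap Φ}

/-- The double cover given by a closed function. -/
noncomputable abbrev Closed.cover {κ : Φ → F2} (hκ : V.Closed κ) : TMap (Φ × F2) :=
  V.cover κ hκ.a hκ.c hκ.d

theorem tower_F2_add_self (a : F2) : a + a = 0 := CharTwo.add_self_eq_zero a

/-! ### Lifting to the double cover -/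

theorem tower_cover_path {κ : Φ → F2} (hκ : V.Closed κ) {T : Φ → Prop} {hT : V.IsSub T}
    {T' : Φ × F2 → Prop} {hT' : hκ.cover.IsSub T'} (x : Φ) (i : F2) (n : ℕ) :
    (hκ.cover.fr hT').path (x, i) n = ((V.fr hT).path x n, i) := by
  unfold FR.path
  have h0 : (hκ.cover.fr hT').β (x, i) = ((V.fr hT).β x, i) := rfl
  rw [h0]
  generalize (V.fr hT).β x = y
  induction n generalizing y with
  | zero => rfl
  | succ n ih =>
      rw [Function.iterate_succ_apply, Function.iterate_succ_apply]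
      exact ih _

theorem tower_cover_ret {κ : Φ → F2} (hκ : V.Closed κ) {T : Φ → Prop} {hT : V.IsSub T}
    {T' : Φ × F2 → Prop} {hT' : hκ.cover.IsSub T'} (hTT : ∀ x, T' x ↔ T x.1) (x : Φ) (i : F2) :
    (hκ.cover.fr hT').ret (x, i) = ((V.fr hT).ret x, i) := by
  classical
  have key : ∀ n, (hκ.cover.fr hT').T ((hκ.cover.fr hT').path (x, i) n) ↔
      (V.fr hT).T ((V.fr hT).path x n) := by
    intro n
    rw [tower_cover_path (hT := hT)]
    exact hTT _
  by_cases hex : ∃ n, (V.fr hT).T ((V.fr hT).path x n)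
  · have hex' : ∃ n, (hκ.cover.fr hT').T ((hκ.cover.fr hT').path (x, i) n) := by
      obtain ⟨n, hn⟩ := hex
      exact ⟨n, (key n).2 hn⟩
    have e : Nat.find hex' = Nat.find hex := Nat.find_congr' (key _)
    unfold FR.ret
    rw [dif_pos hex, dif_pos hex']
    have e2 : ∀ m, m = Nat.find hex → (hκ.cover.fr hT').path (x, i) m =
        ((V.fr hT).path x (Nat.find hex), i) := by
      rintro m rfl
      exact tower_cover_path hκ x i _
    refine e2 _ ?_
    refine Eq.trans ?_ e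
    congr
  · have hex' : ¬ ∃ n, (hκ.cover.fr hT').T ((hκ.cover.fr hT').path (x, i) n) := by
      rintro ⟨n, hn⟩
      exact hex ⟨n, (key n).1 hn⟩
    unfold FR.ret
    rw [dif_neg hex, dif_neg hex']

theorem tower_cover_gen {κ : Φ → F2} (hκ : V.Closed κ) {T : Φ → Prop} {hT : V.IsSub T}
    {T' : Φ × F2 → Prop} {hT' : hκ.cover.IsSub T'} (hTT : ∀ x, T' x ↔ T x.1) (g : Gen) (x : Φ)
    (i : F2) : hκ.cover.gen hT' g (x, i) =
      (V.gen hT g x, i + (if g = .a then κ x else 0)) := by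
  cases g with
  | a => simp only [gen, if_true]; rfl
  | b =>
      have : (Gen.b = Gen.a) = False := by simp
      simp only [gen, this, if_false, add_zero]; rfl
  | c =>
      have : (Gen.c = Gen.a) = False := by simp
      simp only [gen, this, if_false, add_zero]; rfl
  | e =>
      have : (Gen.e = Gen.a) = False := by simp
      simp only [gen, this, if_false, add_zero]
      exact tower_cover_ret hκ hTT x i

theorem tower_cover_act {κ : Φ → F2} (hκ : V.Closed κ) {T : Φ → Prop} {hT : V.IsSub T}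
    {T' : Φ × F2 → Prop} {hT' : hκ.cover.IsSub T'} (hTT : ∀ x, T' x ↔ T x.1) (w : List Gen) (x : Φ)
    (i : F2) : hκ.cover.act hT' w (x, i) = (V.act hT w x, i + V.asum hT κ w x) := by
  induction w generalizing x i with
  | nil => simp only [act, asum, add_zero]
  | cons g w ih =>
      simp only [act, asum]
      rw [tower_cover_gen hκ hTT, ih, add_assoc]

theorem tower_asum_of_not_mem {κ : Φ → F2} {T : Φ → Prop} {hT : V.IsSub T} {w : List Gen}
    (hw : Gen.a ∉ w) (x : Φ) : V.asum hT κ w x = 0 := by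
  induction w generalizing x with
  | nil => rfl
  | cons g w ih =>
      have h1 : g ≠ Gen.a := fun h => hw (by simp [h])
      have h2 : Gen.a ∉ w := fun h => hw (List.mem_cons_of_mem _ h)
      simp only [asum, if_neg h1, zero_add]
      exact ih h2 _

theorem tower_cover_visit {κ : Φ → F2} (hκ : V.Closed κ) {T : Φ → Prop} {hT : V.IsSub T}
    {T' : Φ × F2 → Prop} {hT' : hκ.cover.IsSub T'} (hTT : ∀ x, T' x ↔ T x.1) (w : List Gen) (x : Φ)
    (i : F2) (y : Φ) : y ∈ V.visit hT w x ↔ ∃ j, (y, j) ∈ hκ.cover.visit hT' w (x, i) := by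
  classical
  induction w generalizing x i with
  | nil => simp [visit]
  | cons g w ih =>
      simp only [visit, Finset.mem_insert, Prod.mk.injEq]
      rw [tower_cover_gen (hT := hT) hκ hTT, ih (V.gen hT g x) (i + (if g = .a then κ x else 0))]
      constructor
      · rintro (h | ⟨j, hj⟩)
        · exact ⟨i, Or.inl ⟨h, rfl⟩⟩
        · exact ⟨j, Or.inr hj⟩
      · rintro ⟨j, ⟨h, _⟩ | hj⟩
        · exact Or.inl h
        · exact Or.inr ⟨j, hj⟩

theorem tower_cover_iterate {κ : Φ → F2} (hκ : V.Closed κ) {u : Φ → F2}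
    (ub : ∀ x, u (V.b x) = u x) (ua : ∀ x, u x + u (V.a x) = κ x) (x : Φ) (i : F2) (j : ℕ) :
    (fun y => hκ.cover.b (hκ.cover.a y))^[j] (x, i) =
      ((fun y => V.b (V.a y))^[j] x, i + (u x + u ((fun y => V.b (V.a y))^[j] x))) := by
  induction j with
  | zero =>
      simp only [Function.iterate_zero, id_eq]
      rw [tower_F2_add_self, add_zero]
  | succ j ih =>
      rw [Function.iterate_succ_apply', Function.iterate_succ_apply', ih]
      have h1 : ∀ z : Φ × F2, hκ.cover.b (hκ.cover.a z) = (V.b (V.a z.1), z.2 + κ z.1) :=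
        fun z => rfl
      rw [h1]
      refine Prod.ext rfl ?_
      show i + (u x + u ((fun y => V.b (V.a y))^[j] x)) + κ ((fun y => V.b (V.a y))^[j] x) =
        i + (u x + u (V.b (V.a ((fun y => V.b (V.a y))^[j] x))))
      rw [ub, ← ua]
      have h2 := tower_F2_add_self (u ((fun y => V.b (V.a y))^[j] x))
      linear_combination h2

theorem tower_cover_faceSize {κ : Φ → F2} (hκ : V.Closed κ) {x : Φ} {k : ℕ}
    (h : V.FaceSize x k) (i : F2) : hκ.cover.FaceSize (x, i) k := by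
  obtain ⟨u, ub, uc, ua⟩ := hκ.ex
  obtain ⟨h0, h1, h2⟩ := h
  refine ⟨h0, ?_, ?_⟩
  · rw [tower_cover_iterate hκ ub ua, h1, tower_F2_add_self, add_zero]
  · intro j hj hjk he
    rw [tower_cover_iterate hκ ub ua] at he
    exact h2 j hj hjk (congrArg Prod.fst he)

/-- Null-homotopies lift to double covers. -/
theorem Null.lift {κ : Φ → F2} (hκ : V.Closed κ) {T : Φ → Prop} {hT : V.IsSub T}
    {T' : Φ × F2 → Prop} {hT' : hκ.cover.IsSub T'} (hTT : ∀ x, T' x ↔ T x.1) {x : Φ}
    {w : List Gen} {S : Finset Φ} {N : ℕ} (h : V.Null hT x w S N) (i : F2) :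
    ∃ S' : Finset (Φ × F2), hκ.cover.Null hT' (x, i) w S' N ∧ ∀ y, y ∈ S ↔ ∃ j, (y, j) ∈ S' := by
  classical
  induction h generalizing i with
  | nil x hx =>
      refine ⟨{(x, i)}, Null.nil _ ((hTT _).2 hx), ?_⟩
      intro y
      simp
  | vert x hx w hw hc =>
      refine ⟨_, Null.vert (x, i) ((hTT _).2 hx) w hw ?_, ?_⟩
      · rw [tower_cover_act (hT := hT) hκ hTT, hc, tower_asum_of_not_mem hw, add_zero]
      · intro y
        exact tower_cover_visit hκ hTT w x i y
  | back x hx =>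
      refine ⟨_, Null.back (x, i) ((hTT _).2 hx), ?_⟩
      intro y
      have h1 : hκ.cover.a (x, i) = (V.a x, i + κ x) := rfl
      rw [h1]
      simp only [Finset.mem_insert, Finset.mem_singleton, Prod.mk.injEq]
      constructor
      · rintro (h | h)
        · exact ⟨i, Or.inl ⟨h, rfl⟩⟩
        · exact ⟨i + κ x, Or.inr ⟨h, rfl⟩⟩
      · rintro ⟨j, ⟨h, _⟩ | ⟨h, _⟩⟩
        · exact Or.inl h
        · exact Or.inr h
  | comm x hx g hg =>
      refine ⟨_, Null.comm (x, i) ((hTT _).2 hx) g hg, ?_⟩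
      intro y
      exact tower_cover_visit hκ hTT _ x i y
  | face x hx k hk =>
      refine ⟨_, Null.face (x, i) ((hTT _).2 hx) k (tower_cover_faceSize hκ hk i), ?_⟩
      intro y
      exact tower_cover_visit hκ hTT _ x i y
  | @ins x u v r S S' N N' h h' ih ih' =>
      obtain ⟨S1, hS1, hS1'⟩ := ih i
      obtain ⟨S2, hS2, hS2'⟩ := ih' (i + V.asum hT κ u x)
      rw [← tower_cover_act (hT := hT) (hT' := hT') hκ hTT] at hS2
      refine ⟨_, Null.ins hS1 hS2, ?_⟩
      intro y
      simp only [Finset.mem_union]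
      rw [hS1', hS2', ← exists_or]
  | @del x u v r S S' N N' h h' ih ih' =>
      obtain ⟨S1, hS1, hS1'⟩ := ih i
      obtain ⟨S2, hS2, hS2'⟩ := ih' (i + V.asum hT κ u x)
      rw [← tower_cover_act (hT := hT) (hT' := hT') hκ hTT] at hS2
      refine ⟨_, Null.del hS1 hS2, ?_⟩
      intro y
      simp only [Finset.mem_union]
      rw [hS1', hS2', ← exists_or]

/-! ### Restricting to subcomplexes -/

theorem tower_path_add {Ω : Type} (F : FR Ω) (x : Ω) (m k : ℕ) :
    F.path x (k + (m + 1)) = F.path (F.s (F.path x m)) k := by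
  unfold FR.path
  rw [Function.iterate_add_apply, Function.iterate_succ_apply']

theorem tower_ret_eq {Ω : Type} {F : FR Ω} {x : Ω} {n : ℕ} (h : F.T (F.path x n))
    (hmin : ∀ j < n, ¬ F.T (F.path x j)) : F.ret x = F.path x n := by
  classical
  unfold FR.ret
  rw [dif_pos ⟨n, h⟩]
  congr 1
  exact (Nat.find_eq_iff _).2 ⟨h, hmin⟩

theorem tower_ret_spec {Ω : Type} {F : FR Ω} {x : Ω} (hex : ∃ n, F.T (F.path x n)) :
    ∃ n, F.ret x = F.path x n ∧ F.T (F.path x n) ∧ ∀ j < n, ¬ F.T (F.path x j) := by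
  classical
  have h1 := Nat.find_spec hex
  have h2 : ∀ j < Nat.find hex, ¬ F.T (F.path x j) := fun j hj => Nat.find_min hex hj
  exact ⟨Nat.find hex, tower_ret_eq h1 h2, h1, h2⟩

theorem tower_sub_path {T p : Φ → Prop} (hT : V.IsSub T) (hp : V.IsSub p)
    {T' : {x // p x} → Prop} (hT' : (V.sub hp).IsSub T') (N : ℕ) :
    ∀ (x : Φ) (hx : p x), p ((V.fr hT).path x N) →
      ∃ n, (((V.sub hp).fr hT').path ⟨x, hx⟩ n).1 = (V.fr hT).path x N ∧
      ∀ j < n, ∃ m < N, (((V.sub hp).fr hT').path ⟨x, hx⟩ j).1 = (V.fr hT).path x m := by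
  induction N using Nat.strong_induction_on with
  | _ N ih =>
      intro x hx h
      obtain ⟨m0, e0, hm0, hmin⟩ := tower_ret_spec (F := V.fr hp) (x := x) ⟨N, h⟩
      have e1 : (((V.sub hp).fr hT').path ⟨x, hx⟩ 0).1 = (V.fr hT).path x m0 := e0
      rcases lt_trichotomy m0 N with hlt | heq | hgt
      · have hp1 : p (V.c ((V.fr hT).path x m0)) := (hp.c _).2 hm0
        obtain ⟨k, rfl⟩ : ∃ k, N = k + (m0 + 1) := ⟨N - (m0 + 1), by omega⟩
        have hk : (V.fr hT).path x (k + (m0 + 1)) = (V.fr hT).path (V.c ((V.fr hT).path x m0)) k :=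
          tower_path_add (V.fr hT) x m0 k
        rw [hk] at h
        obtain ⟨n, hn, hj⟩ := ih k (by omega) _ hp1 h
        have e2 : ∀ j, ((V.sub hp).fr hT').path ⟨x, hx⟩ (j + (0 + 1)) =
            ((V.sub hp).fr hT').path ⟨V.c ((V.fr hT).path x m0), hp1⟩ j := by
          intro j
          rw [tower_path_add]
          congr 1
          apply Subtype.ext
          show V.c (((V.sub hp).fr hT').path ⟨x, hx⟩ 0).1 = _
          rw [e1]
        refine ⟨n + 1, ?_, ?_⟩
        · rw [hk, ← hn, ← e2]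
        · intro j hjn
          rcases j with _ | j
          · exact ⟨m0, by omega, e1⟩
          · obtain ⟨m, hm, hm'⟩ := hj j (by omega)
            refine ⟨m + (m0 + 1), by omega, ?_⟩
            have e3 := e2 j
            rw [zero_add] at e3
            rw [e3, hm']
            exact (tower_path_add (V.fr hT) x m0 m).symm
      · refine ⟨0, ?_, ?_⟩
        · rw [e1, heq]
        · intro j hj
          exact absurd hj (Nat.not_lt_zero _)
      · exact absurd h (hmin N hgt)

theorem tower_sub_ret {T p : Φ → Prop} (hT : V.IsSub T) (hp : V.IsSub p)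
    {T' : {x // p x} → Prop} (hT' : (V.sub hp).IsSub T') (hTT : ∀ x, T' x ↔ T x.1) {x : Φ}
    (hx : p x) (hTx : T x) (h : p ((V.fr hT).ret x)) :
    (((V.sub hp).fr hT').ret ⟨x, hx⟩).1 = (V.fr hT).ret x := by
  obtain ⟨N, e0, hN, hmin⟩ := tower_ret_spec ((V.fr hT).exists_ret (x := x) hTx)
  rw [e0] at h ⊢
  obtain ⟨n, hn, hj⟩ := tower_sub_path hT hp hT' N x hx h
  have h1 : ((V.sub hp).fr hT').T (((V.sub hp).fr hT').path ⟨x, hx⟩ n) := by
    refine (hTT _).2 ?_
    rw [hn]
    exact hN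
  rw [tower_ret_eq h1, hn]
  intro j hjn hTj
  obtain ⟨m, hm, hm'⟩ := hj j hjn
  have h2 : T (((V.sub hp).fr hT').path ⟨x, hx⟩ j).1 := (hTT _).1 hTj
  rw [hm'] at h2
  exact hmin m hm h2

theorem tower_sub_gen {T p : Φ → Prop} (hT : V.IsSub T) (hp : V.IsSub p)
    {T' : {x // p x} → Prop} (hT' : (V.sub hp).IsSub T') (hTT : ∀ x, T' x ↔ T x.1) (g : Gen)
    {x : Φ} (hx : p x) (hTx : T x) (h : p (V.gen hT g x)) :
    (V.sub hp).gen hT' g ⟨x, hx⟩ = ⟨V.gen hT g x, h⟩ := by
  apply Subtype.ext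
  cases g with
  | a => rfl
  | b => rfl
  | c => rfl
  | e => exact tower_sub_ret hT hp hT' hTT hx hTx h

theorem tower_self_mem_visit {T : Φ → Prop} (hT : V.IsSub T) (w : List Gen) (x : Φ) :
    x ∈ V.visit hT w x := by
  cases w with
  | nil => simp [visit]
  | cons g w => simp [visit]

theorem tower_act_mem_visit {T : Φ → Prop} (hT : V.IsSub T) (w : List Gen) (x : Φ) :
    V.act hT w x ∈ V.visit hT w x := by
  induction w generalizing x with
  | nil => simp [visit, act]
  | cons g w ih => simp only [visit, act, Finset.mem_insert]; exact Or.inr (ih _)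

theorem tower_visit_append_left {T : Φ → Prop} (hT : V.IsSub T) (u v : List Gen) (x : Φ) {y : Φ}
    (hy : y ∈ V.visit hT u x) : y ∈ V.visit hT (u ++ v) x := by
  induction u generalizing x with
  | nil =>
      simp only [visit, Finset.mem_singleton] at hy
      subst hy
      exact tower_self_mem_visit hT _ _
  | cons g u ih =>
      simp only [List.cons_append, visit, Finset.mem_insert] at hy ⊢
      rcases hy with hy | hy
      · exact Or.inl hy
      · exact Or.inr (ih _ hy)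

theorem tower_visit_append_right {T : Φ → Prop} (hT : V.IsSub T) (u v : List Gen) (x : Φ) {y : Φ}
    (hy : y ∈ V.visit hT v (V.act hT u x)) : y ∈ V.visit hT (u ++ v) x := by
  induction u generalizing x with
  | nil => exact hy
  | cons g u ih =>
      simp only [List.cons_append, visit, Finset.mem_insert]
      exact Or.inr (ih _ hy)

theorem tower_gen_T {T : Φ → Prop} (hT : V.IsSub T) (g : Gen) {x : Φ} (hx : T x) :
    T (V.gen hT g x) := act_T (w := [g]) hx

theorem tower_sub_act {T p : Φ → Prop} (hT : V.IsSub T) (hp : V.IsSub p)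
    {T' : {x // p x} → Prop} (hT' : (V.sub hp).IsSub T') (hTT : ∀ x, T' x ↔ T x.1) (w : List Gen)
    {x : Φ} (hx : p x) (hTx : T x) (h : ∀ y ∈ V.visit hT w x, p y)
    (h' : p (V.act hT w x)) :
    (V.sub hp).act hT' w ⟨x, hx⟩ = ⟨V.act hT w x, h'⟩ := by
  classical
  induction w generalizing x with
  | nil => rfl
  | cons g w ih =>
      have h1 : p (V.gen hT g x) :=
        h _ (Finset.mem_insert_of_mem (tower_self_mem_visit hT w _))
      have h2 : ∀ y ∈ V.visit hT w (V.gen hT g x), p y :=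
        fun y hy => h y (Finset.mem_insert_of_mem hy)
      simp only [act]
      rw [tower_sub_gen hT hp hT' hTT g hx hTx h1]
      exact ih h1 (tower_gen_T hT g hTx) h2 h'

theorem tower_sub_visit {T p : Φ → Prop} (hT : V.IsSub T) (hp : V.IsSub p)
    {T' : {x // p x} → Prop} (hT' : (V.sub hp).IsSub T') (hTT : ∀ x, T' x ↔ T x.1) (w : List Gen)
    {x : Φ} (hx : p x) (hTx : T x) (h : ∀ y ∈ V.visit hT w x, p y) (y : {x // p x}) :
    y ∈ (V.sub hp).visit hT' w ⟨x, hx⟩ ↔ y.1 ∈ V.visit hT w x := by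
  classical
  induction w generalizing x with
  | nil =>
      simp only [visit, Finset.mem_singleton]
      exact Subtype.ext_iff
  | cons g w ih =>
      have h1 : p (V.gen hT g x) :=
        h _ (Finset.mem_insert_of_mem (tower_self_mem_visit hT w _))
      have h2 : ∀ y ∈ V.visit hT w (V.gen hT g x), p y :=
        fun y hy => h y (Finset.mem_insert_of_mem hy)
      simp only [visit, Finset.mem_insert]
      rw [tower_sub_gen hT hp hT' hTT g hx hTx h1, ih h1 (tower_gen_T hT g hTx) h2]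
      exact or_congr Subtype.ext_iff Iff.rfl

theorem tower_sub_iterate {p : Φ → Prop} (hp : V.IsSub p) (x : {x // p x}) (j : ℕ) :
    ((fun y => (V.sub hp).b ((V.sub hp).a y))^[j] x).1 = (fun y => V.b (V.a y))^[j] x.1 := by
  induction j generalizing x with
  | zero => rfl
  | succ j ih =>
      rw [Function.iterate_succ_apply, Function.iterate_succ_apply, ih]
      rfl

theorem tower_sub_faceSize {p : Φ → Prop} (hp : V.IsSub p) (x : {x // p x}) {k : ℕ}
    (h : V.FaceSize x.1 k) : (V.sub hp).FaceSize x k := by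
  obtain ⟨h0, h1, h2⟩ := h
  refine ⟨h0, Subtype.ext ?_, ?_⟩
  · rw [tower_sub_iterate, h1]
  · intro j hj hjk he
    have := congrArg Subtype.val he
    rw [tower_sub_iterate] at this
    exact h2 j hj hjk this

theorem tower_null_T {T : Φ → Prop} {hT : V.IsSub T} {x : Φ} {w : List Gen} {S : Finset Φ} {N : ℕ}
    (h : V.Null hT x w S N) : T x := h.T_of_mem (h.visit_subset (tower_self_mem_visit hT w x))

/-- Null-homotopies restrict to subcomplexes containing them. -/
theorem Null.restrict {T : Φ → Prop} {hT : V.IsSub T} {p : Φ → Prop} (hp : V.IsSub p)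
    {T' : {x // p x} → Prop} {hT' : (V.sub hp).IsSub T'} (hTT : ∀ x, T' x ↔ T x.1)
    {x : Φ} {w : List Gen} {S : Finset Φ} {N : ℕ} (h : V.Null hT x w S N)
    (hS : ∀ y ∈ S, p y) (hx : p x) :
    ∃ S' : Finset {x // p x}, (V.sub hp).Null hT' ⟨x, hx⟩ w S' N ∧ ∀ y : {x // p x}, y ∈ S' ↔ y.1 ∈ S := by
  classical
  induction h with
  | nil x hTx =>
      refine ⟨{⟨x, hx⟩}, Null.nil _ ((hTT _).2 hTx), ?_⟩
      intro y
      simp only [Finset.mem_singleton]
      exact Subtype.ext_iff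
  | vert x hTx w hw hc =>
      refine ⟨_, Null.vert ⟨x, hx⟩ ((hTT _).2 hTx) w hw ?_, ?_⟩
      · rw [tower_sub_act hT hp hT' hTT w hx hTx hS (by rw [hc]; exact hx)]
        exact Subtype.ext hc
      · intro y
        exact tower_sub_visit hT hp hT' hTT w hx hTx hS y
  | back x hTx =>
      refine ⟨_, Null.back ⟨x, hx⟩ ((hTT _).2 hTx), ?_⟩
      intro y
      simp only [Finset.mem_insert, Finset.mem_singleton]
      exact or_congr Subtype.ext_iff Subtype.ext_iff
  | comm x hTx g hg =>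
      refine ⟨_, Null.comm ⟨x, hx⟩ ((hTT _).2 hTx) g hg, ?_⟩
      intro y
      exact tower_sub_visit hT hp hT' hTT _ hx hTx hS y
  | face x hTx k hk =>
      refine ⟨_, Null.face ⟨x, hx⟩ ((hTT _).2 hTx) k (tower_sub_faceSize hp ⟨x, hx⟩ hk), ?_⟩
      intro y
      exact tower_sub_visit hT hp hT' hTT _ hx hTx hS y
  | @ins x u v r S S' N N' h h' ih ih' =>
      obtain ⟨S1, hS1, hS1'⟩ := ih (fun y hy => hS y (Finset.mem_union_left _ hy)) hx
      have hpS' : ∀ y ∈ S', p y := fun y hy => hS y (Finset.mem_union_right _ hy)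
      have hu : p (V.act hT u x) := hpS' _ (h'.visit_subset (tower_self_mem_visit hT _ _))
      obtain ⟨S2, hS2, hS2'⟩ := ih' hpS' hu
      have hvis : ∀ y ∈ V.visit hT u x, p y := fun y hy =>
        hS y (Finset.mem_union_left _ (h.visit_subset (tower_visit_append_left hT u v x hy)))
      rw [← tower_sub_act hT hp hT' hTT u hx (tower_null_T h) hvis hu] at hS2
      refine ⟨_, Null.ins hS1 hS2, ?_⟩
      intro y
      simp only [Finset.mem_union]
      rw [hS1', hS2']
  | @del x u v r S S' N N' h h' ih ih' =>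
      obtain ⟨S1, hS1, hS1'⟩ := ih (fun y hy => hS y (Finset.mem_union_left _ hy)) hx
      have hpS' : ∀ y ∈ S', p y := fun y hy => hS y (Finset.mem_union_right _ hy)
      have hu : p (V.act hT u x) := hpS' _ (h'.visit_subset (tower_self_mem_visit hT _ _))
      obtain ⟨S2, hS2, hS2'⟩ := ih' hpS' hu
      have hvis : ∀ y ∈ V.visit hT u x, p y := fun y hy =>
        hS y (Finset.mem_union_left _ (h.visit_subset (tower_visit_append_left hT u (r ++ v) x hy)))
      rw [← tower_sub_act hT hp hT' hTT u hx (tower_null_T h) hvis hu] at hS2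
      refine ⟨_, Null.del hS1 hS2, ?_⟩
      intro y
      simp only [Finset.mem_union]
      rw [hS1', hS2']

/-! ### The step of the tower -/

theorem tower_eqv_of {Ω : Type} {s : List (Ω → Ω)} {R : Ω → Ω → Prop} (hr : ∀ x, R x x)
    (hs : ∀ x y, R x y → R y x) (ht : ∀ x y z, R x y → R y z → R x z)
    (hf : ∀ f ∈ s, ∀ x, R x (f x)) {x y : Ω} (h : SameOrb s x y) : R x y := by
  induction h with
  | rel x y h => obtain ⟨f, hf', rfl⟩ := h; exact hf f hf' x
  | refl x => exact hr x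
  | symm x y _ ih => exact hs _ _ ih
  | trans x y z _ _ ih1 ih2 => exact ht _ _ _ ih1 ih2

theorem tower_eq_of {Ω R : Type} {s : List (Ω → Ω)} {g : Ω → R} (hf : ∀ f ∈ s, ∀ x, g (f x) = g x)
    {x y : Ω} (h : SameOrb s x y) : g x = g y :=
  tower_eqv_of (R := fun x y => g x = g y) (fun _ => rfl) (fun _ _ h => h.symm)
    (fun _ _ _ h h' => h.trans h') (fun f hf' x => (hf f hf' x).symm) h

theorem tower_onFace_refl (x : Φ) : V.OnFace x x := Relation.EqvGen.refl _

theorem tower_onFace_symm {x y : Φ} (h : V.OnFace x y) : V.OnFace y x :=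
  Relation.EqvGen.symm _ _ h

theorem tower_onFace_trans {x y z : Φ} (h : V.OnFace x y) (h' : V.OnFace y z) : V.OnFace x z :=
  Relation.EqvGen.trans _ _ _ h h'

theorem tower_onFace_a (x : Φ) : V.OnFace x (V.a x) := Relation.EqvGen.rel _ _ ⟨V.a, by simp, rfl⟩

theorem tower_onFace_b (x : Φ) : V.OnFace x (V.b x) := Relation.EqvGen.rel _ _ ⟨V.b, by simp, rfl⟩

theorem tower_onFace_c (x : Φ) : V.OnFace x (V.c x) := Relation.EqvGen.rel _ _ ⟨V.c, by simp, rfl⟩

theorem tower_isSub_onFace {ι : Prop} {A : Type} (q : A → Prop) (z : A → Φ) (hι : ι) :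
    V.IsSub (fun x => ι ∧ ∃ a, q a ∧ V.OnFace (z a) x) where
  a := fun x => by
    constructor
    · rintro ⟨_, a, h1, h2⟩
      exact ⟨hι, a, h1, tower_onFace_trans h2 (tower_onFace_symm (tower_onFace_a x))⟩
    · rintro ⟨_, a, h1, h2⟩
      exact ⟨hι, a, h1, tower_onFace_trans h2 (tower_onFace_a x)⟩
  b := fun x => by
    constructor
    · rintro ⟨_, a, h1, h2⟩
      exact ⟨hι, a, h1, tower_onFace_trans h2 (tower_onFace_symm (tower_onFace_b x))⟩
    · rintro ⟨_, a, h1, h2⟩
      exact ⟨hι, a, h1, tower_onFace_trans h2 (tower_onFace_b x)⟩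
  c := fun x => by
    constructor
    · rintro ⟨_, a, h1, h2⟩
      exact ⟨hι, a, h1, tower_onFace_trans h2 (tower_onFace_symm (tower_onFace_c x))⟩
    · rintro ⟨_, a, h1, h2⟩
      exact ⟨hι, a, h1, tower_onFace_trans h2 (tower_onFace_c x)⟩

theorem tower_cover_onFace {κ : Φ → F2} (hκ : V.Closed κ) {x y : Φ × F2}
    (h : hκ.cover.OnFace x y) : V.OnFace x.1 y.1 := by
  refine tower_eqv_of (R := fun x y : Φ × F2 => V.OnFace x.1 y.1) (fun _ => tower_onFace_refl _)
    (fun _ _ h => tower_onFace_symm h) (fun _ _ _ h h' => tower_onFace_trans h h') ?_ h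
  intro f hf x
  simp only [List.mem_cons, List.not_mem_nil, or_false] at hf
  rcases hf with rfl | rfl | rfl
  · exact tower_onFace_a x.1
  · exact tower_onFace_b x.1
  · exact tower_onFace_c x.1

theorem tower_cover_lift_onFace {κ : Φ → F2} (hκ : V.Closed κ) {x y : Φ}
    (h : V.OnFace x y) (i : F2) : ∃ j, hκ.cover.OnFace (x, i) (y, j) := by
  obtain ⟨u, ub, uc, ua⟩ := hκ.ex
  have key : ∀ i, hκ.cover.OnFace (x, i) (y, i + (u x + u y)) := by
    refine tower_eqv_of (R := fun x y : Φ => ∀ i, hκ.cover.OnFace (x, i) (y, i + (u x + u y)))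
      ?_ ?_ ?_ ?_ h
    · intro x i
      rw [tower_F2_add_self, add_zero]
      exact tower_onFace_refl _
    · intro x y h i
      have h1 := tower_onFace_symm (h (i + (u x + u y)))
      rw [add_assoc, tower_F2_add_self, add_zero, add_comm (u x)] at h1
      exact h1
    · intro x y z h h' i
      have h1 := tower_onFace_trans (h i) (h' (i + (u x + u y)))
      have e : i + (u x + u y) + (u y + u z) = i + (u x + u z) := by
        have := tower_F2_add_self (u y)
        linear_combination this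
      rw [e] at h1
      exact h1
    · intro f hf x i
      simp only [List.mem_cons, List.not_mem_nil, or_false] at hf
      rcases hf with rfl | rfl | rfl
      · rw [ua]
        exact tower_onFace_a (V := hκ.cover) (x, i)
      · rw [ub, tower_F2_add_self, add_zero]
        exact tower_onFace_b (V := hκ.cover) (x, i)
      · rw [uc, tower_F2_add_self, add_zero]
        exact tower_onFace_c (V := hκ.cover) (x, i)
  exact ⟨_, key i⟩

theorem tower_cover_not_onFace {κ : Φ → F2} (hκ : V.Closed κ) (x : Φ) :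
    ¬ hκ.cover.OnFace (x, 0) (x, 1) := by
  obtain ⟨u, ub, uc, ua⟩ := hκ.ex
  intro h
  have h1 := tower_eq_of (g := fun z : Φ × F2 => z.2 + u z.1) (s := [hκ.cover.a, hκ.cover.b,
    hκ.cover.c]) (by
      intro f hf z
      simp only [List.mem_cons, List.not_mem_nil, or_false] at hf
      rcases hf with rfl | rfl | rfl
      · show z.2 + κ z.1 + u (V.a z.1) = z.2 + u z.1
        rw [← ua]
        have := tower_F2_add_self (u (V.a z.1))
        linear_combination this
      · show z.2 + u (V.b z.1) = z.2 + u z.1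
        rw [ub]
      · show z.2 + u (V.c z.1) = z.2 + u z.1
        rw [uc]) h
  have h2 : (0 : F2) + u x = 1 + u x := h1
  have h3 : (0 : F2) = 1 := add_right_cancel h2
  exact absurd h3 (by decide)

theorem tower_sub_onFace {p : Φ → Prop} (hp : V.IsSub p) {x y : {x // p x}} :
    (V.sub hp).OnFace x y ↔ V.OnFace x.1 y.1 := by
  constructor
  · intro h
    refine tower_eqv_of (R := fun x y : {x // p x} => V.OnFace x.1 y.1)
      (fun _ => tower_onFace_refl _) (fun _ _ h => tower_onFace_symm h)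
      (fun _ _ _ h h' => tower_onFace_trans h h') ?_ h
    intro f hf x
    simp only [List.mem_cons, List.not_mem_nil, or_false] at hf
    rcases hf with rfl | rfl | rfl
    · exact tower_onFace_a x.1
    · exact tower_onFace_b x.1
    · exact tower_onFace_c x.1
  · intro h
    have key : (p x.1 ↔ p y.1) ∧ ∀ (hx : p x.1) (hy : p y.1),
        (V.sub hp).OnFace ⟨x.1, hx⟩ ⟨y.1, hy⟩ := by
      refine tower_eqv_of (R := fun x y : Φ => (p x ↔ p y) ∧ ∀ (hx : p x) (hy : p y),
        (V.sub hp).OnFace ⟨x, hx⟩ ⟨y, hy⟩) ?_ ?_ ?_ ?_ h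
      · intro x
        exact ⟨Iff.rfl, fun _ _ => tower_onFace_refl _⟩
      · intro x y h
        exact ⟨h.1.symm, fun hx hy => tower_onFace_symm (h.2 hy hx)⟩
      · intro x y z h h'
        exact ⟨h.1.trans h'.1, fun hx hz => tower_onFace_trans (h.2 hx (h.1.1 hx))
          (h'.2 (h.1.1 hx) hz)⟩
      · intro f hf x
        simp only [List.mem_cons, List.not_mem_nil, or_false] at hf
        rcases hf with rfl | rfl | rfl
        · exact ⟨(hp.a x).symm, fun hx _ => tower_onFace_a (V := V.sub hp) ⟨x, hx⟩⟩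
        · exact ⟨(hp.b x).symm, fun hx _ => tower_onFace_b (V := V.sub hp) ⟨x, hx⟩⟩
        · exact ⟨(hp.c x).symm, fun hx _ => tower_onFace_c (V := V.sub hp) ⟨x, hx⟩⟩
    exact key.2 x.2 y.2

theorem tower_CD_eq {R : Type} {f : Φ → R} (fc : ∀ x, f (V.c x) = f x)
    (fd : ∀ x, f (V.d x) = f x) {x y : Φ} (h : V.CD x y) : f x = f y := by
  refine tower_eq_of (s := [V.c, V.d]) ?_ h
  intro g hg x
  simp only [List.mem_cons, List.not_mem_nil, or_false] at hg
  rcases hg with rfl | rfl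
  · exact fc x
  · exact fd x

theorem tower_shadow_end {T : Φ → Prop} {hT : V.IsSub T} {χ y : Φ} {w : List Gen} {χ' y' : Φ}
    {m : ℕ} (h : V.Shadow hT χ y w χ' y' m) : χ' = (fun y => V.b (V.a y))^[m] χ := by
  induction h with
  | nil χ y h => rfl
  | step χ y h u w χ' y' m hu h' ih =>
      rw [Function.iterate_succ_apply]
      exact ih

theorem tower_shadow_lift {κ : Φ → F2} (hκ : V.Closed κ) {T : Φ → Prop} {hT : V.IsSub T}
    {T' : Φ × F2 → Prop} {hT' : hκ.cover.IsSub T'} (hTT : ∀ x, T' x ↔ T x.1) {χ y : Φ}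
    {w : List Gen} {χ' y' : Φ} {m : ℕ} (h : V.Shadow hT χ y w χ' y' m) (i : F2) :
    ∃ i', hκ.cover.Shadow hT' (χ, i) (y, i) w (χ', i') (y', i') m := by
  induction h generalizing i with
  | nil χ y h => exact ⟨i, Shadow.nil _ _ ((V.cover_CD κ hκ.a hκ.c hκ.d).2 ⟨h, rfl⟩)⟩
  | step χ y h u w χ' y' m hu h' ih =>
      obtain ⟨i', hi'⟩ := ih (i + κ χ)
      refine ⟨i', Shadow.step (χ, i) (y, i) ((V.cover_CD κ hκ.a hκ.c hκ.d).2 ⟨h, rfl⟩) u w (χ', i')
        (y', i') m hu ?_⟩
      have e1 : hκ.cover.b (hκ.cover.a (χ, i)) = (V.b (V.a χ), i + κ χ) := rfl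
      have e2 : hκ.cover.act hT' u (hκ.cover.a (y, i)) = (V.act hT u (V.a y), i + κ χ) := by
        have e3 : hκ.cover.a (y, i) = (V.a y, i + κ y) := rfl
        rw [e3, tower_cover_act (hT := hT) hκ hTT, tower_asum_of_not_mem hu, add_zero,
          tower_CD_eq hκ.c hκ.d h]
      rw [e1, e2]
      exact hi'

theorem tower_shadow_restrict {T p : Φ → Prop} (hT : V.IsSub T) (hp : V.IsSub p)
    {T' : {x // p x} → Prop} (hT' : (V.sub hp).IsSub T') (hTT : ∀ x, T' x ↔ T x.1) {χ y : Φ}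
    {w : List Gen} {χ' y' : Φ} {m : ℕ} (h : V.Shadow hT χ y w χ' y' m) (hχ : p χ) (hy : p y)
    (hTy : T y) (hv : ∀ z ∈ V.visit hT w y, p z) :
    ∃ (hχ' : p χ') (hy' : p y'), (V.sub hp).Shadow hT' ⟨χ, hχ⟩ ⟨y, hy⟩ w ⟨χ', hχ'⟩ ⟨y', hy'⟩ m := by
  classical
  induction h with
  | nil χ y h => exact ⟨hχ, hy, Shadow.nil _ _ ((V.sub_CD hp).2 h)⟩
  | step χ y h u w χ' y' m hu h' ih =>
      have hv1 : ∀ z ∈ V.visit hT (u ++ w) (V.a y), p z := fun z hz =>
        hv z (Finset.mem_insert_of_mem hz)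
      have hv2 : ∀ z ∈ V.visit hT w (V.act hT u (V.a y)), p z := fun z hz =>
        hv1 z (tower_visit_append_right hT u w _ hz)
      have hv3 : ∀ z ∈ V.visit hT u (V.a y), p z := fun z hz =>
        hv1 z (tower_visit_append_left hT u w _ hz)
      have hTa : T (V.a y) := (hT.a y).2 hTy
      have hpa : p (V.a y) := (hp.a y).2 hy
      have hact : p (V.act hT u (V.a y)) := hv3 _ (tower_act_mem_visit hT u _)
      obtain ⟨hχ', hy', hsh⟩ := ih ((hp.b _).2 ((hp.a _).2 hχ)) hact (act_T hTa) hv2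
      refine ⟨hχ', hy', Shadow.step _ _ ((V.sub_CD hp).2 h) u w _ _ m hu ?_⟩
      have e : (V.sub hp).act hT' u ((V.sub hp).a ⟨y, hy⟩) = ⟨V.act hT u (V.a y), hact⟩ :=
        tower_sub_act hT hp hT' hTT u hpa hTa hv3 hact
      rw [e]
      exact hsh

theorem tower_orb_pull {Ψ : Type} [Finite Φ] [Finite Ψ] {π : Ψ → Φ} (hπ : Function.Surjective π)
    {s : List (Φ → Φ)} {s' : List (Ψ → Ψ)} (hss : ∀ g ∈ Inv s, g ∘ π ∈ Inv s') :
    orb s ≤ orb s' ∧ (orb s' ≤ orb s → ∀ f ∈ Inv s', ∃ g ∈ Inv s, f = g ∘ π) := by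
  let L : Inv s →ₗ[F2] Inv s' :=
    { toFun := fun g => ⟨g.1 ∘ π, hss g.1 g.2⟩
      map_add' := fun g h => rfl
      map_smul' := fun a g => rfl }
  have hL : Function.Injective L := by
    intro g g' h
    apply Subtype.ext
    funext x
    obtain ⟨z, rfl⟩ := hπ x
    exact congrFun (congrArg Subtype.val h) z
  have h1 : orb s ≤ orb s' := LinearMap.finrank_le_finrank_of_injective hL
  refine ⟨h1, ?_⟩
  intro h2 f hf
  have h3 : Module.finrank F2 (Inv s) = Module.finrank F2 (Inv s') := le_antisymm h1 h2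
  have hS := (LinearMap.injective_iff_surjective_of_finrank_eq_finrank h3).1 hL
  obtain ⟨g, hg⟩ := hS ⟨f, hf⟩
  exact ⟨g.1, g.2, (congrArg Subtype.val hg).symm⟩

theorem tower_count [Finite Φ] {κ : Φ → F2}
    (hκ : V.Closed κ) (hn : ¬ ∃ p : Φ → F2, (∀ x, p (V.b x) = p x) ∧ (∀ x, p (V.c x) = p x) ∧
      (∀ x, p (V.d x) = p x) ∧ ∀ x, p x + p (V.a x) = κ x) {p : Φ × F2 → Prop}
    (hp : hκ.cover.IsSub p) (hsurj : ∀ x, ∃ i, p (x, i)) :
    orb [V.a, V.b, V.c] + orb [V.a, V.c, V.d] <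
        orb [(hκ.cover.sub hp).a, (hκ.cover.sub hp).b, (hκ.cover.sub hp).c] +
          orb [(hκ.cover.sub hp).a, (hκ.cover.sub hp).c, (hκ.cover.sub hp).d] := by
  obtain ⟨u, ub, uc, ua⟩ := hκ.ex
  have hπ : Function.Surjective (fun x : {x // p x} => x.1.1) := by
    intro x
    obtain ⟨i, hi⟩ := hsurj x
    exact ⟨⟨(x, i), hi⟩, rfl⟩
  have h1 := tower_orb_pull hπ (s := [V.a, V.b, V.c])
    (s' := [(hκ.cover.sub hp).a, (hκ.cover.sub hp).b, (hκ.cover.sub hp).c]) (by
      intro g hg f hf x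
      simp only [List.mem_cons, List.not_mem_nil, or_false] at hf
      rcases hf with rfl | rfl | rfl
      · exact hg V.a (by simp) x.1.1
      · exact hg V.b (by simp) x.1.1
      · exact hg V.c (by simp) x.1.1)
  have h2 := tower_orb_pull hπ (s := [V.a, V.c, V.d])
    (s' := [(hκ.cover.sub hp).a, (hκ.cover.sub hp).c, (hκ.cover.sub hp).d]) (by
      intro g hg f hf x
      simp only [List.mem_cons, List.not_mem_nil, or_false] at hf
      rcases hf with rfl | rfl | rfl
      · exact hg V.a (by simp) x.1.1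
      · exact hg V.c (by simp) x.1.1
      · exact (hκ.cover.fr hp).ret_inv (f := fun z : Φ × F2 => g z.1)
          (fun z => hg V.d (by simp) z.1) (fun z _ => hg V.c (by simp) z.1) x.2)
  by_contra hlt
  have hlt1 : orb [(hκ.cover.sub hp).a, (hκ.cover.sub hp).b, (hκ.cover.sub hp).c] ≤
      orb [V.a, V.b, V.c] := by
    have := h2.1
    omega
  have hlt2 : orb [(hκ.cover.sub hp).a, (hκ.cover.sub hp).c, (hκ.cover.sub hp).d] ≤
      orb [V.a, V.c, V.d] := by
    have := h1.1
    omega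
  obtain ⟨g, hg, hge⟩ := h1.2 hlt1 (fun x => x.1.2 + u x.1.1) (by
    intro f hf x
    simp only [List.mem_cons, List.not_mem_nil, or_false] at hf
    rcases hf with rfl | rfl | rfl
    · show x.1.2 + κ x.1.1 + u (V.a x.1.1) = x.1.2 + u x.1.1
      rw [← ua]
      have := tower_F2_add_self (u (V.a x.1.1))
      linear_combination this
    · show x.1.2 + u (V.b x.1.1) = x.1.2 + u x.1.1
      rw [ub]
    · show x.1.2 + u (V.c x.1.1) = x.1.2 + u x.1.1
      rw [uc])
  obtain ⟨g2, hg2, hge2⟩ := h2.2 hlt2 (fun x => x.1.2 + κ x.1.1 * V.en x.1.1) (by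
    intro f hf x
    simp only [List.mem_cons, List.not_mem_nil, or_false] at hf
    rcases hf with rfl | rfl | rfl
    · show x.1.2 + κ x.1.1 + κ (V.a x.1.1) * V.en (V.a x.1.1) = x.1.2 + κ x.1.1 * V.en x.1.1
      rw [hκ.a, V.ena]
      have := tower_F2_add_self (κ x.1.1)
      linear_combination this
    · show x.1.2 + κ (V.c x.1.1) * V.en (V.c x.1.1) = x.1.2 + κ x.1.1 * V.en x.1.1
      rw [hκ.c, V.enc]
    · refine (hκ.cover.fr hp).ret_inv (f := fun z : Φ × F2 => z.2 + κ z.1 * V.en z.1)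
          (fun z => ?_) (fun z _ => ?_) x.2
      · show z.2 + κ (V.d z.1) * V.en (V.d z.1) = z.2 + κ z.1 * V.en z.1
        rw [hκ.d, V.end']
      · show z.2 + κ (V.c z.1) * V.en (V.c z.1) = z.2 + κ z.1 * V.en z.1
        rw [hκ.c, V.enc])
  have hs : ∀ x i, p (x, i) → i = g x + u x := by
    intro x i hi
    have e : i + u x = g x := congrFun hge ⟨(x, i), hi⟩
    rw [← e, add_assoc, tower_F2_add_self, add_zero]
  have hps : ∀ x, p (x, g x + u x) := by
    intro x
    obtain ⟨i, hi⟩ := hsurj x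
    rw [← hs x i hi]
    exact hi
  have hY : ∀ x, g x + u x + κ x * V.en x = g2 x := by
    intro x
    exact congrFun hge2 ⟨(x, g x + u x), hps x⟩
  refine hn ⟨fun x => g x + u x, ?_, ?_, ?_, ?_⟩
  · intro x
    show g (V.b x) + u (V.b x) = g x + u x
    rw [hg V.b (by simp), ub]
  · intro x
    show g (V.c x) + u (V.c x) = g x + u x
    rw [hg V.c (by simp), uc]
  · intro x
    have e1 := hY (V.d x)
    rw [hg2 V.d (by simp), ← hY x, hκ.d, V.end'] at e1
    exact add_right_cancel e1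
  · intro x
    show g x + u x + (g (V.a x) + u (V.a x)) = κ x
    rw [hg V.a (by simp), ← ua x]
    have := tower_F2_add_self (g x)
    linear_combination this

/-- The step of the tower. -/
theorem tower_step [Finite Φ] {h : Φ} {B N : ℕ} (hC : V.Cert h B N) {κ : Φ → F2}
    (hκ : V.Closed κ) (hn : ¬ ∃ p : Φ → F2, (∀ x, p (V.b x) = p x) ∧ (∀ x, p (V.c x) = p x) ∧
      (∀ x, p (V.d x) = p x) ∧ ∀ x, p x + p (V.a x) = κ x) :
    ∃ (p : Φ × F2 → Prop) (hp : hκ.cover.IsSub p) (h0 : p (h, 0)), ¬ p (h, 1) ∧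
      (hκ.cover.sub hp).Cert ⟨(h, 0), h0⟩ B N ∧
      orb [V.a, V.b, V.c] + orb [V.a, V.c, V.d] <
        orb [(hκ.cover.sub hp).a, (hκ.cover.sub hp).b, (hκ.cover.sub hp).c] +
          orb [(hκ.cover.sub hp).a, (hκ.cover.sub hp).c, (hκ.cover.sub hp).d] := by
  classical
  obtain ⟨⟨hT, y, w, S, m, hm, hsh, hnull, hcov⟩, hsize⟩ := hC
  have hT1 : hκ.cover.IsSub (fun x => ¬ V.OnFace h x.1) :=
    ⟨fun x => hT.a x.1, fun x => hT.b x.1, fun x => hT.c x.1⟩
  obtain ⟨S1, hS1, hS1'⟩ := hnull.lift hκ (hT' := hT1) (fun _ => Iff.rfl) 0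
  obtain ⟨i1, hsh1⟩ := tower_shadow_lift hκ (hT' := hT1) (fun _ => Iff.rfl) hsh 0
  have hm1 : hκ.cover.FaceSize (h, 0) m := tower_cover_faceSize hκ hm 0
  have hi1 : i1 = 0 := by
    have e := tower_shadow_end hsh1
    rw [hm1.2.1] at e
    exact congrArg Prod.snd e
  subst hi1
  -- the subcomplex
  have hp0 : hκ.cover.IsSub (fun x => True ∧ ∃ z, (z ∈ S1 ∨ z = (h, 0)) ∧
    hκ.cover.OnFace z x) := tower_isSub_onFace _ _ trivial
  have hp : hκ.cover.IsSub (fun x => ∃ z, (z ∈ S1 ∨ z = (h, 0)) ∧ hκ.cover.OnFace z x) := by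
    simpa only [true_and] using hp0
  have hpS : ∀ z ∈ S1, ∃ z', (z' ∈ S1 ∨ z' = (h, 0)) ∧ hκ.cover.OnFace z' z :=
    fun z hz => ⟨z, Or.inl hz, tower_onFace_refl _⟩
  have hph : ∃ z', (z' ∈ S1 ∨ z' = (h, 0)) ∧ hκ.cover.OnFace z' (h, 0) :=
    ⟨_, Or.inr rfl, tower_onFace_refl _⟩
  have hTS : ∀ z ∈ S1, ¬ V.OnFace h z.1 := fun z hz => hS1.T_of_mem hz
  refine ⟨_, hp, hph, ?_, ?_, ?_⟩
  · rintro ⟨z, hz | hz, hzf⟩
    · exact hTS z hz (tower_onFace_symm (tower_cover_onFace hκ hzf))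
    · subst hz
      exact tower_cover_not_onFace hκ h hzf
  · have hW : ∀ x : {x // ∃ z, (z ∈ S1 ∨ z = (h, 0)) ∧ hκ.cover.OnFace z x},
        ¬ (hκ.cover.sub hp).OnFace ⟨(h, 0), hph⟩ x ↔ ¬ V.OnFace h x.1.1 := by
      intro x
      rw [not_iff_not, tower_sub_onFace]
      constructor
      · intro hx
        exact tower_cover_onFace hκ hx
      · intro hx
        obtain ⟨z, hz | hz, hzf⟩ := x.2
        · exact absurd (tower_onFace_trans hx (tower_onFace_symm (tower_cover_onFace hκ hzf)))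
            (hTS z hz)
        · subst hz
          exact hzf
    have hT2 : (hκ.cover.sub hp).IsSub
        (fun x => ¬ (hκ.cover.sub hp).OnFace ⟨(h, 0), hph⟩ x) := by
      refine ⟨fun x => ?_, fun x => ?_, fun x => ?_⟩
      · rw [hW, hW]; exact hT.a x.1.1
      · rw [hW, hW]; exact hT.b x.1.1
      · rw [hW, hW]; exact hT.c x.1.1
    have hy0 : ((y, 0) : Φ × F2) ∈ S1 := hS1.visit_subset (tower_self_mem_visit hT1 _ _)
    obtain ⟨S2, hS2, hS2'⟩ := hS1.restrict hp (hT' := hT2) hW hpS (hpS _ hy0)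
    obtain ⟨hχ', hy', hsh2⟩ := tower_shadow_restrict hT1 hp hT2 hW hsh1 hph (hpS _ hy0)
      (hTS _ hy0) (fun z hz => hpS z (hS1.visit_subset hz))
    refine ⟨⟨hT2, _, w, S2, m, tower_sub_faceSize hp _ hm1, hsh2, hS2, ?_⟩, ?_⟩
    · intro x hx
      obtain ⟨z, hz | hz, hzf⟩ := x.2
      · refine ⟨⟨z, hpS z hz⟩, (hS2' _).2 hz, ?_⟩
        exact (tower_sub_onFace hp).2 hzf
      · subst hz
        exact absurd ((tower_sub_onFace hp).2 hzf) hx
    · intro x
      obtain ⟨k, hk, hk'⟩ := hsize x.1.1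
      exact ⟨k, hk, tower_sub_faceSize hp x (tower_cover_faceSize hκ hk' x.1.2)⟩
  · refine tower_count hκ hn hp ?_
    intro x
    by_cases hx : V.OnFace h x
    · obtain ⟨j, hj⟩ := tower_cover_lift_onFace hκ hx 0
      exact ⟨j, (h, 0), Or.inr rfl, hj⟩
    · obtain ⟨z, hz, hzf⟩ := hcov x hx
      obtain ⟨i, hi⟩ := (hS1' z).1 hz
      obtain ⟨j, hj⟩ := tower_cover_lift_onFace hκ hzf i
      exact ⟨j, (z, i), Or.inl hi, hj⟩

/-! ### The size of a certificate -/

theorem tower_face_card {B : ℕ} {z : Φ} {k : ℕ} (hk : k ≤ B) (h : V.FaceSize z k) :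
    ∃ A : Finset Φ, A.card ≤ 4 * B ∧ ∀ x, V.OnFace z x → x ∈ A := by
  classical
  obtain ⟨h0, h1, -⟩ := h
  let r : ℕ → Φ := fun j => (fun y => V.b (V.a y))^[j] z
  have hr : ∀ j, r (j + 1) = V.b (V.a (r j)) := fun j => Function.iterate_succ_apply' _ _ _
  have hrk : r k = r 0 := h1
  have hra : ∀ j < k, ∃ j' < k, V.b (V.a (r j)) = r j' := by
    intro j hj
    rcases Nat.lt_or_ge (j + 1) k with h2 | h2
    · exact ⟨j + 1, h2, (hr j).symm⟩
    · refine ⟨0, h0, ?_⟩
      rw [← hr, ← hrk]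
      congr 1
      omega
  have hrb : ∀ j < k, ∃ j' < k, V.b (r j) = V.a (r j') := by
    intro j hj
    rcases j with _ | j
    · refine ⟨k - 1, by omega, ?_⟩
      rw [← hrk]
      obtain ⟨k', rfl⟩ : ∃ k', k = k' + 1 := ⟨k - 1, by omega⟩
      rw [hr, V.bb]
      rfl
    · refine ⟨j, by omega, ?_⟩
      rw [hr, V.bb]
  let A : Finset Φ := (Finset.range k).image r ∪ (Finset.range k).image (fun j => V.a (r j)) ∪
    ((Finset.range k).image (fun j => V.c (r j)) ∪ (Finset.range k).image (fun j => V.c (V.a (r j))))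
  have hmem : ∀ x, x ∈ A ↔ (∃ j < k, r j = x) ∨ (∃ j < k, V.a (r j) = x) ∨
      (∃ j < k, V.c (r j) = x) ∨ ∃ j < k, V.c (V.a (r j)) = x := by
    intro x
    simp only [A, Finset.mem_union, Finset.mem_image, Finset.mem_range]
    exact or_assoc
  have hA : A.card ≤ 4 * B := by
    have c1 : ((Finset.range k).image r).card ≤ k := by
      simpa using Finset.card_image_le (s := Finset.range k) (f := r)
    have c2 : ((Finset.range k).image (fun j => V.a (r j))).card ≤ k := by
      simpa using Finset.card_image_le (s := Finset.range k) (f := fun j => V.a (r j))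
    have c3 : ((Finset.range k).image (fun j => V.c (r j))).card ≤ k := by
      simpa using Finset.card_image_le (s := Finset.range k) (f := fun j => V.c (r j))
    have c4 : ((Finset.range k).image (fun j => V.c (V.a (r j)))).card ≤ k := by
      simpa using Finset.card_image_le (s := Finset.range k) (f := fun j => V.c (V.a (r j)))
    have d1 := Finset.card_union_le ((Finset.range k).image r)
      ((Finset.range k).image (fun j => V.a (r j)))
    have d2 := Finset.card_union_le ((Finset.range k).image (fun j => V.c (r j)))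
      ((Finset.range k).image (fun j => V.c (V.a (r j))))
    have d3 := Finset.card_union_le
      ((Finset.range k).image r ∪ (Finset.range k).image (fun j => V.a (r j)))
      ((Finset.range k).image (fun j => V.c (r j)) ∪
        (Finset.range k).image (fun j => V.c (V.a (r j))))
    show (((Finset.range k).image r ∪ (Finset.range k).image (fun j => V.a (r j))) ∪
      ((Finset.range k).image (fun j => V.c (r j)) ∪
        (Finset.range k).image (fun j => V.c (V.a (r j))))).card ≤ 4 * B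
    omega
  have ha1 : ∀ x, x ∈ A → V.a x ∈ A := by
    intro x hx
    rw [hmem] at hx ⊢
    rcases hx with ⟨j, hj, rfl⟩ | ⟨j, hj, rfl⟩ | ⟨j, hj, rfl⟩ | ⟨j, hj, rfl⟩
    · exact Or.inr (Or.inl ⟨j, hj, rfl⟩)
    · exact Or.inl ⟨j, hj, (V.aa _).symm⟩
    · exact Or.inr (Or.inr (Or.inr ⟨j, hj, (V.ac _).symm⟩))
    · exact Or.inr (Or.inr (Or.inl ⟨j, hj, by rw [V.ac, V.aa]⟩))
  have hc1 : ∀ x, x ∈ A → V.c x ∈ A := by
    intro x hx
    rw [hmem] at hx ⊢
    rcases hx with ⟨j, hj, rfl⟩ | ⟨j, hj, rfl⟩ | ⟨j, hj, rfl⟩ | ⟨j, hj, rfl⟩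
    · exact Or.inr (Or.inr (Or.inl ⟨j, hj, rfl⟩))
    · exact Or.inr (Or.inr (Or.inr ⟨j, hj, rfl⟩))
    · exact Or.inl ⟨j, hj, (V.cc _).symm⟩
    · exact Or.inr (Or.inl ⟨j, hj, (V.cc _).symm⟩)
  have hb1 : ∀ x, x ∈ A → V.b x ∈ A := by
    intro x hx
    rw [hmem] at hx ⊢
    rcases hx with ⟨j, hj, rfl⟩ | ⟨j, hj, rfl⟩ | ⟨j, hj, rfl⟩ | ⟨j, hj, rfl⟩
    · obtain ⟨j', hj', e⟩ := hrb j hj
      exact Or.inr (Or.inl ⟨j', hj', e.symm⟩)
    · obtain ⟨j', hj', e⟩ := hra j hj
      exact Or.inl ⟨j', hj', e.symm⟩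
    · obtain ⟨j', hj', e⟩ := hrb j hj
      exact Or.inr (Or.inr (Or.inr ⟨j', hj', by rw [V.bc, e]⟩))
    · obtain ⟨j', hj', e⟩ := hra j hj
      exact Or.inr (Or.inr (Or.inl ⟨j', hj', by rw [V.bc, e]⟩))
  refine ⟨A, hA, ?_⟩
  intro x hx
  have key : (z ∈ A) = (x ∈ A) := by
    refine tower_eq_of (g := fun x => x ∈ A) (s := [V.a, V.b, V.c]) ?_ hx
    intro f hf x
    simp only [List.mem_cons, List.not_mem_nil, or_false] at hf
    rcases hf with rfl | rfl | rfl
    · exact propext ⟨fun h => by have := ha1 _ h; rwa [V.aa] at this, ha1 x⟩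
    · exact propext ⟨fun h => by have := hb1 _ h; rwa [V.bb] at this, hb1 x⟩
    · exact propext ⟨fun h => by have := hc1 _ h; rwa [V.cc] at this, hc1 x⟩
  rw [← key, hmem]
  exact Or.inl ⟨0, h0, rfl⟩

theorem Cert.orb_le [Finite Φ] {h : Φ} {B N : ℕ} (hC : V.Cert h B N) :
    orb [V.a, V.b, V.c] + orb [V.a, V.c, V.d] ≤ 8 * B * (N + 1) := by
  classical
  have := Fintype.ofFinite Φ
  obtain ⟨⟨hT, y, w, S, m, hm, hsh, hnull, hcov⟩, hsize⟩ := hC
  have hA : ∀ z, ∃ A : Finset Φ, A.card ≤ 4 * B ∧ ∀ x, V.OnFace z x → x ∈ A := by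
    intro z
    obtain ⟨k, hk, hk'⟩ := hsize z
    exact tower_face_card hk hk'
  choose A hA1 hA2 using hA
  have huniv : (Finset.univ : Finset Φ) ⊆ (insert h S).biUnion A := by
    intro x _
    rw [Finset.mem_biUnion]
    by_cases hx : V.OnFace h x
    · exact ⟨h, Finset.mem_insert_self _ _, hA2 h x hx⟩
    · obtain ⟨z, hz, hzf⟩ := hcov x hx
      exact ⟨z, Finset.mem_insert_of_mem hz, hA2 z x hzf⟩
  have h1 : Fintype.card Φ ≤ (insert h S).card * (4 * B) := by
    calc Fintype.card Φ = (Finset.univ : Finset Φ).card := rfl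
      _ ≤ ((insert h S).biUnion A).card := Finset.card_le_card huniv
      _ ≤ (insert h S).card * (4 * B) := Finset.card_biUnion_le_card_mul _ _ _ (fun z _ => hA1 z)
  have h2 : (insert h S).card ≤ N + 1 := by
    have := Finset.card_insert_le h S
    have := hnull.card_le
    omega
  have h3 : Fintype.card Φ ≤ (N + 1) * (4 * B) := h1.trans (Nat.mul_le_mul_right _ h2)
  have h4 := orb_le_card [V.a, V.b, V.c]
  have h5 := orb_le_card [V.a, V.c, V.d]
  have h6 : 8 * B * (N + 1) = (N + 1) * (4 * B) + (N + 1) * (4 * B) := by ring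
  omega

end TMap

end Pool.Agent.Lib.MP_131179_gt.Dehn
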