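import Pool.Agent.Lib.MP_131179_gt.Dehn.LabRun
import Pool.Agent.Lib.MP_131179_gt.Dehn.Coarse
import Pool.Agent.Lib.MP_131179_gt.Dehn.Pi1

/-!
# The labels of the strands in the group of a lattice link
-/

set_option autoImplicit false

namespace Pool.Agent.Lib.MP_131179_gt.Dehn

variable {Γ : Type} [Group Γ] {es : List HE} {gx gy : P3 → Γ}

/-- The labels of the horizontal edges in the direction `0` before the step number `j`. -/
def Gt (gx : P3 → Γ) (j : ℕ) (x z : ℤ) : Γ := gx (x - 1, 2 * (j : ℤ) - 1, z - 1)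

/-! ### Auxiliary facts -/

theorem wirt_sqY (h : PiRel (Kc es) gx gy) (x y z : ℤ)
    (hK : (((x + 1, y, z + 1), 1) : LE) ∉ Kc es) : gx (x, y, z + 1) = gx (x, y, z) := by
  have h1 := h.sqY (x, y, z)
  have e1 : ((x, y, z) : P3) + e3 0 + e3 2 = (x + 1, y, z + 1) := by simp [e3]
  have e2 : ((x, y, z) : P3) + e3 2 = (x, y, z + 1) := by simp [e3]
  rw [e1, e2] at h1
  exact h1 hK

theorem wirt_sqX (h : PiRel (Kc es) gx gy) (x y z : ℤ)
    (hK : (((x, y + 1, z + 1), 0) : LE) ∉ Kc es) : gy (x, y, z + 1) = gy (x, y, z) := by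
  have h1 := h.sqX (x, y, z)
  have e1 : ((x, y, z) : P3) + e3 1 + e3 2 = (x, y + 1, z + 1) := by simp [e3]
  have e2 : ((x, y, z) : P3) + e3 2 = (x, y, z + 1) := by simp [e3]
  rw [e1, e2] at h1
  exact h1 hK

theorem wirt_sqZ (h : PiRel (Kc es) gx gy) (x y z : ℤ)
    (hK : (((x + 1, y + 1, z), 2) : LE) ∉ Kc es) :
    gx (x, y, z) * gy (x + 1, y, z) = gy (x, y, z) * gx (x, y + 1, z) := by
  have h1 := h.sqZ (x, y, z)
  have e1 : ((x, y, z) : P3) + e3 0 + e3 1 = (x + 1, y + 1, z) := by simp [e3]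
  have e2 : ((x, y, z) : P3) + e3 0 = (x + 1, y, z) := by simp [e3]
  have e3' : ((x, y, z) : P3) + e3 1 = (x, y + 1, z) := by simp [e3]
  rw [e1, e2, e3'] at h1
  exact h1 hK

/-- If no square over the points `(x, y, z')`, `z ≤ z'`, is pierced, the label is trivial. -/
theorem wirt_gy_one (h : PiRel (Kc es) gx gy) (x y z : ℤ)
    (hK : ∀ z', z ≤ z' → (((x, y + 1, z' + 1), 0) : LE) ∉ Kc es) : gy (x, y, z) = 1 := by
  have h1 : ∀ n : ℕ, gy (x, y, z + n) = gy (x, y, z) := by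
    intro n
    induction n with
    | zero => simp
    | succ n ih =>
      rw [← ih]
      have := wirt_sqX h x y (z + n) (hK _ (by omega))
      rw [← this]
      congr 3
      push_cast; ring
  obtain ⟨Z0, hZ⟩ := h.front
  have h2 := (hZ (x, y, z + (Z0 - z).toNat) (by
    show Z0 ≤ z + ((Z0 - z).toNat : ℤ)
    omega)).2
  rw [← h1 (Z0 - z).toNat, h2]

/-- Constancy of `gy` in the direction `2`. -/
theorem wirt_gy_const (h : PiRel (Kc es) gx gy) (x y z : ℤ) (n : ℕ)
    (hK : ∀ z', z ≤ z' → z' < z + n → (((x, y + 1, z' + 1), 0) : LE) ∉ Kc es) :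
    gy (x, y, z + n) = gy (x, y, z) := by
  induction n with
  | zero => simp
  | succ n ih =>
    rw [← ih (fun z' h1 h2 => hK z' h1 (by push_cast; omega))]
    have := wirt_sqX h x y (z + n) (hK _ (by omega) (by push_cast; omega))
    rw [← this]
    congr 3
    push_cast; ring

theorem wirt_odd {x y z : ℤ} {k : Fin 3} (hk : k ≠ 1) (hy : ∀ j : ℕ, y ≠ 2 * (j : ℤ)) :
    (((x, y, z), k) : LE) ∉ Kc es := coarse_hor_none hk hy

theorem wirt_gy_even (h : PiRel (Kc es) gx gy) {j : ℕ} (x z : ℤ) :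
    gy (x, 2 * (j : ℤ), z) = 1 := by
  apply wirt_gy_one h
  intro z' _
  exact wirt_odd (by decide) (fun j' => by omega)

/-- The labels on the level `2 j`. -/
theorem gx_even (h : PiRel (Kc es) gx gy) {j : ℕ} (x z : ℤ) :
    gx (x, 2 * (j : ℤ), z) = Gt gx (j + 1) (x + 1) (z + 1) := by
  have h1 := wirt_sqZ h x (2 * (j : ℤ)) z (wirt_odd (by decide) (fun j' => by omega))
  rw [wirt_gy_even h, wirt_gy_even h, mul_one, one_mul] at h1
  rw [h1]
  unfold Gt
  congr 2
  · ring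
  · congr 1
    · push_cast; ring
    · ring

theorem wirt_mem0 {j : ℕ} {e : HE} (he : es[j]? = some e) (x z : ℤ) :
    (((x, 2 * (j : ℤ), z), 0) : LE) ∈ Kc es ↔ e = .ex x z := by
  rw [mem_Kc_0]
  constructor
  · rintro ⟨j', h1, h2⟩
    obtain rfl : j = j' := by omega
    rw [he] at h2
    exact Option.some.inj h2
  · rintro rfl
    exact ⟨j, rfl, he⟩

theorem wirt_mem2 {j : ℕ} {e : HE} (he : es[j]? = some e) (x z : ℤ) :
    (((x, 2 * (j : ℤ), z), 2) : LE) ∈ Kc es ↔ e = .ez x z := by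
  rw [mem_Kc_2]
  constructor
  · rintro ⟨j', h1, h2⟩
    obtain rfl : j = j' := by omega
    rw [he] at h2
    exact Option.some.inj h2
  · rintro rfl
    exact ⟨j, rfl, he⟩

/-- The square spanned by the directions `0` and `1` under the edge number `j`. -/
theorem wirt_sq (h : PiRel (Kc es) gx gy) {j : ℕ} {e : HE} (he : es[j]? = some e) (x z : ℤ)
    (hne : e ≠ .ez x (z - 1)) :
    Gt gx j x z * gy (x, 2 * (j : ℤ) - 1, z - 1) =
      gy (x - 1, 2 * (j : ℤ) - 1, z - 1) * Gt gx (j + 1) x z := by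
  have h1 := wirt_sqZ h (x - 1) (2 * (j : ℤ) - 1) (z - 1) (by
    rw [sub_add_cancel, sub_add_cancel, wirt_mem2 he]
    exact hne)
  rw [sub_add_cancel, sub_add_cancel, gx_even h, sub_add_cancel, sub_add_cancel] at h1
  exact h1

theorem gy_odd_ez (h : PiRel (Kc es) gx gy) {j : ℕ} {i k : ℤ}
    (he : es[j]? = some (.ez i k)) (x z : ℤ) : gy (x, 2 * (j : ℤ) - 1, z) = 1 := by
  apply wirt_gy_one h
  intro z' _
  rw [sub_add_cancel, wirt_mem0 he]
  simp

/-- The vertical labels between the levels `2 j - 1` and `2 j`. -/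
theorem gy_odd_ex (h : PiRel (Kc es) gx gy) {j : ℕ} {i k : ℤ}
    (he : es[j]? = some (.ex i k)) (x z : ℤ) : gy (x, 2 * (j : ℤ) - 1, z) =
      if x = i ∧ z < k then (Gt gx j i k)⁻¹ * Gt gx (j + 1) i k else 1 := by
  have h1 : ∀ x z : ℤ, ¬ (x = i ∧ z < k) → gy (x, 2 * (j : ℤ) - 1, z) = 1 := by
    intro x z hxz
    apply wirt_gy_one h
    intro z' hz'
    rw [sub_add_cancel, wirt_mem0 he]
    simp only [HE.ex.injEq, not_and]
    intro h2 h3
    exact hxz ⟨h2.symm, by omega⟩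
  by_cases hxz : x = i ∧ z < k
  · rw [if_pos hxz]
    obtain ⟨rfl, hz⟩ := hxz
    have h2 := wirt_sq h he x k (by simp)
    rw [h1 (x - 1) (k - 1) (by omega), one_mul] at h2
    have h3 := wirt_gy_const h x (2 * (j : ℤ) - 1) z (k - 1 - z).toNat (by
      intro z' h4 h5
      rw [sub_add_cancel, wirt_mem0 he]
      simp only [HE.ex.injEq, not_and]
      intro _ h3
      omega)
    have h4 : z + ((k - 1 - z).toNat : ℤ) = k - 1 := by omega
    rw [h4] at h3
    rw [← h3, ← h2, inv_mul_cancel_left]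
  · rw [if_neg hxz]
    exact h1 x z hxz

theorem gt_step (h : PiRel (Kc es) gx gy) {j : ℕ} {e : HE} (he : es[j]? = some e) :
    GStep (Gt gx j) (Gt gx (j + 1)) e := by
  cases e with
  | ex i k =>
    refine ⟨(Gt gx j i k)⁻¹ * Gt gx (j + 1) i k, ?_⟩
    intro x z
    have h1 := wirt_sq h he x z (by simp)
    rw [gy_odd_ex h he, gy_odd_ex h he] at h1
    set y := (Gt gx j i k)⁻¹ * Gt gx (j + 1) i k with hy
    have c1 : (x - 1 = i ∧ z - 1 < k) ↔ (x = i + 1 ∧ z ≤ k) := by omega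
    have c2 : (x = i ∧ z - 1 < k) ↔ (x = i ∧ z ≤ k) := by omega
    simp only [c1, c2] at h1
    by_cases h2 : x = i + 1 ∧ z ≤ k
    · rw [if_pos h2] at h1 ⊢
      rw [mul_assoc, h1, inv_mul_cancel_left]
    · rw [if_neg h2] at h1 ⊢
      rw [one_mul] at h1 ⊢
      exact h1.symm
  | ez i k =>
    intro x z hxz
    have h1 := wirt_sq h he x z (by
      intro hh
      apply hxz
      simp only [HE.ez.injEq] at hh
      rw [Prod.mk.injEq]
      omega)
    rw [gy_odd_ez h he, gy_odd_ez h he, mul_one, one_mul] at h1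
    exact h1.symm

theorem gt_lab (h : PiRel (Kc es) gx gy) (h0 : fin ∅ es = ∅) {j : ℕ} {s : Site}
    (hs : s ∉ Pt es j) : lab (Gt gx j) s = 1 := by
  unfold lab Gt
  have h1 := wirt_sqY h (cx s - 1) (2 * (j : ℤ) - 1) (cz s - 1) (by
    rw [sub_add_cancel, sub_add_cancel, coarse_down_even h0]
    exact hs)
  rw [sub_add_cancel] at h1
  rw [add_sub_cancel_right, h1, mul_inv_cancel]

/-- The vertical labels between the levels `2 j` and `2 j + 1` are trivial. -/
theorem gy_even (h : PiRel (Kc es) gx gy) (h0 : fin ∅ es = ∅) {j : ℕ} (x z : ℤ) :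
    gy (x, 2 * (j : ℤ), z) = 1 := wirt_gy_even h x z

theorem path_conj (h : PiRel (Kc es) gx gy) (hn : Nice ∅ es) (h0 : fin ∅ es = ∅) {j : ℕ}
    (hj : j ≤ es.length) : Path (conj Γ) (runL (fun j => lab (Gt gx j)) 0 ∅ (es.take j)) []
      (lst (lab (Gt gx j)) (Pt es j)) := by
  have h1 := runL_path (Q := conj Γ) (fun j => lab (Gt gx j)) ∅ es (by
    intro i e he
    show Path (conj Γ) (wd (lab (Gt gx (i + 1))) (Pt es i) e) (lst (lab (Gt gx i)) (Pt es i))
      (lst (lab (Gt gx (i + 1))) (Pt es (i + 1)))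
    rw [coarse_Pt_succ he]
    refine wd_path_conj (gt_step h he) (fun s hs => gt_lab h h0 hs)
      (fun s hs => gt_lab h h0 (by rw [coarse_Pt_succ he]; exact hs)) ?_ ?_
    · rintro a k rfl
      exact hn.ex i a k he
    · obtain ⟨Z0, hZ⟩ := h.front
      refine ⟨Z0 + 1, fun x z hz => ⟨?_, ?_⟩⟩
      · exact (hZ _ (by show Z0 ≤ z - 1; omega)).1
      · exact (hZ _ (by show Z0 ≤ z - 1; omega)).1) j hj
  have h2 : lst (lab (Gt gx 0)) ∅ = [] := by
    unfold lst
    rw [Finset.sort_empty]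
    rfl
  rw [h2] at h1
  exact h1

end Pool.Agent.Lib.MP_131179_gt.Dehn
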