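import Pool.Agent.Lib.MP_131179_gt.Dehn.Run

/-!
# Every word comes from a list of edges

The strands are in the points `(0, 0), …, (m - 1, 0)`.
-/

set_option autoImplicit false
set_option linter.unusedSimpArgs false

namespace Pool.Agent.Lib.MP_131179_gt.Dehn

/-- The strands number `n, …, m - 1` move two columns to the right, the last one first. -/
def shR (n : ℕ) : ℕ → List HE
  | 0 => []
  | m + 1 => if m + 1 ≤ n then [] else .ex m 0 :: .ex (m + 1) 0 :: shR n m

/-- The edges for one letter at the position `n`; there are `m` strands. -/
def kle : Kind Unit → ℕ → ℕ → List HE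
  | .cup _, n, m => shR n m ++ [.ez n 0, .ex n 1, .ez (n + 1) 0]
  | .cap, n, m => [.ez (n + 1) 0, .ex n 1, .ez n 0] ++ (shR n (m - 2)).reverse
  | .pos, n, _ => [.ez n 0, .ex n 1, .ex n 0, .ez (n + 1) 0]
  | .neg, n, _ => [.ez (n + 1) 0, .ex n 1, .ex n 0, .ez n 0]

/-- The edges for a word; there are `m` strands. -/
def ke : Word Unit → ℕ → List HE
  | [], _ => []
  | (k, n) :: w, m => kle k n m ++ ke w (m + k.out - k.inn)

/-- `m` strands in a row. -/
def row (m : ℕ) : Finset Site := (Finset.range m).image fun i : ℕ => st (i : ℤ) 0

/-! ### Auxiliary lemmas -/

theorem wordk_step {k : Kind Unit} {n : ℕ} {s t : List Unit} (h : Step (triv Unit) k n s t) :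
    n + k.inn ≤ s.length ∧ t.length + k.inn = s.length + k.out := by
  induction h with
  | cup c s => simp [Kind.inn, Kind.out]
  | cap c s => simp [Kind.inn, Kind.out]
  | pos a b s => simp [Kind.inn, Kind.out]
  | neg a b s => simp [Kind.inn, Kind.out]
  | there a _ ih =>
    simp only [List.length_cons]
    omega

/-- The condition on one edge. -/
def wordkCond (P : Finset Site) : HE → Prop
  | .ex i k => (st i k ∈ P ↔ st (i + 1) k ∉ P)
  | .ez i k => ∀ z, st i z ∈ P → z = k ∨ z = k + 1

/-- Properties of the list of edges. -/
structure Nice (P : Finset Site) (es : List HE) : Prop where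
  ex : ∀ j i k, es[j]? = some (.ex i k) →
    (st i k ∈ fin P (es.take j) ↔ st (i + 1) k ∉ fin P (es.take j))
  ez : ∀ j i k z, es[j]? = some (.ez i k) → st i z ∈ fin P (es.take j) → z = k ∨ z = k + 1

theorem wordk_nice_nil (P : Finset Site) : Nice P [] := by
  constructor
  · intro j i k h
    simp at h
  · intro j i k z h
    simp at h

theorem wordk_nice_cons {P : Finset Site} {e : HE} {es : List HE} (h1 : wordkCond P e)
    (h2 : Nice (nxs P e) es) : Nice P (e :: es) := by
  constructor
  · intro j i k h
    cases j with
    | zero =>
      simp only [List.getElem?_cons_zero, Option.some.injEq] at h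
      subst h
      exact h1
    | succ j =>
      simp only [List.getElem?_cons_succ] at h
      exact h2.ex j i k h
  · intro j i k z h
    cases j with
    | zero =>
      simp only [List.getElem?_cons_zero, Option.some.injEq] at h
      subst h
      exact h1 z
    | succ j =>
      simp only [List.getElem?_cons_succ] at h
      exact h2.ez j i k z h

theorem wordk_nice_tail {P : Finset Site} {e : HE} {es : List HE} (h : Nice P (e :: es)) :
    wordkCond P e ∧ Nice (nxs P e) es := by
  refine ⟨?_, ?_, ?_⟩
  · cases e with
    | ex i k => exact h.ex 0 i k rfl
    | ez i k => exact fun z hz => h.ez 0 i k z rfl hz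
  · intro j i k hj
    exact h.ex (j + 1) i k (by simpa using hj)
  · intro j i k z hj
    exact h.ez (j + 1) i k z (by simpa using hj)

theorem wordk_nice_append {P : Finset Site} {es es' : List HE} (h1 : Nice P es)
    (h2 : Nice (fin P es) es') : Nice P (es ++ es') := by
  induction es generalizing P with
  | nil => exact h2
  | cons e es ih =>
    obtain ⟨h3, h4⟩ := wordk_nice_tail h1
    exact wordk_nice_cons h3 (ih h4 h2)

/-- A list of edges with its word and its end. -/
def WordkRn (P : Finset Site) (es : List HE) (w : Word Unit) (Q : Finset Site) : Prop :=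
  run1 P es = w ∧ fin P es = Q ∧ Nice P es

theorem wordk_rn_nil (P : Finset Site) : WordkRn P [] [] P := ⟨rfl, rfl, wordk_nice_nil P⟩

theorem wordk_rn_cons {P P' Q : Finset Site} {e : HE} {es : List HE} {w w' : Word Unit}
    (h1 : wd (fun _ => ()) P e = w) (h2 : nxs P e = P') (h3 : wordkCond P e)
    (h4 : WordkRn P' es w' Q) : WordkRn P (e :: es) (w ++ w') Q := by
  subst h2
  obtain ⟨h5, h6, h7⟩ := h4
  refine ⟨?_, h6, wordk_nice_cons h3 h7⟩
  show wd (fun _ => ()) P e ++ run1 (nxs P e) es = w ++ w'
  rw [h1, h5]

theorem wordk_rn_append {P Q Q' : Finset Site} {es es' : List HE} {w w' : Word Unit}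
    (h1 : WordkRn P es w Q) (h2 : WordkRn Q es' w' Q') : WordkRn P (es ++ es') (w ++ w') Q' := by
  obtain ⟨a1, a2, a3⟩ := h1
  obtain ⟨b1, b2, b3⟩ := h2
  refine ⟨?_, ?_, ?_⟩
  · show run _ _ _ = _
    rw [run_append, a2]
    show run1 P es ++ run1 Q es' = _
    rw [a1, b1]
  · rw [fin_append, a2, b2]
  · exact wordk_nice_append a3 (by rw [a2]; exact b3)

theorem wordk_st_inj {x y x' y' : ℤ} : st x y = st x' y' ↔ x = x' ∧ y = y' := by
  unfold st
  rw [toLex_inj, Prod.mk.injEq]

theorem wordk_st_lt {x y x' y' : ℤ} : st x y < st x' y' ↔ x < x' ∨ (x = x' ∧ y < y') := by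
  rw [Prod.Lex.lt_iff]
  rfl

theorem wordk_ext {P Q : Finset Site} (h : ∀ x y, st x y ∈ P ↔ st x y ∈ Q) : P = Q := by
  ext q
  exact h (cx q) (cz q)

/-- the points `(i, 0)` with `a ≤ i < b` -/
noncomputable def wordkR (a b : ℤ) : Finset Site := (Finset.Ico a b).image fun i : ℤ => st i 0

theorem wordk_mem_R {a b x y : ℤ} : st x y ∈ wordkR a b ↔ (a ≤ x ∧ x < b) ∧ y = 0 := by
  unfold wordkR
  simp only [Finset.mem_image, Finset.mem_Ico, wordk_st_inj]
  constructor
  · rintro ⟨i, hi, rfl, rfl⟩
    exact ⟨hi, rfl⟩
  · rintro ⟨h, rfl⟩
    exact ⟨x, h, rfl, rfl⟩

theorem wordk_row (m : ℕ) : row m = wordkR 0 m := by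
  apply wordk_ext
  intro x y
  rw [wordk_mem_R]
  unfold row
  simp only [Finset.mem_image, Finset.mem_range, wordk_st_inj]
  constructor
  · rintro ⟨i, hi, rfl, rfl⟩
    omega
  · rintro ⟨⟨h1, h2⟩, rfl⟩
    exact ⟨x.toNat, by omega, by omega, rfl⟩

theorem wordk_mem_nxs {P : Finset Site} {e : HE} {q : Site} :
    q ∈ nxs P e ↔ (q ∈ P ∧ ¬ (q = e.lo ∨ q = e.hi)) ∨ ((q = e.lo ∨ q = e.hi) ∧ q ∉ P) := by
  unfold nxs
  rw [Finset.mem_symmDiff]
  simp only [Finset.mem_insert, Finset.mem_singleton]

theorem wordk_btw_nil {P : Finset Site} {i k : ℤ}
    (h : ∀ x z, st x z ∈ P → ¬ ((x = i ∧ k < z) ∨ (x = i + 1 ∧ z < k))) :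
    btw P (.ex i k) = [] := by
  unfold btw
  have h1 : (P.filter fun q => (HE.ex i k).lo < q ∧ q < (HE.ex i k).hi) = ∅ := by
    apply Finset.filter_eq_empty_iff.2
    intro q hq
    have h2 := h (cx q) (cz q) hq
    have h3 : q = st (cx q) (cz q) := rfl
    rw [h3]
    simp only [HE.lo, HE.hi, wordk_st_lt]
    omega
  rw [h1, Finset.sort_empty]

theorem wordk_btw_single {P : Finset Site} {i k x₀ z₀ : ℤ}
    (h : ∀ x z, (st x z ∈ P ∧ ((x = i ∧ k < z) ∨ (x = i + 1 ∧ z < k))) ↔ (x = x₀ ∧ z = z₀)) :
    btw P (.ex i k) = [st x₀ z₀] := by
  unfold btw
  have h1 : (P.filter fun q => (HE.ex i k).lo < q ∧ q < (HE.ex i k).hi) = {st x₀ z₀} := by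
    apply wordk_ext
    intro x z
    have h2 := h x z
    rw [Finset.mem_filter, Finset.mem_singleton, wordk_st_inj, ← h2]
    refine and_congr_right fun _ => ?_
    simp only [HE.lo, HE.hi, wordk_st_lt]
    omega
  rw [h1, Finset.sort_singleton]

theorem wordk_rk {P : Finset Site} {n : ℕ} {z : ℤ}
    (h : ∀ x y, (st x y ∈ P ∧ (x < n ∨ (x = n ∧ y < z))) ↔ ((0 ≤ x ∧ x < n) ∧ y = 0)) :
    rk P (st n z) = n := by
  unfold rk
  have h1 : (P.filter fun q => q < st n z) = wordkR 0 n := by
    apply wordk_ext
    intro x y
    rw [wordk_mem_R, ← h x y, Finset.mem_filter, wordk_st_lt]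
  rw [h1]
  unfold wordkR
  rw [Finset.card_image_of_injective]
  · simp
  · intro a b hab
    simp only [wordk_st_inj] at hab
    exact hab.1

theorem wordk_wd_nil {P : Finset Site} {e : HE} (h : e.lo ∈ P ↔ e.hi ∉ P) (hB : btw P e = []) :
    wd (fun _ => ()) P e = [] := by
  unfold wd
  simp only [hB]
  by_cases h1 : e.lo ∈ P
  · have h2 := h.1 h1
    simp [h1, h2, crR]
  · have h2 : e.hi ∈ P := by
      by_contra h3
      exact h1 (h.2 h3)
    simp [h1, h2, crL]

theorem wordk_wd_cup {P : Finset Site} {e : HE} (h1 : e.lo ∉ P) (h2 : e.hi ∉ P)
    (hB : btw P e = []) : wd (fun _ => ()) P e = [(.cup (), rk P e.lo)] := by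
  unfold wd
  simp [hB, h1, h2, crR]

theorem wordk_wd_cap {P : Finset Site} {e : HE} (h1 : e.lo ∈ P) (h2 : e.hi ∈ P)
    (hB : btw P e = []) : wd (fun _ => ()) P e = [(.cap, rk P e.lo)] := by
  unfold wd
  simp [hB, h1, h2, crL]

theorem wordk_wd_cross {P : Finset Site} {e : HE} {b : Site} (h1 : e.lo ∈ P) (h2 : e.hi ∉ P)
    (hB : btw P e = [b]) :
    wd (fun _ => ()) P e = [(if cz e.lo < cz b then .neg else .pos, rk P e.lo)] := by
  unfold wd
  simp [hB, h1, h2, crR]

/-- moving a strand in the row -/
theorem wordk_move {P Q : Finset Site} {i : ℤ} {es : List HE} {w : Word Unit}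
    (h0 : ∀ x z, st x z ∈ P → z = 0) (h1 : st i 0 ∈ P ↔ st (i + 1) 0 ∉ P)
    (h4 : WordkRn (nxs P (.ex i 0)) es w Q) : WordkRn P (.ex i 0 :: es) w Q := by
  have h := wordk_rn_cons (w := []) (wordk_wd_nil (e := .ex i 0) h1 ?_) rfl h1 h4
  · exact h
  · apply wordk_btw_nil
    intro x z hx
    have := h0 x z hx
    omega

theorem wordk_shR (n m M : ℕ) (hn : n ≤ m) (hm : m ≤ M) :
    WordkRn (wordkR 0 m ∪ wordkR (m + 2) (M + 2)) (shR n m) []
      (wordkR 0 n ∪ wordkR (n + 2) (M + 2)) := by
  induction m with
  | zero =>
    have : n = 0 := by omega
    subst this
    exact wordk_rn_nil _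
  | succ m ih =>
    by_cases hmn : m + 1 ≤ n
    · have : n = m + 1 := by omega
      subst this
      rw [shR, if_pos (le_refl _)]
      exact wordk_rn_nil _
    · rw [shR, if_neg hmn]
      have ih' := ih (by omega) (by omega)
      apply wordk_move
      · intro x z hx
        simp only [Finset.mem_union, wordk_mem_R] at hx
        omega
      · simp only [Finset.mem_union, wordk_mem_R]
        push_cast
        ((try simp only [and_true, true_and, or_true, true_or, false_and, and_false, or_false,
            false_or, not_true_eq_false, not_false_eq_true, ne_eq, iff_true, true_iff]) <;>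
          first | omega | (constructor <;> intro h <;> omega) | (intro h; omega))
      · apply wordk_move
        · intro x z hx
          simp only [wordk_mem_nxs, Finset.mem_union, wordk_mem_R, HE.lo, HE.hi, wordk_st_inj] at hx
          omega
        · simp only [wordk_mem_nxs, Finset.mem_union, wordk_mem_R, HE.lo, HE.hi, wordk_st_inj]
          push_cast
          ((try simp only [and_true, true_and, or_true, true_or, false_and, and_false, or_false,
              false_or, not_true_eq_false, not_false_eq_true, ne_eq, iff_true, true_iff]) <;>
            first | omega | (constructor <;> intro h <;> omega) | (intro h; omega))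
        · have hQ : nxs (nxs (wordkR 0 ((m + 1 : ℕ) : ℤ) ∪ wordkR (((m + 1 : ℕ) : ℤ) + 2) (M + 2))
              (.ex m 0)) (.ex (m + 1) 0) = wordkR 0 m ∪ wordkR (m + 2) (M + 2) := by
            apply wordk_ext
            intro x y
            simp only [wordk_mem_nxs, Finset.mem_union, wordk_mem_R, HE.lo, HE.hi, wordk_st_inj]
            push_cast
            omega
          rw [hQ]
          exact ih'

theorem wordk_shR_rev (n m M : ℕ) (hn : n ≤ m) (hm : m ≤ M) :
    WordkRn (wordkR 0 n ∪ wordkR (n + 2) (M + 2)) (shR n m).reverse []
      (wordkR 0 m ∪ wordkR (m + 2) (M + 2)) := by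
  induction m with
  | zero =>
    have : n = 0 := by omega
    subst this
    exact wordk_rn_nil _
  | succ m ih =>
    by_cases hmn : m + 1 ≤ n
    · have : n = m + 1 := by omega
      subst this
      rw [shR, if_pos (le_refl _)]
      exact wordk_rn_nil _
    · rw [shR, if_neg hmn]
      have ih' := ih (by omega) (by omega)
      rw [List.reverse_cons, List.reverse_cons, List.append_assoc]
      have h : WordkRn (wordkR 0 m ∪ wordkR (m + 2) (M + 2)) [HE.ex (m + 1) 0, HE.ex m 0] []
          (wordkR 0 ((m + 1 : ℕ) : ℤ) ∪ wordkR (((m + 1 : ℕ) : ℤ) + 2) (M + 2)) := by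
        apply wordk_move
        · intro x z hx
          simp only [Finset.mem_union, wordk_mem_R] at hx
          omega
        · simp only [Finset.mem_union, wordk_mem_R]
          ((try simp only [and_true, true_and, or_true, true_or, false_and, and_false, or_false,
              false_or, not_true_eq_false, not_false_eq_true, ne_eq, iff_true, true_iff]) <;>
            first | omega | (constructor <;> intro h <;> omega) | (intro h; omega))
        · apply wordk_move
          · intro x z hx
            simp only [wordk_mem_nxs, Finset.mem_union, wordk_mem_R, HE.lo, HE.hi,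
              wordk_st_inj] at hx
            omega
          · simp only [wordk_mem_nxs, Finset.mem_union, wordk_mem_R, HE.lo, HE.hi, wordk_st_inj]
            ((try simp only [and_true, true_and, or_true, true_or, false_and, and_false, or_false,
                false_or, not_true_eq_false, not_false_eq_true, ne_eq, iff_true, true_iff]) <;>
              first | omega | (constructor <;> intro h <;> omega) | (intro h; omega))
          · have hQ : nxs (nxs (wordkR 0 m ∪ wordkR (m + 2) (M + 2)) (.ex (m + 1) 0))
                (.ex m 0) =
                wordkR 0 ((m + 1 : ℕ) : ℤ) ∪ wordkR (((m + 1 : ℕ) : ℤ) + 2) (M + 2) := by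
              apply wordk_ext
              intro x y
              simp only [wordk_mem_nxs, Finset.mem_union, wordk_mem_R, HE.lo, HE.hi, wordk_st_inj]
              push_cast
              omega
            rw [hQ]
            exact wordk_rn_nil _
      exact wordk_rn_append ih' h

/-- membership in the row -/
theorem wordk_mem_row {M : ℕ} {x y : ℤ} : st x y ∈ row M ↔ (0 ≤ x ∧ x < M) ∧ y = 0 := by
  rw [wordk_row, wordk_mem_R]

/-- moving a strand, nothing passed: general -/
theorem wordk_ez {P Q P' : Finset Site} {i : ℤ} {es : List HE} {w : Word Unit}
    (h0 : ∀ z, st i z ∈ P → z = 0 ∨ z = 1) (h1 : st i 0 ∈ P ↔ st i 1 ∉ P)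
    (h2 : ∀ x z, st x z ∈ P' ↔
      ((st x z ∈ P ∧ ¬ (x = i ∧ (z = 0 ∨ z = 1))) ∨ ((x = i ∧ (z = 0 ∨ z = 1)) ∧ st x z ∉ P)))
    (h4 : WordkRn P' es w Q) : WordkRn P (.ez i 0 :: es) w Q := by
  have h : WordkRn P (.ez i 0 :: es) ([] ++ w) Q := by
    refine wordk_rn_cons (P' := P') (wordk_wd_nil (e := .ez i 0) ?_ (btw_ez _ _ _)) ?_ ?_ h4
    · simpa [HE.lo, HE.hi] using h1
    · apply wordk_ext
      intro x z
      rw [h2, wordk_mem_nxs]
      simp only [HE.lo, HE.hi, wordk_st_inj, zero_add]
      have h5 : (x = i ∧ z = 0 ∨ x = i ∧ z = 1) ↔ (x = i ∧ (z = 0 ∨ z = 1)) := by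
        ((try simp only [and_true, true_and, or_true, true_or, false_and, and_false, or_false,
            false_or, not_true_eq_false, not_false_eq_true, ne_eq, iff_true, true_iff]) <;>
          first | omega | (constructor <;> intro h <;> omega) | (intro h; omega))
      rw [h5]
    · intro z hz
      simpa using h0 z hz
  exact h

/-- moving a strand along `ex`, nothing passed: general -/
theorem wordk_ex {P Q P' : Finset Site} {i k : ℤ} {es : List HE} {w : Word Unit}
    (h0 : ∀ x z, st x z ∈ P → ¬ ((x = i ∧ k < z) ∨ (x = i + 1 ∧ z < k)))
    (h1 : st i k ∈ P ↔ st (i + 1) k ∉ P)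
    (h2 : ∀ x z, st x z ∈ P' ↔
      ((st x z ∈ P ∧ ¬ ((x = i ∨ x = i + 1) ∧ z = k)) ∨ (((x = i ∨ x = i + 1) ∧ z = k) ∧
        st x z ∉ P)))
    (h4 : WordkRn P' es w Q) : WordkRn P (.ex i k :: es) w Q := by
  have h : WordkRn P (.ex i k :: es) ([] ++ w) Q := by
    refine wordk_rn_cons (P' := P') (wordk_wd_nil (e := .ex i k) h1 (wordk_btw_nil h0)) ?_ h1 h4
    apply wordk_ext
    intro x z
    rw [h2, wordk_mem_nxs]
    simp only [HE.lo, HE.hi, wordk_st_inj]
    have h5 : (x = i ∧ z = k ∨ x = i + 1 ∧ z = k) ↔ ((x = i ∨ x = i + 1) ∧ z = k) := by
      ((try simp only [and_true, true_and, or_true, true_or, false_and, and_false, or_false,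
          false_or, not_true_eq_false, not_false_eq_true, ne_eq, iff_true, true_iff]) <;>
        first | omega | (constructor <;> intro h <;> omega) | (intro h; omega))
    rw [h5]
  exact h

open Classical in
/-- a finite set of points given by a predicate -/
noncomputable def wordkS (M : ℕ) (p : ℤ → ℤ → Prop) : Finset Site :=
  (((Finset.Ico (0 : ℤ) (M + 2)) ×ˢ (Finset.Ico (0 : ℤ) 2)).image
    fun q : ℤ × ℤ => st q.1 q.2).filter fun q : Site => p (cx q) (cz q)

open Classical in
theorem wordk_mem_S {M : ℕ} {p : ℤ → ℤ → Prop} {x z : ℤ} : st x z ∈ wordkS M p ↔
    ((0 ≤ x ∧ x < M + 2) ∧ (0 ≤ z ∧ z < 2)) ∧ p x z := by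
  unfold wordkS
  rw [Finset.mem_filter, Finset.mem_image]
  constructor
  · rintro ⟨⟨q, hq, h1⟩, h2⟩
    rw [Finset.mem_product, Finset.mem_Ico, Finset.mem_Ico] at hq
    rw [wordk_st_inj] at h1
    obtain ⟨rfl, rfl⟩ := h1
    exact ⟨hq, h2⟩
  · rintro ⟨h1, h2⟩
    refine ⟨⟨(x, z), ?_, rfl⟩, h2⟩
    rw [Finset.mem_product, Finset.mem_Ico, Finset.mem_Ico]
    exact h1

theorem wordk_cup (n M : ℕ) (hn : n ≤ M) :
    WordkRn (row M) (kle (.cup ()) n M) [(.cup (), n)] (row (M + 2)) := by
  have h0 : row M = wordkR 0 M ∪ wordkR (M + 2) (M + 2) := by
    apply wordk_ext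
    intro x y
    rw [wordk_mem_row]
    simp only [Finset.mem_union, wordk_mem_R]
    ((try simp only [and_true, true_and, or_true, true_or, false_and, and_false, or_false,
        false_or, not_true_eq_false, not_false_eq_true, ne_eq, iff_true, true_iff]) <;>
      first | omega | (constructor <;> intro h <;> omega) | (intro h; omega))
  rw [h0]
  refine wordk_rn_append (w := []) (wordk_shR n M M hn (le_refl _)) ?_
  -- the cup
  have hc : wd (fun _ => ()) (wordkR 0 n ∪ wordkR (n + 2) (M + 2)) (.ez n 0) =
      [(.cup (), n)] := by
    rw [wordk_wd_cup _ _ (btw_ez _ _ _)]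
    · have : rk (wordkR 0 n ∪ wordkR (n + 2) (M + 2)) (HE.ez n 0).lo = n := by
        apply wordk_rk
        intro x y
        simp only [Finset.mem_union, wordk_mem_R]
        ((try simp only [and_true, true_and, or_true, true_or, false_and, and_false, or_false,
            false_or, not_true_eq_false, not_false_eq_true, ne_eq, iff_true, true_iff]) <;>
          first | omega | (constructor <;> intro h <;> omega) | (intro h; omega))
      rw [this]
    · simp only [HE.lo, Finset.mem_union, wordk_mem_R]
      ((try simp only [and_true, true_and, or_true, true_or, false_and, and_false, or_false,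
          false_or, not_true_eq_false, not_false_eq_true, ne_eq, iff_true, true_iff]) <;>
        first | omega | (constructor <;> intro h <;> omega) | (intro h; omega))
    · simp only [HE.hi, Finset.mem_union, wordk_mem_R]
      ((try simp only [and_true, true_and, or_true, true_or, false_and, and_false, or_false,
          false_or, not_true_eq_false, not_false_eq_true, ne_eq, iff_true, true_iff]) <;>
        first | omega | (constructor <;> intro h <;> omega) | (intro h; omega))
  refine wordk_rn_cons (w' := []) (P' := wordkS M fun x z => (z = 0 ∧ x ≠ n + 1) ∨ (z = 1 ∧ x = n))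
    hc ?_ ?_ ?_
  · apply wordk_ext
    intro x y
    simp only [wordk_mem_nxs, wordk_mem_S, Finset.mem_union, wordk_mem_R, HE.lo, HE.hi,
      wordk_st_inj]
    ((try simp only [and_true, true_and, or_true, true_or, false_and, and_false, or_false,
        false_or, not_true_eq_false, not_false_eq_true, ne_eq, iff_true, true_iff]) <;>
      first | omega | (constructor <;> intro h <;> omega) | (intro h; omega))
  · intro z
    simp only [Finset.mem_union, wordk_mem_R]
    ((try simp only [and_true, true_and, or_true, true_or, false_and, and_false, or_false,
        false_or, not_true_eq_false, not_false_eq_true, ne_eq, iff_true, true_iff]) <;>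
      first | omega | (constructor <;> intro h <;> omega) | (intro h; omega))
  · refine wordk_ex (P' := wordkS M fun x z => (z = 0 ∧ x ≠ n + 1) ∨ (z = 1 ∧ x = n + 1))
      ?_ ?_ ?_ ?_
    · intro x z
      simp only [wordk_mem_S]
      ((try simp only [and_true, true_and, or_true, true_or, false_and, and_false, or_false,
          false_or, not_true_eq_false, not_false_eq_true, ne_eq, iff_true, true_iff]) <;>
        first | omega | (constructor <;> intro h <;> omega) | (intro h; omega))
    · simp only [wordk_mem_S]
      ((try simp only [and_true, true_and, or_true, true_or, false_and, and_false, or_false,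
          false_or, not_true_eq_false, not_false_eq_true, ne_eq, iff_true, true_iff]) <;>
        first | omega | (constructor <;> intro h <;> omega) | (intro h; omega))
    · intro x z
      simp only [wordk_mem_S]
      ((try simp only [and_true, true_and, or_true, true_or, false_and, and_false, or_false,
          false_or, not_true_eq_false, not_false_eq_true, ne_eq, iff_true, true_iff]) <;>
        first | omega | (constructor <;> intro h <;> omega) | (intro h; omega))
    · refine wordk_ez (P' := row (M + 2)) ?_ ?_ ?_ (wordk_rn_nil _)
      · intro z
        simp only [wordk_mem_S]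
        ((try simp only [and_true, true_and, or_true, true_or, false_and, and_false, or_false,
            false_or, not_true_eq_false, not_false_eq_true, ne_eq, iff_true, true_iff]) <;>
          first | omega | (constructor <;> intro h <;> omega) | (intro h; omega))
      · simp only [wordk_mem_S]
        ((try simp only [and_true, true_and, or_true, true_or, false_and, and_false, or_false,
            false_or, not_true_eq_false, not_false_eq_true, ne_eq, iff_true, true_iff]) <;>
          first | omega | (constructor <;> intro h <;> omega) | (intro h; omega))
      · intro x z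
        simp only [wordk_mem_S, wordk_mem_row]
        push_cast
        ((try simp only [and_true, true_and, or_true, true_or, false_and, and_false, or_false,
            false_or, not_true_eq_false, not_false_eq_true, ne_eq, iff_true, true_iff]) <;>
          first | omega | (constructor <;> intro h <;> omega) | (intro h; omega))

theorem wordk_cap (n M : ℕ) (hn : n + 2 ≤ M) :
    WordkRn (row M) (kle .cap n M) [(.cap, n)] (row (M - 2)) := by
  obtain ⟨N, rfl⟩ : ∃ N, M = N + 2 := ⟨M - 2, by omega⟩
  have hN : N + 2 - 2 = N := by omega
  have hkl : kle .cap n (N + 2) = [.ez (n + 1) 0, .ex n 1, .ez n 0] ++ (shR n N).reverse := rfl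
  rw [hN, hkl]
  have h2 := wordk_shR_rev n N N (by omega) (le_refl _)
  have h0 : row N = wordkR 0 N ∪ wordkR (N + 2) (N + 2) := by
    apply wordk_ext
    intro x y
    rw [wordk_mem_row]
    simp only [Finset.mem_union, wordk_mem_R]
    ((try simp only [and_true, true_and, or_true, true_or, false_and, and_false, or_false,
        false_or, not_true_eq_false, not_false_eq_true, ne_eq, iff_true, true_iff]) <;>
      first | omega | (constructor <;> intro h <;> omega) | (intro h; omega))
  rw [h0]
  have h3 : WordkRn (row (N + 2)) [.ez (n + 1) 0, .ex n 1, .ez n 0] [(.cap, n)]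
      (wordkR 0 n ∪ wordkR (n + 2) (N + 2)) := by
    refine wordk_ez (P' := wordkS N fun x z => (z = 0 ∧ x ≠ n + 1) ∨ (z = 1 ∧ x = n + 1)) ?_ ?_ ?_ ?_
    · intro z
      simp only [wordk_mem_row]
      ((try simp only [and_true, true_and, or_true, true_or, false_and, and_false, or_false,
          false_or, not_true_eq_false, not_false_eq_true, ne_eq, iff_true, true_iff]) <;>
        first | omega | (constructor <;> intro h <;> omega) | (intro h; omega))
    · simp only [wordk_mem_row]
      push_cast
      ((try simp only [and_true, true_and, or_true, true_or, false_and, and_false, or_false,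
          false_or, not_true_eq_false, not_false_eq_true, ne_eq, iff_true, true_iff]) <;>
        first | omega | (constructor <;> intro h <;> omega) | (intro h; omega))
    · intro x z
      simp only [wordk_mem_S, wordk_mem_row]
      push_cast
      ((try simp only [and_true, true_and, or_true, true_or, false_and, and_false, or_false,
          false_or, not_true_eq_false, not_false_eq_true, ne_eq, iff_true, true_iff]) <;>
        first | omega | (constructor <;> intro h <;> omega) | (intro h; omega))
    · refine wordk_ex (P' := wordkS N fun x z => (z = 0 ∧ x ≠ n + 1) ∨ (z = 1 ∧ x = n)) ?_ ?_ ?_ ?_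
      · intro x z
        simp only [wordk_mem_S]
        ((try simp only [and_true, true_and, or_true, true_or, false_and, and_false, or_false,
            false_or, not_true_eq_false, not_false_eq_true, ne_eq, iff_true, true_iff]) <;>
          first | omega | (constructor <;> intro h <;> omega) | (intro h; omega))
      · simp only [wordk_mem_S]
        ((try simp only [and_true, true_and, or_true, true_or, false_and, and_false, or_false,
            false_or, not_true_eq_false, not_false_eq_true, ne_eq, iff_true, true_iff]) <;>
          first | omega | (constructor <;> intro h <;> omega) | (intro h; omega))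
      · intro x z
        simp only [wordk_mem_S]
        ((try simp only [and_true, true_and, or_true, true_or, false_and, and_false, or_false,
            false_or, not_true_eq_false, not_false_eq_true, ne_eq, iff_true, true_iff]) <;>
          first | omega | (constructor <;> intro h <;> omega) | (intro h; omega))
      · have hc : wd (fun _ => ()) (wordkS N fun x z => (z = 0 ∧ x ≠ n + 1) ∨ (z = 1 ∧ x = n))
            (.ez n 0) = [(.cap, n)] := by
          rw [wordk_wd_cap _ _ (btw_ez _ _ _)]
          · have : rk (wordkS N fun x z => (z = 0 ∧ x ≠ n + 1) ∨ (z = 1 ∧ x = n))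
                (HE.ez n 0).lo = n := by
              apply wordk_rk
              intro x y
              simp only [wordk_mem_S]
              ((try simp only [and_true, true_and, or_true, true_or, false_and, and_false, or_false,
                  false_or, not_true_eq_false, not_false_eq_true, ne_eq, iff_true, true_iff]) <;>
                first | omega | (constructor <;> intro h <;> omega) | (intro h; omega))
            rw [this]
          · simp only [HE.lo, wordk_mem_S]
            ((try simp only [and_true, true_and, or_true, true_or, false_and, and_false, or_false,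
                false_or, not_true_eq_false, not_false_eq_true, ne_eq, iff_true, true_iff]) <;>
              first | omega | (constructor <;> intro h <;> omega) | (intro h; omega))
          · simp only [HE.hi, wordk_mem_S]
            ((try simp only [and_true, true_and, or_true, true_or, false_and, and_false, or_false,
                false_or, not_true_eq_false, not_false_eq_true, ne_eq, iff_true, true_iff]) <;>
              first | omega | (constructor <;> intro h <;> omega) | (intro h; omega))
        refine wordk_rn_cons (w' := []) (P' := wordkR 0 n ∪ wordkR (n + 2) (N + 2)) hc ?_ ?_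
          (wordk_rn_nil _)
        · apply wordk_ext
          intro x y
          simp only [wordk_mem_nxs, wordk_mem_S, Finset.mem_union, wordk_mem_R, HE.lo, HE.hi,
            wordk_st_inj]
          ((try simp only [and_true, true_and, or_true, true_or, false_and, and_false, or_false,
              false_or, not_true_eq_false, not_false_eq_true, ne_eq, iff_true, true_iff]) <;>
            first | omega | (constructor <;> intro h <;> omega) | (intro h; omega))
        · intro z
          simp only [wordk_mem_S]
          ((try simp only [and_true, true_and, or_true, true_or, false_and, and_false, or_false,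
              false_or, not_true_eq_false, not_false_eq_true, ne_eq, iff_true, true_iff]) <;>
            first | omega | (constructor <;> intro h <;> omega) | (intro h; omega))
  have h4 := wordk_rn_append h3 h2
  exact h4

theorem wordk_pos (n M : ℕ) (hn : n + 2 ≤ M) :
    WordkRn (row M) (kle .pos n M) [(.pos, n)] (row M) := by
  show WordkRn (row M) [.ez n 0, .ex n 1, .ex n 0, .ez (n + 1) 0] [(.pos, n)] (row M)
  refine wordk_ez (P' := wordkS M fun x z => x < M ∧ ((z = 0 ∧ x ≠ n) ∨ (z = 1 ∧ x = n))) ?_ ?_ ?_ ?_
  · intro z
    simp only [wordk_mem_row]
    ((try simp only [and_true, true_and, or_true, true_or, false_and, and_false, or_false,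
        false_or, not_true_eq_false, not_false_eq_true, ne_eq, iff_true, true_iff]) <;>
      first | omega | (constructor <;> intro h <;> omega) | (intro h; omega))
  · simp only [wordk_mem_row]
    ((try simp only [and_true, true_and, or_true, true_or, false_and, and_false, or_false,
        false_or, not_true_eq_false, not_false_eq_true, ne_eq, iff_true, true_iff]) <;>
      first | omega | (constructor <;> intro h <;> omega) | (intro h; omega))
  · intro x z
    simp only [wordk_mem_S, wordk_mem_row]
    ((try simp only [and_true, true_and, or_true, true_or, false_and, and_false, or_false,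
        false_or, not_true_eq_false, not_false_eq_true, ne_eq, iff_true, true_iff]) <;>
      first | omega | (constructor <;> intro h <;> omega) | (intro h; omega))
  · have hc : wd (fun _ => ()) (wordkS M fun x z => x < M ∧ ((z = 0 ∧ x ≠ n) ∨ (z = 1 ∧ x = n)))
        (.ex n 1) = [(.pos, n)] := by
      rw [wordk_wd_cross (b := st (n + 1) 0)]
      · have h1 : rk (wordkS M fun x z => x < M ∧ ((z = 0 ∧ x ≠ n) ∨ (z = 1 ∧ x = n)))
            (HE.ex n 1).lo = n := by
          apply wordk_rk
          intro x y
          simp only [wordk_mem_S]
          ((try simp only [and_true, true_and, or_true, true_or, false_and, and_false, or_false,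
              false_or, not_true_eq_false, not_false_eq_true, ne_eq, iff_true, true_iff]) <;>
            first | omega | (constructor <;> intro h <;> omega) | (intro h; omega))
        rw [h1]
        have h2 : ¬ (cz (HE.ex n 1).lo < cz (st (n + 1) 0)) := by
          show ¬ ((1 : ℤ) < 0)
          omega
        rw [if_neg h2]
      · simp only [HE.lo, wordk_mem_S]
        ((try simp only [and_true, true_and, or_true, true_or, false_and, and_false, or_false,
            false_or, not_true_eq_false, not_false_eq_true, ne_eq, iff_true, true_iff]) <;>
          first | omega | (constructor <;> intro h <;> omega) | (intro h; omega))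
      · simp only [HE.hi, wordk_mem_S]
        ((try simp only [and_true, true_and, or_true, true_or, false_and, and_false, or_false,
            false_or, not_true_eq_false, not_false_eq_true, ne_eq, iff_true, true_iff]) <;>
          first | omega | (constructor <;> intro h <;> omega) | (intro h; omega))
      · apply wordk_btw_single
        intro x z
        simp only [wordk_mem_S]
        ((try simp only [and_true, true_and, or_true, true_or, false_and, and_false, or_false,
            false_or, not_true_eq_false, not_false_eq_true, ne_eq, iff_true, true_iff]) <;>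
          first | omega | (constructor <;> intro h <;> omega) | (intro h; omega))
    refine wordk_rn_cons (w' := [])
      (P' := wordkS M fun x z => x < M ∧ ((z = 0 ∧ x ≠ n) ∨ (z = 1 ∧ x = n + 1))) hc ?_ ?_ ?_
    · apply wordk_ext
      intro x y
      simp only [wordk_mem_nxs, wordk_mem_S, HE.lo, HE.hi, wordk_st_inj]
      ((try simp only [and_true, true_and, or_true, true_or, false_and, and_false, or_false,
          false_or, not_true_eq_false, not_false_eq_true, ne_eq, iff_true, true_iff]) <;>
        first | omega | (constructor <;> intro h <;> omega) | (intro h; omega))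
    · simp only [wordkCond, wordk_mem_S]
      ((try simp only [and_true, true_and, or_true, true_or, false_and, and_false, or_false,
          false_or, not_true_eq_false, not_false_eq_true, ne_eq, iff_true, true_iff]) <;>
        first | omega | (constructor <;> intro h <;> omega) | (intro h; omega))
    · refine wordk_ex (P' := wordkS M fun x z => x < M ∧ ((z = 0 ∧ x ≠ n + 1) ∨ (z = 1 ∧ x = n + 1)))
        ?_ ?_ ?_ ?_
      · intro x z
        simp only [wordk_mem_S]
        ((try simp only [and_true, true_and, or_true, true_or, false_and, and_false, or_false,
            false_or, not_true_eq_false, not_false_eq_true, ne_eq, iff_true, true_iff]) <;>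
          first | omega | (constructor <;> intro h <;> omega) | (intro h; omega))
      · simp only [wordk_mem_S]
        ((try simp only [and_true, true_and, or_true, true_or, false_and, and_false, or_false,
            false_or, not_true_eq_false, not_false_eq_true, ne_eq, iff_true, true_iff]) <;>
          first | omega | (constructor <;> intro h <;> omega) | (intro h; omega))
      · intro x z
        simp only [wordk_mem_S]
        ((try simp only [and_true, true_and, or_true, true_or, false_and, and_false, or_false,
            false_or, not_true_eq_false, not_false_eq_true, ne_eq, iff_true, true_iff]) <;>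
          first | omega | (constructor <;> intro h <;> omega) | (intro h; omega))
      · refine wordk_ez (P' := row M) ?_ ?_ ?_ (wordk_rn_nil _)
        · intro z
          simp only [wordk_mem_S]
          ((try simp only [and_true, true_and, or_true, true_or, false_and, and_false, or_false,
              false_or, not_true_eq_false, not_false_eq_true, ne_eq, iff_true, true_iff]) <;>
            first | omega | (constructor <;> intro h <;> omega) | (intro h; omega))
        · simp only [wordk_mem_S]
          ((try simp only [and_true, true_and, or_true, true_or, false_and, and_false, or_false,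
              false_or, not_true_eq_false, not_false_eq_true, ne_eq, iff_true, true_iff]) <;>
            first | omega | (constructor <;> intro h <;> omega) | (intro h; omega))
        · intro x z
          simp only [wordk_mem_S, wordk_mem_row]
          ((try simp only [and_true, true_and, or_true, true_or, false_and, and_false, or_false,
              false_or, not_true_eq_false, not_false_eq_true, ne_eq, iff_true, true_iff]) <;>
            first | omega | (constructor <;> intro h <;> omega) | (intro h; omega))

theorem wordk_neg (n M : ℕ) (hn : n + 2 ≤ M) :
    WordkRn (row M) (kle .neg n M) [(.neg, n)] (row M) := by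
  show WordkRn (row M) [.ez (n + 1) 0, .ex n 1, .ex n 0, .ez n 0] [(.neg, n)] (row M)
  refine wordk_ez (P' := wordkS M fun x z => x < M ∧ ((z = 0 ∧ x ≠ n + 1) ∨ (z = 1 ∧ x = n + 1)))
    ?_ ?_ ?_ ?_
  · intro z
    simp only [wordk_mem_row]
    ((try simp only [and_true, true_and, or_true, true_or, false_and, and_false, or_false,
        false_or, not_true_eq_false, not_false_eq_true, ne_eq, iff_true, true_iff]) <;>
      first | omega | (constructor <;> intro h <;> omega) | (intro h; omega))
  · simp only [wordk_mem_row]
    ((try simp only [and_true, true_and, or_true, true_or, false_and, and_false, or_false,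
        false_or, not_true_eq_false, not_false_eq_true, ne_eq, iff_true, true_iff]) <;>
      first | omega | (constructor <;> intro h <;> omega) | (intro h; omega))
  · intro x z
    simp only [wordk_mem_S, wordk_mem_row]
    ((try simp only [and_true, true_and, or_true, true_or, false_and, and_false, or_false,
        false_or, not_true_eq_false, not_false_eq_true, ne_eq, iff_true, true_iff]) <;>
      first | omega | (constructor <;> intro h <;> omega) | (intro h; omega))
  · refine wordk_ex (P' := wordkS M fun x z => x < M ∧ ((z = 0 ∧ x ≠ n + 1) ∨ (z = 1 ∧ x = n)))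
      ?_ ?_ ?_ ?_
    · intro x z
      simp only [wordk_mem_S]
      ((try simp only [and_true, true_and, or_true, true_or, false_and, and_false, or_false,
          false_or, not_true_eq_false, not_false_eq_true, ne_eq, iff_true, true_iff]) <;>
        first | omega | (constructor <;> intro h <;> omega) | (intro h; omega))
    · simp only [wordk_mem_S]
      ((try simp only [and_true, true_and, or_true, true_or, false_and, and_false, or_false,
          false_or, not_true_eq_false, not_false_eq_true, ne_eq, iff_true, true_iff]) <;>
        first | omega | (constructor <;> intro h <;> omega) | (intro h; omega))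
    · intro x z
      simp only [wordk_mem_S]
      ((try simp only [and_true, true_and, or_true, true_or, false_and, and_false, or_false,
          false_or, not_true_eq_false, not_false_eq_true, ne_eq, iff_true, true_iff]) <;>
        first | omega | (constructor <;> intro h <;> omega) | (intro h; omega))
    · have hc : wd (fun _ => ())
          (wordkS M fun x z => x < M ∧ ((z = 0 ∧ x ≠ n + 1) ∨ (z = 1 ∧ x = n)))
          (.ex n 0) = [(.neg, n)] := by
        rw [wordk_wd_cross (b := st n 1)]
        · have h1 : rk (wordkS M fun x z => x < M ∧ ((z = 0 ∧ x ≠ n + 1) ∨ (z = 1 ∧ x = n)))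
              (HE.ex n 0).lo = n := by
            apply wordk_rk
            intro x y
            simp only [wordk_mem_S]
            ((try simp only [and_true, true_and, or_true, true_or, false_and, and_false, or_false,
                false_or, not_true_eq_false, not_false_eq_true, ne_eq, iff_true, true_iff]) <;>
              first | omega | (constructor <;> intro h <;> omega) | (intro h; omega))
          rw [h1]
          have h2 : cz (HE.ex n 0).lo < cz (st n 1) := by
            show ((0 : ℤ) < 1)
            omega
          rw [if_pos h2]
        · simp only [HE.lo, wordk_mem_S]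
          ((try simp only [and_true, true_and, or_true, true_or, false_and, and_false, or_false,
              false_or, not_true_eq_false, not_false_eq_true, ne_eq, iff_true, true_iff]) <;>
            first | omega | (constructor <;> intro h <;> omega) | (intro h; omega))
        · simp only [HE.hi, wordk_mem_S]
          ((try simp only [and_true, true_and, or_true, true_or, false_and, and_false, or_false,
              false_or, not_true_eq_false, not_false_eq_true, ne_eq, iff_true, true_iff]) <;>
            first | omega | (constructor <;> intro h <;> omega) | (intro h; omega))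
        · apply wordk_btw_single
          intro x z
          simp only [wordk_mem_S]
          ((try simp only [and_true, true_and, or_true, true_or, false_and, and_false, or_false,
              false_or, not_true_eq_false, not_false_eq_true, ne_eq, iff_true, true_iff]) <;>
            first | omega | (constructor <;> intro h <;> omega) | (intro h; omega))
      refine wordk_rn_cons (w' := [])
        (P' := wordkS M fun x z => x < M ∧ ((z = 0 ∧ x ≠ n) ∨ (z = 1 ∧ x = n))) hc ?_ ?_ ?_
      · apply wordk_ext
        intro x y
        simp only [wordk_mem_nxs, wordk_mem_S, HE.lo, HE.hi, wordk_st_inj]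
        ((try simp only [and_true, true_and, or_true, true_or, false_and, and_false, or_false,
            false_or, not_true_eq_false, not_false_eq_true, ne_eq, iff_true, true_iff]) <;>
          first | omega | (constructor <;> intro h <;> omega) | (intro h; omega))
      · simp only [wordkCond, wordk_mem_S]
        ((try simp only [and_true, true_and, or_true, true_or, false_and, and_false, or_false,
            false_or, not_true_eq_false, not_false_eq_true, ne_eq, iff_true, true_iff]) <;>
          first | omega | (constructor <;> intro h <;> omega) | (intro h; omega))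
      · refine wordk_ez (P' := row M) ?_ ?_ ?_ (wordk_rn_nil _)
        · intro z
          simp only [wordk_mem_S]
          ((try simp only [and_true, true_and, or_true, true_or, false_and, and_false, or_false,
              false_or, not_true_eq_false, not_false_eq_true, ne_eq, iff_true, true_iff]) <;>
            first | omega | (constructor <;> intro h <;> omega) | (intro h; omega))
        · simp only [wordk_mem_S]
          ((try simp only [and_true, true_and, or_true, true_or, false_and, and_false, or_false,
              false_or, not_true_eq_false, not_false_eq_true, ne_eq, iff_true, true_iff]) <;>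
            first | omega | (constructor <;> intro h <;> omega) | (intro h; omega))
        · intro x z
          simp only [wordk_mem_S, wordk_mem_row]
          ((try simp only [and_true, true_and, or_true, true_or, false_and, and_false, or_false,
              false_or, not_true_eq_false, not_false_eq_true, ne_eq, iff_true, true_iff]) <;>
            first | omega | (constructor <;> intro h <;> omega) | (intro h; omega))

theorem wordk_kle {k : Kind Unit} {n : ℕ} {s t : List Unit} (h : Step (triv Unit) k n s t) :
    WordkRn (row s.length) (kle k n s.length) [(k, n)] (row t.length) := by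
  obtain ⟨h1, h2⟩ := wordk_step h
  cases k with
  | cup c =>
    simp only [Kind.inn, Kind.out] at h1 h2
    have h3 : t.length = s.length + 2 := by omega
    rw [h3]
    exact wordk_cup n s.length (by omega)
  | cap =>
    simp only [Kind.inn, Kind.out] at h1 h2
    have h3 : t.length = s.length - 2 := by omega
    rw [h3]
    exact wordk_cap n s.length (by omega)
  | pos =>
    simp only [Kind.inn, Kind.out] at h1 h2
    have h3 : t.length = s.length := by omega
    rw [h3]
    exact wordk_pos n s.length (by omega)
  | neg =>
    simp only [Kind.inn, Kind.out] at h1 h2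
    have h3 : t.length = s.length := by omega
    rw [h3]
    exact wordk_neg n s.length (by omega)

theorem wordk_ke {w : Word Unit} {s t : List Unit} (h : Path (triv Unit) w s t) :
    WordkRn (row s.length) (ke w s.length) w (row t.length) := by
  induction h with
  | nil s => exact wordk_rn_nil _
  | @cons k i w s t r hs _ ih =>
    obtain ⟨h1, h2⟩ := wordk_step hs
    have h3 : s.length + k.out - k.inn = t.length := by omega
    show WordkRn _ (kle k i s.length ++ ke w (s.length + k.out - k.inn)) ([(k, i)] ++ w) _
    rw [h3]
    exact wordk_rn_append (wordk_kle hs) ih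

theorem run_kle {k : Kind Unit} {n : ℕ} {s t : List Unit} (h : Step (triv Unit) k n s t) :
    run1 (row s.length) (kle k n s.length) = [(k, n)] ∧
      fin (row s.length) (kle k n s.length) = row t.length :=
  ⟨(wordk_kle h).1, (wordk_kle h).2.1⟩

theorem run_ke {w : Word Unit} {s t : List Unit} (h : Path (triv Unit) w s t) :
    run1 (row s.length) (ke w s.length) = w ∧ fin (row s.length) (ke w s.length) = row t.length :=
  ⟨(wordk_ke h).1, (wordk_ke h).2.1⟩

theorem nice_kle {k : Kind Unit} {n : ℕ} {s t : List Unit} (h : Step (triv Unit) k n s t) :
    Nice (row s.length) (kle k n s.length) := (wordk_kle h).2.2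

theorem nice_ke {w : Word Unit} {s t : List Unit} (h : Path (triv Unit) w s t) :
    Nice (row s.length) (ke w s.length) := (wordk_ke h).2.2

end Pool.Agent.Lib.MP_131179_gt.Dehn
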